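import Pool.Agent.H63.GO.Defs

/-! # Second order expansion at the critical point -/

namespace Pool.Agent.H63.GO

open Complex Filter Topology MeasureTheory
open scoped BigOperators

/-- second order expansion in one direction -/
private theorem MTaylor_dir {ι : Type} [Fintype ι] {V : (ι → ℂ) → ℂ} {U : Set (ι → ℂ)}
    (hU : IsOpen U) (hV : AnalyticOnNhd ℂ V U) {z v : ι → ℂ} (hz : z ∈ U)
    (hg : fderiv ℂ V z v = 0) :
    Tendsto (fun M : ℕ => (M : ℂ) * (V (z + ((1 / Real.sqrt M : ℝ) : ℂ) • v) - V z)) atTop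
      (𝓝 (1 / 2 * fderiv ℂ (fderiv ℂ V) z v v)) := by
  set D := fderiv ℂ (fderiv ℂ V) z with hD
  have hline : ∀ t : ℂ, HasDerivAt (fun t : ℂ => z + t • v) v t := by
    intro t
    have h1 := ((hasDerivAt_id t).smul_const v).const_add z
    simpa using h1
  have hF : HasFDerivAt (fderiv ℂ V) D z := (hV.fderiv z hz).differentiableAt.hasFDerivAt
  -- the derivative of the first derivative in the direction `v`
  have h1 : HasDerivAt (fun t : ℂ => fderiv ℂ V (z + t • v) v) (D v v) 0 := by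
    have h2 : HasDerivAt (fun t : ℂ => fderiv ℂ V (z + t • v)) (D v) 0 := by
      have h3 : HasFDerivAt (fderiv ℂ V) D (z + (0 : ℂ) • v) := by
        rw [zero_smul, add_zero]
        exact hF
      exact h3.comp_hasDerivAt (0 : ℂ) (hline 0)
    exact ((ContinuousLinearMap.apply ℂ ℂ v).hasFDerivAt.comp_hasDerivAt (0 : ℂ) h2)
  have h2 : ∀ t : ℂ, z + t • v ∈ U → HasDerivAt (fun t : ℂ => V (z + t • v))
      (fderiv ℂ V (z + t • v) v) t := by
    intro t ht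
    exact ((hV _ ht).differentiableAt.hasFDerivAt).comp_hasDerivAt t (hline t)
  have hcont : Continuous fun t : ℂ => z + t • v := by fun_prop
  have h3 : ∀ᶠ t : ℂ in 𝓝 0, z + t • v ∈ U := by
    refine hcont.continuousAt.eventually ?_
    show ∀ᶠ y in 𝓝 (z + (0 : ℂ) • v), y ∈ U
    rw [zero_smul, add_zero]
    exact hU.mem_nhds hz
  rw [Metric.tendsto_atTop]
  intro ε hε
  have h4 := h1.isLittleO.def (show 0 < ε / 2 by positivity)
  obtain ⟨r, hr, hball⟩ := Metric.eventually_nhds_iff_ball.1 (h3.and h4)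
  have hball1 : ∀ t : ℂ, ‖t‖ < r → z + t • v ∈ U ∧
      ‖fderiv ℂ V (z + t • v) v - t * D v v‖ ≤ ε / 2 * ‖t‖ := by
    intro t ht
    obtain ⟨h5, h6⟩ := hball t (by rwa [Metric.mem_ball, dist_zero_right])
    refine ⟨h5, ?_⟩
    rwa [zero_smul, add_zero, hg, sub_zero, sub_zero, smul_eq_mul] at h6
  have key : ∀ t : ℂ, ‖t‖ < r →
      ‖V (z + t • v) - V z - t ^ 2 * (1 / 2 * D v v)‖ ≤ ε / 2 * ‖t‖ * ‖t‖ := by
    intro t ht
    have h5 : ∀ x ∈ Metric.closedBall (0 : ℂ) ‖t‖, HasDerivWithinAt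
        (fun t : ℂ => V (z + t • v) - t ^ 2 * (1 / 2 * D v v))
        (fderiv ℂ V (z + x • v) v - x * D v v) (Metric.closedBall (0 : ℂ) ‖t‖) x := by
      intro x hx
      have hx' : ‖x‖ < r := (mem_closedBall_zero_iff.1 hx).trans_lt ht
      have h6 := (h2 x (hball1 x hx').1).sub ((hasDerivAt_pow 2 x).mul_const (1 / 2 * D v v))
      refine (h6.congr_deriv ?_).hasDerivWithinAt
      push_cast
      ring
    have h6 : ∀ x ∈ Metric.closedBall (0 : ℂ) ‖t‖,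
        ‖fderiv ℂ V (z + x • v) v - x * D v v‖ ≤ ε / 2 * ‖t‖ := by
      intro x hx
      have hx1 := mem_closedBall_zero_iff.1 hx
      exact (hball1 x (hx1.trans_lt ht)).2.trans (mul_le_mul_of_nonneg_left hx1 (by positivity))
    have h7 := Convex.norm_image_sub_le_of_norm_hasDerivWithin_le h5 h6
      (convex_closedBall (0 : ℂ) ‖t‖) (Metric.mem_closedBall_self (norm_nonneg t))
      (mem_closedBall_zero_iff.2 (le_refl ‖t‖))
    simp only [zero_smul, add_zero, sub_zero, ne_eq, OfNat.ofNat_ne_zero, not_false_eq_true,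
      zero_pow, zero_mul] at h7
    have h8 : V (z + t • v) - V z - t ^ 2 * (1 / 2 * D v v) =
        V (z + t • v) - t ^ 2 * (1 / 2 * D v v) - V z := by ring
    rw [h8]
    exact h7
  obtain ⟨N, hN⟩ := exists_nat_gt (1 / r ^ 2)
  have hr2 : 0 < r ^ 2 := by positivity
  refine ⟨N + 1, fun M hM => ?_⟩
  have hM1 : (0 : ℝ) < M := by
    have : 0 < M := by omega
    exact_mod_cast this
  have hMN : 1 / r ^ 2 < (M : ℝ) := hN.trans (by exact_mod_cast (by omega : N < M))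
  have hs : 0 < Real.sqrt M := Real.sqrt_pos.2 hM1
  set s : ℝ := 1 / Real.sqrt M with hsd
  have hs2 : s ^ 2 * M = 1 := by
    rw [hsd, div_pow, one_pow, Real.sq_sqrt hM1.le, one_div_mul_cancel hM1.ne']
  have hs0 : 0 < s := by rw [hsd]; positivity
  have hsn : ‖((s : ℝ) : ℂ)‖ = s := by
    rw [Complex.norm_real, Real.norm_eq_abs, abs_of_pos hs0]
  have hsr : s < r := by
    have h5 : s ^ 2 < r ^ 2 := by
      have h6 : 1 < r ^ 2 * M := by
        rw [div_lt_iff₀ hr2] at hMN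
        linarith
      have h7 : s ^ 2 * M < r ^ 2 * M := by rw [hs2]; exact h6
      exact lt_of_mul_lt_mul_right h7 hM1.le
    exact lt_of_pow_lt_pow_left₀ 2 hr.le h5
  have h5 := key (s : ℂ) (by rw [hsn]; exact hsr)
  rw [hsn] at h5
  have hs2c : ((s : ℝ) : ℂ) ^ 2 * (M : ℂ) = 1 := by exact_mod_cast hs2
  rw [dist_eq_norm]
  have h6 : (M : ℂ) * (V (z + (s : ℂ) • v) - V z) - 1 / 2 * D v v =
      (M : ℂ) * (V (z + (s : ℂ) • v) - V z - (s : ℂ) ^ 2 * (1 / 2 * D v v)) := by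
    have h7 : (M : ℂ) * ((s : ℂ) ^ 2 * (1 / 2 * D v v)) = 1 / 2 * D v v := by
      calc (M : ℂ) * ((s : ℂ) ^ 2 * (1 / 2 * D v v)) =
            ((s : ℂ) ^ 2 * (M : ℂ)) * (1 / 2 * D v v) := by ring
        _ = 1 / 2 * D v v := by rw [hs2c, one_mul]
    linear_combination h7
  rw [h6, norm_mul, Complex.norm_natCast]
  calc (M : ℝ) * ‖V (z + (s : ℂ) • v) - V z - (s : ℂ) ^ 2 * (1 / 2 * D v v)‖
      ≤ (M : ℝ) * (ε / 2 * s * s) := mul_le_mul_of_nonneg_left h5 hM1.le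
    _ = ε / 2 * (s ^ 2 * M) := by ring
    _ = ε / 2 := by rw [hs2, mul_one]
    _ < ε := by linarith

private theorem MTaylor_cp {ι : Type} (ac bc ξ : ι → ℝ) (s : ℝ) :
    cp (ac + s • ξ) bc = cp ac bc + (s : ℂ) • rc ξ := by
  funext j
  simp only [cp, rc, Pi.add_apply, Pi.smul_apply, smul_eq_mul]
  push_cast
  ring

private theorem MTaylor_bil {ι : Type} [Fintype ι] [DecidableEq ι]
    (D : (ι → ℂ) →L[ℂ] (ι → ℂ) →L[ℂ] ℂ) (ξ : ι → ℝ) :
    D (rc ξ) (rc ξ) = ∑ a, ∑ b, D (Pi.single a 1) (Pi.single b 1) * ξ a * ξ b := by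
  have h1 : rc ξ = ∑ a, (ξ a : ℂ) • (Pi.single a (1 : ℂ) : ι → ℂ) := by
    funext j
    rw [Finset.sum_apply]
    simp [rc, Pi.single_apply]
  have h2 : D (rc ξ) (rc ξ) = ∑ a, (ξ a : ℂ) * D (Pi.single a 1) (rc ξ) := by
    have h4 : D (rc ξ) = ∑ a, (ξ a : ℂ) • D (Pi.single a 1) := by
      conv_lhs => rw [h1]
      rw [map_sum]
      refine Finset.sum_congr rfl fun a _ => ?_
      rw [map_smul]
    rw [h4, sum_apply]
    refine Finset.sum_congr rfl fun a _ => ?_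
    rw [ContinuousLinearMap.smul_apply, smul_eq_mul]
  rw [h2]
  refine Finset.sum_congr rfl fun a _ => ?_
  have h3 : D (Pi.single a 1) (rc ξ) = ∑ b, (ξ b : ℂ) * D (Pi.single a 1) (Pi.single b 1) := by
    conv_lhs => rw [h1]
    rw [map_sum]
    refine Finset.sum_congr rfl fun b _ => ?_
    rw [map_smul, smul_eq_mul]
  rw [h3, Finset.mul_sum]
  refine Finset.sum_congr rfl fun b _ => ?_
  ring

/-- The quadratic form at the critical point. -/
theorem taylor_crit {ι : Type} [Fintype ι] [DecidableEq ι] (V : (ι → ℂ) → ℂ) (U : Set (ι → ℂ))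
    (hU : IsOpen U) (hV : AnalyticOnNhd ℂ V U) (ac bc : ι → ℝ) (hz : cp ac bc ∈ U)
    (hg : ∀ ξ : ι → ℝ, fderiv ℂ V (cp ac bc) (rc ξ) = 0) (K : Set (ι → ℝ)) (hK : K ∈ 𝓝 ac)
    (c : ℝ) (hc : 0 < c)
    (hdec : ∀ a ∈ K, (V (cp a bc)).re ≤ (V (cp ac bc)).re - c * ∑ j, (a j - ac j) ^ 2) :
    ∃ q : ι → ι → ℂ, (∀ i j, q i j = q j i) ∧
      (∀ ξ : ι → ℝ, c * ∑ a, ξ a ^ 2 ≤ (∑ a, ∑ b, q a b * ξ a * ξ b).re) ∧
      ∀ ξ : ι → ℝ, Tendsto (fun M : ℕ => (M : ℂ) *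
        (V (cp (ac + (1 / Real.sqrt M) • ξ) bc) - V (cp ac bc))) atTop
        (𝓝 (-∑ a, ∑ b, q a b * ξ a * ξ b)) := by
  set D := fderiv ℂ (fderiv ℂ V) (cp ac bc) with hD
  obtain ⟨q, hq⟩ : ∃ q : ι → ι → ℂ, q = fun a b => -(1 / 4) *
      (D (Pi.single a 1) (Pi.single b 1) + D (Pi.single b 1) (Pi.single a 1)) := ⟨_, rfl⟩
  have hform : ∀ ξ : ι → ℝ, -∑ a, ∑ b, q a b * ξ a * ξ b = 1 / 2 * D (rc ξ) (rc ξ) := by
    intro ξ
    have h1 : ∑ a, ∑ b, q a b * ξ a * ξ b = -(1 / 4) * (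
        ∑ a, ∑ b, D (Pi.single a 1) (Pi.single b 1) * ξ a * ξ b +
        ∑ a, ∑ b, D (Pi.single b 1) (Pi.single a 1) * ξ b * ξ a) := by
      rw [← Finset.sum_add_distrib, Finset.mul_sum]
      refine Finset.sum_congr rfl fun a _ => ?_
      rw [← Finset.sum_add_distrib, Finset.mul_sum]
      refine Finset.sum_congr rfl fun b _ => ?_
      rw [hq]
      ring
    have h2 : ∑ a, ∑ b, D (Pi.single b 1) (Pi.single a 1) * ξ b * ξ a =
        ∑ a, ∑ b, D (Pi.single a 1) (Pi.single b 1) * ξ a * ξ b := Finset.sum_comm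
    rw [h1, h2, MTaylor_bil]
    ring
  have htend : ∀ ξ : ι → ℝ, Tendsto (fun M : ℕ => (M : ℂ) *
        (V (cp (ac + (1 / Real.sqrt M) • ξ) bc) - V (cp ac bc))) atTop
        (𝓝 (-∑ a, ∑ b, q a b * ξ a * ξ b)) := by
    intro ξ
    rw [hform ξ]
    have h1 := MTaylor_dir hU hV hz (hg ξ)
    refine h1.congr fun M => ?_
    rw [MTaylor_cp]
  refine ⟨q, fun i j => by rw [hq]; ring, fun ξ => ?_, htend⟩
  have h1 := (Complex.continuous_re.tendsto _).comp (htend ξ)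
  have hseq : Tendsto (fun M : ℕ => ac + (1 / Real.sqrt M) • ξ) atTop (𝓝 ac) := by
    have h2 : Tendsto (fun M : ℕ => 1 / Real.sqrt M) atTop (𝓝 0) := by
      have h3 : Tendsto (fun M : ℕ => Real.sqrt M) atTop atTop :=
        Real.tendsto_sqrt_atTop.comp tendsto_natCast_atTop_atTop
      exact tendsto_const_nhds.div_atTop h3
    have h4 : Tendsto (fun M : ℕ => ac + (1 / Real.sqrt M) • ξ) atTop (𝓝 (ac + (0 : ℝ) • ξ)) :=
      tendsto_const_nhds.add (h2.smul tendsto_const_nhds)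
    rwa [zero_smul, add_zero] at h4
  have h2 : ∀ᶠ M : ℕ in atTop, ((M : ℂ) *
        (V (cp (ac + (1 / Real.sqrt M) • ξ) bc) - V (cp ac bc))).re ≤ -(c * ∑ a, ξ a ^ 2) := by
    filter_upwards [hseq.eventually hK, eventually_gt_atTop 0] with M hM hM0
    have hM1 : (0 : ℝ) < M := by exact_mod_cast hM0
    have h3 := hdec _ hM
    have h4 : ∑ j, ((ac + (1 / Real.sqrt M) • ξ) j - ac j) ^ 2 = (1 / M) * ∑ a, ξ a ^ 2 := by
      rw [Finset.mul_sum]
      refine Finset.sum_congr rfl fun j _ => ?_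
      rw [Pi.add_apply, Pi.smul_apply, smul_eq_mul, add_sub_cancel_left, mul_pow, div_pow,
        one_pow, Real.sq_sqrt hM1.le]
    rw [h4] at h3
    have h5 : ((M : ℂ) * (V (cp (ac + (1 / Real.sqrt M) • ξ) bc) - V (cp ac bc))).re =
        M * ((V (cp (ac + (1 / Real.sqrt M) • ξ) bc)).re - (V (cp ac bc)).re) := by
      rw [← Complex.ofReal_natCast, Complex.re_ofReal_mul, Complex.sub_re]
    rw [h5]
    have h6 : (V (cp (ac + (1 / Real.sqrt M) • ξ) bc)).re - (V (cp ac bc)).re ≤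
        -(c * (1 / M * ∑ a, ξ a ^ 2)) := by linarith
    have h7 := mul_le_mul_of_nonneg_left h6 hM1.le
    have h8 : (M : ℝ) * -(c * (1 / M * ∑ a, ξ a ^ 2)) = -(c * ∑ a, ξ a ^ 2) := by
      field_simp
    rwa [h8] at h7
  have h3 := le_of_tendsto h1 h2
  rw [Complex.neg_re] at h3
  linarith

end Pool.Agent.H63.GO
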