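import Pool.Agent.H63.GO.Defs

/-! # Convexity of the real part of the potential -/

namespace Pool.Agent.H63.GO

open Complex Filter Topology
open scoped BigOperators

private theorem SCalc_D2_eq {ι : Type} [Fintype ι] [DecidableEq ι] (V : (ι → ℂ) → ℂ)
    (U : Set (ι → ℂ)) (hV : AnalyticOnNhd ℂ V U) (z : ι → ℂ) (hz : z ∈ U) (v w : ι → ℂ) :
    HasFDerivAt (fun y => fderiv ℂ V y v)
      ((ContinuousLinearMap.apply ℂ ℂ v).comp (fderiv ℂ (fderiv ℂ V) z)) z ∧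
    fderiv ℂ (fun y => fderiv ℂ V y v) z w = (fderiv ℂ (fderiv ℂ V) z w) v := by
  have h1 : HasFDerivAt (fderiv ℂ V) (fderiv ℂ (fderiv ℂ V) z) z :=
    (hV.fderiv z hz).differentiableAt.hasFDerivAt
  have h2 : HasFDerivAt (fun y => fderiv ℂ V y v)
      ((ContinuousLinearMap.apply ℂ ℂ v).comp (fderiv ℂ (fderiv ℂ V) z)) z :=
    (ContinuousLinearMap.apply ℂ ℂ v).hasFDerivAt.comp z h1
  refine ⟨h2, ?_⟩
  rw [h2.fderiv]
  rfl

private theorem SCalc_line1 {ι : Type} [Fintype ι] [DecidableEq ι] (V : (ι → ℂ) → ℂ)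
    (U : Set (ι → ℂ)) (hV : AnalyticOnNhd ℂ V U) (z : ℝ → ι → ℂ) (v : ι → ℂ) (t : ℝ)
    (hz : z t ∈ U) (hd : HasDerivAt z v t) :
    HasDerivAt (fun s => (V (z s)).re) (fderiv ℂ V (z t) v).re t := by
  have h1 : HasFDerivAt V (fderiv ℂ V (z t)) (z t) := (hV (z t) hz).differentiableAt.hasFDerivAt
  have h2 : HasFDerivAt V ((fderiv ℂ V (z t)).restrictScalars ℝ) (z t) := h1.restrictScalars ℝ
  have h3 : HasDerivAt (fun s => V (z s)) (fderiv ℂ V (z t) v) t := h2.comp_hasDerivAt t hd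
  have h4 := (Complex.reCLM.hasFDerivAt (x := V (z t))).comp_hasDerivAt t h3
  exact h4

private theorem SCalc_line2 {ι : Type} [Fintype ι] [DecidableEq ι] (V : (ι → ℂ) → ℂ)
    (U : Set (ι → ℂ)) (hV : AnalyticOnNhd ℂ V U) (z : ℝ → ι → ℂ) (v w : ι → ℂ) (t : ℝ)
    (hz : z t ∈ U) (hd : HasDerivAt z w t) :
    HasDerivAt (fun s => (fderiv ℂ V (z s) v).re)
      ((fderiv ℂ (fderiv ℂ V) (z t) w) v).re t := by
  have h1 := (SCalc_D2_eq V U hV (z t) hz v w).1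
  have h2 := h1.restrictScalars ℝ
  have h3 : HasDerivAt (fun s => fderiv ℂ V (z s) v) ((fderiv ℂ (fderiv ℂ V) (z t) w) v) t :=
    h2.comp_hasDerivAt t hd
  have h4 := (Complex.reCLM.hasFDerivAt (x := fderiv ℂ V (z t) v)).comp_hasDerivAt t h3
  exact h4

private theorem SCalc_taylor (g g' g'' : ℝ → ℝ) (M : ℝ)
    (h1 : ∀ t ∈ Set.Icc (0 : ℝ) 1, HasDerivAt g (g' t) t)
    (h2 : ∀ t ∈ Set.Icc (0 : ℝ) 1, HasDerivAt g' (g'' t) t)
    (h3 : ∀ t ∈ Set.Icc (0 : ℝ) 1, g'' t ≤ M) :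
    g 1 ≤ g 0 + g' 0 + M / 2 := by
  have hI : interior (Set.Icc (0 : ℝ) 1) ⊆ Set.Icc (0 : ℝ) 1 := interior_subset
  have hg' : ∀ t ∈ Set.Icc (0 : ℝ) 1, g' t - g' 0 ≤ M * (t - 0) := by
    intro t ht
    refine Convex.image_sub_le_mul_sub_of_deriv_le (convex_Icc (0 : ℝ) 1)
      (fun x hx => (h2 x hx).continuousAt.continuousWithinAt)
      (fun x hx => (h2 x (hI hx)).differentiableAt.differentiableWithinAt)
      (fun x hx => ?_) 0 ⟨le_refl _, zero_le_one⟩ t ht ht.1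
    rw [(h2 x (hI hx)).deriv]
    exact h3 x (hI hx)
  have hφ : ∀ t ∈ Set.Icc (0 : ℝ) 1,
      HasDerivAt (fun s => g s - g' 0 * s - M / 2 * s ^ 2) (g' t - g' 0 - M * t) t := by
    intro t ht
    have e1 := ((h1 t ht).sub ((hasDerivAt_id t).const_mul (g' 0))).sub
      ((hasDerivAt_pow 2 t).const_mul (M / 2))
    have e2 : g' t - g' 0 * 1 - M / 2 * (((2 : ℕ) : ℝ) * t ^ (2 - 1)) =
        g' t - g' 0 - M * t := by
      norm_num
      ring
    exact e1.congr_deriv e2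
  have h4 : (fun s => g s - g' 0 * s - M / 2 * s ^ 2) 1 -
      (fun s => g s - g' 0 * s - M / 2 * s ^ 2) 0 ≤ 0 * ((1 : ℝ) - 0) := by
    refine Convex.image_sub_le_mul_sub_of_deriv_le (convex_Icc (0 : ℝ) 1)
      (fun x hx => (hφ x hx).continuousAt.continuousWithinAt)
      (fun x hx => (hφ x (hI hx)).differentiableAt.differentiableWithinAt)
      (fun x hx => ?_) 0 ⟨le_refl _, zero_le_one⟩ 1 ⟨zero_le_one, le_refl _⟩ zero_le_one
    rw [(hφ x (hI hx)).deriv]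
    have := hg' x (hI hx)
    linarith
  simp only at h4
  linarith

private theorem SCalc_cp_deriv {ι : Type} [Fintype ι] (a₀ d b : ι → ℝ) (t : ℝ) :
    HasDerivAt (fun s : ℝ => cp (a₀ + s • d) b) (rc d) t := by
  rw [hasDerivAt_pi]
  intro j
  have h1 : HasDerivAt (fun s : ℝ => a₀ j + s * d j) (d j) t := by
    simpa using ((hasDerivAt_id t).mul_const (d j)).const_add (a₀ j)
  have h2 := (h1.ofReal_comp).add_const ((b j : ℂ) * I)
  exact h2

private theorem SCalc_cp_deriv' {ι : Type} [Fintype ι] (a b d : ι → ℝ) (t : ℝ) :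
    HasDerivAt (fun s : ℝ => cp a (b + s • d)) (I • rc d) t := by
  rw [hasDerivAt_pi]
  intro j
  have h1 : HasDerivAt (fun s : ℝ => b j + s * d j) (d j) t := by
    simpa using ((hasDerivAt_id t).mul_const (d j)).const_add (b j)
  have h2 := ((h1.ofReal_comp).mul_const I).const_add (a j : ℂ)
  have h3 : ((d j : ℝ) : ℂ) * I = (I • rc d) j := by
    rw [Pi.smul_apply, smul_eq_mul, mul_comm]
    rfl
  exact h2.congr_deriv h3

private theorem SCalc_D2_smul {ι : Type} [Fintype ι] [DecidableEq ι] (V : (ι → ℂ) → ℂ)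
    (U : Set (ι → ℂ)) (hV : AnalyticOnNhd ℂ V U) (z : ι → ℂ) (hz : z ∈ U) (s : ℝ) (η : ι → ℝ) :
    (D2 V z (rc (s • η))).re = s ^ 2 * (D2 V z (rc η)).re := by
  have e1 : rc (s • η) = (s : ℂ) • rc η := by
    funext j
    simp [rc]
  have h1 : D2 V z (rc (s • η)) = (fderiv ℂ (fderiv ℂ V) z (rc (s • η))) (rc (s • η)) :=
    (SCalc_D2_eq V U hV z hz _ _).2
  have h2 : D2 V z (rc η) = (fderiv ℂ (fderiv ℂ V) z (rc η)) (rc η) :=
    (SCalc_D2_eq V U hV z hz _ _).2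
  rw [h1, h2, e1]
  simp only [map_smul, _root_.smul_apply, smul_eq_mul]
  have e2 : (s : ℂ) * ((s : ℂ) * (fderiv ℂ (fderiv ℂ V) z (rc η)) (rc η)) =
      ((s ^ 2 : ℝ) : ℂ) * (fderiv ℂ (fderiv ℂ V) z (rc η)) (rc η) := by
    push_cast
    ring
  rw [e2, Complex.re_ofReal_mul]

/-- Uniform negativity of the second derivative. -/
theorem neg_unif {ι : Type} [Fintype ι] [DecidableEq ι] (V : (ι → ℂ) → ℂ) (U : Set (ι → ℂ))
    (hU : IsOpen U) (hV : AnalyticOnNhd ℂ V U) (K B : Set (ι → ℝ)) (hK : IsCompact K)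
    (hB : IsCompact B) (hsub : ∀ a ∈ K, ∀ b ∈ B, cp a b ∈ U)
    (hneg : ∀ a ∈ K, ∀ b ∈ B, ∀ ξ : ι → ℝ, ξ ≠ 0 → (D2 V (cp a b) (rc ξ)).re < 0) :
    ∃ c : ℝ, 0 < c ∧ ∀ a ∈ K, ∀ b ∈ B, ∀ ξ : ι → ℝ,
      (D2 V (cp a b) (rc ξ)).re ≤ -(c * ∑ j, ξ j ^ 2) := by
  set S : Set (ι → ℝ) := {ξ | ∑ j, ξ j ^ 2 = 1} with hS
  have hScl : IsClosed S := isClosed_eq (by fun_prop) continuous_const
  have hSsub : S ⊆ Set.Icc (fun _ => (-1 : ℝ)) (fun _ => 1) := by
    intro ξ hξ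
    have hξ' : ∑ j, ξ j ^ 2 = 1 := hξ
    have h1 : ∀ j, ξ j ^ 2 ≤ 1 := by
      intro j
      rw [← hξ']
      exact Finset.single_le_sum (f := fun j => ξ j ^ 2) (fun i _ => sq_nonneg _)
        (Finset.mem_univ j)
    constructor
    · intro j
      exact (abs_le.mp (abs_le_one_iff_mul_self_le_one.mpr (by nlinarith [h1 j]))).1
    · intro j
      exact (abs_le.mp (abs_le_one_iff_mul_self_le_one.mpr (by nlinarith [h1 j]))).2
  have hSc : IsCompact S := IsCompact.of_isClosed_subset isCompact_Icc hScl hSsub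
  set T : Set ((ι → ℝ) × (ι → ℝ) × (ι → ℝ)) := K ×ˢ (B ×ˢ S) with hT
  have hTc : IsCompact T := hK.prod (hB.prod hSc)
  set F : (ι → ℝ) × (ι → ℝ) × (ι → ℝ) → ℝ :=
    fun p => ((fderiv ℂ (fderiv ℂ V) (cp p.1 p.2.1) (rc p.2.2)) (rc p.2.2)).re with hF
  have hcp : Continuous (fun p : (ι → ℝ) × (ι → ℝ) × (ι → ℝ) => cp p.1 p.2.1) := by
    unfold cp
    fun_prop
  have hrc : Continuous (fun p : (ι → ℝ) × (ι → ℝ) × (ι → ℝ) => rc p.2.2) := by
    unfold rc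
    fun_prop
  have hFc : ContinuousOn F T := by
    have h1 : ContinuousOn (fderiv ℂ (fderiv ℂ V)) U := hV.fderiv.fderiv.continuousOn
    have h2 : ContinuousOn (fun p : (ι → ℝ) × (ι → ℝ) × (ι → ℝ) =>
        fderiv ℂ (fderiv ℂ V) (cp p.1 p.2.1)) T :=
      h1.comp hcp.continuousOn (fun p hp => hsub p.1 hp.1 p.2.1 hp.2.1)
    exact Complex.continuous_re.comp_continuousOn
      ((h2.clm_apply hrc.continuousOn).clm_apply hrc.continuousOn)
  have hD2 : ∀ a ∈ K, ∀ b ∈ B, ∀ ξ : ι → ℝ, (D2 V (cp a b) (rc ξ)).re = F (a, b, ξ) := by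
    intro a ha b hb ξ
    have := (SCalc_D2_eq V U hV (cp a b) (hsub a ha b hb) (rc ξ) (rc ξ)).2
    simp only [hF]
    rw [← this]
    rfl
  by_cases hTe : T.Nonempty
  · obtain ⟨p, hp, hmax⟩ := hTc.exists_isMaxOn hTe hFc
    have hpS : p.2.2 ≠ 0 := by
      intro h0
      have h1 : ∑ j, p.2.2 j ^ 2 = 1 := hp.2.2
      rw [h0] at h1
      simp at h1
    have hFneg : F p < 0 := by
      have h1 := hneg p.1 hp.1 p.2.1 hp.2.1 p.2.2 hpS
      rw [hD2 p.1 hp.1 p.2.1 hp.2.1 p.2.2] at h1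
      exact h1
    refine ⟨-F p, by linarith, ?_⟩
    intro a ha b hb ξ
    have hnn : 0 ≤ ∑ j, ξ j ^ 2 := Finset.sum_nonneg fun j _ => sq_nonneg _
    rcases hnn.eq_or_lt with h0 | h0
    · have hξ0 : ξ = 0 := by
        funext j
        have h1 := (Finset.sum_eq_zero_iff_of_nonneg
          (fun j _ => sq_nonneg (ξ j))).mp h0.symm j (Finset.mem_univ j)
        simpa using h1
      subst hξ0
      have h1 := SCalc_D2_smul V U hV (cp a b) (hsub a ha b hb) 0 (0 : ι → ℝ)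
      rw [zero_smul] at h1
      rw [h1]
      simp
    · set s : ℝ := Real.sqrt (∑ j, ξ j ^ 2) with hs
      have hs0 : 0 < s := Real.sqrt_pos.mpr h0
      have hs2 : s ^ 2 = ∑ j, ξ j ^ 2 := Real.sq_sqrt hnn
      set η : ι → ℝ := s⁻¹ • ξ with hη
      have hηS : η ∈ S := by
        show ∑ j, η j ^ 2 = 1
        simp only [hη, Pi.smul_apply, smul_eq_mul, mul_pow]
        rw [← Finset.mul_sum, ← hs2]
        field_simp
      have hξη : ξ = s • η := by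
        rw [hη, smul_smul, mul_inv_cancel₀ hs0.ne', one_smul]
      have h1 := SCalc_D2_smul V U hV (cp a b) (hsub a ha b hb) s η
      have h2 : F (a, b, η) ≤ F p := hmax (show (a, b, η) ∈ T from ⟨ha, hb, hηS⟩)
      rw [← hD2 a ha b hb η] at h2
      have h3 : (D2 V (cp a b) (rc ξ)).re = s ^ 2 * (D2 V (cp a b) (rc η)).re := by
        rw [← h1, ← hξη]
      rw [h3, ← hs2]
      have h4 : 0 ≤ s ^ 2 := sq_nonneg s
      nlinarith [mul_le_mul_of_nonneg_left h2 h4]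
  · refine ⟨1, one_pos, ?_⟩
    intro a ha b hb ξ
    have hnn : 0 ≤ ∑ j, ξ j ^ 2 := Finset.sum_nonneg fun j _ => sq_nonneg _
    rcases hnn.eq_or_lt with h0 | h0
    · have hξ0 : ξ = 0 := by
        funext j
        have h1 := (Finset.sum_eq_zero_iff_of_nonneg
          (fun j _ => sq_nonneg (ξ j))).mp h0.symm j (Finset.mem_univ j)
        simpa using h1
      subst hξ0
      have h1 := SCalc_D2_smul V U hV (cp a b) (hsub a ha b hb) 0 (0 : ι → ℝ)
      rw [zero_smul] at h1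
      rw [h1]
      simp
    · exfalso
      apply hTe
      set s : ℝ := Real.sqrt (∑ j, ξ j ^ 2) with hs
      have hs0 : 0 < s := Real.sqrt_pos.mpr h0
      have hs2 : s ^ 2 = ∑ j, ξ j ^ 2 := Real.sq_sqrt hnn
      refine ⟨(a, b, s⁻¹ • ξ), ha, hb, ?_⟩
      show ∑ j, (s⁻¹ • ξ) j ^ 2 = 1
      simp only [Pi.smul_apply, smul_eq_mul, mul_pow]
      rw [← Finset.mul_sum, ← hs2]
      field_simp

/-- Concavity in the real part. -/
theorem real_concave {ι : Type} [Fintype ι] [DecidableEq ι] (V : (ι → ℂ) → ℂ) (U : Set (ι → ℂ))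
    (hU : IsOpen U) (hV : AnalyticOnNhd ℂ V U) (K : Set (ι → ℝ)) (hK : Convex ℝ K) (b : ι → ℝ)
    (hsub : ∀ a ∈ K, cp a b ∈ U) (c : ℝ) (hc : 0 ≤ c)
    (hneg : ∀ a ∈ K, ∀ ξ : ι → ℝ, (D2 V (cp a b) (rc ξ)).re ≤ -(c * ∑ j, ξ j ^ 2))
    (a₀ : ι → ℝ) (ha₀ : a₀ ∈ K) (a : ι → ℝ) (ha : a ∈ K) :
    (V (cp a b)).re ≤ (V (cp a₀ b)).re + (fderiv ℂ V (cp a₀ b) (rc (a - a₀))).re -
      c / 2 * ∑ j, (a j - a₀ j) ^ 2 := by
  set d : ι → ℝ := a - a₀ with hd
  have hK' : ∀ t ∈ Set.Icc (0 : ℝ) 1, a₀ + t • d ∈ K := by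
    intro t ht
    have := hK ha₀ ha (sub_nonneg.mpr ht.2) ht.1 (by ring)
    convert this using 1
    rw [hd]
    module
  have hT := SCalc_taylor (fun t => (V (cp (a₀ + t • d) b)).re)
    (fun t => (fderiv ℂ V (cp (a₀ + t • d) b) (rc d)).re)
    (fun t => ((fderiv ℂ (fderiv ℂ V) (cp (a₀ + t • d) b) (rc d)) (rc d)).re)
    (-(c * ∑ j, d j ^ 2))
    (fun t ht => SCalc_line1 V U hV (fun s => cp (a₀ + s • d) b) (rc d) t
      (hsub _ (hK' t ht)) (SCalc_cp_deriv a₀ d b t))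
    (fun t ht => SCalc_line2 V U hV (fun s => cp (a₀ + s • d) b) (rc d) (rc d) t
      (hsub _ (hK' t ht)) (SCalc_cp_deriv a₀ d b t))
    (fun t ht => by
      have h1 := hneg _ (hK' t ht) d
      have h2 := (SCalc_D2_eq V U hV (cp (a₀ + t • d) b) (hsub _ (hK' t ht)) (rc d) (rc d)).2
      unfold D2 at h1
      rw [h2] at h1
      exact h1)
  have e1 : a₀ + (1 : ℝ) • d = a := by rw [hd]; module
  have e0 : a₀ + (0 : ℝ) • d = a₀ := by module
  simp only [e1, e0] at hT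
  have e2 : ∑ j, (a j - a₀ j) ^ 2 = ∑ j, d j ^ 2 := by simp [hd]
  rw [e2]
  linarith

/-- Convexity in the shift. -/
theorem imag_convex {ι : Type} [Fintype ι] [DecidableEq ι] (V : (ι → ℂ) → ℂ) (U : Set (ι → ℂ))
    (hU : IsOpen U) (hV : AnalyticOnNhd ℂ V U) (a b b' : ι → ℝ)
    (hsub : ∀ t ∈ Set.Icc (0 : ℝ) 1, cp a (b + t • (b' - b)) ∈ U)
    (hneg : ∀ t ∈ Set.Icc (0 : ℝ) 1, (D2 V (cp a (b + t • (b' - b))) (rc (b' - b))).re ≤ 0) :
    (∀ t ∈ Set.Icc (0 : ℝ) 1, (V (cp a (b + t • (b' - b)))).re ≤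
      (1 - t) * (V (cp a b)).re + t * (V (cp a b')).re) ∧
    (V (cp a b)).re - (fderiv ℂ V (cp a b) (rc (b' - b))).im ≤ (V (cp a b')).re := by
  set d : ι → ℝ := b' - b with hd
  set g : ℝ → ℝ := fun t => (V (cp a (b + t • d))).re with hg
  set g' : ℝ → ℝ := fun t => (fderiv ℂ V (cp a (b + t • d)) (I • rc d)).re with hg'
  set g'' : ℝ → ℝ := fun t =>
    ((fderiv ℂ (fderiv ℂ V) (cp a (b + t • d)) (I • rc d)) (I • rc d)).re with hg''
  have h1 : ∀ t ∈ Set.Icc (0 : ℝ) 1, HasDerivAt g (g' t) t := fun t ht =>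
    SCalc_line1 V U hV (fun s => cp a (b + s • d)) (I • rc d) t (hsub t ht)
      (SCalc_cp_deriv' a b d t)
  have h2 : ∀ t ∈ Set.Icc (0 : ℝ) 1, HasDerivAt g' (g'' t) t := fun t ht =>
    SCalc_line2 V U hV (fun s => cp a (b + s • d)) (I • rc d) (I • rc d) t (hsub t ht)
      (SCalc_cp_deriv' a b d t)
  have h3 : ∀ t ∈ Set.Icc (0 : ℝ) 1, 0 ≤ g'' t := by
    intro t ht
    have e1 := hneg t ht
    unfold D2 at e1
    rw [(SCalc_D2_eq V U hV _ (hsub t ht) (rc d) (rc d)).2] at e1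
    simp only [hg'', map_smul, _root_.smul_apply, smul_eq_mul]
    rw [← mul_assoc, Complex.I_mul_I, neg_one_mul, Complex.neg_re]
    linarith
  have e0 : b + (0 : ℝ) • d = b := by module
  have e1 : b + (1 : ℝ) • d = b' := by rw [hd]; module
  have hI : interior (Set.Icc (0 : ℝ) 1) ⊆ Set.Icc (0 : ℝ) 1 := interior_subset
  constructor
  · intro t ht
    have hconv : ConvexOn ℝ (Set.Icc (0 : ℝ) 1) g :=
      convexOn_of_hasDerivWithinAt2_nonneg (convex_Icc (0 : ℝ) 1)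
        (fun x hx => (h1 x hx).continuousAt.continuousWithinAt)
        (fun x hx => (h1 x (hI hx)).hasDerivWithinAt)
        (fun x hx => (h2 x (hI hx)).hasDerivWithinAt)
        (fun x hx => h3 x (hI hx))
    have h4 := hconv.2 (x := 0) ⟨le_refl _, zero_le_one⟩ (y := 1) ⟨zero_le_one, le_refl _⟩
      (sub_nonneg.mpr ht.2) ht.1 (by ring)
    simp only [smul_eq_mul, mul_zero, mul_one, zero_add] at h4
    have g0 : g 0 = (V (cp a b)).re := by simp only [hg, e0]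
    have g1 : g 1 = (V (cp a b')).re := by simp only [hg, e1]
    rw [g0, g1] at h4
    exact h4
  · have h4 := SCalc_taylor (fun t => -g t) (fun t => -g' t) (fun t => -g'' t) 0
      (fun t ht => (h1 t ht).neg) (fun t ht => (h2 t ht).neg)
      (fun t ht => by have := h3 t ht; linarith)
    have g0 : g 0 = (V (cp a b)).re := by simp only [hg, e0]
    have g1 : g 1 = (V (cp a b')).re := by simp only [hg, e1]
    have g0' : g' 0 = -(fderiv ℂ V (cp a b) (rc d)).im := by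
      simp only [hg', e0, map_smul, smul_eq_mul, Complex.I_mul_re]
    simp only [g0, g1, g0'] at h4
    linarith

end Pool.Agent.H63.GO
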