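import Pool.Agent.H63.GO.PDefs
import Pool.Agent.H63.VC3.KAn
import Pool.Agent.H63.VC3.KB

/-! # Amplitudes: bounds -/

namespace Pool.Agent.H63.GO

open Complex Filter Topology Pool.Agent.H63.VC Pool.Agent.H63.VC3

private theorem ABd_hh_bound (a b B : ℝ) (ha : 0 < a) (hb : b < 1) : ∃ K : ℝ, 0 < K ∧ ∀ z : ℂ,
    a ≤ z.re → z.re ≤ b → |z.im| ≤ B → ‖hh z‖ ≤ K := by
  have hcomp : IsCompact (Set.Icc a b ×ℂ Set.Icc (-B) B) :=
    isCompact_Icc.reProdIm isCompact_Icc
  have hcont : ContinuousOn hh (Set.Icc a b ×ℂ Set.Icc (-B) B) := by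
    intro z hz
    rw [Complex.mem_reProdIm] at hz
    exact (hh_hasDerivAt z (by linarith only [hz.1.1, ha]) (by linarith only [hz.1.2, hb])).continuousAt.continuousWithinAt
  obtain ⟨K, hK⟩ := hcomp.exists_bound_of_continuousOn hcont
  refine ⟨max K 1, by positivity, fun z h1 h2 h3 => (hK z ?_).trans (le_max_left _ _)⟩
  rw [Complex.mem_reProdIm]
  exact ⟨⟨h1, h2⟩, abs_le.1 h3⟩

private theorem ABd_ff_shift {a b B K : ℝ} (ha : 0 < a) (hb : b < 1) (hK : ∀ z : ℂ, a ≤ z.re →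
    z.re ≤ b → |z.im| ≤ B → ‖hh z‖ ≤ K) (z z' : ℂ) (h1 : a ≤ z.re) (h2 : z.re ≤ b)
    (h1' : a ≤ z'.re) (h2' : z'.re ≤ b) (h3 : |z.im| ≤ B) (h3' : |z'.im| ≤ B) :
    ‖ff z' - ff z‖ ≤ K * ‖z' - z‖ := by
  have hconv : Convex ℝ (Set.Icc a b ×ℂ Set.Icc (-B) B) := by
    intro u hu w hw s t hs ht hst
    rw [Complex.mem_reProdIm] at hu hw ⊢
    have e1 : (s • u + t • w).re = s • u.re + t • w.re := by simp
    have e2 : (s • u + t • w).im = s • u.im + t • w.im := by simp
    rw [e1, e2]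
    exact ⟨convex_Icc _ _ hu.1 hw.1 hs ht hst, convex_Icc _ _ hu.2 hw.2 hs ht hst⟩
  refine hconv.norm_image_sub_le_of_norm_hasDerivWithin_le (f := ff) (f' := hh) (C := K)
    (fun w hw => ?_) (fun w hw => ?_) ?_ ?_
  · rw [Complex.mem_reProdIm] at hw
    exact (ff_hasDerivAt w (by linarith only [hw.1.1, ha]) (by linarith only [hw.1.2, hb])).hasDerivWithinAt
  · rw [Complex.mem_reProdIm] at hw
    exact hK w hw.1.1 hw.1.2 (abs_le.2 hw.2)
  · rw [Complex.mem_reProdIm]; exact ⟨⟨h1, h2⟩, abs_le.1 h3⟩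
  · rw [Complex.mem_reProdIm]; exact ⟨⟨h1', h2'⟩, abs_le.1 h3'⟩

private theorem ABd_natre (M : ℕ) (z : ℂ) : ((M : ℂ) * z).re = M * z.re := by
  have : (M : ℂ) = ((M : ℝ) : ℂ) := by push_cast; rfl
  rw [this, Complex.re_ofReal_mul]

private theorem ABd_logre (M : ℕ) : ((Real.log M : ℂ) / 2).re = Real.log M / 2 := by
  have : ((Real.log M : ℂ) / 2) = ((Real.log M / 2 : ℝ) : ℂ) := by push_cast; ring
  rw [this, Complex.ofReal_re]

/-- The real part of `LL` with a bounded real shift. -/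
private theorem ABd_LL (c B D : ℝ) (hc : 0 < c) (hD : 0 ≤ D) : ∃ C : ℝ, 0 < C ∧ ∀ᶠ M : ℕ in atTop,
    ∀ z : ℂ, ∀ d : ℝ, c ≤ z.re → z.re ≤ 1 - c → |z.im| ≤ B → |d| ≤ D →
    |(LL M (M * z - 1 / 2 + (d : ℂ))).re - (Real.log M / 2 + M * (ff z).re)| ≤ C := by
  obtain ⟨C₀, hC₀, hL⟩ := LL_asym (c / 2) B (by positivity)
  obtain ⟨K, hK0, hK⟩ := ABd_hh_bound (c / 2) (1 - c / 2) B (by positivity) (by linarith only [hc])
  refine ⟨C₀ + K * D, by positivity, ?_⟩
  obtain ⟨M₀, hM₀⟩ := exists_nat_ge (2 * D / c)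
  filter_upwards [eventually_ge_atTop (max M₀ 1)] with M hM z d h1 h2 h3 h4
  have hM1' : 1 ≤ M := le_trans (le_max_right _ _) hM
  have hM2 : (M₀ : ℝ) ≤ M := by exact_mod_cast le_trans (le_max_left _ _) hM
  have hM0 : (0 : ℝ) < M := by exact_mod_cast hM1'
  have hM1 : (1 : ℝ) ≤ M := by exact_mod_cast hM1'
  have hMC : (M : ℂ) ≠ 0 := by exact_mod_cast hM0.ne'
  set e : ℝ := d / M with he
  have he1 : |e| ≤ c / 2 := by
    rw [he, abs_div, abs_of_pos hM0, div_le_iff₀ hM0]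
    have h5 : 2 * D / c ≤ M := hM₀.trans hM2
    rw [div_le_iff₀ hc] at h5
    linarith only [h5, h4]
  have he2 : (M : ℝ) * |e| = |d| := by
    rw [he, abs_div, abs_of_pos hM0]; field_simp
  have harg : (M : ℂ) * z - 1 / 2 + (d : ℂ) = M * (z + (e : ℂ)) - 1 / 2 := by
    rw [he]; push_cast; field_simp; ring
  have hre : (z + (e : ℂ)).re = z.re + e := by rw [Complex.add_re, Complex.ofReal_re]
  have him : (z + (e : ℂ)).im = z.im := by rw [Complex.add_im, Complex.ofReal_im, add_zero]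
  rw [abs_le] at he1
  have hA := hL M hM1' (z + (e : ℂ)) (by rw [hre]; linarith only [he1.1, h1]) (by rw [hre]; linarith only [he1.2,
                                                                                              h2])
    (by rw [him]; exact h3)
  have hCM : C₀ / M ≤ C₀ := div_le_self hC₀.le hM1
  have hA' := abs_le.1 ((Complex.abs_re_le_norm _).trans (hA.trans hCM))
  rw [Complex.sub_re, Complex.sub_re, ABd_logre, ABd_natre] at hA'
  have hB := ABd_ff_shift (by positivity) (by linarith only [hc]) hK z (z + (e : ℂ)) (by linarith only [h1,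
                                                                                           hc])
    (by linarith only [h2, hc]) (by rw [hre]; linarith only [he1.1, h1]) (by rw [hre]; linarith only [he1.2,
                                                                                         h2]) h3 (by rw [him]; exact h3)
  rw [add_sub_cancel_left, Complex.norm_real, Real.norm_eq_abs] at hB
  have hB' := abs_le.1 ((Complex.abs_re_le_norm _).trans hB)
  rw [Complex.sub_re] at hB'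
  have hMe : M * (K * |e|) ≤ K * D := by
    calc (M : ℝ) * (K * |e|) = K * (M * |e|) := by ring
      _ ≤ K * D := by rw [he2]; exact mul_le_mul_of_nonneg_left h4 hK0.le
  have h7 := mul_le_mul_of_nonneg_left hB'.2 hM0.le
  have h8 := mul_le_mul_of_nonneg_left hB'.1 hM0.le
  rw [harg, abs_le]
  constructor
  · have : (M : ℝ) * -(K * |e|) = -(M * (K * |e|)) := by ring
    rw [this] at h8
    have := hA'.1
    linarith only [h8, hMe, hA'.1]
  · have := hA'.2
    linarith only [h7, hMe, hA'.2]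

/-- The bound of the kernel with general margins. -/
private theorem ABd_KK (r : ℤ) (n : ℕ) (c B : ℝ) (hc : 0 < c) : ∃ C : ℝ, 0 < C ∧
    ∀ M : ℕ, 1 ≤ M → ∀ y v : ℂ,
    c ≤ (y - v).re → (y - v).re ≤ 1 - c → c ≤ (y + v).re →
    (y + v).re ≤ 1 - c → |y.im| ≤ B → |v.im| ≤ B →
    ‖KK r n M y v‖ ≤ C / M *
      Real.exp (M * (2 * Real.pi * I * r * v ^ 2 - ff (y - v) - ff (y + v)).re) := by
  obtain ⟨C₀, hC₀, hL⟩ := LL_asym c (2 * B) hc
  refine ⟨(2 * Real.exp (2 * Real.pi * B)) * (2 * Real.exp (Real.pi * B)) ^ (n - 2) *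
    Real.exp (2 * C₀), by positivity, ?_⟩
  intro M hM y v h1 h2 h3 h4 h5 h6
  have hM0 : (0 : ℝ) < M := by exact_mod_cast hM
  have hM1 : (1 : ℝ) ≤ M := by exact_mod_cast hM
  have him1 : |(y - v).im| ≤ 2 * B := by
    rw [Complex.sub_im]; rw [abs_le] at *; constructor <;> linarith
  have him2 : |(y + v).im| ≤ 2 * B := by
    rw [Complex.add_im]; rw [abs_le] at *; constructor <;> linarith
  have hA := hL M hM (y - v) h1 (by linarith only [h2]) him1
  have hBB := hL M hM (y + v) h3 (by linarith only [h4]) him2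
  have hCM : C₀ / M ≤ C₀ := div_le_self hC₀.le hM1
  have hA' := (abs_le.1 ((Complex.abs_re_le_norm _).trans (hA.trans hCM))).1
  have hB' := (abs_le.1 ((Complex.abs_re_le_norm _).trans (hBB.trans hCM))).1
  rw [Complex.sub_re, Complex.sub_re, ABd_logre, ABd_natre] at hA' hB'
  unfold KK
  rw [norm_mul, norm_mul, norm_mul, Complex.norm_exp, Complex.norm_exp]
  have hs : ‖2 * Complex.sin (2 * Real.pi * v)‖ ≤ 2 * Real.exp (2 * Real.pi * B) := by
    rw [norm_mul]
    have h2 : ‖(2 : ℂ)‖ = 2 := by simp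
    rw [h2]
    refine mul_le_mul_of_nonneg_left ((KB_norm_sin_le _).trans (Real.exp_le_exp.2 ?_)) (by norm_num)
    have h7 : (2 * (Real.pi : ℂ) * v).im = 2 * Real.pi * v.im := by
      have : (2 * (Real.pi : ℂ)) = ((2 * Real.pi : ℝ) : ℂ) := by push_cast; ring
      rw [this, Complex.im_ofReal_mul]
    rw [h7, abs_mul, abs_of_pos (by positivity : 0 < 2 * Real.pi)]
    exact mul_le_mul_of_nonneg_left h6 (by positivity)
  have hb : ‖Bn n M v‖ ≤ (2 * Real.exp (Real.pi * B)) ^ (n - 2) := by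
    refine (KB_Bn_norm n M v).trans (pow_le_pow_left₀ (by positivity) ?_ _)
    refine mul_le_mul_of_nonneg_left (Real.exp_le_exp.2 ?_) (by norm_num)
    exact mul_le_mul_of_nonneg_left h6 Real.pi_pos.le
  have hexp : Real.exp (2 * Real.pi * I * r * M * v ^ 2).re *
      Real.exp (-LL M (M * (y - v) - 1 / 2) - LL M (M * (y + v) - 1 / 2)).re ≤
      Real.exp (2 * C₀) / M *
        Real.exp (M * (2 * Real.pi * I * r * v ^ 2 - ff (y - v) - ff (y + v)).re) := by
    have h8 : Real.exp (2 * C₀) / M *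
        Real.exp (M * (2 * Real.pi * I * r * v ^ 2 - ff (y - v) - ff (y + v)).re) =
        Real.exp (2 * C₀ - Real.log M +
          M * (2 * Real.pi * I * r * v ^ 2 - ff (y - v) - ff (y + v)).re) := by
      rw [Real.exp_add, Real.exp_sub, Real.exp_log hM0]
    rw [h8, ← Real.exp_add]
    refine Real.exp_le_exp.2 ?_
    have h9 : (2 * Real.pi * I * r * M * v ^ 2 : ℂ) = M * (2 * Real.pi * I * r * v ^ 2) := by ring
    rw [h9, ABd_natre, Complex.sub_re, Complex.neg_re, Complex.sub_re, Complex.sub_re]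
    linarith only [hB', hA']
  calc Real.exp (2 * Real.pi * I * r * M * v ^ 2).re * ‖2 * Complex.sin (2 * Real.pi * v)‖ *
        ‖Bn n M v‖ * Real.exp (-LL M (M * (y - v) - 1 / 2) - LL M (M * (y + v) - 1 / 2)).re
      = ‖2 * Complex.sin (2 * Real.pi * v)‖ * ‖Bn n M v‖ *
        (Real.exp (2 * Real.pi * I * r * M * v ^ 2).re *
        Real.exp (-LL M (M * (y - v) - 1 / 2) - LL M (M * (y + v) - 1 / 2)).re) := by ring
    _ ≤ (2 * Real.exp (2 * Real.pi * B)) *
        (2 * Real.exp (Real.pi * B)) ^ (n - 2) * (Real.exp (2 * C₀) / M *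
        Real.exp (M * (2 * Real.pi * I * r * v ^ 2 - ff (y - v) - ff (y + v)).re)) := by
        refine mul_le_mul ?_ hexp (by positivity) (by positivity)
        exact mul_le_mul hs hb (norm_nonneg _) (by positivity)
    _ = _ := by ring

theorem Cc_bd (n g : ℕ) (hg : 1 ≤ g) (hgn : g ≤ n - 1) : ∃ C : ℝ, 0 < C ∧ ∀ᶠ M : ℕ in atTop,
    ∀ x : ℂ, 6 / 10 < x.re → x.re < 9 / 10 → |x.im| < 1 / 5 →
    ‖Cc n g M (x - 1 / 2)‖ ≤ C * (M : ℝ) ^ 2 * Real.exp (M * (4 * ff x).re) := by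
  obtain ⟨C₀, hC₀, hL⟩ := ABd_LL (1 / 10) (1 / 5) n (by norm_num) (Nat.cast_nonneg n)
  refine ⟨Real.exp (4 * C₀), by positivity, ?_⟩
  filter_upwards [hL, eventually_ge_atTop 1] with M hM hM1' x h1 h2 h3
  have hM0 : (0 : ℝ) < M := by exact_mod_cast hM1'
  have hn2 : 2 ≤ n := by omega
  have hn2' : (2 : ℝ) ≤ n := by exact_mod_cast hn2
  have hg' : (1 : ℝ) ≤ g := by exact_mod_cast hg
  have hgn' : (g : ℝ) ≤ n - 1 := by
    have : g + 1 ≤ n := by omega
    have h : ((g : ℝ) + 1) ≤ n := by exact_mod_cast this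
    linarith only [h]
  have key : ∀ d : ℝ, 0 ≤ d → d ≤ n - 2 →
      (LL M (M * (x - 1 / 2 + 1 / 2) - bt n - 1 / 2 + (d : ℂ))).re ≤
        Real.log M / 2 + M * (ff x).re + C₀ := by
    intro d hd0 hd1
    have hbt : |d - bt n| ≤ n := by
      unfold bt
      rw [abs_le]
      constructor <;> linarith
    have h := (abs_le.1 (hM x (d - bt n) (by linarith only [h1]) (by linarith only [h2]) h3.le hbt)).2
    have harg : (M : ℂ) * (x - 1 / 2 + 1 / 2) - bt n - 1 / 2 + (d : ℂ) =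
        M * x - 1 / 2 + ((d - bt n : ℝ) : ℂ) := by
      push_cast; ring
    rw [harg]
    linarith only [h]
  have k0 := key 0 le_rfl (by linarith only [hn2'])
  have k1 := key ((g : ℝ) - 1) (by linarith only [hg']) (by linarith only [hgn'])
  have k2 := key ((n : ℝ) - g - 1) (by linarith only [hgn']) (by linarith only [hg'])
  have k3 := key ((n : ℝ) - 2) (by linarith only [hn2']) le_rfl
  unfold Cc
  rw [Complex.norm_exp]
  have hpow : (M : ℝ) ^ 2 = Real.exp (2 * Real.log M) := by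
    rw [mul_comm, Real.exp_mul, Real.exp_log hM0]
    norm_cast
  rw [hpow, ← Real.exp_add, ← Real.exp_add]
  refine Real.exp_le_exp.2 ?_
  rw [Complex.add_re, Complex.add_re, Complex.add_re]
  have e4 : (4 * ff x).re = 4 * (ff x).re := by
    have : (4 : ℂ) = ((4 : ℝ) : ℂ) := by push_cast; rfl
    rw [this, Complex.re_ofReal_mul]
  rw [e4]
  have c0 : (M : ℂ) * (x - 1 / 2 + 1 / 2) - bt n - 1 / 2 + ((0 : ℝ) : ℂ) =
    (M : ℂ) * (x - 1 / 2 + 1 / 2) - bt n - 1 / 2 := by push_cast; ring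
  have c1 : (((g : ℝ) - 1 : ℝ) : ℂ) = (g : ℂ) - 1 := by push_cast; ring
  have c2 : (((n : ℝ) - g - 1 : ℝ) : ℂ) = (n : ℂ) - g - 1 := by push_cast; ring
  have c3 : (((n : ℝ) - 2 : ℝ) : ℂ) = (n : ℂ) - 2 := by push_cast; ring
  rw [c0] at k0
  rw [c1] at k1
  rw [c2] at k2
  rw [c3] at k3
  linarith only [k3, k2, k1, k0]

/-- The block exponent for `3 ≤ |r|`. -/
private theorem ABd_BB3 (r : ℤ) (hr : 3 ≤ |r|) (x z : ℂ) : BB r x z - ff x =
    2 * Real.pi * I * r * z ^ 2 - ff (x - 1 / 2 - z) - ff (x - 1 / 2 + z) := by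
  unfold BB
  rw [if_pos hr]
  ring

/-- Variation of the exponent of the kernel on small discs. -/
private theorem ABd_hvar (r : ℤ) : ∃ K : ℝ, 0 < K ∧ ∀ y z w : ℂ,
    1 / 200 ≤ (y - z).re → (y - z).re ≤ 199 / 200 → 1 / 200 ≤ (y + z).re →
    (y + z).re ≤ 199 / 200 → |y.im| ≤ 1 / 5 → |z.im| ≤ 1 / 5 → ‖w - z‖ ≤ 1 / 1000 →
    ‖(2 * Real.pi * I * r * w ^ 2 - ff (y - w) - ff (y + w)) -
      (2 * Real.pi * I * r * z ^ 2 - ff (y - z) - ff (y + z))‖ ≤ K * ‖w - z‖ := by
  obtain ⟨K, hK0, hK⟩ := ABd_hh_bound (1 / 250) (249 / 250) (1 / 2) (by norm_num) (by norm_num)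
  refine ⟨2 * Real.pi * |(r : ℝ)| * 3 + K + K + 1, by positivity, ?_⟩
  intro y z w h1 h2 h3 h4 h5 h6 h7
  have hwre : |w.re - z.re| ≤ 1 / 1000 := by
    have := Complex.abs_re_le_norm (w - z)
    rw [Complex.sub_re] at this
    exact this.trans h7
  have hwim : |w.im - z.im| ≤ 1 / 1000 := by
    have := Complex.abs_im_le_norm (w - z)
    rw [Complex.sub_im] at this
    exact this.trans h7
  rw [Complex.sub_re] at h1 h2
  rw [Complex.add_re] at h3 h4
  rw [abs_le] at hwre hwim h5 h6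
  have hzre : |z.re| ≤ 1 / 2 := by rw [abs_le]; constructor <;> linarith
  have hzim : |z.im| ≤ 1 / 5 := by rw [abs_le]; constructor <;> linarith
  have hwre' : |w.re| ≤ 6 / 10 := by rw [abs_le] at hzre ⊢; constructor <;> linarith
  have hwim' : |w.im| ≤ 3 / 10 := by rw [abs_le] at hzim ⊢; constructor <;> linarith
  have hzn : ‖z‖ ≤ 1 := (Complex.norm_le_abs_re_add_abs_im z).trans (by linarith only [hzim, hzre])
  have hwn : ‖w‖ ≤ 2 := (Complex.norm_le_abs_re_add_abs_im w).trans (by linarith only [hwim', hwre'])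
  have hA := ABd_ff_shift (by norm_num) (by norm_num) hK (y - z) (y - w)
    (by rw [Complex.sub_re]; linarith only [h1]) (by rw [Complex.sub_re]; linarith only [h2])
    (by rw [Complex.sub_re]; linarith only [hwre.2, h1]) (by rw [Complex.sub_re]; linarith only [hwre.1,
                                                                                    h2])
    (by rw [Complex.sub_im, abs_le]; constructor <;> linarith)
    (by rw [Complex.sub_im, abs_le]; constructor <;> linarith)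
  have hB := ABd_ff_shift (by norm_num) (by norm_num) hK (y + z) (y + w)
    (by rw [Complex.add_re]; linarith only [h3]) (by rw [Complex.add_re]; linarith only [h4])
    (by rw [Complex.add_re]; linarith only [hwre.1, h3]) (by rw [Complex.add_re]; linarith only [hwre.2,
                                                                                    h4])
    (by rw [Complex.add_im, abs_le]; constructor <;> linarith)
    (by rw [Complex.add_im, abs_le]; constructor <;> linarith)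
  have eA : ‖y - w - (y - z)‖ = ‖w - z‖ := by
    rw [← norm_neg]; congr 1; ring
  have eB : ‖y + w - (y + z)‖ = ‖w - z‖ := by congr 1; ring
  rw [eA] at hA
  rw [eB] at hB
  have hsq : ‖2 * Real.pi * I * r * w ^ 2 - 2 * Real.pi * I * r * z ^ 2‖ ≤
      2 * Real.pi * |(r : ℝ)| * 3 * ‖w - z‖ := by
    have e : (2 * Real.pi * I * r * w ^ 2 - 2 * Real.pi * I * r * z ^ 2 : ℂ) =
        ((2 * Real.pi : ℝ) : ℂ) * I * (r : ℂ) * ((w + z) * (w - z)) := by push_cast; ring
    rw [e, norm_mul, norm_mul, norm_mul, norm_mul, Complex.norm_real, Complex.norm_I, mul_one,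
      Real.norm_eq_abs, abs_of_pos (by positivity : 0 < 2 * Real.pi)]
    have er : ‖(r : ℂ)‖ = |(r : ℝ)| := by
      rw [show (r : ℂ) = ((r : ℝ) : ℂ) by push_cast; rfl, Complex.norm_real, Real.norm_eq_abs]
    rw [er]
    have h8 : ‖w + z‖ ≤ 3 := (norm_add_le _ _).trans (by linarith only [hwn, hzn])
    have h9 : ‖w + z‖ * ‖w - z‖ ≤ 3 * ‖w - z‖ := mul_le_mul_of_nonneg_right h8 (norm_nonneg _)
    calc 2 * Real.pi * |(r : ℝ)| * (‖w + z‖ * ‖w - z‖) ≤ 2 * Real.pi * |(r : ℝ)| * (3 * ‖w - z‖) :=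
          mul_le_mul_of_nonneg_left h9 (by positivity)
      _ = _ := by ring
  have esplit : (2 * Real.pi * I * r * w ^ 2 - ff (y - w) - ff (y + w)) -
      (2 * Real.pi * I * r * z ^ 2 - ff (y - z) - ff (y + z)) =
      (2 * Real.pi * I * r * w ^ 2 - 2 * Real.pi * I * r * z ^ 2) - (ff (y - w) - ff (y - z)) -
      (ff (y + w) - ff (y + z)) := by ring
  rw [esplit]
  refine (norm_sub_le _ _).trans ?_
  have h10 := norm_sub_le (2 * Real.pi * I * r * w ^ 2 - 2 * Real.pi * I * r * z ^ 2 : ℂ)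
    (ff (y - w) - ff (y - z))
  have h11 := norm_nonneg (w - z)
  linarith only [h11, h10, hsq, hB, hA]

/-- The polynomial part of the exponent for `|r| = 2`. -/
private theorem ABd_ph (n : ℕ) : ∃ C : ℝ, 0 < C ∧ ∀ M : ℕ, 1 ≤ M → ∀ x z : ℂ,
    ‖x‖ ≤ 2 → ‖z‖ ≤ 2 →
    ‖ph n M (M * x - bt n - 1 / 2) (M * z - 1 / 2) -
      M * ((x ^ 2 - 3 * x) / 2 + z ^ 2 + z * x - 2 * z)‖ ≤ C := by
  set a : ℂ := (bt n : ℂ) with ha
  set A0 : ℂ := 3 / 2 * (a + 1 / 2) + 1 with hA0
  set A1 : ℂ := -(a + 1 / 2) + (n - 1 / 2) - 1 / 2 with hA1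
  set A2 : ℂ := -(a + 1 / 2) - 1 + 2 * (n - 1) with hA2
  set A3 : ℂ := (a + 1 / 2) ^ 2 / 2 - (n - 1 / 2) * (a + 1 / 2) + (a + 1 / 2) / 2 + 1 / 4 -
    (n - 1) with hA3
  refine ⟨‖A0‖ + ‖A1‖ * 2 + ‖A2‖ * 2 + ‖A3‖ + 1, by positivity, ?_⟩
  intro M hM x z hx hz
  have hM0 : (0 : ℝ) < M := by exact_mod_cast hM
  have hM1 : (1 : ℝ) ≤ M := by exact_mod_cast hM
  have hMC : (M : ℂ) ≠ 0 := by exact_mod_cast hM0.ne'
  have e : ph n M (M * x - a - 1 / 2) (M * z - 1 / 2) -
      M * ((x ^ 2 - 3 * x) / 2 + z ^ 2 + z * x - 2 * z) = A0 + A1 * x + A2 * z + A3 / M := by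
    unfold ph
    rw [hA0, hA1, hA2, hA3]
    field_simp
    ring
  rw [e]
  have h1 : ‖A1 * x‖ ≤ ‖A1‖ * 2 := by
    rw [norm_mul]; exact mul_le_mul_of_nonneg_left hx (norm_nonneg _)
  have h2 : ‖A2 * z‖ ≤ ‖A2‖ * 2 := by
    rw [norm_mul]; exact mul_le_mul_of_nonneg_left hz (norm_nonneg _)
  have h3 : ‖A3 / (M : ℂ)‖ ≤ ‖A3‖ := by
    rw [norm_div, Complex.norm_natCast]; exact div_le_self (norm_nonneg _) hM1
  have h4 := norm_add_le (A0 + A1 * x + A2 * z) (A3 / (M : ℂ))
  have h5 := norm_add_le (A0 + A1 * x) (A2 * z)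
  have h6 := norm_add_le A0 (A1 * x)
  linarith only [h6, h5, h4, h3, h2, h1]

/-- The conditions on the real parts for `3 ≤ |r|`. -/
private theorem ABd_UB3 {r : ℤ} (hr : 3 ≤ |r|) {x z : ℂ} (h : UB r x z) :
    1 / 200 < (x - 1 / 2 - z).re ∧ (x - 1 / 2 - z).re < 199 / 200 ∧
    1 / 200 < (x - 1 / 2 + z).re ∧ (x - 1 / 2 + z).re < 199 / 200 := by
  unfold UB at h
  rwa [if_pos hr] at h

private theorem ABd_half_im (x : ℂ) : (x - 1 / 2 : ℂ).im = x.im := by
  have : (1 / 2 : ℂ) = ((1 / 2 : ℝ) : ℂ) := by push_cast; rfl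
  rw [Complex.sub_im, this, Complex.ofReal_im, sub_zero]

/-- The bound of the kernel at the points of the domain. -/
private theorem ABd_K0 (r : ℤ) (hr : 3 ≤ |r|) (n : ℕ) : ∃ C : ℝ, 0 < C ∧ ∀ M : ℕ, 1 ≤ M →
    ∀ x z w : ℂ, |x.im| < 1 / 5 → |z.im| < 1 / 5 → UB r x z → ‖w - z‖ ≤ 1 / (1000 * M) →
    ‖KK r n M (x - 1 / 2) w‖ ≤ C / M * Real.exp (M * (BB r x z - ff x).re) := by
  obtain ⟨C, hC, hK⟩ := ABd_KK r n (1 / 250) (1 / 4) (by norm_num)
  obtain ⟨K, hK0, hv⟩ := ABd_hvar r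
  refine ⟨C * Real.exp K, by positivity, ?_⟩
  intro M hM x z w hx hz hu hw
  have hM0 : (0 : ℝ) < M := by exact_mod_cast hM
  have hM1 : (1 : ℝ) ≤ M := by exact_mod_cast hM
  obtain ⟨u1, u2, u3, u4⟩ := ABd_UB3 hr hu
  have hw' : ‖w - z‖ ≤ 1 / 1000 := by
    refine hw.trans ?_
    rw [div_le_div_iff₀ (by positivity) (by norm_num)]
    linarith only [hM1]
  have hwre : |w.re - z.re| ≤ 1 / 1000 := by
    have := Complex.abs_re_le_norm (w - z)
    rw [Complex.sub_re] at this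
    exact this.trans hw'
  have hwim : |w.im - z.im| ≤ 1 / 1000 := by
    have := Complex.abs_im_le_norm (w - z)
    rw [Complex.sub_im] at this
    exact this.trans hw'
  have hyim : |(x - 1 / 2 : ℂ).im| < 1 / 5 := by rw [ABd_half_im]; exact hx
  have h1 := hv (x - 1 / 2) z w u1.le u2.le u3.le u4.le hyim.le hz.le hw'
  rw [Complex.sub_re] at u1 u2
  rw [Complex.add_re] at u3 u4
  rw [abs_le] at hwre hwim
  rw [abs_lt] at hz hyim
  have h2 := hK M hM (x - 1 / 2) w (by rw [Complex.sub_re]; linarith only [hwre.2, u1])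
    (by rw [Complex.sub_re]; linarith only [hwre.1, u2]) (by rw [Complex.add_re]; linarith only [hwre.1,
                                                                                    u3])
    (by rw [Complex.add_re]; linarith only [hwre.2, u4]) (by rw [abs_le]; constructor <;> linarith)
    (by rw [abs_le]; constructor <;> linarith)
  refine h2.trans ?_
  rw [ABd_BB3 r hr]
  have h3 := (abs_le.1 ((Complex.abs_re_le_norm _).trans h1)).2
  rw [Complex.sub_re] at h3
  have h4 : (M : ℝ) * (K * ‖w - z‖) ≤ K := by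
    calc (M : ℝ) * (K * ‖w - z‖) = K * (M * ‖w - z‖) := by ring
      _ ≤ K * (M * (1 / (1000 * M))) :=
        mul_le_mul_of_nonneg_left (mul_le_mul_of_nonneg_left hw hM0.le) hK0.le
      _ = K * (1 / 1000) := by field_simp
      _ ≤ K := by linarith only [hK0]
  have h5 := mul_le_mul_of_nonneg_left h3 hM0.le
  have h6 : C * Real.exp K / M * Real.exp (M * (2 * Real.pi * I * r * z ^ 2 - ff (x - 1 / 2 - z) -
      ff (x - 1 / 2 + z)).re) = C / M * Real.exp (K + M * (2 * Real.pi * I * r * z ^ 2 -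
      ff (x - 1 / 2 - z) - ff (x - 1 / 2 + z)).re) := by
    rw [Real.exp_add]; ring
  rw [h6]
  refine mul_le_mul_of_nonneg_left (Real.exp_le_exp.2 ?_) (by positivity)
  linarith only [h5, h4]

private theorem ABd_norm_pre (M : ℕ) (hM : 0 < M) : ‖1 / (4 * Real.pi * I * M : ℂ)‖ ≤ 1 / M := by
  have hM0 : (0 : ℝ) < M := by exact_mod_cast hM
  rw [norm_div, norm_one, norm_mul, norm_mul, norm_mul, Complex.norm_I, Complex.norm_natCast,
    Complex.norm_real, Real.norm_eq_abs, abs_of_pos Real.pi_pos]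
  have h4 : ‖(4 : ℂ)‖ = 4 := by simp
  rw [h4]
  refine one_div_le_one_div_of_le hM0 ?_
  have := Real.pi_gt_three
  nlinarith

private theorem ABd_DD3 (r : ℤ) (hr : 3 ≤ |r|) (n : ℕ) : ∃ C : ℝ, 0 < C ∧ ∀ᶠ M : ℕ in atTop,
    ∀ x z : ℂ, |x.im| < 1 / 5 → |z.im| < 1 / 5 → UB r x z →
    ‖DD r n M x z‖ ≤ C / M * Real.exp (M * (BB r x z - ff x).re) := by
  obtain ⟨C, hC, hK⟩ := ABd_K0 r hr n
  refine ⟨1000 * C, by positivity, ?_⟩
  filter_upwards [eventually_ge_atTop 1] with M hM x z hx hz hu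
  have hM0 : (0 : ℝ) < M := by exact_mod_cast hM
  have hM1 : (1 : ℝ) ≤ M := by exact_mod_cast hM
  obtain ⟨u1, u2, u3, u4⟩ := ABd_UB3 hr hu
  have hR : (0 : ℝ) < 1 / (1000 * M) := by positivity
  have hd : DiffContOnCl ℂ (KK r n M (x - 1 / 2)) (Metric.ball z (1 / (1000 * M))) := by
    refine DifferentiableOn.diffContOnCl_ball (U := Metric.closedBall z (1 / (1000 * M)))
      (fun w hw => ?_) subset_rfl
    rw [Metric.mem_closedBall, dist_eq_norm] at hw
    have hw' : ‖w - z‖ ≤ 1 / 1000 := by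
      refine hw.trans ?_
      rw [div_le_div_iff₀ (by positivity) (by norm_num)]
      linarith only [hM1]
    have hwre : |w.re - z.re| ≤ 1 / 1000 := by
      have := Complex.abs_re_le_norm (w - z)
      rw [Complex.sub_re] at this
      exact this.trans hw'
    rw [abs_le] at hwre
    have u1' := u1
    have u2' := u2
    have u3' := u3
    have u4' := u4
    rw [Complex.sub_re] at u1' u2'
    rw [Complex.add_re] at u3' u4'
    exact (KK_differentiable_v r n M (by omega) (x - 1 / 2) w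
      (by rw [Complex.sub_re]; linarith only [u1', hwre.2]) (by rw [Complex.sub_re]; linarith only [u2',
                                                                                       hwre.1])
      (by rw [Complex.add_re]; linarith only [u3', hwre.1])
      (by rw [Complex.add_re]; linarith only [u4', hwre.2])).differentiableWithinAt
  have hb := Complex.norm_deriv_le_of_forall_mem_sphere_norm_le hR hd
    (C := C / M * Real.exp (M * (BB r x z - ff x).re)) (fun w hw => by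
      rw [mem_sphere_iff_norm] at hw
      exact hK M hM x z w hx hz hu hw.le)
  unfold DD
  rw [if_pos hr, norm_mul]
  calc ‖1 / (4 * Real.pi * I * M : ℂ)‖ * ‖deriv (KK r n M (x - 1 / 2)) z‖
      ≤ (1 / M) * (C / M * Real.exp (M * (BB r x z - ff x).re) / (1 / (1000 * M))) :=
        mul_le_mul (ABd_norm_pre M (by omega)) hb (norm_nonneg _) (by positivity)
    _ = _ := by field_simp

private theorem ABd_DD2 (r : ℤ) (hr : ¬ 3 ≤ |r|) (n : ℕ) : ∃ C : ℝ, 0 < C ∧ ∀ᶠ M : ℕ in atTop,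
    ∀ x z : ℂ, 6 / 10 < x.re → x.re < 9 / 10 → |x.im| < 1 / 5 → |z.im| < 1 / 5 → UB r x z →
    ‖DD r n M x z‖ ≤ C / M * Real.exp (M * (BB r x z - ff x).re) := by
  obtain ⟨C₁, hC₁, hP⟩ := ABd_ph n
  obtain ⟨C₂, hC₂, hL⟩ := ABd_LL (1 / 200) (2 / 5) (n + 1) (by norm_num) (by positivity)
  refine ⟨Real.exp (Real.pi * |(r : ℝ)| / 2 * C₁ + 2 * C₂), by positivity, ?_⟩
  filter_upwards [hL, eventually_ge_atTop 1] with M hM hM1' x z h1 h2 h3 h4 hu
  have hM0 : (0 : ℝ) < M := by exact_mod_cast hM1'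
  unfold UB at hu
  rw [if_neg hr, Complex.sub_re] at hu
  obtain ⟨u1, u2⟩ := hu
  have hxim := abs_lt.1 h3
  have hzim := abs_lt.1 h4
  have hxn : ‖x‖ ≤ 2 := by
    refine (Complex.norm_le_abs_re_add_abs_im x).trans ?_
    have : |x.re| ≤ 1 := by rw [abs_le]; constructor <;> linarith
    linarith only [this, h3]
  have hzn : ‖z‖ ≤ 2 := by
    refine (Complex.norm_le_abs_re_add_abs_im z).trans ?_
    have : |z.re| ≤ 1 := by rw [abs_le]; constructor <;> linarith
    linarith only [this, h4]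
  have hph := hP M hM1' x z hxn hzn
  have hA := (abs_le.1 (hM z 0 (by linarith only [u1]) (by linarith only [u2, h2]) (by rw [abs_le]; constructor <;> linarith)
    (by rw [abs_zero]; positivity))).1
  have hbt : |1 / 2 - bt n| ≤ (n : ℝ) + 1 := by
    have hn : (0 : ℝ) ≤ n := Nat.cast_nonneg n
    unfold bt
    rw [abs_le]
    constructor <;> linarith only []
  have hB := (abs_le.1 (hM (x - z) (1 / 2 - bt n) (by rw [Complex.sub_re]; linarith only [u2])
    (by rw [Complex.sub_re]; linarith only [u1, h2])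
    (by rw [Complex.sub_im, abs_le]; constructor <;> linarith) hbt)).1
  have eA : (M : ℂ) * z - 1 / 2 + ((0 : ℝ) : ℂ) = M * z - 1 / 2 := by push_cast; ring
  have eB : (M : ℂ) * (x - z) - 1 / 2 + ((1 / 2 - bt n : ℝ) : ℂ) = M * (x - z) - bt n := by
    push_cast; ring
  rw [eA] at hA
  rw [eB] at hB
  set P : ℂ := (x ^ 2 - 3 * x) / 2 + z ^ 2 + z * x - 2 * z with hPdef
  set Q : ℂ := ph n M (M * x - bt n - 1 / 2) (M * z - 1 / 2) with hQdef
  have hBB : BB r x z - ff x = -ff z - ff (x - z) + Real.pi * I * r / 2 * P := by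
    unfold BB
    rw [if_neg hr, hPdef]
    ring
  have hQ : (Real.pi * I * r / 2 * Q).re ≤ M * (Real.pi * I * r / 2 * P).re +
      Real.pi * |(r : ℝ)| / 2 * C₁ := by
    have e1 : Real.pi * I * r / 2 * Q = M * (Real.pi * I * r / 2 * P) +
        Real.pi * I * r / 2 * (Q - M * P) := by ring
    rw [e1, Complex.add_re, ABd_natre]
    have e2 : ‖(Real.pi * I * r / 2 * (Q - M * P) : ℂ)‖ ≤ Real.pi * |(r : ℝ)| / 2 * C₁ := by
      have e3 : ‖(Real.pi * I * r / 2 : ℂ)‖ = Real.pi * |(r : ℝ)| / 2 := by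
        rw [norm_div, norm_mul, norm_mul, Complex.norm_I, Complex.norm_real, Real.norm_eq_abs,
          abs_of_pos Real.pi_pos, show (r : ℂ) = ((r : ℝ) : ℂ) by push_cast; rfl,
          Complex.norm_real, Real.norm_eq_abs]
        simp
      rw [norm_mul, e3]
      exact mul_le_mul_of_nonneg_left hph (by positivity)
    have e4 := (Complex.re_le_norm (Real.pi * I * r / 2 * (Q - M * P))).trans e2
    linarith only [e4]
  unfold DD
  rw [if_neg hr, norm_mul, Complex.norm_exp, Complex.norm_exp, hBB]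
  have h8 : Real.exp (Real.pi * |(r : ℝ)| / 2 * C₁ + 2 * C₂) / M *
      Real.exp (M * (-ff z - ff (x - z) + Real.pi * I * r / 2 * P).re) =
      Real.exp (Real.pi * |(r : ℝ)| / 2 * C₁ + 2 * C₂ - Real.log M +
        M * (-ff z - ff (x - z) + Real.pi * I * r / 2 * P).re) := by
    rw [Real.exp_add _ (M * (-ff z - ff (x - z) + Real.pi * I * r / 2 * P).re), Real.exp_sub,
      Real.exp_log hM0]
  rw [h8, ← Real.exp_add]
  refine Real.exp_le_exp.2 ?_
  rw [Complex.sub_re, Complex.neg_re, Complex.add_re, Complex.sub_re, Complex.neg_re]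
  linarith only [hQ, hB, hA]

theorem DD_bd (r : ℤ) (n : ℕ) : ∃ C : ℝ, 0 < C ∧ ∀ᶠ M : ℕ in atTop, ∀ x z : ℂ,
    6 / 10 < x.re → x.re < 9 / 10 → |x.im| < 1 / 5 → |z.im| < 1 / 5 → UB r x z →
    ‖DD r n M x z‖ ≤ C / M * Real.exp (M * (BB r x z - ff x).re) := by
  by_cases hr : 3 ≤ |r|
  · obtain ⟨C, hC, h⟩ := ABd_DD3 r hr n
    exact ⟨C, hC, h.mono fun M hM x z _ _ h3 h4 hu => hM x z h3 h4 hu⟩
  · exact ABd_DD2 r hr n

theorem DP_bd (r : ℤ) (hr : 3 ≤ |r|) (n : ℕ) : ∃ C : ℝ, 0 < C ∧ ∀ᶠ M : ℕ in atTop, ∀ x z : ℂ,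
    6 / 10 < x.re → x.re < 9 / 10 → |x.im| < 1 / 5 → |z.im| < 1 / 5 → UB r x z →
    ‖DP r n M x z‖ ≤ C / M * Real.exp (M * (BB r x z - ff x).re) := by
  obtain ⟨C, hC, hK⟩ := ABd_K0 r hr n
  refine ⟨C, hC, ?_⟩
  filter_upwards [eventually_ge_atTop 1] with M hM x z _ _ hx hz hu
  have hM0 : (0 : ℝ) < M := by exact_mod_cast hM
  have hM1 : (1 : ℝ) ≤ M := by exact_mod_cast hM
  have h1 := hK M hM x z z hx hz hu (by rw [sub_self, norm_zero]; positivity)
  have h2 : (1 : ℝ) / M ≤ 1 := by rw [div_le_one hM0]; exact hM1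
  unfold DP
  rw [norm_mul]
  calc ‖1 / (4 * Real.pi * I * M : ℂ)‖ * ‖KK r n M (x - 1 / 2) z‖
      ≤ 1 * (C / M * Real.exp (M * (BB r x z - ff x).re)) :=
        mul_le_mul ((ABd_norm_pre M (by omega)).trans h2) h1 (norm_nonneg _) (by positivity)
    _ = _ := one_mul _

end Pool.Agent.H63.GO
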