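import Pool.Agent.H63.GO.PDefs
import Pool.Agent.H63.VC3.KAn

/-! # Amplitudes: analyticity, parity, primitives -/

namespace Pool.Agent.H63.GO

open Complex Filter Topology Pool.Agent.H63.VC Pool.Agent.H63.VC3

attribute [local fun_prop] analyticAt_fst analyticAt_snd

private theorem ABlk_LL_an (M : ℕ) (hM : 0 < M) (s : ℂ) (h0 : -1 < s.re) (h1 : s.re < M) :
    AnalyticAt ℂ (LL M) s := by
  have hopen : IsOpen {w : ℂ | -1 < w.re ∧ w.re < (M : ℝ)} :=
    (isOpen_lt continuous_const Complex.continuous_re).inter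
      (isOpen_lt Complex.continuous_re continuous_const)
  have hd : DifferentiableOn ℂ (LL M) {w : ℂ | -1 < w.re ∧ w.re < (M : ℝ)} := fun w hw =>
    (LL_differentiableAt M hM w hw.1 hw.2).differentiableWithinAt
  exact hd.analyticAt (hopen.mem_nhds ⟨h0, h1⟩)

private theorem ABlk_KK_an (r : ℤ) (n M : ℕ) (hM : 0 < M) (x z : ℂ)
    (h1 : 0 < (x - 1 / 2 - z).re) (h2 : (x - 1 / 2 - z).re < 1) (h3 : 0 < (x - 1 / 2 + z).re)
    (h4 : (x - 1 / 2 + z).re < 1) :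
    AnalyticAt ℂ (fun p : ℂ × ℂ => KK r n M (p.1 - 1 / 2) p.2) (x, z) := by
  have ha := KAn_arg hM h1 h2
  have hb := KAn_arg hM h3 h4
  have hA : AnalyticAt ℂ (fun p : ℂ × ℂ => LL M (M * (p.1 - 1 / 2 - p.2) - 1 / 2)) (x, z) := by
    have h := ABlk_LL_an M hM _ ha.1 ha.2
    have h' : AnalyticAt ℂ (fun p : ℂ × ℂ => (M : ℂ) * (p.1 - 1 / 2 - p.2) - 1 / 2) (x, z) := by
      fun_prop
    exact AnalyticAt.comp (g := LL M) (f := fun p : ℂ × ℂ => (M : ℂ) * (p.1 - 1 / 2 - p.2) - 1 / 2)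
      (x := (x, z)) h h'
  have hB : AnalyticAt ℂ (fun p : ℂ × ℂ => LL M (M * (p.1 - 1 / 2 + p.2) - 1 / 2)) (x, z) := by
    have h := ABlk_LL_an M hM _ hb.1 hb.2
    have h' : AnalyticAt ℂ (fun p : ℂ × ℂ => (M : ℂ) * (p.1 - 1 / 2 + p.2) - 1 / 2) (x, z) := by
      fun_prop
    exact AnalyticAt.comp (g := LL M) (f := fun p : ℂ × ℂ => (M : ℂ) * (p.1 - 1 / 2 + p.2) - 1 / 2)
      (x := (x, z)) h h'
  have hC : AnalyticAt ℂ (fun p : ℂ × ℂ => Bn n M p.2) (x, z) :=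
    AnalyticAt.comp (g := Bn n M) (f := fun p : ℂ × ℂ => p.2) (x := (x, z))
      ((KAn_Bn_differentiable n M).analyticAt z) analyticAt_snd
  have hs : AnalyticAt ℂ (fun p : ℂ × ℂ => 2 * Complex.sin (2 * Real.pi * p.2)) (x, z) := by
    have h : AnalyticAt ℂ (fun w : ℂ => 2 * Complex.sin (2 * Real.pi * w)) z := by
      have hd : Differentiable ℂ (fun w : ℂ => 2 * Complex.sin (2 * Real.pi * w)) := by fun_prop
      exact hd.analyticAt z
    exact AnalyticAt.comp (g := fun w : ℂ => 2 * Complex.sin (2 * Real.pi * w))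
      (f := fun p : ℂ × ℂ => p.2) (x := (x, z)) h analyticAt_snd
  have he : AnalyticAt ℂ (fun p : ℂ × ℂ => Complex.exp (2 * Real.pi * I * r * M * p.2 ^ 2))
      (x, z) := by
    have h : AnalyticAt ℂ (fun p : ℂ × ℂ => 2 * Real.pi * I * r * M * p.2 ^ 2) (x, z) := by
      fun_prop
    exact h.cexp
  have hL := (hA.neg.sub hB).cexp
  exact ((he.mul hs).mul hC).mul hL

theorem Cc_an (n g : ℕ) (hg : 1 ≤ g) (hgn : g ≤ n - 1) : ∀ᶠ M : ℕ in atTop,
    AnalyticOnNhd ℂ (fun x : ℂ => Cc n g M (x - 1 / 2)) {x | 6 / 10 < x.re ∧ x.re < 9 / 10} := by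
  filter_upwards [eventually_ge_atTop (1000 * (n + 1))] with M hM
  have hopen : IsOpen {x : ℂ | 6 / 10 < x.re ∧ x.re < 9 / 10} :=
    (isOpen_lt continuous_const Complex.continuous_re).inter
      (isOpen_lt Complex.continuous_re continuous_const)
  refine DifferentiableOn.analyticOnNhd (fun x hx => ?_) hopen
  have hre : (x - 1 / 2 : ℂ).re = x.re - 1 / 2 := by simp
  have h1 : 1 / 10 ≤ (x - 1 / 2 : ℂ).re := by rw [hre]; linarith [hx.1]
  have h2 : (x - 1 / 2 : ℂ).re ≤ 4 / 10 := by rw [hre]; linarith [hx.2]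
  have h := Cc_differentiableAt n g M hg hgn hM (x - 1 / 2) h1 h2
  exact (DifferentiableAt.comp (f := fun x : ℂ => x - 1 / 2) (g := Cc n g M) x h
    (by fun_prop)).differentiableWithinAt

private theorem ABlk_open (r : ℤ) :
    IsOpen {p : ℂ × ℂ | 6 / 10 < p.1.re ∧ p.1.re < 9 / 10 ∧ UB r p.1 p.2} := by
  have c1 : Continuous fun p : ℂ × ℂ => p.1.re := by fun_prop
  have c2 : Continuous fun p : ℂ × ℂ => (p.1 - 1 / 2 - p.2).re := by fun_prop
  have c3 : Continuous fun p : ℂ × ℂ => (p.1 - 1 / 2 + p.2).re := by fun_prop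
  have c4 : Continuous fun p : ℂ × ℂ => p.2.re := by fun_prop
  have c5 : Continuous fun p : ℂ × ℂ => (p.1 - p.2).re := by fun_prop
  refine (isOpen_lt continuous_const c1).and ((isOpen_lt c1 continuous_const).and ?_)
  by_cases hr : 3 ≤ |r|
  · simp only [UB, if_pos hr]
    exact (isOpen_lt continuous_const c2).and ((isOpen_lt c2 continuous_const).and
      ((isOpen_lt continuous_const c3).and (isOpen_lt c3 continuous_const)))
  · simp only [UB, if_neg hr]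
    exact (isOpen_lt continuous_const c4).and (isOpen_lt continuous_const c5)

private theorem ABlk_KK_an' (r : ℤ) (hr : 3 ≤ |r|) (n M : ℕ) (hM : 0 < M) (p : ℂ × ℂ)
    (h : UB r p.1 p.2) :
    AnalyticAt ℂ (fun p : ℂ × ℂ => KK r n M (p.1 - 1 / 2) p.2) p := by
  unfold UB at h
  rw [if_pos hr] at h
  exact ABlk_KK_an r n M hM p.1 p.2 (by linarith [h.1]) (by linarith [h.2.1])
    (by linarith [h.2.2.1]) (by linarith [h.2.2.2])

private theorem ABlk_deriv_eq (r : ℤ) (hr : 3 ≤ |r|) (n M : ℕ) (hM : 0 < M) (p : ℂ × ℂ)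
    (h : UB r p.1 p.2) :
    fderiv ℂ (fun p : ℂ × ℂ => KK r n M (p.1 - 1 / 2) p.2) p (0, 1) =
      deriv (KK r n M (p.1 - 1 / 2)) p.2 := by
  have h1 := (ABlk_KK_an' r hr n M hM p h).differentiableAt.hasFDerivAt
  have h2 : HasDerivAt (fun v : ℂ => (p.1, v)) ((0 : ℂ), (1 : ℂ)) p.2 :=
    (hasDerivAt_const p.2 p.1).prodMk (hasDerivAt_id p.2)
  have h3 : HasDerivAt (fun v : ℂ => KK r n M (p.1 - 1 / 2) v)
      (fderiv ℂ (fun p : ℂ × ℂ => KK r n M (p.1 - 1 / 2) p.2) p (0, 1)) p.2 :=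
    HasFDerivAt.comp_hasDerivAt (f := fun v : ℂ => (p.1, v))
      (l := fun p : ℂ × ℂ => KK r n M (p.1 - 1 / 2) p.2) p.2 h1 h2
  exact h3.deriv.symm

theorem DD_an (r : ℤ) (n : ℕ) : ∀ᶠ M : ℕ in atTop,
    AnalyticOnNhd ℂ (fun p : ℂ × ℂ => DD r n M p.1 p.2)
      {p | 6 / 10 < p.1.re ∧ p.1.re < 9 / 10 ∧ UB r p.1 p.2} := by
  filter_upwards [eventually_ge_atTop (1000 * (n + 1))] with M hM
  have hM0 : 0 < M := by omega
  have hMp : (0 : ℝ) < M := by exact_mod_cast hM0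
  have hMn : 1000 * ((n : ℝ) + 1) ≤ M := by exact_mod_cast hM
  intro p hp
  by_cases hr : 3 ≤ |r|
  · have hF : AnalyticOnNhd ℂ (fun p : ℂ × ℂ => KK r n M (p.1 - 1 / 2) p.2)
        {p | 6 / 10 < p.1.re ∧ p.1.re < 9 / 10 ∧ UB r p.1 p.2} := fun q hq =>
      ABlk_KK_an' r hr n M hM0 q hq.2.2
    have hF2 := hF.fderiv p hp
    have hF3 : AnalyticAt ℂ (fun q : ℂ × ℂ =>
        fderiv ℂ (fun p : ℂ × ℂ => KK r n M (p.1 - 1 / 2) p.2) q (0, 1)) p := by
      have := ((ContinuousLinearMap.apply ℂ ℂ ((0 : ℂ), (1 : ℂ))).analyticAt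
        (fderiv ℂ (fun p : ℂ × ℂ => KK r n M (p.1 - 1 / 2) p.2) p)).comp hF2
      exact this
    have hF4 := (analyticAt_const (v := (1 / (4 * Real.pi * I * M) : ℂ)) (x := p)).mul hF3
    refine hF4.congr ?_
    filter_upwards [(ABlk_open r).mem_nhds hp] with q hq
    simp only [DD, if_pos hr, Pi.mul_apply]
    rw [ABlk_deriv_eq r hr n M hM0 q hq.2.2]
  · simp only [DD, if_neg hr]
    obtain ⟨hp1, hp2, hU⟩ := hp
    unfold UB at hU
    rw [if_neg hr] at hU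
    have hbt : bt n = ((n : ℝ) - 1) / 2 := rfl
    have hn0 : (0 : ℝ) ≤ n := Nat.cast_nonneg n
    have hre5 : (p.1 - p.2).re = p.1.re - p.2.re := Complex.sub_re _ _
    have hz9 : p.2.re < 9 / 10 := by
      have := hU.2
      rw [hre5] at this
      linarith
    have e1 : ((M : ℂ) * p.2 - 1 / 2).re = M * p.2.re - 1 / 2 := by simp
    have e2 : ((M : ℂ) * (p.1 - p.2) - bt n).re = M * (p.1 - p.2).re - bt n := by
      simp [Complex.mul_re]
    have m1 : (M : ℝ) * (1 / 200) ≤ M * p.2.re := mul_le_mul_of_nonneg_left hU.1.le hMp.le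
    have m2 : (M : ℝ) * p.2.re ≤ M * (9 / 10) := mul_le_mul_of_nonneg_left hz9.le hMp.le
    have m3 : (M : ℝ) * (1 / 200) ≤ M * (p.1 - p.2).re :=
      mul_le_mul_of_nonneg_left hU.2.le hMp.le
    have m4 : (M : ℝ) * (p.1 - p.2).re ≤ M * (9 / 10) := by
      refine mul_le_mul_of_nonneg_left ?_ hMp.le
      rw [hre5]
      linarith [hU.1]
    have hA : AnalyticAt ℂ (fun p : ℂ × ℂ => LL M (M * p.2 - 1 / 2)) p := by
      have h := ABlk_LL_an M hM0 ((M : ℂ) * p.2 - 1 / 2) (by rw [e1]; linarith)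
        (by rw [e1]; linarith)
      have h' : AnalyticAt ℂ (fun p : ℂ × ℂ => (M : ℂ) * p.2 - 1 / 2) p := by fun_prop
      exact AnalyticAt.comp (g := LL M) (f := fun p : ℂ × ℂ => (M : ℂ) * p.2 - 1 / 2)
        (x := p) h h'
    have hB : AnalyticAt ℂ (fun p : ℂ × ℂ => LL M (M * (p.1 - p.2) - bt n)) p := by
      have h := ABlk_LL_an M hM0 ((M : ℂ) * (p.1 - p.2) - bt n) (by rw [e2, hbt]; linarith)
        (by rw [e2, hbt]; linarith)
      have h' : AnalyticAt ℂ (fun p : ℂ × ℂ => (M : ℂ) * (p.1 - p.2) - bt n) p := by fun_prop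
      exact AnalyticAt.comp (g := LL M) (f := fun p : ℂ × ℂ => (M : ℂ) * (p.1 - p.2) - bt n)
        (x := p) h h'
    have hE : AnalyticAt ℂ (fun p : ℂ × ℂ => Real.pi * I * r / 2 *
        ph n M (M * p.1 - bt n - 1 / 2) (M * p.2 - 1 / 2)) p := by
      unfold ph
      fun_prop
    exact hE.cexp.mul (hA.neg.sub hB).cexp

theorem DP_an (r : ℤ) (hr : 3 ≤ |r|) (n : ℕ) : ∀ᶠ M : ℕ in atTop,
    AnalyticOnNhd ℂ (fun p : ℂ × ℂ => DP r n M p.1 p.2)
      {p | 6 / 10 < p.1.re ∧ p.1.re < 9 / 10 ∧ UB r p.1 p.2} := by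
  filter_upwards [eventually_gt_atTop 0] with M hM
  intro p hp
  unfold DP
  exact (analyticAt_const (v := (1 / (4 * Real.pi * I * M) : ℂ)) (x := p)).mul
    (ABlk_KK_an' r hr n M hM p hp.2.2)

theorem DP_deriv (r : ℤ) (hr : 3 ≤ |r|) (n : ℕ) : ∀ᶠ M : ℕ in atTop, ∀ x z : ℂ, UB r x z →
    HasDerivAt (fun z => DP r n M x z) (DD r n M x z) z := by
  filter_upwards [eventually_gt_atTop 0] with M hM
  intro x z h
  unfold UB at h
  rw [if_pos hr] at h
  have h1 := (KK_differentiable_v r n M hM (x - 1 / 2) z (by linarith [h.1]) (by linarith [h.2.1])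
    (by linarith [h.2.2.1]) (by linarith [h.2.2.2])).hasDerivAt
  unfold DP DD
  rw [if_pos hr]
  exact h1.const_mul _

theorem DD_even (r : ℤ) (hr : 3 ≤ |r|) (n M : ℕ) (x z : ℂ) : DD r n M x (-z) = DD r n M x z := by
  have h1 : (fun v : ℂ => KK r n M (x - 1 / 2) (-v)) = fun v : ℂ => -KK r n M (x - 1 / 2) v := by
    funext v
    exact KK_odd r n M (x - 1 / 2) v
  have h2 : deriv (fun v : ℂ => KK r n M (x - 1 / 2) (-v)) z =
      -deriv (KK r n M (x - 1 / 2)) (-z) := deriv_comp_neg _ _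
  have h3 : deriv (fun v : ℂ => -KK r n M (x - 1 / 2) v) z = -deriv (KK r n M (x - 1 / 2)) z :=
    deriv.fun_neg
  rw [h1, h3] at h2
  unfold DD
  rw [if_pos hr, if_pos hr]
  congr 1
  exact (neg_injective h2).symm

end Pool.Agent.H63.GO
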