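import Mathlib

/-!
# Genus one two-bridge knots: abstract definitions

Lattice sums over `ℤ^ι` of functions that are holomorphic near the support of a cutoff function,
and the data of the abstract saddle point theorem.
-/

namespace Pool.Agent.H63.GO

open Complex Filter Topology
open scoped BigOperators

/-- The point `a + i b`. -/
noncomputable def cp {ι : Type*} (a b : ι → ℝ) : ι → ℂ := fun j => (a j : ℂ) + (b j : ℂ) * I

/-- `∑_{m ≥ 1} e^{2 π i m z}` (for `0 < Im z`). -/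
noncomputable def kap (z : ℂ) : ℂ :=
  exp (2 * Real.pi * I * z) / (1 - exp (2 * Real.pi * I * z))

/-- The sign as a real number. -/
noncomputable def sgn (τ : SignType) : ℝ := (τ : ℝ)

/-- The kernel of the modes of sign `τ`, with regularization `ε`. -/
noncomputable def kr (ε : ℝ) (τ : SignType) (z : ℂ) : ℂ :=
  if τ = 0 then 1 else kap ((sgn τ : ℂ) * z + ε * I)

/-- The Poisson kernel. -/
noncomputable def PK (ε x : ℝ) : ℝ :=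
  (1 - Real.exp (-(2 * Real.pi * ε)) ^ 2) /
    (1 - 2 * Real.exp (-(2 * Real.pi * ε)) * Real.cos (2 * Real.pi * x) +
      Real.exp (-(2 * Real.pi * ε)) ^ 2)

/-- The lattice points. -/
noncomputable def lp {ι : Type*} (M : ℕ) (o : ι → ℝ) (k : ι → ℤ) : ι → ℝ :=
  fun j => ((k j : ℝ) + o j) / M

/-- The total shift over the modes. -/
noncomputable def nb {ι : Type*} [Fintype ι] (σ : ι → SignType) (b : ι → ℝ) : ℝ :=
  ∑ j, |sgn (σ j)| * |b j|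

/-- The product of the kernels. -/
noncomputable def krp {ι : Type*} [Fintype ι] (ε : ℝ) (M : ℕ) (o : ι → ℝ) (σ : ι → SignType)
    (z : ι → ℂ) : ℂ := ∏ j, kr ε (σ j) (M * z j - o j)

/-- A real vector as a complex vector. -/
noncomputable def rc {ι : Type*} (ξ : ι → ℝ) : ι → ℂ := fun j => (ξ j : ℂ)

/-- The sign vector of the main group: `1` on `Bv`, `0` elsewhere. -/
def sg0 {ι : Type*} [DecidableEq ι] (Bv : Finset ι) : ι → SignType :=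
  fun j => if j ∈ Bv then 1 else 0

/-- The potential including the main modes. -/
noncomputable def Vm {ι : Type*} (Bv : Finset ι) (V0 : (ι → ℂ) → ℂ) (z : ι → ℂ) : ℂ :=
  V0 z + 2 * Real.pi * I * ∑ j ∈ Bv, z j

/-- The geometric data of the abstract saddle point theorem (`master`). `Bv` is the set of
coordinates with main mode `±1`, `U` a domain, `V0` the potential, `χ` the cutoff function, `b σ` the
shift of the contour for the sign vector `σ`, `ac + i b (sg0 Bv)` the critical point and `m` the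
critical value of the real part. -/
structure MData {ι : Type} [Fintype ι] [DecidableEq ι] (Bv : Finset ι) (U : Set (ι → ℂ))
    (V0 : (ι → ℂ) → ℂ) (χ : (ι → ℝ) → ℝ) (b : (ι → SignType) → ι → ℝ) (ac : ι → ℝ)
    (m δ c : ℝ) : Prop where
  U_open : IsOpen U
  V_an : AnalyticOnNhd ℂ V0 U
  δ_pos : 0 < δ
  c_pos : 0 < c
  χ_smooth : ContDiff ℝ 1 χ
  χ_supp : HasCompactSupport χ
  χ_one : χ ac = 1
  χ_nonneg : ∀ a, 0 ≤ χ a
  χ_le : ∀ a, χ a ≤ 1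
  χ_even : ∀ a, ∀ j ∈ Bv, χ (Function.update a j (-a j)) = χ a
  b_pos : ∀ σ j, σ j ≠ 0 → 0 < sgn (σ j) * b σ j
  b_sym : ∀ σ, (∀ j ∈ Bv, σ j ≠ 0) → (∀ j, j ∉ Bv → σ j = 0) →
    ∀ j, b σ j = if j ∈ Bv then sgn (σ j) * b (sg0 Bv) j else b (sg0 Bv) j
  sub : ∀ σ, ∀ a ∈ tsupport χ, ∀ s ∈ Set.Icc (0 : ℝ) 1, cp a (s • b σ) ∈ U
  grad : ∀ σ a, fderiv ℝ χ a ≠ 0 → ∀ s ∈ Set.Icc (0 : ℝ) 1,
    (V0 (cp a (s • b σ))).re - 2 * Real.pi * s * nb σ (b σ) ≤ m - δ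
  flip : ∀ σ, (∀ j ∈ Bv, σ j ≠ 0) → (∃ j, j ∉ Bv ∧ σ j ≠ 0) → ∀ a ∈ tsupport χ,
    (V0 (cp a (b σ))).re - 2 * Real.pi * nb σ (b σ) ≤ m - δ
  crit : (Vm Bv V0 (cp ac (b (sg0 Bv)))).re = m
  dec : ∀ a ∈ tsupport χ, (Vm Bv V0 (cp a (b (sg0 Bv)))).re ≤ m - c * ∑ j, (a j - ac j) ^ 2
  gradz : ∀ ξ : ι → ℝ, fderiv ℂ (Vm Bv V0) (cp ac (b (sg0 Bv))) (rc ξ) = 0

/-- The analytic data of the abstract saddle point theorem: the summands `Φ M`, their primitives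
`Ψ j M` in the coordinates `j ∈ Bv`, the offsets `o M` of the lattice and the power `M ^ e`. -/
structure AData {ι : Type} [Fintype ι] [DecidableEq ι] (Bv : Finset ι) (U : Set (ι → ℂ))
    (V0 : (ι → ℂ) → ℂ) (Φ : ℕ → (ι → ℂ) → ℂ) (Ψ : ι → ℕ → (ι → ℂ) → ℂ) (o : ℕ → ι → ℝ)
    (e : ℝ) : Prop where
  an : ∀ᶠ M in atTop, AnalyticOnNhd ℂ (Φ M) U
  prim : ∀ j ∈ Bv, ∀ᶠ M in atTop, AnalyticOnNhd ℂ (Ψ j M) U ∧
    ∀ z ∈ U, fderiv ℂ (Ψ j M) z (Pi.single j 1) = Φ M z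
  bound : ∃ C : ℝ, 0 < C ∧ ∀ᶠ M : ℕ in atTop, ∀ z ∈ U,
    ‖Φ M z‖ ≤ C * (M : ℝ) ^ e * Real.exp (M * (V0 z).re) ∧
    ∀ j ∈ Bv, ‖Ψ j M z‖ ≤ C * (M : ℝ) ^ e * Real.exp (M * (V0 z).re)
  even : ∀ᶠ M in atTop, ∀ z ∈ U, ∀ j ∈ Bv, Function.update z j (-z j) ∈ U ∧
    Φ M (Function.update z j (-z j)) = Φ M z
  ofs : ∀ M, ∀ j ∈ Bv, ∃ k : ℤ, 2 * o M j = k

/-- The limit of the amplitude at the critical point `zc`. -/
def ALim {ι : Type} (V0 : (ι → ℂ) → ℂ) (Φ : ℕ → (ι → ℂ) → ℂ) (e : ℝ) (zc : ι → ℂ) : Prop :=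
  ∃ A : ℂ, A ≠ 0 ∧ ∀ Z : ℕ → ι → ℂ, Tendsto Z atTop (𝓝 zc) →
    Tendsto (fun M : ℕ => Φ M (Z M) * exp (-(M * V0 (Z M))) / (((M : ℝ) ^ e : ℝ) : ℂ)) atTop (𝓝 A)

/-- The second derivative in the direction `ξ`. -/
noncomputable def D2 {ι : Type} [Fintype ι] (V : (ι → ℂ) → ℂ) (z ξ : ι → ℂ) : ℂ :=
  fderiv ℂ (fun w => fderiv ℂ V w ξ) z ξ

/-- The structure of the potential: `K` is the domain of the real parts, `B` the domain of the shifts,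
`E` the exponent of the terms on the real domain, with values at most `c2` on the boundary of `K`. -/
structure SData {ι : Type} [Fintype ι] [DecidableEq ι] (Bv : Finset ι) (U : Set (ι → ℂ))
    (V0 : (ι → ℂ) → ℂ) (K B : Set (ι → ℝ)) (E : (ι → ℝ) → ℝ) (ac bc : ι → ℝ) (m c2 : ℝ) :
    Prop where
  U_open : IsOpen U
  V_an : AnalyticOnNhd ℂ V0 U
  K_cpt : IsCompact K
  K_cvx : Convex ℝ K
  B_cpt : IsCompact B
  B_cvx : Convex ℝ B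
  B_zero : B ∈ 𝓝 (0 : ι → ℝ)
  sub : ∀ a ∈ K, ∀ b ∈ B, cp a b ∈ U
  K_even : ∀ a ∈ K, ∀ j ∈ Bv, Function.update a j (-a j) ∈ K
  B_even : ∀ b ∈ B, ∀ j ∈ Bv, Function.update b j (-b j) ∈ B
  V_even : ∀ z ∈ U, ∀ j ∈ Bv, Function.update z j (-z j) ∈ U ∧ V0 (Function.update z j (-z j)) = V0 z
  E_cont : Continuous E
  E_eq : ∀ a ∈ K, E a = (V0 (cp a 0)).re
  E_even : ∀ a, ∀ j ∈ Bv, E (Function.update a j (-a j)) = E a
  E_bdy : ∀ a ∈ K, a ∉ interior K → E a ≤ c2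
  neg : ∀ a ∈ K, ∀ b ∈ B, ∀ ξ : ι → ℝ, ξ ≠ 0 → (D2 V0 (cp a b) (rc ξ)).re < 0
  ac_mem : ac ∈ interior K
  bc_mem : bc ∈ B
  bc_pos : ∀ j ∈ Bv, 0 < bc j
  gradz : ∀ ξ : ι → ℝ, fderiv ℂ (Vm Bv V0) (cp ac bc) (rc ξ) = 0
  crit : (Vm Bv V0 (cp ac bc)).re = m
  c2_lt : c2 < m
  single : ∀ j, j ∉ Bv → ∀ τ : SignType, τ ≠ 0 → ∃ η : ℝ, 0 < η ∧
    (Pi.single j (sgn τ * η) : ι → ℝ) ∈ B ∧
    ∀ a ∈ K, (V0 (cp a (Pi.single j (sgn τ * η)))).re - 2 * Real.pi * η < m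

end Pool.Agent.H63.GO
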