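import Pool.Agent.H63.GO.ABd
import Pool.Agent.H63.GO.ABlk
import Pool.Agent.H63.GO.Defs

/-! # The analytic data -/

namespace Pool.Agent.H63.GO

open Complex Filter Topology Pool.Agent.H63.VC Pool.Agent.H63.VC3

private theorem AData_comp2 {D : ℂ → ℂ → ℂ} {z : Fin 3 → ℂ} (i : Fin 3)
    (h : AnalyticAt ℂ (fun p : ℂ × ℂ => D p.1 p.2) (z 0, z i)) :
    AnalyticAt ℂ (fun z : Fin 3 → ℂ => D (z 0) (z i)) z := by
  have h0 : AnalyticAt ℂ (fun z : Fin 3 → ℂ => z 0) z :=
    (ContinuousLinearMap.proj (R := ℂ) (φ := fun _ : Fin 3 => ℂ) 0).analyticAt z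
  have hi : AnalyticAt ℂ (fun z : Fin 3 → ℂ => z i) z :=
    (ContinuousLinearMap.proj (R := ℂ) (φ := fun _ : Fin 3 => ℂ) i).analyticAt z
  exact AnalyticAt.fun_comp (g := fun p : ℂ × ℂ => D p.1 p.2) (f := fun z : Fin 3 → ℂ => (z 0, z i))
    h (AnalyticAt.prod h0 hi)

private theorem AData_comp1 {D : ℂ → ℂ} {z : Fin 3 → ℂ} (h : AnalyticAt ℂ D (z 0)) :
    AnalyticAt ℂ (fun z : Fin 3 → ℂ => D (z 0)) z := by
  have h0 : AnalyticAt ℂ (fun z : Fin 3 → ℂ => z 0) z :=
    (ContinuousLinearMap.proj (R := ℂ) (φ := fun _ : Fin 3 => ℂ) 0).analyticAt z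
  exact AnalyticAt.fun_comp (g := D) (f := fun z : Fin 3 → ℂ => z 0) h h0

private theorem AData_fderiv {f : (Fin 3 → ℂ) → ℂ} {z : Fin 3 → ℂ} {j : Fin 3} {d : ℂ}
    (hf : DifferentiableAt ℂ f z)
    (h : HasDerivAt (fun t => f (Function.update z j t)) d (z j)) :
    fderiv ℂ f z (Pi.single j 1) = d := by
  have h1 : HasDerivAt (Function.update z j) (Pi.single j (1 : ℂ)) (z j) :=
    hasDerivAt_update z j (z j)
  have h2 : HasFDerivAt f (fderiv ℂ f z) (Function.update z j (z j)) := by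
    rw [Function.update_eq_self]
    exact hf.hasFDerivAt
  exact (h2.comp_hasDerivAt (z j) h1).unique h

private theorem AData_blk (r : ℤ) (n : ℕ) : ∃ C : ℝ, 0 < C ∧ ∀ᶠ M : ℕ in atTop, ∀ x z : ℂ,
    6 / 10 < x.re → x.re < 9 / 10 → |x.im| < 1 / 5 → |z.im| < 1 / 5 → UB r x z →
    ‖DD r n M x z‖ ≤ C / M * Real.exp (M * (BB r x z - ff x).re) ∧
    (3 ≤ |r| → ‖DP r n M x z‖ ≤ C / M * Real.exp (M * (BB r x z - ff x).re)) := by
  obtain ⟨C, hC, h⟩ := DD_bd r n
  by_cases hr : 3 ≤ |r|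
  · obtain ⟨C', hC', h'⟩ := DP_bd r hr n
    refine ⟨C + C', by positivity, ?_⟩
    filter_upwards [h, h'] with M hM hM' x z h1 h2 h3 h4 h5
    have e1 : C / (M : ℝ) * Real.exp (M * (BB r x z - ff x).re) ≤
        (C + C') / M * Real.exp (M * (BB r x z - ff x).re) := by
      gcongr
      linarith
    have e2 : C' / (M : ℝ) * Real.exp (M * (BB r x z - ff x).re) ≤
        (C + C') / M * Real.exp (M * (BB r x z - ff x).re) := by
      gcongr
      linarith
    exact ⟨(hM x z h1 h2 h3 h4 h5).trans e1, fun _ => (hM' x z h1 h2 h3 h4 h5).trans e2⟩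
  · refine ⟨C, hC, ?_⟩
    filter_upwards [h] with M hM x z h1 h2 h3 h4 h5
    exact ⟨hM x z h1 h2 h3 h4 h5, fun h => absurd h hr⟩

private theorem AData_prod {a b c : ℂ} {C0 C1 C2 M A B D V : ℝ} (hM : 0 < M) (h0 : 0 < C0)
    (h1 : 0 < C1) (ha : ‖a‖ ≤ C0 * M ^ 2 * Real.exp (M * A)) (hb : ‖b‖ ≤ C1 / M * Real.exp (M * B))
    (hc : ‖c‖ ≤ C2 / M * Real.exp (M * D)) (hV : A + (B + D) = V) :
    ‖a * (b * c)‖ ≤ C0 * C1 * C2 * M ^ (0 : ℝ) * Real.exp (M * V) := by
  rw [norm_mul, norm_mul, Real.rpow_zero, ← hV]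
  calc ‖a‖ * (‖b‖ * ‖c‖) ≤ (C0 * M ^ 2 * Real.exp (M * A)) *
        ((C1 / M * Real.exp (M * B)) * (C2 / M * Real.exp (M * D))) := by
        apply mul_le_mul ha _ (by positivity) (by positivity)
        exact mul_le_mul hb hc (norm_nonneg _) (by positivity)
    _ = C0 * C1 * C2 * 1 * (Real.exp (M * A) * (Real.exp (M * B) * Real.exp (M * D))) := by
        field_simp
    _ = C0 * C1 * C2 * 1 * Real.exp (M * (A + (B + D))) := by
        rw [← Real.exp_add, ← Real.exp_add, ← mul_add, ← mul_add]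

theorem adata (r1 r2 : ℤ) (n g : ℕ) (hn : 2 ≤ n) (hg : 1 ≤ g) (hgn : g ≤ n - 1) :
    AData (Bs r1 r2) (UU r1 r2) (VV r1 r2) (FF r1 r2 n g) (FP r1 r2 n g) (oo r1 r2 n) 0 := by
  have hB : ∀ j ∈ Bs r1 r2, (j = 1 ∧ 3 ≤ |r1|) ∨ (j = 2 ∧ 3 ≤ |r2|) := by
    intro j hj
    exact (Finset.mem_filter.1 hj).2
  constructor
  · filter_upwards [Cc_an n g hg hgn, DD_an r1 n, DD_an r2 n] with M hC hD1 hD2 z hz
    obtain ⟨h1, h2, h3, h4, h5⟩ := hz
    exact (AData_comp1 (hC (z 0) ⟨h1, h2⟩)).mul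
      ((AData_comp2 1 (hD1 (z 0, z 1) ⟨h1, h2, h4⟩)).mul
        (AData_comp2 2 (hD2 (z 0, z 2) ⟨h1, h2, h5⟩)))
  · intro j hj
    rcases hB j hj with ⟨rfl, hr⟩ | ⟨rfl, hr⟩
    · filter_upwards [Cc_an n g hg hgn, DP_an r1 hr n, DD_an r2 n, DP_deriv r1 hr n]
        with M hC hD1 hD2 hder
      have han : AnalyticOnNhd ℂ (FP r1 r2 n g 1 M) (UU r1 r2) := by
        intro z hz
        obtain ⟨h1, h2, h3, h4, h5⟩ := hz
        have := (AData_comp1 (hC (z 0) ⟨h1, h2⟩)).mul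
          ((AData_comp2 1 (hD1 (z 0, z 1) ⟨h1, h2, h4⟩)).mul
            (AData_comp2 2 (hD2 (z 0, z 2) ⟨h1, h2, h5⟩)))
        have he : FP r1 r2 n g 1 M = fun z => Cc n g M (z 0 - 1 / 2) *
            (DP r1 n M (z 0) (z 1) * DD r2 n M (z 0) (z 2)) := by
          funext z
          simp [FP]
        rw [he]
        exact this
      refine ⟨han, fun z hz => ?_⟩
      obtain ⟨h1, h2, h3, h4, h5⟩ := id hz
      refine AData_fderiv (han z hz).differentiableAt ?_
      have he : (fun t => FP r1 r2 n g 1 M (Function.update z 1 t)) =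
          fun t => Cc n g M (z 0 - 1 / 2) * (DP r1 n M (z 0) t * DD r2 n M (z 0) (z 2)) := by
        funext t
        simp [FP]
      rw [he]
      exact ((hder (z 0) (z 1) h4).mul_const _).const_mul _
    · filter_upwards [Cc_an n g hg hgn, DD_an r1 n, DP_an r2 hr n, DP_deriv r2 hr n]
        with M hC hD1 hD2 hder
      have han : AnalyticOnNhd ℂ (FP r1 r2 n g 2 M) (UU r1 r2) := by
        intro z hz
        obtain ⟨h1, h2, h3, h4, h5⟩ := hz
        have := (AData_comp1 (hC (z 0) ⟨h1, h2⟩)).mul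
          ((AData_comp2 1 (hD1 (z 0, z 1) ⟨h1, h2, h4⟩)).mul
            (AData_comp2 2 (hD2 (z 0, z 2) ⟨h1, h2, h5⟩)))
        have he : FP r1 r2 n g 2 M = fun z => Cc n g M (z 0 - 1 / 2) *
            (DD r1 n M (z 0) (z 1) * DP r2 n M (z 0) (z 2)) := by
          funext z
          simp [FP]
        rw [he]
        exact this
      refine ⟨han, fun z hz => ?_⟩
      obtain ⟨h1, h2, h3, h4, h5⟩ := id hz
      refine AData_fderiv (han z hz).differentiableAt ?_
      have he : (fun t => FP r1 r2 n g 2 M (Function.update z 2 t)) =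
          fun t => Cc n g M (z 0 - 1 / 2) * (DD r1 n M (z 0) (z 1) * DP r2 n M (z 0) t) := by
        funext t
        simp [FP]
      rw [he]
      exact ((hder (z 0) (z 2) h5).const_mul _).const_mul _
  · obtain ⟨C0, hC0, b0⟩ := Cc_bd n g hg hgn
    obtain ⟨C1, hC1, b1⟩ := AData_blk r1 n
    obtain ⟨C2, hC2, b2⟩ := AData_blk r2 n
    refine ⟨C0 * C1 * C2, by positivity, ?_⟩
    filter_upwards [b0, b1, b2, eventually_ge_atTop 1] with M c0 c1 c2 hM z hz
    have hM' : (0 : ℝ) < M := by exact_mod_cast hM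
    obtain ⟨h1, h2, h3, h4, h5⟩ := hz
    have d0 := c0 (z 0) h1 h2 (h3 0)
    have d1 := c1 (z 0) (z 1) h1 h2 (h3 0) (h3 1) h4
    have d2 := c2 (z 0) (z 2) h1 h2 (h3 0) (h3 2) h5
    have hV : (4 * ff (z 0)).re + ((BB r1 (z 0) (z 1) - ff (z 0)).re +
        (BB r2 (z 0) (z 2) - ff (z 0)).re) = (VV r1 r2 z).re := by
      rw [← Complex.add_re, ← Complex.add_re]
      congr 1
      simp only [VV]
      ring
    refine ⟨AData_prod hM' hC0 hC1 d0 d1.1 d2.1 hV, fun j hj => ?_⟩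
    rcases hB j hj with ⟨rfl, hr⟩ | ⟨rfl, hr⟩
    · have he : FP r1 r2 n g 1 M z = Cc n g M (z 0 - 1 / 2) *
          (DP r1 n M (z 0) (z 1) * DD r2 n M (z 0) (z 2)) := by
        simp [FP]
      rw [he]
      exact AData_prod hM' hC0 hC1 d0 (d1.2 hr) d2.1 hV
    · have he : FP r1 r2 n g 2 M z = Cc n g M (z 0 - 1 / 2) *
          (DD r1 n M (z 0) (z 1) * DP r2 n M (z 0) (z 2)) := by
        simp [FP]
      rw [he]
      exact AData_prod hM' hC0 hC1 d0 d1.1 (d2.2 hr) hV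
  · refine Filter.Eventually.of_forall fun M z hz j hj => ?_
    obtain ⟨h1, h2, h3, h4, h5⟩ := hz
    have him : ∀ i, |(Function.update z j (-z j) i).im| < 1 / 5 := by
      intro i
      by_cases hi : i = j
      · subst hi
        rw [Function.update_self, Complex.neg_im, abs_neg]
        exact h3 i
      · rw [Function.update_of_ne hi]
        exact h3 i
    have hUB : ∀ r : ℤ, 3 ≤ |r| → ∀ x z : ℂ, UB r x z → UB r x (-z) := by
      intro r hr x z h
      simp only [UB, if_pos hr] at h ⊢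
      refine ⟨?_, ?_, ?_, ?_⟩
      · rw [sub_neg_eq_add]
        exact h.2.2.1
      · rw [sub_neg_eq_add]
        exact h.2.2.2
      · rw [← sub_eq_add_neg]
        exact h.1
      · rw [← sub_eq_add_neg]
        exact h.2.1
    rcases hB j hj with ⟨rfl, hr⟩ | ⟨rfl, hr⟩
    · have e0 : Function.update z 1 (-z 1) 0 = z 0 := by simp
      have e1 : Function.update z 1 (-z 1) 1 = -z 1 := by simp
      have e2 : Function.update z 1 (-z 1) 2 = z 2 := by simp
      refine ⟨⟨?_, ?_, him, ?_, ?_⟩, ?_⟩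
      · rw [e0]
        exact h1
      · rw [e0]
        exact h2
      · rw [e0, e1]
        exact hUB r1 hr _ _ h4
      · rw [e0, e2]
        exact h5
      · simp only [FF]
        rw [e0, e1, e2, DD_even r1 hr]
    · have e0 : Function.update z 2 (-z 2) 0 = z 0 := by simp
      have e1 : Function.update z 2 (-z 2) 1 = z 1 := by simp
      have e2 : Function.update z 2 (-z 2) 2 = -z 2 := by simp
      refine ⟨⟨?_, ?_, him, ?_, ?_⟩, ?_⟩
      · rw [e0]
        exact h1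
      · rw [e0]
        exact h2
      · rw [e0, e1]
        exact h4
      · rw [e0, e2]
        exact hUB r2 hr _ _ h5
      · simp only [FF]
        rw [e0, e1, e2, DD_even r2 hr]
  · intro M j hj
    refine ⟨(n : ℤ) - 1 - M, ?_⟩
    rcases hB j hj with ⟨rfl, hr⟩ | ⟨rfl, hr⟩
    · have : oo r1 r2 n M 1 = bt n - M / 2 := by
        simp [oo, ofB, hr]
      rw [this, bt]
      push_cast
      ring
    · have : oo r1 r2 n M 2 = bt n - M / 2 := by
        simp [oo, ofB, hr]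
      rw [this, bt]
      push_cast
      ring

end Pool.Agent.H63.GO
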