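import Pool.Agent.H63.GO.PDefs
import Pool.Agent.H63.VC3.KAn
import Pool.Agent.H63.VC3.KB

/-! # Amplitudes: limits, 3 <= |r| -/

namespace Pool.Agent.H63.GO

open Complex Filter Topology Pool.Agent.H63.VC Pool.Agent.H63.VC3

/-- The normalized kernel. -/
private noncomputable def ALm3_G (r : ℤ) (n M : ℕ) (y v : ℂ) : ℂ :=
  M * KK r n M y v * exp (-M * (2 * Real.pi * I * r * v ^ 2 - ff (y - v) - ff (y + v)))

private theorem ALm3_hderiv (r : ℤ) (y v : ℂ) (h1 : 0 < (y - v).re) (h2 : (y - v).re < 1)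
    (h3 : 0 < (y + v).re) (h4 : (y + v).re < 1) :
    HasDerivAt (fun v : ℂ => 2 * Real.pi * I * r * v ^ 2 - ff (y - v) - ff (y + v))
      (4 * Real.pi * I * r * v + hh (y - v) - hh (y + v)) v := by
  have e1 : HasDerivAt (fun v : ℂ => y - v) (-1) v := by
    simpa using (hasDerivAt_id v).const_sub y
  have e2 : HasDerivAt (fun v : ℂ => y + v) 1 v := by
    simpa using (hasDerivAt_id v).const_add y
  have e3 : HasDerivAt (fun v : ℂ => ff (y - v)) (hh (y - v) * -1) v :=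
    HasDerivAt.comp v (ff_hasDerivAt (y - v) h1 h2) e1
  have e4 : HasDerivAt (fun v : ℂ => ff (y + v)) (hh (y + v) * 1) v :=
    HasDerivAt.comp v (ff_hasDerivAt (y + v) h3 h4) e2
  have e5 : HasDerivAt (fun v : ℂ => 2 * Real.pi * I * r * v ^ 2)
      (2 * Real.pi * I * r * (2 * v)) v := by
    have := (hasDerivAt_pow 2 v).const_mul (2 * Real.pi * I * r : ℂ)
    simpa using this
  have e6 := (e5.sub e3).sub e4
  refine e6.congr_deriv ?_
  ring

private theorem ALm3_Gdiff (r : ℤ) (n M : ℕ) (hM : 0 < M) (y v : ℂ) (h1 : 0 < (y - v).re)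
    (h2 : (y - v).re < 1) (h3 : 0 < (y + v).re) (h4 : (y + v).re < 1) :
    DifferentiableAt ℂ (fun v => ALm3_G r n M y v) v := by
  unfold ALm3_G
  have hk := KK_differentiable_v r n M hM y v h1 h2 h3 h4
  have hh := (ALm3_hderiv r y v h1 h2 h3 h4).differentiableAt
  exact (hk.const_mul (M : ℂ)).mul (hh.const_mul (-M : ℂ)).cexp

/-- The derivative of the normalized kernel is `o(M)`. -/
private theorem ALm3_der (r : ℤ) (n : ℕ) (y v : ℂ) (Y V : ℕ → ℂ) (hY : Tendsto Y atTop (𝓝 y))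
    (hV : Tendsto V atTop (𝓝 v)) (h1 : 0 < (y - v).re) (h2 : (y - v).re < 1)
    (h3 : 0 < (y + v).re) (h4 : (y + v).re < 1) :
    Tendsto (fun M : ℕ => deriv (fun w => ALm3_G r n M (Y M) w) (V M) / M) atTop (𝓝 0) := by
  classical
  set ρ : ℕ → ℝ := fun M => 1 / Real.sqrt M with hρ
  have hρ0 : Tendsto ρ atTop (𝓝 0) := by
    have h5 : Tendsto (fun M : ℕ => Real.sqrt (M : ℝ)) atTop atTop :=
      Real.tendsto_sqrt_atTop.comp tendsto_natCast_atTop_atTop
    have h6 := h5.inv_tendsto_atTop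
    refine h6.congr fun M => ?_
    simp [hρ]
  -- the maximum on the circle
  set W : ℕ → ℂ := fun M => if h : ∃ w ∈ Metric.sphere (V M) (ρ M),
    ∀ z ∈ Metric.sphere (V M) (ρ M), ‖ALm3_G r n M (Y M) z‖ ≤ ‖ALm3_G r n M (Y M) w‖
    then h.choose else V M with hW
  have hρnn : ∀ M, 0 ≤ ρ M := fun M => by simp only [hρ]; positivity
  have hWV : ∀ M, dist (W M) (V M) ≤ ρ M := by
    intro M
    simp only [hW]
    split_ifs with h
    · exact le_of_eq (Metric.mem_sphere.1 h.choose_spec.1)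
    · rw [dist_self]; exact hρnn M
  have hWlim : Tendsto W atTop (𝓝 v) := by
    have h5 : Tendsto (fun M => dist (W M) (V M)) atTop (𝓝 0) :=
      squeeze_zero (fun _ => dist_nonneg) hWV hρ0
    exact (tendsto_iff_of_dist h5).2 hV
  have hG := KK_lim r n y v Y W hY hWlim h1 h2 h3 h4
  -- the strip conditions
  have hre1 : Tendsto (fun M => (Y M - V M).re) atTop (𝓝 (y - v).re) :=
    (Complex.continuous_re.tendsto _).comp (hY.sub hV)
  have hre2 : Tendsto (fun M => (Y M + V M).re) atTop (𝓝 (y + v).re) :=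
    (Complex.continuous_re.tendsto _).comp (hY.add hV)
  have ev1 : ∀ᶠ M in atTop, 0 < (Y M - V M).re - ρ M := by
    have := hre1.sub hρ0
    rw [sub_zero] at this
    exact this.eventually (lt_mem_nhds h1)
  have ev2 : ∀ᶠ M in atTop, (Y M - V M).re + ρ M < 1 := by
    have := hre1.add hρ0
    rw [add_zero] at this
    exact this.eventually (gt_mem_nhds h2)
  have ev3 : ∀ᶠ M in atTop, 0 < (Y M + V M).re - ρ M := by
    have := hre2.sub hρ0
    rw [sub_zero] at this
    exact this.eventually (lt_mem_nhds h3)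
  have ev4 : ∀ᶠ M in atTop, (Y M + V M).re + ρ M < 1 := by
    have := hre2.add hρ0
    rw [add_zero] at this
    exact this.eventually (gt_mem_nhds h4)
  have hkey : ∀ᶠ M : ℕ in atTop, ‖deriv (fun w => ALm3_G r n M (Y M) w) (V M) / M‖ ≤
      ‖ALm3_G r n M (Y M) (W M)‖ * ρ M := by
    filter_upwards [ev1, ev2, ev3, ev4, eventually_ge_atTop 1] with M a1 a2 a3 a4 hM
    have hM0 : 0 < M := by omega
    have hMr : (0 : ℝ) < M := by exact_mod_cast hM0
    have hsq : 0 < Real.sqrt M := Real.sqrt_pos.2 hMr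
    have hρp : 0 < ρ M := by simp only [hρ]; positivity
    have hst : ∀ w ∈ Metric.closedBall (V M) (ρ M), 0 < (Y M - w).re ∧ (Y M - w).re < 1 ∧
        0 < (Y M + w).re ∧ (Y M + w).re < 1 := by
      intro w hw
      rw [Metric.mem_closedBall, dist_eq_norm] at hw
      have h5 := (Complex.abs_re_le_norm (w - V M)).trans hw
      rw [Complex.sub_re, abs_le] at h5
      simp only [Complex.sub_re, Complex.add_re] at a1 a2 a3 a4 ⊢
      refine ⟨?_, ?_, ?_, ?_⟩ <;> linarith [h5.1, h5.2]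
    have hdiff : ∀ w ∈ Metric.closedBall (V M) (ρ M),
        DifferentiableAt ℂ (fun w => ALm3_G r n M (Y M) w) w := fun w hw => by
      obtain ⟨b1, b2, b3, b4⟩ := hst w hw
      exact ALm3_Gdiff r n M hM0 (Y M) w b1 b2 b3 b4
    have hcont : ContinuousOn (fun w => ALm3_G r n M (Y M) w) (Metric.closedBall (V M) (ρ M)) :=
      fun w hw => (hdiff w hw).continuousAt.continuousWithinAt
    have hex : ∃ w ∈ Metric.sphere (V M) (ρ M), ∀ z ∈ Metric.sphere (V M) (ρ M),
        ‖ALm3_G r n M (Y M) z‖ ≤ ‖ALm3_G r n M (Y M) w‖ := by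
      have hne : (Metric.sphere (V M) (ρ M)).Nonempty := NormedSpace.sphere_nonempty.2 hρp.le
      obtain ⟨w, hw, hmax⟩ := (isCompact_sphere (V M) (ρ M)).exists_isMaxOn hne
        ((hcont.mono Metric.sphere_subset_closedBall).norm)
      exact ⟨w, hw, fun z hz => hmax hz⟩
    have hWM : W M = hex.choose := by
      simp only [hW]
      rw [dif_pos hex]
    have hmax : ∀ z ∈ Metric.sphere (V M) (ρ M),
        ‖ALm3_G r n M (Y M) z‖ ≤ ‖ALm3_G r n M (Y M) (W M)‖ := by
      rw [hWM]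
      exact hex.choose_spec.2
    have hdc : DiffContOnCl ℂ (fun w => ALm3_G r n M (Y M) w) (Metric.ball (V M) (ρ M)) := by
      refine ⟨fun w hw => (hdiff w (Metric.ball_subset_closedBall hw)).differentiableWithinAt, ?_⟩
      rw [closure_ball _ hρp.ne']
      exact hcont
    have hC := Complex.norm_deriv_le_of_forall_mem_sphere_norm_le hρp hdc hmax
    have hMn : ‖(M : ℂ)‖ = M := by simp
    rw [norm_div, hMn, div_le_iff₀ hMr]
    refine hC.trans (le_of_eq ?_)
    have h7 : ρ M * ρ M * M = 1 := by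
      simp only [hρ]
      have h8 : Real.sqrt M * Real.sqrt M = M := Real.mul_self_sqrt hMr.le
      field_simp
      rw [sq, h8]
    rw [div_eq_iff hρp.ne']
    calc ‖ALm3_G r n M (Y M) (W M)‖ = ‖ALm3_G r n M (Y M) (W M)‖ * (ρ M * ρ M * M) := by
          rw [h7, mul_one]
      _ = _ := by ring
  have hlim : Tendsto (fun M => ‖ALm3_G r n M (Y M) (W M)‖ * ρ M) atTop (𝓝 0) := by
    have := hG.norm.mul hρ0
    rw [mul_zero] at this
    exact this
  exact squeeze_zero_norm' hkey hlim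

theorem DD_lim3 (r : ℤ) (hr : 3 ≤ |r|) (n : ℕ) (x z : ℂ) (hU : UB r x z) (X Z : ℕ → ℂ)
    (hX : Tendsto X atTop (𝓝 x)) (hZ : Tendsto Z atTop (𝓝 z)) :
    Tendsto (fun M : ℕ => M * DD r n M (X M) (Z M) *
      exp (-(M * (BB r (X M) (Z M) - ff (X M))))) atTop
      (𝓝 ((hh (x - 1 / 2 - z) - hh (x - 1 / 2 + z) + 4 * Real.pi * I * r * z) /
        (4 * Real.pi * I) * (2 * sin (2 * Real.pi * z) * (2 * cos (Real.pi * z)) ^ (n - 2)))) := by
  unfold UB at hU
  rw [if_pos hr] at hU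
  obtain ⟨u1, u2, u3, u4⟩ := hU
  have h1 : 0 < (x - 1 / 2 - z).re := by linarith
  have h2 : (x - 1 / 2 - z).re < 1 := by linarith
  have h3 : 0 < (x - 1 / 2 + z).re := by linarith
  have h4 : (x - 1 / 2 + z).re < 1 := by linarith
  have hY : Tendsto (fun M => X M - 1 / 2) atTop (𝓝 (x - 1 / 2)) := hX.sub_const _
  have hG := KK_lim r n (x - 1 / 2) z _ Z hY hZ h1 h2 h3 h4
  have hD := ALm3_der r n (x - 1 / 2) z _ Z hY hZ h1 h2 h3 h4
  have hsub := hY.sub hZ
  have hadd := hY.add hZ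
  have hh1 : Tendsto (fun M => hh (X M - 1 / 2 - Z M)) atTop (𝓝 (hh (x - 1 / 2 - z))) :=
    (hh_hasDerivAt _ h1 h2).continuousAt.tendsto.comp hsub
  have hh2 : Tendsto (fun M => hh (X M - 1 / 2 + Z M)) atTop (𝓝 (hh (x - 1 / 2 + z))) :=
    (hh_hasDerivAt _ h3 h4).continuousAt.tendsto.comp hadd
  have hder : Tendsto (fun M => 4 * Real.pi * I * r * Z M + hh (X M - 1 / 2 - Z M) -
      hh (X M - 1 / 2 + Z M)) atTop
      (𝓝 (4 * Real.pi * I * r * z + hh (x - 1 / 2 - z) - hh (x - 1 / 2 + z))) :=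
    ((hZ.const_mul _).add hh1).sub hh2
  have hall := ((hD.add (hder.mul hG)).const_mul (1 / (4 * Real.pi * I) : ℂ))
  have hlimeq : (1 / (4 * Real.pi * I) : ℂ) * (0 + (4 * Real.pi * I * r * z +
      hh (x - 1 / 2 - z) - hh (x - 1 / 2 + z)) *
      (2 * sin (2 * Real.pi * z) * (2 * cos (Real.pi * z)) ^ (n - 2))) =
      (hh (x - 1 / 2 - z) - hh (x - 1 / 2 + z) + 4 * Real.pi * I * r * z) /
        (4 * Real.pi * I) * (2 * sin (2 * Real.pi * z) * (2 * cos (Real.pi * z)) ^ (n - 2)) := by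
    ring
  rw [hlimeq] at hall
  refine hall.congr' ?_
  have ev1 : ∀ᶠ M in atTop, 0 < (X M - 1 / 2 - Z M).re :=
    ((Complex.continuous_re.tendsto _).comp hsub).eventually (lt_mem_nhds h1)
  have ev2 : ∀ᶠ M in atTop, (X M - 1 / 2 - Z M).re < 1 :=
    ((Complex.continuous_re.tendsto _).comp hsub).eventually (gt_mem_nhds h2)
  have ev3 : ∀ᶠ M in atTop, 0 < (X M - 1 / 2 + Z M).re :=
    ((Complex.continuous_re.tendsto _).comp hadd).eventually (lt_mem_nhds h3)
  have ev4 : ∀ᶠ M in atTop, (X M - 1 / 2 + Z M).re < 1 :=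
    ((Complex.continuous_re.tendsto _).comp hadd).eventually (gt_mem_nhds h4)
  filter_upwards [ev1, ev2, ev3, ev4, eventually_ge_atTop 1] with M a1 a2 a3 a4 hM
  have hM0 : 0 < M := by omega
  have hMC : (M : ℂ) ≠ 0 := by
    have : M ≠ 0 := by omega
    exact_mod_cast this
  have hk := (KK_differentiable_v r n M hM0 _ _ a1 a2 a3 a4).hasDerivAt
  have he := ALm3_hderiv r _ _ a1 a2 a3 a4
  have hG' : HasDerivAt (fun w => ALm3_G r n M (X M - 1 / 2) w)
      ((M * deriv (fun v => KK r n M (X M - 1 / 2) v) (Z M)) *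
        exp (-M * (2 * Real.pi * I * r * Z M ^ 2 - ff (X M - 1 / 2 - Z M) -
          ff (X M - 1 / 2 + Z M))) +
      M * KK r n M (X M - 1 / 2) (Z M) *
        (exp (-M * (2 * Real.pi * I * r * Z M ^ 2 - ff (X M - 1 / 2 - Z M) -
          ff (X M - 1 / 2 + Z M))) * (-M * (4 * Real.pi * I * r * Z M +
            hh (X M - 1 / 2 - Z M) - hh (X M - 1 / 2 + Z M))))) (Z M) :=
    (hk.const_mul (M : ℂ)).mul (he.const_mul (-M : ℂ)).cexp
  rw [hG'.deriv]
  unfold DD BB
  rw [if_pos hr, if_pos hr]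
  have hexp : exp (-(M * (ff (X M) - ff (X M - 1 / 2 - Z M) - ff (X M - 1 / 2 + Z M) +
      2 * Real.pi * I * r * Z M ^ 2 - ff (X M)))) =
      exp (-M * (2 * Real.pi * I * r * Z M ^ 2 - ff (X M - 1 / 2 - Z M) -
        ff (X M - 1 / 2 + Z M))) := by
    congr 1
    ring
  rw [hexp]
  have hpi : (Real.pi : ℂ) ≠ 0 := by exact_mod_cast Real.pi_ne_zero
  have hI : I ≠ 0 := I_ne_zero
  field_simp
  ring

end Pool.Agent.H63.GO
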