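import Pool.Agent.H63.GO.PSet
import Pool.Agent.H63.VC3.Clausen

/-! # The potential: derivatives -/

namespace Pool.Agent.H63.GO

open Complex Filter Topology Pool.Agent.H63.VC Pool.Agent.H63.VC3

/-- The partial derivatives of a block. -/
noncomputable def Bx (r : ℤ) (x z : ℂ) : ℂ :=
  if 3 ≤ |r| then hh x - hh (x - 1 / 2 - z) - hh (x - 1 / 2 + z)
  else hh x - hh (x - z) + Real.pi * I * r / 2 * (x - 3 / 2 + z)

/-- The partial derivatives of a block. -/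
noncomputable def Bz (r : ℤ) (x z : ℂ) : ℂ :=
  if 3 ≤ |r| then hh (x - 1 / 2 - z) - hh (x - 1 / 2 + z) + 4 * Real.pi * I * r * z
  else -hh z + hh (x - z) + Real.pi * I * r / 2 * (2 * z + x - 2)

private lemma PDer_ff {f : (Fin 3 → ℂ) → ℂ} {f' : (Fin 3 → ℂ) →L[ℂ] ℂ} {z : Fin 3 → ℂ}
    (hf : HasFDerivAt f f' z) (h0 : 0 < (f z).re) (h1 : (f z).re < 1) :
    HasFDerivAt (fun w => ff (f w)) (hh (f z) • f') z :=
  (ff_hasDerivAt _ h0 h1).comp_hasFDerivAt z hf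

private lemma PDer_hh {f : (Fin 3 → ℂ) → ℂ} {f' : (Fin 3 → ℂ) →L[ℂ] ℂ} {z : Fin 3 → ℂ}
    (hf : HasFDerivAt f f' z) (h0 : 0 < (f z).re) (h1 : (f z).re < 1) :
    HasFDerivAt (fun w => hh (f w)) ((Real.pi * Complex.cot (Real.pi * f z)) • f') z :=
  (hh_hasDerivAt _ h0 h1).comp_hasFDerivAt z hf

/-- The coordinate projections. -/
private noncomputable def PDer_pr (j : Fin 3) : (Fin 3 → ℂ) →L[ℂ] ℂ :=
  ContinuousLinearMap.proj (R := ℂ) (φ := fun _ : Fin 3 => ℂ) j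

private lemma PDer_pr_apply (j : Fin 3) (ξ : Fin 3 → ℂ) : PDer_pr j ξ = ξ j := rfl

private lemma PDer_proj (j : Fin 3) (z : Fin 3 → ℂ) :
    HasFDerivAt (fun w : Fin 3 → ℂ => w j) (PDer_pr j) z :=
  (PDer_pr j).hasFDerivAt

private lemma PDer_sub (j : Fin 3) (z : Fin 3 → ℂ) :
    HasFDerivAt (fun w : Fin 3 → ℂ => w 0 - w j) (PDer_pr 0 - PDer_pr j) z :=
  (PDer_proj 0 z).sub (PDer_proj j z)

private lemma PDer_sub2 (j : Fin 3) (z : Fin 3 → ℂ) :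
    HasFDerivAt (fun w : Fin 3 → ℂ => w 0 - 1 / 2 - w j) (PDer_pr 0 - PDer_pr j) z :=
  ((PDer_proj 0 z).sub_const (1 / 2)).sub (PDer_proj j z)

private lemma PDer_add2 (j : Fin 3) (z : Fin 3 → ℂ) :
    HasFDerivAt (fun w : Fin 3 → ℂ => w 0 - 1 / 2 + w j) (PDer_pr 0 + PDer_pr j) z :=
  ((PDer_proj 0 z).sub_const (1 / 2)).add (PDer_proj j z)

private lemma PDer_BB (r : ℤ) (j : Fin 3) (z : Fin 3 → ℂ) (h0 : 6 / 10 < (z 0).re)
    (h1 : (z 0).re < 9 / 10) (hU : UB r (z 0) (z j)) :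
    ∃ L : (Fin 3 → ℂ) →L[ℂ] ℂ, HasFDerivAt (fun w => BB r (w 0) (w j)) L z ∧
      ∀ ξ, L ξ = Bx r (z 0) (z j) * ξ 0 + Bz r (z 0) (z j) * ξ j := by
  have hx := PDer_ff (PDer_proj 0 z) (by linarith) (by linarith)
  by_cases hr : 3 ≤ |r|
  · simp only [UB, if_pos hr] at hU
    obtain ⟨u1, u2, u3, u4⟩ := hU
    have e1 := PDer_ff (PDer_sub2 j z) (by linarith) (by linarith)
    have e2 := PDer_ff (PDer_add2 j z) (by linarith) (by linarith)
    have e3 := ((PDer_proj j z).mul (PDer_proj j z)).const_mul (2 * Real.pi * I * r : ℂ)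
    have e := ((hx.sub e1).sub e2).add e3
    refine ⟨_, e.congr_of_eventuallyEq (Filter.Eventually.of_forall fun w => ?_), fun ξ => ?_⟩
    · simp only [BB, if_pos hr, Pi.add_apply, Pi.sub_apply, Pi.mul_apply]
      ring
    · simp only [Bx, Bz, if_pos hr, ContinuousLinearMap.add_apply, ContinuousLinearMap.sub_apply,
        ContinuousLinearMap.smul_apply, PDer_pr_apply, smul_eq_mul]
      ring
  · simp only [UB, if_neg hr, sub_re] at hU
    obtain ⟨u1, u2⟩ := hU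
    have e1 := PDer_ff (PDer_proj j z) (by linarith) (by linarith)
    have e2 := PDer_ff (PDer_sub j z) (by simp only [sub_re]; linarith)
      (by simp only [sub_re]; linarith)
    have e3 : HasFDerivAt (fun w : Fin 3 → ℂ => Real.pi * I * r / 2 *
        ((w 0 * w 0 - 3 * w 0) / 2 + w j * w j + w j * w 0 - 2 * w j)) _ z :=
      ((((((((PDer_proj 0 z).mul (PDer_proj 0 z)).sub ((PDer_proj 0 z).const_mul
        (3 : ℂ))).mul_const (1 / 2 : ℂ)).add ((PDer_proj j z).mul (PDer_proj j z))).add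
        ((PDer_proj j z).mul (PDer_proj 0 z))).sub ((PDer_proj j z).const_mul
        (2 : ℂ))).const_mul (Real.pi * I * r / 2 : ℂ)).congr_of_eventuallyEq
        (Filter.Eventually.of_forall fun w => by
          simp only [Pi.add_apply, Pi.sub_apply, Pi.mul_apply]
          ring)
    have e := ((hx.sub e1).sub e2).add e3
    refine ⟨_, e.congr_of_eventuallyEq (Filter.Eventually.of_forall fun w => ?_), fun ξ => ?_⟩
    · simp only [BB, if_neg hr, Pi.add_apply, Pi.sub_apply]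
      ring
    · simp only [Bx, Bz, if_neg hr, ContinuousLinearMap.add_apply, ContinuousLinearMap.sub_apply,
        ContinuousLinearMap.smul_apply, PDer_pr_apply, smul_eq_mul]
      ring

private lemma PDer_VV (r1 r2 : ℤ) (z : Fin 3 → ℂ) (hz : z ∈ UU r1 r2) :
    ∃ L : (Fin 3 → ℂ) →L[ℂ] ℂ, HasFDerivAt (VV r1 r2) L z ∧
      ∀ ξ, L ξ = 2 * hh (z 0) * ξ 0 + (Bx r1 (z 0) (z 1) * ξ 0 +
      Bz r1 (z 0) (z 1) * ξ 1) + (Bx r2 (z 0) (z 2) * ξ 0 + Bz r2 (z 0) (z 2) * ξ 2) := by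
  obtain ⟨h0, h1, -, u1, u2⟩ := hz
  obtain ⟨L1, hL1, e1⟩ := PDer_BB r1 1 z h0 h1 u1
  obtain ⟨L2, hL2, e2⟩ := PDer_BB r2 2 z h0 h1 u2
  have hx := (PDer_ff (PDer_proj 0 z) (by linarith) (by linarith)).const_mul (2 : ℂ)
  refine ⟨_, (hx.add hL1).add hL2, fun ξ => ?_⟩
  simp only [ContinuousLinearMap.add_apply, ContinuousLinearMap.smul_apply, PDer_pr_apply,
    smul_eq_mul, e1, e2]
  ring

theorem VV_fderiv (r1 r2 : ℤ) (z : Fin 3 → ℂ) (hz : z ∈ UU r1 r2) (ξ : Fin 3 → ℂ) :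
    fderiv ℂ (VV r1 r2) z ξ = 2 * hh (z 0) * ξ 0 + (Bx r1 (z 0) (z 1) * ξ 0 +
      Bz r1 (z 0) (z 1) * ξ 1) + (Bx r2 (z 0) (z 2) * ξ 0 + Bz r2 (z 0) (z 2) * ξ 2) := by
  obtain ⟨L, hL, e⟩ := PDer_VV r1 r2 z hz
  rw [hL.fderiv, e]

/-- The second derivative of a block. -/
noncomputable def BQ (r : ℤ) (x z a b : ℂ) : ℂ :=
  if 3 ≤ |r| then Real.pi * Complex.cot (Real.pi * x) * a ^ 2 -
    Real.pi * Complex.cot (Real.pi * (x - 1 / 2 - z)) * (a - b) ^ 2 -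
    Real.pi * Complex.cot (Real.pi * (x - 1 / 2 + z)) * (a + b) ^ 2 +
    4 * Real.pi * I * r * b ^ 2
  else Real.pi * Complex.cot (Real.pi * x) * a ^ 2 -
    Real.pi * Complex.cot (Real.pi * z) * b ^ 2 -
    Real.pi * Complex.cot (Real.pi * (x - z)) * (a - b) ^ 2 +
    Real.pi * I * r / 2 * (a ^ 2 + 2 * b ^ 2 + 2 * a * b)

private lemma PDer_BD (r : ℤ) (j : Fin 3) (z : Fin 3 → ℂ) (h0 : 6 / 10 < (z 0).re)
    (h1 : (z 0).re < 9 / 10) (hU : UB r (z 0) (z j)) (ξ : Fin 3 → ℂ) :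
    ∃ L : (Fin 3 → ℂ) →L[ℂ] ℂ, HasFDerivAt (fun w : Fin 3 → ℂ =>
      Bx r (w 0) (w j) * ξ 0 + Bz r (w 0) (w j) * ξ j) L z ∧
      L ξ = BQ r (z 0) (z j) (ξ 0) (ξ j) := by
  have hx := (PDer_hh (PDer_proj 0 z) (by linarith) (by linarith)).mul_const (ξ 0)
  by_cases hr : 3 ≤ |r|
  · simp only [UB, if_pos hr] at hU
    obtain ⟨u1, u2, u3, u4⟩ := hU
    have e1 := (PDer_hh (PDer_sub2 j z) (by linarith) (by linarith)).mul_const (ξ 0 - ξ j)
    have e2 := (PDer_hh (PDer_add2 j z) (by linarith) (by linarith)).mul_const (ξ 0 + ξ j)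
    have e3 := (PDer_proj j z).const_mul (4 * Real.pi * I * r * ξ j : ℂ)
    have e := ((hx.sub e1).sub e2).add e3
    refine ⟨_, e.congr_of_eventuallyEq (Filter.Eventually.of_forall fun w => ?_), ?_⟩
    · simp only [Bx, Bz, if_pos hr, Pi.add_apply, Pi.sub_apply]
      ring
    · simp only [BQ, if_pos hr, ContinuousLinearMap.add_apply, ContinuousLinearMap.sub_apply,
        ContinuousLinearMap.smul_apply, PDer_pr_apply, smul_eq_mul]
      ring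
  · simp only [UB, if_neg hr, sub_re] at hU
    obtain ⟨u1, u2⟩ := hU
    have e1 := (PDer_hh (PDer_proj j z) (by linarith) (by linarith)).mul_const (ξ j)
    have e2 := (PDer_hh (PDer_sub j z) (by simp only [sub_re]; linarith)
      (by simp only [sub_re]; linarith)).mul_const (ξ 0 - ξ j)
    have e3 : HasFDerivAt (fun w : Fin 3 → ℂ => Real.pi * I * r / 2 *
        ((w 0 - 3 / 2 + w j) * ξ 0 + (2 * w j + w 0 - 2) * ξ j)) _ z :=
      ((((((PDer_proj 0 z).sub_const (3 / 2 : ℂ)).add (PDer_proj j z)).mul_const (ξ 0)).add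
        (((((PDer_proj j z).const_mul (2 : ℂ)).add (PDer_proj 0 z)).sub_const
        (2 : ℂ)).mul_const (ξ j))).const_mul (Real.pi * I * r / 2 : ℂ))
    have e := ((hx.sub e1).sub e2).add e3
    refine ⟨_, e.congr_of_eventuallyEq (Filter.Eventually.of_forall fun w => ?_), ?_⟩
    · simp only [Bx, Bz, if_neg hr, Pi.add_apply, Pi.sub_apply]
      ring
    · simp only [BQ, if_neg hr, ContinuousLinearMap.add_apply, ContinuousLinearMap.sub_apply,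
        ContinuousLinearMap.smul_apply, PDer_pr_apply, smul_eq_mul]
      ring

theorem VV_D2 (r1 r2 : ℤ) (z : Fin 3 → ℂ) (hz : z ∈ UU r1 r2) (ξ : Fin 3 → ℂ) :
    D2 (VV r1 r2) z ξ = 2 * Real.pi * Complex.cot (Real.pi * z 0) * ξ 0 ^ 2 +
      BQ r1 (z 0) (z 1) (ξ 0) (ξ 1) + BQ r2 (z 0) (z 2) (ξ 0) (ξ 2) := by
  have hev : (fun w => fderiv ℂ (VV r1 r2) w ξ) =ᶠ[𝓝 z] fun w => 2 * hh (w 0) * ξ 0 +
      (Bx r1 (w 0) (w 1) * ξ 0 + Bz r1 (w 0) (w 1) * ξ 1) +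
      (Bx r2 (w 0) (w 2) * ξ 0 + Bz r2 (w 0) (w 2) * ξ 2) := by
    filter_upwards [(UU_open r1 r2).mem_nhds hz] with w hw
    exact VV_fderiv r1 r2 w hw ξ
  obtain ⟨h0, h1, -, u1, u2⟩ := hz
  obtain ⟨L1, hL1, e1⟩ := PDer_BD r1 1 z h0 h1 u1 ξ
  obtain ⟨L2, hL2, e2⟩ := PDer_BD r2 2 z h0 h1 u2 ξ
  have hx := ((PDer_hh (PDer_proj 0 z) (by linarith) (by linarith)).const_mul
    (2 : ℂ)).mul_const (ξ 0)
  have h : HasFDerivAt (fun w : Fin 3 → ℂ => 2 * hh (w 0) * ξ 0 +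
      (Bx r1 (w 0) (w 1) * ξ 0 + Bz r1 (w 0) (w 1) * ξ 1) +
      (Bx r2 (w 0) (w 2) * ξ 0 + Bz r2 (w 0) (w 2) * ξ 2)) _ z := (hx.add hL1).add hL2
  rw [D2, hev.fderiv_eq, h.fderiv]
  simp only [ContinuousLinearMap.add_apply, ContinuousLinearMap.smul_apply, PDer_pr_apply,
    smul_eq_mul, e1, e2]
  ring

end Pool.Agent.H63.GO
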