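import Pool.Agent.H63.GO.ALm2
import Pool.Agent.H63.GO.ALm3
import Pool.Agent.H63.GO.PDer

/-! # The limit of the amplitude -/

namespace Pool.Agent.H63.GO

open Complex Filter Topology Pool.Agent.H63.VC Pool.Agent.H63.VC3

/-- Differentiability of `ff` composed with a differentiable function. -/
private theorem ALimT_ff (f : (Fin 3 → ℂ) → ℂ) (z : Fin 3 → ℂ) (hf : DifferentiableAt ℂ f z)
    (h0 : 0 < (f z).re) (h1 : (f z).re < 1) : DifferentiableAt ℂ (fun w => ff (f w)) z :=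
  (ff_hasDerivAt (f z) h0 h1).differentiableAt.comp z hf

/-- Differentiability of the potential of a block. -/
private theorem ALimT_BB (r : ℤ) (j : Fin 3) (z : Fin 3 → ℂ) (h1 : 6 / 10 < (z 0).re)
    (h2 : (z 0).re < 9 / 10) (hU : UB r (z 0) (z j)) :
    DifferentiableAt ℂ (fun w : Fin 3 → ℂ => BB r (w 0) (w j)) z := by
  have hx : DifferentiableAt ℂ (fun w : Fin 3 → ℂ => ff (w 0)) z :=
    ALimT_ff (fun w => w 0) z (by fun_prop) (by linarith) (by linarith)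
  unfold BB
  unfold UB at hU
  by_cases hr : 3 ≤ |r|
  · simp only [if_pos hr] at hU ⊢
    obtain ⟨a1, a2, a3, a4⟩ := hU
    have e1 : DifferentiableAt ℂ (fun w : Fin 3 → ℂ => ff (w 0 - 1 / 2 - w j)) z :=
      ALimT_ff (fun w => w 0 - 1 / 2 - w j) z (by fun_prop) (by linarith) (by linarith)
    have e2 : DifferentiableAt ℂ (fun w : Fin 3 → ℂ => ff (w 0 - 1 / 2 + w j)) z :=
      ALimT_ff (fun w => w 0 - 1 / 2 + w j) z (by fun_prop) (by linarith) (by linarith)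
    exact ((hx.sub e1).sub e2).add (by fun_prop)
  · simp only [if_neg hr] at hU ⊢
    obtain ⟨a1, a2⟩ := hU
    rw [Complex.sub_re] at a2
    have e1 : DifferentiableAt ℂ (fun w : Fin 3 → ℂ => ff (w j)) z :=
      ALimT_ff (fun w => w j) z (by fun_prop) (by linarith) (by linarith)
    have e2 : DifferentiableAt ℂ (fun w : Fin 3 → ℂ => ff (w 0 - w j)) z := by
      refine ALimT_ff (fun w => w 0 - w j) z (by fun_prop) ?_ ?_
      · simp only [Complex.sub_re]; linarith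
      · simp only [Complex.sub_re]; linarith
    exact ((hx.sub e1).sub e2).add (by fun_prop)

/-- Differentiability of the potential. -/
private theorem ALimT_VV (r1 r2 : ℤ) (z : Fin 3 → ℂ) (hz : z ∈ UU r1 r2) :
    DifferentiableAt ℂ (VV r1 r2) z := by
  obtain ⟨h1, h2, -, h4, h5⟩ := hz
  have hx : DifferentiableAt ℂ (fun w : Fin 3 → ℂ => ff (w 0)) z :=
    ALimT_ff (fun w => w 0) z (by fun_prop) (by linarith) (by linarith)
  exact ((hx.const_mul 2).add (ALimT_BB r1 1 z h1 h2 h4)).add (ALimT_BB r2 2 z h1 h2 h5)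

/-- The equation of the critical point in the direction of a coordinate with main mode `1`. -/
private theorem ALimT_grad (r1 r2 : ℤ) (zc : Fin 3 → ℂ) (hz : zc ∈ UU r1 r2)
    (hgrad : ∀ ξ : Fin 3 → ℝ, fderiv ℂ (Vm (Bs r1 r2) (VV r1 r2)) zc (rc ξ) = 0)
    (i : Fin 3) (hi : i ∈ Bs r1 r2) :
    fderiv ℂ (VV r1 r2) zc (Pi.single i 1) = -(2 * Real.pi * I) := by
  have h := hgrad (Pi.single i 1)
  have hrc : rc (Pi.single i 1 : Fin 3 → ℝ) = (Pi.single i 1 : Fin 3 → ℂ) := by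
    funext j
    unfold rc
    by_cases hj : j = i
    · subst hj; simp
    · simp [Pi.single_eq_of_ne hj]
  rw [hrc] at h
  have hd : HasFDerivAt (Vm (Bs r1 r2) (VV r1 r2))
      (fderiv ℂ (VV r1 r2) zc + (2 * Real.pi * I) •
        ∑ j ∈ Bs r1 r2, (ContinuousLinearMap.proj j : (Fin 3 → ℂ) →L[ℂ] ℂ)) zc := by
    have h1 := (ALimT_VV r1 r2 zc hz).hasFDerivAt
    have h2 : HasFDerivAt (fun w : Fin 3 → ℂ => ∑ j ∈ Bs r1 r2, w j)
        (∑ j ∈ Bs r1 r2, (ContinuousLinearMap.proj j : (Fin 3 → ℂ) →L[ℂ] ℂ)) zc :=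
      HasFDerivAt.fun_sum fun j _ => (ContinuousLinearMap.proj j : (Fin 3 → ℂ) →L[ℂ] ℂ).hasFDerivAt
    exact h1.add (h2.const_mul (2 * Real.pi * I))
  rw [hd.fderiv] at h
  have hs : (∑ j ∈ Bs r1 r2, (ContinuousLinearMap.proj j : (Fin 3 → ℂ) →L[ℂ] ℂ))
      (Pi.single i 1) = 1 := by
    rw [ContinuousLinearMap.sum_apply]
    simp only [ContinuousLinearMap.proj_apply]
    rw [Finset.sum_eq_single i]
    · simp
    · intro j _ hj
      simp [Pi.single_eq_of_ne hj]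
    · intro hn
      exact absurd hi hn
  rw [ContinuousLinearMap.add_apply, ContinuousLinearMap.smul_apply, hs] at h
  simp only [smul_eq_mul, mul_one] at h
  linear_combination h

/-- The limit of the amplitude of a block. -/
private theorem ALimT_blk (r : ℤ) (hr : 2 ≤ |r|) (n : ℕ) (x z : ℂ) (h1 : 6 / 10 < x.re)
    (h2 : x.re < 9 / 10) (hU : UB r x z) (hB : 3 ≤ |r| → Bz r x z = -(2 * Real.pi * I))
    (him : 3 ≤ |r| → 0 < z.im) :
    ∃ A : ℂ, A ≠ 0 ∧ ∀ X Z : ℕ → ℂ, Tendsto X atTop (𝓝 x) → Tendsto Z atTop (𝓝 z) →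
      Tendsto (fun M : ℕ => M * DD r n M (X M) (Z M) *
        exp (-(M * (BB r (X M) (Z M) - ff (X M))))) atTop (𝓝 A) := by
  by_cases h3 : 3 ≤ |r|
  · refine ⟨_, ?_, fun X Z hX hZ => DD_lim3 r h3 n x z hU X Z hX hZ⟩
    have hb := hB h3
    unfold Bz at hb
    rw [if_pos h3] at hb
    rw [hb]
    have hpi : (Real.pi : ℂ) ≠ 0 := by exact_mod_cast Real.pi_ne_zero
    have hsin : sin (2 * Real.pi * z) ≠ 0 := by
      intro hs
      obtain ⟨k, hk⟩ := Complex.sin_eq_zero_iff.mp hs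
      have hzk : 2 * z = k := by
        have : (Real.pi : ℂ) * (2 * z) = Real.pi * k := by linear_combination hk
        exact mul_left_cancel₀ hpi this
      have him2 := congrArg Complex.im hzk
      rw [Complex.intCast_im] at him2
      have : (2 * z).im = 2 * z.im := by simp
      rw [this] at him2
      have := him h3
      linarith
    have hcos : cos (Real.pi * z) ≠ 0 := by
      intro hc
      apply hsin
      have e : (2 * Real.pi * z : ℂ) = 2 * (Real.pi * z) := by ring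
      rw [e, Complex.sin_two_mul, hc, mul_zero]
    refine mul_ne_zero (div_ne_zero ?_ ?_) (mul_ne_zero (mul_ne_zero two_ne_zero hsin)
      (pow_ne_zero _ (mul_ne_zero two_ne_zero hcos)))
    · exact neg_ne_zero.mpr (mul_ne_zero (mul_ne_zero two_ne_zero hpi) I_ne_zero)
    · exact mul_ne_zero (mul_ne_zero (by norm_num) hpi) I_ne_zero
  · have hr2 : |r| = 2 := by omega
    exact DD_lim2 r hr2 n x z h1 h2 hU

theorem alim (r1 r2 : ℤ) (h1 : 2 ≤ |r1|) (h2 : 2 ≤ |r2|) (n g : ℕ) (hn : 2 ≤ n) (hg : 1 ≤ g)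
    (hgn : g ≤ n - 1) (zc : Fin 3 → ℂ) (hz : zc ∈ UU r1 r2)
    (hgrad : ∀ ξ : Fin 3 → ℝ, fderiv ℂ (Vm (Bs r1 r2) (VV r1 r2)) zc (rc ξ) = 0)
    (him : ∀ j ∈ Bs r1 r2, 0 < (zc j).im) :
    ALim (VV r1 r2) (FF r1 r2 n g) 0 zc := by
  have hz' := hz
  obtain ⟨k1, k2, -, k4, k5⟩ := hz'
  have m1 : 3 ≤ |r1| → (1 : Fin 3) ∈ Bs r1 r2 := fun h => by simp [Bs, h]
  have m2 : 3 ≤ |r2| → (2 : Fin 3) ∈ Bs r1 r2 := fun h => by simp [Bs, h]
  have b1 : 3 ≤ |r1| → Bz r1 (zc 0) (zc 1) = -(2 * Real.pi * I) := fun h => by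
    rw [← ALimT_grad r1 r2 zc hz hgrad 1 (m1 h), VV_fderiv r1 r2 zc hz]
    simp
  have b2 : 3 ≤ |r2| → Bz r2 (zc 0) (zc 2) = -(2 * Real.pi * I) := fun h => by
    rw [← ALimT_grad r1 r2 zc hz hgrad 2 (m2 h), VV_fderiv r1 r2 zc hz]
    simp
  obtain ⟨A1, hA1, L1⟩ := ALimT_blk r1 h1 n (zc 0) (zc 1) k1 k2 k4 b1 fun h => him 1 (m1 h)
  obtain ⟨A2, hA2, L2⟩ := ALimT_blk r2 h2 n (zc 0) (zc 2) k1 k2 k5 b2 fun h => him 2 (m2 h)
  refine ⟨exp (-2 * hh (zc 0 - 1 / 2 + 1 / 2)) * (A1 * A2),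
    mul_ne_zero (Complex.exp_ne_zero _) (mul_ne_zero hA1 hA2), ?_⟩
  intro Z hZ
  have c0 : Tendsto (fun M => Z M 0) atTop (𝓝 (zc 0)) := (tendsto_pi_nhds.mp hZ) 0
  have c1 : Tendsto (fun M => Z M 1) atTop (𝓝 (zc 1)) := (tendsto_pi_nhds.mp hZ) 1
  have c2 : Tendsto (fun M => Z M 2) atTop (𝓝 (zc 2)) := (tendsto_pi_nhds.mp hZ) 2
  have hre : (zc 0 - 1 / 2 : ℂ).re = (zc 0).re - 1 / 2 := by simp
  have hC := Cc_lim n g hg hgn (zc 0 - 1 / 2) (fun M => Z M 0 - 1 / 2)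
    (c0.sub tendsto_const_nhds) (by rw [hre]; linarith) (by rw [hre]; linarith)
  refine (hC.mul ((L1 _ _ c0 c1).mul (L2 _ _ c0 c2))).congr' ?_
  filter_upwards [eventually_ge_atTop 1] with M hM
  have hM0 : (M : ℂ) ≠ 0 := by
    have : M ≠ 0 := by omega
    exact_mod_cast this
  have hexp : exp (-(M * VV r1 r2 (Z M))) = exp (-M * (4 * ff (Z M 0 - 1 / 2 + 1 / 2))) *
      (exp (-(M * (BB r1 (Z M 0) (Z M 1) - ff (Z M 0)))) *
      exp (-(M * (BB r2 (Z M 0) (Z M 2) - ff (Z M 0))))) := by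
    rw [← Complex.exp_add, ← Complex.exp_add]
    congr 1
    have e : (Z M 0 - 1 / 2 + 1 / 2 : ℂ) = Z M 0 := by ring
    rw [e]
    unfold VV
    ring
  rw [hexp]
  unfold FF
  simp only [Real.rpow_zero, Complex.ofReal_one, div_one]
  field_simp

end Pool.Agent.H63.GO
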