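import Pool.Agent.H63.GO.PDefs
import Pool.Agent.H63.VC3.KB

/-! # Amplitudes: limits, |r| = 2 -/

namespace Pool.Agent.H63.GO

open Complex Filter Topology Pool.Agent.H63.VC Pool.Agent.H63.VC3

theorem DD_lim2 (r : ℤ) (hr : |r| = 2) (n : ℕ) (x z : ℂ) (h1 : 6 / 10 < x.re) (h2 : x.re < 9 / 10)
    (hU : UB r x z) : ∃ A : ℂ, A ≠ 0 ∧ ∀ X Z : ℕ → ℂ, Tendsto X atTop (𝓝 x) →
    Tendsto Z atTop (𝓝 z) →
    Tendsto (fun M : ℕ => M * DD r n M (X M) (Z M) *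
      exp (-(M * (BB r (X M) (Z M) - ff (X M))))) atTop (𝓝 A) := by
  have hr3 : ¬ (3 ≤ |r|) := by rw [hr]; norm_num
  unfold UB at hU
  rw [if_neg hr3] at hU
  obtain ⟨hU1, hU2⟩ := hU
  have hsub : (x - z).re = x.re - z.re := Complex.sub_re _ _
  have hz0 : 0 < z.re := by linarith
  have hz1 : z.re < 1 := by linarith
  have hw0 : 0 < (x - z).re := by linarith
  have hw1 : (x - z).re < 1 := by linarith
  refine ⟨exp (-(0 + (1 / 2 - (bt n : ℂ)) * hh (x - z)) + Real.pi * I * r / 2 *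
    (x * (n - 1 - (bt n + 1 / 2)) + z * (2 * n - 3 - (bt n + 1 / 2)) + 1 +
      3 * (bt n + 1 / 2) / 2 + 0)), Complex.exp_ne_zero _, ?_⟩
  intro X Z hX hZ
  have hXZ : Tendsto (fun M => X M - Z M) atTop (𝓝 (x - z)) := hX.sub hZ
  have hE1 := KB_asym_tendsto z Z hZ hz0 hz1
  have hδ : Tendsto (fun M : ℕ => (1 / 2 - (bt n : ℂ)) / (M : ℂ)) atTop (𝓝 0) :=
    tendsto_const_div_atTop_nhds_zero_nat (𝕜 := ℂ) _
  have hW : Tendsto (fun M : ℕ => X M - Z M + (1 / 2 - (bt n : ℂ)) / M) atTop (𝓝 (x - z)) := by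
    simpa using hXZ.add hδ
  have hE2 := KB_asym_tendsto (x - z) (fun M => X M - Z M + (1 / 2 - (bt n : ℂ)) / M) hW hw0 hw1
  have hE3 := KB_ff_diff (x - z) (1 / 2 - (bt n : ℂ)) (fun M => X M - Z M) hXZ hw0 hw1
  have hQ : Tendsto (fun M : ℕ => (((bt n : ℂ) + 1 / 2) ^ 2 / 2 - (n - 1 / 2) * ((bt n : ℂ) + 1 / 2) +
      ((bt n : ℂ) + 1 / 2) / 2 + 1 / 4 - (n - 1)) / (M : ℂ)) atTop (𝓝 0) :=
    tendsto_const_div_atTop_nhds_zero_nat (𝕜 := ℂ) _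
  have hP : Tendsto (fun M : ℕ => X M * ((n : ℂ) - 1 - (bt n + 1 / 2)) +
      Z M * (2 * n - 3 - (bt n + 1 / 2)) + 1 + 3 * ((bt n : ℂ) + 1 / 2) / 2 +
      (((bt n : ℂ) + 1 / 2) ^ 2 / 2 - (n - 1 / 2) * ((bt n : ℂ) + 1 / 2) +
      ((bt n : ℂ) + 1 / 2) / 2 + 1 / 4 - (n - 1)) / (M : ℂ)) atTop
      (𝓝 (x * (n - 1 - (bt n + 1 / 2)) + z * (2 * n - 3 - (bt n + 1 / 2)) + 1 +
      3 * (bt n + 1 / 2) / 2 + 0)) :=
    ((((hX.mul_const _).add (hZ.mul_const _)).add_const _).add_const _).add hQ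
  have hall := (Complex.continuous_exp.tendsto _).comp
    (((hE1.add (hE2.add hE3)).neg).add (hP.const_mul (Real.pi * I * r / 2 : ℂ)))
  rw [zero_add] at hall
  refine hall.congr' ?_
  filter_upwards [eventually_ge_atTop 1] with M hM
  have hM0 : (0 : ℝ) < M := by
    have : 0 < M := by omega
    exact_mod_cast this
  have hMC : (M : ℂ) ≠ 0 := by exact_mod_cast hM0.ne'
  have hlog : (M : ℂ) = exp (Real.log M) := by
    rw [← Complex.ofReal_exp, Real.exp_log hM0]; push_cast; rfl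
  have harg : (M : ℂ) * (X M - Z M + (1 / 2 - (bt n : ℂ)) / M) - 1 / 2 =
      M * (X M - Z M) - bt n := by
    field_simp
    ring
  have hph : ph n M (M * X M - bt n - 1 / 2) (M * Z M - 1 / 2) =
      M * ((X M ^ 2 - 3 * X M) / 2 + Z M ^ 2 + Z M * X M - 2 * Z M) +
      (X M * ((n : ℂ) - 1 - (bt n + 1 / 2)) +
      Z M * (2 * n - 3 - (bt n + 1 / 2)) + 1 + 3 * ((bt n : ℂ) + 1 / 2) / 2 +
      (((bt n : ℂ) + 1 / 2) ^ 2 / 2 - (n - 1 / 2) * ((bt n : ℂ) + 1 / 2) +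
      ((bt n : ℂ) + 1 / 2) / 2 + 1 / 4 - (n - 1)) / (M : ℂ)) := by
    unfold ph
    field_simp
    ring
  simp only [Function.comp_apply]
  unfold DD BB
  rw [if_neg hr3, if_neg hr3, hph, harg, ← Complex.exp_add]
  conv_rhs =>
    rw [mul_assoc]
    rw [← Complex.exp_add]
    lhs
    rw [hlog]
  rw [← Complex.exp_add]
  congr 1
  ring

end Pool.Agent.H63.GO
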