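import Pool.Agent.H63.GO.PDefs
import Pool.Agent.H63.VC3.Geo

/-! # The Bloch-Wigner identity of a block with |r| = 2 -/

namespace Pool.Agent.H63.GO

open Complex Filter Topology Pool.Agent.H63.VC Pool.Agent.H63.VC3

/-- Duplication formula. -/
private theorem BW2_dup (z : ℂ) (h1 : 1 - z ≠ 0) (h2 : 1 + z ≠ 0) :
    blochWigner (z ^ 2) = 2 * blochWigner z + 2 * blochWigner (-z) := by
  have h3 : z * z ≠ 1 := by
    intro h
    have : (1 - z) * (1 + z) = 0 := by linear_combination -h
    exact mul_ne_zero h1 h2 this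
  have f := five_term z z h3
  have e1 : (1 - z) / (1 - z * z) = (1 - (-z))⁻¹ := by
    have : 1 - z * z = (1 - z) * (1 + z) := by ring
    rw [this, sub_neg_eq_add]
    field_simp
  rw [e1, SWpath_inv, SWpath_one_sub, SWpath_one_sub] at f
  rw [sq]
  linarith

/-- The two five-term relations. -/
private theorem BW2_two (L X : ℂ) (hL : L ≠ 0) (h1 : 1 - L ≠ 0) (h2 : 1 + L ≠ 0) (hX0 : X ≠ 0)
    (hX : X = L + 1 - 1 / L) :
    blochWigner L + blochWigner (X / L) =
      2 * blochWigner X + blochWigner ((1 - L) * (1 + L) ^ 2) + 2 * blochWigner L +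
        4 * blochWigner (-L) := by
  have eX : 1 - X = (1 - L) * (1 + L) / L := by
    rw [hX]
    field_simp
    ring
  have hLX : L * X = L ^ 2 + L - 1 := by
    rw [hX]
    field_simp
  have h1X : 1 - X ≠ 0 := by
    rw [eX]
    exact div_ne_zero (mul_ne_zero h1 h2) hL
  -- first relation
  have n1 : L * (X / L) ≠ 1 := by
    rw [mul_div_cancel₀ _ hL]
    intro h
    exact h1X (by rw [h, sub_self])
  have f1 := five_term L (X / L) n1
  rw [mul_div_cancel₀ _ hL] at f1
  have a1 : (1 - L) / (1 - X) = 1 - (1 - (-L))⁻¹ := by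
    rw [eX, sub_neg_eq_add]
    field_simp
    ring
  have a2 : (1 - X / L) / (1 - X) = (L * (1 + L))⁻¹ := by
    rw [eX]
    have : 1 - X / L = (1 - L) / L ^ 2 := by
      rw [hX]
      field_simp
      ring
    rw [this]
    field_simp
  rw [a1, a2, SWpath_one_sub, SWpath_one_sub, SWpath_inv, SWpath_inv, SWpath_one_sub] at f1
  -- second relation
  have e2 : 1 - (1 - X) * (L * (1 + L)) = L * (L * X) := by
    rw [hLX, eX]
    field_simp
    ring
  have n2 : (1 - X) * (L * (1 + L)) ≠ 1 := by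
    intro h
    rw [h, sub_self] at e2
    exact mul_ne_zero hL (mul_ne_zero hL hX0) e2.symm
  have f2 := five_term (1 - X) (L * (1 + L)) n2
  have b1 : (1 - (1 - X)) / (1 - (1 - X) * (L * (1 + L))) = (L ^ 2)⁻¹ := by
    rw [e2]
    field_simp
    ring
  have b2 : (1 - L * (1 + L)) / (1 - (1 - X) * (L * (1 + L))) = (-L)⁻¹ := by
    rw [e2]
    have : 1 - L * (1 + L) = -(L * X) := by
      rw [hLX]
      ring
    rw [this]
    field_simp
  have b3 : (1 - X) * (L * (1 + L)) = (1 - L) * (1 + L) ^ 2 := by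
    rw [eX]
    field_simp
  rw [b1, b2, b3, SWpath_one_sub, SWpath_inv, SWpath_inv, SWpath_one_sub,
    BW2_dup L h1 h2] at f2
  linarith

/-- The identity for `r = 2`. -/
private theorem BW2_core (y v B : ℂ) (hA : 1 + cos (2 * Real.pi * v) ≠ 0)
    (hB : 1 + B ≠ 0) (hAB : 2 + cos (2 * Real.pi * v) + B ≠ 0)
    (hc : cos (2 * Real.pi * y) * (2 + cos (2 * Real.pi * v) + B) =
      cos (2 * Real.pi * v) * B - 1)
    (hE : exp (4 * Real.pi * I * (2 : ℕ) * v) *
        (exp (2 * Real.pi * I * y) - exp (2 * Real.pi * I * v)) =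
      exp (2 * Real.pi * I * y) * exp (2 * Real.pi * I * v) - 1)
    (hs : ∀ k : ℕ, 1 ≤ k → k ≤ 4 → sin (k * (Real.pi * v)) ≠ 0)
    (hv : 1 + 2 * cos (2 * Real.pi * v) ≠ 0) :
    blochWigner (-(1 + 2 * cos (2 * Real.pi * v))) +
        blochWigner (-exp (2 * Real.pi * I * y) / -(1 + 2 * cos (2 * Real.pi * v))) =
      blochWigner (exp (2 * Real.pi * I * (y - v))) +
        blochWigner (exp (2 * Real.pi * I * (y + v))) := by
  have hg := Geo_half 2 y v (cos (2 * Real.pi * v)) B (by norm_num) rfl hc hE hA hB hAB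
    (fun k h1 h2 => hs k h1 (by omega))
  set Y : ℂ := exp (2 * Real.pi * I * y) with hY
  set Q : ℂ := exp (2 * Real.pi * I * v) with hQ
  set c : ℂ := 2 * cos (2 * Real.pi * v) with hcd
  have hY0 : Y ≠ 0 := Complex.exp_ne_zero _
  have hQ0 : Q ≠ 0 := Complex.exp_ne_zero _
  have hcQ : c = Q + 1 / Q := by
    rw [hcd, Complex.cos, hQ, one_div, ← Complex.exp_neg]
    rw [show 2 * (Real.pi : ℂ) * v * I = 2 * Real.pi * I * v by ring,
      show -(2 * (Real.pi : ℂ) * v) * I = -(2 * Real.pi * I * v) by ring]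
    ring
  have ht : 2 * cos (2 * Real.pi * y) = Y + 1 / Y := by
    rw [Complex.cos, hY, one_div, ← Complex.exp_neg]
    rw [show 2 * (Real.pi : ℂ) * y * I = 2 * Real.pi * I * y by ring,
      show -(2 * (Real.pi : ℂ) * y) * I = -(2 * Real.pi * I * y) by ring]
    ring
  have hQ4 : exp (4 * Real.pi * I * (2 : ℕ) * v) = Q ^ 4 := by
    rw [hQ, ← Complex.exp_nat_mul]
    congr 1
    push_cast
    ring
  rw [hQ4] at hE
  -- Q ≠ 1
  have hs1 := hs 1 le_rfl (by norm_num)
  have hs2 := hs 2 (by norm_num) (by norm_num)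
  have hs4 := hs 4 (by norm_num) le_rfl
  have hQ1 : Q - 1 ≠ 0 := by
    intro h
    have h' : exp (2 * Real.pi * I * v) = 1 := by
      rw [← hQ]
      linear_combination h
    rw [Complex.exp_eq_one_iff] at h'
    obtain ⟨n, hn⟩ := h'
    apply hs1
    have : v = n := by
      have hpi : (2 * (Real.pi : ℂ) * I) ≠ 0 := by
        simp [Real.pi_ne_zero, I_ne_zero]
      have : (2 * (Real.pi : ℂ) * I) * v = (2 * Real.pi * I) * n := by
        rw [hn]
        ring
      exact mul_left_cancel₀ hpi this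
    rw [this]
    rw [Nat.cast_one, one_mul, mul_comm]
    exact Complex.sin_int_mul_pi n
  have hrel : Y * (c + 1) = c ^ 2 + c - 1 := by
    have h2 : (Q - 1) * (Y * Q * (Q ^ 2 + Q + 1) - (Q ^ 4 + Q ^ 3 + Q ^ 2 + Q + 1)) = 0 := by
      linear_combination hE
    have h3 := (mul_eq_zero.1 h2).resolve_left hQ1
    rw [hcQ]
    field_simp
    linear_combination h3
  set L : ℂ := -(1 + c) with hLd
  have hL0 : L ≠ 0 := neg_ne_zero.2 hv
  have hcL : c = -L - 1 := by rw [hLd]; ring
  have h1L : 1 - L ≠ 0 := by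
    intro h
    apply hA
    have : (2 : ℂ) * (1 + cos (2 * Real.pi * v)) = 0 := by
      rw [← h, hLd, hcd]
      ring
    exact (mul_eq_zero.1 this).resolve_left two_ne_zero
  have h2L : 1 + L ≠ 0 := by
    intro h
    apply hs4
    have hc0 : cos (2 * Real.pi * v) = 0 := by
      have : (2 : ℂ) * cos (2 * Real.pi * v) = 0 := by
        rw [← hcd, hcL]
        linear_combination -h
      exact (mul_eq_zero.1 this).resolve_left two_ne_zero
    have : ((4 : ℕ) : ℂ) * (Real.pi * v) = 2 * (2 * Real.pi * v) := by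
      push_cast
      ring
    rw [this, Complex.sin_two_mul, hc0, mul_zero]
  have hX : -Y = L + 1 - 1 / L := by
    rw [hcL] at hrel
    have : Y * L = -(L ^ 2 + L - 1) := by linear_combination -hrel
    field_simp
    linear_combination -this
  have h2 := BW2_two L (-Y) hL0 h1L h2L (neg_ne_zero.2 hY0) hX
  rw [h2]
  -- the half value
  have hW : -(1 + cos (2 * Real.pi * v)) / (1 + B) = ((1 - L) * (1 + L) ^ 2)⁻¹ := by
    have hYL : Y * L = 1 - L - L ^ 2 := by
      have : -Y * L = (L + 1 - 1 / L) * L := by rw [hX]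
      rw [sub_mul, one_div, inv_mul_cancel₀ hL0] at this
      linear_combination -this
    have hcA : 2 * cos (2 * Real.pi * v) = -L - 1 := by rw [← hcd, hcL]
    have htY : 2 * cos (2 * Real.pi * y) * Y = Y ^ 2 + 1 := by
      rw [ht, add_mul, one_div, inv_mul_cancel₀ hY0]
      ring
    have m1 : (1 + B) * (Y ^ 2 + 1 - 2 * cos (2 * Real.pi * v) * Y) =
        -(1 + cos (2 * Real.pi * v)) * (Y ^ 2 + 1 + 2 * Y) := by
      linear_combination (2 * Y) * hc - (2 + cos (2 * Real.pi * v) + B) * htY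
    have m2 : L ^ 2 * (Y ^ 2 + 1 - 2 * cos (2 * Real.pi * v) * Y) = 1 - L := by
      rw [hcA]
      linear_combination (Y * L + L ^ 2 + L + 1 - L - L ^ 2) * hYL
    have m3 : L ^ 2 * (Y ^ 2 + 1 + 2 * Y) = (1 - L ^ 2) ^ 2 := by
      linear_combination (Y * L + 1 - L - L ^ 2 + 2 * L) * hYL
    have m4 : (1 - L) * ((1 + B) + (1 + cos (2 * Real.pi * v)) * ((1 - L) * (1 + L) ^ 2)) = 0 := by
      linear_combination L ^ 2 * m1 - (1 + B) * m2 - (1 + cos (2 * Real.pi * v)) * m3
    have m5 := (mul_eq_zero.1 m4).resolve_left h1L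
    have m6 : (1 - L) * (1 + L) ^ 2 ≠ 0 := mul_ne_zero h1L (pow_ne_zero 2 h2L)
    rw [div_eq_iff hB, eq_comm, inv_mul_eq_iff_eq_mul₀ m6]
    linear_combination m5
  have hsum : ∑ k ∈ Finset.Icc 2 (2 * 2 - 1),
      blochWigner ((Xs (2 * cos (Real.pi * v)) k ^ 2)⁻¹) =
      blochWigner L - (2 * blochWigner L + 2 * blochWigner (-L)) := by
    have hcc : 4 * cos (Real.pi * v) ^ 2 = 2 + c := by
      rw [hcd, show 2 * (Real.pi : ℂ) * v = 2 * (Real.pi * v) by ring, Complex.cos_two_mul]
      ring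
    have g2 : Xs (2 * cos (Real.pi * v)) 2 ^ 2 = 1 - L := by
      rw [Xs_two, hLd]
      linear_combination hcc
    have g3 : Xs (2 * cos (Real.pi * v)) 3 = -L := by
      rw [show (3 : ℕ) = 1 + 2 from rfl, Xs_rec, Xs_one, show (1 + 1 : ℕ) = 2 from rfl, Xs_two,
        hLd]
      linear_combination hcc
    have hI : Finset.Icc 2 (2 * 2 - 1) = ({2, 3} : Finset ℕ) := rfl
    rw [hI, Finset.sum_pair (by norm_num), g2, g3, SWpath_inv, SWpath_inv, SWpath_one_sub,
      neg_sq, BW2_dup L h1L h2L]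
    ring
  rw [hsum, hW, SWpath_inv] at hg
  linarith

/-- The Bloch-Wigner identity for a block with `|r| = 2`. -/
theorem bw2 (r : ℤ) (hr : |r| = 2) (y v B : ℂ) (hA : 1 + cos (2 * Real.pi * v) ≠ 0)
    (hB : 1 + B ≠ 0) (hAB : 2 + cos (2 * Real.pi * v) + B ≠ 0)
    (hc : cos (2 * Real.pi * y) * (2 + cos (2 * Real.pi * v) + B) =
      cos (2 * Real.pi * v) * B - 1)
    (hE : exp (4 * Real.pi * I * r * v) * (exp (2 * Real.pi * I * y) - exp (2 * Real.pi * I * v)) =
      exp (2 * Real.pi * I * y) * exp (2 * Real.pi * I * v) - 1)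
    (hs : ∀ k : ℕ, 1 ≤ k → k ≤ 4 → sin (k * (Real.pi * v)) ≠ 0)
    (hv : 0 < (4 * cos (Real.pi * v) ^ 2 - 1).re) :
    blochWigner (exp (2 * Real.pi * I * zB r v)) +
        blochWigner (exp (2 * Real.pi * I * (y + 1 / 2 - zB r v))) =
      blochWigner (exp (2 * Real.pi * I * (y - v))) +
        blochWigner (exp (2 * Real.pi * I * (y + v))) := by
  have hpi : (2 * (Real.pi : ℂ) * I) ≠ 0 := by
    simp [Real.pi_ne_zero, I_ne_zero]
  have hcc : 4 * cos (Real.pi * v) ^ 2 - 1 = 1 + 2 * cos (2 * Real.pi * v) := by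
    rw [show 2 * (Real.pi : ℂ) * v = 2 * (Real.pi * v) by ring, Complex.cos_two_mul]
    ring
  have hv0 : 1 + 2 * cos (2 * Real.pi * v) ≠ 0 := by
    intro h
    rw [hcc, h] at hv
    simp at hv
  have hpe : exp (Real.pi * I) = -1 := Complex.exp_pi_mul_I
  rcases (abs_eq (by norm_num : (0 : ℤ) ≤ 2)).1 hr with h | h
  · subst h
    have hz : exp (2 * Real.pi * I * zB 2 v) = -(1 + 2 * cos (2 * Real.pi * v)) := by
      have : 2 * Real.pi * I * zB 2 v =
          Real.pi * I + log (1 + 2 * cos (2 * Real.pi * v)) := by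
        rw [zB, if_neg (by norm_num)]
        push_cast
        field_simp
      rw [this, Complex.exp_add, hpe, Complex.exp_log hv0]
      ring
    have hz2 : exp (2 * Real.pi * I * (y + 1 / 2 - zB 2 v)) =
        -exp (2 * Real.pi * I * y) / -(1 + 2 * cos (2 * Real.pi * v)) := by
      have : 2 * Real.pi * I * (y + 1 / 2 - zB 2 v) =
          2 * Real.pi * I * y + Real.pi * I - 2 * Real.pi * I * zB 2 v := by ring
      rw [this, Complex.exp_sub, Complex.exp_add, hz, hpe]
      ring
    rw [hz, hz2]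
    exact BW2_core y v B hA hB hAB hc (by simpa using hE) hs hv0
  · subst h
    have hz : exp (2 * Real.pi * I * zB (-2) v) = (-(1 + 2 * cos (2 * Real.pi * v)))⁻¹ := by
      have : 2 * Real.pi * I * zB (-2) v =
          Real.pi * I - log (1 + 2 * cos (2 * Real.pi * v)) := by
        rw [zB, if_neg (by norm_num)]
        push_cast
        field_simp
        ring
      rw [this, Complex.exp_sub, hpe, Complex.exp_log hv0]
      field_simp
    have hz2 : exp (2 * Real.pi * I * (y + 1 / 2 - zB (-2) v)) =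
        (-exp (2 * Real.pi * I * -y) / -(1 + 2 * cos (2 * Real.pi * v)))⁻¹ := by
      have : 2 * Real.pi * I * (y + 1 / 2 - zB (-2) v) =
          2 * Real.pi * I * y + Real.pi * I - 2 * Real.pi * I * zB (-2) v := by ring
      have hY := Complex.exp_ne_zero (2 * Real.pi * I * y)
      have hny : exp (2 * Real.pi * I * -y) = (exp (2 * Real.pi * I * y))⁻¹ := by
        rw [← Complex.exp_neg]
        congr 1
        ring
      rw [this, Complex.exp_sub, Complex.exp_add, hz, hpe, hny]
      field_simp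
    have w1 : exp (2 * Real.pi * I * (y - v)) = (exp (2 * Real.pi * I * (-y + v)))⁻¹ := by
      rw [← Complex.exp_neg]
      congr 1
      ring
    have w2 : exp (2 * Real.pi * I * (y + v)) = (exp (2 * Real.pi * I * (-y - v)))⁻¹ := by
      rw [← Complex.exp_neg]
      congr 1
      ring
    have hc' : cos (2 * Real.pi * -y) * (2 + cos (2 * Real.pi * v) + B) =
        cos (2 * Real.pi * v) * B - 1 := by
      rw [mul_neg, Complex.cos_neg, hc]
    have hE' : exp (4 * Real.pi * I * (2 : ℕ) * v) *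
        (exp (2 * Real.pi * I * -y) - exp (2 * Real.pi * I * v)) =
        exp (2 * Real.pi * I * -y) * exp (2 * Real.pi * I * v) - 1 := by
      have hY := Complex.exp_ne_zero (2 * Real.pi * I * y)
      have hF := Complex.exp_ne_zero (4 * Real.pi * I * (2 : ℕ) * v)
      have e0 : exp (4 * Real.pi * I * ((-2 : ℤ) : ℂ) * v) =
          (exp (4 * Real.pi * I * (2 : ℕ) * v))⁻¹ := by
        rw [← Complex.exp_neg]
        congr 1
        push_cast
        ring
      rw [e0] at hE
      have e1 : exp (2 * Real.pi * I * y) - exp (2 * Real.pi * I * v) =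
          exp (4 * Real.pi * I * (2 : ℕ) * v) *
            (exp (2 * Real.pi * I * y) * exp (2 * Real.pi * I * v) - 1) := by
        rw [← hE, mul_inv_cancel_left₀ hF]
      have hny : exp (2 * Real.pi * I * -y) = (exp (2 * Real.pi * I * y))⁻¹ := by
        rw [← Complex.exp_neg]
        congr 1
        ring
      rw [hny]
      generalize exp (2 * Real.pi * I * y) = Y at hY e1 ⊢
      generalize exp (2 * Real.pi * I * v) = Q at e1 ⊢
      generalize exp (4 * Real.pi * I * (2 : ℕ) * v) = E at e1 ⊢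
      field_simp
      linear_combination e1
    have key := BW2_core (-y) v B hA hB hAB hc' hE' hs hv0
    rw [hz, hz2, w1, w2, SWpath_inv, SWpath_inv, SWpath_inv, SWpath_inv]
    linarith

end Pool.Agent.H63.GO
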