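import Pool.Agent.H63.GO.PKern

/-! # The lattice sum as a limit of integrals against Poisson kernels -/

namespace Pool.Agent.H63.GO

open Complex Filter Topology MeasureTheory
open scoped BigOperators

private noncomputable def Comb_chi (t : ℝ) : ℝ :=
  Set.indicator (Set.Ioc (-(1 / 2) : ℝ) (1 / 2)) (fun _ => 1) t

private noncomputable def Comb_phi (ε t : ℝ) : ℝ :=
  Set.indicator (Set.Ioc (-(1 / 2) : ℝ) (1 / 2)) (PK ε) t

private theorem Comb_chi_sum (R : ℕ) (t : ℝ) (ht : |t| ≤ R) :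
    ∑ n ∈ Finset.Icc (-(R + 1 : ℤ)) (R + 1), Comb_chi (t - n) = 1 := by
  rw [abs_le] at ht
  rw [Finset.sum_eq_single ⌈t - 1 / 2⌉]
  · unfold Comb_chi
    rw [Set.indicator_of_mem]
    constructor <;> linarith [Int.le_ceil (t - 1 / 2), Int.ceil_lt_add_one (t - 1 / 2)]
  · intro n _ hn
    unfold Comb_chi
    rw [Set.indicator_of_notMem]
    rintro ⟨h1, h2⟩
    apply hn
    symm
    rw [Int.ceil_eq_iff]
    constructor <;> linarith
  · intro h
    exfalso
    apply h
    rw [Finset.mem_Icc]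
    constructor
    · have h1 : ((-(R + 1 : ℤ) : ℤ) : ℝ) ≤ (⌈t - 1 / 2⌉ : ℝ) := by
        push_cast
        linarith [Int.le_ceil (t - 1 / 2)]
      exact_mod_cast h1
    · rw [Int.ceil_le]
      push_cast
      linarith

private theorem Comb_phi_eq (ε t : ℝ) : Comb_phi ε t = PK ε t * Comb_chi t := by
  unfold Comb_phi Comb_chi
  by_cases h : t ∈ Set.Ioc (-(1 / 2) : ℝ) (1 / 2)
  · rw [Set.indicator_of_mem h, Set.indicator_of_mem h, mul_one]
  · rw [Set.indicator_of_notMem h, Set.indicator_of_notMem h, mul_zero]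

private theorem Comb_phi_nonneg (ε t : ℝ) (hε : 0 < ε) : 0 ≤ Comb_phi ε t :=
  Set.indicator_nonneg (fun x _ => PK_nonneg ε x hε) t

private theorem Comb_phi_integrable (ε : ℝ) (hε : 0 < ε) : Integrable (Comb_phi ε) :=
  ((PK_continuous ε hε).integrableOn_Ioc).integrable_indicator measurableSet_Ioc

private theorem Comb_phi_int (ε : ℝ) (hε : 0 < ε) : ∫ t, Comb_phi ε t = 1 := by
  have h1 : ∫ t, Comb_phi ε t = ∫ t in Set.Ioc (-(1 / 2) : ℝ) (1 / 2), PK ε t :=
    integral_indicator measurableSet_Ioc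
  rw [h1, ← intervalIntegral.integral_of_le (by norm_num), PK_integral ε hε]

private theorem Comb_chi_integrable : Integrable Comb_chi := by
  have h : IntegrableOn (fun _ : ℝ => (1 : ℝ)) (Set.Ioc (-(1 / 2) : ℝ) (1 / 2)) :=
    continuous_const.integrableOn_Ioc
  exact h.integrable_indicator measurableSet_Ioc

private theorem Comb_chi_int : ∫ t, Comb_chi t = 1 := by
  have h1 : ∫ t, Comb_chi t = ∫ _ in Set.Ioc (-(1 / 2) : ℝ) (1 / 2), (1 : ℝ) :=
    integral_indicator measurableSet_Ioc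
  rw [h1, ← intervalIntegral.integral_of_le (by norm_num)]
  norm_num

private theorem Comb_tail (d C ε : ℝ) (hε : 0 < ε)
    (hC : ∀ x : ℝ, d ≤ |x| → |x| ≤ 1 / 2 → PK ε x ≤ C * ε) (hC0 : 0 < C) :
    ∫ t, Set.indicator {s : ℝ | d ≤ |s|} (Comb_phi ε) t ≤ C * ε := by
  have hm : MeasurableSet {s : ℝ | d ≤ |s|} := (isClosed_le continuous_const continuous_abs).measurableSet
  have h1 : ∫ t, Set.indicator {s : ℝ | d ≤ |s|} (Comb_phi ε) t ≤ ∫ t, C * ε * Comb_chi t := by
    refine integral_mono ((Comb_phi_integrable ε hε).indicator hm) (Comb_chi_integrable.const_mul _) ?_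
    intro t
    have hchi : 0 ≤ Comb_chi t := Set.indicator_nonneg (fun _ _ => zero_le_one) t
    by_cases ht : t ∈ {s : ℝ | d ≤ |s|}
    · simp only
      rw [Set.indicator_of_mem ht]
      unfold Comb_phi Comb_chi
      by_cases h : t ∈ Set.Ioc (-(1 / 2) : ℝ) (1 / 2)
      · rw [Set.indicator_of_mem h, Set.indicator_of_mem h, mul_one]
        refine hC t ht (abs_le.2 ⟨?_, h.2⟩)
        linarith [h.1]
      · rw [Set.indicator_of_notMem h, Set.indicator_of_notMem h, mul_zero]
    · simp only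
      rw [Set.indicator_of_notMem ht]
      positivity
  rw [integral_const_mul, Comb_chi_int, mul_one] at h1
  exact h1

private theorem Comb_main {ι : Type} [Fintype ι] [DecidableEq ι] (h : (ι → ℝ) → ℂ)
    (hh : Continuous h) (Cb : ℝ) (hb : ∀ x, ‖h x‖ ≤ Cb) :
    Tendsto (fun ε : ℝ => ∫ x : ι → ℝ, h x * ∏ j, (Comb_phi ε (x j) : ℂ)) (𝓝[>] 0)
      (𝓝 (h 0)) := by
  rw [Metric.tendsto_nhds]
  intro η hη
  have hCb : 0 ≤ Cb := (norm_nonneg _).trans (hb 0)
  obtain ⟨d, hd, hd2⟩ := Metric.continuousAt_iff.1 (hh.continuousAt (x := 0)) (η / 2) (half_pos hη)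
  obtain ⟨C, hC0, hCt⟩ := PK_tail d hd
  have hev : ∀ᶠ ε : ℝ in 𝓝[>] 0, 2 * Cb * (Fintype.card ι) * (C * ε) < η / 2 := by
    have h1 : Tendsto (fun ε : ℝ => 2 * Cb * (Fintype.card ι) * (C * ε)) (𝓝[>] 0) (𝓝 0) := by
      have h2 : Continuous (fun ε : ℝ => 2 * Cb * (Fintype.card ι) * (C * ε)) := by fun_prop
      have h3 := h2.tendsto 0
      simp only [mul_zero] at h3
      exact h3.mono_left nhdsWithin_le_nhds
    exact h1.eventually (gt_mem_nhds (half_pos hη))
  have hev1 : ∀ᶠ ε : ℝ in 𝓝[>] 0, ε ≤ 1 := by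
    have : ∀ᶠ ε : ℝ in 𝓝 (0 : ℝ), ε ≤ 1 := ge_mem_nhds (by norm_num)
    exact this.filter_mono nhdsWithin_le_nhds
  have hev0 : ∀ᶠ ε : ℝ in 𝓝[>] 0, 0 < ε := self_mem_nhdsWithin
  filter_upwards [hev, hev1, hev0] with ε hε2 hε1 hε
  set T : Set ℝ := {s : ℝ | d ≤ |s|} with hT
  have hm : MeasurableSet T := (isClosed_le continuous_const continuous_abs).measurableSet
  set W : (ι → ℝ) → ℝ := fun x => ∏ j, Comb_phi ε (x j) with hW
  have hW0 : ∀ x, 0 ≤ W x := fun x => Finset.prod_nonneg fun j _ => Comb_phi_nonneg ε _ hε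
  have hWi : Integrable W := Integrable.fintype_prod fun _ => Comb_phi_integrable ε hε
  have hW1 : ∫ x, W x = 1 := by
    rw [hW, integral_fintype_prod_volume_eq_prod (fun _ : ι => Comb_phi ε)]
    exact Finset.prod_eq_one fun _ _ => Comb_phi_int ε hε
  set ψ : ι → ι → ℝ → ℝ := fun j i => if i = j then T.indicator (Comb_phi ε) else Comb_phi ε with hψ
  have hψi : ∀ j i, Integrable (ψ j i) := by
    intro j i
    simp only [hψ]
    split_ifs
    · exact (Comb_phi_integrable ε hε).indicator hm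
    · exact Comb_phi_integrable ε hε
  have hψ0 : ∀ j i s, 0 ≤ ψ j i s := by
    intro j i s
    simp only [hψ]
    split_ifs
    · exact Set.indicator_nonneg (fun x _ => Comb_phi_nonneg ε x hε) s
    · exact Comb_phi_nonneg ε s hε
  have hψint : ∀ j, ∫ x : ι → ℝ, ∏ i, ψ j i (x i) ≤ C * ε := by
    intro j
    rw [integral_fintype_prod_volume_eq_prod (ψ j)]
    have h1 : ∀ i, ∫ s, ψ j i s = if i = j then ∫ s, T.indicator (Comb_phi ε) s else 1 := by
      intro i
      simp only [hψ]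
      split_ifs
      · rfl
      · exact Comb_phi_int ε hε
    rw [Finset.prod_congr rfl fun i _ => h1 i, Finset.prod_ite_eq' Finset.univ j, if_pos (Finset.mem_univ j)]
    exact Comb_tail d C ε hε (fun x h1 h2 => hCt ε x hε hε1 h1 h2) hC0
  -- the complex form
  have hWc : ∀ x : ι → ℝ, (∏ j, (Comb_phi ε (x j) : ℂ)) = ((W x : ℝ) : ℂ) := by
    intro x
    simp only [hW]
    push_cast
    rfl
  have hint1 : Integrable (fun x : ι → ℝ => h x * ((W x : ℝ) : ℂ)) :=
    hWi.ofReal.bdd_mul hh.aestronglyMeasurable (Eventually.of_forall hb)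
  have hint2 : Integrable (fun x : ι → ℝ => h 0 * ((W x : ℝ) : ℂ)) := hWi.ofReal.const_mul _
  have hI2 : ∫ x : ι → ℝ, h 0 * ((W x : ℝ) : ℂ) = h 0 := by
    rw [integral_const_mul, integral_complex_ofReal, hW1]
    simp
  rw [dist_eq_norm]
  simp only [hWc]
  have e1 : (∫ x : ι → ℝ, h x * ((W x : ℝ) : ℂ)) - h 0 = ∫ x : ι → ℝ, (h x - h 0) * ((W x : ℝ) : ℂ) := by
    conv_lhs => rw [← hI2]
    rw [← integral_sub hint1 hint2]
    refine integral_congr_ae (Eventually.of_forall fun x => ?_)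
    simp only
    ring
  rw [e1]
  have hbnd : ∀ x : ι → ℝ, ‖(h x - h 0) * ((W x : ℝ) : ℂ)‖ ≤ η / 2 * W x + ∑ j, 2 * Cb * ∏ i, ψ j i (x i) := by
    intro x
    rw [norm_mul, Complex.norm_real, Real.norm_of_nonneg (hW0 x)]
    have hs : ∀ j, 0 ≤ 2 * Cb * ∏ i, ψ j i (x i) := fun j =>
      mul_nonneg (by positivity) (Finset.prod_nonneg fun i _ => hψ0 j i _)
    by_cases hx : ∃ j, x j ∈ T
    · obtain ⟨j, hj⟩ := hx
      have h1 : ∏ i, ψ j i (x i) = W x := by
        simp only [hW]
        refine Finset.prod_congr rfl fun i _ => ?_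
        simp only [hψ]
        split_ifs with hij
        · rw [hij, Set.indicator_of_mem hj]
        · rfl
      have h2 : 2 * Cb * W x ≤ ∑ j, 2 * Cb * ∏ i, ψ j i (x i) := by
        rw [← h1]
        exact Finset.single_le_sum (f := fun j => 2 * Cb * ∏ i, ψ j i (x i)) (fun j _ => hs j) (Finset.mem_univ j)
      have h3 : ‖h x - h 0‖ ≤ 2 * Cb := by
        refine (norm_sub_le _ _).trans ?_
        linarith [hb x, hb 0]
      have h4 := mul_le_mul_of_nonneg_right h3 (hW0 x)
      have h5 : 0 ≤ η / 2 * W x := mul_nonneg (by positivity) (hW0 x)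
      linarith
    · push Not at hx
      have h1 : ‖x‖ < d := by
        rw [pi_norm_lt_iff hd]
        intro j
        have := hx j
        simp only [hT, Set.mem_ofPred_eq, not_le] at this
        exact this
      have h2 : ‖h x - h 0‖ ≤ η / 2 := by
        rw [← dist_eq_norm]
        refine (hd2 ?_).le
        rwa [dist_zero_right]
      have h4 := mul_le_mul_of_nonneg_right h2 (hW0 x)
      have h5 : 0 ≤ ∑ j, 2 * Cb * ∏ i, ψ j i (x i) := Finset.sum_nonneg fun j _ => hs j
      linarith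
  have hψp : ∀ j, Integrable (fun x : ι → ℝ => 2 * Cb * ∏ i, ψ j i (x i)) := fun j =>
    (Integrable.fintype_prod (hψi j)).const_mul _
  have hint3 : Integrable (fun x : ι → ℝ => η / 2 * W x + ∑ j, 2 * Cb * ∏ i, ψ j i (x i)) :=
    (hWi.const_mul _).add (integrable_finsetSum _ fun j _ => hψp j)
  have e2 : ‖∫ x : ι → ℝ, (h x - h 0) * ((W x : ℝ) : ℂ)‖ ≤
      ∫ x : ι → ℝ, (η / 2 * W x + ∑ j, 2 * Cb * ∏ i, ψ j i (x i)) :=
    norm_integral_le_of_norm_le hint3 (Eventually.of_forall hbnd)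
  have e3 : ∫ x : ι → ℝ, (η / 2 * W x + ∑ j, 2 * Cb * ∏ i, ψ j i (x i)) ≤
      η / 2 + 2 * Cb * (Fintype.card ι) * (C * ε) := by
    rw [integral_add (hWi.const_mul _) (integrable_finsetSum _ fun j _ => hψp j), integral_const_mul, hW1,
      integral_finsetSum _ fun j _ => hψp j]
    have h1 : ∑ j, ∫ x : ι → ℝ, 2 * Cb * ∏ i, ψ j i (x i) ≤ ∑ _j : ι, 2 * Cb * (C * ε) := by
      refine Finset.sum_le_sum fun j _ => ?_
      rw [integral_const_mul]
      exact mul_le_mul_of_nonneg_left (hψint j) (by positivity)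
    rw [Finset.sum_const, nsmul_eq_mul, Finset.card_univ] at h1
    linarith
  linarith

private theorem Comb_unfold {ι : Type} [Fintype ι] [DecidableEq ι] (g : (ι → ℝ) → ℂ)
    (hg : Continuous g) (hgc : HasCompactSupport g) (R : ℕ)
    (hR : ∀ x, (∃ j, (R : ℝ) < |x j|) → g x = 0) (ε : ℝ) (hε : 0 < ε) :
    ∫ x : ι → ℝ, g x * ∏ j, (PK ε (x j) : ℂ) =
      ∑ k ∈ Fintype.piFinset (fun _ : ι => Finset.Icc (-(R + 1 : ℤ)) (R + 1)),
        ∫ x : ι → ℝ, g (x + fun j => (k j : ℝ)) * ∏ j, (Comb_phi ε (x j) : ℂ) := by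
  set K := Fintype.piFinset (fun _ : ι => Finset.Icc (-(R + 1 : ℤ)) (R + 1)) with hK
  set F : (ι → ℝ) → ℂ := fun x => g x * ∏ j, (PK ε (x j) : ℂ) with hF
  have hPc : Continuous (fun x : ι → ℝ => ∏ j, (PK ε (x j) : ℂ)) := by
    refine continuous_finsetProd _ fun j _ => ?_
    exact continuous_ofReal.comp ((PK_continuous ε hε).comp (continuous_apply j))
  have hFi : Integrable F := by
    refine (hg.mul hPc).integrable_of_hasCompactSupport ?_
    exact hgc.mul_right
  have hchi_m : Measurable Comb_chi := measurable_const.indicator measurableSet_Ioc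
  have hchi_b : ∀ t, ‖(Comb_chi t : ℂ)‖ ≤ 1 := by
    intro t
    rw [Complex.norm_real]
    unfold Comb_chi
    by_cases h : t ∈ Set.Ioc (-(1 / 2) : ℝ) (1 / 2)
    · rw [Set.indicator_of_mem h]; simp
    · rw [Set.indicator_of_notMem h]; simp
  have hdec : ∀ x, F x = ∑ k ∈ K, F x * ∏ j, (Comb_chi (x j - k j) : ℂ) := by
    intro x
    rw [← Finset.mul_sum]
    by_cases hx : ∃ j, (R : ℝ) < |x j|
    · simp only [hF]
      rw [hR x hx]
      simp
    · push Not at hx
      have h1 : ∑ k ∈ K, ∏ j, (Comb_chi (x j - k j) : ℂ) = 1 := by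
        have h2 := Finset.prod_univ_sum (fun _ : ι => Finset.Icc (-(R + 1 : ℤ)) (R + 1))
          (fun (j : ι) (n : ℤ) => (Comb_chi (x j - n) : ℂ))
        rw [← h2]
        refine Finset.prod_eq_one fun j _ => ?_
        rw [← Complex.ofReal_sum, Comb_chi_sum R (x j) (hx j), Complex.ofReal_one]
      rw [h1, mul_one]
  have hterm_i : ∀ k : ι → ℤ, Integrable (fun x : ι → ℝ => F x * ∏ j, (Comb_chi (x j - k j) : ℂ)) := by
    intro k
    refine hFi.mul_bdd (c := 1) ?_ (Eventually.of_forall fun x => ?_)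
    · refine Measurable.aestronglyMeasurable ?_
      refine Finset.measurable_fun_prod _ fun j _ => ?_
      refine Complex.measurable_ofReal.comp (hchi_m.comp ?_)
      exact (measurable_pi_apply j).sub_const _
    · rw [norm_prod]
      exact Finset.prod_le_one (fun _ _ => norm_nonneg _) fun j _ => hchi_b _
  have h1 : ∫ x, F x = ∑ k ∈ K, ∫ x : ι → ℝ, F x * ∏ j, (Comb_chi (x j - k j) : ℂ) := by
    rw [← integral_finsetSum _ fun k _ => hterm_i k]
    exact integral_congr_ae (Eventually.of_forall hdec)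
  rw [h1]
  refine Finset.sum_congr rfl fun k _ => ?_
  rw [← integral_add_right_eq_self (fun x : ι → ℝ => F x * ∏ j, (Comb_chi (x j - k j) : ℂ)) (fun j => (k j : ℝ))]
  refine integral_congr_ae (Eventually.of_forall fun x => ?_)
  simp only [hF, Pi.add_apply, add_sub_cancel_right]
  rw [mul_assoc, ← Finset.prod_mul_distrib]
  congr 1
  refine Finset.prod_congr rfl fun j _ => ?_
  rw [PK_add_int, Comb_phi_eq]
  push_cast
  rfl

theorem comb {ι : Type} [Fintype ι] [DecidableEq ι] (f : (ι → ℝ) → ℂ) (hf : Continuous f)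
    (hc : HasCompactSupport f) (M : ℕ) (hM : 1 ≤ M) (o : ι → ℝ) :
    Tendsto (fun ε : ℝ => (M : ℂ) ^ Fintype.card ι *
      ∫ a : ι → ℝ, f a * ∏ j, (PK ε (M * a j - o j) : ℂ)) (𝓝[>] 0)
      (𝓝 (∑' k : ι → ℤ, f (lp M o k))) := by
  have hM0 : (0 : ℝ) < M := by exact_mod_cast hM
  set g : (ι → ℝ) → ℂ := fun x => f (fun j => (x j + o j) / M) with hg
  have hgcont : Continuous g := by
    refine hf.comp (continuous_pi fun j => ?_)
    exact ((continuous_apply j).add continuous_const).div_const _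
  obtain ⟨Cb, hCb⟩ := hf.bounded_above_of_compact_support hc
  obtain ⟨r, hr⟩ := hc.isCompact.isBounded.subset_closedBall 0
  obtain ⟨R, hR⟩ := exists_nat_ge (M * |r| + ∑ j, |o j|)
  have hgR : ∀ x, (∃ j, (R : ℝ) < |x j|) → g x = 0 := by
    rintro x ⟨j, hj⟩
    simp only [hg]
    apply image_eq_zero_of_notMem_tsupport
    intro hmem
    have h1 := hr hmem
    rw [mem_closedBall_zero_iff] at h1
    have h2 := (norm_le_pi_norm (fun j => (x j + o j) / (M : ℝ)) j).trans h1
    simp only [Real.norm_eq_abs, abs_div, abs_of_pos hM0] at h2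
    rw [div_le_iff₀ hM0] at h2
    have h3 : |x j| ≤ |x j + o j| + |o j| := by
      have := abs_sub (x j + o j) (o j)
      rwa [add_sub_cancel_right] at this
    have h4 : |o j| ≤ ∑ j, |o j| := Finset.single_le_sum (f := fun j => |o j|) (fun i _ => abs_nonneg _) (Finset.mem_univ j)
    have h5 : r * (M : ℝ) ≤ M * |r| := by
      rw [mul_comm]
      exact mul_le_mul_of_nonneg_left (le_abs_self r) hM0.le
    linarith
  have hgcs : HasCompactSupport g := by
    refine HasCompactSupport.intro (isCompact_closedBall (0 : ι → ℝ) R) fun x hx => hgR x ?_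
    rw [mem_closedBall_zero_iff, not_le] at hx
    by_contra hne
    push Not at hne
    exact absurd hx (not_lt.2 ((pi_norm_le_iff_of_nonneg (by positivity)).2 hne))
  set K := Fintype.piFinset (fun _ : ι => Finset.Icc (-(R + 1 : ℤ)) (R + 1)) with hK
  -- the limit
  have hts : ∑' k : ι → ℤ, f (lp M o k) = ∑ k ∈ K, g (0 + fun j => (k j : ℝ)) := by
    rw [tsum_eq_sum (s := K)]
    · refine Finset.sum_congr rfl fun k _ => ?_
      simp only [hg, zero_add]
      rfl
    · intro k hk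
      have h1 : g (fun j => (k j : ℝ)) = 0 := by
        apply hgR
        simp only [hK, Fintype.mem_piFinset, not_forall] at hk
        obtain ⟨j, hj⟩ := hk
        refine ⟨j, ?_⟩
        rw [Finset.mem_Icc, not_and_or, not_le, not_le] at hj
        rw [lt_abs]
        rcases hj with hj | hj
        · right
          have : ((k j : ℤ) : ℝ) < ((-(R + 1 : ℤ) : ℤ) : ℝ) := by exact_mod_cast hj
          push_cast at this
          linarith
        · left
          have : (((R + 1 : ℤ) : ℤ) : ℝ) < (k j : ℝ) := by exact_mod_cast hj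
          push_cast at this
          linarith
      exact h1
  rw [hts]
  have hlim : Tendsto (fun ε : ℝ => ∑ k ∈ K, ∫ x : ι → ℝ, g (x + fun j => (k j : ℝ)) * ∏ j, (Comb_phi ε (x j) : ℂ))
      (𝓝[>] 0) (𝓝 (∑ k ∈ K, g (0 + fun j => (k j : ℝ)))) := by
    refine tendsto_finsetSum _ fun k _ => ?_
    exact Comb_main (fun x => g (x + fun j => (k j : ℝ))) (hgcont.comp (continuous_id.add continuous_const)) Cb
      fun x => hCb _
  refine hlim.congr' ?_
  filter_upwards [self_mem_nhdsWithin] with ε hε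
  rw [← Comb_unfold g hgcont hgcs R hgR ε hε]
  -- the substitution
  set G : (ι → ℝ) → ℂ := fun x => g x * ∏ j, (PK ε (x j) : ℂ) with hG
  have h1 : ∫ a : ι → ℝ, f a * ∏ j, (PK ε (M * a j - o j) : ℂ) = ∫ a : ι → ℝ, G ((M : ℝ) • a - o) := by
    refine integral_congr_ae (Eventually.of_forall fun a => ?_)
    simp only [hG, hg, Pi.sub_apply, Pi.smul_apply, smul_eq_mul, sub_add_cancel]
    congr 2
    funext j
    rw [mul_div_cancel_left₀ _ hM0.ne']
  have h2 := Measure.integral_comp_smul (volume : Measure (ι → ℝ)) (fun x => G (x - o)) (M : ℝ)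
  have h3 : ∫ x, G (x - o) = ∫ x, G x := integral_sub_right_eq_self G o
  rw [h1, h2, h3, Module.finrank_fintype_fun_eq_card, abs_of_nonneg (by positivity), Complex.real_smul]
  push_cast
  rw [← mul_assoc, mul_inv_cancel₀ (by exact_mod_cast (pow_ne_zero _ hM0.ne')), one_mul]

end Pool.Agent.H63.GO
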