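import Pool.Agent.H63.GO.PDefs
import Pool.Agent.H63.VC3.RealF

/-! # Monotonicity of the exponents in the block variables -/

namespace Pool.Agent.H63.GO

open Complex Filter Topology Pool.Agent.H63.VC Pool.Agent.H63.VC3

/-- The interval left of `y`. -/
private theorem FMono_left (y : ℝ) (h0 : 0 ≤ y) (h1 : y ≤ 1 / 2) :
    AntitoneOn (fun u => -Fr (y - u) - Fr (y + u)) (Set.Icc 0 y) := by
  have hpi := Real.pi_pos
  have hcont : Continuous (fun u => -Fr (y - u) - Fr (y + u)) :=
    ((Fr_continuous.comp (continuous_const.sub continuous_id)).neg).sub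
      (Fr_continuous.comp (continuous_const.add continuous_id))
  have hd : ∀ u ∈ Set.Ioo 0 y, HasDerivAt (fun u => -Fr (y - u) - Fr (y + u))
      (Real.log (2 * Real.sin (Real.pi * (y - u))) - Real.log (2 * Real.sin (Real.pi * (y + u)))) u := by
    intro u hu
    have d1 : HasDerivAt (fun u : ℝ => y - u) (-1) u := by
      simpa using (hasDerivAt_id u).const_sub y
    have d2 : HasDerivAt (fun u : ℝ => y + u) 1 u := by
      simpa using (hasDerivAt_id u).const_add y
    have e1 := (Fr_hasDerivAt (y - u) (by linarith [hu.2]) (by linarith [hu.1])).comp u d1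
    have e2 := (Fr_hasDerivAt (y + u) (by linarith [hu.1]) (by linarith [hu.2])).comp u d2
    refine (e1.neg.sub e2).congr_deriv ?_
    ring
  refine antitoneOn_of_deriv_nonpos (convex_Icc 0 y) hcont.continuousOn ?_ ?_
  · intro u hu
    rw [interior_Icc] at hu
    exact (hd u hu).differentiableAt.differentiableWithinAt
  · intro u hu
    rw [interior_Icc] at hu
    rw [(hd u hu).deriv, sub_nonpos]
    have s1 : 0 < Real.sin (Real.pi * (y - u)) := by
      apply Real.sin_pos_of_pos_of_lt_pi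
      · exact mul_pos hpi (by linarith [hu.2])
      · have : Real.pi * (y - u) < Real.pi * 1 := mul_lt_mul_of_pos_left (by linarith [hu.1]) hpi
        linarith
    have s2 : 0 ≤ 2 * Real.cos (Real.pi * y) * Real.sin (Real.pi * u) := by
      have c1 : 0 ≤ Real.cos (Real.pi * y) := by
        apply Real.cos_nonneg_of_neg_pi_div_two_le_of_le
        · have : 0 ≤ Real.pi * y := by positivity
          linarith
        · have : Real.pi * y ≤ Real.pi * (1 / 2) := mul_le_mul_of_nonneg_left h1 hpi.le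
          linarith
      have c2 : 0 ≤ Real.sin (Real.pi * u) := by
        apply Real.sin_nonneg_of_nonneg_of_le_pi
        · exact mul_nonneg hpi.le hu.1.le
        · have : Real.pi * u ≤ Real.pi * 1 := mul_le_mul_of_nonneg_left (by linarith [hu.2]) hpi.le
          linarith
      positivity
    refine Real.log_le_log (by positivity) ?_
    have e : Real.sin (Real.pi * (y + u)) - Real.sin (Real.pi * (y - u)) =
        2 * Real.cos (Real.pi * y) * Real.sin (Real.pi * u) := by
      rw [mul_add, mul_sub, Real.sin_add, Real.sin_sub]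
      ring
    linarith

/-- The interval right of `y`. -/
private theorem FMono_right (y : ℝ) (h0 : 0 ≤ y) (h1 : y ≤ 1 / 2) :
    AntitoneOn (fun u => -Fr (y - u) - Fr (y + u)) (Set.Icc y (1 / 2)) := by
  have hpi := Real.pi_pos
  have hcont : Continuous (fun u => -Fr (y - u) - Fr (y + u)) :=
    ((Fr_continuous.comp (continuous_const.sub continuous_id)).neg).sub
      (Fr_continuous.comp (continuous_const.add continuous_id))
  have hfun : (fun u => -Fr (y - u) - Fr (y + u)) = fun u => Fr (u - y) - Fr (y + u) := by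
    funext u
    rw [← Fr_neg]
    congr 2
    ring
  have hd : ∀ u ∈ Set.Ioo y (1 / 2), HasDerivAt (fun u => -Fr (y - u) - Fr (y + u))
      (Real.log (2 * Real.sin (Real.pi * (u - y))) - Real.log (2 * Real.sin (Real.pi * (y + u)))) u := by
    intro u hu
    rw [hfun]
    have d1 : HasDerivAt (fun u : ℝ => u - y) 1 u := by
      simpa using (hasDerivAt_id u).sub_const y
    have d2 : HasDerivAt (fun u : ℝ => y + u) 1 u := by
      simpa using (hasDerivAt_id u).const_add y
    have e1 := (Fr_hasDerivAt (u - y) (by linarith [hu.1]) (by linarith [hu.2])).comp u d1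
    have e2 := (Fr_hasDerivAt (y + u) (by linarith [hu.1]) (by linarith [hu.2])).comp u d2
    refine (e1.sub e2).congr_deriv ?_
    ring
  refine antitoneOn_of_deriv_nonpos (convex_Icc y (1 / 2)) hcont.continuousOn ?_ ?_
  · intro u hu
    rw [interior_Icc] at hu
    exact (hd u hu).differentiableAt.differentiableWithinAt
  · intro u hu
    rw [interior_Icc] at hu
    rw [(hd u hu).deriv, sub_nonpos]
    have s1 : 0 < Real.sin (Real.pi * (u - y)) := by
      apply Real.sin_pos_of_pos_of_lt_pi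
      · exact mul_pos hpi (by linarith [hu.1])
      · have : Real.pi * (u - y) < Real.pi * 1 := mul_lt_mul_of_pos_left (by linarith [hu.2]) hpi
        linarith
    have s2 : 0 ≤ 2 * Real.sin (Real.pi * y) * Real.cos (Real.pi * u) := by
      have c1 : 0 ≤ Real.cos (Real.pi * u) := by
        apply Real.cos_nonneg_of_neg_pi_div_two_le_of_le
        · have : 0 ≤ Real.pi * u := mul_nonneg hpi.le (by linarith [hu.1])
          linarith
        · have : Real.pi * u ≤ Real.pi * (1 / 2) := mul_le_mul_of_nonneg_left hu.2.le hpi.le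
          linarith
      have c2 : 0 ≤ Real.sin (Real.pi * y) := by
        apply Real.sin_nonneg_of_nonneg_of_le_pi
        · exact mul_nonneg hpi.le h0
        · have : Real.pi * y ≤ Real.pi * 1 := mul_le_mul_of_nonneg_left (by linarith) hpi.le
          linarith
      positivity
    refine Real.log_le_log (by positivity) ?_
    have e : Real.sin (Real.pi * (y + u)) - Real.sin (Real.pi * (u - y)) =
        2 * Real.sin (Real.pi * y) * Real.cos (Real.pi * u) := by
      rw [mul_add, mul_sub, Real.sin_add, Real.sin_sub]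
      ring
    linarith

/-- `- F(y - u) - F(y + u)` decreases in `u`. -/
theorem Fr_mono3 (y u u' : ℝ) (h0 : 0 ≤ y) (h1 : y ≤ 1 / 2) (hu : 0 ≤ u) (huu : u ≤ u')
    (hu' : u' ≤ 1 / 2) :
    -Fr (y - u') - Fr (y + u') ≤ -Fr (y - u) - Fr (y + u) := by
  have hl := FMono_left y h0 h1
  have hr := FMono_right y h0 h1
  rcases le_total u' y with h | h
  · exact hl ⟨hu, huu.trans h⟩ ⟨hu.trans huu, h⟩ huu
  · rcases le_total u y with h' | h'
    · have e1 := hl ⟨hu, h'⟩ ⟨h0, le_rfl⟩ h'
      have e2 := hr ⟨le_rfl, h1⟩ ⟨h, hu'⟩ h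
      exact le_trans e2 e1
    · exact hr ⟨h', huu.trans hu'⟩ ⟨h, hu'⟩ huu

/-- `- F(x/2 - u) - F(x/2 + u)` decreases in `u`. -/
theorem Fr_mono2 (x u u' : ℝ) (h0 : 0 ≤ x) (h1 : x ≤ 1) (hu : 0 ≤ u) (huu : u ≤ u')
    (hu' : u' ≤ x / 2) :
    -Fr (x / 2 - u') - Fr (x / 2 + u') ≤ -Fr (x / 2 - u) - Fr (x / 2 + u) :=
  Fr_mono3 (x / 2) u u' (by linarith) (by linarith) hu huu (by linarith)

/-- The exponent is even in the block variable. -/
private theorem FMono_abs (y z : ℝ) : -Fr (y - z) - Fr (y + z) = -Fr (y - |z|) - Fr (y + |z|) := by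
  rcases abs_cases z with ⟨h, -⟩ | ⟨h, -⟩
  · rw [h]
  · rw [h, sub_neg_eq_add, ← sub_eq_add_neg]
    ring

/-- A block with at least three full twists. -/
private theorem FMono_blk3 (x z c : ℝ) (h0 : 1 / 2 ≤ x) (h1 : x ≤ 1) (hc : 0 ≤ c) (hz : c ≤ |z|)
    (hd1 : -(1 / 2) ≤ z) (hd2 : z ≤ x - 1 / 2) :
    Fr x - Fr (x - 1 / 2 - z) - Fr (x - 1 / 2 + z) ≤
      Fr x - (Fr (x - 1 / 2 - c) + Fr (x - 1 / 2 + c)) := by
  have h := Fr_mono3 (x - 1 / 2) c |z| (by linarith) (by linarith) hc hz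
    (abs_le.2 ⟨by linarith, by linarith⟩)
  have e := FMono_abs (x - 1 / 2) z
  linarith

/-- A block with two full twists. -/
private theorem FMono_blk2 (x z c : ℝ) (h0 : 1 / 2 ≤ x) (h1 : x ≤ 1) (hc : 0 ≤ c) (hz : c ≤ |z - x / 2|)
    (hd1 : 0 ≤ z) (hd2 : z ≤ x) :
    Fr x - Fr z - Fr (x - z) ≤ Fr x - (Fr (x / 2 - c) + Fr (x / 2 + c)) := by
  have h := Fr_mono2 x c |z - x / 2| (by linarith) (by linarith) hc hz
    (abs_le.2 ⟨by linarith, by linarith⟩)
  have e := FMono_abs (x / 2) (z - x / 2)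
  have e1 : x / 2 - (z - x / 2) = x - z := by ring
  have e2 : x / 2 + (z - x / 2) = z := by ring
  rw [e1, e2] at e
  linarith

/-- Bound of a block in the domain. -/
theorem EB_le (r : ℤ) (x z : ℝ) (h0 : 1 / 2 ≤ x) (h1 : x ≤ 1) (hd : DB r x z) :
    EB r x z ≤ Fr x - (if 3 ≤ |r| then 2 * Fr (x - 1 / 2) else 2 * Fr (x / 2)) := by
  unfold EB
  unfold DB at hd
  by_cases hr : 3 ≤ |r|
  · rw [if_pos hr] at hd ⊢
    rw [if_pos hr]
    have h := FMono_blk3 x z 0 h0 h1 le_rfl (abs_nonneg z) hd.1 hd.2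
    rw [sub_zero, add_zero] at h
    linarith
  · rw [if_neg hr] at hd ⊢
    rw [if_neg hr]
    have h := FMono_blk2 x z 0 h0 h1 le_rfl (abs_nonneg _) hd.1 hd.2
    rw [sub_zero, add_zero] at h
    linarith

/-- Bound of a block outside of the wall. -/
theorem EB_wall (r : ℤ) (x z : ℝ) (h0 : 1 / 2 ≤ x) (h1 : x ≤ 1) (hd : DB r x z)
    (hw : if 3 ≤ |r| then 87 / 100 * (x - 1 / 2) ≤ |z| else 41 / 100 * x ≤ |z - x / 2|) :
    EB r x z ≤ Fr x - (if 3 ≤ |r| then Fr (13 / 100 * (x - 1 / 2)) + Fr (187 / 100 * (x - 1 / 2))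
      else Fr (9 / 100 * x) + Fr (91 / 100 * x)) := by
  unfold EB
  unfold DB at hd
  by_cases hr : 3 ≤ |r|
  · rw [if_pos hr] at hd hw ⊢
    rw [if_pos hr]
    have h := FMono_blk3 x z (87 / 100 * (x - 1 / 2)) h0 h1 (by linarith) hw hd.1 hd.2
    have e1 : x - 1 / 2 - 87 / 100 * (x - 1 / 2) = 13 / 100 * (x - 1 / 2) := by ring
    have e2 : x - 1 / 2 + 87 / 100 * (x - 1 / 2) = 187 / 100 * (x - 1 / 2) := by ring
    rwa [e1, e2] at h
  · rw [if_neg hr] at hd hw ⊢
    rw [if_neg hr]
    have h := FMono_blk2 x z (41 / 100 * x) h0 h1 (by linarith) hw hd.1 hd.2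
    have e1 : x / 2 - 41 / 100 * x = 9 / 100 * x := by ring
    have e2 : x / 2 + 41 / 100 * x = 91 / 100 * x := by ring
    rwa [e1, e2] at h

/-- The maximum of `F`. -/
private theorem FMono_max : Fr (5 / 6) ≤ 33 / 200 := by
  have hpi := Real.pi_pos
  have hpi1 := Real.pi_gt_d2
  have hpi2 := Real.pi_lt_d4
  obtain ⟨Q, hQ⟩ : ∃ Q : ℝ → ℝ, Q = fun u => 1 / (2 * Real.pi) * (2 * Real.pi * u * Real.log (2 * Real.pi * u)) - u
      - 9 / 10 * u ^ 3 := ⟨_, rfl⟩
  have hQc : Continuous Q := by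
    rw [hQ]
    have h1 : Continuous fun u : ℝ => 2 * Real.pi * u * Real.log (2 * Real.pi * u) :=
      Real.continuous_mul_log.comp (continuous_const.mul continuous_id)
    exact ((continuous_const.mul h1).sub continuous_id).sub (continuous_const.mul (continuous_id.pow 3))
  have hQd : ∀ u : ℝ, 0 < u → HasDerivAt Q (Real.log (2 * Real.pi * u) - 27 / 10 * u ^ 2) u := by
    intro u hu
    rw [hQ]
    have hv : 2 * Real.pi * u ≠ 0 := by positivity
    have d0 : HasDerivAt (fun u : ℝ => 2 * Real.pi * u) (2 * Real.pi) u := by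
      simpa using (hasDerivAt_id u).const_mul (2 * Real.pi)
    have d1 := (Real.hasDerivAt_mul_log hv).comp u d0
    have d2 := ((d1.const_mul (1 / (2 * Real.pi))).sub (hasDerivAt_id u)).sub ((hasDerivAt_pow 3 u).const_mul (9 / 10))
    refine d2.congr_deriv ?_
    field_simp
    ring
  have hmono : MonotoneOn (fun u => Fr u - Q u) (Set.Icc 0 (1 / 6)) := by
    have hd : ∀ u ∈ Set.Ioo (0 : ℝ) (1 / 6), HasDerivAt (fun u => Fr u - Q u)
        (Real.log (2 * Real.sin (Real.pi * u)) - (Real.log (2 * Real.pi * u) - 27 / 10 * u ^ 2)) u :=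
      fun u hu => (Fr_hasDerivAt u hu.1 (by linarith [hu.2])).sub (hQd u hu.1)
    refine monotoneOn_of_deriv_nonneg (convex_Icc _ _) (Fr_continuous.sub hQc).continuousOn ?_ ?_
    · intro u hu
      rw [interior_Icc] at hu
      exact (hd u hu).differentiableAt.differentiableWithinAt
    · intro u hu
      rw [interior_Icc] at hu
      rw [(hd u hu).deriv]
      obtain ⟨h1, h2⟩ := hu
      obtain ⟨t, ht⟩ : ∃ t, t = Real.pi * u := ⟨_, rfl⟩
      have ht0 : 0 < t := by rw [ht]; positivity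
      have ht1 : t ≤ 53 / 100 := by
        rw [ht]
        calc Real.pi * u ≤ Real.pi * (1 / 6) := mul_le_mul_of_nonneg_left h2.le hpi.le
          _ ≤ 53 / 100 := by linarith
      have hs := Real.sin_gt_sub_cube ht0
      have ht2 : t ^ 2 ≤ 3 / 10 := by
        have := pow_le_pow_left₀ ht0.le ht1 2
        linarith [show ((53 / 100 : ℝ)) ^ 2 ≤ 3 / 10 by norm_num]
      have hp : 0 < 1 - t ^ 2 / 6 := by linarith
      have e1 : t - t ^ 3 / 6 = t * (1 - t ^ 2 / 6) := by ring
      rw [e1] at hs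
      have l1 : Real.log (2 * (t * (1 - t ^ 2 / 6))) ≤ Real.log (2 * Real.sin t) :=
        Real.log_le_log (by positivity) (by linarith)
      have e2 : (2 : ℝ) * (t * (1 - t ^ 2 / 6)) = (2 * t) * (1 - t ^ 2 / 6) := by ring
      rw [e2, Real.log_mul (by positivity) hp.ne'] at l1
      have l2 := Real.one_sub_inv_le_log_of_pos hp
      have l3 : -(27 / 100 * t ^ 2) ≤ 1 - (1 - t ^ 2 / 6)⁻¹ := by
        have : (1 - t ^ 2 / 6)⁻¹ ≤ 1 + 27 / 100 * t ^ 2 := by
          rw [inv_le_iff_one_le_mul₀ hp]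
          nlinarith [sq_nonneg t]
        linarith
      have e3 : t ^ 2 ≤ 10 * u ^ 2 := by
        rw [ht, mul_pow]
        refine mul_le_mul_of_nonneg_right ?_ (by positivity)
        have : Real.pi ^ 2 ≤ (3.1416 : ℝ) ^ 2 := pow_le_pow_left₀ hpi.le hpi2.le 2
        linarith [show ((3.1416 : ℝ)) ^ 2 ≤ 10 by norm_num]
      have e4 : 2 * Real.pi * u = 2 * t := by rw [ht]; ring
      rw [e4, ← ht]
      linarith
  have hm := hmono (show (0 : ℝ) ∈ Set.Icc (0 : ℝ) (1 / 6) by norm_num) (show (1 / 6 : ℝ) ∈ Set.Icc (0 : ℝ) (1 / 6) by norm_num)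
    (by norm_num)
  have hQ0 : Q 0 = 0 := by rw [hQ]; simp
  have hQ6 : Q (1 / 6) = 1 / 6 * Real.log (Real.pi / 3) - 1 / 6 - 1 / 240 := by
    rw [hQ]
    have e : 2 * Real.pi * (1 / 6) = Real.pi / 3 := by ring
    simp only [e]
    field_simp
    ring
  have hlog : 1 - 3 / Real.pi ≤ Real.log (Real.pi / 3) := by
    have := Real.one_sub_inv_le_log_of_pos (show 0 < Real.pi / 3 by positivity)
    rwa [inv_div] at this
  have h3 : 3 / Real.pi ≤ 96 / 100 := by
    rw [div_le_iff₀ hpi]
    linarith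
  have hfr : Fr (5 / 6) = -Fr (1 / 6) := by
    have := Fr_add_one (-(1 / 6))
    rw [Fr_neg] at this
    rw [← this]
    congr 1
    norm_num
  simp only [Fr_zero, hQ0, hQ6] at hm
  rw [hfr]
  linarith

/-- Small `x`. -/
theorem EE_small (r1 r2 : ℤ) (a : Fin 3 → ℝ) (h0 : 0 ≤ a 0) (h1 : a 0 ≤ 1 / 2) :
    EE r1 r2 a ≤ 66 / 100 := by
  have hx := Fr_nonpos (a 0) h0 h1
  have hmax := FMono_max
  have hB : ∀ (r : ℤ) (z : ℝ), EB r (a 0) z ≤ 2 * Fr (5 / 6) := by
    intro r z
    unfold EB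
    split_ifs
    · have e1 := Fr_ge (a 0 - 1 / 2 - z)
      have e2 := Fr_ge (a 0 - 1 / 2 + z)
      linarith
    · have e1 := Fr_ge z
      have e2 := Fr_ge (a 0 - z)
      linarith
  have b1 := hB r1 (a 1)
  have b2 := hB r2 (a 2)
  unfold EE
  linarith

end Pool.Agent.H63.GO
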