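import Pool.Agent.H63.VC3.RealF

/-! # Numerical values of `Fr` -/

namespace Pool.Agent.H63.GO

open Complex Filter Topology Pool.Agent.H63.VC Pool.Agent.H63.VC3

/-- The Taylor polynomial of `Fr`. -/
noncomputable def Ft (a : ℝ) : ℝ :=
  a * Real.log (2 * Real.pi * a) - a - Real.pi ^ 2 * a ^ 3 / 18 - Real.pi ^ 4 * a ^ 5 / 900 -
    Real.pi ^ 6 * a ^ 7 / 19845

private theorem FNum_b6 : bernoulli' 6 = 1 / 42 := by
  have h3 : bernoulli' 3 = 0 := bernoulli'_eq_zero_of_odd (by decide) (by norm_num)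
  have h5 : bernoulli' 5 = 0 := bernoulli'_eq_zero_of_odd (by decide) (by norm_num)
  rw [bernoulli'_def]
  simp only [Finset.sum_range_succ, Finset.sum_range_zero, bernoulli'_zero, bernoulli'_one,
    bernoulli'_two, h3, bernoulli'_four, h5]
  norm_num [Nat.choose]

private theorem FNum_zeta6 : HasSum (fun n : ℕ => (1 : ℝ) / (n : ℝ) ^ 6) (Real.pi ^ 6 / 945) := by
  have h := hasSum_zeta_nat (k := 3) (by norm_num)
  have e : (-1 : ℝ) ^ (3 + 1) * (2 : ℝ) ^ (2 * 3 - 1) * Real.pi ^ (2 * 3) * bernoulli (2 * 3) / ((2 * 3).factorial : ℝ) =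
      Real.pi ^ 6 / 945 := by
    rw [show 2 * 3 = 6 by norm_num, bernoulli_eq_bernoulli'_of_ne_one (by decide), FNum_b6]
    norm_num [Nat.factorial]
    ring
  rw [e] at h
  exact h

private theorem FNum_shift {k : ℕ} (hk : k ≠ 0) {z : ℝ} (h : HasSum (fun n : ℕ => (1 : ℝ) / (n : ℝ) ^ k) z) :
    Tendsto (fun n : ℕ => ∑ j ∈ Finset.range n, 1 / ((j : ℝ) + 1) ^ k) atTop (𝓝 z) := by
  have h1 := (h.tendsto_sum_nat).comp (tendsto_add_atTop_nat 1)
  refine h1.congr fun n => ?_
  simp only [Function.comp_apply]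
  rw [Finset.sum_range_succ']
  simp only [Nat.cast_zero, zero_pow hk, div_zero, add_zero, Nat.cast_add, Nat.cast_one]

private theorem FNum_shift_le {k : ℕ} (hk : k ≠ 0) {z : ℝ} (h : HasSum (fun n : ℕ => (1 : ℝ) / (n : ℝ) ^ k) z) (n : ℕ) :
    ∑ j ∈ Finset.range n, 1 / ((j : ℝ) + 1) ^ k ≤ z := by
  have hm : Monotone (fun n : ℕ => ∑ j ∈ Finset.range n, 1 / ((j : ℝ) + 1) ^ k) := by
    intro a b hab
    exact Finset.sum_le_sum_of_subset_of_nonneg (Finset.range_mono hab) fun _ _ _ => by positivity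
  exact hm.ge_of_tendsto (FNum_shift hk h) n

private theorem FNum_rho (u : ℝ) (h0 : 0 ≤ u) (h1 : u ≤ 1 / 4) :
    0 ≤ -Real.log (1 - u) - u - u ^ 2 / 2 - u ^ 3 / 3 ∧
      -Real.log (1 - u) - u - u ^ 2 / 2 - u ^ 3 / 3 ≤ u ^ 4 * (212 / 640) := by
  have h := Real.abs_log_sub_add_sum_range_le (x := u) (by rw [abs_of_nonneg h0]; linarith) 6
  rw [abs_of_nonneg h0] at h
  simp only [Finset.sum_range_succ, Finset.sum_range_zero] at h
  norm_num at h
  have h2 : u ^ 7 / (1 - u) ≤ u ^ 4 * (1 / 48) := by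
    rw [div_le_iff₀ (by linarith)]
    have h3 : u ^ 3 ≤ 1 / 64 := by
      calc u ^ 3 ≤ (1 / 4) ^ 3 := pow_le_pow_left₀ h0 h1 3
        _ = 1 / 64 := by norm_num
    have h4 : 0 ≤ u ^ 4 := by positivity
    have h5 : u ^ 7 = u ^ 4 * u ^ 3 := by ring
    rw [h5, mul_assoc]
    refine mul_le_mul_of_nonneg_left ?_ h4
    nlinarith
  rw [abs_le] at h
  obtain ⟨ha, hb⟩ := h
  have h4 : 0 ≤ u ^ 4 := by positivity
  have h5 : 0 ≤ u ^ 5 := by positivity
  have h6 : 0 ≤ u ^ 6 := by positivity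
  have h7 : u ^ 5 ≤ u ^ 4 * (1 / 4) := by nlinarith
  have h8 : u ^ 6 ≤ u ^ 4 * (1 / 16) := by nlinarith
  constructor
  · linarith
  · linarith

private theorem FNum_R (a : ℝ) (h0 : 0 < a) (h1 : a ≤ 1 / 2) :
    0 ≤ Real.log (Real.pi * a) - Real.log (Real.sin (Real.pi * a)) - Real.pi ^ 2 * a ^ 2 / 6 - Real.pi ^ 4 * a ^ 4 / 180 -
        Real.pi ^ 6 * a ^ 6 / 2835 ∧
      Real.log (Real.pi * a) - Real.log (Real.sin (Real.pi * a)) - Real.pi ^ 2 * a ^ 2 / 6 - Real.pi ^ 4 * a ^ 4 / 180 -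
        Real.pi ^ 6 * a ^ 6 / 2835 ≤ 9 * a ^ 8 / 25 := by
  have hpi := Real.pi_pos
  set u : ℕ → ℝ := fun j => a ^ 2 / ((j : ℝ) + 1) ^ 2 with hu
  have hu0 : ∀ j, 0 ≤ u j := fun j => by simp only [hu]; positivity
  have hu1 : ∀ j, u j ≤ 1 / 4 := by
    intro j
    simp only [hu]
    rw [div_le_iff₀ (by positivity)]
    have hj : (0 : ℝ) ≤ j := Nat.cast_nonneg j
    nlinarith
  have hsin : 0 < Real.sin (Real.pi * a) := Real.sin_pos_of_pos_of_lt_pi (by positivity) (by nlinarith)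
  -- the logarithm of the product
  have hprod := Real.tendsto_euler_sin_prod a
  have hlog : Tendsto (fun n : ℕ => ∑ j ∈ Finset.range n, Real.log (1 - u j)) atTop
      (𝓝 (Real.log (Real.sin (Real.pi * a)) - Real.log (Real.pi * a))) := by
    have h3 := (Real.continuousAt_log hsin.ne').tendsto.comp hprod
    have h4 := h3.sub_const (Real.log (Real.pi * a))
    refine h4.congr fun n => ?_
    simp only [Function.comp_apply]
    have hne : ∀ j ∈ Finset.range n, (1 : ℝ) - a ^ 2 / ((j : ℝ) + 1) ^ 2 ≠ 0 := by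
      intro j _
      have := hu1 j
      simp only [hu] at this
      linarith
    rw [Real.log_mul (by positivity) (Finset.prod_ne_zero_iff.2 hne), Real.log_prod hne]
    ring
  have hs2 : Tendsto (fun n : ℕ => ∑ j ∈ Finset.range n, u j) atTop (𝓝 (a ^ 2 * (Real.pi ^ 2 / 6))) := by
    have h3 := (FNum_shift (by norm_num) hasSum_zeta_two).const_mul (a ^ 2)
    refine h3.congr fun n => ?_
    rw [Finset.mul_sum]
    refine Finset.sum_congr rfl fun j _ => ?_
    simp only [hu]
    rw [mul_one_div]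
  have hs4 : Tendsto (fun n : ℕ => ∑ j ∈ Finset.range n, u j ^ 2 / 2) atTop (𝓝 (a ^ 4 / 2 * (Real.pi ^ 4 / 90))) := by
    have h3 := (FNum_shift (by norm_num) hasSum_zeta_four).const_mul (a ^ 4 / 2)
    refine h3.congr fun n => ?_
    rw [Finset.mul_sum]
    refine Finset.sum_congr rfl fun j _ => ?_
    simp only [hu]
    rw [div_pow, ← pow_mul, ← pow_mul]
    field_simp
    ring
  have hs6 : Tendsto (fun n : ℕ => ∑ j ∈ Finset.range n, u j ^ 3 / 3) atTop (𝓝 (a ^ 6 / 3 * (Real.pi ^ 6 / 945))) := by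
    have h3 := (FNum_shift (by norm_num) FNum_zeta6).const_mul (a ^ 6 / 3)
    refine h3.congr fun n => ?_
    rw [Finset.mul_sum]
    refine Finset.sum_congr rfl fun j _ => ?_
    simp only [hu]
    rw [div_pow, ← pow_mul, ← pow_mul]
    field_simp
    ring
  set ρ : ℝ → ℝ := fun u => -Real.log (1 - u) - u - u ^ 2 / 2 - u ^ 3 / 3 with hρ
  have hlim : Tendsto (fun n : ℕ => ∑ j ∈ Finset.range n, ρ (u j)) atTop
      (𝓝 (Real.log (Real.pi * a) - Real.log (Real.sin (Real.pi * a)) - Real.pi ^ 2 * a ^ 2 / 6 - Real.pi ^ 4 * a ^ 4 / 180 -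
        Real.pi ^ 6 * a ^ 6 / 2835)) := by
    have h3 := ((hlog.neg.sub hs2).sub hs4).sub hs6
    have e1 : -(Real.log (Real.sin (Real.pi * a)) - Real.log (Real.pi * a)) - a ^ 2 * (Real.pi ^ 2 / 6) -
        a ^ 4 / 2 * (Real.pi ^ 4 / 90) - a ^ 6 / 3 * (Real.pi ^ 6 / 945) =
        Real.log (Real.pi * a) - Real.log (Real.sin (Real.pi * a)) - Real.pi ^ 2 * a ^ 2 / 6 - Real.pi ^ 4 * a ^ 4 / 180 -
        Real.pi ^ 6 * a ^ 6 / 2835 := by ring
    rw [e1] at h3
    refine h3.congr fun n => ?_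
    simp only [hρ]
    rw [Finset.sum_sub_distrib, Finset.sum_sub_distrib, Finset.sum_sub_distrib, Finset.sum_neg_distrib]
  constructor
  · refine ge_of_tendsto' hlim fun n => ?_
    exact Finset.sum_nonneg fun j _ => (FNum_rho (u j) (hu0 j) (hu1 j)).1
  · refine le_of_tendsto' hlim fun n => ?_
    have h3 : ∑ j ∈ Finset.range n, ρ (u j) ≤ a ^ 8 * (212 / 640) * ∑ j ∈ Finset.range n, 1 / ((j : ℝ) + 1) ^ 6 := by
      rw [Finset.mul_sum]
      refine Finset.sum_le_sum fun j _ => ?_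
      refine (FNum_rho (u j) (hu0 j) (hu1 j)).2.trans ?_
      simp only [hu]
      rw [div_pow, ← pow_mul, ← pow_mul]
      have hj : (0 : ℝ) ≤ j := Nat.cast_nonneg j
      have h6 : ((j : ℝ) + 1) ^ 6 ≤ ((j : ℝ) + 1) ^ 8 := pow_le_pow_right₀ (by linarith) (by norm_num)
      have h7 : 1 / ((j : ℝ) + 1) ^ 8 ≤ 1 / ((j : ℝ) + 1) ^ 6 := one_div_le_one_div_of_le (by positivity) h6
      have h8 : a ^ (2 * 4) / ((j : ℝ) + 1) ^ (2 * 4) * (212 / 640) = a ^ 8 * (212 / 640) * (1 / ((j : ℝ) + 1) ^ 8) := by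
        norm_num
        ring
      rw [h8]
      exact mul_le_mul_of_nonneg_left h7 (by positivity)
    have h4 := FNum_shift_le (by norm_num) FNum_zeta6 n
    have hpi2 : Real.pi ^ 6 / 945 ≤ 108 / 100 := by
      have h5 : Real.pi ≤ 3.1416 := Real.pi_lt_d4.le
      have h6 : Real.pi ^ 6 ≤ 3.1416 ^ 6 := pow_le_pow_left₀ hpi.le h5 6
      norm_num at h6 ⊢
      linarith
    have h5 : a ^ 8 * (212 / 640) * ∑ j ∈ Finset.range n, 1 / ((j : ℝ) + 1) ^ 6 ≤ a ^ 8 * (212 / 640) * (108 / 100) :=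
      mul_le_mul_of_nonneg_left (h4.trans hpi2) (by positivity)
    have h6 : 0 ≤ a ^ 8 := by positivity
    have h7 : a ^ 8 * (212 / 640) * (108 / 100) ≤ 9 * a ^ 8 / 25 := by nlinarith
    linarith

private theorem FNum_Ft_cont : Continuous Ft := by
  have h : Ft = fun a => (2 * Real.pi * a) * Real.log (2 * Real.pi * a) / (2 * Real.pi) - a - Real.pi ^ 2 * a ^ 3 / 18 -
      Real.pi ^ 4 * a ^ 5 / 900 - Real.pi ^ 6 * a ^ 7 / 19845 := by
    funext a
    unfold Ft
    have : Real.pi ≠ 0 := Real.pi_ne_zero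
    field_simp
  rw [h]
  have h1 : Continuous (fun a : ℝ => (2 * Real.pi * a) * Real.log (2 * Real.pi * a)) :=
    Real.continuous_mul_log.comp (continuous_const.mul continuous_id)
  fun_prop

private theorem FNum_Ft_der (a : ℝ) (h0 : 0 < a) :
    HasDerivAt Ft (Real.log (2 * Real.pi * a) - Real.pi ^ 2 * a ^ 2 / 6 - Real.pi ^ 4 * a ^ 4 / 180 -
        Real.pi ^ 6 * a ^ 6 / 2835) a := by
  have hpi := Real.pi_pos
  have h1 : HasDerivAt (fun a : ℝ => 2 * Real.pi * a) (2 * Real.pi) a := by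
    simpa using (hasDerivAt_id a).const_mul (2 * Real.pi)
  have h2 : HasDerivAt (fun a : ℝ => Real.log (2 * Real.pi * a)) (2 * Real.pi / (2 * Real.pi * a)) a :=
    h1.log (by positivity)
  have h3 := (hasDerivAt_id a).mul h2
  have h4 := (((h3.sub (hasDerivAt_id a)).sub (((hasDerivAt_pow 3 a).const_mul (Real.pi ^ 2)).div_const 18)).sub
    (((hasDerivAt_pow 5 a).const_mul (Real.pi ^ 4)).div_const 900)).sub (((hasDerivAt_pow 7 a).const_mul (Real.pi ^ 6)).div_const 19845)
  unfold Ft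
  refine h4.congr_deriv ?_
  simp only [id]
  field_simp
  ring

theorem Fr_num (a : ℝ) (h0 : 0 < a) (h1 : a ≤ 1 / 2) :
    Ft a - a ^ 9 / 25 ≤ Fr a ∧ Fr a ≤ Ft a := by
  have hmain : ∀ x ∈ Set.Ioo (0 : ℝ) (1 / 2), HasDerivAt (fun x => Ft x - Fr x)
      ((Real.log (Real.pi * x) - Real.log (Real.sin (Real.pi * x)) - Real.pi ^ 2 * x ^ 2 / 6 - Real.pi ^ 4 * x ^ 4 / 180 -
        Real.pi ^ 6 * x ^ 6 / 2835)) x := by
    intro x hx
    have hpi := Real.pi_pos
    have hsin : 0 < Real.sin (Real.pi * x) := Real.sin_pos_of_pos_of_lt_pi (mul_pos hpi hx.1) (by nlinarith [hx.2])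
    have h3 := (FNum_Ft_der x hx.1).sub (Fr_hasDerivAt x hx.1 (by linarith [hx.2]))
    refine h3.congr_deriv ?_
    rw [Real.log_mul (by norm_num) hsin.ne', mul_assoc 2 Real.pi x, Real.log_mul (by norm_num) (mul_pos hpi hx.1).ne']
    ring
  have hFt0 : Ft 0 = 0 := by
    unfold Ft
    simp
  constructor
  · have hmono : MonotoneOn (fun x => x ^ 9 / 25 - (Ft x - Fr x)) (Set.Icc 0 (1 / 2)) := by
      apply monotoneOn_of_deriv_nonneg (convex_Icc _ _)
      · exact (((continuous_pow 9).div_const 25).sub (FNum_Ft_cont.sub Fr_continuous)).continuousOn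
      · intro x hx
        rw [interior_Icc] at hx
        exact ((((hasDerivAt_pow 9 x).div_const 25)).sub (hmain x hx)).differentiableAt.differentiableWithinAt
      · intro x hx
        rw [interior_Icc] at hx
        have hd : HasDerivAt (fun x => x ^ 9 / 25 - (Ft x - Fr x)) _ x := ((hasDerivAt_pow 9 x).div_const 25).sub (hmain x hx)
        rw [hd.deriv]
        have := (FNum_R x hx.1 hx.2.le).2
        norm_num
        linarith
    have h3 := hmono (Set.left_mem_Icc.2 (by norm_num)) ⟨h0.le, h1⟩ h0.le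
    simp only [hFt0, Fr_zero] at h3
    norm_num at h3
    linarith
  · have hmono : MonotoneOn (fun x => Ft x - Fr x) (Set.Icc 0 (1 / 2)) := by
      apply monotoneOn_of_deriv_nonneg (convex_Icc _ _)
      · exact (FNum_Ft_cont.sub Fr_continuous).continuousOn
      · intro x hx
        rw [interior_Icc] at hx
        exact (hmain x hx).differentiableAt.differentiableWithinAt
      · intro x hx
        rw [interior_Icc] at hx
        rw [(hmain x hx).deriv]
        exact (FNum_R x hx.1 hx.2.le).1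
    have h3 := hmono (Set.left_mem_Icc.2 (by norm_num)) ⟨h0.le, h1⟩ h0.le
    simp only [hFt0, Fr_zero, sub_zero] at h3
    linarith

/-- `Fr` is concave on `[1/2, 1]`: tangents. -/
theorem Fr_tan_right (x x0 : ℝ) (h0 : 1 / 2 ≤ x) (h1 : x ≤ 1) (h2 : 1 / 2 ≤ x0) (h3 : x0 < 1) :
    Fr x ≤ Fr x0 + Real.log (2 * Real.sin (Real.pi * x0)) * (x - x0) := by
  have hpi := Real.pi_pos
  set c := Real.log (2 * Real.sin (Real.pi * x0)) with hc
  have hpos : ∀ y : ℝ, 1 / 2 ≤ y → y < 1 → 0 < Real.sin (Real.pi * y) := fun y hy hy1 =>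
    Real.sin_pos_of_pos_of_lt_pi (by nlinarith) (by nlinarith)
  have hle : ∀ y z : ℝ, 1 / 2 ≤ y → y ≤ z → z < 1 → Real.log (2 * Real.sin (Real.pi * z)) ≤ Real.log (2 * Real.sin (Real.pi * y)) := by
    intro y z hy hyz hz
    apply Real.log_le_log (by linarith [hpos z (hy.trans hyz) hz])
    have h4 : Real.sin (Real.pi * z) ≤ Real.sin (Real.pi * y) := by
      rw [← Real.sin_pi_sub (Real.pi * z), ← Real.sin_pi_sub (Real.pi * y)]
      apply Real.sin_le_sin_of_le_of_le_pi_div_two <;> nlinarith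
    linarith
  have hder : ∀ y : ℝ, 1 / 2 ≤ y → y < 1 → HasDerivAt (fun y => Fr x0 + c * (y - x0) - Fr y)
      (c - Real.log (2 * Real.sin (Real.pi * y))) y := by
    intro y hy hy1
    have h4 := (((((hasDerivAt_id y).sub_const x0).const_mul c).const_add (Fr x0))).sub (Fr_hasDerivAt y (by linarith) hy1)
    refine h4.congr_deriv ?_
    ring
  have hcont : Continuous (fun y => Fr x0 + c * (y - x0) - Fr y) := by
    have := Fr_continuous
    fun_prop
  rcases le_total x0 x with h | h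
  · have hmono : MonotoneOn (fun y => Fr x0 + c * (y - x0) - Fr y) (Set.Icc x0 1) := by
      apply monotoneOn_of_deriv_nonneg (convex_Icc _ _) hcont.continuousOn
      · intro y hy
        rw [interior_Icc] at hy
        exact (hder y (by linarith [hy.1]) hy.2).differentiableAt.differentiableWithinAt
      · intro y hy
        rw [interior_Icc] at hy
        rw [(hder y (by linarith [hy.1]) hy.2).deriv]
        linarith [hle x0 y h2 hy.1.le hy.2]
    have h4 := hmono (Set.left_mem_Icc.2 h3.le) ⟨h, h1⟩ h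
    simp only [sub_self, mul_zero, add_zero] at h4
    linarith
  · have hanti : AntitoneOn (fun y => Fr x0 + c * (y - x0) - Fr y) (Set.Icc (1 / 2) x0) := by
      apply antitoneOn_of_deriv_nonpos (convex_Icc _ _) hcont.continuousOn
      · intro y hy
        rw [interior_Icc] at hy
        exact (hder y hy.1.le (by linarith [hy.2])).differentiableAt.differentiableWithinAt
      · intro y hy
        rw [interior_Icc] at hy
        rw [(hder y hy.1.le (by linarith [hy.2])).deriv]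
        linarith [hle y x0 hy.1.le hy.2.le h3]
    have h4 := hanti ⟨h0, h⟩ (Set.right_mem_Icc.2 h2) h
    simp only [sub_self, mul_zero, add_zero] at h4
    linarith

/-- `Fr` is convex on `[0, 1/2]`: tangents. -/
theorem Fr_tan_left (x x0 : ℝ) (h0 : 0 ≤ x) (h1 : x ≤ 1 / 2) (h2 : 0 < x0) (h3 : x0 ≤ 1 / 2) :
    Fr x0 + Real.log (2 * Real.sin (Real.pi * x0)) * (x - x0) ≤ Fr x := by
  have hpi := Real.pi_pos
  set c := Real.log (2 * Real.sin (Real.pi * x0)) with hc
  have hpos : ∀ y : ℝ, 0 < y → y ≤ 1 / 2 → 0 < Real.sin (Real.pi * y) := fun y hy hy1 =>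
    Real.sin_pos_of_pos_of_lt_pi (by positivity) (by nlinarith)
  have hle : ∀ y z : ℝ, 0 < y → y ≤ z → z ≤ 1 / 2 → Real.log (2 * Real.sin (Real.pi * y)) ≤ Real.log (2 * Real.sin (Real.pi * z)) := by
    intro y z hy hyz hz
    apply Real.log_le_log (by linarith [hpos y hy (hyz.trans hz)])
    have h4 : Real.sin (Real.pi * y) ≤ Real.sin (Real.pi * z) := by
      apply Real.sin_le_sin_of_le_of_le_pi_div_two <;> nlinarith
    linarith
  have hder : ∀ y : ℝ, 0 < y → y ≤ 1 / 2 → HasDerivAt (fun y => Fr y - (Fr x0 + c * (y - x0)))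
      (Real.log (2 * Real.sin (Real.pi * y)) - c) y := by
    intro y hy hy1
    have h4 := (Fr_hasDerivAt y hy (by linarith)).sub (((((hasDerivAt_id y).sub_const x0).const_mul c).const_add (Fr x0)))
    refine h4.congr_deriv ?_
    ring
  have hcont : Continuous (fun y => Fr y - (Fr x0 + c * (y - x0))) := by
    have := Fr_continuous
    fun_prop
  rcases le_total x0 x with h | h
  · have hmono : MonotoneOn (fun y => Fr y - (Fr x0 + c * (y - x0))) (Set.Icc x0 (1 / 2)) := by
      apply monotoneOn_of_deriv_nonneg (convex_Icc _ _) hcont.continuousOn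
      · intro y hy
        rw [interior_Icc] at hy
        exact (hder y (by linarith [hy.1]) hy.2.le).differentiableAt.differentiableWithinAt
      · intro y hy
        rw [interior_Icc] at hy
        rw [(hder y (by linarith [hy.1]) hy.2.le).deriv]
        linarith [hle x0 y h2 hy.1.le hy.2.le]
    have h4 := hmono (Set.left_mem_Icc.2 h3) ⟨h, h1⟩ h
    simp only [sub_self, mul_zero, add_zero] at h4
    linarith
  · have hanti : AntitoneOn (fun y => Fr y - (Fr x0 + c * (y - x0))) (Set.Icc 0 x0) := by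
      apply antitoneOn_of_deriv_nonpos (convex_Icc _ _) hcont.continuousOn
      · intro y hy
        rw [interior_Icc] at hy
        exact (hder y hy.1 (by linarith [hy.2])).differentiableAt.differentiableWithinAt
      · intro y hy
        rw [interior_Icc] at hy
        rw [(hder y hy.1 (by linarith [hy.2])).deriv]
        linarith [hle y x0 hy.1 hy.2.le h3]
    have h4 := hanti ⟨h0, h⟩ (Set.right_mem_Icc.2 h2.le) h
    simp only [sub_self, mul_zero, add_zero] at h4
    linarith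

/-- Bounds for logarithms: series of `log ((1 + t) / (1 - t))`. -/
theorem log_series (t : ℝ) (h0 : 0 ≤ t) (h1 : t ≤ 1 / 3) :
    2 * (t + t ^ 3 / 3 + t ^ 5 / 5 + t ^ 7 / 7) ≤ Real.log ((1 + t) / (1 - t)) ∧
    Real.log ((1 + t) / (1 - t)) ≤
      2 * (t + t ^ 3 / 3 + t ^ 5 / 5 + t ^ 7 / 7) + t ^ 9 / 3 := by
  have hder : ∀ x : ℝ, 0 ≤ x → x < 1 → HasDerivAt (fun x : ℝ => Real.log (1 + x) - Real.log (1 - x)) (2 / (1 - x ^ 2)) x := by
    intro x hx hx1
    have h3 : HasDerivAt (fun x : ℝ => 1 + x) 1 x := by simpa using (hasDerivAt_id x).const_add 1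
    have h4 : HasDerivAt (fun x : ℝ => 1 - x) (-1) x := by simpa using (hasDerivAt_id x).const_sub 1
    have h5 := (h3.log (by linarith)).sub (h4.log (by linarith))
    refine h5.congr_deriv ?_
    have h6 : (1 : ℝ) + x ≠ 0 := by linarith
    have h7 : (1 : ℝ) - x ≠ 0 := by linarith
    have h8 : (1 : ℝ) - x ^ 2 ≠ 0 := by
      have : (1 : ℝ) - x ^ 2 = (1 + x) * (1 - x) := by ring
      rw [this]
      exact mul_ne_zero h6 h7
    field_simp
    ring
  have hlog : Real.log ((1 + t) / (1 - t)) = Real.log (1 + t) - Real.log (1 - t) :=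
    Real.log_div (by linarith) (by linarith)
  have hP : ∀ x : ℝ, HasDerivAt (fun x : ℝ => 2 * (x + x ^ 3 / 3 + x ^ 5 / 5 + x ^ 7 / 7)) (2 * (1 + x ^ 2 + x ^ 4 + x ^ 6)) x := by
    intro x
    have h3 := ((((hasDerivAt_id x).add ((hasDerivAt_pow 3 x).div_const 3)).add ((hasDerivAt_pow 5 x).div_const 5)).add
      ((hasDerivAt_pow 7 x).div_const 7)).const_mul 2
    refine h3.congr_deriv ?_
    norm_num
  have hcl : ContinuousOn (fun x : ℝ => Real.log (1 + x) - Real.log (1 - x)) (Set.Icc 0 (1 / 3)) := fun x hx =>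
    (hder x hx.1 (by linarith [hx.2])).continuousAt.continuousWithinAt
  have hcP : Continuous (fun x : ℝ => 2 * (x + x ^ 3 / 3 + x ^ 5 / 5 + x ^ 7 / 7)) := by fun_prop
  rw [hlog]
  constructor
  · have hmono : MonotoneOn (fun x : ℝ => (Real.log (1 + x) - Real.log (1 - x)) - 2 * (x + x ^ 3 / 3 + x ^ 5 / 5 + x ^ 7 / 7))
        (Set.Icc 0 (1 / 3)) := by
      apply monotoneOn_of_deriv_nonneg (convex_Icc _ _) (hcl.sub hcP.continuousOn)
      · intro x hx
        rw [interior_Icc] at hx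
        exact ((hder x hx.1.le (by linarith [hx.2])).sub (hP x)).differentiableAt.differentiableWithinAt
      · intro x hx
        rw [interior_Icc] at hx
        rw [((hder x hx.1.le (by linarith [hx.2])).sub (hP x)).deriv]
        have hx2 : x ^ 2 ≤ 1 / 9 := by nlinarith [hx.1, hx.2]
        have h3 : 2 * (1 + x ^ 2 + x ^ 4 + x ^ 6) ≤ 2 / (1 - x ^ 2) := by
          rw [le_div_iff₀ (by linarith)]
          have : 2 * (1 + x ^ 2 + x ^ 4 + x ^ 6) * (1 - x ^ 2) = 2 - 2 * x ^ 8 := by ring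
          rw [this]
          have : 0 ≤ x ^ 8 := by positivity
          linarith
        linarith
    have h3 := hmono (Set.left_mem_Icc.2 (by norm_num)) ⟨h0, h1⟩ h0
    norm_num at h3
    linarith
  · have hmono : MonotoneOn (fun x : ℝ => (2 * (x + x ^ 3 / 3 + x ^ 5 / 5 + x ^ 7 / 7) + x ^ 9 / 3) - (Real.log (1 + x) - Real.log (1 - x)))
        (Set.Icc 0 (1 / 3)) := by
      apply monotoneOn_of_deriv_nonneg (convex_Icc _ _)
        ((hcP.add ((continuous_pow 9).div_const 3)).continuousOn.sub hcl)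
      · intro x hx
        rw [interior_Icc] at hx
        exact (((hP x).add ((hasDerivAt_pow 9 x).div_const 3)).sub (hder x hx.1.le (by linarith [hx.2]))).differentiableAt.differentiableWithinAt
      · intro x hx
        rw [interior_Icc] at hx
        rw [(((hP x).add ((hasDerivAt_pow 9 x).div_const 3)).sub (hder x hx.1.le (by linarith [hx.2]))).deriv]
        have hx2 : x ^ 2 ≤ 1 / 9 := by nlinarith [hx.1, hx.2]
        have h8 : 0 ≤ x ^ 8 := by positivity
        have h3 : 2 / (1 - x ^ 2) ≤ 2 * (1 + x ^ 2 + x ^ 4 + x ^ 6) + 3 * x ^ 8 := by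
          rw [div_le_iff₀ (by linarith)]
          have h9 : (2 * (1 + x ^ 2 + x ^ 4 + x ^ 6) + 3 * x ^ 8) * (1 - x ^ 2) = 2 + x ^ 8 * (1 - 3 * x ^ 2) := by ring
          rw [h9]
          nlinarith
        norm_num
        linarith
    have h3 := hmono (Set.left_mem_Icc.2 (by norm_num)) ⟨h0, h1⟩ h0
    norm_num at h3
    linarith

end Pool.Agent.H63.GO
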