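import Pool.Agent.H63.VC3.GBound
import Pool.Agent.H63.VC3.Tube

/-! # Vertical shifts -/

namespace Pool.Agent.H63.GO

open Complex Filter Topology Pool.Agent.H63.VC Pool.Agent.H63.VC3

theorem vert_le (x t : ℝ) (h0 : 1 / 2 < x) (h1 : x < 1) :
    (ff (x + t * I)).re ≤ Fr x + Real.pi / 2 * Real.tan (Real.pi * (x - 1 / 2)) * t ^ 2 := by
  have h := (ff_vert_right x t h0 h1).2
  have e : Real.tan (Real.pi * (x - 1 / 2)) =
      -(Real.cos (Real.pi * x) / Real.sin (Real.pi * x)) := by
    have e1 : Real.pi * (x - 1 / 2) = Real.pi * x - Real.pi / 2 := by ring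
    rw [Real.tan_eq_sin_div_cos, e1, Real.sin_sub_pi_div_two, Real.cos_sub_pi_div_two, neg_div]
  rw [e]
  linarith [h]

theorem vert_neg (x t c : ℝ) (h0 : 0 < x) (h1 : x < 1) (hc : 0 ≤ c)
    (hcot : Real.cos (Real.pi * x) ≤ c * Real.sin (Real.pi * x)) :
    -(ff (x + t * I)).re ≤ -Fr x + Real.pi / 2 * c * t ^ 2 := by
  have hπ := Real.pi_pos
  have hre : ∀ s : ℝ, ((x : ℂ) + s * I).re = x := fun s => by simp
  have him : ∀ s : ℝ, ((x : ℂ) + s * I).im = s := fun s => by simp
  have hd := fun s : ℝ => Tube_der (x : ℂ) I s (by rw [hre]; exact h0) (by rw [hre]; linarith)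
  have hsin : 0 < Real.sin (Real.pi * x) := Real.sin_pos_of_pos_of_lt_pi
    (by positivity) (by nlinarith [Real.pi_pos])
  have hsec : ∀ s : ℝ, (Real.pi * Complex.cot (Real.pi * ((x : ℂ) + s * I)) * I * I).re =
      -(Real.pi * (Real.sin (Real.pi * x) * Real.cos (Real.pi * x) /
        (Real.sin (Real.pi * x) ^ 2 + Real.sinh (Real.pi * s) ^ 2))) := by
    intro s
    rw [mul_assoc _ I I, I_mul_I, mul_neg_one, neg_re, Tube_cot_re', hre, him]
  have e0 : ff ((x : ℂ) + (0 : ℝ) * I) = (Fr x : ℂ) := by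
    rw [ofReal_zero, zero_mul, add_zero, ff_real x h0 h1]
  have e1 : (hh ((x : ℂ) + (0 : ℝ) * I) * I).re = 0 := by
    rw [ofReal_zero, zero_mul, add_zero, hh_real x h0 h1]
    simp
  have h := Tube_taylor (fun s : ℝ => (ff ((x : ℂ) + s * I)).re)
      (fun s : ℝ => (hh ((x : ℂ) + s * I) * I).re) _ t (-(Real.pi * c))
      (fun s _ => (hd s).1) (fun s _ => (hd s).2) (fun s _ => by
        rw [hsec]
        have h2 : Real.sin (Real.pi * x) * Real.cos (Real.pi * x) /
            (Real.sin (Real.pi * x) ^ 2 + Real.sinh (Real.pi * s) ^ 2) ≤ c := by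
          rw [div_le_iff₀ (by positivity)]
          have h3 := mul_le_mul_of_nonneg_left hcot hsin.le
          have h4 := mul_nonneg hc (sq_nonneg (Real.sinh (Real.pi * s)))
          nlinarith only [h3, h4]
        have h5 := mul_le_mul_of_nonneg_left h2 hπ.le
        linarith only [h5])
  simp only [e0, e1, ofReal_re] at h
  linarith only [h]

private theorem FVert_pos (y v : ℝ) (h0 : 0 < y) (h1 : y < 1 / 2) (hv : 0 ≤ v) (h2 : v ≤ y) :
    2 * Fr y + Real.pi * (Real.cos (Real.pi * y) / Real.sin (Real.pi * y)) * v ^ 2 ≤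
      Fr (y - v) + Fr (y + v) := by
  have hπ := Real.pi_pos
  have key := GBound_mono (f := fun w => Fr (y - w) + Fr (y + w) -
      Real.pi * (Real.cos (Real.pi * y) / Real.sin (Real.pi * y)) * w ^ 2)
    (f' := fun w => -Real.log (2 * Real.sin (Real.pi * (y - w))) +
      Real.log (2 * Real.sin (Real.pi * (y + w))) -
      Real.pi * (Real.cos (Real.pi * y) / Real.sin (Real.pi * y)) * (2 * w)) hv ?_ ?_ ?_
  · simp only [sub_zero, add_zero] at key
    have e : (0 : ℝ) ^ 2 = 0 := by norm_num
    rw [e, mul_zero, sub_zero] at key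
    linarith
  · apply Continuous.continuousOn
    have := Fr_continuous
    fun_prop
  · intro w hw
    have d1 : HasDerivAt (fun w => Fr (y - w)) (-Real.log (2 * Real.sin (Real.pi * (y - w)))) w :=
      HasDerivAt.comp_const_sub y w
        (Fr_hasDerivAt (y - w) (by linarith [hw.2]) (by linarith [hw.1]))
    have d2 : HasDerivAt (fun w => Fr (y + w)) (Real.log (2 * Real.sin (Real.pi * (y + w)))) w :=
      HasDerivAt.comp_const_add y w
        (Fr_hasDerivAt (y + w) (by linarith [hw.1]) (by linarith [hw.2]))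
    have d3 : HasDerivAt (fun w : ℝ =>
        Real.pi * (Real.cos (Real.pi * y) / Real.sin (Real.pi * y)) * w ^ 2)
        (Real.pi * (Real.cos (Real.pi * y) / Real.sin (Real.pi * y)) * (2 * w)) w := by
      have := (hasDerivAt_pow 2 w).const_mul
        (Real.pi * (Real.cos (Real.pi * y) / Real.sin (Real.pi * y)))
      simpa using this
    exact (d1.add d2).sub d3
  · intro w hw
    have := GBound_diff_ge (A := Real.pi * y) (B := Real.pi * w) (by positivity)
      (by nlinarith only [h1, hπ])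
      (by have := hw.1; positivity) (mul_lt_mul_of_pos_left (by linarith [hw.2]) hπ)
    rw [← mul_add, ← mul_sub] at this
    show 0 ≤ _
    nlinarith [this]

/-- Quadratic decay of a block with `|r| = 2`. -/
theorem quad2 (x t : ℝ) (h0 : 0 < x) (h1 : x < 1) (ht : |t| ≤ x / 2) :
    -Fr (x / 2 - t) - Fr (x / 2 + t) ≤
      -2 * Fr (x / 2) - Real.pi * (Real.cos (Real.pi * x / 2) / Real.sin (Real.pi * x / 2)) * t ^ 2 := by
  have e : Real.pi * x / 2 = Real.pi * (x / 2) := by ring
  rw [e]
  rcases le_total 0 t with h | h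
  · rw [abs_of_nonneg h] at ht
    have := FVert_pos (x / 2) t (by linarith) (by linarith) h ht
    linarith only [this]
  · rw [abs_of_nonpos h] at ht
    have := FVert_pos (x / 2) (-t) (by linarith) (by linarith) (by linarith) ht
    rw [neg_sq, sub_neg_eq_add, ← sub_eq_add_neg] at this
    linarith only [this]

/-- Quadratic decay and a linear term. -/
theorem quad2_lin (x t c : ℝ) (h0 : 0 < x) (h1 : x < 1) (ht : |t| ≤ x / 2) :
    -Fr (x / 2 - t) - Fr (x / 2 + t) + c * t ≤
      -2 * Fr (x / 2) + c ^ 2 / (4 * Real.pi) * Real.tan (Real.pi * x / 2) := by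
  have hπ := Real.pi_pos
  have hs : 0 < Real.sin (Real.pi * x / 2) := Real.sin_pos_of_pos_of_lt_pi
    (by positivity) (by nlinarith only [h1, hπ])
  have hc : 0 < Real.cos (Real.pi * x / 2) := Real.cos_pos_of_mem_Ioo
    ⟨by nlinarith only [h0, hπ], by nlinarith only [h1, hπ]⟩
  have h := quad2 x t h0 h1 ht
  have key : c * t - Real.pi * (Real.cos (Real.pi * x / 2) / Real.sin (Real.pi * x / 2)) * t ^ 2 ≤
      c ^ 2 / (4 * Real.pi) * Real.tan (Real.pi * x / 2) := by
    rw [Real.tan_eq_sin_div_cos]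
    set S := Real.sin (Real.pi * x / 2)
    set C := Real.cos (Real.pi * x / 2)
    have e : c ^ 2 / (4 * Real.pi) * (S / C) -
        (c * t - Real.pi * (C / S) * t ^ 2) =
        (2 * Real.pi * C * t - c * S) ^ 2 / (4 * Real.pi * C * S) := by
      field_simp
      ring
    have e2 : 0 ≤ (2 * Real.pi * C * t - c * S) ^ 2 / (4 * Real.pi * C * S) := by positivity
    linarith only [e, e2]
  linarith only [h, key]

end Pool.Agent.H63.GO
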