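import Pool.Agent.H63.GO.FNum

/-! # The one-variable inequalities: ends -/

namespace Pool.Agent.H63.GO

open Complex Filter Topology Pool.Agent.H63.VC Pool.Agent.H63.VC3

private theorem FarEnd_refl (x : ℝ) : Fr (1 - x) = -Fr x := by
  rw [show (1 : ℝ) - x = -x + 1 by ring, Fr_add_one, Fr_neg]

private theorem FarEnd_sin_mono {x y : ℝ} (h0 : 0 ≤ x) (h : x ≤ y) (h1 : y ≤ 1 / 2) :
    Real.sin (Real.pi * x) ≤ Real.sin (Real.pi * y) := by
  have hp := Real.pi_pos
  refine Real.sin_le_sin_of_le_of_le_pi_div_two ?_ ?_ ?_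
  · nlinarith
  · nlinarith
  · exact mul_le_mul_of_nonneg_left h hp.le

private theorem FarEnd_sin_pos {x : ℝ} (h0 : 0 < x) (h1 : x < 1) : 0 < Real.sin (Real.pi * x) := by
  have hp := Real.pi_pos
  refine Real.sin_pos_of_pos_of_lt_pi (by positivity) ?_
  nlinarith

private theorem FarEnd_six : Real.sin (Real.pi * (1 / 6)) = 1 / 2 := by
  rw [show Real.pi * (1 / 6) = Real.pi / 6 by ring, Real.sin_pi_div_six]

private theorem FarEnd_L_nonneg {x : ℝ} (h0 : 1 / 6 ≤ x) (h1 : x ≤ 1 / 2) :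
    0 ≤ Real.log (2 * Real.sin (Real.pi * x)) := by
  apply Real.log_nonneg
  have := FarEnd_sin_mono (by norm_num : (0 : ℝ) ≤ 1 / 6) h0 h1
  rw [FarEnd_six] at this
  linarith

private theorem FarEnd_L_nonpos {x : ℝ} (h0 : 0 ≤ x) (h1 : x ≤ 1 / 6) :
    Real.log (2 * Real.sin (Real.pi * x)) ≤ 0 := by
  have h2 := FarEnd_sin_mono h0 h1 (by norm_num)
  rw [FarEnd_six] at h2
  have hp := Real.pi_pos
  refine Real.log_nonpos ?_ (by linarith)
  have := Real.sin_nonneg_of_nonneg_of_le_pi (x := Real.pi * x) (by positivity) (by nlinarith)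
  linarith

private theorem FarEnd_L_mono {x y : ℝ} (h0 : 0 < x) (h : x ≤ y) (h1 : y ≤ 1 / 2) :
    Real.log (2 * Real.sin (Real.pi * x)) ≤ Real.log (2 * Real.sin (Real.pi * y)) := by
  have h2 := FarEnd_sin_mono h0.le h h1
  have h3 := FarEnd_sin_pos h0 (by linarith)
  exact Real.log_le_log (by linarith) (by linarith)

private theorem FarEnd_L_refl (x : ℝ) :
    Real.log (2 * Real.sin (Real.pi * (1 - x))) = Real.log (2 * Real.sin (Real.pi * x)) := by
  rw [show Real.pi * (1 - x) = Real.pi - Real.pi * x by ring, Real.sin_pi_sub]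

private theorem FarEnd_low (a t c ρ : ℝ) (h0 : 0 < a) (h1 : a ≤ 1 / 2) (ht0 : 0 ≤ t) (ht1 : t ≤ 1 / 3)
    (hρ : 0 < ρ) (hc : c ≤ Real.log ρ) (h : (1 + t) / (1 - t) * ρ ≤ 6.283184 * a) :
    a * (c + 2 * (t + t ^ 3 / 3 + t ^ 5 / 5 + t ^ 7 / 7)) - a - 9.8697 * a ^ 3 / 18 -
      97.4095 * a ^ 5 / 900 - 961.4 * a ^ 7 / 19845 - a ^ 9 / 25 ≤ Fr a := by
  have hp1 := Real.pi_gt_d6
  have hp2 := Real.pi_lt_d6
  have hp0 := Real.pi_pos
  have e1 : Real.pi ^ 2 ≤ 9.8697 := by nlinarith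
  have e0 : 0 ≤ Real.pi ^ 2 := by positivity
  have e2 : Real.pi ^ 4 ≤ 97.4095 := by
    have : Real.pi ^ 4 = Real.pi ^ 2 * Real.pi ^ 2 := by ring
    have e1' : Real.pi ^ 2 ≤ 9.86961 := by nlinarith
    rw [this]
    nlinarith
  have e3 : Real.pi ^ 6 ≤ 961.4 := by
    have : Real.pi ^ 6 = Real.pi ^ 2 * Real.pi ^ 4 := by ring
    have e1' : Real.pi ^ 2 ≤ 9.86961 := by nlinarith
    have e2' : Real.pi ^ 4 ≤ 97.40921 := by
      have : Real.pi ^ 4 = Real.pi ^ 2 * Real.pi ^ 2 := by ring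
      rw [this]
      nlinarith
    have e4 : 0 ≤ Real.pi ^ 4 := by positivity
    rw [this]
    nlinarith
  have h2 := (Fr_num a h0 h1).1
  have h3 := (log_series t ht0 ht1).1
  have hq : 0 < (1 + t) / (1 - t) := div_pos (by linarith) (by linarith)
  have h4 : Real.log ((1 + t) / (1 - t)) + Real.log ρ ≤ Real.log (2 * Real.pi * a) := by
    rw [← Real.log_mul hq.ne' hρ.ne']
    refine Real.log_le_log (mul_pos hq hρ) (h.trans ?_)
    nlinarith
  have h5 : a * (c + 2 * (t + t ^ 3 / 3 + t ^ 5 / 5 + t ^ 7 / 7)) ≤ a * Real.log (2 * Real.pi * a) :=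
    mul_le_mul_of_nonneg_left (by linarith) h0.le
  have h6 : Real.pi ^ 2 * a ^ 3 / 18 ≤ 9.8697 * a ^ 3 / 18 := by
    have := mul_le_mul_of_nonneg_right e1 (by positivity : 0 ≤ a ^ 3)
    linarith
  have h7 : Real.pi ^ 4 * a ^ 5 / 900 ≤ 97.4095 * a ^ 5 / 900 := by
    have := mul_le_mul_of_nonneg_right e2 (by positivity : 0 ≤ a ^ 5)
    linarith
  have h8 : Real.pi ^ 6 * a ^ 7 / 19845 ≤ 961.4 * a ^ 7 / 19845 := by
    have := mul_le_mul_of_nonneg_right e3 (by positivity : 0 ≤ a ^ 7)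
    linarith
  unfold Ft at h2
  linarith

private theorem FarEnd_low1 (a t : ℝ) (h0 : 0 < a) (h1 : a ≤ 1 / 2) (ht0 : 0 ≤ t) (ht1 : t ≤ 1 / 3)
    (h : (1 + t) / (1 - t) * 2 ≤ 6.283184 * a) :
    a * (0.69314718 + 2 * (t + t ^ 3 / 3 + t ^ 5 / 5 + t ^ 7 / 7)) - a - 9.8697 * a ^ 3 / 18 -
      97.4095 * a ^ 5 / 900 - 961.4 * a ^ 7 / 19845 - a ^ 9 / 25 ≤ Fr a :=
  FarEnd_low a t _ 2 h0 h1 ht0 ht1 (by norm_num) (by have := Real.log_two_gt_d9; linarith) h

private theorem FarEnd_low0 (a t : ℝ) (h0 : 0 < a) (h1 : a ≤ 1 / 2) (ht0 : 0 ≤ t) (ht1 : t ≤ 1 / 3)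
    (h : (1 + t) / (1 - t) * 1 ≤ 6.283184 * a) :
    a * (0 + 2 * (t + t ^ 3 / 3 + t ^ 5 / 5 + t ^ 7 / 7)) - a - 9.8697 * a ^ 3 / 18 -
      97.4095 * a ^ 5 / 900 - 961.4 * a ^ 7 / 19845 - a ^ 9 / 25 ≤ Fr a :=
  FarEnd_low a t _ 1 h0 h1 ht0 ht1 (by norm_num) (by rw [Real.log_one]) h

private theorem FarEnd_lowm (a t : ℝ) (h0 : 0 < a) (h1 : a ≤ 1 / 2) (ht0 : 0 ≤ t) (ht1 : t ≤ 1 / 3)
    (h : (1 + t) / (1 - t) * 2⁻¹ ≤ 6.283184 * a) :
    a * (-0.69314719 + 2 * (t + t ^ 3 / 3 + t ^ 5 / 5 + t ^ 7 / 7)) - a - 9.8697 * a ^ 3 / 18 -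
      97.4095 * a ^ 5 / 900 - 961.4 * a ^ 7 / 19845 - a ^ 9 / 25 ≤ Fr a :=
  FarEnd_low a t _ 2⁻¹ h0 h1 ht0 ht1 (by norm_num)
    (by rw [Real.log_inv]; have := Real.log_two_lt_d9; linarith) h

theorem endA (y : ℝ) (h0 : 0 ≤ y) (h1 : y ≤ 1 / 2) (h : y ≤ 13 / 100 ∨ 368 / 1000 ≤ y) :
    4 * Fr (y + 1 / 2) - 4 * Fr y ≤ 99 / 100 := by
  rcases h with h | h
  · have a1 := Fr_tan_right (y + 1 / 2) (1 - 0.37) (by linarith) (by linarith) (by norm_num) (by norm_num)
    have a2 := Fr_tan_left y 0.13 h0 h1 (by norm_num) (by norm_num)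
    rw [FarEnd_L_refl, FarEnd_refl] at a1
    have s1 := FarEnd_L_mono (x := 0.13) (y := 0.37) (by norm_num) (by norm_num) (by norm_num)
    have n1 := FarEnd_low1 0.37 0.075 (by norm_num) (by norm_num) (by norm_num) (by norm_num) (by norm_num)
    have n2 := FarEnd_lowm 0.13 0.24 (by norm_num) (by norm_num) (by norm_num) (by norm_num) (by norm_num)
    have k := mul_nonneg (sub_nonneg.2 s1) (by linarith : 0 ≤ 0.13 - y)
    norm_num at n1 n2 a1 a2 s1 k ⊢
    nlinarith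
  · have a1 := Fr_tan_right (y + 1 / 2) (1 - 0.132) (by linarith) (by linarith) (by norm_num) (by norm_num)
    have a2 := Fr_tan_left y 0.368 h0 h1 (by norm_num) (by norm_num)
    rw [FarEnd_L_refl, FarEnd_refl] at a1
    have s1 := FarEnd_L_mono (x := 0.132) (y := 0.368) (by norm_num) (by norm_num) (by norm_num)
    have n1 := FarEnd_low1 0.368 0.0724 (by norm_num) (by norm_num) (by norm_num) (by norm_num) (by norm_num)
    have n2 := FarEnd_lowm 0.132 0.2477 (by norm_num) (by norm_num) (by norm_num) (by norm_num) (by norm_num)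
    have k := mul_nonneg (sub_nonneg.2 s1) (by linarith : 0 ≤ y - 0.368)
    norm_num at n1 n2 a1 a2 s1 k ⊢
    nlinarith

theorem endB (y : ℝ) (h0 : 0 ≤ y) (h1 : y ≤ 1 / 2) (h : y ≤ 11 / 100 ∨ 375 / 1000 ≤ y) :
    4 * Fr (y + 1 / 2) - 2 * Fr y - 2 * Fr ((y + 1 / 2) / 2) ≤ 89 / 100 := by
  rcases h with h | h
  · have a1 := Fr_tan_right (y + 1 / 2) (1 - 0.39) (by linarith) (by linarith) (by norm_num) (by norm_num)
    have a2 := Fr_tan_left y 0.11 h0 h1 (by norm_num) (by norm_num)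
    have a3 := Fr_tan_left ((y + 1 / 2) / 2) 0.305 (by linarith) (by linarith) (by norm_num) (by norm_num)
    rw [FarEnd_L_refl, FarEnd_refl] at a1
    have s1 := FarEnd_L_nonpos (x := 0.11) (by norm_num) (by norm_num)
    have s2 := FarEnd_L_mono (x := 0.305) (y := 0.39) (by norm_num) (by norm_num) (by norm_num)
    have s3 := FarEnd_L_nonneg (x := 0.39) (by norm_num) (by norm_num)
    have n1 := FarEnd_low1 0.39 0.1011 (by norm_num) (by norm_num) (by norm_num) (by norm_num) (by norm_num)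
    have n2 := FarEnd_lowm 0.11 0.1603 (by norm_num) (by norm_num) (by norm_num) (by norm_num) (by norm_num)
    have n3 := FarEnd_low0 0.305 0.314 (by norm_num) (by norm_num) (by norm_num) (by norm_num) (by norm_num)
    have s4 : 0 ≤ 4 * Real.log (2 * Real.sin (Real.pi * 0.39)) - 2 * Real.log (2 * Real.sin (Real.pi * 0.11)) -
        Real.log (2 * Real.sin (Real.pi * 0.305)) := by linarith
    have k := mul_nonneg s4 (by linarith : 0 ≤ 0.11 - y)
    norm_num at n1 n2 n3 a1 a2 a3 k ⊢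
    nlinarith
  · have a1 := Fr_tan_right (y + 1 / 2) (1 - 0.125) (by linarith) (by linarith) (by norm_num) (by norm_num)
    have a2 := Fr_tan_left y 0.375 h0 h1 (by norm_num) (by norm_num)
    have a3 := Fr_tan_left ((y + 1 / 2) / 2) 0.4375 (by linarith) (by linarith) (by norm_num) (by norm_num)
    rw [FarEnd_L_refl, FarEnd_refl] at a1
    have s1 := FarEnd_L_nonpos (x := 0.125) (by norm_num) (by norm_num)
    have s2 := FarEnd_L_nonneg (x := 0.375) (by norm_num) (by norm_num)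
    have s3 := FarEnd_L_nonneg (x := 0.4375) (by norm_num) (by norm_num)
    have n1 := FarEnd_lowm 0.125 0.2218 (by norm_num) (by norm_num) (by norm_num) (by norm_num) (by norm_num)
    have n2 := FarEnd_low1 0.375 0.0816 (by norm_num) (by norm_num) (by norm_num) (by norm_num) (by norm_num)
    have n3 := FarEnd_low1 0.4375 0.1575 (by norm_num) (by norm_num) (by norm_num) (by norm_num) (by norm_num)
    have s4 : 0 ≤ -(4 * Real.log (2 * Real.sin (Real.pi * 0.125)) - 2 * Real.log (2 * Real.sin (Real.pi * 0.375)) -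
        Real.log (2 * Real.sin (Real.pi * 0.4375))) := by linarith
    have k := mul_nonneg s4 (by linarith : 0 ≤ y - 0.375)
    norm_num at n1 n2 n3 a1 a2 a3 k ⊢
    nlinarith

theorem endC (y : ℝ) (h0 : 0 ≤ y) (h1 : y ≤ 1 / 2) (h : y ≤ 11 / 100 ∨ 38 / 100 ≤ y) :
    4 * Fr (y + 1 / 2) - 4 * Fr ((y + 1 / 2) / 2) ≤ 795 / 1000 := by
  rcases h with h | h
  · have a1 := Fr_tan_right (y + 1 / 2) (1 - 0.39) (by linarith) (by linarith) (by norm_num) (by norm_num)
    have a3 := Fr_tan_left ((y + 1 / 2) / 2) 0.305 (by linarith) (by linarith) (by norm_num) (by norm_num)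
    rw [FarEnd_L_refl, FarEnd_refl] at a1
    have s2 := FarEnd_L_mono (x := 0.305) (y := 0.39) (by norm_num) (by norm_num) (by norm_num)
    have s3 := FarEnd_L_nonneg (x := 0.39) (by norm_num) (by norm_num)
    have n1 := FarEnd_low1 0.39 0.1011 (by norm_num) (by norm_num) (by norm_num) (by norm_num) (by norm_num)
    have n3 := FarEnd_low0 0.305 0.314 (by norm_num) (by norm_num) (by norm_num) (by norm_num) (by norm_num)
    have s4 : 0 ≤ 4 * Real.log (2 * Real.sin (Real.pi * 0.39)) -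
        2 * Real.log (2 * Real.sin (Real.pi * 0.305)) := by linarith
    have k := mul_nonneg s4 (by linarith : 0 ≤ 0.11 - y)
    norm_num at n1 n3 a1 a3 k ⊢
    nlinarith
  · have a1 := Fr_tan_right (y + 1 / 2) (1 - 0.12) (by linarith) (by linarith) (by norm_num) (by norm_num)
    have a3 := Fr_tan_left ((y + 1 / 2) / 2) 0.44 (by linarith) (by linarith) (by norm_num) (by norm_num)
    rw [FarEnd_L_refl, FarEnd_refl] at a1
    have s1 := FarEnd_L_nonpos (x := 0.12) (by norm_num) (by norm_num)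
    have s3 := FarEnd_L_nonneg (x := 0.44) (by norm_num) (by norm_num)
    have n1 := FarEnd_lowm 0.12 0.2023 (by norm_num) (by norm_num) (by norm_num) (by norm_num) (by norm_num)
    have n3 := FarEnd_low1 0.44 0.1603 (by norm_num) (by norm_num) (by norm_num) (by norm_num) (by norm_num)
    have s4 : 0 ≤ -(4 * Real.log (2 * Real.sin (Real.pi * 0.12)) -
        2 * Real.log (2 * Real.sin (Real.pi * 0.44))) := by linarith
    have k := mul_nonneg s4 (by linarith : 0 ≤ y - 0.38)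
    norm_num at n1 n3 a1 a3 k ⊢
    nlinarith

end Pool.Agent.H63.GO
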