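import Pool.Agent.H63.GO.FNum

/-! # The one-variable inequalities: wall, class A and B3 -/

namespace Pool.Agent.H63.GO

open Complex Filter Topology Pool.Agent.H63.VC Pool.Agent.H63.VC3

/-! ## Calculus -/

private lemma wa_anti (g g' : ℝ → ℝ) (a b : ℝ) (hd : ∀ x ∈ Set.Icc a b, HasDerivAt g (g' x) x)
    (hg : ∀ x ∈ Set.Icc a b, g' x ≤ 0) : AntitoneOn g (Set.Icc a b) := by
  apply antitoneOn_of_deriv_nonpos (convex_Icc a b)
  · exact fun t ht => (hd t ht).continuousAt.continuousWithinAt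
  · intro t ht
    exact (hd t (interior_subset ht)).differentiableAt.differentiableWithinAt
  · intro t ht
    rw [(hd t (interior_subset ht)).deriv]
    exact hg t (interior_subset ht)

private lemma wa_tan (f f' : ℝ → ℝ) (a b x0 : ℝ)
    (hd : ∀ x ∈ Set.Icc a b, HasDerivAt f (f' x) x)
    (hanti : AntitoneOn f' (Set.Icc a b)) (hx0 : x0 ∈ Set.Icc a b) (x : ℝ)
    (hx : x ∈ Set.Icc a b) : f x ≤ f x0 + f' x0 * (x - x0) := by
  rcases le_total x0 x with h | h
  · have h2 : ∀ t ∈ Set.Icc x0 x, t ∈ Set.Icc a b := fun t ht =>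
      ⟨hx0.1.trans ht.1, ht.2.trans hx.2⟩
    have := Convex.image_sub_le_mul_sub_of_deriv_le (convex_Icc x0 x) (f := f)
      (fun t ht => (hd t (h2 t ht)).continuousAt.continuousWithinAt)
      (fun t ht => (hd t (h2 t (interior_subset ht))).differentiableAt.differentiableWithinAt)
      (C := f' x0)
      (fun t ht => by
        rw [(hd t (h2 t (interior_subset ht))).deriv]
        exact hanti hx0 (h2 t (interior_subset ht)) (interior_subset ht).1)
      x0 ⟨le_rfl, h⟩ x ⟨h, le_rfl⟩ h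
    linarith
  · have h2 : ∀ t ∈ Set.Icc x x0, t ∈ Set.Icc a b := fun t ht =>
      ⟨hx.1.trans ht.1, ht.2.trans hx0.2⟩
    have := Convex.mul_sub_le_image_sub_of_le_deriv (convex_Icc x x0) (f := f)
      (fun t ht => (hd t (h2 t ht)).continuousAt.continuousWithinAt)
      (fun t ht => (hd t (h2 t (interior_subset ht))).differentiableAt.differentiableWithinAt)
      (C := f' x0)
      (fun t ht => by
        rw [(hd t (h2 t (interior_subset ht))).deriv]
        exact hanti (h2 t (interior_subset ht)) hx0 (interior_subset ht).2)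
      x ⟨le_rfl, h⟩ x0 ⟨h, le_rfl⟩ h
    linarith

/-! ## Bounds for the sine, the cosine and the logarithm -/

private lemma wa_nn (f f' : ℝ → ℝ) (h0 : f 0 = 0) (hd : ∀ x, HasDerivAt f (f' x) x)
    (hf : ∀ x, 0 ≤ x → 0 ≤ f' x) (x : ℝ) (hx : 0 ≤ x) : 0 ≤ f x := by
  have hm : MonotoneOn f (Set.Ici 0) := by
    apply monotoneOn_of_deriv_nonneg (convex_Ici 0)
    · exact fun t _ => (hd t).continuousAt.continuousWithinAt
    · exact fun t _ => (hd t).differentiableAt.differentiableWithinAt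
    · intro t ht
      rw [(hd t).deriv]
      exact hf t (interior_subset ht)
  have := hm (Set.mem_Ici.2 le_rfl) (Set.mem_Ici.2 hx) hx
  rwa [h0] at this

private lemma wa_pow (n : ℕ) (c x : ℝ) (m : ℝ) (h : (n + 1 : ℕ) * c = m) :
    HasDerivAt (fun x : ℝ => c * x ^ (n + 1)) (m * x ^ n) x := by
  have h1 := (hasDerivAt_pow (n + 1) x).const_mul c
  refine h1.congr_deriv ?_
  rw [← h]
  simp only [Nat.add_sub_cancel]
  ring

private lemma wa_cos4 (x : ℝ) (hx : 0 ≤ x) : Real.cos x ≤ 1 - x ^ 2 / 2 + x ^ 4 / 24 := by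
  have h := wa_nn (fun x => 1 - 1 / 2 * x ^ 2 + 1 / 24 * x ^ 4 - Real.cos x)
    (fun x => -(1 * x ^ 1) + 1 / 6 * x ^ 3 + Real.sin x) (by norm_num)
    (fun x => by
      refine ((((wa_pow 1 (1 / 2) x 1 (by norm_num)).const_sub 1).add
        (wa_pow 3 (1 / 24) x (1 / 6) (by norm_num))).sub (Real.hasDerivAt_cos x)).congr_deriv ?_
      ring)
    (fun x hx => by
      have := Real.sin_ge_sub_cube hx
      linarith) x hx
  linarith

private lemma wa_sin5 (x : ℝ) (hx : 0 ≤ x) : Real.sin x ≤ x - x ^ 3 / 6 + x ^ 5 / 120 := by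
  have h := wa_nn (fun x => x - 1 / 6 * x ^ 3 + 1 / 120 * x ^ 5 - Real.sin x)
    (fun x => 1 - 1 / 2 * x ^ 2 + 1 / 24 * x ^ 4 - Real.cos x) (by norm_num)
    (fun x => by
      exact ((((hasDerivAt_id x).sub (wa_pow 2 (1 / 6) x (1 / 2) (by norm_num))).add
        (wa_pow 4 (1 / 120) x (1 / 24) (by norm_num))).sub (Real.hasDerivAt_sin x)))
    (fun x hx => by
      have := wa_cos4 x hx
      linarith) x hx
  linarith

private lemma wa_cos6 (x : ℝ) (hx : 0 ≤ x) :
    1 - x ^ 2 / 2 + x ^ 4 / 24 - x ^ 6 / 720 ≤ Real.cos x := by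
  have h := wa_nn (fun x => Real.cos x - (1 - 1 / 2 * x ^ 2 + 1 / 24 * x ^ 4 - 1 / 720 * x ^ 6))
    (fun x => -Real.sin x - (-(1 * x ^ 1) + 1 / 6 * x ^ 3 - 1 / 120 * x ^ 5)) (by norm_num)
    (fun x => by
      exact (Real.hasDerivAt_cos x).sub ((((wa_pow 1 (1 / 2) x 1 (by norm_num)).const_sub 1).add
        (wa_pow 3 (1 / 24) x (1 / 6) (by norm_num))).sub
        (wa_pow 5 (1 / 720) x (1 / 120) (by norm_num))))
    (fun x hx => by
      have := wa_sin5 x hx
      linarith) x hx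
  linarith

private lemma wa_sin7 (x : ℝ) (hx : 0 ≤ x) :
    x - x ^ 3 / 6 + x ^ 5 / 120 - x ^ 7 / 5040 ≤ Real.sin x := by
  have h := wa_nn (fun x => Real.sin x - (x - 1 / 6 * x ^ 3 + 1 / 120 * x ^ 5 - 1 / 5040 * x ^ 7))
    (fun x => Real.cos x - (1 - 1 / 2 * x ^ 2 + 1 / 24 * x ^ 4 - 1 / 720 * x ^ 6)) (by norm_num)
    (fun x => by
      exact (Real.hasDerivAt_sin x).sub ((((hasDerivAt_id x).sub
        (wa_pow 2 (1 / 6) x (1 / 2) (by norm_num))).add
        (wa_pow 4 (1 / 120) x (1 / 24) (by norm_num))).sub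
        (wa_pow 6 (1 / 5040) x (1 / 720) (by norm_num))))
    (fun x hx => by
      have := wa_cos6 x hx
      linarith) x hx
  linarith

private lemma wa_loglo (a t lo : ℝ) (k : ℤ) (h0 : 0 ≤ t) (h1 : t ≤ 1 / 3)
    (ha : (1 + t) / (1 - t) * 2 ^ k ≤ a)
    (hlo : lo ≤ 2 * (t + t ^ 3 / 3 + t ^ 5 / 5 + t ^ 7 / 7) + k * Real.log 2) :
    lo ≤ Real.log a := by
  have hq : 0 < (1 + t) / (1 - t) := by
    apply div_pos <;> linarith
  have h2 : (0 : ℝ) < 2 ^ k := by positivity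
  have h3 := Real.log_le_log (mul_pos hq h2) ha
  rw [Real.log_mul hq.ne' h2.ne', Real.log_zpow] at h3
  have h4 := (log_series t h0 h1).1
  linarith

private lemma wa_loghi (a t hi : ℝ) (k : ℤ) (h0 : 0 ≤ t) (h1 : t ≤ 1 / 3) (hp : 0 < a)
    (ha : a ≤ (1 + t) / (1 - t) * 2 ^ k)
    (hhi : 2 * (t + t ^ 3 / 3 + t ^ 5 / 5 + t ^ 7 / 7) + t ^ 9 / 3 + k * Real.log 2 ≤ hi) :
    Real.log a ≤ hi := by
  have hq : 0 < (1 + t) / (1 - t) := by
    apply div_pos <;> linarith
  have h2 : (0 : ℝ) < 2 ^ k := by positivity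
  have h3 := Real.log_le_log hp ha
  rw [Real.log_mul hq.ne' h2.ne', Real.log_zpow] at h3
  have h4 := (log_series t h0 h1).2
  linarith

/-! ## The derivatives of `Fr (c y + d)` -/

private noncomputable def wa_L (x : ℝ) : ℝ := Real.log (2 * Real.sin (Real.pi * x))

private noncomputable def wa_C (x : ℝ) : ℝ :=
  Real.pi * (Real.cos (Real.pi * x) / Real.sin (Real.pi * x))

private lemma wa_sin_pos (x : ℝ) (h0 : 0 < x) (h1 : x < 1) : 0 < Real.sin (Real.pi * x) := by
  have hp := Real.pi_pos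
  apply Real.sin_pos_of_pos_of_lt_pi
  · positivity
  · nlinarith

private lemma wa_lin (c d y : ℝ) : HasDerivAt (fun y : ℝ => c * y + d) c y := by
  have h := ((hasDerivAt_id y).const_mul c).add_const d
  refine h.congr_deriv (by ring)

private lemma wa_F (c d y : ℝ) (h0 : 0 < c * y + d) (h1 : c * y + d < 1) :
    HasDerivAt (fun y : ℝ => Fr (c * y + d)) (c * wa_L (c * y + d)) y := by
  have h := (Fr_hasDerivAt (c * y + d) h0 h1).comp y (wa_lin c d y)
  refine h.congr_deriv ?_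
  rw [wa_L, mul_comm]

private lemma wa_LD (c d y : ℝ) (h0 : 0 < c * y + d) (h1 : c * y + d < 1) :
    HasDerivAt (fun y : ℝ => wa_L (c * y + d)) (c * wa_C (c * y + d)) y := by
  have hs := wa_sin_pos _ h0 h1
  have h2 : HasDerivAt (fun x : ℝ => Real.pi * x) Real.pi (c * y + d) := by
    simpa using (hasDerivAt_id (c * y + d)).const_mul Real.pi
  have h3 : HasDerivAt (fun x : ℝ => 2 * Real.sin (Real.pi * x))
      (2 * (Real.cos (Real.pi * (c * y + d)) * Real.pi)) (c * y + d) :=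
    ((Real.hasDerivAt_sin (Real.pi * (c * y + d))).comp (c * y + d) h2).const_mul 2
  have h4 := (h3.log (by positivity)).comp y (wa_lin c d y)
  refine h4.congr_deriv ?_
  rw [wa_C]
  field_simp

/-- The function. -/
private noncomputable def wa_W (c d y : ℝ) : ℝ :=
  4 * Fr (1 * y + 1 / 2) - 2 * Fr (c * y + d) - Fr (13 / 100 * y + 0) - Fr (187 / 100 * y + 0)

private noncomputable def wa_W1 (c d y : ℝ) : ℝ :=
  4 * (1 * wa_L (1 * y + 1 / 2)) - 2 * (c * wa_L (c * y + d)) -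
    13 / 100 * wa_L (13 / 100 * y + 0) - 187 / 100 * wa_L (187 / 100 * y + 0)

private noncomputable def wa_W2 (c d y : ℝ) : ℝ :=
  4 * (1 * (1 * wa_C (1 * y + 1 / 2))) - 2 * (c * (c * wa_C (c * y + d))) -
    13 / 100 * (13 / 100 * wa_C (13 / 100 * y + 0)) -
    187 / 100 * (187 / 100 * wa_C (187 / 100 * y + 0))

private lemma wa_d1 (c d y : ℝ) (h0 : 0 < y) (h1 : y < 1 / 2) (h2 : 0 < c * y + d)
    (h3 : c * y + d < 1) : HasDerivAt (wa_W c d) (wa_W1 c d y) y := by
  exact ((((wa_F 1 (1 / 2) y (by linarith) (by linarith)).const_mul 4).sub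
    ((wa_F c d y h2 h3).const_mul 2)).sub (wa_F (13 / 100) 0 y (by linarith) (by linarith))).sub
    (wa_F (187 / 100) 0 y (by linarith) (by linarith))

private lemma wa_d2 (c d y : ℝ) (h0 : 0 < y) (h1 : y < 1 / 2) (h2 : 0 < c * y + d)
    (h3 : c * y + d < 1) : HasDerivAt (wa_W1 c d) (wa_W2 c d y) y := by
  exact (((((wa_LD 1 (1 / 2) y (by linarith) (by linarith)).const_mul 1).const_mul 4).sub
    (((wa_LD c d y h2 h3).const_mul c).const_mul 2)).sub
    ((wa_LD (13 / 100) 0 y (by linarith) (by linarith)).const_mul (13 / 100))).sub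
    ((wa_LD (187 / 100) 0 y (by linarith) (by linarith)).const_mul (187 / 100))

private lemma wa_C_nn (x : ℝ) (h0 : 0 < x) (h1 : x ≤ 1 / 2) : 0 ≤ wa_C x := by
  have hp := Real.pi_pos
  have hs := wa_sin_pos x h0 (by linarith)
  have hc : 0 ≤ Real.cos (Real.pi * x) := Real.cos_nonneg_of_mem_Icc ⟨by nlinarith, by nlinarith⟩
  rw [wa_C]
  positivity

private lemma wa_C_comb (y : ℝ) (h0 : 0 < y) (h1 : y ≤ 3 / 8) :
    4 * wa_C (y + 1 / 2) - 187 / 100 * (187 / 100 * wa_C (187 / 100 * y)) ≤ 0 := by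
  have hp := Real.pi_pos
  have hs : 0 < Real.sin (Real.pi * y) := wa_sin_pos y h0 (by linarith)
  have hc : 0 < Real.cos (Real.pi * y) := Real.cos_pos_of_mem_Ioo ⟨by nlinarith, by nlinarith⟩
  have hsu : 0 < Real.sin (Real.pi * (187 / 100 * y)) := wa_sin_pos _ (by linarith) (by linarith)
  have e1 : wa_C (y + 1 / 2) = -(Real.pi * (Real.sin (Real.pi * y) / Real.cos (Real.pi * y))) := by
    rw [wa_C, show Real.pi * (y + 1 / 2) = Real.pi * y + Real.pi / 2 by ring,
      Real.cos_add_pi_div_two, Real.sin_add_pi_div_two]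
    ring
  have h2 : 0 ≤ Real.cos (Real.pi * (187 / 100 * y) - Real.pi * y) :=
    Real.cos_nonneg_of_mem_Icc ⟨by nlinarith, by nlinarith⟩
  rw [Real.cos_sub] at h2
  have h3 : 0 ≤ Real.cos (Real.pi * (187 / 100 * y)) / Real.sin (Real.pi * (187 / 100 * y)) +
      Real.sin (Real.pi * y) / Real.cos (Real.pi * y) := by
    rw [div_add_div _ _ hsu.ne' hc.ne']
    apply div_nonneg _ (by positivity)
    linarith
  have h4 : 0 ≤ Real.pi * (Real.sin (Real.pi * y) / Real.cos (Real.pi * y)) := by positivity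
  have h5 : 0 ≤ wa_C (187 / 100 * y) +
      Real.pi * (Real.sin (Real.pi * y) / Real.cos (Real.pi * y)) := by
    rw [wa_C, ← mul_add]
    positivity
  rw [e1]
  linarith

private lemma wa_W2_neg (c d y : ℝ) (h0 : 0 < y) (h1 : y ≤ 3 / 8) (h2 : 0 < c * y + d)
    (h3 : c * y + d ≤ 1 / 2) : wa_W2 c d y ≤ 0 := by
  have h4 := wa_C_comb y h0 h1
  have h5 : 0 ≤ c * (c * wa_C (c * y + d)) := by
    have := wa_C_nn _ h2 h3
    rw [← mul_assoc]
    exact mul_nonneg (mul_self_nonneg c) this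
  have h6 : 0 ≤ wa_C (13 / 100 * y) := wa_C_nn _ (by linarith) (by linarith)
  rw [wa_W2]
  simp only [one_mul, add_zero]
  linarith

private lemma wa_main (c d a b : ℝ) (ha : 0 < a) (ha1 : a ≤ 231 / 1000) (hb : b ≤ 3 / 8)
    (hb1 : 231 / 1000 ≤ b)
    (hcd : ∀ y ∈ Set.Icc a b, 0 < c * y + d ∧ c * y + d ≤ 1 / 2) (y : ℝ) (hy : y ∈ Set.Icc a b) :
    wa_W c d y ≤ wa_W c d (231 / 1000) + wa_W1 c d (231 / 1000) * (y - 231 / 1000) := by
  refine wa_tan (wa_W c d) (wa_W1 c d) a b _ ?_ ?_ ⟨ha1, hb1⟩ y hy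
  · intro x hx
    exact wa_d1 c d x (by linarith [hx.1]) (by linarith [hx.2]) (hcd x hx).1
      (by linarith [(hcd x hx).2])
  · refine wa_anti (wa_W1 c d) (wa_W2 c d) a b ?_ ?_
    · intro x hx
      exact wa_d2 c d x (by linarith [hx.1]) (by linarith [hx.2]) (hcd x hx).1
        (by linarith [(hcd x hx).2])
    · intro x hx
      exact wa_W2_neg c d x (by linarith [hx.1]) (by linarith [hx.2]) (hcd x hx).1 (hcd x hx).2

/-! ## Numerical values -/

private lemma wa_low (a l m : ℝ) (h0 : 0 < a) (h1 : a ≤ 1 / 2) (hl : l ≤ Real.log (2 * Real.pi * a))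
    (hm : m ≤ a * l - a - 9.8697 * a ^ 3 / 18 - 97.411 * a ^ 5 / 900 - 961.42 * a ^ 7 / 19845 -
      a ^ 9 / 25) : m ≤ Fr a := by
  have hp := Real.pi_pos
  have hp1 := Real.pi_lt_d4
  have h2 : Real.pi ^ 2 ≤ 9.8697 := by
    calc Real.pi ^ 2 ≤ 3.1416 ^ 2 := by gcongr
      _ ≤ 9.8697 := by norm_num
  have h4 : Real.pi ^ 4 ≤ 97.411 := by
    calc Real.pi ^ 4 ≤ 3.1416 ^ 4 := by gcongr
      _ ≤ 97.411 := by norm_num
  have h6 : Real.pi ^ 6 ≤ 961.42 := by
    calc Real.pi ^ 6 ≤ 3.1416 ^ 6 := by gcongr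
      _ ≤ 961.42 := by norm_num
  have h := (Fr_num a h0 h1).1
  rw [Ft] at h
  have e2 : Real.pi ^ 2 * a ^ 3 / 18 ≤ 9.8697 * a ^ 3 / 18 := by gcongr
  have e4 : Real.pi ^ 4 * a ^ 5 / 900 ≤ 97.411 * a ^ 5 / 900 := by gcongr
  have e6 : Real.pi ^ 6 * a ^ 7 / 19845 ≤ 961.42 * a ^ 7 / 19845 := by gcongr
  have e7 : a * l ≤ a * Real.log (2 * Real.pi * a) := by gcongr
  linarith

private lemma wa_v1 : -0.13866 ≤ Fr (269 / 1000) := by
  refine wa_low _ 0.5248 _ (by norm_num) (by norm_num) ?_ (by norm_num)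
  have hp := Real.pi_gt_d4
  refine wa_loglo _ 0.25654 _ 0 (by norm_num) (by norm_num) ?_ ?_
  · norm_num at hp ⊢
    linarith
  · norm_num

private lemma wa_v2 : -0.15179 ≤ Fr (231 / 1000) := by
  refine wa_low _ 0.3725 _ (by norm_num) (by norm_num) ?_ (by norm_num)
  have hp := Real.pi_gt_d4
  refine wa_loglo _ 0.18413 _ 0 (by norm_num) (by norm_num) ?_ ?_
  · norm_num at hp ⊢
    linarith
  · norm_num

private lemma wa_v3 : -0.08013 ≤ Fr (3003 / 100000) := by
  refine wa_low _ (-1.66773) _ (by norm_num) (by norm_num) ?_ (by norm_num)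
  have hp := Real.pi_gt_d4
  have h2 := Real.log_two_lt_d9
  refine wa_loglo _ 0.203 _ (-3) (by norm_num) (by norm_num) ?_ ?_
  · norm_num at hp ⊢
    linarith
  · norm_num at h2 ⊢
    linarith

private lemma wa_v4 : -0.04666 ≤ Fr (43197 / 100000) := by
  refine wa_low _ 0.99843 _ (by norm_num) (by norm_num) ?_ (by norm_num)
  have hp := Real.pi_gt_d4
  have h2 := Real.log_two_gt_d9
  refine wa_loglo _ 0.15147 _ 1 (by norm_num) (by norm_num) ?_ ?_
  · norm_num at hp ⊢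
    linarith
  · norm_num at h2 ⊢
    linarith

private lemma wa_v5 : -0.08918 ≤ Fr (731 / 2000) := by
  refine wa_low _ 0.83134 _ (by norm_num) (by norm_num) ?_ (by norm_num)
  have hp := Real.pi_gt_d4
  have h2 := Real.log_two_gt_d9
  refine wa_loglo _ 0.06899 _ 1 (by norm_num) (by norm_num) ?_ ?_
  · norm_num at hp ⊢
    linarith
  · norm_num at h2 ⊢
    linarith

private lemma wa_v0 : Fr (1 * (231 / 1000) + 1 / 2) = -Fr (269 / 1000) := by
  rw [← Fr_neg, ← Fr_add_one (-(269 / 1000))]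
  congr 1
  norm_num

/-- Bounds for the cosine. -/
private lemma wa_cosb (u u1 u2 : ℝ) (h0 : 0 ≤ u1) (h1 : u1 ≤ u) (h2 : u ≤ u2) (h3 : u2 ≤ 3) :
    1 - u2 ^ 2 / 2 + u2 ^ 4 / 24 - u2 ^ 6 / 720 ≤ Real.cos u ∧
      Real.cos u ≤ 1 - u1 ^ 2 / 2 + u1 ^ 4 / 24 := by
  have hp := Real.pi_gt_three
  constructor
  · exact (wa_cos6 u2 (by linarith)).trans
      (Real.cos_le_cos_of_nonneg_of_le_pi (by linarith) (by linarith) h2)
  · exact (Real.cos_le_cos_of_nonneg_of_le_pi h0 (by linarith) h1).trans (wa_cos4 u1 h0)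

/-- Bounds for the sine. -/
private lemma wa_sinb (u u1 u2 : ℝ) (h0 : 0 ≤ u1) (h1 : u1 ≤ u) (h2 : u ≤ u2) (h3 : u2 ≤ 3 / 2) :
    u1 - u1 ^ 3 / 6 + u1 ^ 5 / 120 - u1 ^ 7 / 5040 ≤ Real.sin u ∧
      Real.sin u ≤ u2 - u2 ^ 3 / 6 + u2 ^ 5 / 120 := by
  have hp := Real.pi_gt_three
  constructor
  · exact (wa_sin7 u1 h0).trans
      (Real.sin_le_sin_of_le_of_le_pi_div_two (by linarith) (by linarith) h1)
  · exact (Real.sin_le_sin_of_le_of_le_pi_div_two (by linarith) (by linarith) h2).trans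
      (wa_sin5 u2 (by linarith))

private lemma wa_s1 : 0.4028 ≤ wa_L (1 * (231 / 1000) + 1 / 2) ∧
    wa_L (1 * (231 / 1000) + 1 / 2) ≤ 0.4032 := by
  have hp := Real.pi_gt_d4
  have hp2 := Real.pi_lt_d4
  have e : Real.sin (Real.pi * (1 * (231 / 1000) + 1 / 2)) = Real.cos (Real.pi * (231 / 1000)) := by
    rw [show Real.pi * (1 * (231 / 1000) + 1 / 2) = Real.pi * (231 / 1000) + Real.pi / 2 by ring,
      Real.sin_add_pi_div_two]
  have hc := wa_cosb (Real.pi * (231 / 1000)) (3.1415 * (231 / 1000)) (3.1416 * (231 / 1000))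
    (by norm_num) (by linarith) (by linarith) (by norm_num)
  have h1 : 1.49605 ≤ 2 * Real.cos (Real.pi * (231 / 1000)) := by
    refine le_trans ?_ (mul_le_mul_of_nonneg_left hc.1 (by norm_num))
    norm_num
  have h2 : 2 * Real.cos (Real.pi * (231 / 1000)) ≤ 1.49649 := by
    refine le_trans (mul_le_mul_of_nonneg_left hc.2 (by norm_num)) ?_
    norm_num
  rw [wa_L, e]
  constructor
  · refine wa_loglo _ 0.19873 _ 0 (by norm_num) (by norm_num) (le_trans ?_ h1) ?_
    · norm_num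
    · norm_num
  · refine wa_loghi _ 0.19888 _ 0 (by norm_num) (by norm_num) (by linarith) (h2.trans ?_) ?_
    · norm_num
    · norm_num

private lemma wa_s2 : 0.2830 ≤ wa_L (231 / 1000) ∧ wa_L (231 / 1000) ≤ 0.2833 := by
  have hp := Real.pi_gt_d4
  have hp2 := Real.pi_lt_d4
  have hc := wa_sinb (Real.pi * (231 / 1000)) (3.1415 * (231 / 1000)) (3.1416 * (231 / 1000))
    (by norm_num) (by linarith) (by linarith) (by norm_num)
  have h1 : 1.32729 ≤ 2 * Real.sin (Real.pi * (231 / 1000)) := by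
    refine le_trans ?_ (mul_le_mul_of_nonneg_left hc.1 (by norm_num))
    norm_num
  have h2 : 2 * Real.sin (Real.pi * (231 / 1000)) ≤ 1.32738 := by
    refine le_trans (mul_le_mul_of_nonneg_left hc.2 (by norm_num)) ?_
    norm_num
  rw [wa_L]
  constructor
  · refine wa_loglo _ 0.14063 _ 0 (by norm_num) (by norm_num) (le_trans ?_ h1) ?_
    · norm_num
    · norm_num
  · refine wa_loghi _ 0.14067 _ 0 (by norm_num) (by norm_num) (by linarith) (h2.trans ?_) ?_
    · norm_num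
    · norm_num

private lemma wa_s3 : -1.6693 ≤ wa_L (3003 / 100000) ∧ wa_L (3003 / 100000) ≤ -1.6691 := by
  have hp := Real.pi_gt_d4
  have hp2 := Real.pi_lt_d4
  have hl1 := Real.log_two_gt_d9
  have hl2 := Real.log_two_lt_d9
  have hc := wa_sinb (Real.pi * (3003 / 100000)) (3.1415 * (3003 / 100000))
    (3.1416 * (3003 / 100000)) (by norm_num) (by linarith) (by linarith) (by norm_num)
  have h1 : 0.18839 ≤ 2 * Real.sin (Real.pi * (3003 / 100000)) := by
    refine le_trans ?_ (mul_le_mul_of_nonneg_left hc.1 (by norm_num))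
    norm_num
  have h2 : 2 * Real.sin (Real.pi * (3003 / 100000)) ≤ 0.18841 := by
    refine le_trans (mul_le_mul_of_nonneg_left hc.2 (by norm_num)) ?_
    norm_num
  rw [wa_L]
  constructor
  · refine wa_loglo _ 0.20227 _ (-3) (by norm_num) (by norm_num) (le_trans ?_ h1) ?_
    · norm_num
    · norm_num at hl2 ⊢
      linarith
  · refine wa_loghi _ 0.20233 _ (-3) (by norm_num) (by norm_num) (by linarith) (h2.trans ?_) ?_
    · norm_num
    · norm_num at hl1 ⊢
      linarith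

private lemma wa_s4 : 0.6701 ≤ wa_L (43197 / 100000) ∧ wa_L (43197 / 100000) ≤ 0.6702 := by
  have hp := Real.pi_gt_d4
  have hp2 := Real.pi_lt_d4
  have e : Real.sin (Real.pi * (43197 / 100000)) = Real.cos (Real.pi * (6803 / 100000)) := by
    rw [← Real.cos_pi_div_two_sub]
    congr 1
    ring
  have hc := wa_cosb (Real.pi * (6803 / 100000)) (3.1415 * (6803 / 100000))
    (3.1416 * (6803 / 100000)) (by norm_num) (by linarith) (by linarith) (by norm_num)
  have h1 : 1.95449 ≤ 2 * Real.cos (Real.pi * (6803 / 100000)) := by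
    refine le_trans ?_ (mul_le_mul_of_nonneg_left hc.1 (by norm_num))
    norm_num
  have h2 : 2 * Real.cos (Real.pi * (6803 / 100000)) ≤ 1.9545 := by
    refine le_trans (mul_le_mul_of_nonneg_left hc.2 (by norm_num)) ?_
    norm_num
  rw [wa_L, e]
  constructor
  · refine wa_loglo _ 0.32306 _ 0 (by norm_num) (by norm_num) (le_trans ?_ h1) ?_
    · norm_num
    · norm_num
  · refine wa_loghi _ 0.32307 _ 0 (by norm_num) (by norm_num) (by linarith) (h2.trans ?_) ?_
    · norm_num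
    · norm_num

private lemma wa_s5 : 0.601 ≤ wa_L (731 / 2000) ∧ wa_L (731 / 2000) ≤ 0.6012 := by
  have hp := Real.pi_gt_d4
  have hp2 := Real.pi_lt_d4
  have e : Real.sin (Real.pi * (731 / 2000)) = Real.cos (Real.pi * (269 / 2000)) := by
    rw [← Real.cos_pi_div_two_sub]
    congr 1
    ring
  have hc := wa_cosb (Real.pi * (269 / 2000)) (3.1415 * (269 / 2000))
    (3.1416 * (269 / 2000)) (by norm_num) (by linarith) (by linarith) (by norm_num)
  have h1 : 1.82409 ≤ 2 * Real.cos (Real.pi * (269 / 2000)) := by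
    refine le_trans ?_ (mul_le_mul_of_nonneg_left hc.1 (by norm_num))
    norm_num
  have h2 : 2 * Real.cos (Real.pi * (269 / 2000)) ≤ 1.82413 := by
    refine le_trans (mul_le_mul_of_nonneg_left hc.2 (by norm_num)) ?_
    norm_num
  rw [wa_L, e]
  constructor
  · refine wa_loglo _ 0.2918 _ 0 (by norm_num) (by norm_num) (le_trans ?_ h1) ?_
    · norm_num
    · norm_num
  · refine wa_loghi _ 0.29182 _ 0 (by norm_num) (by norm_num) (by linarith) (h2.trans ?_) ?_
    · norm_num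
    · norm_num

private lemma wa_valA : wa_W 1 0 (231 / 1000) ≤ 0.98501 := by
  have h1 := wa_v1
  have h2 := wa_v2
  have h3 := wa_v3
  have h4 := wa_v4
  rw [wa_W, wa_v0, show (1 : ℝ) * (231 / 1000) + 0 = 231 / 1000 by norm_num,
    show (13 / 100 : ℝ) * (231 / 1000) + 0 = 3003 / 100000 by norm_num,
    show (187 / 100 : ℝ) * (231 / 1000) + 0 = 43197 / 100000 by norm_num]
  linarith

private lemma wa_valB : wa_W (1 / 2) (1 / 4) (231 / 1000) ≤ 0.85979 := by
  have h1 := wa_v1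
  have h2 := wa_v5
  have h3 := wa_v3
  have h4 := wa_v4
  rw [wa_W, wa_v0, show (1 / 2 : ℝ) * (231 / 1000) + 1 / 4 = 731 / 2000 by norm_num,
    show (13 / 100 : ℝ) * (231 / 1000) + 0 = 3003 / 100000 by norm_num,
    show (187 / 100 : ℝ) * (231 / 1000) + 0 = 43197 / 100000 by norm_num]
  linarith

private lemma wa_slA : 0 ≤ wa_W1 1 0 (231 / 1000) ∧ wa_W1 1 0 (231 / 1000) ≤ 0.02 := by
  have h1 := wa_s1
  have h2 := wa_s2
  have h3 := wa_s3
  have h4 := wa_s4
  rw [wa_W1, show (1 : ℝ) * (231 / 1000) + 0 = 231 / 1000 by norm_num,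
    show (13 / 100 : ℝ) * (231 / 1000) + 0 = 3003 / 100000 by norm_num,
    show (187 / 100 : ℝ) * (231 / 1000) + 0 = 43197 / 100000 by norm_num]
  constructor
  · linarith [h1.1, h2.2, h3.2, h4.2]
  · linarith [h1.2, h2.1, h3.1, h4.1]

private lemma wa_slB : -0.03 ≤ wa_W1 (1 / 2) (1 / 4) (231 / 1000) ∧
    wa_W1 (1 / 2) (1 / 4) (231 / 1000) ≤ 0 := by
  have h1 := wa_s1
  have h2 := wa_s5
  have h3 := wa_s3
  have h4 := wa_s4
  rw [wa_W1, show (1 / 2 : ℝ) * (231 / 1000) + 1 / 4 = 731 / 2000 by norm_num,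
    show (13 / 100 : ℝ) * (231 / 1000) + 0 = 3003 / 100000 by norm_num,
    show (187 / 100 : ℝ) * (231 / 1000) + 0 = 43197 / 100000 by norm_num]
  constructor
  · linarith [h1.1, h2.2, h3.2, h4.2]
  · linarith [h1.2, h2.1, h3.1, h4.1]

theorem wallA (y : ℝ) (h0 : 13 / 100 ≤ y) (h1 : y ≤ 368 / 1000) :
    4 * Fr (y + 1 / 2) - 2 * Fr y - Fr (13 / 100 * y) - Fr (187 / 100 * y) ≤ 99 / 100 := by
  have h := wa_main 1 0 (13 / 100) (368 / 1000) (by norm_num) (by norm_num) (by norm_num)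
    (by norm_num) (fun y hy => ⟨by linarith [hy.1], by linarith [hy.2]⟩) y ⟨h0, h1⟩
  have h2 := wa_valA
  have h3 := wa_slA
  have h4 : wa_W1 1 0 (231 / 1000) * (y - 231 / 1000) ≤ 0.02 * (137 / 1000) := by
    rcases le_total y (231 / 1000) with h5 | h5
    · exact (mul_nonpos_of_nonneg_of_nonpos h3.1 (by linarith)).trans (by norm_num)
    · exact mul_le_mul h3.2 (by linarith) (by linarith) (by norm_num)
  have e : wa_W 1 0 y =
      4 * Fr (y + 1 / 2) - 2 * Fr y - Fr (13 / 100 * y) - Fr (187 / 100 * y) := by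
    simp only [wa_W, one_mul, add_zero]
  rw [e] at h
  norm_num at h2 h4 ⊢
  linarith

theorem wallB3 (y : ℝ) (h0 : 11 / 100 ≤ y) (h1 : y ≤ 375 / 1000) :
    4 * Fr (y + 1 / 2) - 2 * Fr ((y + 1 / 2) / 2) - Fr (13 / 100 * y) - Fr (187 / 100 * y) ≤
      89 / 100 := by
  have h := wa_main (1 / 2) (1 / 4) (11 / 100) (375 / 1000) (by norm_num) (by norm_num)
    (by norm_num) (by norm_num) (fun y hy => ⟨by linarith [hy.1], by linarith [hy.2]⟩) y ⟨h0, h1⟩
  have h2 := wa_valB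
  have h3 := wa_slB
  have h4 : wa_W1 (1 / 2) (1 / 4) (231 / 1000) * (y - 231 / 1000) ≤ 0.03 * (121 / 1000) := by
    rcases le_total y (231 / 1000) with h5 | h5
    · have h6 : -wa_W1 (1 / 2) (1 / 4) (231 / 1000) * (231 / 1000 - y) ≤ 0.03 * (121 / 1000) :=
        mul_le_mul (by linarith [h3.1]) (by linarith) (by linarith) (by norm_num)
      linarith
    · exact (mul_nonpos_of_nonpos_of_nonneg h3.2 (by linarith)).trans (by norm_num)
  have e : wa_W (1 / 2) (1 / 4) y =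
      4 * Fr (y + 1 / 2) - 2 * Fr ((y + 1 / 2) / 2) - Fr (13 / 100 * y) -
        Fr (187 / 100 * y) := by
    simp only [wa_W, one_mul, add_zero]
    rw [show (1 / 2 : ℝ) * y + 1 / 4 = (y + 1 / 2) / 2 by ring]
  rw [e] at h
  norm_num at h2 h4 ⊢
  linarith

end Pool.Agent.H63.GO
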