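import Pool.Agent.H63.GO.FNum

/-! # The one-variable inequalities: wall, class B2 and C -/

namespace Pool.Agent.H63.GO

open Complex Filter Topology Pool.Agent.H63.VC Pool.Agent.H63.VC3

/-! ### Elementary numerical bounds -/

private lemma FarWB_mono {f f' : ℝ → ℝ} (hf : ∀ x, HasDerivAt f (f' x) x) (h0 : f 0 = 0)
    (h : ∀ x, 0 ≤ x → 0 ≤ f' x) {x : ℝ} (hx : 0 ≤ x) : 0 ≤ f x := by
  have h1 : MonotoneOn f (Set.Ici 0) := by
    refine monotoneOn_of_deriv_nonneg (convex_Ici 0)
      (fun y _ => (hf y).continuousAt.continuousWithinAt)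
      (fun y _ => (hf y).differentiableAt.differentiableWithinAt) ?_
    intro y hy
    rw [interior_Ici] at hy
    rw [(hf y).deriv]
    exact h y (le_of_lt hy)
  have h2 := h1 (Set.mem_Ici.2 le_rfl) (Set.mem_Ici.2 hx) hx
  rwa [h0] at h2

private lemma FarWB_pow (n : ℕ) (c x : ℝ) :
    HasDerivAt (fun t : ℝ => c * t ^ n) (c * (n * x ^ (n - 1))) x :=
  (hasDerivAt_pow n x).const_mul c

private lemma FarWB_cos_up {x : ℝ} (hx : 0 ≤ x) :
    Real.cos x ≤ 1 - x ^ 2 / 2 + x ^ 4 / 24 := by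
  have h := FarWB_mono (f := fun x => 1 + (-1 / 2) * x ^ 2 + (1 / 24) * x ^ 4 - Real.cos x)
    (f' := fun x => (-1 / 2) * ((2 : ℕ) * x ^ (2 - 1)) + (1 / 24) * ((4 : ℕ) * x ^ (4 - 1)) -
      -Real.sin x)
    (fun x => (((FarWB_pow 2 (-1 / 2) x).const_add 1).add (FarWB_pow 4 (1 / 24) x)).sub
      (Real.hasDerivAt_cos x)) (by simp) (fun x hx => by
        have := Real.sin_ge_sub_cube hx
        push_cast
        norm_num
        linarith only [this]) hx
  linarith only [h]

private lemma FarWB_sin_up {x : ℝ} (hx : 0 ≤ x) :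
    Real.sin x ≤ x - x ^ 3 / 6 + x ^ 5 / 120 := by
  have h := FarWB_mono (f := fun x => 1 * x ^ 1 + (-1 / 6) * x ^ 3 + (1 / 120) * x ^ 5 - Real.sin x)
    (f' := fun x => 1 * ((1 : ℕ) * x ^ (1 - 1)) + (-1 / 6) * ((3 : ℕ) * x ^ (3 - 1)) +
      (1 / 120) * ((5 : ℕ) * x ^ (5 - 1)) - Real.cos x)
    (fun x => (((FarWB_pow 1 1 x).add (FarWB_pow 3 (-1 / 6) x)).add
      (FarWB_pow 5 (1 / 120) x)).sub (Real.hasDerivAt_sin x)) (by simp) (fun x hx => by
        have := FarWB_cos_up hx
        push_cast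
        norm_num
        linarith only [this]) hx
  linarith only [h]

private lemma FarWB_cos_lo {x : ℝ} (hx : 0 ≤ x) :
    1 - x ^ 2 / 2 + x ^ 4 / 24 - x ^ 6 / 720 ≤ Real.cos x := by
  have h := FarWB_mono
    (f := fun x => Real.cos x + -1 + (1 / 2) * x ^ 2 + (-1 / 24) * x ^ 4 + (1 / 720) * x ^ 6)
    (f' := fun x => -Real.sin x + (1 / 2) * ((2 : ℕ) * x ^ (2 - 1)) +
      (-1 / 24) * ((4 : ℕ) * x ^ (4 - 1)) + (1 / 720) * ((6 : ℕ) * x ^ (6 - 1)))
    (fun x => ((((Real.hasDerivAt_cos x).add_const (-1)).add (FarWB_pow 2 (1 / 2) x)).add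
      (FarWB_pow 4 (-1 / 24) x)).add (FarWB_pow 6 (1 / 720) x)) (by simp) (fun x hx => by
        have := FarWB_sin_up hx
        push_cast
        norm_num
        linarith only [this]) hx
  linarith only [h]

private lemma FarWB_sin_lo {x : ℝ} (hx : 0 ≤ x) :
    x - x ^ 3 / 6 + x ^ 5 / 120 - x ^ 7 / 5040 ≤ Real.sin x := by
  have h := FarWB_mono
    (f := fun x => Real.sin x + (-1) * x ^ 1 + (1 / 6) * x ^ 3 + (-1 / 120) * x ^ 5 +
      (1 / 5040) * x ^ 7)
    (f' := fun x => Real.cos x + (-1) * ((1 : ℕ) * x ^ (1 - 1)) +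
      (1 / 6) * ((3 : ℕ) * x ^ (3 - 1)) +
      (-1 / 120) * ((5 : ℕ) * x ^ (5 - 1)) + (1 / 5040) * ((7 : ℕ) * x ^ (7 - 1)))
    (fun x => ((((Real.hasDerivAt_sin x).add (FarWB_pow 1 (-1) x)).add
      (FarWB_pow 3 (1 / 6) x)).add
      (FarWB_pow 5 (-1 / 120) x)).add (FarWB_pow 7 (1 / 5040) x)) (by simp) (fun x hx => by
        have := FarWB_cos_lo hx
        push_cast
        norm_num
        linarith only [this]) hx
  linarith only [h]

/-- Numerical bounds of `sin (π a)`. -/
private lemma FarWB_sin {a : ℝ} (h0 : 0 ≤ a) (h1 : a ≤ 49 / 100) :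
    (3.141592 * a) - (3.141592 * a) ^ 3 / 6 + (3.141592 * a) ^ 5 / 120 -
      (3.141592 * a) ^ 7 / 5040 ≤ Real.sin (Real.pi * a) ∧
    Real.sin (Real.pi * a) ≤
      (3.141593 * a) - (3.141593 * a) ^ 3 / 6 + (3.141593 * a) ^ 5 / 120 := by
  have hp1 := Real.pi_gt_d6
  have hp2 := Real.pi_lt_d6
  constructor
  · refine (FarWB_sin_lo (by linarith only [h0])).trans ?_
    apply Real.sin_le_sin_of_le_of_le_pi_div_two
    · linarith only [hp1, h0]
    · (refine le_of_not_gt fun hng => ?_; linarith only [hp2, hp1, h1,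
        mul_nonneg (sub_nonneg.2 h0) (sub_nonneg.2 hp2.le), mul_pos (sub_pos.2 hng) (sub_pos.2 hp2),
        mul_pos (sub_pos.2 hng) (sub_pos.2 hp1)])
    · exact mul_le_mul_of_nonneg_right hp1.le h0
  · refine le_trans ?_ (FarWB_sin_up (by linarith only [h0]))
    apply Real.sin_le_sin_of_le_of_le_pi_div_two
    · (refine le_of_not_gt fun hng => ?_; linarith only [hp2, hp1, h0,
        mul_nonneg (sub_nonneg.2 h0) (sub_nonneg.2 hp1.le), mul_pos (sub_pos.2 hng) (sub_pos.2 hp2),
        mul_pos (sub_pos.2 hng) (sub_pos.2 hp1)])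
    · linarith only [hp1, h1]
    · exact mul_le_mul_of_nonneg_right hp2.le h0

/-- Numerical bounds of `log q`, `1 ≤ q ≤ 2`. -/
private lemma FarWB_lg (q : ℝ) (h1 : 1 ≤ q) (h2 : q ≤ 2) :
    2 * (((q - 1) / (q + 1)) + ((q - 1) / (q + 1)) ^ 3 / 3 + ((q - 1) / (q + 1)) ^ 5 / 5 +
      ((q - 1) / (q + 1)) ^ 7 / 7) ≤ Real.log q ∧
    Real.log q ≤ 2 * (((q - 1) / (q + 1)) + ((q - 1) / (q + 1)) ^ 3 / 3 +
      ((q - 1) / (q + 1)) ^ 5 / 5 + ((q - 1) / (q + 1)) ^ 7 / 7) +
      ((q - 1) / (q + 1)) ^ 9 / 3 := by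
  have hq : 0 < q + 1 := by linarith only [h1]
  have h := log_series ((q - 1) / (q + 1)) (div_nonneg (by linarith only [h1]) hq.le)
    (by rw [div_le_iff₀ hq]; linarith only [h2])
  have e : (1 + (q - 1) / (q + 1)) / (1 - (q - 1) / (q + 1)) = q := by
    have h3 : 1 - (q - 1) / (q + 1) = 2 / (q + 1) := by
      field_simp
      ring
    rw [h3]
    field_simp
    ring
  rwa [e] at h

/-- Upper bound of `Fr`. -/
private lemma FarWB_Fu {a l : ℝ} (h0 : 0 < a) (h1 : a ≤ 1 / 2)
    (hl : Real.log (6.283186 * a) ≤ l) :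
    Fr a ≤ a * l - a - 9.8696 * a ^ 3 / 18 - 97.409 * a ^ 5 / 900 - 961.38 * a ^ 7 / 19845 := by
  have hp1 := Real.pi_gt_d6
  have hp2 := Real.pi_lt_d6
  have h := (Fr_num a h0 h1).2
  unfold Ft at h
  have hlog : Real.log (2 * Real.pi * a) ≤ l := by
    refine (Real.log_le_log (by positivity) ?_).trans hl
    exact mul_le_mul_of_nonneg_right (by linarith only [hp2]) h0.le
  have e2 : (9.8696 : ℝ) ≤ Real.pi ^ 2 :=
    le_trans (by norm_num) (pow_le_pow_left₀ (by norm_num) hp1.le 2)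
  have e4 : (97.409 : ℝ) ≤ Real.pi ^ 4 :=
    le_trans (by norm_num) (pow_le_pow_left₀ (by norm_num) hp1.le 4)
  have e6 : (961.38 : ℝ) ≤ Real.pi ^ 6 :=
    le_trans (by norm_num) (pow_le_pow_left₀ (by norm_num) hp1.le 6)
  have g0 := mul_le_mul_of_nonneg_left hlog h0.le
  have g2 := mul_le_mul_of_nonneg_right e2 (pow_nonneg h0.le 3)
  have g4 := mul_le_mul_of_nonneg_right e4 (pow_nonneg h0.le 5)
  have g6 := mul_le_mul_of_nonneg_right e6 (pow_nonneg h0.le 7)
  linarith only [g6, g4, g2, g0, h]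

/-- Lower bound of `Fr`. -/
private lemma FarWB_Fl {a l : ℝ} (h0 : 0 < a) (h1 : a ≤ 1 / 2)
    (hl : l ≤ Real.log (6.283184 * a)) :
    a * l - a - 9.8697 * a ^ 3 / 18 - 97.41 * a ^ 5 / 900 - 961.4 * a ^ 7 / 19845 -
      a ^ 9 / 25 ≤ Fr a := by
  have hp1 := Real.pi_gt_d6
  have hp2 := Real.pi_lt_d6
  have h := (Fr_num a h0 h1).1
  unfold Ft at h
  have hlog : l ≤ Real.log (2 * Real.pi * a) := by
    refine hl.trans (Real.log_le_log (by positivity) ?_)
    exact mul_le_mul_of_nonneg_right (by linarith only [hp1]) h0.le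
  have e2 : Real.pi ^ 2 ≤ (9.8697 : ℝ) :=
    le_trans (pow_le_pow_left₀ Real.pi_pos.le hp2.le 2) (by norm_num)
  have e4 : Real.pi ^ 4 ≤ (97.41 : ℝ) :=
    le_trans (pow_le_pow_left₀ Real.pi_pos.le hp2.le 4) (by norm_num)
  have e6 : Real.pi ^ 6 ≤ (961.4 : ℝ) :=
    le_trans (pow_le_pow_left₀ Real.pi_pos.le hp2.le 6) (by norm_num)
  have g0 := mul_le_mul_of_nonneg_left hlog h0.le
  have g2 := mul_le_mul_of_nonneg_right e2 (pow_nonneg h0.le 3)
  have g4 := mul_le_mul_of_nonneg_right e4 (pow_nonneg h0.le 5)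
  have g6 := mul_le_mul_of_nonneg_right e6 (pow_nonneg h0.le 7)
  linarith only [g6, g4, g2, g0, h]

private lemma FarWB_refl (x : ℝ) : Fr (1 - x) = -Fr x := by
  rw [← Fr_neg, ← Fr_add_one (-x)]
  congr 1
  ring

/-- Slopes at a point: bounds for `log (2 sin (π a))`. -/
private lemma FarWB_slope {a r s l u : ℝ} (h0 : 0 < a) (h1 : a ≤ 49 / 100) (hr : 0 < r)
    (hl : l ≤ Real.log r) (hu : Real.log s ≤ u)
    (hlo : r ≤ 2 * ((3.141592 * a) - (3.141592 * a) ^ 3 / 6 + (3.141592 * a) ^ 5 / 120 -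
      (3.141592 * a) ^ 7 / 5040))
    (hup : 2 * ((3.141593 * a) - (3.141593 * a) ^ 3 / 6 + (3.141593 * a) ^ 5 / 120) ≤ s) :
    l ≤ Real.log (2 * Real.sin (Real.pi * a)) ∧ Real.log (2 * Real.sin (Real.pi * a)) ≤ u := by
  have h := FarWB_sin h0.le h1
  have e1 : r ≤ 2 * Real.sin (Real.pi * a) := by linarith only [h.1, hlo]
  have e2 : 2 * Real.sin (Real.pi * a) ≤ s := by linarith only [h.2, hup]
  exact ⟨hl.trans (Real.log_le_log hr e1), (Real.log_le_log (hr.trans_le e1) e2).trans hu⟩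

/-! ### Concavity of `F(x) - F(91/100 x)` -/

private lemma FarWB_sin_pos {x : ℝ} (h0 : 0 < x) (h1 : x < 1) : 0 < Real.sin (Real.pi * x) :=
  Real.sin_pos_of_pos_of_lt_pi (by positivity) (by
    calc Real.pi * x < Real.pi * 1 := mul_lt_mul_of_pos_left h1 Real.pi_pos
      _ = Real.pi := mul_one _)

private lemma FarWB_logd {c x : ℝ} (h0 : 0 < c * x) (h1 : c * x < 1) :
    HasDerivAt (fun x : ℝ => Real.log (2 * Real.sin (Real.pi * (c * x))))
      (Real.pi * c * (Real.cos (Real.pi * (c * x)) / Real.sin (Real.pi * (c * x)))) x := by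
  have hs := FarWB_sin_pos h0 h1
  have h2 : HasDerivAt (fun x : ℝ => Real.pi * (c * x)) (Real.pi * c) x := by
    simpa using ((hasDerivAt_id x).const_mul c).const_mul Real.pi
  have h3 := (((Real.hasDerivAt_sin (Real.pi * (c * x))).comp x h2).const_mul 2).log (by
    simp only [Function.comp]
    positivity)
  refine h3.congr_deriv ?_
  simp only [Function.comp]
  field_simp

private lemma FarWB_anti : AntitoneOn (fun x : ℝ => Real.log (2 * Real.sin (Real.pi * (1 * x))) -
    91 / 100 * Real.log (2 * Real.sin (Real.pi * (91 / 100 * x)))) (Set.Icc (1 / 2) (9 / 10)) := by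
  have hd : ∀ x ∈ Set.Icc (1 / 2 : ℝ) (9 / 10), HasDerivAt
      (fun x : ℝ => Real.log (2 * Real.sin (Real.pi * (1 * x))) -
        91 / 100 * Real.log (2 * Real.sin (Real.pi * (91 / 100 * x))))
      (Real.pi * 1 * (Real.cos (Real.pi * (1 * x)) / Real.sin (Real.pi * (1 * x))) -
        91 / 100 * (Real.pi * (91 / 100) * (Real.cos (Real.pi * (91 / 100 * x)) /
          Real.sin (Real.pi * (91 / 100 * x))))) x := by
    intro x hx
    exact (FarWB_logd (by linarith only [hx.1]) (by linarith only [hx.2])).sub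
      ((FarWB_logd (by linarith only [hx.1]) (by linarith only [hx.2])).const_mul _)
  apply antitoneOn_of_deriv_nonpos (convex_Icc _ _)
  · intro x hx
    exact (hd x hx).continuousAt.continuousWithinAt
  · intro x hx
    exact (hd x (interior_subset hx)).differentiableAt.differentiableWithinAt
  · intro x hx
    have hx' := interior_subset hx
    rw [(hd x hx').deriv]
    have hp := Real.pi_pos
    have s1 : 0 < Real.sin (Real.pi * (1 * x)) :=
      FarWB_sin_pos (by linarith only [hx'.1]) (by linarith only [hx'.2])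
    have s2 : 0 < Real.sin (Real.pi * (91 / 100 * x)) :=
      FarWB_sin_pos (by linarith only [hx'.1]) (by linarith only [hx'.2])
    have c1 : Real.cos (Real.pi * (1 * x)) ≤ 0 := by
      apply Real.cos_nonpos_of_pi_div_two_le_of_le
      · linarith only [mul_nonneg (sub_nonneg.2 hp.le) (sub_nonneg.2 hx'.1)]
      · linarith only [hp, mul_nonneg (sub_nonneg.2 hp.le) (sub_nonneg.2 hx'.2)]
    have hsub : 0 ≤ Real.sin (Real.pi * (1 * x) - Real.pi * (91 / 100 * x)) := by
      apply Real.sin_nonneg_of_nonneg_of_le_pi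
      · linarith only [hp, mul_nonneg (sub_nonneg.2 hp.le) (sub_nonneg.2 hx'.1)]
      · linarith only [hp, mul_nonneg (sub_nonneg.2 hp.le) (sub_nonneg.2 hx'.2)]
    rw [Real.sin_sub] at hsub
    have key : Real.cos (Real.pi * (1 * x)) / Real.sin (Real.pi * (1 * x)) ≤
        Real.cos (Real.pi * (91 / 100 * x)) / Real.sin (Real.pi * (91 / 100 * x)) := by
      rw [div_le_div_iff₀ s1 s2]
      linarith only [hsub]
    have hneg : Real.cos (Real.pi * (1 * x)) / Real.sin (Real.pi * (1 * x)) ≤ 0 :=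
      div_nonpos_of_nonpos_of_nonneg c1 s1.le
    linarith only [mul_nonneg (sub_nonneg.2 hp.le) (sub_nonneg.2 hneg),
      mul_nonneg (sub_nonneg.2 hp.le) (sub_nonneg.2 key)]

private lemma FarWB_tan (x x0 : ℝ) (h0 : 1 / 2 ≤ x) (h1 : x ≤ 9 / 10) (h2 : 1 / 2 ≤ x0)
    (h3 : x0 ≤ 9 / 10) :
    Fr x - Fr (91 / 100 * x) ≤ Fr x0 - Fr (91 / 100 * x0) +
      (Real.log (2 * Real.sin (Real.pi * x0)) -
        91 / 100 * Real.log (2 * Real.sin (Real.pi * (91 / 100 * x0)))) * (x - x0) := by
  have hd : ∀ x ∈ Set.Icc (1 / 2 : ℝ) (9 / 10), HasDerivAt (fun x : ℝ => Fr x - Fr (91 / 100 * x))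
      (Real.log (2 * Real.sin (Real.pi * (1 * x))) -
        91 / 100 * Real.log (2 * Real.sin (Real.pi * (91 / 100 * x)))) x := by
    intro x hx
    have e1 := Fr_hasDerivAt x (by linarith only [hx.1]) (by linarith only [hx.2])
    have e2 := Fr_hasDerivAt (91 / 100 * x) (by linarith only [hx.1]) (by linarith only [hx.2])
    have e3 : HasDerivAt (fun x : ℝ => 91 / 100 * x) (91 / 100) x := by
      simpa using (hasDerivAt_id x).const_mul (91 / 100 : ℝ)
    have e4 := e1.sub (e2.comp x e3)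
    refine e4.congr_deriv ?_
    rw [one_mul]
    ring
  rcases lt_trichotomy x x0 with h | h | h
  · obtain ⟨c, hc, hs⟩ := exists_hasDerivAt_eq_slope (fun x : ℝ => Fr x - Fr (91 / 100 * x)) _ h
      (fun t ht => (hd t ⟨h0.trans ht.1, ht.2.trans h3⟩).continuousAt.continuousWithinAt)
      (fun t ht => hd t ⟨h0.trans ht.1.le, ht.2.le.trans h3⟩)
    have hm := FarWB_anti ⟨h0.trans hc.1.le, hc.2.le.trans h3⟩ ⟨h2, h3⟩ hc.2.le
    simp only at hm
    rw [hs, le_div_iff₀ (sub_pos.2 h)] at hm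
    rw [one_mul] at hm
    linarith only [hm]
  · rw [h]
    simp
  · obtain ⟨c, hc, hs⟩ := exists_hasDerivAt_eq_slope (fun x : ℝ => Fr x - Fr (91 / 100 * x)) _ h
      (fun t ht => (hd t ⟨h2.trans ht.1, ht.2.trans h1⟩).continuousAt.continuousWithinAt)
      (fun t ht => hd t ⟨h2.trans ht.1.le, ht.2.le.trans h1⟩)
    have hm := FarWB_anti ⟨h2, h3⟩ ⟨h2.trans hc.1.le, hc.2.le.trans h1⟩ hc.1.le
    simp only at hm
    rw [hs, div_le_iff₀ (sub_pos.2 h)] at hm
    rw [one_mul] at hm
    linarith only [hm]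

private lemma FarWB_small {s d e k : ℝ} (h1 : -e ≤ s) (h2 : s ≤ e) (h3 : -k ≤ d) (h4 : d ≤ k)
    (he : 0 ≤ e) : s * d ≤ e * k := by
  calc s * d ≤ |s * d| := le_abs_self _
    _ = |s| * |d| := abs_mul _ _
    _ ≤ e * k := mul_le_mul (abs_le.2 ⟨h1, h2⟩) (abs_le.2 ⟨h3, h4⟩) (abs_nonneg _) he

theorem wallB2 (y : ℝ) (h0 : 11 / 100 ≤ y) (h1 : y ≤ 375 / 1000) :
    4 * Fr (y + 1 / 2) - 2 * Fr y - Fr (9 / 100 * (y + 1 / 2)) - Fr (91 / 100 * (y + 1 / 2)) ≤
      89 / 100 := by
  have l2a := Real.log_two_gt_d9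
  have l2b := Real.log_two_lt_d9
  have t1 := Fr_tan_right (y + 1 / 2) (767 / 1000) (by linarith only [h0]) (by linarith only [h1]) (by norm_num)
    (by norm_num)
  have t2 := FarWB_tan (y + 1 / 2) (767 / 1000) (by linarith only [h0]) (by linarith only [h1]) (by norm_num)
    (by norm_num)
  have t3 := Fr_tan_left y (267 / 1000) (by linarith only [h0]) (by linarith only [h1]) (by norm_num) (by norm_num)
  have t4 := Fr_tan_left (9 / 100 * (y + 1 / 2)) (9 / 100 * (767 / 1000)) (by linarith only [h0])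
    (by linarith only [h1]) (by norm_num) (by norm_num)
  -- slopes
  have g1 := (FarWB_slope (a := 233 / 1000) (r := 1.3367) (s := 1.337) (l := 0.29) (u := 0.2906)
    (by norm_num) (by norm_num) (by norm_num)
    (le_trans (by norm_num) (FarWB_lg 1.3367 (by norm_num) (by norm_num)).1)
    (le_trans (FarWB_lg 1.337 (by norm_num) (by norm_num)).2 (by norm_num))
    (by norm_num) (by norm_num))
  have g2 := (FarWB_slope (a := 267 / 1000) (r := 1.4876) (s := 1.488) (l := 0.397) (u := 0.3976)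
    (by norm_num) (by norm_num) (by norm_num)
    (le_trans (by norm_num) (FarWB_lg 1.4876 (by norm_num) (by norm_num)).1)
    (le_trans (FarWB_lg 1.488 (by norm_num) (by norm_num)).2 (by norm_num))
    (by norm_num) (by norm_num))
  have m1 : Real.log 0.4303 = Real.log 1.7212 - 2 * Real.log 2 := by
    rw [show (1.7212 : ℝ) = 0.4303 * 2 ^ 2 by norm_num, Real.log_mul (by norm_num) (by norm_num),
      Real.log_pow]
    push_cast
    ring
  have m2 : Real.log 0.4304 = Real.log 1.7216 - 2 * Real.log 2 := by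
    rw [show (1.7216 : ℝ) = 0.4304 * 2 ^ 2 by norm_num, Real.log_mul (by norm_num) (by norm_num),
      Real.log_pow]
    push_cast
    ring
  have g3 := (FarWB_slope (a := 6903 / 100000) (r := 0.4303) (s := 0.4304) (l := -0.8434)
    (u := -0.843) (by norm_num) (by norm_num) (by norm_num)
    (by
      have := (FarWB_lg 1.7212 (by norm_num) (by norm_num)).1
      norm_num at this m1 ⊢
      linarith only [m1, this, l2b, l2a])
    (by
      have := (FarWB_lg 1.7216 (by norm_num) (by norm_num)).2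
      norm_num at this m2 ⊢
      linarith only [m2, this, l2b, l2a])
    (by norm_num) (by norm_num))
  have g4 := (FarWB_slope (a := 30203 / 100000) (r := 1.6254) (s := 1.6258) (l := 0.4857)
    (u := 0.4861) (by norm_num) (by norm_num) (by norm_num)
    (le_trans (by norm_num) (FarWB_lg 1.6254 (by norm_num) (by norm_num)).1)
    (le_trans (FarWB_lg 1.6258 (by norm_num) (by norm_num)).2 (by norm_num))
    (by norm_num) (by norm_num))
  have e1 : Real.sin (Real.pi * (767 / 1000)) = Real.sin (Real.pi * (233 / 1000)) := by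
    rw [← Real.sin_pi_sub]
    congr 1
    ring
  have e2 : Real.sin (Real.pi * (91 / 100 * (767 / 1000))) =
      Real.sin (Real.pi * (30203 / 100000)) := by
    rw [← Real.sin_pi_sub]
    congr 1
    ring
  have e3 : Real.pi * (9 / 100 * (767 / 1000)) = Real.pi * (6903 / 100000) := by ring
  -- values
  have f1 := FarWB_Fl (a := 233 / 1000) (l := 0.3811) (by norm_num) (by norm_num)
    (le_trans (by norm_num) ((FarWB_lg 1.4639 (by norm_num) (by norm_num)).1.trans
      (Real.log_le_log (by norm_num) (by norm_num))))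
  have f2 := FarWB_Fl (a := 267 / 1000) (l := 0.5173) (by norm_num) (by norm_num)
    (le_trans (by norm_num) ((FarWB_lg 1.6776 (by norm_num) (by norm_num)).1.trans
      (Real.log_le_log (by norm_num) (by norm_num))))
  have m3 : Real.log 0.4337 = Real.log 1.7348 - 2 * Real.log 2 := by
    rw [show (1.7348 : ℝ) = 0.4337 * 2 ^ 2 by norm_num, Real.log_mul (by norm_num) (by norm_num),
      Real.log_pow]
    push_cast
    ring
  have f3 := FarWB_Fl (a := 6903 / 100000) (l := -0.8355) (by norm_num) (by norm_num)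
    (le_trans (by
      have := (FarWB_lg 1.7348 (by norm_num) (by norm_num)).1
      norm_num at this m3 ⊢
      linarith only [m3, this, l2b, l2a]) (Real.log_le_log (by norm_num) (by norm_num : (0.4337 : ℝ) ≤ _)))
  have f4 := FarWB_Fu (a := 30203 / 100000) (l := 0.6407) (by norm_num) (by norm_num)
    ((Real.log_le_log (by norm_num) (by norm_num : (_ : ℝ) ≤ 1.8978)).trans
      ((FarWB_lg 1.8978 (by norm_num) (by norm_num)).2.trans (by norm_num)))
  have r1 := FarWB_refl (767 / 1000)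
  have r2 := FarWB_refl (91 / 100 * (767 / 1000))
  rw [show (1 : ℝ) - 767 / 1000 = 233 / 1000 by norm_num] at r1
  rw [show (1 : ℝ) - 91 / 100 * (767 / 1000) = 30203 / 100000 by norm_num] at r2
  have r3 : Fr (9 / 100 * (767 / 1000)) = Fr (6903 / 100000) := by
    congr 1
    norm_num
  rw [e1] at t1
  rw [e1, e2] at t2
  rw [e3, r3] at t4
  have sl := FarWB_small (s := 4 * Real.log (2 * Real.sin (Real.pi * (233 / 1000))) -
    2 * Real.log (2 * Real.sin (Real.pi * (267 / 1000))) -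
    9 / 100 * Real.log (2 * Real.sin (Real.pi * (6903 / 100000))) -
    91 / 100 * Real.log (2 * Real.sin (Real.pi * (30203 / 100000)))) (d := y - 267 / 1000)
    (e := 0.003) (k := 0.16) (by linarith only [g4.2, g3.2, g2.2, g1.1, l2b, l2a])
    (by linarith only [g4.1, g3.1, g2.1, g1.2, l2b, l2a]) (by linarith only [h0]) (by linarith only [h1]) (by norm_num)
  norm_num at f1 f2 f3 f4 sl
  linarith only [sl, f4, f3, f2, f1, r2, r1, t4, t3, t2, t1, l2b, l2a]

theorem wallC (y : ℝ) (h0 : 11 / 100 ≤ y) (h1 : y ≤ 38 / 100) :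
    4 * Fr (y + 1 / 2) - 2 * Fr ((y + 1 / 2) / 2) - Fr (9 / 100 * (y + 1 / 2)) -
      Fr (91 / 100 * (y + 1 / 2)) ≤ 795 / 1000 := by
  have l2a := Real.log_two_gt_d9
  have l2b := Real.log_two_lt_d9
  have t1 := Fr_tan_right (y + 1 / 2) (78 / 100) (by linarith only [h0]) (by linarith only [h1]) (by norm_num)
    (by norm_num)
  have t2 := FarWB_tan (y + 1 / 2) (78 / 100) (by linarith only [h0]) (by linarith only [h1]) (by norm_num)
    (by norm_num)
  have t3 := Fr_tan_left ((y + 1 / 2) / 2) (39 / 100) (by linarith only [h0]) (by linarith only [h1]) (by norm_num)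
    (by norm_num)
  have t4 := Fr_tan_left (9 / 100 * (y + 1 / 2)) (9 / 100 * (78 / 100)) (by linarith only [h0])
    (by linarith only [h1]) (by norm_num) (by norm_num)
  -- slopes
  have g1 := (FarWB_slope (a := 22 / 100) (r := 1.2748) (s := 1.2749) (l := 0.2427) (u := 0.243)
    (by norm_num) (by norm_num) (by norm_num)
    (le_trans (by norm_num) (FarWB_lg 1.2748 (by norm_num) (by norm_num)).1)
    (le_trans (FarWB_lg 1.2749 (by norm_num) (by norm_num)).2 (by norm_num))
    (by norm_num) (by norm_num))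
  have g2 := (FarWB_slope (a := 39 / 100) (r := 1.8817) (s := 1.8836) (l := 0.6321) (u := 0.6333)
    (by norm_num) (by norm_num) (by norm_num)
    (le_trans (by norm_num) (FarWB_lg 1.8817 (by norm_num) (by norm_num)).1)
    (le_trans (FarWB_lg 1.8836 (by norm_num) (by norm_num)).2 (by norm_num))
    (by norm_num) (by norm_num))
  have m1 : Real.log 0.4375 = Real.log 1.75 - 2 * Real.log 2 := by
    rw [show (1.75 : ℝ) = 0.4375 * 2 ^ 2 by norm_num, Real.log_mul (by norm_num) (by norm_num),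
      Real.log_pow]
    push_cast
    ring
  have m2 : Real.log 0.4376 = Real.log 1.7504 - 2 * Real.log 2 := by
    rw [show (1.7504 : ℝ) = 0.4376 * 2 ^ 2 by norm_num, Real.log_mul (by norm_num) (by norm_num),
      Real.log_pow]
    push_cast
    ring
  have g3 := (FarWB_slope (a := 702 / 10000) (r := 0.4375) (s := 0.4376) (l := -0.8268)
    (u := -0.8264) (by norm_num) (by norm_num) (by norm_num)
    (by
      have := (FarWB_lg 1.75 (by norm_num) (by norm_num)).1
      norm_num at this m1 ⊢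
      linarith only [m1, this, l2b, l2a])
    (by
      have := (FarWB_lg 1.7504 (by norm_num) (by norm_num)).2
      norm_num at this m2 ⊢
      linarith only [m2, this, l2b, l2a])
    (by norm_num) (by norm_num))
  have g4 := (FarWB_slope (a := 2902 / 10000) (r := 1.5810) (s := 1.5813) (l := 0.458)
    (u := 0.4584) (by norm_num) (by norm_num) (by norm_num)
    (le_trans (by norm_num) (FarWB_lg 1.5810 (by norm_num) (by norm_num)).1)
    (le_trans (FarWB_lg 1.5813 (by norm_num) (by norm_num)).2 (by norm_num))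
    (by norm_num) (by norm_num))
  have e1 : Real.sin (Real.pi * (78 / 100)) = Real.sin (Real.pi * (22 / 100)) := by
    rw [← Real.sin_pi_sub]
    congr 1
    ring
  have e2 : Real.sin (Real.pi * (91 / 100 * (78 / 100))) =
      Real.sin (Real.pi * (2902 / 10000)) := by
    rw [← Real.sin_pi_sub]
    congr 1
    ring
  have e3 : Real.pi * (9 / 100 * (78 / 100)) = Real.pi * (702 / 10000) := by ring
  -- values
  have f1 := FarWB_Fl (a := 22 / 100) (l := 0.3236) (by norm_num) (by norm_num)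
    (le_trans (by norm_num) ((FarWB_lg 1.3822 (by norm_num) (by norm_num)).1.trans
      (Real.log_le_log (by norm_num) (by norm_num))))
  have m4 : Real.log 2.4504 = Real.log 1.2252 + Real.log 2 := by
    rw [show (2.4504 : ℝ) = 1.2252 * 2 by norm_num, Real.log_mul (by norm_num) (by norm_num)]
  have f2 := FarWB_Fl (a := 39 / 100) (l := 0.8962) (by norm_num) (by norm_num)
    (le_trans (by
      have := (FarWB_lg 1.2252 (by norm_num) (by norm_num)).1
      norm_num at this m4 ⊢
      linarith only [m4, this, l2b, l2a]) (Real.log_le_log (by norm_num) (by norm_num : (2.4504 : ℝ) ≤ _)))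
  have m3 : Real.log 0.441 = Real.log 1.764 - 2 * Real.log 2 := by
    rw [show (1.764 : ℝ) = 0.441 * 2 ^ 2 by norm_num, Real.log_mul (by norm_num) (by norm_num),
      Real.log_pow]
    push_cast
    ring
  have f3 := FarWB_Fl (a := 702 / 10000) (l := -0.8188) (by norm_num) (by norm_num)
    (le_trans (by
      have := (FarWB_lg 1.764 (by norm_num) (by norm_num)).1
      norm_num at this m3 ⊢
      linarith only [m3, this, l2b, l2a]) (Real.log_le_log (by norm_num) (by norm_num : (0.441 : ℝ) ≤ _)))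
  have f4 := FarWB_Fu (a := 2902 / 10000) (l := 0.6008) (by norm_num) (by norm_num)
    ((Real.log_le_log (by norm_num) (by norm_num : (_ : ℝ) ≤ 1.8234)).trans
      ((FarWB_lg 1.8234 (by norm_num) (by norm_num)).2.trans (by norm_num)))
  have r1 := FarWB_refl (78 / 100)
  have r2 := FarWB_refl (91 / 100 * (78 / 100))
  rw [show (1 : ℝ) - 78 / 100 = 22 / 100 by norm_num] at r1
  rw [show (1 : ℝ) - 91 / 100 * (78 / 100) = 2902 / 10000 by norm_num] at r2
  have r3 : Fr (9 / 100 * (78 / 100)) = Fr (702 / 10000) := by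
    congr 1
    norm_num
  rw [e1] at t1
  rw [e1, e2] at t2
  rw [e3, r3] at t4
  have sl := FarWB_small (s := 4 * Real.log (2 * Real.sin (Real.pi * (22 / 100))) -
    Real.log (2 * Real.sin (Real.pi * (39 / 100))) -
    9 / 100 * Real.log (2 * Real.sin (Real.pi * (702 / 10000))) -
    91 / 100 * Real.log (2 * Real.sin (Real.pi * (2902 / 10000)))) (d := y - 28 / 100)
    (e := 0.01) (k := 0.17) (by linarith only [g4.2, g3.2, g2.2, g1.1, l2b, l2a])
    (by linarith only [g4.1, g3.1, g2.1, g1.2, l2b, l2a]) (by linarith only [h0]) (by linarith only [h1]) (by norm_num)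
  norm_num at f1 f2 f3 f4 sl
  linarith only [sl, f4, f3, f2, f1, r2, r1, t4, t3, t2, t1, l2b, l2a]

end Pool.Agent.H63.GO
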