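import Pool.Agent.H63.VC3.Defs

/-!
# Genus one two-bridge knots: potentials, domains and amplitudes

Coordinates: `z 0 = x = y + 1/2`, `z 1` and `z 2` are the variables of the two blocks of `r1`, `r2`
full twists. A block with `3 ≤ |r|` is written with Bailey's transformation, the variable is `v`,
the block is even in `v` and its main mode is `1`. A block with `|r| = 2` is written with the
`q`-binomial sum, it has no mode.
-/

namespace Pool.Agent.H63.GO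

open Complex Filter Topology Pool.Agent.H63.VC Pool.Agent.H63.VC3

/-- The potential of a block. -/
noncomputable def BB (r : ℤ) (x z : ℂ) : ℂ :=
  if 3 ≤ |r| then ff x - ff (x - 1 / 2 - z) - ff (x - 1 / 2 + z) + 2 * Real.pi * I * r * z ^ 2
  else ff x - ff z - ff (x - z) +
    Real.pi * I * r / 2 * ((x ^ 2 - 3 * x) / 2 + z ^ 2 + z * x - 2 * z)

/-- The potential. -/
noncomputable def VV (r1 r2 : ℤ) (z : Fin 3 → ℂ) : ℂ :=
  2 * ff (z 0) + BB r1 (z 0) (z 1) + BB r2 (z 0) (z 2)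

/-- The coordinates with main mode `1`. -/
def Bs (r1 r2 : ℤ) : Finset (Fin 3) :=
  Finset.univ.filter fun j => (j = 1 ∧ 3 ≤ |r1|) ∨ (j = 2 ∧ 3 ≤ |r2|)

/-- The exponent of a block on the real domain. -/
noncomputable def EB (r : ℤ) (x z : ℝ) : ℝ :=
  if 3 ≤ |r| then Fr x - Fr (x - 1 / 2 - z) - Fr (x - 1 / 2 + z) else Fr x - Fr z - Fr (x - z)

/-- The exponent on the real domain. -/
noncomputable def EE (r1 r2 : ℤ) (a : Fin 3 → ℝ) : ℝ :=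
  2 * Fr (a 0) + EB r1 (a 0) (a 1) + EB r2 (a 0) (a 2)

/-- The conditions on the arguments of the functions `ff` of a block. -/
def UB (r : ℤ) (x z : ℂ) : Prop :=
  if 3 ≤ |r| then 1 / 200 < (x - 1 / 2 - z).re ∧ (x - 1 / 2 - z).re < 199 / 200 ∧
    1 / 200 < (x - 1 / 2 + z).re ∧ (x - 1 / 2 + z).re < 199 / 200
  else 1 / 200 < z.re ∧ 1 / 200 < (x - z).re

/-- The complex domain. -/
def UU (r1 r2 : ℤ) : Set (Fin 3 → ℂ) :=
  {z | 6 / 10 < (z 0).re ∧ (z 0).re < 9 / 10 ∧ (∀ j, |(z j).im| < 1 / 5) ∧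
    UB r1 (z 0) (z 1) ∧ UB r2 (z 0) (z 2)}

/-- Lower end of the `y`-interval. -/
noncomputable def yl (r1 r2 : ℤ) : ℝ := if 3 ≤ |r1| ∧ 3 ≤ |r2| then 13 / 100 else 11 / 100

/-- Upper end of the `y`-interval. -/
noncomputable def yu (r1 r2 : ℤ) : ℝ :=
  if 3 ≤ |r1| ∧ 3 ≤ |r2| then 368 / 1000 else
    if 3 ≤ |r1| ∨ 3 ≤ |r2| then 375 / 1000 else 38 / 100

/-- The real domain of a block. -/
def KB (r : ℤ) (x z : ℝ) : Prop :=
  if 3 ≤ |r| then |z| ≤ 87 / 100 * (x - 1 / 2) else |z - x / 2| ≤ 41 / 100 * x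

/-- The real domain. -/
def KS (r1 r2 : ℤ) : Set (Fin 3 → ℝ) :=
  {a | yl r1 r2 ≤ a 0 - 1 / 2 ∧ a 0 - 1 / 2 ≤ yu r1 r2 ∧ KB r1 (a 0) (a 1) ∧ KB r2 (a 0) (a 2)}

/-- The domain of the shifts of a block. -/
def SB (r : ℤ) (b c : ℝ) : Prop :=
  if 3 ≤ |r| then |b| + |c| ≤ 65 / 1000 else |c| ≤ 7 / 100 ∧ |b - c| ≤ 7 / 100

/-- The domain of the shifts. -/
def BS (r1 r2 : ℤ) : Set (Fin 3 → ℝ) :=
  {b | |b 0| ≤ 5 / 100 ∧ SB r1 (b 0) (b 1) ∧ SB r2 (b 0) (b 2)}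

/-- The upper bound for the exponent away from the interior of `KS`. -/
noncomputable def cc2 (r1 r2 : ℤ) : ℝ :=
  if 3 ≤ |r1| ∧ 3 ≤ |r2| then 99 / 100 else
    if 3 ≤ |r1| ∨ 3 ≤ |r2| then 89 / 100 else 795 / 1000

/-- The domain of the lattice points in a block. -/
def DB (r : ℤ) (x z : ℝ) : Prop :=
  if 3 ≤ |r| then -(1 / 2) ≤ z ∧ z ≤ x - 1 / 2 else 0 ≤ z ∧ z ≤ x

/-! ## Amplitudes -/

/-- The offset of the lattice in a block variable. -/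
noncomputable def ofB (r : ℤ) (n M : ℕ) : ℝ := if 3 ≤ |r| then bt n - M / 2 else 1 / 2

/-- The offsets of the lattice. -/
noncomputable def oo (r1 r2 : ℤ) (n M : ℕ) : Fin 3 → ℝ := ![bt n + 1 / 2, ofB r1 n M, ofB r2 n M]

/-- The phase of the terms of the coefficients of two full twists. -/
noncomputable def ph (n M : ℕ) (k j : ℂ) : ℂ :=
  k / 2 - 2 * k + (k ^ 2 / 2 + (n - 1 / 2) * k) / M + (j * k + j ^ 2 + 2 * (n - 1) * j) / M - 2 * j

/-- The amplitude of a block. -/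
noncomputable def DD (r : ℤ) (n M : ℕ) (x z : ℂ) : ℂ :=
  if 3 ≤ |r| then 1 / (4 * Real.pi * I * M) * deriv (KK r n M (x - 1 / 2)) z
  else exp (Real.pi * I * r / 2 * ph n M (M * x - bt n - 1 / 2) (M * z - 1 / 2)) *
    exp (-LL M (M * z - 1 / 2) - LL M (M * (x - z) - bt n))

/-- The primitive of the amplitude of a block with `3 ≤ |r|`. -/
noncomputable def DP (r : ℤ) (n M : ℕ) (x z : ℂ) : ℂ :=
  1 / (4 * Real.pi * I * M) * KK r n M (x - 1 / 2) z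

/-- The amplitude. -/
noncomputable def FF (r1 r2 : ℤ) (n g M : ℕ) (z : Fin 3 → ℂ) : ℂ :=
  Cc n g M (z 0 - 1 / 2) * (DD r1 n M (z 0) (z 1) * DD r2 n M (z 0) (z 2))

/-- The primitives of the amplitude. -/
noncomputable def FP (r1 r2 : ℤ) (n g : ℕ) (j : Fin 3) (M : ℕ) (z : Fin 3 → ℂ) : ℂ :=
  if j = 1 then Cc n g M (z 0 - 1 / 2) * (DP r1 n M (z 0) (z 1) * DD r2 n M (z 0) (z 2))
  else Cc n g M (z 0 - 1 / 2) * (DD r1 n M (z 0) (z 1) * DP r2 n M (z 0) (z 2))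

/-- The prefactor of a block. -/
noncomputable def pre (r : ℤ) (n M : ℕ) : ℂ := if 3 ≤ |r| then c1 n M ^ r else I * (-1) ^ (n + M)

/-! ## Critical points -/

/-- The critical point in the variables of Bailey's transformation, with its approximate location. -/
structure CritG (r1 r2 : ℤ) (y v w : ℂ) : Prop where
  h1 : 2 ≤ |r1|
  h2 : 2 ≤ |r2|
  ey : 4 * hh (y + 1 / 2) = hh (y - v) + hh (y + v) + hh (y - w) + hh (y + w)
  ev : 2 * Real.pi * I * (2 * r1 * v + 1) + hh (y - v) - hh (y + v) = 0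
  ew : 2 * Real.pi * I * (2 * r2 * w + 1) + hh (y - w) - hh (y + w) = 0
  y1 : 24 / 100 ≤ y.re
  y2 : y.re ≤ 34 / 100
  yi : |y.im| ≤ 35 / 1000
  v1 : (r1 : ℝ) * v.re < 0
  w1 : (r2 : ℝ) * w.re < 0
  v2 : |v.re| < 2 / (4 * |(r1 : ℝ)| - 1)
  w2 : |w.re| < 2 / (4 * |(r2 : ℝ)| - 1)
  v3 : |v.re| + 1 / 100 ≤ y.re
  w3 : |w.re| + 1 / 100 ≤ y.re
  v4 : 0 < v.im
  w4 : 0 < w.im
  v5 : v.im ≤ 7 / 100
  w5 : w.im ≤ 7 / 100
  v6 : |(cos (Real.pi * v)).im| ≤ 1 / 4 * (cos (Real.pi * v)).re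
  w6 : |(cos (Real.pi * w)).im| ≤ 1 / 4 * (cos (Real.pi * w)).re
  v7 : |r1| = 2 → (4 * cos (Real.pi * v) ^ 2 - 1) ^ 2 = 1 + r1 * I * cos (Real.pi * w)
  w7 : |r2| = 2 → (4 * cos (Real.pi * w) ^ 2 - 1) ^ 2 = 1 + r2 * I * cos (Real.pi * v)
  v8 : 0 < (4 * cos (Real.pi * v) ^ 2 - 1).re
  w8 : 0 < (4 * cos (Real.pi * w) ^ 2 - 1).re

/-- The block coordinate of the critical point. -/
noncomputable def zB (r : ℤ) (v : ℂ) : ℂ :=
  if 3 ≤ |r| then v else 1 / 2 + r / 2 * log (1 + 2 * cos (2 * Real.pi * v)) / (2 * Real.pi * I)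

/-- The critical point. -/
noncomputable def zC (r1 r2 : ℤ) (y v w : ℂ) : Fin 3 → ℂ := ![y + 1 / 2, zB r1 v, zB r2 w]

end Pool.Agent.H63.GO
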