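import Pool.Agent.H63.GO.Defs
import Pool.Agent.H63.GO.PDefs

/-! # The domains -/

namespace Pool.Agent.H63.GO

open Complex Filter Topology Pool.Agent.H63.VC Pool.Agent.H63.VC3

private theorem PSet_yl (r1 r2 : ℤ) : 11 / 100 ≤ yl r1 r2 := by
  unfold yl
  split_ifs <;> norm_num

private theorem PSet_yu (r1 r2 : ℤ) : yu r1 r2 ≤ 38 / 100 := by
  unfold yu
  split_ifs <;> norm_num

private theorem PSet_yu1 {r1 : ℤ} (r2 : ℤ) (h : 3 ≤ |r1|) : yu r1 r2 ≤ 375 / 1000 := by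
  unfold yu
  split_ifs with h1 h2
  · norm_num
  · norm_num
  · exact absurd (Or.inl h) h2

private theorem PSet_yu2 (r1 : ℤ) {r2 : ℤ} (h : 3 ≤ |r2|) : yu r1 r2 ≤ 375 / 1000 := by
  unfold yu
  split_ifs with h1 h2
  · norm_num
  · norm_num
  · exact absurd (Or.inr h) h2

private theorem PSet_KB_closed (r : ℤ) (j : Fin 3) : IsClosed {a : Fin 3 → ℝ | KB r (a 0) (a j)} := by
  unfold KB
  by_cases h : 3 ≤ |r|
  · simp only [h, if_true]
    exact isClosed_le (by fun_prop) (by fun_prop)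
  · simp only [h, if_false]
    exact isClosed_le (by fun_prop) (by fun_prop)

private theorem PSet_KB_convex (r : ℤ) (j : Fin 3) : Convex ℝ {a : Fin 3 → ℝ | KB r (a 0) (a j)} := by
  intro x hx y hy s t hs ht hst
  have h1 : t = 1 - s := by linarith
  subst h1
  simp only [Set.mem_ofPred_eq, KB] at hx hy ⊢
  simp only [Pi.add_apply, Pi.smul_apply, smul_eq_mul]
  by_cases h : 3 ≤ |r|
  · simp only [h, if_true] at hx hy ⊢
    rw [abs_le] at hx hy ⊢
    obtain ⟨a1, a2⟩ := hx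
    obtain ⟨b1, b2⟩ := hy
    have e1 := mul_le_mul_of_nonneg_left a1 hs
    have e2 := mul_le_mul_of_nonneg_left a2 hs
    have e3 := mul_le_mul_of_nonneg_left b1 ht
    have e4 := mul_le_mul_of_nonneg_left b2 ht
    constructor <;> linarith
  · simp only [h, if_false] at hx hy ⊢
    rw [abs_le] at hx hy ⊢
    obtain ⟨a1, a2⟩ := hx
    obtain ⟨b1, b2⟩ := hy
    have e1 := mul_le_mul_of_nonneg_left a1 hs
    have e2 := mul_le_mul_of_nonneg_left a2 hs
    have e3 := mul_le_mul_of_nonneg_left b1 ht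
    have e4 := mul_le_mul_of_nonneg_left b2 ht
    constructor <;> linarith

private theorem PSet_KB_bd (r : ℤ) {x z : ℝ} (h1 : 1 / 2 ≤ x) (h2 : x ≤ 1) (h : KB r x z) : |z| ≤ 1 := by
  unfold KB at h
  split_ifs at h
  · rw [abs_le] at h ⊢
    constructor <;> linarith [h.1, h.2]
  · rw [abs_le] at h ⊢
    constructor <;> linarith [h.1, h.2]

private theorem PSet_SB_closed (r : ℤ) (j : Fin 3) : IsClosed {b : Fin 3 → ℝ | SB r (b 0) (b j)} := by
  unfold SB
  by_cases h : 3 ≤ |r|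
  · simp only [h, if_true]
    exact isClosed_le (by fun_prop) (by fun_prop)
  · simp only [h, if_false]
    have c1 : IsClosed {b : Fin 3 → ℝ | |b j| ≤ 7 / 100} := isClosed_le (by fun_prop) (by fun_prop)
    have c2 : IsClosed {b : Fin 3 → ℝ | |b 0 - b j| ≤ 7 / 100} := isClosed_le (by fun_prop) (by fun_prop)
    exact c1.inter c2

private theorem PSet_abs_conv {x y s : ℝ} (hs : 0 ≤ s) (ht : 0 ≤ 1 - s) : |s * x + (1 - s) * y| ≤ s * |x| + (1 - s) * |y| := by
  calc |s * x + (1 - s) * y| ≤ |s * x| + |(1 - s) * y| := abs_add_le _ _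
    _ = s * |x| + (1 - s) * |y| := by rw [abs_mul, abs_mul, abs_of_nonneg hs, abs_of_nonneg ht]

private theorem PSet_SB_convex (r : ℤ) (j : Fin 3) : Convex ℝ {b : Fin 3 → ℝ | SB r (b 0) (b j)} := by
  intro x hx y hy s t hs ht hst
  have h1 : t = 1 - s := by linarith
  subst h1
  simp only [Set.mem_ofPred_eq, SB] at hx hy ⊢
  simp only [Pi.add_apply, Pi.smul_apply, smul_eq_mul]
  by_cases h : 3 ≤ |r|
  · simp only [h, if_true] at hx hy ⊢
    have e1 := mul_le_mul_of_nonneg_left hx hs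
    have e2 := mul_le_mul_of_nonneg_left hy ht
    have e3 := PSet_abs_conv (x := x 0) (y := y 0) hs ht
    have e4 := PSet_abs_conv (x := x j) (y := y j) hs ht
    linarith
  · simp only [h, if_false] at hx hy ⊢
    obtain ⟨a1, a2⟩ := hx
    obtain ⟨b1, b2⟩ := hy
    have e1 := mul_le_mul_of_nonneg_left a1 hs
    have e2 := mul_le_mul_of_nonneg_left a2 hs
    have e3 := mul_le_mul_of_nonneg_left b1 ht
    have e4 := mul_le_mul_of_nonneg_left b2 ht
    have e5 := PSet_abs_conv (x := x j) (y := y j) hs ht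
    have e6 := PSet_abs_conv (x := x 0 - x j) (y := y 0 - y j) hs ht
    have e7 : s * x 0 + (1 - s) * y 0 - (s * x j + (1 - s) * y j) = s * (x 0 - x j) + (1 - s) * (y 0 - y j) := by ring
    rw [e7]
    constructor <;> linarith

private theorem PSet_SB_bd (r : ℤ) {b c : ℝ} (h : SB r b c) : |c| ≤ 7 / 100 := by
  unfold SB at h
  split_ifs at h
  · have := abs_nonneg b
    linarith
  · exact h.1

private theorem PSet_bounded {S : Set (Fin 3 → ℝ)} (h : ∀ a ∈ S, ∀ j, |a j| ≤ 1) : Bornology.IsBounded S := by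
  refine (Metric.isBounded_closedBall (x := (0 : Fin 3 → ℝ)) (r := 1)).subset fun a ha => ?_
  rw [mem_closedBall_zero_iff, pi_norm_le_iff_of_nonneg zero_le_one]
  exact fun j => h a ha j

theorem KS_cpt (r1 r2 : ℤ) : IsCompact (KS r1 r2) := by
  refine Metric.isCompact_of_isClosed_isBounded ?_ (PSet_bounded fun a ha j => ?_)
  · have e : KS r1 r2 = {a : Fin 3 → ℝ | yl r1 r2 ≤ a 0 - 1 / 2} ∩ ({a : Fin 3 → ℝ | a 0 - 1 / 2 ≤ yu r1 r2} ∩
        ({a : Fin 3 → ℝ | KB r1 (a 0) (a 1)} ∩ {a : Fin 3 → ℝ | KB r2 (a 0) (a 2)})) := rfl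
    rw [e]
    exact (isClosed_le (by fun_prop) (by fun_prop)).inter ((isClosed_le (by fun_prop) (by fun_prop)).inter
      ((PSet_KB_closed r1 1).inter (PSet_KB_closed r2 2)))
  · obtain ⟨h1, h2, h3, h4⟩ := ha
    have h5 := PSet_yl r1 r2
    have h6 := PSet_yu r1 r2
    have h7 : 1 / 2 ≤ a 0 := by linarith
    have h8 : a 0 ≤ 1 := by linarith
    fin_cases j
    · show |a 0| ≤ 1
      rw [abs_le]
      constructor <;> linarith
    · exact PSet_KB_bd r1 h7 h8 h3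
    · exact PSet_KB_bd r2 h7 h8 h4

theorem KS_cvx (r1 r2 : ℤ) : Convex ℝ (KS r1 r2) := by
  have e : KS r1 r2 = {a : Fin 3 → ℝ | yl r1 r2 ≤ a 0 - 1 / 2} ∩ ({a : Fin 3 → ℝ | a 0 - 1 / 2 ≤ yu r1 r2} ∩
      ({a : Fin 3 → ℝ | KB r1 (a 0) (a 1)} ∩ {a : Fin 3 → ℝ | KB r2 (a 0) (a 2)})) := rfl
  rw [e]
  refine Convex.inter ?_ (Convex.inter ?_ ((PSet_KB_convex r1 1).inter (PSet_KB_convex r2 2)))
  · intro x hx y hy s t hs ht hst
    simp only [Set.mem_ofPred_eq, Pi.add_apply, Pi.smul_apply, smul_eq_mul] at hx hy ⊢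
    have e1 := mul_le_mul_of_nonneg_left hx hs
    have e2 := mul_le_mul_of_nonneg_left hy ht
    have h1 : t = 1 - s := by linarith
    subst h1
    linarith
  · intro x hx y hy s t hs ht hst
    simp only [Set.mem_ofPred_eq, Pi.add_apply, Pi.smul_apply, smul_eq_mul] at hx hy ⊢
    have e1 := mul_le_mul_of_nonneg_left hx hs
    have e2 := mul_le_mul_of_nonneg_left hy ht
    have h1 : t = 1 - s := by linarith
    subst h1
    linarith

theorem BS_cpt (r1 r2 : ℤ) : IsCompact (BS r1 r2) := by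
  refine Metric.isCompact_of_isClosed_isBounded ?_ (PSet_bounded fun b hb j => ?_)
  · have e : BS r1 r2 = {b : Fin 3 → ℝ | |b 0| ≤ 5 / 100} ∩
        ({b : Fin 3 → ℝ | SB r1 (b 0) (b 1)} ∩ {b : Fin 3 → ℝ | SB r2 (b 0) (b 2)}) := rfl
    rw [e]
    exact (isClosed_le (by fun_prop) (by fun_prop)).inter ((PSet_SB_closed r1 1).inter (PSet_SB_closed r2 2))
  · obtain ⟨h1, h2, h3⟩ := hb
    fin_cases j
    · show |b 0| ≤ 1
      linarith
    · show |b 1| ≤ 1
      linarith [PSet_SB_bd r1 h2]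
    · show |b 2| ≤ 1
      linarith [PSet_SB_bd r2 h3]

theorem BS_cvx (r1 r2 : ℤ) : Convex ℝ (BS r1 r2) := by
  have e : BS r1 r2 = {b : Fin 3 → ℝ | |b 0| ≤ 5 / 100} ∩
      ({b : Fin 3 → ℝ | SB r1 (b 0) (b 1)} ∩ {b : Fin 3 → ℝ | SB r2 (b 0) (b 2)}) := rfl
  rw [e]
  refine Convex.inter ?_ ((PSet_SB_convex r1 1).inter (PSet_SB_convex r2 2))
  intro x hx y hy s t hs ht hst
  simp only [Set.mem_ofPred_eq, Pi.add_apply, Pi.smul_apply, smul_eq_mul] at hx hy ⊢
  have h1 : t = 1 - s := by linarith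
  subst h1
  have e1 := mul_le_mul_of_nonneg_left hx hs
  have e2 := mul_le_mul_of_nonneg_left hy ht
  have e3 := PSet_abs_conv (x := x 0) (y := y 0) hs ht
  linarith

theorem BS_zero (r1 r2 : ℤ) : BS r1 r2 ∈ 𝓝 (0 : Fin 3 → ℝ) := by
  rw [Metric.mem_nhds_iff]
  refine ⟨1 / 100, by norm_num, fun b hb => ?_⟩
  rw [mem_ball_zero_iff] at hb
  have h : ∀ j, |b j| < 1 / 100 := fun j => lt_of_le_of_lt (norm_le_pi_norm b j) hb
  have hS : ∀ (r : ℤ) (j : Fin 3), SB r (b 0) (b j) := by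
    intro r j
    have h0 := h 0
    have hj := h j
    unfold SB
    split_ifs
    · linarith
    · refine ⟨by linarith, ?_⟩
      have := abs_sub (b 0) (b j)
      linarith
  exact ⟨by linarith [h 0], hS r1 1, hS r2 2⟩

private theorem PSet_UB_open (r : ℤ) (j : Fin 3) : IsOpen {z : Fin 3 → ℂ | UB r (z 0) (z j)} := by
  unfold UB
  have c1 : Continuous fun z : Fin 3 → ℂ => (z 0 - 1 / 2 - z j).re := continuous_re.comp (by fun_prop)
  have c2 : Continuous fun z : Fin 3 → ℂ => (z 0 - 1 / 2 + z j).re := continuous_re.comp (by fun_prop)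
  have c3 : Continuous fun z : Fin 3 → ℂ => (z j).re := continuous_re.comp (by fun_prop)
  have c4 : Continuous fun z : Fin 3 → ℂ => (z 0 - z j).re := continuous_re.comp (by fun_prop)
  by_cases h : 3 ≤ |r|
  · simp only [h, if_true]
    exact (isOpen_lt continuous_const c1).inter ((isOpen_lt c1 continuous_const).inter
      ((isOpen_lt continuous_const c2).inter (isOpen_lt c2 continuous_const)))
  · simp only [h, if_false]
    exact (isOpen_lt continuous_const c3).inter (isOpen_lt continuous_const c4)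

theorem UU_open (r1 r2 : ℤ) : IsOpen (UU r1 r2) := by
  have e : UU r1 r2 = {z : Fin 3 → ℂ | 6 / 10 < (z 0).re} ∩ ({z : Fin 3 → ℂ | (z 0).re < 9 / 10} ∩
      ({z : Fin 3 → ℂ | ∀ j, |(z j).im| < 1 / 5} ∩ ({z : Fin 3 → ℂ | UB r1 (z 0) (z 1)} ∩ {z : Fin 3 → ℂ | UB r2 (z 0) (z 2)}))) := rfl
  have c0 : Continuous fun z : Fin 3 → ℂ => (z 0).re := continuous_re.comp (by fun_prop)
  have h1 : IsOpen {z : Fin 3 → ℂ | ∀ j, |(z j).im| < 1 / 5} := by
    rw [Set.ofPred_forall]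
    refine isOpen_iInter_of_finite fun j => ?_
    have cj : Continuous fun z : Fin 3 → ℂ => |(z j).im| := (continuous_im.comp (by fun_prop : Continuous fun z : Fin 3 → ℂ => z j)).abs
    exact isOpen_lt cj continuous_const
  rw [e]
  exact (isOpen_lt continuous_const c0).inter ((isOpen_lt c0 continuous_const).inter
    (h1.inter ((PSet_UB_open r1 1).inter (PSet_UB_open r2 2))))

private theorem PSet_UB (r : ℤ) {x z b c : ℝ} (h1 : 11 / 100 ≤ x - 1 / 2) (h2 : x - 1 / 2 ≤ 38 / 100) (h3 : 3 ≤ |r| → x - 1 / 2 ≤ 375 / 1000)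
    (h : KB r x z) : UB r ((x : ℂ) + (b : ℂ) * I) ((z : ℂ) + (c : ℂ) * I) := by
  unfold KB at h
  unfold UB
  have e1 : ((x : ℂ) + (b : ℂ) * I - 1 / 2 - ((z : ℂ) + (c : ℂ) * I)).re = x - 1 / 2 - z := by
    simp
  have e2 : ((x : ℂ) + (b : ℂ) * I - 1 / 2 + ((z : ℂ) + (c : ℂ) * I)).re = x - 1 / 2 + z := by
    simp
  have e3 : ((z : ℂ) + (c : ℂ) * I).re = z := by simp
  have e4 : ((x : ℂ) + (b : ℂ) * I - ((z : ℂ) + (c : ℂ) * I)).re = x - z := by simp
  rw [e1, e2, e3, e4]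
  split_ifs at h ⊢ with hr
  · have h4 := h3 hr
    rw [abs_le] at h
    obtain ⟨h5, h6⟩ := h
    refine ⟨by linarith, by linarith, by linarith, by linarith⟩
  · rw [abs_le] at h
    obtain ⟨h5, h6⟩ := h
    constructor <;> linarith

theorem KB_sub (r1 r2 : ℤ) : ∀ a ∈ KS r1 r2, ∀ b ∈ BS r1 r2, cp a b ∈ UU r1 r2 := by
  intro a ha b hb
  obtain ⟨h1, h2, h3, h4⟩ := ha
  obtain ⟨k1, k2, k3⟩ := hb
  have h5 := PSet_yl r1 r2
  have h6 := PSet_yu r1 r2
  have hre : ∀ j, (cp a b j).re = a j := fun j => by simp [cp]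
  have him : ∀ j, (cp a b j).im = b j := fun j => by simp [cp]
  refine ⟨?_, ?_, ?_, ?_, ?_⟩
  · rw [hre]; linarith
  · rw [hre]; linarith
  · intro j
    rw [him]
    fin_cases j
    · show |b 0| < 1 / 5
      linarith
    · show |b 1| < 1 / 5
      linarith [PSet_SB_bd r1 k2]
    · show |b 2| < 1 / 5
      linarith [PSet_SB_bd r2 k3]
  · exact PSet_UB r1 (h5.trans h1) (h2.trans h6) (fun h => h2.trans (PSet_yu1 r2 h)) h3
  · exact PSet_UB r2 (h5.trans h1) (h2.trans h6) (fun h => h2.trans (PSet_yu2 r1 h)) h4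

private theorem PSet_Bs {r1 r2 : ℤ} {j : Fin 3} (hj : j ∈ Bs r1 r2) : (j = 1 ∧ 3 ≤ |r1|) ∨ (j = 2 ∧ 3 ≤ |r2|) := by
  simpa [Bs] using hj

theorem KS_even (r1 r2 : ℤ) : ∀ a ∈ KS r1 r2, ∀ j ∈ Bs r1 r2,
    Function.update a j (-a j) ∈ KS r1 r2 := by
  intro a ha j hj
  obtain ⟨h1, h2, h3, h4⟩ := ha
  rcases PSet_Bs hj with ⟨rfl, hr⟩ | ⟨rfl, hr⟩
  · have e0 : Function.update a 1 (-a 1) 0 = a 0 := Function.update_of_ne (by decide) _ _
    have e1 : Function.update a 1 (-a 1) 1 = -a 1 := Function.update_self _ _ _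
    have e2 : Function.update a 1 (-a 1) 2 = a 2 := Function.update_of_ne (by decide) _ _
    refine ⟨by rw [e0]; exact h1, by rw [e0]; exact h2, ?_, by rw [e0, e2]; exact h4⟩
    rw [e0, e1]
    simp only [KB, hr, if_true, abs_neg] at h3 ⊢
    exact h3
  · have e0 : Function.update a 2 (-a 2) 0 = a 0 := Function.update_of_ne (by decide) _ _
    have e1 : Function.update a 2 (-a 2) 1 = a 1 := Function.update_of_ne (by decide) _ _
    have e2 : Function.update a 2 (-a 2) 2 = -a 2 := Function.update_self _ _ _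
    refine ⟨by rw [e0]; exact h1, by rw [e0]; exact h2, by rw [e0, e1]; exact h3, ?_⟩
    rw [e0, e2]
    simp only [KB, hr, if_true, abs_neg] at h4 ⊢
    exact h4

theorem BS_even (r1 r2 : ℤ) : ∀ b ∈ BS r1 r2, ∀ j ∈ Bs r1 r2,
    Function.update b j (-b j) ∈ BS r1 r2 := by
  intro b hb j hj
  obtain ⟨h1, h2, h3⟩ := hb
  rcases PSet_Bs hj with ⟨rfl, hr⟩ | ⟨rfl, hr⟩
  · have e0 : Function.update b 1 (-b 1) 0 = b 0 := Function.update_of_ne (by decide) _ _
    have e1 : Function.update b 1 (-b 1) 1 = -b 1 := Function.update_self _ _ _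
    have e2 : Function.update b 1 (-b 1) 2 = b 2 := Function.update_of_ne (by decide) _ _
    refine ⟨by rw [e0]; exact h1, ?_, by rw [e0, e2]; exact h3⟩
    rw [e0, e1]
    simp only [SB, hr, if_true, abs_neg] at h2 ⊢
    exact h2
  · have e0 : Function.update b 2 (-b 2) 0 = b 0 := Function.update_of_ne (by decide) _ _
    have e1 : Function.update b 2 (-b 2) 1 = b 1 := Function.update_of_ne (by decide) _ _
    have e2 : Function.update b 2 (-b 2) 2 = -b 2 := Function.update_self _ _ _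
    refine ⟨by rw [e0]; exact h1, by rw [e0, e1]; exact h2, ?_⟩
    rw [e0, e2]
    simp only [SB, hr, if_true, abs_neg] at h3 ⊢
    exact h3

private theorem PSet_KB_open (r : ℤ) (j : Fin 3) :
    IsOpen {a : Fin 3 → ℝ | if 3 ≤ |r| then |a j| < 87 / 100 * (a 0 - 1 / 2) else |a j - a 0 / 2| < 41 / 100 * a 0} := by
  by_cases h : 3 ≤ |r|
  · simp only [h, if_true]
    exact isOpen_lt (by fun_prop) (by fun_prop)
  · simp only [h, if_false]
    exact isOpen_lt (by fun_prop) (by fun_prop)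

private theorem PSet_KB_of_lt (r : ℤ) {x z : ℝ} (h : if 3 ≤ |r| then |z| < 87 / 100 * (x - 1 / 2) else |z - x / 2| < 41 / 100 * x) : KB r x z := by
  unfold KB
  split_ifs at h ⊢
  · exact h.le
  · exact h.le

/-- Sufficient condition for an interior point. -/
theorem KS_int (r1 r2 : ℤ) (a : Fin 3 → ℝ) (h1 : yl r1 r2 < a 0 - 1 / 2)
    (h2 : a 0 - 1 / 2 < yu r1 r2)
    (h3 : if 3 ≤ |r1| then |a 1| < 87 / 100 * (a 0 - 1 / 2) else |a 1 - a 0 / 2| < 41 / 100 * a 0)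
    (h4 : if 3 ≤ |r2| then |a 2| < 87 / 100 * (a 0 - 1 / 2) else |a 2 - a 0 / 2| < 41 / 100 * a 0) :
    a ∈ interior (KS r1 r2) := by
  have ho : IsOpen ({a : Fin 3 → ℝ | yl r1 r2 < a 0 - 1 / 2} ∩ ({a : Fin 3 → ℝ | a 0 - 1 / 2 < yu r1 r2} ∩
      ({a : Fin 3 → ℝ | if 3 ≤ |r1| then |a 1| < 87 / 100 * (a 0 - 1 / 2) else |a 1 - a 0 / 2| < 41 / 100 * a 0} ∩
        {a : Fin 3 → ℝ | if 3 ≤ |r2| then |a 2| < 87 / 100 * (a 0 - 1 / 2) else |a 2 - a 0 / 2| < 41 / 100 * a 0}))) :=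
    (isOpen_lt (by fun_prop) (by fun_prop)).inter ((isOpen_lt (by fun_prop) (by fun_prop)).inter
      ((PSet_KB_open r1 1).inter (PSet_KB_open r2 2)))
  refine mem_interior.mpr ⟨_, ?_, ho, ⟨h1, h2, h3, h4⟩⟩
  rintro b ⟨k1, k2, k3, k4⟩
  exact ⟨le_of_lt k1, le_of_lt k2, PSet_KB_of_lt r1 k3, PSet_KB_of_lt r2 k4⟩

end Pool.Agent.H63.GO
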