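import Pool.Agent.H63.GO.FMono
import Pool.Agent.H63.GO.FarEnd
import Pool.Agent.H63.GO.FarWA
import Pool.Agent.H63.GO.FarWB
import Pool.Agent.H63.GO.PSet

/-! # The bound away from the interior -/

namespace Pool.Agent.H63.GO

open Complex Filter Topology Pool.Agent.H63.VC Pool.Agent.H63.VC3

/-- the two ends -/
private theorem Far_end (r1 r2 : ℤ) (a : Fin 3 → ℝ) (h0 : 1 / 2 ≤ a 0)
    (h0' : a 0 ≤ 1) (hd1 : DB r1 (a 0) (a 1)) (hd2 : DB r2 (a 0) (a 2))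
    (hK : a 0 - 1 / 2 ≤ yl r1 r2 ∨ yu r1 r2 ≤ a 0 - 1 / 2) : EE r1 r2 a ≤ cc2 r1 r2 := by
  have e1 := EB_le r1 (a 0) (a 1) h0 h0' hd1
  have e2 := EB_le r2 (a 0) (a 2) h0 h0' hd2
  have hy0 : 0 ≤ a 0 - 1 / 2 := by linarith
  have hy1 : a 0 - 1 / 2 ≤ 1 / 2 := by linarith
  unfold EE cc2
  unfold yl yu at hK
  by_cases hr1 : 3 ≤ |r1| <;> by_cases hr2 : 3 ≤ |r2|
  · simp only [hr1, hr2, and_self, if_true, true_or] at e1 e2 hK ⊢
    have h := endA (a 0 - 1 / 2) hy0 hy1 hK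
    rw [sub_add_cancel] at h
    linarith
  · simp only [hr1, hr2, and_false, if_true, if_false, true_or] at e1 e2 hK ⊢
    have h := endB (a 0 - 1 / 2) hy0 hy1 hK
    rw [sub_add_cancel] at h
    linarith
  · simp only [hr1, hr2, false_and, if_true, if_false, or_true] at e1 e2 hK ⊢
    have h := endB (a 0 - 1 / 2) hy0 hy1 hK
    rw [sub_add_cancel] at h
    linarith
  · simp only [hr1, hr2, false_and, if_false, or_self] at e1 e2 hK ⊢
    have h := endC (a 0 - 1 / 2) hy0 hy1 hK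
    rw [sub_add_cancel] at h
    linarith

/-- the wall of the first block -/
private theorem Far_wall1 (r1 r2 : ℤ) (x z1 z2 : ℝ) (h0 : 1 / 2 ≤ x)
    (h0' : x ≤ 1) (hd1 : DB r1 x z1) (hd2 : DB r2 x z2)
    (hl : yl r1 r2 ≤ x - 1 / 2) (hu : x - 1 / 2 ≤ yu r1 r2)
    (hw : if 3 ≤ |r1| then 87 / 100 * (x - 1 / 2) ≤ |z1| else 41 / 100 * x ≤ |z1 - x / 2|) :
    2 * Fr x + EB r1 x z1 + EB r2 x z2 ≤ cc2 r1 r2 := by
  have e1 := EB_wall r1 x z1 h0 h0' hd1 hw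
  have e2 := EB_le r2 x z2 h0 h0' hd2
  unfold cc2
  unfold yl at hl
  unfold yu at hu
  by_cases hr1 : 3 ≤ |r1| <;> by_cases hr2 : 3 ≤ |r2|
  · simp only [hr1, hr2, and_self, if_true, true_or] at e1 e2 hl hu ⊢
    have h := wallA (x - 1 / 2) hl hu
    rw [sub_add_cancel] at h
    linarith
  · simp only [hr1, hr2, and_false, if_true, if_false, true_or] at e1 e2 hl hu ⊢
    have h := wallB3 (x - 1 / 2) hl hu
    rw [sub_add_cancel] at h
    linarith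
  · simp only [hr1, hr2, false_and, if_true, if_false, or_true] at e1 e2 hl hu ⊢
    have h := wallB2 (x - 1 / 2) hl hu
    rw [sub_add_cancel] at h
    linarith
  · simp only [hr1, hr2, false_and, if_false, or_self] at e1 e2 hl hu ⊢
    have h := wallC (x - 1 / 2) hl hu
    rw [sub_add_cancel] at h
    linarith

private theorem Far_yl_comm (r1 r2 : ℤ) : yl r1 r2 = yl r2 r1 := by
  unfold yl
  by_cases hr1 : 3 ≤ |r1| <;> by_cases hr2 : 3 ≤ |r2| <;> simp [hr1, hr2]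

private theorem Far_yu_comm (r1 r2 : ℤ) : yu r1 r2 = yu r2 r1 := by
  unfold yu
  by_cases hr1 : 3 ≤ |r1| <;> by_cases hr2 : 3 ≤ |r2| <;> simp [hr1, hr2]

private theorem Far_cc2_comm (r1 r2 : ℤ) : cc2 r1 r2 = cc2 r2 r1 := by
  unfold cc2
  by_cases hr1 : 3 ≤ |r1| <;> by_cases hr2 : 3 ≤ |r2| <;> simp [hr1, hr2]

private theorem Far_cc2_ge (r1 r2 : ℤ) : 66 / 100 ≤ cc2 r1 r2 := by
  unfold cc2
  split_ifs <;> norm_num

private theorem Far_yl_ge (r1 r2 : ℤ) : 11 / 100 ≤ yl r1 r2 := by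
  unfold yl
  split_ifs <;> norm_num

private theorem Far_yu_le (r1 r2 : ℤ) : yu r1 r2 ≤ 38 / 100 := by
  unfold yu
  split_ifs <;> norm_num

theorem far (r1 r2 : ℤ) (h1 : 2 ≤ |r1|) (h2 : 2 ≤ |r2|) (a : Fin 3 → ℝ) (h0 : 0 ≤ a 0)
    (h0' : a 0 ≤ 1) (hd1 : DB r1 (a 0) (a 1)) (hd2 : DB r2 (a 0) (a 2))
    (hK : a ∉ interior (KS r1 r2)) : EE r1 r2 a ≤ cc2 r1 r2 := by
  rcases le_total (a 0) (1 / 2) with hx | hx
  · exact (EE_small r1 r2 a h0 hx).trans (Far_cc2_ge r1 r2)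
  by_cases c1 : yl r1 r2 < a 0 - 1 / 2
  swap
  · exact Far_end r1 r2 a hx h0' hd1 hd2 (Or.inl (not_lt.1 c1))
  by_cases c2 : a 0 - 1 / 2 < yu r1 r2
  swap
  · exact Far_end r1 r2 a hx h0' hd1 hd2 (Or.inr (not_lt.1 c2))
  by_cases c3 : if 3 ≤ |r1| then |a 1| < 87 / 100 * (a 0 - 1 / 2) else |a 1 - a 0 / 2| < 41 / 100 * a 0
  swap
  · apply Far_wall1 r1 r2 (a 0) (a 1) (a 2) hx h0' hd1 hd2 c1.le c2.le
    split_ifs at c3 ⊢ with hr
    · exact not_lt.1 c3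
    · exact not_lt.1 c3
  by_cases c4 : if 3 ≤ |r2| then |a 2| < 87 / 100 * (a 0 - 1 / 2) else |a 2 - a 0 / 2| < 41 / 100 * a 0
  swap
  · have h := Far_wall1 r2 r1 (a 0) (a 2) (a 1) hx h0' hd2 hd1 (by rw [Far_yl_comm]; exact c1.le)
      (by rw [Far_yu_comm]; exact c2.le) (by
        split_ifs at c4 ⊢ with hr
        · exact not_lt.1 c4
        · exact not_lt.1 c4)
    rw [Far_cc2_comm] at h
    unfold EE
    linarith
  exact absurd (KS_int r1 r2 a c1 c2 c3 c4) hK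

private theorem Far_DB (r : ℤ) (x z : ℝ) (h0 : 11 / 100 ≤ x - 1 / 2) (h1 : x - 1 / 2 ≤ 38 / 100)
    (h : KB r x z) : DB r x z := by
  unfold KB at h
  unfold DB
  split_ifs at h ⊢ with hr
  · have h2 := abs_le.1 h
    constructor <;> linarith [h2.1, h2.2]
  · have h2 := abs_le.1 h
    constructor <;> linarith [h2.1, h2.2]

theorem far_bdy (r1 r2 : ℤ) (h1 : 2 ≤ |r1|) (h2 : 2 ≤ |r2|) : ∀ a ∈ KS r1 r2,
    a ∉ interior (KS r1 r2) → EE r1 r2 a ≤ cc2 r1 r2 := by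
  intro a ha hK
  obtain ⟨g1, g2, g3, g4⟩ := ha
  have k1 := (Far_yl_ge r1 r2).trans g1
  have k2 := g2.trans (Far_yu_le r1 r2)
  exact far r1 r2 h1 h2 a (by linarith) (by linarith) (Far_DB r1 _ _ k1 k2 g3)
    (Far_DB r2 _ _ k1 k2 g4) hK

end Pool.Agent.H63.GO
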