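import Pool.Agent.H63.GO.Defs
import Pool.Agent.H63.GO.PDefs
import Pool.Agent.H63.VC3.Clausen

/-! # The potential: elementary properties -/

namespace Pool.Agent.H63.GO

open Complex Filter Topology Pool.Agent.H63.VC Pool.Agent.H63.VC3

private theorem PFun_ff_an {w : ℂ} (h0 : 0 < w.re) (h1 : w.re < 1) : AnalyticAt ℂ ff w := by
  have ho : IsOpen {z : ℂ | 0 < z.re ∧ z.re < 1} :=
    (isOpen_lt continuous_const Complex.continuous_re).inter (isOpen_lt Complex.continuous_re continuous_const)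
  exact DifferentiableOn.analyticAt (s := {z : ℂ | 0 < z.re ∧ z.re < 1})
    (fun z hz => (ff_hasDerivAt z hz.1 hz.2).differentiableAt.differentiableWithinAt) (ho.mem_nhds ⟨h0, h1⟩)

private theorem PFun_proj (j : Fin 3) (z : Fin 3 → ℂ) : AnalyticAt ℂ (fun z : Fin 3 → ℂ => z j) z :=
  (ContinuousLinearMap.proj (R := ℂ) (φ := fun _ : Fin 3 => ℂ) j).analyticAt z

private theorem PFun_BB_an (r : ℤ) (j : Fin 3) (z : Fin 3 → ℂ) (hx0 : 6 / 10 < (z 0).re) (hx1 : (z 0).re < 9 / 10)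
    (h : UB r (z 0) (z j)) : AnalyticAt ℂ (fun z : Fin 3 → ℂ => BB r (z 0) (z j)) z := by
  have p0 := PFun_proj 0 z
  have pj := PFun_proj j z
  have a0 : AnalyticAt ℂ (fun z : Fin 3 → ℂ => ff (z 0)) z :=
    AnalyticAt.fun_comp (g := ff) (PFun_ff_an (by linarith) (by linarith)) p0
  unfold UB at h
  by_cases hr : 3 ≤ |r|
  · rw [if_pos hr] at h
    obtain ⟨h1, h2, h3, h4⟩ := h
    have e : (fun z : Fin 3 → ℂ => BB r (z 0) (z j)) = fun z => ff (z 0) - ff (z 0 - 1 / 2 - z j) -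
        ff (z 0 - 1 / 2 + z j) + 2 * Real.pi * I * r * z j ^ 2 := by
      funext z
      unfold BB
      rw [if_pos hr]
    rw [e]
    have b1 : AnalyticAt ℂ (fun z : Fin 3 → ℂ => z 0 - 1 / 2 - z j) z := (p0.sub analyticAt_const).sub pj
    have b2 : AnalyticAt ℂ (fun z : Fin 3 → ℂ => z 0 - 1 / 2 + z j) z := (p0.sub analyticAt_const).add pj
    have a1 : AnalyticAt ℂ (fun z : Fin 3 → ℂ => ff (z 0 - 1 / 2 - z j)) z :=
      AnalyticAt.fun_comp (g := ff) (PFun_ff_an (by linarith) (by linarith)) b1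
    have a2 : AnalyticAt ℂ (fun z : Fin 3 → ℂ => ff (z 0 - 1 / 2 + z j)) z :=
      AnalyticAt.fun_comp (g := ff) (PFun_ff_an (by linarith) (by linarith)) b2
    exact ((a0.sub a1).sub a2).add (analyticAt_const.mul (pj.pow 2))
  · rw [if_neg hr] at h
    obtain ⟨h1, h2⟩ := h
    have h3 : (z 0 - z j).re = (z 0).re - (z j).re := Complex.sub_re _ _
    have e : (fun z : Fin 3 → ℂ => BB r (z 0) (z j)) = fun z => ff (z 0) - ff (z j) - ff (z 0 - z j) +
        Real.pi * I * r / 2 * ((z 0 ^ 2 - 3 * z 0) / 2 + z j ^ 2 + z j * z 0 - 2 * z j) := by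
      funext z
      unfold BB
      rw [if_neg hr]
    rw [e]
    have b1 : AnalyticAt ℂ (fun z : Fin 3 → ℂ => z 0 - z j) z := p0.sub pj
    have a1 : AnalyticAt ℂ (fun z : Fin 3 → ℂ => ff (z j)) z :=
      AnalyticAt.fun_comp (g := ff) (PFun_ff_an (by linarith) (by linarith)) pj
    have a2 : AnalyticAt ℂ (fun z : Fin 3 → ℂ => ff (z 0 - z j)) z :=
      AnalyticAt.fun_comp (g := ff) (PFun_ff_an (by linarith) (by linarith)) b1
    have b2 : AnalyticAt ℂ (fun z : Fin 3 → ℂ => (z 0 ^ 2 - 3 * z 0) / 2) z := by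
      have : AnalyticAt ℂ (fun z : Fin 3 → ℂ => (z 0 ^ 2 - 3 * z 0) * (1 / 2)) z :=
        ((p0.pow 2).sub (analyticAt_const.mul p0)).mul analyticAt_const
      refine this.congr (Eventually.of_forall fun z => ?_)
      show (z 0 ^ 2 - 3 * z 0) * (1 / 2) = (z 0 ^ 2 - 3 * z 0) / 2
      ring
    exact ((a0.sub a1).sub a2).add (analyticAt_const.mul (((b2.add (pj.pow 2)).add (pj.mul p0)).sub (analyticAt_const.mul pj)))

private theorem PFun_BB_even (r : ℤ) (hr : 3 ≤ |r|) (x z : ℂ) : BB r x (-z) = BB r x z := by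
  unfold BB
  rw [if_pos hr, if_pos hr]
  have e1 : x - 1 / 2 - -z = x - 1 / 2 + z := by ring
  have e2 : x - 1 / 2 + -z = x - 1 / 2 - z := by ring
  rw [e1, e2]
  ring

private theorem PFun_EB_even (r : ℤ) (hr : 3 ≤ |r|) (x z : ℝ) : EB r x (-z) = EB r x z := by
  unfold EB
  rw [if_pos hr, if_pos hr]
  have e1 : x - 1 / 2 - -z = x - 1 / 2 + z := by ring
  have e2 : x - 1 / 2 + -z = x - 1 / 2 - z := by ring
  rw [e1, e2]
  ring

private theorem PFun_UB_even (r : ℤ) (hr : 3 ≤ |r|) (x z : ℂ) (h : UB r x z) : UB r x (-z) := by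
  unfold UB at h ⊢
  rw [if_pos hr] at h ⊢
  have e1 : x - 1 / 2 - -z = x - 1 / 2 + z := by ring
  have e2 : x - 1 / 2 + -z = x - 1 / 2 - z := by ring
  rw [e1, e2]
  exact ⟨h.2.2.1, h.2.2.2, h.1, h.2.1⟩

private theorem PFun_Bs (r1 r2 : ℤ) (j : Fin 3) (hj : j ∈ Bs r1 r2) : (j = 1 ∧ 3 ≤ |r1|) ∨ (j = 2 ∧ 3 ≤ |r2|) := by
  unfold Bs at hj
  exact (Finset.mem_filter.mp hj).2

private theorem PFun_BB_re (r : ℤ) (x z : ℝ) (hx0 : 0 < x) (hx1 : x < 1) (hx2 : x - 1 / 2 < 4 / 10) (hx3 : 0 < x - 1 / 2) (h : KB r x z) :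
    (BB r x z).re = EB r x z := by
  unfold KB at h
  unfold BB EB
  by_cases hr : 3 ≤ |r|
  · rw [if_pos hr] at h
    rw [if_pos hr, if_pos hr]
    obtain ⟨h1, h2⟩ := abs_le.mp h
    have e1 : ((x : ℂ) - 1 / 2 - z) = ((x - 1 / 2 - z : ℝ) : ℂ) := by push_cast; ring
    have e2 : ((x : ℂ) - 1 / 2 + z) = ((x - 1 / 2 + z : ℝ) : ℂ) := by push_cast; ring
    have e3 : 2 * Real.pi * I * r * (z : ℂ) ^ 2 = ((2 * Real.pi * r * z ^ 2 : ℝ) : ℂ) * I := by push_cast; ring
    rw [e1, e2, e3, ff_real x hx0 hx1, ff_real _ (by linarith) (by linarith), ff_real _ (by linarith) (by linarith)]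
    simp only [Complex.add_re, Complex.sub_re, Complex.ofReal_re, Complex.mul_re, Complex.I_re, Complex.I_im, Complex.ofReal_im]
    ring
  · rw [if_neg hr] at h
    rw [if_neg hr, if_neg hr]
    obtain ⟨h1, h2⟩ := abs_le.mp h
    have e1 : ((x : ℂ) - z) = ((x - z : ℝ) : ℂ) := by push_cast; ring
    have e3 : Real.pi * I * r / 2 * (((x : ℂ) ^ 2 - 3 * x) / 2 + (z : ℂ) ^ 2 + z * x - 2 * z) =
        ((Real.pi * r / 2 * ((x ^ 2 - 3 * x) / 2 + z ^ 2 + z * x - 2 * z) : ℝ) : ℂ) * I := by push_cast; ring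
    rw [e1, e3, ff_real x hx0 hx1, ff_real z (by linarith) (by linarith), ff_real _ (by linarith) (by linarith)]
    simp only [Complex.add_re, Complex.sub_re, Complex.ofReal_re, Complex.mul_re, Complex.I_re, Complex.I_im, Complex.ofReal_im]
    ring

theorem VV_an (r1 r2 : ℤ) : AnalyticOnNhd ℂ (VV r1 r2) (UU r1 r2) := by
  intro z hz
  obtain ⟨h1, h2, -, h4, h5⟩ := hz
  have a0 : AnalyticAt ℂ (fun z : Fin 3 → ℂ => ff (z 0)) z :=
    AnalyticAt.fun_comp (g := ff) (PFun_ff_an (by linarith) (by linarith)) (PFun_proj 0 z)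
  exact ((analyticAt_const.mul a0).add (PFun_BB_an r1 1 z h1 h2 h4)).add (PFun_BB_an r2 2 z h1 h2 h5)

theorem VV_even (r1 r2 : ℤ) : ∀ z ∈ UU r1 r2, ∀ j ∈ Bs r1 r2,
    Function.update z j (-z j) ∈ UU r1 r2 ∧
      VV r1 r2 (Function.update z j (-z j)) = VV r1 r2 z := by
  intro z hz j hj
  obtain ⟨h1, h2, h3, h4, h5⟩ := hz
  have him : ∀ i, |(Function.update z j (-z j) i).im| < 1 / 5 := by
    intro i
    by_cases hij : i = j
    · subst hij
      rw [Function.update_self, Complex.neg_im, abs_neg]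
      exact h3 i
    · rw [Function.update_of_ne hij]
      exact h3 i
  rcases PFun_Bs r1 r2 j hj with ⟨rfl, hr⟩ | ⟨rfl, hr⟩
  · have e0 : Function.update z 1 (-z 1) 0 = z 0 := Function.update_of_ne (by decide) _ _
    have e1 : Function.update z 1 (-z 1) 1 = -z 1 := Function.update_self _ _ _
    have e2 : Function.update z 1 (-z 1) 2 = z 2 := Function.update_of_ne (by decide) _ _
    refine ⟨⟨by rw [e0]; exact h1, by rw [e0]; exact h2, him, ?_, ?_⟩, ?_⟩
    · rw [e0, e1]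
      exact PFun_UB_even r1 hr _ _ h4
    · rw [e0, e2]
      exact h5
    · unfold VV
      rw [e0, e1, e2, PFun_BB_even r1 hr]
  · have e0 : Function.update z 2 (-z 2) 0 = z 0 := Function.update_of_ne (by decide) _ _
    have e1 : Function.update z 2 (-z 2) 1 = z 1 := Function.update_of_ne (by decide) _ _
    have e2 : Function.update z 2 (-z 2) 2 = -z 2 := Function.update_self _ _ _
    refine ⟨⟨by rw [e0]; exact h1, by rw [e0]; exact h2, him, ?_, ?_⟩, ?_⟩
    · rw [e0, e1]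
      exact h4
    · rw [e0, e2]
      exact PFun_UB_even r2 hr _ _ h5
    · unfold VV
      rw [e0, e1, e2, PFun_BB_even r2 hr]

theorem EE_cont (r1 r2 : ℤ) : Continuous (EE r1 r2) := by
  have h0 : Continuous fun a : Fin 3 → ℝ => a 0 := continuous_apply 0
  have hB : ∀ (r : ℤ) (j : Fin 3), Continuous fun a : Fin 3 → ℝ => EB r (a 0) (a j) := by
    intro r j
    have hj : Continuous fun a : Fin 3 → ℝ => a j := continuous_apply j
    unfold EB
    by_cases hr : 3 ≤ |r|
    · simp only [if_pos hr]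
      exact ((Fr_continuous.comp h0).sub (Fr_continuous.comp ((h0.sub continuous_const).sub hj))).sub
        (Fr_continuous.comp ((h0.sub continuous_const).add hj))
    · simp only [if_neg hr]
      exact ((Fr_continuous.comp h0).sub (Fr_continuous.comp hj)).sub (Fr_continuous.comp (h0.sub hj))
  unfold EE
  exact ((continuous_const.mul (Fr_continuous.comp h0)).add (hB r1 1)).add (hB r2 2)

theorem EE_eq (r1 r2 : ℤ) : ∀ a ∈ KS r1 r2, EE r1 r2 a = (VV r1 r2 (cp a 0)).re := by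
  intro a ha
  obtain ⟨h1, h2, h3, h4⟩ := ha
  have hl : (11 : ℝ) / 100 ≤ yl r1 r2 := by
    unfold yl
    split_ifs <;> norm_num
  have hu : yu r1 r2 ≤ 38 / 100 := by
    unfold yu
    split_ifs <;> norm_num
  have hc : ∀ j, cp a 0 j = (a j : ℂ) := by
    intro j
    unfold cp
    simp
  unfold VV EE
  rw [hc 0, hc 1, hc 2, Complex.add_re, Complex.add_re, PFun_BB_re r1 (a 0) (a 1) (by linarith) (by linarith) (by linarith) (by linarith) h3,
    PFun_BB_re r2 (a 0) (a 2) (by linarith) (by linarith) (by linarith) (by linarith) h4, ff_real _ (by linarith) (by linarith)]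
  congr 2
  rw [Complex.mul_re]
  simp

theorem EE_even (r1 r2 : ℤ) : ∀ a, ∀ j ∈ Bs r1 r2,
    EE r1 r2 (Function.update a j (-a j)) = EE r1 r2 a := by
  intro a j hj
  rcases PFun_Bs r1 r2 j hj with ⟨rfl, hr⟩ | ⟨rfl, hr⟩
  · have e0 : Function.update a 1 (-a 1) 0 = a 0 := Function.update_of_ne (by decide) _ _
    have e1 : Function.update a 1 (-a 1) 1 = -a 1 := Function.update_self _ _ _
    have e2 : Function.update a 1 (-a 1) 2 = a 2 := Function.update_of_ne (by decide) _ _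
    unfold EE
    rw [e0, e1, e2, PFun_EB_even r1 hr]
  · have e0 : Function.update a 2 (-a 2) 0 = a 0 := Function.update_of_ne (by decide) _ _
    have e1 : Function.update a 2 (-a 2) 1 = a 1 := Function.update_of_ne (by decide) _ _
    have e2 : Function.update a 2 (-a 2) 2 = -a 2 := Function.update_self _ _ _
    unfold EE
    rw [e0, e1, e2, PFun_EB_even r2 hr]

end Pool.Agent.H63.GO
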