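import Pool.Agent.H63.GO.Neg
import Pool.Agent.H63.GO.PFun
import Pool.Agent.H63.GO.SCalc

/-! # The block variable may be put to zero -/

namespace Pool.Agent.H63.GO

open Complex Filter Topology Pool.Agent.H63.VC Pool.Agent.H63.VC3

/-- In a block with `3 ≤ |r|` the variable may be put to `0` (concavity and evenness). -/
theorem flip_v0 (r1 r2 : ℤ) (h1 : 2 ≤ |r1|) (h2 : 2 ≤ |r2|) (j : Fin 3) (hj : j ∈ Bs r1 r2)
    (a b : Fin 3 → ℝ) (ha : a ∈ KS r1 r2) (hb : b ∈ BS r1 r2) (hbj : b j = 0) :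
    Function.update a j 0 ∈ KS r1 r2 ∧
      (VV r1 r2 (cp a b)).re ≤ (VV r1 r2 (cp (Function.update a j 0) b)).re := by
  set a' : Fin 3 → ℝ := Function.update a j (-a j) with ha'
  set a₀ : Fin 3 → ℝ := Function.update a j 0 with ha₀
  have hmem' : a' ∈ KS r1 r2 := KS_even r1 r2 a ha j hj
  have hmid : a₀ = (1 / 2 : ℝ) • a + (1 / 2 : ℝ) • a' := by
    funext i
    by_cases hi : i = j
    · subst hi
      simp [ha₀, ha']
    · simp only [ha₀, ha', Function.update_of_ne hi, Pi.add_apply, Pi.smul_apply, smul_eq_mul]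
      ring
  have hmem₀ : a₀ ∈ KS r1 r2 := by
    rw [hmid]
    exact KS_cvx r1 r2 ha hmem' (by norm_num) (by norm_num) (by norm_num)
  refine ⟨hmem₀, ?_⟩
  obtain ⟨c, hc, hneg⟩ := neg_unif (VV r1 r2) (UU r1 r2) (UU_open r1 r2) (VV_an r1 r2) (KS r1 r2) (BS r1 r2)
    (KS_cpt r1 r2) (BS_cpt r1 r2) (KB_sub r1 r2) (neg r1 r2 h1 h2)
  have hcon : ∀ a₁ ∈ KS r1 r2, (VV r1 r2 (cp a₁ b)).re ≤ (VV r1 r2 (cp a₀ b)).re +
      (fderiv ℂ (VV r1 r2) (cp a₀ b) (rc (a₁ - a₀))).re - c / 2 * ∑ i, (a₁ i - a₀ i) ^ 2 := fun a₁ ha₁ =>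
    real_concave (VV r1 r2) (UU r1 r2) (UU_open r1 r2) (VV_an r1 r2) (KS r1 r2) (KS_cvx r1 r2) b
      (fun a₂ ha₂ => KB_sub r1 r2 a₂ ha₂ b hb) c hc.le (fun a₂ ha₂ ξ => hneg a₂ ha₂ b hb ξ) a₀ hmem₀ a₁ ha₁
  have hA := hcon a ha
  have hB := hcon a' hmem'
  have hrc : rc (a' - a₀) = -rc (a - a₀) := by
    funext i
    by_cases hi : i = j
    · subst hi
      simp [rc, ha₀, ha']
    · simp [rc, ha₀, ha', Function.update_of_ne hi]
  have hcp : cp a' b = Function.update (cp a b) j (-(cp a b) j) := by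
    funext i
    by_cases hi : i = j
    · subst hi
      simp [cp, ha', hbj]
    · simp [cp, ha', Function.update_of_ne hi]
  have hev : VV r1 r2 (cp a' b) = VV r1 r2 (cp a b) := by
    rw [hcp]
    exact (VV_even r1 r2 (cp a b) (KB_sub r1 r2 a ha b hb) j hj).2
  have hS1 : 0 ≤ c / 2 * ∑ i, (a i - a₀ i) ^ 2 := mul_nonneg (by linarith) (Finset.sum_nonneg fun i _ => sq_nonneg _)
  have hS2 : 0 ≤ c / 2 * ∑ i, (a' i - a₀ i) ^ 2 := mul_nonneg (by linarith) (Finset.sum_nonneg fun i _ => sq_nonneg _)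
  rw [hev, hrc, map_neg, Complex.neg_re] at hB
  linarith

end Pool.Agent.H63.GO
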