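import Pool.Agent.H63.GO.FVert
import Pool.Agent.H63.GO.FNum
import Pool.Agent.H63.GO.FlipV

/-! # Flipped modes, both blocks with 3 <= |r| -/

namespace Pool.Agent.H63.GO

open Complex Filter Topology Pool.Agent.H63.VC Pool.Agent.H63.VC3

private lemma FlipA_Fr_refl (x : ℝ) : Fr (1 - x) = -Fr x := by
  have h := Fr_add_one (-x)
  rw [Fr_neg] at h
  rw [← h]
  congr 1
  ring

/-- `log (π / 2) ≥ 9 / 20`. -/
private lemma FlipA_log : 9 / 20 ≤ Real.log (Real.pi / 2) := by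
  have hpi := Real.pi_gt_d2
  have h1 := (log_series (1 / 5) (by norm_num) (by norm_num)).1
  have e1 : (1 + 1 / 5 : ℝ) / (1 - 1 / 5) = 3 / 2 := by norm_num
  rw [e1] at h1
  have h2 : 1 - (Real.pi / 3)⁻¹ ≤ Real.log (Real.pi / 3) :=
    Real.one_sub_inv_le_log_of_pos (by positivity)
  have h3 : Real.log (Real.pi / 2) = Real.log (3 / 2) + Real.log (Real.pi / 3) := by
    rw [← Real.log_mul (by norm_num) (by positivity)]
    congr 1
    ring
  have h4 : (Real.pi / 3)⁻¹ ≤ 150 / 157 := by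
    rw [inv_div, show (150 / 157 : ℝ) = 3 / (314 / 100) by norm_num]
    exact div_le_div_of_nonneg_left (by norm_num) (by norm_num) (by linarith)
  rw [h3]
  norm_num at h1
  linarith

/-- The real part at the center of both blocks, without shift. -/
private lemma FlipA_main (y : ℝ) (h0 : 0 ≤ y) (h1 : y ≤ 1 / 2) :
    4 * Fr (y + 1 / 2) - 4 * Fr y ≤ 118 / 100 := by
  have hpi := Real.pi_gt_d2
  have hpi' := Real.pi_lt_d2
  have a1 := Fr_tan_right (y + 1 / 2) (3 / 4) (by linarith) (by linarith) (by norm_num)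
    (by norm_num)
  have a2 := Fr_tan_left y (1 / 4) h0 h1 (by norm_num) (by norm_num)
  have e1 : Real.sin (Real.pi * (3 / 4)) = Real.sin (Real.pi * (1 / 4)) := by
    rw [← Real.sin_pi_sub]
    congr 1
    ring
  rw [e1] at a1
  have e2 : Fr (3 / 4) = -Fr (1 / 4) := by
    rw [← FlipA_Fr_refl]
    norm_num
  have a3 := (Fr_num (1 / 4) (by norm_num) (by norm_num)).1
  unfold Ft at a3
  have e3 : 2 * Real.pi * (1 / 4) = Real.pi / 2 := by ring
  rw [e3] at a3
  have hl := FlipA_log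
  have p2 : Real.pi ^ 2 ≤ 10 := by nlinarith
  have p4 : Real.pi ^ 4 ≤ 100 := by nlinarith [sq_nonneg (Real.pi ^ 2)]
  have p6 : Real.pi ^ 6 ≤ 1000 := by
    have : Real.pi ^ 6 = Real.pi ^ 4 * Real.pi ^ 2 := by ring
    rw [this]
    nlinarith [sq_nonneg (Real.pi ^ 2), sq_nonneg Real.pi]
  rw [e2] at a1
  have e4 : y + 1 / 2 - 3 / 4 = y - 1 / 4 := by ring
  rw [e4] at a1
  norm_num at a3
  linarith

/-- `sin (2 π y)` on the `y`-interval. -/
private lemma FlipA_sin (y : ℝ) (h0 : 13 / 100 ≤ y) (h1 : y ≤ 37 / 100) :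
    7 / 10 ≤ Real.sin (2 * Real.pi * y) := by
  have hpi := Real.pi_pos
  have e1 : Real.sin (2 * Real.pi * y) = Real.cos (2 * Real.pi * y - Real.pi / 2) := by
    rw [Real.cos_sub_pi_div_two]
  rw [e1]
  have e2 : Real.cos (Real.pi / 4) ≤ Real.cos (2 * Real.pi * y - Real.pi / 2) := by
    rw [← Real.cos_abs (2 * Real.pi * y - Real.pi / 2)]
    apply Real.cos_le_cos_of_nonneg_of_le_pi (abs_nonneg _) (by linarith)
    rw [abs_le]
    constructor <;> nlinarith
  rw [Real.cos_pi_div_four] at e2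
  have e3 : (7 / 5 : ℝ) ≤ √2 := by
    apply Real.le_sqrt_of_sq_le
    norm_num
  linarith

/-- The point in the middle of the blocks. -/
private lemma FlipA_val (r1 r2 : ℤ) (h1 : 3 ≤ |r1|) (h2 : 3 ≤ |r2|) (η y : ℝ)
    (hη : η ^ 2 = 1 / 400) (h0 : 13 / 100 ≤ y) (h3 : y ≤ 37 / 100) (a : Fin 3 → ℝ)
    (ha0 : a 0 = y + 1 / 2) (ha1 : a 1 = 0) (ha2 : a 2 = 0) :
    (VV r1 r2 (cp a (Pi.single 0 η))).re ≤ 118 / 100 + 5 / 100 := by
  have hpi := Real.pi_pos
  have hpi' := Real.pi_lt_d2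
  have z0 : cp a (Pi.single 0 η) 0 = ((y + 1 / 2 : ℝ) : ℂ) + (η : ℂ) * I := by
    unfold cp
    rw [ha0, Pi.single_eq_same]
  have z1 : cp a (Pi.single 0 η) 1 = 0 := by
    unfold cp
    rw [ha1, Pi.single_eq_of_ne (by decide)]
    simp
  have z2 : cp a (Pi.single 0 η) 2 = 0 := by
    unfold cp
    rw [ha2, Pi.single_eq_of_ne (by decide)]
    simp
  have eV : VV r1 r2 (cp a (Pi.single 0 η)) =
      4 * ff (((y + 1 / 2 : ℝ) : ℂ) + (η : ℂ) * I) - 4 * ff ((y : ℂ) + (η : ℂ) * I) := by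
    unfold VV BB
    rw [if_pos h1, if_pos h2, z0, z1, z2]
    have e5 : ((y + 1 / 2 : ℝ) : ℂ) + (η : ℂ) * I - 1 / 2 - 0 = (y : ℂ) + (η : ℂ) * I := by
      push_cast
      ring
    have e6 : ((y + 1 / 2 : ℝ) : ℂ) + (η : ℂ) * I - 1 / 2 + 0 = (y : ℂ) + (η : ℂ) * I := by
      push_cast
      ring
    rw [e5, e6]
    ring
  have b1 := vert_le (y + 1 / 2) η (by linarith) (by linarith)
  have hs : 0 < Real.sin (Real.pi * y) :=
    Real.sin_pos_of_pos_of_lt_pi (by nlinarith) (by nlinarith)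
  have hc : 0 < Real.cos (Real.pi * y) :=
    Real.cos_pos_of_mem_Ioo ⟨by nlinarith, by nlinarith⟩
  have b2 := vert_neg y η (Real.cos (Real.pi * y) / Real.sin (Real.pi * y)) (by linarith)
    (by linarith) (by positivity) (by rw [div_mul_cancel₀ _ hs.ne'])
  have b3 := FlipA_main y (by linarith) (by linarith)
  have b4 := FlipA_sin y h0 h3
  have e7 : y + 1 / 2 - 1 / 2 = y := by ring
  rw [e7, hη] at b1
  rw [hη] at b2
  have e8 : Real.tan (Real.pi * y) + Real.cos (Real.pi * y) / Real.sin (Real.pi * y) =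
      2 / Real.sin (2 * Real.pi * y) := by
    have e9 : 2 * Real.pi * y = 2 * (Real.pi * y) := by ring
    rw [e9, Real.sin_two_mul, Real.tan_eq_sin_div_cos]
    have e10 := Real.sin_sq_add_cos_sq (Real.pi * y)
    field_simp
    linarith
  have e11 : 2 / Real.sin (2 * Real.pi * y) ≤ 2 / (7 / 10) :=
    div_le_div_of_nonneg_left (by norm_num) (by norm_num) b4
  have e12 : (VV r1 r2 (cp a (Pi.single 0 η))).re =
      4 * (ff (((y + 1 / 2 : ℝ) : ℂ) + (η : ℂ) * I)).re - 4 * (ff ((y : ℂ) + (η : ℂ) * I)).re := by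
    rw [eV]
    simp
  rw [e12]
  have e13 : Real.pi * (Real.tan (Real.pi * y) + Real.cos (Real.pi * y) / Real.sin (Real.pi * y)) ≤
      3.15 * (2 / (7 / 10)) := by
    rw [e8]
    apply mul_le_mul (by linarith) e11 (by positivity) (by norm_num)
  norm_num at e13
  nlinarith [b1, b2, b3, e13]

theorem flipA (r1 r2 : ℤ) (h1 : 3 ≤ |r1|) (h2 : 3 ≤ |r2|) (η : ℝ) (hη : η = 1 / 20 ∨ η = -(1 / 20))
    (a : Fin 3 → ℝ) (ha : a ∈ KS r1 r2) :
    (VV r1 r2 (cp a (Pi.single 0 η))).re - 2 * Real.pi / 20 ≤ 95 / 100 := by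
  have hpi := Real.pi_gt_d2
  have hη2 : η ^ 2 = 1 / 400 := by
    rcases hη with h | h <;> rw [h] <;> norm_num
  have hηa : |η| = 1 / 20 := by
    rcases hη with h | h
    · rw [h, abs_of_pos (by norm_num)]
    · rw [h, abs_neg, abs_of_pos (by norm_num)]
  have s1 : (Pi.single 0 η : Fin 3 → ℝ) 1 = 0 := Pi.single_eq_of_ne (by decide) _
  have s2 : (Pi.single 0 η : Fin 3 → ℝ) 2 = 0 := Pi.single_eq_of_ne (by decide) _
  have s0 : (Pi.single 0 η : Fin 3 → ℝ) 0 = η := Pi.single_eq_same _ _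
  have hb : (Pi.single 0 η : Fin 3 → ℝ) ∈ BS r1 r2 := by
    refine ⟨?_, ?_, ?_⟩
    · rw [s0, hηa]
      norm_num
    · unfold SB
      rw [if_pos h1, s0, s1, hηa]
      norm_num
    · unfold SB
      rw [if_pos h2, s0, s2, hηa]
      norm_num
  have j1 : (1 : Fin 3) ∈ Bs r1 r2 := by
    unfold Bs
    rw [Finset.mem_filter]
    exact ⟨Finset.mem_univ _, Or.inl ⟨rfl, h1⟩⟩
  have j2 : (2 : Fin 3) ∈ Bs r1 r2 := by
    unfold Bs
    rw [Finset.mem_filter]
    exact ⟨Finset.mem_univ _, Or.inr ⟨rfl, h2⟩⟩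
  obtain ⟨k1, l1⟩ := flip_v0 r1 r2 (by linarith) (by linarith) 1 j1 a _ ha hb s1
  obtain ⟨k2, l2⟩ := flip_v0 r1 r2 (by linarith) (by linarith) 2 j2 _ _ k1 hb s2
  have hy : 13 / 100 ≤ a 0 - 1 / 2 ∧ a 0 - 1 / 2 ≤ 368 / 1000 := by
    have h3 := ha.1
    have h4 := ha.2.1
    unfold yl at h3
    unfold yu at h4
    rw [if_pos ⟨h1, h2⟩] at h3 h4
    exact ⟨h3, h4⟩
  have m := FlipA_val r1 r2 h1 h2 η (a 0 - 1 / 2) hη2 hy.1 (by linarith [hy.2])
    (Function.update (Function.update a 1 0) 2 0)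
    (by rw [Function.update_of_ne (by decide), Function.update_of_ne (by decide)]; ring)
    (by rw [Function.update_of_ne (by decide), Function.update_self])
    (by rw [Function.update_self])
  linarith

end Pool.Agent.H63.GO
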