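import Pool.Agent.H63.GO.FNum
import Pool.Agent.H63.GO.FVert
import Pool.Agent.H63.GO.FlipV

/-! # Flipped modes, one block with |r| = 2: l -/

namespace Pool.Agent.H63.GO

open Complex Filter Topology Pool.Agent.H63.VC Pool.Agent.H63.VC3

private lemma FlipBl_quad (r x l η : ℝ) :
    ((Real.pi : ℂ) * I * (r : ℂ) / 2 * (((x : ℂ) ^ 2 - 3 * x) / 2 + ((l : ℂ) + η * I) ^ 2 +
      ((l : ℂ) + η * I) * x - 2 * ((l : ℂ) + η * I))).re =
      -(Real.pi * r / 2 * (η * (2 * l + x - 2))) := by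
  have h : (Real.pi : ℂ) * I * (r : ℂ) / 2 * (((x : ℂ) ^ 2 - 3 * x) / 2 + ((l : ℂ) + η * I) ^ 2 +
      ((l : ℂ) + η * I) * x - 2 * ((l : ℂ) + η * I)) =
      ((-(Real.pi * r / 2 * (η * (2 * l + x - 2))) : ℝ) : ℂ) +
      ((Real.pi * r / 2 * ((x ^ 2 - 3 * x) / 2 + l ^ 2 - η ^ 2 + l * x - 2 * l) : ℝ) : ℂ) * I := by
    push_cast
    linear_combination ((Real.pi : ℂ) * r / 2 * (η * (2 * l + x - 2) + η ^ 2 * I)) * I_sq
  rw [h, add_re, ofReal_re, re_ofReal_mul, I_re, mul_zero, add_zero]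

/-- cotangent -/
private lemma FlipBl_cot (l : ℝ) (h0 : 549 / 10000 ≤ l) (h1 : l < 1) :
    Real.cos (Real.pi * l) ≤ 58 / 10 * Real.sin (Real.pi * l) := by
  have hp := Real.pi_gt_d6
  have hs : 0 < Real.sin (Real.pi * l) :=
    Real.sin_pos_of_pos_of_lt_pi (by positivity) (by nlinarith)
  rcases lt_or_ge l (1 / 2) with h | h
  · have hc : 0 < Real.cos (Real.pi * l) :=
      Real.cos_pos_of_mem_Ioo ⟨by nlinarith, by nlinarith⟩
    have ht : Real.pi * l < Real.tan (Real.pi * l) :=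
      Real.lt_tan (by positivity) (by nlinarith)
    rw [Real.tan_eq_sin_div_cos, lt_div_iff₀ hc] at ht
    have h2 : (1 : ℝ) ≤ 58 / 10 * (Real.pi * l) := by nlinarith
    nlinarith
  · have hc : Real.cos (Real.pi * l) ≤ 0 :=
      Real.cos_nonpos_of_pi_div_two_le_of_le (by nlinarith) (by nlinarith)
    nlinarith

private lemma FlipBl_pi1 : (31415 : ℝ) / 10000 < Real.pi := by
  have := Real.pi_gt_d6
  linarith

private lemma FlipBl_pi2 : Real.pi < (31416 : ℝ) / 10000 := by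
  have := Real.pi_lt_d6
  linarith

private lemma FlipBl_log1 : (4515 : ℝ) / 10000 ≤ Real.log (Real.pi / 2) := by
  have h := (log_series (222 / 1000) (by norm_num) (by norm_num)).1
  have h2 : Real.log ((1 + 222 / 1000) / (1 - 222 / 1000)) ≤ Real.log (Real.pi / 2) := by
    apply Real.log_le_log (by norm_num)
    have := FlipBl_pi1
    norm_num at this ⊢
    linarith
  have h3 : (4515 : ℝ) / 10000 ≤
      2 * (222 / 1000 + (222 / 1000) ^ 3 / 3 + (222 / 1000) ^ 5 / 5 + (222 / 1000) ^ 7 / 7) := by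
    norm_num
  linarith

private lemma FlipBl_log2 : (40546 : ℝ) / 100000 ≤ Real.log (3 / 2) := by
  have h := (log_series (1 / 5) (by norm_num) (by norm_num)).1
  have e : ((1 : ℝ) + 1 / 5) / (1 - 1 / 5) = 3 / 2 := by norm_num
  rw [e] at h
  norm_num at h ⊢
  linarith

private lemma FlipBl_log3 : (85696 : ℝ) / 100000 ≤ Real.log (Real.pi / 2 * (3 / 2)) := by
  rw [Real.log_mul (by positivity) (by norm_num)]
  linarith [FlipBl_log1, FlipBl_log2]

private lemma FlipBl_pw : Real.pi ^ 2 ≤ 98697 / 10000 ∧ Real.pi ^ 4 ≤ 9742 / 100 ∧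
    Real.pi ^ 6 ≤ 962 := by
  have h := FlipBl_pi2
  have h0 := Real.pi_pos
  have h2 : Real.pi ^ 2 ≤ ((31416 : ℝ) / 10000) ^ 2 := pow_le_pow_left₀ h0.le h.le 2
  have h4 : Real.pi ^ 4 ≤ ((31416 : ℝ) / 10000) ^ 4 := pow_le_pow_left₀ h0.le h.le 4
  have h6 : Real.pi ^ 6 ≤ ((31416 : ℝ) / 10000) ^ 6 := pow_le_pow_left₀ h0.le h.le 6
  refine ⟨h2.trans (by norm_num), h4.trans (by norm_num), h6.trans (by norm_num)⟩

private lemma FlipBl_F1 : -(14581 : ℝ) / 100000 ≤ Fr (1 / 4) := by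
  have h := (Fr_num (1 / 4) (by norm_num) (by norm_num)).1
  unfold Ft at h
  have e : 2 * Real.pi * (1 / 4) = Real.pi / 2 := by ring
  rw [e] at h
  obtain ⟨h2, h4, h6⟩ := FlipBl_pw
  have h1 := FlipBl_log1
  norm_num at h
  linarith

private lemma FlipBl_F2 : -(8342 : ℝ) / 100000 ≤ Fr (3 / 8) := by
  have h := (Fr_num (3 / 8) (by norm_num) (by norm_num)).1
  unfold Ft at h
  have e : 2 * Real.pi * (3 / 8) = Real.pi / 2 * (3 / 2) := by ring
  rw [e] at h
  obtain ⟨h2, h4, h6⟩ := FlipBl_pw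
  have h1 := FlipBl_log3
  norm_num at h h1
  linarith

private lemma FlipBl_F3 : Fr (3 / 4) = -Fr (1 / 4) := by
  rw [← Fr_neg, ← Fr_add_one (-(1 / 4))]
  norm_num

/-- The logarithms at `3/4`, `1/4` and `3/8`. -/
private lemma FlipBl_sl : 73 / 1000 ≤ 4 * Real.log (2 * Real.sin (Real.pi * (3 / 4))) -
      2 * Real.log (2 * Real.sin (Real.pi * (1 / 4))) - Real.log (2 * Real.sin (Real.pi * (3 / 8))) ∧
    4 * Real.log (2 * Real.sin (Real.pi * (3 / 4))) -
      2 * Real.log (2 * Real.sin (Real.pi * (1 / 4))) -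
      Real.log (2 * Real.sin (Real.pi * (3 / 8))) ≤ 86 / 1000 := by
  have e1 : Real.sin (Real.pi * (3 / 4)) = Real.sin (Real.pi * (1 / 4)) := by
    rw [← Real.sin_pi_sub]
    congr 1
    ring
  have e2 : 2 * Real.sin (Real.pi * (1 / 4)) = √2 := by
    rw [show Real.pi * (1 / 4) = Real.pi / 4 by ring, Real.sin_pi_div_four]
    ring
  have e3 : 2 * Real.sin (Real.pi * (3 / 8)) = √(2 + √2) := by
    rw [show Real.pi * (3 / 8) = Real.pi / 2 - Real.pi / 8 by ring, Real.sin_pi_div_two_sub,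
      Real.cos_pi_div_eight]
    ring
  rw [e1, e2, e3, Real.log_sqrt (by norm_num), Real.log_sqrt (by positivity)]
  have s1 : (1414 : ℝ) / 1000 ≤ √2 := Real.le_sqrt_of_sq_le (by norm_num)
  have s2 : √2 ≤ (1415 : ℝ) / 1000 := Real.sqrt_le_iff.2 ⟨by norm_num, by norm_num⟩
  have hp : 0 < 2 + √2 := by positivity
  have e4 : Real.log (4 / (2 + √2)) = 2 * Real.log 2 - Real.log (2 + √2) := by
    rw [Real.log_div (by norm_num) hp.ne', show (4 : ℝ) = 2 ^ 2 by norm_num, Real.log_pow]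
    norm_num
  have u1 := Real.log_le_sub_one_of_pos (show 0 < 4 / (2 + √2) by positivity)
  have u2 := Real.one_sub_inv_le_log_of_pos (show 0 < 4 / (2 + √2) by positivity)
  have u3 : 4 / (2 + √2) ≤ 1172 / 1000 := by
    rw [div_le_iff₀ hp]
    linarith
  have u4 : (4 / (2 + √2))⁻¹ ≤ 854 / 1000 := by
    rw [inv_div, div_le_iff₀ (by norm_num)]
    linarith
  constructor <;> linarith

/-- The main exponent. -/
private lemma FlipBl_e (x : ℝ) (h0 : 61 / 100 ≤ x) (h1 : x ≤ 875 / 1000) :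
    4 * Fr x - 2 * Fr (x - 1 / 2) - 2 * Fr (x / 2) - 14 / 100 * Real.pi * x +
      (49 / 10000 * Real.pi) * Real.tan (Real.pi * x / 2) + 2842 / 100000 * Real.pi ≤
      88 / 100 := by
  have a1 := Fr_tan_right x (3 / 4) (by linarith) (by linarith) (by norm_num) (by norm_num)
  have a2 := Fr_tan_left (x - 1 / 2) (1 / 4) (by linarith) (by linarith) (by norm_num) (by norm_num)
  have a3 := Fr_tan_left (x / 2) (3 / 8) (by linarith) (by linarith) (by norm_num) (by norm_num)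
  obtain ⟨s1, s2⟩ := FlipBl_sl
  have f1 := FlipBl_F1
  have f2 := FlipBl_F2
  have f3 := FlipBl_F3
  have p1 := FlipBl_pi1
  have p2 := FlipBl_pi2
  have hp := Real.pi_pos
  -- tangent
  have ht : (49 / 10000 * Real.pi) * Real.tan (Real.pi * x / 2) ≤ 98 / 10000 / (1 - x) := by
    have hy : 0 < Real.pi * (1 - x) / 2 := by
      have : 0 < 1 - x := by linarith
      positivity
    have hlt : Real.pi * (1 - x) / 2 < Real.tan (Real.pi * (1 - x) / 2) :=
      Real.lt_tan hy (by nlinarith)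
    have e : Real.tan (Real.pi * x / 2) = (Real.tan (Real.pi * (1 - x) / 2))⁻¹ := by
      rw [show Real.pi * x / 2 = Real.pi / 2 - Real.pi * (1 - x) / 2 by ring,
        Real.tan_pi_div_two_sub]
    have h3 : (Real.tan (Real.pi * (1 - x) / 2))⁻¹ ≤ (Real.pi * (1 - x) / 2)⁻¹ :=
      inv_anti₀ hy hlt.le
    rw [e]
    calc (49 / 10000 * Real.pi) * (Real.tan (Real.pi * (1 - x) / 2))⁻¹
        ≤ (49 / 10000 * Real.pi) * (Real.pi * (1 - x) / 2)⁻¹ :=
          mul_le_mul_of_nonneg_left h3 (by positivity)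
      _ = 98 / 10000 / (1 - x) := by
          have : (1 : ℝ) - x ≠ 0 := by
            intro h
            linarith
          field_simp
          ring
  have hpx : 14 / 100 * ((31415 : ℝ) / 10000) * x ≤ 14 / 100 * Real.pi * x := by
    have : 0 ≤ x * (Real.pi - 31415 / 10000) := mul_nonneg (by linarith) (by linarith)
    linarith
  set A := Real.log (2 * Real.sin (Real.pi * (3 / 4)))
  set B := Real.log (2 * Real.sin (Real.pi * (1 / 4)))
  set C := Real.log (2 * Real.sin (Real.pi * (3 / 8)))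
  have key : 4 * Fr x - 2 * Fr (x - 1 / 2) - 2 * Fr (x / 2) ≤
      10417 / 10000 + (4 * A - 2 * B - C) * (x - 3 / 4) := by
    nlinarith [a1, a2, a3]
  have hx1 : 0 < 1 - x := by linarith
  rcases le_total x (3 / 4) with h | h
  · have h5 : 98 / 10000 / (1 - x) ≤ 98 / 10000 * ((x - 36 / 100) / (975 / 10000)) := by
      rw [div_eq_mul_one_div]
      apply mul_le_mul_of_nonneg_left _ (by norm_num)
      rw [div_le_div_iff₀ hx1 (by norm_num)]
      nlinarith [mul_nonneg (sub_nonneg.2 h0) (sub_nonneg.2 h)]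
    have h6 : (4 * A - 2 * B - C) * (x - 3 / 4) ≤ 73 / 1000 * (x - 3 / 4) := by
      have := mul_nonneg (sub_nonneg.2 s1) (sub_nonneg.2 h)
      linarith
    linarith
  · have h5 : 98 / 10000 / (1 - x) ≤ 98 / 10000 * ((x - 625 / 1000) / (3125 / 100000)) := by
      rw [div_eq_mul_one_div]
      apply mul_le_mul_of_nonneg_left _ (by norm_num)
      rw [div_le_div_iff₀ hx1 (by norm_num)]
      nlinarith [mul_nonneg (sub_nonneg.2 h1) (sub_nonneg.2 h)]
    have h6 : (4 * A - 2 * B - C) * (x - 3 / 4) ≤ 86 / 1000 * (x - 3 / 4) := by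
      have := mul_nonneg (sub_nonneg.2 s2) (sub_nonneg.2 h)
      linarith
    linarith

/-- The real inequality. -/
private lemma FlipBl_main (x l s η : ℝ) (h0 : 61 / 100 ≤ x) (h1 : x ≤ 875 / 1000)
    (hl : |l - x / 2| ≤ 41 / 100 * x)
    (hs : s = 1 ∨ s = -1) (hη : η = 7 / 100 ∨ η = -(7 / 100)) :
    2 * Fr x + (Fr x - (ff (l + η * I)).re - (ff ((x - l : ℝ) + (-η : ℝ) * I)).re +
      -(Real.pi * s * (η * (2 * l + x - 2)))) + (Fr x - 2 * Fr (x - 1 / 2)) -
      2 * Real.pi * (7 / 100) ≤ 88 / 100 := by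
  have hp := Real.pi_pos
  rw [abs_le] at hl
  have hη2 : η ^ 2 = 49 / 10000 := by
    rcases hη with rfl | rfl <;> norm_num
  have a1 := vert_neg l η (58 / 10) (by linarith) (by linarith) (by norm_num)
    (FlipBl_cot l (by linarith) (by linarith))
  have a2 := vert_neg (x - l) (-η) (58 / 10) (by linarith) (by linarith) (by norm_num)
    (FlipBl_cot (x - l) (by linarith) (by linarith))
  rw [neg_sq] at a2
  rw [hη2] at a1 a2
  have q1 := quad2_lin x (l - x / 2) (-(2 * Real.pi * s * η)) (by linarith) (by linarith)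
    (by rw [abs_le]; constructor <;> linarith)
  have e1 : x / 2 - (l - x / 2) = x - l := by ring
  have e2 : x / 2 + (l - x / 2) = l := by ring
  rw [e1, e2] at q1
  have hs2 : s ^ 2 = 1 := by rcases hs with rfl | rfl <;> norm_num
  have e5 : (-(2 * Real.pi * s * η)) ^ 2 / (4 * Real.pi) = 49 / 10000 * Real.pi := by
    have : (-(2 * Real.pi * s * η)) ^ 2 = 4 * Real.pi ^ 2 * s ^ 2 * η ^ 2 := by ring
    rw [this, hs2, hη2]
    field_simp
  rw [e5] at q1
  have hsη : s * η ≤ 7 / 100 := by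
    rcases hs with rfl | rfl <;> rcases hη with rfl | rfl <;> norm_num
  have h6 : 2 * Real.pi * (s * η) * (1 - x) ≤ 2 * Real.pi * (7 / 100) * (1 - x) := by
    apply mul_le_mul_of_nonneg_right _ (by linarith)
    apply mul_le_mul_of_nonneg_left hsη (by positivity)
  have e := FlipBl_e x h0 h1
  have e7 : -(Real.pi * s * (η * (2 * l + x - 2))) =
      2 * Real.pi * (s * η) * (1 - x) + -(2 * Real.pi * s * η) * (l - x / 2) := by ring
  rw [e7]
  linarith

theorem flipBl (r1 r2 : ℤ) (h1 : |r1| = 2) (h2 : 3 ≤ |r2|) (η : ℝ)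
    (hη : η = 7 / 100 ∨ η = -(7 / 100)) (a : Fin 3 → ℝ) (ha : a ∈ KS r1 r2) :
    (VV r1 r2 (cp a (Pi.single 1 η))).re - 2 * Real.pi * (7 / 100) ≤ 88 / 100 := by
  have hη' : |η| = 7 / 100 := by
    rcases hη with h | h
    · rw [h]; norm_num
    · rw [h]; norm_num
  have n1 : ¬ 3 ≤ |r1| := by omega
  have hj : (2 : Fin 3) ∈ Bs r1 r2 := by
    unfold Bs
    simp [h2]
  have hb : (Pi.single 1 η : Fin 3 → ℝ) ∈ BS r1 r2 := by
    have e1 : (Pi.single 1 η : Fin 3 → ℝ) 1 = η := by simp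
    have e2 : (Pi.single 1 η : Fin 3 → ℝ) 2 = 0 := by simp
    have e0 : (Pi.single 1 η : Fin 3 → ℝ) 0 = 0 := by simp
    refine ⟨?_, ?_, ?_⟩
    · rw [e0, abs_zero]; norm_num
    · unfold SB
      rw [e0, e1, if_neg n1, zero_sub, abs_neg, hη']
      norm_num
    · unfold SB
      rw [e0, e2, if_pos h2, abs_zero]
      norm_num
  obtain ⟨ha', hV⟩ := flip_v0 r1 r2 (by omega) (by omega) 2 hj a (Pi.single 1 η) ha hb (by simp)
  have hle := hV
  set a' := Function.update a 2 0 with ha'def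
  have a2 : a' 2 = 0 := by simp [ha'def]
  clear_value a'
  obtain ⟨k1, k2, k3, -⟩ := ha'
  unfold yl at k1
  unfold yu at k2
  rw [if_neg (fun h => n1 h.1)] at k1 k2
  rw [if_pos (Or.inr h2)] at k2
  unfold KB at k3
  rw [if_neg n1] at k3
  have hs : ((r1 : ℝ) / 2 = 1) ∨ ((r1 : ℝ) / 2 = -1) := by
    rcases (abs_eq (by norm_num)).1 h1 with h | h
    · left; rw [h]; norm_num
    · right; rw [h]; norm_num
  have m := FlipBl_main (a' 0) (a' 1) ((r1 : ℝ) / 2) η (by linarith) (by linarith) k3 hs hη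
  have q1 := FlipBl_quad (r1 : ℝ) (a' 0) (a' 1) η
  have f0 := ff_real (a' 0) (by linarith) (by linarith)
  have f2 := ff_real (a' 0 - 1 / 2) (by linarith) (by linarith)
  have key : (VV r1 r2 (cp a' (Pi.single 1 η))).re =
      2 * Fr (a' 0) + (Fr (a' 0) - (ff (a' 1 + η * I)).re -
      (ff ((a' 0 - a' 1 : ℝ) + (-η : ℝ) * I)).re +
      -(Real.pi * ((r1 : ℝ) / 2) * (η * (2 * a' 1 + a' 0 - 2)))) +
      (Fr (a' 0) - 2 * Fr (a' 0 - 1 / 2)) := by
    have z0 : cp a' (Pi.single 1 η) 0 = (a' 0 : ℂ) := by simp [cp]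
    have z1 : cp a' (Pi.single 1 η) 1 = (a' 1 : ℂ) + (η : ℂ) * I := by simp [cp]
    have z2 : cp a' (Pi.single 1 η) 2 = 0 := by simp [cp, a2]
    have w1 : (a' 0 : ℂ) - ((a' 1 : ℂ) + (η : ℂ) * I) =
        ((a' 0 - a' 1 : ℝ) : ℂ) + ((-η : ℝ) : ℂ) * I := by
      push_cast; ring
    have w2 : (a' 0 : ℂ) - 1 / 2 - 0 = ((a' 0 - 1 / 2 : ℝ) : ℂ) := by push_cast; ring
    have w3 : (a' 0 : ℂ) - 1 / 2 + 0 = ((a' 0 - 1 / 2 : ℝ) : ℂ) := by push_cast; ring
    have w4 : 2 * (Real.pi : ℂ) * I * r2 * (0 : ℂ) ^ 2 = 0 := by ring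
    unfold VV BB
    rw [if_neg n1, if_pos h2, z0, z1, z2, w1, w2, w3, w4, f0, f2]
    simp only [add_re, sub_re, ofReal_re, mul_re (2 : ℂ), re_ofNat, im_ofNat, zero_mul, sub_zero,
      zero_re]
    simp only [ofReal_intCast] at q1
    rw [q1]
    ring
  rw [key] at hle
  linarith

end Pool.Agent.H63.GO
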