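import Pool.Agent.H63.GO.FNum
import Pool.Agent.H63.GO.FVert
import Pool.Agent.H63.GO.FlipV

/-! # Flipped modes, one block with |r| = 2: x -/

namespace Pool.Agent.H63.GO

open Complex Filter Topology Pool.Agent.H63.VC Pool.Agent.H63.VC3

private lemma FlipBx_pi1 : (31415 : ℝ) / 10000 < Real.pi := by
  have := Real.pi_gt_d6
  linarith

private lemma FlipBx_pi2 : Real.pi < (31416 : ℝ) / 10000 := by
  have := Real.pi_lt_d6
  linarith

/-- `cos z ≤ sin z / z`, in `[0, π]`. -/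
private lemma FlipBx_cot (z w : ℝ) (h0 : 0 < w) (hw : w ≤ z) (h1 : z < Real.pi) :
    Real.cos z ≤ 1 / w * Real.sin z := by
  have hz : 0 < z := lt_of_lt_of_le h0 hw
  have hs : 0 < Real.sin z := Real.sin_pos_of_pos_of_lt_pi hz h1
  rcases lt_or_ge z (Real.pi / 2) with h | h
  · have hc : 0 < Real.cos z := Real.cos_pos_of_mem_Ioo ⟨by linarith, h⟩
    have ht := Real.lt_tan hz h
    rw [Real.tan_eq_sin_div_cos, lt_div_iff₀ hc] at ht
    have h3 : w * Real.cos z ≤ Real.sin z := by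
      have := mul_le_mul_of_nonneg_right hw hc.le
      linarith
    rw [one_div, inv_mul_eq_div, le_div_iff₀ h0]
    linarith
  · have hc : Real.cos z ≤ 0 := Real.cos_nonpos_of_pi_div_two_le_of_le h (by linarith)
    have : 0 ≤ 1 / w * Real.sin z := by positivity
    linarith

/-- `tan (π / 2 - z) ≤ 1 / z`. -/
private lemma FlipBx_tan (z : ℝ) (h0 : 0 < z) (h1 : z < Real.pi / 2) :
    Real.tan (Real.pi / 2 - z) ≤ 1 / z := by
  have hs : 0 < Real.sin z := Real.sin_pos_of_pos_of_lt_pi h0 (by linarith [Real.pi_pos])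
  rw [Real.tan_eq_sin_div_cos, Real.sin_pi_div_two_sub, Real.cos_pi_div_two_sub, div_le_iff₀ hs]
  exact FlipBx_cot z z h0 le_rfl (by linarith [Real.pi_pos])

private lemma FlipBx_log1 : (4515 : ℝ) / 10000 ≤ Real.log (Real.pi / 2) := by
  have h := (log_series (222 / 1000) (by norm_num) (by norm_num)).1
  have h2 : Real.log ((1 + 222 / 1000) / (1 - 222 / 1000)) ≤ Real.log (Real.pi / 2) := by
    apply Real.log_le_log (by norm_num)
    have := FlipBx_pi1
    norm_num at this ⊢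
    linarith
  have h3 : (4515 : ℝ) / 10000 ≤
      2 * (222 / 1000 + (222 / 1000) ^ 3 / 3 + (222 / 1000) ^ 5 / 5 + (222 / 1000) ^ 7 / 7) := by
    norm_num
  linarith

private lemma FlipBx_log2 : (40546 : ℝ) / 100000 ≤ Real.log (3 / 2) := by
  have h := (log_series (1 / 5) (by norm_num) (by norm_num)).1
  have e : ((1 : ℝ) + 1 / 5) / (1 - 1 / 5) = 3 / 2 := by norm_num
  rw [e] at h
  norm_num at h ⊢
  linarith

private lemma FlipBx_log3 : (85696 : ℝ) / 100000 ≤ Real.log (Real.pi / 2 * (3 / 2)) := by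
  rw [Real.log_mul (by positivity) (by norm_num)]
  linarith [FlipBx_log1, FlipBx_log2]

private lemma FlipBx_pw : Real.pi ^ 2 ≤ 98697 / 10000 ∧ Real.pi ^ 4 ≤ 9742 / 100 ∧
    Real.pi ^ 6 ≤ 962 := by
  have h := FlipBx_pi2
  have h0 := Real.pi_pos
  have h2 : Real.pi ^ 2 ≤ ((31416 : ℝ) / 10000) ^ 2 := pow_le_pow_left₀ h0.le h.le 2
  have h4 : Real.pi ^ 4 ≤ ((31416 : ℝ) / 10000) ^ 4 := pow_le_pow_left₀ h0.le h.le 4
  have h6 : Real.pi ^ 6 ≤ ((31416 : ℝ) / 10000) ^ 6 := pow_le_pow_left₀ h0.le h.le 6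
  refine ⟨h2.trans (by norm_num), h4.trans (by norm_num), h6.trans (by norm_num)⟩

private lemma FlipBx_F1 : -(14581 : ℝ) / 100000 ≤ Fr (1 / 4) := by
  have h := (Fr_num (1 / 4) (by norm_num) (by norm_num)).1
  unfold Ft at h
  have e : 2 * Real.pi * (1 / 4) = Real.pi / 2 := by ring
  rw [e] at h
  obtain ⟨h2, h4, h6⟩ := FlipBx_pw
  have h1 := FlipBx_log1
  norm_num at h
  linarith

private lemma FlipBx_F2 : -(8342 : ℝ) / 100000 ≤ Fr (3 / 8) := by
  have h := (Fr_num (3 / 8) (by norm_num) (by norm_num)).1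
  unfold Ft at h
  have e : 2 * Real.pi * (3 / 8) = Real.pi / 2 * (3 / 2) := by ring
  rw [e] at h
  obtain ⟨h2, h4, h6⟩ := FlipBx_pw
  have h1 := FlipBx_log3
  norm_num at h h1
  linarith

private lemma FlipBx_F3 : Fr (3 / 4) = -Fr (1 / 4) := by
  rw [← Fr_neg, ← Fr_add_one (-(1 / 4))]
  norm_num

/-- The logarithms at `3/4`, `1/4` and `3/8`. -/
private lemma FlipBx_sl : 73 / 1000 ≤ 4 * Real.log (2 * Real.sin (Real.pi * (3 / 4))) -
      2 * Real.log (2 * Real.sin (Real.pi * (1 / 4))) - Real.log (2 * Real.sin (Real.pi * (3 / 8))) ∧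
    4 * Real.log (2 * Real.sin (Real.pi * (3 / 4))) -
      2 * Real.log (2 * Real.sin (Real.pi * (1 / 4))) -
      Real.log (2 * Real.sin (Real.pi * (3 / 8))) ≤ 86 / 1000 := by
  have e1 : Real.sin (Real.pi * (3 / 4)) = Real.sin (Real.pi * (1 / 4)) := by
    rw [← Real.sin_pi_sub]
    congr 1
    ring
  have e2 : 2 * Real.sin (Real.pi * (1 / 4)) = √2 := by
    rw [show Real.pi * (1 / 4) = Real.pi / 4 by ring, Real.sin_pi_div_four]
    ring
  have e3 : 2 * Real.sin (Real.pi * (3 / 8)) = √(2 + √2) := by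
    rw [show Real.pi * (3 / 8) = Real.pi / 2 - Real.pi / 8 by ring, Real.sin_pi_div_two_sub,
      Real.cos_pi_div_eight]
    ring
  rw [e1, e2, e3, Real.log_sqrt (by norm_num), Real.log_sqrt (by positivity)]
  have s1 : (1414 : ℝ) / 1000 ≤ √2 := Real.le_sqrt_of_sq_le (by norm_num)
  have s2 : √2 ≤ (1415 : ℝ) / 1000 := Real.sqrt_le_iff.2 ⟨by norm_num, by norm_num⟩
  have hp : 0 < 2 + √2 := by positivity
  have e4 : Real.log (4 / (2 + √2)) = 2 * Real.log 2 - Real.log (2 + √2) := by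
    rw [Real.log_div (by norm_num) hp.ne', show (4 : ℝ) = 2 ^ 2 by norm_num, Real.log_pow]
    norm_num
  have u1 := Real.log_le_sub_one_of_pos (show 0 < 4 / (2 + √2) by positivity)
  have u2 := Real.one_sub_inv_le_log_of_pos (show 0 < 4 / (2 + √2) by positivity)
  have u3 : 4 / (2 + √2) ≤ 1172 / 1000 := by
    rw [div_le_iff₀ hp]
    linarith
  have u4 : (4 / (2 + √2))⁻¹ ≤ 854 / 1000 := by
    rw [inv_div, div_le_iff₀ (by norm_num)]
    linarith
  constructor <;> linarith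

/-- The main part. -/
private lemma FlipBx_main (x : ℝ) (h0 : 61 / 100 ≤ x) (h1 : x ≤ 875 / 1000) :
    4 * Fr x - 2 * Fr (x - 1 / 2) - 2 * Fr (x / 2) + 3 * Real.pi / 40 * (1 - x) - Real.pi / 10 ≤
      7865 / 10000 + (if x ≤ 3 / 4 then 163 / 1000 * (3 / 4 - x) else 0) := by
  have a1 := Fr_tan_right x (3 / 4) (by linarith) (by linarith) (by norm_num) (by norm_num)
  have a2 := Fr_tan_left (x - 1 / 2) (1 / 4) (by linarith) (by linarith) (by norm_num) (by norm_num)
  have a3 := Fr_tan_left (x / 2) (3 / 8) (by linarith) (by linarith) (by norm_num) (by norm_num)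
  obtain ⟨s1, s2⟩ := FlipBx_sl
  have f1 := FlipBx_F1
  have f2 := FlipBx_F2
  have f3 := FlipBx_F3
  have p1 := FlipBx_pi1
  have p2 := FlipBx_pi2
  set A := Real.log (2 * Real.sin (Real.pi * (3 / 4)))
  set B := Real.log (2 * Real.sin (Real.pi * (1 / 4)))
  set C := Real.log (2 * Real.sin (Real.pi * (3 / 8)))
  have key : 4 * Fr x - 2 * Fr (x - 1 / 2) - 2 * Fr (x / 2) ≤
      4 * Fr (3 / 4) - 2 * Fr (1 / 4) - 2 * Fr (3 / 8) + (4 * A - 2 * B - C) * (x - 3 / 4) := by
    nlinarith [a1, a2, a3]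
  split_ifs with hx
  · nlinarith [key, mul_nonneg (sub_nonneg.2 hx) (sub_nonneg.2 s1), mul_nonneg (sub_nonneg.2 hx)
      (sub_nonneg.2 p2.le)]
  · push Not at hx
    nlinarith [key, mul_nonneg (sub_nonneg.2 hx.le) (sub_nonneg.2 s2),
      mul_nonneg (sub_nonneg.2 hx.le) (sub_nonneg.2 p1.le)]

/-- The small part. -/
private lemma FlipBx_small (x : ℝ) (h0 : 61 / 100 ≤ x) (h1 : x ≤ 875 / 1000) :
    1 / (160 * (1 - x)) + 1 / (400 * (x - 1 / 2)) + 1 / (72 * x) ≤
      935 / 10000 - (if x ≤ 3 / 4 then 163 / 1000 * (3 / 4 - x) else 0) := by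
  split_ifs with hx
  · rcases le_total x (68 / 100) with h | h
    · have b1 : 1 / (160 * (1 - x)) ≤ 1 / (160 * (32 / 100)) :=
        one_div_le_one_div_of_le (by norm_num) (by linarith)
      have b2 : 1 / (400 * (x - 1 / 2)) ≤ 1 / (400 * (11 / 100)) :=
        one_div_le_one_div_of_le (by norm_num) (by linarith)
      have b3 : 1 / (72 * x) ≤ 1 / (72 * (61 / 100)) :=
        one_div_le_one_div_of_le (by norm_num) (by linarith)
      norm_num at b1 b2 b3 ⊢
      linarith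
    · have b1 : 1 / (160 * (1 - x)) ≤ 1 / (160 * (25 / 100)) :=
        one_div_le_one_div_of_le (by norm_num) (by linarith)
      have b2 : 1 / (400 * (x - 1 / 2)) ≤ 1 / (400 * (18 / 100)) :=
        one_div_le_one_div_of_le (by norm_num) (by linarith)
      have b3 : 1 / (72 * x) ≤ 1 / (72 * (68 / 100)) :=
        one_div_le_one_div_of_le (by norm_num) (by linarith)
      norm_num at b1 b2 b3 ⊢
      linarith
  · push Not at hx
    have b1 : 1 / (160 * (1 - x)) ≤ 1 / (160 * (125 / 1000)) :=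
      one_div_le_one_div_of_le (by norm_num) (by linarith)
    have b2 : 1 / (400 * (x - 1 / 2)) ≤ 1 / (400 * (25 / 100)) :=
      one_div_le_one_div_of_le (by norm_num) (by linarith)
    have b3 : 1 / (72 * x) ≤ 1 / (72 * (75 / 100)) :=
      one_div_le_one_div_of_le (by norm_num) (by linarith)
    norm_num at b1 b2 b3 ⊢
    linarith

/-- The core estimate. -/
private lemma FlipBx_core (x l η s : ℝ) (h0 : 61 / 100 ≤ x) (h1 : x ≤ 875 / 1000)
    (hl : |l - x / 2| ≤ 41 / 100 * x) (hη : |η| = 1 / 20) (hs : |s| = 1) :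
    4 * (ff (x + η * I)).re - (ff (l : ℂ)).re - (ff ((x - l : ℝ) + η * I)).re -
      2 * (ff ((x - 1 / 2 : ℝ) + η * I)).re - Real.pi * s * (η * (x - 3 / 2 + l)) -
        2 * Real.pi / 20 ≤ 88 / 100 := by
  have hp := Real.pi_pos
  obtain ⟨hl1, hl2⟩ := abs_le.1 hl
  have e2 : η ^ 2 = 1 / 400 := by rw [← sq_abs, hη]; norm_num
  have es : s ^ 2 = 1 := by rw [← sq_abs, hs]; norm_num
  -- the function at `x`
  have v1 := vert_le x η (by linarith) (by linarith)
  have t1 : Real.tan (Real.pi * (x - 1 / 2)) ≤ 1 / (Real.pi * (1 - x)) := by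
    have := FlipBx_tan (Real.pi * (1 - x)) (by nlinarith) (by nlinarith)
    rwa [show Real.pi / 2 - Real.pi * (1 - x) = Real.pi * (x - 1 / 2) by ring] at this
  -- the function at `y`
  have v2 := vert_neg (x - 1 / 2) η (1 / (Real.pi * (x - 1 / 2))) (by linarith) (by linarith)
    (by
      have : 0 < Real.pi * (x - 1 / 2) := by nlinarith
      positivity)
    (FlipBx_cot _ _ (by nlinarith) le_rfl (by nlinarith))
  -- the function at `x - l`
  have v3 := vert_neg (x - l) η (1 / (Real.pi * (9 / 100 * x))) (by linarith) (by linarith)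
    (by positivity)
    (FlipBx_cot _ _ (by positivity) (by nlinarith) (by nlinarith))
  -- the function at `l`
  have v4 : (ff (l : ℂ)).re = Fr l := by
    rw [ff_real l (by linarith) (by linarith), Complex.ofReal_re]
  -- the linear term
  have q := quad2_lin x (l - x / 2) (-(Real.pi * s * η)) (by linarith) (by linarith)
    (hl.trans (by linarith))
  rw [show x / 2 - (l - x / 2) = x - l by ring, show x / 2 + (l - x / 2) = l by ring] at q
  have t2 : Real.tan (Real.pi * x / 2) ≤ 1 / (Real.pi * (1 - x) / 2) := by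
    have := FlipBx_tan (Real.pi * (1 - x) / 2) (by nlinarith) (by nlinarith)
    rwa [show Real.pi / 2 - Real.pi * (1 - x) / 2 = Real.pi * x / 2 by ring] at this
  have c1 : (-(Real.pi * s * η)) ^ 2 / (4 * Real.pi) = Real.pi / 1600 := by
    rw [show (-(Real.pi * s * η)) ^ 2 = Real.pi ^ 2 * s ^ 2 * η ^ 2 by ring, es, e2]
    field_simp
    norm_num
  rw [c1] at q
  -- the remaining linear term
  have r1 : -(Real.pi * s * η) * (3 / 2 * (x - 1)) ≤ 3 * Real.pi / 40 * (1 - x) := by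
    have : |-(Real.pi * s * η) * (3 / 2 * (x - 1))| = 3 * Real.pi / 40 * (1 - x) := by
      rw [abs_mul, abs_neg, abs_mul, abs_mul, hs, hη, abs_of_pos hp, abs_mul,
        abs_of_neg (show x - 1 < 0 by linarith), abs_of_pos (by norm_num : (0 : ℝ) < 3 / 2)]
      ring
    exact (le_abs_self _).trans this.le
  -- collecting
  have m1 := FlipBx_main x h0 h1
  have m2 := FlipBx_small x h0 h1
  have w1 : 4 * (Real.pi / 2 * Real.tan (Real.pi * (x - 1 / 2)) * η ^ 2) ≤
      1 / (200 * (1 - x)) := by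
    rw [e2]
    calc 4 * (Real.pi / 2 * Real.tan (Real.pi * (x - 1 / 2)) * (1 / 400))
        = Real.pi / 200 * Real.tan (Real.pi * (x - 1 / 2)) := by ring
      _ ≤ Real.pi / 200 * (1 / (Real.pi * (1 - x))) := by gcongr
      _ = 1 / (200 * (1 - x)) := by
        have : (1 - x) ≠ 0 := by linarith
        field_simp
  have w2 : 2 * (Real.pi / 2 * (1 / (Real.pi * (x - 1 / 2))) * η ^ 2) =
      1 / (400 * (x - 1 / 2)) := by
    rw [e2]
    have : (x - 1 / 2) ≠ 0 := by linarith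
    field_simp
  have w3 : Real.pi / 2 * (1 / (Real.pi * (9 / 100 * x))) * η ^ 2 = 1 / (72 * x) := by
    rw [e2]
    have : x ≠ 0 := by linarith
    field_simp
    norm_num
  have w4 : Real.pi / 1600 * Real.tan (Real.pi * x / 2) ≤ 1 / (800 * (1 - x)) := by
    calc Real.pi / 1600 * Real.tan (Real.pi * x / 2)
        ≤ Real.pi / 1600 * (1 / (Real.pi * (1 - x) / 2)) := by gcongr
      _ = 1 / (800 * (1 - x)) := by
        have : (1 - x) ≠ 0 := by linarith
        field_simp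
        norm_num
  have w5 : 1 / (200 * (1 - x)) + 1 / (800 * (1 - x)) = 1 / (160 * (1 - x)) := by
    have : (1 - x) ≠ 0 := by linarith
    field_simp
    norm_num
  rw [v4]
  have w6 : -(Real.pi * s * (η * (x - 3 / 2 + l))) =
      -(Real.pi * s * η) * (3 / 2 * (x - 1)) + -(Real.pi * s * η) * (l - x / 2) := by ring
  linarith

theorem flipBx (r1 r2 : ℤ) (h1 : |r1| = 2) (h2 : 3 ≤ |r2|) (η : ℝ)
    (hη : η = 1 / 20 ∨ η = -(1 / 20)) (a : Fin 3 → ℝ) (ha : a ∈ KS r1 r2) :
    (VV r1 r2 (cp a (Pi.single 0 η))).re - 2 * Real.pi / 20 ≤ 88 / 100 := by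
  have hη' : |η| = 1 / 20 := by
    rcases hη with h | h
    · rw [h]; norm_num
    · rw [h]; norm_num
  have n1 : ¬ 3 ≤ |r1| := by omega
  have hj : (2 : Fin 3) ∈ Bs r1 r2 := by
    unfold Bs
    simp [h2]
  have hb : (Pi.single 0 η : Fin 3 → ℝ) ∈ BS r1 r2 := by
    have e1 : (Pi.single 0 η : Fin 3 → ℝ) 1 = 0 := by simp
    have e2 : (Pi.single 0 η : Fin 3 → ℝ) 2 = 0 := by simp
    have e0 : (Pi.single 0 η : Fin 3 → ℝ) 0 = η := by simp
    refine ⟨?_, ?_, ?_⟩
    · rw [e0, hη']; norm_num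
    · unfold SB
      rw [e0, e1, if_neg n1, abs_zero, sub_zero, hη']
      norm_num
    · unfold SB
      rw [e0, e2, if_pos h2, abs_zero, hη']
      norm_num
  obtain ⟨ha', hV⟩ := flip_v0 r1 r2 (by omega) (by omega) 2 hj a (Pi.single 0 η) ha hb (by simp)
  have hle := hV
  set a' := Function.update a 2 0 with ha'def
  have a2 : a' 2 = 0 := by simp [ha'def]
  clear_value a'
  obtain ⟨k1, k2, k3, -⟩ := ha'
  unfold yl at k1
  unfold yu at k2
  rw [if_neg (fun h => n1 h.1)] at k1 k2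
  rw [if_pos (Or.inr h2)] at k2
  unfold KB at k3
  rw [if_neg n1] at k3
  have hr : ∃ s : ℝ, |s| = 1 ∧ (r1 : ℝ) = 2 * s := by
    rcases (abs_eq (by norm_num : (0 : ℤ) ≤ 2)).1 h1 with h | h
    · exact ⟨1, by norm_num, by rw [h]; norm_num⟩
    · exact ⟨-1, by norm_num, by rw [h]; norm_num⟩
  obtain ⟨s, hs, hr⟩ := hr
  have hr' : (r1 : ℂ) = 2 * (s : ℂ) := by
    have := congrArg (fun t : ℝ => (t : ℂ)) hr
    push_cast at this
    exact this
  have core := FlipBx_core (a' 0) (a' 1) η s (by linarith) (by linarith) k3 hη' hs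
  have eV : (VV r1 r2 (cp a' (Pi.single 0 η))).re =
      4 * (ff (a' 0 + η * I)).re - (ff (a' 1 : ℂ)).re - (ff ((a' 0 - a' 1 : ℝ) + η * I)).re -
      2 * (ff ((a' 0 - 1 / 2 : ℝ) + η * I)).re -
        Real.pi * s * (η * (a' 0 - 3 / 2 + a' 1)) := by
    have z0 : cp a' (Pi.single 0 η) 0 = a' 0 + η * I := by simp [cp]
    have z1 : cp a' (Pi.single 0 η) 1 = a' 1 := by simp [cp]
    have z2 : cp a' (Pi.single 0 η) 2 = 0 := by simp [cp, a2]
    unfold VV BB
    rw [z0, z1, z2, if_neg n1, if_pos h2, hr']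
    have c1 : ((a' 0 : ℂ) + η * I - a' 1) = ((a' 0 - a' 1 : ℝ) : ℂ) + η * I := by
      push_cast
      ring
    have c2 : ((a' 0 : ℂ) + η * I - 1 / 2 - 0) = ((a' 0 - 1 / 2 : ℝ) : ℂ) + η * I := by
      push_cast
      ring
    have c3 : ((a' 0 : ℂ) + η * I - 1 / 2 + 0) = ((a' 0 - 1 / 2 : ℝ) : ℂ) + η * I := by
      push_cast
      ring
    rw [c1, c2, c3]
    have c4 : (Real.pi : ℂ) * I * (2 * s) / 2 * (((a' 0 + η * I) ^ 2 - 3 * (a' 0 + η * I)) / 2 +
        (a' 1) ^ 2 + a' 1 * (a' 0 + η * I) - 2 * a' 1) =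
        ((-(Real.pi * s * (η * (a' 0 - 3 / 2 + a' 1))) : ℝ) : ℂ) +
        ((Real.pi * s * ((a' 0 ^ 2 - η ^ 2 - 3 * a' 0) / 2 + a' 1 ^ 2 + a' 1 * a' 0 - 2 * a' 1)
          : ℝ) : ℂ) * I := by
      push_cast
      have hI : I ^ 2 = -1 := Complex.I_sq
      linear_combination ((Real.pi : ℂ) * s * (η ^ 2 * I / 2 + η * (a' 0 - 3 / 2 + a' 1))) * hI
    rw [c4]
    simp only [Complex.add_re, Complex.sub_re, Complex.mul_re, Complex.ofReal_re,
      Complex.ofReal_im, Complex.I_re, Complex.I_im]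
    simp
    ring
  rw [← eV] at core
  linarith

end Pool.Agent.H63.GO
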