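import Pool.Agent.H63.GO.Defs
import Pool.Agent.H63.GO.FNum
import Pool.Agent.H63.GO.FVert
import Pool.Agent.H63.GO.PDefs

/-! # Flipped modes, both blocks with |r| = 2: l -/

namespace Pool.Agent.H63.GO

open Complex Filter Topology Pool.Agent.H63.VC Pool.Agent.H63.VC3

private lemma FlipCl_quad (r x l η : ℝ) :
    ((Real.pi : ℂ) * I * (r : ℂ) / 2 * (((x : ℂ) ^ 2 - 3 * x) / 2 + ((l : ℂ) + η * I) ^ 2 +
      ((l : ℂ) + η * I) * x - 2 * ((l : ℂ) + η * I))).re =
      -(Real.pi * r / 2 * (η * (2 * l + x - 2))) := by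
  have h : (Real.pi : ℂ) * I * (r : ℂ) / 2 * (((x : ℂ) ^ 2 - 3 * x) / 2 + ((l : ℂ) + η * I) ^ 2 +
      ((l : ℂ) + η * I) * x - 2 * ((l : ℂ) + η * I)) =
      ((-(Real.pi * r / 2 * (η * (2 * l + x - 2))) : ℝ) : ℂ) +
      ((Real.pi * r / 2 * ((x ^ 2 - 3 * x) / 2 + l ^ 2 - η ^ 2 + l * x - 2 * l) : ℝ) : ℂ) * I := by
    push_cast
    linear_combination ((Real.pi : ℂ) * r / 2 * (η * (2 * l + x - 2) + η ^ 2 * I)) * I_sq
  rw [h, add_re, ofReal_re, re_ofReal_mul, I_re, mul_zero, add_zero]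

private lemma FlipCl_refl (x : ℝ) : Fr (1 - x) = -Fr x := by
  rw [show (1 : ℝ) - x = -x + 1 by ring, Fr_add_one, Fr_neg]

/-- cotangent -/
private lemma FlipCl_cot (l : ℝ) (h0 : 549 / 10000 ≤ l) (h1 : l < 1) :
    Real.cos (Real.pi * l) ≤ 58 / 10 * Real.sin (Real.pi * l) := by
  have hp := Real.pi_gt_d6
  have hs : 0 < Real.sin (Real.pi * l) :=
    Real.sin_pos_of_pos_of_lt_pi (by positivity) (by nlinarith)
  rcases lt_or_ge l (1 / 2) with h | h
  · have hc : 0 < Real.cos (Real.pi * l) :=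
      Real.cos_pos_of_mem_Ioo ⟨by nlinarith, by nlinarith⟩
    have ht : Real.pi * l < Real.tan (Real.pi * l) :=
      Real.lt_tan (by positivity) (by nlinarith)
    rw [Real.tan_eq_sin_div_cos, lt_div_iff₀ hc] at ht
    have h2 : (1 : ℝ) ≤ 58 / 10 * (Real.pi * l) := by nlinarith
    nlinarith
  · have hc : Real.cos (Real.pi * l) ≤ 0 :=
      Real.cos_nonpos_of_pi_div_two_le_of_le (by nlinarith) (by nlinarith)
    nlinarith

private lemma FlipCl_log1 : 451 / 1000 ≤ Real.log (2 * Real.pi * (1 / 4)) := by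
  have h := (log_series (57 / 257) (by norm_num) (by norm_num)).1
  have hp := Real.pi_gt_d6
  have e : ((1 : ℝ) + 57 / 257) / (1 - 57 / 257) = 157 / 100 := by norm_num
  rw [e] at h
  have h2 : Real.log (157 / 100) ≤ Real.log (2 * Real.pi * (1 / 4)) :=
    Real.log_le_log (by norm_num) (by linarith)
  refine le_trans ?_ h2
  refine le_trans ?_ h
  norm_num

private lemma FlipCl_log2 : 856 / 1000 ≤ Real.log (2 * Real.pi * (3 / 8)) := by
  have h := (log_series (1 / 5) (by norm_num) (by norm_num)).1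
  have e : ((1 : ℝ) + 1 / 5) / (1 - 1 / 5) = 3 / 2 := by norm_num
  rw [e] at h
  have h1 := FlipCl_log1
  have e2 : 2 * Real.pi * (3 / 8) = (2 * Real.pi * (1 / 4)) * (3 / 2) := by ring
  rw [e2, Real.log_mul (by positivity) (by norm_num)]
  have h3 : (405 / 1000 : ℝ) ≤ Real.log (3 / 2) := le_trans (by norm_num) h
  linarith

private lemma FlipCl_F34 : Fr (3 / 4) ≤ 14593 / 100000 := by
  have h := (Fr_num (1 / 4) (by norm_num) (by norm_num)).1
  have e : Fr (3 / 4) = -Fr (1 / 4) := by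
    rw [show (3 / 4 : ℝ) = 1 - 1 / 4 by norm_num, FlipCl_refl]
  rw [e]
  have hl := FlipCl_log1
  have p2 : Real.pi ^ 2 ≤ 987 / 100 := by nlinarith [Real.pi_lt_d6, Real.pi_pos]
  have p4 : Real.pi ^ 4 ≤ 9742 / 100 := by
    have : Real.pi ^ 4 = Real.pi ^ 2 * Real.pi ^ 2 := by ring
    nlinarith [sq_nonneg Real.pi]
  have p6 : Real.pi ^ 6 ≤ 9616 / 10 := by
    have : Real.pi ^ 6 = Real.pi ^ 4 * Real.pi ^ 2 := by ring
    have h4 : 0 ≤ Real.pi ^ 4 := by positivity
    nlinarith [sq_nonneg Real.pi]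
  unfold Ft at h
  norm_num at h hl ⊢
  linarith

private lemma FlipCl_F38 : -(8378 / 100000) ≤ Fr (3 / 8) := by
  have h := (Fr_num (3 / 8) (by norm_num) (by norm_num)).1
  have hl := FlipCl_log2
  have p2 : Real.pi ^ 2 ≤ 987 / 100 := by nlinarith [Real.pi_lt_d6, Real.pi_pos]
  have p4 : Real.pi ^ 4 ≤ 9742 / 100 := by
    have : Real.pi ^ 4 = Real.pi ^ 2 * Real.pi ^ 2 := by ring
    nlinarith [sq_nonneg Real.pi]
  have p6 : Real.pi ^ 6 ≤ 9616 / 10 := by
    have : Real.pi ^ 6 = Real.pi ^ 4 * Real.pi ^ 2 := by ring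
    have h4 : 0 ≤ Real.pi ^ 4 := by positivity
    nlinarith [sq_nonneg Real.pi]
  unfold Ft at h
  norm_num at h hl ⊢
  linarith

/-- the two slopes -/
private lemma FlipCl_slopes :
    Real.log (2 * Real.sin (Real.pi * (3 / 4))) ≤ 3466 / 10000 ∧
    6 / 10 ≤ Real.log (2 * Real.sin (Real.pi * (3 / 8))) ∧
    Real.log (2 * Real.sin (Real.pi * (3 / 8))) / 2 ≤
      Real.log (2 * Real.sin (Real.pi * (3 / 4))) := by
  have s1 : 2 * Real.sin (Real.pi * (3 / 4)) = √2 := by
    rw [show Real.pi * (3 / 4) = Real.pi - Real.pi / 4 by ring, Real.sin_pi_sub,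
      Real.sin_pi_div_four]
    ring
  have s2 : 2 * Real.sin (Real.pi * (3 / 8)) = √(2 + √2) := by
    rw [show Real.pi * (3 / 8) = Real.pi / 2 - Real.pi / 8 by ring, Real.sin_pi_div_two_sub,
      Real.cos_pi_div_eight]
    ring
  rw [s1, s2, Real.log_sqrt (by norm_num), Real.log_sqrt (by positivity)]
  have h2 : (14 / 10 : ℝ) ≤ √2 := by
    rw [show (14 / 10 : ℝ) = √((14 / 10) ^ 2) from (Real.sqrt_sq (by norm_num)).symm]
    exact Real.sqrt_le_sqrt (by norm_num)
  have h2' : √2 ≤ 2 := by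
    rw [Real.sqrt_le_left (by norm_num)]
    norm_num
  have hl2 := Real.log_two_lt_d9
  have hl2' := Real.log_two_gt_d9
  have h := (log_series (7 / 27) (by norm_num) (by norm_num)).1
  have e : ((1 : ℝ) + 7 / 27) / (1 - 7 / 27) = 17 / 10 := by norm_num
  rw [e] at h
  have h17 : (53 / 100 : ℝ) ≤ Real.log (17 / 10) := le_trans (by norm_num) h
  have h34 : Real.log (2 * (17 / 10)) ≤ Real.log (2 + √2) :=
    Real.log_le_log (by norm_num) (by linarith)
  rw [Real.log_mul (by norm_num) (by norm_num)] at h34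
  have h4 : Real.log (2 + √2) ≤ Real.log (2 * 2) :=
    Real.log_le_log (by positivity) (by linarith)
  rw [Real.log_mul (by norm_num) (by norm_num)] at h4
  refine ⟨by linarith, by linarith, by linarith⟩

/-- the main exponent -/
private lemma FlipCl_e (x : ℝ) (h0 : 61 / 100 ≤ x) (h1 : x ≤ 88 / 100) :
    4 * Fr x - 4 * Fr (x / 2) - 14 / 100 * Real.pi * x +
      (49 / 10000 * Real.pi) * Real.tan (Real.pi * x / 2) + 2842 / 100000 * Real.pi ≤
      80 / 100 := by
  have hp := Real.pi_gt_d6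
  have hp' := Real.pi_lt_d6
  obtain ⟨hA, hB, hAB⟩ := FlipCl_slopes
  have hF := FlipCl_F34
  have hG := FlipCl_F38
  have t1 := Fr_tan_right x (3 / 4) (by linarith) (by linarith) (by norm_num) (by norm_num)
  have t2 := Fr_tan_left (x / 2) (3 / 8) (by linarith) (by linarith) (by norm_num) (by norm_num)
  -- tangent
  have ht : (49 / 10000 * Real.pi) * Real.tan (Real.pi * x / 2) ≤ 98 / 10000 / (1 - x) := by
    have hy : 0 < Real.pi * (1 - x) / 2 := by
      have : 0 < 1 - x := by linarith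
      positivity
    have hlt : Real.pi * (1 - x) / 2 < Real.tan (Real.pi * (1 - x) / 2) :=
      Real.lt_tan hy (by nlinarith)
    have e : Real.tan (Real.pi * x / 2) = (Real.tan (Real.pi * (1 - x) / 2))⁻¹ := by
      rw [show Real.pi * x / 2 = Real.pi / 2 - Real.pi * (1 - x) / 2 by ring,
        Real.tan_pi_div_two_sub]
    have h3 : (Real.tan (Real.pi * (1 - x) / 2))⁻¹ ≤ (Real.pi * (1 - x) / 2)⁻¹ :=
      inv_anti₀ hy hlt.le
    rw [e]
    calc (49 / 10000 * Real.pi) * (Real.tan (Real.pi * (1 - x) / 2))⁻¹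
        ≤ (49 / 10000 * Real.pi) * (Real.pi * (1 - x) / 2)⁻¹ :=
          mul_le_mul_of_nonneg_left h3 (by positivity)
      _ = 98 / 10000 / (1 - x) := by
          have : (1 : ℝ) - x ≠ 0 := by
            intro h
            linarith
          field_simp
          ring
  set A := Real.log (2 * Real.sin (Real.pi * (3 / 4))) with hAd
  set B := Real.log (2 * Real.sin (Real.pi * (3 / 8))) with hBd
  rcases le_total x (3 / 4) with h | h
  · have h5 : 98 / 10000 / (1 - x) ≤ 98 / 10000 / (1 - 3 / 4) :=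
      div_le_div_of_nonneg_left (by norm_num) (by norm_num) (by linarith)
    have h6 : A * (x - 3 / 4) - B * (x / 2 - 3 / 8) ≤ 0 := by
      have : A * (x - 3 / 4) - B * (x / 2 - 3 / 8) = (A - B / 2) * (x - 3 / 4) := by ring
      rw [this]
      exact mul_nonpos_of_nonneg_of_nonpos (by linarith) (by linarith)
    have h7 : 14 / 100 * (3141592 / 1000000) * (61 / 100) ≤ 14 / 100 * Real.pi * x := by
      have : (3141592 / 1000000 : ℝ) ≤ Real.pi := by linarith
      have := mul_le_mul this h0 (by norm_num) (by positivity)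
      nlinarith
    norm_num at h5 h7
    linarith
  · have h5 : 98 / 10000 / (1 - x) ≤ 98 / 10000 / (1 - 88 / 100) :=
      div_le_div_of_nonneg_left (by norm_num) (by norm_num) (by linarith)
    have h6 : A * (x - 3 / 4) - B * (x / 2 - 3 / 8) ≤ 466 / 10000 * (13 / 100) := by
      have : A * (x - 3 / 4) - B * (x / 2 - 3 / 8) = (A - B / 2) * (x - 3 / 4) := by ring
      rw [this]
      exact mul_le_mul (by linarith) (by linarith) (by linarith) (by norm_num)
    have h7 : 14 / 100 * (3141592 / 1000000) * (3 / 4) ≤ 14 / 100 * Real.pi * x := by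
      have : (3141592 / 1000000 : ℝ) ≤ Real.pi := by linarith
      have := mul_le_mul this h (by norm_num) (by positivity)
      nlinarith
    norm_num at h5 h7
    linarith

/-- the real inequality -/
private lemma FlipCl_main (x l l2 s η : ℝ) (h0 : 61 / 100 ≤ x) (h1 : x ≤ 88 / 100)
    (hl : |l - x / 2| ≤ 41 / 100 * x) (hl2 : |l2 - x / 2| ≤ 41 / 100 * x)
    (hs : s = 1 ∨ s = -1) (hη : η = 7 / 100 ∨ η = -(7 / 100)) :
    2 * Fr x + (Fr x - (ff (l + η * I)).re - (ff ((x - l : ℝ) + (-η : ℝ) * I)).re +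
      -(Real.pi * s * (η * (2 * l + x - 2)))) + (Fr x - Fr l2 - Fr (x - l2)) -
      2 * Real.pi * (7 / 100) ≤ 80 / 100 := by
  have hp := Real.pi_pos
  rw [abs_le] at hl hl2
  have hη2 : η ^ 2 = 49 / 10000 := by
    rcases hη with rfl | rfl <;> norm_num
  have a1 := vert_neg l η (58 / 10) (by linarith) (by linarith) (by norm_num)
    (FlipCl_cot l (by linarith) (by linarith))
  have a2 := vert_neg (x - l) (-η) (58 / 10) (by linarith) (by linarith) (by norm_num)
    (FlipCl_cot (x - l) (by linarith) (by linarith))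
  rw [neg_sq] at a2
  rw [hη2] at a1 a2
  have q1 := quad2_lin x (l - x / 2) (-(2 * Real.pi * s * η)) (by linarith) (by linarith)
    (by rw [abs_le]; constructor <;> linarith)
  have q2 := quad2_lin x (l2 - x / 2) 0 (by linarith) (by linarith)
    (by rw [abs_le]; constructor <;> linarith)
  have e1 : x / 2 - (l - x / 2) = x - l := by ring
  have e2 : x / 2 + (l - x / 2) = l := by ring
  have e3 : x / 2 - (l2 - x / 2) = x - l2 := by ring
  have e4 : x / 2 + (l2 - x / 2) = l2 := by ring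
  rw [e1, e2] at q1
  rw [e3, e4] at q2
  have hs2 : s ^ 2 = 1 := by rcases hs with rfl | rfl <;> norm_num
  have e5 : (-(2 * Real.pi * s * η)) ^ 2 / (4 * Real.pi) = 49 / 10000 * Real.pi := by
    have : (-(2 * Real.pi * s * η)) ^ 2 = 4 * Real.pi ^ 2 * s ^ 2 * η ^ 2 := by ring
    rw [this, hs2, hη2]
    field_simp
  rw [e5] at q1
  have hsη : s * η ≤ 7 / 100 := by
    rcases hs with rfl | rfl <;> rcases hη with rfl | rfl <;> norm_num
  have h6 : 2 * Real.pi * (s * η) * (1 - x) ≤ 2 * Real.pi * (7 / 100) * (1 - x) := by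
    apply mul_le_mul_of_nonneg_right _ (by linarith)
    apply mul_le_mul_of_nonneg_left hsη (by positivity)
  have e := FlipCl_e x h0 h1
  have e7 : -(Real.pi * s * (η * (2 * l + x - 2))) =
      2 * Real.pi * (s * η) * (1 - x) + -(2 * Real.pi * s * η) * (l - x / 2) := by ring
  rw [e7]
  norm_num at q2
  linarith

theorem flipCl (r1 r2 : ℤ) (h1 : |r1| = 2) (h2 : |r2| = 2) (η : ℝ)
    (hη : η = 7 / 100 ∨ η = -(7 / 100)) (a : Fin 3 → ℝ) (ha : a ∈ KS r1 r2) :
    (VV r1 r2 (cp a (Pi.single 1 η))).re - 2 * Real.pi * (7 / 100) ≤ 80 / 100 := by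
  have n1 : ¬ (3 ≤ |r1|) := by rw [h1]; norm_num
  have n2 : ¬ (3 ≤ |r2|) := by rw [h2]; norm_num
  obtain ⟨b1, b2, b3, b4⟩ := ha
  simp only [yl, n1, n2, and_false, false_and, if_false] at b1
  simp only [yu, n1, n2, and_false, false_and, or_false, if_false] at b2
  simp only [KB, n1, if_false] at b3
  simp only [KB, n2, if_false] at b4
  have z0 : cp a (Pi.single 1 η) 0 = (a 0 : ℂ) := by simp [cp]
  have z1 : cp a (Pi.single 1 η) 1 = (a 1 : ℂ) + (η : ℂ) * I := by simp [cp]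
  have z2 : cp a (Pi.single 1 η) 2 = (a 2 : ℂ) := by simp [cp]
  have x0 : 61 / 100 ≤ a 0 := by linarith
  have x1 : a 0 ≤ 88 / 100 := by linarith
  rw [abs_le] at b3 b4
  have f0 := ff_real (a 0) (by linarith) (by linarith)
  have f2 := ff_real (a 2) (by linarith) (by linarith)
  have f3 := ff_real (a 0 - a 2) (by linarith) (by linarith)
  have hs : ((r1 : ℝ) / 2 = 1) ∨ ((r1 : ℝ) / 2 = -1) := by
    rcases (abs_eq (by norm_num)).1 h1 with h | h
    · left; rw [h]; norm_num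
    · right; rw [h]; norm_num
  have m := FlipCl_main (a 0) (a 1) (a 2) ((r1 : ℝ) / 2) η x0 x1
    (abs_le.2 b3) (abs_le.2 b4) hs hη
  have q1 := FlipCl_quad (r1 : ℝ) (a 0) (a 1) η
  have q2 := FlipCl_quad (r2 : ℝ) (a 0) (a 2) 0
  have key : (VV r1 r2 (cp a (Pi.single 1 η))).re =
      2 * Fr (a 0) + (Fr (a 0) - (ff (a 1 + η * I)).re -
      (ff ((a 0 - a 1 : ℝ) + (-η : ℝ) * I)).re +
      -(Real.pi * ((r1 : ℝ) / 2) * (η * (2 * a 1 + a 0 - 2)))) +
      (Fr (a 0) - Fr (a 2) - Fr (a 0 - a 2)) := by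
    have w1 : (a 0 : ℂ) - ((a 1 : ℂ) + (η : ℂ) * I) = ((a 0 - a 1 : ℝ) : ℂ) + ((-η : ℝ) : ℂ) * I := by
      push_cast; ring
    have w2 : (a 0 : ℂ) - (a 2 : ℂ) = ((a 0 - a 2 : ℝ) : ℂ) := by push_cast; ring
    unfold VV BB
    rw [if_neg n1, if_neg n2, z0, z1, z2, w1, w2, f0, f2, f3]
    simp only [add_re, sub_re, ofReal_re, mul_re (2 : ℂ), re_ofNat, im_ofNat, zero_mul, sub_zero]
    simp only [ofReal_intCast] at q1 q2
    simp only [ofReal_zero, zero_mul, add_zero, mul_zero, neg_zero] at q2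
    rw [q1, q2]
    ring
  rw [key]
  exact m

end Pool.Agent.H63.GO
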