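import Pool.Agent.H63.GO.Defs
import Pool.Agent.H63.GO.FNum
import Pool.Agent.H63.GO.FVert
import Pool.Agent.H63.GO.PDefs

/-! # Flipped modes, both blocks with |r| = 2: x -/

namespace Pool.Agent.H63.GO

open Complex Filter Topology Pool.Agent.H63.VC Pool.Agent.H63.VC3

private lemma FlipCx_cot (u c : ℝ) (h0 : 0 < u) (h1 : u < 1) (hc : 1 / (Real.pi * u) ≤ c) :
    Real.cos (Real.pi * u) ≤ c * Real.sin (Real.pi * u) := by
  have hp := Real.pi_pos
  have hpu : 0 < Real.pi * u := by positivity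
  have hs : 0 < Real.sin (Real.pi * u) := Real.sin_pos_of_pos_of_lt_pi hpu (by nlinarith)
  have hc0 : 0 < c := lt_of_lt_of_le (by positivity) hc
  rcases lt_or_ge u (1 / 2) with h | h
  · have hcos : 0 < Real.cos (Real.pi * u) :=
      Real.cos_pos_of_mem_Ioo ⟨by linarith, by nlinarith⟩
    have h3 := Real.lt_tan hpu (by nlinarith)
    rw [Real.tan_eq_sin_div_cos, lt_div_iff₀ hcos] at h3
    have h4 : Real.cos (Real.pi * u) ≤ 1 / (Real.pi * u) * Real.sin (Real.pi * u) := by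
      rw [div_mul_eq_mul_div, one_mul, le_div_iff₀ hpu]
      linarith
    have h5 : 1 / (Real.pi * u) * Real.sin (Real.pi * u) ≤ c * Real.sin (Real.pi * u) :=
      mul_le_mul_of_nonneg_right hc hs.le
    linarith
  · have hcos : Real.cos (Real.pi * u) ≤ 0 :=
      Real.cos_nonpos_of_pi_div_two_le_of_le (by nlinarith) (by nlinarith)
    have : 0 < c * Real.sin (Real.pi * u) := by positivity
    linarith

private lemma FlipCx_tan1 (x : ℝ) (h0 : 1 / 2 < x) (h1 : x < 1) :
    Real.tan (Real.pi * (x - 1 / 2)) ≤ 1 / (Real.pi * (1 - x)) := by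
  have hp := Real.pi_pos
  have hu : 0 < Real.pi * (1 - x) := mul_pos hp (by linarith)
  have e : Real.pi * (x - 1 / 2) = Real.pi / 2 - Real.pi * (1 - x) := by ring
  rw [e, Real.tan_pi_div_two_sub, one_div]
  exact inv_anti₀ hu (Real.lt_tan hu (by nlinarith)).le

private lemma FlipCx_tan2 (x : ℝ) (h0 : 1 / 2 < x) (h1 : x < 1) :
    Real.tan (Real.pi * x / 2) ≤ 1 / (Real.pi * (1 - x) / 2) := by
  have hp := Real.pi_pos
  have hu : 0 < Real.pi * (1 - x) / 2 := by
    have := mul_pos hp (by linarith : (0 : ℝ) < 1 - x)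
    linarith
  have e : Real.pi * x / 2 = Real.pi / 2 - Real.pi * (1 - x) / 2 := by ring
  rw [e, Real.tan_pi_div_two_sub, one_div]
  exact inv_anti₀ hu (Real.lt_tan hu (by nlinarith)).le

private lemma FlipCx_block (x l η s : ℝ) (h0 : 61 / 100 ≤ x) (h1 : x ≤ 88 / 100)
    (hl : |l - x / 2| ≤ 41 / 100 * x) (hs : s = 1 ∨ s = -1) (hη : η = 1 / 20 ∨ η = -(1 / 20)) :
    -(ff (l : ℂ)).re - (ff (((x - l : ℝ) : ℂ) + η * I)).re - s * Real.pi * η * (x - 3 / 2 + l) ≤
      -2 * Fr (x / 2) + 3 * Real.pi / 40 * (1 - x) + 1 / (800 * (1 - x)) + 1 / (72 * x) := by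
  have hp := Real.pi_pos
  have hl' := abs_le.1 hl
  have hl0 : 9 / 100 * x ≤ l := by linarith [hl'.1]
  have hl1 : 9 / 100 * x ≤ x - l := by linarith [hl'.2]
  have hη2 : η ^ 2 = 1 / 400 := by rcases hη with h | h <;> rw [h] <;> norm_num
  have hx0 : 0 < x := by linarith
  have hx1 : x < 1 := by linarith
  -- the first term
  have e1 : -(ff (l : ℂ)).re = -Fr l := by
    rw [ff_real l (by linarith) (by linarith), Complex.ofReal_re]
  -- the second term
  have h2 := vert_neg (x - l) η (1 / (Real.pi * (9 / 100 * x))) (by linarith) (by linarith)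
    (by positivity) (FlipCx_cot _ _ (by linarith) (by linarith) (by
      apply one_div_le_one_div_of_le (by positivity)
      exact mul_le_mul_of_nonneg_left hl1 hp.le))
  have e2 : Real.pi / 2 * (1 / (Real.pi * (9 / 100 * x))) * η ^ 2 = 1 / (72 * x) := by
    rw [hη2]
    field_simp
    norm_num
  rw [e2] at h2
  -- the quadratic term
  have h3 := quad2_lin x (x / 2 - l) (s * Real.pi * η) hx0 hx1 (by
    rw [abs_sub_comm]
    linarith)
  have e3 : x / 2 - (x / 2 - l) = l := by ring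
  have e4 : x / 2 + (x / 2 - l) = x - l := by ring
  rw [e3, e4] at h3
  have e5 : (s * Real.pi * η) ^ 2 = Real.pi ^ 2 / 400 := by
    have : s ^ 2 = 1 := by rcases hs with h | h <;> rw [h] <;> norm_num
    rw [mul_pow, mul_pow, this, hη2]
    ring
  have h4 : (s * Real.pi * η) ^ 2 / (4 * Real.pi) * Real.tan (Real.pi * x / 2) ≤
      1 / (800 * (1 - x)) := by
    have h5 := mul_le_mul_of_nonneg_left (FlipCx_tan2 x (by linarith) hx1)
      (by positivity : 0 ≤ (s * Real.pi * η) ^ 2 / (4 * Real.pi))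
    have hx2 : (1 - x) ≠ 0 := by linarith
    have e6 : (s * Real.pi * η) ^ 2 / (4 * Real.pi) * (1 / (Real.pi * (1 - x) / 2)) =
        1 / (800 * (1 - x)) := by
      rw [e5]
      field_simp
      norm_num
    rw [e6] at h5
    exact h5
  have h6 : 3 / 2 * (s * Real.pi * η) * (1 - x) ≤ 3 * Real.pi / 40 * (1 - x) := by
    have h7 : 0 ≤ Real.pi * (1 - x) := by
      have : 0 ≤ 1 - x := by linarith
      positivity
    rcases hs with h | h <;> rcases hη with h' | h' <;> rw [h, h'] <;> nlinarith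
  have e7 : s * Real.pi * η * (x - 3 / 2 + l) =
      -(3 / 2 * (s * Real.pi * η) * (1 - x)) - s * Real.pi * η * (x / 2 - l) := by ring
  rw [e1, e7]
  linarith

private lemma FlipCx_log_ge (r t q : ℝ) (h0 : 0 ≤ t) (h1 : t ≤ 1 / 3) (h2 : (1 + t) / (1 - t) ≤ r)
    (h3 : q ≤ 2 * (t + t ^ 3 / 3 + t ^ 5 / 5 + t ^ 7 / 7)) : q ≤ Real.log r := by
  have h4 := (log_series t h0 h1).1
  have h5 : Real.log ((1 + t) / (1 - t)) ≤ Real.log r := by
    apply Real.log_le_log _ h2
    apply div_pos <;> linarith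
  linarith

private lemma FlipCx_log_le (r t q : ℝ) (h0 : 0 ≤ t) (h1 : t ≤ 1 / 3) (hr : 0 < r)
    (h2 : r ≤ (1 + t) / (1 - t))
    (h3 : 2 * (t + t ^ 3 / 3 + t ^ 5 / 5 + t ^ 7 / 7) + t ^ 9 / 3 ≤ q) : Real.log r ≤ q := by
  have h4 := (log_series t h0 h1).2
  have h5 : Real.log r ≤ Real.log ((1 + t) / (1 - t)) := Real.log_le_log hr h2
  linarith

private lemma FlipCx_pi2 : Real.pi ^ 2 ≤ 98697 / 10000 := by
  have h1 := Real.pi_lt_d6
  have h0 := Real.pi_pos
  nlinarith

private lemma FlipCx_pi4 : Real.pi ^ 4 ≤ 97411 / 1000 := by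
  have h := FlipCx_pi2
  have h0 : 0 < Real.pi ^ 2 := by positivity
  nlinarith

private lemma FlipCx_pi6 : Real.pi ^ 6 ≤ 9615 / 10 := by
  have h := FlipCx_pi2
  have h' := FlipCx_pi4
  have h0 : 0 < Real.pi ^ 2 := by positivity
  have h1 : 0 < Real.pi ^ 4 := by positivity
  have e : Real.pi ^ 6 = Real.pi ^ 2 * Real.pi ^ 4 := by ring
  rw [e]
  nlinarith

private lemma FlipCx_F30 : -(12500 / 100000) ≤ Fr (3 / 10) := by
  have h := (Fr_num (3 / 10) (by norm_num) (by norm_num)).1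
  unfold Ft at h
  have hp := Real.pi_gt_d6
  have h1 : 63377 / 100000 ≤ Real.log (2 * Real.pi * (3 / 10)) :=
    FlipCx_log_ge _ (3067 / 10000) _ (by norm_num) (by norm_num) (by norm_num; linarith)
      (by norm_num)
  have h2 := FlipCx_pi2
  have h4 := FlipCx_pi4
  have h6 := FlipCx_pi6
  norm_num at h h1 ⊢
  linarith

private lemma FlipCx_F25 : -(14580 / 100000) ≤ Fr (1 / 4) := by
  have h := (Fr_num (1 / 4) (by norm_num) (by norm_num)).1
  unfold Ft at h
  have hp := Real.pi_gt_d6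
  have h1 : 45151 / 100000 ≤ Real.log (2 * Real.pi * (1 / 4)) :=
    FlipCx_log_ge _ (222 / 1000) _ (by norm_num) (by norm_num) (by norm_num; linarith)
      (by norm_num)
  have h2 := FlipCx_pi2
  have h4 := FlipCx_pi4
  have h6 := FlipCx_pi6
  norm_num at h h1 ⊢
  linarith

private lemma FlipCx_F38 : -(8342 / 100000) ≤ Fr (3 / 8) := by
  have h := (Fr_num (3 / 8) (by norm_num) (by norm_num)).1
  unfold Ft at h
  have hp := Real.pi_gt_d6
  have h1 : 16388 / 100000 ≤ Real.log (Real.pi * (3 / 8)) :=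
    FlipCx_log_ge _ (8176 / 100000) _ (by norm_num) (by norm_num) (by norm_num; linarith)
      (by norm_num)
  have e : Real.log (2 * Real.pi * (3 / 8)) = Real.log 2 + Real.log (Real.pi * (3 / 8)) := by
    rw [mul_assoc, Real.log_mul (by norm_num) (by positivity)]
  rw [e] at h
  have h0 := Real.log_two_gt_d9
  have h2 := FlipCx_pi2
  have h4 := FlipCx_pi4
  have h6 := FlipCx_pi6
  norm_num at h h1 h0 ⊢
  linarith

private lemma FlipCx_refl (x : ℝ) : Fr (1 - x) = -Fr x := by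
  rw [← Fr_neg, ← Fr_add_one (-x)]
  congr 1
  ring

private lemma FlipCx_s1 : |Real.log (2 * Real.sin (Real.pi * (7 / 10))) - 4812 / 10000| ≤
    2 / 10000 := by
  have e : Real.pi * (7 / 10) = Real.pi / 2 + Real.pi / 5 := by ring
  have e2 : Real.sin (Real.pi / 2 + Real.pi / 5) = Real.cos (Real.pi / 5) := by
    rw [add_comm, Real.sin_add_pi_div_two]
  rw [e, e2, Real.cos_pi_div_five]
  have h5 : Real.sqrt 5 ^ 2 = 5 := Real.sq_sqrt (by norm_num)
  have h50 := Real.sqrt_nonneg 5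
  have h51 : 2236 / 1000 ≤ Real.sqrt 5 := by
    apply Real.le_sqrt_of_sq_le
    norm_num
  have h52 : Real.sqrt 5 ≤ 22361 / 10000 := by
    rw [Real.sqrt_le_left (by norm_num)]
    norm_num
  rw [abs_le]
  constructor
  · have := FlipCx_log_ge (2 * ((1 + Real.sqrt 5) / 4)) (236 / 1000) (4810 / 10000) (by norm_num)
      (by norm_num) (by norm_num; linarith) (by norm_num)
    linarith
  · have := FlipCx_log_le (2 * ((1 + Real.sqrt 5) / 4)) (2361 / 10000) (4813 / 10000) (by norm_num)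
      (by norm_num) (by positivity) (by norm_num; linarith) (by norm_num)
    linarith

private lemma FlipCx_s2 : |Real.log (2 * Real.sin (Real.pi * (3 / 4))) - 34657 / 100000| ≤
    1 / 10000 := by
  have e : Real.pi * (3 / 4) = Real.pi - Real.pi / 4 := by ring
  rw [e, Real.sin_pi_sub, Real.sin_pi_div_four]
  have e2 : 2 * (Real.sqrt 2 / 2) = Real.sqrt 2 := by ring
  rw [e2, Real.log_sqrt (by norm_num)]
  have h1 := Real.log_two_gt_d9
  have h2 := Real.log_two_lt_d9
  norm_num at h1 h2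
  rw [abs_le]
  constructor <;> linarith

private lemma FlipCx_s3 : |Real.log (2 * Real.sin (Real.pi * (3 / 8))) - 6140 / 10000| ≤
    1 / 10000 := by
  have e : Real.pi * (3 / 8) = Real.pi / 2 - Real.pi / 8 := by ring
  rw [e, Real.sin_pi_div_two_sub, Real.cos_pi_div_eight]
  have e2 : 2 * (Real.sqrt (2 + Real.sqrt 2) / 2) = Real.sqrt (2 + Real.sqrt 2) := by ring
  rw [e2, Real.log_sqrt (by positivity)]
  have h21 : 1414213 / 1000000 ≤ Real.sqrt 2 := by
    apply Real.le_sqrt_of_sq_le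
    norm_num
  have h22 : Real.sqrt 2 ≤ 1414214 / 1000000 := by
    rw [Real.sqrt_le_left (by norm_num)]
    norm_num
  have e3 : 2 + Real.sqrt 2 = 2 * (1 + Real.sqrt 2 / 2) := by ring
  rw [e3, Real.log_mul (by norm_num) (by positivity)]
  have h1 := Real.log_two_gt_d9
  have h2 := Real.log_two_lt_d9
  norm_num at h1 h2
  have h3 := FlipCx_log_ge (1 + Real.sqrt 2 / 2) (2612 / 10000) (5347 / 10000) (by norm_num)
    (by norm_num) (by norm_num; linarith) (by norm_num)
  have h4 := FlipCx_log_le (1 + Real.sqrt 2 / 2) (26121 / 100000) (5349 / 10000) (by norm_num)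
    (by norm_num) (by positivity) (by norm_num; linarith) (by norm_num)
  rw [abs_le]
  constructor <;> linarith

private lemma FlipCx_mul (s c e t d : ℝ) (h : |s - c| ≤ e) (ht : |t| ≤ d) :
    s * t ≤ c * t + e * d := by
  have h1 : (s - c) * t ≤ |s - c| * |t| := by
    rw [← abs_mul]
    exact le_abs_self _
  have h2 : |s - c| * |t| ≤ e * d := mul_le_mul h ht (abs_nonneg _) (le_trans (abs_nonneg _) h)
  linarith

private lemma FlipCx_ch1 (p q x : ℝ) (h0 : p ≤ x) (h1 : x ≤ q) (h2 : q < 1) :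
    1 / (1 - x) ≤ 1 / (1 - p) + (x - p) / ((1 - p) * (1 - q)) := by
  have hp : 0 < 1 - p := by linarith
  have hq : 0 < 1 - q := by linarith
  have hx : 0 < 1 - x := by linarith
  have e : 1 / (1 - p) + (x - p) / ((1 - p) * (1 - q)) - 1 / (1 - x) =
      (x - p) * (q - x) / ((1 - p) * (1 - q) * (1 - x)) := by
    field_simp
    ring
  have h3 : 0 ≤ (x - p) * (q - x) / ((1 - p) * (1 - q) * (1 - x)) :=
    div_nonneg (mul_nonneg (by linarith) (by linarith)) (by positivity)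
  linarith

private lemma FlipCx_ch2 (p q x : ℝ) (h0 : p ≤ x) (h1 : x ≤ q) (h2 : 0 < p) :
    1 / x ≤ 1 / p - (x - p) / (p * q) := by
  have hx : 0 < x := by linarith
  have hq : 0 < q := by linarith
  have e : 1 / p - (x - p) / (p * q) - 1 / x = (x - p) * (q - x) / (p * q * x) := by
    field_simp
    ring
  have h3 : 0 ≤ (x - p) * (q - x) / (p * q * x) :=
    div_nonneg (mul_nonneg (by linarith) (by linarith)) (by positivity)
  linarith

private lemma FlipCx_num (x : ℝ) (h0 : 61 / 100 ≤ x) (h1 : x ≤ 88 / 100) :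
    4 * Fr x - 4 * Fr (x / 2) + 3 * Real.pi / 20 * (1 - x) - Real.pi / 10 +
      3 / (400 * (1 - x)) + 1 / (36 * x) ≤ 80 / 100 := by
  have hpl := Real.pi_gt_d6
  have hpu := Real.pi_lt_d6
  norm_num at hpl hpu
  have hx1 : 0 < 1 - x := by linarith
  have hx0 : 0 < x := by linarith
  have hL := Fr_tan_left (x / 2) (3 / 8) (by linarith) (by linarith) (by norm_num) (by norm_num)
  have h38 := FlipCx_F38
  have hs3 := FlipCx_mul (-Real.log (2 * Real.sin (Real.pi * (3 / 8)))) (-(6140 / 10000))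
    (1 / 10000) (x / 2 - 3 / 8) (1 / 10) (by
      have := FlipCx_s3
      rw [abs_le] at this ⊢
      constructor <;> linarith [this.1, this.2]) (by rw [abs_le]; constructor <;> linarith)
  have hpi : 3 * Real.pi / 20 * (1 - x) ≤ 3 * 3.141593 / 20 * (1 - x) := by
    apply mul_le_mul_of_nonneg_right _ hx1.le
    norm_num
    linarith
  have k1 : 3 / (400 * (1 - x)) = 3 / 400 * (1 / (1 - x)) := by
    have := hx1.ne'
    field_simp
  have k2 : 1 / (36 * x) = 1 / 36 * (1 / x) := by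
    field_simp
  rcases le_total x (725 / 1000) with h | h
  · have hR := Fr_tan_right x (7 / 10) (by linarith) (by linarith) (by norm_num) (by norm_num)
    have h70 : Fr (7 / 10) ≤ 12500 / 100000 := by
      have e : (7 : ℝ) / 10 = 1 - 3 / 10 := by norm_num
      rw [e, FlipCx_refl]
      linarith [FlipCx_F30]
    have hs1 := FlipCx_mul (Real.log (2 * Real.sin (Real.pi * (7 / 10)))) (4812 / 10000)
      (2 / 10000) (x - 7 / 10) (1 / 10) FlipCx_s1 (by rw [abs_le]; constructor <;> linarith)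
    have hc1 := FlipCx_ch1 (61 / 100) (725 / 1000) x h0 h (by norm_num)
    have hc2 := FlipCx_ch2 (61 / 100) (725 / 1000) x h0 h (by norm_num)
    rw [k1, k2]
    norm_num at hc1 hc2 hpi hs1 hs3 ⊢
    linarith
  · have hR := Fr_tan_right x (3 / 4) (by linarith) (by linarith) (by norm_num) (by norm_num)
    have h75 : Fr (3 / 4) ≤ 14580 / 100000 := by
      have e : (3 : ℝ) / 4 = 1 - 1 / 4 := by norm_num
      rw [e, FlipCx_refl]
      linarith [FlipCx_F25]
    have hs2 := FlipCx_mul (Real.log (2 * Real.sin (Real.pi * (3 / 4)))) (34657 / 100000)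
      (1 / 10000) (x - 3 / 4) (2 / 10) FlipCx_s2 (by rw [abs_le]; constructor <;> linarith)
    have hc1 := FlipCx_ch1 (725 / 1000) (88 / 100) x h h1 (by norm_num)
    have hc2 := FlipCx_ch2 (725 / 1000) (88 / 100) x h h1 (by norm_num)
    rw [k1, k2]
    norm_num at hc1 hc2 hpi hs2 hs3 ⊢
    linarith

private lemma FlipCx_BB (r : ℤ) (hr : |r| = 2) (x l η : ℝ) :
    (BB r ((x : ℂ) + η * I) (l : ℂ)).re = (ff ((x : ℂ) + η * I)).re - (ff (l : ℂ)).re -
      (ff (((x - l : ℝ) : ℂ) + η * I)).re - (r / 2 : ℝ) * Real.pi * η * (x - 3 / 2 + l) := by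
  unfold BB
  rw [if_neg (by omega)]
  have e1 : (x : ℂ) + η * I - l = ((x - l : ℝ) : ℂ) + η * I := by push_cast; ring
  have e2 : Real.pi * I * r / 2 * ((((x : ℂ) + η * I) ^ 2 - 3 * ((x : ℂ) + η * I)) / 2 +
      (l : ℂ) ^ 2 + l * ((x : ℂ) + η * I) - 2 * l) =
      ((-((r / 2 : ℝ) * Real.pi * η * (x - 3 / 2 + l)) : ℝ) : ℂ) +
      ((Real.pi * r / 2 * ((x ^ 2 - η ^ 2 - 3 * x) / 2 + l ^ 2 + l * x - 2 * l) : ℝ) : ℂ) * I := by
    push_cast
    linear_combination (Real.pi * r / 2 * (x * η - 3 / 2 * η + l * η + η ^ 2 / 2 * I) : ℂ) * I_sq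
  rw [e1, e2]
  simp only [Complex.add_re, Complex.sub_re, Complex.ofReal_re, Complex.re_ofReal_mul,
    Complex.I_re, mul_zero, add_zero]
  ring

theorem flipCx (r1 r2 : ℤ) (h1 : |r1| = 2) (h2 : |r2| = 2) (η : ℝ)
    (hη : η = 1 / 20 ∨ η = -(1 / 20)) (a : Fin 3 → ℝ) (ha : a ∈ KS r1 r2) :
    (VV r1 r2 (cp a (Pi.single 0 η))).re - 2 * Real.pi / 20 ≤ 80 / 100 := by
  obtain ⟨ha1, ha2, ha3, ha4⟩ := ha
  have n1 : ¬ 3 ≤ |r1| := by omega
  have n2 : ¬ 3 ≤ |r2| := by omega
  unfold yl at ha1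
  unfold yu at ha2
  unfold KB at ha3 ha4
  rw [if_neg (by tauto)] at ha1
  rw [if_neg (by tauto), if_neg (by tauto)] at ha2
  rw [if_neg n1] at ha3
  rw [if_neg n2] at ha4
  have hx0 : 61 / 100 ≤ a 0 := by linarith
  have hx1 : a 0 ≤ 88 / 100 := by linarith
  have hs : ∀ r : ℤ, |r| = 2 → ((r / 2 : ℝ) = 1 ∨ (r / 2 : ℝ) = -1) := by
    intro r hr
    rcases eq_or_eq_neg_of_abs_eq hr with h | h <;> rw [h] <;> norm_num
  have c0 : cp a (Pi.single 0 η) 0 = (a 0 : ℂ) + η * I := by simp [cp]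
  have c1 : cp a (Pi.single 0 η) 1 = (a 1 : ℂ) := by simp [cp]
  have c2 : cp a (Pi.single 0 η) 2 = (a 2 : ℂ) := by simp [cp]
  have e : (VV r1 r2 (cp a (Pi.single 0 η))).re = 2 * (ff ((a 0 : ℂ) + η * I)).re +
      (BB r1 ((a 0 : ℂ) + η * I) (a 1 : ℂ)).re + (BB r2 ((a 0 : ℂ) + η * I) (a 2 : ℂ)).re := by
    unfold VV
    rw [c0, c1, c2]
    simp
  rw [e, FlipCx_BB r1 h1, FlipCx_BB r2 h2]
  have hb1 := FlipCx_block (a 0) (a 1) η _ hx0 hx1 ha3 (hs r1 h1) hη
  have hb2 := FlipCx_block (a 0) (a 2) η _ hx0 hx1 ha4 (hs r2 h2) hη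
  have hv := vert_le (a 0) η (by linarith) (by linarith)
  have hη2 : η ^ 2 = 1 / 400 := by rcases hη with h | h <;> rw [h] <;> norm_num
  have ht := mul_le_mul_of_nonneg_left (FlipCx_tan1 (a 0) (by linarith) (by linarith))
    (by positivity : (0 : ℝ) ≤ Real.pi / 2 * (1 / 400))
  have hxx : (1 - a 0) ≠ 0 := by
    intro h
    linarith
  have et : Real.pi / 2 * (1 / 400) * (1 / (Real.pi * (1 - a 0))) = 1 / (800 * (1 - a 0)) := by
    have := Real.pi_ne_zero
    field_simp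
    norm_num
  rw [et] at ht
  rw [hη2] at hv
  have hv' : (ff ((a 0 : ℂ) + η * I)).re ≤ Fr (a 0) + 1 / (800 * (1 - a 0)) := by linarith
  have hn := FlipCx_num (a 0) hx0 hx1
  have r1' : 3 / (400 * (1 - a 0)) = 6 * (1 / (800 * (1 - a 0))) := by
    field_simp
    norm_num
  have r2' : 1 / (36 * a 0) = 2 * (1 / (72 * a 0)) := by
    have : a 0 ≠ 0 := by linarith
    field_simp
    norm_num
  rw [r1', r2'] at hn
  linarith

end Pool.Agent.H63.GO
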