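import Pool.Agent.H63.GO.GRel

/-! # The last shapes -/

namespace Pool.Agent.H63.GO

open Complex Filter Topology Pool.Agent.H63.VC Pool.Agent.H63.VC3

private theorem GPos_Xs_conj (y : ℂ) (k : ℕ) :
    Xs ((starRingEnd ℂ) y) k = (starRingEnd ℂ) (Xs y k) := by
  induction k using Nat.strong_induction_on with
  | _ k ih =>
    match k, ih with
    | 0, _ => simp [Xs]
    | 1, _ => simp [Xs]
    | k + 2, ih =>
      rw [Xs_rec, Xs_rec, ih (k + 1) (by omega), ih k (by omega), map_sub, map_mul]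

private theorem GPos_inv_conj (v : ℂ) (k : ℕ) :
    ((Xs (2 * cos (Real.pi * (starRingEnd ℂ) v)) k ^ 2)⁻¹).im =
      -((Xs (2 * cos (Real.pi * v)) k ^ 2)⁻¹).im := by
  have h1 : 2 * cos (Real.pi * (starRingEnd ℂ) v) = (starRingEnd ℂ) (2 * cos (Real.pi * v)) := by
    rw [map_mul, ← Complex.cos_conj, map_mul, Complex.conj_ofReal, map_ofNat]
  rw [h1, GPos_Xs_conj, ← map_pow, ← map_inv₀, Complex.conj_im]

private theorem GPos_im_cos (v : ℂ) : (cos (2 * Real.pi * v)).im =
    -(Real.sin (2 * Real.pi * v.re) * Real.sinh (2 * Real.pi * v.im)) := by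
  have h1 : (2 * Real.pi * v : ℂ) = ((2 * Real.pi * v.re : ℝ) : ℂ) +
      ((2 * Real.pi * v.im : ℝ) : ℂ) * I := by
    apply Complex.ext <;> simp
  rw [h1, Complex.cos_add_mul_I, ← Complex.ofReal_cos, ← Complex.ofReal_cosh,
    ← Complex.ofReal_sin, ← Complex.ofReal_sinh]
  simp only [Complex.sub_im, Complex.mul_im, Complex.mul_re, Complex.ofReal_re,
    Complex.ofReal_im, Complex.I_re, Complex.I_im]
  ring

private theorem GPos_inv {X A B : ℂ} (hX : X * (1 + A) = -(1 + B)) (hA : 1 + A ≠ 0)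
    (hB : 1 + B ≠ 0) : X⁻¹ = -((1 + A) / (1 + B)) := by
  have h0 : X ≠ 0 := by
    rintro rfl
    rw [zero_mul] at hX
    exact hB (neg_eq_zero.1 hX.symm)
  field_simp
  linear_combination hX

private theorem GPos_inv2 {X Y A B : ℂ} (hX : X * (Y * (1 + A)) = -(2 + A + B))
    (hD : 2 + A + B ≠ 0) : X⁻¹ = -(Y * (1 + A) / (2 + A + B)) := by
  have h0 : X ≠ 0 := by
    rintro rfl
    rw [zero_mul] at hX
    exact hD (neg_eq_zero.1 hX.symm)
  field_simp
  linear_combination hX

/-- The real part of `1 + cos (2 π v) = 2 cos² (π v)` is positive. -/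
private theorem GPos_re (v : ℂ) (h : |(cos (Real.pi * v)).im| ≤ 1 / 4 * (cos (Real.pi * v)).re)
    (h0 : 1 + cos (2 * Real.pi * v) ≠ 0) : 0 < (1 + cos (2 * Real.pi * v)).re := by
  rw [Rel_one_add_cos] at h0 ⊢
  obtain ⟨c, hc⟩ : ∃ c : ℂ, c = cos (Real.pi * v) := ⟨_, rfl⟩
  rw [← hc] at h h0 ⊢
  have hre : (2 * c ^ 2).re = 2 * (c.re ^ 2 - c.im ^ 2) := by
    rw [sq]
    simp
    ring
  rw [hre]
  have h1 : 0 ≤ c.re := by
    have := abs_nonneg c.im
    linarith
  have h2 : c.re ≠ 0 := by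
    intro h3
    apply h0
    have h4 : c.im = 0 := by
      rw [h3, mul_zero] at h
      exact abs_eq_zero.1 (le_antisymm h (abs_nonneg _))
    have h5 : c = 0 := Complex.ext h3 h4
    rw [h5]
    ring
  have h3 : 0 < c.re := lt_of_le_of_ne h1 (Ne.symm h2)
  have h4 : c.im ^ 2 ≤ (1 / 4 * c.re) ^ 2 := by
    rw [← sq_abs c.im]
    exact pow_le_pow_left₀ (abs_nonneg _) h 2
  nlinarith [mul_pos h3 h3]

private theorem GPos_small (r : ℝ) (x : ℝ) (hr : 2 ≤ |r|) (hx : |x| < 2 / (4 * |r| - 1)) :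
    |x| < 2 / 7 := by
  refine lt_of_lt_of_le hx ?_
  apply div_le_div_of_nonneg_left (by norm_num) (by norm_num) (by linarith)

private theorem GPos_imA_pos (v : ℂ) (h1 : v.re < 0) (h2 : |v.re| < 2 / 7) (h3 : 0 < v.im) :
    0 < (cos (2 * Real.pi * v)).im := by
  have hpi := Real.pi_pos
  have hsinh : 0 < Real.sinh (2 * Real.pi * v.im) := Real.sinh_pos_iff.2 (by positivity)
  rw [GPos_im_cos]
  have hre := abs_lt.1 h2
  have h4 : Real.sin (2 * Real.pi * v.re) < 0 := by
    apply Real.sin_neg_of_neg_of_neg_pi_lt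
    · nlinarith
    · nlinarith
  nlinarith

private theorem GPos_imA_neg (v : ℂ) (h1 : 0 < v.re) (h2 : |v.re| < 2 / 7) (h3 : 0 < v.im) :
    (cos (2 * Real.pi * v)).im < 0 := by
  have hpi := Real.pi_pos
  have hsinh : 0 < Real.sinh (2 * Real.pi * v.im) := Real.sinh_pos_iff.2 (by positivity)
  rw [GPos_im_cos]
  have hre := abs_lt.1 h2
  have h4 : 0 < Real.sin (2 * Real.pi * v.re) := by
    apply Real.sin_pos_of_pos_of_lt_pi
    · positivity
    · nlinarith
  nlinarith

private theorem GPos_div_im (z w : ℂ) (a1 : 0 < (1 + z).re) (a2 : 0 < (1 + w).re)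
    (h1 : 0 < z.im) (h2 : w.im < 0) :
    0 < ((1 + z) / (1 + w)).im ∧ ((1 + w) / (1 + z)).im < 0 := by
  have n1 : 0 < Complex.normSq (1 + z) := by
    apply Complex.normSq_pos.2
    intro h
    rw [h] at a1
    simp at a1
  have n2 : 0 < Complex.normSq (1 + w) := by
    apply Complex.normSq_pos.2
    intro h
    rw [h] at a2
    simp at a2
  have i1 : (1 + z).im = z.im := by simp
  have i2 : (1 + w).im = w.im := by simp
  constructor
  · rw [Complex.div_im, ← sub_div]
    apply div_pos _ n2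
    rw [i1, i2]
    nlinarith [mul_pos h1 a2, mul_pos (neg_pos.2 h2) a1]
  · rw [Complex.div_im, ← sub_div]
    apply div_neg_of_neg_of_pos _ n1
    rw [i1, i2]
    nlinarith [mul_pos h1 a2, mul_pos (neg_pos.2 h2) a1]

theorem gtop_opp (p q : ℕ) (y v w : ℂ) (hc : CritG p (-q) y v w) :
    0 < ((Xs (2 * cos (Real.pi * (starRingEnd ℂ) v)) (2 * p) ^ 2)⁻¹).im ∧
    0 < ((Xs (2 * cos (Real.pi * w)) (2 * q) ^ 2)⁻¹).im := by
  have hp : 2 ≤ p := by
    have := hc.h1
    rw [Int.abs_natCast] at this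
    exact_mod_cast this
  have hq : 2 ≤ q := by
    have := hc.h2
    rw [abs_neg, Int.abs_natCast] at this
    exact_mod_cast this
  have hpR : (2 : ℝ) ≤ p := by exact_mod_cast hp
  have hqR : (2 : ℝ) ≤ q := by exact_mod_cast hq
  obtain ⟨n1, n2, n3, n4, n5⟩ := gne _ _ y v w hc
  have hrc := grel_c _ _ y v w hc
  obtain ⟨hE1, hE2⟩ := grel_E _ _ y v w hc
  have hA := GPos_re v hc.v6 n1
  have hB := GPos_re w hc.w6 n2
  have v1 : v.re < 0 := by
    have h := hc.v1
    push_cast at h
    by_contra hcon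
    push Not at hcon
    have := mul_nonneg (show (0 : ℝ) ≤ p by linarith) hcon
    linarith
  have w1 : 0 < w.re := by
    have h := hc.w1
    push_cast at h
    by_contra hcon
    push Not at hcon
    have := mul_nonneg_of_nonpos_of_nonpos (show -(q : ℝ) ≤ 0 by linarith) hcon
    linarith
  have v2 : |v.re| < 2 / 7 := by
    refine GPos_small _ _ ?_ hc.v2
    push_cast
    rw [abs_of_nonneg (by linarith)]
    exact hpR
  have w2 : |w.re| < 2 / 7 := by
    refine GPos_small _ _ ?_ hc.w2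
    push_cast
    rw [abs_neg, abs_of_nonneg (by linarith)]
    exact hqR
  have iA := GPos_imA_pos v v1 v2 hc.v4
  have iB := GPos_imA_neg w w1 w2 hc.w4
  obtain ⟨s1, s2⟩ := GPos_div_im _ _ hA hB iA iB
  have hv0 : sin (Real.pi * v) ≠ 0 := by
    have := n4 1 le_rfl (by have := hc.h1; push_cast; linarith)
    simpa using this
  have hw0 : sin (Real.pi * w) ≠ 0 := by
    have := n5 1 le_rfl (by have := hc.h2; push_cast; linarith)
    simpa using this
  constructor
  · have h1 := (rel_pos p y v _ (cos (2 * Real.pi * w)) (by omega) rfl hrc (by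
      have := hE1
      push_cast at this
      exact this) n1 n2 n3 hv0).1
    rw [GPos_inv_conj, GPos_inv h1 n1 n2, Complex.neg_im, neg_neg]
    exact s1
  · have hE2' : exp (4 * Real.pi * I * q * w) * (exp (2 * Real.pi * I * (-y)) -
        exp (2 * Real.pi * I * w)) = exp (2 * Real.pi * I * (-y)) * exp (2 * Real.pi * I * w) - 1 := by
      have e1 : exp (2 * Real.pi * I * (-y)) * exp (2 * Real.pi * I * y) = 1 := by
        rw [← Complex.exp_add]
        simp
      have e2 : exp (4 * Real.pi * I * q * w) * exp (4 * Real.pi * I * ((-q : ℤ) : ℂ) * w) = 1 := by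
        rw [← Complex.exp_add]
        push_cast
        rw [← Complex.exp_zero]
        congr 1
        ring
      linear_combination (exp (4 * Real.pi * I * q * w) * exp (2 * Real.pi * I * w)) * e1 +
        (exp (4 * Real.pi * I * q * w) * exp (2 * Real.pi * I * (-y))) * hE2 -
        (exp (2 * Real.pi * I * (-y)) * (exp (2 * Real.pi * I * y) - exp (2 * Real.pi * I * w))) * e2 -
        e1
    have h1 := (rel_pos q (-y) w _ (cos (2 * Real.pi * v)) (by omega) rfl (by
      have e : cos (2 * Real.pi * (-y)) = cos (2 * Real.pi * y) := by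
        rw [mul_neg, Complex.cos_neg]
      rw [e]
      linear_combination hrc) hE2' n2 n1 (by
        intro h
        apply n3
        linear_combination h) hw0).1
    rw [GPos_inv h1 n2 n1, Complex.neg_im]
    linarith

private theorem GPos_cos_lower (t : ℝ) (h1 : 0 ≤ t) (h2 : t ≤ 2 * Real.pi * (34 / 100)) :
    -(542 / 1000) ≤ Real.cos t := by
  have hpi := Real.pi_pos
  have hpi2 := Real.pi_lt_d2
  have h3 : Real.cos (2 * Real.pi * (34 / 100)) ≤ Real.cos t :=
    Real.cos_le_cos_of_nonneg_of_le_pi h1 (by nlinarith) h2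
  refine le_trans ?_ h3
  have e : (2 * Real.pi * (34 / 100) : ℝ) = Real.pi / 3 + Real.pi / 3 + Real.pi / 75 := by ring
  have e2 : Real.cos (Real.pi / 3 + Real.pi / 3) = -(1 / 2) := by
    rw [← two_mul, Real.cos_two_mul, Real.cos_pi_div_three]
    norm_num
  rw [e, Real.cos_add, e2]
  have h4 : 0 ≤ Real.sin (Real.pi / 75) := Real.sin_nonneg_of_nonneg_of_le_pi (by positivity) (by linarith)
  have h5 : Real.sin (Real.pi / 75) ≤ Real.pi / 75 := Real.sin_le (by positivity)
  have h6 : Real.sin (Real.pi / 3 + Real.pi / 3) ≤ 1 := Real.sin_le_one _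
  have h7 : 0 ≤ Real.sin (Real.pi / 3 + Real.pi / 3) :=
    Real.sin_nonneg_of_nonneg_of_le_pi (by positivity) (by linarith)
  have h8 : Real.cos (Real.pi / 75) ≤ 1 := Real.cos_le_one _
  have h9 : Real.sin (Real.pi / 3 + Real.pi / 3) * Real.sin (Real.pi / 75) ≤ 1 * (Real.pi / 75) :=
    mul_le_mul h6 h5 h4 zero_le_one
  linarith

private theorem GPos_same_aux (y c : ℂ) (hy1 : 24 / 100 ≤ y.re) (hy2 : y.re ≤ 34 / 100)
    (hyi : |y.im| ≤ 35 / 1000) (hc : |c.im| ≤ 1 / 4 * c.re) (hc0 : c ≠ 0) :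
    0 < (((1 + exp (2 * Real.pi * I * y)) / (2 * c)) ^ 2).im := by
  have hpi := Real.pi_pos
  have hpi2 := Real.pi_lt_d2
  have hpi3 := Real.pi_gt_d2
  -- the parts of `1 + Y`
  obtain ⟨t, ht⟩ : ∃ t : ℝ, t = 2 * Real.pi * y.re := ⟨_, rfl⟩
  obtain ⟨E, hE⟩ : ∃ E : ℝ, E = Real.exp (-(2 * Real.pi * y.im)) := ⟨_, rfl⟩
  have hYre : (1 + exp (2 * Real.pi * I * y)).re = 1 + E * Real.cos t := by
    rw [Complex.add_re, Complex.exp_re, hE, ht]
    simp
  have hYim : (1 + exp (2 * Real.pi * I * y)).im = E * Real.sin t := by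
    rw [Complex.add_im, Complex.exp_im, hE, ht]
    simp
  have ht1 : 48 / 100 * Real.pi ≤ t := by rw [ht]; nlinarith
  have ht2 : t ≤ 2 * Real.pi * (34 / 100) := by rw [ht]; nlinarith
  have hyi' := abs_le.1 hyi
  have hE0 : 0 < E := by rw [hE]; exact Real.exp_pos _
  have hE1 : E ≤ 1247 / 1000 := by
    have h1 : -(2 * Real.pi * y.im) ≤ 22 / 100 := by
      nlinarith [mul_nonneg hpi.le (show 0 ≤ y.im + 35 / 1000 by linarith [hyi'.1]),
        Real.pi_lt_d4]
    have h2 : E ≤ Real.exp (22 / 100) := by rw [hE]; exact Real.exp_le_exp.2 h1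
    refine h2.trans ?_
    refine (Real.exp_bound' (x := 22 / 100) (by norm_num) (by norm_num) (n := 3) (by norm_num)).trans ?_
    norm_num [Finset.sum_range_succ, Nat.factorial]
  have hE2 : 78 / 100 ≤ E := by
    have h1 : -(22 / 100) ≤ -(2 * Real.pi * y.im) := by
      nlinarith [mul_nonneg hpi.le (show 0 ≤ 35 / 1000 - y.im by linarith [hyi'.2]),
        Real.pi_lt_d4]
    have h2 := Real.add_one_le_exp (-(2 * Real.pi * y.im))
    rw [← hE] at h2
    linarith
  have hcos := GPos_cos_lower t (by nlinarith) ht2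
  have hcos2 : Real.cos t ≤ 7 / 100 := by
    have h1 : Real.cos t ≤ Real.cos (48 / 100 * Real.pi) :=
      Real.cos_le_cos_of_nonneg_of_le_pi (by positivity) (by nlinarith) ht1
    have h2 : Real.cos (48 / 100 * Real.pi) = Real.sin (2 / 100 * Real.pi) := by
      rw [← Real.sin_pi_div_two_sub]
      congr 1
      ring
    have h3 : Real.sin (2 / 100 * Real.pi) ≤ 2 / 100 * Real.pi := Real.sin_le (by positivity)
    linarith
  have hsin1 : Real.sin t ≤ 1 := Real.sin_le_one t
  have hsin2 : 83 / 100 ≤ Real.sin t := by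
    have h1 : Real.sin t = Real.cos (t - Real.pi / 2) := (Real.cos_sub_pi_div_two t).symm
    have h2 := Real.one_sub_sq_div_two_le_cos (x := t - Real.pi / 2)
    rw [h1]
    have h3 : (t - Real.pi / 2) ^ 2 ≤ (567 / 1000) ^ 2 := by
      apply sq_le_sq'
      · nlinarith
      · nlinarith
    nlinarith
  -- the parts of `c`
  have hcre0 : 0 ≤ c.re := by
    have := abs_nonneg c.im
    linarith
  have hcre : 0 < c.re := by
    refine lt_of_le_of_ne hcre0 ?_
    intro h
    apply hc0
    rw [← h, mul_zero] at hc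
    exact Complex.ext h.symm (abs_eq_zero.1 (le_antisymm hc (abs_nonneg _)))
  have hci := abs_le.1 hc
  have hn : 0 < Complex.normSq (2 * c) := Complex.normSq_pos.2 (mul_ne_zero two_ne_zero hc0)
  have c1 : (2 * c).re = 2 * c.re := by simp
  have c2 : (2 * c).im = 2 * c.im := by simp
  have q1 : 0 < 1 + E * Real.cos t - 1 / 4 * (E * Real.sin t) := by
    have h1 : E * (-(542 / 1000)) ≤ E * Real.cos t := mul_le_mul_of_nonneg_left hcos hE0.le
    have h2 : E * Real.sin t ≤ E * 1 := mul_le_mul_of_nonneg_left hsin1 hE0.le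
    linarith
  have q2 : 0 < E * Real.sin t - 1 / 4 * (1 + E * Real.cos t) := by
    have h1 : E * Real.cos t ≤ E * (7 / 100) := mul_le_mul_of_nonneg_left hcos2 hE0.le
    have h2 : E * (83 / 100) ≤ E * Real.sin t := mul_le_mul_of_nonneg_left hsin2 hE0.le
    linarith
  have hs0 : 0 < E * Real.sin t := mul_pos hE0 (by linarith)
  have hr0 : 0 < 1 + E * Real.cos t := by linarith
  have hre : 0 < ((1 + exp (2 * Real.pi * I * y)) / (2 * c)).re := by
    rw [Complex.div_re, ← add_div]
    apply div_pos _ hn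
    rw [hYre, hYim, c1, c2]
    have h1 : -(1 / 4 * c.re) * (E * Real.sin t) ≤ c.im * (E * Real.sin t) :=
      mul_le_mul_of_nonneg_right hci.1 hs0.le
    nlinarith [mul_pos q1 hcre]
  have him : 0 < ((1 + exp (2 * Real.pi * I * y)) / (2 * c)).im := by
    rw [Complex.div_im, ← sub_div]
    apply div_pos _ hn
    rw [hYre, hYim, c1, c2]
    have h1 : c.im * (1 + E * Real.cos t) ≤ 1 / 4 * c.re * (1 + E * Real.cos t) :=
      mul_le_mul_of_nonneg_right hci.2 hr0.le
    nlinarith [mul_pos q2 hcre]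
  rw [sq, Complex.mul_im]
  nlinarith [mul_pos hre him]

/-- The second shape as a square. -/
private theorem GPos_same_eq (y v w A B : ℂ) (hA : A = cos (2 * Real.pi * v))
    (hB : B = cos (2 * Real.pi * w)) (hc : cos (2 * Real.pi * y) * (2 + A + B) = A * B - 1)
    (h2 : 1 + B ≠ 0) (h3 : 2 + A + B ≠ 0) :
    exp (2 * Real.pi * I * y) * (1 + A) / (2 + A + B) =
      ((1 + exp (2 * Real.pi * I * y)) / (2 * cos (Real.pi * w))) ^ 2 := by
  have hcos : 2 * exp (2 * Real.pi * I * y) * cos (2 * Real.pi * y) =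
      exp (2 * Real.pi * I * y) ^ 2 + 1 := by
    rw [Complex.cos]
    have e1 : exp (2 * Real.pi * y * I) = exp (2 * Real.pi * I * y) := by congr 1; ring
    have e2 : exp (-(2 * Real.pi * y) * I) * exp (2 * Real.pi * I * y) = 1 := by
      rw [← Complex.exp_add, ← Complex.exp_zero]; congr 1; ring
    rw [e1]
    linear_combination e2
  have hBc : 1 + B = 2 * cos (Real.pi * w) ^ 2 := by rw [hB, Rel_one_add_cos]
  generalize exp (2 * Real.pi * I * y) = Y at *
  generalize cos (2 * Real.pi * y) = c at *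
  generalize cos (Real.pi * w) = d at *
  have hd : d ≠ 0 := by
    rintro rfl
    apply h2
    rw [hBc]
    ring
  rw [div_pow, div_eq_div_iff h3 (pow_ne_zero 2 (mul_ne_zero two_ne_zero hd))]
  have k3 : (1 + c) * (2 + A + B) = (1 + A) * (1 + B) := by linear_combination hc
  have k2 : 2 * Y * (1 + c) = (1 + Y) ^ 2 := by linear_combination hcos
  rw [← k2]
  linear_combination (-(2 * Y * (1 + A))) * hBc - 2 * Y * k3

theorem gtop_same (p q : ℕ) (y v w : ℂ) (hc : CritG p q y v w) :
    0 < ((Xs (2 * cos (Real.pi * (starRingEnd ℂ) v)) (2 * p - 1) ^ 2)⁻¹).im ∧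
    0 < ((Xs (2 * cos (Real.pi * (starRingEnd ℂ) w)) (2 * q - 1) ^ 2)⁻¹).im := by
  have hp : 2 ≤ p := by
    have := hc.h1
    rw [Int.abs_natCast] at this
    exact_mod_cast this
  have hq : 2 ≤ q := by
    have := hc.h2
    rw [Int.abs_natCast] at this
    exact_mod_cast this
  obtain ⟨n1, n2, n3, n4, n5⟩ := gne _ _ y v w hc
  have hrc := grel_c _ _ y v w hc
  obtain ⟨hE1, hE2⟩ := grel_E _ _ y v w hc
  have hv0 : sin (Real.pi * v) ≠ 0 := by
    have := n4 1 le_rfl (by have := hc.h1; push_cast; linarith)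
    simpa using this
  have hw0 : sin (Real.pi * w) ≠ 0 := by
    have := n5 1 le_rfl (by have := hc.h2; push_cast; linarith)
    simpa using this
  have cv0 : cos (Real.pi * v) ≠ 0 := by
    intro h
    apply n1
    rw [Rel_one_add_cos, h]
    ring
  have cw0 : cos (Real.pi * w) ≠ 0 := by
    intro h
    apply n2
    rw [Rel_one_add_cos, h]
    ring
  constructor
  · have h1 := (rel_pos p y v _ (cos (2 * Real.pi * w)) (by omega) rfl hrc (by
      have := hE1
      push_cast at this
      exact this) n1 n2 n3 hv0).2.1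
    rw [GPos_inv_conj, GPos_inv2 h1 n3, Complex.neg_im, neg_neg,
      GPos_same_eq y v w _ _ rfl rfl hrc n2 n3]
    exact GPos_same_aux y _ hc.y1 hc.y2 hc.yi hc.w6 cw0
  · have n3' : 2 + cos (2 * Real.pi * w) + cos (2 * Real.pi * v) ≠ 0 := by
      intro h
      apply n3
      linear_combination h
    have hrc' : cos (2 * Real.pi * y) * (2 + cos (2 * Real.pi * w) + cos (2 * Real.pi * v)) =
        cos (2 * Real.pi * w) * cos (2 * Real.pi * v) - 1 := by
      linear_combination hrc
    have h1 := (rel_pos q y w _ (cos (2 * Real.pi * v)) (by omega) rfl hrc' (by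
      have := hE2
      push_cast at this
      exact this) n2 n1 n3' hw0).2.1
    rw [GPos_inv_conj, GPos_inv2 h1 n3', Complex.neg_im, neg_neg,
      GPos_same_eq y w v _ _ rfl rfl hrc' n1 n3']
    exact GPos_same_aux y _ hc.y1 hc.y2 hc.yi hc.v6 cv0

end Pool.Agent.H63.GO
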