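import Pool.Agent.H63.GO.GVal
import Pool.Agent.H63.GO.GPos
import Pool.Agent.H63.VC3.Geo

/-! # The critical value is the volume -/

namespace Pool.Agent.H63.GO

open Complex Filter Topology Pool.Agent.H63.VC Pool.Agent.H63.VC3

theorem GGeo_re_pos (p : ℕ) (v : ℂ) (hp : 2 ≤ p) (h : (((p : ℕ) : ℤ) : ℝ) * v.re < 0) :
    v.re < 0 := by
  have hpR : (2 : ℝ) ≤ p := by exact_mod_cast hp
  rw [Int.cast_natCast] at h
  by_contra hv
  have h2 : 0 ≤ (p : ℝ) * v.re := mul_nonneg (by linarith) (not_lt.1 hv)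
  linarith

theorem GGeo_re_neg (q : ℕ) (v : ℂ) (hq : 2 ≤ q) (h : ((-((q : ℕ) : ℤ) : ℤ) : ℝ) * v.re < 0) :
    0 < v.re := by
  have hpR : (2 : ℝ) ≤ q := by exact_mod_cast hq
  rw [Int.cast_neg, Int.cast_natCast] at h
  by_contra hv
  have h2 : 0 ≤ (q : ℝ) * (-v.re) := mul_nonneg (by linarith) (by linarith [not_lt.1 hv])
  linarith

theorem ggeo_opp (p q : ℕ) (y v w : ℂ) (hc : CritG p (-q) y v w) :
    IsGreatest (structureVolumes [2 * p, 2 * q]) (2 * Real.pi * (Vf p (-q) y v w).re) := by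
  have hp10 : 2 ≤ p := by
    have := hc.h1
    rw [abs_of_nonneg (by positivity)] at this
    exact_mod_cast this
  have hq10 : 2 ≤ q := by
    have := hc.h2
    rw [abs_neg, abs_of_nonneg (by positivity)] at this
    exact_mod_cast this
  obtain ⟨n1, n2, n3, n4, n5⟩ := gne _ _ _ _ _ hc
  have hcc := grel_c _ _ _ _ _ hc
  obtain ⟨e1, e2⟩ := grel_E _ _ _ _ _ hc
  obtain ⟨A, hA⟩ : ∃ A, A = cos (2 * Real.pi * v) := ⟨_, rfl⟩
  obtain ⟨B, hB⟩ : ∃ B, B = cos (2 * Real.pi * w) := ⟨_, rfl⟩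
  rw [← hA, ← hB] at hcc n3
  rw [← hA] at n1
  rw [← hB] at n2
  have hcc' : cos (2 * Real.pi * y) * (2 + B + A) = B * A - 1 := by
    linear_combination hcc
  have n3' : 2 + B + A ≠ 0 := by
    intro h; exact n3 (by linear_combination h)
  have e1' : exp (4 * Real.pi * I * p * v) *
      (exp (2 * Real.pi * I * y) - exp (2 * Real.pi * I * v)) =
      exp (2 * Real.pi * I * y) * exp (2 * Real.pi * I * v) - 1 := by
    simpa using e1
  have e2' : exp (4 * Real.pi * I * q * w) *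
      (exp (2 * Real.pi * I * (-y)) - exp (2 * Real.pi * I * w)) =
      exp (2 * Real.pi * I * (-y)) * exp (2 * Real.pi * I * w) - 1 := by
    have a1 : exp (4 * Real.pi * I * ((-(q : ℤ) : ℤ) : ℂ) * w) =
        (exp (4 * Real.pi * I * q * w))⁻¹ := by
      rw [← Complex.exp_neg]; congr 1; push_cast; ring
    have a2 : exp (2 * Real.pi * I * (-y)) = (exp (2 * Real.pi * I * y))⁻¹ := by
      rw [← Complex.exp_neg]; congr 1; ring
    rw [a1] at e2
    rw [a2]
    have z1 : exp (4 * Real.pi * I * q * w) ≠ 0 := Complex.exp_ne_zero _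
    have z2 : exp (2 * Real.pi * I * y) ≠ 0 := Complex.exp_ne_zero _
    generalize exp (4 * Real.pi * I * q * w) = E at *
    generalize exp (2 * Real.pi * I * y) = Y at *
    generalize exp (2 * Real.pi * I * w) = Q at *
    field_simp at e2 ⊢
    linear_combination e2
  have s1 : ∀ k : ℕ, 1 ≤ k → k ≤ 2 * p → sin (k * (Real.pi * v)) ≠ 0 := by
    intro k hk hk2
    refine n4 k hk ?_
    rw [abs_of_nonneg (by positivity)]
    exact_mod_cast hk2
  have s2 : ∀ k : ℕ, 1 ≤ k → k ≤ 2 * q → sin (k * (Real.pi * w)) ≠ 0 := by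
    intro k hk hk2
    refine n5 k hk ?_
    rw [abs_neg, abs_of_nonneg (by positivity)]
    exact_mod_cast hk2
  have H1 := Geo_half p y v A B (by omega) hA hcc e1' n1 n2 n3 s1
  have H2 := Geo_half_neg q y w B A (by omega) hB hcc' e2' n2 n1 n3' s2
  have HV := gval _ _ _ _ _ hc
  have hs1 : sin (Real.pi * v) ≠ 0 := by simpa using s1 1 le_rfl (by omega)
  have hs2 : sin (Real.pi * w) ≠ 0 := by simpa using s2 1 le_rfl (by omega)
  have hcn : cos (2 * Real.pi * (-y)) * (2 + B + A) = B * A - 1 := by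
    rw [mul_neg, Complex.cos_neg]
    exact hcc'
  obtain ⟨f1, f2, -, -, -⟩ := rel_pos p y v A B (by omega) hA hcc e1' n1 n2 n3 hs1
  obtain ⟨g1, g2, -, -, -⟩ := rel_pos q (-y) w B A (by omega) hB hcn e2' n2 n1 n3' hs2
  have hYY : exp (2 * Real.pi * I * (-y)) = (exp (2 * Real.pi * I * y))⁻¹ := by
    rw [← Complex.exp_neg]; congr 1; ring
  rw [hYY] at g2
  have hY : exp (2 * Real.pi * I * y) ≠ 0 := Complex.exp_ne_zero _
  obtain ⟨t1, t2⟩ := gtop_opp p q y v w hc
  have hUv : Xs (2 * cos (Real.pi * v)) (2 * p) ^ 2 = -(1 + B) / (1 + A) := by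
    rw [eq_div_iff n1]; exact f1
  have hUw : Xs (2 * cos (Real.pi * w)) (2 * q) ^ 2 = -(1 + A) / (1 + B) := by
    rw [eq_div_iff n2]; exact g1
  have hTv : Xs (2 * cos (Real.pi * v)) (2 * p - 1) ^ 2 =
      -(2 + A + B) / (exp (2 * Real.pi * I * y) * (1 + A)) := by
    rw [eq_div_iff (mul_ne_zero hY n1)]; exact f2
  have hTw : Xs (2 * cos (Real.pi * w)) (2 * q - 1) ^ 2 =
      -(2 + B + A) / ((exp (2 * Real.pi * I * y))⁻¹ * (1 + B)) := by
    rw [eq_div_iff (mul_ne_zero (inv_ne_zero hY) n2)]; exact g2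
  have key := sw_max_opp p q (by omega) (by omega) (2 * cos (Real.pi * (starRingEnd ℂ) v))
    (2 * cos (Real.pi * w))
    (fun k hk hk2 => Geo_pos p (2 * p) v (by omega) (by omega) le_rfl
      (GGeo_re_pos p v hp10 hc.v1) (by have := hc.v2; rwa [Geo_abs] at this) hc.v4 t1 k hk hk2)
    (fun k hk hk2 => pos_fan w q (2 * q) (by omega) (by omega) le_rfl
      (GGeo_re_neg q w hq10 hc.w1)
      (by
        have h := hc.w2
        have h5 := GGeo_re_neg q w hq10 hc.w1
        rw [abs_of_pos h5] at h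
        have h6 : |((-(q : ℤ) : ℤ) : ℝ)| = q := by
          rw [Int.cast_neg, abs_neg, Geo_abs]
        rwa [h6] at h) hc.w4 t2 k hk hk2)
    (by
      rw [Geo_Xs_cos_conj, ← map_pow, Complex.conj_conj, hUv, hUw]
      field_simp)
    (by
      have hh : (1 - (Xs (2 * cos (Real.pi * v)) (2 * p) ^ 2)⁻¹) ^ 2 =
          -(Xs (2 * cos (Real.pi * v)) (2 * p) ^ 2)⁻¹ *
          (Xs (2 * cos (Real.pi * v)) (2 * p - 1) ^ 2 *
            Xs (2 * cos (Real.pi * w)) (2 * q - 1) ^ 2) := by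
        rw [hUv, hTv, hTw, inv_div]
        have n2' : -(1 + B) ≠ 0 := neg_ne_zero.2 n2
        field_simp
        ring
      have h7 := congrArg (starRingEnd ℂ) hh
      rw [Geo_Xs_cos_conj, Geo_Xs_cos_conj]
      simpa only [map_pow, map_sub, map_one, map_mul, map_neg, map_inv₀] using h7)
  have hval : 2 * Real.pi * (Vf p (-q) y v w).re =
      (2 * ∑ k ∈ Finset.Icc 2 (2 * p - 1),
          blochWigner ((Xs (2 * cos (Real.pi * (starRingEnd ℂ) v)) k ^ 2)⁻¹)
        + 2 * ∑ k ∈ Finset.Icc 2 (2 * q - 1), blochWigner ((Xs (2 * cos (Real.pi * w)) k ^ 2)⁻¹)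
        + 2 * blochWigner ((Xs (2 * cos (Real.pi * (starRingEnd ℂ) v)) (2 * p) ^ 2)⁻¹)) := by
    simp only [Geo_bw_conj, Finset.sum_neg_distrib]
    rw [hUv, inv_div]
    have u1 : (1 + A) / -(1 + B) = -(1 + A) / (1 + B) := by
      rw [div_neg, neg_div]
    have u2 : blochWigner (-(1 + B) / (1 + A)) = -blochWigner (-(1 + A) / (1 + B)) := by
      rw [← SWpath_inv, inv_div, div_neg, neg_div]
    rw [u1]
    rw [u2] at H2
    rw [HV]
    linarith
  rw [hval]
  exact key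

theorem ggeo_same (p q : ℕ) (y v w : ℂ) (hc : CritG p q y v w) :
    IsGreatest (structureVolumes [2 * p - 1, 1, 2 * q - 1])
      (2 * Real.pi * (Vf p q y v w).re) := by
  have hp10 : 2 ≤ p := by
    have := hc.h1
    rw [abs_of_nonneg (by positivity)] at this
    exact_mod_cast this
  have hq10 : 2 ≤ q := by
    have := hc.h2
    rw [abs_of_nonneg (by positivity)] at this
    exact_mod_cast this
  obtain ⟨n1, n2, n3, n4, n5⟩ := gne _ _ _ _ _ hc
  have hcc := grel_c _ _ _ _ _ hc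
  obtain ⟨e1, e2⟩ := grel_E _ _ _ _ _ hc
  obtain ⟨A, hA⟩ : ∃ A, A = cos (2 * Real.pi * v) := ⟨_, rfl⟩
  obtain ⟨B, hB⟩ : ∃ B, B = cos (2 * Real.pi * w) := ⟨_, rfl⟩
  rw [← hA, ← hB] at hcc n3
  rw [← hA] at n1
  rw [← hB] at n2
  have hcc' : cos (2 * Real.pi * y) * (2 + B + A) = B * A - 1 := by
    linear_combination hcc
  have n3' : 2 + B + A ≠ 0 := by
    intro h; exact n3 (by linear_combination h)
  have e1' : exp (4 * Real.pi * I * p * v) *
      (exp (2 * Real.pi * I * y) - exp (2 * Real.pi * I * v)) =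
      exp (2 * Real.pi * I * y) * exp (2 * Real.pi * I * v) - 1 := by
    simpa using e1
  have e2' : exp (4 * Real.pi * I * q * w) *
      (exp (2 * Real.pi * I * y) - exp (2 * Real.pi * I * w)) =
      exp (2 * Real.pi * I * y) * exp (2 * Real.pi * I * w) - 1 := by
    simpa using e2
  have s1 : ∀ k : ℕ, 1 ≤ k → k ≤ 2 * p → sin (k * (Real.pi * v)) ≠ 0 := by
    intro k hk hk2
    refine n4 k hk ?_
    rw [abs_of_nonneg (by positivity)]
    exact_mod_cast hk2
  have s2 : ∀ k : ℕ, 1 ≤ k → k ≤ 2 * q → sin (k * (Real.pi * w)) ≠ 0 := by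
    intro k hk hk2
    refine n5 k hk ?_
    rw [abs_of_nonneg (by positivity)]
    exact_mod_cast hk2
  have H1 := Geo_half p y v A B (by omega) hA hcc e1' n1 n2 n3 s1
  have H2 := Geo_half q y w B A (by omega) hB hcc' e2' n2 n1 n3' s2
  have HV := gval _ _ _ _ _ hc
  have hs1 : sin (Real.pi * v) ≠ 0 := by simpa using s1 1 le_rfl (by omega)
  have hs2 : sin (Real.pi * w) ≠ 0 := by simpa using s2 1 le_rfl (by omega)
  obtain ⟨f1, f2, -, -, -⟩ := rel_pos p y v A B (by omega) hA hcc e1' n1 n2 n3 hs1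
  obtain ⟨g1, g2, -, -, -⟩ := rel_pos q y w B A (by omega) hB hcc' e2' n2 n1 n3' hs2
  have hY : exp (2 * Real.pi * I * y) ≠ 0 := Complex.exp_ne_zero _
  obtain ⟨t1, t2⟩ := gtop_same p q y v w hc
  have hUv : Xs (2 * cos (Real.pi * v)) (2 * p) ^ 2 = -(1 + B) / (1 + A) := by
    rw [eq_div_iff n1]; exact f1
  have hUw : Xs (2 * cos (Real.pi * w)) (2 * q) ^ 2 = -(1 + A) / (1 + B) := by
    rw [eq_div_iff n2]; exact g1
  have hTv : Xs (2 * cos (Real.pi * v)) (2 * p - 1) ^ 2 =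
      -(2 + A + B) / (exp (2 * Real.pi * I * y) * (1 + A)) := by
    rw [eq_div_iff (mul_ne_zero hY n1)]; exact f2
  have hTw : Xs (2 * cos (Real.pi * w)) (2 * q - 1) ^ 2 =
      -(2 + B + A) / (exp (2 * Real.pi * I * y) * (1 + B)) := by
    rw [eq_div_iff (mul_ne_zero hY n2)]; exact g2
  have key := sw_max_same p q (by omega) (by omega) (2 * cos (Real.pi * (starRingEnd ℂ) v))
    (2 * cos (Real.pi * (starRingEnd ℂ) w))
    (fun k hk hk2 => Geo_pos p (2 * p - 1) v (by omega) (by omega) (by omega)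
      (GGeo_re_pos p v hp10 hc.v1) (by have := hc.v2; rwa [Geo_abs] at this) hc.v4 t1 k hk hk2)
    (fun k hk hk2 => Geo_pos q (2 * q - 1) w (by omega) (by omega) (by omega)
      (GGeo_re_pos q w hq10 hc.w1) (by have := hc.w2; rwa [Geo_abs] at this) hc.w4 t2 k hk hk2)
    (by
      rw [Geo_Xs_cos_conj, Geo_Xs_cos_conj, ← map_pow, ← map_pow, ← map_mul, hUv, hUw]
      have : -(1 + B) / (1 + A) * (-(1 + A) / (1 + B)) = 1 := by field_simp
      rw [this, map_one])
    (by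
      have hh : Xs (2 * cos (Real.pi * v)) (2 * p - 1) ^ 2 =
          -(Xs (2 * cos (Real.pi * v)) (2 * p) ^ 2 *
            Xs (2 * cos (Real.pi * w)) (2 * q - 1) ^ 2) := by
        rw [hUv, hTv, hTw]
        field_simp
        ring
      have h7 := congrArg (starRingEnd ℂ) hh
      rw [Geo_Xs_cos_conj, Geo_Xs_cos_conj, Geo_Xs_cos_conj]
      simpa only [map_pow, map_sub, map_one, map_mul, map_neg, map_inv₀] using h7)
  have hval : 2 * Real.pi * (Vf p q y v w).re =
      (2 * ∑ k ∈ Finset.Icc 2 (2 * p - 1),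
          blochWigner ((Xs (2 * cos (Real.pi * (starRingEnd ℂ) v)) k ^ 2)⁻¹)
        + 2 * ∑ k ∈ Finset.Icc 2 (2 * q - 1),
          blochWigner ((Xs (2 * cos (Real.pi * (starRingEnd ℂ) w)) k ^ 2)⁻¹)) := by
    simp only [Geo_bw_conj, Finset.sum_neg_distrib]
    have u2 : blochWigner (-(1 + B) / (1 + A)) = -blochWigner (-(1 + A) / (1 + B)) := by
      rw [← SWpath_inv, inv_div, div_neg, neg_div]
    rw [u2] at H2
    rw [HV]
    linarith
  rw [hval]
  exact key

end Pool.Agent.H63.GO
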