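import Pool.Agent.H63.GO.PDefs
import Pool.Agent.H63.VC3.Rel

/-! # Relations at the critical point, `2 ≤ |r|` -/

namespace Pool.Agent.H63.GO

open Complex Filter Topology Pool.Agent.H63.VC Pool.Agent.H63.VC3

private theorem GRel_im (u : ℂ) : (Real.pi * u : ℂ).im = Real.pi * u.im := by simp

private theorem GRel_cos_ne {u : ℂ} (hu : 0 < u.im) : cos (Real.pi * u) ≠ 0 := by
  apply Rel_cos_ne
  rw [GRel_im]
  have hp := Real.pi_pos
  positivity

private theorem GRel_cos_pos {u : ℂ} (hu : 0 < u.im)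
    (h6 : |(cos (Real.pi * u)).im| ≤ 1 / 4 * (cos (Real.pi * u)).re) :
    0 < (1 + cos (2 * Real.pi * u)).re := by
  have h0 := GRel_cos_ne hu
  rw [Rel_one_add_cos]
  generalize cos (Real.pi * u) = c at *
  have h1 : 0 < c.re := by
    rcases lt_trichotomy c.re 0 with h | h | h
    · have := abs_nonneg c.im
      linarith
    · exfalso
      apply h0
      rw [h, mul_zero] at h6
      have h7 : c.im = 0 := abs_eq_zero.1 (le_antisymm h6 (abs_nonneg _))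
      exact Complex.ext h h7
    · exact h
  have h2 : c.im ^ 2 ≤ (1 / 4 * c.re) ^ 2 := by
    rw [← sq_abs c.im]
    exact pow_le_pow_left₀ (abs_nonneg _) h6 2
  have h3 : (2 * c ^ 2 : ℂ).re = 2 * (c.re ^ 2 - c.im ^ 2) := by
    rw [pow_two]
    simp only [Complex.mul_re, Complex.re_ofNat, Complex.im_ofNat]
    ring
  rw [h3]
  nlinarith [mul_pos h1 h1]

theorem gne (r1 r2 : ℤ) (y v w : ℂ) (hc : CritG r1 r2 y v w) :
    1 + cos (2 * Real.pi * v) ≠ 0 ∧ 1 + cos (2 * Real.pi * w) ≠ 0 ∧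
    2 + cos (2 * Real.pi * v) + cos (2 * Real.pi * w) ≠ 0 ∧
    (∀ k : ℕ, 1 ≤ k → (k : ℤ) ≤ 2 * |r1| → sin (k * (Real.pi * v)) ≠ 0) ∧
    (∀ k : ℕ, 1 ≤ k → (k : ℤ) ≤ 2 * |r2| → sin (k * (Real.pi * w)) ≠ 0) := by
  have hv := hc.v4
  have hw := hc.w4
  have hp := Real.pi_pos
  have h1 := GRel_cos_pos hv hc.v6
  have h2 := GRel_cos_pos hw hc.w6
  have aux2 : ∀ u : ℂ, 0 < u.im → ∀ k : ℕ, 1 ≤ k → sin (k * (Real.pi * u)) ≠ 0 := by
    intro u hu k hk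
    apply Rel_sin_ne
    have : (k * (Real.pi * u) : ℂ).im = k * (Real.pi * u.im) := by simp
    rw [this]
    have : (0 : ℝ) < k := by exact_mod_cast hk
    positivity
  refine ⟨?_, ?_, ?_, fun k hk _ => aux2 v hv k hk, fun k hk _ => aux2 w hw k hk⟩
  · intro h
    rw [h, Complex.zero_re] at h1
    exact lt_irrefl _ h1
  · intro h
    rw [h, Complex.zero_re] at h2
    exact lt_irrefl _ h2
  · intro h
    have := congrArg Complex.re h
    simp only [Complex.add_re, Complex.zero_re, Complex.re_ofNat, Complex.one_re] at this h1 h2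
    linarith

theorem gstrip (r1 r2 : ℤ) (y v w : ℂ) (hc : CritG r1 r2 y v w) :
    (0 < (y + 1 / 2).re ∧ (y + 1 / 2).re < 1) ∧ (0 < (y - v).re ∧ (y - v).re < 1) ∧
    (0 < (y + v).re ∧ (y + v).re < 1) ∧ (0 < (y - w).re ∧ (y - w).re < 1) ∧
    (0 < (y + w).re ∧ (y + w).re < 1) := by
  have h1 := hc.v3
  have h2 := hc.w3
  have h3 := hc.y1
  have h4 := hc.y2
  have h5 : (y + 1 / 2).re = y.re + 1 / 2 := by
    rw [Complex.add_re]; norm_num
  have a1 := le_abs_self v.re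
  have a2 := neg_abs_le v.re
  have a3 := le_abs_self w.re
  have a4 := neg_abs_le w.re
  rw [h5]
  simp only [Complex.sub_re, Complex.add_re]
  refine ⟨⟨?_, ?_⟩, ⟨?_, ?_⟩, ⟨?_, ?_⟩, ⟨?_, ?_⟩, ⟨?_, ?_⟩⟩ <;> linarith

theorem grel_c (r1 r2 : ℤ) (y v w : ℂ) (hc : CritG r1 r2 y v w) :
    cos (2 * Real.pi * y) * (2 + cos (2 * Real.pi * v) + cos (2 * Real.pi * w)) =
      cos (2 * Real.pi * v) * cos (2 * Real.pi * w) - 1 := by
  obtain ⟨⟨a1, a2⟩, ⟨b1, b2⟩, ⟨c1, c2⟩, ⟨d1, d2⟩, ⟨e1, e2⟩⟩ := gstrip r1 r2 y v w hc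
  have h := congrArg Complex.exp hc.ey
  rw [Complex.exp_add, Complex.exp_add, Complex.exp_add, hh_exp _ b1 b2, hh_exp _ c1 c2,
    hh_exp _ d1 d2, hh_exp _ e1 e2] at h
  have h4 : Complex.exp (4 * hh (y + 1 / 2)) = (2 * (1 + cos (2 * Real.pi * y))) ^ 2 := by
    have : (4 : ℂ) * hh (y + 1 / 2) = (4 : ℕ) * hh (y + 1 / 2) := by norm_num
    rw [this, Complex.exp_nat_mul, hh_exp _ a1 a2, Rel_cos_half, Rel_one_add_cos]
    ring
  rw [h4, Rel_prod y v] at h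
  have h5 : 2 * (cos (2 * Real.pi * v) - cos (2 * Real.pi * y)) * (2 * sin (Real.pi * (y - w))) *
      (2 * sin (Real.pi * (y + w))) = 2 * (cos (2 * Real.pi * v) - cos (2 * Real.pi * y)) *
      (2 * (cos (2 * Real.pi * w) - cos (2 * Real.pi * y))) := by
    rw [← Rel_prod y w]; ring
  rw [h5] at h
  linear_combination (1 / 4) * h

theorem grel_E (r1 r2 : ℤ) (y v w : ℂ) (hc : CritG r1 r2 y v w) :
    exp (4 * Real.pi * I * r1 * v) * (exp (2 * Real.pi * I * y) - exp (2 * Real.pi * I * v)) =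
      exp (2 * Real.pi * I * y) * exp (2 * Real.pi * I * v) - 1 ∧
    exp (4 * Real.pi * I * r2 * w) * (exp (2 * Real.pi * I * y) - exp (2 * Real.pi * I * w)) =
      exp (2 * Real.pi * I * y) * exp (2 * Real.pi * I * w) - 1 := by
  obtain ⟨⟨a1, a2⟩, ⟨b1, b2⟩, ⟨c1, c2⟩, ⟨d1, d2⟩, ⟨e1, e2⟩⟩ := gstrip r1 r2 y v w hc
  exact ⟨Rel_E_aux r1 y v b1 b2 c1 c2 hc.ev, Rel_E_aux r2 y w d1 d2 e1 e2 hc.ew⟩

end Pool.Agent.H63.GO
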