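import Pool.Agent.H63.GO.GRel
import Pool.Agent.H63.VC3.BWff

/-! # The critical value -/

namespace Pool.Agent.H63.GO

open Complex Filter Topology Pool.Agent.H63.VC Pool.Agent.H63.VC3

theorem gval (r1 r2 : ℤ) (y v w : ℂ) (hc : CritG r1 r2 y v w) :
    2 * Real.pi * (Vf r1 r2 y v w).re =
      blochWigner (exp (2 * Real.pi * I * (y - v))) + blochWigner (exp (2 * Real.pi * I * (y + v)))
      + blochWigner (exp (2 * Real.pi * I * (y - w))) + blochWigner (exp (2 * Real.pi * I * (y + w)))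
      - 4 * blochWigner (-exp (2 * Real.pi * I * y)) := by
  obtain ⟨⟨c1, c2⟩, ⟨a1, a2⟩, ⟨a3, a4⟩, ⟨b1, b2⟩, ⟨b3, b4⟩⟩ := gstrip r1 r2 y v w hc
  have c3 : (y + 1 / 2).im = y.im := by
    rw [Complex.add_im]
    norm_num
  have f0 := ff_re_bw _ c1 c2
  have f1 := ff_re_bw _ a1 a2
  have f2 := ff_re_bw _ a3 a4
  have f3 := ff_re_bw _ b1 b2
  have f4 := ff_re_bw _ b3 b4
  have e0 : exp (2 * Real.pi * I * (y + 1 / 2)) = -exp (2 * Real.pi * I * y) := by
    have e : (2 * Real.pi * I * (y + 1 / 2) : ℂ) = 2 * Real.pi * I * y + Real.pi * I := by ring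
    rw [e, Complex.exp_add, Complex.exp_pi_mul_I]
    ring
  rw [e0, c3] at f0
  have ey := congrArg Complex.im hc.ey
  have ev := congrArg Complex.im hc.ev
  have ew := congrArg Complex.im hc.ew
  have g1 : (2 * Real.pi * I * (2 * r1 * v + 1) : ℂ).im = 2 * Real.pi * (2 * r1 * v.re + 1) := by
    simp [Complex.mul_im, Complex.mul_re]
  have g2 : (2 * Real.pi * I * (2 * r2 * w + 1) : ℂ).im = 2 * Real.pi * (2 * r2 * w.re + 1) := by
    simp [Complex.mul_im, Complex.mul_re]
  have g3 : (2 * Real.pi * I * (r1 * v ^ 2 + v) : ℂ).re =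
      -(2 * Real.pi * (2 * r1 * v.re * v.im + v.im)) := by
    simp only [pow_two, Complex.mul_re, Complex.mul_im, Complex.add_re, Complex.add_im,
      Complex.I_re, Complex.I_im, Complex.ofReal_re, Complex.ofReal_im, Complex.re_ofNat,
      Complex.im_ofNat, Complex.intCast_re, Complex.intCast_im]
    ring
  have g4 : (2 * Real.pi * I * (r2 * w ^ 2 + w) : ℂ).re =
      -(2 * Real.pi * (2 * r2 * w.re * w.im + w.im)) := by
    simp only [pow_two, Complex.mul_re, Complex.mul_im, Complex.add_re, Complex.add_im,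
      Complex.I_re, Complex.I_im, Complex.ofReal_re, Complex.ofReal_im, Complex.re_ofNat,
      Complex.im_ofNat, Complex.intCast_re, Complex.intCast_im]
    ring
  have g5 : (4 * hh (y + 1 / 2)).im = 4 * (hh (y + 1 / 2)).im := by
    simp [Complex.mul_im]
  have g6 : (4 * ff (y + 1 / 2)).re = 4 * (ff (y + 1 / 2)).re := by
    simp [Complex.mul_re]
  simp only [Complex.add_im, g5] at ey
  rw [Complex.sub_im, Complex.add_im, g1, Complex.zero_im] at ev
  rw [Complex.sub_im, Complex.add_im, g2, Complex.zero_im] at ew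
  have hV : (Vf r1 r2 y v w).re = 4 * (ff (y + 1 / 2)).re - (ff (y - v)).re - (ff (y + v)).re -
      (ff (y - w)).re - (ff (y + w)).re - 2 * Real.pi * (2 * r1 * v.re * v.im + v.im) -
      2 * Real.pi * (2 * r2 * w.re * w.im + w.im) := by
    rw [Vf, Complex.add_re, Complex.add_re, Complex.sub_re, Complex.sub_re, Complex.sub_re,
      Complex.sub_re, g3, g4, g6]
    ring
  rw [hV]
  simp only [Complex.sub_im, Complex.add_im] at f1 f2 f3 f4
  linear_combination 4 * f0 - f1 - f2 - f3 - f4 - 2 * Real.pi * y.im * ey -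
    2 * Real.pi * v.im * ev - 2 * Real.pi * w.im * ew

end Pool.Agent.H63.GO
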