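import Pool.Agent.H63.GO.Defs

/-! # Shifting the domain of integration in the presence of a cutoff function -/

namespace Pool.Agent.H63.GO

open Complex Filter Topology MeasureTheory
open scoped BigOperators

private theorem Homot_cp_cont {ι : Type} [Fintype ι] (b : ι → ℝ) :
    Continuous fun p : ℝ × (ι → ℝ) => cp p.2 (p.1 • b) := by
  refine continuous_pi fun j => ?_
  show Continuous fun p : ℝ × (ι → ℝ) => ((p.2 j : ℝ) : ℂ) + (((p.1 • b) j : ℝ) : ℂ) * I
  refine Continuous.add ?_ (Continuous.mul ?_ continuous_const)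
  · exact continuous_ofReal.comp ((continuous_apply j).comp continuous_snd)
  · exact continuous_ofReal.comp ((continuous_apply j).comp (continuous_fst.smul continuous_const))

private theorem Homot_cp_shift {ι : Type} [Fintype ι] (a b : ι → ℝ) (s : ℝ) :
    HasDerivAt (fun s : ℝ => cp a (s • b)) (I • rc b) s := by
  rw [hasDerivAt_pi]
  intro j
  have h1 : HasDerivAt (fun s : ℝ => ((s : ℝ) : ℂ)) 1 s := Complex.ofRealCLM.hasDerivAt
  have h2 : HasDerivAt (fun s : ℝ => (a j : ℂ) + ((s : ℂ) * (b j : ℂ)) * I) ((1 * (b j : ℂ)) * I) s :=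
    ((h1.mul_const (b j : ℂ)).mul_const I).const_add (a j : ℂ)
  have h3 : (I • rc b) j = (1 * (b j : ℂ)) * I := by
    show I * (b j : ℂ) = _
    ring
  rw [h3]
  refine h2.congr_of_eventuallyEq (Eventually.of_forall fun s => ?_)
  show (a j : ℂ) + (((s • b) j : ℝ) : ℂ) * I = (a j : ℂ) + ((s : ℂ) * (b j : ℂ)) * I
  rw [Pi.smul_apply, smul_eq_mul, Complex.ofReal_mul]

private theorem Homot_cp_move {ι : Type} [Fintype ι] (a b c : ι → ℝ) :
    HasDerivAt (fun t : ℝ => cp (a + t • b) c) (rc b) 0 := by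
  rw [hasDerivAt_pi]
  intro j
  have h1 : HasDerivAt (fun s : ℝ => ((s : ℝ) : ℂ)) 1 0 := Complex.ofRealCLM.hasDerivAt
  have h2 : HasDerivAt (fun t : ℝ => ((a j : ℂ) + (t : ℂ) * (b j : ℂ)) + (c j : ℂ) * I) (1 * (b j : ℂ)) 0 :=
    ((h1.mul_const (b j : ℂ)).const_add (a j : ℂ)).add_const ((c j : ℂ) * I)
  have h3 : (rc b) j = 1 * (b j : ℂ) := (one_mul _).symm
  rw [h3]
  refine h2.congr_of_eventuallyEq (Eventually.of_forall fun t => ?_)
  show (((a + t • b) j : ℝ) : ℂ) + (c j : ℂ) * I = ((a j : ℂ) + (t : ℂ) * (b j : ℂ)) + (c j : ℂ) * I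
  rw [Pi.add_apply, Pi.smul_apply, smul_eq_mul, Complex.ofReal_add, Complex.ofReal_mul]

/-- `H` is holomorphic on the open set `U`, which contains `a + i s b` for `a` in the support of `χ`
and `0 ≤ s ≤ 1`. -/
theorem homot {ι : Type} [Fintype ι] [DecidableEq ι] (χ : (ι → ℝ) → ℝ) (hχ : ContDiff ℝ 1 χ)
    (hc : HasCompactSupport χ) (b : ι → ℝ) (U : Set (ι → ℂ)) (hU : IsOpen U) (H : (ι → ℂ) → ℂ)
    (hH : AnalyticOnNhd ℂ H U)
    (hsub : ∀ a ∈ tsupport χ, ∀ s ∈ Set.Icc (0 : ℝ) 1, cp a (s • b) ∈ U) :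
    (∫ a : ι → ℝ, (χ a : ℂ) * H (cp a b)) - ∫ a : ι → ℝ, (χ a : ℂ) * H (cp a 0) =
      -I * ∫ s in (0 : ℝ)..1, ∫ a : ι → ℝ, ((fderiv ℝ χ a b : ℝ) : ℂ) * H (cp a (s • b)) := by
  have hKc : IsCompact (tsupport χ) := hc
  have hχ0 : ∀ a, a ∉ tsupport χ → χ a = 0 := fun a ha => image_eq_zero_of_notMem_tsupport ha
  have hdχ0 : ∀ a, a ∉ tsupport χ → fderiv ℝ χ a = 0 := by
    intro a ha
    have h1 : χ =ᶠ[𝓝 a] fun _ => (0 : ℝ) := by
      filter_upwards [(isClosed_tsupport χ).isOpen_compl.mem_nhds ha] with x hx using hχ0 x hx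
    rw [h1.fderiv_eq]
    simp
  have hχc : Continuous χ := hχ.continuous
  have hχd : Differentiable ℝ χ := hχ.differentiable one_ne_zero
  have hdχc : Continuous fun a => fderiv ℝ χ a b := (hχ.continuous_fderiv one_ne_zero).clm_apply continuous_const
  have hdH : ContinuousOn (fun z => fderiv ℂ H z) U := hH.fderiv.continuousOn
  have hmap : Set.MapsTo (fun p : ℝ × (ι → ℝ) => cp p.2 (p.1 • b)) (Set.Icc (0 : ℝ) 1 ×ˢ tsupport χ) U :=
    fun p hp => hsub p.2 hp.2 p.1 hp.1
  have hslice : ∀ s ∈ Set.Icc (0 : ℝ) 1, Continuous fun a : ι → ℝ => cp a (s • b) := fun s _ =>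
    (Homot_cp_cont b).comp (Continuous.prodMk_right s)
  -- integrability of the slices
  have hint0 : ∀ s ∈ Set.Icc (0 : ℝ) 1, Integrable fun a : ι → ℝ => (χ a : ℂ) * H (cp a (s • b)) := by
    intro s hs
    refine IntegrableOn.integrable_of_forall_notMem_eq_zero (s := tsupport χ) ?_ fun a ha => ?_
    · refine ContinuousOn.integrableOn_compact hKc ?_
      refine (continuous_ofReal.comp hχc).continuousOn.mul ?_
      exact hH.continuousOn.comp (hslice s hs).continuousOn fun a ha => hsub a ha s hs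
    · rw [hχ0 a ha, ofReal_zero, zero_mul]
  have hint1 : ∀ s ∈ Set.Icc (0 : ℝ) 1, Integrable fun a : ι → ℝ =>
      ((fderiv ℝ χ a b : ℝ) : ℂ) * H (cp a (s • b)) := by
    intro s hs
    refine IntegrableOn.integrable_of_forall_notMem_eq_zero (s := tsupport χ) ?_ fun a ha => ?_
    · refine ContinuousOn.integrableOn_compact hKc ?_
      refine (continuous_ofReal.comp hdχc).continuousOn.mul ?_
      exact hH.continuousOn.comp (hslice s hs).continuousOn fun a ha => hsub a ha s hs
    · rw [hdχ0 a ha]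
      simp
  have hint2 : ∀ s ∈ Set.Icc (0 : ℝ) 1, Integrable fun a : ι → ℝ =>
      (χ a : ℂ) * fderiv ℂ H (cp a (s • b)) (rc b) := by
    intro s hs
    refine IntegrableOn.integrable_of_forall_notMem_eq_zero (s := tsupport χ) ?_ fun a ha => ?_
    · refine ContinuousOn.integrableOn_compact hKc ?_
      refine (continuous_ofReal.comp hχc).continuousOn.mul ?_
      refine ContinuousOn.clm_apply ?_ continuousOn_const
      exact hdH.comp (hslice s hs).continuousOn fun a ha => hsub a ha s hs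
    · rw [hχ0 a ha, ofReal_zero, zero_mul]
  -- integration by parts
  have hparts : ∀ s ∈ Set.Icc (0 : ℝ) 1,
      ∫ a : ι → ℝ, (χ a : ℂ) * fderiv ℂ H (cp a (s • b)) (rc b) =
        - ∫ a : ι → ℝ, ((fderiv ℝ χ a b : ℝ) : ℂ) * H (cp a (s • b)) := by
    intro s hs
    have h1 := integral_bilinear_hasLineDerivAt_right_eq_neg_left_of_integrable (μ := (volume : Measure (ι → ℝ)))
      (f := fun a => (χ a : ℂ)) (f' := fun a => ((fderiv ℝ χ a b : ℝ) : ℂ))
      (g := fun a => H (cp a (s • b))) (g' := fun a => fderiv ℂ H (cp a (s • b)) (rc b)) (v := b)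
      (B := ContinuousLinearMap.mul ℝ ℂ) (hint1 s hs) (hint2 s hs) (hint0 s hs) ?_ ?_
    · exact h1
    · intro a _
      have h2 : HasDerivAt (fun t : ℝ => χ (a + t • b)) (fderiv ℝ χ a b) 0 :=
        ((hχd a).hasFDerivAt.hasLineDerivAt b)
      exact h2.ofReal_comp
    · intro a ha
      have ha' : a ∈ tsupport χ := by
        by_contra hcon
        have h3 : (fun a => (χ a : ℂ)) =ᶠ[𝓝 a] 0 := by
          filter_upwards [(isClosed_tsupport χ).isOpen_compl.mem_nhds hcon] with x hx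
          show ((χ x : ℝ) : ℂ) = 0
          rw [hχ0 x hx, ofReal_zero]
        exact (notMem_tsupport_iff_eventuallyEq.2 h3) ha
      have h4 : HasFDerivAt H (fderiv ℂ H (cp a (s • b))) (cp a (s • b)) :=
        (hH _ (hsub a ha' s hs)).differentiableAt.hasFDerivAt
      have h5 := Homot_cp_move a b (s • b)
      have h6 : HasFDerivAt H ((fderiv ℂ H (cp a (s • b))).restrictScalars ℝ) (cp (a + (0 : ℝ) • b) (s • b)) := by
        rw [zero_smul, add_zero]
        exact h4.restrictScalars ℝ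
      exact h6.comp_hasDerivAt (0 : ℝ) h5
  -- the fundamental theorem of calculus
  have hftc : ∀ a : ι → ℝ, (χ a : ℂ) * H (cp a b) - (χ a : ℂ) * H (cp a 0) =
      ∫ s in (0 : ℝ)..1, (χ a : ℂ) * (I * fderiv ℂ H (cp a (s • b)) (rc b)) := by
    intro a
    by_cases ha : a ∈ tsupport χ
    · have h1 : ∀ s ∈ Set.uIcc (0 : ℝ) 1, HasDerivAt (fun s : ℝ => (χ a : ℂ) * H (cp a (s • b)))
          ((χ a : ℂ) * (I * fderiv ℂ H (cp a (s • b)) (rc b))) s := by
        intro s hs
        rw [Set.uIcc_of_le zero_le_one] at hs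
        have h2 : HasFDerivAt H ((fderiv ℂ H (cp a (s • b))).restrictScalars ℝ) (cp a (s • b)) :=
          ((hH _ (hsub a ha s hs)).differentiableAt.hasFDerivAt).restrictScalars ℝ
        have h3 := (h2.comp_hasDerivAt s (Homot_cp_shift a b s)).const_mul (χ a : ℂ)
        have h4 : ((fderiv ℂ H (cp a (s • b))).restrictScalars ℝ) (I • rc b) =
            I * fderiv ℂ H (cp a (s • b)) (rc b) := by
          rw [ContinuousLinearMap.coe_restrictScalars', map_smul, smul_eq_mul]
        rw [h4] at h3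
        exact h3
      have h5 : IntervalIntegrable (fun s : ℝ => (χ a : ℂ) * (I * fderiv ℂ H (cp a (s • b)) (rc b)))
          volume 0 1 := by
        refine ContinuousOn.intervalIntegrable ?_
        rw [Set.uIcc_of_le zero_le_one]
        refine continuousOn_const.mul (continuousOn_const.mul ?_)
        refine ContinuousOn.clm_apply ?_ continuousOn_const
        refine hdH.comp (((Homot_cp_cont b).comp (Continuous.prodMk_left a)).continuousOn) fun s hs => ?_
        exact hsub a ha s hs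
      rw [intervalIntegral.integral_eq_sub_of_hasDerivAt h1 h5]
      simp only [one_smul, zero_smul]
    · rw [hχ0 a ha]
      simp
  -- Fubini
  have hfub : ∫ s in (0 : ℝ)..1, ∫ a : ι → ℝ, (χ a : ℂ) * (I * fderiv ℂ H (cp a (s • b)) (rc b)) =
      ∫ a : ι → ℝ, ∫ s in (0 : ℝ)..1, (χ a : ℂ) * (I * fderiv ℂ H (cp a (s • b)) (rc b)) := by
    refine intervalIntegral_integral_swap ?_
    have h1 : IntegrableOn (Function.uncurry fun (s : ℝ) (a : ι → ℝ) =>
        (χ a : ℂ) * (I * fderiv ℂ H (cp a (s • b)) (rc b))) (Set.Icc (0 : ℝ) 1 ×ˢ tsupport χ)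
        ((volume : Measure ℝ).prod (volume : Measure (ι → ℝ))) := by
      refine ContinuousOn.integrableOn_compact (isCompact_Icc.prod hKc) ?_
      refine (continuous_ofReal.comp (hχc.comp continuous_snd)).continuousOn.mul (continuousOn_const.mul ?_)
      refine ContinuousOn.clm_apply ?_ continuousOn_const
      exact hdH.comp (Homot_cp_cont b).continuousOn hmap
    have h2 : IntegrableOn (Function.uncurry fun (s : ℝ) (a : ι → ℝ) =>
        (χ a : ℂ) * (I * fderiv ℂ H (cp a (s • b)) (rc b))) (Set.uIoc (0 : ℝ) 1 ×ˢ Set.univ)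
        ((volume : Measure ℝ).prod (volume : Measure (ι → ℝ))) := by
      refine h1.of_forall_sdiff_eq_zero (measurableSet_uIoc.prod MeasurableSet.univ) ?_
      rintro ⟨s, a⟩ ⟨⟨hs, -⟩, hns⟩
      have hs' : s ∈ Set.Icc (0 : ℝ) 1 := by
        rw [Set.uIoc_of_le zero_le_one] at hs
        exact Set.Ioc_subset_Icc_self hs
      have ha : a ∉ tsupport χ := fun ha => hns ⟨hs', ha⟩
      show (χ a : ℂ) * (I * fderiv ℂ H (cp a (s • b)) (rc b)) = 0
      rw [hχ0 a ha, ofReal_zero, zero_mul]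
    rw [IntegrableOn, ← Measure.prod_restrict, Measure.restrict_univ] at h2
    exact h2
  -- conclusion
  have hi1 : Integrable fun a : ι → ℝ => (χ a : ℂ) * H (cp a b) := by
    have := hint0 1 ⟨zero_le_one, le_rfl⟩
    simpa only [one_smul] using this
  have hi0 : Integrable fun a : ι → ℝ => (χ a : ℂ) * H (cp a 0) := by
    have := hint0 0 ⟨le_rfl, zero_le_one⟩
    simpa only [zero_smul] using this
  rw [← integral_sub hi1 hi0, integral_congr_ae (Eventually.of_forall hftc), ← hfub,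
    ← intervalIntegral.integral_const_mul]
  refine intervalIntegral.integral_congr fun s hs => ?_
  rw [Set.uIcc_of_le zero_le_one] at hs
  have h1 : ∀ a : ι → ℝ, (χ a : ℂ) * (I * fderiv ℂ H (cp a (s • b)) (rc b)) =
      I * ((χ a : ℂ) * fderiv ℂ H (cp a (s • b)) (rc b)) := fun a => by ring
  show ∫ a : ι → ℝ, (χ a : ℂ) * (I * fderiv ℂ H (cp a (s • b)) (rc b)) =
    -I * ∫ a : ι → ℝ, ((fderiv ℝ χ a b : ℝ) : ℂ) * H (cp a (s • b))
  rw [integral_congr_ae (Eventually.of_forall h1), integral_const_mul, hparts s hs]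
  ring

end Pool.Agent.H63.GO
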