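import Pool.Agent.H63.GO.Defs

/-! # Bounds for the kernels -/

namespace Pool.Agent.H63.GO

open Complex Filter Topology MeasureTheory
open scoped BigOperators

private theorem KernInt_norm (z : ℂ) :
    ‖exp (2 * Real.pi * I * z)‖ = Real.exp (-(2 * Real.pi * z.im)) := by
  rw [Complex.norm_exp]
  congr 1
  simp [Complex.mul_re, Complex.mul_im]

private theorem KernInt_ne (z : ℂ) (hz : 0 < z.im) : 1 - exp (2 * Real.pi * I * z) ≠ 0 := by
  intro h
  have h1 := KernInt_norm z
  rw [← sub_eq_zero.1 h, norm_one] at h1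
  have h2 : Real.exp (-(2 * Real.pi * z.im)) < 1 := by
    rw [Real.exp_lt_one_iff]
    have := Real.pi_pos
    have : 0 < 2 * Real.pi * z.im := by positivity
    linarith
  linarith

/-- `kap` is holomorphic on the upper half plane. -/
theorem kap_differentiableAt (z : ℂ) (hz : 0 < z.im) : DifferentiableAt ℂ kap z := by
  unfold kap
  refine DifferentiableAt.div ?_ ?_ (KernInt_ne z hz)
  · fun_prop
  · fun_prop

theorem kap_analyticAt (z : ℂ) (hz : 0 < z.im) : AnalyticAt ℂ kap z := by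
  have hopen : IsOpen {w : ℂ | 0 < w.im} := isOpen_lt continuous_const Complex.continuous_im
  have hd : DifferentiableOn ℂ kap {w : ℂ | 0 < w.im} :=
    fun w hw => (kap_differentiableAt w hw).differentiableWithinAt
  exact hd.analyticAt (hopen.mem_nhds hz)

theorem kap_norm_le (c : ℝ) (hc : 0 < c) : ∃ C : ℝ, 0 < C ∧ ∀ z : ℂ, c ≤ z.im →
    ‖kap z‖ ≤ C * Real.exp (-(2 * Real.pi * z.im)) ∧
    ‖kap z - exp (2 * Real.pi * I * z)‖ ≤ C * Real.exp (-(4 * Real.pi * z.im)) := by
  have hpi := Real.pi_pos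
  have hq1 : Real.exp (-(2 * Real.pi * c)) < 1 := by
    rw [Real.exp_lt_one_iff]
    have : 0 < 2 * Real.pi * c := by positivity
    linarith
  have hC : 0 < 1 - Real.exp (-(2 * Real.pi * c)) := by linarith
  refine ⟨(1 - Real.exp (-(2 * Real.pi * c)))⁻¹, inv_pos.2 hC, fun z hz => ?_⟩
  have hz0 : 0 < z.im := lt_of_lt_of_le hc hz
  have hw := KernInt_norm z
  have hle : Real.exp (-(2 * Real.pi * z.im)) ≤ Real.exp (-(2 * Real.pi * c)) := by
    apply Real.exp_le_exp.2
    have : 2 * Real.pi * c ≤ 2 * Real.pi * z.im := by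
      apply mul_le_mul_of_nonneg_left hz
      positivity
    linarith
  have hlow : 1 - Real.exp (-(2 * Real.pi * c)) ≤ ‖1 - exp (2 * Real.pi * I * z)‖ := by
    have h1 := norm_sub_norm_le (1 : ℂ) (exp (2 * Real.pi * I * z))
    rw [norm_one, hw] at h1
    linarith
  have hinv : ‖1 - exp (2 * Real.pi * I * z)‖⁻¹ ≤ (1 - Real.exp (-(2 * Real.pi * c)))⁻¹ :=
    inv_anti₀ hC hlow
  constructor
  · unfold kap
    rw [norm_div, hw, div_eq_mul_inv, mul_comm]
    exact mul_le_mul_of_nonneg_right hinv (Real.exp_pos _).le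
  · have h2 : kap z - exp (2 * Real.pi * I * z)
        = exp (2 * Real.pi * I * z) ^ 2 / (1 - exp (2 * Real.pi * I * z)) := by
      unfold kap
      have := KernInt_ne z hz0
      field_simp
      ring
    rw [h2, norm_div, norm_pow, hw, div_eq_mul_inv, mul_comm]
    have h3 : Real.exp (-(2 * Real.pi * z.im)) ^ 2 = Real.exp (-(4 * Real.pi * z.im)) := by
      rw [← Real.exp_nat_mul]
      congr 1
      push_cast
      ring
    rw [h3]
    exact mul_le_mul_of_nonneg_right hinv (Real.exp_pos _).le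

/-- The norm of `1 - e^{2 π i z}` squared. -/
private theorem KernInt_normSq (z : ℂ) :
    ‖1 - exp (2 * Real.pi * I * z)‖ ^ 2 = (1 - Real.exp (-(2 * Real.pi * z.im))) ^ 2
      + 4 * Real.exp (-(2 * Real.pi * z.im)) * Real.sin (Real.pi * z.re) ^ 2 := by
  rw [← Complex.normSq_eq_norm_sq, Complex.normSq_apply]
  have hre : (2 * (Real.pi : ℂ) * I * z).re = -(2 * Real.pi * z.im) := by
    simp [Complex.mul_re, Complex.mul_im]
  have him : (2 * (Real.pi : ℂ) * I * z).im = 2 * (Real.pi * z.re) := by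
    simp [Complex.mul_re, Complex.mul_im]
    ring
  rw [Complex.sub_re, Complex.sub_im, Complex.exp_re, Complex.exp_im, hre, him,
    Complex.one_re, Complex.one_im]
  have h1 := Real.cos_sq_add_sin_sq (2 * (Real.pi * z.re))
  have h2 : Real.cos (2 * (Real.pi * z.re)) = 1 - 2 * Real.sin (Real.pi * z.re) ^ 2 := by
    rw [Real.cos_two_mul, Real.cos_sq']
    ring
  set Q := Real.exp (-(2 * Real.pi * z.im))
  have h3 : Real.sin (2 * (Real.pi * z.re)) ^ 2 = 1 - Real.cos (2 * (Real.pi * z.re)) ^ 2 := by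
    linarith
  have h4 : (1 - Q * Real.cos (2 * (Real.pi * z.re))) * (1 - Q * Real.cos (2 * (Real.pi * z.re)))
      + (0 - Q * Real.sin (2 * (Real.pi * z.re))) * (0 - Q * Real.sin (2 * (Real.pi * z.re)))
      = 1 - 2 * Q * Real.cos (2 * (Real.pi * z.re)) + Q ^ 2 *
        (Real.cos (2 * (Real.pi * z.re)) ^ 2 + Real.sin (2 * (Real.pi * z.re)) ^ 2) := by ring
  rw [h4, h1, h2]
  ring

private theorem KernInt_low (z : ℂ) (hz : 0 < z.im) :
    1 - Real.exp (-(2 * Real.pi * z.im)) ≤ ‖1 - exp (2 * Real.pi * I * z)‖ ∧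
      |Real.sin (Real.pi * z.re)| ≤ ‖1 - exp (2 * Real.pi * I * z)‖ := by
  have h := KernInt_normSq z
  have hQ0 : 0 < Real.exp (-(2 * Real.pi * z.im)) := Real.exp_pos _
  have hQ1 : Real.exp (-(2 * Real.pi * z.im)) < 1 := by
    rw [Real.exp_lt_one_iff]
    have := Real.pi_pos
    have : 0 < 2 * Real.pi * z.im := by positivity
    linarith
  set Q := Real.exp (-(2 * Real.pi * z.im))
  set S := Real.sin (Real.pi * z.re) ^ 2 with hS
  have hS0 : 0 ≤ S := sq_nonneg _
  have hS1 : S ≤ 1 := Real.sin_sq_le_one _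
  constructor
  · apply le_of_sq_le_sq _ (norm_nonneg _)
    rw [h]
    have : 0 ≤ 4 * Q * S := by positivity
    linarith
  · rw [← Real.sqrt_sq_eq_abs, Real.sqrt_le_left (norm_nonneg _), h]
    have h1 : (1 - Q) ^ 2 + 4 * Q * S - S = (1 - S) * (1 - Q) ^ 2 + S * (2 * Q + Q ^ 2) := by ring
    have h2 : 0 ≤ (1 - S) * (1 - Q) ^ 2 + S * (2 * Q + Q ^ 2) := by
      have h3 : 0 ≤ 1 - S := by linarith
      positivity
    rw [← hS]
    linarith

/-- `1 - e^{- t s} ≥ s (1 - e^{-t})`. -/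
private theorem KernInt_conv (t s : ℝ) (hs0 : 0 ≤ s) (hs1 : s ≤ 1) :
    s * (1 - Real.exp (-t)) ≤ 1 - Real.exp (-(t * s)) := by
  have h := convexOn_exp.2 (Set.mem_univ (-t)) (Set.mem_univ (0 : ℝ)) hs0
    (by linarith : (0 : ℝ) ≤ 1 - s) (by ring)
  simp only [smul_eq_mul, mul_zero, add_zero, Real.exp_zero, mul_one] at h
  have h2 : s * -t = -(t * s) := by ring
  rw [h2] at h
  linarith

/-- The factor of one coordinate. -/
private noncomputable def KernInt_fac (ε : ℝ) (M : ℕ) (o : ℝ) (τ : SignType) (b s a : ℝ) : ℝ :=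
  ‖kr ε τ (M * ((a : ℂ) + ((s * b : ℝ) : ℂ) * I) - o)‖ *
    Real.exp (2 * Real.pi * M * s * (|sgn τ| * |b|))

private theorem KernInt_sgn (τ : SignType) (hτ : τ ≠ 0) : sgn τ = 1 ∨ sgn τ = -1 := by
  cases τ with
  | zero => exact absurd rfl hτ
  | neg => right; simp [sgn]
  | pos => left; simp [sgn]

private theorem KernInt_ptw (ε : ℝ) (M : ℕ) (o : ℝ) (τ : SignType) (b s a θ : ℝ) (hτ : τ ≠ 0)
    (hb : 0 < sgn τ * b) (hM : 1 ≤ M) (hε : 0 < ε) (hs0 : 0 < s) (hs1 : s ≤ 1) (hθ0 : 0 < θ)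
    (hθ1 : θ < 1) (hsin : Real.sin (Real.pi * (M * a - o)) ≠ 0) :
    KernInt_fac ε M o τ b s a ≤ (1 - Real.exp (-(2 * Real.pi * |b|)))⁻¹ * s ^ (-θ) *
      |Real.sin (Real.pi * (M * a - o))| ^ (-(1 - θ)) := by
  have hpi := Real.pi_pos
  have hM' : (1 : ℝ) ≤ M := by exact_mod_cast hM
  have hb1 : sgn τ * b = |b| := by
    rcases KernInt_sgn τ hτ with h | h
    · rw [h, one_mul] at hb ⊢
      exact (abs_of_pos hb).symm
    · rw [h] at hb ⊢
      rw [abs_of_neg (by linarith)]
      ring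
  have hbp : 0 < |b| := hb1 ▸ hb
  have hsg : |sgn τ| = 1 := by
    rcases KernInt_sgn τ hτ with h | h <;> rw [h] <;> simp
  set z : ℂ := (sgn τ : ℂ) * (M * ((a : ℂ) + ((s * b : ℝ) : ℂ) * I) - o) + ε * I with hz
  have hre : z.re = sgn τ * (M * a - o) := by
    rw [hz]
    simp [Complex.mul_re, Complex.mul_im, Complex.add_re, Complex.sub_re]
  have him : z.im = M * s * |b| + ε := by
    rw [hz, ← hb1]
    simp [Complex.mul_re, Complex.mul_im, Complex.add_im, Complex.sub_im]
    ring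
  have himpos : 0 < z.im := by
    rw [him]
    positivity
  have hsin2 : |Real.sin (Real.pi * z.re)| = |Real.sin (Real.pi * (M * a - o))| := by
    rw [hre]
    rcases KernInt_sgn τ hτ with h | h
    · rw [h, one_mul]
    · rw [h]
      have : Real.pi * (-1 * (M * a - o)) = -(Real.pi * (M * a - o)) := by ring
      rw [this, Real.sin_neg, abs_neg]
  obtain ⟨hl1, hl2⟩ := KernInt_low z himpos
  rw [hsin2] at hl2
  have hu : s * (1 - Real.exp (-(2 * Real.pi * |b|))) ≤ 1 - Real.exp (-(2 * Real.pi * z.im)) := by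
    refine (KernInt_conv (2 * Real.pi * |b|) s hs0.le hs1).trans ?_
    have : Real.exp (-(2 * Real.pi * z.im)) ≤ Real.exp (-(2 * Real.pi * |b| * s)) := by
      apply Real.exp_le_exp.2
      rw [him]
      have h1 : |b| * s ≤ M * s * |b| + ε := by
        have : 1 * (s * |b|) ≤ M * (s * |b|) :=
          mul_le_mul_of_nonneg_right hM' (by positivity)
        linarith
      have h2 : 2 * Real.pi * (|b| * s) ≤ 2 * Real.pi * (M * s * |b| + ε) :=
        mul_le_mul_of_nonneg_left h1 (by positivity)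
      linarith
    linarith
  have hub0 : 0 < 1 - Real.exp (-(2 * Real.pi * |b|)) := by
    have : Real.exp (-(2 * Real.pi * |b|)) < 1 := by
      rw [Real.exp_lt_one_iff]
      have : 0 < 2 * Real.pi * |b| := by positivity
      linarith
    linarith
  have hub1 : 1 - Real.exp (-(2 * Real.pi * |b|)) ≤ 1 := by
    have := (Real.exp_pos (-(2 * Real.pi * |b|))).le
    linarith
  set u := 1 - Real.exp (-(2 * Real.pi * |b|)) with hudef
  set v := |Real.sin (Real.pi * (M * a - o))| with hvdef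
  have hv0 : 0 < v := abs_pos.2 hsin
  have hsu0 : 0 < s * u := mul_pos hs0 hub0
  set A := ‖1 - exp (2 * Real.pi * I * z)‖ with hA
  have hA1 : s * u ≤ A := hu.trans hl1
  have hA0 : 0 < A := lt_of_lt_of_le hsu0 hA1
  have hfac : KernInt_fac ε M o τ b s a ≤ A⁻¹ := by
    unfold KernInt_fac
    have h1 : kr ε τ (M * ((a : ℂ) + ((s * b : ℝ) : ℂ) * I) - o) = kap z := by
      unfold kr
      rw [if_neg hτ]
    rw [h1, hsg, one_mul]
    unfold kap
    rw [norm_div, KernInt_norm, ← hA, div_mul_eq_mul_div, ← Real.exp_add, him]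
    rw [div_eq_mul_inv]
    refine mul_le_of_le_one_left (inv_nonneg.2 hA0.le) ?_
    rw [Real.exp_le_one_iff]
    have : 0 < 2 * Real.pi * ε := by positivity
    nlinarith
  refine hfac.trans ?_
  have h3 : (s * u) ^ θ * v ^ (1 - θ) ≤ A := by
    calc (s * u) ^ θ * v ^ (1 - θ) ≤ A ^ θ * A ^ (1 - θ) := by
          apply mul_le_mul
          · exact Real.rpow_le_rpow hsu0.le hA1 hθ0.le
          · exact Real.rpow_le_rpow hv0.le hl2 (by linarith)
          · positivity
          · positivity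
      _ = A := by
          rw [← Real.rpow_add hA0]
          have : θ + (1 - θ) = 1 := by ring
          rw [this, Real.rpow_one]
  have h4 : 0 < (s * u) ^ θ * v ^ (1 - θ) := by positivity
  have h5 : A⁻¹ ≤ ((s * u) ^ θ * v ^ (1 - θ))⁻¹ := inv_anti₀ h4 h3
  refine h5.trans ?_
  rw [mul_inv, ← Real.rpow_neg hsu0.le, ← Real.rpow_neg hv0.le]
  refine mul_le_mul_of_nonneg_right ?_ (by positivity)
  rw [Real.mul_rpow hs0.le hub0.le, mul_comm]
  refine mul_le_mul_of_nonneg_right ?_ (by positivity)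
  have h6 : u ^ (-θ) ≤ u ^ (-1 : ℝ) :=
    Real.rpow_le_rpow_of_exponent_ge hub0 hub1 (by linarith)
  rwa [Real.rpow_neg_one] at h6

/-- The periodic majorant. -/
private noncomputable def KernInt_G (ρ : ℝ) (x : ℝ) : ℝ := |Real.sin (Real.pi * x)| ^ (-ρ)

private theorem KernInt_G_per (ρ : ℝ) : Function.Periodic (KernInt_G ρ) 1 := by
  intro x
  unfold KernInt_G
  have : Real.pi * (x + 1) = Real.pi * x + Real.pi := by ring
  rw [this, Real.sin_add_pi, abs_neg]

private theorem KernInt_G_meas (ρ : ℝ) : Measurable (KernInt_G ρ) := by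
  unfold KernInt_G
  have h1 : Measurable fun x : ℝ => |Real.sin (Real.pi * x)| := by
    apply Continuous.measurable
    fun_prop
  exact h1.pow_const _

private theorem KernInt_G_nonneg (ρ x : ℝ) : 0 ≤ KernInt_G ρ x := by
  unfold KernInt_G
  positivity

private theorem KernInt_sin_low (x : ℝ) (h0 : 0 < x) (h1 : x ≤ 1 / 2) :
    x ≤ Real.sin (Real.pi * x) := by
  have hpi := Real.pi_pos
  have h := Real.mul_le_sin (x := Real.pi * x) (by positivity) (by nlinarith)
  have h2 : 2 / Real.pi * (Real.pi * x) = 2 * x := by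
    field_simp
  rw [h2] at h
  linarith

private theorem KernInt_G_le (ρ x : ℝ) (hρ : 0 < ρ) (h0 : 0 < x) (h1 : x < 1) :
    KernInt_G ρ x ≤ x ^ (-ρ) + (1 - x) ^ (-ρ) := by
  unfold KernInt_G
  have h2 : 0 < 1 - x := by linarith
  rcases le_total x (1 / 2) with h | h
  · have h3 := KernInt_sin_low x h0 h
    have h4 : |Real.sin (Real.pi * x)| ^ (-ρ) ≤ x ^ (-ρ) :=
      Real.rpow_le_rpow_of_nonpos h0 (h3.trans (le_abs_self _)) (by linarith)
    have h5 : 0 ≤ (1 - x) ^ (-ρ) := by positivity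
    linarith
  · have h3 := KernInt_sin_low (1 - x) h2 (by linarith)
    have h6 : Real.sin (Real.pi * (1 - x)) = Real.sin (Real.pi * x) := by
      have : Real.pi * (1 - x) = Real.pi - Real.pi * x := by ring
      rw [this, Real.sin_pi_sub]
    rw [h6] at h3
    have h4 : |Real.sin (Real.pi * x)| ^ (-ρ) ≤ (1 - x) ^ (-ρ) :=
      Real.rpow_le_rpow_of_nonpos h2 (h3.trans (le_abs_self _)) (by linarith)
    have h5 : 0 ≤ x ^ (-ρ) := by positivity
    linarith

private theorem KernInt_G_int0 (ρ : ℝ) (hρ : 0 < ρ) (hρ1 : ρ < 1) :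
    IntervalIntegrable (KernInt_G ρ) volume 0 1 := by
  have h1 : IntervalIntegrable (fun x : ℝ => x ^ (-ρ)) volume 0 1 :=
    intervalIntegral.intervalIntegrable_rpow' (by linarith)
  have h2 : IntervalIntegrable (fun x : ℝ => (1 - x) ^ (-ρ)) volume 0 1 := by
    have h3 := h1.comp_sub_left 1
    simp only [sub_zero, sub_self] at h3
    exact h3.symm
  have h4 := h1.add h2
  rw [intervalIntegrable_iff_integrableOn_Ioo_of_le zero_le_one] at h4 ⊢
  refine Integrable.mono' h4 (KernInt_G_meas ρ).aestronglyMeasurable ?_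
  filter_upwards [ae_restrict_mem measurableSet_Ioo] with x hx
  rw [Real.norm_of_nonneg (KernInt_G_nonneg ρ x)]
  exact KernInt_G_le ρ x hρ hx.1 hx.2

private theorem KernInt_G_int (ρ : ℝ) (hρ : 0 < ρ) (hρ1 : ρ < 1) (a b : ℝ) :
    IntervalIntegrable (KernInt_G ρ) volume a b :=
  (KernInt_G_per ρ).intervalIntegrable₀ one_ne_zero (KernInt_G_int0 ρ hρ hρ1) a b

private theorem KernInt_G_bound (ρ : ℝ) (hρ : 0 < ρ) (hρ1 : ρ < 1) (M : ℕ) (hM : 1 ≤ M)
    (L : ℝ) (hL : 0 < L) (o : ℝ) :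
    IntegrableOn (fun a => KernInt_G ρ (M * a - o)) (Set.Icc (-L) L) ∧
    ∫ a in Set.Icc (-L) L, KernInt_G ρ (M * a - o) ≤
      (2 * L + 1) * ∫ x in (0 : ℝ)..1, KernInt_G ρ x := by
  have hM' : (1 : ℝ) ≤ M := by exact_mod_cast hM
  have hM0 : (0 : ℝ) < M := by linarith
  have hI0 : 0 ≤ ∫ x in (0 : ℝ)..1, KernInt_G ρ x :=
    intervalIntegral.integral_nonneg zero_le_one fun x _ => KernInt_G_nonneg ρ x
  have hLL : -L ≤ L := by linarith
  constructor
  · have h1 : IntervalIntegrable (fun a => KernInt_G ρ (M * a - o)) volume (-L) L := by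
      have h3 := ((KernInt_G_int ρ hρ hρ1 (M * (-L) - o) (M * L - o)).comp_sub_right o).comp_mul_left (c := (M : ℝ))
      have e1 : (M * (-L) - o + o) / (M : ℝ) = -L := by field_simp; ring
      have e2 : (M * L - o + o) / (M : ℝ) = L := by field_simp; ring
      rw [e1, e2] at h3
      exact h3
    rwa [intervalIntegrable_iff_integrableOn_Icc_of_le hLL] at h1
  · rw [integral_Icc_eq_integral_Ioc, ← intervalIntegral.integral_of_le hLL,
      intervalIntegral.integral_comp_mul_sub (KernInt_G ρ) hM0.ne' o, smul_eq_mul]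
    set n : ℕ := ⌈2 * M * L⌉₊ with hn
    have hn1 : 2 * M * L ≤ n := Nat.le_ceil _
    have hn2 : (n : ℝ) < 2 * M * L + 1 := Nat.ceil_lt_add_one (by positivity)
    have h2 : ∫ x in (M * (-L) - o)..(M * L - o), KernInt_G ρ x
        ≤ ∫ x in (M * (-L) - o)..(M * (-L) - o + (n : ℤ) • (1 : ℝ)), KernInt_G ρ x := by
      apply intervalIntegral.integral_mono_interval le_rfl
      · nlinarith
      · simp only [zsmul_eq_mul, mul_one, Int.cast_natCast]
        nlinarith
      · exact Eventually.of_forall fun x => KernInt_G_nonneg ρ x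
      · exact KernInt_G_int ρ hρ hρ1 _ _
    rw [(KernInt_G_per ρ).intervalIntegral_add_zsmul_eq (n : ℤ) _ (KernInt_G_int ρ hρ hρ1),
      (KernInt_G_per ρ).intervalIntegral_add_eq _ 0, zero_add] at h2
    simp only [zsmul_eq_mul, Int.cast_natCast] at h2
    calc (M : ℝ)⁻¹ * ∫ x in (M * (-L) - o)..(M * L - o), KernInt_G ρ x
        ≤ (M : ℝ)⁻¹ * (n * ∫ x in (0 : ℝ)..1, KernInt_G ρ x) :=
          mul_le_mul_of_nonneg_left h2 (by positivity)
      _ = ((M : ℝ)⁻¹ * n) * ∫ x in (0 : ℝ)..1, KernInt_G ρ x := by ring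
      _ ≤ (2 * L + 1) * ∫ x in (0 : ℝ)..1, KernInt_G ρ x := by
          refine mul_le_mul_of_nonneg_right ?_ hI0
          rw [inv_mul_le_iff₀ hM0]
          nlinarith

private theorem KernInt_null (M : ℕ) (hM : 1 ≤ M) (o : ℝ) :
    ∀ᵐ a : ℝ, Real.sin (Real.pi * (M * a - o)) ≠ 0 := by
  have hM0 : (0 : ℝ) < M := by
    have : (1 : ℝ) ≤ M := by exact_mod_cast hM
    linarith
  have hsub : {a : ℝ | ¬ Real.sin (Real.pi * (M * a - o)) ≠ 0} ⊆
      Set.range fun n : ℤ => ((n : ℝ) + o) / M := by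
    intro a ha
    have h1 : Real.sin (Real.pi * (M * a - o)) = 0 := not_not.1 ha
    obtain ⟨n, hn⟩ := Real.sin_eq_zero_iff.1 h1
    refine ⟨n, ?_⟩
    have h2 : (n : ℝ) = M * a - o := by
      have h3 : Real.pi * (n : ℝ) = Real.pi * (M * a - o) := by rw [← hn]; ring
      exact mul_left_cancel₀ Real.pi_ne_zero h3
    show ((n : ℝ) + o) / M = a
    rw [h2]
    field_simp
    ring
  exact measure_mono_null hsub ((Set.countable_range _).measure_zero volume)

/-- The integral of one factor. -/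
private theorem KernInt_one (τ : SignType) (b : ℝ) (hb : τ ≠ 0 → 0 < sgn τ * b) (L : ℝ)
    (hL : 0 < L) (θ : ℝ) (hθ0 : 0 < θ) (hθ1 : θ < 1) :
    ∃ C : ℝ, 0 < C ∧ ∀ (M : ℕ) (o ε s : ℝ), 1 ≤ M → 0 < ε → 0 < s → s ≤ 1 →
      ∫ a in Set.Icc (-L) L, KernInt_fac ε M o τ b s a ≤ C * s ^ (-θ) := by
  by_cases hτ : τ = 0
  · refine ⟨2 * L, by linarith, fun M o ε s _ _ hs0 hs1 => ?_⟩
    have h1 : ∀ a, KernInt_fac ε M o τ b s a = 1 := by
      intro a
      unfold KernInt_fac kr
      rw [if_pos hτ, hτ]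
      simp [sgn]
    simp only [h1]
    rw [setIntegral_const, measureReal_def, Real.volume_Icc, ENNReal.toReal_ofReal (by linarith),
      smul_eq_mul, mul_one]
    have h2 : (1 : ℝ) ≤ s ^ (-θ) := by
      have := Real.rpow_le_rpow_of_exponent_ge hs0 hs1 (by linarith : -θ ≤ 0)
      rwa [Real.rpow_zero] at this
    have h3 : 2 * L * 1 ≤ 2 * L * s ^ (-θ) := mul_le_mul_of_nonneg_left h2 (by linarith)
    linarith
  · set I0 := ∫ x in (0 : ℝ)..1, KernInt_G (1 - θ) x with hI
    have hI0 : 0 ≤ I0 :=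
      intervalIntegral.integral_nonneg zero_le_one fun x _ => KernInt_G_nonneg _ x
    have hbp : 0 < |b| := by
      rw [abs_pos]
      rintro rfl
      have := hb hτ
      rw [mul_zero] at this
      exact lt_irrefl _ this
    have hu0 : 0 < 1 - Real.exp (-(2 * Real.pi * |b|)) := by
      have : Real.exp (-(2 * Real.pi * |b|)) < 1 := by
        rw [Real.exp_lt_one_iff]
        have := Real.pi_pos
        have : 0 < 2 * Real.pi * |b| := by positivity
        linarith
      linarith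
    refine ⟨(1 - Real.exp (-(2 * Real.pi * |b|)))⁻¹ * ((2 * L + 1) * I0) + 1, by positivity,
      fun M o ε s hM hε hs0 hs1 => ?_⟩
    obtain ⟨hint, hbd⟩ := KernInt_G_bound (1 - θ) (by linarith) (by linarith) M hM L hL o
    have h1 : ∫ a in Set.Icc (-L) L, KernInt_fac ε M o τ b s a ≤
        ∫ a in Set.Icc (-L) L, (1 - Real.exp (-(2 * Real.pi * |b|)))⁻¹ * s ^ (-θ) *
          KernInt_G (1 - θ) (M * a - o) := by
      refine integral_mono_of_nonneg ?_ (hint.const_mul _) ?_
      · refine Eventually.of_forall fun a => ?_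
        show 0 ≤ KernInt_fac ε M o τ b s a
        unfold KernInt_fac
        positivity
      · filter_upwards [ae_restrict_of_ae (KernInt_null M hM o)] with a ha
        exact KernInt_ptw ε M o τ b s a θ hτ (hb hτ) hM hε hs0 hs1 hθ0 hθ1 ha
    rw [integral_const_mul] at h1
    have hsθ : 0 < s ^ (-θ) := by positivity
    calc ∫ a in Set.Icc (-L) L, KernInt_fac ε M o τ b s a
        ≤ _ := h1
      _ ≤ (1 - Real.exp (-(2 * Real.pi * |b|)))⁻¹ * s ^ (-θ) * ((2 * L + 1) * I0) :=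
          mul_le_mul_of_nonneg_left hbd (by positivity)
      _ ≤ _ := by nlinarith

/-- Main bound: the kernels of one group of modes, normalized by the decay, are integrable over
`a ∈ [-L, L]^ι`, `s ∈ [0, 1]`, uniformly in `M`, `o` and `ε`. -/
theorem krp_integral {ι : Type} [Fintype ι] [DecidableEq ι] (σ : ι → SignType) (b : ι → ℝ)
    (hb : ∀ j, σ j ≠ 0 → 0 < sgn (σ j) * b j) (L : ℝ) (hL : 0 < L) :
    ∃ C : ℝ, 0 < C ∧ ∀ (M : ℕ) (o : ι → ℝ) (ε : ℝ), 1 ≤ M → 0 < ε → ε ≤ 1 →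
      (∫ s in (0 : ℝ)..1, ∫ a in Set.pi Set.univ (fun _ : ι => Set.Icc (-L) L),
        ‖krp ε M o σ (cp a (s • b))‖ * Real.exp (2 * Real.pi * M * s * nb σ b)) ≤ C := by
  set n : ℕ := Fintype.card ι with hn
  set θ : ℝ := 1 / (2 * (n + 1)) with hθ
  have hn0 : (0 : ℝ) ≤ n := Nat.cast_nonneg n
  have hθ0 : 0 < θ := by rw [hθ]; positivity
  have hθ1 : θ < 1 := by
    rw [hθ, div_lt_one (by positivity)]
    linarith
  have hθn : θ * n ≤ 1 / 2 := by
    rw [hθ, div_mul_eq_mul_div, div_le_div_iff₀ (by positivity) (by norm_num)]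
    linarith
  choose C hC0 hC using fun j => KernInt_one (σ j) (b j) (hb j) L hL θ hθ0 hθ1
  have hP0 : 0 < ∏ j, C j := Finset.prod_pos fun j _ => hC0 j
  refine ⟨2 * ∏ j, C j, by positivity, fun M o ε hM hε hε1 => ?_⟩
  have key : ∀ s : ℝ, 0 < s → s ≤ 1 →
      ‖∫ a in Set.pi Set.univ (fun _ : ι => Set.Icc (-L) L),
        ‖krp ε M o σ (cp a (s • b))‖ * Real.exp (2 * Real.pi * M * s * nb σ b)‖ ≤
      (∏ j, C j) * s ^ (-(1 / 2) : ℝ) := by
    intro s hs0 hs1
    have h1 : ∀ a : ι → ℝ, ‖krp ε M o σ (cp a (s • b))‖ *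
        Real.exp (2 * Real.pi * M * s * nb σ b) =
        ∏ j, KernInt_fac ε M (o j) (σ j) (b j) s (a j) := by
      intro a
      unfold krp KernInt_fac nb
      rw [norm_prod, Finset.mul_sum, Real.exp_sum, ← Finset.prod_mul_distrib]
      rfl
    simp only [h1]
    rw [show (volume : Measure (ι → ℝ)) = Measure.pi fun _ => volume from rfl,
      Measure.restrict_pi_pi,
      integral_fintype_prod_eq_prod (fun j x => KernInt_fac ε M (o j) (σ j) (b j) s x)]
    have h2 : ∀ j, 0 ≤ ∫ x in Set.Icc (-L) L, KernInt_fac ε M (o j) (σ j) (b j) s x := by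
      intro j
      apply integral_nonneg
      intro x
      show 0 ≤ KernInt_fac ε M (o j) (σ j) (b j) s x
      unfold KernInt_fac
      positivity
    rw [Real.norm_of_nonneg (Finset.prod_nonneg fun j _ => h2 j)]
    calc ∏ j, ∫ x in Set.Icc (-L) L, KernInt_fac ε M (o j) (σ j) (b j) s x
        ≤ ∏ j, (C j * s ^ (-θ)) :=
          Finset.prod_le_prod (fun j _ => h2 j) fun j _ => hC j M (o j) ε s hM hε hs0 hs1
      _ = (∏ j, C j) * (s ^ (-θ)) ^ n := by
          rw [Finset.prod_mul_distrib, Finset.prod_const, Finset.card_univ]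
      _ ≤ (∏ j, C j) * s ^ (-(1 / 2) : ℝ) := by
          refine mul_le_mul_of_nonneg_left ?_ hP0.le
          rw [← Real.rpow_natCast, ← Real.rpow_mul hs0.le]
          exact Real.rpow_le_rpow_of_exponent_ge hs0 hs1 (by linarith)
  have hii : IntervalIntegrable (fun s : ℝ => (∏ j, C j) * s ^ (-(1 / 2) : ℝ)) volume 0 1 :=
    (intervalIntegral.intervalIntegrable_rpow' (by norm_num)).const_mul _
  have h3 := intervalIntegral.norm_integral_le_of_norm_le (μ := volume) zero_le_one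
    (f := fun s : ℝ => ∫ a in Set.pi Set.univ (fun _ : ι => Set.Icc (-L) L),
        ‖krp ε M o σ (cp a (s • b))‖ * Real.exp (2 * Real.pi * M * s * nb σ b))
    (Eventually.of_forall fun s hs => key s hs.1 hs.2) hii
  refine (le_abs_self _).trans (h3.trans ?_)
  rw [intervalIntegral.integral_const_mul, integral_rpow (Or.inl (by norm_num))]
  norm_num
  linarith

end Pool.Agent.H63.GO
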