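import Pool.Agent.H63.GO.MTaylor
import Pool.Agent.H63.VC4.LaplaceN
import Pool.Agent.H63.VC4.GaussN
import Pool.Agent.H63.GO.KernInt

/-! # The main group of modes -/

namespace Pool.Agent.H63.GO

open Complex Filter Topology MeasureTheory
open scoped BigOperators

private theorem MLap_cont {ι : Type} [Fintype ι] (χ : (ι → ℝ) → ℝ) (hχ : Continuous χ)
    (g : (ι → ℝ) → ℂ) (hg : ∀ a ∈ tsupport χ, ContinuousAt g a) :
    Continuous fun a => (χ a : ℂ) * g a := by
  refine continuous_of_tsupport fun a ha => ?_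
  have h1 : a ∈ tsupport χ := by
    refine closure_mono ?_ ha
    intro x hx hx0
    apply hx
    show (χ x : ℂ) * g x = 0
    rw [hx0, ofReal_zero, zero_mul]
  exact (continuous_ofReal.comp hχ).continuousAt.mul (hg a h1)

private theorem MLap_cp_cont {ι : Type} (b : ι → ℝ) : Continuous fun a : ι → ℝ => cp a b := by
  refine continuous_pi fun j => ?_
  exact (continuous_ofReal.comp (continuous_apply j)).add continuous_const

private theorem MLap_im {ι : Type} (a b : ι → ℝ) (M : ℕ) (o : ι → ℝ) (j : ι) :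
    ((M : ℂ) * cp a b j - o j).im = M * b j := by
  simp [cp]

private theorem MLap_krp {ι : Type} [Fintype ι] [DecidableEq ι] (Bv : Finset ι) (M : ℕ)
    (o : ι → ℝ) (z : ι → ℂ) :
    krp 0 M o (sg0 Bv) z = ∏ j ∈ Bv, kap (M * z j - o j) := by
  unfold krp
  rw [← Finset.prod_subset (Finset.subset_univ Bv)]
  · refine Finset.prod_congr rfl fun j hj => ?_
    unfold kr sg0 sgn
    rw [if_pos hj, if_neg one_ne_zero]
    simp
  · intro j _ hj
    unfold kr sg0
    rw [if_neg hj, if_pos rfl]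

/-- the factor of one mode -/
private noncomputable def MLap_f {ι : Type} (M : ℕ) (o : ι → ℝ) (z : ι → ℂ) (j : ι) : ℂ :=
  kap (M * z j - o j) * exp (2 * Real.pi * I * o j) * exp (-(2 * Real.pi * I * (M * z j)))

private theorem MLap_f_norm {ι : Type} (M : ℕ) (o : ι → ℝ) (a b : ι → ℝ) (j : ι) {C : ℝ}
    (h : ‖kap ((M : ℂ) * cp a b j - o j)‖ ≤ C * Real.exp (-(2 * Real.pi * (M * b j)))) :
    ‖MLap_f M o (cp a b) j‖ ≤ C := by
  unfold MLap_f
  rw [norm_mul, norm_mul, norm_exp, norm_exp]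
  have h1 : (2 * (Real.pi : ℂ) * I * (o j : ℂ)).re = 0 := by simp
  have h2 : (-(2 * (Real.pi : ℂ) * I * ((M : ℂ) * cp a b j))).re = 2 * Real.pi * (M * b j) := by
    simp [cp]
  rw [h1, h2, Real.exp_zero, mul_one]
  calc ‖kap ((M : ℂ) * cp a b j - o j)‖ * Real.exp (2 * Real.pi * (M * b j))
      ≤ (C * Real.exp (-(2 * Real.pi * (M * b j)))) * Real.exp (2 * Real.pi * (M * b j)) :=
        mul_le_mul_of_nonneg_right h (Real.exp_pos _).le
    _ = C := by
        rw [mul_assoc, ← Real.exp_add, neg_add_cancel, Real.exp_zero, mul_one]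

private theorem MLap_f_sub {ι : Type} (M : ℕ) (o : ι → ℝ) (a b : ι → ℝ) (j : ι) {C : ℝ}
    (h : ‖kap ((M : ℂ) * cp a b j - o j) - exp (2 * Real.pi * I * ((M : ℂ) * cp a b j - o j))‖ ≤
      C * Real.exp (-(4 * Real.pi * (M * b j)))) :
    ‖MLap_f M o (cp a b) j - 1‖ ≤ C * Real.exp (-(2 * Real.pi * (M * b j))) := by
  have h0 : MLap_f M o (cp a b) j - 1 =
      (kap ((M : ℂ) * cp a b j - o j) - exp (2 * Real.pi * I * ((M : ℂ) * cp a b j - o j))) *
        exp (2 * Real.pi * I * o j) * exp (-(2 * Real.pi * I * (M * cp a b j))) := by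
    unfold MLap_f
    rw [sub_mul, sub_mul, ← Complex.exp_add, ← Complex.exp_add]
    congr 1
    rw [← Complex.exp_zero]
    congr 1
    ring
  rw [h0, norm_mul, norm_mul, norm_exp, norm_exp]
  have h1 : (2 * (Real.pi : ℂ) * I * (o j : ℂ)).re = 0 := by simp
  have h2 : (-(2 * (Real.pi : ℂ) * I * ((M : ℂ) * cp a b j))).re = 2 * Real.pi * (M * b j) := by
    simp [cp]
  rw [h1, h2, Real.exp_zero, mul_one]
  calc _ ≤ (C * Real.exp (-(4 * Real.pi * (M * b j)))) * Real.exp (2 * Real.pi * (M * b j)) :=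
        mul_le_mul_of_nonneg_right h (Real.exp_pos _).le
    _ = C * Real.exp (-(2 * Real.pi * (M * b j))) := by
        rw [mul_assoc, ← Real.exp_add]
        congr 2
        ring

/-- the amplitude -/
private noncomputable def MLap_A {ι : Type} (Bv : Finset ι) (V0 : (ι → ℂ) → ℂ)
    (χ : (ι → ℝ) → ℝ) (b : ι → ℝ) (Φ : ℕ → (ι → ℂ) → ℂ) (o : ℕ → ι → ℝ) (e : ℝ) (M : ℕ)
    (a : ι → ℝ) : ℂ :=
  (χ a : ℂ) * (Φ M (cp a b) * exp (-(M * V0 (cp a b))) / (((M : ℝ) ^ e : ℝ) : ℂ) *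
    ∏ j ∈ Bv, MLap_f M (o M) (cp a b) j)

private theorem MLap_id {ι : Type} [Fintype ι] [DecidableEq ι] (Bv : Finset ι)
    (V0 : (ι → ℂ) → ℂ) (χ : (ι → ℝ) → ℝ) (b : ι → ℝ) (Φ : ℕ → (ι → ℂ) → ℂ) (o : ℕ → ι → ℝ)
    (e : ℝ) (M : ℕ) (hM : 0 < M) (a ac : ι → ℝ) :
    MLap_A Bv V0 χ b Φ o e M a * exp (M * (Vm Bv V0 (cp a b) - Vm Bv V0 (cp ac b))) =
      (∏ j ∈ Bv, exp (2 * Real.pi * I * o M j)) * ((χ a : ℂ) *
        (Φ M (cp a b) * krp 0 M (o M) (sg0 Bv) (cp a b))) /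
        ((((M : ℝ) ^ e : ℝ) : ℂ) * exp (M * Vm Bv V0 (cp ac b))) := by
  have hMe : (((M : ℝ) ^ e : ℝ) : ℂ) ≠ 0 := by
    have : (0 : ℝ) < (M : ℝ) ^ e := Real.rpow_pos_of_pos (by exact_mod_cast hM) e
    exact_mod_cast this.ne'
  have h1 : exp (M * (Vm Bv V0 (cp a b) - Vm Bv V0 (cp ac b))) =
      exp (M * V0 (cp a b)) * (∏ j ∈ Bv, exp (2 * Real.pi * I * (M * cp a b j))) /
        exp (M * Vm Bv V0 (cp ac b)) := by
    rw [mul_sub, Complex.exp_sub]
    congr 1
    rw [← Complex.exp_sum, ← Complex.exp_add]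
    congr 1
    unfold Vm
    rw [mul_add, Finset.mul_sum, Finset.mul_sum]
    congr 1
    refine Finset.sum_congr rfl fun j _ => ?_
    ring
  have h2 : (∏ j ∈ Bv, MLap_f M (o M) (cp a b) j) *
      (∏ j ∈ Bv, exp (2 * Real.pi * I * (M * cp a b j))) =
      (∏ j ∈ Bv, exp (2 * Real.pi * I * o M j)) * krp 0 M (o M) (sg0 Bv) (cp a b) := by
    rw [MLap_krp, ← Finset.prod_mul_distrib, ← Finset.prod_mul_distrib]
    refine Finset.prod_congr rfl fun j _ => ?_
    unfold MLap_f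
    rw [mul_assoc _ (exp (-(2 * Real.pi * I * (M * cp a b j)))), ← Complex.exp_add,
      neg_add_cancel, Complex.exp_zero]
    ring
  have h3 : exp (-(M * V0 (cp a b))) * exp (M * V0 (cp a b)) = 1 := by
    rw [← Complex.exp_add, neg_add_cancel, Complex.exp_zero]
  have hE : exp ((M : ℂ) * Vm Bv V0 (cp ac b)) ≠ 0 := Complex.exp_ne_zero _
  rw [h1]
  unfold MLap_A
  rw [eq_div_iff (mul_ne_zero hMe hE)]
  calc _ = (χ a : ℂ) * Φ M (cp a b) *
        (exp (-(M * V0 (cp a b))) * exp (M * V0 (cp a b))) *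
        ((∏ j ∈ Bv, MLap_f M (o M) (cp a b) j) *
          (∏ j ∈ Bv, exp (2 * Real.pi * I * (M * cp a b j)))) := by
        field_simp
    _ = _ := by
        rw [h3, h2]
        ring

theorem main_lap {ι : Type} [Fintype ι] [DecidableEq ι] {Bv : Finset ι} {U : Set (ι → ℂ)}
    {V0 : (ι → ℂ) → ℂ} {χ : (ι → ℝ) → ℝ} {b : (ι → SignType) → ι → ℝ} {ac : ι → ℝ} {m δ c : ℝ}
    (hM : MData Bv U V0 χ b ac m δ c) {Φ : ℕ → (ι → ℂ) → ℂ} {Ψ : ι → ℕ → (ι → ℂ) → ℂ}
    {o : ℕ → ι → ℝ} {e : ℝ} (hA : AData Bv U V0 Φ Ψ o e)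
    (hL : ALim V0 Φ e (cp ac (b (sg0 Bv)))) :
    ∃ κ : ℂ, κ ≠ 0 ∧ Tendsto (fun M : ℕ => (∏ j ∈ Bv, exp (2 * Real.pi * I * o M j)) *
      ((((M : ℝ) ^ ((Fintype.card ι : ℝ) / 2) : ℝ) : ℂ) *
        ∫ a : ι → ℝ, (χ a : ℂ) *
          (Φ M (cp a (b (sg0 Bv))) * krp 0 M (o M) (sg0 Bv) (cp a (b (sg0 Bv))))) /
      ((((M : ℝ) ^ e : ℝ) : ℂ) * exp (M * Vm Bv V0 (cp ac (b (sg0 Bv)))))) atTop (𝓝 κ) := by
  set b0 : ι → ℝ := b (sg0 Bv) with hb0
  have hcχ : Continuous χ := hM.χ_smooth.continuous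
  have hsub : ∀ a ∈ tsupport χ, cp a b0 ∈ U := by
    intro a ha
    have h1 := hM.sub (sg0 Bv) a ha 1 ⟨zero_le_one, le_rfl⟩
    rwa [one_smul] at h1
  have hbpos : ∀ j ∈ Bv, 0 < b0 j := by
    intro j hj
    have h1 := hM.b_pos (sg0 Bv) j (by
      unfold sg0
      rw [if_pos hj]
      exact one_ne_zero)
    have h2 : sgn (sg0 Bv j) = 1 := by
      unfold sg0 sgn
      rw [if_pos hj]
      simp
    rwa [h2, one_mul] at h1
  have hne : ∀ a, χ a ≠ 0 → a ∈ tsupport χ := fun a ha => subset_tsupport χ ha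
  have hac : ac ∈ tsupport χ := hne ac (by
    rw [hM.χ_one]
    exact one_ne_zero)
  have hacn : tsupport χ ∈ 𝓝 ac := by
    have h1 : {a | χ a ≠ 0} ∈ 𝓝 ac :=
      (isOpen_ne_fun hcχ continuous_const).mem_nhds (by
        show χ ac ≠ 0
        rw [hM.χ_one]
        exact one_ne_zero)
    exact mem_of_superset h1 fun a ha => hne a ha
  -- constants for the kernels
  choose! Ck hCk0 hCk using fun (j : ι) (hj : j ∈ Bv) => kap_norm_le (b0 j) (hbpos j hj)
  have him : ∀ (M : ℕ), 1 ≤ M → ∀ a : ι → ℝ, ∀ j ∈ Bv,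
      b0 j ≤ ((M : ℂ) * cp a b0 j - o M j).im := by
    intro M hM1 a j hj
    rw [MLap_im]
    have h1 : (1 : ℝ) ≤ M := by exact_mod_cast hM1
    have h2 := hbpos j hj
    nlinarith
  have hf1 : ∀ (M : ℕ), 1 ≤ M → ∀ a : ι → ℝ, ∀ j ∈ Bv, ‖MLap_f M (o M) (cp a b0) j‖ ≤ Ck j := by
    intro M hM1 a j hj
    have h1 := (hCk j hj _ (him M hM1 a j hj)).1
    rw [MLap_im] at h1
    exact MLap_f_norm M (o M) a b0 j h1
  have hf2 : ∀ (M : ℕ), 1 ≤ M → ∀ a : ι → ℝ, ∀ j ∈ Bv, ‖MLap_f M (o M) (cp a b0) j - 1‖ ≤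
      Ck j * Real.exp (-(2 * Real.pi * (M * b0 j))) := by
    intro M hM1 a j hj
    have h1 := (hCk j hj _ (him M hM1 a j hj)).2
    rw [MLap_im] at h1
    exact MLap_f_sub M (o M) a b0 j h1
  obtain ⟨C, hC0, hC⟩ := hA.bound
  obtain ⟨A, hA0, hAl⟩ := hL
  have hVan : AnalyticOnNhd ℂ (Vm Bv V0) U := by
    intro z hz
    have h1 : AnalyticAt ℂ (fun z : ι → ℂ => 2 * (Real.pi : ℂ) * I * ∑ j ∈ Bv, z j) z := by
      refine analyticAt_const.mul (Finset.analyticAt_fun_sum _ fun j _ => ?_)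
      exact (ContinuousLinearMap.proj (R := ℂ) (φ := fun _ : ι => ℂ) j).analyticAt z
    exact (hM.V_an z hz).add h1
  obtain ⟨q, hq1, hq2, hq3⟩ := taylor_crit (Vm Bv V0) U hM.U_open hVan ac b0 (hsub ac hac)
    hM.gradz (tsupport χ) hacn c hM.c_pos (by
      intro a ha
      rw [hM.crit]
      exact hM.dec a ha)
  have hlap := VC4.laplaceN (fun a => Vm Bv V0 (cp a b0)) ac (MLap_A Bv V0 χ b0 Φ o e)
    (C * ∏ j ∈ Bv, Ck j) c hM.c_pos (fun ξ => ∑ a, ∑ b, q a b * ξ a * ξ b) A ?_ ?_ ?_ ?_ hq3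
  · refine ⟨A * ∫ ξ : ι → ℝ, exp (-∑ a, ∑ b, q a b * ξ a * ξ b),
      mul_ne_zero hA0 (VC4.gaussN_ne q hq1 c hM.c_pos hq2), ?_⟩
    refine hlap.congr' ?_
    filter_upwards [eventually_gt_atTop 0] with M hM1
    have h1 : (fun a => MLap_A Bv V0 χ b0 Φ o e M a *
        exp (M * (Vm Bv V0 (cp a b0) - Vm Bv V0 (cp ac b0)))) =
        fun a => ((∏ j ∈ Bv, exp (2 * Real.pi * I * o M j)) /
          ((((M : ℝ) ^ e : ℝ) : ℂ) * exp (M * Vm Bv V0 (cp ac b0)))) * ((χ a : ℂ) *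
        (Φ M (cp a b0) * krp 0 M (o M) (sg0 Bv) (cp a b0))) := by
      funext a
      rw [MLap_id Bv V0 χ b0 Φ o e M hM1 a ac]
      ring
    rw [h1, integral_const_mul]
    ring
  · -- measurability
    filter_upwards [eventually_gt_atTop 0, hA.an] with M hM1 hΦ
    refine Continuous.aestronglyMeasurable ?_
    have h1 : (fun a => MLap_A Bv V0 χ b0 Φ o e M a *
        exp (M * (Vm Bv V0 (cp a b0) - Vm Bv V0 (cp ac b0)))) =
        fun a => (χ a : ℂ) * ((Φ M (cp a b0) * exp (-(M * V0 (cp a b0))) /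
          (((M : ℝ) ^ e : ℝ) : ℂ) * ∏ j ∈ Bv, MLap_f M (o M) (cp a b0) j) *
          exp (M * (Vm Bv V0 (cp a b0) - Vm Bv V0 (cp ac b0)))) := by
      funext a
      unfold MLap_A
      ring
    rw [h1]
    refine MLap_cont χ hcχ _ fun a ha => ?_
    have hcp : ContinuousAt (fun a : ι → ℝ => cp a b0) a := (MLap_cp_cont b0).continuousAt
    have hz := hsub a ha
    have c1 : ContinuousAt (fun a : ι → ℝ => Φ M (cp a b0)) a :=
      ContinuousAt.comp (g := Φ M) (hΦ _ hz).continuousAt hcp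
    have c2 : ContinuousAt (fun a : ι → ℝ => V0 (cp a b0)) a :=
      ContinuousAt.comp (g := V0) (hM.V_an _ hz).continuousAt hcp
    have c3 : ContinuousAt (fun a : ι → ℝ => Vm Bv V0 (cp a b0)) a :=
      ContinuousAt.comp (g := Vm Bv V0) (hVan _ hz).continuousAt hcp
    have c4 : ∀ j ∈ Bv, ContinuousAt (fun a : ι → ℝ => MLap_f M (o M) (cp a b0) j) a := by
      intro j hj
      have c5 : ContinuousAt (fun a : ι → ℝ => (M : ℂ) * cp a b0 j - o M j) a :=
        ((continuous_const.mul ((continuous_apply j).comp (MLap_cp_cont b0))).sub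
          continuous_const).continuousAt
      have c6 : ContinuousAt (fun a : ι → ℝ => kap ((M : ℂ) * cp a b0 j - o M j)) a :=
        ContinuousAt.comp (g := kap) (kap_analyticAt _ (by
          have h3 := him M hM1 a j hj
          have h4 := hbpos j hj
          linarith)).continuousAt c5
      have c7 : Continuous (fun a : ι → ℝ => exp (-(2 * Real.pi * I * (M * cp a b0 j)))) :=
        Complex.continuous_exp.comp (continuous_const.mul (continuous_const.mul
          ((continuous_apply j).comp (MLap_cp_cont b0)))).neg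
      exact (c6.mul continuousAt_const).mul c7.continuousAt
    have c8 : ContinuousAt (fun a : ι → ℝ => exp (-(M * V0 (cp a b0)))) a :=
      ContinuousAt.comp (g := exp) Complex.continuous_exp.continuousAt
        (continuousAt_const.mul c2).neg
    have c9 : ContinuousAt (fun a : ι → ℝ =>
        exp (M * (Vm Bv V0 (cp a b0) - Vm Bv V0 (cp ac b0)))) a :=
      ContinuousAt.comp (g := exp) Complex.continuous_exp.continuousAt
        (continuousAt_const.mul (c3.sub continuousAt_const))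
    exact (((c1.mul c8).div_const _).mul (tendsto_finsetProd _ c4)).mul c9
  · -- bound
    filter_upwards [eventually_gt_atTop 0, hC] with M hM1 hb z
    have hK0 : 0 ≤ C * ∏ j ∈ Bv, Ck j :=
      mul_nonneg hC0.le (Finset.prod_nonneg fun j hj => (hCk0 j hj).le)
    unfold MLap_A
    by_cases hz : χ z = 0
    · rw [hz, ofReal_zero, zero_mul, norm_zero]
      exact hK0
    · have hzU := hsub z (hne z hz)
      have h1 := (hb _ hzU).1
      have hMe : (0 : ℝ) < (M : ℝ) ^ e := Real.rpow_pos_of_pos (by exact_mod_cast hM1) e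
      rw [norm_mul, norm_mul, norm_div, norm_mul, Complex.norm_real, Complex.norm_real,
        Real.norm_eq_abs, Real.norm_eq_abs, abs_of_nonneg (hM.χ_nonneg z), abs_of_pos hMe,
        norm_exp, norm_prod]
      have h2 : (-((M : ℂ) * V0 (cp z b0))).re = -(M * (V0 (cp z b0)).re) := by simp
      rw [h2]
      have h3 : ‖Φ M (cp z b0)‖ * Real.exp (-(M * (V0 (cp z b0)).re)) / (M : ℝ) ^ e ≤ C := by
        rw [div_le_iff₀ hMe]
        calc ‖Φ M (cp z b0)‖ * Real.exp (-(M * (V0 (cp z b0)).re))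
            ≤ (C * (M : ℝ) ^ e * Real.exp (M * (V0 (cp z b0)).re)) *
              Real.exp (-(M * (V0 (cp z b0)).re)) :=
              mul_le_mul_of_nonneg_right h1 (Real.exp_pos _).le
          _ = C * (M : ℝ) ^ e := by
              rw [mul_assoc, ← Real.exp_add, add_neg_cancel, Real.exp_zero, mul_one]
      have h4 : ∏ j ∈ Bv, ‖MLap_f M (o M) (cp z b0) j‖ ≤ ∏ j ∈ Bv, Ck j :=
        Finset.prod_le_prod (fun j _ => norm_nonneg _) fun j hj => hf1 M hM1 z j hj
      have h5 : ‖Φ M (cp z b0)‖ * Real.exp (-(M * (V0 (cp z b0)).re)) / (M : ℝ) ^ e *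
          ∏ j ∈ Bv, ‖MLap_f M (o M) (cp z b0) j‖ ≤ C * ∏ j ∈ Bv, Ck j :=
        mul_le_mul h3 h4 (Finset.prod_nonneg fun j _ => norm_nonneg _) hC0.le
      have h6 : 0 ≤ ‖Φ M (cp z b0)‖ * Real.exp (-(M * (V0 (cp z b0)).re)) / (M : ℝ) ^ e *
          ∏ j ∈ Bv, ‖MLap_f M (o M) (cp z b0) j‖ :=
        mul_nonneg (div_nonneg (mul_nonneg (norm_nonneg _) (Real.exp_pos _).le) hMe.le)
          (Finset.prod_nonneg fun j _ => norm_nonneg _)
      calc χ z * (‖Φ M (cp z b0)‖ * Real.exp (-(M * (V0 (cp z b0)).re)) / (M : ℝ) ^ e *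
          ∏ j ∈ Bv, ‖MLap_f M (o M) (cp z b0) j‖)
          ≤ 1 * (‖Φ M (cp z b0)‖ * Real.exp (-(M * (V0 (cp z b0)).re)) / (M : ℝ) ^ e *
          ∏ j ∈ Bv, ‖MLap_f M (o M) (cp z b0) j‖) :=
            mul_le_mul_of_nonneg_right (hM.χ_le z) h6
        _ ≤ C * ∏ j ∈ Bv, Ck j := by
            rw [one_mul]
            exact h5
  · -- decay
    refine Eventually.of_forall fun M z hz => ?_
    have h1 : χ z ≠ 0 := by
      intro h2
      apply hz
      unfold MLap_A
      rw [h2, ofReal_zero, zero_mul]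
    have h2 := hM.dec z (hne z h1)
    rw [sub_re, hM.crit]
    linarith
  · -- the limit of the amplitude
    intro ξ
    have hs : Tendsto (fun M : ℕ => (1 / Real.sqrt M : ℝ)) atTop (𝓝 0) := by
      have h1 : Tendsto (fun M : ℕ => Real.sqrt (M : ℝ)) atTop atTop :=
        Real.tendsto_sqrt_atTop.comp tendsto_natCast_atTop_atTop
      simp only [one_div]
      exact h1.inv_tendsto_atTop
    have hp : Tendsto (fun M : ℕ => ac + (1 / Real.sqrt M : ℝ) • ξ) atTop (𝓝 ac) := by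
      have h1 : Tendsto (fun M : ℕ => ac + (1 / Real.sqrt M : ℝ) • ξ) atTop
          (𝓝 (ac + (0 : ℝ) • ξ)) := tendsto_const_nhds.add (hs.smul_const ξ)
      rwa [zero_smul, add_zero] at h1
    have h1 : Tendsto (fun M : ℕ => (χ (ac + (1 / Real.sqrt M : ℝ) • ξ) : ℂ)) atTop (𝓝 1) := by
      have h2 := ((continuous_ofReal.comp hcχ).tendsto ac).comp hp
      simp only [Function.comp_def, hM.χ_one, ofReal_one] at h2
      exact h2
    have h2 := hAl (fun M => cp (ac + (1 / Real.sqrt M : ℝ) • ξ) b0)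
      (((MLap_cp_cont b0).tendsto ac).comp hp)
    have h3 : Tendsto (fun M : ℕ => ∏ j ∈ Bv,
        MLap_f M (o M) (cp (ac + (1 / Real.sqrt M : ℝ) • ξ) b0) j) atTop (𝓝 (∏ j ∈ Bv, 1)) := by
      refine tendsto_finsetProd _ fun j hj => ?_
      rw [tendsto_iff_norm_sub_tendsto_zero]
      have h4 : Tendsto (fun M : ℕ => Ck j * Real.exp (-(2 * Real.pi * (M * b0 j)))) atTop
          (𝓝 0) := by
        have h5 : Tendsto (fun M : ℕ => 2 * Real.pi * ((M : ℝ) * b0 j)) atTop atTop :=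
          (tendsto_natCast_atTop_atTop.atTop_mul_const (hbpos j hj)).const_mul_atTop
            (by positivity)
        have h6 := (Real.tendsto_exp_neg_atTop_nhds_zero.comp h5).const_mul (Ck j)
        simpa only [Function.comp_def, mul_zero] using h6
      refine squeeze_zero' (Eventually.of_forall fun M => norm_nonneg _) ?_ h4
      filter_upwards [eventually_ge_atTop 1] with M hM1
      exact hf2 M hM1 _ j hj
    have h4 := h1.mul (h2.mul h3)
    rw [Finset.prod_const_one, mul_one, one_mul] at h4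
    exact h4

end Pool.Agent.H63.GO
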