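import Pool.Agent.H63.GO.KernInt

/-! # The side groups of modes: integration by parts -/

namespace Pool.Agent.H63.GO

open Complex Filter Topology MeasureTheory
open scoped BigOperators

/-- The bound for the product of the kernels. -/
theorem MSideA_krp_le {ι : Type} [Fintype ι] [DecidableEq ι] (σ : ι → SignType) (b : ι → ℝ)
    (hb : ∀ i, σ i ≠ 0 → 0 < sgn (σ i) * b i) :
    ∃ C : ℝ, 0 < C ∧ ∀ (M : ℕ) (o a : ι → ℝ), 1 ≤ M →
      ‖krp 0 M o σ (cp a b)‖ ≤ C * Real.exp (-(2 * Real.pi * M * nb σ b)) := by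
  have h1 : ∀ i, ∃ C : ℝ, 0 < C ∧ ∀ (M : ℕ) (o a : ι → ℝ), 1 ≤ M →
      ‖kr 0 (σ i) (M * cp a b i - o i)‖ ≤
        C * Real.exp (-(2 * Real.pi * M * (|sgn (σ i)| * |b i|))) := by
    intro i
    by_cases hi : σ i = 0
    · refine ⟨1, one_pos, fun M o a _ => ?_⟩
      have h0 : |sgn (σ i)| = 0 := by simp [hi, sgn]
      rw [h0, zero_mul, mul_zero, neg_zero, Real.exp_zero, mul_one, hi]
      simp [kr]
    · obtain ⟨C, hC, hk⟩ := kap_norm_le (sgn (σ i) * b i) (hb i hi)
      refine ⟨C, hC, fun M o a hM => ?_⟩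
      have hM1 : (1 : ℝ) ≤ M := by exact_mod_cast hM
      have him : ((sgn (σ i) : ℂ) * (M * cp a b i - o i) + ((0 : ℝ) : ℂ) * I).im =
          M * (sgn (σ i) * b i) := by
        simp [cp]
        ring
      have hge : sgn (σ i) * b i ≤
          ((sgn (σ i) : ℂ) * (M * cp a b i - o i) + ((0 : ℝ) : ℂ) * I).im := by
        rw [him]
        nlinarith [hb i hi]
      have h2 := (hk _ hge).1
      rw [him] at h2
      have h3 : kr 0 (σ i) (M * cp a b i - o i) =
          kap ((sgn (σ i) : ℂ) * (M * cp a b i - o i) + ((0 : ℝ) : ℂ) * I) := by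
        rw [kr, if_neg hi]
      rw [h3]
      refine h2.trans (le_of_eq ?_)
      have h4 : |sgn (σ i)| * |b i| = sgn (σ i) * b i := by
        rw [← abs_mul, abs_of_pos (hb i hi)]
      rw [h4]
      ring_nf
  choose C hC hk using h1
  refine ⟨∏ i, C i, Finset.prod_pos fun i _ => hC i, fun M o a hM => ?_⟩
  rw [krp, norm_prod]
  refine (Finset.prod_le_prod (fun i _ => norm_nonneg _) fun i _ => hk i M o a hM).trans
    (le_of_eq ?_)
  rw [Finset.prod_mul_distrib, ← Real.exp_sum]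
  congr 2
  rw [nb, Finset.sum_neg_distrib, ← Finset.mul_sum]

/-- Continuity of the product of the kernels on the shifted domain. -/
theorem MSideA_krp_cont {ι : Type} [Fintype ι] [DecidableEq ι] (σ : ι → SignType) (b : ι → ℝ)
    (hb : ∀ i, σ i ≠ 0 → 0 < sgn (σ i) * b i) (M : ℕ) (o : ι → ℝ) (hM : 1 ≤ M) :
    Continuous fun a : ι → ℝ => krp 0 M o σ (cp a b) := by
  unfold krp
  refine continuous_finsetProd _ fun i _ => ?_
  by_cases hi : σ i = 0
  · have h0 : (fun a : ι → ℝ => kr 0 (σ i) (M * cp a b i - o i)) = fun _ => 1 := by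
      funext a
      simp [kr, hi]
    rw [h0]
    exact continuous_const
  · have hM1 : (1 : ℝ) ≤ M := by exact_mod_cast hM
    have h3 : (fun a : ι → ℝ => kr 0 (σ i) (M * cp a b i - o i)) =
        fun a : ι → ℝ => kap ((sgn (σ i) : ℂ) * (M * ((a i : ℂ) + (b i : ℂ) * I) - o i) +
          ((0 : ℝ) : ℂ) * I) := by
      funext a
      rw [kr, if_neg hi]
      rfl
    rw [h3, continuous_iff_continuousAt]
    intro a
    have him : ((sgn (σ i) : ℂ) * (M * ((a i : ℂ) + (b i : ℂ) * I) - o i) +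
          ((0 : ℝ) : ℂ) * I).im = M * (sgn (σ i) * b i) := by
      simp
      ring
    have hpos : 0 < ((sgn (σ i) : ℂ) * (M * ((a i : ℂ) + (b i : ℂ) * I) - o i) +
          ((0 : ℝ) : ℂ) * I).im := by
      rw [him]
      exact mul_pos (by linarith) (hb i hi)
    refine ContinuousAt.comp (f := fun a : ι → ℝ => (sgn (σ i) : ℂ) *
      (M * ((a i : ℂ) + (b i : ℂ) * I) - o i) + ((0 : ℝ) : ℂ) * I)
      (kap_differentiableAt _ hpos).continuousAt ?_
    have hc : Continuous fun a : ι → ℝ => (a i : ℂ) :=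
      Complex.continuous_ofReal.comp (continuous_apply i)
    exact (((continuous_const.mul ((continuous_const.mul
      (hc.add continuous_const)).sub continuous_const)).add continuous_const)).continuousAt

/-- The product of the kernels does not depend on a coordinate without mode. -/
theorem MSideA_krp_line {ι : Type} [Fintype ι] [DecidableEq ι] (σ : ι → SignType) (M : ℕ)
    (o : ι → ℝ) (z : ι → ℂ) (j : ι) (hj : σ j = 0) (w : ℂ) :
    krp 0 M o σ (z + w • (Pi.single j 1 : ι → ℂ)) = krp 0 M o σ z := by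
  unfold krp
  refine Finset.prod_congr rfl fun i _ => ?_
  by_cases hi : i = j
  · subst hi
    simp [kr, hj]
  · rw [Pi.add_apply, Pi.smul_apply, Pi.single_eq_of_ne hi, smul_zero, add_zero]

theorem MSideA_cp_line {ι : Type} [DecidableEq ι] (a b : ι → ℝ) (j : ι) (t : ℝ) :
    cp (a + t • (Pi.single j 1 : ι → ℝ)) b = cp a b + (t : ℂ) • (Pi.single j 1 : ι → ℂ) := by
  funext i
  by_cases hi : i = j
  · subst hi
    simp [cp]
    ring
  · simp [cp, Pi.single_eq_of_ne hi]

theorem MSideA_cp_cont {ι : Type} (b : ι → ℝ) : Continuous fun a : ι → ℝ => cp a b := by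
  unfold cp
  exact continuous_pi fun i => (Complex.continuous_ofReal.comp (continuous_apply i)).add
    continuous_const

/-- Groups with `σ j = 0` for a coordinate `j ∈ Bv`: integration by parts. -/
theorem side_zero {ι : Type} [Fintype ι] [DecidableEq ι] {Bv : Finset ι} {U : Set (ι → ℂ)}
    {V0 : (ι → ℂ) → ℂ} {χ : (ι → ℝ) → ℝ} {b : (ι → SignType) → ι → ℝ} {ac : ι → ℝ} {m δ c : ℝ}
    (hM : MData Bv U V0 χ b ac m δ c) {Φ : ℕ → (ι → ℂ) → ℂ} {Ψ : ι → ℕ → (ι → ℂ) → ℂ}
    {o : ℕ → ι → ℝ} {e : ℝ} (hA : AData Bv U V0 Φ Ψ o e) (σ : ι → SignType)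
    (hσ : ∃ j ∈ Bv, σ j = 0) :
    ∃ C : ℝ, 0 < C ∧ ∀ᶠ M : ℕ in atTop,
      ‖∫ a : ι → ℝ, (χ a : ℂ) * (Φ M (cp a (b σ)) * krp 0 M (o M) σ (cp a (b σ)))‖ ≤
        C * (M : ℝ) ^ e * Real.exp (M * (m - δ)) := by
  obtain ⟨j, hjB, hj⟩ := hσ
  have hbp := hM.b_pos σ
  obtain ⟨CK, hCK, hK⟩ := MSideA_krp_le σ (b σ) (fun i hi => hbp i hi)
  obtain ⟨CA, hCA, hbd⟩ := hA.bound
  have hsupp1 : ∀ a ∈ tsupport χ, cp a (b σ) ∈ U := fun a ha => by
    have h1 := hM.sub σ a ha 1 ⟨zero_le_one, le_rfl⟩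
    rwa [one_smul] at h1
  have hχd : ∀ a, HasFDerivAt χ (fderiv ℝ χ a) a := fun a =>
    (hM.χ_smooth.differentiable one_ne_zero a).hasFDerivAt
  have hdc : Continuous fun a => fderiv ℝ χ a (Pi.single j 1) :=
    (hM.χ_smooth.continuous_fderiv one_ne_zero).clm_apply continuous_const
  have hdsupp : HasCompactSupport fun a => fderiv ℝ χ a (Pi.single j 1) :=
    hM.χ_supp.fderiv_apply (𝕜 := ℝ) (Pi.single j 1)
  -- a bound for the derivative of the cutoff function
  obtain ⟨D, hD⟩ := hdsupp.exists_bound_of_continuous hdc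
  have hD0 : 0 ≤ D := (norm_nonneg _).trans (hD 0)
  have hvol : volume (tsupport χ) < ⊤ := hM.χ_supp.measure_lt_top
  set v : ℝ := (volume (tsupport χ)).toReal with hv
  have hv0 : 0 ≤ v := ENNReal.toReal_nonneg
  refine ⟨D * CA * CK * v + 1, by positivity, ?_⟩
  filter_upwards [hA.prim j hjB, hA.an, hbd, eventually_ge_atTop 1] with M hprim han hbdM hM1
  obtain ⟨hΨan, hΨ⟩ := hprim
  set g : (ι → ℝ) → ℂ := fun a => Ψ j M (cp a (b σ)) * krp 0 M (o M) σ (cp a (b σ)) with hg
  set g' : (ι → ℝ) → ℂ := fun a => Φ M (cp a (b σ)) * krp 0 M (o M) σ (cp a (b σ)) with hg'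
  have hKc := MSideA_krp_cont σ (b σ) (fun i hi => hbp i hi) M (o M) hM1
  have hcpc := MSideA_cp_cont (b σ)
  have hgc : ∀ a ∈ tsupport χ, ContinuousAt g a := fun a ha => by
    refine ContinuousAt.mul ?_ hKc.continuousAt
    exact ContinuousAt.comp (f := fun a : ι → ℝ => cp a (b σ))
      (hΨan _ (hsupp1 a ha)).continuousAt hcpc.continuousAt
  have hg'c : ∀ a ∈ tsupport χ, ContinuousAt g' a := fun a ha => by
    refine ContinuousAt.mul ?_ hKc.continuousAt
    exact ContinuousAt.comp (f := fun a : ι → ℝ => cp a (b σ))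
      (han _ (hsupp1 a ha)).continuousAt hcpc.continuousAt
  -- the line derivatives
  have hline : ∀ a ∈ tsupport χ, HasLineDerivAt ℝ g (g' a) a (Pi.single j 1) := by
    intro a ha
    have hU := hsupp1 a ha
    have h1 : HasFDerivAt (Ψ j M) (fderiv ℂ (Ψ j M) (cp a (b σ))) (cp a (b σ)) :=
      (hΨan _ hU).differentiableAt.hasFDerivAt
    have h2 : HasDerivAt (fun t : ℝ => cp a (b σ) + (t : ℂ) • (Pi.single j 1 : ι → ℂ))
        (Pi.single j 1 : ι → ℂ) 0 := by
      have h3 : HasDerivAt (fun t : ℝ => (t : ℂ)) 1 0 := Complex.ofRealCLM.hasDerivAt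
      have h4 := (h3.smul_const (Pi.single j 1 : ι → ℂ)).const_add (cp a (b σ))
      rwa [one_smul] at h4
    have h5 : HasDerivAt (fun t : ℝ => Ψ j M (cp a (b σ) + (t : ℂ) • (Pi.single j 1 : ι → ℂ)))
        (fderiv ℂ (Ψ j M) (cp a (b σ)) (Pi.single j 1)) 0 := by
      have h6 : HasFDerivAt (Ψ j M) ((fderiv ℂ (Ψ j M) (cp a (b σ))).restrictScalars ℝ)
          (cp a (b σ) + ((0 : ℝ) : ℂ) • (Pi.single j 1 : ι → ℂ)) := by
        rw [Complex.ofReal_zero, zero_smul, add_zero]
        exact h1.restrictScalars ℝ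
      exact h6.comp_hasDerivAt (0 : ℝ) h2
    rw [hΨ _ hU] at h5
    have h7 := h5.mul_const (krp 0 M (o M) σ (cp a (b σ)))
    have h8 : (fun t : ℝ => g (a + t • (Pi.single j 1 : ι → ℝ))) =
        fun t : ℝ => Ψ j M (cp a (b σ) + (t : ℂ) • (Pi.single j 1 : ι → ℂ)) *
          krp 0 M (o M) σ (cp a (b σ)) := by
      funext t
      simp only [hg]
      rw [MSideA_cp_line, MSideA_krp_line σ M (o M) _ j hj]
    unfold HasLineDerivAt
    rw [h8]
    exact h7
  have hχline : ∀ a, HasLineDerivAt ℝ (fun a => (χ a : ℂ))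
      ((fderiv ℝ χ a (Pi.single j 1) : ℝ) : ℂ) a (Pi.single j 1) := by
    intro a
    have h1 := (hχd a).hasLineDerivAt (Pi.single j 1)
    unfold HasLineDerivAt at h1 ⊢
    exact h1.ofReal_comp
  have htsχ : tsupport (fun a => (χ a : ℂ)) ⊆ tsupport χ := by
    refine closure_mono fun a ha => ?_
    simpa using ha
  have hint : ∀ (F : (ι → ℝ) → ℂ) (φ : (ι → ℝ) → ℝ), Continuous φ →
      tsupport φ ⊆ tsupport χ → (∀ a ∈ tsupport χ, ContinuousAt F a) →
      Integrable (fun a => (φ a : ℂ) * F a) := by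
    intro F φ hφ hφs hF
    have hsub : tsupport (fun a => (φ a : ℂ) * F a) ⊆ tsupport φ := by
      refine closure_mono fun a ha => ?_
      rw [Function.mem_support] at ha ⊢
      intro h0
      exact ha (by rw [h0, Complex.ofReal_zero, zero_mul])
    refine Continuous.integrable_of_hasCompactSupport ?_ ?_
    · refine continuous_of_tsupport fun a ha => ?_
      exact (Complex.continuous_ofReal.comp hφ).continuousAt.mul (hF a (hφs (hsub ha)))
    · exact IsCompact.of_isClosed_subset hM.χ_supp (isClosed_tsupport _) (hsub.trans hφs)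
  have hds : tsupport (fun a => fderiv ℝ χ a (Pi.single j 1)) ⊆ tsupport χ :=
    tsupport_fderiv_apply_subset ℝ (Pi.single j 1)
  have hibp := integral_bilinear_hasLineDerivAt_right_eq_neg_left_of_integrable
    (μ := (volume : Measure (ι → ℝ))) (f := fun a => (χ a : ℂ))
    (f' := fun a => ((fderiv ℝ χ a (Pi.single j 1) : ℝ) : ℂ)) (g := g) (g' := g')
    (v := Pi.single j 1) (B := ContinuousLinearMap.mul ℝ ℂ)
    (hint g _ hdc hds hgc) (hint g' χ hM.χ_smooth.continuous subset_rfl hg'c)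
    (hint g χ hM.χ_smooth.continuous subset_rfl hgc) (fun a _ => hχline a)
    (fun a ha => hline a (htsχ ha))
  simp only [ContinuousLinearMap.mul_apply'] at hibp
  rw [hibp, norm_neg]
  -- the bound
  set E : ℝ := (M : ℝ) ^ e * Real.exp (M * (m - δ)) with hE
  have hE0 : 0 ≤ E := by positivity
  have hpt : ∀ a, ‖((fderiv ℝ χ a (Pi.single j 1) : ℝ) : ℂ) * g a‖ ≤
      (tsupport χ).indicator (fun _ => D * CA * CK * E) a := by
    intro a
    by_cases h0 : fderiv ℝ χ a = 0
    · rw [h0]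
      have h1 : ‖(((0 : (ι → ℝ) →L[ℝ] ℝ) (Pi.single j 1) : ℝ) : ℂ) * g a‖ = 0 := by simp
      rw [h1]
      exact Set.indicator_nonneg (fun _ _ => by positivity) a
    · have ha : a ∈ tsupport χ := by
        by_contra hna
        exact h0 (image_eq_zero_of_notMem_tsupport fun h => hna (tsupport_fderiv_subset ℝ h))
      rw [Set.indicator_of_mem ha, norm_mul, hg, norm_mul]
      have h1 : ‖((fderiv ℝ χ a (Pi.single j 1) : ℝ) : ℂ)‖ ≤ D := by
        rw [Complex.norm_real]
        exact hD a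
      have h2 := (hbdM _ (hsupp1 a ha)).2 j hjB
      have h3 := hK M (o M) a hM1
      have h4 := hM.grad σ a h0 1 ⟨zero_le_one, le_rfl⟩
      rw [one_smul, mul_one] at h4
      have h5 : Real.exp (M * (V0 (cp a (b σ))).re) *
          Real.exp (-(2 * Real.pi * M * nb σ (b σ))) ≤ Real.exp (M * (m - δ)) := by
        rw [← Real.exp_add]
        refine Real.exp_le_exp.2 ?_
        have h6 : (0 : ℝ) ≤ M := Nat.cast_nonneg M
        have h7 := mul_le_mul_of_nonneg_left h4 h6
        linarith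
      calc ‖((fderiv ℝ χ a (Pi.single j 1) : ℝ) : ℂ)‖ *
            (‖Ψ j M (cp a (b σ))‖ * ‖krp 0 M (o M) σ (cp a (b σ))‖)
          ≤ D * ((CA * (M : ℝ) ^ e * Real.exp (M * (V0 (cp a (b σ))).re)) *
            (CK * Real.exp (-(2 * Real.pi * M * nb σ (b σ))))) := by gcongr
        _ = D * CA * CK * (M : ℝ) ^ e * (Real.exp (M * (V0 (cp a (b σ))).re) *
            Real.exp (-(2 * Real.pi * M * nb σ (b σ)))) := by ring
        _ ≤ D * CA * CK * (M : ℝ) ^ e * Real.exp (M * (m - δ)) := by gcongr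
        _ = D * CA * CK * E := by rw [hE]; ring
  have hmeas : MeasurableSet (tsupport χ) := (isClosed_tsupport χ).measurableSet
  have hindint : Integrable ((tsupport χ).indicator fun _ : ι → ℝ => D * CA * CK * E) :=
    (integrable_indicator_iff hmeas).2 (integrableOn_const hvol.ne)
  calc ‖∫ a, ((fderiv ℝ χ a (Pi.single j 1) : ℝ) : ℂ) * g a‖
      ≤ ∫ a, (tsupport χ).indicator (fun _ => D * CA * CK * E) a :=
        norm_integral_le_of_norm_le hindint (Eventually.of_forall hpt)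
    _ = v * (D * CA * CK * E) := by
        rw [integral_indicator hmeas, setIntegral_const, smul_eq_mul, hv, Measure.real]
    _ ≤ (D * CA * CK * v + 1) * E := by nlinarith
    _ = (D * CA * CK * v + 1) * (M : ℝ) ^ e * Real.exp (M * (m - δ)) := by rw [hE]; ring

end Pool.Agent.H63.GO
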