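import Pool.Agent.H63.GO.KernInt

/-! # The side groups of modes: flipped modes and mirror images -/

namespace Pool.Agent.H63.GO

open Complex Filter Topology MeasureTheory
open scoped BigOperators

/-- The sign of a nonzero sign type is `1` or `-1`. -/
private theorem MSideB_sgn_cases (τ : SignType) :
    (τ = 0 ∧ sgn τ = 0) ∨ (τ = 1 ∧ sgn τ = 1) ∨ (τ = -1 ∧ sgn τ = -1) := by
  rcases τ with _ | _ | _
  · left; exact ⟨rfl, by simp [sgn]⟩
  · right; right; exact ⟨rfl, by simp [sgn]⟩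
  · right; left; exact ⟨rfl, by simp [sgn]⟩

/-- One kernel without regularization. -/
private theorem MSideB_kr_le (τ : SignType) (b : ℝ) (hb : τ ≠ 0 → 0 < sgn τ * b) :
    ∃ C : ℝ, 0 < C ∧ ∀ (M : ℕ) (a o : ℝ), 1 ≤ M →
      ‖kr 0 τ ((M : ℂ) * ((a : ℂ) + (b : ℂ) * I) - (o : ℂ))‖ ≤
        C * Real.exp (-(2 * Real.pi * M * (|sgn τ| * |b|))) := by
  by_cases hτ : τ = 0
  · refine ⟨1, one_pos, fun M a o _ => ?_⟩
    subst hτ
    simp [kr, sgn]
  · have hc := hb hτ
    obtain ⟨C, hC, h⟩ := kap_norm_le (sgn τ * b) hc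
    refine ⟨C, hC, fun M a o hM => ?_⟩
    have hM' : (1 : ℝ) ≤ M := by exact_mod_cast hM
    have him : ((sgn τ : ℂ) * ((M : ℂ) * ((a : ℂ) + (b : ℂ) * I) - (o : ℂ)) +
        ((0 : ℝ) : ℂ) * I).im = M * (sgn τ * b) := by
      simp
      ring
    have habs : |sgn τ| * |b| = sgn τ * b := by
      rw [← abs_mul, abs_of_pos hc]
    have h1 := (h ((sgn τ : ℂ) * ((M : ℂ) * ((a : ℂ) + (b : ℂ) * I) - (o : ℂ)) +
        ((0 : ℝ) : ℂ) * I) (by rw [him]; nlinarith)).1
    rw [him] at h1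
    rw [kr, if_neg hτ, habs]
    have h2 : 2 * Real.pi * (M * (sgn τ * b)) = 2 * Real.pi * M * (sgn τ * b) := by ring
    rw [h2] at h1
    exact h1

/-- The product of the kernels without regularization. -/
private theorem MSideB_krp_le {ι : Type} [Fintype ι] (σ : ι → SignType) (b : ι → ℝ)
    (hb : ∀ j, σ j ≠ 0 → 0 < sgn (σ j) * b j) :
    ∃ C : ℝ, 0 < C ∧ ∀ (M : ℕ) (o a : ι → ℝ), 1 ≤ M →
      ‖krp 0 M o σ (cp a b)‖ ≤ C * Real.exp (-(2 * Real.pi * M * nb σ b)) := by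
  have h : ∀ j, ∃ C : ℝ, 0 < C ∧ ∀ (M : ℕ) (a o : ℝ), 1 ≤ M →
      ‖kr 0 (σ j) ((M : ℂ) * ((a : ℂ) + (b j : ℂ) * I) - (o : ℂ))‖ ≤
        C * Real.exp (-(2 * Real.pi * M * (|sgn (σ j)| * |b j|))) :=
    fun j => MSideB_kr_le (σ j) (b j) (hb j)
  choose C hC h using h
  refine ⟨∏ j, C j, Finset.prod_pos fun j _ => hC j, fun M o a hM => ?_⟩
  have h1 : ‖krp 0 M o σ (cp a b)‖ ≤
      ∏ j, (C j * Real.exp (-(2 * Real.pi * M * (|sgn (σ j)| * |b j|)))) := by
    rw [krp, norm_prod]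
    exact Finset.prod_le_prod (fun j _ => norm_nonneg _) fun j _ => h j M (a j) (o j) hM
  refine h1.trans (le_of_eq ?_)
  rw [Finset.prod_mul_distrib, ← Real.exp_sum]
  congr 2
  rw [nb, Finset.mul_sum, ← Finset.sum_neg_distrib]

/-- Groups with `σ j ≠ 0` for all `j ∈ Bv` and for a `j ∉ Bv`. -/
theorem side_flip {ι : Type} [Fintype ι] [DecidableEq ι] {Bv : Finset ι} {U : Set (ι → ℂ)}
    {V0 : (ι → ℂ) → ℂ} {χ : (ι → ℝ) → ℝ} {b : (ι → SignType) → ι → ℝ} {ac : ι → ℝ} {m δ c : ℝ}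
    (hM : MData Bv U V0 χ b ac m δ c) {Φ : ℕ → (ι → ℂ) → ℂ} {Ψ : ι → ℕ → (ι → ℂ) → ℂ}
    {o : ℕ → ι → ℝ} {e : ℝ} (hA : AData Bv U V0 Φ Ψ o e) (σ : ι → SignType)
    (hσ : ∀ j ∈ Bv, σ j ≠ 0) (hσ' : ∃ j, j ∉ Bv ∧ σ j ≠ 0) :
    ∃ C : ℝ, 0 < C ∧ ∀ᶠ M : ℕ in atTop,
      ‖∫ a : ι → ℝ, (χ a : ℂ) * (Φ M (cp a (b σ)) * krp 0 M (o M) σ (cp a (b σ)))‖ ≤
        C * (M : ℝ) ^ e * Real.exp (M * (m - δ)) := by
  obtain ⟨C1, hC1, h1⟩ := hA.bound
  obtain ⟨C2, hC2, h2⟩ := MSideB_krp_le σ (b σ) (hM.b_pos σ)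
  refine ⟨C1 * C2 * ((volume : Measure (ι → ℝ)).real (tsupport χ) + 1),
    mul_pos (mul_pos hC1 hC2) (by positivity), ?_⟩
  filter_upwards [h1, eventually_ge_atTop 1] with M hb hM1
  have hfin : (volume : Measure (ι → ℝ)) (tsupport χ) < ⊤ := hM.χ_supp.isCompact.measure_lt_top
  have h0 : ∀ a : ι → ℝ, a ∉ tsupport χ →
      (χ a : ℂ) * (Φ M (cp a (b σ)) * krp 0 M (o M) σ (cp a (b σ))) = 0 := by
    intro a ha
    rw [image_eq_zero_of_notMem_tsupport ha]
    simp
  rw [← setIntegral_eq_integral_of_forall_compl_eq_zero h0]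
  have hMe : (0 : ℝ) ≤ (M : ℝ) ^ e := Real.rpow_nonneg (Nat.cast_nonneg M) e
  have hbd : ∀ a ∈ tsupport χ,
      ‖(χ a : ℂ) * (Φ M (cp a (b σ)) * krp 0 M (o M) σ (cp a (b σ)))‖ ≤
        C1 * C2 * (M : ℝ) ^ e * Real.exp (M * (m - δ)) := by
    intro a ha
    have hU : cp a (b σ) ∈ U := by
      have := hM.sub σ a ha 1 ⟨zero_le_one, le_refl 1⟩
      rwa [one_smul] at this
    have e1 := (hb _ hU).1
    have e2 := h2 M (o M) a hM1
    have e3 := hM.flip σ hσ hσ' a ha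
    have e4 : ‖(χ a : ℂ)‖ ≤ 1 := by
      rw [Complex.norm_real, Real.norm_eq_abs, abs_of_nonneg (hM.χ_nonneg a)]
      exact hM.χ_le a
    have e5 : ‖Φ M (cp a (b σ)) * krp 0 M (o M) σ (cp a (b σ))‖ ≤
        C1 * (M : ℝ) ^ e * Real.exp (M * (V0 (cp a (b σ))).re) *
          (C2 * Real.exp (-(2 * Real.pi * M * nb σ (b σ)))) := by
      rw [norm_mul]
      exact mul_le_mul e1 e2 (norm_nonneg _) (by positivity)
    have e6 : C1 * (M : ℝ) ^ e * Real.exp (M * (V0 (cp a (b σ))).re) *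
          (C2 * Real.exp (-(2 * Real.pi * M * nb σ (b σ)))) =
        C1 * C2 * (M : ℝ) ^ e *
          Real.exp (M * ((V0 (cp a (b σ))).re - 2 * Real.pi * nb σ (b σ))) := by
      have : (M : ℝ) * ((V0 (cp a (b σ))).re - 2 * Real.pi * nb σ (b σ)) =
          M * (V0 (cp a (b σ))).re + -(2 * Real.pi * M * nb σ (b σ)) := by ring
      rw [this, Real.exp_add]
      ring
    calc ‖(χ a : ℂ) * (Φ M (cp a (b σ)) * krp 0 M (o M) σ (cp a (b σ)))‖
        = ‖(χ a : ℂ)‖ * ‖Φ M (cp a (b σ)) * krp 0 M (o M) σ (cp a (b σ))‖ := norm_mul _ _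
      _ ≤ 1 * (C1 * C2 * (M : ℝ) ^ e *
          Real.exp (M * ((V0 (cp a (b σ))).re - 2 * Real.pi * nb σ (b σ)))) :=
        mul_le_mul e4 (e5.trans (le_of_eq e6)) (norm_nonneg _) zero_le_one
      _ ≤ C1 * C2 * (M : ℝ) ^ e * Real.exp (M * (m - δ)) := by
        rw [one_mul]
        refine mul_le_mul_of_nonneg_left (Real.exp_le_exp.mpr ?_) (by positivity)
        exact mul_le_mul_of_nonneg_left e3 (Nat.cast_nonneg M)
  refine (norm_setIntegral_le_of_norm_le_const hfin hbd).trans ?_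
  have hv : 0 ≤ (volume : Measure (ι → ℝ)).real (tsupport χ) := measureReal_nonneg
  have hp : 0 ≤ C1 * C2 * (M : ℝ) ^ e * Real.exp (M * (m - δ)) := by positivity
  nlinarith

/-- Evenness in all coordinates of a set. -/
private theorem MSideB_flip_set {ι α β : Type} [DecidableEq ι] [Neg α] (P : (ι → α) → Prop)
    (f : (ι → α) → β) (Bv : Finset ι)
    (h : ∀ z, P z → ∀ j ∈ Bv, P (Function.update z j (-z j)) ∧
      f (Function.update z j (-z j)) = f z) (T : Finset ι) :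
    T ⊆ Bv → ∀ z, P z → P (fun j => if j ∈ T then -z j else z j) ∧
      f (fun j => if j ∈ T then -z j else z j) = f z := by
  induction T using Finset.induction_on with
  | empty =>
    intro _ z hz
    simpa using hz
  | insert i T hi ih =>
    intro hT z hz
    obtain ⟨h1, h2⟩ := ih ((Finset.subset_insert i T).trans hT) z hz
    obtain ⟨h3, h4⟩ := h _ h1 i (hT (Finset.mem_insert_self i T))
    have he : Function.update (fun j => if j ∈ T then -z j else z j) i
        (-(fun j => if j ∈ T then -z j else z j) i) =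
        fun j => if j ∈ insert i T then -z j else z j := by
      funext j
      by_cases hj : j = i
      · subst hj
        simp [hi]
      · simp [Finset.mem_insert, hj]
    rw [he] at h3 h4
    exact ⟨h3, h4.trans h2⟩

/-- `kap` has period one. -/
private theorem MSideB_kap_add_int (z : ℂ) (k : ℤ) : kap (z + k) = kap z := by
  have : exp (2 * Real.pi * I * (z + k)) = exp (2 * Real.pi * I * z) := by
    have h : 2 * (Real.pi : ℂ) * I * (z + k) = 2 * Real.pi * I * z + k * (2 * Real.pi * I) := by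
      ring
    rw [h, Complex.exp_add, Complex.exp_int_mul_two_pi_mul_I, mul_one]
  rw [kap, kap, this]

/-- The change of variables `a j → -a j` for `j ∈ T`. -/
private theorem MSideB_integral_flip {ι : Type} [Fintype ι] [DecidableEq ι] (T : Finset ι)
    (F : (ι → ℝ) → ℂ) :
    ∫ a : ι → ℝ, F (fun j => if j ∈ T then -a j else a j) = ∫ a : ι → ℝ, F a := by
  let ej : ι → (ℝ ≃ᵐ ℝ) := fun j => if j ∈ T then MeasurableEquiv.neg ℝ else MeasurableEquiv.refl ℝ
  have hej : ∀ j (x : ℝ), ej j x = if j ∈ T then -x else x := by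
    intro j x
    by_cases hj : j ∈ T
    · simp [ej, hj]
    · simp [ej, hj]
  have hmp : ∀ j, MeasurePreserving (ej j) (volume : Measure ℝ) volume := by
    intro j
    by_cases hj : j ∈ T
    · have : (ej j : ℝ → ℝ) = Neg.neg := by
        funext x
        rw [hej, if_pos hj]
      rw [this]
      exact Measure.measurePreserving_neg volume
    · have : (ej j : ℝ → ℝ) = id := by
        funext x
        rw [hej, if_neg hj]
        rfl
      rw [this]
      exact MeasurePreserving.id volume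
  have hpi := volume_preserving_pi hmp
  have heq : (fun (a : ι → ℝ) (i : ι) => ej i (a i)) = MeasurableEquiv.piCongrRight ej := by
    rfl
  have hpi' : MeasurePreserving (MeasurableEquiv.piCongrRight ej) (volume : Measure (ι → ℝ))
      volume := by
    rw [← heq]
    exact hpi
  have h := hpi'.integral_comp' F
  rw [← h]
  refine integral_congr_ae (ae_of_all _ fun a => ?_)
  show F (fun j => if j ∈ T then -a j else a j) = F (fun i => ej i (a i))
  congr 1
  funext j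
  rw [hej]

/-- The main groups give the same contribution. -/
theorem side_mirror {ι : Type} [Fintype ι] [DecidableEq ι] {Bv : Finset ι} {U : Set (ι → ℂ)}
    {V0 : (ι → ℂ) → ℂ} {χ : (ι → ℝ) → ℝ} {b : (ι → SignType) → ι → ℝ} {ac : ι → ℝ} {m δ c : ℝ}
    (hM : MData Bv U V0 χ b ac m δ c) {Φ : ℕ → (ι → ℂ) → ℂ} {Ψ : ι → ℕ → (ι → ℂ) → ℂ}
    {o : ℕ → ι → ℝ} {e : ℝ} (hA : AData Bv U V0 Φ Ψ o e) (σ : ι → SignType)
    (hσ : ∀ j ∈ Bv, σ j ≠ 0) (hσ' : ∀ j, j ∉ Bv → σ j = 0) :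
    ∀ᶠ M : ℕ in atTop,
      (∫ a : ι → ℝ, (χ a : ℂ) * (Φ M (cp a (b σ)) * krp 0 M (o M) σ (cp a (b σ)))) =
      ∫ a : ι → ℝ, (χ a : ℂ) *
        (Φ M (cp a (b (sg0 Bv))) * krp 0 M (o M) (sg0 Bv) (cp a (b (sg0 Bv)))) := by
  filter_upwards [hA.even] with M hev
  set T : Finset ι := Bv.filter (fun j => σ j = -1) with hT
  have hTB : T ⊆ Bv := Finset.filter_subset _ _
  rw [← MSideB_integral_flip T]
  refine integral_congr_ae (ae_of_all _ fun a => ?_)
  show (χ (fun j => if j ∈ T then -a j else a j) : ℂ) *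
      (Φ M (cp (fun j => if j ∈ T then -a j else a j) (b σ)) *
        krp 0 M (o M) σ (cp (fun j => if j ∈ T then -a j else a j) (b σ))) =
    (χ a : ℂ) * (Φ M (cp a (b (sg0 Bv))) * krp 0 M (o M) (sg0 Bv) (cp a (b (sg0 Bv))))
  have hχ : χ (fun j => if j ∈ T then -a j else a j) = χ a :=
    (MSideB_flip_set (fun _ => True) χ Bv
      (fun z _ j hj => ⟨trivial, hM.χ_even z j hj⟩) T hTB a trivial).2
  rw [hχ]
  by_cases h0 : χ a = 0
  · rw [h0]
    simp
  have ha : a ∈ tsupport χ := subset_tsupport χ h0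
  have hU : cp a (b (sg0 Bv)) ∈ U := by
    have := hM.sub (sg0 Bv) a ha 1 ⟨zero_le_one, le_refl 1⟩
    rwa [one_smul] at this
  have hbs := hM.b_sym σ hσ hσ'
  have hz : cp (fun j => if j ∈ T then -a j else a j) (b σ) =
      fun j => if j ∈ T then -(cp a (b (sg0 Bv)) j) else cp a (b (sg0 Bv)) j := by
    funext j
    by_cases hj : j ∈ T
    · have hjB : j ∈ Bv := hTB hj
      have hs : σ j = -1 := (Finset.mem_filter.mp hj).2
      have hb : b σ j = -b (sg0 Bv) j := by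
        rw [hbs j, if_pos hjB, hs]
        simp [sgn]
      simp only [cp, if_pos hj, hb]
      push_cast
      ring
    · have hb : b σ j = b (sg0 Bv) j := by
        rw [hbs j]
        by_cases hjB : j ∈ Bv
        · rw [if_pos hjB]
          rcases MSideB_sgn_cases (σ j) with h | h | h
          · exact absurd h.1 (hσ j hjB)
          · rw [h.2, one_mul]
          · exact absurd (Finset.mem_filter.mpr ⟨hjB, h.1⟩) hj
        · rw [if_neg hjB]
      simp only [cp, if_neg hj, hb]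
  have hΦ : Φ M (cp (fun j => if j ∈ T then -a j else a j) (b σ)) =
      Φ M (cp a (b (sg0 Bv))) := by
    rw [hz]
    exact (MSideB_flip_set (fun z => z ∈ U) (Φ M) Bv hev T hTB _ hU).2
  have hk : krp 0 M (o M) σ (cp (fun j => if j ∈ T then -a j else a j) (b σ)) =
      krp 0 M (o M) (sg0 Bv) (cp a (b (sg0 Bv))) := by
    rw [hz, krp, krp]
    refine Finset.prod_congr rfl fun j _ => ?_
    by_cases hj : j ∈ T
    · have hjB : j ∈ Bv := hTB hj
      have hs : σ j = -1 := (Finset.mem_filter.mp hj).2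
      have hg : sg0 Bv j = 1 := by simp [sg0, hjB]
      obtain ⟨k, hk⟩ := hA.ofs M j hjB
      have hk' : 2 * (o M j : ℂ) = (k : ℂ) := by exact_mod_cast hk
      simp only [if_pos hj]
      rw [hs, hg, kr, kr, if_neg (by decide), if_neg (by decide)]
      have e1 : ((sgn (-1) : ℝ) : ℂ) * ((M : ℂ) * -(cp a (b (sg0 Bv)) j) - (o M j : ℂ)) +
          ((0 : ℝ) : ℂ) * I =
          (((sgn 1 : ℝ) : ℂ) * ((M : ℂ) * (cp a (b (sg0 Bv)) j) - (o M j : ℂ)) +
          ((0 : ℝ) : ℂ) * I) + (k : ℂ) := by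
        rw [← hk']
        simp [sgn]
        ring
      rw [e1, MSideB_kap_add_int]
    · simp only [if_neg hj]
      by_cases hjB : j ∈ Bv
      · have hg : sg0 Bv j = 1 := by simp [sg0, hjB]
        rcases MSideB_sgn_cases (σ j) with h | h | h
        · exact absurd h.1 (hσ j hjB)
        · rw [h.1, hg]
        · exact absurd (Finset.mem_filter.mpr ⟨hjB, h.1⟩) hj
      · have hg : sg0 Bv j = 0 := by simp [sg0, hjB]
        rw [hσ' j hjB, hg]
  rw [hΦ, hk]

end Pool.Agent.H63.GO
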