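import Pool.Agent.H63.GO.LS
import Pool.Agent.H63.GO.MLap
import Pool.Agent.H63.GO.MSideA
import Pool.Agent.H63.GO.MSideB

/-! # The abstract saddle point theorem for lattice sums -/

namespace Pool.Agent.H63.GO

open Complex Filter Topology MeasureTheory
open scoped BigOperators

/-- the normalizing factor -/
private noncomputable def Master_c {ι : Type} [Fintype ι] [DecidableEq ι] (Bv : Finset ι)
    (o : ℕ → ι → ℝ) (e : ℝ) (v : ℂ) (M : ℕ) : ℂ :=
  (∏ j ∈ Bv, exp (2 * Real.pi * I * o M j)) /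
    ((((M : ℝ) ^ (e + (Fintype.card ι : ℝ) / 2) : ℝ) : ℂ) * exp (M * v))

private theorem Master_c_norm {ι : Type} [Fintype ι] [DecidableEq ι] (Bv : Finset ι)
    (o : ℕ → ι → ℝ) (e : ℝ) (v : ℂ) (M : ℕ) (hM : 0 < M) :
    ‖Master_c Bv o e v M‖ =
      ((M : ℝ) ^ (e + (Fintype.card ι : ℝ) / 2) * Real.exp (M * v.re))⁻¹ := by
  have h0 : (0 : ℝ) < (M : ℝ) ^ (e + (Fintype.card ι : ℝ) / 2) :=
    Real.rpow_pos_of_pos (by exact_mod_cast hM) _
  unfold Master_c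
  rw [norm_div, norm_mul, norm_prod, norm_exp, Complex.norm_real, Real.norm_eq_abs,
    abs_of_pos h0]
  have h1 : ∀ j ∈ Bv, ‖exp (2 * (Real.pi : ℂ) * I * (o M j : ℂ))‖ = 1 := by
    intro j _
    rw [norm_exp]
    have : (2 * (Real.pi : ℂ) * I * (o M j : ℂ)).re = 0 := by simp
    rw [this, Real.exp_zero]
  rw [Finset.prod_congr rfl h1, Finset.prod_const_one]
  have h2 : ((M : ℂ) * v).re = M * v.re := by simp
  rw [h2, one_div]

private theorem Master_exp_tendsto (s δ : ℝ) (hδ : 0 < δ) (C : ℝ) :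
    Tendsto (fun M : ℕ => C * ((M : ℝ) ^ s * Real.exp (-δ * M))) atTop (𝓝 0) := by
  have h1 := (tendsto_rpow_mul_exp_neg_mul_atTop_nhds_zero s δ hδ).comp
    tendsto_natCast_atTop_atTop
  have h2 := h1.const_mul C
  simpa only [Function.comp_def, mul_zero] using h2

private theorem Master_side {ι : Type} [Fintype ι] [DecidableEq ι] (Bv : Finset ι)
    (o : ℕ → ι → ℝ) (e m δ : ℝ) (v : ℂ) (hv : v.re = m) (hδ : 0 < δ) (J : ℕ → ℂ) (C : ℝ)
    (h : ∀ᶠ M : ℕ in atTop, ‖J M‖ ≤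
      C * ((M : ℝ) ^ Fintype.card ι * ((M : ℝ) ^ e * Real.exp (M * (m - δ))))) :
    Tendsto (fun M : ℕ => Master_c Bv o e v M * J M) atTop (𝓝 0) := by
  refine squeeze_zero_norm' ?_ (Master_exp_tendsto ((Fintype.card ι : ℝ) / 2) δ hδ C)
  filter_upwards [h, eventually_gt_atTop 0] with M hJ hM
  have hM0 : (0 : ℝ) < M := by exact_mod_cast hM
  rw [norm_mul, Master_c_norm Bv o e v M hM, hv]
  have h1 : (0 : ℝ) < (M : ℝ) ^ (e + (Fintype.card ι : ℝ) / 2) * Real.exp (M * m) :=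
    mul_pos (Real.rpow_pos_of_pos hM0 _) (Real.exp_pos _)
  rw [inv_mul_le_iff₀ h1]
  refine hJ.trans (le_of_eq ?_)
  rw [← Real.rpow_natCast (M : ℝ) (Fintype.card ι)]
  have h2 : (M : ℝ) ^ ((Fintype.card ι : ℕ) : ℝ) * (M : ℝ) ^ e =
      (M : ℝ) ^ (e + (Fintype.card ι : ℝ) / 2) * (M : ℝ) ^ ((Fintype.card ι : ℝ) / 2) := by
    rw [← Real.rpow_add hM0, ← Real.rpow_add hM0]
    congr 1
    ring
  have h3 : Real.exp (M * (m - δ)) = Real.exp (M * m) * Real.exp (-δ * M) := by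
    rw [← Real.exp_add]
    congr 1
    ring
  calc C * ((M : ℝ) ^ ((Fintype.card ι : ℕ) : ℝ) * ((M : ℝ) ^ e * Real.exp (M * (m - δ))))
      = C * (((M : ℝ) ^ ((Fintype.card ι : ℕ) : ℝ) * (M : ℝ) ^ e) *
        Real.exp (M * (m - δ))) := by ring
    _ = _ := by
      rw [h2, h3]
      ring

theorem master {ι : Type} [Fintype ι] [DecidableEq ι] {Bv : Finset ι} {U : Set (ι → ℂ)}
    {V0 : (ι → ℂ) → ℂ} {χ : (ι → ℝ) → ℝ} {b : (ι → SignType) → ι → ℝ} {ac : ι → ℝ} {m δ c : ℝ}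
    (hM : MData Bv U V0 χ b ac m δ c) {Φ : ℕ → (ι → ℂ) → ℂ} {Ψ : ι → ℕ → (ι → ℂ) → ℂ}
    {o : ℕ → ι → ℝ} {e : ℝ} (hA : AData Bv U V0 Φ Ψ o e)
    (hL : ALim V0 Φ e (cp ac (b (sg0 Bv)))) :
    ∃ κ : ℂ, κ ≠ 0 ∧ Tendsto (fun M : ℕ => (∏ j ∈ Bv, exp (2 * Real.pi * I * o M j)) *
      (∑' k : ι → ℤ, (χ (lp M (o M) k) : ℂ) * Φ M (rc (lp M (o M) k))) /
      ((((M : ℝ) ^ (e + (Fintype.card ι : ℝ) / 2) : ℝ) : ℂ) *
        exp (M * Vm Bv V0 (cp ac (b (sg0 Bv)))))) atTop (𝓝 κ) := by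
  classical
  obtain ⟨κ, hκ, hlim⟩ := main_lap hM hA hL
  set zc : ι → ℂ := cp ac (b (sg0 Bv)) with hzc
  set v : ℂ := Vm Bv V0 zc with hv
  have hvm : v.re = m := hM.crit
  set J : (ι → SignType) → ℕ → ℂ := fun σ M =>
    ∫ a : ι → ℝ, (χ a : ℂ) * (Φ M (cp a (b σ)) * krp 0 M (o M) σ (cp a (b σ))) with hJ
  obtain ⟨C₁, hC₁, hls⟩ := ls_main χ hM.χ_smooth hM.χ_supp b hM.b_pos U hM.U_open hM.sub
  obtain ⟨C₂, hC₂, hbd⟩ := hA.bound
  -- the error term
  have herr : Tendsto (fun M : ℕ => Master_c Bv o e v M *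
      ((∑' k : ι → ℤ, (χ (lp M (o M) k) : ℂ) * Φ M (rc (lp M (o M) k))) -
        (M : ℂ) ^ Fintype.card ι * ∑ σ : ι → SignType, J σ M)) atTop (𝓝 0) := by
    refine Master_side Bv o e m δ v hvm hM.δ_pos _ (C₁ * C₂) ?_
    filter_upwards [eventually_ge_atTop 1, hA.an, hbd] with M hM1 han hb
    have hMe : (0 : ℝ) < (M : ℝ) ^ e := Real.rpow_pos_of_pos (by exact_mod_cast hM1) e
    have h1 := hls M (o M) (Φ M) (C₂ * (M : ℝ) ^ e * Real.exp (M * (m - δ))) hM1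
      (by positivity) han (by
        intro σ a ha s hs
        have h2 : a ∈ tsupport χ := support_fderiv_subset ℝ ha
        have h3 := (hb _ (hM.sub σ a h2 s hs)).1
        have h4 := hM.grad σ a ha s hs
        calc ‖Φ M (cp a (s • b σ))‖ * Real.exp (-(2 * Real.pi * M * s * nb σ (b σ)))
            ≤ (C₂ * (M : ℝ) ^ e * Real.exp (M * (V0 (cp a (s • b σ))).re)) *
              Real.exp (-(2 * Real.pi * M * s * nb σ (b σ))) :=
              mul_le_mul_of_nonneg_right h3 (Real.exp_pos _).le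
          _ = C₂ * (M : ℝ) ^ e * Real.exp (M * ((V0 (cp a (s • b σ))).re -
              2 * Real.pi * s * nb σ (b σ))) := by
              rw [mul_assoc, ← Real.exp_add]
              congr 2
              ring
          _ ≤ C₂ * (M : ℝ) ^ e * Real.exp (M * (m - δ)) := by
              refine mul_le_mul_of_nonneg_left ?_ (by positivity)
              exact Real.exp_le_exp.mpr (mul_le_mul_of_nonneg_left h4 (Nat.cast_nonneg M)))
    refine h1.trans (le_of_eq ?_)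
    ring
  -- the groups
  have hgr : ∀ σ : ι → SignType, Tendsto (fun M : ℕ => Master_c Bv o e v M *
      ((M : ℂ) ^ Fintype.card ι * J σ M)) atTop
      (𝓝 (if (∀ j ∈ Bv, σ j ≠ 0) ∧ (∀ j, j ∉ Bv → σ j = 0) then κ else 0)) := by
    intro σ
    have hside : (∃ C : ℝ, 0 < C ∧ ∀ᶠ M : ℕ in atTop,
        ‖J σ M‖ ≤ C * (M : ℝ) ^ e * Real.exp (M * (m - δ))) →
        Tendsto (fun M : ℕ => Master_c Bv o e v M *
          ((M : ℂ) ^ Fintype.card ι * J σ M)) atTop (𝓝 0) := by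
      rintro ⟨C, hC, h⟩
      refine Master_side Bv o e m δ v hvm hM.δ_pos _ C ?_
      filter_upwards [h] with M h1
      rw [norm_mul, norm_pow, Complex.norm_natCast]
      calc (M : ℝ) ^ Fintype.card ι * ‖J σ M‖
          ≤ (M : ℝ) ^ Fintype.card ι * (C * (M : ℝ) ^ e * Real.exp (M * (m - δ))) :=
            mul_le_mul_of_nonneg_left h1 (by positivity)
        _ = _ := by ring
    by_cases h1 : ∀ j ∈ Bv, σ j ≠ 0
    · by_cases h2 : ∀ j, j ∉ Bv → σ j = 0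
      · rw [if_pos ⟨h1, h2⟩]
        refine hlim.congr' ?_
        filter_upwards [side_mirror hM hA σ h1 h2, eventually_gt_atTop 0] with M h3 hM1
        have hM0 : (0 : ℝ) < M := by exact_mod_cast hM1
        have h4 : J σ M = ∫ a : ι → ℝ, (χ a : ℂ) *
          (Φ M (cp a (b (sg0 Bv))) * krp 0 M (o M) (sg0 Bv) (cp a (b (sg0 Bv)))) := h3
        rw [h4]
        have h5 : (((M : ℝ) ^ (e + (Fintype.card ι : ℝ) / 2) : ℝ) : ℂ) *
            (((M : ℝ) ^ ((Fintype.card ι : ℝ) / 2) : ℝ) : ℂ) =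
            (((M : ℝ) ^ e : ℝ) : ℂ) * (M : ℂ) ^ Fintype.card ι := by
          have h6 : (M : ℝ) ^ (e + (Fintype.card ι : ℝ) / 2) *
              (M : ℝ) ^ ((Fintype.card ι : ℝ) / 2) = (M : ℝ) ^ e * (M : ℝ) ^ Fintype.card ι := by
            rw [← Real.rpow_natCast (M : ℝ) (Fintype.card ι), ← Real.rpow_add hM0,
              ← Real.rpow_add hM0]
            congr 1
            ring
          rw [← ofReal_mul, h6, ofReal_mul, ofReal_pow, ofReal_natCast]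
        have h7 : (((M : ℝ) ^ (e + (Fintype.card ι : ℝ) / 2) : ℝ) : ℂ) ≠ 0 :=
          ofReal_ne_zero.mpr (Real.rpow_pos_of_pos hM0 _).ne'
        have h8 : (((M : ℝ) ^ e : ℝ) : ℂ) ≠ 0 :=
          ofReal_ne_zero.mpr (Real.rpow_pos_of_pos hM0 _).ne'
        have h9 : exp ((M : ℂ) * v) ≠ 0 := Complex.exp_ne_zero _
        unfold Master_c
        rw [div_mul_eq_mul_div, div_eq_div_iff (mul_ne_zero h8 h9) (mul_ne_zero h7 h9)]
        linear_combination ((∏ j ∈ Bv, exp (2 * Real.pi * I * o M j)) *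
          (∫ a : ι → ℝ, (χ a : ℂ) *
          (Φ M (cp a (b (sg0 Bv))) * krp 0 M (o M) (sg0 Bv) (cp a (b (sg0 Bv))))) *
          exp ((M : ℂ) * v)) * h5
      · rw [if_neg (fun h => h2 h.2)]
        push Not at h2
        exact hside (side_flip hM hA σ h1 h2)
    · rw [if_neg (fun h => h1 h.1)]
      push Not at h1
      exact hside (side_zero hM hA σ h1)
  have hsum := tendsto_finsetSum (Finset.univ : Finset (ι → SignType)) fun σ _ => hgr σ
  have htot := herr.add hsum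
  set S : Finset (ι → SignType) := Finset.univ.filter fun σ =>
    (∀ j ∈ Bv, σ j ≠ 0) ∧ (∀ j, j ∉ Bv → σ j = 0) with hS
  have hS0 : (S.card : ℂ) ≠ 0 := by
    refine Nat.cast_ne_zero.mpr (Finset.card_pos.mpr ⟨sg0 Bv, ?_⟩).ne'
    refine Finset.mem_filter.mpr ⟨Finset.mem_univ _, fun j hj => ?_, fun j hj => ?_⟩
    · unfold sg0
      rw [if_pos hj]
      exact one_ne_zero
    · unfold sg0
      rw [if_neg hj]
  refine ⟨(S.card : ℂ) * κ, mul_ne_zero hS0 hκ, ?_⟩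
  have h1 : (0 : ℂ) + ∑ σ : ι → SignType,
      (if (∀ j ∈ Bv, σ j ≠ 0) ∧ (∀ j, j ∉ Bv → σ j = 0) then κ else 0) = (S.card : ℂ) * κ := by
    rw [zero_add, ← Finset.sum_filter, Finset.sum_const, nsmul_eq_mul]
  rw [h1] at htot
  refine htot.congr fun M => ?_
  rw [← Finset.mul_sum, ← Finset.mul_sum, ← mul_add, sub_add_cancel]
  unfold Master_c
  rw [div_mul_eq_mul_div]

end Pool.Agent.H63.GO
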