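import Pool.Agent.H63.GO.NN2
import Pool.Agent.H63.VC3.WBound

/-! # The terms of a block with |r| = 2 -/

namespace Pool.Agent.H63.GO

open Complex Filter Topology Pool.Agent.H63.VC Pool.Agent.H63.VC3

private lemma TBlk2_half (n : ℕ) : ∃ C : ℝ, 0 < C ∧ ∀ M : ℕ, 2 ≤ M → ∀ x : ℝ, ∀ j : ℕ, j ≤ n →
    |M * Fr (x + j / (2 * M)) - M * Fr x| ≤ C * Real.log M := by
  obtain ⟨C, hC, h⟩ := Fr_shift n
  refine ⟨C, hC, fun M hM x j hj => ?_⟩
  have h1 := h (2 * M) (by omega) x j hj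
  have hM' : (2 : ℝ) ≤ M := by exact_mod_cast hM
  have hM0 : (M : ℝ) ≠ 0 := by positivity
  have hlog : Real.log ((2 * M : ℕ) : ℝ) ≤ 2 * Real.log M := by
    push_cast
    rw [Real.log_mul (by norm_num) hM0]
    have := Real.log_le_log (by norm_num : (0 : ℝ) < 2) hM'
    linarith
  have h2 : (((2 * M : ℕ) : ℝ) * Fr (x + j / ((2 * M : ℕ) : ℝ)) - ((2 * M : ℕ) : ℝ) * Fr x) =
      2 * (M * Fr (x + j / (2 * M)) - M * Fr x) := by
    push_cast
    ring
  rw [h2, abs_mul, abs_of_pos (by norm_num : (0 : ℝ) < 2)] at h1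
  have h3 : C * Real.log ((2 * M : ℕ) : ℝ) ≤ C * (2 * Real.log M) :=
    mul_le_mul_of_nonneg_left hlog hC.le
  linarith

private lemma TBlk2_norm (r : ℤ) (n M k j : ℕ) :
    ‖exp (Real.pi * I * r / 2 * ph n M k j)‖ = 1 := by
  have h : (Real.pi * I * r / 2 * ph n M k j : ℂ) =
      ((Real.pi * r / 2 * ((k : ℝ) / 2 - 2 * k + ((k : ℝ) ^ 2 / 2 + (n - 1 / 2) * k) / M +
        ((j : ℝ) * k + j ^ 2 + 2 * (n - 1) * j) / M - 2 * j) : ℝ) : ℂ) * I := by
    rw [ph]
    push_cast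
    ring
  rw [h, norm_exp_ofReal_mul_I]

private lemma TBlk2_bound (n : ℕ) : ∃ D : ℕ, ∀ M k l : ℕ, 2 ≤ M → l ≤ k → k < M →
    S M k * (S M k / (S M l * S M (k - l))) ≤ 1 * (M : ℝ) ^ D * Real.exp (M *
      (Fr ((k + bt n + 1 / 2) / M) + (Fr ((k + bt n + 1 / 2) / M) - Fr ((l + 1 / 2) / M) -
        Fr ((k + bt n + 1 / 2) / M - (l + 1 / 2) / M)))) := by
  obtain ⟨K, hK, hb⟩ := WBound_aux n
  obtain ⟨C, hC, hs⟩ := TBlk2_half (n + 1)
  obtain ⟨D, hD⟩ := exists_nat_ge (4 * K + 4 * C)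
  refine ⟨D, fun M k l hM hlk hkM => ?_⟩
  obtain ⟨h1, -⟩ := hb M hM
  have hM' : (2 : ℝ) ≤ M := by exact_mod_cast hM
  have hM0 : (M : ℝ) ≠ 0 := by positivity
  have pk : 0 < S M k := S_pos (by omega)
  have pl : 0 < S M l := S_pos (by omega)
  have pkl : 0 < S M (k - l) := S_pos (by omega)
  have a1 := abs_le.1 (h1 k (by omega))
  have a3 := abs_le.1 (h1 l (by omega))
  have a4 := abs_le.1 (h1 (k - l) (by omega))
  have c2 : ((k - l : ℕ) : ℝ) / M = k / M - l / M := by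
    rw [Nat.cast_sub hlk]
    ring
  rw [c2] at a4
  have b1 := abs_le.1 (hs M hM (k / M) n (by omega))
  have b3 := abs_le.1 (hs M hM (l / M) 1 (by omega))
  have e1 : ((k : ℝ) + bt n + 1 / 2) / M = k / M + n / (2 * M) := by
    rw [bt]
    field_simp
    ring
  have e3 : ((l : ℝ) + 1 / 2) / M = l / M + ((1 : ℕ) : ℝ) / (2 * M) := by
    push_cast
    field_simp
  rw [← e1] at b1
  rw [← e3] at b3
  have b4 : |M * Fr (((k : ℝ) + bt n + 1 / 2) / M - (l + 1 / 2) / M) -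
      M * Fr ((k : ℝ) / M - l / M)| ≤ C * Real.log M := by
    rcases Nat.eq_zero_or_pos n with h0 | h0
    · have e4 : ((k : ℝ) / M - l / M) = (((k : ℝ) + bt n + 1 / 2) / M - (l + 1 / 2) / M) +
          ((1 : ℕ) : ℝ) / (2 * M) := by
        rw [bt, h0]
        push_cast
        field_simp
        ring
      have := hs M hM (((k : ℝ) + bt n + 1 / 2) / M - (l + 1 / 2) / M) 1 (by omega)
      rw [← e4, abs_sub_comm] at this
      exact this
    · have e4 : (((k : ℝ) + bt n + 1 / 2) / M - (l + 1 / 2) / M) = ((k : ℝ) / M - l / M) +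
          ((n - 1 : ℕ) : ℝ) / (2 * M) := by
        rw [bt, Nat.cast_sub h0]
        push_cast
        field_simp
        ring
      rw [e4]
      exact hs M hM _ (n - 1) (by omega)
  have b4' := abs_le.1 b4
  have pos : 0 < S M k / (S M l * S M (k - l)) := by positivity
  refine WBound_exp hM' (mul_pos pk pos) rfl (K := 4 * K + 4 * C) ?_ hD
  have hlog : Real.log (S M k * (S M k / (S M l * S M (k - l)))) = Real.log (S M k) +
      (Real.log (S M k) - (Real.log (S M l) + Real.log (S M (k - l)))) := by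
    rw [Real.log_mul pk.ne' pos.ne', Real.log_div (by positivity) (by positivity),
      Real.log_mul pl.ne' pkl.ne']
  rw [hlog]
  linarith [a1.1, a1.2, a3.1, a3.2, a4.1, a4.2, b1.1, b1.2, b3.1, b3.2, b4'.1, b4'.2]

/-- The terms of a block with `|r| = 2`. -/
theorem tblk2 (r : ℤ) (hr : |r| = 2) (n : ℕ) (hn : 2 ≤ n) : ∃ C : ℝ, 0 < C ∧ ∃ D M0 : ℕ,
    ∀ M k : ℕ, M0 ≤ M → k + n ≤ M + 1 → ∃ t : ℕ → ℂ,
    NN r n M k = ∑ l ∈ Finset.range (k + 1), t l ∧
    (∀ l ≤ k, S M k * ‖t l‖ ≤ C * (M : ℝ) ^ D * Real.exp (M *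
      (Fr ((k + bt n + 1 / 2) / M) + EB r ((k + bt n + 1 / 2) / M) ((l + ofB r n M) / M)))) ∧
    ∀ χ : ℝ → ℝ, 61 / 100 ≤ (k + bt n + 1 / 2) / M →
      (∀ z, χ z ≠ 0 → KB r ((k + bt n + 1 / 2) / M) z) →
      ∑ l ∈ Finset.range (k + 1), t l * χ ((l + ofB r n M) / M) =
        pre r n M * S M k * ∑' j : ℤ, (χ ((j + ofB r n M) / M) : ℂ) *
          DD r n M (((k + bt n + 1 / 2) / M : ℝ) : ℂ) (((j + ofB r n M) / M : ℝ) : ℂ) := by
  have hr3 : ¬ (3 ≤ |r|) := by omega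
  have hof : ∀ M : ℕ, ofB r n M = 1 / 2 := fun M => by rw [ofB, if_neg hr3]
  obtain ⟨D, hD⟩ := TBlk2_bound n
  refine ⟨1, one_pos, D, 20 * n + 20, fun M k hM hkn => ?_⟩
  have hM2 : 2 ≤ M := by omega
  have hMr : ((20 * n + 20 : ℕ) : ℝ) ≤ M := by exact_mod_cast hM
  push_cast at hMr
  have hn0 : (0 : ℝ) ≤ n := Nat.cast_nonneg n
  have hMpos : (0 : ℝ) < M := by linarith
  have hM0 : (M : ℝ) ≠ 0 := hMpos.ne'
  have hMc : (M : ℂ) ≠ 0 := by exact_mod_cast hM0
  refine ⟨fun l => I * (-1) ^ (n + M) * (exp (Real.pi * I * r / 2 * ph n M k l) *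
    ((S M k / (S M l * S M (k - l)) : ℝ) : ℂ)), ?_, ?_, ?_⟩
  · rw [nn2_sum r hr n M k hn hM2 hkn, Finset.mul_sum]
  · intro l hl
    have pk : 0 < S M k := S_pos (by omega)
    have pl : 0 < S M l := S_pos (by omega)
    have pkl : 0 < S M (k - l) := S_pos (by omega)
    have pos : 0 < S M k / (S M l * S M (k - l)) := by positivity
    have hnorm : ‖I * (-1) ^ (n + M) * (exp (Real.pi * I * r / 2 * ph n M k l) *
        ((S M k / (S M l * S M (k - l)) : ℝ) : ℂ))‖ = S M k / (S M l * S M (k - l)) := by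
      rw [norm_mul, norm_mul, norm_mul, TBlk2_norm, norm_pow, norm_neg, norm_one, one_pow,
        norm_I, norm_real, Real.norm_of_nonneg pos.le]
      ring
    rw [hnorm, EB, if_neg hr3, hof]
    exact hD M k l hM2 hl (by omega)
  · intro χ hX hχ
    rw [hof]
    set X : ℝ := (k + bt n + 1 / 2) / M with hXdef
    have hXM : X * M = k + n / 2 := by
      rw [hXdef, bt]
      field_simp
      ring
    have hsupp : ∀ j : ℤ, χ (((j : ℝ) + 1 / 2) / M) ≠ 0 → 0 ≤ j ∧ j ≤ k := by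
      intro j hj
      have h1 := hχ _ hj
      rw [KB, if_neg hr3, abs_le] at h1
      obtain ⟨h2, h3⟩ := h1
      have h4 : 9 / 100 * X ≤ ((j : ℝ) + 1 / 2) / M := by linarith
      have h5 : ((j : ℝ) + 1 / 2) / M ≤ 91 / 100 * X := by linarith
      rw [le_div_iff₀ hMpos] at h4
      rw [div_le_iff₀ hMpos] at h5
      have h6 : 61 / 100 * (M : ℝ) ≤ X * M := mul_le_mul_of_nonneg_right hX hMpos.le
      constructor
      · have : (-1 : ℝ) < j := by nlinarith
        have h7 : (-1 : ℤ) < j := by exact_mod_cast this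
        omega
      · have : (j : ℝ) < k + 1 := by nlinarith
        have h7 : j < (k : ℤ) + 1 := by exact_mod_cast this
        omega
    have hterm : ∀ l : ℕ, l ≤ k → DD r n M ((X : ℝ) : ℂ) (((((l : ℤ) : ℝ) + 1 / 2) / M : ℝ) : ℂ) =
        exp (Real.pi * I * r / 2 * ph n M k l) * ((1 / (S M l * S M (k - l)) : ℝ) : ℂ) := by
      intro l hl
      have e1 : (M : ℂ) * ((X : ℝ) : ℂ) - bt n - 1 / 2 = (k : ℂ) := by
        have : (M : ℝ) * X - bt n - 1 / 2 = k := by
          rw [mul_comm, hXM, bt]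
          ring
        have h := congrArg Complex.ofReal this
        rw [Complex.ofReal_sub, Complex.ofReal_sub, Complex.ofReal_mul, Complex.ofReal_natCast,
          Complex.ofReal_natCast] at h
        rw [← h]
        norm_num
      have e2 : (M : ℂ) * ((((((l : ℤ) : ℝ) + 1 / 2) / M : ℝ)) : ℂ) - 1 / 2 = (l : ℂ) := by
        push_cast
        field_simp
        ring
      have e3 : (M : ℂ) * (((X : ℝ) : ℂ) - ((((((l : ℤ) : ℝ) + 1 / 2) / M : ℝ)) : ℂ)) - bt n =
          ((k - l : ℕ) : ℂ) := by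
        rw [Nat.cast_sub hl]
        linear_combination e1 - e2
      rw [DD, if_neg hr3, e1, e2, e3]
      congr 1
      rw [sub_eq_add_neg, Complex.exp_add, Complex.exp_neg, Complex.exp_neg,
        LL_nat M l (by omega), LL_nat M (k - l) (by omega)]
      push_cast
      rw [one_div, mul_inv]
    have hsum : ∑' j : ℤ, (χ (((j : ℝ) + 1 / 2) / M) : ℂ) *
        DD r n M ((X : ℝ) : ℂ) ((((j : ℝ) + 1 / 2) / M : ℝ) : ℂ) =
        ∑ l ∈ Finset.range (k + 1), (χ ((((l : ℤ) : ℝ) + 1 / 2) / M) : ℂ) *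
          DD r n M ((X : ℝ) : ℂ) (((((l : ℤ) : ℝ) + 1 / 2) / M : ℝ) : ℂ) := by
      rw [tsum_eq_sum (s := (Finset.range (k + 1)).map Nat.castEmbedding), Finset.sum_map]
      · rfl
      · intro j hj
        by_cases h0 : χ (((j : ℝ) + 1 / 2) / M) = 0
        · rw [h0]
          simp
        · exfalso
          apply hj
          obtain ⟨h1, h2⟩ := hsupp j h0
          rw [Finset.mem_map]
          refine ⟨j.toNat, ?_, ?_⟩
          · rw [Finset.mem_range]
            omega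
          · simp [h1]
    rw [hsum, Finset.mul_sum]
    refine Finset.sum_congr rfl fun l hl => ?_
    have hl' : l ≤ k := by
      rw [Finset.mem_range] at hl
      omega
    rw [hterm l hl', pre, if_neg hr3]
    push_cast
    ring

end Pool.Agent.H63.GO
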