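import Pool.Agent.H63.GO.PDefs
import Pool.Agent.H63.VC3.NNterms
import Pool.Agent.H63.VC3.WBound

/-! # The terms of a block with 3 <= |r| -/

namespace Pool.Agent.H63.GO

open Complex Filter Topology Pool.Agent.H63.VC Pool.Agent.H63.VC3

/-- Shifts of the argument of `Fr` by half integers over `M`. -/
private theorem TBlk3_shift (n : ℕ) : ∃ K : ℝ, 0 < K ∧ ∀ M : ℕ, 2 ≤ M → ∀ x : ℝ, ∀ j : ℕ,
    j ≤ 2 * n → |M * Fr (x + j / (2 * M)) - M * Fr x| ≤ K * Real.log M := by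
  obtain ⟨C, hC, h⟩ := Fr_shift (2 * n)
  refine ⟨C, hC, fun M hM x j hj => ?_⟩
  have h1 := h (2 * M) (by omega) x j hj
  have hM' : (2 : ℝ) ≤ M := by exact_mod_cast hM
  have hc : ((2 * M : ℕ) : ℝ) = 2 * M := by push_cast; ring
  rw [hc] at h1
  have hl : Real.log (2 * M) ≤ 2 * Real.log M := by
    rw [Real.log_mul (by norm_num) (by positivity)]
    have := Real.log_le_log (by norm_num : (0 : ℝ) < 2) hM'
    linarith
  have e : 2 * (M : ℝ) * Fr (x + j / (2 * M)) - 2 * M * Fr x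
      = 2 * (M * Fr (x + j / (2 * M)) - M * Fr x) := by ring
  rw [e, abs_mul, abs_two] at h1
  nlinarith

/-- The exponent of the terms. -/
private theorem TBlk3_exp (r : ℤ) (hr : 3 ≤ |r|) (n : ℕ) (hn : 2 ≤ n) : ∃ K : ℝ, 0 < K ∧
    ∀ M k l : ℕ, 2 ≤ M → (M : ℝ) * gg (k / M) (l / M) ≤
      M * (Fr ((k + bt n + 1 / 2) / M) + EB r ((k + bt n + 1 / 2) / M) ((l + ofB r n M) / M)) +
        K * Real.log M := by
  obtain ⟨K, hK, h⟩ := TBlk3_shift n
  refine ⟨4 * K, by positivity, fun M k l hM => ?_⟩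
  have hM' : (2 : ℝ) ≤ M := by exact_mod_cast hM
  have hM0 : (M : ℝ) ≠ 0 := by positivity
  have a1 := abs_le.1 (h M hM (k / M) n (by omega))
  have a2 := abs_le.1 (h M hM ((k : ℝ) / M - l / M) 1 (by omega))
  have a3 := abs_le.1 (h M hM ((k : ℝ) / M + l / M) (2 * n - 1) (by omega))
  have e1 : ((k : ℝ) + bt n + 1 / 2) / M = k / M + n / (2 * M) := by
    rw [bt]; field_simp; ring
  have hn1 : ((2 * n - 1 : ℕ) : ℝ) = 2 * n - 1 := by
    rw [Nat.cast_sub (by omega)]; push_cast; ring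
  have e2 : ((k : ℝ) + bt n + 1 / 2) / M - 1 / 2 - (l + (bt n - M / 2)) / M =
      k / M - l / M + ((1 : ℕ) : ℝ) / (2 * M) := by
    field_simp; push_cast; ring
  have e3 : Fr (((k : ℝ) + bt n + 1 / 2) / M - 1 / 2 + (l + (bt n - M / 2)) / M) =
      Fr (k / M + l / M + ((2 * n - 1 : ℕ) : ℝ) / (2 * M)) := by
    rw [← Fr_add_one, hn1]
    congr 1
    rw [bt]; field_simp; ring
  rw [EB, ofB, if_pos hr, if_pos hr, e3, e2, e1, gg]
  nlinarith [a1.1, a1.2, a2.1, a2.2, a3.1, a3.2]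

/-- The reflection of the lattice. -/
private theorem TBlk3_refl (r : ℤ) (hr : 3 ≤ |r|) (n M l l' : ℕ) (hM : 0 < M)
    (h : l + l' + n = M + 1) : ((l' : ℝ) + ofB r n M) / M = -(((l : ℝ) + ofB r n M) / M) := by
  have h1 : (l : ℝ) + l' + n = M + 1 := by exact_mod_cast h
  have hM0 : (M : ℝ) ≠ 0 := by positivity
  rw [ofB, if_pos hr, bt, ← neg_div]
  congr 1
  linarith

/-- The terms of a block with `3 ≤ |r|`. -/
theorem tblk3 (r : ℤ) (hr : 3 ≤ |r|) (n : ℕ) (hn : 2 ≤ n) : ∃ C : ℝ, 0 < C ∧ ∃ D M0 : ℕ,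
    ∀ M k : ℕ, M0 ≤ M → k + n ≤ M + 1 → ∃ t : ℕ → ℂ,
    NN r n M k = ∑ l ∈ Finset.range (k + 1), t l ∧
    (∀ l ≤ k, S M k * ‖t l‖ ≤ C * (M : ℝ) ^ D * Real.exp (M *
      (Fr ((k + bt n + 1 / 2) / M) + EB r ((k + bt n + 1 / 2) / M) ((l + ofB r n M) / M)))) ∧
    ∀ χ : ℝ → ℝ, 61 / 100 ≤ (k + bt n + 1 / 2) / M →
      (∀ z, χ (-z) = χ z) → (∀ z, χ z ≠ 0 → KB r ((k + bt n + 1 / 2) / M) z) →
      ∑ l ∈ Finset.range (k + 1), t l * χ ((l + ofB r n M) / M) =
        pre r n M * S M k * ∑' j : ℤ, (χ ((j + ofB r n M) / M) : ℂ) *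
          DD r n M (((k + bt n + 1 / 2) / M : ℝ) : ℂ) (((j + ofB r n M) / M : ℝ) : ℂ) := by
  have hr0 : r ≠ 0 := by rintro rfl; simp at hr
  obtain ⟨C1, hC1, D1, hW⟩ := Wt_bound n hn
  obtain ⟨K, hK, hE⟩ := TBlk3_exp r hr n hn
  obtain ⟨D2, hD2⟩ := exists_nat_ge K
  refine ⟨4 * (|(r : ℝ)| + 2) * C1, by positivity, 2 + D1 + D2, 20 * n + 20, fun M k hM hk => ?_⟩
  have hM2 : 2 ≤ M := by omega
  have hMpos : 0 < M := by omega
  have hMr : (20 * n + 20 : ℝ) ≤ M := by exact_mod_cast hM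
  have hMr2 : (2 : ℝ) ≤ M := by exact_mod_cast hM2
  have hMr0 : (0 : ℝ) < M := by linarith
  obtain ⟨t, ht1, ht2, ht3⟩ := NN_terms r hr0 n M k hn hM2 hk
  refine ⟨t, ht1, fun l hl => ?_, fun χ hx hev hsup => ?_⟩
  · have hS : 0 < S M k := S_pos (by omega)
    obtain ⟨hw0, hw⟩ := hW M k l hM2 hl hk
    have hL0 : 0 ≤ Real.log M := Real.log_natCast_nonneg M
    have h1 : Real.exp (M * gg (k / M) (l / M)) ≤ (M : ℝ) ^ D2 * Real.exp (M *
      (Fr ((k + bt n + 1 / 2) / M) + EB r ((k + bt n + 1 / 2) / M) ((l + ofB r n M) / M))) := by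
      have h2 := hE M k l hM2
      calc _ ≤ Real.exp (D2 * Real.log M + M * (Fr ((k + bt n + 1 / 2) / M) +
            EB r ((k + bt n + 1 / 2) / M) ((l + ofB r n M) / M))) :=
            Real.exp_le_exp.2 (by nlinarith)
        _ = _ := by
          rw [Real.exp_add, mul_comm (D2 : ℝ), Real.exp_mul, Real.exp_log hMr0,
            Real.rpow_natCast]
    have h3 : 4 * (|(r : ℝ)| * (M : ℝ) + (M : ℝ) ^ 2 + 1) ≤ 4 * (|(r : ℝ)| + 2) * (M : ℝ) ^ 2 := by
      have h4 := abs_nonneg (r : ℝ)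
      have h5 : (M : ℝ) ≤ (M : ℝ) ^ 2 := by nlinarith
      have h6 : |(r : ℝ)| * M ≤ |(r : ℝ)| * (M : ℝ) ^ 2 := mul_le_mul_of_nonneg_left h5 h4
      have h7 : (1 : ℝ) ≤ (M : ℝ) ^ 2 := by linarith
      linarith
    calc S M k * ‖t l‖ ≤ S M k * (4 * (|(r : ℝ)| * (M : ℝ) + (M : ℝ) ^ 2 + 1) * Wt n M k l) :=
          mul_le_mul_of_nonneg_left (ht2 l hl) hS.le
      _ = 4 * (|(r : ℝ)| * (M : ℝ) + (M : ℝ) ^ 2 + 1) * (S M k * Wt n M k l) := by ring
      _ ≤ 4 * (|(r : ℝ)| + 2) * (M : ℝ) ^ 2 *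
          (C1 * (M : ℝ) ^ D1 * Real.exp (M * gg (k / M) (l / M))) :=
          mul_le_mul h3 hw (mul_nonneg hS.le hw0) (by positivity)
      _ ≤ 4 * (|(r : ℝ)| + 2) * (M : ℝ) ^ 2 * (C1 * (M : ℝ) ^ D1 * ((M : ℝ) ^ D2 * Real.exp (M *
      (Fr ((k + bt n + 1 / 2) / M) + EB r ((k + bt n + 1 / 2) / M) ((l + ofB r n M) / M))))) := by
          gcongr
      _ = _ := by rw [pow_add, pow_add]; ring
  · -- the exact sum
    set z : ℝ → ℝ := fun l => (l + ofB r n M) / M with hz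
    have hof : ofB r n M = bt n - M / 2 := by rw [ofB, if_pos hr]
    have hbt : bt n = ((n : ℝ) - 1) / 2 := rfl
    have hkn : (k : ℝ) + n ≤ M + 1 := by exact_mod_cast hk
    have hn2 : (2 : ℝ) ≤ n := by exact_mod_cast hn
    set y : ℝ := (k + bt n + 1 / 2) / M - 1 / 2 with hy
    have hyM : M * y = k + bt n + 1 / 2 - M / 2 := by rw [hy]; field_simp
    have hzM : ∀ l : ℝ, M * z l = l + bt n - M / 2 := fun l => by
      simp only [hz]; rw [hof]; field_simp; ring
    have hypos : 11 / 100 ≤ y := by rw [hy]; linarith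
    have hyhalf : y ≤ 1 / 2 := by
      have : M * y ≤ M * (1 / 2) := by rw [hyM, hbt]; linarith
      exact le_of_mul_le_mul_left this hMr0
    -- the support
    have hsup' : ∀ j : ℤ, χ (z j) ≠ 0 → 0 ≤ j ∧ j ≤ k ∧ (M : ℤ) + 1 - n - j ≤ k ∧
        0 ≤ (M : ℤ) + 1 - n - j := by
      intro j hj
      have h1 := hsup _ hj
      rw [KB, if_pos hr] at h1
      have h2 := abs_le.1 h1
      have hj1 := hzM j
      have b1 : M * z j < M * y := by
        apply mul_lt_mul_of_pos_left _ hMr0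
        have := h2.2
        rw [hy] at hypos ⊢
        linarith
      have b2 : -(M * y) < M * z j := by
        rw [← mul_neg]
        apply mul_lt_mul_of_pos_left _ hMr0
        have := h2.1
        rw [hy] at hypos ⊢
        linarith
      have b3 : -(87 / 200 : ℝ) * M ≤ M * z j := by
        have h3 : -(87 / 200 : ℝ) ≤ z j := by
          have := h2.1
          rw [hy] at hyhalf
          linarith
        nlinarith
      have b4 : M * z j ≤ (87 / 200 : ℝ) * M := by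
        have h3 : z j ≤ (87 / 200 : ℝ) := by
          have := h2.2
          rw [hy] at hyhalf
          linarith
        nlinarith
      rw [hj1] at b1 b2 b3 b4
      rw [hyM] at b1 b2
      rw [hbt] at b1 b2 b3 b4
      refine ⟨?_, ?_, ?_, ?_⟩
      · have : (-1 : ℝ) < j := by linarith
        have h4 : (-1 : ℤ) < j := by exact_mod_cast this
        omega
      · have : (j : ℝ) < k + 1 := by linarith
        have h4 : j < (k : ℤ) + 1 := by exact_mod_cast this
        omega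
      · have : (M : ℝ) + 1 - n - j < k + 1 := by linarith
        have h4 : (M : ℤ) + 1 - n - j < (k : ℤ) + 1 := by exact_mod_cast this
        omega
      · have : (-1 : ℝ) < (M : ℝ) + 1 - n - j := by linarith
        have h4 : (-1 : ℤ) < (M : ℤ) + 1 - n - j := by exact_mod_cast this
        omega
    classical
    set A : Finset ℕ := (Finset.range (k + 1)).filter (fun l => χ (z l) ≠ 0) with hA
    have hAmem : ∀ l ∈ A, l ≤ k ∧ χ (z l) ≠ 0 ∧ l + n ≤ M + 1 ∧ M + 1 - n - l ≤ k := by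
      intro l hl
      rw [hA, Finset.mem_filter, Finset.mem_range] at hl
      have h1 := hsup' (l : ℤ) (by exact_mod_cast hl.2)
      refine ⟨by omega, hl.2, by omega, by omega⟩
    have hrefl : ∀ l ∈ A, z ((M + 1 - n - l : ℕ) : ℝ) = -z l := by
      intro l hl
      obtain ⟨h1, h2, h3, h4⟩ := hAmem l hl
      exact TBlk3_refl r hr n M l (M + 1 - n - l) hMpos (by omega)
    have hinv : ∀ l ∈ A, M + 1 - n - l ∈ A := by
      intro l hl
      obtain ⟨h1, h2, h3, h4⟩ := hAmem l hl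
      rw [hA, Finset.mem_filter, Finset.mem_range]
      refine ⟨by omega, ?_⟩
      rw [hrefl l hl, hev]
      exact h2
    have hswap : ∑ l ∈ A, t l * (χ (z l) : ℂ) = ∑ l ∈ A, t (M + 1 - n - l) * (χ (z l) : ℂ) := by
      refine Finset.sum_nbij' (fun l => M + 1 - n - l) (fun l => M + 1 - n - l) hinv hinv ?_ ?_ ?_
      · intro l hl
        obtain ⟨h1, h2, h3, h4⟩ := hAmem l hl
        show M + 1 - n - (M + 1 - n - l) = l
        omega
      · intro l hl
        obtain ⟨h1, h2, h3, h4⟩ := hAmem l hl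
        show M + 1 - n - (M + 1 - n - l) = l
        omega
      · intro l hl
        obtain ⟨h1, h2, h3, h4⟩ := hAmem l hl
        have e : M + 1 - n - (M + 1 - n - l) = l := by omega
        rw [e, hrefl l hl, hev]
    have hpair : ∀ l ∈ A, t l + t (M + 1 - n - l) =
        2 * (pre r n M * S M k * DD r n M (((k + bt n + 1 / 2) / M : ℝ) : ℂ) ((z l : ℝ) : ℂ)) := by
      intro l hl
      obtain ⟨h1, h2, h3, h4⟩ := hAmem l hl
      rw [ht3 l (M + 1 - n - l) (by omega) h1 h4, pre, if_pos hr, DD, if_pos hr]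
      have e1 : ((yk n M k : ℝ) : ℂ) = (((k + bt n + 1 / 2) / M : ℝ) : ℂ) - 1 / 2 := by
        rw [yk]; push_cast; ring
      have e2 : vl n M l = z l := by
        simp only [hz]; rw [hof, vl]; field_simp; ring
      rw [e1, e2]
      have hπ : (Real.pi : ℂ) ≠ 0 := by exact_mod_cast Real.pi_ne_zero
      have hMc : (M : ℂ) ≠ 0 := by exact_mod_cast hMpos.ne'
      field_simp
    have hsumA : ∑ l ∈ Finset.range (k + 1), t l * (χ (z l) : ℂ) = ∑ l ∈ A, t l * (χ (z l) : ℂ) := by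
      rw [hA, Finset.sum_filter_of_ne]
      intro l _ h h0
      apply h
      rw [h0]; simp
    have hts : ∑' j : ℤ, (χ (z j) : ℂ) * DD r n M (((k + bt n + 1 / 2) / M : ℝ) : ℂ)
        ((z j : ℝ) : ℂ) = ∑ l ∈ A, (χ (z l) : ℂ) *
          DD r n M (((k + bt n + 1 / 2) / M : ℝ) : ℂ) ((z l : ℝ) : ℂ) := by
      rw [tsum_eq_sum (s := A.image (fun l : ℕ => (l : ℤ)))]
      · have hinj : Set.InjOn (fun l : ℕ => (l : ℤ)) A := fun a _ b _ h => by simpa using h
        rw [Finset.sum_image hinj]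
        refine Finset.sum_congr rfl fun l _ => ?_
        norm_cast
      · intro j hj
        by_cases h0 : χ (z j) = 0
        · rw [h0]; simp
        · exfalso
          apply hj
          obtain ⟨h1, h2, h3, h4⟩ := hsup' j h0
          rw [Finset.mem_image]
          refine ⟨j.toNat, ?_, by omega⟩
          rw [hA, Finset.mem_filter, Finset.mem_range]
          refine ⟨by omega, ?_⟩
          have e : ((j.toNat : ℕ) : ℝ) = (j : ℝ) := by
            have : ((j.toNat : ℕ) : ℤ) = j := Int.toNat_of_nonneg h1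
            exact_mod_cast this
          rw [e]; exact h0
    show ∑ l ∈ Finset.range (k + 1), t l * (χ (z l) : ℂ) = pre r n M * S M k *
      ∑' j : ℤ, (χ (z j) : ℂ) * DD r n M (((k + bt n + 1 / 2) / M : ℝ) : ℂ) ((z j : ℝ) : ℂ)
    rw [hts, hsumA]
    have h2 : (2 : ℂ) * ∑ l ∈ A, t l * (χ (z l) : ℂ) = 2 * (pre r n M * S M k *
        ∑ l ∈ A, (χ (z l) : ℂ) *
          DD r n M (((k + bt n + 1 / 2) / M : ℝ) : ℂ) ((z l : ℝ) : ℂ)) := by
      calc (2 : ℂ) * ∑ l ∈ A, t l * (χ (z l) : ℂ)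
          = ∑ l ∈ A, t l * (χ (z l) : ℂ) + ∑ l ∈ A, t (M + 1 - n - l) * (χ (z l) : ℂ) := by
            rw [← hswap]; ring
        _ = ∑ l ∈ A, (t l + t (M + 1 - n - l)) * (χ (z l) : ℂ) := by
            rw [← Finset.sum_add_distrib]
            exact Finset.sum_congr rfl fun l _ => by ring
        _ = ∑ l ∈ A, 2 * (pre r n M * S M k * ((χ (z l) : ℂ) *
          DD r n M (((k + bt n + 1 / 2) / M : ℝ) : ℂ) ((z l : ℝ) : ℂ))) :=
            Finset.sum_congr rfl fun l hl => by rw [hpair l hl]; ring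
        _ = _ := by rw [← Finset.mul_sum, ← Finset.mul_sum]
    exact mul_left_cancel₀ (by norm_num) h2

end Pool.Agent.H63.GO
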