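import Pool.Agent.H63.GO.Defs
import Pool.Agent.H63.GO.TBlk2
import Pool.Agent.H63.GO.TBlk3
import Pool.Agent.H63.VC.Asym
import Pool.Agent.H63.VC3.KAn
import Pool.Agent.H63.VC3.StepDefs

/-! # Reduction to the lattice sum -/

namespace Pool.Agent.H63.GO

open Complex Filter Topology Pool.Agent.H63.VC Pool.Agent.H63.VC3

/-- The terms of a block. -/
private theorem Red_blk (r : ℤ) (hr : 2 ≤ |r|) (n : ℕ) (hn : 2 ≤ n) : ∃ C : ℝ, 0 < C ∧
    ∃ D M0 : ℕ,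
    ∀ M k : ℕ, M0 ≤ M → k + n ≤ M + 1 → ∃ t : ℕ → ℂ,
    NN r n M k = ∑ l ∈ Finset.range (k + 1), t l ∧
    (∀ l ≤ k, S M k * ‖t l‖ ≤ C * (M : ℝ) ^ D * Real.exp (M *
      (Fr ((k + bt n + 1 / 2) / M) + EB r ((k + bt n + 1 / 2) / M) ((l + ofB r n M) / M)))) ∧
    ∀ χ : ℝ → ℝ, 61 / 100 ≤ (k + bt n + 1 / 2) / M →
      (3 ≤ |r| → ∀ z, χ (-z) = χ z) → (∀ z, χ z ≠ 0 → KB r ((k + bt n + 1 / 2) / M) z) →
      ∑ l ∈ Finset.range (k + 1), t l * χ ((l + ofB r n M) / M) =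
        pre r n M * S M k * ∑' j : ℤ, (χ ((j + ofB r n M) / M) : ℂ) *
          DD r n M (((k + bt n + 1 / 2) / M : ℝ) : ℂ) (((j + ofB r n M) / M : ℝ) : ℂ) := by
  rcases (show |r| = 2 ∨ 3 ≤ |r| by omega) with h | h
  · obtain ⟨C, hC, D, M0, H⟩ := tblk2 r h n hn
    refine ⟨C, hC, D, M0, fun M k hM hk => ?_⟩
    obtain ⟨t, a1, a2, a3⟩ := H M k hM hk
    exact ⟨t, a1, a2, fun χ b1 _ b3 => a3 χ b1 b3⟩
  · obtain ⟨C, hC, D, M0, H⟩ := tblk3 r h n hn
    refine ⟨C, hC, D, M0, fun M k hM hk => ?_⟩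
    obtain ⟨t, a1, a2, a3⟩ := H M k hM hk
    exact ⟨t, a1, a2, fun χ b1 b2 b3 => a3 χ b1 (b2 h) b3⟩

/-- Integers in a bounded interval. -/
private theorem Red_fin (M : ℕ) (hM : 0 < M) (o R : ℝ) :
    {i : ℤ | |((i : ℝ) + o) / M| ≤ R}.Finite := by
  have hM0 : (0 : ℝ) < M := by exact_mod_cast hM
  refine (Set.finite_Icc ⌊-(R * M) - o⌋ ⌈R * M - o⌉).subset fun i hi => ?_
  rw [Set.mem_ofPred_eq, abs_div, abs_of_pos hM0, div_le_iff₀ hM0, abs_le] at hi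
  rw [Set.mem_Icc]
  constructor
  · have h1 : (⌊-(R * M) - o⌋ : ℝ) ≤ i := (Int.floor_le _).trans (by linarith [hi.1])
    exact_mod_cast h1
  · have h1 : (i : ℝ) ≤ ⌈R * M - o⌉ := le_trans (by linarith [hi.2]) (Int.le_ceil _)
    exact_mod_cast h1

/-- Two blocks. -/
private theorem Red_two (N : ℕ) (t1 t2 : ℕ → ℂ) (z1 z2 : ℕ → ℝ) (w1 w2 : ℤ → ℝ) (d1 d2 : ℤ → ℂ)
    (A1 A2 : ℂ) (X : ℝ → ℝ → ℝ)
    (h1 : ∀ b : ℝ, ∑ l ∈ Finset.range N, t1 l * (X (z1 l) b : ℂ) =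
      A1 * ∑' i : ℤ, (X (w1 i) b : ℂ) * d1 i)
    (h2 : ∀ a : ℝ, ∑ l ∈ Finset.range N, t2 l * (X a (z2 l) : ℂ) =
      A2 * ∑' j : ℤ, (X a (w2 j) : ℂ) * d2 j)
    (hf : ∀ b, {i : ℤ | X (w1 i) b ≠ 0}.Finite) :
    ∑ l ∈ Finset.range N, ∑ m ∈ Finset.range N, t1 l * t2 m * (X (z1 l) (z2 m) : ℂ) =
      A1 * A2 * ∑' i : ℤ, ∑' j : ℤ, (X (w1 i) (w2 j) : ℂ) * (d1 i * d2 j) := by
  have hs : ∀ m : ℕ, Summable fun i : ℤ => t2 m * ((X (w1 i) (z2 m) : ℂ) * d1 i) := by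
    intro m
    refine summable_of_hasFiniteSupport ((hf (z2 m)).subset fun i hi => ?_)
    rw [Function.mem_support] at hi
    intro h0
    apply hi
    rw [h0]
    simp
  calc ∑ l ∈ Finset.range N, ∑ m ∈ Finset.range N, t1 l * t2 m * (X (z1 l) (z2 m) : ℂ)
      = ∑ m ∈ Finset.range N, t2 m * ∑ l ∈ Finset.range N, t1 l * (X (z1 l) (z2 m) : ℂ) := by
        rw [Finset.sum_comm]
        refine Finset.sum_congr rfl fun m _ => ?_
        rw [Finset.mul_sum]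
        exact Finset.sum_congr rfl fun l _ => by ring
    _ = ∑ m ∈ Finset.range N, A1 * ∑' i : ℤ, t2 m * ((X (w1 i) (z2 m) : ℂ) * d1 i) := by
        refine Finset.sum_congr rfl fun m _ => ?_
        rw [h1, tsum_mul_left]
        ring
    _ = A1 * ∑' i : ℤ, ∑ m ∈ Finset.range N, t2 m * ((X (w1 i) (z2 m) : ℂ) * d1 i) := by
        rw [← Finset.mul_sum, Summable.tsum_finsetSum fun m _ => hs m]
    _ = A1 * ∑' i : ℤ, A2 * ∑' j : ℤ, (X (w1 i) (w2 j) : ℂ) * (d1 i * d2 j) := by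
        congr 1
        refine tsum_congr fun i => ?_
        calc ∑ m ∈ Finset.range N, t2 m * ((X (w1 i) (z2 m) : ℂ) * d1 i)
            = d1 i * ∑ m ∈ Finset.range N, t2 m * (X (w1 i) (z2 m) : ℂ) := by
              rw [Finset.mul_sum]
              exact Finset.sum_congr rfl fun m _ => by ring
          _ = d1 i * (A2 * ∑' j : ℤ, (X (w1 i) (w2 j) : ℂ) * d2 j) := by rw [h2]
          _ = A2 * (d1 i * ∑' j : ℤ, (X (w1 i) (w2 j) : ℂ) * d2 j) := by ring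
          _ = _ := by
              rw [← tsum_mul_left]
              congr 1
              exact tsum_congr fun j => by ring
    _ = _ := by rw [tsum_mul_left]; ring

/-- The lattice point. -/
private theorem Red_lp (r1 r2 : ℤ) (n M : ℕ) (k i j : ℤ) :
    lp M (oo r1 r2 n M) ![k, i, j] = ![((k : ℝ) + bt n + 1 / 2) / M, ((i : ℝ) + ofB r1 n M) / M,
      ((j : ℝ) + ofB r2 n M) / M] := by
  funext a
  fin_cases a
  · simp [lp, oo]
    ring
  · simp [lp, oo]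
  · simp [lp, oo]

private theorem Red_FF (r1 r2 : ℤ) (n g M : ℕ) (x a b : ℝ) :
    FF r1 r2 n g M (rc ![x, a, b]) = Cc n g M ((x : ℂ) - 1 / 2) *
      (DD r1 n M (x : ℂ) (a : ℂ) * DD r2 n M (x : ℂ) (b : ℂ)) := by
  simp [FF, rc]

/-- The sum over the lattice as an iterated sum. -/
private theorem Red_tsum (G : (Fin 3 → ℤ) → ℂ) (hG : (Function.support G).Finite) :
    ∑' K : Fin 3 → ℤ, G K = ∑' k : ℤ, ∑' i : ℤ, ∑' j : ℤ, G ![k, i, j] := by
  let e : ℤ × ℤ × ℤ ≃ (Fin 3 → ℤ) :=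
    { toFun := fun p => ![p.1, p.2.1, p.2.2]
      invFun := fun K => (K 0, K 1, K 2)
      left_inv := fun p => by simp
      right_inv := fun K => by
        funext a
        fin_cases a <;> rfl }
  have h1 : Summable fun p : ℤ × ℤ × ℤ => G (e p) := by
    have : Summable G := summable_of_hasFiniteSupport hG
    exact e.summable_iff.2 this
  rw [← e.tsum_eq, h1.tsum_prod]
  refine tsum_congr fun k => ?_
  have h2 : Summable fun p : ℤ × ℤ => G (e (k, p)) := h1.prod_factor k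
  rw [h2.tsum_prod]
  rfl


private theorem Red_yl (r1 r2 : ℤ) : 11 / 100 ≤ yl r1 r2 := by
  unfold yl
  split_ifs <;> norm_num

private theorem Red_yu (r1 r2 : ℤ) : yu r1 r2 ≤ 38 / 100 := by
  unfold yu
  split_ifs <;> norm_num

private theorem Red_Dg (n g M : ℕ) (hn : 2 ≤ n) (hg : 1 ≤ g) (hgn : g ≤ n - 1) (hM : n ≤ M) :
    0 < Dg n g M ∧ Dg n g M ≤ 2 ^ (2 * n - 4) := by
  have p1 : 0 < S M (g - 1) := S_pos (by omega)
  have p2 : 0 < S M (n - g - 1) := S_pos (by omega)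
  have p3 : 0 < S M (n - 2) := S_pos (by omega)
  have q1 := S_le M (g - 1) (by omega)
  have q2 := S_le M (n - g - 1) (by omega)
  have q3 := S_le M (n - 2) (by omega)
  unfold Dg
  refine ⟨by positivity, ?_⟩
  calc S M (g - 1) * S M (n - g - 1) * S M (n - 2)
      ≤ 2 ^ (g - 1) * 2 ^ (n - g - 1) * 2 ^ (n - 2) := by gcongr
    _ = 2 ^ (2 * n - 4) := by
        rw [← pow_add, ← pow_add]
        congr 1
        omega

/-- The lattice points are in the domain. -/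
private theorem Red_DB (r : ℤ) (n M k l : ℕ) (hn : 2 ≤ n) (hM : 0 < M) (hl : l ≤ k) :
    DB r (((k : ℝ) + bt n + 1 / 2) / M) (((l : ℝ) + ofB r n M) / M) := by
  have hM0 : (0 : ℝ) < M := by exact_mod_cast hM
  have hb : 1 / 2 ≤ bt n := by
    unfold bt
    have : (2 : ℝ) ≤ n := by exact_mod_cast hn
    linarith
  have hl' : (l : ℝ) ≤ k := by exact_mod_cast hl
  have hl0 : (0 : ℝ) ≤ l := Nat.cast_nonneg l
  unfold DB ofB
  split_ifs with h
  · have e : ((l : ℝ) + (bt n - M / 2)) / M = (l + bt n) / M - 1 / 2 := by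
      field_simp
      ring
    rw [e]
    have h1 : 0 ≤ (l + bt n) / M := by positivity
    have h2 : (l + bt n) / M ≤ (k + bt n + 1 / 2) / M :=
      div_le_div_of_nonneg_right (by linarith) hM0.le
    constructor
    · linarith
    · linarith
  · constructor
    · positivity
    · exact div_le_div_of_nonneg_right (by linarith) hM0.le

/-- One value of `k`. -/
private theorem Red_k (r1 r2 : ℤ) (n g : ℕ) (hn : 2 ≤ n) (hg : 1 ≤ g)
    (hgn : g ≤ n - 1) (χ : (Fin 3 → ℝ) → ℝ) (c4 : ℝ)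
    (hχ0 : ∀ a, 0 ≤ χ a) (hχ1 : ∀ a, χ a ≤ 1)
    (hev : ∀ a, ∀ j ∈ Bs r1 r2, χ (Function.update a j (-a j)) = χ a)
    (hsup : ∀ a, χ a ≠ 0 → a ∈ KS r1 r2) (R : ℝ) (hR : ∀ a, χ a ≠ 0 → ∀ j, |a j| ≤ R)
    (hone : ∀ a ∈ KS r1 r2, c4 ≤ EE r1 r2 a → χ a = 1)
    (hfar : ∀ a : Fin 3 → ℝ, 0 ≤ a 0 → a 0 ≤ 1 → DB r1 (a 0) (a 1) → DB r2 (a 0) (a 2) →
      a ∉ KS r1 r2 → EE r1 r2 a ≤ c4)
    (C1 C2 : ℝ) (hC1 : 0 < C1) (hC2 : 0 < C2) (D1 D2 M k : ℕ) (hM : n ≤ M) (hk : k + n ≤ M + 1)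
    (t1 t2 : ℕ → ℂ)
    (e1 : NN r1 n M k = ∑ l ∈ Finset.range (k + 1), t1 l)
    (b1 : ∀ l ≤ k, S M k * ‖t1 l‖ ≤ C1 * (M : ℝ) ^ D1 * Real.exp (M *
      (Fr ((k + bt n + 1 / 2) / M) + EB r1 ((k + bt n + 1 / 2) / M) ((l + ofB r1 n M) / M))))
    (s1 : ∀ χ : ℝ → ℝ, 61 / 100 ≤ (k + bt n + 1 / 2) / M →
      (3 ≤ |r1| → ∀ z, χ (-z) = χ z) → (∀ z, χ z ≠ 0 → KB r1 ((k + bt n + 1 / 2) / M) z) →
      ∑ l ∈ Finset.range (k + 1), t1 l * χ ((l + ofB r1 n M) / M) =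
        pre r1 n M * S M k * ∑' j : ℤ, (χ ((j + ofB r1 n M) / M) : ℂ) *
          DD r1 n M (((k + bt n + 1 / 2) / M : ℝ) : ℂ) (((j + ofB r1 n M) / M : ℝ) : ℂ))
    (e2 : NN r2 n M k = ∑ l ∈ Finset.range (k + 1), t2 l)
    (b2 : ∀ l ≤ k, S M k * ‖t2 l‖ ≤ C2 * (M : ℝ) ^ D2 * Real.exp (M *
      (Fr ((k + bt n + 1 / 2) / M) + EB r2 ((k + bt n + 1 / 2) / M) ((l + ofB r2 n M) / M))))
    (s2 : ∀ χ : ℝ → ℝ, 61 / 100 ≤ (k + bt n + 1 / 2) / M →
      (3 ≤ |r2| → ∀ z, χ (-z) = χ z) → (∀ z, χ z ≠ 0 → KB r2 ((k + bt n + 1 / 2) / M) z) →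
      ∑ l ∈ Finset.range (k + 1), t2 l * χ ((l + ofB r2 n M) / M) =
        pre r2 n M * S M k * ∑' j : ℤ, (χ ((j + ofB r2 n M) / M) : ℂ) *
          DD r2 n M (((k + bt n + 1 / 2) / M : ℝ) : ℂ) (((j + ofB r2 n M) / M : ℝ) : ℂ)) :
    ‖(Dg n g M : ℂ) * ((T M n g k : ℂ) * (NN r1 n M k * NN r2 n M k)) -
      pre r1 n M * pre r2 n M * ∑' i : ℤ, ∑' j : ℤ,
        (χ (lp M (oo r1 r2 n M) ![(k : ℤ), i, j]) : ℂ) *
          FF r1 r2 n g M (rc (lp M (oo r1 r2 n M) ![(k : ℤ), i, j]))‖ ≤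
      2 ^ (2 * n - 4) * 2 ^ (2 * n - 4) * C1 * C2 * (M : ℝ) ^ (2 * n - 4 + 2 + (D1 + D2)) *
        Real.exp (M * c4) := by
  have hMpos : 0 < M := by omega
  have hM0 : (0 : ℝ) < M := by exact_mod_cast hMpos
  obtain ⟨x, hx⟩ : ∃ x : ℝ, x = (k + bt n + 1 / 2) / M := ⟨_, rfl⟩
  rw [← hx] at b1 s1 b2 s2
  have hS : 0 < S M k := S_pos (by omega)
  obtain ⟨hDg0, hDg1⟩ := Red_Dg n g M hn hg hgn hM
  have hT := T_le M n g k hg hgn hn hk hM
  have hT0 := T_nonneg M n g k hg hgn hn hM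
  -- the smooth part
  have hI : ∑ l ∈ Finset.range (k + 1), ∑ m ∈ Finset.range (k + 1), t1 l * t2 m *
      (χ ![x, (l + ofB r1 n M) / M, (m + ofB r2 n M) / M] : ℂ) =
      (pre r1 n M * S M k) * (pre r2 n M * S M k) * ∑' i : ℤ, ∑' j : ℤ,
        (χ ![x, (i + ofB r1 n M) / M, (j + ofB r2 n M) / M] : ℂ) *
        (DD r1 n M (x : ℂ) (((i + ofB r1 n M) / M : ℝ) : ℂ) *
          DD r2 n M (x : ℂ) (((j + ofB r2 n M) / M : ℝ) : ℂ)) := by
    rcases le_or_gt (61 / 100) x with hx1 | hx1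
    · refine Red_two (k + 1) t1 t2 (fun l => (l + ofB r1 n M) / M) (fun l => (l + ofB r2 n M) / M)
        (fun i => (i + ofB r1 n M) / M) (fun i => (i + ofB r2 n M) / M) _ _ _ _
        (fun a b => χ ![x, a, b]) (fun b => ?_) (fun a => ?_) (fun b => ?_)
      · refine s1 (fun z => χ ![x, z, b]) hx1 (fun h3 z => ?_) (fun z hz => ?_)
        · have h := hev ![x, z, b] 1 (by simp [Bs, h3])
          have h' : Function.update ![x, z, b] 1 (-(![x, z, b] : Fin 3 → ℝ) 1) = ![x, -z, b] := by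
            funext j
            fin_cases j <;> simp [Function.update]
          rw [h'] at h
          exact h
        · have h := (hsup _ hz).2.2.1
          simpa using h
      · refine s2 (fun z => χ ![x, a, z]) hx1 (fun h3 z => ?_) (fun z hz => ?_)
        · have h := hev ![x, a, z] 2 (by simp [Bs, h3])
          have h' : Function.update ![x, a, z] 2 (-(![x, a, z] : Fin 3 → ℝ) 2) = ![x, a, -z] := by
            funext j
            fin_cases j <;> simp [Function.update]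
          rw [h'] at h
          exact h
        · have h := (hsup _ hz).2.2.2
          simpa using h
      · refine (Red_fin M hMpos (ofB r1 n M) R).subset fun i hi => ?_
        have h := hR _ hi 1
        simpa using h
    · have h0 : ∀ a b : ℝ, χ ![x, a, b] = 0 := by
        intro a b
        by_contra hne
        have h := (hsup _ hne).1
        have h1 := Red_yl r1 r2
        simp only [Matrix.cons_val_zero] at h
        linarith
      simp [h0]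
  have hTC := T_Cc n g M k hg hgn hk hn
  have hTC' : (Dg n g M : ℂ) * ((T M n g k : ℂ) * (S M k : ℂ) ^ 2) =
      Cc n g M ((x : ℂ) - 1 / 2) := by
    have hy : ((yk n M k : ℝ) : ℂ) = (x : ℂ) - 1 / 2 := by
      unfold yk
      rw [hx]
      push_cast
      ring
    have hD0 : (Dg n g M : ℂ) ≠ 0 := by exact_mod_cast hDg0.ne'
    rw [hTC, hy]
    have hD1 : (S M (g - 1) : ℂ) * S M (n - g - 1) * S M (n - 2) = (Dg n g M : ℂ) := by
      unfold Dg
      push_cast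
      ring
    rw [hD1]
    field_simp
  have hlat : ∑' i : ℤ, ∑' j : ℤ, (χ (lp M (oo r1 r2 n M) ![(k : ℤ), i, j]) : ℂ) *
      FF r1 r2 n g M (rc (lp M (oo r1 r2 n M) ![(k : ℤ), i, j])) =
      Cc n g M ((x : ℂ) - 1 / 2) * ∑' i : ℤ, ∑' j : ℤ,
        (χ ![x, (i + ofB r1 n M) / M, (j + ofB r2 n M) / M] : ℂ) *
        (DD r1 n M (x : ℂ) (((i + ofB r1 n M) / M : ℝ) : ℂ) *
          DD r2 n M (x : ℂ) (((j + ofB r2 n M) / M : ℝ) : ℂ)) := by
    rw [← tsum_mul_left]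
    refine tsum_congr fun i => ?_
    rw [← tsum_mul_left]
    refine tsum_congr fun j => ?_
    rw [Red_lp, Int.cast_natCast, ← hx, Red_FF]
    ring
  have hdiff : (Dg n g M : ℂ) * ((T M n g k : ℂ) * (NN r1 n M k * NN r2 n M k)) -
      pre r1 n M * pre r2 n M * ∑' i : ℤ, ∑' j : ℤ,
        (χ (lp M (oo r1 r2 n M) ![(k : ℤ), i, j]) : ℂ) *
          FF r1 r2 n g M (rc (lp M (oo r1 r2 n M) ![(k : ℤ), i, j])) =
      (Dg n g M * T M n g k : ℝ) * ∑ l ∈ Finset.range (k + 1), ∑ m ∈ Finset.range (k + 1),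
        t1 l * t2 m * ((1 - χ ![x, (l + ofB r1 n M) / M, (m + ofB r2 n M) / M] : ℝ) : ℂ) := by
    have h1 : NN r1 n M k * NN r2 n M k = ∑ l ∈ Finset.range (k + 1),
        ∑ m ∈ Finset.range (k + 1), t1 l * t2 m := by
      rw [e1, e2, Finset.sum_mul_sum]
    have h2 : ∑ l ∈ Finset.range (k + 1), ∑ m ∈ Finset.range (k + 1),
        t1 l * t2 m * ((1 - χ ![x, (l + ofB r1 n M) / M, (m + ofB r2 n M) / M] : ℝ) : ℂ) =
        ∑ l ∈ Finset.range (k + 1), ∑ m ∈ Finset.range (k + 1), t1 l * t2 m -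
        ∑ l ∈ Finset.range (k + 1), ∑ m ∈ Finset.range (k + 1), t1 l * t2 m *
          (χ ![x, (l + ofB r1 n M) / M, (m + ofB r2 n M) / M] : ℂ) := by
      rw [← Finset.sum_sub_distrib]
      refine Finset.sum_congr rfl fun l _ => ?_
      rw [← Finset.sum_sub_distrib]
      refine Finset.sum_congr rfl fun m _ => ?_
      push_cast
      ring
    rw [h2, hI, hlat, h1, ← hTC']
    push_cast
    ring
  rw [hdiff]
  -- the rest
  have hterm : ∀ l ∈ Finset.range (k + 1), ∀ m ∈ Finset.range (k + 1),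
      S M k ^ 2 * ‖t1 l * t2 m *
        ((1 - χ ![x, (l + ofB r1 n M) / M, (m + ofB r2 n M) / M] : ℝ) : ℂ)‖ ≤
      C1 * C2 * (M : ℝ) ^ (D1 + D2) * Real.exp (M * c4) := by
    intro l hl m hm
    have hl' : l ≤ k := Nat.lt_succ_iff.1 (Finset.mem_range.1 hl)
    have hm' : m ≤ k := Nat.lt_succ_iff.1 (Finset.mem_range.1 hm)
    obtain ⟨a, ha⟩ : ∃ a : Fin 3 → ℝ, a = ![x, (l + ofB r1 n M) / M, (m + ofB r2 n M) / M] :=
      ⟨_, rfl⟩
    rw [← ha, norm_mul, norm_mul, Complex.norm_real, Real.norm_eq_abs]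
    have q0 : 0 ≤ 1 - χ a := by linarith [hχ1 a]
    have q1 : 1 - χ a ≤ 1 := by linarith [hχ0 a]
    rw [abs_of_nonneg q0]
    by_cases hc : χ a = 1
    · rw [hc]
      simp only [sub_self, mul_zero]
      positivity
    · have hEE : EE r1 r2 a ≤ c4 := by
        by_cases haK : a ∈ KS r1 r2
        · by_contra hlt
          push Not at hlt
          exact hc (hone a haK hlt.le)
        · have hb : 0 ≤ bt n := by
            unfold bt
            have : (2 : ℝ) ≤ n := by exact_mod_cast hn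
            linarith
          refine hfar a ?_ ?_ ?_ ?_ haK
          · rw [ha]
            simp only [Matrix.cons_val_zero]
            rw [hx]
            positivity
          · rw [ha]
            simp only [Matrix.cons_val_zero]
            rw [hx, div_le_one hM0]
            unfold bt
            have h1 : (k : ℝ) + n ≤ M + 1 := by exact_mod_cast hk
            have h2 : (2 : ℝ) ≤ n := by exact_mod_cast hn
            linarith
          · have h := Red_DB r1 n M k l hn hMpos hl'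
            rw [ha, hx]
            simpa using h
          · have h := Red_DB r2 n M k m hn hMpos hm'
            rw [ha, hx]
            simpa using h
      have hee : EE r1 r2 a = (Fr x + EB r1 x ((l + ofB r1 n M) / M)) +
          (Fr x + EB r2 x ((m + ofB r2 n M) / M)) := by
        rw [ha]
        unfold EE
        simp
        ring
      have hexp : Real.exp (M * EE r1 r2 a) =
          Real.exp (M * (Fr x + EB r1 x ((l + ofB r1 n M) / M))) *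
            Real.exp (M * (Fr x + EB r2 x ((m + ofB r2 n M) / M))) := by
        rw [← Real.exp_add, hee]
        congr 1
        ring
      calc S M k ^ 2 * (‖t1 l‖ * ‖t2 m‖ * (1 - χ a))
          ≤ S M k ^ 2 * (‖t1 l‖ * ‖t2 m‖ * 1) := by gcongr
        _ = (S M k * ‖t1 l‖) * (S M k * ‖t2 m‖) := by ring
        _ ≤ (C1 * (M : ℝ) ^ D1 * Real.exp (M * (Fr x + EB r1 x ((l + ofB r1 n M) / M)))) *
            (C2 * (M : ℝ) ^ D2 * Real.exp (M * (Fr x + EB r2 x ((m + ofB r2 n M) / M)))) :=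
            mul_le_mul (b1 l hl') (b2 m hm') (by positivity) (by positivity)
        _ = C1 * C2 * (M : ℝ) ^ (D1 + D2) * Real.exp (M * EE r1 r2 a) := by
            rw [hexp, pow_add]
            ring
        _ ≤ _ := by gcongr
  have hsum : S M k ^ 2 * ‖∑ l ∈ Finset.range (k + 1), ∑ m ∈ Finset.range (k + 1),
      t1 l * t2 m * ((1 - χ ![x, (l + ofB r1 n M) / M, (m + ofB r2 n M) / M] : ℝ) : ℂ)‖ ≤
      (M : ℝ) ^ 2 * (C1 * C2 * (M : ℝ) ^ (D1 + D2) * Real.exp (M * c4)) := by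
    have hkM : ((k + 1 : ℕ) : ℝ) ≤ M := by exact_mod_cast (by omega : k + 1 ≤ M)
    calc S M k ^ 2 * ‖∑ l ∈ Finset.range (k + 1), ∑ m ∈ Finset.range (k + 1),
        t1 l * t2 m * ((1 - χ ![x, (l + ofB r1 n M) / M, (m + ofB r2 n M) / M] : ℝ) : ℂ)‖
        ≤ S M k ^ 2 * ∑ l ∈ Finset.range (k + 1), ∑ m ∈ Finset.range (k + 1), ‖t1 l * t2 m *
          ((1 - χ ![x, (l + ofB r1 n M) / M, (m + ofB r2 n M) / M] : ℝ) : ℂ)‖ := by
          refine mul_le_mul_of_nonneg_left ?_ (by positivity)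
          refine (norm_sum_le _ _).trans (Finset.sum_le_sum fun l _ => norm_sum_le _ _)
      _ = ∑ l ∈ Finset.range (k + 1), ∑ m ∈ Finset.range (k + 1), S M k ^ 2 * ‖t1 l * t2 m *
          ((1 - χ ![x, (l + ofB r1 n M) / M, (m + ofB r2 n M) / M] : ℝ) : ℂ)‖ := by
          rw [Finset.mul_sum]
          exact Finset.sum_congr rfl fun l _ => by rw [Finset.mul_sum]
      _ ≤ ∑ _l ∈ Finset.range (k + 1), ∑ _m ∈ Finset.range (k + 1),
          C1 * C2 * (M : ℝ) ^ (D1 + D2) * Real.exp (M * c4) :=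
          Finset.sum_le_sum fun l hl => Finset.sum_le_sum fun m hm => hterm l hl m hm
      _ = ((k + 1 : ℕ) : ℝ) * (((k + 1 : ℕ) : ℝ) *
          (C1 * C2 * (M : ℝ) ^ (D1 + D2) * Real.exp (M * c4))) := by
          rw [Finset.sum_const, Finset.sum_const, Finset.card_range, nsmul_eq_mul, nsmul_eq_mul]
      _ ≤ (M : ℝ) * ((M : ℝ) * (C1 * C2 * (M : ℝ) ^ (D1 + D2) * Real.exp (M * c4))) := by
          gcongr
      _ = _ := by ring
  obtain ⟨Q, hQ⟩ : ∃ Q : ℝ, Q = ‖∑ l ∈ Finset.range (k + 1), ∑ m ∈ Finset.range (k + 1),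
      t1 l * t2 m * ((1 - χ ![x, (l + ofB r1 n M) / M, (m + ofB r2 n M) / M] : ℝ) : ℂ)‖ :=
    ⟨_, rfl⟩
  have hQ0 : 0 ≤ Q := by rw [hQ]; exact norm_nonneg _
  rw [norm_mul, Complex.norm_real, Real.norm_of_nonneg (by positivity), ← hQ]
  rw [← hQ] at hsum
  calc Dg n g M * T M n g k * Q
      ≤ 2 ^ (2 * n - 4) * ((2 * (M : ℝ)) ^ (2 * n - 4) * S M k ^ 2) * Q := by gcongr
    _ = 2 ^ (2 * n - 4) * (2 * (M : ℝ)) ^ (2 * n - 4) * (S M k ^ 2 * Q) := by ring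
    _ ≤ 2 ^ (2 * n - 4) * (2 * (M : ℝ)) ^ (2 * n - 4) *
        ((M : ℝ) ^ 2 * (C1 * C2 * (M : ℝ) ^ (D1 + D2) * Real.exp (M * c4))) := by gcongr
    _ = _ := by
        rw [mul_pow, pow_add, pow_add]
        ring

theorem red (r1 r2 : ℤ) (h1 : 2 ≤ |r1|) (h2 : 2 ≤ |r2|) (n g : ℕ) (hn : 2 ≤ n) (hg : 1 ≤ g)
    (hgn : g ≤ n - 1) (χ : (Fin 3 → ℝ) → ℝ) (c4 : ℝ)
    (hχ0 : ∀ a, 0 ≤ χ a) (hχ1 : ∀ a, χ a ≤ 1)
    (hev : ∀ a, ∀ j ∈ Bs r1 r2, χ (Function.update a j (-a j)) = χ a)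
    (hsup : ∀ a, χ a ≠ 0 → a ∈ KS r1 r2) (hcpt : HasCompactSupport χ)
    (hone : ∀ a ∈ KS r1 r2, c4 ≤ EE r1 r2 a → χ a = 1)
    (hfar : ∀ a : Fin 3 → ℝ, 0 ≤ a 0 → a 0 ≤ 1 → DB r1 (a 0) (a 1) → DB r2 (a 0) (a 2) →
      a ∉ KS r1 r2 → EE r1 r2 a ≤ c4) :
    ∃ C : ℝ, 0 < C ∧ ∃ D M0 : ℕ, ∀ M : ℕ, M0 ≤ M →
    ‖(Dg n g M : ℂ) * JN r1 r2 n g M - pre r1 n M * pre r2 n M *
      ∑' k : Fin 3 → ℤ, (χ (lp M (oo r1 r2 n M) k) : ℂ) *
        FF r1 r2 n g M (rc (lp M (oo r1 r2 n M) k))‖ ≤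
      C * (M : ℝ) ^ D * Real.exp (M * c4) := by
  obtain ⟨C1, hC1, D1, M1, H1⟩ := Red_blk r1 h1 n hn
  obtain ⟨C2, hC2, D2, M2, H2⟩ := Red_blk r2 h2 n hn
  obtain ⟨R, hRn⟩ := hcpt.isCompact.isBounded.exists_norm_le
  have hR : ∀ a, χ a ≠ 0 → ∀ j, |a j| ≤ R := fun a ha j =>
    (norm_le_pi_norm a j).trans (hRn a (subset_tsupport _ ha))
  refine ⟨2 ^ (2 * n - 4) * 2 ^ (2 * n - 4) * C1 * C2, by positivity,
    2 * n - 4 + 2 + (D1 + D2) + 1, max M1 M2 + 1000 * (n + 1), fun M hM => ?_⟩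
  have hMn : 1000 * (n + 1) ≤ M := le_trans (Nat.le_add_left _ _) hM
  have hMm : max M1 M2 ≤ M := le_trans (Nat.le_add_right _ _) hM
  have hM1 : M1 ≤ M := (le_max_left M1 M2).trans hMm
  have hM2 : M2 ≤ M := (le_max_right M1 M2).trans hMm
  have hnM : n ≤ M := by omega
  have hMpos : 0 < M := by omega
  have hM0 : (0 : ℝ) < M := by exact_mod_cast hMpos
  have hJ : JN r1 r2 n g M = ∑ k ∈ Finset.range (M + 2 - n),
      (T M n g k : ℂ) * (NN r1 n M k * NN r2 n M k) := by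
    unfold JN
    symm
    refine Finset.sum_subset (fun k hk => ?_) (fun k _ hk' => ?_)
    · rw [Finset.mem_range] at hk ⊢
      omega
    · rw [Finset.mem_range] at hk'
      rw [T_eq_zero M n g k hn hnM (by omega)]
      simp
  have hwin : ∀ k i j : ℤ, χ (lp M (oo r1 r2 n M) ![k, i, j]) ≠ 0 →
      0 ≤ k ∧ k < ((M + 2 - n : ℕ) : ℤ) := by
    intro k i j hne
    have hK := hsup _ hne
    have a1 := hK.1
    have a2 := hK.2.1
    have b1 := Red_yl r1 r2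
    have b2 := Red_yu r1 r2
    rw [Red_lp] at a1 a2
    simp only [Matrix.cons_val_zero] at a1 a2
    have c1 : 61 / 100 ≤ ((k : ℝ) + bt n + 1 / 2) / M := by linarith
    have c2 : ((k : ℝ) + bt n + 1 / 2) / M ≤ 88 / 100 := by linarith
    rw [le_div_iff₀ hM0] at c1
    rw [div_le_iff₀ hM0] at c2
    have hMn' : 1000 * ((n : ℝ) + 1) ≤ M := by exact_mod_cast hMn
    have hn' : (2 : ℝ) ≤ n := by exact_mod_cast hn
    unfold bt at c1 c2
    constructor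
    · have : (0 : ℝ) ≤ k := by linarith
      exact_mod_cast this
    · have h3 : (((M + 2 - n : ℕ) : ℤ) : ℝ) = M + 2 - n := by
        rw [Int.cast_natCast, Nat.cast_sub (by omega)]
        push_cast
        ring
      have : (k : ℝ) < (((M + 2 - n : ℕ) : ℤ) : ℝ) := by
        rw [h3]
        linarith
      exact_mod_cast this
  have hS : ∑' k : Fin 3 → ℤ, (χ (lp M (oo r1 r2 n M) k) : ℂ) *
      FF r1 r2 n g M (rc (lp M (oo r1 r2 n M) k)) = ∑ k ∈ Finset.range (M + 2 - n),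
      ∑' i : ℤ, ∑' j : ℤ, (χ (lp M (oo r1 r2 n M) ![(k : ℤ), i, j]) : ℂ) *
        FF r1 r2 n g M (rc (lp M (oo r1 r2 n M) ![(k : ℤ), i, j])) := by
    rw [Red_tsum]
    · rw [tsum_eq_sum (s := (Finset.range (M + 2 - n)).map Nat.castEmbedding)]
      · rw [Finset.sum_map]
        rfl
      · intro k hk
        have h0 : ∀ i j : ℤ, χ (lp M (oo r1 r2 n M) ![k, i, j]) = 0 := by
          intro i j
          by_contra hne
          obtain ⟨q1, q2⟩ := hwin k i j hne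
          apply hk
          rw [Finset.mem_map]
          refine ⟨k.toNat, ?_, ?_⟩
          · rw [Finset.mem_range]
            omega
          · simp only [Nat.castEmbedding_apply]
            omega
        simp [h0]
    · refine (Set.Finite.pi fun j => Red_fin M hMpos (oo r1 r2 n M j) R).subset fun K hK => ?_
      rw [Function.mem_support] at hK
      have hne : χ (lp M (oo r1 r2 n M) K) ≠ 0 := by
        intro h0
        apply hK
        rw [h0]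
        simp
      intro j _
      exact hR _ hne j
  rw [hJ, hS, Finset.mul_sum, Finset.mul_sum, ← Finset.sum_sub_distrib]
  have hk : ∀ k ∈ Finset.range (M + 2 - n),
      ‖(Dg n g M : ℂ) * ((T M n g k : ℂ) * (NN r1 n M k * NN r2 n M k)) -
      pre r1 n M * pre r2 n M * ∑' i : ℤ, ∑' j : ℤ,
        (χ (lp M (oo r1 r2 n M) ![(k : ℤ), i, j]) : ℂ) *
          FF r1 r2 n g M (rc (lp M (oo r1 r2 n M) ![(k : ℤ), i, j]))‖ ≤
      2 ^ (2 * n - 4) * 2 ^ (2 * n - 4) * C1 * C2 * (M : ℝ) ^ (2 * n - 4 + 2 + (D1 + D2)) *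
        Real.exp (M * c4) := by
    intro k hk
    rw [Finset.mem_range] at hk
    have hkn : k + n ≤ M + 1 := by omega
    obtain ⟨t1, e1, b1, s1⟩ := H1 M k hM1 hkn
    obtain ⟨t2, e2, b2, s2⟩ := H2 M k hM2 hkn
    exact Red_k r1 r2 n g hn hg hgn χ c4 hχ0 hχ1 hev hsup R hR hone hfar C1 C2 hC1 hC2 D1 D2 M k
      hnM hkn t1 t2 e1 b1 s1 e2 b2 s2
  refine (norm_sum_le _ _).trans ((Finset.sum_le_sum hk).trans ?_)
  rw [Finset.sum_const, Finset.card_range, nsmul_eq_mul]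
  have hN : ((M + 2 - n : ℕ) : ℝ) ≤ M := by exact_mod_cast (by omega : M + 2 - n ≤ M)
  calc ((M + 2 - n : ℕ) : ℝ) * (2 ^ (2 * n - 4) * 2 ^ (2 * n - 4) * C1 * C2 *
        (M : ℝ) ^ (2 * n - 4 + 2 + (D1 + D2)) * Real.exp (M * c4))
      ≤ (M : ℝ) * (2 ^ (2 * n - 4) * 2 ^ (2 * n - 4) * C1 * C2 *
        (M : ℝ) ^ (2 * n - 4 + 2 + (D1 + D2)) * Real.exp (M * c4)) :=
        mul_le_mul_of_nonneg_right hN (by positivity)
    _ = _ := by
        rw [pow_succ (M : ℝ) (2 * n - 4 + 2 + (D1 + D2))]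
        ring

end Pool.Agent.H63.GO
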