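import Pool.Agent.H63.GO.KDefs

/-! # Location of y: locB3 -/

namespace Pool.Agent.H63.GO

open Complex Filter Topology Pool.Agent.H63.VC Pool.Agent.H63.VC3

/-- The principal square root in coordinates. -/
private lemma KLocB3_sqrt (P : ℂ) (hP : 0 < P.re) :
    0 < (P ^ (1 / 2 : ℂ)).re ∧ (P ^ (1 / 2 : ℂ)).re ^ 2 - (P ^ (1 / 2 : ℂ)).im ^ 2 = P.re ∧
      2 * (P ^ (1 / 2 : ℂ)).re * (P ^ (1 / 2 : ℂ)).im = P.im := by
  have hP0 : P ≠ 0 := fun h => by rw [h] at hP; simp at hP
  have h2 : (P ^ (1 / 2 : ℂ)) ^ 2 = P := by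
    rw [← cpow_nat_mul]
    norm_num
  have h3 : 0 < (P ^ (1 / 2 : ℂ)).re := by
    rw [cpow_def_of_ne_zero hP0, exp_re]
    have h4 : (log P * (1 / 2)).im = arg P / 2 := by
      rw [show log P * (1 / 2) = ((1 / 2 : ℝ) : ℂ) * log P by push_cast; ring, im_ofReal_mul, log_im]
      ring
    rw [h4]
    have h5 := abs_arg_lt_pi_div_two_iff.mpr (Or.inl hP)
    rw [abs_lt] at h5
    have hpi := Real.pi_pos
    exact mul_pos (Real.exp_pos _) (Real.cos_pos_of_mem_Ioo ⟨by linarith only [h5.2, h5.1], by linarith only [h5.2,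
                                                                                                 h5.1]⟩)
  refine ⟨h3, ?_, ?_⟩
  · have h4 := congrArg Complex.re h2
    rw [sq, mul_re] at h4
    linarith only [h4]
  · have h4 := congrArg Complex.im h2
    rw [sq, mul_im] at h4
    linarith only [h4]

/-- The arctangent in coordinates. -/
private lemma KLocB3_atan (T : ℂ) (hp : 0 < T.re) :
    (arctan T).re = arg ((1 + T * I) / (1 - T * I)) / 2 ∧
    (arctan T).im = -(Real.log (((1 - T.im) ^ 2 + T.re ^ 2) / ((1 + T.im) ^ 2 + T.re ^ 2)) / 4) ∧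
    0 < ((1 + T * I) / (1 - T * I)).im ∧
    ((1 + T * I) / (1 - T * I)).im * (T.re ^ 2 + T.im ^ 2 - 1) =
      -((1 + T * I) / (1 - T * I)).re * (2 * T.re) := by
  obtain ⟨p, q⟩ := T
  simp only at hp ⊢
  set T : ℂ := ⟨p, q⟩ with hT
  have hD : 0 < (1 + q) ^ 2 + p ^ 2 := by positivity
  have hD' : 0 < (1 - q) ^ 2 + p ^ 2 := by positivity
  have hn1 : normSq (1 + T * I) = (1 - q) ^ 2 + p ^ 2 := by
    rw [normSq_apply]; simp [hT]; ring
  have hn2 : normSq (1 - T * I) = (1 + q) ^ 2 + p ^ 2 := by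
    rw [normSq_apply]; simp [hT]; ring
  have hZre : ((1 + T * I) / (1 - T * I)).re = (1 - q ^ 2 - p ^ 2) / ((1 + q) ^ 2 + p ^ 2) := by
    rw [div_re, hn2]; simp [hT]; field_simp; ring
  have hZim : ((1 + T * I) / (1 - T * I)).im = 2 * p / ((1 + q) ^ 2 + p ^ 2) := by
    rw [div_im, hn2]; simp [hT]; field_simp; ring
  refine ⟨?_, ?_, ?_, ?_⟩
  · rw [arctan, show -I / 2 * log ((1 + T * I) / (1 - T * I)) =
      ((1 / 2 : ℝ) : ℂ) * (-(I * log ((1 + T * I) / (1 - T * I)))) by push_cast; ring, re_ofReal_mul,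
      neg_re, I_mul_re, log_im]
    ring
  · rw [arctan, show -I / 2 * log ((1 + T * I) / (1 - T * I)) =
      ((1 / 2 : ℝ) : ℂ) * (-(I * log ((1 + T * I) / (1 - T * I)))) by push_cast; ring, im_ofReal_mul,
      neg_im, I_mul_im, log_re]
    have h1 : ((1 - q) ^ 2 + p ^ 2) / ((1 + q) ^ 2 + p ^ 2) = ‖(1 + T * I) / (1 - T * I)‖ ^ 2 := by
      rw [← normSq_eq_norm_sq, map_div₀, hn1, hn2]
    rw [h1, Real.log_pow]
    push_cast
    ring
  · rw [hZim]; positivity
  · rw [hZre, hZim]; field_simp; ring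

/-- Location of the arctangent of a square root. -/
private lemma KLocB3_loc (P : ℂ) (s : ℝ) (hs : s = 1 ∨ s = -1) (h1 : 186 / 100 ≤ P.re)
    (h2 : P.re ≤ 201 / 100) (h3 : -(71 / 100) ≤ s * P.im) (h4 : s * P.im ≤ 0) :
    27 / 100 ≤ (arctan (P ^ (1 / 2 : ℂ)) / Real.pi).re ∧
      (arctan (P ^ (1 / 2 : ℂ)) / Real.pi).re ≤ 33 / 100 ∧
      -(333 / 10000) ≤ s * (arctan (P ^ (1 / 2 : ℂ)) / Real.pi).im ∧
      s * (arctan (P ^ (1 / 2 : ℂ)) / Real.pi).im ≤ 0 := by
  obtain ⟨hp, hr, hi⟩ := KLocB3_sqrt P (by linarith only [h1])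
  set T := P ^ (1 / 2 : ℂ) with hT
  obtain ⟨a1, a2, a3, a4⟩ := KLocB3_atan T hp
  set Z := (1 + T * I) / (1 - T * I) with hZ
  set p := T.re
  set q := T.im
  have hpi1 : 3.14159 < Real.pi := by have := Real.pi_gt_d6; linarith only [this]
  have hpi2 : Real.pi < 3.1416 := by have := Real.pi_lt_d4; linarith only [this]
  have hpi := Real.pi_pos
  have hss : s * s = 1 := by rcases hs with h | h <;> rw [h] <;> norm_num
  have hp1 : 1363 / 1000 ≤ p := by (refine le_of_not_gt fun hng => ?_; linarith only [hng, hr, h1,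
                                     sq_nonneg (q), mul_pos (sub_pos.2 hng) (sub_pos.2 hp)])
  have hq1 : s * q ≤ 0 := by
    by_contra h
    push Not at h
    have : 0 < s * P.im := by rw [← hi]; linarith only [mul_pos hp h]
    linarith only [this, h4]
  have hq2 : -(256 / 1000) ≤ s * q := by
    by_contra h
    push Not at h
    have h5 : (256 / 1000) ^ 2 < (s * q) ^ 2 := by linarith only [h,
                                                     mul_pos (sub_pos.2 h) (sub_pos.2 h)]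
    have h6 : (s * q) ^ 2 = q ^ 2 := by linarith only [mul_nonneg (sq_nonneg (q)) (sub_nonneg.2 hss.le),
                                          mul_nonneg (sq_nonneg (q)) (sub_nonneg.2 hss.ge)]
    have h7 : 1387 / 1000 < p := by (refine lt_of_not_ge fun hng => ?_; linarith only [hng, h6, h5,
                                      hr, h1, mul_nonneg (sub_nonneg.2 hng) (sub_nonneg.2 hp.le)])
    have h8 : s * P.im = 2 * p * (s * q) := by rw [← hi]; ring
    linarith only [h8, h7, h, h3, mul_pos (sub_pos.2 h) (sub_pos.2 h7)]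
  have hqq : q ^ 2 = (s * q) ^ 2 := by linarith only [mul_nonneg (sq_nonneg (q)) (sub_nonneg.2 hss.le),
                                         mul_nonneg (sq_nonneg (q)) (sub_nonneg.2 hss.ge)]
  have hp2 : p ≤ 1441 / 1000 := by (refine le_of_not_gt fun hng => ?_; linarith only [hng, hq2, hr,
                                     h2, mul_nonneg (sub_nonneg.2 hq1) (sub_nonneg.2 hq2),
                                     mul_pos (sub_pos.2 hng) (sub_pos.2 hng),
                                     mul_nonneg (sq_nonneg (q)) (sub_nonneg.2 hss.le),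
                                     mul_nonneg (sq_nonneg (q)) (sub_nonneg.2 hss.ge)])
  have hD : 0 < (1 + q) ^ 2 + p ^ 2 := by positivity
  have hD' : 0 < (1 - q) ^ 2 + p ^ 2 := by positivity
  have him : -(1046 / 10000) ≤ s * (arctan T).im ∧ s * (arctan T).im ≤ 0 := by
    rw [a2]
    rcases hs with h | h
    · rw [h] at hq1 hq2 ⊢
      have h5 : Real.log (((1 - q) ^ 2 + p ^ 2) / ((1 + q) ^ 2 + p ^ 2)) ≤
          ((1 - q) ^ 2 + p ^ 2) / ((1 + q) ^ 2 + p ^ 2) - 1 := Real.log_le_sub_one_of_pos (by positivity)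
      have h6 : ((1 - q) ^ 2 + p ^ 2) / ((1 + q) ^ 2 + p ^ 2) - 1 ≤ 4 * (1046 / 10000) := by
        rw [div_sub_one hD.ne', div_le_iff₀ hD]
        (refine le_of_not_gt fun hng => ?_; linarith only [hng, hq2, hr, h1,
          mul_nonneg (sq_nonneg (1 * 1 + 1 * q)) (sub_nonneg.2 hq2),
          mul_nonneg (sq_nonneg (q)) (sub_nonneg.2 hng.le),
          mul_nonneg (sq_nonneg (q)) (sq_nonneg (p)), mul_nonneg (sq_nonneg (q)) (sq_nonneg (q))])
      have h7 : 0 ≤ Real.log (((1 - q) ^ 2 + p ^ 2) / ((1 + q) ^ 2 + p ^ 2)) := by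
        apply Real.log_nonneg
        rw [le_div_iff₀ hD]
        linarith only [hq1]
      constructor <;> linarith
    · rw [h] at hq1 hq2 ⊢
      have h5 : Real.log (((1 + q) ^ 2 + p ^ 2) / ((1 - q) ^ 2 + p ^ 2)) ≤
          ((1 + q) ^ 2 + p ^ 2) / ((1 - q) ^ 2 + p ^ 2) - 1 := Real.log_le_sub_one_of_pos (by positivity)
      have h6 : ((1 + q) ^ 2 + p ^ 2) / ((1 - q) ^ 2 + p ^ 2) - 1 ≤ 4 * (1046 / 10000) := by
        rw [div_sub_one hD'.ne', div_le_iff₀ hD']
        (refine le_of_not_gt fun hng => ?_; linarith only [hng, hq2, hr, h1,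
          mul_nonneg (sq_nonneg (1 * 1 - 1 * q)) (sub_nonneg.2 hq2),
          mul_nonneg (sq_nonneg (q)) (sub_nonneg.2 hng.le),
          mul_nonneg (sq_nonneg (q)) (sq_nonneg (p)), mul_nonneg (sq_nonneg (q)) (sq_nonneg (q))])
      have h7 : 0 ≤ Real.log (((1 + q) ^ 2 + p ^ 2) / ((1 - q) ^ 2 + p ^ 2)) := by
        apply Real.log_nonneg
        rw [le_div_iff₀ hD']
        linarith only [hq1]
      have h8 : Real.log (((1 - q) ^ 2 + p ^ 2) / ((1 + q) ^ 2 + p ^ 2)) =
          -Real.log (((1 + q) ^ 2 + p ^ 2) / ((1 - q) ^ 2 + p ^ 2)) := by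
        rw [← Real.log_inv, inv_div]
      rw [h8]
      constructor <;> linarith
  have harg0 : 0 < arg Z := by
    rcases lt_trichotomy (arg Z) 0 with h | h | h
    · exact absurd (arg_neg_iff.mp h) (by linarith only [a3])
    · rw [arg_eq_zero_iff] at h; linarith only [h.2, a3]
    · exact h
  have harg1 := arg_le_pi Z
  have hZ0 : Z ≠ 0 := fun h => by rw [h] at a3; simp at a3
  have hnZ : 0 < ‖Z‖ := norm_pos_iff.mpr hZ0
  have hnZ2 : ‖Z‖ ^ 2 = Z.re ^ 2 + Z.im ^ 2 := by rw [← normSq_eq_norm_sq, normSq_apply]; ring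
  have hcos : Real.cos (arg Z) * ‖Z‖ = Z.re := by rw [cos_arg hZ0]; field_simp
  set m := p ^ 2 + q ^ 2 - 1 with hm
  have hm1 : 86 / 100 ≤ m := by linarith only [hr, h1, sq_nonneg (q)]
  have hm2 : m ≤ 115 / 100 := by linarith only [hp2, hqq, hq2,
                                   mul_nonneg (sub_nonneg.2 hq1) (sub_nonneg.2 hq2),
                                   mul_nonneg (sub_nonneg.2 hp1) (sub_nonneg.2 hp2)]
  have hre : Z.re < 0 := by
    have : 0 < Z.im * m := by positivity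
    (refine lt_of_not_ge fun hng => ?_; linarith only [hng, this, a4,
      mul_nonneg (sub_nonneg.2 hng) (sub_nonneg.2 hp1)])
  have hbase : Z.im * m = -Z.re * (2 * p) := a4
  have hl : -(47 / 100) * ‖Z‖ ≤ Z.re := by
    have h5 : (-Z.re) ^ 2 ≤ (47 / 100 * ‖Z‖) ^ 2 := by
      rw [mul_pow, hnZ2]
      have h6 : -Z.re * (2 * 1363 / 1000) ≤ Z.im * (115 / 100) := by (refine le_of_not_gt fun hng => ?_; linarith only [hng,
                                                                       hbase,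
                                                                       mul_nonneg (sub_nonneg.2 hm2) (sub_nonneg.2 hre.le),
                                                                       mul_nonneg (sub_nonneg.2 hp1) (sub_nonneg.2 hre.le),
                                                                       mul_nonneg (sub_nonneg.2 hng.le) (sub_nonneg.2 hm1)])
      linarith only [mul_nonneg (sub_nonneg.2 h6) (sub_nonneg.2 h6),
        mul_nonneg (sub_nonneg.2 hre.le) (sub_nonneg.2 h6), mul_pos (sub_pos.2 hre) (sub_pos.2 hre)]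
    have h7 := abs_le_of_sq_le_sq' h5 (by positivity)
    linarith only [h7.2]
  have hu : Z.re ≤ -(126 / 1000) * ‖Z‖ := by
    have h5 : (126 / 1000 * ‖Z‖) ^ 2 ≤ (-Z.re) ^ 2 := by
      rw [mul_pow, hnZ2]
      have h6 : Z.im * (86 / 100) ≤ -Z.re * (2 * 1441 / 1000) := by (refine le_of_not_gt fun hng => ?_; linarith only [hng,
                                                                      hbase,
                                                                      mul_nonneg (sub_nonneg.2 hm1) (sub_nonneg.2 hre.le),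
                                                                      mul_nonneg (sub_nonneg.2 hp2) (sub_nonneg.2 hre.le),
                                                                      mul_nonneg (sub_nonneg.2 hng.le) (sub_nonneg.2 hm1)])
      linarith only [mul_nonneg (sub_nonneg.2 h6) (sub_nonneg.2 h6),
        mul_nonneg (sub_nonneg.2 a3.le) (sub_nonneg.2 h6), mul_pos (sub_pos.2 a3) (sub_pos.2 a3)]
    have h7 := abs_le_of_sq_le_sq' h5 (by linarith only [hre])
    linarith only [h7.2]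
  have hre2 : 54 / 100 * Real.pi ≤ arg Z ∧ arg Z ≤ 66 / 100 * Real.pi := by
    constructor
    · by_contra h
      push Not at h
      have h5 := Real.cos_lt_cos_of_nonneg_of_le_pi harg0.le (by linarith only [hpi1]) h
      have h6 : Real.cos (54 / 100 * Real.pi) = -Real.sin (4 / 100 * Real.pi) := by
        rw [show 54 / 100 * Real.pi = 4 / 100 * Real.pi + Real.pi / 2 by ring, Real.cos_add_pi_div_two]
      have h7 : Real.sin (4 / 100 * Real.pi) ≤ 4 / 100 * Real.pi := Real.sin_le (by positivity)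
      have h8 : -(126 / 1000) < Real.cos (arg Z) := by linarith only [h7, h6, h5, hpi2, hpi1]
      linarith only [hu, hcos, mul_nonneg (sub_nonneg.2 hl) (sub_nonneg.2 h8.le),
        mul_pos (sub_pos.2 hre) (sub_pos.2 h8)]
    · by_contra h
      push Not at h
      have h5 := Real.cos_lt_cos_of_nonneg_of_le_pi (by positivity) harg1 h
      have h6 : Real.cos (66 / 100 * Real.pi) = -Real.sin (16 / 100 * Real.pi) := by
        rw [show 66 / 100 * Real.pi = 16 / 100 * Real.pi + Real.pi / 2 by ring, Real.cos_add_pi_div_two]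
      have h7 : 16 / 100 * Real.pi - (16 / 100 * Real.pi) ^ 3 / 6 < Real.sin (16 / 100 * Real.pi) :=
        Real.sin_gt_sub_cube (by positivity)
      have h9 : (16 / 100 * Real.pi) ^ 3 ≤ (16 / 100 * 3.1416) ^ 3 := pow_le_pow_left₀ (by positivity) (by linarith only [hpi2]) 3
      have h8 : Real.cos (arg Z) < -(47 / 100) := by norm_num at h9; linarith only [h9, h7, h6, h5,
                                                                       hpi2, hpi1]
      linarith only [hl, hcos, mul_nonneg (sub_nonneg.2 hl) (sub_nonneg.2 h8.le),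
        mul_pos (sub_pos.2 hre) (sub_pos.2 h8)]
  rw [div_ofReal_re, div_ofReal_im, a1]
  refine ⟨?_, ?_, ?_, ?_⟩
  · rw [le_div_iff₀ hpi]; linarith only [hre2.1]
  · rw [div_le_iff₀ hpi]; linarith only [hre2.2]
  · rw [mul_div_assoc', le_div_iff₀ hpi]; linarith only [him.1, hpi2, hpi1]
  · rw [mul_div_assoc']; exact div_nonpos_of_nonpos_of_nonneg him.2 hpi.le

/-- Taylor bound for the cosine. -/
private lemma KLocB3_cos {z : ℂ} (hz : ‖z‖ ≤ 1) : ‖cos z - (1 - z ^ 2 / 2)‖ ≤ ‖z‖ ^ 4 * (5 / 96) := by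
  have h1 : ‖exp (z * I) - (1 + z * I - z ^ 2 / 2 - z ^ 3 / 6 * I)‖ ≤ ‖z‖ ^ 4 * (5 / 96) := by
    have h := exp_bound (x := z * I) (by simpa using hz) (n := 4) (by norm_num)
    rw [norm_mul, norm_I, mul_one] at h
    convert h using 2
    · simp only [Finset.sum_range_succ, Finset.sum_range_zero, Nat.factorial]
      push_cast
      linear_combination (z ^ 2 / 2 + z ^ 3 * I / 6) * I_sq
    · simp [Nat.factorial]; norm_num
  have h2 : ‖exp (-z * I) - (1 - z * I - z ^ 2 / 2 + z ^ 3 / 6 * I)‖ ≤ ‖z‖ ^ 4 * (5 / 96) := by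
    have h := exp_bound (x := -z * I) (by simpa using hz) (n := 4) (by norm_num)
    rw [norm_mul, norm_I, mul_one, norm_neg] at h
    convert h using 2
    · simp only [Finset.sum_range_succ, Finset.sum_range_zero, Nat.factorial]
      push_cast
      linear_combination (z ^ 2 / 2 - z ^ 3 * I / 6) * I_sq
    · simp [Nat.factorial]; norm_num
  have h3 : cos z - (1 - z ^ 2 / 2) = (1 / 2 : ℝ) * ((exp (z * I) - (1 + z * I - z ^ 2 / 2 - z ^ 3 / 6 * I)) +
      (exp (-z * I) - (1 - z * I - z ^ 2 / 2 + z ^ 3 / 6 * I))) := by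
    rw [cos]; push_cast; ring
  rw [h3, norm_mul, norm_real, Real.norm_eq_abs, abs_of_pos (by norm_num : (0 : ℝ) < 1 / 2)]
  have h4 := norm_add_le (exp (z * I) - (1 + z * I - z ^ 2 / 2 - z ^ 3 / 6 * I))
    (exp (-z * I) - (1 - z * I - z ^ 2 / 2 + z ^ 3 / 6 * I))
  linarith only [h4, h2, h1]

/-- Taylor bound for the sine. -/
private lemma KLocB3_sin {z : ℂ} (hz : ‖z‖ ≤ 1) : ‖sin z - (z - z ^ 3 / 6)‖ ≤ ‖z‖ ^ 4 * (5 / 96) := by
  have h1 : ‖exp (z * I) - (1 + z * I - z ^ 2 / 2 - z ^ 3 / 6 * I)‖ ≤ ‖z‖ ^ 4 * (5 / 96) := by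
    have h := exp_bound (x := z * I) (by simpa using hz) (n := 4) (by norm_num)
    rw [norm_mul, norm_I, mul_one] at h
    convert h using 2
    · simp only [Finset.sum_range_succ, Finset.sum_range_zero, Nat.factorial]
      push_cast
      linear_combination (z ^ 2 / 2 + z ^ 3 * I / 6) * I_sq
    · simp [Nat.factorial]; norm_num
  have h2 : ‖exp (-z * I) - (1 - z * I - z ^ 2 / 2 + z ^ 3 / 6 * I)‖ ≤ ‖z‖ ^ 4 * (5 / 96) := by
    have h := exp_bound (x := -z * I) (by simpa using hz) (n := 4) (by norm_num)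
    rw [norm_mul, norm_I, mul_one, norm_neg] at h
    convert h using 2
    · simp only [Finset.sum_range_succ, Finset.sum_range_zero, Nat.factorial]
      push_cast
      linear_combination (z ^ 2 / 2 - z ^ 3 * I / 6) * I_sq
    · simp [Nat.factorial]; norm_num
  have h3 : sin z - (z - z ^ 3 / 6) = I / 2 * ((exp (-z * I) - (1 - z * I - z ^ 2 / 2 + z ^ 3 / 6 * I)) -
      (exp (z * I) - (1 + z * I - z ^ 2 / 2 - z ^ 3 / 6 * I))) := by
    rw [sin]
    linear_combination (-(z - z ^ 3 / 6)) * I_sq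
  rw [h3, norm_mul, norm_div, norm_I]
  have h4 := norm_sub_le (exp (-z * I) - (1 - z * I - z ^ 2 / 2 + z ^ 3 / 6 * I))
    (exp (z * I) - (1 + z * I - z ^ 2 / 2 - z ^ 3 / 6 * I))
  have h5 : ‖(2 : ℂ)‖ = 2 := by simp
  rw [h5]
  linarith only [h4, h2, h1]

/-- The cosine of the block variable with `|r| = 3`. -/
private lemma KLocB3_k2 (w : ℂ) (t : ℝ) (ht : t = 1 ∨ t = -1)
    (hw : ‖w + t / 6 - (t / 360 + 7 / 300 * I)‖ ≤ 1 / 120) :
    ‖cos (Real.pi * w) - (8727 / 10000 + 361 / 10000 * t * I)‖ ≤ 135 / 10000 := by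
  have hpi1 : 3.14159 < Real.pi := by have := Real.pi_gt_d6; linarith only [this]
  have hpi2 : Real.pi < 3.1416 := by have := Real.pi_lt_d4; linarith only [this]
  have hpi := Real.pi_pos
  have htt : t * t = 1 := by rcases ht with h | h <;> rw [h] <;> norm_num
  set z : ℂ := Real.pi * (w + t / 6) with hz
  set z0 : ℂ := Real.pi * (t / 360 + 7 / 300 * I) with hz0
  set c : ℝ := √3 / 2 with hc
  have hc1 : 173205 / 200000 < c := by
    have : (1.73205 : ℝ) < √3 := Real.lt_sqrt_of_sq_lt (by norm_num)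
    rw [hc]; linarith only [this]
  have hc2 : c < 173206 / 200000 := by
    have : √3 < (1.73206 : ℝ) := by rw [Real.sqrt_lt' (by norm_num)]; norm_num
    rw [hc]; linarith only [this]
  have he : ‖z - z0‖ ≤ 2618 / 100000 := by
    rw [hz, hz0, ← mul_sub, norm_mul, norm_real, Real.norm_eq_abs, abs_of_pos hpi]
    calc Real.pi * _ ≤ Real.pi * (1 / 120) := mul_le_mul_of_nonneg_left hw hpi.le
      _ ≤ _ := by linarith only [hpi2]
  have hz0n : ‖z0‖ ≤ 7383 / 100000 := by
    rw [hz0, norm_mul, norm_real, Real.norm_eq_abs, abs_of_pos hpi]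
    have h1 : ‖(t / 360 + 7 / 300 * I : ℂ)‖ ≤ 235 / 10000 := by
      rw [← sq_le_sq₀ (norm_nonneg _) (by norm_num), ← normSq_eq_norm_sq, normSq_apply]
      simp
      linarith only [htt]
    calc Real.pi * _ ≤ 3.1416 * (235 / 10000) := mul_le_mul hpi2.le h1 (norm_nonneg _) (by norm_num)
      _ ≤ _ := by norm_num
  have hzn : ‖z‖ ≤ 1001 / 10000 := by
    have := norm_add_le (z - z0) z0
    rw [sub_add_cancel] at this
    linarith only [this, hz0n, he, hpi2, hpi1]
  have hcosw : cos (Real.pi * w) = c * cos z + t / 2 * sin z := by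
    have h1 : (Real.pi * w : ℂ) = z - Real.pi / 6 * t := by rw [hz]; ring
    have h2 : cos (Real.pi / 6 * t : ℂ) = c := by
      rw [show (Real.pi / 6 * t : ℂ) = ((Real.pi / 6 * t : ℝ) : ℂ) by push_cast; ring, ← ofReal_cos]
      rcases ht with h | h <;> rw [h] <;> simp [hc, Real.cos_pi_div_six]
    have h3 : sin (Real.pi / 6 * t : ℂ) = t / 2 := by
      rw [show (Real.pi / 6 * t : ℂ) = ((Real.pi / 6 * t : ℝ) : ℂ) by push_cast; ring, ← ofReal_sin]
      rcases ht with h | h
      · rw [h]; simp [Real.sin_pi_div_six]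
      · rw [h]; simp [Real.sin_pi_div_six]; norm_num
    rw [h1, cos_sub, h2, h3]
    ring
  have hcz := KLocB3_cos (z := z) (by linarith only [hzn, hpi2, hpi1])
  have hsz := KLocB3_sin (z := z) (by linarith only [hzn, hpi2, hpi1])
  have hz4 : ‖z‖ ^ 4 * (5 / 96) ≤ 1 / 100000 := by
    have : ‖z‖ ^ 4 ≤ (1001 / 10000) ^ 4 := pow_le_pow_left₀ (norm_nonneg _) hzn 4
    norm_num at this ⊢
    linarith only [this, hpi2, hpi1]
  have hz3 : ‖z‖ ^ 3 ≤ (1001 / 10000) ^ 3 := pow_le_pow_left₀ (norm_nonneg _) hzn 3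
  -- decomposition
  have hdec : cos (Real.pi * w) - (8727 / 10000 + 361 / 10000 * t * I) =
      c * (cos z - (1 - z ^ 2 / 2)) + t / 2 * (sin z - (z - z ^ 3 / 6)) - t / 12 * z ^ 3 +
      (z - z0) * (t / 2 - c * z0 - c / 2 * (z - z0)) +
      (c * (1 - z0 ^ 2 / 2) + t / 2 * z0 - (8727 / 10000 + 361 / 10000 * t * I)) := by
    rw [hcosw]; ring
  have ht1 : ‖(t : ℂ)‖ = 1 := by
    rw [norm_real, Real.norm_eq_abs]; rcases ht with h | h <;> rw [h] <;> simp
  have hcn : ‖(c : ℂ)‖ = c := by rw [norm_real, Real.norm_eq_abs, abs_of_pos (by linarith only [hc1,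
                                                                                   hpi2, hpi1])]
  have e1 : ‖(c : ℂ) * (cos z - (1 - z ^ 2 / 2))‖ ≤ 1 / 100000 := by
    rw [norm_mul, hcn]
    (refine le_of_not_gt fun hng => ?_; linarith only [hz4, hcz, hc2,
      mul_nonneg (sub_nonneg.2 hc1.le) (sub_nonneg.2 hz4),
      mul_nonneg (sub_nonneg.2 hc1.le) (sub_nonneg.2 hcz), mul_pos (sub_pos.2 hc1) (sub_pos.2 hc2),
      mul_pos (sub_pos.2 hc1) (sub_pos.2 hc1), mul_pos (sub_pos.2 hng) (sub_pos.2 hc2),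
      mul_pos (sub_pos.2 hng) (sub_pos.2 hc1)])
  have e2 : ‖(t / 2 : ℂ) * (sin z - (z - z ^ 3 / 6))‖ ≤ 1 / 200000 := by
    rw [norm_mul, norm_div, ht1, show ‖(2 : ℂ)‖ = 2 by simp]
    linarith only [hz4, hsz]
  have e3 : ‖(t / 12 : ℂ) * z ^ 3‖ ≤ 84 / 1000000 := by
    rw [norm_mul, norm_div, ht1, norm_pow, show ‖(12 : ℂ)‖ = 12 by simp]
    norm_num at hz3 ⊢
    linarith only [hz3, hpi2, hpi1]
  have e4 : ‖(z - z0) * (t / 2 - c * z0 - c / 2 * (z - z0))‖ ≤ 2618 / 100000 * (509 / 1000) := by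
    rw [norm_mul]
    refine mul_le_mul he ?_ (norm_nonneg _) (by norm_num)
    have h1 : ‖(t / 2 - c * z0 : ℂ)‖ ≤ 497 / 1000 := by
      rw [← sq_le_sq₀ (norm_nonneg _) (by norm_num), ← normSq_eq_norm_sq, normSq_apply, hz0]
      have h2 : ((t / 2 - c * (Real.pi * (t / 360 + 7 / 300 * I))) : ℂ).re = t / 2 - c * Real.pi * (t / 360) := by
        simp; ring
      have h3 : ((t / 2 - c * (Real.pi * (t / 360 + 7 / 300 * I))) : ℂ).im = -(c * Real.pi * (7 / 300)) := by
        simp; ring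
      rw [h2, h3]
      have h4 : 27206 / 10000 ≤ c * Real.pi := by linarith only [hc1, hpi1,
                                                    mul_pos (sub_pos.2 hpi1) (sub_pos.2 hc1)]
      have h5 : c * Real.pi ≤ 27208 / 10000 := by (refine le_of_not_gt fun hng => ?_; linarith only [hc2,
                                                    hpi2, mul_pos (sub_pos.2 hpi1) (sub_pos.2 hc2),
                                                    mul_pos (sub_pos.2 hpi1) (sub_pos.2 hpi2),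
                                                    mul_pos (sub_pos.2 hpi1) (sub_pos.2 hpi1),
                                                    mul_pos (sub_pos.2 hng) (sub_pos.2 hpi2),
                                                    mul_pos (sub_pos.2 hng) (sub_pos.2 hpi1)])
      have h6 : (t / 2 - c * Real.pi * (t / 360)) * (t / 2 - c * Real.pi * (t / 360)) =
          (1 / 2 - c * Real.pi / 360) ^ 2 := by
        linear_combination (1 / 2 - c * Real.pi / 360) ^ 2 * htt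
      rw [h6]
      (refine le_of_not_gt fun hng => ?_; linarith only [hng, h5,
        mul_nonneg (sub_nonneg.2 hng.le) (sub_nonneg.2 h5),
        mul_nonneg (sq_nonneg (180 * 1 - 1 * c * (1 * Real.pi))) (sub_nonneg.2 h4)])
    have h2 : ‖(c / 2 * (z - z0) : ℂ)‖ ≤ 12 / 1000 := by
      rw [norm_mul, norm_div, hcn, show ‖(2 : ℂ)‖ = 2 by simp]
      (refine le_of_not_gt fun hng => ?_; linarith only [he, hc2,
        mul_nonneg (sub_nonneg.2 hc1.le) (sub_nonneg.2 he), mul_pos (sub_pos.2 hc1) (sub_pos.2 hc2),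
        mul_pos (sub_pos.2 hc1) (sub_pos.2 hc1), mul_pos (sub_pos.2 hng) (sub_pos.2 hc2),
        mul_pos (sub_pos.2 hng) (sub_pos.2 hc1)])
    have h3 := norm_sub_le (t / 2 - c * z0 : ℂ) (c / 2 * (z - z0))
    linarith only [h3, h2, h1]
  have e5 : ‖(c * (1 - z0 ^ 2 / 2) + t / 2 * z0 - (8727 / 10000 + 361 / 10000 * t * I) : ℂ)‖ ≤ 7 / 100000 := by
    have h1 : (c * (1 - z0 ^ 2 / 2) + t / 2 * z0 - (8727 / 10000 + 361 / 10000 * t * I) : ℂ) =
        ((c * (1 - Real.pi ^ 2 * (1 / 129600 - 49 / 90000) / 2) + Real.pi / 720 - 8727 / 10000 : ℝ) : ℂ) +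
        ((t * (7 / 600 * Real.pi - c * Real.pi ^ 2 * (7 / 108000) - 361 / 10000) : ℝ) : ℂ) * I := by
      have htc : (t : ℂ) * t = 1 := by rw [← ofReal_mul, htt, ofReal_one]
      rw [hz0]
      push_cast
      linear_combination (-(c * Real.pi ^ 2 * 49 / 180000 : ℂ)) * I_sq +
        (-(c * Real.pi ^ 2 / 259200 : ℂ) + Real.pi / 720) * htc
    have hq1 : 986 / 100 ≤ Real.pi ^ 2 := by linarith only [hpi1,
                                               mul_pos (sub_pos.2 hpi1) (sub_pos.2 hpi1)]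
    have hq2 : Real.pi ^ 2 ≤ 988 / 100 := by (refine le_of_not_gt fun hng => ?_; linarith only [hpi2,
                                               hpi1, mul_pos (sub_pos.2 hpi1) (sub_pos.2 hpi2),
                                               mul_pos (sub_pos.2 hng) (sub_pos.2 hpi2),
                                               mul_pos (sub_pos.2 hng) (sub_pos.2 hpi1)])
    have hcq1 : 853 / 100 ≤ c * Real.pi ^ 2 := by linarith only [hpi1,
                                                    mul_pos (sub_pos.2 hpi1) (sub_pos.2 hpi1),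
                                                    mul_nonneg (sq_nonneg (1 * Real.pi)) (sub_nonneg.2 hc1.le)]
    have hcq2 : c * Real.pi ^ 2 ≤ 856 / 100 := by (refine le_of_not_gt fun hng => ?_; linarith only [hpi2,
                                                    hpi1, mul_pos (sub_pos.2 hpi1) (sub_pos.2 hpi2),
                                                    mul_pos (sub_pos.2 hng) (sub_pos.2 hpi2),
                                                    mul_pos (sub_pos.2 hng) (sub_pos.2 hpi1),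
                                                    mul_nonneg (sq_nonneg (1 * Real.pi)) (sub_nonneg.2 hc2.le)])
    rw [h1]
    refine (norm_add_le _ _).trans ?_
    rw [norm_mul, norm_I, mul_one, norm_real, norm_real, Real.norm_eq_abs, Real.norm_eq_abs, abs_mul]
    have h2 : |t| = 1 := by rcases ht with h | h <;> rw [h] <;> simp
    rw [h2, one_mul]
    have h3 : |c * (1 - Real.pi ^ 2 * (1 / 129600 - 49 / 90000) / 2) + Real.pi / 720 - 8727 / 10000| ≤ 35 / 1000000 := by
      rw [abs_le]; constructor <;> linarith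
    have h4 : |7 / 600 * Real.pi - c * Real.pi ^ 2 * (7 / 108000) - 361 / 10000| ≤ 35 / 1000000 := by
      rw [abs_le]; constructor <;> linarith
    linarith only [h4, h3]
  rw [hdec]
  have f1 := norm_add_le (c * (cos z - (1 - z ^ 2 / 2)) + t / 2 * (sin z - (z - z ^ 3 / 6)) - t / 12 * z ^ 3 +
      (z - z0) * (t / 2 - c * z0 - c / 2 * (z - z0)))
      (c * (1 - z0 ^ 2 / 2) + t / 2 * z0 - (8727 / 10000 + 361 / 10000 * t * I) : ℂ)
  have f2 := norm_add_le (c * (cos z - (1 - z ^ 2 / 2)) + t / 2 * (sin z - (z - z ^ 3 / 6)) - t / 12 * z ^ 3)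
      ((z - z0) * (t / 2 - c * z0 - c / 2 * (z - z0)))
  have f3 := norm_sub_le (c * (cos z - (1 - z ^ 2 / 2)) + t / 2 * (sin z - (z - z ^ 3 / 6))) (t / 12 * z ^ 3)
  have f4 := norm_add_le (c * (cos z - (1 - z ^ 2 / 2))) (t / 2 * (sin z - (z - z ^ 3 / 6)))
  linarith only [f4, f3, f2, f1, e5, e4, e3, e2, e1, hpi2, hpi1]

/-- Perturbation estimate. -/
private lemma KLocB3_est (g g0 k κ A0 B0 c : ℂ) (hc : ‖c‖ = 2) (hg : g ^ 2 = 1 + c * k) (hgp : 0 < g.re)
    (h0 : ‖1 + c * κ - g0 ^ 2‖ ≤ 3 / 10000) (hg0 : 12 / 10 ≤ g0.re) (hk : ‖k - κ‖ ≤ 135 / 10000)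
    (hκ : ‖κ‖ ≤ 8735 / 10000) (hκ' : 873 / 1000 ≤ ‖κ‖) (hA : ‖4 - A0 * (1 + g0)‖ ≤ 1 / 1000)
    (hA0 : ‖A0‖ ≤ 1724 / 1000) (hB : ‖1 - B0 * κ ^ 2‖ ≤ 1 / 1000) (hB0 : ‖B0‖ ≤ 1311 / 1000) :
    ‖4 / (1 + g) + 1 / k ^ 2 - 1 - (A0 + B0 - 1)‖ ≤ 63 / 1000 := by
  have h1 : ‖g - g0‖ ≤ 2275 / 100000 := by
    have h2 : (g - g0) * (g + g0) = c * (k - κ) + (1 + c * κ - g0 ^ 2) := by linear_combination hg
    have h3 : ‖(g - g0) * (g + g0)‖ ≤ 273 / 10000 := by
      rw [h2]
      refine (norm_add_le _ _).trans ?_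
      rw [norm_mul, hc]
      linarith only [hk, h0]
    rw [norm_mul] at h3
    have h4 : 12 / 10 ≤ ‖g + g0‖ := by
      have := re_le_norm (g + g0)
      rw [add_re] at this
      linarith only [this, hg0, hgp]
    (refine le_of_not_gt fun hng => ?_; linarith only [hng, h4, h3,
      mul_nonneg (sub_nonneg.2 hng.le) (sub_nonneg.2 h4)])
  have h5 : 2177 / 1000 ≤ ‖1 + g‖ := by
    have h6 := re_le_norm (1 + g)
    have h7 := abs_re_le_norm (g - g0)
    rw [add_re, one_re] at h6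
    rw [sub_re, abs_le] at h7
    linarith only [h7.1, h6, h1, hg0]
  have h8 : 1 + g ≠ 0 := fun h => by rw [h, norm_zero] at h5; linarith only [h5]
  have h9 : 8595 / 10000 ≤ ‖k‖ := by
    have := norm_sub_norm_le κ k
    rw [norm_sub_rev] at this
    linarith only [this, hκ', hk]
  have h10 : k ≠ 0 := fun h => by rw [h, norm_zero] at h9; linarith only [h9]
  have hE1 : ‖4 / (1 + g) - A0‖ ≤ 186 / 10000 := by
    have e1 : 4 / (1 + g) - A0 = ((4 - A0 * (1 + g0)) - A0 * (g - g0)) / (1 + g) := by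
      field_simp; ring
    rw [e1, norm_div, div_le_iff₀ (by linarith only [h5])]
    have e2 := norm_sub_le (4 - A0 * (1 + g0)) (A0 * (g - g0))
    have e3 : ‖A0 * (g - g0)‖ ≤ 1724 / 1000 * (2275 / 100000) := by
      rw [norm_mul]
      exact mul_le_mul hA0 h1 (norm_nonneg _) (by norm_num)
    linarith only [e3, e2, h5, hA]
  have hE2 : ‖1 / k ^ 2 - B0‖ ≤ 436 / 10000 := by
    have e1 : 1 / k ^ 2 - B0 = ((1 - B0 * κ ^ 2) - B0 * ((k - κ) * (k + κ))) / k ^ 2 := by
      field_simp; ring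
    have e0 : (8595 / 10000) ^ 2 ≤ ‖k‖ ^ 2 := pow_le_pow_left₀ (by norm_num) h9 2
    rw [e1, norm_div, norm_pow, div_le_iff₀ (by positivity)]
    have e2 := norm_sub_le (1 - B0 * κ ^ 2) (B0 * ((k - κ) * (k + κ)))
    have e4 : ‖k + κ‖ ≤ 17605 / 10000 := by
      have := norm_add_le (k - κ) (κ + κ)
      rw [show k - κ + (κ + κ) = k + κ by ring] at this
      have := norm_add_le κ κ
      linarith [this, hκ, hk]
    have e3 : ‖B0 * ((k - κ) * (k + κ))‖ ≤ 1311 / 1000 * (135 / 10000 * (17605 / 10000)) := by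
      rw [norm_mul, norm_mul]
      exact mul_le_mul hB0 (mul_le_mul hk e4 (norm_nonneg _) (by norm_num)) (by positivity) (by norm_num)
    linarith only [e3, e2, e0, hB]
  have h11 := norm_add_le (4 / (1 + g) - A0) (1 / k ^ 2 - B0)
  rw [show 4 / (1 + g) + 1 / k ^ 2 - 1 - (A0 + B0 - 1) = (4 / (1 + g) - A0) + (1 / k ^ 2 - B0) by ring]
  linarith only [h11, hE2, hE1]

/-- The location of `tan² (π y)`. -/
private lemma KLocB3_P (s t : ℝ) (hs : s = 1 ∨ s = -1) (ht : t = 1 ∨ t = -1) (g k : ℂ)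
    (hg : g ^ 2 = 1 + 2 * s * I * k) (hgp : 0 < g.re)
    (hk : ‖k - (8727 / 10000 + 361 / 10000 * t * I)‖ ≤ 135 / 10000) :
    186 / 100 ≤ (4 / (1 + g) + 1 / k ^ 2 - 1).re ∧ (4 / (1 + g) + 1 / k ^ 2 - 1).re ≤ 201 / 100 ∧
      -(71 / 100) ≤ s * (4 / (1 + g) + 1 / k ^ 2 - 1).im ∧ s * (4 / (1 + g) + 1 / k ^ 2 - 1).im ≤ 0 := by
  have key : ∀ A0 B0 : ℂ, ‖4 / (1 + g) + 1 / k ^ 2 - 1 - (A0 + B0 - 1)‖ ≤ 63 / 1000 →
      1924 / 1000 ≤ (A0 + B0 - 1).re → (A0 + B0 - 1).re ≤ 1945 / 1000 →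
      -(647 / 1000) ≤ s * (A0 + B0 - 1).im → s * (A0 + B0 - 1).im ≤ -(390 / 1000) →
    186 / 100 ≤ (4 / (1 + g) + 1 / k ^ 2 - 1).re ∧ (4 / (1 + g) + 1 / k ^ 2 - 1).re ≤ 201 / 100 ∧
      -(71 / 100) ≤ s * (4 / (1 + g) + 1 / k ^ 2 - 1).im ∧ s * (4 / (1 + g) + 1 / k ^ 2 - 1).im ≤ 0 := by
    intro A0 B0 h1 h2 h3 h4 h5
    have h6 := (abs_re_le_norm _).trans h1
    have h7 := (abs_im_le_norm _).trans h1
    rw [sub_re, abs_le] at h6
    rw [sub_im, abs_le] at h7
    obtain ⟨h6a, h6b⟩ := h6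
    obtain ⟨h7a, h7b⟩ := h7
    refine ⟨by linarith only [h6a, h2], by linarith only [h6b, h3], ?_, ?_⟩
    · rcases hs with h | h <;> rw [h] at h4 h5 ⊢ <;> linarith
    · rcases hs with h | h <;> rw [h] at h4 h5 ⊢ <;> linarith
  rcases hs with h | h <;> rcases ht with h' | h' <;> subst h <;> subst h'
  · refine key ⟨16374 / 10000, -(5378 / 10000)⟩ ⟨13063 / 10000, -(1083 / 10000)⟩
      (KLocB3_est g ⟨12051 / 10000, 7242 / 10000⟩ k ⟨8727 / 10000, 361 / 10000⟩ _ _ (2 * I)
        (by simp) (by rw [hg]; push_cast; ring) hgp ?_ (by norm_num) ?_ ?_ ?_ ?_ ?_ ?_ ?_) ?_ ?_ ?_ ?_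
    · rw [← sq_le_sq₀ (norm_nonneg _) (by norm_num), ← normSq_eq_norm_sq, normSq_apply]
      simp [pow_two]; norm_num
    · convert hk using 2
      apply Complex.ext <;> simp
    · rw [← sq_le_sq₀ (norm_nonneg _) (by norm_num), ← normSq_eq_norm_sq, normSq_apply]; norm_num
    · rw [← sq_le_sq₀ (by norm_num) (norm_nonneg _), ← normSq_eq_norm_sq, normSq_apply]; norm_num
    · rw [← sq_le_sq₀ (norm_nonneg _) (by norm_num), ← normSq_eq_norm_sq, normSq_apply]
      simp [pow_two]; norm_num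
    · rw [← sq_le_sq₀ (norm_nonneg _) (by norm_num), ← normSq_eq_norm_sq, normSq_apply]; norm_num
    · rw [← sq_le_sq₀ (norm_nonneg _) (by norm_num), ← normSq_eq_norm_sq, normSq_apply]
      simp [pow_two]; norm_num
    · rw [← sq_le_sq₀ (norm_nonneg _) (by norm_num), ← normSq_eq_norm_sq, normSq_apply]; norm_num
    · norm_num
    · norm_num
    · norm_num
    · norm_num
  · refine key ⟨16220 / 10000, -(5039 / 10000)⟩ ⟨13063 / 10000, 1083 / 10000⟩
      (KLocB3_est g ⟨12491 / 10000, 6987 / 10000⟩ k ⟨8727 / 10000, -(361 / 10000)⟩ _ _ (2 * I)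
        (by simp) (by rw [hg]; push_cast; ring) hgp ?_ (by norm_num) ?_ ?_ ?_ ?_ ?_ ?_ ?_) ?_ ?_ ?_ ?_
    · rw [← sq_le_sq₀ (norm_nonneg _) (by norm_num), ← normSq_eq_norm_sq, normSq_apply]
      simp [pow_two]; norm_num
    · convert hk using 2
      apply Complex.ext <;> simp
    · rw [← sq_le_sq₀ (norm_nonneg _) (by norm_num), ← normSq_eq_norm_sq, normSq_apply]; norm_num
    · rw [← sq_le_sq₀ (by norm_num) (norm_nonneg _), ← normSq_eq_norm_sq, normSq_apply]; norm_num
    · rw [← sq_le_sq₀ (norm_nonneg _) (by norm_num), ← normSq_eq_norm_sq, normSq_apply]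
      simp [pow_two]; norm_num
    · rw [← sq_le_sq₀ (norm_nonneg _) (by norm_num), ← normSq_eq_norm_sq, normSq_apply]; norm_num
    · rw [← sq_le_sq₀ (norm_nonneg _) (by norm_num), ← normSq_eq_norm_sq, normSq_apply]
      simp [pow_two]; norm_num
    · rw [← sq_le_sq₀ (norm_nonneg _) (by norm_num), ← normSq_eq_norm_sq, normSq_apply]; norm_num
    · norm_num
    · norm_num
    · norm_num
    · norm_num
  · refine key ⟨16220 / 10000, 5039 / 10000⟩ ⟨13063 / 10000, -(1083 / 10000)⟩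
      (KLocB3_est g ⟨12491 / 10000, -(6987 / 10000)⟩ k ⟨8727 / 10000, 361 / 10000⟩ _ _ (-(2 * I))
        (by simp) (by rw [hg]; push_cast; ring) hgp ?_ (by norm_num) ?_ ?_ ?_ ?_ ?_ ?_ ?_) ?_ ?_ ?_ ?_
    · rw [← sq_le_sq₀ (norm_nonneg _) (by norm_num), ← normSq_eq_norm_sq, normSq_apply]
      simp [pow_two]; norm_num
    · convert hk using 2
      apply Complex.ext <;> simp
    · rw [← sq_le_sq₀ (norm_nonneg _) (by norm_num), ← normSq_eq_norm_sq, normSq_apply]; norm_num
    · rw [← sq_le_sq₀ (by norm_num) (norm_nonneg _), ← normSq_eq_norm_sq, normSq_apply]; norm_num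
    · rw [← sq_le_sq₀ (norm_nonneg _) (by norm_num), ← normSq_eq_norm_sq, normSq_apply]
      simp [pow_two]; norm_num
    · rw [← sq_le_sq₀ (norm_nonneg _) (by norm_num), ← normSq_eq_norm_sq, normSq_apply]; norm_num
    · rw [← sq_le_sq₀ (norm_nonneg _) (by norm_num), ← normSq_eq_norm_sq, normSq_apply]
      simp [pow_two]; norm_num
    · rw [← sq_le_sq₀ (norm_nonneg _) (by norm_num), ← normSq_eq_norm_sq, normSq_apply]; norm_num
    · norm_num
    · norm_num
    · norm_num
    · norm_num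
  · refine key ⟨16374 / 10000, 5378 / 10000⟩ ⟨13063 / 10000, 1083 / 10000⟩
      (KLocB3_est g ⟨12051 / 10000, -(7242 / 10000)⟩ k ⟨8727 / 10000, -(361 / 10000)⟩ _ _ (-(2 * I))
        (by simp) (by rw [hg]; push_cast; ring) hgp ?_ (by norm_num) ?_ ?_ ?_ ?_ ?_ ?_ ?_) ?_ ?_ ?_ ?_
    · rw [← sq_le_sq₀ (norm_nonneg _) (by norm_num), ← normSq_eq_norm_sq, normSq_apply]
      simp [pow_two]; norm_num
    · convert hk using 2
      apply Complex.ext <;> simp
    · rw [← sq_le_sq₀ (norm_nonneg _) (by norm_num), ← normSq_eq_norm_sq, normSq_apply]; norm_num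
    · rw [← sq_le_sq₀ (by norm_num) (norm_nonneg _), ← normSq_eq_norm_sq, normSq_apply]; norm_num
    · rw [← sq_le_sq₀ (norm_nonneg _) (by norm_num), ← normSq_eq_norm_sq, normSq_apply]
      simp [pow_two]; norm_num
    · rw [← sq_le_sq₀ (norm_nonneg _) (by norm_num), ← normSq_eq_norm_sq, normSq_apply]; norm_num
    · rw [← sq_le_sq₀ (norm_nonneg _) (by norm_num), ← normSq_eq_norm_sq, normSq_apply]
      simp [pow_two]; norm_num
    · rw [← sq_le_sq₀ (norm_nonneg _) (by norm_num), ← normSq_eq_norm_sq, normSq_apply]; norm_num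
    · norm_num
    · norm_num
    · norm_num
    · norm_num

/-- One block with `|r| = 2`, the other one with `|r| = 3`. -/
theorem locB3 (r1 r2 : ℤ) (h1 : |r1| = 2) (h2 : |r2| = 3) (v w : ℂ)
    (hv : Blk r1 v (cos (Real.pi * w))) (hw : Blk r2 w (cos (Real.pi * v))) :
    27 / 100 ≤ (yF v w).re ∧ (yF v w).re ≤ 33 / 100 ∧ |(yF v w).im| + w.im ≤ 65 / 1000 ∧
      -(35 / 1000) ≤ (r1 / 2 : ℝ) * (yF v w).im ∧ (r1 / 2 : ℝ) * (yF v w).im ≤ 0 := by
  obtain ⟨s, hs, hr1⟩ : ∃ s : ℝ, (s = 1 ∨ s = -1) ∧ (r1 : ℝ) = 2 * s := by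
    rcases abs_eq (by norm_num : (0 : ℤ) ≤ 2) |>.mp h1 with h | h
    · exact ⟨1, Or.inl rfl, by rw [h]; norm_num⟩
    · exact ⟨-1, Or.inr rfl, by rw [h]; norm_num⟩
  obtain ⟨t, ht, hr2⟩ : ∃ t : ℝ, (t = 1 ∨ t = -1) ∧ (r2 : ℝ) = 3 * t ∧ ((r2.sign : ℤ) : ℝ) = t := by
    rcases abs_eq (by norm_num : (0 : ℤ) ≤ 3) |>.mp h2 with h | h
    · exact ⟨1, Or.inl rfl, by rw [h]; norm_num, by rw [h]; norm_num⟩
    · exact ⟨-1, Or.inr rfl, by rw [h]; norm_num, by rw [h]; norm_num⟩
  have hr1c : (r1 : ℂ) = 2 * s := by exact_mod_cast congrArg (fun x : ℝ => (x : ℂ)) hr1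
  have hr2c : (r2 : ℂ) = 3 * t := by exact_mod_cast congrArg (fun x : ℝ => (x : ℂ)) hr2.1
  have hr2s : ((r2.sign : ℤ) : ℂ) = t := by exact_mod_cast congrArg (fun x : ℝ => (x : ℂ)) hr2.2
  have htt : t * t = 1 := by rcases ht with h | h <;> rw [h] <;> norm_num
  have htc : (t : ℂ) * t = 1 := by rw [← ofReal_mul, htt, ofReal_one]
  have ht0 : (t : ℂ) ≠ 0 := fun h => by rw [h] at htc; simp at htc
  have hw3 := hw.loc3 (by rw [h2])
  have hwt : ‖w + t / 6 - (t / 360 + 7 / 300 * I)‖ ≤ 1 / 120 := by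
    rw [hr2c, hr2s, hr2.1] at hw3
    have e1 : (75 / 1000 / (3 * t) ^ 2 : ℝ) = 1 / 120 := by
      rw [mul_pow, sq t, htt]; norm_num
    rw [e1] at hw3
    convert hw3 using 2
    have e2 : (t : ℂ) ^ 2 = 1 := by rw [sq]; exact htc
    have e3 : (1 : ℂ) / (2 * (3 * t)) = t / 6 := by
      rw [div_eq_div_iff (mul_ne_zero two_ne_zero (mul_ne_zero three_ne_zero ht0)) (by norm_num)]
      linear_combination (-6 : ℂ) * e2
    rw [e3, mul_pow, e2]
    ring
  have hk := KLocB3_k2 w t ht hwt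
  have hP := KLocB3_P s t hs ht (4 * cos (Real.pi * v) ^ 2 - 1) (cos (Real.pi * w))
    (by rw [hv.sq h1, hr1c]) hv.pos hk
  have hPe : 4 / (1 + (4 * cos (Real.pi * v) ^ 2 - 1)) + 1 / cos (Real.pi * w) ^ 2 - 1 =
      1 / cos (Real.pi * v) ^ 2 + 1 / cos (Real.pi * w) ^ 2 - 1 := by
    rw [show 1 + (4 * cos (Real.pi * v) ^ 2 - 1) = 4 * cos (Real.pi * v) ^ 2 by ring]
    congr 2
    exact div_mul_cancel_left₀ (by norm_num) _ |>.trans (one_div _).symm
  rw [hPe] at hP
  obtain ⟨c1, c2, c3, c4⟩ := KLocB3_loc _ s hs hP.1 hP.2.1 hP.2.2.1 hP.2.2.2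
  have hwi : w.im ≤ 7 / 300 + 1 / 120 := by
    have h := (abs_im_le_norm _).trans hwt
    have e : (w + t / 6 - (t / 360 + 7 / 300 * I) : ℂ).im = w.im - 7 / 300 := by simp
    rw [e, abs_le] at h
    linarith only [h.2]
  have e5 : (r1 / 2 : ℝ) = s := by rw [hr1]; ring
  rw [e5]
  have habs : |(yF v w).im| ≤ 333 / 10000 := by
    rcases hs with h | h <;> rw [h] at c3 c4 <;> rw [abs_le] <;> constructor <;> unfold yF <;> linarith
  refine ⟨c1, c2, by linarith only [habs, hwi], ?_, c4⟩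
  unfold yF
  linarith only [c3]

end Pool.Agent.H63.GO
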