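import Pool.Agent.H63.GO.KDefs
import Pool.Agent.H63.VC3.Clausen

/-! # Location of y: locB4 -/

namespace Pool.Agent.H63.GO

open Complex Filter Topology Pool.Agent.H63.VC Pool.Agent.H63.VC3

/-- The location of the arctangent. -/
private theorem KLocB4_arctan (T : ℂ) (h1 : 122 / 100 ≤ T.re) (h2 : T.re ≤ 138 / 100)
    (h3 : |T.im| ≤ 26 / 100) :
    27 / 100 ≤ (arctan T / Real.pi).re ∧ (arctan T / Real.pi).re ≤ 33 / 100 ∧
      |(arctan T / Real.pi).im| ≤ 35 / 1000 ∧ (0 ≤ T.im → 0 ≤ (arctan T / Real.pi).im) ∧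
      (T.im ≤ 0 → (arctan T / Real.pi).im ≤ 0) := by
  obtain ⟨h3a, h3b⟩ := abs_le.1 h3
  set p := T.re with hp
  set q := T.im with hq
  set Z : ℂ := (1 + T * I) / (1 - T * I) with hZ
  have hP1 : 14884 / 10000 ≤ p ^ 2 := by linarith only [h1,
                                           mul_nonneg (sub_nonneg.2 h1) (sub_nonneg.2 h1)]
  have hP2 : p ^ 2 ≤ 19044 / 10000 := by linarith only [h2,
                                           mul_nonneg (sub_nonneg.2 h1) (sub_nonneg.2 h2)]
  have hQ1 : 0 ≤ q ^ 2 := sq_nonneg q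
  have hQ2 : q ^ 2 ≤ 676 / 10000 := by linarith only [mul_nonneg (sub_nonneg.2 h3a) (sub_nonneg.2 h3b)]
  have hd : (1 - T * I).re = 1 + q ∧ (1 - T * I).im = -p := by
    constructor <;> simp [hp, hq]
  have hn : (1 + T * I).re = 1 - q ∧ (1 + T * I).im = p := by
    constructor <;> simp [hp, hq]
    ring
  have hd0 : (1 - T * I) ≠ 0 := by
    intro h
    have := hd.2
    rw [h] at this
    simp at this
    linarith only [this, h1]
  have hn0 : (1 + T * I) ≠ 0 := by
    intro h
    have := hn.2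
    rw [h] at this
    simp at this
    linarith only [this, h1]
  have hZ0 : Z ≠ 0 := div_ne_zero hn0 hd0
  set n1 := ‖1 + T * I‖ with hn1
  set n2 := ‖1 - T * I‖ with hn2
  have hn1p : 0 < n1 := norm_pos_iff.2 hn0
  have hn2p : 0 < n2 := norm_pos_iff.2 hd0
  have hn1s : n1 ^ 2 = (1 - q) ^ 2 + p ^ 2 := by
    rw [hn1, ← Complex.normSq_eq_norm_sq, Complex.normSq_apply, hn.1, hn.2]
    ring
  have hn2s : n2 ^ 2 = (1 + q) ^ 2 + p ^ 2 := by
    rw [hn2, ← Complex.normSq_eq_norm_sq, Complex.normSq_apply, hd.1, hd.2]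
    ring
  have hZn : ‖Z‖ = n1 / n2 := by rw [hZ, norm_div]
  have hZre : Z.re = (1 - p ^ 2 - q ^ 2) / n2 ^ 2 := by
    rw [hZ, Complex.div_re, hd.1, hd.2, hn.1, hn.2, Complex.normSq_eq_norm_sq, ← hn2]
    field_simp
    ring
  have hZim : Z.im = 2 * p / n2 ^ 2 := by
    rw [hZ, Complex.div_im, hd.1, hd.2, hn.1, hn.2, Complex.normSq_eq_norm_sq, ← hn2]
    field_simp
    ring
  have hZimp : 0 < Z.im := by
    rw [hZim]
    positivity
  -- product of the norms
  have hpr1 : n1 * n2 ≤ 1 + p ^ 2 + q ^ 2 := by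
    linarith only [hn2s, hn1s, sq_nonneg (n1 - n2)]
  have hpr2 : 1 + p ^ 2 - q ^ 2 ≤ n1 * n2 := by
    have h : (1 + p ^ 2 - q ^ 2) ^ 2 ≤ (n1 * n2) ^ 2 := by
      rw [mul_pow, hn1s, hn2s]
      linarith only [sq_nonneg (p * q)]
    exact le_of_sq_le_sq h (by positivity)
  have hcos : Real.cos (arg Z) = (1 - p ^ 2 - q ^ 2) / (n1 * n2) := by
    rw [Complex.cos_arg hZ0, hZn, hZre]
    field_simp
  have hpi := Real.pi_gt_d4
  have hpi2 := Real.pi_lt_d4
  have hargp : 0 < arg Z := by
    rcases lt_or_ge 0 (arg Z) with h | h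
    · exact h
    · exfalso
      have := (Complex.arg_nonneg_iff.2 hZimp.le)
      have h0 : arg Z = 0 := le_antisymm h this
      rw [Complex.arg_eq_zero_iff] at h0
      exact hZimp.ne' h0.2
  have hargl : arg Z ≤ Real.pi := Complex.arg_le_pi Z
  have hre : (arctan T / Real.pi).re = arg Z / (2 * Real.pi) := by
    rw [Complex.div_ofReal_re]
    have : (arctan T).re = arg Z / 2 := by
      rw [Complex.arctan, ← hZ]
      simp [Complex.mul_re, Complex.log_re, Complex.log_im]
      ring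
    rw [this]
    field_simp
  have him : (arctan T / Real.pi).im = -Real.log ‖Z‖ / (2 * Real.pi) := by
    rw [Complex.div_ofReal_im]
    have : (arctan T).im = -Real.log ‖Z‖ / 2 := by
      rw [Complex.arctan, ← hZ]
      simp [Complex.mul_im, Complex.log_re, Complex.log_im]
      ring
    rw [this]
    field_simp
  have hA : 54 / 100 * Real.pi ≤ arg Z := by
    by_contra hcon
    push Not at hcon
    have h := Real.cos_lt_cos_of_nonneg_of_le_pi hargp.le (by linarith only [hpi]) hcon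
    have h5 : Real.cos (54 / 100 * Real.pi) = -Real.sin (4 / 100 * Real.pi) := by
      rw [← Real.cos_add_pi_div_two]
      congr 1
      ring
    have h6 : Real.sin (4 / 100 * Real.pi) ≤ 4 / 100 * Real.pi := Real.sin_le (by positivity)
    rw [hcos, h5] at h
    have h7 : (1 - p ^ 2 - q ^ 2) / (n1 * n2) ≤ -(126 / 1000) := by
      rw [div_le_iff₀ (by positivity)]
      linarith only [hpr1, hQ1, hP1]
    linarith only [h7, h6, h, hpi2, hpi]
  have hB : arg Z ≤ 66 / 100 * Real.pi := by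
    by_contra hcon
    push Not at hcon
    have h := Real.cos_lt_cos_of_nonneg_of_le_pi (by positivity) hargl hcon
    have h5 : Real.cos (66 / 100 * Real.pi) = -Real.sin (16 / 100 * Real.pi) := by
      rw [← Real.cos_add_pi_div_two]
      congr 1
      ring
    have h6 : 47 / 100 ≤ Real.sin (16 / 100 * Real.pi) := by
      have h8 : 16 / 100 * Real.pi ≤ 5027 / 10000 := by linarith only [hpi2]
      have h9 : 5025 / 10000 ≤ 16 / 100 * Real.pi := by linarith only [hpi]
      have := Real.sin_gt_sub_cube (x := 16 / 100 * Real.pi) (by positivity)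
      have h10 : (16 / 100 * Real.pi) ^ 3 ≤ (5027 / 10000) ^ 3 := by gcongr
      norm_num at h10 this ⊢
      linarith only [this, h10, hpi2, hpi]
    rw [hcos, h5] at h
    have h7 : -(45 / 100) ≤ (1 - p ^ 2 - q ^ 2) / (n1 * n2) := by
      rw [le_div_iff₀ (by positivity)]
      linarith only [hpr2, hQ2, hP2]
    linarith only [h7, h6, h, hpi2, hpi]
  have hlog : |Real.log ‖Z‖| ≤ 2198 / 10000 := by
    have hZp : 0 < ‖Z‖ := norm_pos_iff.2 hZ0
    have he : (1243 / 1000 : ℝ) ≤ Real.exp (2198 / 10000) := by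
      have := Real.quadratic_le_exp_of_nonneg (x := 2198 / 10000) (by norm_num)
      norm_num at this ⊢
      linarith only [this, hpi2, hpi]
    rw [abs_le]
    constructor
    · rw [Real.le_log_iff_exp_le hZp, hZn, Real.exp_neg, le_div_iff₀ hn2p]
      have h : n2 ≤ 1243 / 1000 * n1 := by
        have h : n2 ^ 2 ≤ (1243 / 1000 * n1) ^ 2 := by
          rw [mul_pow, hn1s, hn2s]
          linarith only [hP1, hQ1, h3b]
        exact le_of_sq_le_sq h (by positivity)
      rw [inv_mul_le_iff₀ (Real.exp_pos _)]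
      exact h.trans (mul_le_mul_of_nonneg_right he hn1p.le)
    · rw [Real.log_le_iff_le_exp hZp, hZn, div_le_iff₀ hn2p]
      have h : n1 ≤ 1243 / 1000 * n2 := by
        have h : n1 ^ 2 ≤ (1243 / 1000 * n2) ^ 2 := by
          rw [mul_pow, hn1s, hn2s]
          linarith only [hP1, hQ1, h3a]
        exact le_of_sq_le_sq h (by positivity)
      exact h.trans (mul_le_mul_of_nonneg_right he hn2p.le)
  refine ⟨?_, ?_, ?_, ?_, ?_⟩
  · rw [hre, le_div_iff₀ (by positivity)]
    linarith only [hA]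
  · rw [hre, div_le_iff₀ (by positivity)]
    linarith only [hB]
  · rw [him, abs_div, abs_neg, abs_of_pos (by positivity : 0 < 2 * Real.pi),
      div_le_iff₀ (by positivity)]
    linarith only [hlog, hpi2, hpi]
  · intro h
    rw [him]
    apply div_nonneg _ (by positivity)
    rw [neg_nonneg]
    apply Real.log_nonpos (norm_nonneg _)
    rw [hZn, div_le_one hn2p]
    exact le_of_sq_le_sq (by rw [hn1s, hn2s]; linarith only [h]) hn2p.le
  · intro h
    rw [him]
    apply div_nonpos_of_nonpos_of_nonneg _ (by positivity)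
    rw [neg_nonpos]
    apply Real.log_nonneg
    rw [hZn, one_le_div hn2p]
    exact le_of_sq_le_sq (by rw [hn1s, hn2s]; linarith only [h]) hn1p.le

/-- The location of the square root. -/
private theorem KLocB4_sqrt (S : ℂ) (h1 : 152 / 100 ≤ S.re) (h2 : S.re ≤ 183 / 100)
    (h3 : |S.im| ≤ 64 / 100) :
    122 / 100 ≤ (S ^ (1 / 2 : ℂ)).re ∧ (S ^ (1 / 2 : ℂ)).re ≤ 138 / 100 ∧
      |(S ^ (1 / 2 : ℂ)).im| ≤ 26 / 100 ∧ (0 ≤ S.im → 0 ≤ (S ^ (1 / 2 : ℂ)).im) ∧
      (S.im ≤ 0 → (S ^ (1 / 2 : ℂ)).im ≤ 0) := by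
  have hS0 : S ≠ 0 := by
    intro h
    rw [h] at h1
    simp at h1
    linarith only [h1]
  set T : ℂ := S ^ (1 / 2 : ℂ) with hT
  have hsq : T ^ 2 = S := by
    have := Complex.cpow_nat_inv_pow S (n := 2) (by norm_num)
    rw [hT]
    convert this using 3
    norm_num
  have hpos : 0 < T.re := by
    rw [hT, Complex.cpow_def_of_ne_zero hS0, Complex.exp_re]
    apply mul_pos (Real.exp_pos _)
    have him : (log S * (1 / 2 : ℂ)).im = arg S / 2 := by
      rw [show (1 / 2 : ℂ) = ((1 / 2 : ℝ) : ℂ) by norm_num, Complex.im_mul_ofReal, Complex.log_im]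
      ring
    rw [him]
    have harg : |arg S| < Real.pi / 2 := by
      rw [Complex.abs_arg_lt_pi_div_two_iff]
      left
      linarith only [h1]
    obtain ⟨ha, hb⟩ := abs_lt.1 harg
    apply Real.cos_pos_of_mem_Ioo
    constructor <;> linarith only [hb, ha]
  set p := T.re with hp
  set q := T.im with hq
  have hre : p ^ 2 - q ^ 2 = S.re := by
    rw [← hsq, pow_two T, Complex.mul_re]
    ring
  have him : 2 * (p * q) = S.im := by
    rw [← hsq, pow_two T, Complex.mul_im]
    ring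
  have hp1 : 122 / 100 ≤ p := by
    by_contra hcon
    push Not at hcon
    linarith only [h1, hre, hcon, sq_nonneg (q), mul_pos (sub_pos.2 hcon) (sub_pos.2 hpos)]
  have hq1 : |q| ≤ 26 / 100 := by
    have hp1' : 1232 / 1000 ≤ p := by
      by_contra hcon
      push Not at hcon
      linarith only [h1, hre, hcon, sq_nonneg (q), mul_pos (sub_pos.2 hcon) (sub_pos.2 hpos)]
    have h : 2 * (p * |q|) ≤ 64 / 100 := by
      rw [← abs_of_pos hpos, ← abs_mul, ← abs_of_pos (by norm_num : (0:ℝ) < 2), ← abs_mul, him]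
      exact h3
    by_contra hcon
    push Not at hcon
    linarith only [h, hp1', hcon, mul_nonneg (sub_nonneg.2 hcon.le) (sub_nonneg.2 hp1')]
  refine ⟨hp1, ?_, hq1, ?_, ?_⟩
  · by_contra hcon
    push Not at hcon
    have hq2 : q ^ 2 ≤ (26 / 100) ^ 2 := by
      rw [← sq_abs]
      gcongr
    linarith only [hq2, h2, hre, hcon, mul_pos (sub_pos.2 hcon) (sub_pos.2 hcon)]
  · intro h
    rw [← him] at h
    by_contra hcon
    push Not at hcon
    linarith only [mul_pos hpos (neg_pos.2 hcon), h]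
  · intro h
    rw [← him] at h
    by_contra hcon
    push Not at hcon
    linarith only [mul_pos hpos hcon, h]

/-- The location of the cosine of the long block. -/
private theorem KLocB4_cos (r : ℤ) (hr : 4 ≤ |r|) (w : ℂ)
    (loc : ‖w + 1 / (2 * r) - ((r.sign : ℂ) * (25 / 1000) + 21 / 100 * I) / r ^ 2‖ ≤
      75 / 1000 / (r : ℝ) ^ 2) :
    |w.im| ≤ 179 / 10000 ∧ 914 / 1000 ≤ (cos (Real.pi * w)).re ∧
      (cos (Real.pi * w)).re ≤ 1002 / 1000 ∧ |(cos (Real.pi * w)).im| ≤ 235 / 10000 := by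
  have hR : (4 : ℝ) ≤ |(r : ℝ)| := by
    have : ((4 : ℤ) : ℝ) ≤ ((|r| : ℤ) : ℝ) := by exact_mod_cast hr
    rw [Int.cast_abs] at this
    exact_mod_cast this
  have hr0 : (r : ℝ) ≠ 0 := by
    intro h
    rw [h] at hR
    norm_num at hR
  have hx : 0 < 1 / (r : ℝ) ^ 2 ∧ 1 / (r : ℝ) ^ 2 ≤ 1 / 16 := by
    constructor
    · positivity
    · apply one_div_le_one_div_of_le (by norm_num)
      rw [← sq_abs]
      linarith only [hR, mul_nonneg (sub_nonneg.2 hR) (sub_nonneg.2 hR)]
  have hz : |1 / (2 * (r : ℝ))| ≤ 1 / 8 := by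
    rw [abs_div, abs_mul, abs_one, abs_two]
    apply one_div_le_one_div_of_le (by norm_num)
    linarith only [hR]
  have hs : |(r.sign : ℝ)| ≤ 1 := by
    rcases lt_trichotomy r 0 with h | h | h
    · rw [Int.sign_eq_neg_one_of_neg h]
      simp
    · rw [h]
      simp
    · rw [Int.sign_eq_one_of_pos h]
      simp
  set x : ℝ := 1 / (r : ℝ) ^ 2 with hxd
  set A : ℝ := 1 / (2 * (r : ℝ)) - (r.sign : ℝ) * (25 / 1000) * x with hA
  have he : w + 1 / (2 * r) - ((r.sign : ℂ) * (25 / 1000) + 21 / 100 * I) / r ^ 2 =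
      w + (A : ℂ) - ((21 / 100 * x : ℝ) : ℂ) * I := by
    have hr0' : (r : ℂ) ≠ 0 := by exact_mod_cast hr0
    rw [hA, hxd]
    push_cast
    field_simp
    ring
  rw [he, show 75 / 1000 / (r : ℝ) ^ 2 = 75 / 1000 * x by rw [hxd]; ring] at loc
  have hwr : |w.re + A| ≤ 75 / 1000 * x := by
    have := (Complex.abs_re_le_norm _).trans loc
    simpa using this
  have hwi : |w.im - 21 / 100 * x| ≤ 75 / 1000 * x := by
    have := (Complex.abs_im_le_norm _).trans loc
    simpa using this
  obtain ⟨hx0, hx1⟩ := hx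
  have hAb : |A| ≤ 1 / 8 + 25 / 1000 * x := by
    rw [hA]
    refine (abs_sub _ _).trans ?_
    rw [abs_mul, abs_mul, abs_of_pos hx0, abs_of_pos (by norm_num : (0 : ℝ) < 25 / 1000)]
    linarith only [hz, mul_nonneg (sub_nonneg.2 hs) (sub_nonneg.2 hx0.le)]
  have hre : |w.re| ≤ 1313 / 10000 := by
    have h := abs_sub (w.re + A) A
    rw [add_sub_cancel_right] at h
    linarith only [hx1, hAb, hwr, h]
  have him : |w.im| ≤ 179 / 10000 := by
    have h := abs_add_le (w.im - 21 / 100 * x) (21 / 100 * x)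
    rw [sub_add_cancel, abs_of_pos (by positivity : 0 < 21 / 100 * x)] at h
    linarith only [hx1, hwi, h]
  have hpi := Real.pi_gt_d4
  have hpi2 := Real.pi_lt_d4
  have hpre : |Real.pi * w.re| ≤ 4126 / 10000 := by
    rw [abs_mul, abs_of_pos Real.pi_pos]
    linarith only [hre, mul_nonneg (sub_nonneg.2 hpi2.le) (sub_nonneg.2 (abs_nonneg w.re))]
  have hpim : |Real.pi * w.im| ≤ 563 / 10000 := by
    rw [abs_mul, abs_of_pos Real.pi_pos]
    linarith only [him, mul_nonneg (sub_nonneg.2 hpi2.le) (sub_nonneg.2 (abs_nonneg w.im))]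
  have hsp : (Real.pi : ℂ) * w = ((Real.pi * w.re : ℝ) : ℂ) + ((Real.pi * w.im : ℝ) : ℂ) * I := by
    conv_lhs => rw [← Complex.re_add_im w]
    push_cast
    ring
  have hcr : (cos (Real.pi * w)).re = Real.cos (Real.pi * w.re) * Real.cosh (Real.pi * w.im) := by
    rw [hsp, Complex.cos_add_mul_I, ← Complex.ofReal_cos, ← Complex.ofReal_cosh,
      ← Complex.ofReal_sin, ← Complex.ofReal_sinh]
    generalize Real.cos (Real.pi * w.re) = c1
    generalize Real.cosh (Real.pi * w.im) = c2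
    generalize Real.sin (Real.pi * w.re) = c3
    generalize Real.sinh (Real.pi * w.im) = c4
    simp
  have hci : (cos (Real.pi * w)).im = -(Real.sin (Real.pi * w.re) * Real.sinh (Real.pi * w.im)) := by
    rw [hsp, Complex.cos_add_mul_I, ← Complex.ofReal_cos, ← Complex.ofReal_cosh,
      ← Complex.ofReal_sin, ← Complex.ofReal_sinh]
    generalize Real.cos (Real.pi * w.re) = c1
    generalize Real.cosh (Real.pi * w.im) = c2
    generalize Real.sin (Real.pi * w.re) = c3
    generalize Real.sinh (Real.pi * w.im) = c4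
    simp
  have hcosh : Real.cosh (Real.pi * w.im) ≤ 1002 / 1000 := by
    rw [← Real.cosh_abs]
    have h1 : Real.cosh |Real.pi * w.im| ≤ Real.cosh (563 / 10000) := by
      rw [Real.cosh_le_cosh, abs_abs]
      exact hpim.trans (le_abs_self _)
    have h2 := Real.cosh_le_exp_half_sq (563 / 10000)
    have h3 : Real.exp ((563 / 10000) ^ 2 / 2) ≤ 1002 / 1000 := by
      have := Real.exp_bound_div_one_sub_of_interval' (x := (563 / 10000) ^ 2 / 2)
        (by norm_num) (by norm_num)
      norm_num at this ⊢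
      linarith only [this]
    linarith only [h3, h2, h1]
  have hsinh : |Real.sinh (Real.pi * w.im)| ≤ 565 / 10000 := by
    have h := Clausen_norm_sinh_le ((Real.pi * w.im : ℝ) : ℂ)
    rw [← Complex.ofReal_sinh, Complex.norm_real, Complex.norm_real, Complex.ofReal_re,
      Real.norm_eq_abs, Real.norm_eq_abs] at h
    linarith only [hpim, h,
      mul_nonneg (sub_nonneg.2 hcosh) (sub_nonneg.2 (abs_nonneg (Real.pi * w.im)))]
  have hsin : |Real.sin (Real.pi * w.re)| ≤ 4126 / 10000 := Real.abs_sin_le_abs.trans hpre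
  have hcos1 : 914 / 1000 ≤ Real.cos (Real.pi * w.re) := by
    have h := Real.one_sub_sq_div_two_le_cos (x := Real.pi * w.re)
    have h2 : (Real.pi * w.re) ^ 2 ≤ (4126 / 10000) ^ 2 := by
      rw [← sq_abs]
      gcongr
    norm_num at h2 ⊢
    linarith only [h2, h]
  refine ⟨him, ?_, ?_, ?_⟩
  · rw [hcr]
    have := Real.one_le_cosh (Real.pi * w.im)
    linarith only [hcos1, this, mul_nonneg (sub_nonneg.2 this) (sub_nonneg.2 hcos1)]
  · rw [hcr]
    have := Real.cos_le_one (Real.pi * w.re)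
    linarith only [hcosh, this,
      mul_nonneg (sub_nonneg.2 this) (sub_nonneg.2 (Real.one_le_cosh (Real.pi * w.im)))]
  · rw [hci, abs_neg, abs_mul]
    have := mul_le_mul hsin hsinh (abs_nonneg _) (by norm_num)
    norm_num at this ⊢
    linarith only [this]

/-- The square root in the equation of the short block. -/
private theorem KLocB4_g (g h c a : ℝ) (hg : 0 < g) (e1 : g ^ 2 - h ^ 2 = c) (e2 : g * h = a)
    (c1 : 953 / 1000 ≤ c) (c2 : c ≤ 1047 / 1000) (a1 : 914 / 1000 ≤ a) (a2 : a ≤ 1002 / 1000) :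
    1227 / 1000 ≤ g ∧ g ≤ 1287 / 1000 ∧ 7275 / 10000 ≤ h ∧ h ≤ 796 / 1000 := by
  have hh : 0 < h := by
    by_contra hcon
    push Not at hcon
    linarith only [a1, e2, mul_nonneg (sub_nonneg.2 hcon) (sub_nonneg.2 hg.le)]
  have k1 : 1227 / 1000 ≤ g := by
    by_contra hcon
    push Not at hcon
    have h1 : g ^ 2 < (1227 / 1000) ^ 2 := by gcongr
    have h2 : h ^ 2 < (7434 / 10000 : ℝ) ^ 2 := by
      norm_num at h1 ⊢
      linarith only [c1, e1, h1]
    have h3 : h < 7434 / 10000 := lt_of_pow_lt_pow_left₀ 2 (by norm_num) h2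
    have h4 : g * h < 1227 / 1000 * (7434 / 10000) := mul_lt_mul'' hcon h3 hg.le hh.le
    norm_num at h4
    linarith only [a1, e2, h4]
  have k2 : g ≤ 1287 / 1000 := by
    by_contra hcon
    push Not at hcon
    have h1 : (1287 / 1000) ^ 2 < g ^ 2 := by gcongr
    have h2 : (779 / 1000 : ℝ) ^ 2 < h ^ 2 := by
      norm_num at h1 ⊢
      linarith only [c2, e1, h1]
    have h3 : 779 / 1000 < h := lt_of_pow_lt_pow_left₀ 2 hh.le h2
    have h4 : 1287 / 1000 * (779 / 1000) < g * h := mul_lt_mul'' hcon h3 (by norm_num) (by norm_num)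
    norm_num at h4
    linarith only [a2, e2, h4]
  have k3 : 7275 / 10000 ≤ h := by
    by_contra hcon
    push Not at hcon
    have h1 : h ^ 2 < (7275 / 10000) ^ 2 := by gcongr
    have h2 : g ^ 2 < (1256 / 1000 : ℝ) ^ 2 := by
      norm_num at h1 ⊢
      linarith only [c2, e1, h1]
    have h3 : g < 1256 / 1000 := lt_of_pow_lt_pow_left₀ 2 (by norm_num) h2
    have h4 : g * h < 1256 / 1000 * (7275 / 10000) := mul_lt_mul'' h3 hcon hg.le hh.le
    norm_num at h4
    linarith only [a1, e2, h4]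
  have k4 : h ≤ 796 / 1000 := by
    by_contra hcon
    push Not at hcon
    have h1 : (796 / 1000) ^ 2 < h ^ 2 := by gcongr
    have h2 : (1259 / 1000 : ℝ) ^ 2 < g ^ 2 := by
      norm_num at h1 ⊢
      linarith only [c1, e1, h1]
    have h3 : 1259 / 1000 < g := lt_of_pow_lt_pow_left₀ 2 hg.le h2
    have h4 : 1259 / 1000 * (796 / 1000) < g * h := mul_lt_mul'' h3 hcon (by norm_num) (by norm_num)
    norm_num at h4
    linarith only [a2, e2, h4]
  exact ⟨k1, k2, k3, k4⟩

/-- The inverse square of the cosine of the short block. -/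
private theorem KLocB4_P (g h x y : ℝ) (e1 : x * (1 + g) - y * h = 4) (e2 : x * h + y * (1 + g) = 0)
    (g1 : 1227 / 1000 ≤ g) (g2 : g ≤ 1287 / 1000) (h1 : 7275 / 10000 ≤ h) (h2 : h ≤ 796 / 1000) :
    156 / 100 ≤ x ∧ x ≤ 16231 / 10000 ∧ -(57 / 100) ≤ y ∧ y ≤ -(5 / 10) := by
  have hd : 0 < (1 + g) ^ 2 + h ^ 2 := by linarith only [g1, sq_nonneg (h),
                                            mul_nonneg (sub_nonneg.2 g1) (sub_nonneg.2 g1)]
  have ex : x = 4 * (1 + g) / ((1 + g) ^ 2 + h ^ 2) := by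
    rw [eq_div_iff hd.ne']
    linear_combination (1 + g) * e1 + h * e2
  have ey : y = -4 * h / ((1 + g) ^ 2 + h ^ 2) := by
    rw [eq_div_iff hd.ne']
    linear_combination -h * e1 + (1 + g) * e2
  have hh1 : (7275 / 10000) ^ 2 ≤ h ^ 2 := by gcongr
  have hh2 : h ^ 2 ≤ (796 / 1000) ^ 2 := by
    have : 0 ≤ h := by linarith only [h1]
    gcongr
  norm_num at hh1 hh2
  refine ⟨?_, ?_, ?_, ?_⟩
  · rw [ex, le_div_iff₀ hd]
    linarith only [mul_nonneg (sub_nonneg.2 g1) (sub_nonneg.2 g2), hh2, g2]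
  · rw [ex, div_le_iff₀ hd]
    linarith only [hh1, g1, mul_nonneg (sub_nonneg.2 g1) (sub_nonneg.2 g1)]
  · rw [ey, le_div_iff₀ hd]
    (refine le_of_not_gt fun hng => ?_; linarith only [hng, h2, g1,
      mul_self_nonneg (1000 * g - 1 * 1227), mul_pos (sub_pos.2 hng) (sub_pos.2 hng),
      mul_nonneg (sq_nonneg (1 * h)) (sub_nonneg.2 h1),
      mul_nonneg (sq_nonneg (1 * h)) (sub_nonneg.2 g1),
      mul_nonneg (sq_nonneg (1 * h)) (sub_nonneg.2 hng.le),
      mul_nonneg (sq_nonneg (1 * h)) (sq_nonneg (1 * h)),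
      mul_nonneg (sq_nonneg (1 * 1 + 1 * g)) (sub_nonneg.2 hng.le),
      mul_nonneg (mul_self_nonneg (1000 * g - 1 * 1227)) (sub_nonneg.2 g1),
      mul_nonneg (mul_self_nonneg (1000 * g - 1 * 1227)) (sq_nonneg (1 * h)),
      mul_nonneg (mul_self_nonneg (1000 * g - 1 * 1227)) (mul_self_nonneg (1000 * g - 1 * 1227))])
  · rw [ey, div_le_iff₀ hd]
    linarith only [mul_nonneg (sub_nonneg.2 h1) (sub_nonneg.2 h2),
      mul_nonneg (sub_nonneg.2 g1) (sub_nonneg.2 g2), h1, g2]

/-- The inverse square of the cosine of the long block. -/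
private theorem KLocB4_Q (a b x y : ℝ) (e1 : x * (a ^ 2 - b ^ 2) - y * (2 * (a * b)) = 1)
    (e2 : x * (2 * (a * b)) + y * (a ^ 2 - b ^ 2) = 0)
    (a1 : 914 / 1000 ≤ a) (a2 : a ≤ 1002 / 1000) (hb : |b| ≤ 235 / 10000) :
    99 / 100 ≤ x ∧ x ≤ 11972 / 10000 ∧ |y| ≤ 68 / 1000 := by
  obtain ⟨b1, b2⟩ := abs_le.1 hb
  have hb2 : b ^ 2 ≤ (235 / 10000) ^ 2 := by
    rw [← sq_abs]
    gcongr
  have ha1 : (914 / 1000) ^ 2 ≤ a ^ 2 := by gcongr
  have ha2 : a ^ 2 ≤ (1002 / 1000) ^ 2 := by
    have : 0 ≤ a := by linarith only [a1]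
    gcongr
  norm_num at hb2 ha1 ha2
  have hb0 := sq_nonneg b
  set n : ℝ := a ^ 2 + b ^ 2 with hn
  have hn0 : 0 < n := by linarith only [hb0, ha1]
  have ex : x = (a ^ 2 - b ^ 2) / n ^ 2 := by
    rw [eq_div_iff (by positivity)]
    linear_combination (a ^ 2 - b ^ 2) * e1 + (2 * (a * b)) * e2
  have ey : y = -(2 * (a * b)) / n ^ 2 := by
    rw [eq_div_iff (by positivity)]
    linear_combination -(2 * (a * b)) * e1 + (a ^ 2 - b ^ 2) * e2
  have hab : a ^ 2 - b ^ 2 = n - 2 * b ^ 2 := by rw [hn]; ring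
  have n1 : 8353 / 10000 ≤ n := by linarith only [hb0, ha1]
  have n2 : n ≤ 1005 / 1000 := by linarith only [ha2, hb2]
  refine ⟨?_, ?_, ?_⟩
  · rw [ex, hab, le_div_iff₀ (by positivity)]
    linarith only [mul_nonneg (sub_nonneg.2 n1) (sub_nonneg.2 n2), hb2, n2]
  · rw [ex, hab, div_le_iff₀ (by positivity)]
    linarith only [mul_nonneg (sub_nonneg.2 n1) hn0.le, hb0, n1]
  · rw [ey, abs_div, abs_neg, abs_mul, abs_two, abs_mul, abs_of_pos (by linarith only [a1] : 0 < a),
      abs_of_pos (by positivity : 0 < n ^ 2), div_le_iff₀ (by positivity)]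
    linarith only [mul_le_mul a2 hb (abs_nonneg b) (by norm_num : (0:ℝ) ≤ 1002 / 1000),
      mul_nonneg (sub_nonneg.2 n1) hn0.le, n1]

/-- One block with `|r| = 2`, the other one with `4 ≤ |r|`. -/
theorem locB4 (r1 r2 : ℤ) (h1 : |r1| = 2) (h2 : 4 ≤ |r2|) (v w : ℂ)
    (hv : Blk r1 v (cos (Real.pi * w))) (hw : Blk r2 w (cos (Real.pi * v))) :
    27 / 100 ≤ (yF v w).re ∧ (yF v w).re ≤ 33 / 100 ∧ |(yF v w).im| + w.im ≤ 65 / 1000 ∧
      -(35 / 1000) ≤ (r1 / 2 : ℝ) * (yF v w).im ∧ (r1 / 2 : ℝ) * (yF v w).im ≤ 0 := by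
  obtain ⟨hwi, ha1, ha2, hb⟩ := KLocB4_cos r2 h2 w (hw.loc3 (by omega))
  have hsq := hv.sq h1
  have hpos := hv.pos
  set k1 : ℂ := cos (Real.pi * v) with hk1
  set k2 : ℂ := cos (Real.pi * w) with hk2
  set a := k2.re with ha
  set b := k2.im with hbd
  obtain ⟨hb1, hb2⟩ := abs_le.1 hb
  set s : ℝ := (r1 / 2 : ℝ) with hs
  have hs1 : s = 1 ∨ s = -1 := by
    rcases abs_eq (by norm_num : (0 : ℤ) ≤ 2) |>.1 h1 with h | h
    · left
      rw [hs, h]
      norm_num
    · right
      rw [hs, h]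
      norm_num
  have hss : s ^ 2 = 1 := by
    rcases hs1 with h | h <;> rw [h] <;> norm_num
  have hr1 : (r1 : ℂ) = ((2 * s : ℝ) : ℂ) := by
    rw [hs]
    push_cast
    ring
  have hk10 : k1 ≠ 0 := by
    intro h
    rw [h] at hpos
    norm_num at hpos
  have hk20 : k2 ≠ 0 := by
    intro h
    rw [ha, h] at ha1
    norm_num at ha1
  set G : ℂ := 4 * k1 ^ 2 - 1 with hG
  set g := G.re with hg
  set g' := G.im with hg'
  have e1 : g ^ 2 - (s * g') ^ 2 = 1 - 2 * s * b := by
    have := congrArg Complex.re hsq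
    rw [hr1, pow_two G, Complex.mul_re] at this
    simp only [Complex.add_re, Complex.one_re, Complex.mul_re, Complex.ofReal_re, Complex.I_re,
      Complex.ofReal_im, Complex.I_im, Complex.mul_im] at this
    rw [mul_pow, hss]
    linear_combination this
  have e2 : g * (s * g') = a := by
    have := congrArg Complex.im hsq
    rw [hr1, pow_two G, Complex.mul_im] at this
    simp only [Complex.add_im, Complex.one_im, Complex.mul_re, Complex.ofReal_re, Complex.I_re,
      Complex.ofReal_im, Complex.I_im, Complex.mul_im] at this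
    linear_combination s / 2 * this + a * hss
  have hc : 953 / 1000 ≤ 1 - 2 * s * b ∧ 1 - 2 * s * b ≤ 1047 / 1000 := by
    rcases hs1 with h | h <;> rw [h] <;> constructor <;> linarith only [hb1, hb2]
  obtain ⟨g1, g2, g3, g4⟩ := KLocB4_g g (s * g') (1 - 2 * s * b) a hpos e1 e2 hc.1 hc.2 ha1 ha2
  set P : ℂ := 1 / k1 ^ 2 with hP
  set Q : ℂ := 1 / k2 ^ 2 with hQ
  have hPG : P * (1 + G) = 4 := by
    rw [hP, hG]
    field_simp
    ring
  have hQk : Q * k2 ^ 2 = 1 := by
    rw [hQ]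
    field_simp
  have p1 : P.re * (1 + g) - s * P.im * (s * g') = 4 := by
    have := congrArg Complex.re hPG
    simp only [Complex.mul_re, Complex.add_re, Complex.add_im, Complex.one_re, Complex.one_im] at this
    norm_num at this
    linear_combination this - P.im * g' * hss
  have p2 : P.re * (s * g') + s * P.im * (1 + g) = 0 := by
    have := congrArg Complex.im hPG
    simp only [Complex.mul_im, Complex.add_re, Complex.add_im, Complex.one_re, Complex.one_im] at this
    norm_num at this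
    linear_combination s * this
  obtain ⟨x1, x2, x3, x4⟩ := KLocB4_P g (s * g') P.re (s * P.im) p1 p2 g1 g2 g3 g4
  have q1 : Q.re * (a ^ 2 - b ^ 2) - Q.im * (2 * (a * b)) = 1 := by
    have := congrArg Complex.re hQk
    rw [pow_two k2] at this
    simp only [Complex.mul_re, Complex.mul_im, Complex.one_re] at this
    linear_combination this
  have q2 : Q.re * (2 * (a * b)) + Q.im * (a ^ 2 - b ^ 2) = 0 := by
    have := congrArg Complex.im hQk
    rw [pow_two k2] at this
    simp only [Complex.mul_re, Complex.mul_im, Complex.one_im] at this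
    linear_combination this
  obtain ⟨x5, x6, x7⟩ := KLocB4_Q a b Q.re Q.im q1 q2 ha1 ha2 hb
  obtain ⟨x8, x9⟩ := abs_le.1 x7
  set S : ℂ := P + Q - 1 with hS
  have hSre : S.re = P.re + Q.re - 1 := by
    rw [hS]
    simp
  have hSim : S.im = P.im + Q.im := by
    rw [hS]
    simp
  have hT := KLocB4_sqrt S (by rw [hSre]; linarith only [x5, x1]) (by rw [hSre]; linarith only [x6,
                                                                                   x2])
    (by
      rw [hSim, abs_le]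
      rcases hs1 with h | h <;> rw [h] at x3 x4 <;> constructor <;>
        linarith only [x3, x4, x8, x9])
  set T : ℂ := S ^ (1 / 2 : ℂ) with hTd
  obtain ⟨t1, t2, t3, t4, t5⟩ := hT
  obtain ⟨y1, y2, y3, y4, y5⟩ := KLocB4_arctan T t1 t2 t3
  have hy : yF v w = arctan T / Real.pi := by
    rw [yF]
  rw [hy]
  obtain ⟨y6, y7⟩ := abs_le.1 y3
  refine ⟨y1, y2, ?_, ?_, ?_⟩
  · have := (abs_le.1 hwi).2
    linarith only [this, y3]
  · rcases hs1 with h | h <;> rw [h] <;> linarith only [y6, y7]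
  · rcases hs1 with h | h
    · rw [h]
      have : S.im ≤ 0 := by
        rw [hSim]
        rw [h] at x4
        linarith only [x9, x4]
      linarith only [y5 (t5 this)]
    · rw [h]
      have : 0 ≤ S.im := by
        rw [hSim]
        rw [h] at x4
        linarith only [x8, x4]
      linarith only [y4 (t4 this)]

end Pool.Agent.H63.GO
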