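import Pool.Agent.H63.GO.KDefs

/-! # Location of y: locC -/

namespace Pool.Agent.H63.GO

open Complex Filter Topology Pool.Agent.H63.VC Pool.Agent.H63.VC3

/-- Localisation of a square root. -/
private theorem KLocC_sqrt {q q0 z : ℂ} {δ m M e e' : ℝ} (hq : q ^ 2 = z) (hre : 0 < q.re)
    (hm0 : 0 < m) (hm : m ≤ q0.re) (hM : M ≤ ‖q0‖) (hz : ‖z - q0 ^ 2‖ ≤ δ) (h1 : δ ≤ m * e')
    (h2 : δ ≤ e * (2 * M - e')) (h3 : 0 < 2 * M - e') : ‖q - q0‖ ≤ e := by
  have hmul : ‖q - q0‖ * ‖q + q0‖ ≤ δ := by
    rw [← norm_mul]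
    have : (q - q0) * (q + q0) = z - q0 ^ 2 := by rw [← hq]; ring
    rw [this]
    exact hz
  have hge : m ≤ ‖q + q0‖ := by
    have h4 : (q + q0).re ≤ ‖q + q0‖ := Complex.re_le_norm _
    rw [Complex.add_re] at h4
    linarith only [hre, hm, h4]
  have hn : 0 ≤ ‖q - q0‖ := norm_nonneg _
  have h5 : ‖q - q0‖ ≤ e' := by
    have h6 : ‖q - q0‖ * m ≤ e' * m := by
      calc ‖q - q0‖ * m ≤ ‖q - q0‖ * ‖q + q0‖ := mul_le_mul_of_nonneg_left hge hn
        _ ≤ δ := hmul
        _ ≤ m * e' := h1
        _ = e' * m := mul_comm _ _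
    exact le_of_mul_le_mul_right h6 hm0
  have h7 : 2 * M - e' ≤ ‖q + q0‖ := by
    have h8 : q + q0 = 2 * q0 + (q - q0) := by ring
    have h9 : ‖2 * q0‖ = 2 * ‖q0‖ := by rw [norm_mul]; norm_num
    have h10 : ‖2 * q0‖ - ‖q - q0‖ ≤ ‖2 * q0 + (q - q0)‖ := by
      have := norm_sub_le (2 * q0 + (q - q0)) (q - q0)
      have h11 : 2 * q0 + (q - q0) - (q - q0) = 2 * q0 := by ring
      rw [h11] at this
      linarith only [this]
    rw [h8]
    linarith only [hM, h5, h9, h10]
  have h12 : ‖q - q0‖ * (2 * M - e') ≤ e * (2 * M - e') := by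
    calc ‖q - q0‖ * (2 * M - e') ≤ ‖q - q0‖ * ‖q + q0‖ := mul_le_mul_of_nonneg_left h7 hn
      _ ≤ δ := hmul
      _ ≤ e * (2 * M - e') := h2
  exact le_of_mul_le_mul_right h12 h3

/-- Norm of a number given by its parts. -/
private theorem KLocC_norm_le {z : ℂ} {c : ℝ} (hc : 0 ≤ c) (h : z.re ^ 2 + z.im ^ 2 ≤ c ^ 2) :
    ‖z‖ ≤ c := by
  have h1 : ‖z‖ ^ 2 ≤ c ^ 2 := by
    rw [← Complex.normSq_eq_norm_sq, Complex.normSq_apply]
    linarith only [h]
  exact abs_le_of_sq_le_sq' h1 hc |>.2

private theorem KLocC_le_norm {z : ℂ} {c : ℝ} (h : c ^ 2 ≤ z.re ^ 2 + z.im ^ 2) :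
    c ≤ ‖z‖ := by
  have h1 : c ^ 2 ≤ ‖z‖ ^ 2 := by
    rw [← Complex.normSq_eq_norm_sq, Complex.normSq_apply]
    linarith only [h]
  exact le_trans (le_abs_self c) (abs_le_of_sq_le_sq h1 (norm_nonneg _) |> fun h => h)

/-- The point `a + b s i`. -/
private noncomputable def KLocC_pt (a b s : ℝ) : ℂ := ⟨a, b * s⟩

private theorem KLocC_pt_norm_le {a b s c : ℝ} (hs : s ^ 2 = 1) (hc : 0 ≤ c)
    (h : a ^ 2 + b ^ 2 ≤ c ^ 2) : ‖KLocC_pt a b s‖ ≤ c := by
  apply KLocC_norm_le hc
  simp only [KLocC_pt]
  rw [mul_pow, hs, mul_one]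
  exact h

private theorem KLocC_le_pt_norm {a b s c : ℝ} (hs : s ^ 2 = 1)
    (h : c ^ 2 ≤ a ^ 2 + b ^ 2) : c ≤ ‖KLocC_pt a b s‖ := by
  apply KLocC_le_norm
  simp only [KLocC_pt]
  rw [mul_pow, hs, mul_one]
  exact h

/-- First localisation of the cosine of a block. -/
private theorem KLocC_first {s : ℝ} (hs : s ^ 2 = 1) {k k' : ℂ} (hk : ‖k - 85 / 100‖ ≤ 18 / 100)
    (hk' : ‖k' - 85 / 100‖ ≤ 18 / 100) (he : (4 * k ^ 2 - 1) ^ 2 = 1 + 2 * s * I * k')
    (hp : 0 < (4 * k ^ 2 - 1).re) :
    ‖k - KLocC_pt (7538 / 10000) (1156 / 10000) s‖ ≤ 246 / 10000 := by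
  have hs1 : |s| = 1 := by
    have : |s| ^ 2 = 1 := by rw [sq_abs]; exact hs
    have h0 := abs_nonneg s
    nlinarith
  have h1 : ‖(4 * k ^ 2 - 1) - KLocC_pt (1219 / 1000) (697 / 1000) s‖ ≤ 144 / 1000 := by
    refine KLocC_sqrt (δ := 361 / 1000) (m := 1219 / 1000) (M := 1404 / 1000)
      (e' := 2962 / 10000) he hp (by norm_num) (le_of_eq rfl) ?_ ?_ (by norm_num) (by norm_num)
      (by norm_num)
    · apply KLocC_le_pt_norm hs
      norm_num
    · have h2 : (1 + 2 * s * I * k') - KLocC_pt (1219 / 1000) (697 / 1000) s ^ 2 =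
          2 * s * I * (k' - 85 / 100) + KLocC_pt (-152 / 1000000) (714 / 1000000) s := by
        apply Complex.ext
        · simp [KLocC_pt, pow_two]
          linarith only [hs]
        · simp [KLocC_pt, pow_two]
          ring
      rw [h2]
      have h3 : ‖2 * s * I * (k' - 85 / 100)‖ ≤ 36 / 100 := by
        rw [norm_mul, norm_mul, norm_mul, Complex.norm_I, Complex.norm_real, Real.norm_eq_abs, hs1]
        norm_num
        norm_num at hk'
        linarith only [hk']
      have h4 : ‖KLocC_pt (-152 / 1000000) (714 / 1000000) s‖ ≤ 1 / 1000 :=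
        KLocC_pt_norm_le hs (by norm_num) (by norm_num)
      calc _ ≤ _ := norm_add_le _ _
        _ ≤ _ := by linarith only [h3, h4]
  have hkre : 0 < k.re := by
    have h5 := Complex.abs_re_le_norm (k - 85 / 100)
    have h6 : (k - 85 / 100).re = k.re - 85 / 100 := by
      simp
    rw [h6] at h5
    have := abs_le.1 (le_trans h5 hk)
    linarith only [this.1]
  refine KLocC_sqrt (δ := 362 / 10000) (m := 7538 / 10000) (M := 7626 / 10000)
      (e' := 481 / 10000) (rfl : k ^ 2 = k ^ 2) hkre (by norm_num) (le_of_eq rfl) ?_ ?_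
      (by norm_num) (by norm_num) (by norm_num)
  · apply KLocC_le_pt_norm hs
    norm_num
  · have h7 : k ^ 2 - KLocC_pt (7538 / 10000) (1156 / 10000) s ^ 2 =
        ((4 * k ^ 2 - 1) - KLocC_pt (1219 / 1000) (697 / 1000) s) / 4 +
          KLocC_pt (-10108 / 100000000) (-2856 / 100000000) s := by
      apply Complex.ext
      · simp [KLocC_pt, pow_two]
        linarith only [hs]
      · simp [KLocC_pt, pow_two]
        ring
    rw [h7]
    have h8 : ‖((4 * k ^ 2 - 1) - KLocC_pt (1219 / 1000) (697 / 1000) s) / 4‖ ≤ 36 / 1000 := by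
      rw [norm_div]
      have : ‖(4 : ℂ)‖ = 4 := by norm_num
      rw [this]
      linarith only [h1]
    have h9 : ‖KLocC_pt (-10108 / 100000000) (-2856 / 100000000) s‖ ≤ 2 / 10000 :=
      KLocC_pt_norm_le hs (by norm_num) (by norm_num)
    calc _ ≤ _ := norm_add_le _ _
      _ ≤ _ := by linarith only [h8, h9]

/-- Second localisation, equal signs. -/
private theorem KLocC_same {s : ℝ} (hs : s ^ 2 = 1) {k k' : ℂ}
    (hk' : ‖k' - KLocC_pt (7538 / 10000) (1156 / 10000) s‖ ≤ 246 / 10000)
    (he : (4 * k ^ 2 - 1) ^ 2 = 1 + 2 * s * I * k') (hp : 0 < (4 * k ^ 2 - 1).re) :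
    ‖k ^ 2 - KLocC_pt (52725 / 100000) (17 / 100) s‖ ≤ 5 / 1000 := by
  have hs1 : |s| = 1 := by
    have : |s| ^ 2 = 1 := by rw [sq_abs]; exact hs
    have h0 := abs_nonneg s
    nlinarith
  have h1 : ‖(4 * k ^ 2 - 1) - KLocC_pt (1109 / 1000) (68 / 100) s‖ ≤ 2 / 100 := by
    refine KLocC_sqrt (δ := 508 / 10000) (m := 1109 / 1000) (M := 13008 / 10000)
      (e' := 459 / 10000) he hp (by norm_num) (le_of_eq rfl) ?_ ?_ (by norm_num) (by norm_num)
      (by norm_num)
    · apply KLocC_le_pt_norm hs
      norm_num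
    · have h2 : (1 + 2 * s * I * k') - KLocC_pt (1109 / 1000) (68 / 100) s ^ 2 =
          2 * s * I * (k' - KLocC_pt (7538 / 10000) (1156 / 10000) s) +
            KLocC_pt (1 - 2 * (1156 / 10000) - (1109 / 1000) ^ 2 + (68 / 100) ^ 2)
              (2 * (7538 / 10000) - 2 * (1109 / 1000) * (68 / 100)) s := by
        apply Complex.ext
        · simp [KLocC_pt, pow_two]
          linarith only [hs]
        · simp [KLocC_pt, pow_two]
          ring
      rw [h2]
      have h3 : ‖2 * s * I * (k' - KLocC_pt (7538 / 10000) (1156 / 10000) s)‖ ≤ 492 / 10000 := by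
        rw [norm_mul, norm_mul, norm_mul, Complex.norm_I, Complex.norm_real, Real.norm_eq_abs, hs1]
        norm_num
        norm_num at hk'
        linarith only [hk']
      have h4 : ‖KLocC_pt (1 - 2 * (1156 / 10000) - (1109 / 1000) ^ 2 + (68 / 100) ^ 2)
              (2 * (7538 / 10000) - 2 * (1109 / 1000) * (68 / 100)) s‖ ≤ 16 / 10000 :=
        KLocC_pt_norm_le hs (by norm_num) (by norm_num)
      calc _ ≤ _ := norm_add_le _ _
        _ ≤ _ := by linarith only [h3, h4]
  have h5 : k ^ 2 - KLocC_pt (52725 / 100000) (17 / 100) s =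
      ((4 * k ^ 2 - 1) - KLocC_pt (1109 / 1000) (68 / 100) s) / 4 := by
    apply Complex.ext
    · simp [KLocC_pt]
      ring
    · simp [KLocC_pt]
      ring
  rw [h5, norm_div]
  have : ‖(4 : ℂ)‖ = 4 := by norm_num
  rw [this]
  linarith only [h1]

/-- Second localisation, opposite signs. -/
private theorem KLocC_opp {s : ℝ} (hs : s ^ 2 = 1) {k k' : ℂ}
    (hk' : ‖k' - KLocC_pt (7538 / 10000) (1156 / 10000) (-s)‖ ≤ 246 / 10000)
    (he : (4 * k ^ 2 - 1) ^ 2 = 1 + 2 * s * I * k') (hp : 0 < (4 * k ^ 2 - 1).re) :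
    ‖k ^ 2 - KLocC_pt (565 / 1000) (1495 / 10000) s‖ ≤ 5 / 1000 := by
  have hs1 : |s| = 1 := by
    have : |s| ^ 2 = 1 := by rw [sq_abs]; exact hs
    have h0 := abs_nonneg s
    nlinarith
  have h1 : ‖(4 * k ^ 2 - 1) - KLocC_pt (126 / 100) (598 / 1000) s‖ ≤ 2 / 100 := by
    refine KLocC_sqrt (δ := 508 / 10000) (m := 126 / 100) (M := 13946 / 10000)
      (e' := 404 / 10000) he hp (by norm_num) (le_of_eq rfl) ?_ ?_ (by norm_num) (by norm_num)
      (by norm_num)
    · apply KLocC_le_pt_norm hs
      norm_num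
    · have h2 : (1 + 2 * s * I * k') - KLocC_pt (126 / 100) (598 / 1000) s ^ 2 =
          2 * s * I * (k' - KLocC_pt (7538 / 10000) (1156 / 10000) (-s)) +
            KLocC_pt (1 + 2 * (1156 / 10000) - (126 / 100) ^ 2 + (598 / 1000) ^ 2)
              (2 * (7538 / 10000) - 2 * (126 / 100) * (598 / 1000)) s := by
        apply Complex.ext
        · simp [KLocC_pt, pow_two]
          linarith only [hs]
        · simp [KLocC_pt, pow_two]
          ring
      rw [h2]
      have h3 : ‖2 * s * I * (k' - KLocC_pt (7538 / 10000) (1156 / 10000) (-s))‖ ≤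
          492 / 10000 := by
        rw [norm_mul, norm_mul, norm_mul, Complex.norm_I, Complex.norm_real, Real.norm_eq_abs, hs1]
        norm_num
        norm_num at hk'
        linarith only [hk']
      have h4 : ‖KLocC_pt (1 + 2 * (1156 / 10000) - (126 / 100) ^ 2 + (598 / 1000) ^ 2)
              (2 * (7538 / 10000) - 2 * (126 / 100) * (598 / 1000)) s‖ ≤ 16 / 10000 :=
        KLocC_pt_norm_le hs (by norm_num) (by norm_num)
      calc _ ≤ _ := norm_add_le _ _
        _ ≤ _ := by linarith only [h3, h4]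
  have h5 : k ^ 2 - KLocC_pt (565 / 1000) (1495 / 10000) s =
      ((4 * k ^ 2 - 1) - KLocC_pt (126 / 100) (598 / 1000) s) / 4 := by
    apply Complex.ext
    · simp [KLocC_pt]
      ring
    · simp [KLocC_pt]
      ring
  rw [h5, norm_div]
  have : ‖(4 : ℂ)‖ = 4 := by norm_num
  rw [this]
  linarith only [h1]

/-- Harmonic mean of two numbers near given numbers. -/
private theorem KLocC_harm {X Y X0 Y0 H0 : ℂ} {d a b c g m ρ : ℝ} (hX : ‖X - X0‖ ≤ d)
    (hY : ‖Y - Y0‖ ≤ d) (ha : ‖2 * Y0 - H0‖ ≤ a) (hb : ‖2 * X0 - H0‖ ≤ b)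
    (hc : ‖2 * X0 * Y0 - H0 * (X0 + Y0)‖ ≤ c) (hg : g ≤ ‖X0 + Y0‖) (hm : m = g - 2 * d)
    (hm0 : 0 < m) (hρ : c + d * a + d * b + 2 * d ^ 2 ≤ ρ * m) :
    X + Y ≠ 0 ∧ ‖2 * X * Y / (X + Y) - H0‖ ≤ ρ := by
  have hd : 0 ≤ d := le_trans (norm_nonneg _) hX
  have h1 : m ≤ ‖X + Y‖ := by
    have h2 : ‖X0 + Y0‖ ≤ ‖X + Y‖ + ‖X - X0‖ + ‖Y - Y0‖ := by
      have h3 : X0 + Y0 = (X + Y) - (X - X0) - (Y - Y0) := by ring
      calc ‖X0 + Y0‖ = ‖(X + Y) - (X - X0) - (Y - Y0)‖ := by rw [← h3]
        _ ≤ ‖(X + Y) - (X - X0)‖ + ‖Y - Y0‖ := norm_sub_le _ _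
        _ ≤ _ := by
          have := norm_sub_le (X + Y) (X - X0)
          linarith only [this]
    linarith only [hX, hY, hg, hm, h2]
  have h0 : X + Y ≠ 0 := by
    intro h
    rw [h, norm_zero] at h1
    linarith only [hm0, h1]
  refine ⟨h0, ?_⟩
  have h4 : 2 * X * Y / (X + Y) - H0 = ((2 * X0 * Y0 - H0 * (X0 + Y0)) +
      (X - X0) * (2 * Y0 - H0) + (Y - Y0) * (2 * X0 - H0) + 2 * ((X - X0) * (Y - Y0))) /
      (X + Y) := by
    field_simp
    ring
  rw [h4, norm_div, div_le_iff₀ (lt_of_lt_of_le hm0 h1)]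
  have h5 : ‖(2 * X0 * Y0 - H0 * (X0 + Y0)) + (X - X0) * (2 * Y0 - H0) +
      (Y - Y0) * (2 * X0 - H0) + 2 * ((X - X0) * (Y - Y0))‖ ≤ c + d * a + d * b + 2 * d ^ 2 := by
    have n1 : ‖(X - X0) * (2 * Y0 - H0)‖ ≤ d * a := by
      rw [norm_mul]
      exact mul_le_mul hX ha (norm_nonneg _) hd
    have n2 : ‖(Y - Y0) * (2 * X0 - H0)‖ ≤ d * b := by
      rw [norm_mul]
      exact mul_le_mul hY hb (norm_nonneg _) hd
    have n3 : ‖2 * ((X - X0) * (Y - Y0))‖ ≤ 2 * d ^ 2 := by
      rw [norm_mul, norm_mul]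
      have : ‖(2 : ℂ)‖ = 2 := by norm_num
      rw [this, pow_two]
      have := mul_le_mul hX hY (norm_nonneg _) hd
      linarith only [this]
    calc _ ≤ ‖(2 * X0 * Y0 - H0 * (X0 + Y0)) + (X - X0) * (2 * Y0 - H0) +
          (Y - Y0) * (2 * X0 - H0)‖ + ‖2 * ((X - X0) * (Y - Y0))‖ := norm_add_le _ _
      _ ≤ ‖(2 * X0 * Y0 - H0 * (X0 + Y0)) + (X - X0) * (2 * Y0 - H0)‖ +
          ‖(Y - Y0) * (2 * X0 - H0)‖ + ‖2 * ((X - X0) * (Y - Y0))‖ := by
        have := norm_add_le ((2 * X0 * Y0 - H0 * (X0 + Y0)) + (X - X0) * (2 * Y0 - H0))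
          ((Y - Y0) * (2 * X0 - H0))
        linarith only [this]
      _ ≤ _ := by
        have := norm_add_le (2 * X0 * Y0 - H0 * (X0 + Y0)) ((X - X0) * (2 * Y0 - H0))
        linarith only [hc, n1, n2, n3, this]
  have hρ0 : 0 ≤ ρ := by
    have h6 : 0 ≤ ρ * m := le_trans (norm_nonneg _) (le_trans h5 hρ)
    by_contra hneg
    push Not at hneg
    linarith only [mul_pos (sub_pos.2 hm0) (sub_pos.2 hneg), h6]
  calc _ ≤ c + d * a + d * b + 2 * d ^ 2 := h5
    _ ≤ ρ * m := hρ
    _ ≤ ρ * ‖X + Y‖ := mul_le_mul_of_nonneg_left h1 hρ0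

/-- The real part of the principal root. -/
private theorem KLocC_root {W : ℂ} (hW : 0 < W.re) : (W ^ (1 / 2 : ℂ)) ^ 2 = W ∧
    0 < (W ^ (1 / 2 : ℂ)).re := by
  have hne : W ≠ 0 := by
    intro h
    rw [h] at hW
    simp at hW
  constructor
  · have : (1 / 2 : ℂ) = ((2 : ℕ) : ℂ)⁻¹ := by norm_num
    rw [this]
    exact Complex.cpow_nat_inv_pow W (by norm_num)
  · rw [Complex.cpow_def_of_ne_zero hne, Complex.exp_re]
    apply mul_pos (Real.exp_pos _)
    apply Real.cos_pos_of_mem_Ioo
    have h1 : (Complex.log W * (1 / 2 : ℂ)).im = Complex.arg W / 2 := by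
      have : Complex.log W * (1 / 2 : ℂ) = ((1 / 2 : ℝ) : ℂ) * Complex.log W := by
        push_cast; ring
      rw [this, Complex.mul_im, Complex.ofReal_re, Complex.ofReal_im, Complex.log_im]
      ring
    rw [h1]
    have h2 : |Complex.arg W| < Real.pi / 2 := Complex.abs_arg_lt_pi_div_two_iff.2 (Or.inl hW)
    have h3 := abs_lt.1 h2
    have hpi := Real.pi_pos
    constructor <;> linarith only [h3.1, h3.2]

/-- Location of `arctan` in terms of `2 / (1 + tan²)`. -/
private theorem KLocC_fin {H : ℂ} (h1 : 52 / 100 ≤ H.re) (h2 : H.re ≤ 62 / 100)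
    (h3 : |H.im| ≤ 18 / 100) {y : ℂ} (hy : y = arctan ((2 / H - 1) ^ (1 / 2 : ℂ)) / Real.pi) :
    30 / 100 ≤ y.re ∧ y.re ≤ 34 / 100 ∧ |y.im| * (54 / 10) ≤ |H.im| ∧ H.im * y.im ≤ 0 := by
  have hpi := Real.pi_pos
  have hpi1 := Real.pi_gt_d2
  have hpi2 := Real.pi_lt_d2
  have hn : 0 < H.re ^ 2 + H.im ^ 2 := by linarith only [mul_nonneg (sub_nonneg.2 h1) (sub_nonneg.2 h1),
                                            sq_nonneg (H.im), h1, hpi1, hpi2]
  have hH0 : H ≠ 0 := by
    intro h
    rw [h] at h1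
    norm_num at h1
  have him := abs_le.1 h3
  have hWre : 0 < (2 / H - 1).re := by
    have h4 : (2 / H - 1).re = 2 * H.re / (H.re ^ 2 + H.im ^ 2) - 1 := by
      rw [Complex.sub_re, Complex.div_re, Complex.normSq_apply]
      simp
      ring
    rw [h4]
    have h5 : 1 < 2 * H.re / (H.re ^ 2 + H.im ^ 2) := by
      rw [lt_div_iff₀ hn]
      (refine lt_of_not_ge fun hng => ?_; linarith only [mul_nonneg (sq_nonneg (H.im)) (sub_nonneg.2 h2),
                                            mul_nonneg (sq_nonneg (H.re)) (sub_nonneg.2 h2),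
                                            mul_nonneg (sub_nonneg.2 hng) (sub_nonneg.2 h1),
                                            mul_pos (sub_pos.2 hpi1) (sub_pos.2 hpi1),
                                            mul_pos (sub_pos.2 hpi1) (sub_pos.2 hpi2),
                                            mul_pos (sub_pos.2 hpi2) (sub_pos.2 hpi2),
                                            mul_nonneg (sub_nonneg.2 him.1) (sub_nonneg.2 him.2),
                                            h1, hng])
    linarith only [h5]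
  obtain ⟨hT2, hTre⟩ := KLocC_root hWre
  set T : ℂ := (2 / H - 1) ^ (1 / 2 : ℂ) with hT
  have hTI : T ≠ I := by
    intro h
    rw [h] at hTre
    simp at hTre
  have hTI' : T ≠ -I := by
    intro h
    rw [h] at hTre
    simp at hTre
  have htan : Complex.tan (arctan T) = T := Complex.tan_arctan hTI hTI'
  set A : ℂ := arctan T with hA
  have hAre : -(Real.pi / 2) < A.re ∧ A.re ≤ Real.pi / 2 := by
    have h4 : A.re = Complex.arg ((1 + T * I) / (1 - T * I)) / 2 := by
      rw [hA]
      unfold Complex.arctan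
      rw [Complex.mul_re, Complex.log_im]
      simp
      ring
    rw [h4]
    have := Complex.neg_pi_lt_arg ((1 + T * I) / (1 - T * I))
    have := Complex.arg_le_pi ((1 + T * I) / (1 - T * I))
    constructor <;> linarith
  have hcos0 : Complex.cos A ≠ 0 := by
    intro h
    rw [Complex.tan_eq_sin_div_cos, h, div_zero] at htan
    rw [← htan] at hTre
    simp at hTre
  have hsin : Complex.sin A = T * Complex.cos A := by
    rw [Complex.tan_eq_sin_div_cos, div_eq_iff hcos0] at htan
    exact htan
  have hc2 : Complex.cos A ^ 2 = H / 2 := by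
    have h4 : Complex.sin A ^ 2 + Complex.cos A ^ 2 = 1 := Complex.sin_sq_add_cos_sq A
    rw [hsin, mul_pow, hT2] at h4
    have h5 : (2 / H) * Complex.cos A ^ 2 = 1 := by
      linear_combination h4
    field_simp at h5
    field_simp
    linear_combination h5
  have hc2A : Complex.cos (2 * A) = H - 1 := by
    rw [Complex.cos_two_mul, hc2]
    ring
  set α : ℝ := A.re with hα
  set β : ℝ := A.im with hβ
  have hAab : A = (α : ℂ) + (β : ℂ) * I := by
    rw [hα, hβ]
    exact (Complex.re_add_im A).symm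
  -- the sign of sin α
  have hsc : 0 < Real.sin α * Real.cos α := by
    have h4 : (Complex.sin A * (starRingEnd ℂ) (Complex.cos A)).re = Real.sin α * Real.cos α := by
      have h5 : Complex.sin A = ⟨Real.sin α * Real.cosh β, Real.cos α * Real.sinh β⟩ := by
        rw [hAab, Complex.sin_add_mul_I]
        apply Complex.ext <;> simp [← Complex.ofReal_sin, ← Complex.ofReal_cos,
          ← Complex.ofReal_sinh, ← Complex.ofReal_cosh]
      have h6 : Complex.cos A = ⟨Real.cos α * Real.cosh β, -(Real.sin α * Real.sinh β)⟩ := by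
        rw [hAab, Complex.cos_add_mul_I]
        apply Complex.ext <;> simp [← Complex.ofReal_sin, ← Complex.ofReal_cos,
          ← Complex.ofReal_sinh, ← Complex.ofReal_cosh]
      rw [h5, h6]
      simp [Complex.mul_re]
      have h7 := Real.cosh_sq β
      linear_combination (Real.sin α * Real.cos α) * h7
    have h8 : (Complex.sin A * (starRingEnd ℂ) (Complex.cos A)).re =
        T.re * Complex.normSq (Complex.cos A) := by
      rw [hsin, mul_assoc, Complex.mul_conj, Complex.mul_re, Complex.ofReal_re,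
        Complex.ofReal_im]
      ring
    rw [← h4, h8]
    exact mul_pos hTre (Complex.normSq_pos.2 hcos0)
  have hcosα : 0 < Real.cos α := by
    have h4 : 0 ≤ Real.cos α := Real.cos_nonneg_of_mem_Icc ⟨hAre.1.le, hAre.2⟩
    rcases h4.lt_or_eq with h | h
    · exact h
    · rw [← h] at hsc
      simp at hsc
  have hsinα : 0 < Real.sin α := by
    by_contra h
    push Not at h
    linarith only [mul_pos (sub_pos.2 hpi1) (sub_pos.2 hsc),
      mul_pos (sub_pos.2 hpi2) (sub_pos.2 hsc), mul_nonneg (sub_nonneg.2 hcosα.le) (sub_nonneg.2 h)]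
  have hα0 : 0 < α := by
    by_contra h
    push Not at h
    have h4 : Real.sin α ≤ 0 := Real.sin_nonpos_of_nonpos_of_neg_pi_le h (by linarith only [hpi1,
                                                                               hAre.1])
    linarith only [hsinα, h4]
  -- the real and the imaginary part of cos (2 A)
  have h6 : Complex.cos (2 * A) = ⟨Real.cos (2 * α) * Real.cosh (2 * β),
      -(Real.sin (2 * α) * Real.sinh (2 * β))⟩ := by
    have h7 : 2 * A = ((2 * α : ℝ) : ℂ) + ((2 * β : ℝ) : ℂ) * I := by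
      rw [hAab]
      push_cast
      ring
    rw [h7, Complex.cos_add_mul_I]
    apply Complex.ext <;> simp [← Complex.ofReal_sin, ← Complex.ofReal_cos,
          ← Complex.ofReal_sinh, ← Complex.ofReal_cosh, ← Complex.ofReal_mul]
  have hp : Real.cos (2 * α) * Real.cosh (2 * β) = H.re - 1 := by
    have := congrArg Complex.re (h6.symm.trans hc2A)
    simpa using this
  have hq : Real.sin (2 * α) * Real.sinh (2 * β) = - H.im := by
    have := congrArg Complex.im (h6.symm.trans hc2A)
    simp at this
    linarith only [this]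
  have hs2 : 0 < Real.sin (2 * α) := by
    rw [Real.sin_two_mul]
    linarith only [hsc]
  set c : ℝ := Real.cos (2 * α) with hc
  set sn : ℝ := Real.sin (2 * α) with hsn
  set ch : ℝ := Real.cosh (2 * β) with hch
  set sh : ℝ := Real.sinh (2 * β) with hsh
  have hch1 : 1 ≤ ch := Real.one_le_cosh _
  have hcs : sn ^ 2 + c ^ 2 = 1 := Real.sin_sq_add_cos_sq _
  have hchsh : ch ^ 2 = sh ^ 2 + 1 := Real.cosh_sq _
  have hcneg : c < 0 := by
    by_contra h
    push Not at h
    linarith only [mul_nonneg (sq_nonneg (ch)) (sub_nonneg.2 h),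
      mul_nonneg (sub_nonneg.2 h2) (sub_nonneg.2 hch1), mul_pos (sub_pos.2 hpi1) (sub_pos.2 hpi1),
      mul_pos (sub_pos.2 hpi1) (sub_pos.2 hpi2), mul_pos (sub_pos.2 hpi2) (sub_pos.2 hpi2),
      mul_nonneg (sub_nonneg.2 hp.le) (sub_nonneg.2 hch1), h2, hp, hch1]
  have hc48 : -(48 / 100) ≤ c := by (refine le_of_not_gt fun hng => ?_; linarith only [mul_nonneg (sq_nonneg (c)) (sub_nonneg.2 hch1),
                                                                          mul_pos (sub_pos.2 hng) (sub_pos.2 hng),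
                                                                          mul_nonneg (sub_nonneg.2 hng.le) (sub_nonneg.2 h1),
                                                                          mul_pos (sub_pos.2 hng) (sub_pos.2 hpi1),
                                                                          mul_pos (sub_pos.2 hng) (sub_pos.2 hpi2),
                                                                          mul_nonneg (sub_nonneg.2 hng.le) (sub_nonneg.2 hp.ge),
                                                                          h1, hp])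
  have hsn877 : 877 / 1000 ≤ sn := by (refine le_of_not_gt fun hng => ?_; linarith only [mul_nonneg (sq_nonneg (c)) (sq_nonneg (sh)),
                                                                            mul_nonneg (sq_nonneg (c)) (sub_nonneg.2 hchsh.ge),
                                                                            mul_pos (sub_pos.2 hng) (sub_pos.2 hpi1),
                                                                            mul_pos (sub_pos.2 hng) (sub_pos.2 hpi2),
                                                                            mul_pos (sub_pos.2 hng) (sub_pos.2 hs2),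
                                                                            mul_nonneg (sub_nonneg.2 h1) (sub_nonneg.2 h2),
                                                                            mul_nonneg (sub_nonneg.2 h1) (sub_nonneg.2 hp.le),
                                                                            mul_pos (sub_pos.2 hpi1) (sub_pos.2 hpi1),
                                                                            mul_pos (sub_pos.2 hpi1) (sub_pos.2 hpi2),
                                                                            mul_pos (sub_pos.2 hpi2) (sub_pos.2 hpi2),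
                                                                            mul_nonneg (sub_nonneg.2 hp.ge) (sub_nonneg.2 hp.le),
                                                                            h1, hp, hcs])
  have hshle : |sh| * (877 / 1000) ≤ |H.im| := by
    have h7 : |sn * sh| = |H.im| := by rw [hq, abs_neg]
    rw [abs_mul, abs_of_pos hs2] at h7
    rw [← h7]
    linarith only [mul_nonneg (sub_nonneg.2 hsn877) (sub_nonneg.2 (abs_nonneg sh))]
  have hch2 : ch ≤ 1022 / 1000 := by
    have h7 : |sh| ≤ 2053 / 10000 := by linarith only [h3, hpi1, hpi2, hshle]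
    have h8 : sh ^ 2 ≤ (2053 / 10000) ^ 2 := by
      rw [← sq_abs]
      exact pow_le_pow_left₀ (abs_nonneg _) h7 2
    (refine le_of_not_gt fun hng => ?_; linarith only [mul_pos (sub_pos.2 hng) (sub_pos.2 hng),
                                          hpi1, hpi2, hchsh, h8, hng])
  have hc37 : c ≤ -(37 / 100) := by (refine le_of_not_gt fun hng => ?_; linarith only [mul_pos (sub_pos.2 hng) (sub_pos.2 hpi1),
                                                                          mul_pos (sub_pos.2 hng) (sub_pos.2 hpi2),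
                                                                          mul_nonneg (sub_nonneg.2 hng.le) (sub_nonneg.2 hch1),
                                                                          h2, hpi1, hpi2, hp, hch2])
  -- bounds for α
  have hup : 2 * α ≤ 68 / 100 * Real.pi := by
    by_contra h
    push Not at h
    have h7 : Real.cos (2 * α) < Real.cos (68 / 100 * Real.pi) :=
      Real.cos_lt_cos_of_nonneg_of_le_pi (by positivity) (by linarith only [hAre.2]) h
    have h8 : Real.cos (68 / 100 * Real.pi) = - Real.sin (18 / 100 * Real.pi) := by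
      have : 68 / 100 * Real.pi = 18 / 100 * Real.pi + Real.pi / 2 := by ring
      rw [this, Real.cos_add_pi_div_two]
    have h9 : 18 / 100 * Real.pi - (18 / 100 * Real.pi) ^ 3 / 6 <
        Real.sin (18 / 100 * Real.pi) := Real.sin_gt_sub_cube (by positivity)
    have h10 : (18 / 100 * Real.pi) ^ 3 ≤ (567 / 1000) ^ 3 :=
      pow_le_pow_left₀ (by positivity) (by linarith only [hpi2]) 3
    rw [h8] at h7
    have h11 : c = Real.cos (2 * α) := rfl
    rw [← h11] at h7
    norm_num at h10
    linarith only [hpi1, hc48, h7, h9, h10]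
  have hlo : 60 / 100 * Real.pi ≤ 2 * α := by
    by_contra h
    push Not at h
    have h7 : Real.cos (60 / 100 * Real.pi) < Real.cos (2 * α) :=
      Real.cos_lt_cos_of_nonneg_of_le_pi (by linarith only [hα0]) (by linarith only [hpi]) h
    have h8 : Real.cos (60 / 100 * Real.pi) = - Real.sin (10 / 100 * Real.pi) := by
      have : 60 / 100 * Real.pi = 10 / 100 * Real.pi + Real.pi / 2 := by ring
      rw [this, Real.cos_add_pi_div_two]
    have h9 : Real.sin (10 / 100 * Real.pi) < 10 / 100 * Real.pi := Real.sin_lt (by positivity)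
    rw [h8] at h7
    have h11 : c = Real.cos (2 * α) := rfl
    rw [← h11] at h7
    linarith only [hpi2, hc37, h7, h9]
  have hyre : y.re = α / Real.pi := by
    rw [hy, Complex.div_ofReal_re]
  have hyim : y.im = β / Real.pi := by
    rw [hy, Complex.div_ofReal_im]
  have hβsh : 2 * |β| ≤ |sh| := by
    rw [hsh]
    rcases le_total 0 β with h | h
    · have h7 : 2 * β ≤ Real.sinh (2 * β) := Real.self_le_sinh_iff.2 (by linarith only [h])
      rw [abs_of_nonneg h]
      exact le_trans h7 (le_abs_self _)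
    · have h7 : Real.sinh (2 * β) ≤ 2 * β := Real.sinh_le_self_iff.2 (by linarith only [h])
      rw [abs_of_nonpos h]
      have h8 := neg_le_abs (Real.sinh (2 * β))
      linarith only [h7, h8]
  refine ⟨?_, ?_, ?_, ?_⟩
  · rw [hyre, le_div_iff₀ hpi]
    linarith only [hlo]
  · rw [hyre, div_le_iff₀ hpi]
    linarith only [hup]
  · rw [hyim, abs_div, abs_of_pos hpi, div_mul_eq_mul_div, div_le_iff₀ hpi]
    have h7 : |β| * (1754 / 1000) ≤ |H.im| := by linarith only [hshle, hβsh]
    have h8 := abs_nonneg β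
    (refine le_of_not_gt fun hng => ?_; linarith only [mul_pos (sub_pos.2 hng) (sub_pos.2 hpi1),
                                          mul_pos (sub_pos.2 hng) (sub_pos.2 hpi2),
                                          mul_nonneg (sub_nonneg.2 hpi.le) (sub_nonneg.2 hshle),
                                          mul_nonneg (sub_nonneg.2 hpi.le) (sub_nonneg.2 hβsh),
                                          mul_nonneg (sub_nonneg.2 hpi.le) (sub_nonneg.2 h8),
                                          mul_nonneg (sub_nonneg.2 hpi1.le) (sub_nonneg.2 h8)])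
  · rw [hyim]
    have h7 : H.im = -(sn * sh) := by linarith only [hq]
    rw [h7]
    have h8 : 0 ≤ sh * β := by
      rw [hsh]
      rcases le_total 0 β with h | h
      · exact mul_nonneg (Real.sinh_nonneg_iff.2 (by linarith only [h])) h
      · exact mul_nonneg_of_nonpos_of_nonpos (Real.sinh_nonpos_iff.2 (by linarith only [h])) h
    have h9 : -(sn * sh) * (β / Real.pi) = -(sn * (sh * β) / Real.pi) := by ring
    rw [h9]
    have h10 : 0 ≤ sn * (sh * β) / Real.pi := by positivity
    linarith only [h10]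

/-- The variable `y` in terms of the squares of the cosines. -/
private theorem KLocC_yF {v w : ℂ} (hv : cos (Real.pi * v) ≠ 0) (hw : cos (Real.pi * w) ≠ 0)
    (hs : cos (Real.pi * v) ^ 2 + cos (Real.pi * w) ^ 2 ≠ 0) :
    yF v w = arctan ((2 / (2 * cos (Real.pi * v) ^ 2 * cos (Real.pi * w) ^ 2 /
      (cos (Real.pi * v) ^ 2 + cos (Real.pi * w) ^ 2)) - 1) ^ (1 / 2 : ℂ)) / Real.pi := by
  unfold yF
  congr 3
  field_simp
  ring

/-- The two equations with signs. -/
private theorem KLocC_core {s1 s2 : ℝ} (hs1 : s1 ^ 2 = 1) (hs2 : s2 = s1 ∨ s2 = -s1) {v w : ℂ}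
    (hv : cos (Real.pi * v) ∈ Om) (hw : cos (Real.pi * w) ∈ Om)
    (ev : (4 * cos (Real.pi * v) ^ 2 - 1) ^ 2 = 1 + 2 * s1 * I * cos (Real.pi * w))
    (ew : (4 * cos (Real.pi * w) ^ 2 - 1) ^ 2 = 1 + 2 * s2 * I * cos (Real.pi * v))
    (pv : 0 < (4 * cos (Real.pi * v) ^ 2 - 1).re) (pw : 0 < (4 * cos (Real.pi * w) ^ 2 - 1).re) :
    30 / 100 ≤ (yF v w).re ∧ (yF v w).re ≤ 34 / 100 ∧
      -(35 / 1000) ≤ s1 * (yF v w).im ∧ s1 * (yF v w).im ≤ 5 / 1000 ∧
      -(35 / 1000) ≤ s2 * (yF v w).im ∧ s2 * (yF v w).im ≤ 5 / 1000 := by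
  have hs2' : s2 ^ 2 = 1 := by
    rcases hs2 with h | h
    · rw [h]; exact hs1
    · rw [h, neg_sq]; exact hs1
  have hs1a : |s1| = 1 := by
    have : |s1| ^ 2 = 1 := by rw [sq_abs]; exact hs1
    have h0 := abs_nonneg s1
    nlinarith
  have dv : ‖cos (Real.pi * v) - 85 / 100‖ ≤ 18 / 100 := by
    have := Metric.mem_closedBall.1 hv
    rwa [dist_eq_norm] at this
  have dw : ‖cos (Real.pi * w) - 85 / 100‖ ≤ 18 / 100 := by
    have := Metric.mem_closedBall.1 hw
    rwa [dist_eq_norm] at this
  have fv := KLocC_first hs1 dv dw ev pv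
  have fw := KLocC_first hs2' dw dv ew pw
  have hne : ∀ k : ℂ, ‖k - 85 / 100‖ ≤ 18 / 100 → k ≠ 0 := by
    intro k hk h
    rw [h] at hk
    norm_num at hk
  have nv := hne _ dv
  have nw := hne _ dw
  set k1 : ℂ := cos (Real.pi * v) with hk1
  set k2 : ℂ := cos (Real.pi * w) with hk2
  rcases hs2 with h | h
  · -- equal signs
    subst h
    have gv := KLocC_same hs1 fw ev pv
    have gw := KLocC_same hs1 fv ew pw
    have hd1 : ‖2 * KLocC_pt (52725 / 100000) (17 / 100) s2 -
        KLocC_pt (52725 / 100000) (17 / 100) s2‖ ≤ 554 / 1000 := by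
      have : 2 * KLocC_pt (52725 / 100000) (17 / 100) s2 -
        KLocC_pt (52725 / 100000) (17 / 100) s2 = KLocC_pt (52725 / 100000) (17 / 100) s2 := by
        ring
      rw [this]
      exact KLocC_pt_norm_le hs1 (by norm_num) (by norm_num)
    have hd2 : 2 * KLocC_pt (52725 / 100000) (17 / 100) s2 *
        KLocC_pt (52725 / 100000) (17 / 100) s2 - KLocC_pt (52725 / 100000) (17 / 100) s2 *
        (KLocC_pt (52725 / 100000) (17 / 100) s2 + KLocC_pt (52725 / 100000) (17 / 100) s2) = 0 := by
      ring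
    have hd3 : 1107 / 1000 ≤ ‖KLocC_pt (52725 / 100000) (17 / 100) s2 +
        KLocC_pt (52725 / 100000) (17 / 100) s2‖ := by
      have : KLocC_pt (52725 / 100000) (17 / 100) s2 + KLocC_pt (52725 / 100000) (17 / 100) s2 =
          KLocC_pt (105450 / 100000) (34 / 100) s2 := by
        apply Complex.ext <;> simp [KLocC_pt] <;> ring
      rw [this]
      exact KLocC_le_pt_norm hs1 (by norm_num)
    obtain ⟨hne0, hH⟩ := KLocC_harm (c := 0) (m := 1097 / 1000) (ρ := 52 / 10000) gv gw hd1 hd1
      (by rw [hd2, norm_zero]) hd3 (by norm_num) (by norm_num) (by norm_num)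
    set H : ℂ := 2 * k1 ^ 2 * k2 ^ 2 / (k1 ^ 2 + k2 ^ 2) with hHdef
    have hre := abs_le.1 (le_trans (Complex.abs_re_le_norm _) hH)
    have him := abs_le.1 (le_trans (Complex.abs_im_le_norm _) hH)
    have hre' : (H - KLocC_pt (52725 / 100000) (17 / 100) s2).re = H.re - 52725 / 100000 := by
      simp [KLocC_pt]
    have him' : (H - KLocC_pt (52725 / 100000) (17 / 100) s2).im = H.im - 17 / 100 * s2 := by
      simp [KLocC_pt]
    rw [hre'] at hre
    rw [him'] at him
    have hsq : s2 = 1 ∨ s2 = -1 := by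
      have : (s2 - 1) * (s2 + 1) = 0 := by linear_combination hs1
      rcases mul_eq_zero.1 this with h | h
      · left; linarith only [h]
      · right; linarith only [h]
    have hab : |H.im| ≤ 1752 / 10000 := by
      rcases hsq with h | h
      · rw [h] at him
        rw [abs_le]
        constructor <;> linarith [him.1, him.2]
      · rw [h] at him
        rw [abs_le]
        constructor <;> linarith [him.1, him.2]
    obtain ⟨f1, f2, f3, f4⟩ := KLocC_fin (H := H) (by linarith only [hre.1]) (by linarith only [hre.2])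
      (by linarith only [hab]) (KLocC_yF nv nw hne0)
    have f5 : |(yF v w).im| ≤ 35 / 1000 := by linarith only [hab, f3]
    have f6 := abs_le.1 f5
    refine ⟨f1, f2, ?_, ?_, ?_, ?_⟩
    · rcases hsq with h | h <;> rw [h] <;> linarith [f6.1, f6.2]
    · rcases hsq with h | h
      · rw [h] at him ⊢
        (refine le_of_not_gt fun hng => ?_; linarith only [mul_nonneg (sub_nonneg.2 hng.le) (sub_nonneg.2 him.1),
                                              him.1, f4, hng])
      · rw [h] at him ⊢
        (refine le_of_not_gt fun hng => ?_; linarith only [mul_nonneg (sub_nonneg.2 hng.le) (sub_nonneg.2 him.2),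
                                              him.2, f4, hng])
    · rcases hsq with h | h <;> rw [h] <;> linarith [f6.1, f6.2]
    · rcases hsq with h | h
      · rw [h] at him ⊢
        (refine le_of_not_gt fun hng => ?_; linarith only [mul_nonneg (sub_nonneg.2 hng.le) (sub_nonneg.2 him.1),
                                              him.1, f4, hng])
      · rw [h] at him ⊢
        (refine le_of_not_gt fun hng => ?_; linarith only [mul_nonneg (sub_nonneg.2 hng.le) (sub_nonneg.2 him.2),
                                              him.2, f4, hng])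
  · -- opposite signs
    have hs12 : s1 = -s2 := by linarith only [h]
    have fw' : ‖k2 - KLocC_pt (7538 / 10000) (1156 / 10000) (-s1)‖ ≤ 246 / 10000 := by
      rw [← h]; exact fw
    have fv' : ‖k1 - KLocC_pt (7538 / 10000) (1156 / 10000) (-s2)‖ ≤ 246 / 10000 := by
      rw [← hs12]; exact fv
    have gv := KLocC_opp hs1 fw' ev pv
    have gw := KLocC_opp hs2' fv' ew pw
    have hd1 : ‖2 * KLocC_pt (565 / 1000) (1495 / 10000) s2 -
        KLocC_pt (6046 / 10000) 0 s1‖ ≤ 605 / 1000 := by
      have : 2 * KLocC_pt (565 / 1000) (1495 / 10000) s2 -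
        KLocC_pt (6046 / 10000) 0 s1 = KLocC_pt (5254 / 10000) (299 / 1000) s2 := by
        apply Complex.ext <;> simp [KLocC_pt] <;> ring
      rw [this]
      exact KLocC_pt_norm_le hs2' (by norm_num) (by norm_num)
    have hd1' : ‖2 * KLocC_pt (565 / 1000) (1495 / 10000) s1 -
        KLocC_pt (6046 / 10000) 0 s1‖ ≤ 605 / 1000 := by
      have : 2 * KLocC_pt (565 / 1000) (1495 / 10000) s1 -
        KLocC_pt (6046 / 10000) 0 s1 = KLocC_pt (5254 / 10000) (299 / 1000) s1 := by
        apply Complex.ext <;> simp [KLocC_pt] <;> ring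
      rw [this]
      exact KLocC_pt_norm_le hs1 (by norm_num) (by norm_num)
    have hd2 : ‖2 * KLocC_pt (565 / 1000) (1495 / 10000) s1 *
        KLocC_pt (565 / 1000) (1495 / 10000) s2 - KLocC_pt (6046 / 10000) 0 s1 *
        (KLocC_pt (565 / 1000) (1495 / 10000) s1 + KLocC_pt (565 / 1000) (1495 / 10000) s2)‖ ≤
        1 / 10000 := by
      have : 2 * KLocC_pt (565 / 1000) (1495 / 10000) s1 *
        KLocC_pt (565 / 1000) (1495 / 10000) s2 - KLocC_pt (6046 / 10000) 0 s1 *
        (KLocC_pt (565 / 1000) (1495 / 10000) s1 + KLocC_pt (565 / 1000) (1495 / 10000) s2) =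
          KLocC_pt (2 * (565 / 1000) ^ 2 + 2 * (1495 / 10000) ^ 2 - 6046 / 10000 * (1130 / 1000))
            0 s1 := by
        rw [h]
        apply Complex.ext
        · simp [KLocC_pt]
          linear_combination (2 * (1495 / 10000) ^ 2 : ℝ) * hs1
        · simp [KLocC_pt]
          ring
      rw [this]
      exact KLocC_pt_norm_le hs1 (by norm_num) (by norm_num)
    have hd3 : 113 / 100 ≤ ‖KLocC_pt (565 / 1000) (1495 / 10000) s1 +
        KLocC_pt (565 / 1000) (1495 / 10000) s2‖ := by
      have : KLocC_pt (565 / 1000) (1495 / 10000) s1 + KLocC_pt (565 / 1000) (1495 / 10000) s2 =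
          KLocC_pt (1130 / 1000) 0 s1 := by
        rw [h]
        apply Complex.ext <;> simp [KLocC_pt] <;> ring
      rw [this]
      exact KLocC_le_pt_norm hs1 (by norm_num)
    obtain ⟨hne0, hH⟩ := KLocC_harm (m := 112 / 100) (ρ := 56 / 10000) gv gw hd1 hd1'
      hd2 hd3 (by norm_num) (by norm_num) (by norm_num)
    set H : ℂ := 2 * k1 ^ 2 * k2 ^ 2 / (k1 ^ 2 + k2 ^ 2) with hHdef
    have hre := abs_le.1 (le_trans (Complex.abs_re_le_norm _) hH)
    have him := abs_le.1 (le_trans (Complex.abs_im_le_norm _) hH)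
    have hre' : (H - KLocC_pt (6046 / 10000) 0 s1).re = H.re - 6046 / 10000 := by
      simp [KLocC_pt]
    have him' : (H - KLocC_pt (6046 / 10000) 0 s1).im = H.im := by
      simp [KLocC_pt]
    rw [hre'] at hre
    rw [him'] at him
    have hab : |H.im| ≤ 56 / 10000 := abs_le.2 him
    obtain ⟨f1, f2, f3, f4⟩ := KLocC_fin (H := H) (by linarith only [hre.1]) (by linarith only [hre.2])
      (by linarith only [hab]) (KLocC_yF nv nw hne0)
    have f5 : |(yF v w).im| ≤ 5 / 1000 := by linarith only [hab, f3]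
    have f7 : |s1 * (yF v w).im| ≤ 5 / 1000 := by
      rw [abs_mul, hs1a, one_mul]; exact f5
    have f6 := abs_le.1 f7
    refine ⟨f1, f2, by linarith only [f6.1], f6.2, ?_, ?_⟩
    · rw [h]; linarith only [f6.2]
    · rw [h]; linarith only [f6.1]

/-- Both blocks with `|r| = 2`. -/
theorem locC (r1 r2 : ℤ) (h1 : |r1| = 2) (h2 : |r2| = 2) (v w : ℂ)
    (hv : Blk r1 v (cos (Real.pi * w))) (hw : Blk r2 w (cos (Real.pi * v))) :
    30 / 100 ≤ (yF v w).re ∧ (yF v w).re ≤ 34 / 100 ∧
      -(35 / 1000) ≤ (r1 / 2 : ℝ) * (yF v w).im ∧ (r1 / 2 : ℝ) * (yF v w).im ≤ 5 / 1000 ∧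
      -(35 / 1000) ≤ (r2 / 2 : ℝ) * (yF v w).im ∧ (r2 / 2 : ℝ) * (yF v w).im ≤ 5 / 1000 := by
  have hr1 : r1 = 2 ∨ r1 = -2 := abs_eq (by norm_num) |>.1 h1
  have hr2 : r2 = 2 ∨ r2 = -2 := abs_eq (by norm_num) |>.1 h2
  have e1 : ((r1 : ℝ) / 2) ^ 2 = 1 := by
    rcases hr1 with h | h <;> rw [h] <;> norm_num
  have e2 : (r2 / 2 : ℝ) = (r1 / 2 : ℝ) ∨ (r2 / 2 : ℝ) = -(r1 / 2 : ℝ) := by
    rcases hr1 with h | h <;> rcases hr2 with h' | h' <;> rw [h, h'] <;> norm_num
  refine KLocC_core e1 e2 hv.dom hw.dom ?_ ?_ hv.pos hw.pos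
  · rw [hv.sq h1]
    push_cast
    ring
  · rw [hw.sq h2]
    push_cast
    ring

end Pool.Agent.H63.GO
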