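import Pool.Agent.H63.GO.KDefs
import Pool.Agent.H63.GO.PDefs

/-! # Location of the block coordinate -/

namespace Pool.Agent.H63.GO

open Complex Filter Topology Pool.Agent.H63.VC Pool.Agent.H63.VC3

private theorem KLocL_angle {α X Y N : ℝ} (hN : 0 < N) (h1 : -Real.pi < α) (h2 : α < Real.pi) (hc : Real.cos α = X / N)
    (hs : Real.sin α = Y / N) (hX : 0 < X) (hXY : X ≤ Y) (hYX : Y ≤ 29 / 10 * X) : Real.pi / 5 ≤ α ∧ α ≤ 2 * Real.pi / 5 := by
  have hpi := Real.pi_pos
  have hpi3 := Real.pi_gt_three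
  have hpi4 := Real.pi_lt_d4
  have hsp : 0 < Real.sin α := by
    rw [hs]
    exact div_pos (hX.trans_le hXY) hN
  have hα : 0 < α := by
    by_contra hle
    have := Real.sin_nonpos_of_nonpos_of_neg_pi_le (not_lt.mp hle) h1.le
    linarith
  constructor
  · by_contra hlt
    have hlt' : α < Real.pi / 5 := not_le.mp hlt
    have h3 : 0 < Real.sin (Real.pi / 4 - α) := Real.sin_pos_of_pos_of_lt_pi (by linarith) (by linarith)
    rw [Real.sin_sub, Real.sin_pi_div_four, Real.cos_pi_div_four, hc, hs] at h3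
    have h4 : 0 < Real.sqrt 2 / 2 * ((X - Y) / N) := by
      have : Real.sqrt 2 / 2 * ((X - Y) / N) = Real.sqrt 2 / 2 * (X / N) - Real.sqrt 2 / 2 * (Y / N) := by ring
      rw [this]; exact h3
    have h5 : (X - Y) / N ≤ 0 := div_nonpos_of_nonpos_of_nonneg (by linarith) hN.le
    have h6 : 0 ≤ Real.sqrt 2 / 2 := by positivity
    have := mul_nonpos_of_nonneg_of_nonpos h6 h5
    linarith
  · by_contra hlt
    have hlt' : 2 * Real.pi / 5 < α := not_le.mp hlt
    have h3 : 0 < Real.sin (α - 2 * Real.pi / 5) := Real.sin_pos_of_pos_of_lt_pi (by linarith) (by linarith)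
    have e1 : Real.sin (2 * Real.pi / 5) = Real.cos (Real.pi / 10) := by
      rw [← Real.cos_pi_div_two_sub]; congr 1; ring
    have e2 : Real.cos (2 * Real.pi / 5) = Real.sin (Real.pi / 10) := by
      rw [← Real.sin_pi_div_two_sub]; congr 1; ring
    rw [Real.sin_sub, e1, e2, hc, hs] at h3
    have h4 : Real.sin (Real.pi / 10) ≤ 3142 / 10000 := (Real.sin_le (by positivity)).trans (by linarith)
    have h5 : 95 / 100 ≤ Real.cos (Real.pi / 10) := by
      have := Real.one_sub_sq_div_two_le_cos (x := Real.pi / 10)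
      nlinarith
    have h6 : 0 < Y / N * Real.sin (Real.pi / 10) - X / N * Real.cos (Real.pi / 10) := h3
    have h7 : Y / N ≤ 29 / 10 * (X / N) := by
      rw [mul_div_assoc']
      exact div_le_div_of_nonneg_right hYX hN.le
    have h8 : 0 < X / N := div_pos hX hN
    have h9 : 0 < Real.sin (Real.pi / 10) := Real.sin_pos_of_pos_of_lt_pi (by positivity) (by linarith)
    nlinarith

private theorem KLocL_main (r : ℤ) (hr : |r| = 2) (v k : ℂ) (hk : k ∈ Om) (hv : Blk r v k) :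
    ∃ σ α L : ℝ, σ ^ 2 + (k.re - 85 / 100) ^ 2 ≤ (18 / 100) ^ 2 ∧ (zB r v).re = 1 / 2 + α / (4 * Real.pi) ∧
      (r / 2 : ℝ) * (zB r v).im = -(L / (8 * Real.pi)) ∧ L = Real.log ((1 - 2 * σ) ^ 2 + (2 * k.re) ^ 2) ∧
      Real.pi / 5 ≤ α ∧ α ≤ 2 * Real.pi / 5 := by
  have hpi := Real.pi_pos
  have hr3 : ¬ 3 ≤ |r| := by omega
  have hr2 : (r : ℝ) ^ 2 = 4 := by
    have h1 : ((|r| : ℤ) : ℝ) = 2 := by exact_mod_cast hr
    rw [← sq_abs, ← Int.cast_abs, h1]; norm_num
  set g : ℂ := 4 * cos (Real.pi * v) ^ 2 - 1 with hg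
  have hzB : zB r v = 1 / 2 + r / 2 * log g / (2 * Real.pi * I) := by
    rw [zB, if_neg hr3, hg]
    congr 4
    rw [show (2 * Real.pi * v : ℂ) = 2 * (Real.pi * v) by ring, Complex.cos_two_mul]
    ring
  have hsq : g ^ 2 = 1 + r * I * k := hv.sq hr
  have hpos : 0 < g.re := hv.pos
  have hg0 : g ≠ 0 := by
    intro h
    rw [h] at hpos
    simp at hpos
  have hn : 0 < ‖g‖ := norm_pos_iff.mpr hg0
  -- real and imaginary parts of `g ^ 2`
  have hre : g.re ^ 2 - g.im ^ 2 = 1 - r * k.im := by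
    have := congrArg Complex.re hsq
    simp [pow_two] at this
    linarith
  have him : 2 * (g.re * g.im) = r * k.re := by
    have := congrArg Complex.im hsq
    simp [pow_two] at this
    linarith
  have hnn : ‖g‖ ^ 2 = g.re ^ 2 + g.im ^ 2 := by
    rw [Complex.sq_norm, Complex.normSq_apply]; ring
  set σ : ℝ := (r : ℝ) / 2 * k.im with hσ
  have hkk : σ ^ 2 + (k.re - 85 / 100) ^ 2 ≤ (18 / 100) ^ 2 := by
    have h1 : ‖k - (85 / 100 : ℂ)‖ ≤ 18 / 100 := by
      have := hk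
      rw [Om, Metric.mem_closedBall, dist_eq_norm] at this
      simpa using this
    have h2 : ‖k - (85 / 100 : ℂ)‖ ^ 2 ≤ (18 / 100) ^ 2 := pow_le_pow_left₀ (norm_nonneg _) h1 2
    rw [Complex.sq_norm, Complex.normSq_apply] at h2
    have h3 : (k - (85 / 100 : ℂ)).re = k.re - 85 / 100 := by
      rw [Complex.sub_re]; norm_num
    have h4 : (k - (85 / 100 : ℂ)).im = k.im := by
      rw [Complex.sub_im]; norm_num
    rw [h3, h4] at h2
    rw [hσ, mul_pow, div_pow, hr2]
    nlinarith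
  set α : ℝ := (r : ℝ) * arg g with hα
  have harg : |arg g| < Real.pi / 2 := Complex.abs_arg_lt_pi_div_two_iff.mpr (Or.inl hpos)
  have hcos : Real.cos α = (1 - 2 * σ) / ‖g‖ ^ 2 := by
    have h1 : Real.cos α = Real.cos (2 * arg g) := by
      rcases (abs_eq (by norm_num : (0 : ℤ) ≤ 2)).mp hr with h | h
      · rw [hα, h]; norm_num
      · rw [hα, h, ← Real.cos_neg]; congr 1; push_cast; ring
    rw [h1, Real.cos_two_mul, Complex.cos_arg hg0]
    have h2 : 1 - 2 * σ = g.re ^ 2 - g.im ^ 2 := by rw [hre, hσ]; ring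
    rw [h2, div_pow, eq_div_iff (by positivity)]
    have h3 : g.im ^ 2 = ‖g‖ ^ 2 - g.re ^ 2 := by rw [hnn]; ring
    rw [h3]
    field_simp
    ring
  have hsin : Real.sin α = (2 * k.re) / ‖g‖ ^ 2 := by
    have h1 : Real.sin α = r / 2 * Real.sin (2 * arg g) := by
      rcases (abs_eq (by norm_num : (0 : ℤ) ≤ 2)).mp hr with h | h
      · rw [hα, h]; norm_num
      · rw [hα, h]; push_cast
        rw [show (-2 : ℝ) * arg g = -(2 * arg g) by ring, Real.sin_neg]; ring
    rw [h1, Real.sin_two_mul, Complex.cos_arg hg0, Complex.sin_arg]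
    have h2 : 2 * k.re = r / 2 * (2 * (g.re * g.im)) := by
      rw [him]
      linear_combination (-(k.re) / 2) * hr2
    rw [h2]
    field_simp
  have hX : 0 < 1 - 2 * σ := by nlinarith
  have hα1 : -Real.pi < α ∧ α < Real.pi := by
    rw [abs_lt] at harg
    rcases (abs_eq (by norm_num : (0 : ℤ) ≤ 2)).mp hr with h | h
    · rw [hα, h]; push_cast; constructor <;> linarith
    · rw [hα, h]; push_cast; constructor <;> linarith
  have hXY : 1 - 2 * σ ≤ 2 * k.re := by nlinarith [sq_nonneg (σ - (k.re - 85 / 100))]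
  have hYX : 2 * k.re ≤ 29 / 10 * (1 - 2 * σ) := by nlinarith [sq_nonneg (58 / 10 * (k.re - 85 / 100) - 2 * σ), sq_nonneg (58 / 10 * σ + 2 * (k.re - 85 / 100))]
  obtain ⟨hang1, hang2⟩ := KLocL_angle (by positivity) hα1.1 hα1.2 hcos hsin hX hXY hYX
  have hz : zB r v = ((1 / 2 + α / (4 * Real.pi) : ℝ) : ℂ) - ((r / 2 * (Real.log ‖g‖ / (2 * Real.pi)) : ℝ) : ℂ) * I := by
    rw [hzB, Complex.log, hα]
    have hpi0 : (Real.pi : ℂ) ≠ 0 := by exact_mod_cast hpi.ne'
    push_cast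
    field_simp
    ring_nf
    rw [I_sq]
    ring
  refine ⟨σ, α, 4 * Real.log ‖g‖, hkk, ?_, ?_, ?_, hang1, hang2⟩
  · rw [hz]
    simp only [Complex.sub_re, Complex.ofReal_re, Complex.mul_re, Complex.I_re, Complex.I_im, Complex.ofReal_im]
    ring
  · rw [hz]
    have : (((1 / 2 + α / (4 * Real.pi) : ℝ) : ℂ) - ((r / 2 * (Real.log ‖g‖ / (2 * Real.pi)) : ℝ) : ℂ) * I).im =
        -(r / 2 * (Real.log ‖g‖ / (2 * Real.pi))) := by
      simp only [Complex.sub_im, Complex.ofReal_im, Complex.mul_im, Complex.ofReal_re, Complex.I_im, Complex.I_re]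
      ring
    rw [this]
    linear_combination (-(Real.log ‖g‖ / (8 * Real.pi))) * hr2
  · have h1 : (1 - 2 * σ) ^ 2 + (2 * k.re) ^ 2 = ‖g‖ ^ 4 := by
      have h2 : 1 - 2 * σ = g.re ^ 2 - g.im ^ 2 := by rw [hre, hσ]; ring
      have h3 : (2 * k.re) ^ 2 = (2 * (g.re * g.im)) ^ 2 := by
        rw [him, mul_pow, mul_pow, hr2]; norm_num
      rw [h2, h3, show ‖g‖ ^ 4 = (‖g‖ ^ 2) ^ 2 by ring, hnn]
      ring
    rw [h1, Real.log_pow]
    norm_num

/-- The coordinate of a block with `|r| = 2`. -/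
theorem loc_l (r : ℤ) (hr : |r| = 2) (v k : ℂ) (hk : k ∈ Om) (hk' : k.re ≤ 1001 / 1000)
    (hv : Blk r v k) :
    55 / 100 ≤ (zB r v).re ∧ (zB r v).re ≤ 60 / 100 ∧
      -(69 / 1000) ≤ (r / 2 : ℝ) * (zB r v).im ∧ (r / 2 : ℝ) * (zB r v).im ≤ -(35 / 1000) := by
  obtain ⟨σ, α, L, h1, h2, h3, hL, h4, h5⟩ := KLocL_main r hr v k hk hv
  have hpi := Real.pi_pos
  have hpiu := Real.pi_lt_d4
  have hpil := Real.pi_gt_d4
  have hl2 := Real.log_two_lt_d9
  have hl2' := Real.log_two_gt_d9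
  set W := (1 - 2 * σ) ^ 2 + (2 * k.re) ^ 2 with hW
  have hWu : W ≤ 5441 / 1000 := by nlinarith [sq_nonneg (68 / 10 * σ + 4 * (k.re - 85 / 100)), sq_nonneg (34 / 10 * (k.re - 85 / 100) - 2 * σ - 142 / 100)]
  have hWl : 259 / 100 ≤ W := by nlinarith [sq_nonneg (68 / 10 * σ + 4 * (k.re - 85 / 100)), sq_nonneg (34 / 10 * (k.re - 85 / 100) - 2 * σ + 142 / 100)]
  have hW0 : 0 < W := by linarith
  refine ⟨?_, ?_, ?_, ?_⟩
  · rw [h2]
    have : 1 / 20 ≤ α / (4 * Real.pi) := by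
      rw [le_div_iff₀ (by positivity)]; linarith
    linarith
  · rw [h2]
    have : α / (4 * Real.pi) ≤ 1 / 10 := by
      rw [div_le_iff₀ (by positivity)]; linarith
    linarith
  · rw [h3]
    have h6 : L ≤ 5 / 2 * Real.log 2 := by
      have : 2 * L ≤ 5 * Real.log 2 := by
        have e1 : 2 * L = Real.log (W ^ 2) := by rw [Real.log_pow, hL]; norm_num
        have e2 : 5 * Real.log 2 = Real.log (2 ^ 5) := by rw [Real.log_pow]; norm_num
        rw [e1, e2]
        apply Real.log_le_log (by positivity)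
        nlinarith
      linarith
    have : L / (8 * Real.pi) ≤ 69 / 1000 := by
      rw [div_le_iff₀ (by positivity)]; nlinarith
    linarith
  · rw [h3]
    have h6 : 4 / 3 * Real.log 2 ≤ L := by
      have : 4 * Real.log 2 ≤ 3 * L := by
        have e1 : 3 * L = Real.log (W ^ 3) := by rw [Real.log_pow, hL]; norm_num
        have e2 : 4 * Real.log 2 = Real.log (2 ^ 4) := by rw [Real.log_pow]; norm_num
        rw [e1, e2]
        apply Real.log_le_log (by positivity)
        have : (259 / 100 : ℝ) ^ 3 ≤ W ^ 3 := pow_le_pow_left₀ (by norm_num) hWl 3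
        refine le_trans ?_ this
        norm_num
      linarith
    have : 35 / 1000 ≤ L / (8 * Real.pi) := by
      rw [le_div_iff₀ (by positivity)]; nlinarith
    linarith

/-- The coordinate of a block with `|r| = 2`, small `k`. -/
theorem loc_l2 (r : ℤ) (hr : |r| = 2) (v k : ℂ) (hk : k ∈ Om) (hk' : k.re ≤ 80 / 100)
    (hv : Blk r v k) : -(60 / 1000) ≤ (r / 2 : ℝ) * (zB r v).im := by
  obtain ⟨σ, α, L, h1, h2, h3, hL, h4, h5⟩ := KLocL_main r hr v k hk hv
  have hpi := Real.pi_pos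
  have hpil := Real.pi_gt_d4
  have hl2 := Real.log_two_lt_d9
  set W := (1 - 2 * σ) ^ 2 + (2 * k.re) ^ 2 with hW
  have hσ : |σ| ≤ 18 / 100 := abs_le_of_sq_le_sq (by nlinarith) (by norm_num)
  have hkr : |k.re - 85 / 100| ≤ 18 / 100 := abs_le_of_sq_le_sq (by nlinarith) (by norm_num)
  rw [abs_le] at hσ hkr
  have hWu : W ≤ 441 / 100 := by nlinarith
  have hW0 : 0 < W := by nlinarith
  rw [h3]
  have h6 : L ≤ 13 / 6 * Real.log 2 := by
    have : 6 * L ≤ 13 * Real.log 2 := by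
      have e1 : 6 * L = Real.log (W ^ 6) := by rw [Real.log_pow, hL]; norm_num
      have e2 : 13 * Real.log 2 = Real.log (2 ^ 13) := by rw [Real.log_pow]; norm_num
      rw [e1, e2]
      apply Real.log_le_log (by positivity)
      have : W ^ 6 ≤ (441 / 100 : ℝ) ^ 6 := pow_le_pow_left₀ hW0.le hWu 6
      refine this.trans ?_
      norm_num
    linarith
  have : L / (8 * Real.pi) ≤ 60 / 1000 := by
    rw [div_le_iff₀ (by positivity)]; nlinarith
  linarith

end Pool.Agent.H63.GO
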