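import Pool.Agent.H63.GO.KDefs
import Pool.Agent.H63.GO.PDefs
import Pool.Agent.H63.VC3.Clausen

/-! # From the pair to the logarithmic equations -/

namespace Pool.Agent.H63.GO

open Complex Filter Topology Pool.Agent.H63.VC Pool.Agent.H63.VC3

/-- The cosines in `Om`. -/
private theorem KLog_Om {k : ℂ} (h : k ∈ Om) : 67 / 100 ≤ k.re ∧ k.re ≤ 103 / 100 ∧
    (k.re - 85 / 100) ^ 2 + k.im ^ 2 ≤ (18 / 100) ^ 2 := by
  rw [Om, Metric.mem_closedBall, Complex.dist_eq] at h
  have h2 : (k.re - 85 / 100) ^ 2 + k.im ^ 2 ≤ (18 / 100) ^ 2 := by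
    have h3 : ‖k - 85 / 100‖ ^ 2 ≤ (18 / 100) ^ 2 := by gcongr
    rw [← Complex.normSq_eq_norm_sq, Complex.normSq_apply] at h3
    have h4 : (k - 85 / 100).re = k.re - 85 / 100 := by
      simp
    have h5 : (k - 85 / 100).im = k.im := by
      simp
    rw [h4, h5] at h3
    nlinarith only [h3]
  refine ⟨?_, ?_, h2⟩
  · by_contra hcon
    push Not at hcon
    nlinarith only [hcon, h2, sq_nonneg k.im]
  · by_contra hcon
    push Not at hcon
    nlinarith only [hcon, h2, sq_nonneg k.im]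

private theorem KLog_inv {k : ℂ} (h : k ∈ Om) : 1 / 2 < (1 / k ^ 2).re := by
  obtain ⟨h1, h2, h3⟩ := KLog_Om h
  set a := k.re with ha
  set b := k.im with hb
  have hn : 0 < a ^ 2 + b ^ 2 := by nlinarith only [h1, sq_nonneg b]
  have hk : (1 / k ^ 2).re = (a ^ 2 - b ^ 2) / (a ^ 2 + b ^ 2) ^ 2 := by
    rw [one_div, Complex.inv_re, map_pow, Complex.normSq_apply, pow_two k, Complex.mul_re, ← ha, ← hb]
    congr 1 <;> ring
  rw [hk, lt_div_iff₀ (by positivity)]
  nlinarith only [h1, h2, h3, sq_nonneg b, hn]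

/-- The tangent of `yF`. -/
private theorem KLog_tan {v w : ℂ} (hv : cos (Real.pi * v) ∈ Om) (hw : cos (Real.pi * w) ∈ Om) :
    ∃ T : ℂ, |T.im| < T.re ∧ T ^ 2 = 1 / cos (Real.pi * v) ^ 2 + 1 / cos (Real.pi * w) ^ 2 - 1 ∧
      sin (Real.pi * yF v w) = T * cos (Real.pi * yF v w) ∧
      cos (Real.pi * yF v w) ^ 2 * (1 + T ^ 2) = 1 := by
  set S : ℂ := 1 / cos (Real.pi * v) ^ 2 + 1 / cos (Real.pi * w) ^ 2 - 1 with hS
  set T : ℂ := S ^ (1 / 2 : ℂ) with hT
  have hSre : 0 < S.re := by
    have h1 := KLog_inv hv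
    have h2 := KLog_inv hw
    rw [hS, Complex.sub_re, Complex.add_re, Complex.one_re]
    linarith
  have hS0 : S ≠ 0 := by
    intro h
    rw [h] at hSre
    simp at hSre
  have hsq : T ^ 2 = S := by
    have := Complex.cpow_nat_inv_pow S (n := 2) (by norm_num)
    rw [hT]
    convert this using 3
    norm_num
  have hpos : 0 < T.re := by
    rw [hT, Complex.cpow_def_of_ne_zero hS0, Complex.exp_re]
    apply mul_pos (Real.exp_pos _)
    have him : (log S * (1 / 2 : ℂ)).im = arg S / 2 := by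
      rw [show (1 / 2 : ℂ) = ((1 / 2 : ℝ) : ℂ) by norm_num, Complex.im_mul_ofReal, Complex.log_im]
      ring
    rw [him]
    have harg : |arg S| < Real.pi / 2 := by
      rw [Complex.abs_arg_lt_pi_div_two_iff]
      left
      exact hSre
    obtain ⟨ha, hb⟩ := abs_lt.1 harg
    apply Real.cos_pos_of_mem_Ioo
    constructor <;> linarith [Real.pi_pos]
  have hy : (Real.pi : ℂ) * yF v w = arctan T := by
    have hpi : (Real.pi : ℂ) ≠ 0 := by exact_mod_cast Real.pi_ne_zero
    rw [yF, ← hS, ← hT]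
    field_simp
  have hTI : T ≠ I := by
    intro h
    rw [h] at hpos
    simp at hpos
  have hTI' : T ≠ -I := by
    intro h
    rw [h] at hpos
    simp at hpos
  have htan := Complex.tan_arctan hTI hTI'
  have hc0 : cos (arctan T) ≠ 0 := by
    intro h
    rw [Complex.tan, h, div_zero] at htan
    rw [← htan] at hpos
    simp at hpos
  refine ⟨T, ?_, hsq, ?_, ?_⟩
  · apply abs_lt_of_sq_lt_sq _ hpos.le
    have : (T ^ 2).re = T.re ^ 2 - T.im ^ 2 := by
      rw [pow_two T, Complex.mul_re]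
      ring
    rw [hsq] at this
    linarith
  · rw [hy]
    rw [Complex.tan, div_eq_iff hc0] at htan
    exact htan
  · rw [hy]
    rw [Complex.tan, div_eq_iff hc0] at htan
    have h := Complex.sin_sq_add_cos_sq (arctan T)
    rw [htan] at h
    linear_combination h

/-- The first relation. -/
private theorem KLog_rel {r : ℤ} {v k T y : ℂ} (hb : Blk r v k) (hk : k ∈ Om) (hT : |T.im| < T.re)
    (h1 : T ^ 2 = 1 / cos (Real.pi * v) ^ 2 + 1 / k ^ 2 - 1)
    (h2 : sin (Real.pi * y) = T * cos (Real.pi * y)) :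
    exp (4 * Real.pi * I * r * v) * sin (Real.pi * (y - v)) = sin (Real.pi * (y + v)) := by
  have hv0 : cos (Real.pi * v) ≠ 0 := by
    intro h
    have := hb.pos
    rw [h] at this
    norm_num at this
  obtain ⟨k1, k2, k3⟩ := KLog_Om hk
  have hk0 : k ≠ 0 := by
    intro h
    rw [h] at k1
    norm_num at k1
  set c := cos (2 * Real.pi * r * v) with hc
  set s := sin (2 * Real.pi * r * v) with hs
  have e1 := hb.eq
  have e2 := hb.re
  rw [← hs] at e1
  rw [← hc] at e2
  have e3 := Complex.sin_sq_add_cos_sq (2 * Real.pi * r * v)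
  rw [← hc, ← hs] at e3
  have e4 := Complex.sin_sq_add_cos_sq (Real.pi * v)
  set S := sin (Real.pi * v) with hS
  set C := cos (Real.pi * v) with hC
  -- `c = - k T`
  have hcT : c = -(k * T) := by
    have h3 : (c - k * T) * (c + k * T) = 0 := by
      have h4 : c ^ 2 * C ^ 2 = (k * T) ^ 2 * C ^ 2 := by
        have h5 : s ^ 2 * C ^ 2 = -(S ^ 2 * k ^ 2) := by
          have h6 : (s * C) ^ 2 = (I * S * k) ^ 2 := by rw [e1]
          rw [mul_pow, mul_pow, mul_pow, I_sq] at h6
          linear_combination h6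
        have h7 : (k * T) ^ 2 * C ^ 2 = k ^ 2 + C ^ 2 - k ^ 2 * C ^ 2 := by
          rw [mul_pow, h1]
          field_simp
        rw [h7]
        linear_combination C ^ 2 * e3 - h5 + k ^ 2 * e4
      have h8 : C ^ 2 ≠ 0 := pow_ne_zero 2 hv0
      have h9 : c ^ 2 = (k * T) ^ 2 := mul_right_cancel₀ h8 h4
      linear_combination h9
    rcases mul_eq_zero.1 h3 with h | h
    · exfalso
      have h4 : c = k * T := by linear_combination h
      have h5 : 0 < (k * T).re := by
        rw [Complex.mul_re]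
        have h6 : |k.im| < k.re := by
          apply abs_lt_of_sq_lt_sq _ (by linarith)
          nlinarith only [k1, k3]
        have h7 : |k.im * T.im| < k.re * T.re := by
          rw [abs_mul]
          exact mul_lt_mul'' h6 hT (abs_nonneg _) (abs_nonneg _)
        have := (abs_lt.1 h7).2
        linarith
      rw [h4] at e2
      linarith
    · linear_combination h
  have hexp : exp (4 * Real.pi * I * r * v) = (c + s * I) ^ 2 := by
    rw [hc, hs, ← Complex.exp_mul_I, ← Complex.exp_nat_mul]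
    congr 1
    push_cast
    ring
  have hsin1 : sin (Real.pi * (y - v)) = cos (Real.pi * y) * (T * C - S) := by
    rw [mul_sub, Complex.sin_sub, h2]
    ring
  have hsin2 : sin (Real.pi * (y + v)) = cos (Real.pi * y) * (T * C + S) := by
    rw [mul_add, Complex.sin_add, h2]
    ring
  rw [hexp, hsin1, hsin2]
  have h10 : (c + s * I) ^ 2 * (T * C - S) = T * C + S := by
    have h11 : k * (T * C + S) = -((c + s * I) * C) := by
      rw [hcT]
      linear_combination I * e1 + S * k * I_sq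
    have h12 : k * (T * C - S) = -((c - s * I) * C) := by
      rw [hcT]
      linear_combination -I * e1 - S * k * I_sq
    have h13 : (c + s * I) * (c - s * I) = 1 := by
      linear_combination e3 - s ^ 2 * I_sq
    apply mul_left_cancel₀ hk0
    calc k * ((c + s * I) ^ 2 * (T * C - S)) = (c + s * I) ^ 2 * (k * (T * C - S)) := by ring
      _ = -((c + s * I) * C) * ((c + s * I) * (c - s * I)) := by rw [h12]; ring
      _ = k * (T * C + S) := by rw [h13, h11, mul_one]
  rw [show (c + s * I) ^ 2 * (cos (Real.pi * y) * (T * C - S)) =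
    cos (Real.pi * y) * ((c + s * I) ^ 2 * (T * C - S)) by ring, h10]

/-- The algebraic relations of `yF`. -/
theorem yF_alg (r1 r2 : ℤ) (v w : ℂ) (hv : Blk r1 v (cos (Real.pi * w)))
    (hw : Blk r2 w (cos (Real.pi * v))) (h1 : 0 < (yF v w).re) (h2 : (yF v w).re < 1 / 2) :
    exp (4 * Real.pi * I * r1 * v) * sin (Real.pi * (yF v w - v)) = sin (Real.pi * (yF v w + v)) ∧
    exp (4 * Real.pi * I * r2 * w) * sin (Real.pi * (yF v w - w)) = sin (Real.pi * (yF v w + w)) ∧
    cos (Real.pi * yF v w) ^ 4 = sin (Real.pi * (yF v w - v)) * sin (Real.pi * (yF v w + v)) *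
      (sin (Real.pi * (yF v w - w)) * sin (Real.pi * (yF v w + w))) := by
  obtain ⟨T, t1, t2, t3, t4⟩ := KLog_tan hv.dom hw.dom
  refine ⟨KLog_rel hv hw.dom t1 t2 t3, KLog_rel hw hv.dom t1 (by rw [t2]; ring) t3, ?_⟩
  have hv0 : cos (Real.pi * v) ≠ 0 := by
    intro h
    have := hv.pos
    rw [h] at this
    norm_num at this
  have hw0 : cos (Real.pi * w) ≠ 0 := by
    intro h
    have := hw.pos
    rw [h] at this
    norm_num at this
  have key : ∀ z : ℂ, sin (Real.pi * (yF v w - z)) * sin (Real.pi * (yF v w + z)) =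
      cos (Real.pi * z) ^ 2 - cos (Real.pi * yF v w) ^ 2 := by
    intro z
    rw [mul_sub, mul_add, Complex.sin_sub, Complex.sin_add]
    linear_combination cos (Real.pi * z) ^ 2 * Complex.sin_sq_add_cos_sq (Real.pi * yF v w) -
      cos (Real.pi * yF v w) ^ 2 * Complex.sin_sq_add_cos_sq (Real.pi * z)
  rw [key v, key w]
  have h5 : cos (Real.pi * yF v w) ^ 2 * (cos (Real.pi * v) ^ 2 + cos (Real.pi * w) ^ 2) =
      cos (Real.pi * v) ^ 2 * cos (Real.pi * w) ^ 2 := by
    rw [t2] at t4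
    have h6 : cos (Real.pi * yF v w) ^ 2 * (1 / cos (Real.pi * v) ^ 2 + 1 / cos (Real.pi * w) ^ 2) = 1 := by
      linear_combination t4
    field_simp at h6
    linear_combination h6
  linear_combination h5

/-! ### Location -/

private theorem KLog_loc {r : ℤ} (hr : 2 ≤ |r|) {v k : ℂ} (hb : Blk r v k) :
    (r : ℝ) * v.re < 0 ∧ |v.re| < 2 / (4 * |(r : ℝ)| - 1) ∧ 0 < v.im ∧ v.im ≤ 7 / 100 ∧
      |2 * (r : ℝ) * v.re + 1| ≤ 13 / 100 := by
  rcases eq_or_lt_of_le hr with h | h
  · have h2 := hb.loc2 h.symm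
    have h3 : r = 2 ∨ r = -2 := (abs_eq (by norm_num : (0 : ℤ) ≤ 2)).1 h.symm
    have hre := (Complex.abs_re_le_norm _).trans h2
    have him := (Complex.abs_im_le_norm _).trans h2
    rcases h3 with h3 | h3
    · subst h3
      have e1 : (v + ((2 : ℤ) / 2 : ℂ) * (2335 / 10000) - 547 / 10000 * I).re = v.re + 2335 / 10000 := by
        norm_num [Complex.add_re, Complex.mul_re]
      have e2 : (v + ((2 : ℤ) / 2 : ℂ) * (2335 / 10000) - 547 / 10000 * I).im = v.im - 547 / 10000 := by
        norm_num [Complex.add_im, Complex.mul_im]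
      rw [e1, abs_le] at hre
      rw [e2, abs_le] at him
      have h5 : |v.re| ≤ 2485 / 10000 := by
        rw [abs_le]
        constructor <;> linarith
      norm_num [abs_le]
      refine ⟨by linarith, by linarith, by linarith, by linarith, by linarith, by linarith⟩
    · subst h3
      have e1 : (v + ((-2 : ℤ) / 2 : ℂ) * (2335 / 10000) - 547 / 10000 * I).re = v.re - 2335 / 10000 := by
        norm_num [Complex.add_re, Complex.mul_re]
        ring
      have e2 : (v + ((-2 : ℤ) / 2 : ℂ) * (2335 / 10000) - 547 / 10000 * I).im = v.im - 547 / 10000 := by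
        norm_num [Complex.add_im, Complex.mul_im]
      rw [e1, abs_le] at hre
      rw [e2, abs_le] at him
      have h5 : |v.re| ≤ 2485 / 10000 := by
        rw [abs_le]
        constructor <;> linarith
      norm_num [abs_le]
      refine ⟨by linarith, by linarith, by linarith, by linarith, by linarith, by linarith⟩
  · have hr3 : 3 ≤ |r| := by omega
    have loc := hb.loc3 hr3
    have hR : (3 : ℝ) ≤ |(r : ℝ)| := by
      have : ((3 : ℤ) : ℝ) ≤ ((|r| : ℤ) : ℝ) := by exact_mod_cast hr3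
      rw [Int.cast_abs] at this
      exact_mod_cast this
    have hr0 : (r : ℝ) ≠ 0 := by
      intro h
      rw [h] at hR
      norm_num at hR
    set R : ℝ := |(r : ℝ)| with hRd
    have hR0 : 0 < R := by linarith
    have hRR : (r : ℝ) ^ 2 = R ^ 2 := by rw [hRd, sq_abs]
    have hs : (r.sign : ℝ) * (r : ℝ) = R := by
      rw [hRd, ← Int.cast_mul, Int.sign_mul_self_eq_abs, Int.cast_abs]
    set x : ℝ := 1 / (r : ℝ) ^ 2 with hxd
    set A : ℝ := 1 / (2 * (r : ℝ)) - (r.sign : ℝ) * (25 / 1000) * x with hA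
    have he : v + 1 / (2 * r) - ((r.sign : ℂ) * (25 / 1000) + 21 / 100 * I) / r ^ 2 =
        v + (A : ℂ) - ((21 / 100 * x : ℝ) : ℂ) * I := by
      have hr0' : (r : ℂ) ≠ 0 := by exact_mod_cast hr0
      rw [hA, hxd]
      push_cast
      field_simp
      ring
    rw [he, show 75 / 1000 / (r : ℝ) ^ 2 = 75 / 1000 * x by rw [hxd]; ring] at loc
    have hvr : |v.re + A| ≤ 75 / 1000 * x := by
      have := (Complex.abs_re_le_norm _).trans loc
      simpa using this
    have hvi : |v.im - 21 / 100 * x| ≤ 75 / 1000 * x := by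
      have := (Complex.abs_im_le_norm _).trans loc
      simpa using this
    have hx0 : 0 < x := by positivity
    have hx1 : x ≤ 1 / 9 := by
      rw [hxd, hRR]
      apply one_div_le_one_div_of_le (by norm_num)
      nlinarith only [hR]
    have hz : R * x = 1 / R := by
      rw [hxd, hRR]
      field_simp
    have hz1 : 1 / R ≤ 1 / 3 := one_div_le_one_div_of_le (by norm_num) hR
    have hz0 : 0 < 1 / R := by positivity
    have hrA : (r : ℝ) * A = 1 / 2 - 25 / 1000 * (1 / R) := by
      rw [hA, ← hz, ← hs]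
      field_simp
    have ht : |(r : ℝ) * v.re + (1 / 2 - 25 / 1000 * (1 / R))| ≤ 75 / 1000 * (1 / R) := by
      rw [← hrA, ← mul_add, abs_mul, ← hRd, ← hz]
      nlinarith only [hvr, hR0]
    obtain ⟨t1, t2⟩ := abs_le.1 ht
    obtain ⟨i1, i2⟩ := abs_le.1 hvi
    have hv : |v.re| = |(r : ℝ) * v.re| / R := by
      rw [abs_mul, ← hRd]
      field_simp
    have hneg : (r : ℝ) * v.re < 0 := by linarith
    refine ⟨hneg, ?_, by linarith, by linarith, ?_⟩
    · rw [hv, abs_of_neg hneg, div_lt_div_iff₀ hR0 (by linarith)]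
      have h1 : R * (1 / R) = 1 := by field_simp
      nlinarith only [t1, t2, h1, hR, hz0]
    · rw [abs_le]
      constructor <;> linarith

private theorem KLog_v6 {k : ℂ} (h : k ∈ Om) : |k.im| ≤ 1 / 4 * k.re := by
  obtain ⟨h1, h2, h3⟩ := KLog_Om h
  apply abs_le_of_sq_le_sq _ (by linarith)
  nlinarith only [h3, sq_nonneg (k.re - 8 / 10)]

/-! ### Imaginary parts -/

private theorem KLog_im_lt {z : ℂ} (h0 : 0 < z.re) (h1 : z.re < 1) : |(hh z).im| < Real.pi / 2 := by
  rw [hh, Complex.log_im, Complex.abs_arg_lt_pi_div_two_iff]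
  exact Or.inl (Clausen_sin_re z h0 h1)

private theorem KLog_im_le {z : ℂ} (h0 : 16 / 100 ≤ z.re) (h1 : z.re ≤ 84 / 100) :
    |(hh z).im| ≤ 7 * |z.im| := by
  have hpi := Real.pi_gt_d4
  have hpi2 := Real.pi_lt_d4
  have hsin : 47 / 100 ≤ Real.sin (Real.pi * z.re) := by
    have h8 : 16 / 100 * Real.pi ≤ 5027 / 10000 := by linarith
    have h9 : 5025 / 10000 ≤ 16 / 100 * Real.pi := by linarith
    have h47 : 47 / 100 ≤ Real.sin (16 / 100 * Real.pi) := by
      have := Real.sin_gt_sub_cube (x := 16 / 100 * Real.pi) (by positivity)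
      have h10 : (16 / 100 * Real.pi) ^ 3 ≤ (5027 / 10000) ^ 3 := by gcongr
      norm_num at h10 this ⊢
      linarith
    refine h47.trans ?_
    rcases le_total z.re (1 / 2) with h | h
    · apply Real.sin_le_sin_of_le_of_le_pi_div_two
      · linarith
      · nlinarith
      · nlinarith
    · rw [← Real.sin_pi_sub (Real.pi * z.re)]
      apply Real.sin_le_sin_of_le_of_le_pi_div_two
      · linarith
      · nlinarith
      · nlinarith
  have e : (Real.pi * z : ℂ) = ((Real.pi * z.re : ℝ) : ℂ) + ((Real.pi * z.im : ℝ) : ℂ) * I := by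
    apply Complex.ext <;> simp
  set q := 2 * Complex.sin (Real.pi * z) with hq
  have hqre : q.re = 2 * (Real.sin (Real.pi * z.re) * Real.cosh (Real.pi * z.im)) := by
    rw [hq, e, Complex.sin_add_mul_I, ← Complex.ofReal_sin, ← Complex.ofReal_cosh,
      ← Complex.ofReal_cos, ← Complex.ofReal_sinh]
    generalize Real.cos (Real.pi * z.re) = c1
    generalize Real.cosh (Real.pi * z.im) = c2
    generalize Real.sin (Real.pi * z.re) = c3
    generalize Real.sinh (Real.pi * z.im) = c4
    simp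
  have hqim : q.im = 2 * (Real.cos (Real.pi * z.re) * Real.sinh (Real.pi * z.im)) := by
    rw [hq, e, Complex.sin_add_mul_I, ← Complex.ofReal_sin, ← Complex.ofReal_cosh,
      ← Complex.ofReal_cos, ← Complex.ofReal_sinh]
    generalize Real.cos (Real.pi * z.re) = c1
    generalize Real.cosh (Real.pi * z.im) = c2
    generalize Real.sin (Real.pi * z.re) = c3
    generalize Real.sinh (Real.pi * z.im) = c4
    simp
  have hcosh := Real.cosh_pos (Real.pi * z.im)
  have hqpos : 0 < q.re := by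
    rw [hqre]
    positivity
  have harg : |arg q| < Real.pi / 2 := by
    rw [Complex.abs_arg_lt_pi_div_two_iff]
    exact Or.inl hqpos
  have htan : |arg q| ≤ |q.im / q.re| := by
    rw [← Complex.tan_arg q]
    rcases eq_or_ne (arg q) 0 with h | h
    · rw [h]
      simp
    · have h2 : 0 < |arg q| := abs_pos.2 h
      have h3 := (Real.lt_tan h2 harg).le
      rcases abs_choice (arg q) with h4 | h4
      · rw [h4] at h3 h2 ⊢
        exact h3.trans (le_abs_self _)
      · rw [h4] at h3 h2 ⊢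
        rw [Real.tan_neg] at h3
        exact h3.trans (neg_le_abs _)
  have hsinh : |Real.sinh (Real.pi * z.im)| ≤ Real.pi * |z.im| * Real.cosh (Real.pi * z.im) := by
    have h := Clausen_norm_sinh_le ((Real.pi * z.im : ℝ) : ℂ)
    rw [← Complex.ofReal_sinh, Complex.norm_real, Complex.norm_real, Complex.ofReal_re,
      Real.norm_eq_abs, Real.norm_eq_abs, abs_mul, abs_of_pos Real.pi_pos] at h
    exact h
  rw [hh, Complex.log_im, ← hq]
  refine htan.trans ?_
  rw [abs_div, abs_of_pos hqpos, div_le_iff₀ hqpos, hqre, hqim, abs_mul, abs_mul, abs_two]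
  have h5 : |Real.cos (Real.pi * z.re)| * |Real.sinh (Real.pi * z.im)| ≤
      1 * (Real.pi * |z.im| * Real.cosh (Real.pi * z.im)) :=
    mul_le_mul (Real.abs_cos_le_one _) hsinh (abs_nonneg _) zero_le_one
  have h6 : Real.pi * |z.im| ≤ 7 * |z.im| * Real.sin (Real.pi * z.re) := by
    have : 0 ≤ |z.im| := abs_nonneg _
    nlinarith only [this, hsin, hpi2]
  have h7 := mul_le_mul_of_nonneg_right h6 hcosh.le
  nlinarith only [h5, h7]

/-! ### The logarithmic equations -/

private theorem KLog_int {n : ℤ} {t : ℝ} (h : t = n * (2 * Real.pi)) (h2 : |t| < 2 * Real.pi) :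
    n = 0 := by
  have hpi := Real.pi_pos
  rw [h, abs_mul, abs_of_pos (by positivity : 0 < 2 * Real.pi)] at h2
  have h3 : |(n : ℝ)| < 1 := by
    by_contra hcon
    push Not at hcon
    nlinarith only [hcon, h2, hpi]
  have h4 : |n| < 1 := by exact_mod_cast h3
  exact Int.abs_lt_one_iff.1 h4

private theorem KLog_ev {r : ℤ} {v y : ℂ} (hr : |2 * (r : ℝ) * v.re + 1| ≤ 13 / 100)
    (h0 : 0 < (y - v).re) (h0' : (y - v).re < 1) (h1 : 0 < (y + v).re) (h1' : (y + v).re < 1)
    (h : exp (4 * Real.pi * I * r * v) * sin (Real.pi * (y - v)) = sin (Real.pi * (y + v))) :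
    2 * Real.pi * I * (2 * r * v + 1) + hh (y - v) - hh (y + v) = 0 := by
  have hpi := Real.pi_pos
  have e1 := hh_exp (y - v) h0 h0'
  have e2 := hh_exp (y + v) h1 h1'
  have hexp : exp (2 * Real.pi * I * (2 * r * v + 1) + hh (y - v)) = exp (hh (y + v)) := by
    rw [Complex.exp_add, e1, e2, ← h,
      show 2 * Real.pi * I * (2 * r * v + 1) = 4 * Real.pi * I * r * v + 2 * Real.pi * I by ring,
      Complex.exp_add, Complex.exp_two_pi_mul_I]
    ring
  obtain ⟨n, hn⟩ := Complex.exp_eq_exp_iff_exists_int.1 hexp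
  have him := congrArg Complex.im hn
  have i1 : (2 * Real.pi * I * (2 * r * v + 1)).im = 2 * Real.pi * (2 * r * v.re + 1) := by
    simp [Complex.mul_im, Complex.mul_re]
  have i2 : ((n : ℂ) * (2 * Real.pi * I)).im = n * (2 * Real.pi) := by
    simp [Complex.mul_im]
  rw [Complex.add_im, Complex.add_im, i1, i2] at him
  have b1 := KLog_im_lt h0 h0'
  have b2 := KLog_im_lt h1 h1'
  have b3 : |2 * Real.pi * (2 * r * v.re + 1)| ≤ 2 * Real.pi * (13 / 100) := by
    rw [abs_mul, abs_of_pos (by positivity : 0 < 2 * Real.pi)]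
    exact mul_le_mul_of_nonneg_left hr (by positivity)
  obtain ⟨b1a, b1b⟩ := abs_lt.1 b1
  obtain ⟨b2a, b2b⟩ := abs_lt.1 b2
  obtain ⟨b3a, b3b⟩ := abs_le.1 b3
  have hn0 : n = 0 := KLog_int (n := n)
    (t := 2 * Real.pi * (2 * r * v.re + 1) + (hh (y - v)).im - (hh (y + v)).im) (by linarith)
    (by rw [abs_lt]; constructor <;> linarith)
  rw [hn0] at hn
  linear_combination hn

/-- The imaginary parts of a pair. -/
private theorem KLog_pair {v y : ℂ} (y1 : 24 / 100 ≤ y.re) (y2 : y.re ≤ 34 / 100)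
    (y3 : |y.im| ≤ 35 / 1000) (y4 : |v.re| + 1 / 100 ≤ y.re) (v4 : 0 < v.im) (v5 : v.im ≤ 7 / 100) :
    0 < (y - v).re ∧ (y - v).re < 1 ∧ 0 < (y + v).re ∧ (y + v).re < 1 ∧
      |(hh (y - v)).im + (hh (y + v)).im| < Real.pi / 2 + 74 / 100 := by
  obtain ⟨a1, a2⟩ := abs_le.1 y3
  have c1 := le_abs_self v.re
  have c2 := neg_abs_le v.re
  have d1 : 0 < (y - v).re := by
    rw [Complex.sub_re]
    linarith
  have d2 : (y - v).re < 1 := by
    rw [Complex.sub_re]
    linarith
  have d3 : 0 < (y + v).re := by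
    rw [Complex.add_re]
    linarith
  have d4 : (y + v).re < 1 := by
    rw [Complex.add_re]
    linarith
  refine ⟨d1, d2, d3, d4, ?_⟩
  refine (abs_add_le _ _).trans_lt ?_
  have e1 : |(y - v).im| ≤ 105 / 1000 := by
    rw [Complex.sub_im, abs_le]
    constructor <;> linarith
  have e2 : |(y + v).im| ≤ 105 / 1000 := by
    rw [Complex.add_im, abs_le]
    constructor <;> linarith
  rcases le_total 0 v.re with h | h
  · have f := KLog_im_le (z := y + v) (by rw [Complex.add_re]; linarith)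
      (by rw [Complex.add_re]; linarith)
    have f2 := KLog_im_lt d1 d2
    linarith
  · have f := KLog_im_le (z := y - v) (by rw [Complex.sub_re]; linarith)
      (by rw [Complex.sub_re]; linarith)
    have f2 := KLog_im_lt d3 d4
    linarith

theorem crit_of (r1 r2 : ℤ) (h1 : 2 ≤ |r1|) (h2 : 2 ≤ |r2|) (v w : ℂ)
    (hv : Blk r1 v (cos (Real.pi * w))) (hw : Blk r2 w (cos (Real.pi * v)))
    (y1 : 24 / 100 ≤ (yF v w).re) (y2 : (yF v w).re ≤ 34 / 100) (y3 : |(yF v w).im| ≤ 35 / 1000)
    (y4 : |v.re| + 1 / 100 ≤ (yF v w).re) (y5 : |w.re| + 1 / 100 ≤ (yF v w).re) :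
    CritG r1 r2 (yF v w) v w := by
  obtain ⟨a1, a2, a3⟩ := yF_alg r1 r2 v w hv hw (by linarith) (by linarith)
  set y := yF v w with hy
  obtain ⟨v1, v2, v3, v4, v5⟩ := KLog_loc h1 hv
  obtain ⟨w1, w2, w3, w4, w5⟩ := KLog_loc h2 hw
  obtain ⟨p1, p2, p3, p4, p5⟩ := KLog_pair y1 y2 y3 y4 v3 v4
  obtain ⟨q1, q2, q3, q4, q5⟩ := KLog_pair y1 y2 y3 y5 w3 w4
  have hpi := Real.pi_gt_d4
  have s1 : 16 / 100 ≤ (y + 1 / 2).re := by
    rw [Complex.add_re]
    norm_num
    linarith
  have s2 : (y + 1 / 2).re ≤ 84 / 100 := by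
    rw [Complex.add_re]
    norm_num
    linarith
  have s3 : (y + 1 / 2).im = y.im := by
    rw [Complex.add_im]
    norm_num
  refine ⟨h1, h2, ?_, KLog_ev v5 p1 p2 p3 p4 a1, KLog_ev w5 q1 q2 q3 q4 a2, y1, y2, y3, v1, w1, v2,
    w2, y4, y5, v3, w3, v4, w4, KLog_v6 hv.dom, KLog_v6 hw.dom, fun h => hv.sq h, fun h => hw.sq h,
    hv.pos, hw.pos⟩
  have hexp : exp (4 * hh (y + 1 / 2)) =
      exp (hh (y - v) + hh (y + v) + hh (y - w) + hh (y + w)) := by
    have e4 : exp (4 * hh (y + 1 / 2)) = exp (hh (y + 1 / 2)) ^ 4 := by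
      rw [← Complex.exp_nat_mul]
      norm_num
    rw [e4, Complex.exp_add, Complex.exp_add, Complex.exp_add, hh_exp _ p1 p2, hh_exp _ p3 p4,
      hh_exp _ q1 q2, hh_exp _ q3 q4, hh_exp _ (by linarith) (by linarith)]
    have e5 : sin (Real.pi * (y + 1 / 2)) = cos (Real.pi * y) := by
      rw [← Complex.sin_add_pi_div_two]
      congr 1
      ring
    rw [e5]
    linear_combination 16 * a3
  obtain ⟨n, hn⟩ := Complex.exp_eq_exp_iff_exists_int.1 hexp
  have him := congrArg Complex.im hn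
  have i1 : (4 * hh (y + 1 / 2)).im = 4 * (hh (y + 1 / 2)).im := by
    simp [Complex.mul_im]
  have i2 : ((n : ℂ) * (2 * Real.pi * I)).im = n * (2 * Real.pi) := by
    simp [Complex.mul_im]
  rw [i1, Complex.add_im, Complex.add_im, Complex.add_im, Complex.add_im, i2] at him
  have b1 := KLog_im_le s1 s2
  rw [s3] at b1
  have b2 : |(hh (y + 1 / 2)).im| ≤ 245 / 1000 := by linarith
  obtain ⟨b2a, b2b⟩ := abs_le.1 b2
  obtain ⟨p5a, p5b⟩ := abs_lt.1 p5
  obtain ⟨q5a, q5b⟩ := abs_lt.1 q5
  have hn0 : n = 0 := KLog_int (n := n)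
    (t := 4 * (hh (y + 1 / 2)).im - ((hh (y - v)).im + (hh (y + v)).im + (hh (y - w)).im +
      (hh (y + w)).im)) (by linarith)
    (by rw [abs_lt]; constructor <;> linarith)
  rw [hn0] at hn
  linear_combination hn

end Pool.Agent.H63.GO
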