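import Pool.Agent.H63.GO.KDefs

/-! # The block function, `3 ≤ |r|`

The equation is rescaled, `v = -1/(2r) + u/r²`; its solution is a fixed point of Newton's map
with constant derivative on the disc of radius `.075` about `.025 + .21 i`. Negative `r` by
complex conjugation. -/

namespace Pool.Agent.H63.GO

open Complex Filter Topology Pool.Agent.H63.VC Pool.Agent.H63.VC3

private theorem K3_exp {z : ℂ} (h : ‖z‖ ≤ 1) (n : ℕ) (hn : 0 < n) :
    ‖exp z - ∑ m ∈ Finset.range n, z ^ m / m.factorial‖ ≤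
      ‖z‖ ^ n * ((n.succ : ℝ) * (n.factorial * n : ℝ)⁻¹) := Complex.exp_bound h hn

private theorem K3_sin5 {z : ℂ} (h : ‖z‖ ≤ 1) : ‖sin z - (z - z ^ 3 / 6)‖ ≤ ‖z‖ ^ 5 / 100 := by
  have h1 : ‖z * I‖ ≤ 1 := by simpa using h
  have h2 : ‖-z * I‖ ≤ 1 := by simpa using h
  have e1 := K3_exp h1 5 (by norm_num)
  have e2 := K3_exp h2 5 (by norm_num)
  have n1 : ‖z * I‖ = ‖z‖ := by simp
  have n2 : ‖-z * I‖ = ‖z‖ := by simp
  rw [n1] at e1
  rw [n2] at e2
  have e : sin z - (z - z ^ 3 / 6) = ((exp (-z * I) - ∑ m ∈ Finset.range 5, (-z * I) ^ m / m.factorial)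
      - (exp (z * I) - ∑ m ∈ Finset.range 5, (z * I) ^ m / m.factorial)) * I / 2 := by
    rw [Complex.sin]
    simp only [Finset.sum_range_succ, Finset.sum_range_zero, Nat.factorial]
    push_cast
    have i2 : I ^ 2 = -1 := I_sq
    have i3 : I ^ 3 = -I := by rw [pow_succ, I_sq]; ring
    have i4 : I ^ 4 = 1 := by rw [show (4 : ℕ) = 2 * 2 by norm_num, pow_mul, I_sq]; norm_num
    ring_nf
    rw [i2, i4]
    ring
  rw [e, norm_div, norm_mul, norm_I, mul_one, Complex.norm_ofNat]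
  have := norm_sub_le (exp (-z * I) - ∑ m ∈ Finset.range 5, (-z * I) ^ m / m.factorial)
    (exp (z * I) - ∑ m ∈ Finset.range 5, (z * I) ^ m / m.factorial)
  norm_num [Nat.factorial] at e1 e2 this ⊢
  linarith only [this, e2, e1]

private theorem K3_cos4 {z : ℂ} (h : ‖z‖ ≤ 1) : ‖cos z - (1 - z ^ 2 / 2)‖ ≤ ‖z‖ ^ 4 * (5 / 96) := by
  have h1 : ‖z * I‖ ≤ 1 := by simpa using h
  have h2 : ‖-z * I‖ ≤ 1 := by simpa using h
  have e1 := K3_exp h1 4 (by norm_num)
  have e2 := K3_exp h2 4 (by norm_num)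
  have n1 : ‖z * I‖ = ‖z‖ := by simp
  have n2 : ‖-z * I‖ = ‖z‖ := by simp
  rw [n1] at e1
  rw [n2] at e2
  have e : cos z - (1 - z ^ 2 / 2) = ((exp (-z * I) - ∑ m ∈ Finset.range 4, (-z * I) ^ m / m.factorial)
      + (exp (z * I) - ∑ m ∈ Finset.range 4, (z * I) ^ m / m.factorial)) / 2 := by
    rw [Complex.cos]
    simp only [Finset.sum_range_succ, Finset.sum_range_zero, Nat.factorial]
    push_cast
    have i2 : I ^ 2 = -1 := I_sq
    ring_nf
    rw [i2]
    ring
  rw [e, norm_div, Complex.norm_ofNat]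
  have := norm_add_le (exp (-z * I) - ∑ m ∈ Finset.range 4, (-z * I) ^ m / m.factorial)
    (exp (z * I) - ∑ m ∈ Finset.range 4, (z * I) ^ m / m.factorial)
  norm_num [Nat.factorial] at e1 e2 this ⊢
  linarith only [this, e2, e1]

private theorem K3_sin3 {z : ℂ} (h : ‖z‖ ≤ 1) : ‖sin z - z‖ ≤ ‖z‖ ^ 3 * (2 / 9) := by
  have h1 : ‖z * I‖ ≤ 1 := by simpa using h
  have h2 : ‖-z * I‖ ≤ 1 := by simpa using h
  have e1 := K3_exp h1 3 (by norm_num)
  have e2 := K3_exp h2 3 (by norm_num)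
  have n1 : ‖z * I‖ = ‖z‖ := by simp
  have n2 : ‖-z * I‖ = ‖z‖ := by simp
  rw [n1] at e1
  rw [n2] at e2
  have e : sin z - z = ((exp (-z * I) - ∑ m ∈ Finset.range 3, (-z * I) ^ m / m.factorial)
      - (exp (z * I) - ∑ m ∈ Finset.range 3, (z * I) ^ m / m.factorial)) * I / 2 := by
    rw [Complex.sin]
    simp only [Finset.sum_range_succ, Finset.sum_range_zero, Nat.factorial]
    push_cast
    have i2 : I ^ 2 = -1 := I_sq
    ring_nf
    rw [i2]
    ring
  rw [e, norm_div, norm_mul, norm_I, mul_one, Complex.norm_ofNat]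
  have := norm_sub_le (exp (-z * I) - ∑ m ∈ Finset.range 3, (-z * I) ^ m / m.factorial)
    (exp (z * I) - ∑ m ∈ Finset.range 3, (z * I) ^ m / m.factorial)
  norm_num [Nat.factorial] at e1 e2 this ⊢
  linarith only [this, e2, e1]

/-- The centre of the discs. -/
private noncomputable def K3_u0 : ℂ := 25 / 1000 + 21 / 100 * I

private theorem K3_norm_le {z : ℂ} {B : ℝ} (hB : 0 ≤ B) (h : z.re ^ 2 + z.im ^ 2 ≤ B ^ 2) :
    ‖z‖ ≤ B := by
  rw [Complex.norm_eq_sqrt_sq_add_sq]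
  exact Real.sqrt_le_iff.2 ⟨hB, h⟩

private theorem K3_u0_re : K3_u0.re = 25 / 1000 := by
  rw [K3_u0, show (25 / 1000 + 21 / 100 * I : ℂ) = ((25 / 1000 : ℝ) : ℂ) + ((21 / 100 : ℝ) : ℂ) * I by
    push_cast; ring]
  simp

private theorem K3_u0_im : K3_u0.im = 21 / 100 := by
  rw [K3_u0, show (25 / 1000 + 21 / 100 * I : ℂ) = ((25 / 1000 : ℝ) : ℂ) + ((21 / 100 : ℝ) : ℂ) * I by
    push_cast; ring]
  simp

private theorem K3_u0_norm : ‖K3_u0‖ ≤ 2115 / 10000 := by
  apply K3_norm_le (by norm_num)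
  rw [K3_u0_re, K3_u0_im]
  norm_num

private theorem K3_cos2 {z : ℂ} (h : ‖z‖ ≤ 3 / 10) : ‖cos z - 1‖ ≤ ‖z‖ ^ 2 * (51 / 100) := by
  have h1 := K3_cos4 (z := z) (by linarith only [h])
  have e : cos z - 1 = (cos z - (1 - z ^ 2 / 2)) - z ^ 2 / 2 := by ring
  have h2 := norm_sub_le (cos z - (1 - z ^ 2 / 2)) (z ^ 2 / 2)
  rw [← e] at h2
  have h3 : ‖z ^ 2 / 2‖ = ‖z‖ ^ 2 / 2 := by simp
  have h4 : ‖z‖ ^ 4 ≤ ‖z‖ ^ 2 * (9 / 100) := by
    have : ‖z‖ ^ 2 ≤ 9 / 100 := by linarith only [h,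
                                     mul_nonneg (sub_nonneg.2 h) (sub_nonneg.2 (norm_nonneg z))]
    linarith only [mul_nonneg (sq_nonneg (‖z‖)) (sub_nonneg.2 this)]
  rw [h3] at h2
  linarith only [sq_nonneg (‖z‖), h4, h2, h1]

/-- The factors of the equation. -/
private noncomputable def K3_E (A : ℝ) (e : ℂ) : ℂ := cos e + A * sin e

private noncomputable def K3_G (A : ℝ) (e : ℂ) : ℂ := A * cos e - sin e

/-- The function whose zero is the rescaled solution. -/
private noncomputable def K3_F (t c A : ℝ) (k u : ℂ) : ℂ :=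
  sin (c * u) * K3_E A (c * t / 2 * u) - I * k * K3_G A (c * t / 2 * u)

private noncomputable def K3_D (t c A : ℝ) (k u : ℂ) : ℂ :=
  cos (c * u) * K3_E A (c * t / 2 * u) + t / 2 * sin (c * u) * K3_G A (c * t / 2 * u) +
    I * k * t / 2 * K3_E A (c * t / 2 * u)

private theorem K3_hasDeriv (t c A : ℝ) (k u : ℂ) :
    HasDerivAt (K3_F t c A k) (c * K3_D t c A k u) u := by
  have h1 : HasDerivAt (fun u : ℂ => (c : ℂ) * u) (c : ℂ) u := by
    simpa using (hasDerivAt_id u).const_mul (c : ℂ)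
  have h2 : HasDerivAt (fun u : ℂ => (c * t / 2 : ℂ) * u) (c * t / 2 : ℂ) u := by
    simpa using (hasDerivAt_id u).const_mul (c * t / 2 : ℂ)
  have s1 := h1.csin
  have s2 := h2.csin
  have c2 := h2.ccos
  have hE := c2.add (s2.const_mul (A : ℂ))
  have hG := (c2.const_mul (A : ℂ)).sub s2
  have h := (s1.mul hE).sub (hG.const_mul (I * k))
  refine (h.congr_deriv ?_).congr_of_eventuallyEq (Filter.Eventually.of_forall fun w => ?_)
  · simp only [K3_D, K3_E, K3_G, Pi.add_apply]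
    ring
  · simp only [K3_F, K3_E, K3_G, Pi.mul_apply, Pi.add_apply, Pi.sub_apply]

private theorem K3_E_bound {A H : ℝ} {e : ℂ} (hA : 0 ≤ A) (hH : ‖e‖ ≤ H) (hH1 : H ≤ 3 / 10) :
    ‖K3_E A e - 1 - A * e‖ ≤ 51 / 100 * H ^ 2 + A * (2 / 9 * H ^ 3) := by
  have h0 := norm_nonneg e
  have e1 : K3_E A e - 1 - A * e = (cos e - 1) + A * (sin e - e) := by rw [K3_E]; ring
  have h1 := K3_cos2 (z := e) (by linarith only [hH1, hH])
  have h2 := K3_sin3 (z := e) (by linarith only [hH1, hH])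
  have h3 := norm_add_le (cos e - 1) (A * (sin e - e))
  rw [norm_mul, Complex.norm_real, Real.norm_eq_abs, abs_of_nonneg hA] at h3
  rw [e1]
  have h4 : ‖e‖ ^ 2 ≤ H ^ 2 := by gcongr
  have h5 : ‖e‖ ^ 3 ≤ H ^ 3 := by gcongr
  have h6 : A * ‖sin e - e‖ ≤ A * (2 / 9 * H ^ 3) := by
    apply mul_le_mul_of_nonneg_left _ hA
    linarith only [h5, h2]
  linarith only [h6, h4, h3, h1]

private theorem K3_G_bound {A H : ℝ} {e : ℂ} (hA : 0 ≤ A) (hH : ‖e‖ ≤ H) (hH1 : H ≤ 3 / 10) :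
    ‖K3_G A e - A‖ ≤ A * (51 / 100 * H ^ 2) + H + 2 / 9 * H ^ 3 := by
  have h0 := norm_nonneg e
  have e1 : K3_G A e - A = A * (cos e - 1) - ((sin e - e) + e) := by rw [K3_G]; ring
  have h1 := K3_cos2 (z := e) (by linarith only [hH1, hH])
  have h2 := K3_sin3 (z := e) (by linarith only [hH1, hH])
  have h3 := norm_sub_le (A * (cos e - 1)) ((sin e - e) + e)
  have h3' := norm_add_le (sin e - e) e
  rw [norm_mul, Complex.norm_real, Real.norm_eq_abs, abs_of_nonneg hA] at h3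
  rw [e1]
  have h4 : ‖e‖ ^ 2 ≤ H ^ 2 := by gcongr
  have h5 : ‖e‖ ^ 3 ≤ H ^ 3 := by gcongr
  have h6 : A * ‖cos e - 1‖ ≤ A * (51 / 100 * H ^ 2) := by
    apply mul_le_mul_of_nonneg_left _ hA
    linarith only [h4, h1]
  linarith only [h6, h5, h3', h3, h2, hH]

/-- The approximate value of the derivative. -/
private noncomputable def K3_M (t c A : ℝ) : ℂ :=
  1 - c ^ 2 * K3_u0 ^ 2 / 2 + A * c * t * K3_u0 + 17 / 40 * t * I

private theorem K3_norm7 (a b c d e f g : ℂ) :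
    ‖a + b + c + d + e + f + g‖ ≤ ‖a‖ + ‖b‖ + ‖c‖ + ‖d‖ + ‖e‖ + ‖f‖ + ‖g‖ := by
  have h1 := norm_add_le (a + b + c + d + e + f) g
  have h2 := norm_add_le (a + b + c + d + e) f
  have h3 := norm_add_le (a + b + c + d) e
  have h4 := norm_add_le (a + b + c) d
  have h5 := norm_add_le (a + b) c
  have h6 := norm_add_le a b
  linarith only [h6, h5, h4, h3, h2, h1]

private theorem K3_nu {t c A Z H : ℝ} {k u : ℂ} (ht : 0 ≤ t) (hc : 0 ≤ c) (hA : 0 ≤ A)
    (hu : ‖u - K3_u0‖ ≤ 75 / 1000) (hk : ‖k - 85 / 100‖ ≤ 18 / 100)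
    (hZ : c * (2865 / 10000) ≤ Z) (hZ1 : Z ≤ 1) (hH : t / 2 * Z ≤ H) (hH1 : H ≤ 3 / 10) :
    ‖K3_D t c A k u - K3_M t c A‖ ≤
      Z ^ 4 * (5 / 96) * (1 + A * H + (51 / 100 * H ^ 2 + A * (2 / 9 * H ^ 3))) +
      (1 + Z ^ 2 / 2) * (51 / 100 * H ^ 2 + A * (2 / 9 * H ^ 3)) + Z ^ 2 / 2 * (A * H) +
      t / 2 * (Z ^ 3 * (2 / 9)) * (A + (A * (51 / 100 * H ^ 2) + H + 2 / 9 * H ^ 3)) +
      t / 2 * Z * (A * (51 / 100 * H ^ 2) + H + 2 / 9 * H ^ 3) +
      103 / 100 * t / 2 * (A * H + (51 / 100 * H ^ 2 + A * (2 / 9 * H ^ 3))) +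
      (c ^ 2 / 2 * (3735 / 100000) + A * c * t * (75 / 1000) + 9 / 100 * t) := by
  have hu0 := K3_u0_norm
  have hun : ‖u‖ ≤ 2865 / 10000 := by
    have := norm_add_le (u - K3_u0) K3_u0
    rw [sub_add_cancel] at this
    linarith only [this, hu0, hu]
  have hkn : ‖k‖ ≤ 103 / 100 := by
    have := norm_add_le (k - 85 / 100) (85 / 100)
    rw [sub_add_cancel] at this
    have h8 : ‖(85 / 100 : ℂ)‖ = 85 / 100 := by
      rw [show (85 / 100 : ℂ) = ((85 / 100 : ℝ) : ℂ) by push_cast; ring, Complex.norm_real]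
      norm_num
    rw [h8] at this
    linarith only [this, hk]
  set z : ℂ := c * u with hz
  set e : ℂ := c * t / 2 * u with he
  have hze : e = t / 2 * z := by rw [he, hz]; ring
  have hzn : ‖z‖ ≤ Z := by
    rw [hz, norm_mul, Complex.norm_real, Real.norm_eq_abs, abs_of_nonneg hc]
    exact (mul_le_mul_of_nonneg_left hun hc).trans hZ
  have hZ0 : 0 ≤ Z := (norm_nonneg z).trans hzn
  have ht2 : ‖(t / 2 : ℂ)‖ = t / 2 := by
    rw [show (t / 2 : ℂ) = ((t / 2 : ℝ) : ℂ) by push_cast; ring, Complex.norm_real,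
      Real.norm_eq_abs, abs_of_nonneg (by positivity)]
  have hen : ‖e‖ ≤ H := by
    rw [hze, norm_mul, ht2]
    exact (mul_le_mul_of_nonneg_left hzn (by positivity)).trans hH
  have hH0 : 0 ≤ H := (norm_nonneg e).trans hen
  have hAn : ‖(A : ℂ)‖ = A := by rw [Complex.norm_real, Real.norm_eq_abs, abs_of_nonneg hA]
  have hEb := K3_E_bound hA hen hH1
  have hGb := K3_G_bound hA hen hH1
  set p := 51 / 100 * H ^ 2 + A * (2 / 9 * H ^ 3) with hp
  set g := A * (51 / 100 * H ^ 2) + H + 2 / 9 * H ^ 3 with hg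
  have hp0 : 0 ≤ p := by positivity
  have hg0 : 0 ≤ g := by positivity
  have hE1 : ‖K3_E A e - 1‖ ≤ A * H + p := by
    have := norm_add_le (K3_E A e - 1 - A * e) (A * e)
    rw [sub_add_cancel, norm_mul, hAn] at this
    have h2 : A * ‖e‖ ≤ A * H := mul_le_mul_of_nonneg_left hen hA
    linarith only [h2, this, hEb]
  have hE : ‖K3_E A e‖ ≤ 1 + A * H + p := by
    have := norm_add_le (K3_E A e - 1) 1
    rw [sub_add_cancel, norm_one] at this
    linarith only [this, hE1]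
  have hG : ‖K3_G A e‖ ≤ A + g := by
    have := norm_add_le (K3_G A e - A) A
    rw [sub_add_cancel, hAn] at this
    linarith only [this, hGb]
  have hz2 : ‖z ^ 2 / 2‖ ≤ Z ^ 2 / 2 := by
    rw [norm_div, norm_pow, Complex.norm_ofNat]
    gcongr
  have key : K3_D t c A k u - K3_M t c A =
      (cos z - (1 - z ^ 2 / 2)) * K3_E A e + (1 - z ^ 2 / 2) * (K3_E A e - 1 - A * e) +
      (-(z ^ 2 / 2)) * (A * e) + t / 2 * (sin z - z) * K3_G A e + t / 2 * z * (K3_G A e - A) +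
      I * k * t / 2 * (K3_E A e - 1) +
      (-(c ^ 2 / 2 * ((u - K3_u0) * (u + K3_u0))) + A * c * t * (u - K3_u0) +
        I * (k - 85 / 100) * t / 2) := by
    rw [K3_D, K3_M, ← he, ← hz]
    have h1 : (c : ℂ) * u = z := rfl
    rw [he, hz]
    ring
  rw [key]
  refine (K3_norm7 _ _ _ _ _ _ _).trans ?_
  have b1 : ‖(cos z - (1 - z ^ 2 / 2)) * K3_E A e‖ ≤ Z ^ 4 * (5 / 96) * (1 + A * H + p) := by
    rw [norm_mul]
    have := K3_cos4 (z := z) (hzn.trans hZ1)
    have h4 : ‖z‖ ^ 4 ≤ Z ^ 4 := by gcongr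
    gcongr
    linarith only [h4, this]
  have b2 : ‖(1 - z ^ 2 / 2) * (K3_E A e - 1 - A * e)‖ ≤ (1 + Z ^ 2 / 2) * p := by
    rw [norm_mul]
    have := norm_sub_le 1 (z ^ 2 / 2)
    rw [norm_one] at this
    gcongr
    linarith only [this, hz2]
  have b3 : ‖(-(z ^ 2 / 2)) * (A * e)‖ ≤ Z ^ 2 / 2 * (A * H) := by
    rw [norm_mul, norm_neg, norm_mul, hAn]
    gcongr
  have b4 : ‖t / 2 * (sin z - z) * K3_G A e‖ ≤ t / 2 * (Z ^ 3 * (2 / 9)) * (A + g) := by
    rw [norm_mul, norm_mul, ht2]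
    have := K3_sin3 (z := z) (hzn.trans hZ1)
    have h4 : ‖z‖ ^ 3 ≤ Z ^ 3 := by gcongr
    gcongr
    linarith only [h4, this]
  have b5 : ‖t / 2 * z * (K3_G A e - A)‖ ≤ t / 2 * Z * g := by
    rw [norm_mul, norm_mul, ht2]
    gcongr
  have b6 : ‖I * k * t / 2 * (K3_E A e - 1)‖ ≤ 103 / 100 * t / 2 * (A * H + p) := by
    rw [norm_mul, norm_div, norm_mul, norm_mul, norm_I, one_mul, Complex.norm_ofNat,
      Complex.norm_real, Real.norm_eq_abs, abs_of_nonneg ht]
    gcongr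
  have b7 : ‖-(c ^ 2 / 2 * ((u - K3_u0) * (u + K3_u0))) + A * c * t * (u - K3_u0) +
        I * (k - 85 / 100) * t / 2‖ ≤
      c ^ 2 / 2 * (3735 / 100000) + A * c * t * (75 / 1000) + 9 / 100 * t := by
    have h1 := norm_add_le (-(c ^ 2 / 2 * ((u - K3_u0) * (u + K3_u0))) + A * c * t * (u - K3_u0))
      (I * (k - 85 / 100) * t / 2)
    have h2 := norm_add_le (-(c ^ 2 / 2 * ((u - K3_u0) * (u + K3_u0)))) (A * c * t * (u - K3_u0))
    have h3 : ‖I * (k - 85 / 100) * t / 2‖ ≤ 9 / 100 * t := by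
      rw [norm_div, norm_mul, norm_mul, norm_I, one_mul, Complex.norm_ofNat,
        Complex.norm_real, Real.norm_eq_abs, abs_of_nonneg ht]
      have := mul_le_mul_of_nonneg_right hk ht
      linarith only [this]
    have h4 : ‖A * c * t * (u - K3_u0)‖ ≤ A * c * t * (75 / 1000) := by
      rw [norm_mul, norm_mul, norm_mul, hAn, Complex.norm_real, Complex.norm_real,
        Real.norm_eq_abs, Real.norm_eq_abs, abs_of_nonneg hc, abs_of_nonneg ht]
      gcongr
    have h5 : ‖-(c ^ 2 / 2 * ((u - K3_u0) * (u + K3_u0)))‖ ≤ c ^ 2 / 2 * (3735 / 100000) := by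
      rw [norm_neg, norm_mul, norm_mul, norm_div, norm_pow, Complex.norm_real, Real.norm_eq_abs,
        abs_of_nonneg hc, Complex.norm_ofNat]
      have h6 : ‖u + K3_u0‖ ≤ 498 / 1000 := by
        have h7 := norm_add_le (u - K3_u0) (2 * K3_u0)
        rw [show u - K3_u0 + 2 * K3_u0 = u + K3_u0 by ring, norm_mul, Complex.norm_ofNat] at h7
        linarith only [h7, hu0, hu]
      have h8 : ‖u - K3_u0‖ * ‖u + K3_u0‖ ≤ 3735 / 100000 :=
        (mul_le_mul hu h6 (norm_nonneg _) (by norm_num)).trans (by norm_num)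
      exact mul_le_mul_of_nonneg_left h8 (by positivity)
    linarith only [h5, h4, h3, h2, h1]
  linarith only [b7, b6, b5, b4, b3, b2, b1]

/-- The main part of the value at the centre. -/
private noncomputable def K3_C (t c A B : ℝ) : ℂ :=
  K3_u0 - c ^ 2 * K3_u0 ^ 3 / 6 + A * c * t / 2 * K3_u0 ^ 2 - I * (85 / 100) * B +
    I * (85 / 100) * (t / 2) * K3_u0

private theorem K3_center {t c A B H : ℝ} {k : ℂ} (ht : 0 ≤ t) (hc : 0 ≤ c) (hB : 0 ≤ B)
    (hA : A = B * c) (hk : ‖k - 85 / 100‖ ≤ 18 / 100) (hZ1 : c * (2115 / 10000) ≤ 1)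
    (hH : c * t / 2 * (2115 / 10000) ≤ H) (hH1 : H ≤ 3 / 10) :
    ‖K3_F t c A k K3_u0‖ ≤ c * (‖K3_C t c A B‖ + 18 / 100 * ‖(B : ℂ) - t / 2 * K3_u0‖ +
      (2115 / 10000 + c ^ 2 * (9461 / 1000000) / 6 + c ^ 4 * (42321 / 100000000) / 100) *
        (51 / 100 * H ^ 2 + A * (2 / 9 * H ^ 3)) +
      c ^ 2 * (9461 / 1000000) / 6 * (A * H) +
      c ^ 4 * (42321 / 100000000) / 100 * (1 + A * H) +
      103 / 100 * B * (51 / 100 * H ^ 2) +
      103 / 100 * (2 / 9 * ((t / 2) ^ 3 * c ^ 2 * (9461 / 1000000)))) := by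
  have hu0 := K3_u0_norm
  have hA0 : 0 ≤ A := by rw [hA]; positivity
  have hkn : ‖k‖ ≤ 103 / 100 := by
    have := norm_add_le (k - 85 / 100) (85 / 100)
    rw [sub_add_cancel] at this
    have h8 : ‖(85 / 100 : ℂ)‖ = 85 / 100 := by
      rw [show (85 / 100 : ℂ) = ((85 / 100 : ℝ) : ℂ) by push_cast; ring, Complex.norm_real]
      norm_num
    rw [h8] at this
    linarith only [this, hk]
  set z : ℂ := c * K3_u0 with hz
  set e : ℂ := c * t / 2 * K3_u0 with he
  have hcn : ‖(c : ℂ)‖ = c := by rw [Complex.norm_real, Real.norm_eq_abs, abs_of_nonneg hc]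
  have hzn : ‖z‖ = c * ‖K3_u0‖ := by rw [hz, norm_mul, hcn]
  have hzn1 : ‖z‖ ≤ c * (2115 / 10000) := by rw [hzn]; gcongr
  have hz1 : ‖z‖ ≤ 1 := hzn1.trans hZ1
  have hctn : ‖(c * t / 2 : ℂ)‖ = c * t / 2 := by
    rw [show (c * t / 2 : ℂ) = ((c * t / 2 : ℝ) : ℂ) by push_cast; ring, Complex.norm_real,
      Real.norm_eq_abs, abs_of_nonneg (by positivity)]
  have hen' : ‖e‖ ≤ c * t / 2 * (2115 / 10000) := by
    rw [he, norm_mul, hctn]
    gcongr
  have hen : ‖e‖ ≤ H := hen'.trans hH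
  have hH0 : 0 ≤ H := (norm_nonneg e).trans hen
  have hAn : ‖(A : ℂ)‖ = A := by rw [Complex.norm_real, Real.norm_eq_abs, abs_of_nonneg hA0]
  have hEb := K3_E_bound hA0 hen hH1
  have hp0 : 0 ≤ 51 / 100 * H ^ 2 + A * (2 / 9 * H ^ 3) := by positivity
  have n3 : ‖K3_u0‖ ^ 3 ≤ 9461 / 1000000 := by
    calc ‖K3_u0‖ ^ 3 ≤ (2115 / 10000) ^ 3 := by gcongr
      _ ≤ _ := by norm_num
  have n5 : ‖K3_u0‖ ^ 5 ≤ 42321 / 100000000 := by
    calc ‖K3_u0‖ ^ 5 ≤ (2115 / 10000) ^ 5 := by gcongr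
      _ ≤ _ := by norm_num
  have hr := K3_sin5 (z := z) hz1
  have hz5 : ‖z‖ ^ 5 / 100 ≤ c * (c ^ 4 * (42321 / 100000000) / 100) := by
    rw [hzn]
    have : (c * ‖K3_u0‖) ^ 5 = c ^ 5 * ‖K3_u0‖ ^ 5 := by ring
    rw [this]
    have h9 : c ^ 5 * ‖K3_u0‖ ^ 5 ≤ c ^ 5 * (42321 / 100000000) := by gcongr
    linarith only [h9]
  have hz3 : ‖z ^ 3 / 6‖ ≤ c * (c ^ 2 * (9461 / 1000000) / 6) := by
    rw [norm_div, norm_pow, hzn, Complex.norm_ofNat]
    have : (c * ‖K3_u0‖) ^ 3 = c ^ 3 * ‖K3_u0‖ ^ 3 := by ring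
    rw [this]
    have h9 : c ^ 3 * ‖K3_u0‖ ^ 3 ≤ c ^ 3 * (9461 / 1000000) := by gcongr
    linarith only [h9]
  have hs : ‖sin z‖ ≤ c * (2115 / 10000 + c ^ 2 * (9461 / 1000000) / 6 +
      c ^ 4 * (42321 / 100000000) / 100) := by
    have h1 := norm_add_le (sin z - (z - z ^ 3 / 6)) (z - z ^ 3 / 6)
    have h2 := norm_sub_le z (z ^ 3 / 6)
    rw [sub_add_cancel] at h1
    linarith only [hzn1, hz3, hz5, hr, h2, h1]
  have key : K3_F t c A k K3_u0 =
      c * K3_C t c A B + (-(c * (I * (k - 85 / 100) * (B - t / 2 * K3_u0)))) +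
      sin z * (K3_E A e - 1 - A * e) + (-(z ^ 3 / 6)) * (A * e) +
      (sin z - (z - z ^ 3 / 6)) * (1 + A * e) + (-(I * k * A * (cos e - 1))) +
      I * k * (sin e - e) := by
    have hAc : (A : ℂ) = B * c := by rw [hA]; push_cast; ring
    have h1 : K3_F t c A k K3_u0 = sin z * K3_E A e - I * k * K3_G A e := rfl
    have h2 : (-(z ^ 3 / 6)) * (A * e) + (sin z - (z - z ^ 3 / 6)) * (1 + A * e) =
      sin z * (1 + A * e) - z - A * (z * e) + z ^ 3 / 6 := by ring
    rw [add_assoc (_ + sin z * _), h2, h1, K3_C, K3_G, he, hz, hAc]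
    ring
  rw [key]
  refine (K3_norm7 _ _ _ _ _ _ _).trans ?_
  have b1 : ‖c * K3_C t c A B‖ = c * ‖K3_C t c A B‖ := by rw [norm_mul, hcn]
  have b2 : ‖-(c * (I * (k - 85 / 100) * (B - t / 2 * K3_u0)))‖ ≤
      c * (18 / 100 * ‖(B : ℂ) - t / 2 * K3_u0‖) := by
    rw [norm_neg, norm_mul, hcn, norm_mul, norm_mul, norm_I, one_mul]
    gcongr
  have b3 : ‖sin z * (K3_E A e - 1 - A * e)‖ ≤ c * ((2115 / 10000 + c ^ 2 * (9461 / 1000000) / 6 +
      c ^ 4 * (42321 / 100000000) / 100) * (51 / 100 * H ^ 2 + A * (2 / 9 * H ^ 3))) := by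
    rw [norm_mul]
    exact (mul_le_mul hs hEb (norm_nonneg _) (by positivity)).trans_eq (by ring)
  have hAe : ‖(A : ℂ) * e‖ ≤ A * H := by
    rw [norm_mul, hAn]
    gcongr
  have b4 : ‖(-(z ^ 3 / 6)) * (A * e)‖ ≤ c * (c ^ 2 * (9461 / 1000000) / 6 * (A * H)) := by
    rw [norm_mul, norm_neg]
    exact (mul_le_mul hz3 hAe (norm_nonneg _) (by positivity)).trans_eq (by ring)
  have b5 : ‖(sin z - (z - z ^ 3 / 6)) * (1 + A * e)‖ ≤
      c * (c ^ 4 * (42321 / 100000000) / 100 * (1 + A * H)) := by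
    rw [norm_mul]
    have := norm_add_le 1 ((A : ℂ) * e)
    rw [norm_one] at this
    have h7 : ‖1 + (A : ℂ) * e‖ ≤ 1 + A * H := by linarith only [this, hAe]
    exact (mul_le_mul (hr.trans hz5) h7 (norm_nonneg _) (by positivity)).trans_eq (by ring)
  have b6 : ‖-(I * k * A * (cos e - 1))‖ ≤ c * (103 / 100 * B * (51 / 100 * H ^ 2)) := by
    rw [norm_neg, norm_mul, norm_mul, norm_mul, norm_I, one_mul, hAn]
    have h1 := K3_cos2 (z := e) (by linarith only [hen', hH1, hH])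
    have h4 : ‖e‖ ^ 2 ≤ H ^ 2 := by gcongr
    have h5 : ‖cos e - 1‖ ≤ 51 / 100 * H ^ 2 := by linarith only [h4, h1]
    calc ‖k‖ * A * ‖cos e - 1‖ ≤ 103 / 100 * A * (51 / 100 * H ^ 2) := by gcongr
      _ = _ := by rw [hA]; ring
  have b7 : ‖I * k * (sin e - e)‖ ≤
      c * (103 / 100 * (2 / 9 * ((t / 2) ^ 3 * c ^ 2 * (9461 / 1000000)))) := by
    rw [norm_mul, norm_mul, norm_I, one_mul]
    have h1 := K3_sin3 (z := e) (by linarith only [hen', hH1, hH])
    have h4 : ‖e‖ ^ 3 ≤ (t / 2) ^ 3 * c ^ 3 * (9461 / 1000000) := by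
      rw [he, norm_mul, hctn]
      have : (c * t / 2 * ‖K3_u0‖) ^ 3 = (t / 2) ^ 3 * c ^ 3 * ‖K3_u0‖ ^ 3 := by ring
      rw [this]
      gcongr
    calc ‖k‖ * ‖sin e - e‖ ≤ 103 / 100 * ((t / 2) ^ 3 * c ^ 3 * (9461 / 1000000) * (2 / 9)) := by
          gcongr
          linarith only [h4, h1]
      _ = _ := by ring
  linarith only [b7, b6, b5, b4, b3, b2, b1]

/-- Newton's map. -/
private noncomputable def K3_N (t c A : ℝ) (k u : ℂ) : ℂ := u - K3_F t c A k u / (c * K3_M t c A)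

/-- What is needed for the contraction. -/
private structure K3_Good (t c A : ℝ) : Prop where
  t0 : 0 ≤ t
  t1 : t ≤ 1 / 3
  c0 : 0 < c
  A0 : 0 ≤ A
  M1 : 1 ≤ (K3_M t c A).re
  ct : c * t / 2 * (2865 / 10000) ≤ 3 / 10
  B : A ≤ 28 / 100 * c
  ex : ∃ ν : ℝ, 0 ≤ ν ∧ ν ≤ 22 / 100 ∧
    (∀ u k : ℂ, ‖u - K3_u0‖ ≤ 75 / 1000 → ‖k - 85 / 100‖ ≤ 18 / 100 →
      ‖K3_D t c A k u - K3_M t c A‖ ≤ ν) ∧
    ∀ k : ℂ, ‖k - 85 / 100‖ ≤ 18 / 100 →
      ‖K3_F t c A k K3_u0‖ ≤ c * (75 / 1000 * ((K3_M t c A).re - ν))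

private theorem K3_N_deriv {t c A : ℝ} (h : K3_Good t c A) (k u : ℂ) :
    HasDerivAt (K3_N t c A k) ((K3_M t c A - K3_D t c A k u) / K3_M t c A) u := by
  have h1 := (hasDerivAt_id u).sub ((K3_hasDeriv t c A k u).div_const (c * K3_M t c A))
  refine h1.congr_deriv ?_
  have hc : (c : ℂ) ≠ 0 := by exact_mod_cast h.c0.ne'
  have hM : K3_M t c A ≠ 0 := by
    intro h0
    have := h.M1
    rw [h0] at this
    norm_num at this
  field_simp

private theorem K3_M_pos (t c A : ℝ) : (K3_M t c A).re ≤ ‖K3_M t c A‖ :=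
  Complex.re_le_norm _

private theorem K3_N_lip {t c A ν : ℝ} (h : K3_Good t c A) {k : ℂ}
    (hk : ‖k - 85 / 100‖ ≤ 18 / 100)
    (hν : ∀ u k : ℂ, ‖u - K3_u0‖ ≤ 75 / 1000 → ‖k - 85 / 100‖ ≤ 18 / 100 →
      ‖K3_D t c A k u - K3_M t c A‖ ≤ ν) {x y : ℂ} (hx : ‖x - K3_u0‖ ≤ 75 / 1000)
    (hy : ‖y - K3_u0‖ ≤ 75 / 1000) :
    ‖K3_N t c A k y - K3_N t c A k x‖ ≤ ν / ‖K3_M t c A‖ * ‖y - x‖ := by
  refine Convex.norm_image_sub_le_of_norm_hasDerivWithin_le (𝕜 := ℂ)
    (s := Metric.closedBall K3_u0 (75 / 1000))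
    (fun u _ => (K3_N_deriv h k u).hasDerivWithinAt) (fun u hu => ?_) (convex_closedBall _ _)
    (by rwa [Metric.mem_closedBall, dist_eq_norm]) (by rwa [Metric.mem_closedBall, dist_eq_norm])
  rw [Metric.mem_closedBall, dist_eq_norm] at hu
  rw [norm_div, norm_sub_rev]
  have := hν u k hu hk
  gcongr

private theorem K3_fix {t c A : ℝ} (h : K3_Good t c A) {k : ℂ} (hk : ‖k - 85 / 100‖ ≤ 18 / 100) :
    ∃ u : ℂ, ‖u - K3_u0‖ ≤ 75 / 1000 ∧ K3_F t c A k u = 0 := by
  obtain ⟨ν, hν0, hν1, hν, hF⟩ := h.ex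
  have hM1 := h.M1
  have hMn := K3_M_pos t c A
  have hM0 : 0 < ‖K3_M t c A‖ := by linarith only [hMn, hM1]
  have hq : ν / ‖K3_M t c A‖ < 1 := by
    rw [div_lt_one hM0]
    linarith only [hMn, hM1, hν1]
  have hq0 : 0 ≤ ν / ‖K3_M t c A‖ := by positivity
  have hmaps : Set.MapsTo (K3_N t c A k) (Metric.closedBall K3_u0 (75 / 1000))
      (Metric.closedBall K3_u0 (75 / 1000)) := by
    intro u hu
    rw [Metric.mem_closedBall, dist_eq_norm] at hu ⊢
    have h1 := K3_N_lip h hk hν (x := K3_u0) (y := u) (by rw [sub_self, norm_zero]; norm_num) hu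
    have h2 := hF k hk
    have h3 : ‖K3_N t c A k K3_u0 - K3_u0‖ ≤ 75 / 1000 * ((K3_M t c A).re - ν) / ‖K3_M t c A‖ := by
      have e : K3_N t c A k K3_u0 - K3_u0 = -(K3_F t c A k K3_u0 / (c * K3_M t c A)) := by
        rw [K3_N]; ring
      rw [e, norm_neg, norm_div, norm_mul, Complex.norm_real, Real.norm_eq_abs,
        abs_of_pos h.c0, div_le_div_iff₀ (mul_pos h.c0 hM0) hM0]
      linarith only [h2, mul_nonneg (sub_nonneg.2 hMn) (sub_nonneg.2 h2),
        mul_nonneg (sub_nonneg.2 hM1) (sub_nonneg.2 h2)]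
    have h4 := norm_add_le (K3_N t c A k u - K3_N t c A k K3_u0) (K3_N t c A k K3_u0 - K3_u0)
    rw [sub_add_sub_cancel] at h4
    have h5 : ν / ‖K3_M t c A‖ * ‖u - K3_u0‖ ≤ ν / ‖K3_M t c A‖ * (75 / 1000) := by gcongr
    have h6 : ν / ‖K3_M t c A‖ * (75 / 1000) +
        75 / 1000 * ((K3_M t c A).re - ν) / ‖K3_M t c A‖ ≤ 75 / 1000 := by
      have : ν / ‖K3_M t c A‖ * (75 / 1000) + 75 / 1000 * ((K3_M t c A).re - ν) / ‖K3_M t c A‖ =
          75 / 1000 * ((K3_M t c A).re / ‖K3_M t c A‖) := by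
        field_simp
        ring
      rw [this]
      have : (K3_M t c A).re / ‖K3_M t c A‖ ≤ 1 := by
        rw [div_le_one hM0]
        exact hMn
      linarith only [this]
    linarith only [h6, h5, h4, h3, h1]
  have hcontr : ContractingWith ⟨ν / ‖K3_M t c A‖, hq0⟩ (hmaps.restrict (K3_N t c A k)
      (Metric.closedBall K3_u0 (75 / 1000)) (Metric.closedBall K3_u0 (75 / 1000))) := by
    refine ⟨by exact_mod_cast hq, ?_⟩
    refine LipschitzWith.of_dist_le_mul fun x y => ?_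
    have hx := x.2
    have hy := y.2
    rw [Metric.mem_closedBall, dist_eq_norm] at hx hy
    rw [Subtype.dist_eq, Subtype.dist_eq, dist_eq_norm, dist_eq_norm]
    exact K3_N_lip h hk hν hy hx
  obtain ⟨u, hu, hfix, -⟩ := hcontr.exists_fixedPoint' Metric.isClosed_closedBall.isComplete hmaps
    (Metric.mem_closedBall_self (by norm_num)) (edist_ne_top _ _)
  rw [Metric.mem_closedBall, dist_eq_norm] at hu
  refine ⟨u, hu, ?_⟩
  have h7 : K3_N t c A k u = u := hfix
  rw [K3_N] at h7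
  have h8 : K3_F t c A k u / (c * K3_M t c A) = 0 := by linear_combination -h7
  have hc : (c : ℂ) ≠ 0 := by exact_mod_cast h.c0.ne'
  have hM : K3_M t c A ≠ 0 := norm_pos_iff.1 hM0
  rcases div_eq_zero_iff.1 h8 with h9 | h9
  · exact h9
  · exact absurd h9 (mul_ne_zero hc hM)

private theorem K3_un {t c A : ℝ} (h : K3_Good t c A) {k k' u u' : ℂ}
    (hk : ‖k - 85 / 100‖ ≤ 18 / 100) (hu : ‖u - K3_u0‖ ≤ 75 / 1000) (hF : K3_F t c A k u = 0)
    (hu' : ‖u' - K3_u0‖ ≤ 75 / 1000) (hF' : K3_F t c A k' u' = 0) :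
    ‖u - u'‖ ≤ 1 / 2 * ‖k - k'‖ := by
  obtain ⟨ν, hν0, hν1, hν, -⟩ := h.ex
  have hM1 := h.M1
  have hMn := K3_M_pos t c A
  have hM0 : 0 < ‖K3_M t c A‖ := by linarith only [hMn, hM1]
  have h1 := K3_N_lip h hk hν hu' hu
  have h2 : K3_N t c A k u = u := by rw [K3_N, hF]; simp
  have hc : (c : ℂ) ≠ 0 := by exact_mod_cast h.c0.ne'
  have hM : K3_M t c A ≠ 0 := norm_pos_iff.1 hM0
  have h3 : K3_N t c A k u' = u' + I * (k - k') * K3_G A (c * t / 2 * u') / (c * K3_M t c A) := by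
    have e : K3_F t c A k u' = K3_F t c A k' u' - I * (k - k') * K3_G A (c * t / 2 * u') := by
      rw [K3_F, K3_F]; ring
    rw [K3_N, e, hF']
    ring
  have hq : ν / ‖K3_M t c A‖ ≤ 22 / 100 := by
    rw [div_le_iff₀ hM0]
    linarith only [hMn, hM1, hν1]
  have hun : ‖u'‖ ≤ 2865 / 10000 := by
    have := norm_add_le (u' - K3_u0) K3_u0
    rw [sub_add_cancel] at this
    have := K3_u0_norm
    linarith [this, hu']
  have hc0 := h.c0
  have ht0 := h.t0
  have hA0 := h.A0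
  have hctn : ‖(c * t / 2 : ℂ)‖ = c * t / 2 := by
    rw [show (c * t / 2 : ℂ) = ((c * t / 2 : ℝ) : ℂ) by push_cast; ring, Complex.norm_real,
      Real.norm_eq_abs, abs_of_nonneg (by positivity)]
  have hG : ‖K3_G A (c * t / 2 * u')‖ ≤ 39 / 100 * c := by
    have g1 : ‖(c * t / 2 * u' : ℂ)‖ ≤ c * t / 2 * (2865 / 10000) := by
      rw [norm_mul, hctn]
      gcongr
    have g2 := K3_G_bound hA0 g1 h.ct
    have g3 := norm_add_le (K3_G A (c * t / 2 * u') - A) (A : ℂ)
    rw [sub_add_cancel, Complex.norm_real, Real.norm_eq_abs, abs_of_nonneg hA0] at g3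
    have g4 := h.B
    have g5 := h.ct
    have g6 : c * t / 2 * (2865 / 10000) ≤ 48 / 1000 * c := by
      have := mul_le_mul_of_nonneg_left h.t1 hc0.le
      linarith only [this, hc0]
    set H := c * t / 2 * (2865 / 10000)
    have g7 : 0 ≤ H := by positivity
    have g8 : H ^ 2 ≤ 9 / 100 := by linarith only [g5,
                                      mul_nonneg (sub_nonneg.2 g5) (sub_nonneg.2 g7)]
    have g9 : H ^ 3 ≤ 9 / 100 * H := by linarith only [mul_nonneg (sub_nonneg.2 g5) (sub_nonneg.2 g7),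
                                          mul_nonneg (sq_nonneg (1 * H)) (sub_nonneg.2 g5)]
    have g10 : A * (51 / 100 * H ^ 2) ≤ A * (51 / 100 * (9 / 100)) := by gcongr
    linarith only [g10, g9, g6, g2, g4, g3, hc0]
  have h4 : ‖I * (k - k') * K3_G A (c * t / 2 * u') / (c * K3_M t c A)‖ ≤ 39 / 100 * ‖k - k'‖ := by
    rw [norm_div, norm_mul, norm_mul, norm_mul, norm_I, one_mul, Complex.norm_real,
      Real.norm_eq_abs, abs_of_pos hc0, div_le_iff₀ (mul_pos hc0 hM0)]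
    calc ‖k - k'‖ * ‖K3_G A (c * t / 2 * u')‖ ≤ ‖k - k'‖ * (39 / 100 * c) := by gcongr
      _ ≤ ‖k - k'‖ * (39 / 100 * (c * ‖K3_M t c A‖)) := by
        gcongr
        linarith only [mul_nonneg (sub_nonneg.2 hMn) (sub_nonneg.2 hc0.le),
          mul_nonneg (sub_nonneg.2 hM1) (sub_nonneg.2 hc0.le)]
      _ = _ := by ring
  rw [h2, h3] at h1
  have h5 := norm_add_le (u - (u' + I * (k - k') * K3_G A (c * t / 2 * u') / (c * K3_M t c A)))
    (I * (k - k') * K3_G A (c * t / 2 * u') / (c * K3_M t c A))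
  rw [show u - (u' + I * (k - k') * K3_G A (c * t / 2 * u') / (c * K3_M t c A)) +
    I * (k - k') * K3_G A (c * t / 2 * u') / (c * K3_M t c A) = u - u' by ring] at h5
  have h6 : ν / ‖K3_M t c A‖ * ‖u - u'‖ ≤ 22 / 100 * ‖u - u'‖ := by gcongr
  linarith only [h6, h5, h4, h1]

private theorem K3_C_re (t c A B : ℝ) : (K3_C t c A B).re = 25 / 1000 +
    c ^ 2 * (3291875 / 1000000000) / 6 - A * c * t / 2 * (43475 / 1000000) -
    85 / 100 * (t / 2) * (21 / 100) := by
  have h : K3_C t c A B = (((c ^ 2 / 6 : ℝ) : ℂ) * (-K3_u0 ^ 3) + K3_u0 +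
    ((A * c * t / 2 : ℝ) : ℂ) * K3_u0 ^ 2 + ((-(85 / 100) * B : ℝ) : ℂ) * I +
    ((85 / 100 * (t / 2) : ℝ) : ℂ) * (I * K3_u0)) := by
    rw [K3_C]; push_cast; ring
  rw [h]
  simp only [Complex.add_re, pow_succ, pow_zero, one_mul, Complex.mul_re, Complex.ofReal_re,
    Complex.ofReal_im, Complex.mul_im, Complex.neg_re, Complex.neg_im, Complex.I_re, Complex.I_im,
    K3_u0_re, K3_u0_im]
  ring

private theorem K3_C_im (t c A B : ℝ) : (K3_C t c A B).im = 21 / 100 +
    c ^ 2 * (886725 / 100000000) / 6 + A * c * t / 2 * (105 / 10000) - 85 / 100 * B +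
    85 / 100 * (t / 2) * (25 / 1000) := by
  have h : K3_C t c A B = (((c ^ 2 / 6 : ℝ) : ℂ) * (-K3_u0 ^ 3) + K3_u0 +
    ((A * c * t / 2 : ℝ) : ℂ) * K3_u0 ^ 2 + ((-(85 / 100) * B : ℝ) : ℂ) * I +
    ((85 / 100 * (t / 2) : ℝ) : ℂ) * (I * K3_u0)) := by
    rw [K3_C]; push_cast; ring
  rw [h]
  simp only [Complex.add_im, pow_succ, pow_zero, one_mul, Complex.mul_re, Complex.ofReal_re,
    Complex.ofReal_im, Complex.mul_im, Complex.neg_re, Complex.neg_im, Complex.I_re, Complex.I_im,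
    K3_u0_re, K3_u0_im]
  ring

private theorem K3_M_re (t c A : ℝ) : (K3_M t c A).re = 1 + c ^ 2 / 2 * (43475 / 1000000) +
    A * c * t * (25 / 1000) := by
  have h : K3_M t c A = ((c ^ 2 / 2 : ℝ) : ℂ) * (-K3_u0 ^ 2) + ((A * c * t : ℝ) : ℂ) * K3_u0 +
    ((1 : ℝ) : ℂ) + ((17 / 40 * t : ℝ) : ℂ) * I := by
    rw [K3_M]; push_cast; ring
  rw [h]
  simp only [Complex.add_re, pow_succ, pow_zero, one_mul, Complex.mul_re, Complex.ofReal_re,
    Complex.ofReal_im, Complex.mul_im, Complex.neg_re, Complex.neg_im, Complex.I_re, Complex.I_im,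
    K3_u0_re, K3_u0_im]
  ring

private theorem K3_Bt (t B : ℝ) {x : ℝ} (hx : 0 ≤ x)
    (h : (B - t / 2 * (25 / 1000)) ^ 2 + (t / 2 * (21 / 100)) ^ 2 ≤ x ^ 2) :
    ‖(B : ℂ) - t / 2 * K3_u0‖ ≤ x := by
  apply K3_norm_le hx
  have e : (B : ℂ) - t / 2 * K3_u0 = ((B : ℝ) : ℂ) + ((t / 2 : ℝ) : ℂ) * (-K3_u0) := by
    push_cast; ring
  rw [e]
  simp only [Complex.add_re, Complex.re_ofReal_mul, Complex.neg_re, Complex.neg_im,
    Complex.ofReal_re, Complex.ofReal_im, Complex.add_im, Complex.im_ofReal_mul, K3_u0_re, K3_u0_im]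
  linarith only [h]

private theorem K3_good3 : K3_Good (1 / 3) (2 * Real.pi / 3) (1 / √3) := by
  have hp1 := Real.pi_gt_d4
  have hp2 := Real.pi_lt_d4
  set c := 2 * Real.pi / 3 with hc
  have c1 : 209433 / 100000 ≤ c := by rw [hc]; linarith only [hp1]
  have c2 : c ≤ 20944 / 10000 := by rw [hc]; linarith only [hp2]
  have hs0 : 0 < √3 := by positivity
  have hs2 : √3 ^ 2 = 3 := Real.sq_sqrt (by norm_num)
  set A := 1 / √3 with hA
  have hA3 : A = √3 / 3 := by
    rw [hA, div_eq_div_iff hs0.ne' (by norm_num)]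
    linarith only [hs2]
  have A1 : 57735 / 100000 ≤ A := by
    rw [hA3]
    (refine le_of_not_gt fun hng => ?_; linarith only [hs2, hp2, hp1,
      mul_pos (sub_pos.2 hng) (sub_pos.2 hs0), mul_pos (sub_pos.2 hng) (sub_pos.2 hp2),
      mul_pos (sub_pos.2 hng) (sub_pos.2 hp1)])
  have A2 : A ≤ 57736 / 100000 := by
    rw [hA3]
    (refine le_of_not_gt fun hng => ?_; linarith only [hng, hs2, hp2, hp1,
      mul_pos (sub_pos.2 hng) (sub_pos.2 hng)])
  have hc0 : 0 < c := by linarith only [hc, hp2, hp1]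
  have hA0 : 0 ≤ A := by linarith only [hA3, hs0]
  have cc1 : 43862 / 10000 ≤ c ^ 2 :=
    le_trans (by norm_num) (pow_le_pow_left₀ (by norm_num) c1 2)
  have cc2 : c ^ 2 ≤ 43866 / 10000 := (pow_le_pow_left₀ hc0.le c2 2).trans (by norm_num)
  have ac1 : 12091 / 10000 ≤ A * c :=
    le_trans (by norm_num) (mul_le_mul A1 c1 (by norm_num) hA0)
  have ac2 : A * c ≤ 12093 / 10000 := (mul_le_mul A2 c2 hc0.le (by norm_num)).trans (by norm_num)
  have hM := K3_M_re (1 / 3) c A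
  have hM1 : 11053 / 10000 ≤ (K3_M (1 / 3) c A).re := by
    rw [hM]
    linarith only [ac1, cc1]
  refine ⟨by norm_num, by norm_num, hc0, hA0, by linarith only [hM1], by linarith only [c2],
    by linarith only [c1, A2],
    1926 / 10000, by norm_num, by norm_num, fun u k hu hk => ?_, fun k hk => ?_⟩
  · refine (K3_nu (Z := 60006 / 100000) (H := 10002 / 100000) (by norm_num) hc0.le hA0 hu hk
      (by linarith only [c2]) (by norm_num) (by norm_num) (by norm_num)).trans ?_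
    have h : (60006 / 100000 : ℝ) ^ 4 * (5 / 96) * (1 + A * (10002 / 100000) +
        (51 / 100 * (10002 / 100000) ^ 2 + A * (2 / 9 * (10002 / 100000) ^ 3))) +
      (1 + (60006 / 100000) ^ 2 / 2) *
        (51 / 100 * (10002 / 100000) ^ 2 + A * (2 / 9 * (10002 / 100000) ^ 3)) +
      (60006 / 100000) ^ 2 / 2 * (A * (10002 / 100000)) +
      1 / 3 / 2 * ((60006 / 100000) ^ 3 * (2 / 9)) *
        (A + (A * (51 / 100 * (10002 / 100000) ^ 2) + 10002 / 100000 +
          2 / 9 * (10002 / 100000) ^ 3)) +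
      1 / 3 / 2 * (60006 / 100000) * (A * (51 / 100 * (10002 / 100000) ^ 2) + 10002 / 100000 +
        2 / 9 * (10002 / 100000) ^ 3) +
      103 / 100 * (1 / 3) / 2 * (A * (10002 / 100000) + (51 / 100 * (10002 / 100000) ^ 2 +
        A * (2 / 9 * (10002 / 100000) ^ 3))) ≤ 504 / 10000 := by
      linarith only [A2]
    have h2 : c ^ 2 / 2 * (3735 / 100000) + A * c * (1 / 3) * (75 / 1000) + 9 / 100 * (1 / 3) ≤
        1422 / 10000 := by
      linarith only [ac2, cc2]
    linarith only [h2, h]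
  · have hB : A = (A / c) * c := by field_simp
    have hAc : 0 ≤ A / c := by positivity
    have B1 : 27566 / 100000 ≤ A / c := by
      rw [le_div_iff₀ hc0]
      linarith only [c2, A1]
    have B2 : A / c ≤ 27568 / 100000 := by
      rw [div_le_iff₀ hc0]
      linarith only [c1, A2]
    have h := K3_center (H := 7384 / 100000) (by norm_num : (0 : ℝ) ≤ 1 / 3) hc0.le hAc hB hk
      (by linarith only [c2]) (by linarith only [c2]) (by norm_num)
    refine h.trans ?_
    apply mul_le_mul_of_nonneg_left _ hc0.le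
    have e1 : ‖K3_C (1 / 3) c A (A / c)‖ ≤ 16508 / 1000000 := by
      apply K3_norm_le (by norm_num)
      have r1 := K3_C_re (1 / 3) c A (A / c)
      have r2 := K3_C_im (1 / 3) c A (A / c)
      have q1 : |(K3_C (1 / 3) c A (A / c)).re| ≤ 1111 / 100000 := by
        rw [r1, abs_le]
        constructor <;> linarith only [cc1, cc2, ac1, ac2]
      have q2 : |(K3_C (1 / 3) c A (A / c)).im| ≤ 12190 / 1000000 := by
        rw [r2, abs_le]
        constructor <;> linarith only [cc1, cc2, ac1, ac2, B1, B2]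
      have q3 := pow_le_pow_left₀ (abs_nonneg _) q1 2
      have q4 := pow_le_pow_left₀ (abs_nonneg _) q2 2
      rw [sq_abs] at q3 q4
      norm_num at q3 q4 ⊢
      linarith only [q4, q3]
    have e2 : ‖((A / c : ℝ) : ℂ) - (1 / 3 : ℝ) / 2 * K3_u0‖ ≤ 2738 / 10000 := by
      apply K3_Bt _ _ (by norm_num)
      have q1 : 0 ≤ A / c - 1 / 3 / 2 * (25 / 1000) := by linarith only [B1]
      have q2 : A / c - 1 / 3 / 2 * (25 / 1000) ≤ 27152 / 100000 := by linarith only [B2]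
      have q3 := pow_le_pow_left₀ q1 q2 2
      norm_num at q3 ⊢
      linarith only [q3]
    have c4 : c ^ 4 ≤ 19243 / 1000 := (pow_le_pow_left₀ hc0.le c2 4).trans (by norm_num)
    have e3 : (2115 / 10000 + c ^ 2 * (9461 / 1000000) / 6 + c ^ 4 * (42321 / 100000000) / 100) *
        (51 / 100 * (7384 / 100000) ^ 2 + A * (2 / 9 * (7384 / 100000) ^ 3)) +
      c ^ 2 * (9461 / 1000000) / 6 * (A * (7384 / 100000)) +
      c ^ 4 * (42321 / 100000000) / 100 * (1 + A * (7384 / 100000)) +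
      103 / 100 * (A / c) * (51 / 100 * (7384 / 100000) ^ 2) +
      103 / 100 * (2 / 9 * ((1 / 3 / 2) ^ 3 * c ^ 2 * (9461 / 1000000))) ≤ 1835 / 1000000 := by
      calc _ ≤ ((2115 : ℝ) / 10000 + 43866 / 10000 * (9461 / 1000000) / 6 +
          19243 / 1000 * (42321 / 100000000) / 100) *
        (51 / 100 * (7384 / 100000) ^ 2 + 57736 / 100000 * (2 / 9 * (7384 / 100000) ^ 3)) +
      43866 / 10000 * (9461 / 1000000) / 6 * (57736 / 100000 * (7384 / 100000)) +
      19243 / 1000 * (42321 / 100000000) / 100 * (1 + 57736 / 100000 * (7384 / 100000)) +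
      103 / 100 * (27568 / 100000) * (51 / 100 * (7384 / 100000) ^ 2) +
      103 / 100 * (2 / 9 * ((1 / 3 / 2) ^ 3 * (43866 / 10000) * (9461 / 1000000))) := by gcongr
        _ ≤ _ := by norm_num
    linarith only [hM1, e3, e2, e1]

private theorem K3_tan {a : ℝ} (h0 : 0 < a) (h1 : a ≤ 3928 / 10000) :
    Real.tan a ≤ a * (1 + 364 / 1000 * a ^ 2) := by
  have hs : Real.sin a ≤ a - a ^ 3 / 6 + a ^ 5 / 100 := by
    have h := K3_sin5 (z := (a : ℂ)) (by
      rw [Complex.norm_real, Real.norm_eq_abs, abs_of_pos h0]; linarith only [h1])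
    have e : sin (a : ℂ) - ((a : ℂ) - (a : ℂ) ^ 3 / 6) =
        ((Real.sin a - (a - a ^ 3 / 6) : ℝ) : ℂ) := by push_cast; ring
    rw [e, Complex.norm_real, Complex.norm_real, Real.norm_eq_abs, Real.norm_eq_abs,
      abs_of_pos h0] at h
    have := (abs_le.1 h).2
    linarith only [this]
  have hc := Real.one_sub_sq_div_two_le_cos (x := a)
  have a2 : a ^ 2 ≤ 1543 / 10000 := (pow_le_pow_left₀ h0.le h1 2).trans (by norm_num)
  have hc0 : 0 < 1 - a ^ 2 / 2 := by linarith only [a2, h1, h0]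
  rw [Real.tan_eq_sin_div_cos, div_le_iff₀ (by linarith only [a2, hc, h1, h0])]
  have h3 : a * (1 + 364 / 1000 * a ^ 2) * (1 - a ^ 2 / 2) ≤
      a * (1 + 364 / 1000 * a ^ 2) * Real.cos a := by gcongr
  have h4 : a - a ^ 3 / 6 + a ^ 5 / 100 ≤ a * (1 + 364 / 1000 * a ^ 2) * (1 - a ^ 2 / 2) := by
    have h5 : 0 ≤ a ^ 3 * (136 / 1000 * (-1) + 1 / 6 - (1 / 100 + 182 / 1000) * a ^ 2) := by
      apply mul_nonneg (by positivity)
      linarith only [a2, h1, h0]
    have e : a * (1 + 364 / 1000 * a ^ 2) * (1 - a ^ 2 / 2) - (a - a ^ 3 / 6 + a ^ 5 / 100) =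
      a ^ 3 * (136 / 1000 * (-1) + 1 / 6 - (1 / 100 + 182 / 1000) * a ^ 2) := by ring
    linarith only [h5]
  linarith only [h4, h3, hs]

private theorem K3_good4 {t : ℝ} (ht0 : 0 < t) (ht : t ≤ 1 / 4) :
    K3_Good t (2 * Real.pi * t) (Real.tan (Real.pi * t / 2)) := by
  have hp1 := Real.pi_gt_d4
  have hp2 := Real.pi_lt_d4
  set c := 2 * Real.pi * t with hc
  have ha : Real.pi * t / 2 = c / 4 := by rw [hc]; ring
  rw [ha]
  have c1 : 6283 / 1000 * t ≤ c := mul_le_mul_of_nonneg_right (by linarith only [hp1]) ht0.le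
  have c2 : c ≤ 62832 / 10000 * t := mul_le_mul_of_nonneg_right (by linarith only [hp2]) ht0.le
  have hc0 : 0 < c := by positivity
  have hA1 := K3_tan (a := c / 4) (by positivity) (by linarith only [c2, hp2, hp1, ht])
  have hA2 := Real.le_tan (x := c / 4) (by positivity) (by linarith only [c2, hp2, hp1, ht])
  set A := Real.tan (c / 4) with hA
  have t2 : 0 < t ^ 2 := by positivity
  have p2 : t ^ 2 ≤ 1 / 16 := (pow_le_pow_left₀ ht0.le ht 2).trans (by norm_num)
  have pw : ∀ n : ℕ, t ^ (n + 2) ≤ t ^ 2 * (1 / 4) ^ n := by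
    intro n
    rw [pow_add, mul_comm]
    gcongr
  have p3 := pw 1
  have p4 := pw 2
  have p5 := pw 3
  have p6 := pw 4
  have p7 := pw 5
  have p8 := pw 6
  have p9 := pw 7
  have p10 := pw 8
  have p11 := pw 9
  norm_num at p3 p4 p5 p6 p7 p8 p9 p10 p11
  have cc1 : 39476 / 1000 * t ^ 2 ≤ c ^ 2 := by
    refine le_trans ?_ (pow_le_pow_left₀ (by positivity) c1 2)
    linarith only [t2]
  have cc2 : c ^ 2 ≤ 394787 / 10000 * t ^ 2 := by
    refine (pow_le_pow_left₀ hc0.le c2 2).trans ?_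
    linarith only [t2]
  have hA0 : 0 ≤ A := by linarith only [hA2, c1, ht0]
  have B1 : A ≤ c * (1 / 4 + 2246 / 10000 * t ^ 2) := by
    refine hA1.trans ?_
    have : (c / 4) ^ 2 ≤ 24675 / 10000 * t ^ 2 := by linarith only [t2, cc2]
    have h8 : 0 ≤ c * t ^ 2 := by positivity
    calc c / 4 * (1 + 364 / 1000 * (c / 4) ^ 2) ≤
        c / 4 * (1 + 364 / 1000 * (24675 / 10000 * t ^ 2)) := by gcongr
      _ ≤ _ := by linarith only [h8]
  have A2 : A ≤ 1660 / 1000 * t := by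
    have : 1 / 4 + 2246 / 10000 * t ^ 2 ≤ 26404 / 100000 := by linarith only [p2]
    have h2 : c * (1 / 4 + 2246 / 10000 * t ^ 2) ≤ c * (26404 / 100000) :=
      mul_le_mul_of_nonneg_left this hc0.le
    linarith only [ht0, c2, h2, B1]
  have ac2 : A * c ≤ 10431 / 1000 * t ^ 2 := by
    have := mul_le_mul A2 c2 hc0.le (by positivity)
    linarith only [t2, this]
  have act : A * c * t ≤ 10431 / 1000 * t ^ 3 := by
    have := mul_le_mul_of_nonneg_right ac2 ht0.le
    linarith only [this]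
  have act0 : 0 ≤ A * c * t := by positivity
  have hM := K3_M_re t c A
  have hM1 : 1 + 858 / 1000 * t ^ 2 ≤ (K3_M t c A).re := by
    rw [hM]
    linarith only [t2, act0, cc1]
  refine ⟨ht0.le, by linarith only [ht], hc0, hA0, by linarith only [t2, hM1], ?_, ?_,
    9 / 100 * t + 116 / 100 * t ^ 2, by positivity, by linarith only [p2, ht],
    fun u k hu hk => ?_,
    fun k hk => ?_⟩
  · linarith only [p2, mul_le_mul_of_nonneg_right c2 ht0.le]
  · have : 1 / 4 + 2246 / 10000 * t ^ 2 ≤ 28 / 100 := by linarith only [p2]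
    have h2 : c * (1 / 4 + 2246 / 10000 * t ^ 2) ≤ c * (28 / 100) :=
      mul_le_mul_of_nonneg_left this hc0.le
    linarith only [h2, B1]
  · refine (K3_nu (Z := 18002 / 10000 * t) (H := 9002 / 10000 * t ^ 2) ht0.le hc0.le hA0 hu hk
      (by linarith only [ht0, c2]) (by linarith only [ht]) (by linarith only [t2])
      (by linarith only [p2])).trans ?_
    have h : (18002 / 10000 * t) ^ 4 * (5 / 96) * (1 + A * (9002 / 10000 * t ^ 2) +
        (51 / 100 * (9002 / 10000 * t ^ 2) ^ 2 + A * (2 / 9 * (9002 / 10000 * t ^ 2) ^ 3))) +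
      (1 + (18002 / 10000 * t) ^ 2 / 2) *
        (51 / 100 * (9002 / 10000 * t ^ 2) ^ 2 + A * (2 / 9 * (9002 / 10000 * t ^ 2) ^ 3)) +
      (18002 / 10000 * t) ^ 2 / 2 * (A * (9002 / 10000 * t ^ 2)) +
      t / 2 * ((18002 / 10000 * t) ^ 3 * (2 / 9)) *
        (A + (A * (51 / 100 * (9002 / 10000 * t ^ 2) ^ 2) + 9002 / 10000 * t ^ 2 +
          2 / 9 * (9002 / 10000 * t ^ 2) ^ 3)) +
      t / 2 * (18002 / 10000 * t) * (A * (51 / 100 * (9002 / 10000 * t ^ 2) ^ 2) +
        9002 / 10000 * t ^ 2 + 2 / 9 * (9002 / 10000 * t ^ 2) ^ 3) +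
      103 / 100 * t / 2 * (A * (9002 / 10000 * t ^ 2) + (51 / 100 * (9002 / 10000 * t ^ 2) ^ 2 +
        A * (2 / 9 * (9002 / 10000 * t ^ 2) ^ 3))) ≤ 225 / 1000 * t ^ 2 := by
      calc _ ≤ (18002 / 10000 * t) ^ 4 * (5 / 96) *
        (1 + (1660 / 1000 * t) * (9002 / 10000 * t ^ 2) +
        (51 / 100 * (9002 / 10000 * t ^ 2) ^ 2 +
          (1660 / 1000 * t) * (2 / 9 * (9002 / 10000 * t ^ 2) ^ 3))) +
      (1 + (18002 / 10000 * t) ^ 2 / 2) *
        (51 / 100 * (9002 / 10000 * t ^ 2) ^ 2 +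
          (1660 / 1000 * t) * (2 / 9 * (9002 / 10000 * t ^ 2) ^ 3)) +
      (18002 / 10000 * t) ^ 2 / 2 * ((1660 / 1000 * t) * (9002 / 10000 * t ^ 2)) +
      t / 2 * ((18002 / 10000 * t) ^ 3 * (2 / 9)) *
        ((1660 / 1000 * t) + ((1660 / 1000 * t) * (51 / 100 * (9002 / 10000 * t ^ 2) ^ 2) +
          9002 / 10000 * t ^ 2 + 2 / 9 * (9002 / 10000 * t ^ 2) ^ 3)) +
      t / 2 * (18002 / 10000 * t) * ((1660 / 1000 * t) *
        (51 / 100 * (9002 / 10000 * t ^ 2) ^ 2) +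
        9002 / 10000 * t ^ 2 + 2 / 9 * (9002 / 10000 * t ^ 2) ^ 3) +
      103 / 100 * t / 2 * ((1660 / 1000 * t) * (9002 / 10000 * t ^ 2) +
        (51 / 100 * (9002 / 10000 * t ^ 2) ^ 2 +
        (1660 / 1000 * t) * (2 / 9 * (9002 / 10000 * t ^ 2) ^ 3))) := by gcongr
        _ ≤ _ := by
          ring_nf
          linarith only [t2, p11, p10, p9, p8, p7, p6, p5, p4]
    have h2 : c ^ 2 / 2 * (3735 / 100000) + A * c * t * (75 / 1000) + 9 / 100 * t ≤
        9 / 100 * t + 9335 / 10000 * t ^ 2 := by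
      linarith only [t2, p3, act, cc2]
    linarith only [t2, h2, h]
  · have hB : A = (A / c) * c := by field_simp
    have hAc : 0 ≤ A / c := by positivity
    have B3 : A / c ≤ 1 / 4 + 2246 / 10000 * t ^ 2 := by
      rw [div_le_iff₀ hc0]
      linarith only [B1]
    have B4 : 1 / 4 ≤ A / c := by
      rw [le_div_iff₀ hc0]
      linarith only [hA2]
    have h := K3_center (H := 6646 / 10000 * t ^ 2) ht0.le hc0.le hAc hB hk
      (by linarith only [ht, c2])
      (by linarith only [t2, mul_le_mul_of_nonneg_right c2 ht0.le]) (by linarith only [p2])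
    refine h.trans ?_
    apply mul_le_mul_of_nonneg_left _ hc0.le
    have e1 : ‖K3_C t c A (A / c)‖ ≤ 275 / 10000 - 99875 / 1000000 * t + 19 / 100 * t ^ 2 := by
      have r1 := K3_C_re t c A (A / c)
      have r2 := K3_C_im t c A (A / c)
      have q1 : |(K3_C t c A (A / c)).re| ≤ 25 / 1000 - 8925 / 100000 * t + 57 / 1000 * t ^ 2 := by
        rw [r1, abs_le]
        constructor <;> linarith only [cc1, cc2, act, act0, p3, t2, ht, ht0]
      have q2 : |(K3_C t c A (A / c)).im| ≤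
          25 / 10000 - 10625 / 1000000 * t + 133 / 1000 * t ^ 2 := by
        rw [r2, abs_le]
        constructor
        · linarith only [t2, B3, act0, cc1]
        · linarith only [t2, B4, p3, act, cc2, sq_nonneg (t - 177 / 1000)]
      have := Complex.norm_le_abs_re_add_abs_im (K3_C t c A (A / c))
      linarith only [this, q2, q1]
    have e2 : ‖((A / c : ℝ) : ℂ) - (t : ℝ) / 2 * K3_u0‖ ≤ 1 / 4 + 1 / 4 * t ^ 2 := by
      apply K3_Bt _ _ (by positivity)
      have q1 : 0 ≤ A / c - t / 2 * (25 / 1000) := by linarith only [ht, B4]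
      have q2 : A / c - t / 2 * (25 / 1000) ≤ 1 / 4 + 2246 / 10000 * t ^ 2 - t / 2 * (25 / 1000) := by
        linarith only [B3]
      have q3 := pow_le_pow_left₀ q1 q2 2
      refine (add_le_add_left q3 _).trans ?_
      have t4 : 0 ≤ t ^ 4 := by positivity
      have t3 : 0 ≤ t ^ 3 := by positivity
      linarith only [ht0, t2, t3, t4]
    have c4 : c ^ 4 ≤ 1559 * t ^ 4 := by
      have := pow_le_pow_left₀ (by positivity) cc2 2
      have t4 : 0 ≤ t ^ 4 := by positivity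
      linarith only [t4, this]
    have e3 : (2115 / 10000 + c ^ 2 * (9461 / 1000000) / 6 + c ^ 4 * (42321 / 100000000) / 100) *
        (51 / 100 * (6646 / 10000 * t ^ 2) ^ 2 + A * (2 / 9 * (6646 / 10000 * t ^ 2) ^ 3)) +
      c ^ 2 * (9461 / 1000000) / 6 * (A * (6646 / 10000 * t ^ 2)) +
      c ^ 4 * (42321 / 100000000) / 100 * (1 + A * (6646 / 10000 * t ^ 2)) +
      103 / 100 * (A / c) * (51 / 100 * (6646 / 10000 * t ^ 2) ^ 2) +
      103 / 100 * (2 / 9 * ((t / 2) ^ 3 * c ^ 2 * (9461 / 1000000))) ≤ 9 / 1000 * t ^ 2 := by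
      have B5 : A / c ≤ 265 / 1000 := by linarith only [p2, B3]
      calc _ ≤ ((2115 : ℝ) / 10000 + (394787 / 10000 * t ^ 2) * (9461 / 1000000) / 6 +
          (1559 * t ^ 4) * (42321 / 100000000) / 100) *
        (51 / 100 * (6646 / 10000 * t ^ 2) ^ 2 +
          (1660 / 1000 * t) * (2 / 9 * (6646 / 10000 * t ^ 2) ^ 3)) +
      (394787 / 10000 * t ^ 2) * (9461 / 1000000) / 6 *
        ((1660 / 1000 * t) * (6646 / 10000 * t ^ 2)) +
      (1559 * t ^ 4) * (42321 / 100000000) / 100 *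
        (1 + (1660 / 1000 * t) * (6646 / 10000 * t ^ 2)) +
      103 / 100 * (265 / 1000) * (51 / 100 * (6646 / 10000 * t ^ 2) ^ 2) +
      103 / 100 * (2 / 9 * ((t / 2) ^ 3 * (394787 / 10000 * t ^ 2) * (9461 / 1000000))) := by
            gcongr
        _ ≤ _ := by
          ring_nf
          linarith only [t2, p11, p9, p8, p7, p6, p5, p4]
    have ht2 : t ^ 2 ≤ t * (1 / 4) := by
      rw [sq]
      exact mul_le_mul_of_nonneg_left ht ht0.le
    linarith only [ht0, ht2, hM1, e3, e2, e1]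

private theorem K3_good {r : ℤ} (hr : 3 ≤ r) :
    K3_Good (1 / r) (2 * Real.pi * (1 / r)) (Real.tan (Real.pi * (1 / r) / 2)) := by
  rcases hr.eq_or_lt with h | h
  · rw [← h]
    have e1 : 2 * Real.pi * (1 / ((3 : ℤ) : ℝ)) = 2 * Real.pi / 3 := by push_cast; ring
    have e2 : Real.pi * (1 / ((3 : ℤ) : ℝ)) / 2 = Real.pi / 6 := by push_cast; ring
    rw [e1, e2, Real.tan_pi_div_six]
    have := K3_good3
    norm_num at this ⊢
    exact this
  · have h4 : (4 : ℝ) ≤ r := by exact_mod_cast h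
    apply K3_good4 (by positivity)
    exact one_div_le_one_div_of_le (by norm_num) h4

/-- The solution from the rescaled solution. -/
private noncomputable def K3_v (r : ℤ) (u : ℂ) : ℂ := -(1 / (2 * r)) + u / r ^ 2

private theorem K3_w {r : ℤ} (hr : 3 ≤ r) {u : ℂ} (hu : ‖u - K3_u0‖ ≤ 75 / 1000) :
    ∃ x y : ℝ, Real.pi * K3_v r u = -(x + y * I) ∧ 0 ≤ x ∧ x ≤ 542 / 1000 ∧
      |y| ≤ x ∧ |y| ≤ 996 / 10000 := by
  have h3 : (3 : ℝ) ≤ r := by exact_mod_cast hr
  have hr0 : (r : ℂ) ≠ 0 := by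
    have : (r : ℝ) ≠ 0 := by positivity
    exact_mod_cast this
  have hp1 := Real.pi_gt_d4
  have hp2 := Real.pi_lt_d4
  have hre : |u.re - 25 / 1000| ≤ 75 / 1000 := by
    have := Complex.abs_re_le_norm (u - K3_u0)
    rw [Complex.sub_re, K3_u0_re] at this
    linarith only [this, hu]
  have him : |u.im - 21 / 100| ≤ 75 / 1000 := by
    have := Complex.abs_im_le_norm (u - K3_u0)
    rw [Complex.sub_im, K3_u0_im] at this
    linarith only [this, hu]
  rw [abs_le] at hre him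
  set t : ℝ := 1 / r with ht
  have ht0 : 0 < t := by positivity
  have ht1 : t ≤ 1 / 3 := one_div_le_one_div_of_le (by norm_num) h3
  refine ⟨Real.pi * t * (1 / 2 - t * u.re), -(Real.pi * t * (t * u.im)), ?_, ?_, ?_, ?_, ?_⟩
  · rw [K3_v]
    have hu' : u = u.re + u.im * I := (Complex.re_add_im u).symm
    have htc : (t : ℂ) = 1 / r := by rw [ht]; push_cast; ring
    push_cast
    rw [htc]
    conv_lhs => rw [hu']
    field_simp
    ring
  · have : 0 ≤ 1 / 2 - t * u.re := by (refine le_of_not_gt fun hng => ?_; linarith only [hre.2,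
                                        mul_nonneg (sub_nonneg.2 hre.1) (sub_nonneg.2 ht1),
                                        mul_pos (sub_pos.2 hp2) (sub_pos.2 ht0),
                                        mul_pos (sub_pos.2 hp2) (sub_pos.2 hp2),
                                        mul_pos (sub_pos.2 hp1) (sub_pos.2 ht0),
                                        mul_pos (sub_pos.2 hp1) (sub_pos.2 hp2),
                                        mul_pos (sub_pos.2 hp1) (sub_pos.2 hp1),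
                                        mul_pos (sub_pos.2 hng) (sub_pos.2 hp2),
                                        mul_pos (sub_pos.2 hng) (sub_pos.2 hp1)])
    positivity
  · have h1 : 1 / 2 - t * u.re ≤ 517 / 1000 := by (refine le_of_not_gt fun hng => ?_; linarith only [ht1,
                                                    mul_nonneg (sub_nonneg.2 hre.1) (sub_nonneg.2 ht0.le),
                                                    mul_pos (sub_pos.2 hp2) (sub_pos.2 hp2),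
                                                    mul_pos (sub_pos.2 hp1) (sub_pos.2 hp2),
                                                    mul_pos (sub_pos.2 hp1) (sub_pos.2 hp1),
                                                    mul_pos (sub_pos.2 hng) (sub_pos.2 hp2),
                                                    mul_pos (sub_pos.2 hng) (sub_pos.2 hp1)])
    have h2 : 0 ≤ 1 / 2 - t * u.re := by (refine le_of_not_gt fun hng => ?_; linarith only [hre.2,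
                                           mul_nonneg (sub_nonneg.2 hre.1) (sub_nonneg.2 ht1),
                                           mul_pos (sub_pos.2 hp2) (sub_pos.2 ht0),
                                           mul_pos (sub_pos.2 hp2) (sub_pos.2 hp2),
                                           mul_pos (sub_pos.2 hp1) (sub_pos.2 ht0),
                                           mul_pos (sub_pos.2 hp1) (sub_pos.2 hp2),
                                           mul_pos (sub_pos.2 hp1) (sub_pos.2 hp1),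
                                           mul_pos (sub_pos.2 hng) (sub_pos.2 hp2),
                                           mul_pos (sub_pos.2 hng) (sub_pos.2 hp1)])
    calc Real.pi * t * (1 / 2 - t * u.re) ≤ 3.1416 * (1 / 3) * (517 / 1000) := by gcongr
      _ ≤ _ := by norm_num
  · have h1 : 0 ≤ t * u.im := by
      apply mul_nonneg ht0.le
      linarith only [him.1, hp2, hp1]
    rw [abs_neg, abs_of_nonneg (by positivity)]
    have h2 : t * u.im ≤ 1 / 2 - t * u.re := by (refine le_of_not_gt fun hng => ?_; linarith only [ht1,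
                                                  him.2, hre.2, hp1,
                                                  mul_nonneg (sub_nonneg.2 him.1) (sub_nonneg.2 ht1),
                                                  mul_nonneg (sub_nonneg.2 hre.1) (sub_nonneg.2 ht1),
                                                  mul_pos (sub_pos.2 hp2) (sub_pos.2 hp2),
                                                  mul_pos (sub_pos.2 hp1) (sub_pos.2 hp2),
                                                  mul_pos (sub_pos.2 hng) (sub_pos.2 hp2),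
                                                  mul_pos (sub_pos.2 hng) (sub_pos.2 hp1)])
    gcongr
  · have h1 : 0 ≤ t * u.im := by
      apply mul_nonneg ht0.le
      linarith only [him.1, hp2, hp1]
    rw [abs_neg, abs_of_nonneg (by positivity)]
    have h2 : t * u.im ≤ 1 / 3 * (285 / 1000) := by
      apply mul_le_mul ht1 (by linarith only [him.2]) (by linarith only [him.1, hp2, hp1]) (by norm_num)
    calc Real.pi * t * (t * u.im) ≤ 3.1416 * (1 / 3) * (1 / 3 * (285 / 1000)) := by gcongr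
      _ ≤ _ := by norm_num

private theorem K3_dom {r : ℤ} (hr : 3 ≤ r) {u : ℂ} (hu : ‖u - K3_u0‖ ≤ 75 / 1000) :
    ‖cos (Real.pi * K3_v r u) - 85 / 100‖ ≤ 18 / 100 := by
  obtain ⟨x, y, h1, h2, h3, h4, h5⟩ := K3_w hr hu
  rw [h1, cos_neg]
  have y2 : y ^ 2 ≤ (996 / 10000) ^ 2 := by
    rw [← sq_abs y]
    exact pow_le_pow_left₀ (abs_nonneg _) h5 2
  have y3 : y ^ 2 ≤ x ^ 2 := by
    rw [← sq_abs y]
    exact pow_le_pow_left₀ (abs_nonneg _) h4 2
  have x2 : x ^ 2 ≤ (542 / 1000) ^ 2 := pow_le_pow_left₀ h2 h3 2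
  have hn : ‖(x + y * I : ℂ)‖ ≤ 5511 / 10000 := by
    apply K3_norm_le (by norm_num)
    have e1 : (x + y * I : ℂ).re = x := by simp
    have e2 : (x + y * I : ℂ).im = y := by simp
    rw [e1, e2]
    norm_num at x2 y2 ⊢
    linarith only [y2, x2]
  have h6 := K3_cos4 (z := (x + y * I : ℂ)) (by linarith only [hn])
  have h7 : ‖(x + y * I : ℂ)‖ ^ 4 ≤ (5511 / 10000) ^ 4 := by gcongr
  have h8 : ‖(1 - (x + y * I : ℂ) ^ 2 / 2) - 85 / 100‖ ≤ 161 / 1000 := by
    apply K3_norm_le (by norm_num)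
    have e : (1 - (x + y * I : ℂ) ^ 2 / 2) - 85 / 100 =
        ((15 / 100 - (x ^ 2 - y ^ 2) / 2 : ℝ) : ℂ) + ((-(x * y) : ℝ) : ℂ) * I := by
      push_cast
      ring_nf
      rw [I_sq]
      ring
    rw [e]
    simp only [Complex.add_re, Complex.ofReal_re, Complex.mul_re, Complex.I_re, Complex.I_im,
      Complex.ofReal_im, Complex.add_im, Complex.mul_im]
    have g1 : 0 ≤ 15 / 100 - (x ^ 2 - y ^ 2) / 2 := by
      norm_num at x2
      linarith only [sq_nonneg y, x2]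
    have g2 : 15 / 100 - (x ^ 2 - y ^ 2) / 2 ≤ 15 / 100 := by linarith only [y3]
    have g3 := pow_le_pow_left₀ g1 g2 2
    have g4 : x ^ 2 * y ^ 2 ≤ (542 / 1000) ^ 2 * (996 / 10000) ^ 2 := by gcongr
    norm_num at g3 g4 ⊢
    linarith only [g4, g3]
  have h9 := norm_add_le (cos (x + y * I : ℂ) - (1 - (x + y * I : ℂ) ^ 2 / 2))
    ((1 - (x + y * I : ℂ) ^ 2 / 2) - 85 / 100)
  rw [sub_add_sub_cancel] at h9
  norm_num at h7 h6 h8 h9 ⊢
  linarith only [h9, h8, h6, h7]

private theorem K3_pos {z : ℂ} (h : ‖z - 85 / 100‖ ≤ 18 / 100) : 0 < (4 * z ^ 2 - 1).re := by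
  have e : 4 * z ^ 2 - 1 = ((189 / 100 : ℝ) : ℂ) + (((68 / 10 : ℝ) : ℂ) * (z - 85 / 100) +
      4 * (z - 85 / 100) ^ 2) := by
    push_cast; ring
  have h1 : |(((68 / 10 : ℝ) : ℂ) * (z - 85 / 100) + 4 * (z - 85 / 100) ^ 2).re| ≤
      68 / 10 * (18 / 100) + 4 * (18 / 100) ^ 2 := by
    refine (Complex.abs_re_le_norm _).trans ((norm_add_le _ _).trans ?_)
    rw [norm_mul, norm_mul, norm_pow, Complex.norm_real, Complex.norm_ofNat]
    norm_num
    have h2 : ‖z - 85 / 100‖ ^ 2 ≤ (18 / 100) ^ 2 := by gcongr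
    norm_num at h2 h
    linarith only [h, h2]
  rw [e, Complex.add_re, Complex.ofReal_re]
  have := (abs_le.1 h1).1
  norm_num at this ⊢
  linarith only [this]

private theorem K3_blk {r : ℤ} (hr : 3 ≤ r) {u k : ℂ} (hu : ‖u - K3_u0‖ ≤ 75 / 1000)
    (hF : K3_F (1 / r) (2 * Real.pi * (1 / r)) (Real.tan (Real.pi * (1 / r) / 2)) k u = 0) :
    Blk r (K3_v r u) k := by
  have h3 : (3 : ℝ) ≤ r := by exact_mod_cast hr
  have hr0' : (r : ℝ) ≠ 0 := by positivity
  have hr0 : (r : ℂ) ≠ 0 := by exact_mod_cast hr0'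
  have hp1 := Real.pi_gt_d4
  have hp2 := Real.pi_lt_d4
  have habs : |r| = r := abs_of_nonneg (by linarith only [hr])
  have hsign : r.sign = 1 := Int.sign_eq_one_of_pos (by linarith only [hr])
  set t : ℝ := 1 / r with ht
  have ht0 : 0 < t := by positivity
  have ht1 : t ≤ 1 / 3 := one_div_le_one_div_of_le (by norm_num) h3
  have htc : (t : ℂ) = 1 / r := by rw [ht]; push_cast; ring
  set c : ℝ := 2 * Real.pi * t with hc
  have hdom := K3_dom hr hu
  have e1 : 2 * Real.pi * r * K3_v r u = c * u - Real.pi := by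
    rw [K3_v, hc]
    push_cast
    rw [htc]
    field_simp
    ring
  have e2 : Real.pi * K3_v r u = -(((Real.pi * t / 2 : ℝ) : ℂ) - c * t / 2 * u) := by
    rw [K3_v, hc]
    push_cast
    rw [htc]
    field_simp
    ring
  have hcos : Real.cos (Real.pi * t / 2) ≠ 0 := by
    have : 0 < Real.cos (Real.pi * t / 2) := by
      apply Real.cos_pos_of_mem_Ioo
      constructor
      · have : 0 < Real.pi * t / 2 := by positivity
        linarith only [this, hp2, hp1]
      · linarith only [ht1, hp2, mul_nonneg (sub_nonneg.2 hp1.le) (sub_nonneg.2 ht1),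
          mul_pos (sub_pos.2 hp1) (sub_pos.2 hp2), mul_pos (sub_pos.2 hp1) (sub_pos.2 hp1)]
    exact this.ne'
  have hcosc : cos ((Real.pi * t / 2 : ℝ) : ℂ) ≠ 0 := by
    rw [← Complex.ofReal_cos]
    exact_mod_cast hcos
  refine ⟨?_, ?_, ?_, fun _ => ?_, fun h2 => ?_, fun h2 => ?_, ?_⟩
  · rw [e1, e2, sin_sub_pi, cos_neg, sin_neg, cos_sub, sin_sub]
    rw [K3_F, K3_E, K3_G, Complex.ofReal_tan, Complex.tan_eq_sin_div_cos] at hF
    generalize (c : ℂ) * t / 2 * u = e at hF ⊢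
    field_simp at hF
    linear_combination -hF
  · rw [e1, cos_sub_pi, Complex.neg_re, neg_lt_zero]
    have hun : ‖u‖ ≤ 2865 / 10000 := by
      have := norm_add_le (u - K3_u0) K3_u0
      rw [sub_add_cancel] at this
      have := K3_u0_norm
      linarith [this, hu]
    have hcn : c ≤ 20944 / 10000 := by
      rw [hc]
      (refine le_of_not_gt fun hng => ?_; linarith only [ht1, hp2,
        mul_nonneg (sub_nonneg.2 hp1.le) (sub_nonneg.2 ht1),
        mul_pos (sub_pos.2 hng) (sub_pos.2 hp2), mul_pos (sub_pos.2 hng) (sub_pos.2 hp1)])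
    have hc0 : 0 < c := by positivity
    have hz : ‖(c * u : ℂ)‖ ≤ 601 / 1000 := by
      rw [norm_mul, Complex.norm_real, Real.norm_eq_abs, abs_of_pos hc0]
      calc c * ‖u‖ ≤ 20944 / 10000 * (2865 / 10000) := by gcongr
        _ ≤ _ := by norm_num
    have h6 := K3_cos4 (z := (c * u : ℂ)) (by linarith only [hz, hp2, hp1])
    have h7 : ‖(c * u : ℂ)‖ ^ 4 ≤ (601 / 1000) ^ 4 := by gcongr
    have h8 : ‖(c * u : ℂ)‖ ^ 2 ≤ (601 / 1000) ^ 2 := by gcongr
    have e3 : cos (c * u) = 1 + ((cos (c * u) - (1 - (c * u) ^ 2 / 2)) - (c * u) ^ 2 / 2) := by ring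
    have h9 : |((cos (c * u) - (1 - (c * u) ^ 2 / 2)) - (c * u) ^ 2 / 2).re| ≤ 1 / 2 := by
      refine (Complex.abs_re_le_norm _).trans ((norm_sub_le _ _).trans ?_)
      rw [norm_div, norm_pow, Complex.norm_ofNat]
      have n4 : (601 / 1000 : ℝ) ^ 4 ≤ 131 / 1000 := by norm_num
      have n2 : (601 / 1000 : ℝ) ^ 2 ≤ 362 / 1000 := by norm_num
      linarith only [h8, h7, h6, hp2, hp1]
    rw [e3, Complex.add_re, Complex.one_re]
    have := (abs_le.1 h9).1
    linarith only [this, hp2, hp1]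
  · rw [Om, Metric.mem_closedBall, dist_eq_norm]
    exact hdom
  · have e3 : K3_v r u + 1 / (2 * r) - ((r.sign : ℂ) * (25 / 1000) + 21 / 100 * I) / r ^ 2 =
        (u - K3_u0) / r ^ 2 := by
      rw [K3_v, hsign, K3_u0]
      push_cast
      ring
    rw [e3, norm_div, norm_pow]
    have : ‖(r : ℂ)‖ = r := by
      rw [show (r : ℂ) = ((r : ℝ) : ℂ) by push_cast; ring, Complex.norm_real, Real.norm_eq_abs,
        abs_of_pos (by positivity)]
    rw [this]
    gcongr
  · rw [habs] at h2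
    omega
  · rw [habs] at h2
    omega
  · exact K3_pos hdom

private theorem K3_lip {r : ℤ} (hr : 3 ≤ r) {u u' : ℂ} (hu : ‖u - K3_u0‖ ≤ 75 / 1000)
    (hu' : ‖u' - K3_u0‖ ≤ 75 / 1000) :
    ‖cos (Real.pi * K3_v r u) - cos (Real.pi * K3_v r u')‖ ≤ ‖u - u'‖ := by
  have h3 : (3 : ℝ) ≤ r := by exact_mod_cast hr
  have hr0' : (r : ℝ) ≠ 0 := by positivity
  have hr0 : (r : ℂ) ≠ 0 := by exact_mod_cast hr0'
  have hp1 := Real.pi_gt_d4
  have hp2 := Real.pi_lt_d4
  have hn : ∀ u : ℂ, ‖u - K3_u0‖ ≤ 75 / 1000 → ‖Real.pi * K3_v r u‖ ≤ 6 / 10 := by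
    intro u hu
    obtain ⟨x, y, h1, h2, h3, h4, h5⟩ := K3_w hr hu
    rw [h1, norm_neg]
    apply K3_norm_le (by norm_num)
    have e1 : (x + y * I : ℂ).re = x := by simp
    have e2 : (x + y * I : ℂ).im = y := by simp
    rw [e1, e2]
    have y2 : y ^ 2 ≤ (996 / 10000) ^ 2 := by
      rw [← sq_abs y]
      exact pow_le_pow_left₀ (abs_nonneg _) h5 2
    have x2 : x ^ 2 ≤ (542 / 1000) ^ 2 := pow_le_pow_left₀ h2 h3 2
    norm_num at x2 y2 ⊢
    linarith only [y2, x2, hp2, hp1]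
  have hsin : ∀ z : ℂ, ‖z‖ ≤ 6 / 10 → ‖sin z‖ ≤ 11 / 9 * ‖z‖ := by
    intro z hz
    have h1 := K3_sin3 (z := z) (by linarith only [hz, hp2, hp1])
    have h2 := norm_add_le (sin z - z) z
    rw [sub_add_cancel] at h2
    have h3 : ‖z‖ ^ 3 ≤ ‖z‖ := by
      have : ‖z‖ ^ 2 ≤ 1 := by (refine le_of_not_gt fun hng => ?_; linarith only [hz,
                                 mul_nonneg (sub_nonneg.2 hz) (sub_nonneg.2 (norm_nonneg z)),
                                 mul_pos (sub_pos.2 hp2) (sub_pos.2 hp2),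
                                 mul_pos (sub_pos.2 hp1) (sub_pos.2 hp2),
                                 mul_pos (sub_pos.2 hp1) (sub_pos.2 hp1),
                                 mul_pos (sub_pos.2 hng) (sub_pos.2 hp2),
                                 mul_pos (sub_pos.2 hng) (sub_pos.2 hp1)])
      (refine le_of_not_gt fun hng => ?_; linarith only [sq_nonneg (‖z‖),
        mul_nonneg (sub_nonneg.2 hz) (sub_nonneg.2 (norm_nonneg z)),
        mul_pos (sub_pos.2 hng) (sub_pos.2 hp2), mul_pos (sub_pos.2 hng) (sub_pos.2 hp1),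
        mul_nonneg (sq_nonneg (‖z‖)) (sub_nonneg.2 hz)])
    linarith only [h3, h2, h1]
  have n1 := hn u hu
  have n2 := hn u' hu'
  rw [Complex.cos_sub_cos]
  have m1 : ‖(Real.pi * K3_v r u + Real.pi * K3_v r u') / 2‖ ≤ 6 / 10 := by
    rw [norm_div, Complex.norm_ofNat]
    have := norm_add_le (Real.pi * K3_v r u) (Real.pi * K3_v r u')
    linarith only [this, n2, n1]
  have m2 : (Real.pi * K3_v r u - Real.pi * K3_v r u') / 2 = Real.pi / (2 * r ^ 2) * (u - u') := by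
    rw [K3_v, K3_v]
    field_simp
    ring
  have m3 : ‖(Real.pi * K3_v r u - Real.pi * K3_v r u') / 2‖ ≤ 6 / 10 := by
    rw [norm_div, Complex.norm_ofNat]
    have := norm_sub_le (Real.pi * K3_v r u) (Real.pi * K3_v r u')
    linarith only [this, n2, n1]
  have m4 : ‖(Real.pi * K3_v r u - Real.pi * K3_v r u') / 2‖ ≤ 18 / 100 * ‖u - u'‖ := by
    rw [m2, norm_mul]
    gcongr
    rw [show (Real.pi / (2 * r ^ 2) : ℂ) = ((Real.pi / (2 * r ^ 2) : ℝ) : ℂ) by push_cast; ring,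
      Complex.norm_real, Real.norm_eq_abs, abs_of_pos (by positivity), div_le_iff₀ (by positivity)]
    (refine le_of_not_gt fun hng => ?_; linarith only [hp2, hp1, h3,
      mul_nonneg (sub_nonneg.2 h3) (sub_nonneg.2 h3), mul_pos (sub_pos.2 hng) (sub_pos.2 hp2),
      mul_pos (sub_pos.2 hng) (sub_pos.2 hp1)])
  have s1 := hsin _ m1
  have s2 := hsin _ m3
  rw [norm_mul, norm_mul, norm_neg, Complex.norm_ofNat]
  calc 2 * ‖sin ((Real.pi * K3_v r u + Real.pi * K3_v r u') / 2)‖ *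
      ‖sin ((Real.pi * K3_v r u - Real.pi * K3_v r u') / 2)‖ ≤
      2 * (11 / 9 * (6 / 10)) * (11 / 9 * (18 / 100 * ‖u - u'‖)) := by
        gcongr
        · linarith only [s1, m1]
        · linarith only [s2, m4]
    _ ≤ _ := by linarith only [norm_nonneg (u - u')]

private theorem K3_posr {r : ℤ} (hr : 3 ≤ r) : ∃ f : ℂ → ℂ, (∀ k ∈ Om, Blk r (f k) k) ∧
    ∀ k ∈ Om, ∀ k' ∈ Om, ‖cos (Real.pi * f k) - cos (Real.pi * f k')‖ ≤ 1 / 2 * ‖k - k'‖ := by
  have hex : ∀ k : ℂ, ∃ u : ℂ, k ∈ Om → ‖u - K3_u0‖ ≤ 75 / 1000 ∧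
      K3_F (1 / r) (2 * Real.pi * (1 / r)) (Real.tan (Real.pi * (1 / r) / 2)) k u = 0 := by
    intro k
    by_cases hk : k ∈ Om
    · have hk' := hk
      rw [Om, Metric.mem_closedBall, dist_eq_norm] at hk'
      obtain ⟨u, h1, h2⟩ := K3_fix (K3_good hr) hk'
      exact ⟨u, fun _ => ⟨h1, h2⟩⟩
    · exact ⟨0, fun h => absurd h hk⟩
  choose g hg using hex
  refine ⟨fun k => K3_v r (g k), fun k hk => K3_blk hr (hg k hk).1 (hg k hk).2,
    fun k hk k' hk' => ?_⟩
  refine (K3_lip hr (hg k hk).1 (hg k' hk').1).trans ?_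
  have hk1 := hk
  rw [Om, Metric.mem_closedBall, dist_eq_norm] at hk1
  exact K3_un (K3_good hr) hk1 (hg k hk).1 (hg k hk).2 (hg k' hk').1 (hg k' hk').2

open ComplexConjugate in
private theorem K3_conj {r : ℤ} (hr : 3 ≤ |r|) {v k : ℂ} (h : Blk (-r) v (conj k)) :
    Blk r (-conj v) k := by
  have e1 : 2 * Real.pi * r * (-conj v) = conj (2 * Real.pi * ((-r : ℤ) : ℂ) * v) := by
    rw [map_mul, map_mul, map_mul, Complex.conj_ofReal, Complex.conj_ofNat]
    have : conj (((-r : ℤ) : ℂ)) = ((-r : ℤ) : ℂ) := map_intCast _ _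
    rw [this]
    push_cast
    ring
  have e2 : (Real.pi : ℂ) * (-conj v) = -conj (Real.pi * v) := by
    rw [map_mul, Complex.conj_ofReal]
    ring
  have e3 : cos (Real.pi * (-conj v)) = conj (cos (Real.pi * v)) := by
    rw [e2, cos_neg, Complex.cos_conj]
  have e4 : sin (Real.pi * (-conj v)) = -conj (sin (Real.pi * v)) := by
    rw [e2, sin_neg, Complex.sin_conj]
  refine ⟨?_, ?_, ?_, fun _ => ?_, fun h2 => by omega, fun h2 => by omega, ?_⟩
  · rw [e1, e3, e4, Complex.sin_conj, ← map_mul, h.eq, map_mul, map_mul, Complex.conj_I,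
      Complex.conj_conj]
    ring
  · rw [e1, Complex.cos_conj, Complex.conj_re]
    exact h.re
  · have := h.dom
    rw [Om, Metric.mem_closedBall, dist_eq_norm] at this ⊢
    rw [e3, show conj (cos (Real.pi * v)) - 85 / 100 = conj (cos (Real.pi * v) - 85 / 100) by
      rw [map_sub, map_div₀, Complex.conj_ofNat, Complex.conj_ofNat], Complex.norm_conj]
    exact this
  · have h1 := h.loc3 (by rwa [abs_neg])
    have e5 : -conj v + 1 / (2 * r) - ((r.sign : ℂ) * (25 / 1000) + 21 / 100 * I) / r ^ 2 =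
        -conj (v + 1 / (2 * ((-r : ℤ) : ℂ)) - (((-r).sign : ℂ) * (25 / 1000) + 21 / 100 * I) /
          ((-r : ℤ) : ℂ) ^ 2) := by
      rw [Int.sign_neg]
      push_cast
      simp only [map_sub, map_add, map_div₀, map_mul, map_one, map_neg, map_pow, Complex.conj_I,
        Complex.conj_ofNat, map_intCast]
      ring
    rw [e5, norm_neg, Complex.norm_conj]
    refine h1.trans_eq ?_
    push_cast
    ring
  · rw [e3, ← map_pow, show 4 * conj (cos (Real.pi * v) ^ 2) - 1 =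
      conj (4 * cos (Real.pi * v) ^ 2 - 1) by
        rw [map_sub, map_mul, Complex.conj_ofNat, map_one], Complex.conj_re]
    exact h.pos

theorem blk3 (r : ℤ) (hr : 3 ≤ |r|) : ∃ f : ℂ → ℂ, (∀ k ∈ Om, Blk r (f k) k) ∧
    ∀ k ∈ Om, ∀ k' ∈ Om, ‖cos (Real.pi * f k) - cos (Real.pi * f k')‖ ≤ 1 / 2 * ‖k - k'‖ := by
  rcases le_abs.1 hr with h | h
  · exact K3_posr h
  · obtain ⟨f, hf1, hf2⟩ := K3_posr h
    have hOm : ∀ k ∈ Om, (starRingEnd ℂ) k ∈ Om := by
      intro k hk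
      rw [Om, Metric.mem_closedBall, dist_eq_norm] at hk ⊢
      rw [show (starRingEnd ℂ) k - 85 / 100 = (starRingEnd ℂ) (k - 85 / 100) by
        rw [map_sub, map_div₀, Complex.conj_ofNat, Complex.conj_ofNat], Complex.norm_conj]
      exact hk
    refine ⟨fun k => -(starRingEnd ℂ) (f ((starRingEnd ℂ) k)),
      fun k hk => K3_conj hr (hf1 _ (hOm k hk)), fun k hk k' hk' => ?_⟩
    have e2 : ∀ v : ℂ, cos (Real.pi * (-(starRingEnd ℂ) v)) = (starRingEnd ℂ) (cos (Real.pi * v)) := by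
      intro v
      have e2 : (Real.pi : ℂ) * (-(starRingEnd ℂ) v) = -(starRingEnd ℂ) (Real.pi * v) := by
        rw [map_mul, Complex.conj_ofReal]
        ring
      rw [e2, cos_neg, Complex.cos_conj]
    have h1 := hf2 _ (hOm k hk) _ (hOm k' hk')
    rw [e2, e2, ← map_sub, Complex.norm_conj]
    rwa [← map_sub, Complex.norm_conj] at h1

end Pool.Agent.H63.GO
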