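import Pool.Agent.H63.GO.K2
import Pool.Agent.H63.GO.K3

/-! # Existence of the pair -/

namespace Pool.Agent.H63.GO

open Complex Filter Topology Pool.Agent.H63.VC Pool.Agent.H63.VC3

private theorem KPair_blk (r : ℤ) (hr : 2 ≤ |r|) : ∃ f : ℂ → ℂ, (∀ k ∈ Om, Blk r (f k) k) ∧
    ∀ k ∈ Om, ∀ k' ∈ Om, ‖cos (Real.pi * f k) - cos (Real.pi * f k')‖ ≤ 1 / 2 * ‖k - k'‖ := by
  rcases hr.eq_or_lt with h | h
  · exact blk2 r h.symm
  · exact blk3 r (by omega)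

private theorem KPair_center : (85 / 100 : ℂ) ∈ Om :=
  Metric.mem_closedBall_self (by norm_num)

private theorem KPair_complete : IsComplete Om := Metric.isClosed_closedBall.isComplete

theorem pair_ex (r1 r2 : ℤ) (h1 : 2 ≤ |r1|) (h2 : 2 ≤ |r2|) : ∃ v w : ℂ,
    Blk r1 v (cos (Real.pi * w)) ∧ Blk r2 w (cos (Real.pi * v)) := by
  obtain ⟨f1, hf1, hl1⟩ := KPair_blk r1 h1
  obtain ⟨f2, hf2, hl2⟩ := KPair_blk r2 h2
  have hm2 : ∀ k ∈ Om, cos (Real.pi * f2 k) ∈ Om := fun k hk => (hf2 k hk).dom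
  have hm1 : ∀ k ∈ Om, cos (Real.pi * f1 k) ∈ Om := fun k hk => (hf1 k hk).dom
  set G : ℂ → ℂ := fun k => cos (Real.pi * f1 (cos (Real.pi * f2 k))) with hG
  have hmaps : Set.MapsTo G Om Om := fun k hk => hm1 _ (hm2 k hk)
  have hlip : ∀ k ∈ Om, ∀ k' ∈ Om, ‖G k - G k'‖ ≤ 1 / 2 * ‖k - k'‖ := by
    intro k hk k' hk'
    have h3 := hl1 _ (hm2 k hk) _ (hm2 k' hk')
    have h4 := hl2 k hk k' hk'
    have h5 := norm_nonneg (k - k')
    simp only [hG]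
    linarith
  have hcon : ContractingWith (1 / 2) (hmaps.restrict G Om Om) := by
    refine ⟨?_, LipschitzWith.of_dist_le_mul ?_⟩
    · rw [← NNReal.coe_lt_coe]
      norm_num
    · rintro ⟨k, hk⟩ ⟨k', hk'⟩
      rw [Subtype.dist_eq, Subtype.dist_eq, dist_eq_norm, dist_eq_norm]
      have := hlip k hk k' hk'
      simpa [Set.MapsTo.restrict] using this
  obtain ⟨k, hk, hfix, -⟩ := hcon.exists_fixedPoint' KPair_complete hmaps KPair_center
    (edist_ne_top _ _)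
  have hk1 : G k = k := hfix
  refine ⟨f1 (cos (Real.pi * f2 k)), f2 k, hf1 _ (hm2 k hk), ?_⟩
  have h6 := hf2 k hk
  have h7 : cos (Real.pi * f1 (cos (Real.pi * f2 k))) = k := hk1
  rw [h7]
  exact h6

end Pool.Agent.H63.GO
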