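import Pool.Agent.H63.GO.KLocA
import Pool.Agent.H63.GO.KLocB3
import Pool.Agent.H63.GO.KLocB4
import Pool.Agent.H63.GO.KLocC
import Pool.Agent.H63.GO.KLocL
import Pool.Agent.H63.GO.KLog
import Pool.Agent.H63.GO.KPair
import Pool.Agent.H63.GO.PSet

/-! # Existence and location of the critical point -/

namespace Pool.Agent.H63.GO

open Complex Filter Topology Pool.Agent.H63.VC Pool.Agent.H63.VC3

/-- Location of a block variable, `3 ≤ |r|`: real and imaginary part. -/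
private theorem KCrit_loc3 (r : ℤ) (hr : 3 ≤ |r|) (v k : ℂ) (hv : Blk r v k) :
    |v.re + 1 / (2 * (r : ℝ)) - (r.sign : ℝ) * (25 / 1000) / (r : ℝ) ^ 2| ≤
      75 / 1000 / (r : ℝ) ^ 2 ∧ |v.im - 21 / 100 / (r : ℝ) ^ 2| ≤ 75 / 1000 / (r : ℝ) ^ 2 := by
  have h := hv.loc3 hr
  have e : v + 1 / (2 * r) - ((r.sign : ℂ) * (25 / 1000) + 21 / 100 * I) / r ^ 2 =
      ((v.re + 1 / (2 * (r : ℝ)) - (r.sign : ℝ) * (25 / 1000) / (r : ℝ) ^ 2 : ℝ) : ℂ) +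
      ((v.im - 21 / 100 / (r : ℝ) ^ 2 : ℝ) : ℂ) * I := by
    conv_lhs => rw [← re_add_im v]
    push_cast
    ring
  rw [e] at h
  refine ⟨?_, ?_⟩
  · refine le_trans ?_ h
    have := abs_re_le_norm (((v.re + 1 / (2 * (r : ℝ)) - (r.sign : ℝ) * (25 / 1000) / (r : ℝ) ^ 2 : ℝ) : ℂ) +
      ((v.im - 21 / 100 / (r : ℝ) ^ 2 : ℝ) : ℂ) * I)
    simpa only [add_re, ofReal_re, mul_re, I_re, mul_zero, ofReal_im, I_im, mul_one, sub_self,
      add_zero] using this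
  · refine le_trans ?_ h
    have := abs_im_le_norm (((v.re + 1 / (2 * (r : ℝ)) - (r.sign : ℝ) * (25 / 1000) / (r : ℝ) ^ 2 : ℝ) : ℂ) +
      ((v.im - 21 / 100 / (r : ℝ) ^ 2 : ℝ) : ℂ) * I)
    simpa only [add_im, ofReal_re, mul_im, I_re, mul_zero, ofReal_im, I_im, mul_one, zero_add,
      add_zero] using this

/-- Bounds in terms of `t = 1 / |r|`. -/
private theorem KCrit_t (r : ℤ) (hr : 3 ≤ |r|) (v k : ℂ) (hv : Blk r v k) :
    ∃ t : ℝ, 0 < t ∧ t ≤ 1 / 3 ∧ t / 2 - t ^ 2 / 10 ≤ |v.re| ∧ |v.re| ≤ t / 2 + t ^ 2 / 20 ∧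
      135 / 1000 * t ^ 2 ≤ v.im ∧ v.im ≤ 285 / 1000 * t ^ 2 := by
  obtain ⟨h1, h2⟩ := KCrit_loc3 r hr v k hv
  have hr' : (3 : ℝ) ≤ |(r : ℝ)| := by exact_mod_cast hr
  have ht2 : (|(r : ℝ)|⁻¹) ^ 2 = 1 / (r : ℝ) ^ 2 := by
    rw [inv_pow, sq_abs, one_div]
  have ht3 : |(r : ℝ)|⁻¹ ≤ 1 / 3 := by
    rw [one_div]
    exact inv_anti₀ (by norm_num) hr'
  have ht0 : 0 < |(r : ℝ)|⁻¹ := inv_pos.2 (by linarith)
  refine ⟨|(r : ℝ)|⁻¹, ht0, ht3, ?_⟩
  have k1 : 75 / 1000 / (r : ℝ) ^ 2 = 75 / 1000 * (|(r : ℝ)|⁻¹) ^ 2 := by rw [ht2]; ring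
  have k2 : 21 / 100 / (r : ℝ) ^ 2 = 21 / 100 * (|(r : ℝ)|⁻¹) ^ 2 := by rw [ht2]; ring
  rw [k1, k2] at h2
  rw [k1] at h1
  have h2' := abs_le.1 h2
  have ht2' : (|(r : ℝ)|⁻¹) ^ 2 ≤ 1 / 3 * |(r : ℝ)|⁻¹ := by nlinarith
  rcases lt_or_ge r 0 with hneg | hpos
  · have hs : (r.sign : ℝ) = -1 := by rw [Int.sign_eq_neg_one_of_neg hneg]; norm_num
    have hrr : (r : ℝ) < 0 := by exact_mod_cast hneg
    have k3 : 1 / (2 * (r : ℝ)) = -(|(r : ℝ)|⁻¹ / 2) := by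
      rw [abs_of_neg hrr, inv_neg]
      field_simp
    have k4 : (r.sign : ℝ) * (25 / 1000) / (r : ℝ) ^ 2 = -(25 / 1000 * (|(r : ℝ)|⁻¹) ^ 2) := by
      rw [ht2, hs]; ring
    rw [k3, k4] at h1
    have h1' := abs_le.1 h1
    generalize |(r : ℝ)|⁻¹ = t at *
    have hv0 : 0 ≤ v.re := by nlinarith [h1'.1]
    rw [abs_of_nonneg hv0]
    refine ⟨by linarith [h1'.1], by linarith [h1'.2], by linarith [h2'.1], by linarith [h2'.2]⟩
  · have hpos' : 0 < r := by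
      rcases hpos.lt_or_eq with h | h
      · exact h
      · rw [← h] at hr; norm_num at hr
    have hs : (r.sign : ℝ) = 1 := by rw [Int.sign_eq_one_of_pos hpos']; norm_num
    have hrr : 0 < (r : ℝ) := by exact_mod_cast hpos'
    have k3 : 1 / (2 * (r : ℝ)) = |(r : ℝ)|⁻¹ / 2 := by
      rw [abs_of_pos hrr]
      field_simp
    have k4 : (r.sign : ℝ) * (25 / 1000) / (r : ℝ) ^ 2 = 25 / 1000 * (|(r : ℝ)|⁻¹) ^ 2 := by
      rw [ht2, hs]; ring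
    rw [k3, k4] at h1
    have h1' := abs_le.1 h1
    generalize |(r : ℝ)|⁻¹ = t at *
    have hv0 : v.re ≤ 0 := by nlinarith [h1'.2]
    rw [abs_of_nonpos hv0]
    refine ⟨by linarith [h1'.2], by linarith [h1'.1], by linarith [h2'.1], by linarith [h2'.2]⟩

private theorem KCrit_cosre (v : ℂ) : (cos (Real.pi * v)).re =
    Real.cos (Real.pi * v.re) * Real.cosh (Real.pi * v.im) := by
  have : (Real.pi : ℂ) * v = ((Real.pi * v.re : ℝ) : ℂ) + ((Real.pi * v.im : ℝ) : ℂ) * I := by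
    conv_lhs => rw [← re_add_im v]
    push_cast
    ring
  rw [this, Complex.cos_add_mul_I, ← Complex.ofReal_cos, ← Complex.ofReal_cosh,
    ← Complex.ofReal_sin, ← Complex.ofReal_sinh, ← Complex.ofReal_mul, ← Complex.ofReal_mul]
  simp only [sub_re, ofReal_re, mul_re, I_re, mul_zero, ofReal_im, I_im, mul_one, sub_self,
    sub_zero]

/-- `3 ≤ |r|`: the cosine of the block variable has real part at most `1`. -/
private theorem KCrit_c3 (r : ℤ) (hr : 3 ≤ |r|) (v k : ℂ) (hv : Blk r v k) :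
    (cos (Real.pi * v)).re ≤ 1001 / 1000 := by
  obtain ⟨t, t0, t1, a1, a2, b1, b2⟩ := KCrit_t r hr v k hv
  rw [KCrit_cosre]
  have hp := Real.pi_pos
  have hp2 := Real.pi_lt_d2
  have hre : 0 < |v.re| := lt_of_lt_of_le (by nlinarith) a1
  have hx0 : Real.pi * v.re ≠ 0 := mul_ne_zero hp.ne' (abs_pos.1 hre)
  have hxabs : |Real.pi * v.re| ≤ 3 * Real.pi / 2 := by
    rw [abs_mul, abs_of_pos hp]
    have : |v.re| ≤ 1 := by nlinarith
    nlinarith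
  have hx := abs_le.1 hxabs
  have hc := Real.cos_lt_one_div_sqrt_sq_add_one (x := Real.pi * v.re) (by linarith [hx.1])
    hx.2 hx0
  have hch := Real.cosh_le_exp_half_sq (Real.pi * v.im)
  have him : 0 ≤ v.im := le_trans (by positivity) b1
  -- exp (y²/2) ≤ sqrt (1 + x²)
  have hy : v.im ≤ 285 / 3000 * t := by nlinarith
  have hx1 : 46 / 100 * t ≤ |v.re| := by nlinarith
  have hxy : 2 * (Real.pi * v.im) ^ 2 ≤ (Real.pi * v.re) ^ 2 := by
    have e1 : v.im ^ 2 ≤ (285 / 3000 * t) ^ 2 := pow_le_pow_left₀ him hy 2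
    have e2 : (46 / 100 * t) ^ 2 ≤ v.re ^ 2 := by
      rw [← sq_abs v.re]
      exact pow_le_pow_left₀ (by positivity) hx1 2
    have e3 : 2 * v.im ^ 2 ≤ v.re ^ 2 := by nlinarith [sq_nonneg t]
    nlinarith [sq_nonneg Real.pi, mul_le_mul_of_nonneg_left e3 (sq_nonneg Real.pi)]
  have hysm : (Real.pi * v.im) ^ 2 ≤ 1 := by
    have e1 : Real.pi * v.im ≤ 1 := by nlinarith
    have e2 : 0 ≤ Real.pi * v.im := by positivity
    nlinarith
  have hexp : Real.exp ((Real.pi * v.im) ^ 2) ≤ 1 + (Real.pi * v.re) ^ 2 := by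
    have e2 : Real.exp ((Real.pi * v.im) ^ 2) ≤ 1 + 2 * (Real.pi * v.im) ^ 2 := by
      have h0 : 0 ≤ (Real.pi * v.im) ^ 2 := sq_nonneg _
      have hle : (Real.pi * v.im) ^ 2 ≤ 1 / 2 := by
        have e1 : Real.pi * v.im ≤ 1 / 2 := by nlinarith
        have e2 : 0 ≤ Real.pi * v.im := by positivity
        nlinarith
      have h3 := Real.exp_bound_div_one_sub_of_interval h0 (by linarith)
      refine h3.trans ?_
      rw [div_le_iff₀ (by linarith)]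
      nlinarith
    linarith
  have hsq : Real.exp ((Real.pi * v.im) ^ 2 / 2) ≤ Real.sqrt ((Real.pi * v.re) ^ 2 + 1) := by
    apply Real.le_sqrt_of_sq_le
    rw [← Real.exp_nat_mul]
    have : ((2 : ℕ) : ℝ) * ((Real.pi * v.im) ^ 2 / 2) = (Real.pi * v.im) ^ 2 := by
      push_cast; ring
    rw [this]
    linarith
  have hs0 : 0 < Real.sqrt ((Real.pi * v.re) ^ 2 + 1) := Real.sqrt_pos.2 (by positivity)
  have hcosh0 : 0 < Real.cosh (Real.pi * v.im) := Real.cosh_pos _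
  calc Real.cos (Real.pi * v.re) * Real.cosh (Real.pi * v.im)
      ≤ (1 / Real.sqrt ((Real.pi * v.re) ^ 2 + 1)) * Real.sqrt ((Real.pi * v.re) ^ 2 + 1) := by
        apply mul_le_mul hc.le (hch.trans hsq) hcosh0.le (by positivity)
    _ = 1 := by field_simp
    _ ≤ 1001 / 1000 := by norm_num

/-- Location of a block variable, `|r| = 2`: real and imaginary part. -/
private theorem KCrit_loc2 (r : ℤ) (hr : |r| = 2) (v k : ℂ) (hv : Blk r v k) :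
    2185 / 10000 ≤ |v.re| ∧ |v.re| ≤ 2485 / 10000 ∧ 397 / 10000 ≤ v.im ∧ v.im ≤ 697 / 10000 := by
  have h := hv.loc2 hr
  have e : v + (r / 2 : ℂ) * (2335 / 10000) - 547 / 10000 * I =
      ((v.re + (r / 2 : ℝ) * (2335 / 10000) : ℝ) : ℂ) + ((v.im - 547 / 10000 : ℝ) : ℂ) * I := by
    conv_lhs => rw [← re_add_im v]
    push_cast
    ring
  rw [e] at h
  have h1 : |v.re + (r / 2 : ℝ) * (2335 / 10000)| ≤ 15 / 1000 := by
    refine le_trans ?_ h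
    have := abs_re_le_norm (((v.re + (r / 2 : ℝ) * (2335 / 10000) : ℝ) : ℂ) +
      ((v.im - 547 / 10000 : ℝ) : ℂ) * I)
    simpa only [add_re, ofReal_re, mul_re, I_re, mul_zero, ofReal_im, I_im, mul_one, sub_self,
      add_zero] using this
  have h2 : |v.im - 547 / 10000| ≤ 15 / 1000 := by
    refine le_trans ?_ h
    have := abs_im_le_norm (((v.re + (r / 2 : ℝ) * (2335 / 10000) : ℝ) : ℂ) +
      ((v.im - 547 / 10000 : ℝ) : ℂ) * I)
    simpa only [add_im, ofReal_re, mul_im, I_re, mul_zero, ofReal_im, I_im, mul_one, zero_add,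
      add_zero] using this
  have h1' := abs_le.1 h1
  have h2' := abs_le.1 h2
  rcases (abs_eq (by norm_num : (0 : ℤ) ≤ 2)).1 hr with h3 | h3
  · rw [h3] at h1'
    norm_num at h1'
    have hv0 : v.re ≤ 0 := by linarith [h1'.2]
    rw [abs_of_nonpos hv0]
    refine ⟨by linarith [h1'.2], by linarith [h1'.1], by linarith [h2'.1], by linarith [h2'.2]⟩
  · rw [h3] at h1'
    norm_num at h1'
    have hv0 : 0 ≤ v.re := by linarith [h1'.1]
    rw [abs_of_nonneg hv0]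
    refine ⟨by linarith [h1'.1], by linarith [h1'.2], by linarith [h2'.1], by linarith [h2'.2]⟩

/-- `|r| = 2`: the cosine of the block variable has real part at most `.8`. -/
private theorem KCrit_c2 (r : ℤ) (hr : |r| = 2) (v k : ℂ) (hv : Blk r v k) :
    (cos (Real.pi * v)).re ≤ 80 / 100 := by
  obtain ⟨a1, a2, b1, b2⟩ := KCrit_loc2 r hr v k hv
  rw [KCrit_cosre]
  have hp1 := Real.pi_gt_d4
  have hp2 := Real.pi_lt_d4
  have hp := Real.pi_pos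
  have hx1 : 686 / 1000 ≤ |Real.pi * v.re| := by
    rw [abs_mul, abs_of_pos hp]; nlinarith
  have hx2 : |Real.pi * v.re| ≤ 1 := by
    rw [abs_mul, abs_of_pos hp]; nlinarith
  have hcos : Real.cos (Real.pi * v.re) ≤ 777 / 1000 := by
    have h1 := Real.cos_bound hx2
    have h1' := (abs_le.1 h1).2
    rw [← sq_abs (Real.pi * v.re)] at h1'
    generalize |Real.pi * v.re| = x at *
    have u1 : 470596 / 1000000 ≤ x ^ 2 := by nlinarith
    have u2 : x ^ 2 ≤ 1 := by nlinarith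
    have u3 : x ^ 4 = x ^ 2 * x ^ 2 := by ring
    rw [u3] at h1'
    nlinarith
  have hcosh : Real.cosh (Real.pi * v.im) ≤ 10247 / 10000 := by
    have hy : 0 ≤ Real.pi * v.im := by nlinarith
    have hy2 : Real.pi * v.im ≤ 219 / 1000 := by nlinarith
    refine (Real.cosh_le_exp_half_sq _).trans ?_
    have h0 : 0 ≤ (Real.pi * v.im) ^ 2 / 2 := by positivity
    have h1 : (Real.pi * v.im) ^ 2 / 2 ≤ 240 / 10000 := by nlinarith
    refine (Real.exp_bound_div_one_sub_of_interval h0 (by linarith)).trans ?_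
    rw [div_le_iff₀ (by linarith)]
    nlinarith
  have h0 : 0 ≤ Real.cos (Real.pi * v.re) := by
    apply Real.cos_nonneg_of_neg_pi_div_two_le_of_le
    · linarith [(abs_le.1 hx2).1]
    · linarith [(abs_le.1 hx2).2]
  have h1 : 0 < Real.cosh (Real.pi * v.im) := Real.cosh_pos _
  nlinarith

/-- What is needed of one block. -/
private def KCritQ (r : ℤ) (y v : ℂ) : Prop :=
  |v.re| + 1 / 100 ≤ y.re ∧
  (if 3 ≤ |r| then |(zB r v).re| < 87 / 100 * y.re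
    else |(zB r v).re - (y.re + 1 / 2) / 2| < 41 / 100 * (y.re + 1 / 2)) ∧
  SB r y.im (zB r v).im ∧ (|r| = 2 → 55 / 100 ≤ (zB r v).re ∧ (zB r v).re ≤ 60 / 100)

private theorem KCrit_Q3 (r : ℤ) (hr : 3 ≤ |r|) (y v k : ℂ) (hv : Blk r v k)
    (y1 : 24 / 100 ≤ y.re) (y3 : |y.im| + v.im ≤ 65 / 1000) : KCritQ r y v := by
  obtain ⟨t, t0, t1, a1, a2, b1, b2⟩ := KCrit_t r hr v k hv
  have hz : zB r v = v := by rw [zB, if_pos hr]
  have ha : |v.re| ≤ 173 / 1000 := by nlinarith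
  have him : 0 ≤ v.im := le_trans (by positivity) b1
  refine ⟨by linarith, ?_, ?_, fun h => by omega⟩
  · rw [if_pos hr, hz]; linarith
  · rw [SB, if_pos hr, hz, abs_of_nonneg him]; exact y3

private theorem KCrit_Q2 (r : ℤ) (hr : |r| = 2) (y v k : ℂ) (hv : Blk r v k) (hk : k ∈ Om)
    (hk1 : k.re ≤ 1001 / 1000) (y1 : 27 / 100 ≤ y.re) (y2 : y.re ≤ 34 / 100)
    (y3 : -(35 / 1000) ≤ (r / 2 : ℝ) * y.im)
    (y4 : (r / 2 : ℝ) * y.im ≤ 0 ∨ (r / 2 : ℝ) * y.im ≤ 5 / 1000 ∧ k.re ≤ 80 / 100) :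
    KCritQ r y v := by
  obtain ⟨a1, a2, b1, b2⟩ := KCrit_loc2 r hr v k hv
  obtain ⟨l1, l2, l3, l4⟩ := loc_l r hr v k hk hk1 hv
  have hn : ¬ 3 ≤ |r| := by omega
  have l5 : (r / 2 : ℝ) * y.im - (r / 2 : ℝ) * (zB r v).im ≤ 7 / 100 := by
    rcases y4 with h | ⟨h, h'⟩
    · linarith
    · have := loc_l2 r hr v k hk h' hv
      linarith
  refine ⟨by linarith, ?_, ?_, fun _ => ⟨l1, l2⟩⟩
  · rw [if_neg hn, abs_lt]
    constructor <;> linarith
  · rw [SB, if_neg hn]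
    rcases (abs_eq (by norm_num : (0 : ℤ) ≤ 2)).1 hr with h3 | h3
    · rw [h3] at l3 l4 l5 y3
      norm_num at l3 l4 l5 y3
      constructor <;> rw [abs_le] <;> constructor <;> rw [h3] <;> linarith
    · rw [h3] at l3 l4 l5 y3
      norm_num at l3 l4 l5 y3
      constructor <;> rw [abs_le] <;> constructor <;> rw [h3] <;> linarith

private theorem KCrit_s (r : ℤ) (hr : |r| = 2) (b : ℝ) (h1 : -(35 / 1000) ≤ (r / 2 : ℝ) * b)
    (h2 : (r / 2 : ℝ) * b ≤ 5 / 1000) : |b| ≤ 35 / 1000 := by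
  rcases (abs_eq (by norm_num : (0 : ℤ) ≤ 2)).1 hr with h3 | h3
  · rw [h3] at h1 h2
    norm_num at h1 h2
    rw [abs_le]; constructor <;> linarith
  · rw [h3] at h1 h2
    norm_num at h1 h2
    rw [abs_le]; constructor <;> linarith

private theorem KCrit_B (r1 r2 : ℤ) (h1 : |r1| = 2) (h2 : 3 ≤ |r2|) (v w : ℂ)
    (hv : Blk r1 v (cos (Real.pi * w))) (hw : Blk r2 w (cos (Real.pi * v))) :
    24 / 100 ≤ (yF v w).re ∧ (yF v w).re ≤ 34 / 100 ∧ |(yF v w).im| ≤ 35 / 1000 ∧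
      KCritQ r1 (yF v w) v ∧ KCritQ r2 (yF v w) w := by
  have h : 27 / 100 ≤ (yF v w).re ∧ (yF v w).re ≤ 33 / 100 ∧ |(yF v w).im| + w.im ≤ 65 / 1000 ∧
      -(35 / 1000) ≤ (r1 / 2 : ℝ) * (yF v w).im ∧ (r1 / 2 : ℝ) * (yF v w).im ≤ 0 := by
    rcases h2.eq_or_lt with h | h
    · exact locB3 r1 r2 h1 h.symm v w hv hw
    · exact locB4 r1 r2 h1 h v w hv hw
  obtain ⟨e1, e2, e3, e4, e5⟩ := h
  exact ⟨by linarith, by linarith, KCrit_s r1 h1 _ e4 (by linarith),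
    KCrit_Q2 r1 h1 _ v _ hv hw.dom (KCrit_c3 r2 h2 w _ hw) e1 (by linarith) e4 (Or.inl e5),
    KCrit_Q3 r2 h2 _ w _ hw (by linarith) e3⟩

private theorem KCrit_all (r1 r2 : ℤ) (h1 : 2 ≤ |r1|) (h2 : 2 ≤ |r2|) (v w : ℂ)
    (hv : Blk r1 v (cos (Real.pi * w))) (hw : Blk r2 w (cos (Real.pi * v))) :
    24 / 100 ≤ (yF v w).re ∧ (yF v w).re ≤ 34 / 100 ∧ |(yF v w).im| ≤ 35 / 1000 ∧
      KCritQ r1 (yF v w) v ∧ KCritQ r2 (yF v w) w := by
  rcases h1.eq_or_lt with h1' | h1'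
  · rcases h2.eq_or_lt with h2' | h2'
    · obtain ⟨e1, e2, e3, e4, e5, e6⟩ := locC r1 r2 h1'.symm h2'.symm v w hv hw
      have c1 := KCrit_c2 r1 h1'.symm v _ hv
      have c2 := KCrit_c2 r2 h2'.symm w _ hw
      exact ⟨by linarith, by linarith, KCrit_s r1 h1'.symm _ e3 e4,
        KCrit_Q2 r1 h1'.symm _ v _ hv hw.dom (by linarith) (by linarith) e2 e3 (Or.inr ⟨e4, c2⟩),
        KCrit_Q2 r2 h2'.symm _ w _ hw hv.dom (by linarith) (by linarith) e2 e5 (Or.inr ⟨e6, c1⟩)⟩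
    · exact KCrit_B r1 r2 h1'.symm h2' v w hv hw
  · rcases h2.eq_or_lt with h2' | h2'
    · have hsym : yF v w = yF w v := by
        unfold yF
        rw [add_comm (1 / cos (Real.pi * v) ^ 2)]
      obtain ⟨e1, e2, e3, e4, e5⟩ := KCrit_B r2 r1 h2'.symm h1' w v hw hv
      rw [hsym]
      exact ⟨e1, e2, e3, e5, e4⟩
    · obtain ⟨e1, e2, e3, e4, e5⟩ := locA r1 r2 h1' h2' v w hv hw
      exact ⟨e1, by linarith, by linarith, KCrit_Q3 r1 h1' _ v _ hv e1 e3,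
        KCrit_Q3 r2 h2' _ w _ hw e1 e4⟩

theorem crit_exB (r1 r2 : ℤ) (h1 : 2 ≤ |r1|) (h2 : 2 ≤ |r2|) : ∃ y v w : ℂ,
    Blk r1 v (cos (Real.pi * w)) ∧ Blk r2 w (cos (Real.pi * v)) ∧
    CritG r1 r2 y v w ∧ (fun j => (zC r1 r2 y v w j).re) ∈ interior (KS r1 r2) ∧
    (fun j => (zC r1 r2 y v w j).im) ∈ BS r1 r2 ∧
    (|r1| = 2 → 55 / 100 ≤ (zB r1 v).re ∧ (zB r1 v).re ≤ 60 / 100) ∧
    (|r2| = 2 → 55 / 100 ≤ (zB r2 w).re ∧ (zB r2 w).re ≤ 60 / 100) := by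
  obtain ⟨v, w, hv, hw⟩ := pair_ex r1 r2 h1 h2
  obtain ⟨y1, y2, y3, ⟨p1, p2, p3, p4⟩, ⟨q1, q2, q3, q4⟩⟩ := KCrit_all r1 r2 h1 h2 v w hv hw
  have z0r : (zC r1 r2 (yF v w) v w 0).re = (yF v w).re + 1 / 2 := by
    simp [zC]
  have z0i : (zC r1 r2 (yF v w) v w 0).im = (yF v w).im := by
    simp [zC]
  have z1 : zC r1 r2 (yF v w) v w 1 = zB r1 v := rfl
  have z2 : zC r1 r2 (yF v w) v w 2 = zB r2 w := rfl
  refine ⟨yF v w, v, w, hv, hw, crit_of r1 r2 h1 h2 v w hv hw y1 y2 y3 p1 q1, ?_, ?_, p4, q4⟩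
  · apply KS_int
    · show yl r1 r2 < (zC r1 r2 (yF v w) v w 0).re - 1 / 2
      rw [z0r, yl]
      split_ifs <;> linarith
    · show (zC r1 r2 (yF v w) v w 0).re - 1 / 2 < yu r1 r2
      rw [z0r, yu]
      split_ifs <;> linarith
    · simp only [z0r, z1]
      split_ifs at p2 ⊢ with h
      · linarith
      · exact p2
    · simp only [z0r, z2]
      split_ifs at q2 ⊢ with h
      · linarith
      · exact q2
  · refine ⟨?_, ?_, ?_⟩
    · show |(zC r1 r2 (yF v w) v w 0).im| ≤ 5 / 100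
      rw [z0i]; linarith
    · show SB r1 (zC r1 r2 (yF v w) v w 0).im (zC r1 r2 (yF v w) v w 1).im
      rw [z0i, z1]; exact p3
    · show SB r2 (zC r1 r2 (yF v w) v w 0).im (zC r1 r2 (yF v w) v w 2).im
      rw [z0i, z2]; exact q3

theorem crit_ex (r1 r2 : ℤ) (h1 : 2 ≤ |r1|) (h2 : 2 ≤ |r2|) : ∃ y v w : ℂ,
    CritG r1 r2 y v w ∧ (fun j => (zC r1 r2 y v w j).re) ∈ interior (KS r1 r2) ∧
    (fun j => (zC r1 r2 y v w j).im) ∈ BS r1 r2 ∧
    (|r1| = 2 → 55 / 100 ≤ (zB r1 v).re ∧ (zB r1 v).re ≤ 60 / 100) ∧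
    (|r2| = 2 → 55 / 100 ≤ (zB r2 w).re ∧ (zB r2 w).re ≤ 60 / 100) := by
  obtain ⟨y, v, w, -, -, h⟩ := crit_exB r1 r2 h1 h2
  exact ⟨y, v, w, h⟩

end Pool.Agent.H63.GO
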