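import Pool.Agent.H63.GO.FNum

/-! # Numerical values for the lower bounds -/

namespace Pool.Agent.H63.GO

open Complex Filter Topology Pool.Agent.H63.VC Pool.Agent.H63.VC3

/-- Bounds for `log π`. -/
private theorem LowNum_logpi : Real.log Real.pi ≤ 114475 / 100000 ∧ 114471 / 100000 ≤ Real.log Real.pi := by
  have hp := Real.pi_pos
  have h1 := Real.pi_gt_d6
  have h2 := Real.pi_lt_d6
  have l1 := Real.log_two_gt_d9
  have l2 := Real.log_two_lt_d9
  have e4 : Real.log (4 / Real.pi) = 2 * Real.log 2 - Real.log Real.pi := by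
    rw [Real.log_div (by norm_num) hp.ne', show (4 : ℝ) = 2 ^ 2 by norm_num, Real.log_pow]
    push_cast
    ring
  constructor
  · have s := (log_series (12019 / 100000) (by norm_num) (by norm_num)).1
    have m : Real.log ((1 + 12019 / 100000) / (1 - 12019 / 100000)) ≤ Real.log (4 / Real.pi) := by
      apply Real.log_le_log (by norm_num)
      rw [div_le_div_iff₀ (by norm_num) hp]
      linarith
    rw [e4] at m
    linarith
  · have s := (log_series (12020 / 100000) (by norm_num) (by norm_num)).2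
    have m : Real.log (4 / Real.pi) ≤ Real.log ((1 + 12020 / 100000) / (1 - 12020 / 100000)) := by
      apply Real.log_le_log (by positivity)
      rw [div_le_div_iff₀ hp (by norm_num)]
      linarith
    rw [e4] at m
    linarith

/-- `log (2 π a)` for `2 a 2^j = (1 - t) / (1 + t)`. -/
private theorem LowNum_dn (a t : ℝ) (j : ℕ) (ha : 0 < a) (h0 : 0 ≤ t) (h1 : t ≤ 1 / 3)
    (h : 2 * a * 2 ^ j * (1 + t) = 1 - t) :
    Real.log (2 * Real.pi * a) =
      Real.log Real.pi - j * Real.log 2 - Real.log ((1 + t) / (1 - t)) := by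
  have hp := Real.pi_pos
  have e : (1 + t) / (1 - t) = 1 / (2 * a * 2 ^ j) := by
    rw [← h]
    have : (1 + t) ≠ 0 := by positivity
    field_simp
  have e2 : Real.log (2 * a * 2 ^ j) = Real.log (2 * a) + j * Real.log 2 := by
    rw [Real.log_mul (by positivity) (by positivity), Real.log_pow]
  have e3 : Real.log (2 * Real.pi * a) = Real.log Real.pi + Real.log (2 * a) := by
    rw [show 2 * Real.pi * a = Real.pi * (2 * a) by ring, Real.log_mul hp.ne' (by positivity)]
  rw [e, Real.log_div one_ne_zero (by positivity), Real.log_one, e2, e3]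
  ring

/-- `log (2 π a)` for `2 a 2^j = (1 + t) / (1 - t)`. -/
private theorem LowNum_up (a t : ℝ) (j : ℕ) (ha : 0 < a) (h0 : 0 ≤ t) (h1 : t ≤ 1 / 3)
    (h : 2 * a * 2 ^ j * (1 - t) = 1 + t) :
    Real.log (2 * Real.pi * a) =
      Real.log Real.pi - j * Real.log 2 + Real.log ((1 + t) / (1 - t)) := by
  have hp := Real.pi_pos
  have e : (1 + t) / (1 - t) = 2 * a * 2 ^ j := by
    rw [← h]
    have : (1 - t) ≠ 0 := by
      intro h'
      linarith
    field_simp
  have e2 : Real.log (2 * a * 2 ^ j) = Real.log (2 * a) + j * Real.log 2 := by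
    rw [Real.log_mul (by positivity) (by positivity), Real.log_pow]
  have e3 : Real.log (2 * Real.pi * a) = Real.log Real.pi + Real.log (2 * a) := by
    rw [show 2 * Real.pi * a = Real.pi * (2 * a) by ring, Real.log_mul hp.ne' (by positivity)]
  rw [e, e2, e3]
  ring

private theorem LowNum_pow : 98696 / 10000 ≤ Real.pi ^ 2 ∧ Real.pi ^ 2 ≤ 98697 / 10000 ∧
    97408 / 1000 ≤ Real.pi ^ 4 ∧ Real.pi ^ 4 ≤ 97411 / 1000 ∧
    96137 / 100 ≤ Real.pi ^ 6 ∧ Real.pi ^ 6 ≤ 96142 / 100 := by
  have h1 := Real.pi_gt_d6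
  have h2 := Real.pi_lt_d6
  have hp := Real.pi_pos
  have a1 : 98696 / 10000 ≤ Real.pi ^ 2 := by nlinarith
  have a2 : Real.pi ^ 2 ≤ 98697 / 10000 := by nlinarith
  have b1 : 97408 / 1000 ≤ Real.pi ^ 4 := by
    rw [show Real.pi ^ 4 = (Real.pi ^ 2) ^ 2 by ring]
    nlinarith
  have b2 : Real.pi ^ 4 ≤ 97411 / 1000 := by
    rw [show Real.pi ^ 4 = (Real.pi ^ 2) ^ 2 by ring]
    nlinarith
  have c1 : 96137 / 100 ≤ Real.pi ^ 6 := by
    rw [show Real.pi ^ 6 = Real.pi ^ 4 * Real.pi ^ 2 by ring]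
    nlinarith
  have c2 : Real.pi ^ 6 ≤ 96142 / 100 := by
    rw [show Real.pi ^ 6 = Real.pi ^ 4 * Real.pi ^ 2 by ring]
    nlinarith
  exact ⟨a1, a2, b1, b2, c1, c2⟩

/-- Upper bound for `Fr`. -/
private theorem LowNum_Fr_le (a L : ℝ) (h0 : 0 < a) (h1 : a ≤ 1 / 2)
    (hL : Real.log (2 * Real.pi * a) ≤ L) :
    Fr a ≤ a * L - a - 98696 / 10000 * a ^ 3 / 18 - 97408 / 1000 * a ^ 5 / 900 -
      96137 / 100 * a ^ 7 / 19845 := by
  have h := (Fr_num a h0 h1).2
  obtain ⟨a1, a2, b1, b2, c1, c2⟩ := LowNum_pow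
  unfold Ft at h
  have k1 := mul_le_mul_of_nonneg_left hL h0.le
  have k2 := mul_le_mul_of_nonneg_right a1 (by positivity : 0 ≤ a ^ 3)
  have k3 := mul_le_mul_of_nonneg_right b1 (by positivity : 0 ≤ a ^ 5)
  have k4 := mul_le_mul_of_nonneg_right c1 (by positivity : 0 ≤ a ^ 7)
  linarith

/-- Lower bound for `Fr`. -/
private theorem LowNum_Fr_ge (a L : ℝ) (h0 : 0 < a) (h1 : a ≤ 1 / 2)
    (hL : L ≤ Real.log (2 * Real.pi * a)) :
    a * L - a - 98697 / 10000 * a ^ 3 / 18 - 97411 / 1000 * a ^ 5 / 900 -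
      96142 / 100 * a ^ 7 / 19845 - a ^ 9 / 25 ≤ Fr a := by
  have h := (Fr_num a h0 h1).1
  obtain ⟨a1, a2, b1, b2, c1, c2⟩ := LowNum_pow
  unfold Ft at h
  have k1 := mul_le_mul_of_nonneg_left hL h0.le
  have k2 := mul_le_mul_of_nonneg_right a2 (by positivity : 0 ≤ a ^ 3)
  have k3 := mul_le_mul_of_nonneg_right b2 (by positivity : 0 ≤ a ^ 5)
  have k4 := mul_le_mul_of_nonneg_right c2 (by positivity : 0 ≤ a ^ 7)
  linarith

private theorem LowNum_refl (x : ℝ) : Fr x = -Fr (1 - x) := by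
  have h := Fr_add_one (-x)
  rw [Fr_neg] at h
  rw [show 1 - x = -x + 1 by ring, h, neg_neg]

theorem nA : 998 / 1000 ≤ 4 * Fr (79 / 100) - 2 * (Fr (29 / 100 - 1 / 6) + Fr (29 / 100 + 1 / 6)) := by
  rw [LowNum_refl (79 / 100), show (1 : ℝ) - 79 / 100 = 21 / 100 by norm_num,
    show (29 : ℝ) / 100 - 1 / 6 = 37 / 300 by norm_num, show (29 : ℝ) / 100 + 1 / 6 = 137 / 300 by norm_num]
  have l1 : Real.log (2 * Real.pi * (21 / 100)) ≤ 277251 / 1000000 := by
    rw [LowNum_dn (21 / 100) (2 / 23) 1 (by norm_num) (by norm_num) (by norm_num) (by norm_num)]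
    have s := (log_series (2 / 23) (by norm_num) (by norm_num)).1
    norm_num at s ⊢
    linarith [LowNum_logpi.1, Real.log_two_gt_d9]
  have f1 := LowNum_Fr_le (21 / 100) (277251 / 1000000) (by norm_num) (by norm_num) l1
  have l2 : Real.log (2 * Real.pi * (37 / 300)) ≤ -127483 / 500000 := by
    rw [LowNum_dn (37 / 300) (1 / 149) 2 (by norm_num) (by norm_num) (by norm_num) (by norm_num)]
    have s := (log_series (1 / 149) (by norm_num) (by norm_num)).1
    norm_num at s ⊢
    linarith [LowNum_logpi.1, Real.log_two_gt_d9]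
  have f2 := LowNum_Fr_le (37 / 300) (-127483 / 500000) (by norm_num) (by norm_num) l2
  have l3 : Real.log (2 * Real.pi * (137 / 300)) ≤ 1054097 / 1000000 := by
    rw [LowNum_dn (137 / 300) (13 / 287) 0 (by norm_num) (by norm_num) (by norm_num) (by norm_num)]
    have s := (log_series (13 / 287) (by norm_num) (by norm_num)).1
    norm_num at s ⊢
    linarith [LowNum_logpi.1, Real.log_two_gt_d9]
  have f3 := LowNum_Fr_le (137 / 300) (1054097 / 1000000) (by norm_num) (by norm_num) l3
  norm_num at f1 f2 f3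
  linarith

theorem nB : 896 / 1000 + Real.pi * (191 / 2000) * (35 / 1000) ≤
    4 * Fr (809 / 1000) - Fr (5955 / 10000) - Fr (2135 / 10000) -
      Fr (309 / 1000 - 1 / 6) - Fr (309 / 1000 + 1 / 6) := by
  rw [LowNum_refl (809 / 1000), show (1 : ℝ) - 809 / 1000 = 191 / 1000 by norm_num,
    LowNum_refl (5955 / 10000), show (1 : ℝ) - 5955 / 10000 = 809 / 2000 by norm_num,
    show (2135 : ℝ) / 10000 = 427 / 2000 by norm_num,
    show (309 : ℝ) / 1000 - 1 / 6 = 427 / 3000 by norm_num,
    show (309 : ℝ) / 1000 + 1 / 6 = 1427 / 3000 by norm_num]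
  have l1 : Real.log (2 * Real.pi * (191 / 1000)) ≤ 182417 / 1000000 := by
    rw [LowNum_dn (191 / 1000) (59 / 441) 1 (by norm_num) (by norm_num) (by norm_num) (by norm_num)]
    have s := (log_series (59 / 441) (by norm_num) (by norm_num)).1
    norm_num at s ⊢
    linarith [LowNum_logpi.1, Real.log_two_gt_d9]
  have f1 := LowNum_Fr_le (191 / 1000) (182417 / 1000000) (by norm_num) (by norm_num) l1
  have l2 : 58297 / 62500 ≤ Real.log (2 * Real.pi * (809 / 2000)) := by
    rw [LowNum_dn (809 / 2000) (191 / 1809) 0 (by norm_num) (by norm_num) (by norm_num) (by norm_num)]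
    have s := (log_series (191 / 1809) (by norm_num) (by norm_num)).2
    norm_num at s ⊢
    linarith [LowNum_logpi.2, Real.log_two_lt_d9]
  have f2 := LowNum_Fr_ge (809 / 2000) (58297 / 62500) (by norm_num) (by norm_num) l2
  have l3 : Real.log (2 * Real.pi * (427 / 2000)) ≤ 14689 / 50000 := by
    rw [LowNum_dn (427 / 2000) (73 / 927) 1 (by norm_num) (by norm_num) (by norm_num) (by norm_num)]
    have s := (log_series (73 / 927) (by norm_num) (by norm_num)).1
    norm_num at s ⊢
    linarith [LowNum_logpi.1, Real.log_two_gt_d9]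
  have f3 := LowNum_Fr_le (427 / 2000) (14689 / 50000) (by norm_num) (by norm_num) l3
  have l4 : Real.log (2 * Real.pi * (427 / 3000)) ≤ -22337 / 200000 := by
    rw [LowNum_up (427 / 3000) (26 / 401) 2 (by norm_num) (by norm_num) (by norm_num) (by norm_num)]
    have s := (log_series (26 / 401) (by norm_num) (by norm_num)).2
    norm_num at s ⊢
    linarith [LowNum_logpi.1, Real.log_two_gt_d9]
  have f4 := LowNum_Fr_le (427 / 3000) (-22337 / 200000) (by norm_num) (by norm_num) l4
  have l5 : Real.log (2 * Real.pi * (1427 / 3000)) ≤ 1094861 / 1000000 := by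
    rw [LowNum_dn (1427 / 3000) (73 / 2927) 0 (by norm_num) (by norm_num) (by norm_num) (by norm_num)]
    have s := (log_series (73 / 2927) (by norm_num) (by norm_num)).1
    norm_num at s ⊢
    linarith [LowNum_logpi.1, Real.log_two_gt_d9]
  have f5 := LowNum_Fr_le (1427 / 3000) (1094861 / 1000000) (by norm_num) (by norm_num) l5
  norm_num at f1 f2 f3 f4 f5
  linarith [Real.pi_lt_d6]

theorem nC : 805 / 1000 + Real.pi * (175 / 1000) * (35 / 1000) ≤
    4 * Fr (825 / 1000) - 2 * Fr (5875 / 10000) - 2 * Fr (2375 / 10000) := by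
  rw [LowNum_refl (825 / 1000), show (1 : ℝ) - 825 / 1000 = 7 / 40 by norm_num,
    LowNum_refl (5875 / 10000), show (1 : ℝ) - 5875 / 10000 = 33 / 80 by norm_num,
    show (2375 : ℝ) / 10000 = 19 / 80 by norm_num]
  have l1 : Real.log (2 * Real.pi * (7 / 40)) ≤ 94929 / 1000000 := by
    rw [LowNum_up (7 / 40) (1 / 6) 2 (by norm_num) (by norm_num) (by norm_num) (by norm_num)]
    have s := (log_series (1 / 6) (by norm_num) (by norm_num)).2
    norm_num at s ⊢
    linarith [LowNum_logpi.1, Real.log_two_gt_d9]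
  have f1 := LowNum_Fr_le (7 / 40) (94929 / 1000000) (by norm_num) (by norm_num) l1
  have l2 : 952337 / 1000000 ≤ Real.log (2 * Real.pi * (33 / 80)) := by
    rw [LowNum_dn (33 / 80) (7 / 73) 0 (by norm_num) (by norm_num) (by norm_num) (by norm_num)]
    have s := (log_series (7 / 73) (by norm_num) (by norm_num)).2
    norm_num at s ⊢
    linarith [LowNum_logpi.2, Real.log_two_lt_d9]
  have f2 := LowNum_Fr_ge (33 / 80) (952337 / 1000000) (by norm_num) (by norm_num) l2
  have l3 : Real.log (2 * Real.pi * (19 / 80)) ≤ 400311 / 1000000 := by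
    rw [LowNum_dn (19 / 80) (1 / 39) 1 (by norm_num) (by norm_num) (by norm_num) (by norm_num)]
    have s := (log_series (1 / 39) (by norm_num) (by norm_num)).1
    norm_num at s ⊢
    linarith [LowNum_logpi.1, Real.log_two_gt_d9]
  have f3 := LowNum_Fr_le (19 / 80) (400311 / 1000000) (by norm_num) (by norm_num) l3
  norm_num at f1 f2 f3
  linarith [Real.pi_lt_d6]

end Pool.Agent.H63.GO
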