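import Pool.Agent.H63.GO.NegDefs

/-! # Negativity of the second derivative: the one-variable inequality A -/

namespace Pool.Agent.H63.GO

/-- A function vanishing at `0` with nonnegative derivative is nonnegative. -/
private theorem NegNumA_mono (f f' : ℝ → ℝ) (hf : ∀ x, HasDerivAt f (f' x) x) (h0 : f 0 = 0)
    (h : ∀ x, 0 ≤ x → 0 ≤ f' x) (x : ℝ) (hx : 0 ≤ x) : 0 ≤ f x := by
  have hm : MonotoneOn f (Set.Ici 0) := by
    refine monotoneOn_of_deriv_nonneg (convex_Ici 0)
      (fun t _ => (hf t).continuousAt.continuousWithinAt)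
      (fun t _ => (hf t).differentiableAt.differentiableWithinAt) fun t ht => ?_
    rw [(hf t).deriv]
    rw [interior_Ici] at ht
    exact h t (le_of_lt ht)
  have := hm (Set.self_mem_Ici) hx hx
  rwa [h0] at this

private theorem NegNumA_s3 (x : ℝ) (hx : 0 ≤ x) : x - x ^ 3 / 6 ≤ Real.sin x := by
  have := NegNumA_mono (fun x => Real.sin x - (x - x ^ 3 / 6))
    (fun x => Real.cos x - (1 - x ^ 2 / 2)) (fun x => by
      refine ((Real.hasDerivAt_sin x).sub ((hasDerivAt_id x).sub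
        ((hasDerivAt_pow 3 x).div_const 6))).congr_deriv ?_
      norm_num
      ring) (by simp) (fun x _ => by linarith only [Real.one_sub_sq_div_two_le_cos (x := x)]) x hx
  linarith only [this]

private theorem NegNumA_c4 (x : ℝ) (hx : 0 ≤ x) :
    Real.cos x ≤ 1 - x ^ 2 / 2 + x ^ 4 / 24 := by
  have := NegNumA_mono (fun x => (1 - x ^ 2 / 2 + x ^ 4 / 24) - Real.cos x)
    (fun x => Real.sin x - (x - x ^ 3 / 6)) (fun x => by
      refine ((((hasDerivAt_const x (1 : ℝ)).sub ((hasDerivAt_pow 2 x).div_const 2)).add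
        ((hasDerivAt_pow 4 x).div_const 24)).sub (Real.hasDerivAt_cos x)).congr_deriv ?_
      norm_num
      ring) (by simp) (fun x hx => by linarith only [NegNumA_s3 x hx]) x hx
  linarith only [this]

private theorem NegNumA_s5 (x : ℝ) (hx : 0 ≤ x) :
    Real.sin x ≤ x - x ^ 3 / 6 + x ^ 5 / 120 := by
  have := NegNumA_mono (fun x => (x - x ^ 3 / 6 + x ^ 5 / 120) - Real.sin x)
    (fun x => (1 - x ^ 2 / 2 + x ^ 4 / 24) - Real.cos x) (fun x => by
      refine ((((hasDerivAt_id x).sub ((hasDerivAt_pow 3 x).div_const 6)).add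
        ((hasDerivAt_pow 5 x).div_const 120)).sub (Real.hasDerivAt_sin x)).congr_deriv ?_
      norm_num
      ring) (by simp) (fun x hx => by linarith only [NegNumA_c4 x hx]) x hx
  linarith only [this]

private theorem NegNumA_c6 (x : ℝ) (hx : 0 ≤ x) :
    1 - x ^ 2 / 2 + x ^ 4 / 24 - x ^ 6 / 720 ≤ Real.cos x := by
  have := NegNumA_mono (fun x => Real.cos x - (1 - x ^ 2 / 2 + x ^ 4 / 24 - x ^ 6 / 720))
    (fun x => (x - x ^ 3 / 6 + x ^ 5 / 120) - Real.sin x) (fun x => by
      refine ((Real.hasDerivAt_cos x).sub ((((hasDerivAt_const x (1 : ℝ)).sub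
        ((hasDerivAt_pow 2 x).div_const 2)).add ((hasDerivAt_pow 4 x).div_const 24)).sub
        ((hasDerivAt_pow 6 x).div_const 720))).congr_deriv ?_
      norm_num
      ring) (by simp) (fun x hx => by linarith only [NegNumA_s5 x hx]) x hx
  linarith only [this]

private theorem NegNumA_s7 (x : ℝ) (hx : 0 ≤ x) :
    x - x ^ 3 / 6 + x ^ 5 / 120 - x ^ 7 / 5040 ≤ Real.sin x := by
  have := NegNumA_mono (fun x => Real.sin x - (x - x ^ 3 / 6 + x ^ 5 / 120 - x ^ 7 / 5040))
    (fun x => Real.cos x - (1 - x ^ 2 / 2 + x ^ 4 / 24 - x ^ 6 / 720)) (fun x => by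
      refine ((Real.hasDerivAt_sin x).sub ((((hasDerivAt_id x).sub
        ((hasDerivAt_pow 3 x).div_const 6)).add ((hasDerivAt_pow 5 x).div_const 120)).sub
        ((hasDerivAt_pow 7 x).div_const 5040))).congr_deriv ?_
      norm_num
      ring) (by simp) (fun x hx => by linarith only [NegNumA_c6 x hx]) x hx
  linarith only [this]

/-- Upper bound for the hyperbolic cosine. -/
private theorem NegNumA_cosh (x : ℝ) (hx : 0 ≤ x) (hx' : x ≤ 1) :
    Real.cosh x ≤ 1 + x ^ 2 / 2 + x ^ 4 / 24 + x ^ 5 / 100 := by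
  have h1 := Real.exp_bound (x := x) (by rw [abs_of_nonneg hx]; exact hx') (n := 5) (by norm_num)
  have h2 := Real.exp_bound (x := -x) (by rw [abs_neg, abs_of_nonneg hx]; exact hx') (n := 5)
    (by norm_num)
  rw [abs_neg, abs_of_nonneg hx] at h2
  rw [abs_of_nonneg hx] at h1
  have e1 := (abs_le.1 h1).2
  have e2 := (abs_le.1 h2).2
  simp only [Finset.sum_range_succ, Finset.sum_range_zero] at e1 e2
  norm_num [Nat.factorial] at e1 e2
  rw [Real.cosh_eq]
  linarith only [e2, e1]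

private theorem NegNumA_ch1 : Real.cosh (2 * Real.pi * (5 / 100)) ≤ 1 + 498 / 10000 := by
  have h := Real.pi_gt_d6
  have h' := Real.pi_lt_d6
  have e : Real.cosh (2 * Real.pi * (5 / 100)) ≤ Real.cosh (3141593 / 10000000) := by
    rw [Real.cosh_le_cosh, abs_of_nonneg (by positivity), abs_of_nonneg (by norm_num)]
    linarith only [h']
  refine e.trans ((NegNumA_cosh _ (by norm_num) (by norm_num)).trans ?_)
  norm_num

private theorem NegNumA_ch2 : Real.cosh (2 * Real.pi * (65 / 1000)) ≤ 1 + 847 / 10000 := by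
  have h := Real.pi_gt_d6
  have h' := Real.pi_lt_d6
  have e : Real.cosh (2 * Real.pi * (65 / 1000)) ≤ Real.cosh (40841 / 100000) := by
    rw [Real.cosh_le_cosh, abs_of_nonneg (by positivity), abs_of_nonneg (by norm_num)]
    linarith only [h']
  refine e.trans ((NegNumA_cosh _ (by norm_num) (by norm_num)).trans ?_)
  norm_num

/-- The inequality on an interval. -/
private theorem NegNumA_key (a b y s1 s2 c1 s3 t : ℝ) (ha : 1 / 4 < a) (hb : b ≤ 368 / 1000)
    (hay : a ≤ y) (hyb : y ≤ b) (hw : 1 / 2 < 187 / 100 * y) (p1 : 0 < s1) (p2 : 0 < s2)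
    (_p3 : 0 < c1) (p4 : 0 < s3)
    (h1 : s1 ≤ Real.sin (Real.pi * (1 - 2 * b)))
    (h2 : Real.sin (Real.pi * (187 / 100 * b - 1 / 2)) ≤ s2)
    (h3 : Real.cos (Real.pi * (13 / 100 * a)) ≤ c1)
    (h4 : s3 ≤ Real.sin (2 * Real.pi * (13 / 100 * a)))
    (h5 : Real.cos (Real.pi * a) ≤ t * Real.sin (Real.pi * a))
    (hn : 847 / 10000 / s3 + 2 * (498 / 10000) / s1 + 2 * t < s1 / (s2 * c1)) :
    0 < N3 y ∧ 8 / N3 y < 4 * TN y := by
  have hpi := Real.pi_pos
  have hy : 1 / 4 < y := lt_of_lt_of_le ha hay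
  have hy' : y ≤ 368 / 1000 := hyb.trans hb
  -- the sine of `2 π y`
  have q1 : s1 ≤ Real.sin (2 * Real.pi * y) := by
    have e : Real.sin (2 * Real.pi * y) = Real.sin (Real.pi * (1 - 2 * y)) := by
      rw [← Real.sin_pi_sub]
      congr 1
      ring
    rw [e]
    refine h1.trans (Real.sin_le_sin_of_le_of_le_pi_div_two ?_ ?_ ?_)
    · (refine le_of_not_gt fun hng => ?_; linarith only [hpi,
        mul_nonneg (sub_nonneg.2 hb) (sub_nonneg.2 hpi.le),
        mul_nonneg (sub_nonneg.2 hng.le) (sub_nonneg.2 hyb),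
        mul_nonneg (sub_nonneg.2 hng.le) (sub_nonneg.2 hay),
        mul_nonneg (sub_nonneg.2 hng.le) (sub_nonneg.2 hb), mul_pos (sub_pos.2 hng) (sub_pos.2 ha)])
    · (refine le_of_not_gt fun hng => ?_; linarith only [mul_nonneg (sub_nonneg.2 hay) (sub_nonneg.2 hpi.le),
        mul_pos (sub_pos.2 ha) (sub_pos.2 hpi), mul_nonneg (sub_nonneg.2 hng.le) (sub_nonneg.2 hyb),
        mul_nonneg (sub_nonneg.2 hng.le) (sub_nonneg.2 hay),
        mul_nonneg (sub_nonneg.2 hng.le) (sub_nonneg.2 hb), mul_pos (sub_pos.2 hng) (sub_pos.2 ha)])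
    · (refine le_of_not_gt fun hng => ?_; linarith only [mul_nonneg (sub_nonneg.2 hyb) (sub_nonneg.2 hpi.le),
        mul_nonneg (sub_nonneg.2 hng.le) (sub_nonneg.2 hyb),
        mul_nonneg (sub_nonneg.2 hng.le) (sub_nonneg.2 hay),
        mul_nonneg (sub_nonneg.2 hng.le) (sub_nonneg.2 hb), mul_pos (sub_pos.2 hng) (sub_pos.2 ha)])
  have q2 : Real.sin (Real.pi * (187 / 100 * y - 1 / 2)) ≤ s2 := by
    refine (Real.sin_le_sin_of_le_of_le_pi_div_two ?_ ?_ ?_).trans h2
    · (refine le_of_not_gt fun hng => ?_; linarith only [hpi,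
        mul_nonneg (sub_nonneg.2 hay) (sub_nonneg.2 hpi.le), mul_pos (sub_pos.2 ha) (sub_pos.2 hpi),
        mul_nonneg (sub_nonneg.2 hng.le) (sub_nonneg.2 hyb),
        mul_nonneg (sub_nonneg.2 hng.le) (sub_nonneg.2 hay),
        mul_nonneg (sub_nonneg.2 hng.le) (sub_nonneg.2 hb), mul_pos (sub_pos.2 hng) (sub_pos.2 ha)])
    · (refine le_of_not_gt fun hng => ?_; linarith only [hpi,
        mul_nonneg (sub_nonneg.2 hb) (sub_nonneg.2 hpi.le),
        mul_nonneg (sub_nonneg.2 hng.le) (sub_nonneg.2 hyb),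
        mul_nonneg (sub_nonneg.2 hng.le) (sub_nonneg.2 hay),
        mul_nonneg (sub_nonneg.2 hng.le) (sub_nonneg.2 hb), mul_pos (sub_pos.2 hng) (sub_pos.2 ha)])
    · (refine le_of_not_gt fun hng => ?_; linarith only [mul_nonneg (sub_nonneg.2 hyb) (sub_nonneg.2 hpi.le),
        mul_nonneg (sub_nonneg.2 hng.le) (sub_nonneg.2 hyb),
        mul_nonneg (sub_nonneg.2 hng.le) (sub_nonneg.2 hay),
        mul_nonneg (sub_nonneg.2 hng.le) (sub_nonneg.2 hb), mul_pos (sub_pos.2 hng) (sub_pos.2 ha)])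
  have q2' : 0 < Real.sin (Real.pi * (187 / 100 * y - 1 / 2)) := by
    refine Real.sin_pos_of_pos_of_lt_pi ?_ ?_
    · linarith only [mul_pos (sub_pos.2 hw) (sub_pos.2 hpi)]
    · linarith only [hpi, mul_nonneg (sub_nonneg.2 hyb) (sub_nonneg.2 hpi.le),
        mul_nonneg (sub_nonneg.2 hb) (sub_nonneg.2 hpi.le)]
  have q3 : Real.cos (Real.pi * (13 / 100 * y)) ≤ c1 := by
    refine (Real.cos_le_cos_of_nonneg_of_le_pi ?_ ?_ ?_).trans h3
    · (refine le_of_not_gt fun hng => ?_; linarith only [hpi,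
        mul_pos (sub_pos.2 ha) (sub_pos.2 hpi), mul_nonneg (sub_nonneg.2 hng.le) (sub_nonneg.2 hyb),
        mul_nonneg (sub_nonneg.2 hng.le) (sub_nonneg.2 hay),
        mul_nonneg (sub_nonneg.2 hng.le) (sub_nonneg.2 hb), mul_pos (sub_pos.2 hng) (sub_pos.2 ha)])
    · (refine le_of_not_gt fun hng => ?_; linarith only [hpi,
        mul_nonneg (sub_nonneg.2 hyb) (sub_nonneg.2 hpi.le),
        mul_nonneg (sub_nonneg.2 hb) (sub_nonneg.2 hpi.le),
        mul_nonneg (sub_nonneg.2 hng.le) (sub_nonneg.2 hyb),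
        mul_nonneg (sub_nonneg.2 hng.le) (sub_nonneg.2 hay),
        mul_nonneg (sub_nonneg.2 hng.le) (sub_nonneg.2 hb), mul_pos (sub_pos.2 hng) (sub_pos.2 ha)])
    · (refine le_of_not_gt fun hng => ?_; linarith only [mul_nonneg (sub_nonneg.2 hay) (sub_nonneg.2 hpi.le),
        mul_nonneg (sub_nonneg.2 hng.le) (sub_nonneg.2 hyb),
        mul_nonneg (sub_nonneg.2 hng.le) (sub_nonneg.2 hay),
        mul_nonneg (sub_nonneg.2 hng.le) (sub_nonneg.2 hb), mul_pos (sub_pos.2 hng) (sub_pos.2 ha)])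
  have q3' : 0 < Real.cos (Real.pi * (13 / 100 * y)) := by
    refine Real.cos_pos_of_mem_Ioo ⟨?_, ?_⟩
    · linarith only [hpi, mul_nonneg (sub_nonneg.2 hay) (sub_nonneg.2 hpi.le),
        mul_pos (sub_pos.2 ha) (sub_pos.2 hpi)]
    · linarith only [hpi, mul_nonneg (sub_nonneg.2 hyb) (sub_nonneg.2 hpi.le),
        mul_nonneg (sub_nonneg.2 hb) (sub_nonneg.2 hpi.le)]
  have q4 : s3 ≤ Real.sin (2 * Real.pi * (13 / 100 * y)) := by
    refine h4.trans (Real.sin_le_sin_of_le_of_le_pi_div_two ?_ ?_ ?_)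
    · (refine le_of_not_gt fun hng => ?_; linarith only [hpi,
        mul_pos (sub_pos.2 ha) (sub_pos.2 hpi), mul_nonneg (sub_nonneg.2 hng.le) (sub_nonneg.2 hyb),
        mul_nonneg (sub_nonneg.2 hng.le) (sub_nonneg.2 hay),
        mul_nonneg (sub_nonneg.2 hng.le) (sub_nonneg.2 hb), mul_pos (sub_pos.2 hng) (sub_pos.2 ha)])
    · (refine le_of_not_gt fun hng => ?_; linarith only [hpi,
        mul_nonneg (sub_nonneg.2 hyb) (sub_nonneg.2 hpi.le),
        mul_nonneg (sub_nonneg.2 hb) (sub_nonneg.2 hpi.le),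
        mul_nonneg (sub_nonneg.2 hng.le) (sub_nonneg.2 hyb),
        mul_nonneg (sub_nonneg.2 hng.le) (sub_nonneg.2 hay),
        mul_nonneg (sub_nonneg.2 hng.le) (sub_nonneg.2 hb), mul_pos (sub_pos.2 hng) (sub_pos.2 ha)])
    · (refine le_of_not_gt fun hng => ?_; linarith only [mul_nonneg (sub_nonneg.2 hay) (sub_nonneg.2 hpi.le),
        mul_nonneg (sub_nonneg.2 hng.le) (sub_nonneg.2 hyb),
        mul_nonneg (sub_nonneg.2 hng.le) (sub_nonneg.2 hay),
        mul_nonneg (sub_nonneg.2 hng.le) (sub_nonneg.2 hb), mul_pos (sub_pos.2 hng) (sub_pos.2 ha)])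
  have sa : 0 < Real.sin (Real.pi * a) := by
    refine Real.sin_pos_of_pos_of_lt_pi ?_ ?_
    · linarith only [hpi, mul_pos (sub_pos.2 ha) (sub_pos.2 hpi)]
    · linarith only [hpi, mul_nonneg (sub_nonneg.2 hyb) (sub_nonneg.2 hpi.le),
        mul_nonneg (sub_nonneg.2 hay) (sub_nonneg.2 hpi.le),
        mul_nonneg (sub_nonneg.2 hb) (sub_nonneg.2 hpi.le)]
  have sy : 0 < Real.sin (Real.pi * y) := by
    refine Real.sin_pos_of_pos_of_lt_pi ?_ ?_
    · linarith only [hpi, mul_nonneg (sub_nonneg.2 hay) (sub_nonneg.2 hpi.le),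
        mul_pos (sub_pos.2 ha) (sub_pos.2 hpi)]
    · linarith only [hpi, mul_nonneg (sub_nonneg.2 hyb) (sub_nonneg.2 hpi.le),
        mul_nonneg (sub_nonneg.2 hb) (sub_nonneg.2 hpi.le)]
  have q5 : Real.cos (Real.pi * y) ≤ t * Real.sin (Real.pi * y) := by
    have e : 0 ≤ Real.sin (Real.pi * (y - a)) := by
      refine Real.sin_nonneg_of_nonneg_of_le_pi ?_ ?_
      · (refine le_of_not_gt fun hng => ?_; linarith only [mul_nonneg (sub_nonneg.2 hay) (sub_nonneg.2 hpi.le),
          mul_nonneg (sub_nonneg.2 hng.le) (sub_nonneg.2 hyb),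
          mul_nonneg (sub_nonneg.2 hng.le) (sub_nonneg.2 hay),
          mul_nonneg (sub_nonneg.2 hng.le) (sub_nonneg.2 hb),
          mul_pos (sub_pos.2 hng) (sub_pos.2 ha)])
      · (refine le_of_not_gt fun hng => ?_; linarith only [hpi,
          mul_nonneg (sub_nonneg.2 hyb) (sub_nonneg.2 hpi.le),
          mul_nonneg (sub_nonneg.2 hb) (sub_nonneg.2 hpi.le),
          mul_pos (sub_pos.2 ha) (sub_pos.2 hpi),
          mul_nonneg (sub_nonneg.2 hng.le) (sub_nonneg.2 hyb),
          mul_nonneg (sub_nonneg.2 hng.le) (sub_nonneg.2 hay),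
          mul_nonneg (sub_nonneg.2 hng.le) (sub_nonneg.2 hb),
          mul_pos (sub_pos.2 hng) (sub_pos.2 ha)])
    have e2 : Real.sin (Real.pi * (y - a)) = Real.sin (Real.pi * y) * Real.cos (Real.pi * a) -
        Real.cos (Real.pi * y) * Real.sin (Real.pi * a) := by
      rw [mul_sub, Real.sin_sub]
    rw [e2] at e
    have e3 : Real.cos (Real.pi * y) * Real.sin (Real.pi * a) ≤
        (t * Real.sin (Real.pi * y)) * Real.sin (Real.pi * a) := by
      (refine le_of_not_gt fun hng => ?_; linarith only [e,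
        mul_nonneg (sub_nonneg.2 h5) (sub_nonneg.2 sy.le),
        mul_nonneg (sub_nonneg.2 hng.le) (sub_nonneg.2 hyb),
        mul_nonneg (sub_nonneg.2 hng.le) (sub_nonneg.2 hay),
        mul_nonneg (sub_nonneg.2 hng.le) (sub_nonneg.2 hb), mul_pos (sub_pos.2 hng) (sub_pos.2 ha)])
    exact le_of_mul_le_mul_right e3 sa
  have q6 : Real.cosh (2 * Real.pi * (5 / 100)) + Real.cos (2 * Real.pi * y) ≤
      498 / 10000 + t * Real.sin (2 * Real.pi * y) := by
    have e1 : Real.cos (2 * Real.pi * y) = 2 * Real.cos (Real.pi * y) ^ 2 - 1 := by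
      rw [← Real.cos_two_mul]
      congr 1
      ring
    have e2 : Real.sin (2 * Real.pi * y) = 2 * Real.sin (Real.pi * y) * Real.cos (Real.pi * y) := by
      rw [← Real.sin_two_mul]
      congr 1
      ring
    have cy : 0 < Real.cos (Real.pi * y) := by
      refine Real.cos_pos_of_mem_Ioo ⟨?_, ?_⟩
      · linarith only [hpi, mul_nonneg (sub_nonneg.2 hay) (sub_nonneg.2 hpi.le),
          mul_pos (sub_pos.2 ha) (sub_pos.2 hpi)]
      · linarith only [hpi, mul_nonneg (sub_nonneg.2 hyb) (sub_nonneg.2 hpi.le),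
          mul_nonneg (sub_nonneg.2 hb) (sub_nonneg.2 hpi.le)]
    rw [e1, e2]
    linarith only [mul_le_mul_of_nonneg_right q5 cy.le, NegNumA_ch1]
  have hD : 0 < Real.cosh (2 * Real.pi * (5 / 100)) + Real.cos (2 * Real.pi * y) := by
    have e1 : 1 < Real.cosh (2 * Real.pi * (5 / 100)) := Real.one_lt_cosh.2 (by positivity)
    linarith only [Real.neg_one_le_cos (2 * Real.pi * y), e1]
  set S := Real.sin (2 * Real.pi * y) with hS
  set D := Real.cosh (2 * Real.pi * (5 / 100)) + Real.cos (2 * Real.pi * y) with hDd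
  have hS0 : 0 < S := p1.trans_le q1
  -- the first term
  have f1 : s1 / (s2 * c1) ≤ S / (Real.sin (Real.pi * (187 / 100 * y - 1 / 2)) *
      Real.cos (Real.pi * (13 / 100 * y))) :=
    div_le_div₀ hS0.le q1 (by positivity) (mul_le_mul q2 q3 q3'.le p2.le)
  have f2 : (Real.cosh (2 * Real.pi * (65 / 1000)) - 1) /
      Real.sin (2 * Real.pi * (13 / 100 * y)) ≤ 847 / 10000 / s3 :=
    div_le_div₀ (by norm_num) (by linarith only [NegNumA_ch2]) p4 q4
  have f3 : D / S ≤ 498 / 10000 / s1 + t := by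
    have : D / S ≤ 498 / 10000 / S + t := by
      rw [div_add' _ _ _ hS0.ne', div_le_div_iff_of_pos_right hS0]
      exact q6
    have e : 498 / 10000 / S ≤ 498 / 10000 / s1 :=
      div_le_div_of_nonneg_left (by norm_num) p1 q1
    linarith only [e, this]
  have hDS : 0 < D / S := div_pos hD hS0
  have hN : 2 * (D / S) < N3 y := by
    unfold N3
    rw [← hS]
    have : 2 * (498 / 10000) / s1 = 2 * (498 / 10000 / s1) := by ring
    linarith only [this, f3, f2, f1, hn]
  have hN0 : 0 < N3 y := by linarith only [hN, hDS]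
  refine ⟨hN0, ?_⟩
  have hT : TN y = S / D := rfl
  rw [hT, div_lt_iff₀ hN0]
  have e : D / S * (S / D) = 1 := by
    field_simp
  have hSD : 0 < S / D := div_pos hS0 hD
  linarith only [mul_lt_mul_of_pos_right hN hSD, e]

/-- Lower bound for the sine. -/
private theorem NegNumA_slb (x x0 v : ℝ) (h0 : 0 ≤ x0) (h1 : x0 ≤ x) (h2 : x ≤ Real.pi / 2)
    (hv : v ≤ x0 - x0 ^ 3 / 6 + x0 ^ 5 / 120 - x0 ^ 7 / 5040) : v ≤ Real.sin x :=
  (hv.trans (NegNumA_s7 x0 h0)).trans
    (Real.sin_le_sin_of_le_of_le_pi_div_two (by linarith only [h2, h1, h0]) h2 h1)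

/-- Upper bound for the sine. -/
private theorem NegNumA_sub (x x1 v : ℝ) (h0 : 0 ≤ x) (h1 : x ≤ x1) (h2 : x1 ≤ 157 / 100)
    (hv : x1 - x1 ^ 3 / 6 + x1 ^ 5 / 120 ≤ v) : Real.sin x ≤ v :=
  ((Real.sin_le_sin_of_le_of_le_pi_div_two (by linarith only [Real.pi_pos, h0])
    (by linarith only [Real.pi_gt_d6, h2]) h1).trans (NegNumA_s5 x1 (h0.trans h1))).trans hv

/-- Upper bound for the cosine. -/
private theorem NegNumA_cub (x x0 v : ℝ) (h0 : 0 ≤ x0) (h1 : x0 ≤ x) (h2 : x ≤ Real.pi)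
    (hv : 1 - x0 ^ 2 / 2 + x0 ^ 4 / 24 ≤ v) : Real.cos x ≤ v :=
  ((Real.cos_le_cos_of_nonneg_of_le_pi h0 h2 h1).trans (NegNumA_c4 x0 h0)).trans hv

/-- Lower bound for the cosine. -/
private theorem NegNumA_clb (x x1 v : ℝ) (h0 : 0 ≤ x) (h1 : x ≤ x1) (h2 : x1 ≤ 157 / 100)
    (hv : v ≤ 1 - x1 ^ 2 / 2 + x1 ^ 4 / 24 - x1 ^ 6 / 720) : v ≤ Real.cos x :=
  (hv.trans (NegNumA_c6 x1 (h0.trans h1))).trans
    (Real.cos_le_cos_of_nonneg_of_le_pi h0 (by linarith only [Real.pi_gt_d6, h2]) h1)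

/-- Upper bound for the cotangent. -/
private theorem NegNumA_cot (a t : ℝ) (x1 : ℝ) (h0 : a ≤ 1 / 2)
    (h1 : 3141593 / 1000000 * (1 / 2 - a) ≤ x1) (h2 : x1 ≤ 157 / 100) (ht : 0 ≤ t)
    (hv : x1 - x1 ^ 3 / 6 + x1 ^ 5 / 120 ≤ t * (1 - x1 ^ 2 / 2 + x1 ^ 4 / 24 - x1 ^ 6 / 720)) :
    Real.cos (Real.pi * a) ≤ t * Real.sin (Real.pi * a) := by
  have hp := Real.pi_lt_d6
  have hp0 := Real.pi_pos
  have e1 : Real.cos (Real.pi * a) = Real.sin (Real.pi * (1 / 2 - a)) := by
    rw [← Real.sin_pi_div_two_sub]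
    congr 1
    ring
  have e2 : Real.sin (Real.pi * a) = Real.cos (Real.pi * (1 / 2 - a)) := by
    rw [← Real.cos_pi_div_two_sub]
    congr 1
    ring
  rw [e1, e2]
  have g0 : 0 ≤ Real.pi * (1 / 2 - a) := mul_nonneg hp0.le (by linarith only [h0])
  have g1 : Real.pi * (1 / 2 - a) ≤ x1 := by
    refine le_trans (mul_le_mul_of_nonneg_right ?_ (by linarith only [h0])) h1
    norm_num at hp ⊢
    linarith only [hp]
  have k1 := NegNumA_sub _ x1 _ g0 g1 h2 le_rfl
  have k2 := NegNumA_clb _ x1 _ g0 g1 h2 le_rfl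
  exact k1.trans (hv.trans (mul_le_mul_of_nonneg_left k2 ht))

private theorem NegNumA_i1 (y : ℝ) (hy : 267 / 1000 ≤ y) (hy' : y ≤ 13 / 40)
    (hw : 1 / 2 < 187 / 100 * y) : 0 < N3 y ∧ 8 / N3 y < 4 * TN y := by
  have hp := Real.pi_gt_d6
  have hp' := Real.pi_lt_d6
  refine NegNumA_key (267 / 1000) (13 / 40) y (89099 / 100000) (33209 / 100000) (99407 / 100000) (4327 / 20000) (2808 / 3125)
    (by norm_num) (by norm_num) hy hy' hw (by norm_num) (by norm_num) (by norm_num) (by norm_num)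
    ?_ ?_ ?_ ?_ ?_ (by norm_num)
  · exact NegNumA_slb _ (21991 / 20000) _ (by norm_num) (by linarith only [hp]) (by linarith only [hp]) (by norm_num)
  · exact NegNumA_sub _ (33851 / 100000) _ (by linarith only [hp]) (by linarith only [hp']) (by norm_num) (by norm_num)
  · exact NegNumA_cub _ (1363 / 12500) _ (by norm_num) (by linarith only [hp]) (by linarith only [hp]) (by norm_num)
  · exact NegNumA_slb _ (1363 / 6250) _ (by norm_num) (by linarith only [hp]) (by linarith only [hp]) (by norm_num)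
  · exact NegNumA_cot _ _ (183 / 250) (by norm_num) (by norm_num) (by norm_num) (by norm_num)
      (by norm_num)

private theorem NegNumA_i2 (y : ℝ) (hy : 13 / 40 ≤ y) (hy' : y ≤ 349 / 1000)
    (hw : 1 / 2 < 187 / 100 * y) : 0 < N3 y ∧ 8 / N3 y < 4 * TN y := by
  have hp := Real.pi_gt_d6
  have hp' := Real.pi_lt_d6
  refine NegNumA_key (13 / 40) (349 / 1000) y (81269 / 100000) (9227 / 20000) (99121 / 100000) (5247 / 20000) (61281 / 100000)
    (by norm_num) (by norm_num) hy hy' hw (by norm_num) (by norm_num) (by norm_num) (by norm_num)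
    ?_ ?_ ?_ ?_ ?_ (by norm_num)
  · exact NegNumA_slb _ (23719 / 25000) _ (by norm_num) (by linarith only [hp]) (by linarith only [hp]) (by norm_num)
  · exact NegNumA_sub _ (47951 / 100000) _ (by linarith only [hp]) (by linarith only [hp']) (by norm_num) (by norm_num)
  · exact NegNumA_cub _ (13273 / 100000) _ (by norm_num) (by linarith only [hp]) (by linarith only [hp]) (by norm_num)
  · exact NegNumA_slb _ (13273 / 50000) _ (by norm_num) (by linarith only [hp]) (by linarith only [hp]) (by norm_num)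
  · exact NegNumA_cot _ _ (27489 / 50000) (by norm_num) (by norm_num) (by norm_num) (by norm_num)
      (by norm_num)

private theorem NegNumA_i3 (y : ℝ) (hy : 349 / 1000 ≤ y) (hy' : y ≤ 719 / 2000)
    (hw : 1 / 2 < 187 / 100 * y) : 0 < N3 y ∧ 8 / N3 y < 4 * TN y := by
  have hp := Real.pi_gt_d6
  have hp' := Real.pi_lt_d6
  refine NegNumA_key (349 / 1000) (719 / 2000) y (309 / 400) (12879 / 25000) (49493 / 50000) (28121 / 100000) (51351 / 100000)
    (by norm_num) (by norm_num) hy hy' hw (by norm_num) (by norm_num) (by norm_num) (by norm_num)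
    ?_ ?_ ?_ ?_ ?_ (by norm_num)
  · exact NegNumA_slb _ (44139 / 50000) _ (by norm_num) (by linarith only [hp]) (by linarith only [hp]) (by norm_num)
  · exact NegNumA_sub _ (54119 / 100000) _ (by linarith only [hp]) (by linarith only [hp']) (by norm_num) (by norm_num)
  · exact NegNumA_cub _ (14253 / 100000) _ (by norm_num) (by linarith only [hp]) (by linarith only [hp]) (by norm_num)
  · exact NegNumA_slb _ (14253 / 50000) _ (by norm_num) (by linarith only [hp]) (by linarith only [hp]) (by norm_num)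
  · exact NegNumA_cot _ _ (47439 / 100000) (by norm_num) (by norm_num) (by norm_num) (by norm_num)
      (by norm_num)

private theorem NegNumA_i4 (y : ℝ) (hy : 719 / 2000 ≤ y) (hy' : y ≤ 73 / 200)
    (hw : 1 / 2 < 187 / 100 * y) : 0 < N3 y ∧ 8 / N3 y < 4 * TN y := by
  have hp := Real.pi_gt_d6
  have hp' := Real.pi_lt_d6
  refine NegNumA_key (719 / 2000) (73 / 200) y (7501 / 10000) (27129 / 50000) (3957 / 4000) (28943 / 100000) (189 / 400)
    (by norm_num) (by norm_num) hy hy' hw (by norm_num) (by norm_num) (by norm_num) (by norm_num)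
    ?_ ?_ ?_ ?_ ?_ (by norm_num)
  · exact NegNumA_slb _ (42411 / 50000) _ (by norm_num) (by linarith only [hp]) (by linarith only [hp]) (by norm_num)
  · exact NegNumA_sub _ (1147 / 2000) _ (by linarith only [hp]) (by linarith only [hp']) (by norm_num) (by norm_num)
  · exact NegNumA_cub _ (7341 / 50000) _ (by norm_num) (by linarith only [hp]) (by linarith only [hp]) (by norm_num)
  · exact NegNumA_slb _ (7341 / 25000) _ (by norm_num) (by linarith only [hp]) (by linarith only [hp]) (by norm_num)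
  · exact NegNumA_cot _ _ (2207 / 5000) (by norm_num) (by norm_num) (by norm_num) (by norm_num)
      (by norm_num)

private theorem NegNumA_i5 (y : ℝ) (hy : 73 / 200 ≤ y) (hy' : y ≤ 46 / 125)
    (hw : 1 / 2 < 187 / 100 * y) : 0 < N3 y ∧ 8 / N3 y < 4 * TN y := by
  have hp := Real.pi_gt_d6
  have hp' := Real.pi_lt_d6
  refine NegNumA_key (73 / 200) (46 / 125) y (73751 / 100000) (55731 / 100000) (24723 / 25000) (29373 / 100000) (45153 / 100000)
    (by norm_num) (by norm_num) hy hy' hw (by norm_num) (by norm_num) (by norm_num) (by norm_num)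
    ?_ ?_ ?_ ?_ ?_ (by norm_num)
  · exact NegNumA_slb _ (41469 / 50000) _ (by norm_num) (by linarith only [hp]) (by linarith only [hp]) (by norm_num)
  · exact NegNumA_sub _ (59113 / 100000) _ (by linarith only [hp]) (by linarith only [hp']) (by norm_num) (by norm_num)
  · exact NegNumA_cub _ (7453 / 50000) _ (by norm_num) (by linarith only [hp]) (by linarith only [hp]) (by norm_num)
  · exact NegNumA_slb _ (29813 / 100000) _ (by norm_num) (by linarith only [hp]) (by linarith only [hp]) (by norm_num)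
  · exact NegNumA_cot _ _ (10603 / 25000) (by norm_num) (by norm_num) (by norm_num) (by norm_num)
      (by norm_num)

theorem num_A (y : ℝ) (hy : 13 / 100 ≤ y) (hy' : y ≤ 368 / 1000) :
    (187 / 100 * y ≤ 1 / 2 ∨ 0 < N3 y) ∧ 2 * L3 y < 4 * TN y := by
  rcases le_or_gt (187 / 100 * y) (1 / 2) with h | h
  · refine ⟨Or.inl h, ?_⟩
    have hL : L3 y = 0 := if_pos h
    rw [hL]
    have hpi := Real.pi_pos
    have h1 : 0 < Real.sin (2 * Real.pi * y) := by
      refine Real.sin_pos_of_pos_of_lt_pi ?_ ?_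
      · positivity
      · linarith only [hpi, mul_nonneg (sub_nonneg.2 hy') (sub_nonneg.2 hpi.le)]
    have h2 : 0 < Real.cosh (2 * Real.pi * (5 / 100)) + Real.cos (2 * Real.pi * y) := by
      have e1 : 1 < Real.cosh (2 * Real.pi * (5 / 100)) := Real.one_lt_cosh.2 (by positivity)
      linarith only [Real.neg_one_le_cos (2 * Real.pi * y), e1]
    have h3 : 0 < TN y := div_pos h1 h2
    linarith only [h3]
  · have hk : 0 < N3 y ∧ 8 / N3 y < 4 * TN y := by
      rcases le_or_gt y (13 / 40) with h1 | h1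
      · exact NegNumA_i1 y (by linarith only [h]) h1 h
      rcases le_or_gt y (349 / 1000) with h2 | h2
      · exact NegNumA_i2 y h1.le h2 h
      rcases le_or_gt y (719 / 2000) with h3 | h3
      · exact NegNumA_i3 y h2.le h3 h
      rcases le_or_gt y (73 / 200) with h4 | h4
      · exact NegNumA_i4 y h3.le h4 h
      · exact NegNumA_i5 y h4.le (hy'.trans (by norm_num)) h
    refine ⟨Or.inr hk.1, ?_⟩
    have hL : L3 y = 4 / N3 y := if_neg (not_le.2 h)
    rw [hL]
    have e : 2 * (4 / N3 y) = 8 / N3 y := by ring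
    rw [e]
    exact hk.2

end Pool.Agent.H63.GO
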