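import Pool.Agent.H63.GO.NegDefs

/-! # Negativity of the second derivative: the one-variable inequality B -/

namespace Pool.Agent.H63.GO

/-! ## Taylor bounds -/

private lemma NegNumB_pos {f f' : ℝ → ℝ} (hf : ∀ x, HasDerivAt f (f' x) x) (h0 : f 0 = 0) (hp : ∀ x, 0 ≤ x → 0 ≤ f' x)
    {x : ℝ} (hx : 0 ≤ x) : 0 ≤ f x := by
  have hm : MonotoneOn f (Set.Ici 0) := by
    refine monotoneOn_of_deriv_nonneg (convex_Ici 0) (fun y _ => (hf y).continuousAt.continuousWithinAt)
      (fun y _ => (hf y).differentiableAt.differentiableWithinAt) fun y hy => ?_
    rw [(hf y).deriv]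
    exact hp y (interior_subset hy)
  have := hm (Set.mem_Ici.2 le_rfl) (Set.mem_Ici.2 hx) hx
  rwa [h0] at this

private lemma NegNumB_s3 {x : ℝ} (hx : 0 ≤ x) : x - x ^ 3 / 6 ≤ Real.sin x := by
  have h := NegNumB_pos (f := fun x => Real.sin x - (x - x ^ 3 / 6)) (f' := fun x => Real.cos x - (1 - x ^ 2 / 2))
    (fun x => by
      have h1 := (Real.hasDerivAt_sin x).sub ((hasDerivAt_id' x).sub ((hasDerivAt_pow 3 x).div_const 6))
      refine h1.congr_deriv ?_
      norm_num
      try ring)
    (by simp) (fun x hx => by linarith only [Real.one_sub_sq_div_two_le_cos (x := x)]) hx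
  linarith only [h]

private lemma NegNumB_c4 {x : ℝ} (hx : 0 ≤ x) : Real.cos x ≤ 1 - x ^ 2 / 2 + x ^ 4 / 24 := by
  have h := NegNumB_pos (f := fun x => 1 - x ^ 2 / 2 + x ^ 4 / 24 - Real.cos x) (f' := fun x => Real.sin x - (x - x ^ 3 / 6))
    (fun x => by
      have h1 := (((hasDerivAt_const x (1 : ℝ)).sub ((hasDerivAt_pow 2 x).div_const 2)).add
        ((hasDerivAt_pow 4 x).div_const 24)).sub (Real.hasDerivAt_cos x)
      refine h1.congr_deriv ?_
      norm_num
      try ring)
    (by simp) (fun x hx => by linarith only [NegNumB_s3 hx]) hx
  linarith only [h]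

private lemma NegNumB_s5 {x : ℝ} (hx : 0 ≤ x) : Real.sin x ≤ x - x ^ 3 / 6 + x ^ 5 / 120 := by
  have h := NegNumB_pos (f := fun x => x - x ^ 3 / 6 + x ^ 5 / 120 - Real.sin x)
    (f' := fun x => 1 - x ^ 2 / 2 + x ^ 4 / 24 - Real.cos x)
    (fun x => by
      have h1 := (((hasDerivAt_id' x).sub ((hasDerivAt_pow 3 x).div_const 6)).add
        ((hasDerivAt_pow 5 x).div_const 120)).sub (Real.hasDerivAt_sin x)
      refine h1.congr_deriv ?_
      norm_num
      try ring)
    (by simp) (fun x hx => by linarith only [NegNumB_c4 hx]) hx
  linarith only [h]

private lemma NegNumB_c6 {x : ℝ} (hx : 0 ≤ x) : 1 - x ^ 2 / 2 + x ^ 4 / 24 - x ^ 6 / 720 ≤ Real.cos x := by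
  have h := NegNumB_pos (f := fun x => Real.cos x - (1 - x ^ 2 / 2 + x ^ 4 / 24 - x ^ 6 / 720))
    (f' := fun x => x - x ^ 3 / 6 + x ^ 5 / 120 - Real.sin x)
    (fun x => by
      have h1 := (Real.hasDerivAt_cos x).sub ((((hasDerivAt_const x (1 : ℝ)).sub ((hasDerivAt_pow 2 x).div_const 2)).add
        ((hasDerivAt_pow 4 x).div_const 24)).sub ((hasDerivAt_pow 6 x).div_const 720))
      refine h1.congr_deriv ?_
      norm_num
      try ring)
    (by simp) (fun x hx => by linarith only [NegNumB_s5 hx]) hx
  linarith only [h]

private lemma NegNumB_s7 {x : ℝ} (hx : 0 ≤ x) : x - x ^ 3 / 6 + x ^ 5 / 120 - x ^ 7 / 5040 ≤ Real.sin x := by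
  have h := NegNumB_pos (f := fun x => Real.sin x - (x - x ^ 3 / 6 + x ^ 5 / 120 - x ^ 7 / 5040))
    (f' := fun x => Real.cos x - (1 - x ^ 2 / 2 + x ^ 4 / 24 - x ^ 6 / 720))
    (fun x => by
      have h1 := (Real.hasDerivAt_sin x).sub ((((hasDerivAt_id' x).sub ((hasDerivAt_pow 3 x).div_const 6)).add
        ((hasDerivAt_pow 5 x).div_const 120)).sub ((hasDerivAt_pow 7 x).div_const 5040))
      refine h1.congr_deriv ?_
      norm_num
      try ring)
    (by simp) (fun x hx => by linarith only [NegNumB_c6 hx]) hx
  linarith only [h]

private lemma NegNumB_cosl {x h c : ℝ} (hx : 0 ≤ x) (hh : x ≤ h) (h3 : h ≤ 3)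
    (hc : c ≤ 1 - h ^ 2 / 2 + h ^ 4 / 24 - h ^ 6 / 720) : c ≤ Real.cos x :=
  (hc.trans (NegNumB_c6 (hx.trans hh))).trans
    (Real.cos_le_cos_of_nonneg_of_le_pi hx (by linarith only [Real.pi_gt_three, h3]) hh)

private lemma NegNumB_cosu {x l c : ℝ} (hl : 0 ≤ l) (hx : l ≤ x) (h3 : x ≤ 3)
    (hc : 1 - l ^ 2 / 2 + l ^ 4 / 24 ≤ c) : Real.cos x ≤ c :=
  (Real.cos_le_cos_of_nonneg_of_le_pi hl (by linarith only [Real.pi_gt_three, h3]) hx).trans ((NegNumB_c4 hl).trans hc)

private lemma NegNumB_sinl {x l c : ℝ} (hl : 0 ≤ l) (hx : l ≤ x) (h3 : x ≤ 3 / 2)
    (hc : c ≤ l - l ^ 3 / 6 + l ^ 5 / 120 - l ^ 7 / 5040) : c ≤ Real.sin x :=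
  (hc.trans (NegNumB_s7 hl)).trans
    (Real.sin_le_sin_of_le_of_le_pi_div_two (by linarith only [Real.pi_gt_three, hl]) (by linarith only [Real.pi_gt_three,
                                                                                            h3]) hx)

private lemma NegNumB_sinu {x h c : ℝ} (hx : 0 ≤ x) (hh : x ≤ h) (h3 : h ≤ 3 / 2)
    (hc : h - h ^ 3 / 6 + h ^ 5 / 120 ≤ c) : Real.sin x ≤ c :=
  (Real.sin_le_sin_of_le_of_le_pi_div_two (by linarith only [Real.pi_gt_three, hx]) (by linarith only [Real.pi_gt_three,
                                                                                          h3]) hh).trans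
    ((NegNumB_s5 (hx.trans hh)).trans hc)

private lemma NegNumB_cosh {z c : ℝ} (hz : 0 ≤ z) (hz1 : z ≤ 1)
    (hc : 1 + z ^ 2 / 2 + z ^ 4 / 24 + z ^ 6 * (7 / 4320) ≤ c) : Real.cosh z ≤ c := by
  have h1 := Real.exp_bound (x := z) (by rw [abs_of_nonneg hz]; exact hz1) (n := 6) (by norm_num)
  have h2 := Real.exp_bound (x := -z) (by rw [abs_neg, abs_of_nonneg hz]; exact hz1) (n := 6) (by norm_num)
  have h3 := (abs_le.1 h1).2
  have h4 := (abs_le.1 h2).2
  rw [abs_of_nonneg hz] at h3
  rw [abs_neg, abs_of_nonneg hz] at h4
  simp only [Finset.sum_range_succ, Finset.sum_range_zero, Nat.factorial, Nat.succ_eq_add_one] at h3 h4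
  norm_num at h3 h4
  rw [Real.cosh_eq]
  linarith only [h4, h3, hc]

/-! ## General bounds -/

private lemma NegNumB_TN {y0 y : ℝ} (h0 : 11 / 100 ≤ y0) (hy0 : y0 ≤ y) (h1 : y ≤ 38 / 100) (hd : y - y0 ≤ 16 / 100) :
    TN y0 ≤ TN y := by
  have hpi := Real.pi_gt_three
  have hpi' := Real.pi_lt_d2
  obtain ⟨K, hK⟩ : ∃ K, K = Real.cosh (2 * Real.pi * (5 / 100)) := ⟨_, rfl⟩
  have hK1 : 1 < K := by
    rw [hK]
    exact Real.one_lt_cosh.2 (by positivity)
  have hK2 : K ≤ 106 / 100 := by
    rw [hK]
    have hz : 2 * Real.pi * (5 / 100) ≤ 315 / 1000 := by linarith only [hpi']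
    have h2 : Real.cosh (2 * Real.pi * (5 / 100)) ≤ Real.cosh (315 / 1000) := by
      rw [Real.cosh_le_cosh, abs_of_nonneg (by positivity), abs_of_nonneg (by norm_num)]
      exact hz
    exact h2.trans (NegNumB_cosh (by norm_num) (by norm_num) (by norm_num))
  have hp0 : 0 < K + Real.cos (2 * Real.pi * y0) := by linarith only [Real.neg_one_le_cos (2 * Real.pi * y0),
                                                         hK1]
  have hp1 : 0 < K + Real.cos (2 * Real.pi * y) := by linarith only [Real.neg_one_le_cos (2 * Real.pi * y),
                                                        hK1]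
  unfold TN
  rw [← hK, div_le_div_iff₀ hp0 hp1]
  obtain ⟨S, hS⟩ : ∃ S, S = Real.pi * (y + y0) := ⟨_, rfl⟩
  obtain ⟨D, hD⟩ : ∃ D, D = Real.pi * (y - y0) := ⟨_, rfl⟩
  have e1 : 2 * Real.pi * y = S + D := by rw [hS, hD]; ring
  have e2 : 2 * Real.pi * y0 = S - D := by rw [hS, hD]; ring
  have hD0 : 0 ≤ D := by rw [hD]; exact mul_nonneg (by linarith only [hpi]) (by linarith only [hy0])
  have hD1 : D ≤ 504 / 1000 := by rw [hD]; (refine le_of_not_gt fun hng => ?_; linarith only [hd,
                                             mul_nonneg (sub_nonneg.2 hy0) (sub_nonneg.2 hpi'.le),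
                                             mul_nonneg (sub_nonneg.2 hng.le) (sub_nonneg.2 hK2),
                                             mul_pos (sub_pos.2 hng) (sub_pos.2 hK1)])
  have hsD : 0 ≤ Real.sin D := Real.sin_nonneg_of_nonneg_of_le_pi hD0 (by linarith only [hD1, hK2,
                                                                            hK1, hpi])
  have hcD : 87 / 100 ≤ Real.cos D := NegNumB_cosl hD0 hD1 (by norm_num) (by norm_num)
  have hS1 : S ≤ Real.pi * (76 / 100) := by rw [hS]; (refine le_of_not_gt fun hng => ?_; linarith only [hD0,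
                                                       hD, h1,
                                                       mul_nonneg (sub_nonneg.2 h1) (sub_nonneg.2 hpi.le),
                                                       mul_nonneg (sub_nonneg.2 hng.le) (sub_nonneg.2 hK2),
                                                       mul_pos (sub_pos.2 hng) (sub_pos.2 hK1)])
  have hS0 : 0 ≤ S := by rw [hS]; exact mul_nonneg (by linarith only [hpi]) (by linarith only [hy0,
                                                                                  h0])
  have hcS : -(8 / 10) ≤ Real.cos S := by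
    have h2 : Real.cos (Real.pi * (76 / 100)) ≤ Real.cos S :=
      Real.cos_le_cos_of_nonneg_of_le_pi hS0 (by linarith only [hpi]) hS1
    have h3 : Real.cos (Real.pi * (76 / 100)) = -Real.sin (Real.pi * (26 / 100)) := by
      rw [← Real.cos_add_pi_div_two]
      congr 1
      ring
    have h4 : Real.sin (Real.pi * (26 / 100)) ≤ 8 / 10 :=
      NegNumB_sinu (h := 82 / 100) (by positivity) (by linarith only [hpi', hpi]) (by norm_num) (by norm_num)
    linarith only [h4, h3, h2]
  have h5 : 0 ≤ K * Real.cos S + Real.cos D := by (refine le_of_not_gt fun hng => ?_; linarith only [hcS,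
                                                    hcD, hK2, hpi', hpi,
                                                    mul_nonneg (sub_nonneg.2 hK1.le) (sub_nonneg.2 hcS),
                                                    mul_nonneg (sub_nonneg.2 hng.le) (sub_nonneg.2 hK2),
                                                    mul_pos (sub_pos.2 hng) (sub_pos.2 hK1)])
  rw [e1, e2, Real.sin_add, Real.sin_sub, Real.cos_add, Real.cos_sub]
  have h6 := mul_nonneg hsD h5
  have h7 := Real.sin_sq_add_cos_sq S
  have h8 : (Real.sin S * Real.cos D + Real.cos S * Real.sin D) * (K + (Real.cos S * Real.cos D + Real.sin S * Real.sin D)) -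
      (Real.sin S * Real.cos D - Real.cos S * Real.sin D) * (K + (Real.cos S * Real.cos D - Real.sin S * Real.sin D)) =
      2 * (Real.sin D * (K * Real.cos S + Real.cos D)) := by
    linear_combination (2 * Real.sin D * Real.cos D) * h7
  linarith only [h8, h6]

private lemma NegNumB_T {y0 y U V : ℝ} (h0 : 11 / 100 ≤ y0) (hy0 : y0 ≤ y) (h1 : y ≤ 38 / 100) (hd : y - y0 ≤ 16 / 100)
    (hU : U ≤ Real.sin (2 * Real.pi * y0)) (hU0 : 0 < U) (hV : Real.cos (2 * Real.pi * y0) ≤ V)
    (_hV0 : 0 < 10498 / 10000 + V) : U / (10498 / 10000 + V) ≤ TN y := by
  have hpi := Real.pi_gt_three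
  have hpi' := Real.pi_lt_d4
  refine le_trans ?_ (NegNumB_TN h0 hy0 h1 hd)
  unfold TN
  have hK : Real.cosh (2 * Real.pi * (5 / 100)) ≤ 10498 / 10000 := by
    have hz : 2 * Real.pi * (5 / 100) ≤ 31416 / 100000 := by linarith only [hpi']
    have h3 : Real.cosh (2 * Real.pi * (5 / 100)) ≤ Real.cosh (31416 / 100000) := by
      rw [Real.cosh_le_cosh, abs_of_nonneg (by positivity), abs_of_nonneg (by norm_num)]
      exact hz
    exact h3.trans (NegNumB_cosh (by norm_num) (by norm_num) (by norm_num))
  have hK1 : 1 < Real.cosh (2 * Real.pi * (5 / 100)) := Real.one_lt_cosh.2 (by positivity)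
  exact div_le_div₀ (hU0.le.trans hU) hU (by linarith only [Real.neg_one_le_cos (2 * Real.pi * y0),
                                               hK1]) (by linarith only [hK, hV])

private lemma NegNumB_n2 {y0 y1 y C S Q R : ℝ} (h0 : 11 / 100 ≤ y0) (h1 : y1 ≤ 38 / 100)
    (hy0 : y0 ≤ y) (hy1 : y ≤ y1)
    (hC : C ≤ Real.cos (Real.pi * y1)) (hC0 : 0 < C) (hS : Real.sin (Real.pi * (91 / 100 * y1 - 45 / 1000)) ≤ S)
    (hQ : Real.cos (Real.pi * (9 / 100 * (y0 + 1 / 2))) ≤ Q)
    (hR : R ≤ Real.sin (Real.pi * (18 / 100 * (y0 + 1 / 2)))) (hR0 : 0 < R) :
    C / (S * Q) - 984 / 10000 / R ≤ N2 (y + 1 / 2) := by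
  have hpi := Real.pi_gt_three
  have hpi' := Real.pi_lt_d4
  have hsφ : 0 < Real.sin (Real.pi * (91 / 100 * y - 45 / 1000)) :=
    Real.sin_pos_of_pos_of_lt_pi (mul_pos (by linarith only [hpi]) (by linarith only [hy0, h0])) (by linarith only [hpi',
                                                                                                       hpi,
                                                                                                       hy1,
                                                                                                       h1,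
                                                                                                       mul_nonneg (sub_nonneg.2 hy0) (sub_nonneg.2 hpi'.le),
                                                                                                       mul_nonneg (sub_nonneg.2 h0) (sub_nonneg.2 hpi'.le)])
  have hcψ : 0 < Real.cos (Real.pi * (9 / 100 * (y + 1 / 2))) :=
    Real.cos_pos_of_mem_Ioo ⟨by linarith only [hpi', hpi, hy0, h0,
                                  mul_nonneg (sub_nonneg.2 hy0) (sub_nonneg.2 hpi.le),
                                  mul_nonneg (sub_nonneg.2 h0) (sub_nonneg.2 hpi.le)], by linarith only [hpi',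
                                                                                            hpi,
                                                                                            hy1, h1,
                                                                                            mul_nonneg (sub_nonneg.2 hy0) (sub_nonneg.2 hpi'.le),
                                                                                            mul_nonneg (sub_nonneg.2 h0) (sub_nonneg.2 hpi'.le)]⟩
  have hA : C / (S * Q) ≤ Real.sin (Real.pi * (y + 1 / 2)) / (Real.sin (Real.pi * (91 / 100 * (y + 1 / 2) - 1 / 2)) *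
      Real.cos (Real.pi * (9 / 100 * (y + 1 / 2)))) := by
    have e1 : Real.sin (Real.pi * (y + 1 / 2)) = Real.cos (Real.pi * y) := by
      rw [← Real.sin_add_pi_div_two]
      congr 1
      ring
    have e2 : Real.pi * (91 / 100 * (y + 1 / 2) - 1 / 2) = Real.pi * (91 / 100 * y - 45 / 1000) := by ring
    rw [e1, e2]
    have h2 : C ≤ Real.cos (Real.pi * y) :=
      hC.trans (Real.cos_le_cos_of_nonneg_of_le_pi (mul_nonneg (by linarith only [hpi]) (by linarith only [hy0,
                                                                                              h0])) (by (refine le_of_not_gt fun hng => ?_; linarith only [hpi',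
                                                                                                          hpi,
                                                                                                          h1,
                                                                                                          mul_nonneg (sub_nonneg.2 h1) (sub_nonneg.2 hpi.le),
                                                                                                          mul_pos (sub_pos.2 hng) (sub_pos.2 hpi'),
                                                                                                          mul_pos (sub_pos.2 hng) (sub_pos.2 hpi)])) (by (refine le_of_not_gt fun hng => ?_; linarith only [hy1,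
                                                                                                                                                           mul_nonneg (sub_nonneg.2 hy1) (sub_nonneg.2 hpi.le),
                                                                                                                                                           mul_pos (sub_pos.2 hng) (sub_pos.2 hpi'),
                                                                                                                                                           mul_pos (sub_pos.2 hng) (sub_pos.2 hpi)])))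
    have h3 : Real.sin (Real.pi * (91 / 100 * y - 45 / 1000)) ≤ S :=
      (Real.sin_le_sin_of_le_of_le_pi_div_two (by (refine le_of_not_gt fun hng => ?_; linarith only [hpi',
                                                    hpi, hy0, h0,
                                                    mul_nonneg (sub_nonneg.2 hy0) (sub_nonneg.2 hpi.le),
                                                    mul_nonneg (sub_nonneg.2 h0) (sub_nonneg.2 hpi.le),
                                                    mul_pos (sub_pos.2 hng) (sub_pos.2 hpi'),
                                                    mul_pos (sub_pos.2 hng) (sub_pos.2 hpi)])) (by (refine le_of_not_gt fun hng => ?_; linarith only [hpi',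
                                                                                                     hpi,
                                                                                                     h1,
                                                                                                     mul_nonneg (sub_nonneg.2 h1) (sub_nonneg.2 hpi.le),
                                                                                                     mul_pos (sub_pos.2 hng) (sub_pos.2 hpi'),
                                                                                                     mul_pos (sub_pos.2 hng) (sub_pos.2 hpi)])) (by (refine le_of_not_gt fun hng => ?_; linarith only [hy1,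
                                                                                                                                                      mul_nonneg (sub_nonneg.2 hy1) (sub_nonneg.2 hpi.le),
                                                                                                                                                      mul_pos (sub_pos.2 hng) (sub_pos.2 hpi'),
                                                                                                                                                      mul_pos (sub_pos.2 hng) (sub_pos.2 hpi)]))).trans hS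
    have h4 : Real.cos (Real.pi * (9 / 100 * (y + 1 / 2))) ≤ Q :=
      (Real.cos_le_cos_of_nonneg_of_le_pi (mul_nonneg (by linarith only [hpi]) (by linarith only [h0])) (by (refine le_of_not_gt fun hng => ?_; linarith only [hpi',
                                                                                                              hpi,
                                                                                                              hy1,
                                                                                                              h1,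
                                                                                                              mul_nonneg (sub_nonneg.2 hy0) (sub_nonneg.2 hpi'.le),
                                                                                                              mul_nonneg (sub_nonneg.2 h0) (sub_nonneg.2 hpi'.le),
                                                                                                              mul_pos (sub_pos.2 hng) (sub_pos.2 hpi'),
                                                                                                              mul_pos (sub_pos.2 hng) (sub_pos.2 hpi)])) (by (refine le_of_not_gt fun hng => ?_; linarith only [hy0,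
                                                                                                                                                               mul_nonneg (sub_nonneg.2 hy0) (sub_nonneg.2 hpi.le),
                                                                                                                                                               mul_pos (sub_pos.2 hng) (sub_pos.2 hpi'),
                                                                                                                                                               mul_pos (sub_pos.2 hng) (sub_pos.2 hpi)]))).trans hQ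
    have h5 : 0 < S := hsφ.trans_le h3
    exact div_le_div₀ (hC0.le.trans h2) h2 (mul_pos hsφ hcψ) (mul_le_mul h3 h4 hcψ.le h5.le)
  have hB : (Real.cosh (2 * Real.pi * (7 / 100)) - 1) / Real.sin (2 * Real.pi * (9 / 100 * (y + 1 / 2))) ≤ 984 / 10000 / R := by
    have h2 : Real.cosh (2 * Real.pi * (7 / 100)) ≤ 1 + 984 / 10000 := by
      have hz : 2 * Real.pi * (7 / 100) ≤ 43985 / 100000 := by linarith only [hpi', hpi]
      have h3 : Real.cosh (2 * Real.pi * (7 / 100)) ≤ Real.cosh (43985 / 100000) := by
        rw [Real.cosh_le_cosh, abs_of_nonneg (by positivity), abs_of_nonneg (by norm_num)]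
        exact hz
      exact h3.trans (NegNumB_cosh (by norm_num) (by norm_num) (by norm_num))
    have h3 : R ≤ Real.sin (2 * Real.pi * (9 / 100 * (y + 1 / 2))) := by
      refine hR.trans ?_
      have e1 : 2 * Real.pi * (9 / 100 * (y + 1 / 2)) = Real.pi * (18 / 100 * (y + 1 / 2)) := by ring
      rw [e1]
      exact Real.sin_le_sin_of_le_of_le_pi_div_two (by (refine le_of_not_gt fun hng => ?_; linarith only [hpi',
                                                         hpi, h0,
                                                         mul_nonneg (sub_nonneg.2 h0) (sub_nonneg.2 hpi.le),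
                                                         mul_pos (sub_pos.2 hng) (sub_pos.2 hpi'),
                                                         mul_pos (sub_pos.2 hng) (sub_pos.2 hpi)])) (by (refine le_of_not_gt fun hng => ?_; linarith only [hpi',
                                                                                                          hpi,
                                                                                                          hy1,
                                                                                                          h1,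
                                                                                                          mul_nonneg (sub_nonneg.2 hy0) (sub_nonneg.2 hpi'.le),
                                                                                                          mul_nonneg (sub_nonneg.2 h0) (sub_nonneg.2 hpi'.le),
                                                                                                          mul_pos (sub_pos.2 hng) (sub_pos.2 hpi'),
                                                                                                          mul_pos (sub_pos.2 hng) (sub_pos.2 hpi)])) (by (refine le_of_not_gt fun hng => ?_; linarith only [hy0,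
                                                                                                                                                           mul_nonneg (sub_nonneg.2 hy0) (sub_nonneg.2 hpi.le),
                                                                                                                                                           mul_pos (sub_pos.2 hng) (sub_pos.2 hpi'),
                                                                                                                                                           mul_pos (sub_pos.2 hng) (sub_pos.2 hpi)]))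
    exact div_le_div₀ (by norm_num) (by linarith only [h2]) hR0 h3
  unfold N2
  linarith only [hB, hA]

private lemma NegNumB_n3 {y0 y1 y s1 s2 c1 s3 : ℝ} (h0 : 1 / 4 < y0) (h1 : y1 ≤ 38 / 100)
    (hy0 : y0 ≤ y) (hy1 : y ≤ y1) (hw : 1 / 2 < 187 / 100 * y)
    (g1 : s1 ≤ Real.sin (Real.pi * (1 - 2 * y1))) (p1 : 0 < s1)
    (g2 : Real.sin (Real.pi * (187 / 100 * y1 - 1 / 2)) ≤ s2) (p2 : 0 < s2)
    (g3 : Real.cos (Real.pi * (13 / 100 * y0)) ≤ c1)
    (g4 : s3 ≤ Real.sin (2 * Real.pi * (13 / 100 * y0))) (p4 : 0 < s3) :
    s1 / (s2 * c1) - 847 / 10000 / s3 ≤ N3 y := by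
  have hpi := Real.pi_gt_three
  have hpi' := Real.pi_lt_d4
  have q1 : s1 ≤ Real.sin (2 * Real.pi * y) := by
    have e : Real.sin (2 * Real.pi * y) = Real.sin (Real.pi * (1 - 2 * y)) := by
      rw [← Real.sin_pi_sub]
      congr 1
      ring
    rw [e]
    refine g1.trans (Real.sin_le_sin_of_le_of_le_pi_div_two ?_ ?_ ?_)
    · (refine le_of_not_gt fun hng => ?_; linarith only [hpi, hy1, hy0, h1,
        mul_nonneg (sub_nonneg.2 h1) (sub_nonneg.2 hpi.le), mul_pos (sub_pos.2 h0) (sub_pos.2 hpi'),
        mul_pos (sub_pos.2 h0) (sub_pos.2 hpi), mul_pos (sub_pos.2 hng) (sub_pos.2 hpi'),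
        mul_pos (sub_pos.2 hng) (sub_pos.2 hpi)])
    · (refine le_of_not_gt fun hng => ?_; linarith only [hy0,
        mul_nonneg (sub_nonneg.2 hy0) (sub_nonneg.2 hpi.le),
        mul_pos (sub_pos.2 h0) (sub_pos.2 hpi'), mul_pos (sub_pos.2 h0) (sub_pos.2 hpi),
        mul_pos (sub_pos.2 hng) (sub_pos.2 hpi'), mul_pos (sub_pos.2 hng) (sub_pos.2 hpi)])
    · (refine le_of_not_gt fun hng => ?_; linarith only [hy1,
        mul_nonneg (sub_nonneg.2 hy1) (sub_nonneg.2 hpi.le),
        mul_pos (sub_pos.2 hng) (sub_pos.2 hpi'), mul_pos (sub_pos.2 hng) (sub_pos.2 hpi)])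
  have q2 : Real.sin (Real.pi * (187 / 100 * y - 1 / 2)) ≤ s2 := by
    refine (Real.sin_le_sin_of_le_of_le_pi_div_two ?_ ?_ ?_).trans g2
    · (refine le_of_not_gt fun hng => ?_; linarith only [hpi, hy1, hy0, h1,
        mul_nonneg (sub_nonneg.2 hy0) (sub_nonneg.2 hpi.le),
        mul_pos (sub_pos.2 h0) (sub_pos.2 hpi'), mul_pos (sub_pos.2 h0) (sub_pos.2 hpi),
        mul_pos (sub_pos.2 hng) (sub_pos.2 hpi'), mul_pos (sub_pos.2 hng) (sub_pos.2 hpi)])
    · (refine le_of_not_gt fun hng => ?_; linarith only [hpi, hy1, hy0, h1,
        mul_nonneg (sub_nonneg.2 h1) (sub_nonneg.2 hpi.le), mul_pos (sub_pos.2 h0) (sub_pos.2 hpi'),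
        mul_pos (sub_pos.2 h0) (sub_pos.2 hpi), mul_pos (sub_pos.2 hng) (sub_pos.2 hpi'),
        mul_pos (sub_pos.2 hng) (sub_pos.2 hpi)])
    · (refine le_of_not_gt fun hng => ?_; linarith only [hy1,
        mul_nonneg (sub_nonneg.2 hy1) (sub_nonneg.2 hpi.le),
        mul_pos (sub_pos.2 hng) (sub_pos.2 hpi'), mul_pos (sub_pos.2 hng) (sub_pos.2 hpi)])
  have q2' : 0 < Real.sin (Real.pi * (187 / 100 * y - 1 / 2)) := by
    refine Real.sin_pos_of_pos_of_lt_pi ?_ ?_
    · linarith only [mul_pos (sub_pos.2 hw) (sub_pos.2 hpi),
        mul_nonneg (sub_nonneg.2 hy1) (sub_nonneg.2 hw.le),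
        mul_nonneg (sub_nonneg.2 hy0) (sub_nonneg.2 hw.le),
        mul_nonneg (sub_nonneg.2 h1) (sub_nonneg.2 hw.le), mul_pos (sub_pos.2 h0) (sub_pos.2 hw)]
    · linarith only [hpi, hy1, hy0, h1, mul_nonneg (sub_nonneg.2 hy0) (sub_nonneg.2 hpi'.le),
        mul_pos (sub_pos.2 h0) (sub_pos.2 hpi'), mul_pos (sub_pos.2 h0) (sub_pos.2 hpi)]
  have q3 : Real.cos (Real.pi * (13 / 100 * y)) ≤ c1 := by
    refine (Real.cos_le_cos_of_nonneg_of_le_pi ?_ ?_ ?_).trans g3
    · (refine le_of_not_gt fun hng => ?_; linarith only [hpi', hpi, h0,
        mul_pos (sub_pos.2 h0) (sub_pos.2 hpi), mul_pos (sub_pos.2 hng) (sub_pos.2 hpi'),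
        mul_pos (sub_pos.2 hng) (sub_pos.2 hpi)])
    · (refine le_of_not_gt fun hng => ?_; linarith only [hpi, hy1, hy0, h1,
        mul_nonneg (sub_nonneg.2 hy0) (sub_nonneg.2 hpi'.le),
        mul_pos (sub_pos.2 h0) (sub_pos.2 hpi'), mul_pos (sub_pos.2 h0) (sub_pos.2 hpi),
        mul_pos (sub_pos.2 hng) (sub_pos.2 hpi'), mul_pos (sub_pos.2 hng) (sub_pos.2 hpi)])
    · (refine le_of_not_gt fun hng => ?_; linarith only [hy0,
        mul_nonneg (sub_nonneg.2 hy0) (sub_nonneg.2 hpi.le),
        mul_pos (sub_pos.2 hng) (sub_pos.2 hpi'), mul_pos (sub_pos.2 hng) (sub_pos.2 hpi)])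
  have q3' : 0 < Real.cos (Real.pi * (13 / 100 * y)) := by
    refine Real.cos_pos_of_mem_Ioo ⟨?_, ?_⟩
    · linarith only [hpi, hy1, hy0, h1, mul_nonneg (sub_nonneg.2 hy0) (sub_nonneg.2 hpi.le),
        mul_pos (sub_pos.2 h0) (sub_pos.2 hpi'), mul_pos (sub_pos.2 h0) (sub_pos.2 hpi)]
    · linarith only [hpi, hy1, hy0, h1, mul_nonneg (sub_nonneg.2 hy0) (sub_nonneg.2 hpi'.le),
        mul_pos (sub_pos.2 h0) (sub_pos.2 hpi'), mul_pos (sub_pos.2 h0) (sub_pos.2 hpi)]
  have q4 : s3 ≤ Real.sin (2 * Real.pi * (13 / 100 * y)) := by
    refine g4.trans (Real.sin_le_sin_of_le_of_le_pi_div_two ?_ ?_ ?_)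
    · (refine le_of_not_gt fun hng => ?_; linarith only [hpi', hpi, h0,
        mul_pos (sub_pos.2 h0) (sub_pos.2 hpi), mul_pos (sub_pos.2 hng) (sub_pos.2 hpi'),
        mul_pos (sub_pos.2 hng) (sub_pos.2 hpi)])
    · (refine le_of_not_gt fun hng => ?_; linarith only [hpi, hy1, hy0, h1,
        mul_nonneg (sub_nonneg.2 hy0) (sub_nonneg.2 hpi'.le),
        mul_pos (sub_pos.2 h0) (sub_pos.2 hpi'), mul_pos (sub_pos.2 h0) (sub_pos.2 hpi),
        mul_pos (sub_pos.2 hng) (sub_pos.2 hpi'), mul_pos (sub_pos.2 hng) (sub_pos.2 hpi)])
    · (refine le_of_not_gt fun hng => ?_; linarith only [hy0,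
        mul_nonneg (sub_nonneg.2 hy0) (sub_nonneg.2 hpi.le),
        mul_pos (sub_pos.2 hng) (sub_pos.2 hpi'), mul_pos (sub_pos.2 hng) (sub_pos.2 hpi)])
  have hK : Real.cosh (2 * Real.pi * (65 / 1000)) ≤ 1 + 847 / 10000 := by
    have hz : 2 * Real.pi * (65 / 1000) ≤ 40842 / 100000 := by linarith only [hpi', hpi]
    have h3 : Real.cosh (2 * Real.pi * (65 / 1000)) ≤ Real.cosh (40842 / 100000) := by
      rw [Real.cosh_le_cosh, abs_of_nonneg (by positivity), abs_of_nonneg (by norm_num)]
      exact hz
    exact h3.trans (NegNumB_cosh (by norm_num) (by norm_num) (by norm_num))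
  have hS0 : 0 < Real.sin (2 * Real.pi * y) := p1.trans_le q1
  have f1 : s1 / (s2 * c1) ≤ Real.sin (2 * Real.pi * y) / (Real.sin (Real.pi * (187 / 100 * y - 1 / 2)) *
      Real.cos (Real.pi * (13 / 100 * y))) :=
    div_le_div₀ hS0.le q1 (mul_pos q2' q3') (mul_le_mul q2 q3 q3'.le p2.le)
  have f2 : (Real.cosh (2 * Real.pi * (65 / 1000)) - 1) /
      Real.sin (2 * Real.pi * (13 / 100 * y)) ≤ 847 / 10000 / s3 :=
    div_le_div₀ (by norm_num) (by linarith only [hK]) p4 q4
  unfold N3
  linarith only [f2, f1]

private lemma NegNumB_comb {n3 n2 T A B t : ℝ} (h3 : n3 ≤ A) (h2 : n2 ≤ B) (hT : T ≤ t) (p3 : 0 < n3) (p2 : 0 < n2)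
    (h : 4 / n3 + 1 / n2 < 4 * T) : 0 < A ∧ 0 < B ∧ 4 / A + 1 / B < 4 * t := by
  have e1 : 4 / A ≤ 4 / n3 := div_le_div_of_nonneg_left (by norm_num) p3 h3
  have e2 : 1 / B ≤ 1 / n2 := div_le_div_of_nonneg_left (by norm_num) p2 h2
  exact ⟨p3.trans_le h3, p2.trans_le h2, by linarith only [e2, e1, h, hT]⟩

private lemma NegNumB_comb2 {n2 T B t : ℝ} (h2 : n2 ≤ B) (hT : T ≤ t) (p2 : 0 < n2)
    (h : 1 / n2 < 4 * T) : 0 < B ∧ 1 / B < 4 * t := by
  have e2 : 1 / B ≤ 1 / n2 := div_le_div_of_nonneg_left (by norm_num) p2 h2
  exact ⟨p2.trans_le h2, by linarith only [e2, h, hT]⟩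

private lemma NegNumB_hs (z : ℝ) : Real.sin (2 * Real.pi * z) = Real.cos (2 * Real.pi * z - Real.pi / 2) := by
  rw [Real.cos_sub_pi_div_two]

private lemma NegNumB_hc (z : ℝ) : Real.cos (2 * Real.pi * z) = -Real.sin (2 * Real.pi * z - Real.pi / 2) := by
  rw [Real.sin_sub_pi_div_two, neg_neg]

/-! ## The intervals -/

private lemma NegNumB_i0 {y : ℝ} (hy : 11 / 100 ≤ y) (hy' : y ≤ 67 / 250) :
    0 < N2 (y + 1 / 2) ∧ 1 / N2 (y + 1 / 2) < 4 * TN y := by
  have hp := Real.pi_gt_d6
  have hp' := Real.pi_lt_d6
  have h2 := NegNumB_n2 (y0 := 11 / 100) (y1 := 67 / 250) (C := 333 / 500) (S := 1828 / 3125) (Q := 98517 / 100000)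
    (R := 16907 / 50000) (by norm_num) (by norm_num) hy hy'
    (NegNumB_cosl (h := 16839 / 20000) (by positivity) (by linarith only [hp']) (by norm_num) (by norm_num)) (by norm_num)
    (NegNumB_sinu (h := 62481 / 100000) (by linarith only [hp]) (by linarith only [hp']) (by norm_num) (by norm_num))
    (NegNumB_cosu (l := 17247 / 100000) (by norm_num) (by linarith only [hp]) (by linarith only [hp']) (by norm_num))
    (NegNumB_sinl (l := 17247 / 50000) (by norm_num) (by linarith only [hp]) (by linarith only [hp']) (by norm_num)) (by norm_num)
  have hT := NegNumB_T (y0 := 11 / 100) (y := y) (U := 63741 / 100000) (V := 77067 / 100000) (by norm_num) hy (by linarith only [hy']) (by linarith only [hy'])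
    (NegNumB_sinl (l := 34557 / 50000) (by norm_num) (by linarith only [hp]) (by linarith only [hp']) (by norm_num)) (by norm_num)
    (NegNumB_cosu (l := 34557 / 50000) (by norm_num) (by linarith only [hp]) (by linarith only [hp']) (by norm_num)) (by norm_num)
  exact NegNumB_comb2 h2 hT (by norm_num) (by norm_num)

private lemma NegNumB_i1 {y : ℝ} (hy : 267 / 1000 ≤ y) (hy' : y ≤ 161 / 500) (hw : 1 / 2 < 187 / 100 * y) :
    0 < N3 y ∧ 0 < N2 (y + 1 / 2) ∧ 4 / N3 y + 1 / N2 (y + 1 / 2) < 4 * TN y := by
  have hp := Real.pi_gt_d6
  have hp' := Real.pi_lt_d6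
  have h2 := NegNumB_n2 (y0 := 267 / 1000) (y1 := 161 / 500) (C := 53047 / 100000) (S := 35137 / 50000) (Q := 48829 / 50000)
    (R := 5253 / 12500) (by norm_num) (by norm_num) hy hy'
    (NegNumB_cosl (h := 2529 / 2500) (by positivity) (by linarith only [hp']) (by norm_num) (by norm_num)) (by norm_num)
    (NegNumB_sinu (h := 38959 / 50000) (by linarith only [hp]) (by linarith only [hp']) (by norm_num) (by norm_num))
    (NegNumB_cosu (l := 10843 / 50000) (by norm_num) (by linarith only [hp]) (by linarith only [hp']) (by norm_num))
    (NegNumB_sinl (l := 10843 / 25000) (by norm_num) (by linarith only [hp]) (by linarith only [hp']) (by norm_num)) (by norm_num)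
  have hT := NegNumB_T (y0 := 267 / 1000) (y := y) (U := 9943 / 10000) (V := -533 / 5000) (by norm_num) hy (by linarith only [hy']) (by linarith only [hy'])
    (by
      rw [NegNumB_hs]
      exact NegNumB_cosl (h := 5341 / 50000) (by linarith only [hp]) (by linarith only [hp']) (by norm_num) (by norm_num)) (by norm_num)
    (by
      rw [NegNumB_hc, neg_le, neg_div, neg_neg]
      exact NegNumB_sinl (l := 10681 / 100000) (by norm_num) (by linarith only [hp]) (by linarith only [hp']) (by norm_num)) (by norm_num)
  have h3 := NegNumB_n3 (y0 := 267 / 1000) (y1 := 161 / 500) (s1 := 89939 / 100000) (s2 := 15771 / 50000) (c1 := 99407 / 100000)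
    (s3 := 4327 / 20000) (by norm_num) (by norm_num) hy hy' hw
    (NegNumB_sinl (l := 699 / 625) (by norm_num) (by linarith only [hp]) (by linarith only [hp']) (by norm_num)) (by norm_num)
    (NegNumB_sinu (h := 32089 / 100000) (by linarith only [hp]) (by linarith only [hp']) (by norm_num) (by norm_num)) (by norm_num)
    (NegNumB_cosu (l := 1363 / 12500) (by norm_num) (by linarith only [hp]) (by linarith only [hp']) (by norm_num))
    (NegNumB_sinl (l := 1363 / 6250) (by norm_num) (by linarith only [hp]) (by linarith only [hp']) (by norm_num)) (by norm_num)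
  exact NegNumB_comb h3 h2 hT (by norm_num) (by norm_num) (by norm_num)

private lemma NegNumB_i2 {y : ℝ} (hy : 161 / 500 ≤ y) (hy' : y ≤ 71 / 200) (hw : 1 / 2 < 187 / 100 * y) :
    0 < N3 y ∧ 0 < N2 (y + 1 / 2) ∧ 4 / N3 y + 1 / N2 (y + 1 / 2) < 4 * TN y := by
  have hp := Real.pi_gt_d6
  have hp' := Real.pi_lt_d6
  have h2 := NegNumB_n2 (y0 := 161 / 500) (y1 := 71 / 200) (C := 43987 / 100000) (S := 19167 / 25000) (Q := 3041 / 3125)
    (R := 22413 / 50000) (by norm_num) (by norm_num) hy hy'
    (NegNumB_cosl (h := 111527 / 100000) (by positivity) (by linarith only [hp']) (by norm_num) (by norm_num)) (by norm_num)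
    (NegNumB_sinu (h := 87353 / 100000) (by linarith only [hp]) (by linarith only [hp']) (by norm_num) (by norm_num))
    (NegNumB_cosu (l := 23241 / 100000) (by norm_num) (by linarith only [hp]) (by linarith only [hp']) (by norm_num))
    (NegNumB_sinl (l := 23241 / 50000) (by norm_num) (by linarith only [hp]) (by linarith only [hp']) (by norm_num)) (by norm_num)
  have hT := NegNumB_T (y0 := 161 / 500) (y := y) (U := 4497 / 5000) (V := -4371 / 10000) (by norm_num) hy (by linarith only [hy']) (by linarith only [hy'])
    (by
      rw [NegNumB_hs]
      exact NegNumB_cosl (h := 1131 / 2500) (by linarith only [hp]) (by linarith only [hp']) (by norm_num) (by norm_num)) (by norm_num)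
    (by
      rw [NegNumB_hc, neg_le, neg_div, neg_neg]
      exact NegNumB_sinl (l := 22619 / 50000) (by norm_num) (by linarith only [hp]) (by linarith only [hp']) (by norm_num)) (by norm_num)
  have h3 := NegNumB_n3 (y0 := 161 / 500) (y1 := 71 / 200) (s1 := 39507 / 50000) (s2 := 49233 / 100000) (c1 := 99137 / 100000)
    (s3 := 12999 / 50000) (by norm_num) (by norm_num) hy hy' hw
    (NegNumB_sinl (l := 18221 / 20000) (by norm_num) (by linarith only [hp]) (by linarith only [hp']) (by norm_num)) (by norm_num)
    (NegNumB_sinu (h := 12869 / 25000) (by linarith only [hp]) (by linarith only [hp']) (by norm_num) (by norm_num)) (by norm_num)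
    (NegNumB_cosu (l := 263 / 2000) (by norm_num) (by linarith only [hp]) (by linarith only [hp']) (by norm_num))
    (NegNumB_sinl (l := 26301 / 100000) (by norm_num) (by linarith only [hp]) (by linarith only [hp']) (by norm_num)) (by norm_num)
  exact NegNumB_comb h3 h2 hT (by norm_num) (by norm_num) (by norm_num)

private lemma NegNumB_i3 {y : ℝ} (hy : 71 / 200 ≤ y) (hy' : y ≤ 369 / 1000) (hw : 1 / 2 < 187 / 100 * y) :
    0 < N3 y ∧ 0 < N2 (y + 1 / 2) ∧ 4 / N3 y + 1 / N2 (y + 1 / 2) < 4 * TN y := by
  have hp := Real.pi_gt_d6
  have hp' := Real.pi_lt_d6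
  have h2 := NegNumB_n2 (y0 := 71 / 200) (y1 := 369 / 1000) (C := 19997 / 50000) (S := 79179 / 100000) (Q := 97093 / 100000)
    (R := 23243 / 50000) (by norm_num) (by norm_num) hy hy'
    (NegNumB_cosl (h := 4637 / 4000) (by positivity) (by linarith only [hp']) (by norm_num) (by norm_num)) (by norm_num)
    (NegNumB_sinu (h := 18271 / 20000) (by linarith only [hp]) (by linarith only [hp']) (by norm_num) (by norm_num))
    (NegNumB_cosu (l := 12087 / 50000) (by norm_num) (by linarith only [hp]) (by linarith only [hp']) (by norm_num))
    (NegNumB_sinl (l := 12087 / 25000) (by norm_num) (by linarith only [hp]) (by linarith only [hp']) (by norm_num)) (by norm_num)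
  have hT := NegNumB_T (y0 := 71 / 200) (y := y) (U := 15803 / 20000) (V := -6129 / 10000) (by norm_num) hy (by linarith only [hy']) (by linarith only [hy'])
    (by
      rw [NegNumB_hs]
      exact NegNumB_cosl (h := 32987 / 50000) (by linarith only [hp]) (by linarith only [hp']) (by norm_num) (by norm_num)) (by norm_num)
    (by
      rw [NegNumB_hc, neg_le, neg_div, neg_neg]
      exact NegNumB_sinl (l := 65973 / 100000) (by norm_num) (by linarith only [hp]) (by linarith only [hp']) (by norm_num)) (by norm_num)
  have h3 := NegNumB_n3 (y0 := 71 / 200) (y1 := 369 / 1000) (s1 := 18331 / 25000) (s2 := 56217 / 100000) (c1 := 98951 / 100000)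
    (s3 := 28591 / 100000) (by norm_num) (by norm_num) hy hy' hw
    (NegNumB_sinl (l := 82309 / 100000) (by norm_num) (by linarith only [hp]) (by linarith only [hp']) (by norm_num)) (by norm_num)
    (NegNumB_sinu (h := 597 / 1000) (by linarith only [hp]) (by linarith only [hp']) (by norm_num) (by norm_num)) (by norm_num)
    (NegNumB_cosu (l := 7249 / 50000) (by norm_num) (by linarith only [hp]) (by linarith only [hp']) (by norm_num))
    (NegNumB_sinl (l := 7249 / 25000) (by norm_num) (by linarith only [hp]) (by linarith only [hp']) (by norm_num)) (by norm_num)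
  exact NegNumB_comb h3 h2 hT (by norm_num) (by norm_num) (by norm_num)

private lemma NegNumB_i4 {y : ℝ} (hy : 369 / 1000 ≤ y) (hy' : y ≤ 3 / 8) (hw : 1 / 2 < 187 / 100 * y) :
    0 < N3 y ∧ 0 < N2 (y + 1 / 2) ∧ 4 / N3 y + 1 / N2 (y + 1 / 2) < 4 * TN y := by
  have hp := Real.pi_gt_d6
  have hp' := Real.pi_lt_d6
  have h2 := NegNumB_n2 (y0 := 369 / 1000) (y1 := 3 / 8) (C := 38259 / 100000) (S := 10027 / 12500) (Q := 96997 / 100000)
    (R := 23593 / 50000) (by norm_num) (by norm_num) hy hy'
    (NegNumB_cosl (h := 11781 / 10000) (by positivity) (by linarith only [hp']) (by norm_num) (by norm_num)) (by norm_num)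
    (NegNumB_sinu (h := 9307 / 10000) (by linarith only [hp]) (by linarith only [hp']) (by norm_num) (by norm_num))
    (NegNumB_cosu (l := 2457 / 10000) (by norm_num) (by linarith only [hp]) (by linarith only [hp']) (by norm_num))
    (NegNumB_sinl (l := 2457 / 5000) (by norm_num) (by linarith only [hp]) (by linarith only [hp']) (by norm_num)) (by norm_num)
  have hT := NegNumB_T (y0 := 369 / 1000) (y := y) (U := 18331 / 25000) (V := -33997 / 50000) (by norm_num) hy (by linarith only [hy']) (by linarith only [hy'])
    (by
      rw [NegNumB_hs]
      exact NegNumB_cosl (h := 74771 / 100000) (by linarith only [hp]) (by linarith only [hp']) (by norm_num) (by norm_num)) (by norm_num)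
    (by
      rw [NegNumB_hc, neg_le, neg_div, neg_neg]
      exact NegNumB_sinl (l := 74769 / 100000) (by norm_num) (by linarith only [hp]) (by linarith only [hp']) (by norm_num)) (by norm_num)
  have h3 := NegNumB_n3 (y0 := 369 / 1000) (y1 := 3 / 8) (s1 := 7071 / 10000) (s2 := 59097 / 100000) (c1 := 98867 / 100000)
    (s3 := 5937 / 20000) (by norm_num) (by norm_num) hy hy' hw
    (NegNumB_sinl (l := 78539 / 100000) (by norm_num) (by linarith only [hp]) (by linarith only [hp']) (by norm_num)) (by norm_num)
    (NegNumB_sinu (h := 2529 / 4000) (by linarith only [hp]) (by linarith only [hp']) (by norm_num) (by norm_num)) (by norm_num)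
    (NegNumB_cosu (l := 1507 / 10000) (by norm_num) (by linarith only [hp]) (by linarith only [hp']) (by norm_num))
    (NegNumB_sinl (l := 1507 / 5000) (by norm_num) (by linarith only [hp]) (by linarith only [hp']) (by norm_num)) (by norm_num)
  exact NegNumB_comb h3 h2 hT (by norm_num) (by norm_num) (by norm_num)

private lemma NegNumB_full {y : ℝ} (hy' : y ≤ 375 / 1000) (hw : 1 / 2 < 187 / 100 * y) :
    0 < N3 y ∧ 0 < N2 (y + 1 / 2) ∧ 4 / N3 y + 1 / N2 (y + 1 / 2) < 4 * TN y := by
  rcases le_total y (161 / 500) with h1 | h1
  · exact NegNumB_i1 (by linarith only [hw]) h1 hw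
  rcases le_total y (71 / 200) with h2 | h2
  · exact NegNumB_i2 h1 h2 hw
  rcases le_total y (369 / 1000) with h3 | h3
  · exact NegNumB_i3 h2 h3 hw
  · exact NegNumB_i4 h3 (by linarith only [hy']) hw

theorem num_B (y : ℝ) (hy : 11 / 100 ≤ y) (hy' : y ≤ 375 / 1000) :
    (187 / 100 * y ≤ 1 / 2 ∨ 0 < N3 y) ∧ (91 / 100 * (y + 1 / 2) ≤ 1 / 2 ∨ 0 < N2 (y + 1 / 2)) ∧
      L3 y + L2 y < 4 * TN y := by
  have hL2 : L2 y = 1 / N2 (y + 1 / 2) := if_neg (by linarith only [hy])
  rcases le_or_gt (187 / 100 * y) (1 / 2) with h | h
  · obtain ⟨k1, k2⟩ := NegNumB_i0 hy (by linarith only [h])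
    refine ⟨Or.inl h, Or.inr k1, ?_⟩
    have hL : L3 y = 0 := if_pos h
    rw [hL, hL2, zero_add]
    exact k2
  · obtain ⟨k1, k2, k3⟩ := NegNumB_full hy' h
    refine ⟨Or.inr k1, Or.inr k2, ?_⟩
    have hL : L3 y = 4 / N3 y := if_neg (not_le.2 h)
    rw [hL, hL2]
    exact k3

end Pool.Agent.H63.GO
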