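import Pool.Agent.H63.GO.NegDefs

/-! # Negativity of the second derivative: the one-variable inequality C -/

namespace Pool.Agent.H63.GO

/-! ## Taylor bounds -/

private lemma NegNumC_pos {f f' : ℝ → ℝ} (hf : ∀ x, HasDerivAt f (f' x) x) (h0 : f 0 = 0) (hp : ∀ x, 0 ≤ x → 0 ≤ f' x)
    {x : ℝ} (hx : 0 ≤ x) : 0 ≤ f x := by
  have hm : MonotoneOn f (Set.Ici 0) := by
    refine monotoneOn_of_deriv_nonneg (convex_Ici 0) (fun y _ => (hf y).continuousAt.continuousWithinAt)
      (fun y _ => (hf y).differentiableAt.differentiableWithinAt) fun y hy => ?_
    rw [(hf y).deriv]
    exact hp y (interior_subset hy)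
  have := hm (Set.mem_Ici.2 le_rfl) (Set.mem_Ici.2 hx) hx
  rwa [h0] at this

private lemma NegNumC_s3 {x : ℝ} (hx : 0 ≤ x) : x - x ^ 3 / 6 ≤ Real.sin x := by
  have h := NegNumC_pos (f := fun x => Real.sin x - (x - x ^ 3 / 6)) (f' := fun x => Real.cos x - (1 - x ^ 2 / 2))
    (fun x => by
      have h1 := (Real.hasDerivAt_sin x).sub ((hasDerivAt_id' x).sub ((hasDerivAt_pow 3 x).div_const 6))
      refine h1.congr_deriv ?_
      norm_num
      try ring)
    (by simp) (fun x hx => by linarith only [Real.one_sub_sq_div_two_le_cos (x := x)]) hx
  linarith only [h]

private lemma NegNumC_c4 {x : ℝ} (hx : 0 ≤ x) : Real.cos x ≤ 1 - x ^ 2 / 2 + x ^ 4 / 24 := by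
  have h := NegNumC_pos (f := fun x => 1 - x ^ 2 / 2 + x ^ 4 / 24 - Real.cos x) (f' := fun x => Real.sin x - (x - x ^ 3 / 6))
    (fun x => by
      have h1 := (((hasDerivAt_const x (1 : ℝ)).sub ((hasDerivAt_pow 2 x).div_const 2)).add
        ((hasDerivAt_pow 4 x).div_const 24)).sub (Real.hasDerivAt_cos x)
      refine h1.congr_deriv ?_
      norm_num
      try ring)
    (by simp) (fun x hx => by linarith only [NegNumC_s3 hx]) hx
  linarith only [h]

private lemma NegNumC_s5 {x : ℝ} (hx : 0 ≤ x) : Real.sin x ≤ x - x ^ 3 / 6 + x ^ 5 / 120 := by
  have h := NegNumC_pos (f := fun x => x - x ^ 3 / 6 + x ^ 5 / 120 - Real.sin x)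
    (f' := fun x => 1 - x ^ 2 / 2 + x ^ 4 / 24 - Real.cos x)
    (fun x => by
      have h1 := (((hasDerivAt_id' x).sub ((hasDerivAt_pow 3 x).div_const 6)).add
        ((hasDerivAt_pow 5 x).div_const 120)).sub (Real.hasDerivAt_sin x)
      refine h1.congr_deriv ?_
      norm_num
      try ring)
    (by simp) (fun x hx => by linarith only [NegNumC_c4 hx]) hx
  linarith only [h]

private lemma NegNumC_c6 {x : ℝ} (hx : 0 ≤ x) : 1 - x ^ 2 / 2 + x ^ 4 / 24 - x ^ 6 / 720 ≤ Real.cos x := by
  have h := NegNumC_pos (f := fun x => Real.cos x - (1 - x ^ 2 / 2 + x ^ 4 / 24 - x ^ 6 / 720))
    (f' := fun x => x - x ^ 3 / 6 + x ^ 5 / 120 - Real.sin x)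
    (fun x => by
      have h1 := (Real.hasDerivAt_cos x).sub ((((hasDerivAt_const x (1 : ℝ)).sub ((hasDerivAt_pow 2 x).div_const 2)).add
        ((hasDerivAt_pow 4 x).div_const 24)).sub ((hasDerivAt_pow 6 x).div_const 720))
      refine h1.congr_deriv ?_
      norm_num
      try ring)
    (by simp) (fun x hx => by linarith only [NegNumC_s5 hx]) hx
  linarith only [h]

private lemma NegNumC_s7 {x : ℝ} (hx : 0 ≤ x) : x - x ^ 3 / 6 + x ^ 5 / 120 - x ^ 7 / 5040 ≤ Real.sin x := by
  have h := NegNumC_pos (f := fun x => Real.sin x - (x - x ^ 3 / 6 + x ^ 5 / 120 - x ^ 7 / 5040))
    (f' := fun x => Real.cos x - (1 - x ^ 2 / 2 + x ^ 4 / 24 - x ^ 6 / 720))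
    (fun x => by
      have h1 := (Real.hasDerivAt_sin x).sub ((((hasDerivAt_id' x).sub ((hasDerivAt_pow 3 x).div_const 6)).add
        ((hasDerivAt_pow 5 x).div_const 120)).sub ((hasDerivAt_pow 7 x).div_const 5040))
      refine h1.congr_deriv ?_
      norm_num
      try ring)
    (by simp) (fun x hx => by linarith only [NegNumC_c6 hx]) hx
  linarith only [h]

private lemma NegNumC_cosl {x h c : ℝ} (hx : 0 ≤ x) (hh : x ≤ h) (h3 : h ≤ 3)
    (hc : c ≤ 1 - h ^ 2 / 2 + h ^ 4 / 24 - h ^ 6 / 720) : c ≤ Real.cos x :=
  (hc.trans (NegNumC_c6 (hx.trans hh))).trans
    (Real.cos_le_cos_of_nonneg_of_le_pi hx (by linarith only [Real.pi_gt_three, h3]) hh)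

private lemma NegNumC_cosu {x l c : ℝ} (hl : 0 ≤ l) (hx : l ≤ x) (h3 : x ≤ 3)
    (hc : 1 - l ^ 2 / 2 + l ^ 4 / 24 ≤ c) : Real.cos x ≤ c :=
  (Real.cos_le_cos_of_nonneg_of_le_pi hl (by linarith only [Real.pi_gt_three, h3]) hx).trans ((NegNumC_c4 hl).trans hc)

private lemma NegNumC_sinl {x l c : ℝ} (hl : 0 ≤ l) (hx : l ≤ x) (h3 : x ≤ 3 / 2)
    (hc : c ≤ l - l ^ 3 / 6 + l ^ 5 / 120 - l ^ 7 / 5040) : c ≤ Real.sin x :=
  (hc.trans (NegNumC_s7 hl)).trans
    (Real.sin_le_sin_of_le_of_le_pi_div_two (by linarith only [Real.pi_gt_three, hl]) (by linarith only [Real.pi_gt_three,
                                                                                            h3]) hx)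

private lemma NegNumC_sinu {x h c : ℝ} (hx : 0 ≤ x) (hh : x ≤ h) (h3 : h ≤ 3 / 2)
    (hc : h - h ^ 3 / 6 + h ^ 5 / 120 ≤ c) : Real.sin x ≤ c :=
  (Real.sin_le_sin_of_le_of_le_pi_div_two (by linarith only [Real.pi_gt_three, hx]) (by linarith only [Real.pi_gt_three,
                                                                                          h3]) hh).trans
    ((NegNumC_s5 (hx.trans hh)).trans hc)

private lemma NegNumC_cosh {z c : ℝ} (hz : 0 ≤ z) (hz1 : z ≤ 1)
    (hc : 1 + z ^ 2 / 2 + z ^ 4 / 24 + z ^ 6 * (7 / 4320) ≤ c) : Real.cosh z ≤ c := by
  have h1 := Real.exp_bound (x := z) (by rw [abs_of_nonneg hz]; exact hz1) (n := 6) (by norm_num)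
  have h2 := Real.exp_bound (x := -z) (by rw [abs_neg, abs_of_nonneg hz]; exact hz1) (n := 6) (by norm_num)
  have h3 := (abs_le.1 h1).2
  have h4 := (abs_le.1 h2).2
  rw [abs_of_nonneg hz] at h3
  rw [abs_neg, abs_of_nonneg hz] at h4
  simp only [Finset.sum_range_succ, Finset.sum_range_zero, Nat.factorial, Nat.succ_eq_add_one] at h3 h4
  norm_num at h3 h4
  rw [Real.cosh_eq]
  linarith only [h4, h3, hc]

/-! ## A piece -/

private lemma NegNumC_TN {y0 y : ℝ} (h0 : 11 / 100 ≤ y0) (hy0 : y0 ≤ y) (h1 : y ≤ 38 / 100) (hd : y - y0 ≤ 1 / 10) :
    TN y0 ≤ TN y := by
  have hpi := Real.pi_gt_three
  have hpi' := Real.pi_lt_d2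
  obtain ⟨K, hK⟩ : ∃ K, K = Real.cosh (2 * Real.pi * (5 / 100)) := ⟨_, rfl⟩
  have hK1 : 1 < K := by
    rw [hK]
    exact Real.one_lt_cosh.2 (by positivity)
  have hK2 : K ≤ 106 / 100 := by
    rw [hK]
    have hz : 2 * Real.pi * (5 / 100) ≤ 315 / 1000 := by linarith only [hpi']
    have h2 : Real.cosh (2 * Real.pi * (5 / 100)) ≤ Real.cosh (315 / 1000) := by
      rw [Real.cosh_le_cosh, abs_of_nonneg (by positivity), abs_of_nonneg (by norm_num)]
      exact hz
    exact h2.trans (NegNumC_cosh (by norm_num) (by norm_num) (by norm_num))
  have hp0 : 0 < K + Real.cos (2 * Real.pi * y0) := by linarith only [Real.neg_one_le_cos (2 * Real.pi * y0),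
                                                         hK1]
  have hp1 : 0 < K + Real.cos (2 * Real.pi * y) := by linarith only [Real.neg_one_le_cos (2 * Real.pi * y),
                                                        hK1]
  unfold TN
  rw [← hK, div_le_div_iff₀ hp0 hp1]
  obtain ⟨S, hS⟩ : ∃ S, S = Real.pi * (y + y0) := ⟨_, rfl⟩
  obtain ⟨D, hD⟩ : ∃ D, D = Real.pi * (y - y0) := ⟨_, rfl⟩
  have e1 : 2 * Real.pi * y = S + D := by rw [hS, hD]; ring
  have e2 : 2 * Real.pi * y0 = S - D := by rw [hS, hD]; ring
  have hD0 : 0 ≤ D := by rw [hD]; exact mul_nonneg (by linarith only [hpi]) (by linarith only [hy0])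
  have hD1 : D ≤ 315 / 1000 := by rw [hD]; (refine le_of_not_gt fun hng => ?_; linarith only [hd,
                                             mul_nonneg (sub_nonneg.2 hy0) (sub_nonneg.2 hpi'.le),
                                             mul_nonneg (sub_nonneg.2 hng.le) (sub_nonneg.2 hK2),
                                             mul_pos (sub_pos.2 hng) (sub_pos.2 hK1)])
  have hsD : 0 ≤ Real.sin D := Real.sin_nonneg_of_nonneg_of_le_pi hD0 (by linarith only [hD1, hK2,
                                                                            hK1, hpi])
  have hcD : 95 / 100 ≤ Real.cos D := NegNumC_cosl hD0 hD1 (by norm_num) (by norm_num)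
  have hS1 : S ≤ Real.pi * (76 / 100) := by rw [hS]; (refine le_of_not_gt fun hng => ?_; linarith only [hD0,
                                                       hD, h1,
                                                       mul_nonneg (sub_nonneg.2 h1) (sub_nonneg.2 hpi.le),
                                                       mul_nonneg (sub_nonneg.2 hng.le) (sub_nonneg.2 hK2),
                                                       mul_pos (sub_pos.2 hng) (sub_pos.2 hK1)])
  have hS0 : 0 ≤ S := by rw [hS]; exact mul_nonneg (by linarith only [hpi]) (by linarith only [hy0,
                                                                                  h0])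
  have hcS : -(8 / 10) ≤ Real.cos S := by
    have h2 : Real.cos (Real.pi * (76 / 100)) ≤ Real.cos S :=
      Real.cos_le_cos_of_nonneg_of_le_pi hS0 (by linarith only [hpi]) hS1
    have h3 : Real.cos (Real.pi * (76 / 100)) = -Real.sin (Real.pi * (26 / 100)) := by
      rw [← Real.cos_add_pi_div_two]
      congr 1
      ring
    have h4 : Real.sin (Real.pi * (26 / 100)) ≤ 8 / 10 :=
      NegNumC_sinu (h := 82 / 100) (by positivity) (by linarith only [hpi', hpi]) (by norm_num) (by norm_num)
    linarith only [h4, h3, h2]
  have h5 : 0 ≤ K * Real.cos S + Real.cos D := by (refine le_of_not_gt fun hng => ?_; linarith only [hcS,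
                                                    hcD, hK2, hpi', hpi,
                                                    mul_nonneg (sub_nonneg.2 hK1.le) (sub_nonneg.2 hcS),
                                                    mul_nonneg (sub_nonneg.2 hng.le) (sub_nonneg.2 hK2),
                                                    mul_pos (sub_pos.2 hng) (sub_pos.2 hK1)])
  rw [e1, e2, Real.sin_add, Real.sin_sub, Real.cos_add, Real.cos_sub]
  have h6 := mul_nonneg hsD h5
  have h7 := Real.sin_sq_add_cos_sq S
  have h8 : (Real.sin S * Real.cos D + Real.cos S * Real.sin D) * (K + (Real.cos S * Real.cos D + Real.sin S * Real.sin D)) -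
      (Real.sin S * Real.cos D - Real.cos S * Real.sin D) * (K + (Real.cos S * Real.cos D - Real.sin S * Real.sin D)) =
      2 * (Real.sin D * (K * Real.cos S + Real.cos D)) := by
    linear_combination (2 * Real.sin D * Real.cos D) * h7
  linarith only [h8, h6]

private lemma NegNumC_piece {y0 y1 y C S Q R U V : ℝ} (h0 : 11 / 100 ≤ y0) (h1 : y1 ≤ 38 / 100) (hd : y1 - y0 ≤ 1 / 10)
    (hy0 : y0 ≤ y) (hy1 : y ≤ y1)
    (hC : C ≤ Real.cos (Real.pi * y1)) (hC0 : 0 < C) (hS : Real.sin (Real.pi * (91 / 100 * y1 - 45 / 1000)) ≤ S)
    (hQ : Real.cos (Real.pi * (9 / 100 * (y0 + 1 / 2))) ≤ Q)
    (hR : R ≤ Real.sin (Real.pi * (18 / 100 * (y0 + 1 / 2)))) (hR0 : 0 < R)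
    (hU : U ≤ Real.sin (2 * Real.pi * y0)) (hU0 : 0 < U) (hV : Real.cos (2 * Real.pi * y0) ≤ V) (hV0 : 0 < 10498 / 10000 + V)
    (hfin : 1 / 2 < (C / (S * Q) - 984 / 10000 / R) * (U / (10498 / 10000 + V))) :
    0 < N2 (y + 1 / 2) ∧ 1 / 2 < N2 (y + 1 / 2) * TN y := by
  have hpi := Real.pi_gt_three
  have hpi' := Real.pi_lt_d4
  have hsφ : 0 < Real.sin (Real.pi * (91 / 100 * y - 45 / 1000)) :=
    Real.sin_pos_of_pos_of_lt_pi (mul_pos (by linarith only [hpi]) (by linarith only [hy0, h0])) (by linarith only [hpi',
                                                                                                       hpi,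
                                                                                                       hy1,
                                                                                                       h1,
                                                                                                       mul_nonneg (sub_nonneg.2 hy0) (sub_nonneg.2 hpi'.le),
                                                                                                       mul_nonneg (sub_nonneg.2 h0) (sub_nonneg.2 hpi'.le)])
  have hcψ : 0 < Real.cos (Real.pi * (9 / 100 * (y + 1 / 2))) :=
    Real.cos_pos_of_mem_Ioo ⟨by linarith only [hpi', hpi, hy0, h0,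
                                  mul_nonneg (sub_nonneg.2 hy0) (sub_nonneg.2 hpi.le),
                                  mul_nonneg (sub_nonneg.2 h0) (sub_nonneg.2 hpi.le)], by linarith only [hpi',
                                                                                            hpi,
                                                                                            hy1, h1,
                                                                                            mul_nonneg (sub_nonneg.2 hy0) (sub_nonneg.2 hpi'.le),
                                                                                            mul_nonneg (sub_nonneg.2 h0) (sub_nonneg.2 hpi'.le)]⟩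
  have hA : C / (S * Q) ≤ Real.sin (Real.pi * (y + 1 / 2)) / (Real.sin (Real.pi * (91 / 100 * (y + 1 / 2) - 1 / 2)) *
      Real.cos (Real.pi * (9 / 100 * (y + 1 / 2)))) := by
    have e1 : Real.sin (Real.pi * (y + 1 / 2)) = Real.cos (Real.pi * y) := by
      rw [← Real.sin_add_pi_div_two]
      congr 1
      ring
    have e2 : Real.pi * (91 / 100 * (y + 1 / 2) - 1 / 2) = Real.pi * (91 / 100 * y - 45 / 1000) := by ring
    rw [e1, e2]
    have h2 : C ≤ Real.cos (Real.pi * y) :=
      hC.trans (Real.cos_le_cos_of_nonneg_of_le_pi (mul_nonneg (by linarith only [hpi]) (by linarith only [hy0,
                                                                                              h0])) (by (refine le_of_not_gt fun hng => ?_; linarith only [hpi',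
                                                                                                          hpi,
                                                                                                          h1,
                                                                                                          mul_nonneg (sub_nonneg.2 h1) (sub_nonneg.2 hpi.le),
                                                                                                          mul_pos (sub_pos.2 hng) (sub_pos.2 hpi'),
                                                                                                          mul_pos (sub_pos.2 hng) (sub_pos.2 hpi)])) (by (refine le_of_not_gt fun hng => ?_; linarith only [hy1,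
                                                                                                                                                           mul_nonneg (sub_nonneg.2 hy1) (sub_nonneg.2 hpi.le),
                                                                                                                                                           mul_pos (sub_pos.2 hng) (sub_pos.2 hpi'),
                                                                                                                                                           mul_pos (sub_pos.2 hng) (sub_pos.2 hpi)])))
    have h3 : Real.sin (Real.pi * (91 / 100 * y - 45 / 1000)) ≤ S :=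
      (Real.sin_le_sin_of_le_of_le_pi_div_two (by (refine le_of_not_gt fun hng => ?_; linarith only [hpi',
                                                    hpi, hy0, h0,
                                                    mul_nonneg (sub_nonneg.2 hy0) (sub_nonneg.2 hpi.le),
                                                    mul_nonneg (sub_nonneg.2 h0) (sub_nonneg.2 hpi.le),
                                                    mul_pos (sub_pos.2 hng) (sub_pos.2 hpi'),
                                                    mul_pos (sub_pos.2 hng) (sub_pos.2 hpi)])) (by (refine le_of_not_gt fun hng => ?_; linarith only [hpi',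
                                                                                                     hpi,
                                                                                                     h1,
                                                                                                     mul_nonneg (sub_nonneg.2 h1) (sub_nonneg.2 hpi.le),
                                                                                                     mul_pos (sub_pos.2 hng) (sub_pos.2 hpi'),
                                                                                                     mul_pos (sub_pos.2 hng) (sub_pos.2 hpi)])) (by (refine le_of_not_gt fun hng => ?_; linarith only [hy1,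
                                                                                                                                                      mul_nonneg (sub_nonneg.2 hy1) (sub_nonneg.2 hpi.le),
                                                                                                                                                      mul_pos (sub_pos.2 hng) (sub_pos.2 hpi'),
                                                                                                                                                      mul_pos (sub_pos.2 hng) (sub_pos.2 hpi)]))).trans hS
    have h4 : Real.cos (Real.pi * (9 / 100 * (y + 1 / 2))) ≤ Q :=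
      (Real.cos_le_cos_of_nonneg_of_le_pi (mul_nonneg (by linarith only [hpi]) (by linarith only [h0])) (by (refine le_of_not_gt fun hng => ?_; linarith only [hpi',
                                                                                                              hpi,
                                                                                                              hy1,
                                                                                                              h1,
                                                                                                              mul_nonneg (sub_nonneg.2 hy0) (sub_nonneg.2 hpi'.le),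
                                                                                                              mul_nonneg (sub_nonneg.2 h0) (sub_nonneg.2 hpi'.le),
                                                                                                              mul_pos (sub_pos.2 hng) (sub_pos.2 hpi'),
                                                                                                              mul_pos (sub_pos.2 hng) (sub_pos.2 hpi)])) (by (refine le_of_not_gt fun hng => ?_; linarith only [hy0,
                                                                                                                                                               mul_nonneg (sub_nonneg.2 hy0) (sub_nonneg.2 hpi.le),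
                                                                                                                                                               mul_pos (sub_pos.2 hng) (sub_pos.2 hpi'),
                                                                                                                                                               mul_pos (sub_pos.2 hng) (sub_pos.2 hpi)]))).trans hQ
    have h5 : 0 < S := hsφ.trans_le h3
    exact div_le_div₀ (hC0.le.trans h2) h2 (mul_pos hsφ hcψ) (mul_le_mul h3 h4 hcψ.le h5.le)
  have hB : (Real.cosh (2 * Real.pi * (7 / 100)) - 1) / Real.sin (2 * Real.pi * (9 / 100 * (y + 1 / 2))) ≤ 984 / 10000 / R := by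
    have h2 : Real.cosh (2 * Real.pi * (7 / 100)) ≤ 1 + 984 / 10000 := by
      have hz : 2 * Real.pi * (7 / 100) ≤ 43985 / 100000 := by linarith only [hpi', hpi]
      have h3 : Real.cosh (2 * Real.pi * (7 / 100)) ≤ Real.cosh (43985 / 100000) := by
        rw [Real.cosh_le_cosh, abs_of_nonneg (by positivity), abs_of_nonneg (by norm_num)]
        exact hz
      exact h3.trans (NegNumC_cosh (by norm_num) (by norm_num) (by norm_num))
    have h3 : R ≤ Real.sin (2 * Real.pi * (9 / 100 * (y + 1 / 2))) := by
      refine hR.trans ?_
      have e1 : 2 * Real.pi * (9 / 100 * (y + 1 / 2)) = Real.pi * (18 / 100 * (y + 1 / 2)) := by ring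
      rw [e1]
      exact Real.sin_le_sin_of_le_of_le_pi_div_two (by (refine le_of_not_gt fun hng => ?_; linarith only [hpi',
                                                         hpi, h0,
                                                         mul_nonneg (sub_nonneg.2 h0) (sub_nonneg.2 hpi.le),
                                                         mul_pos (sub_pos.2 hng) (sub_pos.2 hpi'),
                                                         mul_pos (sub_pos.2 hng) (sub_pos.2 hpi)])) (by (refine le_of_not_gt fun hng => ?_; linarith only [hpi',
                                                                                                          hpi,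
                                                                                                          hy1,
                                                                                                          h1,
                                                                                                          mul_nonneg (sub_nonneg.2 hy0) (sub_nonneg.2 hpi'.le),
                                                                                                          mul_nonneg (sub_nonneg.2 h0) (sub_nonneg.2 hpi'.le),
                                                                                                          mul_pos (sub_pos.2 hng) (sub_pos.2 hpi'),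
                                                                                                          mul_pos (sub_pos.2 hng) (sub_pos.2 hpi)])) (by (refine le_of_not_gt fun hng => ?_; linarith only [hy0,
                                                                                                                                                           mul_nonneg (sub_nonneg.2 hy0) (sub_nonneg.2 hpi.le),
                                                                                                                                                           mul_pos (sub_pos.2 hng) (sub_pos.2 hpi'),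
                                                                                                                                                           mul_pos (sub_pos.2 hng) (sub_pos.2 hpi)]))
    exact div_le_div₀ (by norm_num) (by linarith only [h2]) hR0 h3
  have hT : U / (10498 / 10000 + V) ≤ TN y := by
    refine le_trans ?_ (NegNumC_TN h0 hy0 (hy1.trans h1) (by linarith only [hy1, hd]))
    unfold TN
    have hK : Real.cosh (2 * Real.pi * (5 / 100)) ≤ 10498 / 10000 := by
      have hz : 2 * Real.pi * (5 / 100) ≤ 31416 / 100000 := by linarith only [hpi']
      have h3 : Real.cosh (2 * Real.pi * (5 / 100)) ≤ Real.cosh (31416 / 100000) := by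
        rw [Real.cosh_le_cosh, abs_of_nonneg (by positivity), abs_of_nonneg (by norm_num)]
        exact hz
      exact h3.trans (NegNumC_cosh (by norm_num) (by norm_num) (by norm_num))
    have hK1 : 1 < Real.cosh (2 * Real.pi * (5 / 100)) := Real.one_lt_cosh.2 (by positivity)
    exact div_le_div₀ (hU0.le.trans hU) hU (by linarith only [Real.neg_one_le_cos (2 * Real.pi * y0),
                                                 hK1]) (by linarith only [hK, hV])
  have hT0 : 0 < U / (10498 / 10000 + V) := div_pos hU0 hV0
  have hN : C / (S * Q) - 984 / 10000 / R ≤ N2 (y + 1 / 2) := by
    unfold N2
    linarith only [hB, hA]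
  have hN0 : 0 < C / (S * Q) - 984 / 10000 / R := by
    by_contra hcon
    push Not at hcon
    linarith only [mul_nonneg (sub_nonneg.2 hT0.le) (sub_nonneg.2 hcon),
      mul_pos (sub_pos.2 hpi') (sub_pos.2 hpi'), mul_pos (sub_pos.2 hpi) (sub_pos.2 hpi'),
      mul_pos (sub_pos.2 hpi) (sub_pos.2 hpi), mul_pos (sub_pos.2 hfin) (sub_pos.2 hpi'),
      mul_pos (sub_pos.2 hfin) (sub_pos.2 hpi)]
  refine ⟨hN0.trans_le hN, hfin.trans_le ?_⟩
  exact mul_le_mul hN hT hT0.le (hN0.le.trans hN)

private lemma NegNumC_main {y : ℝ} (hy : 11 / 100 ≤ y) (hy' : y ≤ 38 / 100) :
    0 < N2 (y + 1 / 2) ∧ 1 / 2 < N2 (y + 1 / 2) * TN y := by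
  have hp := Real.pi_gt_d4
  have hp' := Real.pi_lt_d4
  have hs : ∀ z : ℝ, Real.sin (2 * Real.pi * z) = Real.cos (2 * Real.pi * z - Real.pi / 2) := fun z => by
    rw [Real.cos_sub_pi_div_two]
  have hs' : ∀ z : ℝ, Real.sin (2 * Real.pi * z) = Real.cos (Real.pi / 2 - 2 * Real.pi * z) := fun z => by
    rw [Real.cos_pi_div_two_sub]
  have hc : ∀ z : ℝ, Real.cos (2 * Real.pi * z) = -Real.sin (2 * Real.pi * z - Real.pi / 2) := fun z => by
    rw [Real.sin_sub_pi_div_two, neg_neg]
  have hc' : ∀ z : ℝ, Real.cos (2 * Real.pi * z) = Real.sin (Real.pi / 2 - 2 * Real.pi * z) := fun z => by
    rw [Real.sin_pi_div_two_sub]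
  rcases le_total y (20 / 100) with h1 | h1
  · refine NegNumC_piece (y0 := 11 / 100) (y1 := 20 / 100) (C := 8089 / 10000) (S := 4174 / 10000) (Q := 9853 / 10000)
      (R := 338 / 1000) (U := 637 / 1000) (V := 771 / 1000) le_rfl (by norm_num) (by norm_num) hy h1
      ?_ (by norm_num) ?_ ?_ ?_ (by norm_num) ?_ (by norm_num) ?_ (by norm_num) (by norm_num)
    · exact NegNumC_cosl (h := 62832 / 100000) (by positivity) (by linarith only [hp']) (by norm_num) (by norm_num)
    · exact NegNumC_sinu (h := 43042 / 100000) (by linarith only [hp]) (by linarith only [hp', hp]) (by norm_num) (by norm_num)
    · exact NegNumC_cosu (l := 1724 / 10000) (by norm_num) (by linarith only [hp]) (by linarith only [hp']) (by norm_num)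
    · exact NegNumC_sinl (l := 3449 / 10000) (by norm_num) (by linarith only [hp]) (by linarith only [hp']) (by norm_num)
    · exact NegNumC_sinl (l := 691 / 1000) (by norm_num) (by linarith only [hp]) (by linarith only [hp']) (by norm_num)
    · exact NegNumC_cosu (l := 691 / 1000) (by norm_num) (by linarith only [hp]) (by linarith only [hp']) (by norm_num)
  rcases le_total y (27 / 100) with h2 | h2
  · refine NegNumC_piece (y0 := 20 / 100) (y1 := 27 / 100) (C := 6611 / 10000) (S := 5898 / 10000) (Q := 9806 / 10000)
      (R := 385 / 1000) (U := 951 / 1000) (V := 310 / 1000) (by norm_num) (by norm_num) (by norm_num) h1 h2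
      ?_ (by norm_num) ?_ ?_ ?_ (by norm_num) ?_ (by norm_num) ?_ (by norm_num) (by norm_num)
    · exact NegNumC_cosl (h := 84824 / 100000) (by positivity) (by linarith only [hp', hp]) (by norm_num) (by norm_num)
    · exact NegNumC_sinu (h := 63054 / 100000) (by linarith only [hp]) (by linarith only [hp', hp]) (by norm_num) (by norm_num)
    · exact NegNumC_cosu (l := 1979 / 10000) (by norm_num) (by linarith only [hp]) (by linarith only [hp']) (by norm_num)
    · exact NegNumC_sinl (l := 3958 / 10000) (by norm_num) (by linarith only [hp]) (by linarith only [hp']) (by norm_num)
    · rw [hs']
      exact NegNumC_cosl (h := 31417 / 100000) (by linarith only [hp]) (by linarith only [hp', hp]) (by norm_num) (by norm_num)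
    · rw [hc']
      exact NegNumC_sinu (h := 31417 / 100000) (by linarith only [hp]) (by linarith only [hp', hp]) (by norm_num) (by norm_num)
  rcases le_total y (32 / 100) with h3 | h3
  · refine NegNumC_piece (y0 := 27 / 100) (y1 := 32 / 100) (C := 5356 / 10000) (S := 6988 / 10000) (Q := 9765 / 10000)
      (R := 421 / 1000) (U := 992 / 1000) (V := -125 / 1000) (by norm_num) (by norm_num) (by norm_num) h2 h3
      ?_ (by norm_num) ?_ ?_ ?_ (by norm_num) ?_ (by norm_num) ?_ (by norm_num) (by norm_num)
    · exact NegNumC_cosl (h := 100532 / 100000) (by positivity) (by linarith only [hp', hp]) (by norm_num) (by norm_num)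
    · exact NegNumC_sinu (h := 77348 / 100000) (by linarith only [hp]) (by linarith only [hp', hp]) (by norm_num) (by norm_num)
    · exact NegNumC_cosu (l := 2177 / 10000) (by norm_num) (by linarith only [hp]) (by linarith only [hp']) (by norm_num)
    · exact NegNumC_sinl (l := 4354 / 10000) (by norm_num) (by linarith only [hp]) (by linarith only [hp']) (by norm_num)
    · rw [hs]
      exact NegNumC_cosl (h := 12567 / 100000) (by linarith only [hp]) (by linarith only [hp']) (by norm_num) (by norm_num)
    · rw [hc, neg_le, neg_div, neg_neg]
      exact NegNumC_sinl (l := 1256 / 10000) (by norm_num) (by linarith only [hp]) (by linarith only [hp']) (by norm_num)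
  rcases le_total y (35 / 100) with h4 | h4
  · refine NegNumC_piece (y0 := 32 / 100) (y1 := 35 / 100) (C := 4537 / 10000) (S := 7575 / 10000) (Q := 9734 / 10000)
      (R := 447 / 1000) (U := 904 / 1000) (V := -425 / 1000) (by norm_num) (by norm_num) (by norm_num) h3 h4
      ?_ (by norm_num) ?_ ?_ ?_ (by norm_num) ?_ (by norm_num) ?_ (by norm_num) (by norm_num)
    · exact NegNumC_cosl (h := 109957 / 100000) (by positivity) (by linarith only [hp', hp]) (by norm_num) (by norm_num)
    · exact NegNumC_sinu (h := 85924 / 100000) (by linarith only [hp]) (by linarith only [hp', hp]) (by norm_num) (by norm_num)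
    · exact NegNumC_cosu (l := 2318 / 10000) (by norm_num) (by linarith only [hp]) (by linarith only [hp']) (by norm_num)
    · exact NegNumC_sinl (l := 4636 / 10000) (by norm_num) (by linarith only [hp]) (by linarith only [hp']) (by norm_num)
    · rw [hs]
      exact NegNumC_cosl (h := 43984 / 100000) (by linarith only [hp]) (by linarith only [hp']) (by norm_num) (by norm_num)
    · rw [hc, neg_le, neg_div, neg_neg]
      exact NegNumC_sinl (l := 4397 / 10000) (by norm_num) (by linarith only [hp]) (by linarith only [hp']) (by norm_num)
  rcases le_total y (37 / 100) with h5 | h5
  · refine NegNumC_piece (y0 := 35 / 100) (y1 := 37 / 100) (C := 3968 / 10000) (S := 7936 / 10000) (Q := 9714 / 10000)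
      (R := 462 / 1000) (U := 8088 / 10000) (V := -587 / 1000) (by norm_num) (by norm_num) (by norm_num) h4 h5
      ?_ (by norm_num) ?_ ?_ ?_ (by norm_num) ?_ (by norm_num) ?_ (by norm_num) (by norm_num)
    · exact NegNumC_cosl (h := 11625 / 10000) (by positivity) (by linarith only [hp']) (by norm_num) (by norm_num)
    · exact NegNumC_sinu (h := 91642 / 100000) (by linarith only [hp]) (by linarith only [hp', hp]) (by norm_num) (by norm_num)
    · exact NegNumC_cosu (l := 2403 / 10000) (by norm_num) (by linarith only [hp]) (by linarith only [hp']) (by norm_num)
    · exact NegNumC_sinl (l := 4806 / 10000) (by norm_num) (by linarith only [hp]) (by linarith only [hp']) (by norm_num)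
    · rw [hs]
      exact NegNumC_cosl (h := 62833 / 100000) (by linarith only [hp]) (by linarith only [hp', hp]) (by norm_num) (by norm_num)
    · rw [hc, neg_le, neg_div, neg_neg]
      exact NegNumC_sinl (l := 6282 / 10000) (by norm_num) (by linarith only [hp]) (by linarith only [hp']) (by norm_num)
  · refine NegNumC_piece (y0 := 37 / 100) (y1 := 38 / 100) (C := 3678 / 10000) (S := 8108 / 10000) (Q := 97 / 100)
      (R := 472 / 1000) (U := 7288 / 10000) (V := -684 / 1000) (by norm_num) (by norm_num) (by norm_num) h5 hy'
      ?_ (by norm_num) ?_ ?_ ?_ (by norm_num) ?_ (by norm_num) ?_ (by norm_num) (by norm_num)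
    · exact NegNumC_cosl (h := 119385 / 100000) (by positivity) (by linarith only [hp', hp]) (by norm_num) (by norm_num)
    · exact NegNumC_sinu (h := 945 / 1000) (by linarith only [hp]) (by linarith only [hp']) (by norm_num) (by norm_num)
    · exact NegNumC_cosu (l := 2459 / 10000) (by norm_num) (by linarith only [hp]) (by linarith only [hp']) (by norm_num)
    · exact NegNumC_sinl (l := 4919 / 10000) (by norm_num) (by linarith only [hp]) (by linarith only [hp']) (by norm_num)
    · rw [hs]
      exact NegNumC_cosl (h := 754 / 1000) (by linarith only [hp]) (by linarith only [hp']) (by norm_num) (by norm_num)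
    · rw [hc, neg_le, neg_div, neg_neg]
      exact NegNumC_sinl (l := 7539 / 10000) (by norm_num) (by linarith only [hp]) (by linarith only [hp']) (by norm_num)

theorem num_C (y : ℝ) (hy : 11 / 100 ≤ y) (hy' : y ≤ 38 / 100) :
    (91 / 100 * (y + 1 / 2) ≤ 1 / 2 ∨ 0 < N2 (y + 1 / 2)) ∧ 2 * L2 y < 4 * TN y := by
  obtain ⟨h1, h2⟩ := NegNumC_main hy hy'
  refine ⟨Or.inr h1, ?_⟩
  unfold L2
  rw [if_neg (by linarith only [hy]), mul_one_div, div_lt_iff₀ h1]
  linarith only [h2]

end Pool.Agent.H63.GO
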