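import Pool.Agent.H63.GO.NegBlk
import Pool.Agent.H63.GO.NegNumA
import Pool.Agent.H63.GO.NegNumB
import Pool.Agent.H63.GO.NegNumC

/-! # Negativity of the second derivative -/

namespace Pool.Agent.H63.GO

open Complex Filter Topology Pool.Agent.H63.VC Pool.Agent.H63.VC3

/-- The condition on `y` for a block. -/
private def Neg_cond (r : ℤ) (y : ℝ) : Prop :=
  if 3 ≤ |r| then 187 / 100 * y ≤ 1 / 2 ∨ 0 < N3 y
  else 91 / 100 * (y + 1 / 2) ≤ 1 / 2 ∨ 0 < N2 (y + 1 / 2)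

/-- The loss of a block. -/
private noncomputable def Neg_loss (r : ℤ) (y : ℝ) : ℝ := if 3 ≤ |r| then L3 y else L2 y

private theorem Neg_blk (r : ℤ) (hr : 2 ≤ |r|) (y z b c : ℝ) (hy : 11 / 100 ≤ y)
    (hy' : y ≤ 38 / 100) (hy3 : 3 ≤ |r| → y ≤ 375 / 1000) (hK : KB r (y + 1 / 2) z)
    (hS : SB r b c) (hN : Neg_cond r y) (s t : ℝ) :
    (BQ r ((y + 1 / 2 : ℝ) + b * I) (z + c * I) s t).re ≤
      (Real.pi * Complex.cot (Real.pi * ((y + 1 / 2 : ℝ) + b * I))).re * s ^ 2 +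
        Real.pi * Neg_loss r y * s ^ 2 ∧
    (t ≠ 0 → s = 0 → (BQ r ((y + 1 / 2 : ℝ) + b * I) (z + c * I) s t).re < 0) := by
  by_cases h : 3 ≤ |r|
  · simp only [KB, SB, Neg_cond, Neg_loss, h, if_true] at hK hS hN ⊢
    refine neg_blk3 r h y z b c hy (hy3 h) ?_ hS hN s t
    have e : y + 1 / 2 - 1 / 2 = y := by ring
    rw [e] at hK
    exact hK
  · have h2 : |r| = 2 := by omega
    simp only [KB, SB, Neg_cond, Neg_loss, h, if_false] at hK hS hN ⊢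
    exact neg_blk2 r h2 y z b c hy hy' hK hS.1 hS.2 hN s t

private theorem Neg_num (r1 r2 : ℤ) (y : ℝ) (h1 : yl r1 r2 ≤ y) (h2 : y ≤ yu r1 r2) :
    11 / 100 ≤ y ∧ y ≤ 38 / 100 ∧ (3 ≤ |r1| → y ≤ 375 / 1000) ∧ (3 ≤ |r2| → y ≤ 375 / 1000) ∧
      Neg_cond r1 y ∧ Neg_cond r2 y ∧ Neg_loss r1 y + Neg_loss r2 y < 4 * TN y := by
  by_cases a1 : 3 ≤ |r1|
  · by_cases a2 : 3 ≤ |r2|
    · simp only [yl, yu, a1, a2, and_self, if_true] at h1 h2
      obtain ⟨hN, hL⟩ := num_A y h1 h2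
      simp only [Neg_cond, Neg_loss, a1, a2, if_true]
      exact ⟨by linarith, by linarith, fun _ => by linarith, fun _ => by linarith, hN, hN,
        by linarith⟩
    · simp only [yl, yu, a1, a2, and_false, true_or, if_true, if_false] at h1 h2
      obtain ⟨hN, hN2, hL⟩ := num_B y h1 h2
      simp only [Neg_cond, Neg_loss, a1, a2, if_true, if_false]
      exact ⟨by linarith, by linarith, fun _ => by linarith, fun _ => by linarith, hN, hN2,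
        by linarith⟩
  · by_cases a2 : 3 ≤ |r2|
    · simp only [yl, yu, a1, a2, false_and, or_true, if_true, if_false] at h1 h2
      obtain ⟨hN, hN2, hL⟩ := num_B y h1 h2
      simp only [Neg_cond, Neg_loss, a1, a2, if_true, if_false]
      exact ⟨by linarith, by linarith, fun _ => by linarith, fun _ => by linarith, hN2, hN,
        by linarith⟩
    · simp only [yl, yu, a1, a2, and_self, or_self, if_false] at h1 h2
      obtain ⟨hN, hL⟩ := num_C y h1 h2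
      simp only [Neg_cond, Neg_loss, a1, a2, if_false]
      exact ⟨by linarith, by linarith, fun h => False.elim h, fun h => False.elim h, hN, hN,
        by linarith⟩

theorem neg (r1 r2 : ℤ) (h1 : 2 ≤ |r1|) (h2 : 2 ≤ |r2|) : ∀ a ∈ KS r1 r2, ∀ b ∈ BS r1 r2,
    ∀ ξ : Fin 3 → ℝ, ξ ≠ 0 → (D2 (VV r1 r2) (cp a b) (rc ξ)).re < 0 := by
  intro a ha b hb ξ hξ
  have hU := KB_sub r1 r2 a ha b hb
  obtain ⟨ha1, ha2, hK1, hK2⟩ := ha
  obtain ⟨hb0, hS1, hS2⟩ := hb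
  obtain ⟨y, hy⟩ : ∃ y : ℝ, y = a 0 - 1 / 2 := ⟨_, rfl⟩
  have ha0 : a 0 = y + 1 / 2 := by rw [hy]; ring
  rw [← hy] at ha1 ha2
  rw [ha0] at hK1 hK2
  obtain ⟨hy1, hy2, hy3, hy4, hC1, hC2, hL⟩ := Neg_num r1 r2 y ha1 ha2
  have hB1 := Neg_blk r1 h1 y (a 1) (b 0) (b 1) hy1 hy2 hy3 hK1 hS1 hC1 (ξ 0) (ξ 1)
  have hB2 := Neg_blk r2 h2 y (a 2) (b 0) (b 2) hy1 hy2 hy4 hK2 hS2 hC2 (ξ 0) (ξ 2)
  have hX := neg_x y (b 0) hy1 hy2 hb0
  rw [VV_D2 r1 r2 _ hU]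
  have e0 : cp a b 0 = ((y + 1 / 2 : ℝ) : ℂ) + b 0 * I := by rw [cp, ha0]
  have e1 : cp a b 1 = (a 1 : ℂ) + b 1 * I := rfl
  have e2 : cp a b 2 = (a 2 : ℂ) + b 2 * I := rfl
  have f0 : rc ξ 0 = (ξ 0 : ℂ) := rfl
  have f1 : rc ξ 1 = (ξ 1 : ℂ) := rfl
  have f2 : rc ξ 2 = (ξ 2 : ℂ) := rfl
  rw [e0, e1, e2, f0, f1, f2, Complex.add_re, Complex.add_re]
  have hmain : (2 * Real.pi * Complex.cot (Real.pi * (((y + 1 / 2 : ℝ) : ℂ) + b 0 * I)) *
      (ξ 0 : ℂ) ^ 2).re =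
      2 * (Real.pi * Complex.cot (Real.pi * (((y + 1 / 2 : ℝ) : ℂ) + b 0 * I))).re * ξ 0 ^ 2 := by
    have : 2 * Real.pi * Complex.cot (Real.pi * (((y + 1 / 2 : ℝ) : ℂ) + b 0 * I)) *
      (ξ 0 : ℂ) ^ 2 = ((2 * ξ 0 ^ 2 : ℝ) : ℂ) *
        (Real.pi * Complex.cot (Real.pi * (((y + 1 / 2 : ℝ) : ℂ) + b 0 * I))) := by
      push_cast
      ring
    rw [this, Complex.re_ofReal_mul]
    ring
  rw [hmain]
  by_cases h0 : ξ 0 = 0
  · have hz1 : ((ξ 1 ≠ 0) → (BQ r1 (((y + 1 / 2 : ℝ) : ℂ) + b 0 * I) (a 1 + b 1 * I)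
        (ξ 0) (ξ 1)).re < 0) := fun h => hB1.2 h h0
    have hz2 : ((ξ 2 ≠ 0) → (BQ r2 (((y + 1 / 2 : ℝ) : ℂ) + b 0 * I) (a 2 + b 2 * I)
        (ξ 0) (ξ 2)).re < 0) := fun h => hB2.2 h h0
    have hw1 := hB1.1
    have hw2 := hB2.1
    have hsq : ξ 0 ^ 2 = 0 := by rw [h0]; ring
    rw [hsq] at hw1 hw2 ⊢
    by_cases hx1 : ξ 1 = 0
    · have hx2 : ξ 2 ≠ 0 := by
        intro hx2
        apply hξ
        funext j
        fin_cases j
        · exact h0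
        · exact hx1
        · exact hx2
      have := hz2 hx2
      linarith
    · have := hz1 hx1
      linarith
  · have hpos : 0 < ξ 0 ^ 2 := by positivity
    have hpi := Real.pi_pos
    have hw1 := hB1.1
    have hw2 := hB2.1
    have hX' := mul_le_mul_of_nonneg_right hX hpos.le
    have hL' : 0 < Real.pi * (4 * TN y - (Neg_loss r1 y + Neg_loss r2 y)) * ξ 0 ^ 2 :=
      mul_pos (mul_pos hpi (by linarith)) hpos
    nlinarith [hw1, hw2, hX', hL']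

end Pool.Agent.H63.GO
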