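import Pool.Agent.H63.GO.FMono
import Pool.Agent.H63.GO.LowNum
import Pool.Agent.H63.GO.Neg
import Pool.Agent.H63.GO.PFun
import Pool.Agent.H63.GO.SCalc

/-! # Lower bound for the critical value -/

namespace Pool.Agent.H63.GO

open Complex Filter Topology Pool.Agent.H63.VC Pool.Agent.H63.VC3

/-- The lower bound. -/
noncomputable def lw (r1 r2 : ℤ) : ℝ :=
  if 3 ≤ |r1| ∧ 3 ≤ |r2| then 998 / 1000 else
    if 3 ≤ |r1| ∨ 3 ≤ |r2| then 896 / 1000 else 805 / 1000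

/-- The linear part of `Vm`. -/
private noncomputable def Low_L {ι : Type} [Fintype ι] (Bv : Finset ι) : (ι → ℂ) →L[ℂ] ℂ :=
  (2 * Real.pi * I : ℂ) • ∑ j ∈ Bv, ContinuousLinearMap.proj (R := ℂ) (φ := fun _ : ι => ℂ) j

private theorem Low_L_apply {ι : Type} [Fintype ι] (Bv : Finset ι) (z : ι → ℂ) :
    Low_L Bv z = 2 * Real.pi * I * ∑ j ∈ Bv, z j := by
  simp [Low_L]

private theorem Low_Vm {ι : Type} [Fintype ι] (Bv : Finset ι) (V0 : (ι → ℂ) → ℂ) :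
    Vm Bv V0 = fun z => V0 z + Low_L Bv z := by
  funext z
  rw [Low_L_apply]
  rfl

private theorem Low_an {ι : Type} [Fintype ι] {Bv : Finset ι} {V0 : (ι → ℂ) → ℂ}
    {U : Set (ι → ℂ)} (h : AnalyticOnNhd ℂ V0 U) : AnalyticOnNhd ℂ (Vm Bv V0) U := by
  rw [Low_Vm]
  exact h.add ((Low_L Bv).analyticOnNhd U)

private theorem Low_fderiv {ι : Type} [Fintype ι] {Bv : Finset ι} {V0 : (ι → ℂ) → ℂ}
    {U : Set (ι → ℂ)} (h : AnalyticOnNhd ℂ V0 U) {z : ι → ℂ} (hz : z ∈ U) :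
    fderiv ℂ (Vm Bv V0) z = fderiv ℂ V0 z + Low_L Bv := by
  rw [Low_Vm]
  exact ((h z hz).differentiableAt.hasFDerivAt.add (Low_L Bv).hasFDerivAt).fderiv

private theorem Low_D2 {ι : Type} [Fintype ι] {Bv : Finset ι} {V0 : (ι → ℂ) → ℂ}
    {U : Set (ι → ℂ)} (hU : IsOpen U) (h : AnalyticOnNhd ℂ V0 U) {z : ι → ℂ} (hz : z ∈ U)
    (ξ : ι → ℂ) : D2 (Vm Bv V0) z ξ = D2 V0 z ξ := by
  unfold D2
  have h1 : (fun w => fderiv ℂ (Vm Bv V0) w ξ) =ᶠ[𝓝 z]
      fun w => fderiv ℂ V0 w ξ + Low_L Bv ξ := by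
    filter_upwards [hU.mem_nhds hz] with w hw
    rw [Low_fderiv h hw]
    rfl
  rw [h1.fderiv_eq, fderiv_add_const]

private theorem Low_re {ι : Type} [Fintype ι] (Bv : Finset ι) (V0 : (ι → ℂ) → ℂ)
    (a b : ι → ℝ) :
    (Vm Bv V0 (cp a b)).re = (V0 (cp a b)).re - 2 * Real.pi * ∑ j ∈ Bv, b j := by
  have h1 : (∑ j ∈ Bv, cp a b j).im = ∑ j ∈ Bv, b j := by
    rw [Complex.im_sum]
    apply Finset.sum_congr rfl
    intro j _
    simp [cp]
  have h2 : ((2 * Real.pi * I : ℂ) * ∑ j ∈ Bv, cp a b j).re =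
      -(2 * Real.pi * (∑ j ∈ Bv, cp a b j).im) := by
    simp [Complex.mul_re, Complex.mul_im]
  unfold Vm
  rw [Complex.add_re, h2, h1]
  ring

/-- The saddle inequality. -/
private theorem Low_saddle (r1 r2 : ℤ) (h1 : 2 ≤ |r1|) (h2 : 2 ≤ |r2|) (ac bc : Fin 3 → ℝ)
    (ha : ac ∈ KS r1 r2) (hb : bc ∈ BS r1 r2)
    (hg : ∀ ξ : Fin 3 → ℝ, fderiv ℂ (Vm (Bs r1 r2) (VV r1 r2)) (cp ac bc) (rc ξ) = 0)
    (a0 : Fin 3 → ℝ) (ha0 : a0 ∈ KS r1 r2) :
    EE r1 r2 a0 - (fderiv ℂ (Vm (Bs r1 r2) (VV r1 r2)) (cp a0 0) (rc bc)).im ≤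
      (Vm (Bs r1 r2) (VV r1 r2) (cp ac bc)).re := by
  have hV := VV_an r1 r2
  have hUo := UU_open r1 r2
  have h0B : (0 : Fin 3 → ℝ) ∈ BS r1 r2 := mem_of_mem_nhds (BS_zero r1 r2)
  obtain ⟨c, hc, hneg⟩ := neg_unif (VV r1 r2) (UU r1 r2) hUo hV (KS r1 r2) (BS r1 r2)
    (KS_cpt r1 r2) (BS_cpt r1 r2) (KB_sub r1 r2) (neg r1 r2 h1 h2)
  have hc1 := real_concave (Vm (Bs r1 r2) (VV r1 r2)) (UU r1 r2) hUo (Low_an hV) (KS r1 r2)
    (KS_cvx r1 r2) bc (fun a ha => KB_sub r1 r2 a ha bc hb) c hc.le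
    (fun a ha ξ => by
      rw [Low_D2 hUo hV (KB_sub r1 r2 a ha bc hb)]
      exact hneg a ha bc hb ξ) ac ha a0 ha0
  rw [hg (a0 - ac)] at hc1
  have hsum : 0 ≤ ∑ j, (a0 j - ac j) ^ 2 := Finset.sum_nonneg fun _ _ => sq_nonneg _
  have hseg : ∀ t ∈ Set.Icc (0 : ℝ) 1, (0 : Fin 3 → ℝ) + t • (bc - 0) ∈ BS r1 r2 := by
    intro t ht
    have h3 := BS_cvx r1 r2 h0B hb (by linarith [ht.2] : (0 : ℝ) ≤ 1 - t) ht.1 (by ring)
    have h4 : (0 : Fin 3 → ℝ) + t • (bc - 0) = (1 - t) • (0 : Fin 3 → ℝ) + t • bc := by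
      simp
    rw [h4]
    exact h3
  have hc2 := (imag_convex (Vm (Bs r1 r2) (VV r1 r2)) (UU r1 r2) hUo (Low_an hV) a0 0 bc
    (fun t ht => KB_sub r1 r2 a0 ha0 _ (hseg t ht))
    (fun t ht => by
      rw [Low_D2 hUo hV (KB_sub r1 r2 a0 ha0 _ (hseg t ht))]
      refine (hneg a0 ha0 _ (hseg t ht) (bc - 0)).trans ?_
      have : 0 ≤ ∑ j, (bc - 0 : Fin 3 → ℝ) j ^ 2 := Finset.sum_nonneg fun _ _ => sq_nonneg _
      nlinarith)).2
  rw [Low_re _ _ a0 0, sub_zero, ← EE_eq r1 r2 a0 ha0] at hc2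
  simp only [Pi.zero_apply, Finset.sum_const_zero, mul_zero, sub_zero] at hc2
  simp only [Complex.zero_re, add_zero] at hc1
  have hc3 : 0 ≤ c / 2 * ∑ j, (a0 j - ac j) ^ 2 := mul_nonneg (by linarith) hsum
  linarith

/-- The block variable of the comparison point. -/
private noncomputable def Low_z (r : ℤ) (x : ℝ) : ℝ :=
  if 3 ≤ |r| then -(1 / (2 * (r : ℝ))) else 1 - x / 2

private theorem Low_abs (r : ℤ) (hr : 3 ≤ |r|) :
    0 ≤ 1 / (2 * |(r : ℝ)|) ∧ 1 / (2 * |(r : ℝ)|) ≤ 1 / 6 ∧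
      |(-(1 / (2 * (r : ℝ))))| = 1 / (2 * |(r : ℝ)|) := by
  have h : (3 : ℝ) ≤ |(r : ℝ)| := by exact_mod_cast hr
  refine ⟨by positivity, ?_, ?_⟩
  · rw [div_le_div_iff₀ (by positivity) (by norm_num)]
    linarith
  · rw [abs_neg, abs_div, abs_mul, abs_one, abs_two]

private theorem Low_hh (x : ℝ) (h0 : 0 < x) (h1 : x < 1) (z : ℂ) (hz : z = (x : ℂ)) :
    (hh z).im = 0 := by
  rw [hz, hh_real x h0 h1, Complex.ofReal_im]

private theorem Low_Bx (r : ℤ) (x : ℝ) (hx : 3 / 4 ≤ x) (hx' : x ≤ 7 / 8) :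
    (Bx r (x : ℂ) (Low_z r x : ℂ)).im = if 3 ≤ |r| then 0 else Real.pi * r / 4 * (x - 1) := by
  by_cases h : 3 ≤ |r|
  · obtain ⟨e1, e2, e3⟩ := Low_abs r h
    have e4 := abs_le.1 (e3.le.trans e2)
    simp only [Bx, Low_z, h, if_true]
    rw [Complex.sub_im, Complex.sub_im, Low_hh x (by linarith) (by linarith) _ rfl,
      Low_hh (x - 1 / 2 - -(1 / (2 * (r : ℝ)))) (by linarith) (by linarith) _ (by push_cast; ring),
      Low_hh (x - 1 / 2 + -(1 / (2 * (r : ℝ)))) (by linarith) (by linarith) _ (by push_cast; ring)]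
    ring
  · simp only [Bx, Low_z, h, if_false]
    have e : (Real.pi * I * r / 2 * ((x : ℂ) - 3 / 2 + ((1 - x / 2 : ℝ) : ℂ))) =
        ((Real.pi * r / 4 * (x - 1) : ℝ) : ℂ) * I := by
      push_cast
      ring
    rw [Complex.add_im, Complex.sub_im, e, Low_hh x (by linarith) (by linarith) _ rfl,
      Low_hh (x - (1 - x / 2)) (by linarith) (by linarith) _ (by push_cast; ring),
      Complex.im_ofReal_mul, Complex.I_im]
    ring

private theorem Low_Bz (r : ℤ) (h0 : r ≠ 0) (x : ℝ) (hx : 3 / 4 ≤ x) (hx' : x ≤ 7 / 8) :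
    (Bz r (x : ℂ) (Low_z r x : ℂ)).im = if 3 ≤ |r| then -(2 * Real.pi) else 0 := by
  have h0' : (r : ℝ) ≠ 0 := by exact_mod_cast h0
  by_cases h : 3 ≤ |r|
  · obtain ⟨e1, e2, e3⟩ := Low_abs r h
    have e4 := abs_le.1 (e3.le.trans e2)
    simp only [Bz, Low_z, h, if_true]
    have e : (4 * Real.pi * I * r * ((-(1 / (2 * (r : ℝ))) : ℝ) : ℂ)) =
        ((-(2 * Real.pi) : ℝ) : ℂ) * I := by
      have h0'' : (r : ℂ) ≠ 0 := by exact_mod_cast h0
      push_cast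
      field_simp
      ring
    rw [Complex.add_im, Complex.sub_im, e,
      Low_hh (x - 1 / 2 - -(1 / (2 * (r : ℝ)))) (by linarith) (by linarith) _ (by push_cast; ring),
      Low_hh (x - 1 / 2 + -(1 / (2 * (r : ℝ)))) (by linarith) (by linarith) _ (by push_cast; ring),
      Complex.im_ofReal_mul, Complex.I_im]
    ring
  · simp only [Bz, Low_z, h, if_false]
    have e : (Real.pi * I * r / 2 * (2 * ((1 - x / 2 : ℝ) : ℂ) + (x : ℂ) - 2)) = 0 := by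
      push_cast
      ring
    rw [e, add_zero, Complex.add_im, Complex.neg_im,
      Low_hh (1 - x / 2) (by linarith) (by linarith) _ rfl,
      Low_hh (x - (1 - x / 2)) (by linarith) (by linarith) _ (by push_cast; ring)]
    ring

private theorem Low_EB (r : ℤ) (x : ℝ) (hx : 3 / 4 ≤ x) (hx' : x ≤ 7 / 8) :
    (if 3 ≤ |r| then Fr x - Fr (x - 1 / 2 - 1 / 6) - Fr (x - 1 / 2 + 1 / 6)
      else Fr x - Fr (1 - x / 2) - Fr (3 * x / 2 - 1)) ≤ EB r x (Low_z r x) := by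
  by_cases h : 3 ≤ |r|
  · obtain ⟨e1, e2, e3⟩ := Low_abs r h
    simp only [EB, Low_z, h, if_true]
    have hm := Fr_mono3 (x - 1 / 2) (1 / (2 * |(r : ℝ)|)) (1 / 6) (by linarith) (by linarith)
      e1 e2 (by norm_num)
    have hs : Fr (x - 1 / 2 - -(1 / (2 * (r : ℝ)))) + Fr (x - 1 / 2 + -(1 / (2 * (r : ℝ)))) =
        Fr (x - 1 / 2 - 1 / (2 * |(r : ℝ)|)) + Fr (x - 1 / 2 + 1 / (2 * |(r : ℝ)|)) := by
      rw [← e3]
      rcases abs_cases (-(1 / (2 * (r : ℝ)))) with ⟨q, _⟩ | ⟨q, _⟩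
      · rw [q]
      · rw [q, neg_neg, add_comm, sub_neg_eq_add, ← sub_eq_add_neg]
    linarith
  · simp only [EB, Low_z, h, if_false]
    have e : x - (1 - x / 2) = 3 * x / 2 - 1 := by ring
    rw [e]

private theorem Low_KB (r : ℤ) (x : ℝ) (hx : 3 / 4 ≤ x) (hx' : x ≤ 7 / 8) :
    KB r x (Low_z r x) := by
  by_cases h : 3 ≤ |r|
  · obtain ⟨e1, e2, e3⟩ := Low_abs r h
    simp only [KB, Low_z, h, if_true]
    rw [e3]
    linarith
  · simp only [KB, Low_z, h, if_false]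
    rw [abs_le]
    constructor <;> linarith

/-- The comparison point. -/
private noncomputable def Low_a (r1 r2 : ℤ) (x : ℝ) : Fin 3 → ℝ := ![x, Low_z r1 x, Low_z r2 x]

/-- The contribution of a block with `|r| = 2`. -/
private noncomputable def Low_e (r : ℤ) : ℝ := if 3 ≤ |r| then 0 else 1

/-- The lower bound at the comparison point. -/
private theorem Low_bd (r1 r2 : ℤ) (h1 : 2 ≤ |r1|) (h2 : 2 ≤ |r2|) (ac bc : Fin 3 → ℝ)
    (ha : ac ∈ KS r1 r2) (hb : bc ∈ BS r1 r2) (hb0 : |bc 0| ≤ 35 / 1000)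
    (hg : ∀ ξ : Fin 3 → ℝ, fderiv ℂ (Vm (Bs r1 r2) (VV r1 r2)) (cp ac bc) (rc ξ) = 0)
    (x : ℝ) (hx : 3 / 4 ≤ x) (hx' : x ≤ 7 / 8) (hK1 : yl r1 r2 ≤ x - 1 / 2)
    (hK2 : x - 1 / 2 ≤ yu r1 r2) :
    2 * Fr x + (if 3 ≤ |r1| then Fr x - Fr (x - 1 / 2 - 1 / 6) - Fr (x - 1 / 2 + 1 / 6)
      else Fr x - Fr (1 - x / 2) - Fr (3 * x / 2 - 1)) +
      (if 3 ≤ |r2| then Fr x - Fr (x - 1 / 2 - 1 / 6) - Fr (x - 1 / 2 + 1 / 6)
      else Fr x - Fr (1 - x / 2) - Fr (3 * x / 2 - 1)) -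
      Real.pi * ((Low_e r1 + Low_e r2) * ((1 - x) / 2)) * (35 / 1000) ≤
      (Vm (Bs r1 r2) (VV r1 r2) (cp ac bc)).re := by
  have hK : Low_a r1 r2 x ∈ KS r1 r2 := ⟨hK1, hK2, Low_KB r1 x hx hx', Low_KB r2 x hx hx'⟩
  have hU : cp (Low_a r1 r2 x) 0 ∈ UU r1 r2 :=
    KB_sub r1 r2 _ hK 0 (mem_of_mem_nhds (BS_zero r1 r2))
  have hs := Low_saddle r1 r2 h1 h2 ac bc ha hb hg (Low_a r1 r2 x) hK
  rw [Low_fderiv (VV_an r1 r2) hU, _root_.add_apply, Low_L_apply,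
    VV_fderiv r1 r2 _ hU (rc bc)] at hs
  have hr1 : r1 ≠ 0 := by rintro rfl; simp at h1
  have hr2 : r2 ≠ 0 := by rintro rfl; simp at h2
  have e0 : cp (Low_a r1 r2 x) 0 0 = (x : ℂ) := by simp [cp, Low_a]
  have e1 : cp (Low_a r1 r2 x) 0 1 = (Low_z r1 x : ℂ) := by simp [cp, Low_a]
  have e2 : cp (Low_a r1 r2 x) 0 2 = (Low_z r2 x : ℂ) := by simp [cp, Low_a]
  have f0 : ∀ j, rc bc j = (bc j : ℂ) := fun j => rfl
  have hsum : (∑ j ∈ Bs r1 r2, rc bc j) =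
      (((if 3 ≤ |r1| then bc 1 else 0) + (if 3 ≤ |r2| then bc 2 else 0) : ℝ) : ℂ) := by
    rw [Bs, Finset.sum_filter, Fin.sum_univ_three]
    simp only [f0]
    by_cases g1 : 3 ≤ |r1| <;> by_cases g2 : 3 ≤ |r2| <;> simp [g1, g2]
  rw [e0, e1, e2, f0 0, f0 1, f0 2, hsum] at hs
  have hEE : EE r1 r2 (Low_a r1 r2 x) = 2 * Fr x + EB r1 x (Low_z r1 x) +
      EB r2 x (Low_z r2 x) := rfl
  have hE1 := Low_EB r1 x hx hx'
  have hE2 := Low_EB r2 x hx hx'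
  have i0 : (2 * hh (x : ℂ) * (bc 0 : ℂ)).im = 0 := by
    have : 2 * hh (x : ℂ) * (bc 0 : ℂ) = ((2 * bc 0 : ℝ) : ℂ) * hh (x : ℂ) := by
      push_cast
      ring
    rw [this, Complex.im_ofReal_mul, Low_hh x (by linarith) (by linarith) _ rfl, mul_zero]
  have iL : (2 * Real.pi * I * (((if 3 ≤ |r1| then bc 1 else 0) +
      (if 3 ≤ |r2| then bc 2 else 0) : ℝ) : ℂ)).im =
      2 * Real.pi * ((if 3 ≤ |r1| then bc 1 else 0) + (if 3 ≤ |r2| then bc 2 else 0)) := by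
    have : (2 * Real.pi * I * (((if 3 ≤ |r1| then bc 1 else 0) +
      (if 3 ≤ |r2| then bc 2 else 0) : ℝ) : ℂ)) =
      ((2 * Real.pi * ((if 3 ≤ |r1| then bc 1 else 0) +
        (if 3 ≤ |r2| then bc 2 else 0)) : ℝ) : ℂ) * I := by
      push_cast
      ring
    rw [this, Complex.im_ofReal_mul, Complex.I_im, mul_one]
  have iB : ∀ r : ℤ, r ≠ 0 → ∀ t : ℝ, (Bx r (x : ℂ) (Low_z r x : ℂ) * (bc 0 : ℂ) +
      Bz r (x : ℂ) (Low_z r x : ℂ) * (t : ℂ)).im =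
      (if 3 ≤ |r| then 0 else Real.pi * r / 4 * (x - 1)) * bc 0 +
        (if 3 ≤ |r| then -(2 * Real.pi) else 0) * t := by
    intro r hr t
    rw [Complex.add_im, Complex.im_mul_ofReal, Complex.im_mul_ofReal, Low_Bx r x hx hx',
      Low_Bz r hr x hx hx']
  rw [Complex.add_im, Complex.add_im, Complex.add_im, i0, iB r1 hr1, iB r2 hr2, iL] at hs
  have hb1 := abs_le.1 hb0
  have hpi := Real.pi_pos
  have key : ∀ r : ℤ, 2 ≤ |r| → ∀ t : ℝ,
      (if 3 ≤ |r| then 0 else Real.pi * r / 4 * (x - 1)) * bc 0 +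
        (if 3 ≤ |r| then -(2 * Real.pi) else 0) * t +
        2 * Real.pi * (if 3 ≤ |r| then t else 0) ≤
      Real.pi * (Low_e r * ((1 - x) / 2)) * (35 / 1000) := by
    intro r hr t
    by_cases h : 3 ≤ |r|
    · simp only [Low_e, h, if_true]
      linarith
    · simp only [Low_e, h, if_false]
      have hr2 : |r| = 2 := by omega
      have hx1 : 0 ≤ Real.pi * (1 - x) := mul_nonneg hpi.le (by linarith)
      rcases (abs_eq (by norm_num : (0 : ℤ) ≤ 2)).1 hr2 with q | q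
      · rw [q]
        push_cast
        nlinarith [mul_le_mul_of_nonneg_left hb1.1 hx1]
      · rw [q]
        push_cast
        nlinarith [mul_le_mul_of_nonneg_left hb1.2 hx1]
  have k1 := key r1 h1 (bc 1)
  have k2 := key r2 h2 (bc 2)
  rw [hEE] at hs
  nlinarith [hs, k1, k2, hE1, hE2]

theorem low (r1 r2 : ℤ) (h1 : 2 ≤ |r1|) (h2 : 2 ≤ |r2|) (ac bc : Fin 3 → ℝ)
    (ha : ac ∈ KS r1 r2) (hb : bc ∈ BS r1 r2) (hb0 : |bc 0| ≤ 35 / 1000)
    (hg : ∀ ξ : Fin 3 → ℝ, fderiv ℂ (Vm (Bs r1 r2) (VV r1 r2)) (cp ac bc) (rc ξ) = 0) :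
    lw r1 r2 ≤ (Vm (Bs r1 r2) (VV r1 r2) (cp ac bc)).re := by
  by_cases g1 : 3 ≤ |r1|
  · by_cases g2 : 3 ≤ |r2|
    · have h := Low_bd r1 r2 h1 h2 ac bc ha hb hb0 hg (79 / 100) (by norm_num) (by norm_num)
        (by simp only [yl, g1, g2, and_self, if_true]; norm_num)
        (by simp only [yu, g1, g2, and_self, if_true]; norm_num)
      have hn := nA
      simp only [g1, g2, if_true, Low_e] at h
      have q1 : (79 : ℝ) / 100 - 1 / 2 - 1 / 6 = 29 / 100 - 1 / 6 := by norm_num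
      have q2 : (79 : ℝ) / 100 - 1 / 2 + 1 / 6 = 29 / 100 + 1 / 6 := by norm_num
      rw [q1, q2] at h
      simp only [lw, g1, g2, and_self, if_true]
      linarith
    · have h := Low_bd r1 r2 h1 h2 ac bc ha hb hb0 hg (809 / 1000) (by norm_num) (by norm_num)
        (by simp only [yl, g1, g2, and_false, if_false]; norm_num)
        (by simp only [yu, g1, g2, and_false, true_or, if_true, if_false]; norm_num)
      have hn := nB
      simp only [g1, g2, if_true, if_false, Low_e] at h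
      have q1 : (809 : ℝ) / 1000 - 1 / 2 - 1 / 6 = 309 / 1000 - 1 / 6 := by norm_num
      have q2 : (809 : ℝ) / 1000 - 1 / 2 + 1 / 6 = 309 / 1000 + 1 / 6 := by norm_num
      have q3 : 1 - (809 : ℝ) / 1000 / 2 = 5955 / 10000 := by norm_num
      have q4 : 3 * ((809 : ℝ) / 1000) / 2 - 1 = 2135 / 10000 := by norm_num
      rw [q1, q2, q3, q4] at h
      simp only [lw, g1, g2, and_false, true_or, if_true, if_false]
      linarith
  · by_cases g2 : 3 ≤ |r2|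
    · have h := Low_bd r1 r2 h1 h2 ac bc ha hb hb0 hg (809 / 1000) (by norm_num) (by norm_num)
        (by simp only [yl, g1, g2, false_and, if_false]; norm_num)
        (by simp only [yu, g1, g2, false_and, or_true, if_true, if_false]; norm_num)
      have hn := nB
      simp only [g1, g2, if_true, if_false, Low_e] at h
      have q1 : (809 : ℝ) / 1000 - 1 / 2 - 1 / 6 = 309 / 1000 - 1 / 6 := by norm_num
      have q2 : (809 : ℝ) / 1000 - 1 / 2 + 1 / 6 = 309 / 1000 + 1 / 6 := by norm_num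
      have q3 : 1 - (809 : ℝ) / 1000 / 2 = 5955 / 10000 := by norm_num
      have q4 : 3 * ((809 : ℝ) / 1000) / 2 - 1 = 2135 / 10000 := by norm_num
      rw [q1, q2, q3, q4] at h
      simp only [lw, g1, g2, false_and, or_true, if_true, if_false]
      linarith
    · have h := Low_bd r1 r2 h1 h2 ac bc ha hb hb0 hg (825 / 1000) (by norm_num) (by norm_num)
        (by simp only [yl, g1, g2, and_self, if_false]; norm_num)
        (by simp only [yu, g1, g2, and_self, or_self, if_false]; norm_num)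
      have hn := nC
      simp only [g1, g2, if_false, Low_e] at h
      have q3 : 1 - (825 : ℝ) / 1000 / 2 = 5875 / 10000 := by norm_num
      have q4 : 3 * ((825 : ℝ) / 1000) / 2 - 1 = 2375 / 10000 := by norm_num
      rw [q3, q4] at h
      simp only [lw, g1, g2, and_self, or_self, if_false]
      linarith

end Pool.Agent.H63.GO
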