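import Pool.Agent.H63.GO.PDefs
import Pool.Agent.H63.VC3.Rel

/-! # Translation of the critical point of a block with |r| = 2 -/

namespace Pool.Agent.H63.GO

open Complex Filter Topology Pool.Agent.H63.VC Pool.Agent.H63.VC3

theorem Tra2_im (z : ℂ) (h0 : 0 < z.re) (h1 : z.re < 1) : |(hh z).im| < Real.pi / 2 := by
  have h := Clausen_sin_re z h0 h1
  unfold hh
  rw [Complex.log_im]
  exact Complex.abs_arg_lt_pi_div_two_iff.2 (Or.inl h)

theorem Tra2_zero (D : ℂ) (h : exp D = 1) (hi : |D.im| < 2 * Real.pi) : D = 0 := by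
  rw [Complex.exp_eq_one_iff] at h
  obtain ⟨n, hn⟩ := h
  have hp := Real.pi_pos
  have h2 : D.im = n * (2 * Real.pi) := by
    rw [hn]; simp
  have h3 : n = 0 := by
    rw [h2, abs_mul, abs_of_pos (by linarith : (0 : ℝ) < 2 * Real.pi)] at hi
    have h4 : |(n : ℝ)| < 1 := by
      by_contra h5
      push Not at h5
      nlinarith
    have h5 : |n| < 1 := by exact_mod_cast h4
    exact Int.abs_lt_one_iff.1 h5
  rw [hn, h3]
  simp

/-- The sine in terms of exponentials. -/
theorem Tra2_sin (s : ℤ) (hs : s = 1 ∨ s = -1) (z : ℂ) :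
    2 * sin (Real.pi * z) * (I * s) * exp (Real.pi * I * s * z) =
      exp (2 * Real.pi * I * s * z) - 1 := by
  have e1 : exp (2 * Real.pi * I * s * z) = exp (Real.pi * I * s * z) * exp (Real.pi * I * s * z) := by
    rw [← Complex.exp_add]; congr 1; ring
  have e2 : exp (-(Real.pi * z) * I) * exp (Real.pi * z * I) = 1 := by
    rw [← Complex.exp_add]; simp
  have hI := I_sq
  rw [e1, Complex.sin]
  rcases hs with rfl | rfl
  · have e3 : exp (Real.pi * I * (1 : ℤ) * z) = exp (Real.pi * z * I) := by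
      congr 1; push_cast; ring
    rw [e3]
    generalize exp (-(Real.pi * z) * I) = b at *
    generalize exp (Real.pi * z * I) = a at *
    push_cast
    linear_combination ((b - a) * a) * hI - e2
  · have e3 : exp (Real.pi * I * (-1 : ℤ) * z) = exp (-(Real.pi * z) * I) := by
      congr 1; push_cast; ring
    rw [e3]
    generalize exp (-(Real.pi * z) * I) = b at *
    generalize exp (Real.pi * z * I) = a at *
    push_cast
    linear_combination (-(b - a) * b) * hI - e2

theorem Tra2_two_cos (s : ℤ) (hs : s = 1 ∨ s = -1) (z : ℂ) :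
    2 * cos (2 * Real.pi * z) = exp (2 * Real.pi * I * s * z) + (exp (2 * Real.pi * I * s * z))⁻¹ := by
  rw [← Complex.exp_neg, Complex.cos]
  rcases hs with rfl | rfl
  · have e1 : exp (2 * Real.pi * z * I) = exp (2 * Real.pi * I * (1 : ℤ) * z) := by
      congr 1; push_cast; ring
    have e2 : exp (-(2 * Real.pi * z) * I) = exp (-(2 * Real.pi * I * (1 : ℤ) * z)) := by
      congr 1; push_cast; ring
    rw [e1, e2]; ring
  · have e1 : exp (2 * Real.pi * z * I) = exp (-(2 * Real.pi * I * (-1 : ℤ) * z)) := by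
      congr 1; push_cast; ring
    have e2 : exp (-(2 * Real.pi * z) * I) = exp (2 * Real.pi * I * (-1 : ℤ) * z) := by
      congr 1; push_cast; ring
    rw [e1, e2]; ring

/-- The relation from the equation for `v`. -/
theorem Tra2_rel (s : ℤ) (hs : s = 1 ∨ s = -1) (y v : ℂ)
    (h1 : 0 < (y - v).re) (h2 : (y - v).re < 1) (h3 : 0 < (y + v).re) (h4 : (y + v).re < 1)
    (_h5 : 24 / 100 ≤ y.re) (h6 : y.re < 1 / 2)
    (e : 2 * Real.pi * I * (2 * (2 * s : ℤ) * v + 1) + hh (y - v) - hh (y + v) = 0) :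
    (2 * cos (2 * Real.pi * v) + 1) * exp (2 * Real.pi * I * s * y) =
      (2 * cos (2 * Real.pi * v)) ^ 2 + 2 * cos (2 * Real.pi * v) - 1 := by
  have hp := Real.pi_pos
  -- `W ≠ 1`
  have hW1 : exp (2 * Real.pi * I * s * v) ≠ 1 := by
    intro h
    rw [Complex.exp_eq_one_iff] at h
    obtain ⟨n, hn⟩ := h
    have hpi : (2 * Real.pi * I : ℂ) ≠ 0 := by
      simp [Real.pi_ne_zero]
    have h7 : (s : ℂ) * v = n := by
      apply mul_left_cancel₀ hpi
      linear_combination hn
    have h8 : v = ((s * n : ℤ) : ℂ) := by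
      have : (s : ℂ) * s = 1 := by
        rcases hs with rfl | rfl <;> norm_num
      push_cast
      linear_combination (s : ℂ) * h7 - v * this
    have h9 : v.re = ((s * n : ℤ) : ℝ) := by
      rw [h8]; exact Complex.intCast_re _
    have h10 : s * n = 0 := by
      simp only [Complex.sub_re, Complex.add_re] at h1 h2 h3 h4
      rw [h9] at h1 h2 h3 h4
      have a1 : ((s * n : ℤ) : ℝ) < 1 := by linarith
      have a2 : (-1 : ℝ) < ((s * n : ℤ) : ℝ) := by linarith
      have a3 : s * n < 1 := by exact_mod_cast a1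
      have a4 : -1 < s * n := by exact_mod_cast a2
      omega
    rw [h10, Int.cast_zero] at h8
    rw [h8] at e
    simp only [mul_zero, zero_add, mul_one, sub_zero, add_zero] at e
    have : (2 * Real.pi * I : ℂ) = 0 := by linear_combination e
    exact hpi this
  have hE := Rel_E_aux (2 * s) y v h1 h2 h3 h4 e
  have hC := Tra2_two_cos s hs v
  set W := exp (2 * Real.pi * I * s * v) with hWdef
  set Z := exp (2 * Real.pi * I * s * y) with hZdef
  have hW0 : W ≠ 0 := Complex.exp_ne_zero _
  have hZ0 : Z ≠ 0 := Complex.exp_ne_zero _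
  have key : W ^ 4 * (Z - W) = Z * W - 1 := by
    rcases hs with rfl | rfl
    · have f1 : exp (2 * Real.pi * I * y) = Z := by
        rw [hZdef]; congr 1; push_cast; ring
      have f2 : exp (2 * Real.pi * I * v) = W := by
        rw [hWdef]; congr 1; push_cast; ring
      have f3 : exp (4 * Real.pi * I * ((2 * 1 : ℤ) : ℂ) * v) = W ^ 4 := by
        rw [hWdef, ← Complex.exp_nat_mul]; congr 1; push_cast; ring
      rw [f1, f2, f3] at hE
      exact hE
    · have f1 : exp (2 * Real.pi * I * y) = Z⁻¹ := by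
        rw [hZdef, ← Complex.exp_neg]; congr 1; push_cast; ring
      have f2 : exp (2 * Real.pi * I * v) = W⁻¹ := by
        rw [hWdef, ← Complex.exp_neg]; congr 1; push_cast; ring
      have f3 : exp (4 * Real.pi * I * ((2 * -1 : ℤ) : ℂ) * v) = W ^ 4 := by
        rw [hWdef, ← Complex.exp_nat_mul]; congr 1; push_cast; ring
      rw [f1, f2, f3] at hE
      field_simp at hE
      linear_combination -hE
  have k2 : (W - 1) * (W * (W ^ 2 + W + 1) * Z - (W ^ 4 + W ^ 3 + W ^ 2 + W + 1)) = 0 := by
    linear_combination key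
  have k3 : W * (W ^ 2 + W + 1) * Z - (W ^ 4 + W ^ 3 + W ^ 2 + W + 1) = 0 := by
    rcases mul_eq_zero.1 k2 with h | h
    · exact absurd (sub_eq_zero.1 h) hW1
    · exact h
  have k4 : W * (2 * cos (2 * Real.pi * v)) = W ^ 2 + 1 := by
    rw [hC]; field_simp
  generalize 2 * cos (2 * Real.pi * v) = C at *
  apply mul_left_cancel₀ (pow_ne_zero 2 hW0)
  linear_combination k3 + (W * Z - (W * C + W ^ 2 + 1) - W) * k4

/-- The two relations for a block with `|r| = 2`; `x = y + 1 / 2`, `l = zB r v`. -/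
theorem tra2g (r : ℤ) (hr : |r| = 2) (y v : ℂ)
    (h1 : 0 < (y - v).re) (h2 : (y - v).re < 1) (h3 : 0 < (y + v).re) (h4 : (y + v).re < 1)
    (h5 : 24 / 100 ≤ y.re) (h6 : y.re < 1 / 2)
    (hv : 0 < (4 * cos (Real.pi * v) ^ 2 - 1).re)
    (hl1 : 4 / 10 ≤ (zB r v).re) (hl2 : (zB r v).re ≤ 7 / 10)
    (e : 2 * Real.pi * I * (2 * r * v + 1) + hh (y - v) - hh (y + v) = 0) :
    hh (y + 1 / 2 - zB r v) - hh (zB r v) +
      Real.pi * I * r / 2 * (2 * zB r v + (y + 1 / 2) - 2) = 0 ∧
    hh (y + 1 / 2 - zB r v) - Real.pi * I * r / 2 * (y + 1 / 2 - 3 / 2 + zB r v) =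
      hh (y - v) + hh (y + v) := by
  have hp := Real.pi_pos
  obtain ⟨s, hs, rfl⟩ : ∃ s : ℤ, (s = 1 ∨ s = -1) ∧ r = 2 * s := by
    rcases (abs_eq (by norm_num : (0 : ℤ) ≤ 2)).1 hr with h | h
    · exact ⟨1, Or.inl rfl, h⟩
    · exact ⟨-1, Or.inr rfl, by omega⟩
  have hss : (s : ℂ) * s = 1 := by
    rcases hs with rfl | rfl <;> norm_num
  have hsr : |(s : ℝ)| = 1 := by
    rcases hs with rfl | rfl <;> norm_num
  have hrel := Tra2_rel s hs y v h1 h2 h3 h4 h5 h6 e
  have hpi : (2 * Real.pi * I : ℂ) ≠ 0 := by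
    simp [Real.pi_ne_zero]
  -- the number `1 + 2 cos 2 π v`
  have hK : (4 * cos (Real.pi * v) ^ 2 - 1 : ℂ) = 1 + 2 * cos (2 * Real.pi * v) := by
    rw [mul_assoc 2 (Real.pi : ℂ) v, Complex.cos_two_mul]; ring
  rw [hK] at hv
  have hK0 : (1 + 2 * cos (2 * Real.pi * v) : ℂ) ≠ 0 := by
    intro h
    rw [h] at hv
    simp at hv
  have hz : zB (2 * s) v = 1 / 2 + s * log (1 + 2 * cos (2 * Real.pi * v)) / (2 * Real.pi * I) := by
    unfold zB
    rw [if_neg (by rw [hr]; norm_num)]
    push_cast
    ring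
  have hL : exp (2 * Real.pi * I * s * zB (2 * s) v) = -(1 + 2 * cos (2 * Real.pi * v)) := by
    have : 2 * Real.pi * I * s * zB (2 * s) v =
        Real.pi * I * s + log (1 + 2 * cos (2 * Real.pi * v)) := by
      rw [hz]
      field_simp
      linear_combination (log (1 + 2 * cos (2 * Real.pi * v))) * hss
    rw [this, Complex.exp_add, Complex.exp_log hK0]
    have : exp (Real.pi * I * s) = -1 := by
      rcases hs with rfl | rfl
      · rw [Int.cast_one, mul_one, Complex.exp_pi_mul_I]
      · rw [Int.cast_neg, Int.cast_one, mul_neg, mul_one, Complex.exp_neg, Complex.exp_pi_mul_I]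
        norm_num
    rw [this]; ring
  have hX : exp (2 * Real.pi * I * s * (y + 1 / 2)) = -exp (2 * Real.pi * I * s * y) := by
    have : 2 * Real.pi * I * s * (y + 1 / 2) = 2 * Real.pi * I * s * y + Real.pi * I * s := by ring
    rw [this, Complex.exp_add]
    have : exp (Real.pi * I * s) = -1 := by
      rcases hs with rfl | rfl
      · rw [Int.cast_one, mul_one, Complex.exp_pi_mul_I]
      · rw [Int.cast_neg, Int.cast_one, mul_neg, mul_one, Complex.exp_neg, Complex.exp_pi_mul_I]
        norm_num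
    rw [this]; ring
  have hcy := Tra2_two_cos s hs y
  set l := zB (2 * s) v with hldef
  set x := y + 1 / 2 with hxdef
  have hx1 : x.re = y.re + 1 / 2 := by
    rw [hxdef, Complex.add_re]; norm_num
  have b1 : 0 < (x - l).re := by rw [Complex.sub_re, hx1]; linarith
  have b2 : (x - l).re < 1 := by rw [Complex.sub_re, hx1]; linarith
  have c1 : 0 < l.re := by linarith
  have c2 : l.re < 1 := by linarith
  -- the exponentials
  have s1 := Tra2_sin s hs (x - l)
  have s2 := Tra2_sin s hs l
  have p1 : exp (Real.pi * I * s * (x - l)) * exp (Real.pi * I * s * l) =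
      exp (Real.pi * I * s * x) := by
    rw [← Complex.exp_add]; congr 1; ring
  have p2 : exp (2 * Real.pi * I * s * (x - l)) * exp (2 * Real.pi * I * s * l) =
      exp (2 * Real.pi * I * s * x) := by
    rw [← Complex.exp_add]; congr 1; ring
  have p3 : exp (2 * Real.pi * I * s * l) = exp (Real.pi * I * s * l) ^ 2 := by
    rw [← Complex.exp_nat_mul]; congr 1; push_cast; ring
  have p4 : exp (2 * Real.pi * I * s * x) = exp (Real.pi * I * s * x) ^ 2 := by
    rw [← Complex.exp_nat_mul]; congr 1; push_cast; ring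
  have n1 : exp (Real.pi * I * s * l) ≠ 0 := Complex.exp_ne_zero _
  have n2 : exp (Real.pi * I * s * x) ≠ 0 := Complex.exp_ne_zero _
  have n3 : (I * s : ℂ) ≠ 0 := by
    intro h
    have : (I * s : ℂ) * (I * s) = -1 := by
      linear_combination (s * s : ℂ) * I_sq - hss
    rw [h] at this
    norm_num at this
  -- main relation `X L = L ^ 2 + L - 1`
  have hXL : exp (2 * Real.pi * I * s * x) * exp (2 * Real.pi * I * s * l) =
      exp (2 * Real.pi * I * s * l) ^ 2 + exp (2 * Real.pi * I * s * l) - 1 := by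
    rw [hX, hL]
    linear_combination hrel
  have hd1 : exp (-(Real.pi * I * s * (x - l))) ≠ 0 := Complex.exp_ne_zero _
  constructor
  · apply Tra2_zero
    · rw [Complex.exp_add, Complex.exp_sub, hh_exp _ b1 b2, hh_exp _ c1 c2]
      have q1 : exp (Real.pi * I * (2 * s : ℤ) / 2 * (2 * l + x - 2)) =
          exp (Real.pi * I * s * l) ^ 2 * exp (Real.pi * I * s * x) := by
        have : exp (-(2 * Real.pi * I * s)) = 1 := by
          rw [Complex.exp_eq_one_iff]
          exact ⟨-s, by push_cast; ring⟩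
        have h : Real.pi * I * (2 * s : ℤ) / 2 * (2 * l + x - 2) =
            (2 * (Real.pi * I * s * l) + Real.pi * I * s * x) + -(2 * Real.pi * I * s) := by
          push_cast; ring
        rw [h, Complex.exp_add, this, mul_one, Complex.exp_add]
        congr 1
        rw [← Complex.exp_nat_mul]; norm_num
      rw [q1]
      have hsin : (2 * sin (Real.pi * l) : ℂ) ≠ 0 :=
        Complex.slitPlane_ne_zero (Clausen_slit l c1 c2)
      rw [div_mul_eq_mul_div, div_eq_one_iff_eq hsin]
      apply mul_right_cancel₀ (mul_ne_zero n3 n1)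
      rw [p3] at p2 hXL s2
      rw [p4] at p2 hXL
      generalize exp (2 * Real.pi * I * s * (x - l)) = u2 at *
      generalize exp (Real.pi * I * s * (x - l)) = u1 at *
      generalize exp (Real.pi * I * s * l) = el at *
      generalize exp (Real.pi * I * s * x) = ex at *
      generalize 2 * sin (Real.pi * (x - l)) = S1 at *
      generalize 2 * sin (Real.pi * l) = S2 at *
      linear_combination (el ^ 4) * s1 - s2 + hXL + el ^ 2 * p2 - (S1 * (I * s) * el ^ 3) * p1
    · have i1 := abs_lt.1 (Tra2_im _ b1 b2)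
      have i2 := abs_lt.1 (Tra2_im _ c1 c2)
      have i3 : (Real.pi * I * (2 * s : ℤ) / 2 * (2 * l + x - 2)).im =
          s * (Real.pi * (2 * l.re + x.re - 2)) := by
        have : Real.pi * I * (2 * s : ℤ) / 2 * (2 * l + x - 2) =
            ((s * Real.pi : ℝ) : ℂ) * (I * (2 * l + x - 2)) := by
          push_cast; ring
        rw [this, Complex.im_ofReal_mul, Complex.I_mul_im]
        simp only [Complex.sub_re, Complex.add_re, Complex.mul_re, Complex.re_ofNat,
          Complex.im_ofNat, zero_mul, sub_zero]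
        ring
      rw [Complex.add_im, Complex.sub_im, i3]
      have i4 : |s * (Real.pi * (2 * l.re + x.re - 2))| ≤ Real.pi / 2 := by
        rw [abs_mul, hsr, one_mul, abs_mul, abs_of_pos hp]
        have : |2 * l.re + x.re - 2| ≤ 1 / 2 := by
          rw [abs_le]; constructor <;> linarith
        nlinarith
      have i5 := abs_le.1 i4
      rw [abs_lt]
      constructor <;> linarith [i1.1, i1.2, i2.1, i2.2, i5.1, i5.2]
  · rw [← sub_eq_zero]
    apply Tra2_zero
    · rw [Complex.exp_sub, Complex.exp_sub, Complex.exp_add, hh_exp _ b1 b2, hh_exp _ h1 h2,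
        hh_exp _ h3 h4, Rel_prod]
      have q1 : exp (Real.pi * I * (2 * s : ℤ) / 2 * (x - 3 / 2 + l)) =
          exp (Real.pi * I * s * x) * exp (Real.pi * I * s * l) * (I * s) := by
        have h : Real.pi * I * (2 * s : ℤ) / 2 * (x - 3 / 2 + l) =
            (Real.pi * I * s * x + Real.pi * I * s * l) + -(Real.pi * I * s + Real.pi * I * s / 2) := by
          push_cast; ring
        have h' : exp (-(Real.pi * I * s + Real.pi * I * s / 2)) = I * s := by
          rcases hs with rfl | rfl
          · have : -(Real.pi * I * (1 : ℤ) + Real.pi * I * (1 : ℤ) / 2) =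
                Real.pi / 2 * I - 2 * Real.pi * I := by push_cast; ring
            rw [this, Complex.exp_sub, Complex.exp_two_pi_mul_I, Complex.exp_pi_div_two_mul_I]
            push_cast; ring
          · have : -(Real.pi * I * (-1 : ℤ) + Real.pi * I * (-1 : ℤ) / 2) =
                Real.pi / 2 * I + Real.pi * I := by push_cast; ring
            rw [this, Complex.exp_add, Complex.exp_pi_mul_I, Complex.exp_pi_div_two_mul_I]
            push_cast; ring
        rw [h, Complex.exp_add, h', Complex.exp_add]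
      have g1 : (2 * (cos (2 * Real.pi * v) - cos (2 * Real.pi * y)) : ℂ) ≠ 0 := by
        rw [← Rel_prod]
        exact mul_ne_zero (Complex.slitPlane_ne_zero (Clausen_slit _ h1 h2))
          (Complex.slitPlane_ne_zero (Clausen_slit _ h3 h4))
      have g2 : exp (Real.pi * I * s * x) * exp (Real.pi * I * s * l) * (I * s) ≠ 0 :=
        mul_ne_zero (mul_ne_zero n2 n1) n3
      rw [q1, div_eq_one_iff_eq g1, div_eq_iff g2]
      have hcv : 2 * cos (2 * Real.pi * v) = -exp (2 * Real.pi * I * s * l) - 1 := by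
        rw [hL]; ring
      have hcy' : 2 * cos (2 * Real.pi * y) =
          -exp (2 * Real.pi * I * s * x) - (exp (2 * Real.pi * I * s * x))⁻¹ := by
        rw [hcy, hX, inv_neg]; ring
      have hR : 2 * (cos (2 * Real.pi * v) - cos (2 * Real.pi * y)) =
          -exp (2 * Real.pi * I * s * l) - 1 + exp (2 * Real.pi * I * s * x) +
            (exp (2 * Real.pi * I * s * x))⁻¹ := by
        linear_combination hcv - hcy'
      rw [hR]
      rw [p3] at p2 hXL ⊢
      rw [p4] at p2 hXL ⊢
      clear hR hcv hcy' g1 g2 q1 hL hX hcy p3 p4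
      have m1 : (exp (Real.pi * I * s * x) ^ 2)⁻¹ * exp (Real.pi * I * s * x) ^ 2 = 1 :=
        inv_mul_cancel₀ (pow_ne_zero 2 n2)
      apply mul_right_cancel₀ (mul_ne_zero n3 (mul_ne_zero n1 n2))
      have hI := I_sq
      generalize (exp (Real.pi * I * s * x) ^ 2)⁻¹ = iv at *
      generalize exp (2 * Real.pi * I * s * (x - l)) = u2 at *
      generalize exp (Real.pi * I * s * (x - l)) = u1 at *
      generalize exp (Real.pi * I * s * l) = el at *
      generalize exp (Real.pi * I * s * x) = ex at *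
      generalize 2 * sin (Real.pi * (x - l)) = S1 at *
      have hIs : (I * s) * (I * s) = (-1 : ℂ) := by
        linear_combination (s * s : ℂ) * hI - hss
      generalize (I * s : ℂ) = J at *
      linear_combination el ^ 2 * s1 + p2 - S1 * J * el * p1 -
        ((-el ^ 2 - 1 + ex ^ 2 + iv) * ex ^ 2 * el ^ 2) * hIs + el ^ 2 * m1 + ex ^ 2 * hXL
    · have i1 := abs_lt.1 (Tra2_im _ b1 b2)
      have i2 := abs_lt.1 (Tra2_im _ h1 h2)
      have i6 := abs_lt.1 (Tra2_im _ h3 h4)
      have i3 : (Real.pi * I * (2 * s : ℤ) / 2 * (x - 3 / 2 + l)).im =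
          s * (Real.pi * (x.re - 3 / 2 + l.re)) := by
        have : Real.pi * I * (2 * s : ℤ) / 2 * (x - 3 / 2 + l) =
            ((s * Real.pi : ℝ) : ℂ) * (I * (x - ((3 / 2 : ℝ) : ℂ) + l)) := by
          push_cast; ring
        rw [this, Complex.im_ofReal_mul, Complex.I_mul_im]
        simp only [Complex.sub_re, Complex.add_re, Complex.ofReal_re]
        ring
      rw [Complex.sub_im, Complex.sub_im, Complex.add_im, i3]
      have i4 : |s * (Real.pi * (x.re - 3 / 2 + l.re))| ≤ Real.pi / 2 := by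
        rw [abs_mul, hsr, one_mul, abs_mul, abs_of_pos hp]
        have : |x.re - 3 / 2 + l.re| ≤ 1 / 2 := by
          rw [abs_le]; constructor <;> linarith
        nlinarith
      have i5 := abs_le.1 i4
      rw [abs_lt]
      constructor <;> linarith [i1.1, i1.2, i2.1, i2.2, i5.1, i5.2, i6.1, i6.2]

/-- The two relations for a block with `|r| = 2`; `x = y + 1 / 2`, `l = zB r v`. -/
theorem tra2 (r : ℤ) (hr : |r| = 2) (y v : ℂ)
    (h1 : 0 < (y - v).re) (h2 : (y - v).re < 1) (h3 : 0 < (y + v).re) (h4 : (y + v).re < 1)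
    (h5 : 24 / 100 ≤ y.re) (h6 : y.re ≤ 34 / 100)
    (hv : 0 < (4 * cos (Real.pi * v) ^ 2 - 1).re)
    (hl1 : 4 / 10 ≤ (zB r v).re) (hl2 : (zB r v).re ≤ 7 / 10)
    (e : 2 * Real.pi * I * (2 * r * v + 1) + hh (y - v) - hh (y + v) = 0) :
    hh (y + 1 / 2 - zB r v) - hh (zB r v) +
      Real.pi * I * r / 2 * (2 * zB r v + (y + 1 / 2) - 2) = 0 ∧
    hh (y + 1 / 2 - zB r v) - Real.pi * I * r / 2 * (y + 1 / 2 - 3 / 2 + zB r v) =
      hh (y - v) + hh (y + v) :=
  tra2g r hr y v h1 h2 h3 h4 h5 (by linarith) hv hl1 hl2 e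

end Pool.Agent.H63.GO
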