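import Pool.Agent.H63.GO.BW2
import Pool.Agent.H63.GO.GRel
import Pool.Agent.H63.GO.PDer
import Pool.Agent.H63.GO.PFun
import Pool.Agent.H63.GO.Tra2

/-! # The critical point of the potential -/

namespace Pool.Agent.H63.GO

open Complex Filter Topology Pool.Agent.H63.VC Pool.Agent.H63.VC3

/-- The sum over the coordinates with main mode. -/
theorem TVal_sum (r1 r2 : ℤ) (f : Fin 3 → ℂ) :
    ∑ j ∈ Bs r1 r2, f j = (if 3 ≤ |r1| then f 1 else 0) + (if 3 ≤ |r2| then f 2 else 0) := by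
  rw [Bs, Finset.sum_filter, Fin.sum_univ_three]
  have e0 : ¬ (((0 : Fin 3) = 1 ∧ 3 ≤ |r1|) ∨ ((0 : Fin 3) = 2 ∧ 3 ≤ |r2|)) := by
    rintro (h | h)
    · exact absurd h.1 (by decide)
    · exact absurd h.1 (by decide)
  have e1 : (((1 : Fin 3) = 1 ∧ 3 ≤ |r1|) ∨ ((1 : Fin 3) = 2 ∧ 3 ≤ |r2|)) ↔ 3 ≤ |r1| := by
    constructor
    · rintro (h | h)
      · exact h.2
      · exact absurd h.1 (by decide)
    · intro h
      exact Or.inl ⟨rfl, h⟩
  have e2 : (((2 : Fin 3) = 1 ∧ 3 ≤ |r1|) ∨ ((2 : Fin 3) = 2 ∧ 3 ≤ |r2|)) ↔ 3 ≤ |r2| := by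
    constructor
    · rintro (h | h)
      · exact absurd h.1 (by decide)
      · exact h.2
    · intro h
      exact Or.inr ⟨rfl, h⟩
  rw [if_neg e0, zero_add, if_congr e1 rfl rfl, if_congr e2 rfl rfl]

/-- The derivative of the potential with the main modes. -/
theorem TVal_fd (r1 r2 : ℤ) (z : Fin 3 → ℂ) (hz : z ∈ UU r1 r2) (ξ : Fin 3 → ℂ) :
    fderiv ℂ (Vm (Bs r1 r2) (VV r1 r2)) z ξ =
      fderiv ℂ (VV r1 r2) z ξ + 2 * Real.pi * I * ∑ j ∈ Bs r1 r2, ξ j := by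
  have hV : HasFDerivAt (VV r1 r2) (fderiv ℂ (VV r1 r2) z) z :=
    (VV_an r1 r2 z hz).differentiableAt.hasFDerivAt
  have hL : HasFDerivAt (fun w : Fin 3 → ℂ => ∑ j ∈ Bs r1 r2, w j)
      (∑ j ∈ Bs r1 r2, (ContinuousLinearMap.proj j : (Fin 3 → ℂ) →L[ℂ] ℂ)) z := by
    apply HasFDerivAt.fun_sum
    intro j _
    exact (ContinuousLinearMap.proj j : (Fin 3 → ℂ) →L[ℂ] ℂ).hasFDerivAt
  have h := hV.add (hL.const_mul (2 * Real.pi * I))
  have e : Vm (Bs r1 r2) (VV r1 r2) = fun w : Fin 3 → ℂ =>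
      VV r1 r2 w + 2 * Real.pi * I * ∑ j ∈ Bs r1 r2, w j := rfl
  rw [e]
  have h' : HasFDerivAt (fun w : Fin 3 → ℂ =>
      VV r1 r2 w + 2 * Real.pi * I * ∑ j ∈ Bs r1 r2, w j)
      (fderiv ℂ (VV r1 r2) z + (2 * Real.pi * I : ℂ) •
        ∑ j ∈ Bs r1 r2, (ContinuousLinearMap.proj j : (Fin 3 → ℂ) →L[ℂ] ℂ)) z := h
  rw [h'.fderiv]
  simp

/-- The strip of a block. -/
theorem TVal_tra (r : ℤ) (h2 : 2 ≤ |r|) (y v : ℂ)
    (h1 : 0 < (y - v).re ∧ (y - v).re < 1) (h3 : 0 < (y + v).re ∧ (y + v).re < 1)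
    (h5 : 24 / 100 ≤ y.re) (h6 : y.re ≤ 34 / 100)
    (hv : 0 < (4 * cos (Real.pi * v) ^ 2 - 1).re)
    (hl : |r| = 2 → 55 / 100 ≤ (zB r v).re ∧ (zB r v).re ≤ 60 / 100)
    (e : 2 * Real.pi * I * (2 * r * v + 1) + hh (y - v) - hh (y + v) = 0) :
    Bz r (y + 1 / 2) (zB r v) + (if 3 ≤ |r| then 2 * Real.pi * I else 0) = 0 ∧
      Bx r (y + 1 / 2) (zB r v) = hh (y + 1 / 2) - (hh (y - v) + hh (y + v)) := by
  by_cases h : 3 ≤ |r|
  · have ez : zB r v = v := by rw [zB, if_pos h]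
    rw [ez, Bz, Bx, if_pos h, if_pos h, if_pos h]
    have e1 : y + 1 / 2 - 1 / 2 - v = y - v := by ring
    have e2 : y + 1 / 2 - 1 / 2 + v = y + v := by ring
    rw [e1, e2]
    constructor
    · linear_combination e
    · ring
  · have hr : |r| = 2 := by omega
    obtain ⟨l1, l2⟩ := hl hr
    obtain ⟨t1, t2⟩ := tra2 r hr y v h1.1 h1.2 h3.1 h3.2 h5 h6 hv (by linarith) (by linarith) e
    rw [Bz, Bx, if_neg h, if_neg h, if_neg h]
    constructor
    · linear_combination t1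
    · linear_combination (-1 : ℂ) * t2

theorem tgrad (r1 r2 : ℤ) (y v w : ℂ) (hc : CritG r1 r2 y v w) (hU : zC r1 r2 y v w ∈ UU r1 r2)
    (hl1 : |r1| = 2 → 55 / 100 ≤ (zB r1 v).re ∧ (zB r1 v).re ≤ 60 / 100)
    (hl2 : |r2| = 2 → 55 / 100 ≤ (zB r2 w).re ∧ (zB r2 w).re ≤ 60 / 100) :
    ∀ ξ : Fin 3 → ℝ, fderiv ℂ (Vm (Bs r1 r2) (VV r1 r2)) (zC r1 r2 y v w) (rc ξ) = 0 := by
  intro ξ
  obtain ⟨s0, s1, s2, s3, s4⟩ := gstrip r1 r2 y v w hc
  obtain ⟨a1, a2⟩ := TVal_tra r1 hc.h1 y v s1 s2 hc.y1 hc.y2 hc.v8 hl1 hc.ev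
  obtain ⟨b1, b2⟩ := TVal_tra r2 hc.h2 y w s3 s4 hc.y1 hc.y2 hc.w8 hl2 hc.ew
  rw [TVal_fd r1 r2 _ hU, VV_fderiv r1 r2 _ hU, TVal_sum]
  have z0 : zC r1 r2 y v w 0 = y + 1 / 2 := rfl
  have z1 : zC r1 r2 y v w 1 = zB r1 v := rfl
  have z2 : zC r1 r2 y v w 2 = zB r2 w := rfl
  rw [z0, z1, z2, a2, b2]
  have ey := hc.ey
  have c1 : (if 3 ≤ |r1| then rc ξ 1 else 0) = (if 3 ≤ |r1| then (1 : ℂ) else 0) * rc ξ 1 := by
    split_ifs <;> ring
  have c2 : (if 3 ≤ |r2| then rc ξ 2 else 0) = (if 3 ≤ |r2| then (1 : ℂ) else 0) * rc ξ 2 := by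
    split_ifs <;> ring
  have d1 : (if 3 ≤ |r1| then 2 * Real.pi * I else (0 : ℂ)) =
      (if 3 ≤ |r1| then (1 : ℂ) else 0) * (2 * Real.pi * I) := by
    split_ifs <;> ring
  have d2 : (if 3 ≤ |r2| then 2 * Real.pi * I else (0 : ℂ)) =
      (if 3 ≤ |r2| then (1 : ℂ) else 0) * (2 * Real.pi * I) := by
    split_ifs <;> ring
  rw [d1] at a1
  rw [d2] at b1
  rw [c1, c2]
  linear_combination rc ξ 0 * ey + rc ξ 1 * a1 + rc ξ 2 * b1

/-- The real part of a block. -/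
theorem TVal_blk (r : ℤ) (h2 : 2 ≤ |r|) (y v : ℂ)
    (h1 : 0 < (y - v).re ∧ (y - v).re < 1) (h3 : 0 < (y + v).re ∧ (y + v).re < 1)
    (h5 : 24 / 100 ≤ y.re) (h6 : y.re ≤ 34 / 100)
    (hv : 0 < (4 * cos (Real.pi * v) ^ 2 - 1).re)
    (hl : |r| = 2 → 55 / 100 ≤ (zB r v).re ∧ (zB r v).re ≤ 60 / 100)
    (e : 2 * Real.pi * I * (2 * r * v + 1) + hh (y - v) - hh (y + v) = 0)
    (hbw : |r| = 2 → blochWigner (exp (2 * Real.pi * I * zB r v)) +
        blochWigner (exp (2 * Real.pi * I * (y + 1 / 2 - zB r v))) =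
      blochWigner (exp (2 * Real.pi * I * (y - v))) +
        blochWigner (exp (2 * Real.pi * I * (y + v)))) :
    (BB r (y + 1 / 2) (zB r v) + 2 * Real.pi * I * (if 3 ≤ |r| then zB r v else 0)).re =
      (ff (y + 1 / 2)).re - (ff (y - v)).re - (ff (y + v)).re +
        (2 * Real.pi * I * (r * v ^ 2 + v)).re := by
  by_cases h : 3 ≤ |r|
  · have ez : zB r v = v := by rw [zB, if_pos h]
    rw [ez, BB, if_pos h, if_pos h]
    have e1 : y + 1 / 2 - 1 / 2 - v = y - v := by ring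
    have e2 : y + 1 / 2 - 1 / 2 + v = y + v := by ring
    rw [e1, e2, ← Complex.sub_re, ← Complex.sub_re, ← Complex.add_re]
    congr 1
    ring
  · have hr : |r| = 2 := by omega
    obtain ⟨l1, l2⟩ := hl hr
    obtain ⟨t1, t2⟩ := tra2 r hr y v h1.1 h1.2 h3.1 h3.2 h5 h6 hv (by linarith) (by linarith) e
    have hbw := hbw hr
    rw [BB, if_neg h, if_neg h]
    generalize zB r v = l at *
    have x1 : (y + 1 / 2).re = y.re + 1 / 2 := by
      rw [Complex.add_re]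
      norm_num
    have x2 : (y + 1 / 2).im = y.im := by
      rw [Complex.add_im]
      norm_num
    have p1 : 0 < (y + 1 / 2 - l).re := by
      rw [Complex.sub_re, x1]
      linarith
    have p2 : (y + 1 / 2 - l).re < 1 := by
      rw [Complex.sub_re, x1]
      linarith
    have f1 := ff_re_bw l (by linarith) (by linarith)
    have f2 := ff_re_bw (y + 1 / 2 - l) p1 p2
    have f3 := ff_re_bw (y - v) h1.1 h1.2
    have f4 := ff_re_bw (y + v) h3.1 h3.2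
    have t1' := congrArg Complex.im t1
    have t2' := congrArg Complex.im t2
    have e' := congrArg Complex.im e
    have g1 : (2 * Real.pi * I * (2 * r * v + 1) : ℂ).im = 2 * Real.pi * (2 * r * v.re + 1) := by
      simp [Complex.mul_im, Complex.mul_re]
    have g3 : (2 * Real.pi * I * (r * v ^ 2 + v) : ℂ).re =
        -(2 * Real.pi * (2 * r * v.re * v.im + v.im)) := by
      simp only [pow_two, Complex.mul_re, Complex.mul_im, Complex.add_re, Complex.add_im,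
        Complex.I_re, Complex.I_im, Complex.ofReal_re, Complex.ofReal_im, Complex.re_ofNat,
        Complex.im_ofNat, Complex.intCast_re, Complex.intCast_im]
      ring
    have hw : (Real.pi * I * r / 2 : ℂ) = ((Real.pi * r / 2 : ℝ) : ℂ) * I := by
      push_cast
      ring
    have i1 : ∀ q : ℂ, (Real.pi * I * r / 2 * q : ℂ).im = Real.pi * r / 2 * q.re := by
      intro q
      rw [hw]
      simp [Complex.mul_im, Complex.mul_re]
    have i2 : ∀ q : ℂ, (Real.pi * I * r / 2 * q : ℂ).re = -(Real.pi * r / 2 * q.im) := by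
      intro q
      rw [hw]
      simp [Complex.mul_im, Complex.mul_re]
    have q1 : (((y + 1 / 2) ^ 2 - 3 * (y + 1 / 2)) / 2 + l ^ 2 + l * (y + 1 / 2) - 2 * l : ℂ).im =
        y.im * ((y.re + 1 / 2) - 3 / 2 + l.re) + l.im * (2 * l.re + (y.re + 1 / 2) - 2) := by
      have hq : (((y + 1 / 2) ^ 2 - 3 * (y + 1 / 2)) / 2 + l ^ 2 + l * (y + 1 / 2) - 2 * l : ℂ) =
          ((1 / 2 : ℝ) : ℂ) * ((y + 1 / 2) * (y + 1 / 2)) - ((3 / 2 : ℝ) : ℂ) * (y + 1 / 2) + l * l +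
            l * (y + 1 / 2) - 2 * l := by
        push_cast
        ring
      rw [hq]
      simp only [Complex.sub_im, Complex.add_im, Complex.mul_im, Complex.mul_re, x1, x2,
        Complex.ofReal_re, Complex.ofReal_im, Complex.re_ofNat, Complex.im_ofNat]
      ring
    rw [Complex.add_im, Complex.sub_im, i1, Complex.zero_im] at t1'
    rw [Complex.sub_im, i1, Complex.add_im] at t2'
    rw [Complex.sub_im, Complex.add_im, g1, Complex.zero_im] at e'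
    have r1' : (2 * l + (y + 1 / 2) - 2 : ℂ).re = 2 * l.re + (y.re + 1 / 2) - 2 := by
      simp only [Complex.sub_re, Complex.add_re, Complex.mul_re, Complex.re_ofNat,
        Complex.im_ofNat]
      rw [← Complex.add_re, x1]
      ring
    have r2' : (y + 1 / 2 - 3 / 2 + l : ℂ).re = (y.re + 1 / 2) - 3 / 2 + l.re := by
      rw [Complex.add_re, Complex.sub_re, x1]
      norm_num
    rw [r1'] at t1'
    rw [r2'] at t2'
    rw [g3]
    simp only [mul_zero, add_zero]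
    rw [Complex.add_re, Complex.sub_re, Complex.sub_re, i2, q1]
    have pi0 : (2 * Real.pi) ≠ 0 := by positivity
    apply mul_left_cancel₀ pi0
    simp only [Complex.sub_im, Complex.add_im] at f2 f3 f4
    have x3 : (1 / 2 : ℂ).im = 0 := by norm_num
    rw [x3] at f2
    linear_combination f3 + f4 - f1 - f2 + hbw + 2 * Real.pi * v.im * e' -
      2 * Real.pi * l.im * t1' + 2 * Real.pi * y.im * t2'

theorem tval (r1 r2 : ℤ) (y v w : ℂ) (hc : CritG r1 r2 y v w) (hU : zC r1 r2 y v w ∈ UU r1 r2)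
    (hl1 : |r1| = 2 → 55 / 100 ≤ (zB r1 v).re ∧ (zB r1 v).re ≤ 60 / 100)
    (hl2 : |r2| = 2 → 55 / 100 ≤ (zB r2 w).re ∧ (zB r2 w).re ≤ 60 / 100) :
    (Vm (Bs r1 r2) (VV r1 r2) (zC r1 r2 y v w)).re = (Vf r1 r2 y v w).re := by
  obtain ⟨s0, s1, s2, s3, s4⟩ := gstrip r1 r2 y v w hc
  obtain ⟨n1, n2, n3, n4, n5⟩ := gne r1 r2 y v w hc
  have hcc := grel_c r1 r2 y v w hc
  obtain ⟨E1, E2⟩ := grel_E r1 r2 y v w hc
  have hb1 := TVal_blk r1 hc.h1 y v s1 s2 hc.y1 hc.y2 hc.v8 hl1 hc.ev (fun hr =>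
    bw2 r1 hr y v (cos (2 * Real.pi * w)) n1 n2 n3 hcc E1
      (fun k k1 k2 => n4 k k1 (by rw [hr]; exact_mod_cast k2)) hc.v8)
  have hb2 := TVal_blk r2 hc.h2 y w s3 s4 hc.y1 hc.y2 hc.w8 hl2 hc.ew (fun hr =>
    bw2 r2 hr y w (cos (2 * Real.pi * v)) n2 n1
      (by
        intro h0
        apply n3
        linear_combination h0)
      (by linear_combination hcc) E2
      (fun k k1 k2 => n5 k k1 (by rw [hr]; exact_mod_cast k2)) hc.w8)
  have z0 : zC r1 r2 y v w 0 = y + 1 / 2 := rfl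
  have z1 : zC r1 r2 y v w 1 = zB r1 v := rfl
  have z2 : zC r1 r2 y v w 2 = zB r2 w := rfl
  have eV : Vm (Bs r1 r2) (VV r1 r2) (zC r1 r2 y v w) = 2 * ff (y + 1 / 2) +
      (BB r1 (y + 1 / 2) (zB r1 v) + 2 * Real.pi * I * (if 3 ≤ |r1| then zB r1 v else 0)) +
      (BB r2 (y + 1 / 2) (zB r2 w) + 2 * Real.pi * I * (if 3 ≤ |r2| then zB r2 w else 0)) := by
    rw [Vm, TVal_sum, VV, z0, z1, z2]
    ring
  have e2 : (2 * ff (y + 1 / 2)).re = 2 * (ff (y + 1 / 2)).re := by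
    simp [Complex.mul_re]
  have e4 : (4 * ff (y + 1 / 2)).re = 4 * (ff (y + 1 / 2)).re := by
    simp [Complex.mul_re]
  rw [eV, Complex.add_re, Complex.add_re, hb1, hb2, e2, Vf, Complex.add_re, Complex.add_re,
    Complex.sub_re, Complex.sub_re, Complex.sub_re, Complex.sub_re, e4]
  ring

end Pool.Agent.H63.GO
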