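import Pool.Agent.H63.GO.Far
import Pool.Agent.H63.GO.FlipA
import Pool.Agent.H63.GO.FlipBl
import Pool.Agent.H63.GO.FlipBx
import Pool.Agent.H63.GO.FlipCl
import Pool.Agent.H63.GO.FlipCx
import Pool.Agent.H63.GO.KCrit
import Pool.Agent.H63.GO.Low
import Pool.Agent.H63.GO.TVal

/-! # The structure of the potential -/

namespace Pool.Agent.H63.GO

open Complex Filter Topology Pool.Agent.H63.VC Pool.Agent.H63.VC3

/-- Exchange of the two blocks. -/
private def SDat_sw {α : Type} (a : Fin 3 → α) : Fin 3 → α := ![a 0, a 2, a 1]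

private theorem SDat_yl (r1 r2 : ℤ) : yl r2 r1 = yl r1 r2 := by
  unfold yl; simp only [and_comm]

private theorem SDat_yu (r1 r2 : ℤ) : yu r2 r1 = yu r1 r2 := by
  unfold yu; simp only [and_comm, or_comm]

private theorem SDat_KS (r1 r2 : ℤ) (a : Fin 3 → ℝ) (ha : a ∈ KS r1 r2) :
    SDat_sw a ∈ KS r2 r1 := by
  obtain ⟨h1, h2, h3, h4⟩ := ha
  refine ⟨?_, ?_, ?_, ?_⟩
  · rw [SDat_yl]; exact h1
  · rw [SDat_yu]; exact h2
  · exact h4
  · exact h3

private theorem SDat_VV (r1 r2 : ℤ) (z : Fin 3 → ℂ) : VV r2 r1 (SDat_sw z) = VV r1 r2 z := by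
  unfold VV SDat_sw
  simp only [Matrix.cons_val_zero, Matrix.cons_val_one, Matrix.cons_val]
  ring

private theorem SDat_cp0 (a : Fin 3 → ℝ) (η : ℝ) :
    SDat_sw (cp a (Pi.single 0 η)) = cp (SDat_sw a) (Pi.single 0 η) := by
  funext j
  fin_cases j <;> simp [SDat_sw, cp]

private theorem SDat_cp2 (a : Fin 3 → ℝ) (η : ℝ) :
    SDat_sw (cp a (Pi.single 2 η)) = cp (SDat_sw a) (Pi.single 1 η) := by
  funext j
  fin_cases j <;> simp [SDat_sw, cp]

private theorem SDat_cc (r1 r2 : ℤ) : cc2 r1 r2 < lw r1 r2 := by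
  unfold cc2 lw
  split_ifs <;> norm_num

private theorem SDat_two (r : ℤ) (h : 2 ≤ |r|) (h3 : ¬ 3 ≤ |r|) : |r| = 2 := by omega

private theorem SDat_BS0 (r1 r2 : ℤ) (η : ℝ) (hη : |η| ≤ 5 / 100) :
    (Pi.single 0 η : Fin 3 → ℝ) ∈ BS r1 r2 := by
  have key : ∀ r : ℤ, SB r η 0 := by
    intro r
    unfold SB
    split_ifs
    · rw [abs_zero]; linarith
    · rw [abs_zero, sub_zero]; exact ⟨by norm_num, by linarith⟩
  refine ⟨?_, ?_, ?_⟩
  · simpa using hη
  · simpa using key r1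
  · simpa using key r2

private theorem SDat_SBz (r : ℤ) : SB r 0 0 := by
  unfold SB
  split_ifs <;> norm_num

private theorem SDat_SB2 (r : ℤ) (h : |r| = 2) (η : ℝ) (hη : |η| ≤ 7 / 100) : SB r 0 η := by
  unfold SB
  rw [if_neg (by omega)]
  refine ⟨hη, ?_⟩
  rw [zero_sub, abs_neg]; exact hη

private theorem SDat_BS1 (r1 r2 : ℤ) (h : |r1| = 2) (η : ℝ) (hη : |η| ≤ 7 / 100) :
    (Pi.single 1 η : Fin 3 → ℝ) ∈ BS r1 r2 := by
  refine ⟨?_, ?_, ?_⟩
  · simp; norm_num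
  · simpa using SDat_SB2 r1 h η hη
  · simpa using SDat_SBz r2

private theorem SDat_BS2 (r1 r2 : ℤ) (h : |r2| = 2) (η : ℝ) (hη : |η| ≤ 7 / 100) :
    (Pi.single 2 η : Fin 3 → ℝ) ∈ BS r1 r2 := by
  refine ⟨?_, ?_, ?_⟩
  · simp; norm_num
  · simpa using SDat_SBz r1
  · simpa using SDat_SB2 r2 h η hη

/-- The flips in `x`. -/
private theorem SDat_x (r1 r2 : ℤ) (h1 : 2 ≤ |r1|) (h2 : 2 ≤ |r2|) (η : ℝ)
    (hη : η = 1 / 20 ∨ η = -(1 / 20)) (a : Fin 3 → ℝ) (ha : a ∈ KS r1 r2) :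
    (VV r1 r2 (cp a (Pi.single 0 η))).re - 2 * Real.pi / 20 < lw r1 r2 := by
  unfold lw
  by_cases h31 : 3 ≤ |r1| <;> by_cases h32 : 3 ≤ |r2|
  · rw [if_pos ⟨h31, h32⟩]
    have := flipA r1 r2 h31 h32 η hη a ha
    linarith
  · rw [if_neg (fun h => h32 h.2), if_pos (Or.inl h31)]
    have := flipBx r2 r1 (SDat_two r2 h2 h32) h31 η hη (SDat_sw a) (SDat_KS r1 r2 a ha)
    rw [← SDat_cp0, SDat_VV] at this
    linarith
  · rw [if_neg (fun h => h31 h.1), if_pos (Or.inr h32)]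
    have := flipBx r1 r2 (SDat_two r1 h1 h31) h32 η hη a ha
    linarith
  · rw [if_neg (fun h => h31 h.1), if_neg (fun h => h.elim h31 h32)]
    have := flipCx r1 r2 (SDat_two r1 h1 h31) (SDat_two r2 h2 h32) η hη a ha
    linarith

/-- The flips in the first block. -/
private theorem SDat_l (r1 r2 : ℤ) (h1 : |r1| = 2) (h2 : 2 ≤ |r2|) (η : ℝ)
    (hη : η = 7 / 100 ∨ η = -(7 / 100)) (a : Fin 3 → ℝ) (ha : a ∈ KS r1 r2) :
    (VV r1 r2 (cp a (Pi.single 1 η))).re - 2 * Real.pi * (7 / 100) < lw r1 r2 := by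
  unfold lw
  have h31 : ¬ 3 ≤ |r1| := by omega
  by_cases h32 : 3 ≤ |r2|
  · rw [if_neg (fun h => h31 h.1), if_pos (Or.inr h32)]
    have := flipBl r1 r2 h1 h32 η hη a ha
    linarith
  · rw [if_neg (fun h => h31 h.1), if_neg (fun h => h.elim h31 h32)]
    have := flipCl r1 r2 h1 (SDat_two r2 h2 h32) η hη a ha
    linarith

private theorem SDat_lw (r1 r2 : ℤ) : lw r2 r1 = lw r1 r2 := by
  unfold lw; simp only [and_comm, or_comm]

/-- The flips in the second block. -/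
private theorem SDat_l2 (r1 r2 : ℤ) (h1 : 2 ≤ |r1|) (h2 : |r2| = 2) (η : ℝ)
    (hη : η = 7 / 100 ∨ η = -(7 / 100)) (a : Fin 3 → ℝ) (ha : a ∈ KS r1 r2) :
    (VV r1 r2 (cp a (Pi.single 2 η))).re - 2 * Real.pi * (7 / 100) < lw r1 r2 := by
  have := SDat_l r2 r1 h2 h1 η hη (SDat_sw a) (SDat_KS r1 r2 a ha)
  rw [← SDat_cp2, SDat_VV, SDat_lw] at this
  exact this

private theorem SDat_sgn (τ : SignType) (hτ : τ ≠ 0) (c : ℝ) :
    sgn τ * c = c ∨ sgn τ * c = -c := by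
  unfold sgn
  rcases τ with _ | _ | _
  · exact absurd rfl hτ
  · right; simp
  · left; simp

theorem sdatB (r1 r2 : ℤ) (h1 : 2 ≤ |r1|) (h2 : 2 ≤ |r2|) : ∃ y v w : ℂ,
    Blk r1 v (cos (Real.pi * w)) ∧ Blk r2 w (cos (Real.pi * v)) ∧
    (|r1| = 2 → 55 / 100 ≤ (zB r1 v).re ∧ (zB r1 v).re ≤ 60 / 100) ∧
    (|r2| = 2 → 55 / 100 ≤ (zB r2 w).re ∧ (zB r2 w).re ≤ 60 / 100) ∧
    CritG r1 r2 y v w ∧
    SData (Bs r1 r2) (UU r1 r2) (VV r1 r2) (KS r1 r2) (BS r1 r2) (EE r1 r2)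
      (fun j => (zC r1 r2 y v w j).re) (fun j => (zC r1 r2 y v w j).im)
      (Vf r1 r2 y v w).re (cc2 r1 r2) := by
  obtain ⟨y, v, w, hbv, hbw, hc, ha, hb, hl1, hl2⟩ := crit_exB r1 r2 h1 h2
  refine ⟨y, v, w, hbv, hbw, hl1, hl2, hc, ?_⟩
  have hcp : cp (fun j => (zC r1 r2 y v w j).re) (fun j => (zC r1 r2 y v w j).im) =
      zC r1 r2 y v w := by
    funext j
    exact re_add_im _
  have ha' := interior_subset ha
  have hU : zC r1 r2 y v w ∈ UU r1 r2 := by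
    rw [← hcp]; exact KB_sub r1 r2 _ ha' _ hb
  have hg := tgrad r1 r2 y v w hc hU hl1 hl2
  have hv := tval r1 r2 y v w hc hU hl1 hl2
  have hlw : lw r1 r2 ≤ (Vf r1 r2 y v w).re := by
    rw [← hv]
    have := low r1 r2 h1 h2 (fun j => (zC r1 r2 y v w j).re) (fun j => (zC r1 r2 y v w j).im)
      ha' hb (by
        have : (zC r1 r2 y v w 0).im = y.im := by simp [zC]
        simp only [this]
        exact hc.yi) (by rw [hcp]; exact hg)
    rwa [hcp] at this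
  exact
    { U_open := UU_open r1 r2
      V_an := VV_an r1 r2
      K_cpt := KS_cpt r1 r2
      K_cvx := KS_cvx r1 r2
      B_cpt := BS_cpt r1 r2
      B_cvx := BS_cvx r1 r2
      B_zero := BS_zero r1 r2
      sub := KB_sub r1 r2
      K_even := KS_even r1 r2
      B_even := BS_even r1 r2
      V_even := VV_even r1 r2
      E_cont := EE_cont r1 r2
      E_eq := EE_eq r1 r2
      E_even := EE_even r1 r2
      E_bdy := far_bdy r1 r2 h1 h2
      neg := neg r1 r2 h1 h2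
      ac_mem := ha
      bc_mem := hb
      bc_pos := by
        intro j hj
        rcases (Finset.mem_filter.mp hj).2 with ⟨rfl, h3⟩ | ⟨rfl, h3⟩
        · have : zC r1 r2 y v w 1 = v := by simp [zC, zB, h3]
          simp only [this]; exact hc.v4
        · have : zC r1 r2 y v w 2 = w := by simp [zC, zB, h3]
          simp only [this]; exact hc.w4
      gradz := by rw [hcp]; exact hg
      crit := by rw [hcp]; exact hv
      c2_lt := lt_of_lt_of_le (SDat_cc r1 r2) hlw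
      single := by
        intro j hj τ hτ
        have hj' : ¬ ((j = 1 ∧ 3 ≤ |r1|) ∨ (j = 2 ∧ 3 ≤ |r2|)) := fun h =>
          hj (Finset.mem_filter.mpr ⟨Finset.mem_univ _, h⟩)
        fin_cases j
        · refine ⟨1 / 20, by norm_num, ?_, ?_⟩
          · refine SDat_BS0 r1 r2 _ ?_
            rcases SDat_sgn τ hτ (1 / 20) with h | h <;> rw [h] <;> norm_num
          · intro a ha
            have := SDat_x r1 r2 h1 h2 _ (SDat_sgn τ hτ (1 / 20)) a ha
            have h5 : 2 * Real.pi * (1 / 20) = 2 * Real.pi / 20 := by ring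
            rw [h5]
            exact lt_of_lt_of_le this hlw
        · have h31 : ¬ 3 ≤ |r1| := fun h => hj' (Or.inl ⟨rfl, h⟩)
          have h12 := SDat_two r1 h1 h31
          refine ⟨7 / 100, by norm_num, ?_, ?_⟩
          · refine SDat_BS1 r1 r2 h12 _ ?_
            rcases SDat_sgn τ hτ (7 / 100) with h | h <;> rw [h] <;> norm_num
          · intro a ha
            exact lt_of_lt_of_le (SDat_l r1 r2 h12 h2 _ (SDat_sgn τ hτ (7 / 100)) a ha) hlw
        · have h32 : ¬ 3 ≤ |r2| := fun h => hj' (Or.inr ⟨rfl, h⟩)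
          have h22 := SDat_two r2 h2 h32
          refine ⟨7 / 100, by norm_num, ?_, ?_⟩
          · refine SDat_BS2 r1 r2 h22 _ ?_
            rcases SDat_sgn τ hτ (7 / 100) with h | h <;> rw [h] <;> norm_num
          · intro a ha
            exact lt_of_lt_of_le (SDat_l2 r1 r2 h1 h22 _ (SDat_sgn τ hτ (7 / 100)) a ha) hlw }

theorem sdat (r1 r2 : ℤ) (h1 : 2 ≤ |r1|) (h2 : 2 ≤ |r2|) : ∃ y v w : ℂ,
    CritG r1 r2 y v w ∧
    SData (Bs r1 r2) (UU r1 r2) (VV r1 r2) (KS r1 r2) (BS r1 r2) (EE r1 r2)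
      (fun j => (zC r1 r2 y v w j).re) (fun j => (zC r1 r2 y v w j).im)
      (Vf r1 r2 y v w).re (cc2 r1 r2) := by
  obtain ⟨y, v, w, -, -, -, -, h⟩ := sdatB r1 r2 h1 h2
  exact ⟨y, v, w, h⟩

end Pool.Agent.H63.GO
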