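import Pool.Agent.H63.GO.SCalc

/-! # The main groups -/

namespace Pool.Agent.H63.GO

open Complex Filter Topology
open scoped BigOperators

/-- The linear part of `Vm`. -/
private noncomputable def SMain_L {ι : Type} [Fintype ι] (Bv : Finset ι) : (ι → ℂ) →L[ℂ] ℂ :=
  (2 * Real.pi * I : ℂ) • ∑ j ∈ Bv, ContinuousLinearMap.proj (R := ℂ) (φ := fun _ : ι => ℂ) j

private theorem SMain_L_apply {ι : Type} [Fintype ι] (Bv : Finset ι) (z : ι → ℂ) :
    SMain_L Bv z = 2 * Real.pi * I * ∑ j ∈ Bv, z j := by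
  simp [SMain_L]

private theorem SMain_Vm {ι : Type} [Fintype ι] (Bv : Finset ι) (V0 : (ι → ℂ) → ℂ) :
    Vm Bv V0 = fun z => V0 z + SMain_L Bv z := by
  funext z
  rw [SMain_L_apply]
  rfl

private theorem SMain_an {ι : Type} [Fintype ι] {Bv : Finset ι} {V0 : (ι → ℂ) → ℂ}
    {U : Set (ι → ℂ)} (h : AnalyticOnNhd ℂ V0 U) : AnalyticOnNhd ℂ (Vm Bv V0) U := by
  rw [SMain_Vm]
  exact h.add ((SMain_L Bv).analyticOnNhd U)

private theorem SMain_fderiv {ι : Type} [Fintype ι] {Bv : Finset ι} {V0 : (ι → ℂ) → ℂ}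
    {U : Set (ι → ℂ)} (h : AnalyticOnNhd ℂ V0 U) {z : ι → ℂ} (hz : z ∈ U) :
    fderiv ℂ (Vm Bv V0) z = fderiv ℂ V0 z + SMain_L Bv := by
  rw [SMain_Vm]
  exact ((h z hz).differentiableAt.hasFDerivAt.add (SMain_L Bv).hasFDerivAt).fderiv

private theorem SMain_D2 {ι : Type} [Fintype ι] {Bv : Finset ι} {V0 : (ι → ℂ) → ℂ}
    {U : Set (ι → ℂ)} (hU : IsOpen U) (h : AnalyticOnNhd ℂ V0 U) {z : ι → ℂ} (hz : z ∈ U)
    (ξ : ι → ℂ) : D2 (Vm Bv V0) z ξ = D2 V0 z ξ := by
  unfold D2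
  have h1 : (fun w => fderiv ℂ (Vm Bv V0) w ξ) =ᶠ[𝓝 z]
      fun w => fderiv ℂ V0 w ξ + SMain_L Bv ξ := by
    filter_upwards [hU.mem_nhds hz] with w hw
    rw [SMain_fderiv h hw]
    rfl
  rw [h1.fderiv_eq, fderiv_add_const]

private theorem SMain_re {ι : Type} [Fintype ι] (Bv : Finset ι) (V0 : (ι → ℂ) → ℂ)
    (a b : ι → ℝ) :
    (Vm Bv V0 (cp a b)).re = (V0 (cp a b)).re - 2 * Real.pi * ∑ j ∈ Bv, b j := by
  have h1 : (∑ j ∈ Bv, cp a b j).im = ∑ j ∈ Bv, b j := by
    rw [Complex.im_sum]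
    apply Finset.sum_congr rfl
    intro j _
    simp [cp]
  have h2 : ((2 * Real.pi * I : ℂ) * ∑ j ∈ Bv, cp a b j).re =
      -(2 * Real.pi * (∑ j ∈ Bv, cp a b j).im) := by
    simp [Complex.mul_re, Complex.mul_im]
  unfold Vm
  rw [Complex.add_re, h2, h1]
  ring

private theorem SMain_zero_mem {ι : Type} [Fintype ι] [DecidableEq ι] {Bv : Finset ι}
    {U : Set (ι → ℂ)} {V0 : (ι → ℂ) → ℂ} {K B : Set (ι → ℝ)} {E : (ι → ℝ) → ℝ}
    {ac bc : ι → ℝ} {m c2 : ℝ} (h : SData Bv U V0 K B E ac bc m c2) : (0 : ι → ℝ) ∈ B :=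
  mem_of_mem_nhds h.B_zero

/-- The decay of the real part away from the critical point. -/
theorem main_dec {ι : Type} [Fintype ι] [DecidableEq ι] {Bv : Finset ι} {U : Set (ι → ℂ)}
    {V0 : (ι → ℂ) → ℂ} {K B : Set (ι → ℝ)} {E : (ι → ℝ) → ℝ} {ac bc : ι → ℝ} {m c2 : ℝ}
    (h : SData Bv U V0 K B E ac bc m c2) : ∃ c : ℝ, 0 < c ∧
      (∀ a ∈ K, (Vm Bv V0 (cp a bc)).re ≤ m - c * ∑ j, (a j - ac j) ^ 2) ∧ m ≤ E ac := by
  obtain ⟨c, hc, hneg⟩ := neg_unif V0 U h.U_open h.V_an K B h.K_cpt h.B_cpt h.sub h.neg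
  have hacK : ac ∈ K := interior_subset h.ac_mem
  have h0B : (0 : ι → ℝ) ∈ B := SMain_zero_mem h
  refine ⟨c / 2, by positivity, ?_, ?_⟩
  · intro a ha
    have h1 := real_concave (Vm Bv V0) U h.U_open (SMain_an h.V_an) K h.K_cvx bc
      (fun a ha => h.sub a ha bc h.bc_mem) c hc.le
      (fun a ha ξ => by
        rw [SMain_D2 h.U_open h.V_an (h.sub a ha bc h.bc_mem)]
        exact hneg a ha bc h.bc_mem ξ) ac hacK a ha
    rw [h.gradz (a - ac), h.crit] at h1
    simpa using h1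
  · have hseg : ∀ t ∈ Set.Icc (0 : ℝ) 1, bc + t • ((0 : ι → ℝ) - bc) ∈ B := by
      intro t ht
      have h2 := h.B_cvx h.bc_mem h0B (by linarith [ht.2] : (0 : ℝ) ≤ 1 - t) ht.1 (by ring)
      have h3 : bc + t • ((0 : ι → ℝ) - bc) = (1 - t) • bc + t • (0 : ι → ℝ) := by
        funext j
        simp only [Pi.add_apply, Pi.smul_apply, Pi.sub_apply, Pi.zero_apply, smul_eq_mul]
        ring
      rw [h3]
      exact h2
    have h1 := (imag_convex (Vm Bv V0) U h.U_open (SMain_an h.V_an) ac bc 0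
      (fun t ht => h.sub ac hacK _ (hseg t ht))
      (fun t ht => by
        rw [SMain_D2 h.U_open h.V_an (h.sub ac hacK _ (hseg t ht))]
        refine (hneg ac hacK _ (hseg t ht) (0 - bc)).trans ?_
        have : 0 ≤ ∑ j, (0 - bc : ι → ℝ) j ^ 2 := Finset.sum_nonneg fun _ _ => sq_nonneg _
        nlinarith)).2
    rw [h.gradz (0 - bc), h.crit, SMain_re] at h1
    rw [h.E_eq ac hacK]
    simpa using h1

/-- The reflection in the coordinates of `T`. -/
private def SMain_fl {ι : Type} [DecidableEq ι] {α : Type} [Neg α] (T : Finset ι) (v : ι → α) :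
    ι → α := fun j => if j ∈ T then -v j else v j

private theorem SMain_fl_ind {ι : Type} [DecidableEq ι] {α : Type} [Neg α] (P : (ι → α) → Prop)
    (Bv : Finset ι) (hP : ∀ v, P v → ∀ j ∈ Bv, P (Function.update v j (-v j))) (T : Finset ι)
    (hT : T ⊆ Bv) (v : ι → α) (hv : P v) : P (SMain_fl T v) := by
  induction T using Finset.induction_on with
  | empty =>
    have : SMain_fl ∅ v = v := by
      funext j
      simp [SMain_fl]
    rw [this]
    exact hv
  | insert i T hi ih =>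
    have h1 := ih ((Finset.subset_insert i T).trans hT)
    have h2 := hP _ h1 i (hT (Finset.mem_insert_self i T))
    have h3 : SMain_fl (insert i T) v = Function.update (SMain_fl T v) i (-(SMain_fl T v i)) := by
      funext j
      by_cases hj : j = i
      · subst hj
        simp [SMain_fl, hi]
      · rw [Function.update_of_ne hj]
        simp [SMain_fl, Finset.mem_insert, hj]
    rw [h3]
    exact h2

private theorem SMain_fl_cp {ι : Type} [DecidableEq ι] (T : Finset ι) (a b : ι → ℝ) :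
    SMain_fl T (cp a b) = cp (SMain_fl T a) (SMain_fl T b) := by
  funext j
  by_cases h : j ∈ T
  · simp only [SMain_fl, cp, if_pos h]
    push_cast
    ring
  · simp only [SMain_fl, cp, if_neg h]

private theorem SMain_fl_smul {ι : Type} [DecidableEq ι] (T : Finset ι) (s : ℝ) (b : ι → ℝ) :
    SMain_fl T (s • b) = s • SMain_fl T b := by
  funext j
  simp only [SMain_fl, Pi.smul_apply, smul_eq_mul]
  split_ifs
  · ring
  · rfl

private theorem SMain_fl_fl {ι : Type} [DecidableEq ι] (T : Finset ι) (a : ι → ℝ) :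
    SMain_fl T (SMain_fl T a) = a := by
  funext j
  unfold SMain_fl
  split_ifs
  · ring
  · rfl

private theorem SMain_fl_cont {ι : Type} [DecidableEq ι] (T : Finset ι) :
    Continuous (fun a : ι → ℝ => SMain_fl T a) := by
  apply continuous_pi
  intro j
  unfold SMain_fl
  split_ifs
  · exact (continuous_apply j).neg
  · exact continuous_apply j

private theorem SMain_sgn {τ : SignType} (h : τ ≠ 0) : τ = 1 ∨ τ = -1 := by
  cases τ
  · exact absurd rfl h
  · exact Or.inr rfl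
  · exact Or.inl rfl

/-- The mirror images of the shift `bc`. -/
theorem main_mirror {ι : Type} [Fintype ι] [DecidableEq ι] {Bv : Finset ι} {U : Set (ι → ℂ)}
    {V0 : (ι → ℂ) → ℂ} {K B : Set (ι → ℝ)} {E : (ι → ℝ) → ℝ} {ac bc : ι → ℝ} {m c2 : ℝ}
    (h : SData Bv U V0 K B E ac bc m c2) (c4 : ℝ) (hc4 : c4 < m) (χ : (ι → ℝ) → ℝ)
    (hχ : ∀ a, ∀ j ∈ Bv, χ (Function.update a j (-a j)) = χ a) (hχK : tsupport χ ⊆ K)
    (hχ1 : ac ∈ interior {a | χ a = 1})
    (hχE : ∀ a, fderiv ℝ χ a ≠ 0 → E a ≤ c4) (σ : ι → SignType)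
    (hσ : ∀ j ∈ Bv, σ j ≠ 0) (hσ' : ∀ j, j ∉ Bv → σ j = 0) (b : ι → ℝ)
    (hb : ∀ j, b j = if j ∈ Bv then sgn (σ j) * bc j else bc j) :
    b ∈ B ∧ (∀ j, σ j ≠ 0 → 0 < sgn (σ j) * b j) ∧
    ∃ δ : ℝ, 0 < δ ∧ ∀ a, fderiv ℝ χ a ≠ 0 → ∀ s ∈ Set.Icc (0 : ℝ) 1,
        (V0 (cp a (s • b))).re - 2 * Real.pi * s * nb σ b ≤ m - δ := by
  set T : Finset ι := Bv.filter (fun j => σ j = -1) with hT
  have hTB : T ⊆ Bv := Finset.filter_subset _ _
  have hflb : SMain_fl T bc = b := by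
    funext j
    unfold SMain_fl
    rw [hb j, hT]
    by_cases hj : j ∈ Bv
    · rw [if_pos hj]
      rcases SMain_sgn (hσ j hj) with h1 | h1
      · have h2 : j ∉ Bv.filter (fun j => σ j = -1) := by
          rw [Finset.mem_filter, h1]
          rintro ⟨_, h3⟩
          exact absurd h3 (by decide)
        rw [if_neg h2, h1]
        simp [sgn]
      · have h2 : j ∈ Bv.filter (fun j => σ j = -1) := Finset.mem_filter.mpr ⟨hj, h1⟩
        rw [if_pos h2, h1]
        simp [sgn]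
    · have h2 : j ∉ Bv.filter (fun j => σ j = -1) := fun h3 => hj (Finset.mem_filter.mp h3).1
      rw [if_neg hj, if_neg h2]
  have hflb' : SMain_fl T b = bc := by
    rw [← hflb, SMain_fl_fl]
  have hnb : nb σ b = ∑ j ∈ Bv, bc j := by
    unfold nb
    have h1 : ∀ j ∈ (Finset.univ : Finset ι), |sgn (σ j)| * |b j| = if j ∈ Bv then bc j else 0 := by
      intro j _
      by_cases hj : j ∈ Bv
      · rw [if_pos hj, hb j, if_pos hj]
        have hpos := h.bc_pos j hj
        rcases SMain_sgn (hσ j hj) with h1 | h1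
        · rw [h1]
          simp [sgn, abs_of_pos hpos]
        · rw [h1]
          simp [sgn, abs_of_pos hpos]
      · rw [if_neg hj, hσ' j hj]
        simp [sgn]
    rw [Finset.sum_congr rfl h1, Finset.sum_ite_mem, Finset.univ_inter]
  refine ⟨?_, ?_, ?_⟩
  · rw [← hflb]
    exact SMain_fl_ind (fun v => v ∈ B) Bv (fun v hv j hj => h.B_even v hv j hj) T hTB bc h.bc_mem
  · intro j hj
    have hjB : j ∈ Bv := by
      by_contra hn
      exact hj (hσ' j hn)
    have hpos := h.bc_pos j hjB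
    rw [hb j, if_pos hjB]
    rcases SMain_sgn (hσ j hjB) with h1 | h1
    · rw [h1]
      simpa [sgn] using hpos
    · rw [h1]
      simpa [sgn] using hpos
  · obtain ⟨c, hc, hdec, _⟩ := main_dec h
    obtain ⟨c', hc', hneg⟩ := neg_unif V0 U h.U_open h.V_an K B h.K_cpt h.B_cpt h.sub h.neg
    have h0B : (0 : ι → ℝ) ∈ B := SMain_zero_mem h
    obtain ⟨r, hr, hball⟩ := Metric.isOpen_iff.mp isOpen_interior ac hχ1
    refine ⟨min (m - c4) (c * r ^ 2), lt_min (by linarith) (by positivity), ?_⟩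
    intro a ha s hs
    have haK : a ∈ K := by
      apply hχK
      by_contra hn
      apply ha
      have h1 : χ =ᶠ[𝓝 a] fun _ => (0 : ℝ) := notMem_tsupport_iff_eventuallyEq.mp hn
      rw [h1.fderiv_eq]
      simp
    have ha'K : SMain_fl T a ∈ K :=
      SMain_fl_ind (fun v => v ∈ K) Bv (fun v hv j hj => h.K_even v hv j hj) T hTB a haK
    have hE : E (SMain_fl T a) = E a :=
      SMain_fl_ind (fun v => E v = E a) Bv (fun v hv j hj => (h.E_even v j hj).trans hv) T hTB a rfl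
    have hEa : E (SMain_fl T a) ≤ c4 := hE.le.trans (hχE a ha)
    have hχa : ∀ v, χ (SMain_fl T v) = χ v := fun w =>
      SMain_fl_ind (fun v => χ v = χ w) Bv (fun v hv j hj => (hχ v j hj).trans hv) T hTB w rfl
    -- the reflected point is not near `ac`
    have hfar : r ^ 2 ≤ ∑ j, ((SMain_fl T a) j - ac j) ^ 2 := by
      by_contra hlt
      rw [not_le] at hlt
      have hmem : SMain_fl T a ∈ Metric.ball ac r := by
        rw [Metric.mem_ball, dist_pi_lt_iff hr]
        intro j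
        rw [Real.dist_eq]
        have h1 : ((SMain_fl T a) j - ac j) ^ 2 < r ^ 2 :=
          lt_of_le_of_lt (Finset.single_le_sum (f := fun j => ((SMain_fl T a) j - ac j) ^ 2)
            (fun i _ => sq_nonneg _) (Finset.mem_univ j)) hlt
        exact abs_lt_of_sq_lt_sq h1 hr.le
      have hint := hball hmem
      have hopen : IsOpen ((fun v : ι → ℝ => SMain_fl T v) ⁻¹' interior {v | χ v = 1}) :=
        isOpen_interior.preimage (SMain_fl_cont T)
      have hsub : ((fun v : ι → ℝ => SMain_fl T v) ⁻¹' interior {v | χ v = 1}) ⊆ {v | χ v = 1} := by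
        intro v hv
        have h1 : SMain_fl T v ∈ {v | χ v = 1} := interior_subset hv
        have h2 : χ (SMain_fl T v) = 1 := h1
        exact (hχa v).symm.trans h2
      apply ha
      have h1 : χ =ᶠ[𝓝 a] fun _ => (1 : ℝ) := by
        filter_upwards [hopen.mem_nhds hint] with v hv
        exact hsub hv
      rw [h1.fderiv_eq]
      simp
    -- reflection of the potential
    have hsegB : ∀ t ∈ Set.Icc (0 : ℝ) 1, (0 : ι → ℝ) + t • (bc - 0) ∈ B := by
      intro t ht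
      have h2 := h.B_cvx h0B h.bc_mem (by linarith [ht.2] : (0 : ℝ) ≤ 1 - t) ht.1 (by ring)
      have h3 : (0 : ι → ℝ) + t • (bc - 0) = (1 - t) • (0 : ι → ℝ) + t • bc := by
        funext j
        simp only [Pi.add_apply, Pi.smul_apply, Pi.sub_apply, Pi.zero_apply, smul_eq_mul]
        ring
      rw [h3]
      exact h2
    have hsbc : (0 : ι → ℝ) + s • (bc - 0) = s • bc := by
      funext j
      simp only [Pi.add_apply, Pi.smul_apply, Pi.sub_apply, Pi.zero_apply, smul_eq_mul]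
      ring
    have hzU : cp (SMain_fl T a) (s • bc) ∈ U := by
      have h1 := h.sub _ ha'K _ (hsegB s hs)
      rw [hsbc] at h1
      exact h1
    have hrefl : V0 (cp a (s • b)) = V0 (cp (SMain_fl T a) (s • bc)) := by
      have h1 := SMain_fl_ind (fun v => v ∈ U ∧ V0 v = V0 (cp (SMain_fl T a) (s • bc))) Bv
        (fun v hv j hj => ⟨(h.V_even v hv.1 j hj).1, (h.V_even v hv.1 j hj).2.trans hv.2⟩) T hTB
        (cp (SMain_fl T a) (s • bc)) ⟨hzU, rfl⟩
      rw [SMain_fl_cp, SMain_fl_fl, SMain_fl_smul, hflb] at h1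
      exact h1.2
    have hconv := (imag_convex V0 U h.U_open h.V_an (SMain_fl T a) 0 bc
      (fun t ht => h.sub _ ha'K _ (hsegB t ht))
      (fun t ht => by
        refine (hneg _ ha'K _ (hsegB t ht) (bc - 0)).trans ?_
        have : 0 ≤ ∑ j, (bc - 0 : ι → ℝ) j ^ 2 := Finset.sum_nonneg fun _ _ => sq_nonneg _
        nlinarith)).1 s hs
    rw [hsbc, ← h.E_eq _ ha'K] at hconv
    have hend := hdec _ ha'K
    rw [SMain_re] at hend
    rw [hrefl, hnb]
    have hcr : c * r ^ 2 ≤ c * ∑ j, ((SMain_fl T a) j - ac j) ^ 2 :=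
      mul_le_mul_of_nonneg_left hfar hc.le
    have hm1 : min (m - c4) (c * r ^ 2) ≤ m - c4 := min_le_left _ _
    have hm2 : min (m - c4) (c * r ^ 2) ≤ c * r ^ 2 := min_le_right _ _
    set δ := min (m - c4) (c * r ^ 2)
    have hA : E (SMain_fl T a) ≤ m - δ := by linarith
    have hB : (V0 (cp (SMain_fl T a) bc)).re - 2 * Real.pi * ∑ j ∈ Bv, bc j ≤ m - δ := by
      linarith
    have hs0 : 0 ≤ s := hs.1
    have hs1 : 0 ≤ 1 - s := by linarith [hs.2]
    have h3 : (1 - s) * E (SMain_fl T a) ≤ (1 - s) * (m - δ) := mul_le_mul_of_nonneg_left hA hs1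
    have h4 : s * ((V0 (cp (SMain_fl T a) bc)).re - 2 * Real.pi * ∑ j ∈ Bv, bc j) ≤ s * (m - δ) :=
      mul_le_mul_of_nonneg_left hB hs0
    nlinarith

end Pool.Agent.H63.GO
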