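import Pool.Agent.H63.GO.SCalc

/-! # The choice of the shifts -/

namespace Pool.Agent.H63.GO

open Complex Filter Topology
open scoped BigOperators

/-- The vector of signs. -/
private noncomputable def SShift_v {ι : Type} (σ : ι → SignType) : ι → ℝ := fun j => sgn (σ j)

private theorem SShift_sgn_sq {τ : SignType} (h : τ ≠ 0) : sgn τ * sgn τ = 1 := by
  cases τ with
  | zero => exact absurd rfl h
  | neg => simp [sgn]
  | pos => simp [sgn]

private theorem SShift_abs_sgn {τ : SignType} (h : τ ≠ 0) : |sgn τ| = 1 := by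
  cases τ with
  | zero => exact absurd rfl h
  | neg => simp [sgn]
  | pos => simp [sgn]

private theorem SShift_cont {ι : Type} [Fintype ι] [DecidableEq ι] {Bv : Finset ι} {U : Set (ι → ℂ)}
    {V0 : (ι → ℂ) → ℂ} {K B : Set (ι → ℝ)} {E : (ι → ℝ) → ℝ} {ac bc : ι → ℝ} {m c2 : ℝ}
    (h : SData Bv U V0 K B E ac bc m c2) :
    ContinuousOn (fun p : (ι → ℝ) × (ι → ℝ) => (V0 (cp p.1 p.2)).re) (K ×ˢ B) := by
  have h1 : Continuous fun p : (ι → ℝ) × (ι → ℝ) => cp p.1 p.2 := by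
    unfold cp
    fun_prop
  exact Complex.continuous_re.comp_continuousOn
    (h.V_an.continuousOn.comp h1.continuousOn fun p hp => h.sub _ hp.1 _ hp.2)

private theorem SShift_unif {ι : Type} [Fintype ι] [DecidableEq ι] {Bv : Finset ι}
    {U : Set (ι → ℂ)}
    {V0 : (ι → ℂ) → ℂ} {K B : Set (ι → ℝ)} {E : (ι → ℝ) → ℝ} {ac bc : ι → ℝ} {m c2 : ℝ}
    (h : SData Bv U V0 K B E ac bc m c2) {ε : ℝ} (hε : 0 < ε) :
    ∃ d : ℝ, 0 < d ∧ ∀ a ∈ K, ∀ b ∈ B, ∀ b' ∈ B, dist b b' < d →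
      (V0 (cp a b)).re < (V0 (cp a b')).re + ε := by
  obtain ⟨d, hd, hd2⟩ := Metric.uniformContinuousOn_iff.mp
    ((h.K_cpt.prod h.B_cpt).uniformContinuousOn_of_continuous (SShift_cont h)) ε hε
  refine ⟨d, hd, fun a ha b hb b' hb' hbb => ?_⟩
  have h1 := hd2 (a, b) ⟨ha, hb⟩ (a, b') ⟨ha, hb'⟩ (by
    rw [Prod.dist_eq]
    simpa using hbb)
  rw [Real.dist_eq] at h1
  have h2 := (abs_lt.mp h1).2
  simp only at h2
  linarith

private theorem SShift_nb_nonneg {ι : Type} [Fintype ι] (σ : ι → SignType) (b : ι → ℝ) :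
    0 ≤ nb σ b := Finset.sum_nonneg fun _ _ => mul_nonneg (abs_nonneg _) (abs_nonneg _)

private theorem SShift_nb_cont {ι : Type} [Fintype ι] (σ : ι → SignType) :
    Continuous (nb σ) := by
  unfold nb
  fun_prop

/-- Small multiples of the sign vector. -/
private theorem SShift_small {ι : Type} [Fintype ι] [DecidableEq ι] {B : Set (ι → ℝ)}
    (hB : B ∈ 𝓝 (0 : ι → ℝ)) (v : ι → ℝ) {d : ℝ} (hd : 0 < d) :
    ∃ t : ℝ, 0 < t ∧ t • v ∈ B ∧ ‖t • v‖ < d := by
  have h1 : Tendsto (fun t : ℝ => t • v) (𝓝[>] 0) (𝓝 0) := by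
    have : Tendsto (fun t : ℝ => t • v) (𝓝 0) (𝓝 ((0 : ℝ) • v)) :=
      (continuous_id.smul continuous_const).tendsto 0
    rw [zero_smul] at this
    exact this.mono_left nhdsWithin_le_nhds
  have h2 : ∀ᶠ t : ℝ in 𝓝[>] 0, t • v ∈ B := h1 hB
  have h3 : ∀ᶠ t : ℝ in 𝓝[>] 0, ‖t • v‖ < d := by
    have := h1.norm
    rw [norm_zero] at this
    exact this.eventually_lt_const hd
  have h4 : ∀ᶠ t : ℝ in 𝓝[>] 0, 0 < t := eventually_mem_nhdsWithin
  obtain ⟨t, ht2, ht3, ht4⟩ := (h2.and (h3.and h4)).exists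
  exact ⟨t, ht4, ht2, ht3⟩

/-- The shift for one group of modes: for given `c4` with `c2 < c4 < m`; here `K` is the set of the
real parts. -/
theorem shift_exists {ι : Type} [Fintype ι] [DecidableEq ι] {Bv : Finset ι} {U : Set (ι → ℂ)}
    {V0 : (ι → ℂ) → ℂ} {K B : Set (ι → ℝ)} {E : (ι → ℝ) → ℝ} {ac bc : ι → ℝ} {m c2 : ℝ}
    (h : SData Bv U V0 K B E ac bc m c2) (c4 : ℝ) (hc4 : c4 < m) (σ : ι → SignType)
    (hσ : (∃ j ∈ Bv, σ j = 0) ∨ ∃ j, j ∉ Bv ∧ σ j ≠ 0) :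
    ∃ b ∈ B, ∃ δ : ℝ, 0 < δ ∧ (∀ j, σ j ≠ 0 → 0 < sgn (σ j) * b j) ∧
      (∀ a ∈ K, E a ≤ c4 → ∀ s ∈ Set.Icc (0 : ℝ) 1,
        (V0 (cp a (s • b))).re - 2 * Real.pi * s * nb σ b ≤ m - δ) ∧
      ((∀ j ∈ Bv, σ j ≠ 0) → ∀ a ∈ K, (V0 (cp a b)).re - 2 * Real.pi * nb σ b ≤ m - δ) := by
  classical
  have hpi : 0 < Real.pi := Real.pi_pos
  have h0B : (0 : ι → ℝ) ∈ B := mem_of_mem_nhds h.B_zero
  by_cases hcase : ∃ j ∈ Bv, σ j = 0
  · -- first case
    have hε : 0 < (m - c4) / 2 := by linarith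
    obtain ⟨d, hd, hd2⟩ := SShift_unif h hε
    obtain ⟨t, ht, htB, htd⟩ := SShift_small h.B_zero (SShift_v σ) hd
    refine ⟨t • SShift_v σ, htB, (m - c4) / 2, hε, ?_, ?_, ?_⟩
    · intro j hj
      have : sgn (σ j) * (t • SShift_v σ) j = t * (sgn (σ j) * sgn (σ j)) := by
        simp only [Pi.smul_apply, smul_eq_mul, SShift_v]
        ring
      rw [this, SShift_sgn_sq hj]
      linarith
    · intro a ha hEa s hs
      have hsB : s • (t • SShift_v σ) ∈ B := h.B_cvx.smul_mem_of_zero_mem h0B htB hs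
      have h1 := hd2 a ha _ hsB 0 h0B (by
        rw [dist_zero_right, norm_smul, Real.norm_of_nonneg hs.1]
        have : s * ‖t • SShift_v σ‖ ≤ 1 * ‖t • SShift_v σ‖ :=
          mul_le_mul_of_nonneg_right hs.2 (norm_nonneg _)
        linarith)
      rw [← h.E_eq a ha] at h1
      have h2 : 0 ≤ 2 * Real.pi * s * nb σ (t • SShift_v σ) :=
        mul_nonneg (mul_nonneg (by positivity) hs.1) (SShift_nb_nonneg _ _)
      linarith
    · intro hall
      obtain ⟨j, hj, hj0⟩ := hcase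
      exact absurd hj0 (hall j hj)
  · -- second case
    have hall : ∀ j ∈ Bv, σ j ≠ 0 := fun j hj hj0 => hcase ⟨j, hj, hj0⟩
    obtain ⟨j₁, hj₁, hσ₁⟩ := hσ.resolve_left hcase
    obtain ⟨η, hη, heB, hesm⟩ := h.single j₁ hj₁ (σ j₁) hσ₁
    set e : ι → ℝ := Pi.single j₁ (sgn (σ j₁) * η) with he
    have hnbe : nb σ e = η := by
      unfold nb
      rw [Finset.sum_eq_single j₁]
      · rw [he, Pi.single_eq_same, abs_mul, SShift_abs_sgn hσ₁, abs_of_pos hη]
        ring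
      · intro j _ hj
        rw [he, Pi.single_eq_of_ne hj]
        simp
      · intro hj
        exact absurd (Finset.mem_univ _) hj
    -- the gap at `e`
    have hKne : K.Nonempty := ⟨ac, interior_subset h.ac_mem⟩
    have hcontE : ContinuousOn (fun a : ι → ℝ => (V0 (cp a e)).re) K :=
      (SShift_cont h).comp (by fun_prop : Continuous fun a : ι → ℝ => (a, e)).continuousOn
        fun a ha => ⟨ha, heB⟩
    obtain ⟨a₁, ha₁, hmax⟩ := h.K_cpt.exists_isMaxOn hKne hcontE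
    obtain ⟨δ₁, hδ₁, hgap⟩ : ∃ δ₁ : ℝ, 0 < δ₁ ∧ ∀ a ∈ K,
        (V0 (cp a e)).re - 2 * Real.pi * η ≤ m - 3 * δ₁ := by
      refine ⟨(m - ((V0 (cp a₁ e)).re - 2 * Real.pi * η)) / 3, ?_, fun a ha => ?_⟩
      · have := hesm a₁ ha₁
        linarith
      · have : (V0 (cp a e)).re ≤ (V0 (cp a₁ e)).re := hmax ha
        linarith
    obtain ⟨d, hd, hd2⟩ := SShift_unif h hδ₁
    obtain ⟨t₀, ht₀, ht₀B, -⟩ := SShift_small h.B_zero (SShift_v σ) one_pos
    -- the segment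
    have hcont : Continuous fun t : ℝ => (1 - t) • e + t • (t₀ • SShift_v σ) := by fun_prop
    have hseg0 : (1 - (0 : ℝ)) • e + (0 : ℝ) • (t₀ • SShift_v σ) = e := by simp
    have hev1 : ∀ᶠ t : ℝ in 𝓝[>] 0, dist ((1 - t) • e + t • (t₀ • SShift_v σ)) e < d := by
      have h1 : Tendsto (fun t : ℝ => dist ((1 - t) • e + t • (t₀ • SShift_v σ)) e) (𝓝[>] 0)
          (𝓝 (dist ((1 - (0 : ℝ)) • e + (0 : ℝ) • (t₀ • SShift_v σ)) e)) :=
        ((hcont.dist continuous_const).tendsto 0).mono_left nhdsWithin_le_nhds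
      rw [hseg0, dist_self] at h1
      exact h1.eventually_lt_const hd
    have hev2 : ∀ᶠ t : ℝ in 𝓝[>] 0,
        2 * Real.pi * η - δ₁ < 2 * Real.pi * nb σ ((1 - t) • e + t • (t₀ • SShift_v σ)) := by
      have h1 : Tendsto (fun t : ℝ => 2 * Real.pi * nb σ ((1 - t) • e + t • (t₀ • SShift_v σ)))
          (𝓝[>] 0) (𝓝 (2 * Real.pi * nb σ ((1 - (0 : ℝ)) • e + (0 : ℝ) • (t₀ • SShift_v σ)))) :=
        ((continuous_const.mul ((SShift_nb_cont σ).comp hcont)).tendsto 0).mono_left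
          nhdsWithin_le_nhds
      rw [hseg0, hnbe] at h1
      exact h1.eventually_const_lt (by linarith)
    have hev3 : ∀ᶠ t : ℝ in 𝓝[>] 0, 0 < t := eventually_mem_nhdsWithin
    have hev4 : ∀ᶠ t : ℝ in 𝓝[>] 0, t < 1 :=
      nhdsWithin_le_nhds (eventually_lt_nhds zero_lt_one)
    obtain ⟨t, ht1, ht2, ht3, ht4⟩ := (hev1.and (hev2.and (hev3.and hev4))).exists
    set b : ι → ℝ := (1 - t) • e + t • (t₀ • SShift_v σ) with hb
    have hbB : b ∈ B := h.B_cvx heB ht₀B (by linarith) ht3.le (by ring)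
    have hsign : ∀ j, σ j ≠ 0 → 0 < sgn (σ j) * b j := by
      intro j hj
      have h1 : sgn (σ j) * b j = (1 - t) * (sgn (σ j) * e j) + t * t₀ * (sgn (σ j) * sgn (σ j)) := by
        simp only [hb, Pi.add_apply, Pi.smul_apply, smul_eq_mul, SShift_v]
        ring
      have h2 : 0 ≤ sgn (σ j) * e j := by
        by_cases hjj : j = j₁
        · subst hjj
          rw [he, Pi.single_eq_same, ← mul_assoc, SShift_sgn_sq hj, one_mul]
          exact hη.le
        · rw [he, Pi.single_eq_of_ne hjj, mul_zero]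
      rw [h1, SShift_sgn_sq hj]
      have h3 : 0 ≤ (1 - t) * (sgn (σ j) * e j) := mul_nonneg (by linarith) h2
      have h4 : 0 < t * t₀ := mul_pos ht3 ht₀
      linarith
    have hone : ∀ a ∈ K, (V0 (cp a b)).re - 2 * Real.pi * nb σ b ≤ m - δ₁ := by
      intro a ha
      have h1 := hd2 a ha b hbB e heB ht1
      have h2 := hgap a ha
      linarith
    have hb0 : b ≠ 0 := by
      intro h0
      have := hsign j₁ hσ₁
      rw [h0, Pi.zero_apply, mul_zero] at this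
      exact lt_irrefl _ this
    refine ⟨b, hbB, min δ₁ (m - c4), lt_min hδ₁ (by linarith), hsign, ?_, ?_⟩
    · intro a ha hEa s hs
      have hsub : ∀ r ∈ Set.Icc (0 : ℝ) 1, (0 : ι → ℝ) + r • (b - 0) ∈ B := by
        intro r hr
        rw [zero_add, sub_zero]
        exact h.B_cvx.smul_mem_of_zero_mem h0B hbB hr
      have h1 := (imag_convex V0 U h.U_open h.V_an a 0 b
        (fun r hr => h.sub a ha _ (hsub r hr))
        (fun r hr => (h.neg a ha _ (hsub r hr) _ (by rwa [sub_zero])).le)).1 s hs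
      rw [zero_add, sub_zero, ← h.E_eq a ha] at h1
      have h2 := hone a ha
      have h3 : (1 - s) * E a ≤ (1 - s) * c4 := mul_le_mul_of_nonneg_left hEa (by linarith [hs.2])
      have h4 : s * ((V0 (cp a b)).re - 2 * Real.pi * nb σ b) ≤ s * (m - δ₁) :=
        mul_le_mul_of_nonneg_left h2 hs.1
      have h5 : (1 - s) * min δ₁ (m - c4) ≤ (1 - s) * (m - c4) :=
        mul_le_mul_of_nonneg_left (min_le_right _ _) (by linarith [hs.2])
      have h6 : s * min δ₁ (m - c4) ≤ s * δ₁ := mul_le_mul_of_nonneg_left (min_le_left _ _) hs.1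
      nlinarith
    · intro _ a ha
      have h1 := hone a ha
      have h2 := min_le_left δ₁ (m - c4)
      linarith

end Pool.Agent.H63.GO
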