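import Pool.Agent.H63.GO.SCut
import Pool.Agent.H63.GO.SShift
import Pool.Agent.H63.GO.SMain

/-! # From the structure of the potential to the data of the saddle point theorem -/

namespace Pool.Agent.H63.GO

open Complex Filter Topology
open scoped BigOperators

/-- The reflection in the coordinate `j` maps the interior of a symmetric set to itself. -/
private theorem Struct_refl_interior {ι : Type} [DecidableEq ι] (K : Set (ι → ℝ))
    (j : ι) (hK : ∀ a ∈ K, Function.update a j (-a j) ∈ K) (a : ι → ℝ) (ha : a ∈ interior K) :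
    Function.update a j (-a j) ∈ interior K := by
  have hcont : Continuous (fun x : ι → ℝ => Function.update x j (-x j)) :=
    continuous_id.update j (continuous_apply j).neg
  have hinv : ∀ x : ι → ℝ, Function.update (Function.update x j (-x j)) j
      (-(Function.update x j (-x j)) j) = x := by
    intro x
    rw [Function.update_idem, Function.update_self, neg_neg, Function.update_eq_self]
  have hop : IsOpen ((fun x : ι → ℝ => Function.update x j (-x j)) ⁻¹' interior K) :=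
    isOpen_interior.preimage hcont
  have hsub : (fun x : ι → ℝ => Function.update x j (-x j)) ⁻¹' interior K ⊆ K := by
    intro x hx
    have h1 : Function.update x j (-x j) ∈ K := interior_subset hx
    have h2 := hK _ h1
    rwa [hinv x] at h2
  have hmem : Function.update a j (-a j) ∈
      (fun x : ι → ℝ => Function.update x j (-x j)) ⁻¹' interior K := by
    show Function.update (Function.update a j (-a j)) j
      (-(Function.update a j (-a j)) j) ∈ interior K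
    rw [hinv a]
    exact ha
  exact interior_maximal hsub hop hmem

/-- The shift for one group of modes. -/
private theorem Struct_shift {ι : Type} [Fintype ι] [DecidableEq ι] {Bv : Finset ι}
    {U : Set (ι → ℂ)} {V0 : (ι → ℂ) → ℂ} {K B : Set (ι → ℝ)} {E : (ι → ℝ) → ℝ} {ac bc : ι → ℝ}
    {m c2 : ℝ} (h : SData Bv U V0 K B E ac bc m c2) (c4 : ℝ) (hc4 : c4 < m) (χ : (ι → ℝ) → ℝ)
    (hχ : ∀ a, ∀ j ∈ Bv, χ (Function.update a j (-a j)) = χ a) (hχK : tsupport χ ⊆ K)
    (hχ1 : ac ∈ interior {a | χ a = 1})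
    (hχE : ∀ a, fderiv ℝ χ a ≠ 0 → E a ≤ c4) (σ : ι → SignType) :
    ∃ (b : ι → ℝ) (δ : ℝ), b ∈ B ∧ 0 < δ ∧ (∀ j, σ j ≠ 0 → 0 < sgn (σ j) * b j) ∧
      (∀ a, fderiv ℝ χ a ≠ 0 → ∀ s ∈ Set.Icc (0 : ℝ) 1,
        (V0 (cp a (s • b))).re - 2 * Real.pi * s * nb σ b ≤ m - δ) ∧
      ((∀ j ∈ Bv, σ j ≠ 0) → (∃ j, j ∉ Bv ∧ σ j ≠ 0) → ∀ a ∈ tsupport χ,
        (V0 (cp a b)).re - 2 * Real.pi * nb σ b ≤ m - δ) ∧
      ((∀ j ∈ Bv, σ j ≠ 0) → (∀ j, j ∉ Bv → σ j = 0) →
        ∀ j, b j = if j ∈ Bv then sgn (σ j) * bc j else bc j) := by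
  by_cases hσ : (∃ j ∈ Bv, σ j = 0) ∨ ∃ j, j ∉ Bv ∧ σ j ≠ 0
  · obtain ⟨b, hbB, δ, hδ, hpos, h1, h2⟩ := shift_exists h c4 hc4 σ hσ
    refine ⟨b, δ, hbB, hδ, hpos, ?_, ?_, ?_⟩
    · intro a ha s hs
      have haS : a ∈ tsupport χ := support_fderiv_subset ℝ (Function.mem_support.mpr ha)
      exact h1 a (hχK haS) (hχE a ha) s hs
    · intro hB _ a ha
      exact h2 hB a (hχK ha)
    · intro hB hB'
      exfalso
      rcases hσ with ⟨j, hj, hj0⟩ | ⟨j, hj, hj0⟩
      · exact hB j hj hj0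
      · exact hj0 (hB' j hj)
  · push Not at hσ
    obtain ⟨hσ1, hσ2⟩ := hσ
    obtain ⟨hbB, hpos, δ, hδ, h1⟩ := main_mirror h c4 hc4 χ hχ hχK hχ1 hχE σ hσ1 hσ2
      (fun j => if j ∈ Bv then sgn (σ j) * bc j else bc j) (fun j => rfl)
    refine ⟨fun j => if j ∈ Bv then sgn (σ j) * bc j else bc j, δ, hbB, hδ, hpos, h1, ?_, ?_⟩
    · rintro _ ⟨j, hj, hj0⟩
      exact absurd (hσ2 j hj) hj0
    · intro _ _ j
      rfl

theorem struct_thm {ι : Type} [Fintype ι] [DecidableEq ι] {Bv : Finset ι} {U : Set (ι → ℂ)}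
    {V0 : (ι → ℂ) → ℂ} {K B : Set (ι → ℝ)} {E : (ι → ℝ) → ℝ} {ac bc : ι → ℝ} {m c2 : ℝ}
    (h : SData Bv U V0 K B E ac bc m c2) :
    ∃ (χ : (ι → ℝ) → ℝ) (b : (ι → SignType) → ι → ℝ) (δ c c4 : ℝ),
      MData Bv U V0 χ b ac m δ c ∧ b (sg0 Bv) = bc ∧ c2 < c4 ∧ c4 < m ∧
      tsupport χ ⊆ interior K ∧ ∀ a ∈ K, c4 ≤ E a → a ∈ interior {a | χ a = 1} := by
  obtain ⟨c, hc, hdec, hmE⟩ := main_dec h
  obtain ⟨c4, hc24, hc4⟩ : ∃ c4 : ℝ, c2 < c4 ∧ c4 < m := exists_between h.c2_lt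
  have hacK : ac ∈ K := interior_subset h.ac_mem
  -- the compact set where the cutoff function is one
  have hGc : IsCompact (K ∩ {a | c4 ≤ E a}) :=
    h.K_cpt.inter_right (isClosed_le continuous_const h.E_cont)
  have hGW : K ∩ {a | c4 ≤ E a} ⊆ interior K := by
    rintro a ⟨haK, haE⟩
    by_contra hcon
    have h1 := h.E_bdy a haK hcon
    have h2 : c4 ≤ E a := haE
    linarith
  have hGs : ∀ a ∈ K ∩ {a | c4 ≤ E a}, ∀ j ∈ Bv,
      Function.update a j (-a j) ∈ K ∩ {a | c4 ≤ E a} := by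
    rintro a ⟨haK, haE⟩ j hj
    refine ⟨h.K_even a haK j hj, ?_⟩
    show c4 ≤ E (Function.update a j (-a j))
    rw [h.E_even a j hj]
    exact haE
  have hWs : ∀ a ∈ interior K, ∀ j ∈ Bv, Function.update a j (-a j) ∈ interior K :=
    fun a ha j hj => Struct_refl_interior K j (fun x hx => h.K_even x hx j hj) a ha
  have hWb : Bornology.IsBounded (interior K) := h.K_cpt.isBounded.subset interior_subset
  obtain ⟨χ, hχs, hχc, hχW, hχ0, hχ1, hχG, hχe⟩ :=
    cutoff Bv (K ∩ {a | c4 ≤ E a}) (interior K) hGc isOpen_interior hWb hGW hGs hWs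
  have hχK : tsupport χ ⊆ K := hχW.trans interior_subset
  have hacG : ac ∈ K ∩ {a | c4 ≤ E a} := by
    refine ⟨hacK, ?_⟩
    show c4 ≤ E ac
    linarith
  have hacI : ac ∈ interior {a | χ a = 1} := hχG hacG
  have hχE : ∀ a, fderiv ℝ χ a ≠ 0 → E a ≤ c4 := by
    intro a ha
    by_contra hcon
    push Not at hcon
    have haS : a ∈ tsupport χ := support_fderiv_subset ℝ (Function.mem_support.mpr ha)
    have haI : a ∈ interior {a | χ a = 1} := hχG ⟨hχK haS, hcon.le⟩
    have hev : χ =ᶠ[𝓝 a] fun _ => (1 : ℝ) := by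
      filter_upwards [isOpen_interior.mem_nhds haI] with x hx
      have hx' : x ∈ {a | χ a = 1} := interior_subset hx
      exact hx'
    apply ha
    rw [hev.fderiv_eq]
    exact fderiv_const_apply 1
  choose b δ' hbB hδ' hpos hgrad hflip hsym using
    fun σ => Struct_shift h c4 hc4 χ hχe hχK hacI hχE σ
  obtain ⟨σ₀, hσ₀⟩ := Finite.exists_min δ'
  have hb0 : b (sg0 Bv) = bc := by
    funext j
    have h1 : ∀ j ∈ Bv, sg0 Bv j ≠ 0 := by
      intro j hj
      simp [sg0, hj]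
    have h2 : ∀ j, j ∉ Bv → sg0 Bv j = 0 := by
      intro j hj
      simp [sg0, hj]
    rw [hsym (sg0 Bv) h1 h2 j]
    by_cases hj : j ∈ Bv
    · simp [sg0, hj, sgn]
    · simp [hj]
  have h0B : (0 : ι → ℝ) ∈ B := mem_of_mem_nhds h.B_zero
  refine ⟨χ, b, δ' σ₀, c, c4, ?_, hb0, hc24, hc4, hχW, fun a haK haE => hχG ⟨haK, haE⟩⟩
  refine
    { U_open := h.U_open
      V_an := h.V_an
      δ_pos := hδ' σ₀
      c_pos := hc
      χ_smooth := hχs
      χ_supp := hχc
      χ_one := ?_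
      χ_nonneg := hχ0
      χ_le := hχ1
      χ_even := hχe
      b_pos := fun σ j hj => hpos σ j hj
      b_sym := ?_
      sub := ?_
      grad := ?_
      flip := ?_
      crit := ?_
      dec := ?_
      gradz := ?_ }
  · have h1 : ac ∈ {a | χ a = 1} := interior_subset hacI
    exact h1
  · intro σ h1 h2 j
    rw [hb0]
    exact hsym σ h1 h2 j
  · intro σ a ha s hs
    exact h.sub a (hχK ha) _ (h.B_cvx.smul_mem_of_zero_mem h0B (hbB σ) hs)
  · intro σ a ha s hs
    have h1 := hgrad σ a ha s hs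
    have h2 := hσ₀ σ
    linarith
  · intro σ h1 h2 a ha
    have h3 := hflip σ h1 h2 a ha
    have h4 := hσ₀ σ
    linarith
  · rw [hb0]
    exact h.crit
  · intro a ha
    rw [hb0]
    exact hdec a (hχK ha)
  · intro ξ
    rw [hb0]
    exact h.gradz ξ

end Pool.Agent.H63.GO
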