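import Pool.Agent.H63.GO.AData
import Pool.Agent.H63.GO.ALimT
import Pool.Agent.H63.GO.Master
import Pool.Agent.H63.GO.Red
import Pool.Agent.H63.GO.SDat
import Pool.Agent.H63.GO.Struct
import Pool.Agent.H63.VC3.JNlimC

/-! # The limit of the normalized invariants -/

namespace Pool.Agent.H63.GO

open Complex Filter Topology Pool.Agent.H63.VC Pool.Agent.H63.VC3

/-- The contribution of a block to the phase. -/
noncomputable def JLim_cB (r : ℤ) : ℂ :=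
  if 3 ≤ |r| then Real.pi * I - Real.pi * I * r / 2 else Real.pi * I

private theorem JLim_cB_re (r : ℤ) : (JLim_cB r).re = 0 := by
  unfold JLim_cB
  split_ifs
  · have e : (Real.pi * I - Real.pi * I * r / 2 : ℂ) =
        ((Real.pi - Real.pi * r / 2 : ℝ) : ℂ) * I := by
      push_cast
      ring
    rw [e]
    simp
  · simp

/-- The phase of the offset of a block. -/
private noncomputable def JLim_E (r : ℤ) (n M : ℕ) : ℂ :=
  if 3 ≤ |r| then exp (2 * Real.pi * I * ofB r n M) else 1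

private theorem JLim_E_ne (r : ℤ) (n M : ℕ) : JLim_E r n M ≠ 0 := by
  unfold JLim_E
  split_ifs
  · exact exp_ne_zero _
  · exact one_ne_zero

private theorem JLim_prod (r1 r2 : ℤ) (n M : ℕ) :
    ∏ j ∈ Bs r1 r2, exp (2 * Real.pi * I * oo r1 r2 n M j) = JLim_E r1 n M * JLim_E r2 n M := by
  unfold Bs JLim_E
  rw [Finset.prod_filter, Fin.prod_univ_three]
  by_cases h1 : 3 ≤ |r1| <;> by_cases h2 : 3 ≤ |r2| <;> simp [h1, h2, oo]

private theorem JLim_blk (r : ℤ) (n : ℕ) : ∃ A : ℂ, A ≠ 0 ∧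
    Tendsto (fun M : ℕ => pre r n M / JLim_E r n M * exp (-(M * JLim_cB r))) atTop (𝓝 A) := by
  by_cases h : 3 ≤ |r|
  · have hne : (((-1 : ℂ) ^ (n + 1)) ^ r) ≠ 0 :=
      zpow_ne_zero _ (pow_ne_zero _ (by norm_num))
    refine ⟨((-1) ^ (n + 1)) ^ r * exp (-(2 * Real.pi * I * bt n)),
      mul_ne_zero hne (exp_ne_zero _), ?_⟩
    refine ((JNlimC_c1 n r).mul_const (exp (-(2 * Real.pi * I * bt n)))).congr fun M => ?_
    unfold pre JLim_E JLim_cB ofB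
    have e1 : ∀ X Y : ℂ, Y / exp X = Y * exp (-X) := fun X Y => by rw [exp_neg, div_eq_mul_inv]
    have e2 : ∀ Z X Y X' Y' : ℂ, X + Y = X' + Y' →
        Z * exp X * exp Y = Z * exp X' * exp Y' := by
      intro Z X Y X' Y' h5
      rw [mul_assoc, mul_assoc, ← exp_add, ← exp_add, h5]
    rw [if_pos h, if_pos h, if_pos h, if_pos h, e1]
    apply e2
    push_cast
    ring
  · refine ⟨I * (-1) ^ n, mul_ne_zero I_ne_zero (pow_ne_zero _ (by norm_num)), ?_⟩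
    refine tendsto_const_nhds.congr fun M => ?_
    unfold pre JLim_E JLim_cB
    rw [if_neg h, if_neg h, if_neg h, div_one, pow_add, TermsA_neg M]
    have e : exp (Real.pi * I * M) * exp (-(M * (Real.pi * I))) = 1 := by
      rw [← exp_add, ← exp_zero]
      congr 1
      ring
    linear_combination (-(I * (-1 : ℂ) ^ n)) * e

private theorem JLim_err (C s : ℝ) (D : ℕ) (hs : 0 < s) :
    Tendsto (fun M : ℕ => C * (M : ℝ) ^ D * Real.exp (-s * M)) atTop (𝓝 0) := by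
  have h1 := (tendsto_rpow_mul_exp_neg_mul_atTop_nhds_zero D s hs).comp
    tendsto_natCast_atTop_atTop
  have h2 := h1.const_mul C
  rw [mul_zero] at h2
  refine h2.congr fun M => ?_
  simp only [Function.comp_apply, Real.rpow_natCast]
  ring

/-- The comparison of the invariant with the lattice sum. -/
private theorem JLim_comp (r1 r2 : ℤ) (n g : ℕ) (hn : 2 ≤ n) (hg : 1 ≤ g) (hgn : g ≤ n - 1)
    (T : ℕ → ℂ) (u : ℂ) (m c4 : ℝ) (hu : u.re = m) (hc4 : c4 < m) (κ : ℂ) (hκ : κ ≠ 0)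
    (hlim : Tendsto (fun M : ℕ => JLim_E r1 n M * JLim_E r2 n M * T M /
      ((((M : ℝ) ^ (3 / 2 : ℝ) : ℝ) : ℂ) * exp (M * u))) atTop (𝓝 κ))
    (C : ℝ) (hC : 0 < C) (D M0 : ℕ)
    (hred : ∀ M : ℕ, M0 ≤ M → ‖(Dg n g M : ℂ) * JN r1 r2 n g M - pre r1 n M * pre r2 n M * T M‖ ≤
      C * (M : ℝ) ^ D * Real.exp (M * c4)) :
    ∃ κ : ℂ, κ ≠ 0 ∧ Tendsto (fun M : ℕ => JN r1 r2 n g M /
      (((M : ℝ) ^ (2 * (n : ℝ) - 5 / 2) : ℝ) * exp (M * (u + JLim_cB r1 + JLim_cB r2))))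
      atTop (𝓝 κ) := by
  obtain ⟨A1, hA1, hl1⟩ := JLim_blk r1 n
  obtain ⟨A2, hA2, hl2⟩ := JLim_blk r2 n
  -- the denominators
  have hDlim : Tendsto (fun M : ℕ => Dg n g M * (M : ℝ) ^ (2 * n - 4)) atTop
      (𝓝 (((2 * Real.pi) ^ (g - 1) * (Nat.factorial (g - 1) : ℝ)) *
        ((2 * Real.pi) ^ (n - g - 1) * (Nat.factorial (n - g - 1) : ℝ)) *
        ((2 * Real.pi) ^ (n - 2) * (Nat.factorial (n - 2) : ℝ)))) := by
    refine (((S_lim (g - 1)).mul (S_lim (n - g - 1))).mul (S_lim (n - 2))).congr fun M => ?_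
    unfold Dg
    have e : 2 * n - 4 = (g - 1) + (n - g - 1) + (n - 2) := by omega
    rw [e, pow_add, pow_add]
    ring
  obtain ⟨c, hcd⟩ : ∃ c, c = ((2 * Real.pi) ^ (g - 1) * (Nat.factorial (g - 1) : ℝ)) *
        ((2 * Real.pi) ^ (n - g - 1) * (Nat.factorial (n - g - 1) : ℝ)) *
        ((2 * Real.pi) ^ (n - 2) * (Nat.factorial (n - 2) : ℝ)) := ⟨_, rfl⟩
  rw [← hcd] at hDlim
  have hc0 : 0 < c := by
    rw [hcd]
    positivity
  have hDlimC : Tendsto (fun M : ℕ => (((Dg n g M * (M : ℝ) ^ (2 * n - 4))⁻¹ : ℝ) : ℂ)) atTop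
      (𝓝 ((c⁻¹ : ℝ) : ℂ)) :=
    (Complex.continuous_ofReal.tendsto _).comp (hDlim.inv₀ hc0.ne')
  refine ⟨A1 * A2 * (κ * ((c⁻¹ : ℝ) : ℂ)), mul_ne_zero (mul_ne_zero hA1 hA2) (mul_ne_zero hκ
    (by exact_mod_cast (inv_pos.2 hc0).ne')), ?_⟩
  have hmain := (hl1.mul hl2).mul (hlim.mul hDlimC)
  have herr := JLim_err C (m - c4) (D + (2 * n - 4)) (by linarith)
  obtain ⟨Q, hQ⟩ : ∃ Q : ℕ → ℂ, ∀ M, Q M =
      pre r1 n M / JLim_E r1 n M * exp (-(M * JLim_cB r1)) *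
      (pre r2 n M / JLim_E r2 n M * exp (-(M * JLim_cB r2))) *
      (JLim_E r1 n M * JLim_E r2 n M * T M / ((((M : ℝ) ^ (3 / 2 : ℝ) : ℝ) : ℂ) * exp (M * u)) *
        (((Dg n g M * (M : ℝ) ^ (2 * n - 4))⁻¹ : ℝ) : ℂ)) := ⟨_, fun _ => rfl⟩
  simp only [← hQ] at hmain
  -- comparison
  have hcomp : ∀ᶠ M : ℕ in atTop, ‖JN r1 r2 n g M /
      (((M : ℝ) ^ (2 * (n : ℝ) - 5 / 2) : ℝ) * exp (M * (u + JLim_cB r1 + JLim_cB r2))) -
      Q M‖ ≤ C * (M : ℝ) ^ (D + (2 * n - 4)) * Real.exp (-(m - c4) * M) := by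
    filter_upwards [eventually_ge_atTop M0, eventually_ge_atTop n] with M hM0 hMn
    have hM : 0 < M := by omega
    have hMr : (1 : ℝ) ≤ M := by exact_mod_cast hM
    have hMp : (0 : ℝ) < M := by linarith
    obtain ⟨hDg, hDg'⟩ := Reduce_Dg n g M hn hg hgn hMn
    have h1 := hred M hM0
    set W : ℂ := (((M : ℝ) ^ (2 * (n : ℝ) - 5 / 2) : ℝ) *
        exp (M * (u + JLim_cB r1 + JLim_cB r2))) with hWdef
    have hW0 : (((M : ℝ) ^ (2 * (n : ℝ) - 5 / 2) : ℝ) : ℂ) ≠ 0 := by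
      exact_mod_cast (Real.rpow_pos_of_pos hMp _).ne'
    have hWne : W ≠ 0 := mul_ne_zero hW0 (exp_ne_zero _)
    have hWn : ‖W‖ = (M : ℝ) ^ (2 * (n : ℝ) - 5 / 2) * Real.exp (M * m) := by
      rw [hWdef, norm_mul, Complex.norm_real, Real.norm_of_nonneg (by positivity),
        Complex.norm_exp]
      congr 2
      rw [Complex.mul_re, Complex.natCast_re, Complex.natCast_im, Complex.add_re, Complex.add_re,
        JLim_cB_re, JLim_cB_re, hu]
      ring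
    have hW1 : (1 : ℝ) ≤ (M : ℝ) ^ (2 * (n : ℝ) - 5 / 2) := by
      apply Real.one_le_rpow hMr
      have : (2 : ℝ) ≤ n := by exact_mod_cast hn
      linarith
    have hpow : (M : ℝ) ^ (2 * (n : ℝ) - 5 / 2) = (M : ℝ) ^ (3 / 2 : ℝ) *
        (M : ℝ) ^ (2 * n - 4) := by
      rw [← Real.rpow_natCast (M : ℝ) (2 * n - 4), ← Real.rpow_add hMp]
      congr 1
      rw [Nat.cast_sub (by omega)]
      push_cast
      ring
    have hDC : ((Dg n g M : ℝ) : ℂ) ≠ 0 := by exact_mod_cast hDg.ne'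
    have hXY : Q M = pre r1 n M * pre r2 n M * T M / (Dg n g M : ℂ) / W := by
      have hE1 := JLim_E_ne r1 n M
      have hE2 := JLim_E_ne r2 n M
      have e1 : exp (M * (u + JLim_cB r1 + JLim_cB r2)) =
          exp (M * u) * (exp (M * JLim_cB r1) * exp (M * JLim_cB r2)) := by
        rw [← exp_add, ← exp_add]
        congr 1
        ring
      have hx0 := exp_ne_zero (M * u)
      have hx1 := exp_ne_zero (M * JLim_cB r1)
      have hx2 := exp_ne_zero (M * JLim_cB r2)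
      have hp1 : (((M : ℝ) ^ (3 / 2 : ℝ) : ℝ) : ℂ) ≠ 0 := by
        exact_mod_cast (Real.rpow_pos_of_pos hMp _).ne'
      have hp2 : (((M : ℝ) ^ (2 * n - 4) : ℝ) : ℂ) ≠ 0 := by
        exact_mod_cast (pow_pos hMp _).ne'
      rw [hQ, hWdef, hpow, e1, exp_neg, exp_neg, ofReal_inv, ofReal_mul, ofReal_mul]
      generalize exp (M * u) = x0 at *
      generalize exp (M * JLim_cB r1) = x1 at *
      generalize exp (M * JLim_cB r2) = x2 at *
      generalize (((M : ℝ) ^ (3 / 2 : ℝ) : ℝ) : ℂ) = p1 at *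
      generalize (((M : ℝ) ^ (2 * n - 4) : ℝ) : ℂ) = p2 at *
      generalize JLim_E r1 n M = E1 at *
      generalize JLim_E r2 n M = E2 at *
      generalize ((Dg n g M : ℝ) : ℂ) = d at *
      field_simp
    have hsplit : JN r1 r2 n g M / W - Q M =
        ((Dg n g M : ℂ) * JN r1 r2 n g M - pre r1 n M * pre r2 n M * T M) / (Dg n g M : ℂ) / W := by
      rw [hXY, sub_div, sub_div, mul_div_cancel_left₀ _ hDC]
    rw [hsplit, norm_div, norm_div, hWn, Complex.norm_real, Real.norm_of_nonneg hDg.le,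
      div_le_iff₀ (by positivity)]
    have h2 : ‖(Dg n g M : ℂ) * JN r1 r2 n g M - pre r1 n M * pre r2 n M * T M‖ / Dg n g M ≤
        C * (M : ℝ) ^ D * Real.exp (M * c4) * (M : ℝ) ^ (2 * n - 4) := by
      rw [div_eq_mul_one_div]
      exact mul_le_mul h1 hDg' (by positivity) (by positivity)
    refine h2.trans ?_
    have h3 : Real.exp (M * c4) = Real.exp (-(m - c4) * M) * Real.exp (M * m) := by
      rw [← Real.exp_add]
      congr 1
      ring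
    rw [h3]
    have h4 : 0 ≤ C * (M : ℝ) ^ (D + (2 * n - 4)) *
        (Real.exp (-(m - c4) * M) * Real.exp (M * m)) := by positivity
    calc C * (M : ℝ) ^ D * (Real.exp (-(m - c4) * M) * Real.exp (M * m)) * (M : ℝ) ^ (2 * n - 4)
        = C * (M : ℝ) ^ (D + (2 * n - 4)) *
          (Real.exp (-(m - c4) * M) * Real.exp (M * m)) * 1 := by
          rw [pow_add]
          ring
      _ ≤ C * (M : ℝ) ^ (D + (2 * n - 4)) *
          (Real.exp (-(m - c4) * M) * Real.exp (M * m)) *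
          (M : ℝ) ^ (2 * (n : ℝ) - 5 / 2) := mul_le_mul_of_nonneg_left hW1 h4
      _ = _ := by ring
  have hdiff := squeeze_zero_norm' hcomp herr
  have hsum := hdiff.add hmain
  rw [zero_add] at hsum
  refine hsum.congr fun M => ?_
  ring

theorem jlimB (r1 r2 : ℤ) (h1 : 2 ≤ |r1|) (h2 : 2 ≤ |r2|) : ∃ y v w c : ℂ,
    Blk r1 v (cos (Real.pi * w)) ∧ Blk r2 w (cos (Real.pi * v)) ∧
    (|r1| = 2 → 55 / 100 ≤ (zB r1 v).re ∧ (zB r1 v).re ≤ 60 / 100) ∧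
    (|r2| = 2 → 55 / 100 ≤ (zB r2 w).re ∧ (zB r2 w).re ≤ 60 / 100) ∧
    c = Vm (Bs r1 r2) (VV r1 r2) (zC r1 r2 y v w) + JLim_cB r1 + JLim_cB r2 ∧
    CritG r1 r2 y v w ∧
    c.re = (Vf r1 r2 y v w).re ∧ ∀ n g : ℕ, 2 ≤ n → 1 ≤ g → g ≤ n - 1 →
    ∃ κ : ℂ, κ ≠ 0 ∧ Tendsto (fun M : ℕ => JN r1 r2 n g M /
      (((M : ℝ) ^ (2 * (n : ℝ) - 5 / 2) : ℝ) * exp (M * c))) atTop (𝓝 κ) := by
  obtain ⟨y, v, w, hbv, hbw, hl1, hl2, hc, hS⟩ := sdatB r1 r2 h1 h2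
  obtain ⟨χ, b, δ, c', c4, hM, hb, hc2, hc4, hsupp, hone⟩ := struct_thm hS
  obtain ⟨ac, hac⟩ : ∃ ac : Fin 3 → ℝ, ac = fun j => (zC r1 r2 y v w j).re := ⟨_, rfl⟩
  obtain ⟨bc, hbc⟩ : ∃ bc : Fin 3 → ℝ, bc = fun j => (zC r1 r2 y v w j).im := ⟨_, rfl⟩
  obtain ⟨m, hm⟩ : ∃ m : ℝ, m = (Vf r1 r2 y v w).re := ⟨_, rfl⟩
  rw [← hac, ← hm] at hM
  rw [← hac, ← hbc, ← hm] at hS
  rw [← hbc] at hb
  rw [← hm] at hc4
  have hcpz : cp ac bc = zC r1 r2 y v w := by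
    rw [hac, hbc]
    funext j
    exact re_add_im _
  refine ⟨y, v, w, Vm (Bs r1 r2) (VV r1 r2) (cp ac bc) + JLim_cB r1 + JLim_cB r2, hbv, hbw, hl1,
    hl2, by rw [hcpz], hc, ?_, ?_⟩
  · rw [Complex.add_re, Complex.add_re, JLim_cB_re, JLim_cB_re, hS.crit, hm]
    ring
  intro n g hn hg hgn
  have hz : cp ac bc ∈ UU r1 r2 := hS.sub _ (interior_subset hS.ac_mem) _ hS.bc_mem
  have him : ∀ j ∈ Bs r1 r2, 0 < (cp ac bc j).im := by
    intro j hj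
    have h3 := hS.bc_pos j hj
    simpa [cp] using h3
  have hA := adata r1 r2 n g hn hg hgn
  have hL := alim r1 r2 h1 h2 n g hn hg hgn (cp ac bc) hz hS.gradz him
  obtain ⟨κ, hκ, hlim⟩ := master hM hA (by rw [hb]; exact hL)
  rw [hb] at hlim
  obtain ⟨C, hC, D, M0, hred⟩ := red r1 r2 h1 h2 n g hn hg hgn χ c4 hM.χ_nonneg hM.χ_le hM.χ_even
    (fun a ha => interior_subset (hsupp (subset_tsupport χ (Function.mem_support.mpr ha))))
    hM.χ_supp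
    (fun a ha hE => by
      have h3 : a ∈ {a | χ a = 1} := interior_subset (hone a ha hE)
      exact h3)
    (fun a h3 h4 h5 h6 h7 =>
      (far r1 r2 h1 h2 a h3 h4 h5 h6 (fun h8 => h7 (interior_subset h8))).trans hc2.le)
  refine JLim_comp r1 r2 n g hn hg hgn
    (fun M => ∑' k : Fin 3 → ℤ, (χ (lp M (oo r1 r2 n M) k) : ℂ) *
        FF r1 r2 n g M (rc (lp M (oo r1 r2 n M) k)))
    (Vm (Bs r1 r2) (VV r1 r2) (cp ac bc)) m c4 hS.crit hc4 κ hκ ?_ C hC D M0 hred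
  refine hlim.congr fun M => ?_
  rw [JLim_prod]
  have e : (0 : ℝ) + (Fintype.card (Fin 3) : ℝ) / 2 = 3 / 2 := by
    rw [Fintype.card_fin]
    norm_num
  rw [e]

theorem jlim (r1 r2 : ℤ) (h1 : 2 ≤ |r1|) (h2 : 2 ≤ |r2|) : ∃ y v w c : ℂ, CritG r1 r2 y v w ∧
    c.re = (Vf r1 r2 y v w).re ∧ ∀ n g : ℕ, 2 ≤ n → 1 ≤ g → g ≤ n - 1 →
    ∃ κ : ℂ, κ ≠ 0 ∧ Tendsto (fun M : ℕ => JN r1 r2 n g M /
      (((M : ℝ) ^ (2 * (n : ℝ) - 5 / 2) : ℝ) * exp (M * c))) atTop (𝓝 κ) := by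
  obtain ⟨y, v, w, c, -, -, -, -, -, h⟩ := jlimB r1 r2 h1 h2
  exact ⟨y, v, w, c, h⟩

end Pool.Agent.H63.GO
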