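import Pool.Agent.H63.GO.KDefs

/-! # The block function, `|r| = 2` -/

namespace Pool.Agent.H63.GO

open Complex Filter Topology Pool.Agent.H63.VC Pool.Agent.H63.VC3

/-- Estimate of a square root. -/
private theorem K2_root {a b : ℂ} {E B D : ℝ} (hE : ‖a ^ 2 - b ^ 2‖ ≤ E) (hB : B ≤ 2 * ‖b‖) (_hB0 : 0 ≤ B)
    (hre : 0 ≤ a.re * b.re + a.im * b.im) (_hEB : E ≤ (B / 2) ^ 2) (hD : E < D * (B - D)) (hD0 : 0 ≤ D) : ‖a - b‖ ≤ D := by
  by_contra hcon
  push Not at hcon
  have h1 : ‖a ^ 2 - b ^ 2‖ = ‖a - b‖ * ‖a + b‖ := by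
    rw [← norm_mul]
    congr 1
    ring
  have h2 : ‖a - b‖ ≤ ‖a + b‖ := by
    have h3 : ‖a - b‖ ^ 2 ≤ ‖a + b‖ ^ 2 := by
      rw [← Complex.normSq_eq_norm_sq, ← Complex.normSq_eq_norm_sq, Complex.normSq_apply, Complex.normSq_apply]
      simp only [sub_re, sub_im, add_re, add_im]
      linarith only [hre]
    exact le_of_sq_le_sq h3 (norm_nonneg _) |>.trans_eq rfl
  have h4 : B - ‖a - b‖ ≤ ‖a + b‖ := by
    have h5 : 2 * ‖b‖ = ‖(a + b) - (a - b)‖ := by
      have h6 : (a + b) - (a - b) = 2 * b := by ring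
      rw [h6, norm_mul]
      norm_num
    have h7 := norm_sub_le (a + b) (a - b)
    linarith only [h7, h5, hB]
  have h8 : ‖a - b‖ ^ 2 ≤ E := by
    rw [h1] at hE
    (refine le_of_not_gt fun hng => ?_; linarith only [mul_nonneg (sub_nonneg.2 hE) (sub_nonneg.2 hcon.le),
      mul_nonneg (sub_nonneg.2 hE) (sub_nonneg.2 hD0), mul_pos (sub_pos.2 hng) (sub_pos.2 hcon),
      mul_nonneg (sub_nonneg.2 hng.le) (sub_nonneg.2 hD0),
      mul_nonneg (sq_nonneg (‖a - b‖)) (sub_nonneg.2 h2)])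
  have h9 : ‖a - b‖ ≤ B / 2 := by
    by_contra h10
    push Not at h10
    linarith only [h8, hD, mul_pos (sub_pos.2 hcon) (sub_pos.2 hcon),
      mul_nonneg (sub_nonneg.2 hD0) (sub_nonneg.2 h10.le)]
  have h11 : ‖a - b‖ * (B - ‖a - b‖) ≤ E := by
    rw [h1] at hE
    (refine le_of_not_gt fun hng => ?_; linarith only [mul_nonneg (sub_nonneg.2 hE) (sub_nonneg.2 hcon.le),
      mul_nonneg (sub_nonneg.2 hE) (sub_nonneg.2 hD0), mul_pos (sub_pos.2 hng) (sub_pos.2 hcon),
      mul_nonneg (sub_nonneg.2 hng.le) (sub_nonneg.2 hD0),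
      mul_nonneg (sq_nonneg (‖a - b‖)) (sub_nonneg.2 h4)])
  linarith only [h1, hD, hE, mul_nonneg (sub_nonneg.2 hcon.le) (sub_nonneg.2 h2),
    mul_pos (sub_pos.2 hcon) (sub_pos.2 hcon), mul_nonneg (sub_nonneg.2 hD0) (sub_nonneg.2 h4)]

private theorem K2_sqrt {W : ℂ} (hW : 0 < W.re) : ∃ g : ℂ, g ^ 2 = W ∧ 0 < g.re ∧ |g.im| ≤ g.re := by
  obtain ⟨g, hg⟩ := IsAlgClosed.exists_pow_nat_eq W (by norm_num : 0 < 2)
  have h1 : ∀ g : ℂ, g ^ 2 = W → g.re ^ 2 - g.im ^ 2 = W.re := by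
    intro g hg
    rw [← hg, sq g, mul_re]
    ring
  have h2 : ∀ g : ℂ, g ^ 2 = W → 0 < g.re → |g.im| ≤ g.re := by
    intro g hg hg0
    have h3 := h1 g hg
    apply abs_le_of_sq_le_sq _ hg0.le
    linarith only [h3, hW]
  have h4 : g.re ≠ 0 := by
    intro h5
    have h6 := h1 g hg
    rw [h5] at h6
    linarith only [sq_nonneg g.im, h6, hW]
  rcases lt_or_gt_of_ne h4 with h5 | h5
  · have h6 : (-g) ^ 2 = W := by rw [neg_sq, hg]
    have h7 : 0 < (-g).re := by
      rw [neg_re]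
      linarith only [h5]
    exact ⟨-g, h6, h7, h2 _ h6 h7⟩
  · exact ⟨g, hg, h5, h2 g hg h5⟩

private theorem K2_norm_le {z : ℂ} {c : ℝ} (hc : 0 ≤ c) (h : z.re ^ 2 + z.im ^ 2 ≤ c ^ 2) : ‖z‖ ≤ c := by
  apply le_of_sq_le_sq _ hc
  rw [← Complex.normSq_eq_norm_sq, Complex.normSq_apply]
  linarith only [h]

private theorem K2_le_norm {z : ℂ} {c : ℝ} (h : c ^ 2 ≤ z.re ^ 2 + z.im ^ 2) : c ≤ ‖z‖ := by
  apply le_of_sq_le_sq _ (norm_nonneg z)
  rw [← Complex.normSq_eq_norm_sq, Complex.normSq_apply]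
  linarith only [h]

private noncomputable def K2_kr (s : ℝ) : ℂ := ⟨4370 / 5792, 675 * s / 5792⟩
private noncomputable def K2_qr (s : ℝ) : ℂ := ⟨3933 / 5792, -750 * s / 5792⟩
private noncomputable def K2_gr (s : ℝ) : ℂ := ⟨41017836 / 33547264, 23598000 * s / 33547264⟩
private noncomputable def K2_wr (s : ℝ) : ℂ := ⟨10 / 16, -9 * s / 16⟩

private theorem K2_alg1 {s : ℝ} (hs : s ^ 2 = 1) : K2_kr s ^ 2 + K2_qr s ^ 2 = 1 := by
  apply Complex.ext
  · simp only [K2_kr, K2_qr, sq, add_re, mul_re, one_re]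
    have h : s * s = 1 := by rw [← sq]; exact hs
    linear_combination (-(675 / 5792) ^ 2 - (750 / 5792 : ℝ) ^ 2) * h
  · simp only [K2_kr, K2_qr, sq, add_im, mul_im, one_im]
    ring

private theorem K2_alg2 {s : ℝ} (hs : s ^ 2 = 1) : 4 * K2_kr s ^ 2 - 1 = K2_gr s := by
  have h : s * s = 1 := by rw [← sq]; exact hs
  apply Complex.ext
  · simp only [K2_kr, K2_gr, sq, sub_re, mul_re, mul_im, one_re, re_ofNat, im_ofNat]
    linear_combination (-4 * (675 / 5792 : ℝ) ^ 2) * h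
  · simp only [K2_kr, K2_gr, sq, sub_im, mul_re, mul_im, one_im, re_ofNat, im_ofNat]
    ring

private theorem K2_alg3 {s : ℝ} (hs : s ^ 2 = 1) : K2_kr s - s * I * K2_qr s = K2_wr s := by
  have h : s * s = 1 := by rw [← sq]; exact hs
  apply Complex.ext
  · simp only [K2_kr, K2_qr, K2_wr, sub_re, mul_re, mul_im, ofReal_re, ofReal_im, I_re, I_im]
    linear_combination (-(750 / 5792 : ℝ)) * h
  · simp only [K2_kr, K2_qr, K2_wr, sub_im, mul_re, mul_im, ofReal_re, ofReal_im, I_re, I_im]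
    ring

private theorem K2_exp {s : ℝ} (hs : s = 1 ∨ s = -1) :
    ‖K2_wr s * exp (-(I * Real.pi * (-(s * (2335 / 10000)) + 547 / 10000 * I))) - 1‖ ≤ 8 / 1000 := by
  have hs2 : s ^ 2 = 1 := by rcases hs with rfl | rfl <;> norm_num
  have hss : s * s = 1 := by rw [← sq]; exact hs2
  have hsc : (s : ℂ) * s = 1 := by exact_mod_cast hss
  set x1 : ℂ := ⟨Real.pi * (547 / 10000), -(s * (Real.pi * (165 / 10000)))⟩ with hx1
  have hp1 := Real.pi_gt_d4
  have hp2 := Real.pi_lt_d4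
  have hr1 : (1.4142 : ℝ) < Real.sqrt 2 := by
    rw [Real.lt_sqrt (by norm_num)]
    norm_num
  have hr2 : Real.sqrt 2 < 1.41422 := by
    rw [Real.sqrt_lt' (by norm_num)]
    norm_num
  have h4 : exp (s * Real.pi / 4 * I) = Real.sqrt 2 / 2 * (1 + s * I) := by
    have h5 : (s * Real.pi / 4 * I : ℂ) = ((s * (Real.pi / 4) : ℝ) : ℂ) * I := by push_cast; ring
    rw [h5, exp_mul_I, ← ofReal_cos, ← ofReal_sin]
    rcases hs with rfl | rfl
    · rw [one_mul, Real.cos_pi_div_four, Real.sin_pi_div_four]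
      push_cast
      ring
    · rw [neg_one_mul, Real.cos_neg, Real.sin_neg, Real.cos_pi_div_four, Real.sin_pi_div_four]
      push_cast
      ring
  have h6 : -(I * Real.pi * (-(s * (2335 / 10000)) + 547 / 10000 * I)) = s * Real.pi / 4 * I + x1 := by
    have h7 : x1 = Real.pi * (547 / 10000) - s * (Real.pi * (165 / 10000)) * I := by
      apply Complex.ext <;> simp [hx1]
    rw [h7]
    linear_combination (-(Real.pi : ℂ) * (547 / 10000)) * I_mul_I
  rw [h6, exp_add, h4]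
  have h8 : K2_wr s * (Real.sqrt 2 / 2 * (1 + s * I) * exp x1) = (19 + s * I) * (Real.sqrt 2 / 32) * exp x1 := by
    have h9 : K2_wr s = 10 / 16 - 9 / 16 * s * I := by
      apply Complex.ext <;> simp [K2_wr] <;> ring
    rw [h9]
    linear_combination ((Real.sqrt 2 / 2 : ℂ) * exp x1 * (-(9 / 16)) * (I * I)) * hsc +
      ((Real.sqrt 2 / 2 : ℂ) * exp x1 * (-(9 / 16))) * I_mul_I
  rw [h8]
  have hxn : ‖x1‖ ≤ 18 / 100 := by
    apply K2_norm_le (by norm_num)
    simp only [hx1]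
    have h9 : (-(s * (Real.pi * (165 / 10000)))) ^ 2 = (Real.pi * (165 / 10000)) ^ 2 := by
      rw [neg_sq, mul_pow, hs2, one_mul]
    rw [h9]
    (refine le_of_not_gt fun hng => ?_; linarith only [hp2, hp1,
      mul_pos (sub_pos.2 hp1) (sub_pos.2 hp2), mul_pos (sub_pos.2 hng) (sub_pos.2 hp2),
      mul_pos (sub_pos.2 hng) (sub_pos.2 hp1)])
  have hb := Complex.exp_bound (x := x1) (by linarith only [hxn, hp2, hp1]) (n := 3) (by norm_num)
  have hsum : ∑ m ∈ Finset.range 3, x1 ^ m / (m.factorial : ℂ) = 1 + x1 + x1 ^ 2 / 2 := by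
    simp [Finset.sum_range_succ, Nat.factorial]
  rw [hsum] at hb
  have hb2 : ‖exp x1 - (1 + x1 + x1 ^ 2 / 2)‖ ≤ 13 / 10000 := by
    refine hb.trans ?_
    have h9 : ‖x1‖ ^ 3 ≤ (18 / 100) ^ 3 := pow_le_pow_left₀ (norm_nonneg _) hxn 3
    norm_num [Nat.factorial] at h9 ⊢
    linarith only [h9, hp2, hp1]
  have hfac : ‖(19 + s * I : ℂ) * (Real.sqrt 2 / 32)‖ ≤ 9 / 10 := by
    have h9 : (19 + s * I : ℂ) * (Real.sqrt 2 / 32) = ⟨19 * (Real.sqrt 2 / 32), s * (Real.sqrt 2 / 32)⟩ := by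
      apply Complex.ext <;> simp
    rw [h9]
    apply K2_norm_le (by norm_num)
    simp only
    rw [mul_pow s, hs2]
    (refine le_of_not_gt fun hng => ?_; linarith only [hr2, mul_pos (sub_pos.2 hr1) (sub_pos.2 hr2),
      mul_pos (sub_pos.2 hp2) (sub_pos.2 hp2), mul_pos (sub_pos.2 hp1) (sub_pos.2 hp2),
      mul_pos (sub_pos.2 hp1) (sub_pos.2 hp1), mul_pos (sub_pos.2 hng) (sub_pos.2 hp2),
      mul_pos (sub_pos.2 hng) (sub_pos.2 hp1)])
  have hP : ‖(19 + s * I : ℂ) * (Real.sqrt 2 / 32) * (1 + x1 + x1 ^ 2 / 2) - 1‖ ≤ 6 / 1000 := by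
    set a : ℝ := 1 + Real.pi * (547 / 10000) + ((Real.pi * (547 / 10000)) ^ 2 - (Real.pi * (165 / 10000)) ^ 2) / 2 with ha
    set b : ℝ := Real.pi * (165 / 10000) + (Real.pi * (547 / 10000)) * (Real.pi * (165 / 10000)) with hb'
    have h9 : (1 + x1 + x1 ^ 2 / 2 : ℂ) = ⟨a, -(s * b)⟩ := by
      have h10 : x1 ^ 2 / 2 = ⟨((Real.pi * (547 / 10000)) ^ 2 - (Real.pi * (165 / 10000)) ^ 2) / 2,
          -(s * ((Real.pi * (547 / 10000)) * (Real.pi * (165 / 10000))))⟩ := by
        have h11 : x1 ^ 2 = ⟨(Real.pi * (547 / 10000)) ^ 2 - (Real.pi * (165 / 10000)) ^ 2,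
            -(s * (2 * ((Real.pi * (547 / 10000)) * (Real.pi * (165 / 10000)))))⟩ := by
          rw [sq x1, hx1]
          apply Complex.ext
          · simp only [mul_re]
            linear_combination (-(Real.pi * (165 / 10000)) ^ 2) * hss
          · simp only [mul_im]
            ring
        rw [h11]
        apply Complex.ext
        · simp
        · simp
          ring
      rw [h10, hx1]
      apply Complex.ext
      · simp [ha]
      · simp [hb']
        ring
    rw [h9]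
    have h12 : (19 + s * I : ℂ) * (Real.sqrt 2 / 32) * ⟨a, -(s * b)⟩ - 1 =
        ⟨Real.sqrt 2 / 32 * (19 * a + b) - 1, s * (Real.sqrt 2 / 32 * (a - 19 * b))⟩ := by
      apply Complex.ext
      · simp
        linear_combination (Real.sqrt 2 / 32 * b) * hss
      · simp
        ring
    rw [h12]
    have hpp1 : (3.1415 : ℝ) * 3.1415 ≤ Real.pi * Real.pi := mul_le_mul hp1.le hp1.le (by norm_num) Real.pi_pos.le
    have hpp2 : Real.pi * Real.pi ≤ 3.1416 * 3.1416 := mul_le_mul hp2.le hp2.le Real.pi_pos.le (by norm_num)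
    have ha0 : a = 1 + Real.pi * (547 / 10000) + Real.pi * Real.pi * (271984 / 200000000) := by
      rw [ha]
      ring
    have hb0 : b = Real.pi * (165 / 10000) + Real.pi * Real.pi * (90255 / 100000000) := by
      rw [hb']
      ring
    have ha1 : 1.185 ≤ a := by
      rw [ha0]
      linarith only [hpp1, hp2, hp1]
    have ha2 : a ≤ 1.1855 := by
      rw [ha0]
      linarith only [hpp2, hp2, hp1]
    have hb1 : 0.0607 ≤ b := by
      rw [hb0]
      linarith only [hpp1, hp2, hp1]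
    have hb3 : b ≤ 0.0608 := by
      rw [hb0]
      linarith only [hpp2, hp2, hp1]
    apply K2_norm_le (by norm_num)
    simp only
    rw [mul_pow s, hs2, one_mul]
    have h17 : (1.4142 : ℝ) * 22.5757 ≤ Real.sqrt 2 * (19 * a + b) :=
      mul_le_mul hr1.le (by linarith only [hpp1, hb', ha, hp2, hp1]) (by norm_num) (Real.sqrt_nonneg 2)
    have h18 : Real.sqrt 2 * (19 * a + b) ≤ (1.41422 : ℝ) * 22.5853 :=
      mul_le_mul hr2.le (by linarith only [hpp2, hb', ha, hp2, hp1]) (by linarith only [hpp1, hb',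
                                                                           ha, hp2, hp1]) (by norm_num)
    have h19 : |a - 19 * b| ≤ 0.0322 := by
      rw [abs_le]
      constructor <;> linarith
    have h20 : |Real.sqrt 2 * (a - 19 * b)| ≤ 1.41422 * 0.0322 := by
      rw [abs_mul, abs_of_nonneg (Real.sqrt_nonneg 2)]
      exact mul_le_mul hr2.le h19 (abs_nonneg _) (by norm_num)
    have h13 : |Real.sqrt 2 / 32 * (19 * a + b) - 1| ≤ 4 / 1000 := by
      rw [abs_le]
      constructor <;> linarith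
    have h14 : |Real.sqrt 2 / 32 * (a - 19 * b)| ≤ 3 / 1000 := by
      rw [abs_le] at h20 ⊢
      constructor <;> linarith
    have h15 := sq_le_sq' (abs_le.1 h13).1 (abs_le.1 h13).2
    have h16 := sq_le_sq' (abs_le.1 h14).1 (abs_le.1 h14).2
    linarith only [h16, h15, hp2, hp1]
  calc ‖(19 + s * I : ℂ) * (Real.sqrt 2 / 32) * exp x1 - 1‖
      = ‖((19 + s * I : ℂ) * (Real.sqrt 2 / 32) * (1 + x1 + x1 ^ 2 / 2) - 1) +
        (19 + s * I : ℂ) * (Real.sqrt 2 / 32) * (exp x1 - (1 + x1 + x1 ^ 2 / 2))‖ := by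
        congr 1
        ring
    _ ≤ 6 / 1000 + 9 / 10 * (13 / 10000) := by
        refine (norm_add_le _ _).trans (add_le_add hP ?_)
        rw [norm_mul]
        exact mul_le_mul hfac hb2 (norm_nonneg _) (by norm_num)
    _ ≤ 8 / 1000 := by norm_num

private theorem K2_tail {s : ℝ} (hs : s = 1 ∨ s = -1) {κ q : ℂ} (hκq : κ ^ 2 + q ^ 2 = 1)
    (hE1 : ‖κ ^ 2 - K2_kr s ^ 2‖ ≤ 0.0355) (hκn : ‖κ - K2_kr s‖ ≤ 237 / 10000)
    (hqn : ‖q - K2_qr s‖ ≤ 262 / 10000) (hk1 : (0.7634 : ℝ) ≤ ‖K2_kr s‖) (hk2 : ‖K2_kr s‖ ≤ 0.7635)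
    (hq1 : (0.69125 : ℝ) ≤ ‖K2_qr s‖) (hq2 : ‖K2_qr s‖ ≤ 0.6913) :
    ∃ v : ℂ, cos (Real.pi * v) = κ ∧ ‖v + s * (2335 / 10000) - 547 / 10000 * I‖ ≤ 15 / 1000 := by
  have hs2 : s ^ 2 = 1 := by rcases hs with rfl | rfl <;> norm_num
  have hss : s * s = 1 := by rw [← sq]; exact hs2
  have hsc : (s : ℂ) * s = 1 := by exact_mod_cast hss
  have hsa : |s| = 1 := by rcases hs with rfl | rfl <;> norm_num
  have hsn : ‖(s : ℂ)‖ = 1 := by rw [norm_real, Real.norm_eq_abs, hsa]
  have halg := K2_alg1 hs2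
  set kr := K2_kr s with hkr
  set qr := K2_qr s with hqr
  -- `w = exp (i π v)`
  set w : ℂ := κ - s * I * q with hw
  have hww : w * (κ + s * I * q) = 1 := by
    rw [hw]
    linear_combination hκq - q ^ 2 * (s * s : ℂ) * I_mul_I + q ^ 2 * hsc
  have hw0 : w ≠ 0 := left_ne_zero_of_mul_eq_one hww
  have hwinv : w⁻¹ = κ + s * I * q := inv_eq_of_mul_eq_one_right hww
  set A : ℂ := κ * kr + q * qr with hA
  set B : ℂ := q * kr - κ * qr with hB
  have hAB : A ^ 2 + B ^ 2 = 1 := by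
    rw [hA, hB]
    linear_combination (kr ^ 2 + qr ^ 2) * hκq + halg
  have hB1 : B * (q * kr + κ * qr) = -(κ ^ 2 - kr ^ 2) := by
    rw [hB]
    linear_combination kr ^ 2 * hκq - κ ^ 2 * halg
  have hB2 : (1.0189 : ℝ) ≤ ‖q * kr + κ * qr‖ := by
    have h1 : q * kr + κ * qr = 2 * (kr * qr) + ((q - qr) * kr + (κ - kr) * qr) := by ring
    have h2 : ‖(q - qr) * kr + (κ - kr) * qr‖ ≤ 262 / 10000 * 0.7635 + 237 / 10000 * 0.6913 := by
      refine (norm_add_le _ _).trans (add_le_add ?_ ?_)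
      · rw [norm_mul]
        exact mul_le_mul hqn hk2 (norm_nonneg _) (by norm_num)
      · rw [norm_mul]
        exact mul_le_mul hκn hq2 (norm_nonneg _) (by norm_num)
    have h3 : 2 * (0.7634 * 0.69125 : ℝ) ≤ ‖2 * (kr * qr)‖ := by
      rw [norm_mul, norm_mul, Complex.norm_ofNat]
      have h4 : (0.7634 * 0.69125 : ℝ) ≤ ‖kr‖ * ‖qr‖ := mul_le_mul hk1 hq1 (by norm_num) (norm_nonneg _)
      linarith only [h4]
    have h5 : ‖2 * (kr * qr)‖ ≤ ‖q * kr + κ * qr‖ + ‖(q - qr) * kr + (κ - kr) * qr‖ := by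
      have h6 := norm_sub_le (q * kr + κ * qr) ((q - qr) * kr + (κ - kr) * qr)
      have h7 : q * kr + κ * qr - ((q - qr) * kr + (κ - kr) * qr) = 2 * (kr * qr) := by ring
      rw [h7] at h6
      exact h6
    linarith only [h5, h3, h2]
  have hBn : ‖B‖ ≤ 0.0349 := by
    have h1 : ‖B‖ * ‖q * kr + κ * qr‖ ≤ 0.0355 := by
      rw [← norm_mul, hB1, norm_neg]
      exact hE1
    by_contra h2
    push Not at h2
    have h3 : (0.0349 : ℝ) * 1.0189 ≤ ‖B‖ * ‖q * kr + κ * qr‖ := mul_le_mul h2.le hB2 (by norm_num) (norm_nonneg _)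
    norm_num at h1 h3
    linarith only [h3, h1]
  have hA1 : ‖A - 1‖ ≤ 0.0363 := by
    have h1 : A - 1 = (κ - kr) * kr + (q - qr) * qr := by
      rw [hA]
      linear_combination halg
    rw [h1]
    have h2 : ‖(κ - kr) * kr + (q - qr) * qr‖ ≤ 237 / 10000 * 0.7635 + 262 / 10000 * 0.6913 := by
      refine (norm_add_le _ _).trans (add_le_add ?_ ?_)
      · rw [norm_mul]
        exact mul_le_mul hκn hk2 (norm_nonneg _) (by norm_num)
      · rw [norm_mul]
        exact mul_le_mul hqn hq2 (norm_nonneg _) (by norm_num)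
    norm_num at h2 ⊢
    linarith only [h2]
  have hA2 : ‖A - 1‖ ≤ 0.00063 := by
    have h1 : (A - 1) * (A + 1) = -B ^ 2 := by linear_combination hAB
    have h2 : (1.9637 : ℝ) ≤ ‖A + 1‖ := by
      have h3 : (A + 1) - (A - 1) = 2 := by ring
      have h4 := norm_sub_le (A + 1) (A - 1)
      rw [h3, Complex.norm_ofNat] at h4
      norm_num at h4 hA1 ⊢
      linarith only [hA1, h4]
    have h5 : ‖A - 1‖ * ‖A + 1‖ = ‖B‖ ^ 2 := by
      rw [← norm_mul, h1, norm_neg, norm_pow]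
    have h6 : ‖B‖ ^ 2 ≤ 0.0349 ^ 2 := pow_le_pow_left₀ (norm_nonneg _) hBn 2
    by_contra h7
    push Not at h7
    have h8 : (0.00063 : ℝ) * 1.9637 ≤ ‖A - 1‖ * ‖A + 1‖ := mul_le_mul h7.le h2 (by norm_num) (norm_nonneg _)
    rw [h5] at h8
    norm_num at h6 h8
    linarith only [h8, h6]
  set x : ℂ := (A - 1) - s * I * B with hx
  have hxn : ‖x‖ ≤ 0.03553 := by
    have h1 : ‖s * I * B‖ ≤ 0.0349 := by
      rw [norm_mul, norm_mul, hsn, norm_I]
      linarith only [hBn]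
    have h2 := norm_sub_le (A - 1) (s * I * B)
    norm_num at h1 h2 hA2 ⊢
    linarith only [hA2, h2, h1]
  have hx1 : 1 + x = w * (kr + s * I * qr) := by
    rw [hx, hw, hA, hB]
    linear_combination (-q * qr) * hsc + (q * qr * (s * s : ℂ)) * I_mul_I
  have hwr : K2_wr s * (kr + s * I * qr) = 1 := by
    rw [← K2_alg3 hs2, ← hkr, ← hqr]
    linear_combination halg - qr ^ 2 * (s * s : ℂ) * I_mul_I + qr ^ 2 * hsc
  have hwx : w = (1 + x) * K2_wr s := by
    rw [hx1]
    linear_combination (-w) * hwr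
  set v0 : ℂ := -(s * (2335 / 10000)) + 547 / 10000 * I with hv0
  set y : ℂ := K2_wr s * exp (-(I * Real.pi * v0)) - 1 with hy
  have hyn : ‖y‖ ≤ 8 / 1000 := K2_exp hs
  set T : ℂ := x + y + x * y with hT
  have hTw : 1 + T = w * exp (-(I * Real.pi * v0)) := by
    rw [hT, hwx, hy]
    ring
  have hTn : ‖T‖ ≤ 0.044 := by
    have h1 : ‖x * y‖ ≤ 0.03553 * (8 / 1000) := by
      rw [norm_mul]
      exact mul_le_mul hxn hyn (norm_nonneg _) (by norm_num)
    have h2 := norm_add_le (x + y) (x * y)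
    have h3 := norm_add_le x y
    linarith only [h3, h2, h1, hyn, hxn]
  have hT1 : 1 + T ≠ 0 := by
    rw [hTw]
    exact mul_ne_zero hw0 (exp_ne_zero _)
  have hlog : ‖log (1 + T)‖ ≤ 0.0451 := by
    have h1 := Complex.norm_log_one_add_le (z := T) (by linarith only [hTn])
    refine h1.trans ?_
    have h2 : (1 - ‖T‖)⁻¹ ≤ (0.956)⁻¹ := by
      apply inv_anti₀ (by norm_num)
      norm_num at hTn ⊢
      linarith only [hTn]
    have h3 : ‖T‖ ^ 2 ≤ 0.044 ^ 2 := pow_le_pow_left₀ (norm_nonneg _) hTn 2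
    have h4 : ‖T‖ ^ 2 * (1 - ‖T‖)⁻¹ ≤ 0.044 ^ 2 * (0.956)⁻¹ :=
      mul_le_mul h3 h2 (inv_nonneg.2 (by linarith only [hTn])) (by norm_num)
    norm_num at h4 hTn ⊢
    linarith only [hTn, h4]
  have hpi : (Real.pi : ℂ) ≠ 0 := by exact_mod_cast Real.pi_ne_zero
  refine ⟨v0 + log (1 + T) / (I * Real.pi), ?_, ?_⟩
  · have h1 : exp (Real.pi * (v0 + log (1 + T) / (I * Real.pi)) * I) = w := by
      have h2 : (Real.pi * (v0 + log (1 + T) / (I * Real.pi)) * I : ℂ) = I * Real.pi * v0 + log (1 + T) := by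
        field_simp
      rw [h2, exp_add, exp_log hT1, hTw, exp_neg]
      field_simp
    have h3 : exp (-(Real.pi * (v0 + log (1 + T) / (I * Real.pi))) * I) = κ + s * I * q := by
      rw [neg_mul, exp_neg, h1, hwinv]
    unfold Complex.cos
    rw [h1, h3, hw]
    ring
  · have h1 : v0 + log (1 + T) / (I * Real.pi) + s * (2335 / 10000) - 547 / 10000 * I =
        log (1 + T) / (I * Real.pi) := by
      rw [hv0]
      ring
    rw [h1, norm_div, norm_mul, norm_I, one_mul, norm_real, Real.norm_eq_abs, abs_of_pos Real.pi_pos,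
      div_le_iff₀ Real.pi_pos]
    have h2 := Real.pi_gt_d4
    norm_num at hlog h2 ⊢
    linarith only [h2, hlog]

/-- The solution for one `k`. -/
private structure K2_Sol (s : ℝ) (k v g : ℂ) : Prop where
  gsq : g ^ 2 = 1 + 2 * s * I * k
  gre : 0 < g.re
  gnear : ‖g - K2_gr s‖ ≤ 142 / 1000
  ksq : 4 * cos (Real.pi * v) ^ 2 - 1 = g
  knear : ‖cos (Real.pi * v) - K2_kr s‖ ≤ 237 / 10000
  vnear : ‖v + s * (2335 / 10000) - 547 / 10000 * I‖ ≤ 15 / 1000

private theorem K2_main {s : ℝ} (hs : s = 1 ∨ s = -1) {k : ℂ} (hk : ‖k - 85 / 100‖ ≤ 18 / 100) :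
    ∃ v g : ℂ, K2_Sol s k v g := by
  have hs2 : s ^ 2 = 1 := by rcases hs with rfl | rfl <;> norm_num
  have hss : s * s = 1 := by rw [← sq]; exact hs2
  have hsc : (s : ℂ) * s = 1 := by exact_mod_cast hss
  have hsa : |s| = 1 := by rcases hs with rfl | rfl <;> norm_num
  have hsn : ‖(s : ℂ)‖ = 1 := by rw [norm_real, Real.norm_eq_abs, hsa]
  -- the square root `g`
  have hki : |k.im| ≤ 18 / 100 := by
    have h1 := abs_im_le_norm (k - 85 / 100)
    have h2 : (k - 85 / 100).im = k.im := by simp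
    rw [h2] at h1
    exact h1.trans hk
  have hW : 0 < (1 + 2 * s * I * k).re := by
    have h1 : (1 + 2 * s * I * k).re = 1 - 2 * (s * k.im) := by
      simp [mul_re]
      ring
    rw [h1]
    have h2 : |s * k.im| ≤ 18 / 100 := by rw [abs_mul, hsa, one_mul]; exact hki
    linarith only [(abs_le.1 h2).2]
  obtain ⟨g, hg, hg0, hgi⟩ := K2_sqrt hW
  have hgrre : (K2_gr s).re = 41017836 / 33547264 := rfl
  have hgrim : (K2_gr s).im = 23598000 * s / 33547264 := rfl
  have hgrn : (2.8211 : ℝ) ≤ 2 * ‖K2_gr s‖ := by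
    have h1 : (2.8211 / 2 : ℝ) ≤ ‖K2_gr s‖ := by
      apply K2_le_norm
      rw [hgrre, hgrim]
      have h2 : (23598000 * s / 33547264) ^ 2 = (23598000 / 33547264 : ℝ) ^ 2 := by
        rw [mul_div_right_comm, mul_pow, hs2, mul_one]
      rw [h2]
      norm_num
    linarith only [h1]
  have hgnear : ‖g - K2_gr s‖ ≤ 142 / 1000 := by
    refine K2_root (E := 0.3802) (B := 2.8211) ?_ hgrn (by norm_num) ?_ (by norm_num) (by norm_num) (by norm_num)
    · have h1 : g ^ 2 - K2_gr s ^ 2 = 2 * s * I * (k - 85 / 100) + (1 + 17 / 10 * s * I - K2_gr s ^ 2) := by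
        rw [hg]
        ring
      rw [h1]
      refine (norm_add_le _ _).trans ?_
      have h2 : ‖2 * s * I * (k - 85 / 100)‖ ≤ 2 * (18 / 100) := by
        rw [norm_mul, norm_mul, norm_mul, hsn, norm_I]
        norm_num at hk ⊢
        linarith only [hk]
      have h3 : ‖1 + 17 / 10 * s * I - K2_gr s ^ 2‖ ≤ 0.0202 := by
        have h4 : 1 + 17 / 10 * s * I - K2_gr s ^ 2 = ⟨1 - ((41017836 / 33547264) ^ 2 - (23598000 / 33547264) ^ 2),
            s * (17 / 10 - 2 * (41017836 / 33547264) * (23598000 / 33547264))⟩ := by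
          rw [sq (K2_gr s)]
          apply Complex.ext
          · simp only [sub_re, add_re, mul_re, mul_im, one_re, ofReal_re, ofReal_im, I_re, I_im, hgrre, hgrim]
            norm_num
            linear_combination ((23598000 / 33547264 : ℝ) ^ 2) * hss
          · simp only [sub_im, add_im, mul_re, mul_im, one_im, ofReal_re, ofReal_im, I_re, I_im, hgrre, hgrim]
            norm_num
            ring
        rw [h4]
        apply K2_norm_le (by norm_num)
        simp only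
        rw [mul_pow s, hs2]
        norm_num
      linarith only [h3, h2]
    · rw [hgrre, hgrim]
      have h1 : |g.im * (23598000 * s / 33547264)| ≤ g.re * (41017836 / 33547264) := by
        rw [abs_mul]
        have h2 : |23598000 * s / 33547264| ≤ 41017836 / 33547264 := by
          rw [abs_div, abs_mul, hsa]
          norm_num
        exact mul_le_mul hgi h2 (abs_nonneg _) hg0.le
      linarith only [(abs_le.1 h1).1]
  have hgre2 : g.re ≤ 1.37 := by
    have h1 := abs_re_le_norm (g - K2_gr s)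
    rw [sub_re, hgrre] at h1
    have h2 := (abs_le.1 (h1.trans hgnear)).2
    norm_num at h2 ⊢
    linarith only [h2]
  -- the cosine
  have hW1 : 0 < ((1 + g) / 4).re := by
    have h1 : ((1 + g) / 4).re = (1 + g.re) / 4 := by simp
    rw [h1]
    linarith only [hg0]
  obtain ⟨κ, hκ, hκ0, hκi⟩ := K2_sqrt hW1
  have hkrre : (K2_kr s).re = 4370 / 5792 := rfl
  have hkrim : (K2_kr s).im = 675 * s / 5792 := rfl
  have hkrn1 : (0.7634 : ℝ) ≤ ‖K2_kr s‖ := by
    apply K2_le_norm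
    rw [hkrre, hkrim]
    have h2 : (675 * s / 5792) ^ 2 = (675 / 5792 : ℝ) ^ 2 := by
      rw [mul_div_right_comm, mul_pow, hs2, mul_one]
    rw [h2]
    norm_num
  have hkrn2 : ‖K2_kr s‖ ≤ 0.7635 := by
    apply K2_norm_le (by norm_num)
    rw [hkrre, hkrim]
    have h2 : (675 * s / 5792) ^ 2 = (675 / 5792 : ℝ) ^ 2 := by
      rw [mul_div_right_comm, mul_pow, hs2, mul_one]
    rw [h2]
    norm_num
  have hE1 : ‖κ ^ 2 - K2_kr s ^ 2‖ ≤ 0.0355 := by
    have h1 : κ ^ 2 - K2_kr s ^ 2 = (g - K2_gr s) / 4 := by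
      rw [hκ, ← K2_alg2 hs2]
      ring
    rw [h1, norm_div]
    norm_num
    linarith only [hgnear]
  have hknear : ‖κ - K2_kr s‖ ≤ 237 / 10000 := by
    refine K2_root (E := 0.0355) (B := 1.5268) hE1 (by linarith only [hkrn1]) (by norm_num) ?_ (by norm_num) (by norm_num) (by norm_num)
    rw [hkrre, hkrim]
    have h1 : |κ.im * (675 * s / 5792)| ≤ κ.re * (4370 / 5792) := by
      rw [abs_mul]
      have h2 : |675 * s / 5792| ≤ 4370 / 5792 := by
        rw [abs_div, abs_mul, hsa]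
        norm_num
      exact mul_le_mul hκi h2 (abs_nonneg _) hκ0.le
    linarith only [(abs_le.1 h1).1]
  -- the sine
  have hW2 : 0 < (1 - κ ^ 2).re := by
    have h1 : (1 - κ ^ 2).re = (3 - g.re) / 4 := by
      rw [hκ]
      simp
      ring
    rw [h1]
    linarith only [hgre2]
  obtain ⟨q, hq, hq0, hqi⟩ := K2_sqrt hW2
  have hqrre : (K2_qr s).re = 3933 / 5792 := rfl
  have hqrim : (K2_qr s).im = -750 * s / 5792 := rfl
  have hqrn1 : (0.69125 : ℝ) ≤ ‖K2_qr s‖ := by
    apply K2_le_norm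
    rw [hqrre, hqrim]
    have h2 : (-750 * s / 5792) ^ 2 = (750 / 5792 : ℝ) ^ 2 := by
      rw [mul_div_right_comm, mul_pow, hs2, mul_one]
      norm_num
    rw [h2]
    norm_num
  have hqrn2 : ‖K2_qr s‖ ≤ 0.6913 := by
    apply K2_norm_le (by norm_num)
    rw [hqrre, hqrim]
    have h2 : (-750 * s / 5792) ^ 2 = (750 / 5792 : ℝ) ^ 2 := by
      rw [mul_div_right_comm, mul_pow, hs2, mul_one]
      norm_num
    rw [h2]
    norm_num
  have halg := K2_alg1 hs2
  have hE2 : ‖q ^ 2 - K2_qr s ^ 2‖ ≤ 0.0355 := by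
    have h1 : q ^ 2 - K2_qr s ^ 2 = -(κ ^ 2 - K2_kr s ^ 2) := by
      rw [hq]
      linear_combination (-1) * halg
    rw [h1, norm_neg]
    exact hE1
  have hqnear : ‖q - K2_qr s‖ ≤ 262 / 10000 := by
    refine K2_root (E := 0.0355) (B := 1.3825) hE2 (by linarith only [hqrn1]) (by norm_num) ?_ (by norm_num) (by norm_num) (by norm_num)
    rw [hqrre, hqrim]
    have h1 : |q.im * (-750 * s / 5792)| ≤ q.re * (3933 / 5792) := by
      rw [abs_mul]
      have h2 : |-750 * s / 5792| ≤ 3933 / 5792 := by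
        rw [abs_div, abs_mul, hsa]
        norm_num
      exact mul_le_mul hqi h2 (abs_nonneg _) hq0.le
    linarith only [(abs_le.1 h1).1]
  have hκq : κ ^ 2 + q ^ 2 = 1 := by rw [hq]; ring
  obtain ⟨v, hv1, hv2⟩ := K2_tail hs hκq hE1 hknear hqnear hkrn1 hkrn2 hqrn1 hqrn2
  refine ⟨v, g, hg, hg0, hgnear, ?_, ?_, hv2⟩
  · rw [hv1, hκ]
    ring
  · rw [hv1]
    exact hknear

/-- **The block function for `|r| = 2`.** -/
theorem blk2 (r : ℤ) (hr : |r| = 2) : ∃ f : ℂ → ℂ, (∀ k ∈ Om, Blk r (f k) k) ∧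
    ∀ k ∈ Om, ∀ k' ∈ Om, ‖cos (Real.pi * f k) - cos (Real.pi * f k')‖ ≤ 1 / 2 * ‖k - k'‖ := by
  obtain ⟨s, hs, hrs⟩ : ∃ s : ℝ, (s = 1 ∨ s = -1) ∧ (r : ℂ) = 2 * s := by
    rcases (abs_eq (by norm_num : (0 : ℤ) ≤ 2)).1 hr with rfl | rfl
    · exact ⟨1, Or.inl rfl, by norm_num⟩
    · exact ⟨-1, Or.inr rfl, by norm_num⟩
  have hs2 : s ^ 2 = 1 := by rcases hs with rfl | rfl <;> norm_num
  have hss : s * s = 1 := by rw [← sq]; exact hs2
  have hsc : (s : ℂ) * s = 1 := by exact_mod_cast hss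
  have hsa : |s| = 1 := by rcases hs with rfl | rfl <;> norm_num
  have hsn : ‖(s : ℂ)‖ = 1 := by rw [norm_real, Real.norm_eq_abs, hsa]
  have hex : ∀ k : ℂ, ∃ v g : ℂ, k ∈ Om → K2_Sol s k v g := by
    intro k
    by_cases hk : k ∈ Om
    · have hk2 : ‖k - 85 / 100‖ ≤ 18 / 100 := by
        have h1 := hk
        rw [Om, Metric.mem_closedBall, dist_eq_norm] at h1
        exact h1
      obtain ⟨v, g, h⟩ := K2_main hs hk2
      exact ⟨v, g, fun _ => h⟩
    · exact ⟨0, 0, fun h => absurd h hk⟩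
  choose f G hfG using hex
  have hgrre : (K2_gr s).re = 41017836 / 33547264 := rfl
  have hkrre : (K2_kr s).re = 4370 / 5792 := rfl
  have hkrim : (K2_kr s).im = 675 * s / 5792 := rfl
  have hGre : ∀ k ∈ Om, 1.08 ≤ (G k).re := by
    intro k hk
    have h1 := abs_re_le_norm (G k - K2_gr s)
    rw [sub_re, hgrre] at h1
    have h2 := (abs_le.1 (h1.trans (hfG k hk).gnear)).1
    norm_num at h2 ⊢
    linarith only [h2]
  have hκre : ∀ k ∈ Om, 0.73 ≤ (cos (Real.pi * f k)).re := by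
    intro k hk
    have h1 := abs_re_le_norm (cos (Real.pi * f k) - K2_kr s)
    rw [sub_re, hkrre] at h1
    have h2 := (abs_le.1 (h1.trans (hfG k hk).knear)).1
    norm_num at h2 ⊢
    linarith only [h2]
  refine ⟨f, ?_, ?_⟩
  · intro k hk
    have hS := hfG k hk
    set θ : ℂ := Real.pi * f k with hθ
    have hk2 : |k.im| ≤ 18 / 100 := by
      have h1 := abs_im_le_norm (k - 85 / 100)
      have h2 : (k - 85 / 100).im = k.im := by simp
      rw [h2] at h1
      refine h1.trans ?_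
      have h3 := hk
      rw [Om, Metric.mem_closedBall, dist_eq_norm] at h3
      exact h3
    have hksq := hS.ksq
    have hgsq := hS.gsq
    have harg : (2 * Real.pi * r * f k : ℂ) = s * (4 * θ) := by
      rw [hrs, hθ]
      ring
    have hsin4 : sin (4 * θ) = 4 * sin θ * cos θ * (2 * cos θ ^ 2 - 1) := by
      have h1 : 4 * θ = 2 * (2 * θ) := by ring
      rw [h1, sin_two_mul, sin_two_mul, cos_two_mul]
      ring
    have hcos4 : cos (4 * θ) = 2 * (2 * cos θ ^ 2 - 1) ^ 2 - 1 := by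
      have h1 : 4 * θ = 2 * (2 * θ) := by ring
      rw [h1, cos_two_mul, cos_two_mul]
    have hsins : sin (2 * Real.pi * r * f k) = s * sin (4 * θ) := by
      rw [harg]
      rcases hs with rfl | rfl
      · simp
      · simp
    have hcoss : cos (2 * Real.pi * r * f k) = cos (4 * θ) := by
      rw [harg]
      rcases hs with rfl | rfl
      · simp
      · simp
    have hκ4 : 8 * cos θ ^ 4 - 4 * cos θ ^ 2 = s * I * k := by
      have h1 : (4 * cos θ ^ 2 - 1) ^ 2 = 1 + 2 * s * I * k := by rw [hksq, hgsq]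
      linear_combination (1 / 2 : ℂ) * h1
    refine ⟨?_, ?_, ?_, ?_, ?_, ?_, ?_⟩
    · rw [hsins, hsin4]
      linear_combination (s * sin θ) * hκ4 + sin θ * I * k * hsc
    · rw [hcoss, hcos4]
      have h1 : 2 * (2 * cos θ ^ 2 - 1) ^ 2 - 1 = s * I * k - G k := by
        rw [← hksq]
        linear_combination hκ4
      rw [h1]
      have h2 : (s * I * k - G k).re = -(s * k.im) - (G k).re := by
        simp [mul_re]
      rw [h2]
      have h3 : |s * k.im| ≤ 18 / 100 := by rw [abs_mul, hsa, one_mul]; exact hk2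
      have h4 := hGre k hk
      have h5 := (abs_le.1 h3).1
      norm_num at h4 h5 ⊢
      linarith only [h5, h4]
    · rw [Om, Metric.mem_closedBall, dist_eq_norm]
      have h1 : cos θ - 85 / 100 = (cos θ - K2_kr s) + (K2_kr s - 85 / 100) := by ring
      rw [h1]
      refine (norm_add_le _ _).trans ?_
      have h2 : ‖K2_kr s - 85 / 100‖ ≤ 151 / 1000 := by
        have h3 : K2_kr s - 85 / 100 = ⟨4370 / 5792 - 85 / 100, 675 * s / 5792⟩ := by
          apply Complex.ext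
          · rw [sub_re, hkrre]
            norm_num
          · rw [sub_im, hkrim]
            norm_num
        rw [h3]
        apply K2_norm_le (by norm_num)
        simp only
        have h2 : (675 * s / 5792) ^ 2 = (675 / 5792 : ℝ) ^ 2 := by
          rw [mul_div_right_comm, mul_pow, hs2, mul_one]
        rw [h2]
        norm_num
      have h4 := hS.knear
      linarith only [h4, h2]
    · intro h3
      rw [hr] at h3
      norm_num at h3
    · intro _
      have h1 : (r / 2 : ℂ) = s := by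
        rw [hrs]
        ring
      rw [h1]
      exact hS.vnear
    · intro _
      rw [hksq, hgsq, hrs]
    · rw [hksq]
      exact hS.gre
  · intro k hk k' hk'
    have hS := hfG k hk
    have hS' := hfG k' hk'
    have h1 : (G k - G k') * (G k + G k') = 2 * s * I * (k - k') := by
      linear_combination hS.gsq - hS'.gsq
    have h2 : ‖G k - G k'‖ * ‖G k + G k'‖ = 2 * ‖k - k'‖ := by
      rw [← norm_mul, h1, norm_mul, norm_mul, norm_mul, hsn, norm_I, Complex.norm_ofNat]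
      ring
    have h3 : (2 : ℝ) ≤ ‖G k + G k'‖ := by
      have h4 := Complex.re_le_norm (G k + G k')
      rw [add_re] at h4
      have h5 := hGre k hk
      have h6 := hGre k' hk'
      linarith only [h6, h5, h4]
    have h4 : ‖G k - G k'‖ ≤ ‖k - k'‖ := by
      linarith only [h2, mul_nonneg (sub_nonneg.2 h3) (sub_nonneg.2 (norm_nonneg (G k - G k')))]
    have h5 : 4 * ((cos (Real.pi * f k) - cos (Real.pi * f k')) * (cos (Real.pi * f k) + cos (Real.pi * f k'))) =
        G k - G k' := by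
      linear_combination hS.ksq - hS'.ksq
    have h6 : 4 * (‖cos (Real.pi * f k) - cos (Real.pi * f k')‖ * ‖cos (Real.pi * f k) + cos (Real.pi * f k')‖) =
        ‖G k - G k'‖ := by
      rw [← h5, norm_mul, norm_mul, Complex.norm_ofNat]
    have h7 : (1 : ℝ) ≤ ‖cos (Real.pi * f k) + cos (Real.pi * f k')‖ := by
      have h8 := Complex.re_le_norm (cos (Real.pi * f k) + cos (Real.pi * f k'))
      rw [add_re] at h8
      have h9 := hκre k hk
      have h10 := hκre k' hk'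
      linarith only [h10, h9, h8]
    linarith only [norm_nonneg (cos (Real.pi * f k) - cos (Real.pi * f k')), h6, h4,
      mul_nonneg (sub_nonneg.2 h7) (sub_nonneg.2 (norm_nonneg (cos (Real.pi * f k) - cos (Real.pi * f k'))))]

end Pool.Agent.H63.GO
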