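import Pool.Agent.H63.VC.Defs
import Pool.Agent.H63.VC3.ClausenA

/-! # Critical points: definitions -/

namespace Pool.Agent.H63.GO

open Complex Filter Topology Pool.Agent.H63.VC Pool.Agent.H63.VC3

/-- The domain of the cosines `cos (π v)`. -/
def Om : Set ℂ := Metric.closedBall (85 / 100 : ℂ) (18 / 100)

/-- The equation of a block, with the approximate location of its solution. -/
structure Blk (r : ℤ) (v k : ℂ) : Prop where
  eq : sin (2 * Real.pi * r * v) * cos (Real.pi * v) = I * sin (Real.pi * v) * k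
  re : (cos (2 * Real.pi * r * v)).re < 0
  dom : cos (Real.pi * v) ∈ Om
  loc3 : 3 ≤ |r| → ‖v + 1 / (2 * r) - ((r.sign : ℂ) * (25 / 1000) + 21 / 100 * I) / r ^ 2‖ ≤
    75 / 1000 / (r : ℝ) ^ 2
  loc2 : |r| = 2 → ‖v + (r / 2 : ℂ) * (2335 / 10000) - 547 / 10000 * I‖ ≤ 15 / 1000
  sq : |r| = 2 → (4 * cos (Real.pi * v) ^ 2 - 1) ^ 2 = 1 + r * I * k
  pos : 0 < (4 * cos (Real.pi * v) ^ 2 - 1).re

/-- The variable `y` of the critical point: `tan² (π y) = 1 / cos² (π v) + 1 / cos² (π w) - 1`. -/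
noncomputable def yF (v w : ℂ) : ℂ :=
  arctan ((1 / cos (Real.pi * v) ^ 2 + 1 / cos (Real.pi * w) ^ 2 - 1) ^ (1 / 2 : ℂ)) / Real.pi

end Pool.Agent.H63.GO
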