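import Pool.Agent.H63.GO.KDefs

/-! # Location of y: locA -/

namespace Pool.Agent.H63.GO

open Complex Filter Topology Pool.Agent.H63.VC Pool.Agent.H63.VC3

/-- `arctan T` for `T` near the real interval `[1, 1.34]`. -/
private lemma KLocA_arctan {T : ℂ} (h1 : 1 ≤ T.re) (h2 : |T.im| ≤ 18 / 100)
    (h3 : T.re ^ 2 + T.im ^ 2 ≤ 1 + 83 / 100 * T.re) :
    24 / 100 ≤ (arctan T / Real.pi).re ∧ (arctan T / Real.pi).re ≤ 32 / 100 ∧
      |(arctan T / Real.pi).im| ≤ 3 / 100 := by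
  obtain ⟨t, s⟩ := T
  simp only at h1 h2 h3
  have hs := abs_le.1 h2
  have hpi1 : 3.1415 < Real.pi := Real.pi_gt_d4
  have hpi2 : Real.pi < 3.1416 := Real.pi_lt_d4
  have hpi0 : 0 < Real.pi := Real.pi_pos
  set w : ℂ := (1 + (⟨t, s⟩ : ℂ) * I) / (1 - (⟨t, s⟩ : ℂ) * I) with hw
  have hden : (1 - (⟨t, s⟩ : ℂ) * I) = ⟨1 + s, -t⟩ := by
    apply Complex.ext <;> simp
  have hnum : (1 + (⟨t, s⟩ : ℂ) * I) = ⟨1 - s, t⟩ := by
    apply Complex.ext <;> simp [sub_eq_add_neg]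
  have hdn : 0 < (1 + s) ^ 2 + t ^ 2 := by positivity
  have hnn : 0 < (1 - s) ^ 2 + t ^ 2 := by positivity
  have hw1 : w = (((1 + s) ^ 2 + t ^ 2)⁻¹ : ℝ) * (⟨1 - (t ^ 2 + s ^ 2), 2 * t⟩ : ℂ) := by
    rw [hw, hden, hnum]
    have hne : (⟨1 + s, -t⟩ : ℂ) ≠ 0 := by
      intro h
      have := congrArg Complex.im h
      simp at this
      linarith only [this, hpi2, hpi1, h1]
    rw [div_eq_iff hne]
    apply Complex.ext
    · simp only [mul_re, mul_im, ofReal_re, ofReal_im]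
      field_simp
      ring
    · simp only [mul_re, mul_im, ofReal_re, ofReal_im]
      field_simp
      ring
  have harg : w.arg = Complex.arg ⟨1 - (t ^ 2 + s ^ 2), 2 * t⟩ := by
    rw [hw1]
    exact Complex.arg_real_mul _ (inv_pos.2 hdn)
  have hnorm : ‖w‖ ^ 2 = ((1 - s) ^ 2 + t ^ 2) / ((1 + s) ^ 2 + t ^ 2) := by
    rw [hw, hden, hnum, norm_div, div_pow, ← Complex.normSq_eq_norm_sq, ← Complex.normSq_eq_norm_sq,
      Complex.normSq_mk, Complex.normSq_mk]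
    congr 1 <;> ring
  have hre : (arctan (⟨t, s⟩ : ℂ) / Real.pi).re = w.arg / (2 * Real.pi) := by
    rw [Complex.div_ofReal_re, arctan]
    change (-I / 2 * log w).re / Real.pi = _
    have h : (-I / 2 * log w).re = w.arg / 2 := by
      simp [Complex.mul_re, Complex.log_im]
      ring
    rw [h]
    field_simp
  have him : (arctan (⟨t, s⟩ : ℂ) / Real.pi).im = -Real.log ‖w‖ / (2 * Real.pi) := by
    rw [Complex.div_ofReal_im, arctan]
    change (-I / 2 * log w).im / Real.pi = _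
    have h : (-I / 2 * log w).im = -Real.log ‖w‖ / 2 := by
      simp [Complex.mul_im, Complex.log_re]
      ring
    rw [h]
    field_simp
  have harg2 : w.arg = Real.arccos ((1 - (t ^ 2 + s ^ 2)) / ‖(⟨1 - (t ^ 2 + s ^ 2), 2 * t⟩ : ℂ)‖) := by
    rw [harg, Complex.arg_of_im_pos]
    simp only
    linarith only [h1]
  set m : ℝ := ‖(⟨1 - (t ^ 2 + s ^ 2), 2 * t⟩ : ℂ)‖ with hm
  have hm1 : 2 * t ≤ m := by
    have := Complex.abs_im_le_norm (⟨1 - (t ^ 2 + s ^ 2), 2 * t⟩ : ℂ)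
    simp only at this
    exact (le_abs_self _).trans this
  have hm0 : 0 < m := by linarith only [hm1, hpi2, hpi1, h1]
  have hu1 : (1 - (t ^ 2 + s ^ 2)) / m ≤ 0 := by
    apply div_nonpos_of_nonpos_of_nonneg _ hm0.le
    linarith only [h1, sq_nonneg (s), mul_nonneg (sub_nonneg.2 h1) (sub_nonneg.2 h1)]
  have hu2 : -(415 / 1000) ≤ (1 - (t ^ 2 + s ^ 2)) / m := by
    rw [le_div_iff₀ hm0]
    linarith only [hm1, h3]
  have hL : |Real.log ‖w‖| ≤ 188 / 1000 := by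
    have hexp : (1.439025 : ℝ) ≤ Real.exp (376 / 1000) := by
      have := Real.quadratic_le_exp_of_nonneg (x := 376 / 1000) (by norm_num)
      refine le_trans ?_ this
      norm_num
    have hwpos : 0 < ‖w‖ := by
      have : 0 < ‖w‖ ^ 2 := by
        rw [hnorm]
        positivity
      refine lt_of_le_of_ne (norm_nonneg w) fun h => ?_
      rw [← h] at this
      norm_num at this
    have h2 : 2 * Real.log ‖w‖ = Real.log (((1 - s) ^ 2 + t ^ 2) / ((1 + s) ^ 2 + t ^ 2)) := by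
      rw [← hnorm, Real.log_pow]
      norm_num
    have h3 : Real.log (((1 - s) ^ 2 + t ^ 2) / ((1 + s) ^ 2 + t ^ 2)) ≤ 376 / 1000 := by
      rw [Real.log_le_iff_le_exp (by positivity)]
      refine le_trans ?_ hexp
      rw [div_le_iff₀ hdn]
      linarith only [hs.1, h1, sq_nonneg (s), mul_nonneg (sub_nonneg.2 h1) (sub_nonneg.2 h1)]
    have h4 : -(376 / 1000) ≤ Real.log (((1 - s) ^ 2 + t ^ 2) / ((1 + s) ^ 2 + t ^ 2)) := by
      rw [Real.le_log_iff_exp_le (by positivity), Real.exp_neg]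
      refine le_trans (inv_anti₀ (by norm_num) hexp) ?_
      rw [inv_eq_one_div, div_le_div_iff₀ (by norm_num) hdn]
      (refine le_of_not_gt fun hng => ?_; linarith only [hpi2, hpi1, hs.2, h1, sq_nonneg (s),
        mul_nonneg (sub_nonneg.2 h1) (sub_nonneg.2 h1), mul_pos (sub_pos.2 hng) (sub_pos.2 hpi2),
        mul_pos (sub_pos.2 hng) (sub_pos.2 hpi1)])
    rw [abs_le]
    constructor <;> linarith
  refine ⟨?_, ?_, ?_⟩
  · rw [hre, le_div_iff₀ (by positivity), harg2]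
    have : Real.pi / 2 ≤ Real.arccos ((1 - (t ^ 2 + s ^ 2)) / m) := by
      rw [Real.arccos]
      have := Real.arcsin_nonpos.2 hu1
      linarith only [this]
    linarith only [this, hpi2, hpi1]
  · rw [hre, div_le_iff₀ (by positivity), harg2, Real.arccos]
    have h5 : -(14 / 100 * Real.pi) ≤ Real.arcsin ((1 - (t ^ 2 + s ^ 2)) / m) := by
      rw [Real.le_arcsin_iff_sin_le' ⟨by linarith only [hpi1], by linarith only [hpi1]⟩, Real.sin_neg]
      have h6 := Real.sin_gt_sub_cube (x := 14 / 100 * Real.pi) (by positivity)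
      have h7 : (14 / 100 * Real.pi) ^ 3 ≤ 0.43983 ^ 3 := by
        apply pow_le_pow_left₀ (by positivity)
        linarith only [hpi2, hpi1]
      norm_num at h7
      linarith only [h7, h6, hu2, hpi2, hpi1]
    linarith only [h5]
  · rw [him, abs_div, abs_neg, abs_of_pos (show 0 < 2 * Real.pi by positivity), div_le_iff₀ (by positivity)]
    linarith only [hL, hpi2, hpi1]

private lemma KLocA_inv {c d : ℝ} (hc : 0 < 1 + c) : 1 / (1 / 2 + (⟨c, -d⟩ : ℂ) / 2) =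
    ((2 / ((1 + c) ^ 2 + d ^ 2) : ℝ) : ℂ) * ⟨1 + c, d⟩ := by
  have h3 : (1 / 2 + (⟨c, -d⟩ : ℂ) / 2) = ⟨(1 + c) / 2, -d / 2⟩ := by
    apply Complex.ext
    · simp
      ring
    · simp
  have hne : (⟨(1 + c) / 2, -d / 2⟩ : ℂ) ≠ 0 := by
    intro h
    have h2 := congrArg Complex.re h
    simp only [zero_re] at h2
    linarith only [h2, hc]
  have h4 : 0 < (1 + c) ^ 2 + d ^ 2 := by positivity
  rw [h3, div_eq_iff hne]
  apply Complex.ext
  · simp only [mul_re, mul_im, ofReal_re, ofReal_im, one_re]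
    field_simp
    ring
  · simp only [mul_re, mul_im, ofReal_re, ofReal_im, one_im]
    field_simp
    ring

/-- Bounds for the location. -/
private lemma KLocA_num1 {ρ X y : ℝ} (hρ0 : 0 < ρ) (hρ3 : ρ ≤ 1 / 3) (hX1 : X ≤ ρ / 2 + 5 / 100 * ρ ^ 2)
    (hX2 : ρ / 2 - 1 / 10 * ρ ^ 2 ≤ X) (hy1 : y ≤ 285 / 1000 * ρ ^ 2) (hy2 : 135 / 1000 * ρ ^ 2 ≤ y) :
    0 ≤ y ∧ y ≤ 31667 / 1000000 ∧ X ≤ 17223 / 100000 ∧ 2 * y ≤ X := by
  have h1 : ρ ^ 2 ≤ ρ * (1 / 3) := by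
    rw [pow_two]
    exact mul_le_mul_of_nonneg_left hρ3 hρ0.le
  have h2 : 0 < ρ ^ 2 := by positivity
  refine ⟨?_, ?_, ?_, ?_⟩ <;> linarith

private lemma KLocA_num2 {X : ℝ} (hX0 : 0 ≤ X) (hX3 : X ≤ 17223 / 100000) :
    455 / 1000 ≤ Real.cos (2 * (Real.pi * X)) := by
  have hpi2 : Real.pi < 3.1416 := Real.pi_lt_d4
  have hpi0 : 0 < Real.pi := Real.pi_pos
  rw [Real.cos_two_mul]
  have h1 : 1 - (Real.pi * X) ^ 2 / 2 ≤ Real.cos (Real.pi * X) := Real.one_sub_sq_div_two_le_cos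
  have h2 : Real.pi * X ≤ 3.1416 * (17223 / 100000) := mul_le_mul hpi2.le hX3 hX0 (by norm_num)
  have h3 : (Real.pi * X) ^ 2 ≤ (3.1416 * (17223 / 100000)) ^ 2 := pow_le_pow_left₀ (by positivity) h2 2
  have h4 : (8535 / 10000 : ℝ) ≤ Real.cos (Real.pi * X) := by
    norm_num at h3
    linarith only [h3, h1]
  have h5 := pow_le_pow_left₀ (by norm_num) h4 2
  norm_num at h5 ⊢
  linarith only [h5]

private lemma KLocA_num3 {X x : ℝ} (hX : x = X ∨ x = -X) (hX0 : 0 ≤ X) (hX3 : X ≤ 17223 / 100000) :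
    16 * X ^ 2 ≤ Real.sin (2 * (Real.pi * x)) ^ 2 := by
  have hpi0 : 0 < Real.pi := Real.pi_pos
  have h1 : Real.sin (2 * (Real.pi * x)) ^ 2 = Real.sin (2 * (Real.pi * X)) ^ 2 := by
    rcases hX with h | h
    · rw [h]
    · rw [h, mul_neg, mul_neg, Real.sin_neg, neg_sq]
  have h0 : Real.pi * X ≤ Real.pi * (1 / 4) := mul_le_mul_of_nonneg_left (by linarith only [hX3]) hpi0.le
  have h2 := Real.mul_le_sin (x := 2 * (Real.pi * X)) (by positivity) (by linarith only [h0])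
  have h3 : 2 / Real.pi * (2 * (Real.pi * X)) = 4 * X := by
    field_simp
    ring
  rw [h3] at h2
  rw [h1]
  have h4 := pow_le_pow_left₀ (by positivity) h2 2
  calc 16 * X ^ 2 = (4 * X) ^ 2 := by ring
    _ ≤ _ := h4

private lemma KLocA_num4 {y : ℝ} (hy0 : 0 ≤ y) (hy3 : y ≤ 31667 / 1000000) :
    Real.sinh (2 * (Real.pi * y)) ^ 2 ≤ 415 / 10 * y ^ 2 := by
  have hpi2 : Real.pi < 3.1416 := Real.pi_lt_d4
  have hpi0 : 0 < Real.pi := Real.pi_pos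
  have hcs := Real.cosh_sq (2 * (Real.pi * y))
  have h1 : Real.cosh (2 * (Real.pi * y)) ^ 2 ≤ Real.exp ((2 * (Real.pi * y)) ^ 2) := by
    have h2 : Real.cosh (2 * (Real.pi * y)) ≤ Real.exp ((2 * (Real.pi * y)) ^ 2 / 2) :=
      Real.cosh_le_exp_half_sq _
    have h3 := pow_le_pow_left₀ (Real.cosh_pos _).le h2 2
    have h3' : ((2 : ℕ) : ℝ) * ((2 * (Real.pi * y)) ^ 2 / 2) = (2 * (Real.pi * y)) ^ 2 := by
      push_cast
      ring
    rw [← Real.exp_nat_mul, h3'] at h3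
    exact h3
  have h4 : Real.exp ((2 * (Real.pi * y)) ^ 2) ≤ 1 + 105 / 100 * (2 * (Real.pi * y)) ^ 2 := by
    have hu1 : (2 * (Real.pi * y)) ^ 2 ≤ 4 / 100 := by
      have h2 : Real.pi * y ≤ 3.1416 * (31667 / 1000000) := mul_le_mul hpi2.le hy3 hy0 (by norm_num)
      have h5 : 2 * (Real.pi * y) ≤ 2 / 10 := by
        norm_num at h2
        linarith only [h2]
      have h6 := pow_le_pow_left₀ (by positivity) h5 2
      norm_num at h6 ⊢
      exact h6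
    have hu0 : 0 ≤ (2 * (Real.pi * y)) ^ 2 := by positivity
    generalize (2 * (Real.pi * y)) ^ 2 = u at hu0 hu1
    have h7 := Real.one_sub_le_exp_neg u
    have h8 : Real.exp (-u) * Real.exp u = 1 := by
      rw [← Real.exp_add]
      simp
    have h9 : (1 - u) * Real.exp u ≤ 1 :=
      (mul_le_mul_of_nonneg_right h7 (Real.exp_pos u).le).trans h8.le
    have h10 : (1 : ℝ) ≤ (1 - u) * (1 + 105 / 100 * u) := by linarith only [hu0,
                                                               mul_nonneg (sub_nonneg.2 hu0) (sub_nonneg.2 hu1)]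
    have h11 : (1 - u) * Real.exp u ≤ (1 - u) * (1 + 105 / 100 * u) := h9.trans h10
    exact le_of_mul_le_mul_left h11 (by linarith only [hu1])
  have h5 : Real.pi ^ 2 ≤ 3.1416 ^ 2 := pow_le_pow_left₀ hpi0.le hpi2.le 2
  have h6 : (2 * (Real.pi * y)) ^ 2 = 4 * (Real.pi ^ 2 * y ^ 2) := by ring
  have h7 : Real.pi ^ 2 * y ^ 2 ≤ 3.1416 ^ 2 * y ^ 2 := mul_le_mul_of_nonneg_right h5 (sq_nonneg y)
  rw [h6] at h1 h4
  have h8 : 0 ≤ y ^ 2 := sq_nonneg y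
  norm_num at h7
  linarith only [h7, h8, h4, h1, hcs]

private lemma KLocA_num5 {c d : ℝ} (hc2 : 455 / 1000 ≤ c) (hcd : c ^ 2 + d ^ 2 ≤ 1) (hd2 : d ^ 2 ≤ 333 / 10000) :
    1 ≤ (((2 / ((1 + c) ^ 2 + d ^ 2) : ℝ) : ℂ) * ⟨1 + c, d⟩).re ∧
      (((2 / ((1 + c) ^ 2 + d ^ 2) : ℝ) : ℂ) * ⟨1 + c, d⟩).re ≤ 1375 / 1000 ∧
      |(((2 / ((1 + c) ^ 2 + d ^ 2) : ℝ) : ℂ) * ⟨1 + c, d⟩).im| ≤ 18 / 100 := by
  have hd3 : |d| ≤ 1825 / 10000 := by
    apply abs_le_of_sq_le_sq _ (by norm_num)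
    linarith only [hd2]
  have hD : 0 < (1 + c) ^ 2 + d ^ 2 := by positivity
  refine ⟨?_, ?_, ?_⟩
  · rw [re_ofReal_mul, div_mul_eq_mul_div, le_div_iff₀ hD]
    simp only
    linarith only [hcd]
  · rw [re_ofReal_mul, div_mul_eq_mul_div, div_le_iff₀ hD]
    simp only
    (refine le_of_not_gt fun hng => ?_; linarith only [hng, hc2, sq_nonneg (d),
      mul_pos (sub_pos.2 hng) (sub_pos.2 hng), mul_nonneg (sq_nonneg (c)) (sq_nonneg (c)),
      mul_nonneg (sq_nonneg (1 + c)) (sub_nonneg.2 hc2),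
      mul_nonneg (sq_nonneg (1 + c)) (sub_nonneg.2 hng.le),
      mul_nonneg (sq_nonneg (d)) (sub_nonneg.2 hng.le),
      mul_nonneg (sq_nonneg (d)) (sq_nonneg (1 + c)), mul_nonneg (sq_nonneg (d)) (sq_nonneg (d))])
  · rw [im_ofReal_mul, div_mul_eq_mul_div, abs_div, abs_of_pos hD, div_le_iff₀ hD, abs_mul, abs_of_pos (show (0 : ℝ) < 2 by norm_num)]
    simp only
    (refine le_of_not_gt fun hng => ?_; linarith only [hng, hd3, hc2, sq_nonneg (d),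
      mul_nonneg (sq_nonneg (c)) (sq_nonneg (c)), mul_nonneg (sq_nonneg (1 + c)) (sub_nonneg.2 hd3),
      mul_nonneg (sq_nonneg (1 + c)) (sub_nonneg.2 hc2),
      mul_nonneg (sq_nonneg (1 + c)) (sub_nonneg.2 hng.le),
      mul_nonneg (sq_nonneg (d)) (sq_nonneg (1 + c))])

private lemma KLocA_num6 {X y co si ch sh : ℝ} (hco : 455 / 1000 ≤ co) (hsc : si ^ 2 + co ^ 2 = 1)
    (hcs : ch ^ 2 = sh ^ 2 + 1) (hch1 : 1 ≤ ch) (hsi2 : 16 * X ^ 2 ≤ si ^ 2) (hsh2 : sh ^ 2 ≤ 415 / 10 * y ^ 2)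
    (hy0 : 0 ≤ y) (hy3 : y ≤ 31667 / 1000000) (hXy : 2 * y ≤ X) :
    455 / 1000 ≤ co * ch ∧ (co * ch) ^ 2 + (si * sh) ^ 2 ≤ 1 ∧ (si * sh) ^ 2 ≤ 333 / 10000 := by
  have hy4 : y ^ 2 ≤ (31667 / 1000000) ^ 2 := pow_le_pow_left₀ hy0 hy3 2
  have hX4 : (2 * y) ^ 2 ≤ X ^ 2 := pow_le_pow_left₀ (by positivity) hXy 2
  have hco2 : (455 / 1000) ^ 2 ≤ co ^ 2 := pow_le_pow_left₀ (by norm_num) hco 2
  refine ⟨?_, ?_, ?_⟩
  · have := mul_le_mul hco hch1 (by norm_num) (by linarith only [hco])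
    linarith only [this]
  · have h1 : (co * ch) ^ 2 + (si * sh) ^ 2 = co ^ 2 + sh ^ 2 := by
      rw [mul_pow, mul_pow, hcs]
      have : si ^ 2 = 1 - co ^ 2 := by linarith only [hsc]
      rw [this]
      ring
    rw [h1]
    have h2 : (2 * y) ^ 2 = 4 * y ^ 2 := by ring
    have h3 : 0 ≤ y ^ 2 := sq_nonneg y
    linarith only [h3, hX4, hsh2, hsi2, hsc]
  · rw [mul_pow]
    have h1 : si ^ 2 ≤ 793 / 1000 := by
      norm_num at hco2
      linarith only [hco2, hsc]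
    have h2 : sh ^ 2 ≤ 417 / 10000 := by
      norm_num at hy4
      linarith only [hy4, hsh2]
    have h3 := mul_le_mul h1 h2 (sq_nonneg sh) (by norm_num)
    norm_num at h3
    linarith only [h3]

/-- The secant squared of a block with `3 ≤ |r|`. -/
private lemma KLocA_blk {r : ℤ} (hr : 3 ≤ |r|) {v k : ℂ} (hv : Blk r v k) :
    1 ≤ (1 / cos (Real.pi * v) ^ 2).re ∧ (1 / cos (Real.pi * v) ^ 2).re ≤ 1375 / 1000 ∧
      |(1 / cos (Real.pi * v) ^ 2).im| ≤ 18 / 100 ∧ v.im ≤ 32 / 1000 := by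
  obtain ⟨x, y⟩ := v
  have hl := hv.loc3 hr
  have hpi1 : 3.1415 < Real.pi := Real.pi_gt_d4
  have hpi2 : Real.pi < 3.1416 := Real.pi_lt_d4
  have hpi0 : 0 < Real.pi := Real.pi_pos
  obtain ⟨R, hR⟩ : ∃ R : ℝ, R = |(r : ℝ)| := ⟨_, rfl⟩
  have hR3 : 3 ≤ R := by
    rw [hR, ← Int.cast_abs]
    exact_mod_cast hr
  have hr0 : (r : ℝ) ≠ 0 := by
    intro h
    rw [h, abs_zero] at hR
    linarith only [hR3, hR, hpi2, hpi1]
  have hRsq : (r : ℝ) ^ 2 = R ^ 2 := by rw [hR, sq_abs]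
  obtain ⟨σ, hσ⟩ : ∃ σ : ℝ, σ = (r.sign : ℝ) := ⟨_, rfl⟩
  have hσr : (r : ℝ) = σ * R := by
    rw [hσ, hR, ← Int.cast_abs, ← Int.cast_mul, Int.sign_mul_abs]
  have hσ2 : σ = 1 ∨ σ = -1 := by
    rcases lt_or_gt_of_ne (show r ≠ 0 by exact_mod_cast hr0) with h | h
    · right
      rw [hσ, Int.sign_eq_neg_one_of_neg h]
      norm_num
    · left
      rw [hσ, Int.sign_eq_one_of_pos h]
      norm_num
  have hexpr : (⟨x, y⟩ : ℂ) + 1 / (2 * r) - ((r.sign : ℂ) * (25 / 1000) + 21 / 100 * I) / r ^ 2 =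
      ⟨x + 1 / (2 * r) - σ * (25 / 1000) / r ^ 2, y - 21 / 100 / r ^ 2⟩ := by
    have h1 : (r : ℂ) = ((r : ℝ) : ℂ) := by norm_cast
    have h2 : (r.sign : ℂ) = ((σ : ℝ) : ℂ) := by
      rw [hσ]
      norm_cast
    rw [h1, h2]
    have h3 : (⟨x, y⟩ : ℂ) = (x : ℂ) + y * I := (mk_eq_add_mul_I x y)
    have h4 : (⟨x + 1 / (2 * r) - σ * (25 / 1000) / r ^ 2, y - 21 / 100 / r ^ 2⟩ : ℂ) =
      ((x + 1 / (2 * r) - σ * (25 / 1000) / r ^ 2 : ℝ) : ℂ) + ((y - 21 / 100 / r ^ 2 : ℝ) : ℂ) * I := (mk_eq_add_mul_I _ _)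
    rw [h3, h4]
    push_cast
    ring
  rw [hexpr, hRsq] at hl
  have hl1 := (abs_re_le_norm _).trans hl
  have hl2 := (abs_im_le_norm _).trans hl
  simp only at hl1 hl2
  rw [abs_le] at hl1 hl2
  have hR0 : 0 < R := by linarith only [hR3, hpi2, hpi1]
  obtain ⟨ρ, hρ⟩ : ∃ ρ : ℝ, ρ = 1 / R := ⟨_, rfl⟩
  have hρ0 : 0 < ρ := by rw [hρ]; positivity
  have hρ3 : ρ ≤ 1 / 3 := by
    rw [hρ]
    exact one_div_le_one_div_of_le (by norm_num) hR3
  have e1 : 1 / (2 * (r : ℝ)) = σ * (ρ / 2) := by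
    rw [hσr, hρ]
    rcases hσ2 with h | h <;> rw [h] <;> field_simp
  have e2 : σ * (25 / 1000) / R ^ 2 = σ * (25 / 1000 * ρ ^ 2) := by
    rw [hρ]
    field_simp
  have e3 : 75 / 1000 / R ^ 2 = 75 / 1000 * ρ ^ 2 := by
    rw [hρ]
    field_simp
  have e4 : 21 / 100 / R ^ 2 = 21 / 100 * ρ ^ 2 := by
    rw [hρ]
    field_simp
  rw [e1, e2, e3] at hl1
  rw [e3, e4] at hl2
  obtain ⟨X, hX, hX1, hX2⟩ : ∃ X : ℝ, (x = X ∨ x = -X) ∧ X ≤ ρ / 2 + 5 / 100 * ρ ^ 2 ∧ ρ / 2 - 1 / 10 * ρ ^ 2 ≤ X := by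
    refine ⟨-σ * x, ?_, ?_, ?_⟩
    · rcases hσ2 with h | h
      · right
        rw [h]
        ring
      · left
        rw [h]
        ring
    · rcases hσ2 with h | h <;> rw [h] at hl1 ⊢ <;> linarith [hl1.1, hl1.2]
    · rcases hσ2 with h | h <;> rw [h] at hl1 ⊢ <;> linarith [hl1.1, hl1.2]
  have hy1 : y ≤ 285 / 1000 * ρ ^ 2 := by linarith only [hl2.2]
  have hy2 : 135 / 1000 * ρ ^ 2 ≤ y := by linarith only [hl2.1]
  obtain ⟨hy0, hy3, hX3, hXy⟩ := KLocA_num1 hρ0 hρ3 hX1 hX2 hy1 hy2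
  have hX0 : 0 ≤ X := by linarith only [hXy, hX2, hρ0, hl2.1]
  -- the cosine
  have hc1 := KLocA_num2 hX0 hX3
  obtain ⟨co, hco⟩ : ∃ co : ℝ, co = Real.cos (2 * (Real.pi * X)) := ⟨_, rfl⟩
  obtain ⟨si, hsi⟩ : ∃ si : ℝ, si = Real.sin (2 * (Real.pi * x)) := ⟨_, rfl⟩
  obtain ⟨ch, hch⟩ : ∃ ch : ℝ, ch = Real.cosh (2 * (Real.pi * y)) := ⟨_, rfl⟩
  obtain ⟨sh, hsh⟩ : ∃ sh : ℝ, sh = Real.sinh (2 * (Real.pi * y)) := ⟨_, rfl⟩
  have hcx : Real.cos (2 * (Real.pi * x)) = co := by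
    rw [hco]
    rcases hX with h | h
    · rw [h]
    · rw [h, mul_neg, mul_neg, Real.cos_neg]
  have hsc : si ^ 2 + co ^ 2 = 1 := by
    rw [hsi, ← hcx]
    exact Real.sin_sq_add_cos_sq _
  have hcs : ch ^ 2 = sh ^ 2 + 1 := by
    rw [hch, hsh]
    exact Real.cosh_sq _
  have hch1 : 1 ≤ ch := by
    rw [hch]
    exact Real.one_le_cosh _
  have hsi2 : 16 * X ^ 2 ≤ si ^ 2 := by
    rw [hsi]
    exact KLocA_num3 hX hX0 hX3
  have hsh2 : sh ^ 2 ≤ 415 / 10 * y ^ 2 := by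
    rw [hsh]
    exact KLocA_num4 hy0 hy3
  rw [← hco] at hc1
  obtain ⟨hc2, hcd, hd2⟩ := KLocA_num6 hc1 hsc hcs hch1 hsi2 hsh2 hy0 hy3 hXy
  have hC : cos (2 * (Real.pi * (⟨x, y⟩ : ℂ))) = ⟨co * ch, -(si * sh)⟩ := by
    have h1 : (2 * (Real.pi * (⟨x, y⟩ : ℂ))) = ((2 * (Real.pi * x) : ℝ) : ℂ) + ((2 * (Real.pi * y) : ℝ) : ℂ) * I := by
      rw [mk_eq_add_mul_I]
      push_cast
      ring
    rw [h1, Complex.cos_add_mul_I, mk_eq_add_mul_I, ← hcx, hsi, hch, hsh]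
    push_cast
    ring
  have hP : 1 / cos (Real.pi * (⟨x, y⟩ : ℂ)) ^ 2 = ((2 / ((1 + co * ch) ^ 2 + (si * sh) ^ 2) : ℝ) : ℂ) * ⟨1 + co * ch, si * sh⟩ := by
    rw [Complex.cos_sq, hC]
    exact KLocA_inv (by linarith only [hc2, hpi2, hpi1])
  rw [hP]
  obtain ⟨g1, g2, g3⟩ := KLocA_num5 hc2 hcd hd2
  exact ⟨g1, g2, g3, by simp only; linarith only [hy3, hpi2, hpi1]⟩

/-- Both blocks with `3 ≤ |r|`. -/
theorem locA (r1 r2 : ℤ) (h1 : 3 ≤ |r1|) (h2 : 3 ≤ |r2|) (v w : ℂ)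
    (hv : Blk r1 v (cos (Real.pi * w))) (hw : Blk r2 w (cos (Real.pi * v))) :
    24 / 100 ≤ (yF v w).re ∧ (yF v w).re ≤ 32 / 100 ∧ |(yF v w).im| + v.im ≤ 65 / 1000 ∧
      |(yF v w).im| + w.im ≤ 65 / 1000 ∧ |(yF v w).im| ≤ 3 / 100 := by
  obtain ⟨a1, a2, a3, a4⟩ := KLocA_blk h1 hv
  obtain ⟨b1, b2, b3, b4⟩ := KLocA_blk h2 hw
  set S : ℂ := 1 / cos (Real.pi * v) ^ 2 + 1 / cos (Real.pi * w) ^ 2 - 1 with hS
  have hS1 : 1 ≤ S.re := by
    rw [hS, sub_re, add_re, one_re]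
    linarith only [b1, a1]
  have hS2 : S.re ≤ 175 / 100 := by
    rw [hS, sub_re, add_re, one_re]
    linarith only [b2, a2]
  have hS3 : |S.im| ≤ 36 / 100 := by
    rw [hS, sub_im, add_im, one_im, sub_zero]
    refine (abs_add_le _ _).trans ?_
    linarith only [b3, a3]
  have hS0 : S ≠ 0 := by
    intro h
    rw [h, zero_re] at hS1
    linarith only [hS1]
  set T : ℂ := S ^ (1 / 2 : ℂ) with hT
  have hTS : T ^ 2 = S := by
    rw [hT, ← cpow_nat_mul]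
    norm_num
  have hTpos : 0 < T.re := by
    rw [hT, cpow_def_of_ne_zero hS0, exp_re]
    apply mul_pos (Real.exp_pos _)
    apply Real.cos_pos_of_mem_Ioo
    have h5 : (log S * (1 / 2)).im = S.arg / 2 := by
      have : (log S * (1 / 2)) = log S / (2 : ℝ) := by
        push_cast
        ring
      rw [this, Complex.div_ofReal_im, log_im]
    have h6 : |S.arg| < Real.pi / 2 := Complex.abs_arg_lt_pi_div_two_iff.2 (Or.inl (by linarith only [hS1]))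
    have h7 := abs_lt.1 h6
    rw [h5]
    constructor <;> linarith only [h7.2, h7.1]
  have e1 : T.re ^ 2 - T.im ^ 2 = S.re := by
    rw [← hTS, pow_two T, mul_re]
    ring
  have e2 : 2 * T.re * T.im = S.im := by
    rw [← hTS, pow_two T, mul_im]
    ring
  have ht1 : 1 ≤ T.re := by
    (refine le_of_not_gt fun hng => ?_; linarith only [hng, e1, hS1, sq_nonneg (T.im),
      mul_pos (sub_pos.2 hng) (sub_pos.2 hTpos)])
  have hs1 : |T.im| ≤ 18 / 100 := by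
    rw [abs_le]
    rw [abs_le] at hS3
    constructor
    · by_contra hcon
      push Not at hcon
      linarith only [ht1, e2, hS3.1, mul_pos (sub_pos.2 hTpos) (sub_pos.2 hcon)]
    · by_contra hcon
      push Not at hcon
      linarith only [ht1, e2, hS3.2, mul_pos (sub_pos.2 hTpos) (sub_pos.2 hcon)]
  have hs2 : T.im ^ 2 ≤ (18 / 100) ^ 2 := by
    rw [← sq_abs]
    exact pow_le_pow_left₀ (abs_nonneg _) hs1 2
  have h8 := KLocA_arctan ht1 hs1 (by linarith only [hs2, ht1, e1, hTpos, hS2])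
  have hyF : yF v w = arctan T / Real.pi := rfl
  rw [hyF]
  obtain ⟨c1, c2, c3⟩ := h8
  refine ⟨c1, c2, ?_, ?_, c3⟩ <;> linarith

end Pool.Agent.H63.GO
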