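import Pool.Agent.H63.GO.Homot
import Pool.Agent.H63.GO.KernInt

/-! # Shifting the contour of one group of modes -/

namespace Pool.Agent.H63.GO

open Complex Filter Topology MeasureTheory
open scoped BigOperators

private theorem LSgroup_im (z : ℂ) (M : ℕ) (t ε : ℝ) (τ : SignType) :
    ((sgn τ : ℂ) * (M * z - t) + ε * I).im = sgn τ * (M * z.im) + ε := by
  simp [Complex.add_im, Complex.mul_im, Complex.sub_im]

private theorem LSgroup_cp_im {ι : Type} (a b : ι → ℝ) (s : ℝ) (j : ι) :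
    (cp a (s • b) j).im = s * b j := by
  simp [cp, Complex.add_im, Complex.mul_im]

private theorem LSgroup_pos {ι : Type} (σ : ι → SignType) (b : ι → ℝ)
    (hb : ∀ j, σ j ≠ 0 → 0 < sgn (σ j) * b j) (M : ℕ) (ε : ℝ) (hε : 0 < ε) (a : ι → ℝ) (s : ℝ)
    (hs : 0 ≤ s) (j : ι) (hj : σ j ≠ 0) :
    0 < sgn (σ j) * (M * (cp a (s • b) j).im) + ε := by
  rw [LSgroup_cp_im]
  have h1 : 0 ≤ (M : ℝ) * s * (sgn (σ j) * b j) :=
    mul_nonneg (mul_nonneg (Nat.cast_nonneg M) hs) (hb j hj).le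
  have h2 : sgn (σ j) * (M * (s * b j)) = (M : ℝ) * s * (sgn (σ j) * b j) := by ring
  rw [h2]
  linarith

private theorem LSgroup_kr_an {ι : Type} [Fintype ι] (σ : ι → SignType) (M : ℕ) (o : ι → ℝ)
    (ε : ℝ) (j : ι) (z : ι → ℂ) (hz : σ j ≠ 0 → 0 < sgn (σ j) * (M * (z j).im) + ε) :
    AnalyticAt ℂ (fun w : ι → ℂ => kr ε (σ j) (M * w j - o j)) z := by
  by_cases h0 : σ j = 0
  · have h1 : (fun w : ι → ℂ => kr ε (σ j) (M * w j - o j)) = fun _ => 1 := by
      funext w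
      simp [kr, h0]
    rw [h1]
    exact analyticAt_const
  · have h1 : (fun w : ι → ℂ => kr ε (σ j) (M * w j - o j)) =
        fun w => kap ((sgn (σ j) : ℂ) * (M * w j - o j) + ε * I) := by
      funext w
      simp only [kr, if_neg h0]
    rw [h1]
    have h2 : AnalyticAt ℂ (fun w : ι → ℂ => (sgn (σ j) : ℂ) * (M * w j - o j) + ε * I) z := by
      have h3 : AnalyticAt ℂ (fun w : ι → ℂ => w j) z :=
        (ContinuousLinearMap.proj (R := ℂ) (φ := fun _ : ι => ℂ) j).analyticAt z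
      exact (analyticAt_const.mul ((analyticAt_const.mul h3).sub analyticAt_const)).add
        analyticAt_const
    have h4 : AnalyticAt ℂ kap ((sgn (σ j) : ℂ) * (M * z j - o j) + ε * I) := by
      apply kap_analyticAt
      rw [LSgroup_im]
      exact hz h0
    exact h4.comp_of_eq h2 rfl

private theorem LSgroup_krp_an {ι : Type} [Fintype ι] (σ : ι → SignType) (M : ℕ) (o : ι → ℝ)
    (ε : ℝ) (z : ι → ℂ) (hz : ∀ j, σ j ≠ 0 → 0 < sgn (σ j) * (M * (z j).im) + ε) :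
    AnalyticAt ℂ (krp ε M o σ) z := by
  have h1 : krp ε M o σ = fun w => ∏ j, kr ε (σ j) (M * w j - o j) := rfl
  rw [h1]
  exact Finset.analyticAt_fun_prod _ fun j _ => LSgroup_kr_an σ M o ε j z (hz j)

private theorem LSgroup_cp_cont {ι : Type} [Fintype ι] (b : ι → ℝ) :
    Continuous (fun p : ℝ × (ι → ℝ) => cp p.2 (p.1 • b)) := by
  unfold cp
  refine continuous_pi fun j => ?_
  simp only [Pi.smul_apply, smul_eq_mul]
  fun_prop

private theorem LSgroup_cont {ι : Type} [Fintype ι] (σ : ι → SignType) (b : ι → ℝ)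
    (hb : ∀ j, σ j ≠ 0 → 0 < sgn (σ j) * b j) (M : ℕ) (o : ι → ℝ) (ε : ℝ) (hε : 0 < ε)
    (p : ℝ × (ι → ℝ)) (hp : 0 ≤ p.1) :
    ContinuousAt (fun p : ℝ × (ι → ℝ) => krp ε M o σ (cp p.2 (p.1 • b))) p := by
  have h1 : ContinuousAt (krp ε M o σ) (cp p.2 (p.1 • b)) :=
    (LSgroup_krp_an σ M o ε _ fun j hj =>
      LSgroup_pos σ b hb M ε hε p.2 p.1 hp j hj).continuousAt
  exact ContinuousAt.comp (f := fun p : ℝ × (ι → ℝ) => cp p.2 (p.1 • b)) h1
    (LSgroup_cp_cont b).continuousAt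

theorem ls_group {ι : Type} [Fintype ι] [DecidableEq ι] (χ : (ι → ℝ) → ℝ) (hχ : ContDiff ℝ 1 χ)
    (hc : HasCompactSupport χ) (σ : ι → SignType) (b : ι → ℝ)
    (hb : ∀ j, σ j ≠ 0 → 0 < sgn (σ j) * b j) (U : Set (ι → ℂ)) (hU : IsOpen U)
    (hsub : ∀ a ∈ tsupport χ, ∀ s ∈ Set.Icc (0 : ℝ) 1, cp a (s • b) ∈ U) :
    ∃ C : ℝ, 0 < C ∧ ∀ (M : ℕ) (o : ι → ℝ) (ε : ℝ) (Φ : (ι → ℂ) → ℂ) (B : ℝ), 1 ≤ M → 0 < ε →
      ε ≤ 1 → 0 ≤ B → AnalyticOnNhd ℂ Φ U →
      (∀ a, fderiv ℝ χ a ≠ 0 → ∀ s ∈ Set.Icc (0 : ℝ) 1,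
        ‖Φ (cp a (s • b))‖ * Real.exp (-(2 * Real.pi * M * s * nb σ b)) ≤ B) →
      ‖(∫ a : ι → ℝ, (χ a : ℂ) * (Φ (cp a b) * krp ε M o σ (cp a b))) -
        ∫ a : ι → ℝ, (χ a : ℂ) * (Φ (cp a 0) * krp ε M o σ (cp a 0))‖ ≤ C * B := by
  -- the box
  obtain ⟨L0, hL0⟩ := hc.isCompact.isBounded.subset_closedBall (0 : ι → ℝ)
  set L : ℝ := max L0 1 with hLdef
  have hL : 0 < L := lt_of_lt_of_le one_pos (le_max_right _ _)
  set Q : Set (ι → ℝ) := Set.pi Set.univ (fun _ : ι => Set.Icc (-L) L) with hQ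
  have hbox : ∀ a ∈ tsupport χ, a ∈ Q := by
    intro a ha j _
    have h1 := hL0 ha
    rw [mem_closedBall_zero_iff] at h1
    have h2 : ‖a j‖ ≤ L := (norm_le_pi_norm a j).trans (h1.trans (le_max_left _ _))
    rw [Real.norm_eq_abs] at h2
    exact abs_le.1 h2
  have hQc : IsCompact Q := isCompact_univ_pi fun _ => isCompact_Icc
  have hQm : MeasurableSet Q := hQc.measurableSet
  -- the bound for the derivative
  have hcont' : Continuous (fun a => fderiv ℝ χ a b) :=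
    (hχ.continuous_fderiv one_ne_zero).clm_apply continuous_const
  have hsupp' : ∀ a, a ∉ tsupport χ → fderiv ℝ χ a = 0 := by
    intro a ha
    by_contra hne
    exact ha (support_fderiv_subset ℝ hne)
  obtain ⟨D, hD⟩ : ∃ D : ℝ, ∀ a, |fderiv ℝ χ a b| ≤ D := by
    obtain ⟨D, hD⟩ := hc.isCompact.exists_bound_of_continuousOn hcont'.continuousOn
    refine ⟨max D 0, fun a => ?_⟩
    by_cases ha : a ∈ tsupport χ
    · have h1 := hD a ha
      rw [Real.norm_eq_abs] at h1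
      exact h1.trans (le_max_left _ _)
    · rw [hsupp' a ha]
      simp
  have hD0 : 0 ≤ D := (abs_nonneg _).trans (hD 0)
  obtain ⟨C0, hC0, hK⟩ := krp_integral σ b hb L hL
  refine ⟨(D + 1) * C0, by positivity, ?_⟩
  intro M o ε Φ B hM hε hε1 hB hΦ hbd
  -- the domain
  set U' : Set (ι → ℂ) := U ∩ ⋂ j, {z | σ j ≠ 0 → 0 < sgn (σ j) * (M * (z j).im) + ε} with hU'
  have hU'o : IsOpen U' := by
    refine hU.inter (isOpen_iInter_of_finite fun j => ?_)
    by_cases h0 : σ j = 0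
    · have h1 : {z : ι → ℂ | σ j ≠ 0 → 0 < sgn (σ j) * (M * (z j).im) + ε} = Set.univ := by
        ext z
        simp [h0]
      rw [h1]
      exact isOpen_univ
    · have h1 : {z : ι → ℂ | σ j ≠ 0 → 0 < sgn (σ j) * (M * (z j).im) + ε} =
          {z | 0 < sgn (σ j) * (M * (z j).im) + ε} := by
        ext z
        simp [h0]
      rw [h1]
      refine isOpen_lt continuous_const ?_
      fun_prop
  have hHan : AnalyticOnNhd ℂ (fun z => Φ z * krp ε M o σ z) U' := by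
    intro z hz
    refine (hΦ z hz.1).mul (LSgroup_krp_an σ M o ε z fun j hj => ?_)
    have h1 := Set.mem_iInter.1 hz.2 j
    exact h1 hj
  have hsub' : ∀ a ∈ tsupport χ, ∀ s ∈ Set.Icc (0 : ℝ) 1, cp a (s • b) ∈ U' := by
    intro a ha s hs
    refine ⟨hsub a ha s hs, Set.mem_iInter.2 fun j hj => ?_⟩
    exact LSgroup_pos σ b hb M ε hε a s hs.1 j hj
  have hom := homot χ hχ hc b U' hU'o (fun z => Φ z * krp ε M o σ z) hHan hsub'
  rw [hom, norm_mul, norm_neg, Complex.norm_I, one_mul]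
  -- the bound function
  set F : ℝ × (ι → ℝ) → ℝ := fun p =>
    ‖krp ε M o σ (cp p.2 (p.1 • b))‖ * Real.exp (2 * Real.pi * M * p.1 * nb σ b) with hF
  have hFc : ContinuousOn F (Set.Icc (0 : ℝ) 1 ×ˢ Q) := by
    intro p hp
    have h1 := (LSgroup_cont σ b hb M o ε hε p hp.1.1).norm
    have h2 : ContinuousAt (fun p : ℝ × (ι → ℝ) =>
        Real.exp (2 * Real.pi * M * p.1 * nb σ b)) p := by fun_prop
    exact (h1.mul h2).continuousWithinAt
  have hFi : Integrable F ((volume.restrict (Set.Icc (0 : ℝ) 1)).prod (volume.restrict Q)) := by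
    rw [Measure.prod_restrict]
    exact hFc.integrableOn_compact (isCompact_Icc.prod hQc)
  have hGi : IntervalIntegrable (fun s => ∫ a in Q, F (s, a)) volume 0 1 := by
    rw [intervalIntegrable_iff_integrableOn_Icc_of_le zero_le_one]
    exact hFi.integral_prod_left
  have hsec : ∀ s ∈ Set.Icc (0 : ℝ) 1, IntegrableOn (fun a => F (s, a)) Q := by
    intro s hs
    refine ContinuousOn.integrableOn_compact hQc ?_
    intro a ha
    have h1 : ContinuousWithinAt F (Set.Icc (0 : ℝ) 1 ×ˢ Q) (s, a) := hFc (s, a) ⟨hs, ha⟩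
    exact h1.comp (t := Set.Icc (0 : ℝ) 1 ×ˢ Q) (Continuous.continuousWithinAt (by fun_prop))
      fun a' ha' => ⟨hs, ha'⟩
  have hinner : ∀ s ∈ Set.Icc (0 : ℝ) 1,
      ‖∫ a : ι → ℝ, ((fderiv ℝ χ a b : ℝ) : ℂ) *
        (Φ (cp a (s • b)) * krp ε M o σ (cp a (s • b)))‖ ≤ D * B * ∫ a in Q, F (s, a) := by
    intro s hs
    have h1 : (∫ a : ι → ℝ, ((fderiv ℝ χ a b : ℝ) : ℂ) *
        (Φ (cp a (s • b)) * krp ε M o σ (cp a (s • b)))) =
        ∫ a in Q, ((fderiv ℝ χ a b : ℝ) : ℂ) *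
        (Φ (cp a (s • b)) * krp ε M o σ (cp a (s • b))) := by
      refine (setIntegral_eq_integral_of_forall_compl_eq_zero fun a ha => ?_).symm
      have h2 : a ∉ tsupport χ := fun h => ha (hbox a h)
      rw [hsupp' a h2]
      simp
    rw [h1, ← integral_const_mul]
    refine norm_integral_le_of_norm_le ((hsec s hs).const_mul (D * B)) ?_
    refine Eventually.of_forall fun a => ?_
    by_cases ha : fderiv ℝ χ a = 0
    · rw [ha]
      simp only [_root_.zero_apply, Complex.ofReal_zero, zero_mul, norm_zero]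
      exact mul_nonneg (mul_nonneg hD0 hB) (mul_nonneg (norm_nonneg _) (Real.exp_pos _).le)
    · have h2 := hbd a ha s hs
      have h3 : ‖Φ (cp a (s • b))‖ ≤ B * Real.exp (2 * Real.pi * M * s * nb σ b) := by
        rw [Real.exp_neg, mul_inv_le_iff₀ (Real.exp_pos _)] at h2
        exact h2
      rw [norm_mul, norm_mul, Complex.norm_real, Real.norm_eq_abs]
      calc |fderiv ℝ χ a b| * (‖Φ (cp a (s • b))‖ * ‖krp ε M o σ (cp a (s • b))‖) ≤
          D * ((B * Real.exp (2 * Real.pi * M * s * nb σ b)) *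
            ‖krp ε M o σ (cp a (s • b))‖) := by
            apply mul_le_mul (hD a) _ (mul_nonneg (norm_nonneg _) (norm_nonneg _)) hD0
            exact mul_le_mul_of_nonneg_right h3 (norm_nonneg _)
        _ = D * B * F (s, a) := by
            simp only [hF]
            ring
  calc ‖∫ s in (0 : ℝ)..1, ∫ a : ι → ℝ, ((fderiv ℝ χ a b : ℝ) : ℂ) *
        (Φ (cp a (s • b)) * krp ε M o σ (cp a (s • b)))‖
      ≤ ∫ s in (0 : ℝ)..1, D * B * ∫ a in Q, F (s, a) := by
        refine intervalIntegral.norm_integral_le_of_norm_le zero_le_one ?_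
          (hGi.const_mul (D * B))
        exact Eventually.of_forall fun s hs => hinner s ⟨hs.1.le, hs.2⟩
    _ = D * B * ∫ s in (0 : ℝ)..1, ∫ a in Q, F (s, a) := by
        rw [intervalIntegral.integral_const_mul]
    _ ≤ D * B * C0 :=
        mul_le_mul_of_nonneg_left (hK M o ε hM hε hε1) (mul_nonneg hD0 hB)
    _ ≤ (D + 1) * C0 * B := by nlinarith [mul_nonneg hC0.le hB]

end Pool.Agent.H63.GO
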