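import Pool.Agent.H63.GO.Comb
import Pool.Agent.H63.GO.LSgroup

/-! # Lattice sums with a cutoff function -/

namespace Pool.Agent.H63.GO

open Complex Filter Topology MeasureTheory
open scoped BigOperators

private theorem LS_cont_mul {ι : Type} [Fintype ι] (χ : (ι → ℝ) → ℝ) (hχ : Continuous χ)
    (g : (ι → ℝ) → ℂ) (hg : ∀ a ∈ tsupport χ, ContinuousAt g a) :
    Continuous (fun a => (χ a : ℂ) * g a) := by
  rw [continuous_iff_continuousAt]
  intro a
  by_cases ha : a ∈ tsupport χ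
  · exact ((continuous_ofReal.comp hχ).continuousAt).mul (hg a ha)
  · have h : (fun a => (χ a : ℂ) * g a) =ᶠ[𝓝 a] fun _ => 0 := by
      have h1 : χ =ᶠ[𝓝 a] 0 := notMem_tsupport_iff_eventuallyEq.mp ha
      filter_upwards [h1] with x hx
      simp [hx]
    exact (continuousAt_const (y := (0 : ℂ))).congr h.symm

private theorem LS_supp {ι : Type} [Fintype ι] (χ : (ι → ℝ) → ℝ) (hc : HasCompactSupport χ)
    (g : (ι → ℝ) → ℂ) : HasCompactSupport (fun a => (χ a : ℂ) * g a) := by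
  have h : HasCompactSupport (fun a => (χ a : ℂ)) :=
    hc.comp_left (g := fun x : ℝ => (x : ℂ)) (by simp)
  exact h.mul_right

private theorem LS_cp_cont {ι : Type} [Fintype ι] (b : ι → ℝ) :
    Continuous (fun a : ι → ℝ => cp a b) := by
  refine continuous_pi fun j => ?_
  exact (continuous_ofReal.comp (continuous_apply j)).add continuous_const

private theorem LS_im {ι : Type} (M : ℕ) (o a b : ι → ℝ) (ε : ℝ) (τ : SignType) (j : ι) :
    (((sgn τ : ℝ) : ℂ) * ((M : ℂ) * cp a b j - (o j : ℂ)) + (ε : ℂ) * I).im =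
      M * (sgn τ * b j) + ε := by
  simp [cp]
  ring

private theorem LS_kr_cont_z {ι : Type} (M : ℕ) (o b : ι → ℝ) (ε : ℝ) (τ : SignType) (j : ι)
    (h : τ ≠ 0 → 0 < M * (sgn τ * b j) + ε) (a : ι → ℝ) :
    ContinuousAt (fun a : ι → ℝ => kr ε τ (M * cp a b j - o j)) a := by
  unfold kr
  by_cases hτ : τ = 0
  · simp only [hτ, if_true]
    exact continuousAt_const
  · simp only [hτ, if_false]
    have him : 0 < (((sgn τ : ℝ) : ℂ) * ((M : ℂ) * cp a b j - (o j : ℂ)) + (ε : ℂ) * I).im := by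
      rw [LS_im]
      exact h hτ
    have h1 := (kap_differentiableAt _ him).continuousAt
    have h2 : ContinuousAt (fun a : ι → ℝ =>
        ((sgn τ : ℝ) : ℂ) * ((M : ℂ) * cp a b j - (o j : ℂ)) + (ε : ℂ) * I) a := by
      have h3 : Continuous (fun a : ι → ℝ =>
          ((sgn τ : ℝ) : ℂ) * ((M : ℂ) * cp a b j - (o j : ℂ)) + (ε : ℂ) * I) := by
        unfold cp
        fun_prop
      exact h3.continuousAt
    exact ContinuousAt.comp (f := fun a : ι → ℝ =>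
        ((sgn τ : ℝ) : ℂ) * ((M : ℂ) * cp a b j - (o j : ℂ)) + (ε : ℂ) * I) h1 h2

private theorem LS_krp_cont_z {ι : Type} [Fintype ι] (M : ℕ) (o b : ι → ℝ) (ε : ℝ) (σ : ι → SignType)
    (h : ∀ j, σ j ≠ 0 → 0 < M * (sgn (σ j) * b j) + ε) (a : ι → ℝ) :
    ContinuousAt (fun a : ι → ℝ => krp ε M o σ (cp a b)) a := by
  unfold krp
  exact tendsto_finsetProd _ fun j _ => LS_kr_cont_z M o b ε (σ j) j (h j) a

private theorem LS_kr_tendsto {ι : Type} (M : ℕ) (o a b : ι → ℝ) (τ : SignType) (j : ι)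
    (h : τ ≠ 0 → 0 < M * (sgn τ * b j)) :
    Tendsto (fun ε : ℝ => kr ε τ (M * cp a b j - o j)) (𝓝[>] 0) (𝓝 (kr 0 τ (M * cp a b j - o j))) := by
  refine Tendsto.mono_left ?_ nhdsWithin_le_nhds
  unfold kr
  by_cases hτ : τ = 0
  · simp only [hτ, if_true]
    exact tendsto_const_nhds
  · simp only [hτ, if_false]
    have him : 0 < (((sgn τ : ℝ) : ℂ) * ((M : ℂ) * cp a b j - (o j : ℂ)) +
        ((0 : ℝ) : ℂ) * I).im := by
      rw [LS_im]
      have := h hτ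
      linarith
    have h1 := (kap_differentiableAt _ him).continuousAt
    have h2 : ContinuousAt (fun ε : ℝ =>
        ((sgn τ : ℝ) : ℂ) * ((M : ℂ) * cp a b j - (o j : ℂ)) + (ε : ℂ) * I) 0 := by
      have h3 : Continuous (fun ε : ℝ =>
          ((sgn τ : ℝ) : ℂ) * ((M : ℂ) * cp a b j - (o j : ℂ)) + (ε : ℂ) * I) := by
        fun_prop
      exact h3.continuousAt
    exact ContinuousAt.comp (f := fun ε : ℝ =>
        ((sgn τ : ℝ) : ℂ) * ((M : ℂ) * cp a b j - (o j : ℂ)) + (ε : ℂ) * I) h1 h2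

private theorem LS_krp_tendsto {ι : Type} [Fintype ι] (M : ℕ) (o a b : ι → ℝ) (σ : ι → SignType)
    (h : ∀ j, σ j ≠ 0 → 0 < M * (sgn (σ j) * b j)) :
    Tendsto (fun ε : ℝ => krp ε M o σ (cp a b)) (𝓝[>] 0) (𝓝 (krp 0 M o σ (cp a b))) := by
  unfold krp
  exact tendsto_finsetProd _ fun j _ => LS_kr_tendsto M o a b (σ j) j (h j)

private theorem LS_kr_bound {ι : Type} (M : ℕ) (o b : ι → ℝ) (τ : SignType) (j : ι)
    (h : τ ≠ 0 → 0 < M * (sgn τ * b j)) :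
    ∃ K : ℝ, 0 ≤ K ∧ ∀ (ε : ℝ) (a : ι → ℝ), 0 < ε → ‖kr ε τ (M * cp a b j - o j)‖ ≤ K := by
  by_cases hτ : τ = 0
  · refine ⟨1, zero_le_one, fun ε a _ => ?_⟩
    simp [kr, hτ]
  · obtain ⟨C, hC, hb⟩ := kap_norm_le _ (h hτ)
    refine ⟨C, hC.le, fun ε a hε => ?_⟩
    have h0 := h hτ
    simp only [kr, hτ, if_false]
    have him := LS_im M o a b ε τ j
    refine ((hb _ (by rw [him]; linarith)).1).trans ?_
    rw [him]
    have h1 : Real.exp (-(2 * Real.pi * (M * (sgn τ * b j) + ε))) ≤ 1 := by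
      rw [Real.exp_le_one_iff]
      have : 0 ≤ 2 * Real.pi * (M * (sgn τ * b j) + ε) := by
        have := Real.pi_pos
        positivity
      linarith
    calc C * Real.exp (-(2 * Real.pi * (M * (sgn τ * b j) + ε))) ≤ C * 1 :=
          mul_le_mul_of_nonneg_left h1 hC.le
      _ = C := mul_one C

private theorem LS_krp_bound {ι : Type} [Fintype ι] (M : ℕ) (o b : ι → ℝ) (σ : ι → SignType)
    (h : ∀ j, σ j ≠ 0 → 0 < M * (sgn (σ j) * b j)) :
    ∃ K : ℝ, 0 ≤ K ∧ ∀ (ε : ℝ) (a : ι → ℝ), 0 < ε → ‖krp ε M o σ (cp a b)‖ ≤ K := by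
  choose K hK0 hK using fun j => LS_kr_bound M o b (σ j) j (h j)
  refine ⟨∏ j, K j, Finset.prod_nonneg fun j _ => hK0 j, fun ε a hε => ?_⟩
  unfold krp
  rw [norm_prod]
  exact Finset.prod_le_prod (fun j _ => norm_nonneg _) fun j _ => hK j ε a hε

private theorem LS_limit {ι : Type} [Fintype ι] [DecidableEq ι] (χ : (ι → ℝ) → ℝ)
    (hχ : Continuous χ) (hc : HasCompactSupport χ) (σ : ι → SignType) (b : ι → ℝ)
    (M : ℕ) (o : ι → ℝ) (Φ : (ι → ℂ) → ℂ)
    (hΦ : ∀ a ∈ tsupport χ, ContinuousAt (fun a : ι → ℝ => Φ (cp a b)) a)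
    (h : ∀ j, σ j ≠ 0 → 0 < M * (sgn (σ j) * b j)) :
    Tendsto (fun ε : ℝ => ∫ a : ι → ℝ, (χ a : ℂ) * (Φ (cp a b) * krp ε M o σ (cp a b)))
      (𝓝[>] 0) (𝓝 (∫ a : ι → ℝ, (χ a : ℂ) * (Φ (cp a b) * krp 0 M o σ (cp a b)))) := by
  obtain ⟨K, hK0, hK⟩ := LS_krp_bound M o b σ h
  have hint : Integrable (fun a : ι → ℝ => (χ a : ℂ) * Φ (cp a b)) :=
    (LS_cont_mul χ hχ _ hΦ).integrable_of_hasCompactSupport (LS_supp χ hc _)
  refine tendsto_integral_filter_of_dominated_convergence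
    (fun a => ‖(χ a : ℂ) * Φ (cp a b)‖ * K) ?_ ?_ (hint.norm.mul_const K) ?_
  · filter_upwards [self_mem_nhdsWithin] with ε hε
    have hε' : (0 : ℝ) < ε := hε
    refine (LS_cont_mul χ hχ _ fun a ha => (hΦ a ha).mul
      (LS_krp_cont_z M o b ε σ (fun j hj => ?_) a)).aestronglyMeasurable
    have := h j hj
    linarith
  · filter_upwards [self_mem_nhdsWithin] with ε hε
    refine Eventually.of_forall fun a => ?_
    rw [← mul_assoc, norm_mul]
    exact mul_le_mul_of_nonneg_left (hK ε a hε) (norm_nonneg _)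
  · refine Eventually.of_forall fun a => ?_
    exact (tendsto_const_nhds.mul (LS_krp_tendsto M o a b σ h)).const_mul _

private theorem LS_cp_zero {ι : Type} (a : ι → ℝ) : cp a (0 : ι → ℝ) = rc a := by
  funext j
  simp [cp, rc]

private theorem LS_identity {ι : Type} [Fintype ι] [DecidableEq ι] (χ : (ι → ℝ) → ℝ)
    (hχ : Continuous χ) (hc : HasCompactSupport χ)
    (M : ℕ) (o : ι → ℝ) (Φ : (ι → ℂ) → ℂ)
    (hΦ : ∀ a ∈ tsupport χ, ContinuousAt (fun a : ι → ℝ => Φ (cp a 0)) a) (ε : ℝ) (hε : 0 < ε) :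
    (∫ a : ι → ℝ, (χ a : ℂ) * Φ (rc a) * ∏ j, (PK ε (M * a j - o j) : ℂ)) =
      ∑ σ : ι → SignType, ∫ a : ι → ℝ, (χ a : ℂ) * (Φ (cp a 0) * krp ε M o σ (cp a 0)) := by
  rw [← integral_finsetSum]
  · refine integral_congr_ae (Eventually.of_forall fun a => ?_)
    simp only
    rw [← krp_sum ε hε M o a, Finset.mul_sum]
    refine Finset.sum_congr rfl fun σ _ => ?_
    rw [LS_cp_zero]
    ring
  · intro σ _
    refine (LS_cont_mul χ hχ _ fun a ha => (hΦ a ha).mul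
      (LS_krp_cont_z M o 0 ε σ (fun j hj => ?_) a)).integrable_of_hasCompactSupport
        (LS_supp χ hc _)
    simpa using hε

/-- The lattice sum is the sum over the groups of modes of integrals over shifted domains, up to an
error controlled by the values on the support of the derivative of the cutoff function. -/
theorem ls_main {ι : Type} [Fintype ι] [DecidableEq ι] (χ : (ι → ℝ) → ℝ) (hχ : ContDiff ℝ 1 χ)
    (hc : HasCompactSupport χ) (b : (ι → SignType) → ι → ℝ)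
    (hb : ∀ σ j, σ j ≠ 0 → 0 < sgn (σ j) * b σ j) (U : Set (ι → ℂ)) (hU : IsOpen U)
    (hsub : ∀ σ, ∀ a ∈ tsupport χ, ∀ s ∈ Set.Icc (0 : ℝ) 1, cp a (s • b σ) ∈ U) :
    ∃ C : ℝ, 0 < C ∧ ∀ (M : ℕ) (o : ι → ℝ) (Φ : (ι → ℂ) → ℂ) (B : ℝ), 1 ≤ M → 0 ≤ B →
      AnalyticOnNhd ℂ Φ U →
      (∀ σ a, fderiv ℝ χ a ≠ 0 → ∀ s ∈ Set.Icc (0 : ℝ) 1,
        ‖Φ (cp a (s • b σ))‖ * Real.exp (-(2 * Real.pi * M * s * nb σ (b σ))) ≤ B) →
      ‖(∑' k : ι → ℤ, (χ (lp M o k) : ℂ) * Φ (rc (lp M o k))) -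
        (M : ℂ) ^ Fintype.card ι * ∑ σ : ι → SignType,
          ∫ a : ι → ℝ, (χ a : ℂ) * (Φ (cp a (b σ)) * krp 0 M o σ (cp a (b σ)))‖ ≤
        C * (M : ℝ) ^ Fintype.card ι * B := by
  choose C hC0 hC using fun σ => ls_group χ hχ hc σ (b σ) (hb σ) U hU (hsub σ)
  refine ⟨1 + ∑ σ, C σ, by
    have : 0 ≤ ∑ σ, C σ := Finset.sum_nonneg fun σ _ => (hC0 σ).le
    linarith, fun M o Φ B hM hB hΦ hgrad => ?_⟩
  have hMpos : (0 : ℝ) < M := by exact_mod_cast hM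
  -- continuity of the holomorphic function along the shifts
  have hcont : ∀ σ, ∀ s ∈ Set.Icc (0 : ℝ) 1, ∀ a ∈ tsupport χ,
      ContinuousAt (fun a : ι → ℝ => Φ (cp a (s • b σ))) a := by
    intro σ s hs a ha
    have h1 : ContinuousAt Φ (cp a (s • b σ)) := (hΦ _ (hsub σ a ha s hs)).continuousAt
    exact ContinuousAt.comp (f := fun a : ι → ℝ => cp a (s • b σ)) h1
      (LS_cp_cont (s • b σ)).continuousAt
  have hcont1 : ∀ σ, ∀ a ∈ tsupport χ, ContinuousAt (fun a : ι → ℝ => Φ (cp a (b σ))) a := by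
    intro σ a ha
    have := hcont σ 1 (by norm_num) a ha
    simpa only [one_smul] using this
  have hcont0 : ∀ a ∈ tsupport χ, ContinuousAt (fun a : ι → ℝ => Φ (cp a 0)) a := by
    intro a ha
    have := hcont (fun _ => 0) 0 (by norm_num) a ha
    simpa only [zero_smul] using this
  have hhgt : ∀ σ j, σ j ≠ 0 → 0 < M * (sgn (σ j) * b σ j) := fun σ j hj =>
    mul_pos hMpos (hb σ j hj)
  -- the function summed over the lattice
  have hf : Continuous (fun a : ι → ℝ => (χ a : ℂ) * Φ (rc a)) := by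
    have h := LS_cont_mul χ hχ.continuous _ hcont0
    simpa only [LS_cp_zero] using h
  have hfc : HasCompactSupport (fun a : ι → ℝ => (χ a : ℂ) * Φ (rc a)) := LS_supp χ hc _
  have hlim1 := comb _ hf hfc M hM o
  have hlim2 : Tendsto (fun ε : ℝ => (M : ℂ) ^ Fintype.card ι * ∑ σ : ι → SignType,
      ∫ a : ι → ℝ, (χ a : ℂ) * (Φ (cp a (b σ)) * krp ε M o σ (cp a (b σ)))) (𝓝[>] 0)
      (𝓝 ((M : ℂ) ^ Fintype.card ι * ∑ σ : ι → SignType,
      ∫ a : ι → ℝ, (χ a : ℂ) * (Φ (cp a (b σ)) * krp 0 M o σ (cp a (b σ))))) := by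
    refine Tendsto.const_mul _ (tendsto_finsetSum _ fun σ _ => ?_)
    exact LS_limit χ hχ.continuous hc σ (b σ) M o Φ (hcont1 σ) (hhgt σ)
  refine le_of_tendsto (hlim1.sub hlim2).norm ?_
  have hmem : Set.Ioc (0 : ℝ) 1 ∈ 𝓝[>] (0 : ℝ) := Ioc_mem_nhdsGT zero_lt_one
  filter_upwards [hmem] with ε hε
  have hid := LS_identity χ hχ.continuous hc M o Φ hcont0 ε hε.1
  rw [hid, ← mul_sub, ← Finset.sum_sub_distrib, norm_mul, norm_pow, Complex.norm_natCast]
  have hsum : ‖∑ σ : ι → SignType,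
      ((∫ a : ι → ℝ, (χ a : ℂ) * (Φ (cp a 0) * krp ε M o σ (cp a 0))) -
        ∫ a : ι → ℝ, (χ a : ℂ) * (Φ (cp a (b σ)) * krp ε M o σ (cp a (b σ))))‖ ≤
      (∑ σ, C σ) * B := by
    refine (norm_sum_le _ _).trans ?_
    rw [Finset.sum_mul]
    refine Finset.sum_le_sum fun σ _ => ?_
    rw [norm_sub_rev]
    exact hC σ M o ε Φ B hM hε.1 hε.2 hB hΦ (hgrad σ)
  have hMd : (0 : ℝ) ≤ (M : ℝ) ^ Fintype.card ι := by positivity
  calc (M : ℝ) ^ Fintype.card ι * ‖∑ σ : ι → SignType,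
      ((∫ a : ι → ℝ, (χ a : ℂ) * (Φ (cp a 0) * krp ε M o σ (cp a 0))) -
        ∫ a : ι → ℝ, (χ a : ℂ) * (Φ (cp a (b σ)) * krp ε M o σ (cp a (b σ))))‖
      ≤ (M : ℝ) ^ Fintype.card ι * ((∑ σ, C σ) * B) := mul_le_mul_of_nonneg_left hsum hMd
    _ ≤ (1 + ∑ σ, C σ) * (M : ℝ) ^ Fintype.card ι * B := by
        have : 0 ≤ (M : ℝ) ^ Fintype.card ι * B := mul_nonneg hMd hB
        nlinarith

end Pool.Agent.H63.GO
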