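import Pool.Agent.H63.GO.PDefs
import Pool.Agent.H63.VC4.Brt

/-! # The coefficients of two full twists -/

namespace Pool.Agent.H63.GO

open Complex Filter Topology Pool.Agent.H63.VC Pool.Agent.H63.VC3

/-- The phase of the terms, in units of `π`. -/
private noncomputable def NN2_ph (n M k j : ℕ) : ℝ :=
  (k : ℝ) / 2 + ((k : ℝ) ^ 2 / 2 + ((n : ℝ) - 1 / 2) * k) / M +
    ((j : ℝ) * k + (j : ℝ) ^ 2 + 2 * ((n : ℝ) - 1) * j) / M

private theorem NN2_twistCoeff_one (a q : ℂ) (k : ℕ) : twistCoeff a q 1 k = 1 := by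
  rw [twistCoeff, Finset.sum_eq_single 0]
  · rw [qbin_zero, twistCoeff, if_pos rfl]
    simp
  · intro j _ hj
    rw [twistCoeff, if_neg hj]
    simp
  · intro h
    exact absurd (Finset.mem_range.2 (Nat.succ_pos k)) h

private theorem NN2_twistCoeff_two (n M k : ℕ) (hk : k < M) :
    twistCoeff (rt M ^ n) (rt M) 2 k = ∑ j ∈ Finset.range (k + 1),
      ((S M k / (S M j * S M (k - j)) : ℝ) : ℂ) *
        exp (Real.pi * I / M * (j * k + j ^ 2 + 2 * ((n : ℂ) - 1) * j)) := by
  rw [twistCoeff]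
  refine Finset.sum_congr rfl fun j hj => ?_
  have hjk : j ≤ k := Nat.lt_succ_iff.1 (Finset.mem_range.1 hj)
  rw [NN2_twistCoeff_one, mul_one, Pool.Agent.H63.VC4.qbin_rt M k j hjk hk]
  have h1 : (rt M ^ n) ^ j * rt M ^ (j * (j - 1)) =
      exp (Real.pi * I / M * (2 * (n * j) + 2 * (j * ((j : ℂ) - 1)))) := by
    rw [← pow_mul, ← pow_add, rt, ← Complex.exp_nat_mul]
    congr 1
    have h2 : (((j * (j - 1) : ℕ)) : ℂ) = j * ((j : ℂ) - 1) := by
      cases j with
      | zero => simp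
      | succ j => push_cast; simp
    push_cast [h2]
    ring
  rw [h1]
  have h3 : exp (Real.pi * I / M * (j * k + j ^ 2 + 2 * ((n : ℂ) - 1) * j)) =
      exp (Real.pi * I / M * (j * ((k : ℂ) - j))) *
        exp (Real.pi * I / M * (2 * (n * j) + 2 * (j * ((j : ℂ) - 1)))) := by
    rw [← Complex.exp_add]
    congr 1
    ring
  rw [h3]
  push_cast
  ring

/-- The kind 2 block identity, positive sign. -/
private theorem NN2_NN_two (n M k : ℕ) (hk : k < M) :
    NN 2 n M k = I * (-1) ^ (n + M) * ∑ j ∈ Finset.range (k + 1),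
      ((S M k / (S M j * S M (k - j)) : ℝ) : ℂ) * exp (Real.pi * I * NN2_ph n M k j) := by
  have hTh : (starRingEnd ℂ) (Th n M k) = I * (-1) ^ (n + M) *
      exp (Real.pi * I * ((k : ℂ) / 2 + ((k : ℂ) ^ 2 / 2 + ((n : ℂ) - 1 / 2) * k) / M)) := by
    unfold Th
    rw [map_mul, map_mul, map_mul, map_pow, map_pow, map_neg, map_neg, map_one, conj_I, neg_neg,
      ← Complex.exp_conj]
    have h1 : (starRingEnd ℂ) (-(Real.pi * I / M) * ((k : ℂ) * (n - 1) + k * (k + 1) / 2)) =
        Real.pi * I * (((k : ℂ) ^ 2 / 2 + ((n : ℂ) - 1 / 2) * k) / M) := by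
      simp only [map_mul, map_neg, map_div₀, map_add, map_sub, map_one, conj_I, conj_ofReal,
        map_natCast, map_ofNat]
      ring
    have h2 : (-1 : ℂ) ^ (n + k + M) * (-I) ^ k = (-1) ^ (n + M) * exp (Real.pi * I * ((k : ℂ) / 2)) := by
      have h3 := TermsA_I k
      rw [← h3]
      have h4 : (-1 : ℂ) ^ (n + k + M) = (-1) ^ (n + M) * (-1) ^ k := by
        rw [← pow_add]
        congr 1
        omega
      rw [h4, mul_assoc, ← mul_pow]
      simp
    rw [h1, mul_add (Real.pi * I), Complex.exp_add]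
    calc (-1 : ℂ) ^ (n + k + M) * I * (-I) ^ k *
          exp (Real.pi * I * (((k : ℂ) ^ 2 / 2 + ((n : ℂ) - 1 / 2) * k) / M))
        = ((-1 : ℂ) ^ (n + k + M) * (-I) ^ k) * I *
          exp (Real.pi * I * (((k : ℂ) ^ 2 / 2 + ((n : ℂ) - 1 / 2) * k) / M)) := by ring
      _ = _ := by rw [h2]; ring
  have h2 : NN 2 n M k = (starRingEnd ℂ) (Th n M k) * twistCoeff (rt M ^ n) (rt M) 2 k := by
    unfold NN
    rw [if_pos (by norm_num)]
    rfl
  rw [h2, hTh, NN2_twistCoeff_two n M k hk, mul_assoc, Finset.mul_sum]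
  congr 1
  refine Finset.sum_congr rfl fun j _ => ?_
  rw [mul_left_comm, ← Complex.exp_add]
  congr 2
  unfold NN2_ph
  push_cast
  ring

/-- The kind 2 block identity, negative sign. -/
private theorem NN2_NN_neg_two (n M k : ℕ) (hk : k < M) :
    NN (-2) n M k = I * (-1) ^ (n + M) * ∑ j ∈ Finset.range (k + 1),
      ((S M k / (S M j * S M (k - j)) : ℝ) : ℂ) * exp (-(Real.pi * I * NN2_ph n M k j)) := by
  have h1 : NN (-2) n M k = -(starRingEnd ℂ) (NN 2 n M k) := by
    unfold NN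
    rw [if_neg (by norm_num), if_pos (by norm_num), map_mul, Complex.conj_conj]
    have : (-(-2 : ℤ)).toNat = (2 : ℤ).toNat := rfl
    rw [this]
    ring
  rw [h1, NN2_NN_two n M k hk, map_mul, map_mul, conj_I, map_pow, map_neg, map_one, map_sum]
  rw [← neg_mul, ← neg_mul, neg_neg]
  congr 1
  refine Finset.sum_congr rfl fun j _ => ?_
  rw [map_mul, conj_ofReal, ← Complex.exp_conj]
  congr 2
  simp only [map_mul, conj_I, conj_ofReal]
  ring


private theorem NN2_phase (n M k j : ℕ) : exp (Real.pi * I * ph n M k j) = exp (Real.pi * I * NN2_ph n M k j) := by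
  have h1 : Real.pi * I * ph n M k j = Real.pi * I * NN2_ph n M k j - ((k + j : ℕ) : ℂ) * (2 * Real.pi * I) := by
    unfold ph NN2_ph
    push_cast
    ring
  rw [h1, Complex.exp_sub, Complex.exp_nat_mul_two_pi_mul_I, div_one]

private theorem NN2_phase_neg (n M k j : ℕ) :
    exp (-(Real.pi * I * ph n M k j)) = exp (-(Real.pi * I * NN2_ph n M k j)) := by
  rw [Complex.exp_neg, Complex.exp_neg, NN2_phase]

theorem nn2_sum (r : ℤ) (hr : |r| = 2) (n M k : ℕ) (hn : 2 ≤ n) (hM : 2 ≤ M)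
    (hk : k + n ≤ M + 1) :
    NN r n M k = I * (-1) ^ (n + M) * ∑ j ∈ Finset.range (k + 1),
      exp (Real.pi * I * r / 2 * ph n M k j) *
        ((S M k / (S M j * S M (k - j)) : ℝ) : ℂ) := by
  have hkM : k < M := by omega
  rcases (abs_eq (by norm_num : (0 : ℤ) ≤ 2)).1 hr with h | h
  · subst h
    rw [NN2_NN_two n M k hkM]
    congr 1
    refine Finset.sum_congr rfl fun j _ => ?_
    rw [mul_comm, ← NN2_phase]
    congr 2
    push_cast
    ring
  · subst h
    rw [NN2_NN_neg_two n M k hkM]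
    congr 1
    refine Finset.sum_congr rfl fun j _ => ?_
    rw [mul_comm, ← NN2_phase_neg]
    congr 2
    push_cast
    ring

end Pool.Agent.H63.GO
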