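import Pool.Agent.H63.GO.NegDefs
import Pool.Agent.H63.GO.PDer
import Pool.Agent.H63.VC3.Tube

/-! # Negativity of the second derivative: the blocks -/

namespace Pool.Agent.H63.GO

open Complex Filter Topology Pool.Agent.H63.VC Pool.Agent.H63.VC3

/-- the real part of the cotangent -/
noncomputable def NegBlk_g (u b : ℝ) : ℝ :=
  Real.sin (Real.pi * u) * Real.cos (Real.pi * u) /
    (Real.sin (Real.pi * u) ^ 2 + Real.sinh (Real.pi * b) ^ 2)

theorem NegBlk_re (u b : ℝ) (z : ℂ) (hz : z = u + b * I) :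
    (Real.pi * Complex.cot (Real.pi * z)).re = Real.pi * NegBlk_g u b := by
  rw [Tube_cot_re', hz]
  simp [NegBlk_g]

theorem NegBlk_quad (A B N p q : ℝ) (hA : 0 < A) (hB : B < 0) (hN : 0 < N)
    (h : N ≤ -(1 / A + 1 / B)) : -A * p ^ 2 - B * q ^ 2 ≤ 1 / N * (p + q) ^ 2 ∧ 0 < A + B := by
  have hAB : A * B < 0 := mul_neg_of_pos_of_neg hA hB
  have e1 : 1 / A + 1 / B = (A + B) / (A * B) := by
    have hA' := hA.ne'
    have hB' := hB.ne
    field_simp
    ring
  have hS : 0 < A + B := by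
    by_contra hneg
    push Not at hneg
    have : 0 ≤ (A + B) / (A * B) := div_nonneg_of_nonpos hneg hAB.le
    rw [e1] at h
    linarith
  refine ⟨?_, hS⟩
  have h1 : -(A * B / (A + B)) ≤ 1 / N := by
    rw [e1] at h
    have h2 : -((A + B) / (A * B)) = (A + B) / (-(A * B)) := by
      rw [div_neg]
    rw [h2] at h
    have h3 : -(A * B / (A + B)) = 1 / ((A + B) / (-(A * B))) := by
      rw [one_div_div, neg_div]
    rw [h3]
    exact one_div_le_one_div_of_le hN h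
  have h4 : -A * p ^ 2 - B * q ^ 2 = -(A * B / (A + B)) * (p + q) ^ 2 - (A * p - B * q) ^ 2 / (A + B) := by
    field_simp
    ring
  rw [h4]
  have h5 : 0 ≤ (A * p - B * q) ^ 2 / (A + B) := by positivity
  have h6 := mul_le_mul_of_nonneg_right h1 (sq_nonneg (p + q))
  linarith

theorem NegBlk_pos (u b : ℝ) (h0 : 0 < u) (h1 : u < 1 / 2) : 0 < NegBlk_g u b := by
  have hpi := Real.pi_pos
  have hs : 0 < Real.sin (Real.pi * u) := Real.sin_pos_of_pos_of_lt_pi
    (by positivity) (by nlinarith [Real.pi_pos])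
  have hc : 0 < Real.cos (Real.pi * u) := Real.cos_pos_of_mem_Ioo
    ⟨by nlinarith [Real.pi_pos], by nlinarith [Real.pi_pos]⟩
  unfold NegBlk_g
  positivity

theorem NegBlk_core (X a K u1 b1 u2 b2 : ℝ) (hX : u1 + u2 = X) (ha : 0 < a) (ha1 : a ≤ u1)
    (h2 : 1 / 2 < u2) (hX1 : X + a ≤ 1) (hb : |b1| ≤ K) :
    NegBlk_g u2 b2 < 0 ∧
    Real.sin (Real.pi * X) / (Real.sin (Real.pi * (X - a - 1 / 2)) * Real.cos (Real.pi * a)) -
      (Real.cosh (2 * Real.pi * K) - 1) / Real.sin (2 * Real.pi * a) ≤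
    -(1 / NegBlk_g u1 b1 + 1 / NegBlk_g u2 b2) := by
  have hpi := Real.pi_pos
  have hu1 : u1 < 1 / 2 - a := by linarith
  have hu2 : u2 < 1 := by linarith
  have S1 : 0 < Real.sin (Real.pi * u1) := Real.sin_pos_of_pos_of_lt_pi
    (by nlinarith) (by nlinarith)
  have C1 : 0 < Real.cos (Real.pi * u1) := Real.cos_pos_of_mem_Ioo
    ⟨by nlinarith, by nlinarith⟩
  have S2 : 0 < Real.sin (Real.pi * u2) := Real.sin_pos_of_pos_of_lt_pi
    (by nlinarith) (by nlinarith)
  have C2 : Real.cos (Real.pi * u2) < 0 := Real.cos_neg_of_pi_div_two_lt_of_lt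
    (by nlinarith) (by nlinarith)
  have hB : NegBlk_g u2 b2 < 0 := by
    unfold NegBlk_g
    exact div_neg_of_neg_of_pos (mul_neg_of_pos_of_neg S2 C2) (by positivity)
  refine ⟨hB, ?_⟩
  set H : ℝ := Real.sinh (Real.pi * K) ^ 2 with hH
  have hK : 0 ≤ K := (abs_nonneg _).trans hb
  have hh1 : Real.sinh (Real.pi * b1) ^ 2 ≤ H := by
    rw [hH, ← sq_abs (Real.sinh (Real.pi * b1)), Real.abs_sinh, abs_mul, abs_of_pos hpi]
    have h3 : Real.sinh (Real.pi * |b1|) ≤ Real.sinh (Real.pi * K) :=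
      Real.sinh_le_sinh.2 (mul_le_mul_of_nonneg_left hb hpi.le)
    have h4 : 0 ≤ Real.sinh (Real.pi * |b1|) := Real.sinh_nonneg_iff.2 (by positivity)
    exact pow_le_pow_left₀ h4 h3 2
  have hh2 : 0 ≤ Real.sinh (Real.pi * b2) ^ 2 := sq_nonneg _
  have hH0 : 0 ≤ H := sq_nonneg _
  have hcosh : Real.cosh (2 * Real.pi * K) - 1 = 2 * H := by
    rw [show 2 * Real.pi * K = 2 * (Real.pi * K) by ring, Real.cosh_two_mul, hH]
    have := Real.cosh_sq (Real.pi * K)
    linarith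
  have hsa : 0 < Real.sin (2 * Real.pi * a) := Real.sin_pos_of_pos_of_lt_pi
    (by positivity) (by nlinarith)
  have hsau : Real.sin (2 * Real.pi * a) ≤ Real.sin (2 * Real.pi * u1) := by
    have e1 := Real.sin_sub_sin (2 * Real.pi * u1) (2 * Real.pi * a)
    have e2 : 0 ≤ Real.sin ((2 * Real.pi * u1 - 2 * Real.pi * a) / 2) :=
      Real.sin_nonneg_of_nonneg_of_le_pi (by nlinarith) (by nlinarith)
    have e3 : 0 ≤ Real.cos ((2 * Real.pi * u1 + 2 * Real.pi * a) / 2) :=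
      Real.cos_nonneg_of_mem_Icc ⟨by nlinarith, by nlinarith⟩
    nlinarith [mul_nonneg e2 e3]
  have hs2 : Real.sin (2 * Real.pi * u1) = 2 * (Real.sin (Real.pi * u1) * Real.cos (Real.pi * u1)) := by
    rw [show 2 * Real.pi * u1 = 2 * (Real.pi * u1) by ring, Real.sin_two_mul]
    ring
  -- first part
  have hC2 : -Real.cos (Real.pi * u2) = Real.sin (Real.pi * (u2 - 1 / 2)) := by
    rw [show Real.pi * (u2 - 1 / 2) = Real.pi * u2 - Real.pi / 2 by ring, Real.sin_sub_pi_div_two]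
  have hmain : Real.cos (Real.pi * u1) * -Real.cos (Real.pi * u2) ≤
      Real.sin (Real.pi * (X - a - 1 / 2)) * Real.cos (Real.pi * a) := by
    have e1 : Real.cos (Real.pi * u1) * -Real.cos (Real.pi * u2) =
        (Real.sin (Real.pi * (X - 1 / 2)) + Real.sin (Real.pi * (X - 1 / 2 - 2 * u1))) / 2 := by
      rw [hC2, show Real.pi * (X - 1 / 2) = Real.pi * (u2 - 1 / 2) + Real.pi * u1 by rw [← hX]; ring,
        show Real.pi * (X - 1 / 2 - 2 * u1) = Real.pi * (u2 - 1 / 2) - Real.pi * u1 by rw [← hX]; ring,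
        Real.sin_add, Real.sin_sub]
      ring
    have e2 : Real.sin (Real.pi * (X - a - 1 / 2)) * Real.cos (Real.pi * a) =
        (Real.sin (Real.pi * (X - 1 / 2)) + Real.sin (Real.pi * (X - 1 / 2 - 2 * a))) / 2 := by
      rw [show Real.pi * (X - 1 / 2) = Real.pi * (X - a - 1 / 2) + Real.pi * a by ring,
        show Real.pi * (X - 1 / 2 - 2 * a) = Real.pi * (X - a - 1 / 2) - Real.pi * a by ring,
        Real.sin_add, Real.sin_sub]
      ring
    have e3 : Real.sin (Real.pi * (X - 1 / 2 - 2 * u1)) ≤ Real.sin (Real.pi * (X - 1 / 2 - 2 * a)) :=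
      Real.sin_le_sin_of_le_of_le_pi_div_two (by nlinarith) (by nlinarith) (by nlinarith)
    rw [e1, e2]
    linarith
  have hpos1 : 0 < Real.cos (Real.pi * u1) * -Real.cos (Real.pi * u2) := mul_pos C1 (by linarith)
  have hX0 : 0 < Real.sin (Real.pi * X) := Real.sin_pos_of_pos_of_lt_pi
    (by nlinarith) (by nlinarith)
  have t1 : Real.sin (Real.pi * X) / (Real.sin (Real.pi * (X - a - 1 / 2)) * Real.cos (Real.pi * a)) ≤
      Real.sin (Real.pi * X) / (Real.cos (Real.pi * u1) * -Real.cos (Real.pi * u2)) :=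
    div_le_div_of_nonneg_left hX0.le hpos1 hmain
  have t2 : Real.sinh (Real.pi * b1) ^ 2 / (Real.sin (Real.pi * u1) * Real.cos (Real.pi * u1)) ≤
      (Real.cosh (2 * Real.pi * K) - 1) / Real.sin (2 * Real.pi * a) := by
    rw [hcosh]
    have e1 : Real.sinh (Real.pi * b1) ^ 2 / (Real.sin (Real.pi * u1) * Real.cos (Real.pi * u1)) =
        2 * Real.sinh (Real.pi * b1) ^ 2 / Real.sin (2 * Real.pi * u1) := by
      rw [hs2]
      field_simp
    rw [e1]
    exact div_le_div₀ (by positivity) (by linarith) hsa hsau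
  have t3 : Real.sinh (Real.pi * b2) ^ 2 / (Real.sin (Real.pi * u2) * Real.cos (Real.pi * u2)) ≤ 0 :=
    div_nonpos_of_nonneg_of_nonpos hh2 (mul_neg_of_pos_of_neg S2 C2).le
  have e4 : Real.sin (Real.pi * X) / (Real.cos (Real.pi * u1) * -Real.cos (Real.pi * u2)) =
      -(Real.sin (Real.pi * u1) / Real.cos (Real.pi * u1) + Real.sin (Real.pi * u2) / Real.cos (Real.pi * u2)) := by
    rw [← hX, show Real.pi * (u1 + u2) = Real.pi * u1 + Real.pi * u2 by ring, Real.sin_add]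
    have h5 : Real.cos (Real.pi * u2) ≠ 0 := C2.ne
    field_simp
  have e5 : 1 / NegBlk_g u1 b1 = Real.sin (Real.pi * u1) / Real.cos (Real.pi * u1) +
      Real.sinh (Real.pi * b1) ^ 2 / (Real.sin (Real.pi * u1) * Real.cos (Real.pi * u1)) := by
    unfold NegBlk_g
    rw [one_div_div]
    field_simp
  have e6 : 1 / NegBlk_g u2 b2 = Real.sin (Real.pi * u2) / Real.cos (Real.pi * u2) +
      Real.sinh (Real.pi * b2) ^ 2 / (Real.sin (Real.pi * u2) * Real.cos (Real.pi * u2)) := by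
    unfold NegBlk_g
    have h5 : Real.cos (Real.pi * u2) ≠ 0 := C2.ne
    rw [one_div_div]
    field_simp
  rw [e5, e6]
  linarith

theorem NegBlk_two (X a K u1 b1 u2 b2 p q : ℝ) (hX : u1 + u2 = X) (ha : 0 < a) (ha1 : a ≤ u1)
    (h12 : u1 ≤ u2) (hX1 : X + a ≤ 1) (hb : |b1| ≤ K) (N L : ℝ)
    (hN : N = Real.sin (Real.pi * X) / (Real.sin (Real.pi * (X - a - 1 / 2)) * Real.cos (Real.pi * a)) -
      (Real.cosh (2 * Real.pi * K) - 1) / Real.sin (2 * Real.pi * a))
    (hL : L = if X - a ≤ 1 / 2 then 0 else 1 / N) (hpos : X - a ≤ 1 / 2 ∨ 0 < N) :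
    -NegBlk_g u1 b1 * p ^ 2 - NegBlk_g u2 b2 * q ^ 2 ≤ L * (p + q) ^ 2 ∧
      0 < NegBlk_g u1 b1 + NegBlk_g u2 b2 := by
  have hu1 : u1 < 1 / 2 := by linarith
  have hA := NegBlk_pos u1 b1 (by linarith) hu1
  have hL0 : 0 ≤ L := by
    rw [hL]
    split_ifs with h
    · exact le_rfl
    · rcases hpos with h' | h'
      · exact absurd h' h
      · positivity
  rcases le_or_gt u2 (1 / 2) with h2 | h2
  · have hB : 0 ≤ NegBlk_g u2 b2 := by
      rcases eq_or_lt_of_le h2 with h3 | h3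
      · have : Real.cos (Real.pi * u2) = 0 := by
          rw [h3, show Real.pi * (1 / 2) = Real.pi / 2 by ring, Real.cos_pi_div_two]
        simp [NegBlk_g, this]
      · exact (NegBlk_pos u2 b2 (by linarith) h3).le
    refine ⟨?_, by linarith⟩
    have h3 : 0 ≤ L * (p + q) ^ 2 := by positivity
    nlinarith [mul_nonneg hA.le (sq_nonneg p), mul_nonneg hB (sq_nonneg q)]
  · obtain ⟨hB, h3⟩ := NegBlk_core X a K u1 b1 u2 b2 hX ha ha1 h2 hX1 hb
    have hnot : ¬ X - a ≤ 1 / 2 := by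
      intro h
      linarith
    have hN0 : 0 < N := by
      rcases hpos with h | h
      · exact absurd h hnot
      · exact h
    rw [hL, if_neg hnot]
    rw [← hN] at h3
    exact NegBlk_quad _ _ N p q hA hB hN0 h3

theorem neg_x (y b : ℝ) (hy : 11 / 100 ≤ y) (hy' : y ≤ 38 / 100) (hb : |b| ≤ 5 / 100) :
    (Real.pi * Complex.cot (Real.pi * ((y + 1 / 2 : ℝ) + b * I))).re ≤ -(Real.pi * TN y) := by
  have hpi := Real.pi_pos
  rw [NegBlk_re (y + 1 / 2) b _ rfl, ← mul_neg]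
  refine mul_le_mul_of_nonneg_left ?_ hpi.le
  have hs : Real.sin (Real.pi * (y + 1 / 2)) = Real.cos (Real.pi * y) := by
    rw [show Real.pi * (y + 1 / 2) = Real.pi * y + Real.pi / 2 by ring, Real.sin_add_pi_div_two]
  have hc : Real.cos (Real.pi * (y + 1 / 2)) = -Real.sin (Real.pi * y) := by
    rw [show Real.pi * (y + 1 / 2) = Real.pi * y + Real.pi / 2 by ring, Real.cos_add_pi_div_two]
  have S : 0 < Real.sin (Real.pi * y) := Real.sin_pos_of_pos_of_lt_pi
    (by nlinarith) (by nlinarith)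
  have C : 0 < Real.cos (Real.pi * y) := Real.cos_pos_of_mem_Ioo
    ⟨by nlinarith, by nlinarith⟩
  have hsinh : Real.sinh (Real.pi * b) ^ 2 ≤ Real.sinh (Real.pi * (5 / 100)) ^ 2 := by
    rw [← sq_abs (Real.sinh (Real.pi * b)), Real.abs_sinh, abs_mul, abs_of_pos hpi]
    have h3 : Real.sinh (Real.pi * |b|) ≤ Real.sinh (Real.pi * (5 / 100)) :=
      Real.sinh_le_sinh.2 (mul_le_mul_of_nonneg_left hb hpi.le)
    have h4 : 0 ≤ Real.sinh (Real.pi * |b|) := Real.sinh_nonneg_iff.2 (by positivity)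
    exact pow_le_pow_left₀ h4 h3 2
  have e1 : Real.cosh (2 * Real.pi * (5 / 100)) + Real.cos (2 * Real.pi * y) =
      2 * (Real.cos (Real.pi * y) ^ 2 + Real.sinh (Real.pi * (5 / 100)) ^ 2) := by
    rw [show 2 * Real.pi * (5 / 100) = 2 * (Real.pi * (5 / 100)) by ring, Real.cosh_two_mul,
      show 2 * Real.pi * y = 2 * (Real.pi * y) by ring, Real.cos_two_mul]
    have := Real.cosh_sq (Real.pi * (5 / 100))
    linarith
  have e2 : TN y = Real.cos (Real.pi * y) * Real.sin (Real.pi * y) /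
      (Real.cos (Real.pi * y) ^ 2 + Real.sinh (Real.pi * (5 / 100)) ^ 2) := by
    unfold TN
    rw [e1, show 2 * Real.pi * y = 2 * (Real.pi * y) by ring, Real.sin_two_mul]
    have h5 : Real.cos (Real.pi * y) ^ 2 + Real.sinh (Real.pi * (5 / 100)) ^ 2 ≠ 0 := by positivity
    field_simp
  rw [e2]
  unfold NegBlk_g
  rw [hs, hc, mul_neg, neg_div]
  refine neg_le_neg ?_
  exact div_le_div_of_nonneg_left (by positivity) (by positivity) (by linarith)

/-- A block with `3 ≤ |r|`: the quadratic form is at most its part in `ξ 0` plus the loss. -/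
theorem neg_blk3 (r : ℤ) (hr : 3 ≤ |r|) (y v b c : ℝ) (hy : 11 / 100 ≤ y) (hy' : y ≤ 375 / 1000)
    (hv : |v| ≤ 87 / 100 * y) (hbc : |b| + |c| ≤ 65 / 1000) (hN : 187 / 100 * y ≤ 1 / 2 ∨ 0 < N3 y)
    (s t : ℝ) :
    (BQ r ((y + 1 / 2 : ℝ) + b * I) (v + c * I) s t).re ≤
      (Real.pi * Complex.cot (Real.pi * ((y + 1 / 2 : ℝ) + b * I))).re * s ^ 2 +
        Real.pi * L3 y * s ^ 2 ∧
    (t ≠ 0 → s = 0 → (BQ r ((y + 1 / 2 : ℝ) + b * I) (v + c * I) s t).re < 0) := by
  have hpi := Real.pi_pos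
  have hbc1 : |b - c| ≤ 65 / 1000 := (abs_sub _ _).trans hbc
  have hbc2 : |b + c| ≤ 65 / 1000 := (abs_add_le _ _).trans hbc
  have key : ∀ p q : ℝ, -NegBlk_g (y - v) (b - c) * p ^ 2 - NegBlk_g (y + v) (b + c) * q ^ 2 ≤
      L3 y / 4 * (p + q) ^ 2 ∧ 0 < NegBlk_g (y - v) (b - c) + NegBlk_g (y + v) (b + c) := by
    intro p q
    have hN3 : N3 y = Real.sin (Real.pi * (2 * y)) / (Real.sin (Real.pi * (2 * y - 13 / 100 * y - 1 / 2)) *
        Real.cos (Real.pi * (13 / 100 * y))) -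
        (Real.cosh (2 * Real.pi * (65 / 1000)) - 1) / Real.sin (2 * Real.pi * (13 / 100 * y)) := by
      unfold N3
      rw [show 2 * Real.pi * y = Real.pi * (2 * y) by ring,
        show 2 * y - 13 / 100 * y - 1 / 2 = 187 / 100 * y - 1 / 2 by ring]
    have hL3 : L3 y / 4 = if 2 * y - 13 / 100 * y ≤ 1 / 2 then 0 else 1 / N3 y := by
      unfold L3
      rw [show 2 * y - 13 / 100 * y = 187 / 100 * y by ring]
      split_ifs
      · simp
      · ring
    have hN' : 2 * y - 13 / 100 * y ≤ 1 / 2 ∨ 0 < N3 y := by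
      rwa [show 2 * y - 13 / 100 * y = 187 / 100 * y by ring]
    rcases le_total 0 v with h0 | h0
    · rw [abs_of_nonneg h0] at hv
      exact NegBlk_two (2 * y) (13 / 100 * y) (65 / 1000) (y - v) (b - c) (y + v) (b + c) p q
        (by ring) (by linarith) (by linarith) (by linarith) (by linarith) hbc1 (N3 y) (L3 y / 4) hN3 hL3 hN'
    · rw [abs_of_nonpos h0] at hv
      have := NegBlk_two (2 * y) (13 / 100 * y) (65 / 1000) (y + v) (b + c) (y - v) (b - c) q p
        (by ring) (by linarith) (by linarith) (by linarith) (by linarith) hbc2 (N3 y) (L3 y / 4) hN3 hL3 hN'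
      refine ⟨?_, by linarith [this.2]⟩
      have h1 := this.1
      rw [add_comm q p] at h1
      linarith
  have e1 := NegBlk_re (y - v) (b - c) (((y + 1 / 2 : ℝ) : ℂ) + b * I - 1 / 2 - (v + c * I))
    (by push_cast; ring)
  have e2 := NegBlk_re (y + v) (b + c) (((y + 1 / 2 : ℝ) : ℂ) + b * I - 1 / 2 + (v + c * I))
    (by push_cast; ring)
  have hre : (BQ r ((y + 1 / 2 : ℝ) + b * I) (v + c * I) s t).re =
      (Real.pi * Complex.cot (Real.pi * ((y + 1 / 2 : ℝ) + b * I))).re * s ^ 2 -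
      Real.pi * NegBlk_g (y - v) (b - c) * (s - t) ^ 2 -
      Real.pi * NegBlk_g (y + v) (b + c) * (s + t) ^ 2 := by
    rw [← e1, ← e2]
    unfold BQ
    rw [if_pos hr]
    have q1 : ((s : ℂ)) ^ 2 = ((s ^ 2 : ℝ) : ℂ) := by push_cast; ring
    have q2 : ((s : ℂ) - t) ^ 2 = (((s - t) ^ 2 : ℝ) : ℂ) := by push_cast; ring
    have q3 : ((s : ℂ) + t) ^ 2 = (((s + t) ^ 2 : ℝ) : ℂ) := by push_cast; ring
    have q4 : 4 * (Real.pi : ℂ) * I * r * (t : ℂ) ^ 2 = ((4 * Real.pi * r * t ^ 2 : ℝ) : ℂ) * I := by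
      push_cast; ring
    rw [q1, q2, q3, q4]
    simp only [Complex.add_re, Complex.sub_re, Complex.re_mul_ofReal, Complex.re_ofReal_mul,
      Complex.I_re, mul_zero, add_zero]
  constructor
  · rw [hre]
    have h1 := (key (s - t) (s + t)).1
    have h2 : s - t + (s + t) = 2 * s := by ring
    rw [h2] at h1
    nlinarith [mul_le_mul_of_nonneg_left h1 hpi.le]
  · intro ht hs
    rw [hre, hs]
    have h1 := (key 0 0).2
    have h2 : 0 < t ^ 2 := by positivity
    nlinarith [mul_pos (mul_pos hpi h1) h2]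

/-- A block with `|r| = 2`. -/
theorem neg_blk2 (r : ℤ) (hr : |r| = 2) (y l b c : ℝ) (hy : 11 / 100 ≤ y) (hy' : y ≤ 38 / 100)
    (hl : |l - (y + 1 / 2) / 2| ≤ 41 / 100 * (y + 1 / 2)) (hc : |c| ≤ 7 / 100)
    (hbc : |b - c| ≤ 7 / 100)
    (hN : 91 / 100 * (y + 1 / 2) ≤ 1 / 2 ∨ 0 < N2 (y + 1 / 2)) (s t : ℝ) :
    (BQ r ((y + 1 / 2 : ℝ) + b * I) (l + c * I) s t).re ≤
      (Real.pi * Complex.cot (Real.pi * ((y + 1 / 2 : ℝ) + b * I))).re * s ^ 2 +
        Real.pi * L2 y * s ^ 2 ∧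
    (t ≠ 0 → s = 0 → (BQ r ((y + 1 / 2 : ℝ) + b * I) (l + c * I) s t).re < 0) := by
  have hpi := Real.pi_pos
  set x : ℝ := y + 1 / 2 with hx
  have key : ∀ p q : ℝ, -NegBlk_g l c * p ^ 2 - NegBlk_g (x - l) (b - c) * q ^ 2 ≤
      L2 y * (p + q) ^ 2 ∧ 0 < NegBlk_g l c + NegBlk_g (x - l) (b - c) := by
    intro p q
    have hN2 : N2 x = Real.sin (Real.pi * x) / (Real.sin (Real.pi * (x - 9 / 100 * x - 1 / 2)) *
        Real.cos (Real.pi * (9 / 100 * x))) -
        (Real.cosh (2 * Real.pi * (7 / 100)) - 1) / Real.sin (2 * Real.pi * (9 / 100 * x)) := by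
      unfold N2
      rw [show x - 9 / 100 * x - 1 / 2 = 91 / 100 * x - 1 / 2 by ring]
    have hL2 : L2 y = if x - 9 / 100 * x ≤ 1 / 2 then 0 else 1 / N2 x := by
      unfold L2
      rw [show x - 9 / 100 * x = 91 / 100 * x by ring]
    have hN' : x - 9 / 100 * x ≤ 1 / 2 ∨ 0 < N2 x := by
      rwa [show x - 9 / 100 * x = 91 / 100 * x by ring]
    have hl' := abs_le.1 hl
    rcases le_total l (x - l) with h0 | h0
    · exact NegBlk_two x (9 / 100 * x) (7 / 100) l c (x - l) (b - c) p q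
        (by ring) (by linarith) (by linarith) h0 (by linarith) hc (N2 x) (L2 y) hN2 hL2 hN'
    · have := NegBlk_two x (9 / 100 * x) (7 / 100) (x - l) (b - c) l c q p
        (by ring) (by linarith) (by linarith) h0 (by linarith) hbc (N2 x) (L2 y) hN2 hL2 hN'
      refine ⟨?_, by linarith [this.2]⟩
      have h1 := this.1
      rw [add_comm q p] at h1
      linarith
  have e1 := NegBlk_re l c ((l : ℂ) + c * I) rfl
  have e2 := NegBlk_re (x - l) (b - c) ((x : ℂ) + b * I - (l + c * I))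
    (by push_cast; ring)
  have hr' : ¬ 3 ≤ |r| := by rw [hr]; norm_num
  have hre : (BQ r ((x : ℝ) + b * I) (l + c * I) s t).re =
      (Real.pi * Complex.cot (Real.pi * ((x : ℝ) + b * I))).re * s ^ 2 -
      Real.pi * NegBlk_g l c * t ^ 2 -
      Real.pi * NegBlk_g (x - l) (b - c) * (s - t) ^ 2 := by
    rw [← e1, ← e2]
    unfold BQ
    rw [if_neg hr']
    have q1 : ((s : ℂ)) ^ 2 = ((s ^ 2 : ℝ) : ℂ) := by push_cast; ring
    have q2 : ((s : ℂ) - t) ^ 2 = (((s - t) ^ 2 : ℝ) : ℂ) := by push_cast; ring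
    have q3 : ((t : ℂ)) ^ 2 = ((t ^ 2 : ℝ) : ℂ) := by push_cast; ring
    have q4 : (Real.pi : ℂ) * I * r / 2 * (((s ^ 2 : ℝ) : ℂ) + 2 * ((t ^ 2 : ℝ) : ℂ) + 2 * s * t) =
        ((Real.pi * r / 2 * (s ^ 2 + 2 * t ^ 2 + 2 * s * t) : ℝ) : ℂ) * I := by
      push_cast; ring
    rw [q1, q2, q3, q4]
    simp only [Complex.add_re, Complex.sub_re, Complex.re_mul_ofReal, Complex.re_ofReal_mul,
      Complex.I_re, mul_zero, add_zero]
  constructor
  · rw [hre]
    have h1 := (key t (s - t)).1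
    have h2 : t + (s - t) = s := by ring
    rw [h2] at h1
    nlinarith [mul_le_mul_of_nonneg_left h1 hpi.le]
  · intro ht hs
    rw [hre, hs]
    have h1 := (key 0 0).2
    have h2 : 0 < t ^ 2 := by positivity
    nlinarith [mul_pos (mul_pos hpi h1) h2]

end Pool.Agent.H63.GO
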