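import Pool.Agent.H63.VC.Defs
import Pool.Agent.H63.VC3.ClausenA

/-! # Negativity of the second derivative: definitions -/

namespace Pool.Agent.H63.GO

open Complex Filter Topology Pool.Agent.H63.VC Pool.Agent.H63.VC3

/-- Lower bound for `-Re cot (π x)`, `x = y + 1 / 2 + i b` with `|b| ≤ 5 / 100`. -/
noncomputable def TN (y : ℝ) : ℝ :=
  Real.sin (2 * Real.pi * y) / (Real.cosh (2 * Real.pi * (5 / 100)) + Real.cos (2 * Real.pi * y))

/-- The function of the wall `|v| = 87 / 100 y`; `s = 13 / 100 y`, `d = 2 y - 1 / 2 - s`. -/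
noncomputable def N3 (y : ℝ) : ℝ :=
  Real.sin (2 * Real.pi * y) / (Real.sin (Real.pi * (187 / 100 * y - 1 / 2)) *
    Real.cos (Real.pi * (13 / 100 * y))) -
  (Real.cosh (2 * Real.pi * (65 / 1000)) - 1) / Real.sin (2 * Real.pi * (13 / 100 * y))

/-- The function of the wall `|l - x / 2| = 41 / 100 x`; `s = 9 / 100 x`, `x - s = 91 / 100 x`. -/
noncomputable def N2 (x : ℝ) : ℝ :=
  Real.sin (Real.pi * x) / (Real.sin (Real.pi * (91 / 100 * x - 1 / 2)) *
    Real.cos (Real.pi * (9 / 100 * x))) -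
  (Real.cosh (2 * Real.pi * (7 / 100)) - 1) / Real.sin (2 * Real.pi * (9 / 100 * x))

/-- The loss of a block with `3 ≤ |r|`. -/
noncomputable def L3 (y : ℝ) : ℝ := if 187 / 100 * y ≤ 1 / 2 then 0 else 4 / N3 y

/-- The loss of a block with `|r| = 2`, `x = y + 1 / 2`. -/
noncomputable def L2 (y : ℝ) : ℝ :=
  if 91 / 100 * (y + 1 / 2) ≤ 1 / 2 then 0 else 1 / N2 (y + 1 / 2)

end Pool.Agent.H63.GO
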