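import Pool.Agent.H63.GO.Defs

/-! # The Poisson kernel -/

namespace Pool.Agent.H63.GO

open Complex Filter Topology MeasureTheory
open scoped BigOperators

private theorem PKern_q_lt (ε : ℝ) (hε : 0 < ε) : Real.exp (-(2 * Real.pi * ε)) < 1 := by
  rw [Real.exp_lt_one_iff]
  have := Real.pi_pos
  have : 0 < 2 * Real.pi * ε := by positivity
  linarith

private theorem PKern_den (q t : ℝ) : 1 - 2 * q * Real.cos t + q ^ 2 =
    (1 - q) ^ 2 + 2 * q * (1 - Real.cos t) := by ring

private theorem PKern_den_pos (q t : ℝ) (h0 : 0 < q) (h1 : q < 1) :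
    0 < 1 - 2 * q * Real.cos t + q ^ 2 := by
  rw [PKern_den]
  have h2 := Real.cos_le_one t
  have h3 : 0 < (1 - q) ^ 2 := by
    apply pow_pos
    linarith
  have h4 : 0 ≤ 2 * q * (1 - Real.cos t) := by
    apply mul_nonneg
    · linarith
    · linarith
  linarith

theorem PK_nonneg (ε x : ℝ) (hε : 0 < ε) : 0 ≤ PK ε x := by
  unfold PK
  have h0 := Real.exp_pos (-(2 * Real.pi * ε))
  have h1 := PKern_q_lt ε hε
  apply div_nonneg
  · nlinarith
  · exact (PKern_den_pos _ _ h0 h1).le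

theorem PK_continuous (ε : ℝ) (hε : 0 < ε) : Continuous (PK ε) := by
  unfold PK
  have h0 := Real.exp_pos (-(2 * Real.pi * ε))
  have h1 := PKern_q_lt ε hε
  apply Continuous.div
  · exact continuous_const
  · fun_prop
  · intro x
    exact (PKern_den_pos _ _ h0 h1).ne'

theorem PK_add_int (ε x : ℝ) (k : ℤ) : PK ε (x + k) = PK ε x := by
  unfold PK
  have h : 2 * Real.pi * (x + k) = 2 * Real.pi * x + k * (2 * Real.pi) := by ring
  rw [h, Real.cos_add_int_mul_two_pi]

private theorem PKern_alg (q u v : ℂ) (huv : u * v = 1) (h1 : 1 - q * u ≠ 0)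
    (h2 : 1 - q * v ≠ 0) :
    1 + q * u / (1 - q * u) + q * v / (1 - q * v) = (1 - q ^ 2) / (1 - q * (u + v) + q ^ 2) := by
  have h3 : 1 - q * (u + v) + q ^ 2 = (1 - q * u) * (1 - q * v) := by
    linear_combination (-q ^ 2) * huv
  rw [h3]
  field_simp
  linear_combination (-q ^ 2) * huv

private theorem PKern_ne (q t : ℝ) (h0 : 0 < q) (h1 : q < 1) :
    1 - (q : ℂ) * exp (t * I) ≠ 0 := by
  intro h
  have h2 : (q : ℂ) * exp (t * I) = 1 := by linear_combination -h
  have h3 := congrArg norm h2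
  rw [norm_mul, Complex.norm_exp_ofReal_mul_I, norm_one, mul_one, Complex.norm_real,
    Real.norm_of_nonneg h0.le] at h3
  linarith

private theorem PKern_cos (t : ℝ) : exp (t * I) + exp ((-t : ℝ) * I) = 2 * (Real.cos t : ℂ) := by
  rw [Complex.ofReal_cos, Complex.cos]
  push_cast
  ring_nf

private theorem PKern_kr_sum (q t : ℝ) (h0 : 0 < q) (h1 : q < 1) :
    1 + (q : ℂ) * exp (t * I) / (1 - q * exp (t * I)) +
      (q : ℂ) * exp ((-t : ℝ) * I) / (1 - q * exp ((-t : ℝ) * I)) =
      (((1 - q ^ 2) / (1 - 2 * q * Real.cos t + q ^ 2) : ℝ) : ℂ) := by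
  rw [PKern_alg _ _ _ _ (PKern_ne q t h0 h1) (PKern_ne q (-t) h0 h1), PKern_cos]
  · push_cast
    ring_nf
  · rw [← Complex.exp_add]
    push_cast
    ring_nf
    exact Complex.exp_zero

private theorem PKern_kap (ε x : ℝ) :
    kap ((x : ℂ) + ε * I) = ((Real.exp (-(2 * Real.pi * ε)) : ℝ) : ℂ) *
      exp ((2 * Real.pi * x : ℝ) * I) /
      (1 - ((Real.exp (-(2 * Real.pi * ε)) : ℝ) : ℂ) * exp ((2 * Real.pi * x : ℝ) * I)) := by
  have h : exp (2 * Real.pi * I * ((x : ℂ) + ε * I)) =
      ((Real.exp (-(2 * Real.pi * ε)) : ℝ) : ℂ) * exp ((2 * Real.pi * x : ℝ) * I) := by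
    rw [Complex.ofReal_exp, ← Complex.exp_add]
    congr 1
    push_cast
    linear_combination (2 * Real.pi * ε : ℂ) * Complex.I_mul_I
  rw [kap, h]

private theorem PKern_univ : (Finset.univ : Finset SignType) = {0, 1, -1} := by decide

theorem kr_sum (ε x : ℝ) (hε : 0 < ε) : ∑ τ : SignType, kr ε τ (x : ℂ) = (PK ε x : ℂ) := by
  rw [PKern_univ, Finset.sum_insert (by decide), Finset.sum_insert (by decide),
    Finset.sum_singleton]
  have h1 : kr ε 0 (x : ℂ) = 1 := by simp [kr]
  have h2 : kr ε 1 (x : ℂ) = kap ((x : ℂ) + ε * I) := by simp [kr, sgn]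
  have h3 : kr ε (-1) (x : ℂ) = kap (((-x : ℝ) : ℂ) + ε * I) := by simp [kr, sgn]
  rw [h1, h2, h3, PKern_kap, PKern_kap, ← add_assoc]
  have h4 : (2 * Real.pi * (-x) : ℝ) = -(2 * Real.pi * x) := by ring
  rw [h4, PKern_kr_sum _ _ (Real.exp_pos _) (PKern_q_lt ε hε)]
  rfl

theorem PK_integral (ε : ℝ) (hε : 0 < ε) : ∫ x in (-(1 / 2) : ℝ)..(1 / 2), PK ε x = 1 := by
  have hper : Function.Periodic (PK ε) 1 := by
    intro x
    have := PK_add_int ε x 1
    simpa using this
  have e1 : ∫ x in (-(1 / 2) : ℝ)..(1 / 2), PK ε x = ∫ x in (0 : ℝ)..1, PK ε x := by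
    have := hper.intervalIntegral_add_eq (-(1 / 2)) 0
    norm_num at this
    norm_num
    exact this
  rw [e1]
  set q : ℝ := Real.exp (-(2 * Real.pi * ε)) with hq
  have h0 : 0 < q := Real.exp_pos _
  have h1 : q < 1 := PKern_q_lt ε hε
  -- the holomorphic function
  have hd : DiffContOnCl ℂ (fun z : ℂ => (1 + z) / (1 - z)) (Metric.ball (0 : ℂ) |q|) := by
    apply DifferentiableOn.diffContOnCl
    intro z hz
    have hz1 : ‖z‖ ≤ q := by
      have := Metric.closure_ball_subset_closedBall hz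
      rw [mem_closedBall_zero_iff, abs_of_pos h0] at this
      exact this
    have hz2 : 1 - z ≠ 0 := by
      intro h
      have h5 : z = 1 := by linear_combination -h
      rw [h5, norm_one] at hz1
      linarith
    apply DifferentiableAt.differentiableWithinAt
    apply DifferentiableAt.div
    · fun_prop
    · fun_prop
    · exact hz2
  have hc := hd.circleAverage
  rw [Real.circleAverage_def] at hc
  have hint : IntervalIntegrable (fun θ : ℝ => (1 + circleMap 0 q θ) / (1 - circleMap 0 q θ))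
      MeasureTheory.volume 0 (2 * Real.pi) := by
    apply Continuous.intervalIntegrable
    apply Continuous.div
    · have := continuous_circleMap 0 q
      fun_prop
    · have := continuous_circleMap 0 q
      fun_prop
    · intro θ
      rw [circleMap, zero_add]
      exact PKern_ne q θ h0 h1
  have hre : ∀ θ : ℝ, ((1 + circleMap 0 q θ) / (1 - circleMap 0 q θ)).re =
      (1 - q ^ 2) / (1 - 2 * q * Real.cos θ + q ^ 2) := by
    intro θ
    have hne := PKern_ne q θ h0 h1
    rw [circleMap, zero_add]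
    have h6 := PKern_kr_sum q θ h0 h1
    have h7 : (1 + (q : ℂ) * exp (θ * I)) / (1 - q * exp (θ * I)) =
        1 + 2 * ((q : ℂ) * exp (θ * I) / (1 - q * exp (θ * I))) := by
      field_simp
      ring
    have h8 : (q : ℂ) * exp ((-θ : ℝ) * I) / (1 - q * exp ((-θ : ℝ) * I)) =
        (starRingEnd ℂ) ((q : ℂ) * exp (θ * I) / (1 - q * exp (θ * I))) := by
      rw [map_div₀, map_sub, map_one, map_mul, Complex.conj_ofReal, ← Complex.exp_conj, map_mul,
        Complex.conj_ofReal, Complex.conj_I]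
      push_cast
      ring_nf
    rw [h8] at h6
    have h9 := congrArg Complex.re h6
    rw [Complex.ofReal_re, Complex.add_re, Complex.add_re, Complex.conj_re, Complex.one_re] at h9
    rw [h7, Complex.add_re, Complex.one_re, ← h9, ← ofReal_ofNat, Complex.re_ofReal_mul]
    ring
  have hI : ∫ θ in (0 : ℝ)..(2 * Real.pi), (1 - q ^ 2) / (1 - 2 * q * Real.cos θ + q ^ 2) =
      2 * Real.pi := by
    have h10 : ∫ θ in (0 : ℝ)..(2 * Real.pi),
        (1 + circleMap 0 q θ) / (1 - circleMap 0 q θ) = ((2 * Real.pi : ℝ) : ℂ) := by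
      have hpi : ((2 * Real.pi : ℝ)) ≠ 0 := by
        have := Real.pi_pos
        positivity
      have h11 : ((2 * Real.pi : ℝ)⁻¹) • ∫ θ in (0 : ℝ)..(2 * Real.pi),
          (1 + circleMap 0 q θ) / (1 - circleMap 0 q θ) = (1 : ℂ) := by
        rw [hc]
        norm_num
      have h12 := congrArg (fun z : ℂ => (2 * Real.pi : ℝ) • z) h11
      simp only [smul_smul, mul_inv_cancel₀ hpi, one_smul] at h12
      rw [h12, Complex.real_smul, mul_one]
    have h13 := congrArg Complex.re h10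
    rw [Complex.ofReal_re] at h13
    have h14 := Complex.reCLM.intervalIntegral_comp_comm hint
    simp only [Complex.reCLM_apply] at h14
    rw [h13] at h14
    exact (intervalIntegral.integral_congr fun θ _ => (hre θ).symm).trans h14
  have h15 : ∀ x : ℝ, PK ε x =
      (fun θ : ℝ => (1 - q ^ 2) / (1 - 2 * q * Real.cos θ + q ^ 2)) (2 * Real.pi * x) :=
    fun x => rfl
  have hpi : (2 * Real.pi : ℝ) ≠ 0 := by
    have := Real.pi_pos
    positivity
  calc ∫ x in (0 : ℝ)..1, PK ε x
      = ∫ x in (0 : ℝ)..1,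
        (fun θ : ℝ => (1 - q ^ 2) / (1 - 2 * q * Real.cos θ + q ^ 2)) (2 * Real.pi * x) :=
        intervalIntegral.integral_congr fun x _ => h15 x
    _ = 1 := by
        refine (intervalIntegral.integral_comp_mul_left
          (fun θ : ℝ => (1 - q ^ 2) / (1 - 2 * q * Real.cos θ + q ^ 2)) hpi).trans ?_
        rw [mul_zero, mul_one, hI, smul_eq_mul, inv_mul_cancel₀ hpi]

theorem PK_tail (d : ℝ) (hd : 0 < d) : ∃ C : ℝ, 0 < C ∧ ∀ ε x : ℝ, 0 < ε → ε ≤ 1 → d ≤ |x| →
    |x| ≤ 1 / 2 → PK ε x ≤ C * ε := by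
  set e : ℝ := min d (1 / 2) with he
  have he0 : 0 < e := lt_min hd (by norm_num)
  have he1 : e ≤ 1 / 2 := min_le_right _ _
  have hpi := Real.pi_pos
  have hcos : Real.cos (2 * Real.pi * e) < 1 := by
    have := Real.cos_lt_cos_of_nonneg_of_le_pi (le_refl (0 : ℝ))
      (show 2 * Real.pi * e ≤ Real.pi by nlinarith) (by positivity)
    rwa [Real.cos_zero] at this
  set κ : ℝ := min (1 / 4) (1 - Real.cos (2 * Real.pi * e)) with hκ
  have hκ0 : 0 < κ := lt_min (by norm_num) (by linarith)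
  refine ⟨4 * Real.pi / κ, by positivity, ?_⟩
  intro ε x hε _ hdx hx
  have h0 := Real.exp_pos (-(2 * Real.pi * ε))
  have h1 := PKern_q_lt ε hε
  unfold PK
  set q : ℝ := Real.exp (-(2 * Real.pi * ε)) with hq
  have hnum : 1 - q ^ 2 ≤ 4 * Real.pi * ε := by
    have h2 : q ^ 2 = Real.exp (-(4 * Real.pi * ε)) := by
      rw [hq, ← Real.exp_nat_mul]
      congr 1
      push_cast
      ring
    rw [h2]
    have := Real.add_one_le_exp (-(4 * Real.pi * ε))
    linarith
  have hcx : Real.cos (2 * Real.pi * x) ≤ Real.cos (2 * Real.pi * e) := by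
    have h3 : Real.cos (2 * Real.pi * x) = Real.cos (2 * Real.pi * |x|) := by
      rw [← Real.cos_abs (2 * Real.pi * x), abs_mul, abs_of_pos (by positivity)]
    rw [h3]
    apply Real.cos_le_cos_of_nonneg_of_le_pi
    · positivity
    · nlinarith
    · apply mul_le_mul_of_nonneg_left _ (by positivity)
      exact (min_le_left _ _).trans hdx
  have hden : κ ≤ 1 - 2 * q * Real.cos (2 * Real.pi * x) + q ^ 2 := by
    rw [PKern_den]
    have h4 : 0 ≤ 1 - Real.cos (2 * Real.pi * x) := by linarith [Real.cos_le_one (2 * Real.pi * x)]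
    rcases le_total q (1 / 2) with h5 | h5
    · have h6 : κ ≤ 1 / 4 := min_le_left _ _
      have h7 : 0 ≤ 2 * q * (1 - Real.cos (2 * Real.pi * x)) := by positivity
      nlinarith
    · have h6 : κ ≤ 1 - Real.cos (2 * Real.pi * e) := min_le_right _ _
      have h7 : 0 ≤ (1 - q) ^ 2 := sq_nonneg _
      nlinarith
  have h8 : 0 ≤ 1 - q ^ 2 := by nlinarith
  calc (1 - q ^ 2) / (1 - 2 * q * Real.cos (2 * Real.pi * x) + q ^ 2)
      ≤ (1 - q ^ 2) / κ := div_le_div_of_nonneg_left h8 hκ0 hden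
    _ ≤ 4 * Real.pi * ε / κ := by
        apply div_le_div_of_nonneg_right hnum hκ0.le
    _ = 4 * Real.pi / κ * ε := by ring

theorem krp_sum {ι : Type} [Fintype ι] [DecidableEq ι] (ε : ℝ) (hε : 0 < ε) (M : ℕ) (o a : ι → ℝ) :
    ∑ σ : ι → SignType, krp ε M o σ (rc a) = ∏ j, (PK ε (M * a j - o j) : ℂ) := by
  have h : ∀ j : ι, (PK ε (M * a j - o j) : ℂ) =
      ∑ τ : SignType, kr ε τ ((M : ℂ) * rc a j - o j) := by
    intro j
    rw [← kr_sum ε _ hε]
    refine Finset.sum_congr rfl fun τ _ => ?_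
    congr 1
    simp [rc]
  rw [Finset.prod_congr rfl fun j _ => h j, Finset.prod_univ_sum, Fintype.piFinset_univ]
  rfl

end Pool.Agent.H63.GO
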