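import Mathlib

/-! # Symmetric cutoff functions -/

namespace Pool.Agent.H63.GO

open Complex Filter Topology
open scoped BigOperators

private theorem SCut_base {ι : Type} [Fintype ι] (G W : Set (ι → ℝ))
    (hG : IsCompact G) (hW : IsOpen W) (hGW : G ⊆ W) :
    ∃ χ : (ι → ℝ) → ℝ, ContDiff ℝ 1 χ ∧ tsupport χ ⊆ W ∧
      (∀ a, 0 ≤ χ a) ∧ (∀ a, χ a ≤ 1) ∧ G ⊆ interior {a | χ a = 1} := by
  obtain ⟨L1, hL1, hGL, hL1W⟩ := exists_compact_between hG hW hGW
  obtain ⟨L2, hL2, hL12, hL2W⟩ := exists_compact_between hL1 hW hL1W
  obtain ⟨f, hf1, hf2, hf3, hf4⟩ := exists_contMDiff_support_eq_eq_one_iff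
    (modelWithCornersSelf ℝ (ι → ℝ)) (isOpen_interior (s := L2)) hL1.isClosed hL12
  refine ⟨f, ?_, ?_, fun a => ?_, fun a => ?_, ?_⟩
  · exact (contMDiff_iff_contDiff.1 hf1).of_le (by exact_mod_cast le_top)
  · unfold tsupport
    rw [hf3]
    exact (closure_minimal interior_subset hL2.isClosed).trans hL2W
  · exact (hf2 ⟨a, rfl⟩).1
  · exact (hf2 ⟨a, rfl⟩).2
  · refine hGL.trans (interior_mono fun a ha => ?_)
    exact (hf4 a).1 ha

private theorem SCut_smooth {ι : Type} [Fintype ι] [DecidableEq ι] (j : ι) :
    ContDiff ℝ 1 (fun a : ι → ℝ => Function.update a j (-a j)) := by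
  rw [contDiff_pi]
  intro i
  by_cases h : i = j
  · subst h
    simp only [Function.update_self]
    exact (contDiff_apply ℝ ℝ i).neg
  · simp only [Function.update_of_ne h]
    exact contDiff_apply ℝ ℝ i

private theorem SCut_invol {ι : Type} [DecidableEq ι] (j : ι) (a : ι → ℝ) :
    Function.update (Function.update a j (-a j)) j
      (-(Function.update a j (-a j)) j) = a := by
  rw [Function.update_self, neg_neg, Function.update_idem, Function.update_eq_self]

private theorem SCut_comm {ι : Type} [DecidableEq ι] (i j : ι) (hij : i ≠ j) (a : ι → ℝ) :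
    Function.update (Function.update a i (-a i)) j (-(Function.update a i (-a i)) j) =
      Function.update (Function.update a j (-a j)) i (-(Function.update a j (-a j)) i) := by
  rw [Function.update_of_ne hij.symm, Function.update_of_ne hij, Function.update_comm hij]

/-- A smooth cutoff function, even in the coordinates in `Bv`. -/
theorem cutoff {ι : Type} [Fintype ι] [DecidableEq ι] (Bv : Finset ι) (G W : Set (ι → ℝ))
    (hG : IsCompact G) (hW : IsOpen W) (hWb : Bornology.IsBounded W) (hGW : G ⊆ W)
    (hGs : ∀ a ∈ G, ∀ j ∈ Bv, Function.update a j (-a j) ∈ G)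
    (hWs : ∀ a ∈ W, ∀ j ∈ Bv, Function.update a j (-a j) ∈ W) :
    ∃ χ : (ι → ℝ) → ℝ, ContDiff ℝ 1 χ ∧ HasCompactSupport χ ∧ tsupport χ ⊆ W ∧
      (∀ a, 0 ≤ χ a) ∧ (∀ a, χ a ≤ 1) ∧ G ⊆ interior {a | χ a = 1} ∧
      ∀ a, ∀ j ∈ Bv, χ (Function.update a j (-a j)) = χ a := by
  have key : ∀ s : Finset ι, s ⊆ Bv → ∃ χ : (ι → ℝ) → ℝ, ContDiff ℝ 1 χ ∧ tsupport χ ⊆ W ∧
      (∀ a, 0 ≤ χ a) ∧ (∀ a, χ a ≤ 1) ∧ G ⊆ interior {a | χ a = 1} ∧
      ∀ a, ∀ j ∈ s, χ (Function.update a j (-a j)) = χ a := by
    intro s
    induction s using Finset.induction_on with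
    | empty =>
      intro _
      obtain ⟨χ, h1, h2, h3, h4, h5⟩ := SCut_base G W hG hW hGW
      exact ⟨χ, h1, h2, h3, h4, h5, fun a j hj => absurd hj (Finset.notMem_empty j)⟩
    | insert j s hj ih =>
      intro hs
      obtain ⟨χ, h1, h2, h3, h4, h5, h6⟩ := ih fun i hi => hs (Finset.mem_insert_of_mem hi)
      have hjB : j ∈ Bv := hs (Finset.mem_insert_self j s)
      have hc : Continuous (fun a : ι → ℝ => Function.update a j (-a j)) :=
        (SCut_smooth j).continuous
      refine ⟨fun a => (χ a + χ (Function.update a j (-a j))) / 2, ?_, ?_, fun a => ?_,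
        fun a => ?_, ?_, ?_⟩
      · exact (h1.add (h1.comp (SCut_smooth j))).div_const 2
      · have hsub : Function.support (fun a => (χ a + χ (Function.update a j (-a j))) / 2) ⊆
            tsupport χ ∪ (fun a : ι → ℝ => Function.update a j (-a j)) ⁻¹' (tsupport χ) := by
          intro a ha
          by_contra hn
          rw [Set.mem_union, not_or] at hn
          have e1 : χ a = 0 := by
            by_contra h
            exact hn.1 (subset_tsupport χ h)
          have e2 : χ (Function.update a j (-a j)) = 0 := by
            by_contra h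
            exact hn.2 (subset_tsupport χ h)
          refine ha ?_
          show (χ a + χ (Function.update a j (-a j))) / 2 = 0
          rw [e1, e2, add_zero, zero_div]
        have hcl : IsClosed (tsupport χ ∪
            (fun a : ι → ℝ => Function.update a j (-a j)) ⁻¹' (tsupport χ)) :=
          (isClosed_tsupport χ).union ((isClosed_tsupport χ).preimage hc)
        refine (closure_minimal hsub hcl).trans ?_
        rintro a (ha | ha)
        · exact h2 ha
        · have h7 := hWs _ (h2 ha) j hjB
          rw [SCut_invol] at h7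
          exact h7
      · have e1 := h3 a
        have e2 := h3 (Function.update a j (-a j))
        positivity
      · have e1 := h4 a
        have e2 := h4 (Function.update a j (-a j))
        show (χ a + χ (Function.update a j (-a j))) / 2 ≤ 1
        linarith
      · intro a ha
        have e1 : a ∈ interior {a | χ a = 1} := h5 ha
        have e2 : Function.update a j (-a j) ∈ interior {a | χ a = 1} := h5 (hGs a ha j hjB)
        refine mem_interior.2 ⟨interior {a | χ a = 1} ∩
          (fun a : ι → ℝ => Function.update a j (-a j)) ⁻¹' (interior {a | χ a = 1}), ?_,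
          isOpen_interior.inter (isOpen_interior.preimage hc), e1, e2⟩
        rintro c ⟨hc1, hc2⟩
        have e3 : c ∈ {a | χ a = 1} := interior_subset hc1
        have e4 : Function.update c j (-c j) ∈ {a | χ a = 1} := interior_subset hc2
        have e5 : χ c = 1 := e3
        have e6 : χ (Function.update c j (-c j)) = 1 := e4
        show (χ c + χ (Function.update c j (-c j))) / 2 = 1
        rw [e5, e6]
        norm_num
      · intro a i hi
        rw [Finset.mem_insert] at hi
        by_cases hij : i = j
        · subst hij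
          show (χ (Function.update a i (-a i)) + χ (Function.update (Function.update a i (-a i)) i
            (-(Function.update a i (-a i)) i))) / 2 = (χ a + χ (Function.update a i (-a i))) / 2
          rw [SCut_invol, add_comm]
        · have hi' : i ∈ s := hi.resolve_left hij
          show (χ (Function.update a i (-a i)) + χ (Function.update (Function.update a i (-a i)) j
            (-(Function.update a i (-a i)) j))) / 2 = (χ a + χ (Function.update a j (-a j))) / 2
          rw [h6 a i hi', SCut_comm i j hij, h6 (Function.update a j (-a j)) i hi']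
  obtain ⟨χ, h1, h2, h3, h4, h5, h6⟩ := key Bv (Finset.Subset.refl Bv)
  refine ⟨χ, h1, ?_, h2, h3, h4, h5, h6⟩
  exact Metric.isCompact_of_isClosed_isBounded (isClosed_tsupport χ) (hWb.subset h2)

end Pool.Agent.H63.GO
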